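import Pool.Agent.helper387_fk.Trie

/-!
Star polynomials of degree 13 and 14.
-/

namespace H387FK

open W Tm

def c12_0 : List Tm := [t true 1 (f (d (a (c (a (d (a (c (a (f (a (b (a e))))))))))))), t true 1 (f
  (d (b (c (b (d (b (c (b (f (a (b (a e))))))))))))), t false 2 (d (b (f (a (c (a (f (b (d (a (c (b
  (a e))))))))))))), t true 1 (d (f (b (a (c (a (b (f (d (a (c (b (a e))))))))))))), t true 1 (d (f
  (a (c (b (a (f (d (a (b (c (b (a e))))))))))))), t true 1 (f (b (d (a (c (b (f (a (d (b (c (b (a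
  e))))))))))))), t false 1 (f (b (d (b (f (a (c (b (d (b (c (b (a e))))))))))))), t true 1 (a (f (b
  (d (b (f (c (b (d (b (c (b (a e))))))))))))), t false 1 (f (b (d (c (b (f (a (c (d (b (c (b (a
  e))))))))))))), t false 1 (f (c (b (d (c (f (a (c (d (b (c (b (a e))))))))))))), t true 1 (a (f (b
  (d (c (b (f (c (d (b (c (b (a e))))))))))))), t true 1 (a (f (c (b (d (c (f (c (d (b (c (b (a
  e))))))))))))), t false 1 (b (d (f (a (c (b (a (f (d (b (c (b (a e))))))))))))), t false 1 (c (b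
  (d (f (a (c (a (f (d (b (c (b (a e))))))))))))), t false 1 (d (a (c (b (f (a (d (a (f (b (c (b (a
  e))))))))))))), t true 1 (d (b (f (c (b (d (a (c (f (b (c (b (a e))))))))))))), t false 1 (a (d (b
  (f (c (b (d (c (f (b (c (b (a e))))))))))))), t false 1 (f (c (d (b (c (f (a (c (b (d (c (b (a
  e))))))))))))), t true 1 (a (f (c (d (b (c (f (c (b (d (c (b (a e))))))))))))), t true 2 (c (d (b
  (f (a (c (a (f (b (d (c (b (a e))))))))))))), t false 1 (c (d (f (b (a (c (a (b (f (d (c (b (a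
  e))))))))))))), t true 1 (b (c (d (f (b (a (c (b (f (d (c (b (a e))))))))))))), t false 1 (a (b (c
  (d (f (b (c (b (f (d (c (b (a e))))))))))))), t true 1 (d (b (a (c (f (a (b (d (a (f (c (b (a
  e))))))))))))), t true 1 (d (a (c (f (b (a (d (a (b (f (c (b (a e))))))))))))), t true 1 (d (b (c
  (f (b (d (a (c (b (f (c (b (a e))))))))))))), t false 1 (a (d (b (c (f (b (d (c (b (f (c (b (a
  e))))))))))))), t false 1 (b (d (a (c (f (b (a (d (b (f (c (b (a e))))))))))))), t false 1 (c (b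
  (f (a (d (a (f (b (c (a (d (b (a e))))))))))))), t true 3 (c (f (a (d (b (a (f (c (a (b (d (b (a
  e))))))))))))), t false 1 (c (f (b (a (d (b (f (c (a (b (d (b (a e))))))))))))), t false 1 (f (c
  (b (a (d (b (c (f (a (b (d (b (a e))))))))))))), t true 1 (f (a (d (b (c (a (f (a (c (b (d (b (a
  e))))))))))))), t true 1 (f (c (a (d (b (c (f (a (c (b (d (b (a e))))))))))))), t false 2 (f (b (c
  (b (f (a (d (b (c (b (d (b (a e))))))))))))), t true 2 (a (f (b (c (b (f (d (b (c (b (d (b (a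
  e))))))))))))), t true 2 (c (f (a (d (b (c (a (f (c (b (d (b (a e))))))))))))), t true 1 (b (c (f
  (b (a (d (b (f (c (b (d (b (a e))))))))))))), t false 1 (a (b (c (f (b (d (b (f (c (b (d (b (a
  e))))))))))))), t false 2 (c (a (d (b (f (a (c (a (f (b (d (b (a e))))))))))))), t false 1 (c (b
  (f (a (d (b (c (a (f (b (d (b (a e))))))))))))), t true 1 (b (f (c (b (a (d (b (c (f (b (d (b (a
  e))))))))))))), t false 1 (a (b (f (c (b (d (b (c (f (b (d (b (a e))))))))))))), t false 1 (f (c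
  (b (a (d (c (f (a (b (c (d (b (a e))))))))))))), t false 1 (c (b (f (a (d (c (a (f (b (c (d (b (a
  e))))))))))))), t true 1 (b (f (c (b (a (d (c (f (b (c (d (b (a e))))))))))))), t false 1 (a (b (f
  (c (b (d (c (f (b (c (d (b (a e))))))))))))), t true 1 (c (a (d (f (b (a (c (a (b (f (d (b (a
  e))))))))))))), t false 1 (b (c (a (d (f (b (a (c (b (f (d (b (a e))))))))))))), t false 1 (a (f
  (d (a (c (a (d (a (c (a (f (b (a e))))))))))))), t true 1 (c (d (a (f (b (a (d (c (a (b (f (b (a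
  e))))))))))))), t false 1 (d (b (c (a (f (b (d (a (c (b (f (b (a e))))))))))))), t false 1 (a (f
  (d (b (c (b (d (b (c (b (f (b (a e))))))))))))), t false 1 (d (b (c (b (d (a (f (b (c (b (f (b (a
  e))))))))))))), t true 1 (a (d (b (c (b (d (f (b (c (b (f (b (a e))))))))))))), t false 1 (b (c (d
  (a (f (b (a (d (c (b (f (b (a e))))))))))))), t true 1 (d (b (a (f (c (a (b (d (a (c (f (b (a
  e))))))))))))), t true 1 (d (a (f (c (b (a (d (a (b (c (f (b (a e))))))))))))), t false 1 (b (d (a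
  (f (c (b (a (d (b (c (f (b (a e))))))))))))), t false 1 (f (a (d (a (f (b (c (a (d (b (a (c (a
  e))))))))))))), t true 1 (b (f (a (d (a (f (c (a (d (b (a (c (a e))))))))))))), t true 2 (f (a (d
  (b (c (a (f (b (d (b (a (c (a e))))))))))))), t false 1 (f (a (d (c (a (f (b (c (d (b (a (c (a
  e))))))))))))), t false 1 (f (c (a (d (c (f (b (c (d (b (a (c (a e))))))))))))), t true 1 (b (f (a
  (d (c (a (f (c (d (b (a (c (a e))))))))))))), t true 1 (b (f (c (a (d (c (f (c (d (b (a (c (a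
  e))))))))))))), t false 1 (a (d (f (b (c (a (b (f (d (b (a (c (a e))))))))))))), t false 1 (c (a
  (d (f (b (c (b (f (d (b (a (c (a e))))))))))))), t false 1 (d (b (c (a (f (b (d (b (f (b (a (c (a
  e))))))))))))), t true 1 (d (a (f (c (a (d (b (c (f (b (a (c (a e))))))))))))), t false 1 (b (d (a
  (f (c (a (d (c (f (b (a (c (a e))))))))))))), t false 1 (d (a (f (b (c (b (f (b (a (d (a (c (a
  e))))))))))))), t false 2 (f (a (c (a (f (d (b (c (b (d (a (c (a e))))))))))))), t true 1 (d (a (f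
  (b (c (a (b (f (b (d (a (c (a e))))))))))))), t true 1 (d (a (f (b (c (b (f (a (d (a (b (c (a
  e))))))))))))), t false 1 (d (f (a (b (c (b (a (f (d (a (b (c (a e))))))))))))), t false 1 (f (a
  (d (a (f (b (c (b (a (d (b (c (a e))))))))))))), t true 1 (b (f (a (d (a (f (c (b (a (d (b (c (a
  e))))))))))))), t false 2 (f (a (d (b (c (a (f (a (b (d (b (c (a e))))))))))))), t false 1 (f (a
  (d (b (a (f (a (c (b (d (b (c (a e))))))))))))), t true 1 (f (a (d (a (f (a (b (c (b (d (b (c (a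
  e))))))))))))), t true 1 (b (f (a (d (b (a (f (c (b (d (b (c (a e))))))))))))), t false 1 (f (a (d
  (c (b (a (f (a (c (d (b (c (a e))))))))))))), t false 1 (f (c (b (a (d (c (f (a (c (d (b (c (a
  e))))))))))))), t true 1 (f (a (d (c (a (f (a (b (c (d (b (c (a e))))))))))))), t true 1 (f (c (a
  (d (c (f (a (b (c (d (b (c (a e))))))))))))), t true 1 (b (f (a (d (c (b (a (f (c (d (b (c (a
  e))))))))))))), t true 1 (b (f (c (b (a (d (c (f (c (d (b (c (a e))))))))))))), t false 1 (a (b (f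
  (c (b (d (c (f (c (d (b (c (a e))))))))))))), t false 1 (b (c (a (d (f (a (b (a (f (d (b (c (a
  e))))))))))))), t true 1 (c (a (d (f (b (c (a (b (f (d (b (c (a e))))))))))))), t true 1 (d (b (c
  (a (f (b (d (a (b (f (b (c (a e))))))))))))), t true 1 (d (a (f (c (b (a (d (a (c (f (b (c (a
  e))))))))))))), t false 1 (d (a (f (c (a (d (a (b (c (f (b (c (a e))))))))))))), t false 1 (b (d
  (a (f (c (b (a (d (c (f (b (c (a e))))))))))))), t false 1 (f (c (d (a (c (f (b (c (b (a (d (c (a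
  e))))))))))))), t true 1 (b (f (c (d (a (c (f (c (b (a (d (c (a e))))))))))))), t true 1 (c (d (a
  (f (b (c (b (f (b (a (d (c (a e))))))))))))), t false 1 (f (c (d (b (a (c (f (a (c (b (d (c (a
  e))))))))))))), t true 1 (f (c (d (a (c (f (a (b (c (b (d (c (a e)))))))))))))]

def c12_1 : List Tm := [t true 2 (f (a (c (a (f (a (d (b (c (b (d (c (a e))))))))))))), t true 1 (b
  (f (c (d (b (a (c (f (c (b (d (c (a e))))))))))))), t false 1 (a (b (f (c (d (b (c (f (c (b (d (c
  (a e))))))))))))), t false 1 (c (d (a (f (b (c (a (b (f (b (d (c (a e))))))))))))), t false 1 (b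
  (d (f (c (d (c (a (b (a (f (d (c (a e))))))))))))), t false 1 (b (a (c (d (f (a (c (b (a (f (d (c
  (a e))))))))))))), t true 1 (a (c (d (f (a (b (c (b (a (f (d (c (a e))))))))))))), t true 1 (d (a
  (c (f (a (d (b (c (b (a (f (c (a e))))))))))))), t false 1 (b (d (a (c (f (a (d (c (b (a (f (c (a
  e))))))))))))), t false 2 (a (d (b (c (f (a (b (d (b (a (f (c (a e))))))))))))), t true 1 (d (a (c
  (f (b (c (b (a (d (a (f (c (a e))))))))))))), t false 1 (d (a (c (f (a (d (a (b (c (b (f (c (a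
  e))))))))))))), t false 2 (f (a (c (a (f (b (d (a (c (b (a (d (a e))))))))))))), t true 2 (b (f (a
  (c (a (f (d (a (c (b (a (d (a e))))))))))))), t true 1 (f (c (b (d (a (c (f (b (c (b (a (d (a
  e))))))))))))), t false 1 (b (a (c (f (a (d (a (f (c (b (a (d (a e))))))))))))), t true 1 (a (c (f
  (a (b (d (a (f (c (b (a (d (a e))))))))))))), t true 1 (c (f (b (d (a (c (b (f (c (b (a (d (a
  e))))))))))))), t false 1 (c (b (d (a (f (b (c (b (f (b (a (d (a e))))))))))))), t false 1 (b (a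
  (f (c (a (d (a (c (f (b (a (d (a e))))))))))))), t true 1 (a (f (c (a (b (d (a (c (f (b (a (d (a
  e))))))))))))), t false 1 (c (a (f (b (d (b (f (b (a (c (a (d (a e))))))))))))), t true 1 (c (a (f
  (b (d (a (b (f (b (c (a (d (a e))))))))))))), t true 1 (c (a (f (b (d (b (f (a (c (a (b (d (a
  e))))))))))))), t false 2 (c (f (a (b (d (b (a (f (c (a (b (d (a e))))))))))))), t false 1 (f (c
  (a (b (d (b (a (c (f (a (b (d (a e))))))))))))), t true 1 (f (b (d (b (a (c (a (f (a (c (b (d (a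
  e))))))))))))), t true 1 (f (c (b (d (b (a (c (f (a (c (b (d (a e))))))))))))), t false 1 (f (c (a
  (b (d (b (c (f (a (c (b (d (a e))))))))))))), t false 1 (f (c (b (d (a (c (f (a (b (c (b (d (a
  e))))))))))))), t false 2 (f (a (c (b (a (f (a (d (b (c (b (d (a e))))))))))))), t true 2 (b (f (a
  (c (b (a (f (d (b (c (b (d (a e))))))))))))), t false 1 (b (a (c (f (a (d (b (a (f (c (b (d (a
  e))))))))))))), t true 1 (a (c (f (a (b (d (b (a (f (c (b (d (a e))))))))))))), t false 1 (c (f (a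
  (c (b (d (b (a (f (c (b (d (a e))))))))))))), t true 1 (c (f (b (d (b (a (c (a (f (c (b (d (a
  e))))))))))))), t false 1 (c (f (b (d (a (c (a (b (f (c (b (d (a e))))))))))))), t true 1 (c (a (f
  (a (c (b (d (b (a (f (b (d (a e))))))))))))), t false 1 (c (a (f (b (d (b (a (c (a (f (b (d (a
  e))))))))))))), t true 1 (c (b (d (a (f (b (c (a (b (f (b (d (a e))))))))))))), t false 1 (b (a (f
  (c (a (d (b (a (c (f (b (d (a e))))))))))))), t true 1 (a (f (c (a (b (d (b (a (c (f (b (d (a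
  e))))))))))))), t false 1 (c (a (f (b (d (c (b (f (b (a (c (d (a e))))))))))))), t false 1 (b (a
  (f (c (a (d (c (f (b (a (c (d (a e))))))))))))), t true 1 (a (f (c (a (b (d (c (f (b (a (c (d (a
  e))))))))))))), t true 1 (c (a (f (b (d (c (a (b (f (b (c (d (a e))))))))))))), t true 1 (c (f (c
  (b (d (c (a (b (a (f (c (d (a e))))))))))))), t false 1 (b (c (f (c (d (c (a (b (a (f (c (d (a
  e))))))))))))), t false 1 (c (d (f (c (b (d (c (a (b (a (f (d (a e))))))))))))), t false 1 (a (c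
  (b (d (f (a (b (c (b (a (f (d (a e))))))))))))), t false 1 (d (a (c (a (d (b (f (a (c (b (a (f (a
  e))))))))))))), t true 1 (b (d (a (c (a (d (f (a (c (b (a (f (a e))))))))))))), t false 1 (d (a (c
  (b (f (a (d (b (c (b (a (f (a e))))))))))))), t true 1 (a (b (f (d (a (c (a (d (a (c (a (f (a
  e))))))))))))), t false 1 (d (a (c (b (f (b (c (b (a (d (a (f (a e))))))))))))), t true 1 (d (a (c
  (b (f (a (d (a (b (c (b (f (a e))))))))))))), t true 1 (a (b (f (d (b (c (b (d (b (c (b (f (a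
  e))))))))))))), t false 1 (a (d (b (f (c (a (b (d (b (a (c (f (a e))))))))))))), t false 1 (d (f
  (b (c (a (b (f (d (b (a (c (a (b e))))))))))))), t true 1 (f (a (d (a (f (b (c (a (d (a (c (a (b
  e))))))))))))), t false 1 (b (f (a (d (a (f (c (a (d (a (c (a (b e))))))))))))), t false 2 (f (a
  (d (b (c (a (f (b (d (a (c (a (b e))))))))))))), t true 1 (f (a (d (c (a (f (b (c (d (a (c (a (b
  e))))))))))))), t true 1 (f (c (a (d (c (f (b (c (d (a (c (a (b e))))))))))))), t false 1 (b (f (a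
  (d (c (a (f (c (d (a (c (a (b e))))))))))))), t false 1 (b (f (c (a (d (c (f (c (d (a (c (a (b
  e))))))))))))), t true 1 (a (d (f (b (c (a (b (f (d (a (c (a (b e))))))))))))), t true 1 (c (a (d
  (f (b (c (b (f (d (a (c (a (b e))))))))))))), t true 1 (d (b (c (a (f (b (d (b (f (a (c (a (b
  e))))))))))))), t false 1 (d (a (f (c (a (d (b (c (f (a (c (a (b e))))))))))))), t true 1 (b (d (a
  (f (c (a (d (c (f (a (c (a (b e))))))))))))), t true 1 (d (a (f (b (c (b (f (a (d (b (c (a (b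
  e))))))))))))), t false 1 (d (f (a (b (c (b (a (f (d (b (c (a (b e))))))))))))), t true 1 (f (c (d
  (a (c (f (b (c (a (d (c (a (b e))))))))))))), t false 1 (b (f (c (d (a (c (f (c (a (d (c (a (b
  e))))))))))))), t false 1 (c (d (a (f (b (c (b (f (a (d (c (a (b e))))))))))))), t true 1 (c (d (f
  (a (b (c (b (a (f (d (c (a (b e))))))))))))), t true 1 (b (a (c (d (f (a (c (a (f (d (c (a (b
  e))))))))))))), t false 1 (a (c (d (f (a (b (c (a (f (d (c (a (b e))))))))))))), t false 2 (d (b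
  (c (f (a (b (d (b (a (f (c (a (b e))))))))))))), t false 1 (d (a (c (f (a (d (b (c (a (f (c (a (b
  e))))))))))))), t true 1 (b (d (a (c (f (a (d (c (a (f (c (a (b e))))))))))))), t true 2 (a (d (b
  (c (f (a (b (d (a (f (c (a (b e))))))))))))), t true 1 (c (f (a (b (d (a (f (c (b (a (d (a (b
  e))))))))))))), t false 1 (c (f (b (d (a (b (f (c (b (a (d (a (b e))))))))))))), t true 1 (f (c (a
  (b (d (a (c (f (b (a (d (a (b e))))))))))))), t true 2 (f (a (c (a (f (b (d (a (c (a (d (a (b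
  e))))))))))))), t false 2 (b (f (a (c (a (f (d (a (c (a (d (a (b e))))))))))))), t false 1 (f (c
  (b (d (a (c (f (b (c (a (d (a (b e))))))))))))), t true 1 (b (a (c (f (a (d (a (f (c (a (d (a (b
  e))))))))))))), t false 1 (a (c (f (a (b (d (a (f (c (a (d (a (b e))))))))))))), t false 1 (c (f
  (b (d (a (c (b (f (c (a (d (a (b e))))))))))))), t true 1 (c (b (d (a (f (b (c (b (f (a (d (a (b
  e))))))))))))), t true 1 (b (a (f (c (a (d (a (c (f (a (d (a (b e))))))))))))), t false 1 (a (f (c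
  (a (b (d (a (c (f (a (d (a (b e))))))))))))), t true 1 (c (a (f (b (d (b (f (a (c (b (d (a (b
  e))))))))))))), t true 1 (f (c (a (b (d (c (f (b (a (c (d (a (b e))))))))))))), t true 1 (c (a (f
  (b (d (c (b (f (a (c (d (a (b e))))))))))))), t true 1 (b (a (f (c (a (d (c (f (a (c (d (a (b
  e))))))))))))), t false 1 (a (f (c (a (b (d (c (f (a (c (d (a (b e)))))))))))))]

def c12_2 : List Tm := [t false 1 (c (b (d (f (a (b (c (b (a (f (d (a (b e))))))))))))), t true 1 (a
  (c (b (d (f (a (b (c (a (f (d (a (b e))))))))))))), t true 1 (b (f (d (a (c (a (d (a (c (a (f (a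
  (b e))))))))))))), t true 1 (d (a (c (a (d (b (f (a (c (a (f (a (b e))))))))))))), t false 1 (b (d
  (a (c (a (d (f (a (c (a (f (a (b e))))))))))))), t true 1 (d (a (c (b (f (a (d (b (c (a (f (a (b
  e))))))))))))), t true 1 (b (f (d (b (c (b (d (b (c (b (f (a (b e))))))))))))), t false 1 (d (b (f
  (c (a (b (d (b (a (c (f (a (b e))))))))))))), t true 1 (a (d (b (f (c (a (b (d (a (c (f (a (b
  e))))))))))))), t false 2 (d (b (f (a (c (a (f (b (d (b (a (c (b e))))))))))))), t true 1 (d (f (b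
  (a (c (a (b (f (d (b (a (c (b e))))))))))))), t true 1 (f (b (d (a (c (b (f (b (a (d (a (c (b
  e))))))))))))), t false 1 (f (b (d (b (f (b (a (c (a (d (a (c (b e))))))))))))), t true 1 (f (b (d
  (a (b (f (b (c (a (d (a (c (b e))))))))))))), t false 1 (a (f (b (d (a (b (f (c (a (d (a (c (b
  e))))))))))))), t true 1 (f (b (d (b (f (a (c (a (b (d (a (c (b e))))))))))))), t false 1 (a (f (b
  (d (b (f (c (a (b (d (a (c (b e))))))))))))), t true 1 (f (b (d (b (a (c (a (f (b (d (a (c (b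
  e))))))))))))), t false 1 (f (b (d (a (c (a (b (f (b (d (a (c (b e))))))))))))), t false 1 (f (b
  (d (c (b (f (b (a (c (d (a (c (b e))))))))))))), t false 1 (f (c (b (d (c (f (b (a (c (d (a (c (b
  e))))))))))))), t true 1 (f (b (d (c (a (b (f (b (c (d (a (c (b e))))))))))))), t true 1 (f (c (a
  (b (d (c (f (b (c (d (a (c (b e))))))))))))), t false 1 (a (f (b (d (c (a (b (f (c (d (a (c (b
  e))))))))))))), t true 1 (b (a (f (c (a (d (c (f (c (d (a (c (b e))))))))))))), t false 1 (a (f (c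
  (a (b (d (c (f (c (d (a (c (b e))))))))))))), t false 1 (a (c (b (d (f (a (b (a (f (d (a (c (b
  e))))))))))))), t false 1 (c (b (d (f (a (c (b (a (f (d (a (c (b e))))))))))))), t false 1 (d (a
  (c (b (f (a (d (b (a (f (a (c (b e))))))))))))), t true 1 (d (b (f (c (b (d (b (a (c (f (a (c (b
  e))))))))))))), t false 1 (d (b (f (c (a (b (d (b (c (f (a (c (b e))))))))))))), t true 1 (a (d (b
  (f (c (a (b (d (c (f (a (c (b e))))))))))))), t false 1 (f (b (d (a (c (b (f (a (d (a (b (c (b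
  e))))))))))))), t true 1 (f (b (d (b (f (a (c (b (d (a (b (c (b e))))))))))))), t false 1 (a (f (b
  (d (b (f (c (b (d (a (b (c (b e))))))))))))), t true 1 (f (b (d (c (b (f (a (c (d (a (b (c (b
  e))))))))))))), t true 1 (f (c (b (d (c (f (a (c (d (a (b (c (b e))))))))))))), t false 1 (a (f (b
  (d (c (b (f (c (d (a (b (c (b e))))))))))))), t false 1 (a (f (c (b (d (c (f (c (d (a (b (c (b
  e))))))))))))), t true 1 (b (d (f (a (c (b (a (f (d (a (b (c (b e))))))))))))), t true 1 (c (b (d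
  (f (a (c (a (f (d (a (b (c (b e))))))))))))), t true 1 (d (a (c (b (f (a (d (a (f (a (b (c (b
  e))))))))))))), t false 1 (d (b (f (c (b (d (a (c (f (a (b (c (b e))))))))))))), t true 1 (a (d (b
  (f (c (b (d (c (f (a (b (c (b e))))))))))))), t true 2 (f (b (c (b (f (d (a (c (a (d (b (c (b
  e))))))))))))), t false 2 (d (b (f (a (c (b (a (f (a (d (b (c (b e))))))))))))), t true 2 (d (b (f
  (a (c (a (f (a (b (d (b (c (b e))))))))))))), t false 1 (f (c (d (b (c (f (b (a (c (a (d (c (b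
  e))))))))))))), t false 2 (f (b (c (b (f (b (d (a (c (a (d (c (b e))))))))))))), t true 1 (f (c (d
  (a (b (c (f (b (c (a (d (c (b e))))))))))))), t true 1 (b (a (f (c (d (a (c (f (c (a (d (c (b
  e))))))))))))), t false 1 (a (f (c (d (a (b (c (f (c (a (d (c (b e))))))))))))), t true 2 (c (d (b
  (f (a (c (b (a (f (a (d (c (b e))))))))))))), t true 1 (f (c (d (b (c (f (a (c (a (b (d (c (b
  e))))))))))))), t false 1 (a (f (c (d (b (c (f (c (a (b (d (c (b e))))))))))))), t false 2 (c (d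
  (b (f (a (c (a (f (a (b (d (c (b e))))))))))))), t false 1 (f (c (d (a (c (a (b (a (f (b (d (c (b
  e))))))))))))), t false 1 (f (c (d (c (a (b (a (f (b (c (d (c (b e))))))))))))), t true 1 (a (f (c
  (d (c (a (b (a (f (c (d (c (b e))))))))))))), t true 1 (d (f (c (d (a (c (a (b (a (f (d (c (b
  e))))))))))))), t false 1 (a (d (f (c (d (c (a (b (a (f (d (c (b e))))))))))))), t false 1 (b (c
  (d (f (b (a (c (a (b (f (d (c (b e))))))))))))), t true 1 (a (b (c (d (f (b (c (a (b (f (d (c (b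
  e))))))))))))), t true 1 (d (b (a (c (f (a (b (d (b (a (f (c (b e))))))))))))), t false 1 (d (b (c
  (f (a (c (b (d (b (a (f (c (b e))))))))))))), t true 1 (d (b (c (f (b (d (b (a (c (a (f (c (b
  e))))))))))))), t false 1 (d (b (c (f (b (d (a (c (a (b (f (c (b e))))))))))))), t true 1 (a (d (b
  (c (f (b (d (c (a (b (f (c (b e))))))))))))), t true 1 (b (d (a (c (f (b (a (d (a (b (f (c (b
  e))))))))))))), t false 1 (c (b (f (a (d (a (f (b (c (b (a (d (b e))))))))))))), t true 1 (c (f (b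
  (a (d (a (b (f (c (b (a (d (b e))))))))))))), t true 1 (f (c (b (a (d (a (b (c (f (b (a (d (b
  e))))))))))))), t true 1 (f (c (a (d (b (c (f (b (a (c (a (d (b e))))))))))))), t true 2 (f (b (c
  (a (b (f (b (d (a (c (a (d (b e))))))))))))), t false 2 (a (f (b (c (a (b (f (d (a (c (a (d (b
  e))))))))))))), t false 2 (f (a (d (b (c (b (a (f (b (c (a (d (b e))))))))))))), t true 1 (f (c (b
  (a (d (a (c (f (b (c (a (d (b e))))))))))))), t false 1 (f (c (a (d (a (b (c (f (b (c (a (d (b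
  e))))))))))))), t true 3 (c (f (a (d (b (c (b (a (f (c (a (d (b e))))))))))))), t true 1 (c (f (b
  (c (b (a (d (a (f (c (a (d (b e))))))))))))), t false 1 (b (c (f (b (a (d (a (b (f (c (a (d (b
  e))))))))))))), t true 1 (a (b (c (f (b (d (a (b (f (c (a (d (b e))))))))))))), t false 1 (c (f (a
  (d (a (b (c (b (f (c (a (d (b e))))))))))))), t false 2 (c (a (d (b (f (a (c (b (a (f (a (d (b
  e))))))))))))), t false 1 (c (b (f (a (d (b (c (b (a (f (a (d (b e))))))))))))), t false 1 (c (b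
  (f (b (c (b (a (d (a (f (a (d (b e))))))))))))), t true 1 (c (b (f (a (d (a (b (c (b (f (a (d (b
  e))))))))))))), t false 1 (b (f (c (b (a (d (a (b (c (f (a (d (b e))))))))))))), t true 1 (a (b (f
  (c (b (d (a (b (c (f (a (d (b e))))))))))))), t false 1 (f (c (a (d (b (c (f (a (c (a (b (d (b
  e))))))))))))), t true 2 (f (b (c (b (f (a (d (b (c (a (b (d (b e))))))))))))), t false 2 (a (f (b
  (c (b (f (d (b (c (a (b (d (b e))))))))))))), t false 3 (c (f (a (d (b (c (a (f (c (a (b (d (b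
  e))))))))))))), t false 1 (b (c (f (b (a (d (b (f (c (a (b (d (b e))))))))))))), t true 1 (a (b (c
  (f (b (d (b (f (c (a (b (d (b e))))))))))))), t true 2 (c (a (d (b (f (a (c (a (f (a (b (d (b
  e))))))))))))), t true 1 (c (b (f (a (d (b (c (a (f (a (b (d (b e))))))))))))), t false 1 (b (f (c
  (b (a (d (b (c (f (a (b (d (b e))))))))))))), t true 1 (a (b (f (c (b (d (b (c (f (a (b (d (b
  e))))))))))))), t false 1 (c (b (f (a (d (b (a (f (a (c (b (d (b e)))))))))))))]

def c12_3 : List Tm := [t true 1 (c (b (f (a (d (a (f (a (b (c (b (d (b e))))))))))))), t true 1 (f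
  (c (a (d (a (c (a (b (a (f (b (d (b e))))))))))))), t false 1 (c (b (f (a (d (c (b (a (f (a (c (d
  (b e))))))))))))), t true 1 (c (b (f (a (d (c (a (f (a (b (c (d (b e))))))))))))), t false 1 (b (f
  (c (b (a (d (c (f (a (b (c (d (b e))))))))))))), t true 1 (a (b (f (c (b (d (c (f (a (b (c (d (b
  e))))))))))))), t true 1 (f (c (a (d (c (a (b (a (f (b (c (d (b e))))))))))))), t false 1 (d (f (c
  (a (d (a (c (a (b (a (f (d (b e))))))))))))), t true 1 (b (c (a (d (f (b (a (c (a (b (f (d (b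
  e))))))))))))), t true 1 (d (a (f (c (a (d (a (c (a (b (a (f (b e))))))))))))), t true 1 (d (b (c
  (a (f (a (c (b (d (b (a (f (b e))))))))))))), t false 1 (d (b (c (a (f (b (d (b (a (c (a (f (b
  e))))))))))))), t false 1 (b (a (f (d (a (c (a (d (a (c (a (f (b e))))))))))))), t true 1 (d (b (c
  (a (f (b (d (a (c (a (b (f (b e))))))))))))), t true 1 (d (b (c (b (d (a (f (b (c (a (b (f (b
  e))))))))))))), t false 1 (a (d (b (c (b (d (f (b (c (a (b (f (b e))))))))))))), t true 1 (b (c (d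
  (a (f (b (a (d (c (a (b (f (b e))))))))))))), t false 1 (b (a (f (d (b (c (b (d (b (c (b (f (b
  e))))))))))))), t true 1 (d (b (a (f (c (a (b (d (b (a (c (f (b e))))))))))))), t true 1 (b (d (a
  (f (c (b (a (d (a (b (c (f (b e))))))))))))), t true 1 (c (b (f (a (d (a (f (b (a (d (b (a (c
  e))))))))))))), t false 1 (b (f (a (d (a (f (b (c (a (d (b (a (c e))))))))))))), t true 3 (f (a (d
  (b (a (f (c (a (b (d (b (a (c e))))))))))))), t false 1 (f (b (a (d (b (f (c (a (b (d (b (a (c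
  e))))))))))))), t false 1 (c (f (a (d (b (a (f (a (b (d (b (a (c e))))))))))))), t true 1 (c (f (b
  (a (d (b (f (a (b (d (b (a (c e))))))))))))), t true 3 (f (a (d (b (c (a (f (c (b (d (b (a (c
  e))))))))))))), t true 1 (f (c (a (d (b (c (f (c (b (d (b (a (c e))))))))))))), t true 1 (c (b (f
  (a (d (b (a (f (b (d (b (a (c e))))))))))))), t false 2 (a (d (b (f (a (c (a (f (b (d (b (a (c
  e))))))))))))), t false 1 (b (f (a (d (b (c (a (f (b (d (b (a (c e))))))))))))), t false 1 (b (f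
  (c (a (d (b (c (f (b (d (b (a (c e))))))))))))), t false 1 (b (f (a (d (c (a (f (b (c (d (b (a (c
  e))))))))))))), t false 1 (b (f (c (a (d (c (f (b (c (d (b (a (c e))))))))))))), t true 1 (a (d (f
  (b (a (c (a (b (f (d (b (a (c e))))))))))))), t false 1 (b (c (a (d (f (b (c (b (f (d (b (a (c
  e))))))))))))), t true 1 (d (a (f (b (a (d (c (a (b (f (b (a (c e))))))))))))), t false 1 (c (d (a
  (f (b (a (d (a (b (f (b (a (c e))))))))))))), t false 1 (d (b (c (a (f (b (d (c (b (f (b (a (c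
  e))))))))))))), t true 1 (b (d (a (f (c (a (d (b (c (f (b (a (c e))))))))))))), t true 1 (d (b (a
  (f (c (a (b (d (c (f (b (a (c e))))))))))))), t true 1 (f (b (d (a (c (b (f (c (b (a (d (a (c
  e))))))))))))), t true 1 (f (c (b (d (a (c (f (c (b (a (d (a (c e))))))))))))), t false 1 (b (d (a
  (f (b (c (b (f (b (a (d (a (c e))))))))))))), t false 1 (a (f (c (b (d (a (c (f (b (a (d (a (c
  e))))))))))))), t false 1 (a (f (b (d (b (f (b (a (c (a (d (a (c e))))))))))))), t true 1 (a (f (b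
  (d (a (b (f (b (c (a (d (a (c e))))))))))))), t true 1 (a (f (b (d (b (f (a (c (a (b (d (a (c
  e))))))))))))), t false 2 (f (a (b (d (b (a (f (c (a (b (d (a (c e))))))))))))), t false 2 (b (f
  (a (c (a (f (d (b (c (b (d (a (c e))))))))))))), t false 1 (f (a (c (b (d (b (a (f (c (b (d (a (c
  e))))))))))))), t true 2 (f (b (d (b (a (c (a (f (c (b (d (a (c e))))))))))))), t false 1 (f (b (d
  (a (c (a (b (f (c (b (d (a (c e))))))))))))), t true 1 (f (c (b (d (b (a (c (f (c (b (d (a (c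
  e))))))))))))), t false 1 (f (c (a (b (d (b (c (f (c (b (d (a (c e))))))))))))), t true 1 (a (f (a
  (c (b (d (b (a (f (b (d (a (c e))))))))))))), t false 1 (a (f (b (d (b (a (c (a (f (b (d (a (c
  e))))))))))))), t true 1 (b (d (a (f (b (c (a (b (f (b (d (a (c e))))))))))))), t false 1 (a (f (c
  (b (d (b (a (c (f (b (d (a (c e))))))))))))), t false 1 (b (a (f (c (a (d (b (c (f (b (d (a (c
  e))))))))))))), t true 1 (a (f (c (a (b (d (b (c (f (b (d (a (c e))))))))))))), t false 1 (a (f (b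
  (d (c (b (f (b (a (c (d (a (c e))))))))))))), t false 1 (a (f (c (b (d (c (f (b (a (c (d (a (c
  e))))))))))))), t true 1 (a (f (b (d (c (a (b (f (b (c (d (a (c e))))))))))))), t false 1 (b (a (f
  (c (a (d (c (f (b (c (d (a (c e))))))))))))), t true 1 (a (f (c (a (b (d (c (f (b (c (d (a (c
  e))))))))))))), t true 1 (f (c (b (d (c (a (b (a (f (c (d (a (c e))))))))))))), t false 1 (d (f (c
  (b (d (c (a (b (a (f (d (a (c e))))))))))))), t false 1 (a (c (b (d (f (a (c (b (a (f (d (a (c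
  e))))))))))))), t false 1 (d (a (c (b (f (a (d (c (b (a (f (a (c e))))))))))))), t true 1 (a (d (b
  (f (c (b (d (b (a (c (f (a (c e))))))))))))), t false 1 (a (d (b (f (c (a (b (d (b (c (f (a (c
  e))))))))))))), t true 1 (f (a (b (d (a (f (c (b (a (d (a (b (c e))))))))))))), t false 1 (f (b (d
  (a (b (f (c (b (a (d (a (b (c e))))))))))))), t true 1 (c (f (b (d (a (b (f (b (a (d (a (b (c
  e))))))))))))), t false 1 (f (b (d (a (c (b (f (c (a (d (a (b (c e))))))))))))), t false 1 (f (c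
  (b (d (a (c (f (c (a (d (a (b (c e))))))))))))), t false 1 (c (a (f (b (d (a (b (f (a (d (a (b (c
  e))))))))))))), t true 1 (b (d (a (f (b (c (b (f (a (d (a (b (c e))))))))))))), t true 1 (a (f (c
  (b (d (a (c (f (a (d (a (b (c e))))))))))))), t false 1 (c (a (f (b (d (b (f (a (b (d (a (b (c
  e))))))))))))), t true 1 (a (f (b (d (b (f (a (c (b (d (a (b (c e))))))))))))), t true 1 (a (f (b
  (d (c (b (f (a (c (d (a (b (c e))))))))))))), t true 1 (a (f (c (b (d (c (f (a (c (d (a (b (c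
  e))))))))))))), t false 1 (c (a (b (d (f (a (b (a (f (d (a (b (c e))))))))))))), t false 1 (b (d
  (f (a (b (c (b (a (f (d (a (b (c e))))))))))))), t true 1 (a (c (b (d (f (a (c (a (f (d (a (b (c
  e))))))))))))), t false 1 (c (d (a (b (f (a (d (b (a (f (a (b (c e))))))))))))), t true 1 (d (a (c
  (b (f (a (d (c (a (f (a (b (c e))))))))))))), t false 1 (a (d (b (f (c (b (d (a (c (f (a (b (c
  e))))))))))))), t false 1 (b (f (a (d (a (f (b (c (b (a (d (b (c e))))))))))))), t true 1 (f (b (a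
  (d (a (b (f (c (b (a (d (b (c e))))))))))))), t false 1 (c (f (b (a (d (a (b (f (b (a (d (b (c
  e))))))))))))), t true 2 (a (f (b (c (b (f (d (a (c (a (d (b (c e))))))))))))), t true 1 (f (a (d
  (b (c (b (a (f (c (a (d (b (c e))))))))))))), t true 1 (f (b (c (b (a (d (a (f (c (a (d (b (c
  e))))))))))))), t false 1 (f (a (d (a (b (c (b (f (c (a (d (b (c e))))))))))))), t true 1 (f (c (b
  (a (d (a (c (f (c (a (d (b (c e))))))))))))), t false 1 (f (c (a (d (a (b (c (f (c (a (d (b (c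
  e))))))))))))), t false 2 (a (d (b (f (a (c (b (a (f (a (d (b (c e)))))))))))))]

def c12_4 : List Tm := [t false 1 (b (f (a (d (b (c (b (a (f (a (d (b (c e))))))))))))), t false 1
  (b (f (b (c (b (a (d (a (f (a (d (b (c e))))))))))))), t true 1 (b (f (a (d (a (b (c (b (f (a (d
  (b (c e))))))))))))), t false 1 (b (f (c (b (a (d (a (c (f (a (d (b (c e))))))))))))), t true 1 (a
  (b (f (c (b (d (a (c (f (a (d (b (c e))))))))))))), t true 1 (b (f (c (a (d (a (b (c (f (a (d (b
  (c e))))))))))))), t false 3 (f (a (d (b (c (a (f (c (a (b (d (b (c e))))))))))))), t false 1 (f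
  (c (a (d (b (c (f (c (a (b (d (b (c e))))))))))))), t true 2 (a (d (b (f (a (c (a (f (a (b (d (b
  (c e))))))))))))), t true 1 (b (f (a (d (b (c (a (f (a (b (d (b (c e))))))))))))), t true 1 (b (f
  (c (a (d (b (c (f (a (b (d (b (c e))))))))))))), t false 1 (b (f (a (d (b (a (f (a (c (b (d (b (c
  e))))))))))))), t true 1 (b (f (a (d (a (f (a (b (c (b (d (b (c e))))))))))))), t false 1 (b (f (a
  (d (c (b (a (f (a (c (d (b (c e))))))))))))), t false 1 (b (f (c (b (a (d (c (f (a (c (d (b (c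
  e))))))))))))), t true 1 (a (b (f (c (b (d (c (f (a (c (d (b (c e))))))))))))), t true 1 (b (f (a
  (d (c (a (f (a (b (c (d (b (c e))))))))))))), t true 1 (b (f (c (a (d (c (f (a (b (c (d (b (c
  e))))))))))))), t true 1 (f (c (a (d (c (a (b (a (f (c (d (b (c e))))))))))))), t false 1 (d (f (c
  (a (d (c (a (b (a (f (d (b (c e))))))))))))), t true 1 (b (c (a (d (f (b (c (a (b (f (d (b (c
  e))))))))))))), t true 1 (d (a (f (c (a (d (c (a (b (a (f (b (c e))))))))))))), t true 1 (d (b (c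
  (a (f (b (d (c (a (b (f (b (c e))))))))))))), t true 1 (b (d (a (f (c (b (a (d (a (c (f (b (c
  e))))))))))))), t false 1 (b (d (a (f (c (a (d (a (b (c (f (b (c e))))))))))))), t false 1 (b (f
  (c (d (a (c (f (b (c (b (a (d (c e))))))))))))), t false 1 (c (a (f (b (a (d (a (b (f (b (a (d (c
  e))))))))))))), t true 1 (b (c (d (a (f (b (c (b (f (b (a (d (c e))))))))))))), t false 1 (b (a (f
  (c (d (a (b (c (f (b (a (d (c e))))))))))))), t false 1 (a (f (c (d (b (c (f (b (a (c (a (d (c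
  e))))))))))))), t false 2 (a (f (b (c (b (f (b (d (a (c (a (d (c e))))))))))))), t false 1 (b (a
  (f (c (d (a (c (f (b (c (a (d (c e))))))))))))), t true 1 (a (f (c (d (a (b (c (f (b (c (a (d (c
  e))))))))))))), t true 2 (a (c (d (b (f (a (c (b (a (f (a (d (c e))))))))))))), t true 1 (a (f (c
  (d (b (c (f (a (c (a (b (d (c e))))))))))))), t false 1 (c (a (b (f (a (d (b (a (f (a (b (d (c
  e))))))))))))), t false 2 (a (c (d (b (f (a (c (a (f (a (b (d (c e))))))))))))), t true 1 (a (b (f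
  (c (d (b (a (c (f (a (b (d (c e))))))))))))), t false 1 (b (f (c (d (b (a (c (f (a (c (b (d (c
  e))))))))))))), t true 1 (a (b (f (c (d (b (c (f (a (c (b (d (c e))))))))))))), t true 1 (b (f (c
  (d (a (c (f (a (b (c (b (d (c e))))))))))))), t true 2 (b (f (a (c (a (f (a (d (b (c (b (d (c
  e))))))))))))), t false 1 (a (f (c (d (a (c (a (b (a (f (b (d (c e))))))))))))), t false 1 (b (c
  (d (a (f (b (c (a (b (f (b (d (c e))))))))))))), t false 1 (a (f (c (d (c (a (b (a (f (b (c (d (c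
  e))))))))))))), t true 1 (a (d (f (c (d (a (c (a (b (a (f (d (c e))))))))))))), t true 1 (b (d (f
  (c (d (b (c (a (b (a (f (d (c e))))))))))))), t true 1 (b (a (c (d (f (a (b (c (b (a (f (d (c
  e))))))))))))), t false 1 (a (b (c (d (f (b (a (c (a (b (f (d (c e))))))))))))), t true 1 (d (b (c
  (f (c (b (d (c (a (b (a (f (c e))))))))))))), t true 1 (b (d (a (c (f (a (d (b (c (b (a (f (c
  e))))))))))))), t true 1 (a (d (b (a (c (f (a (b (d (b (a (f (c e))))))))))))), t false 1 (a (d (b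
  (c (f (a (c (b (d (b (a (f (c e))))))))))))), t true 1 (a (d (b (c (f (b (d (b (a (c (a (f (c
  e))))))))))))), t true 1 (b (d (a (c (f (b (c (b (a (d (a (f (c e))))))))))))), t false 1 (a (d (b
  (c (f (b (d (a (c (a (b (f (c e))))))))))))), t true 1 (a (b (d (a (c (f (b (a (d (a (b (f (c
  e))))))))))))), t false 1 (b (d (a (c (f (a (d (a (b (c (b (f (c e))))))))))))), t true 1 (d (b (f
  (a (c (a (f (b (a (c (b (a (d e))))))))))))), t false 2 (b (f (a (c (a (f (b (d (a (c (b (a (d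
  e))))))))))))), t true 1 (f (b (a (c (a (b (f (d (a (c (b (a (d e))))))))))))), t true 1 (f (a (c
  (b (a (f (d (a (b (c (b (a (d e))))))))))))), t false 1 (f (b (a (c (b (f (d (a (b (c (b (a (d
  e))))))))))))), t false 1 (d (f (a (c (b (a (f (a (b (c (b (a (d e))))))))))))), t true 1 (d (f (b
  (a (c (b (f (a (b (c (b (a (d e))))))))))))), t true 1 (d (b (f (a (c (b (a (f (b (c (b (a (d
  e))))))))))))), t false 1 (a (c (b (f (a (d (a (f (b (c (b (a (d e))))))))))))), t true 1 (b (f (c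
  (b (d (a (c (f (b (c (b (a (d e))))))))))))), t true 1 (b (a (c (f (a (b (d (a (f (c (b (a (d
  e))))))))))))), t true 1 (a (c (f (b (a (d (a (b (f (c (b (a (d e))))))))))))), t true 1 (b (a (c
  (f (b (d (a (b (f (c (b (a (d e))))))))))))), t true 1 (b (c (f (b (d (a (c (b (f (c (b (a (d
  e))))))))))))), t false 1 (d (c (a (f (b (a (c (a (b (f (b (a (d e))))))))))))), t false 1 (b (c
  (b (d (a (f (b (c (b (f (b (a (d e))))))))))))), t true 1 (b (a (f (c (a (b (d (a (c (f (b (a (d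
  e))))))))))))), t true 1 (a (f (c (b (a (d (a (b (c (f (b (a (d e))))))))))))), t true 1 (b (a (f
  (c (b (d (a (b (c (f (b (a (d e))))))))))))), t false 1 (b (c (a (f (b (d (b (f (b (a (c (a (d
  e))))))))))))), t true 1 (a (f (c (a (d (b (c (f (b (a (c (a (d e))))))))))))), t true 2 (a (f (b
  (c (a (b (f (b (d (a (c (a (d e))))))))))))), t false 1 (f (a (b (c (b (a (f (d (a (b (c (a (d
  e))))))))))))), t false 2 (a (f (a (d (b (c (b (a (f (b (c (a (d e))))))))))))), t true 1 (b (c (a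
  (f (b (d (a (b (f (b (c (a (d e))))))))))))), t true 1 (a (f (c (b (a (d (a (c (f (b (c (a (d
  e))))))))))))), t true 1 (b (a (f (c (b (d (a (c (f (b (c (a (d e))))))))))))), t false 1 (a (f (c
  (a (d (a (b (c (f (b (c (a (d e))))))))))))), t true 3 (a (c (f (a (d (b (c (b (a (f (c (a (d
  e))))))))))))), t true 1 (a (c (f (b (c (b (a (d (a (f (c (a (d e))))))))))))), t false 1 (a (b (c
  (f (b (a (d (a (b (f (c (a (d e))))))))))))), t false 1 (a (c (f (a (d (a (b (c (b (f (c (a (d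
  e))))))))))))), t false 2 (a (c (a (d (b (f (a (c (b (a (f (a (d e))))))))))))), t false 1 (a (c
  (b (f (a (d (b (c (b (a (f (a (d e))))))))))))), t false 1 (a (c (b (f (b (c (b (a (d (a (f (a (d
  e))))))))))))), t true 1 (a (c (b (f (a (d (a (b (c (b (f (a (d e))))))))))))), t false 1 (a (b (f
  (c (b (a (d (a (b (c (f (a (d e))))))))))))), t true 2 (f (a (b (c (a (f (d (b (a (c (a (b (d
  e))))))))))))), t false 2 (f (b (c (a (b (f (d (b (a (c (a (b (d e))))))))))))), t true 1 (d (f (b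
  (c (a (b (f (b (a (c (a (b (d e))))))))))))), t false 1 (d (a (f (b (c (a (b (f (a (c (a (b (d
  e))))))))))))), t true 1 (b (c (a (f (b (d (b (f (a (c (a (b (d e)))))))))))))]

def c12_5 : List Tm := [t false 1 (a (f (c (a (d (b (c (f (a (c (a (b (d e))))))))))))), t false 1
  (d (a (f (b (c (b (f (a (b (c (a (b (d e))))))))))))), t true 2 (a (f (b (c (b (f (a (d (b (c (a
  (b (d e))))))))))))), t false 1 (f (a (b (c (b (a (f (d (b (c (a (b (d e))))))))))))), t false 1
  (d (a (b (c (f (a (b (a (f (c (a (b (d e))))))))))))), t false 2 (a (b (c (f (a (d (b (a (f (c (a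
  (b (d e))))))))))))), t false 2 (b (c (f (a (b (d (b (a (f (c (a (b (d e))))))))))))), t false 3
  (a (c (f (a (d (b (c (a (f (c (a (b (d e))))))))))))), t false 1 (a (b (c (f (b (a (d (b (f (c (a
  (b (d e))))))))))))), t false 1 (d (c (a (b (f (a (c (b (a (f (a (b (d e))))))))))))), t true 2 (a
  (c (a (d (b (f (a (c (a (f (a (b (d e))))))))))))), t true 1 (a (c (b (f (a (d (b (c (a (f (a (b
  (d e))))))))))))), t false 1 (a (b (f (c (a (d (b (a (c (f (a (b (d e))))))))))))), t false 1 (b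
  (f (c (a (b (d (b (a (c (f (a (b (d e))))))))))))), t false 1 (a (b (f (c (b (a (d (b (c (f (a (b
  (d e))))))))))))), t true 2 (f (b (a (c (a (b (f (d (b (a (c (b (d e))))))))))))), t false 1 (d (f
  (b (a (c (a (b (f (b (a (c (b (d e))))))))))))), t false 1 (a (c (b (f (a (d (b (a (f (a (c (b (d
  e))))))))))))), t true 1 (b (f (b (d (b (a (c (a (f (a (c (b (d e))))))))))))), t true 1 (b (f (c
  (b (d (b (a (c (f (a (c (b (d e))))))))))))), t false 1 (a (b (f (c (a (d (b (c (f (a (c (b (d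
  e))))))))))))), t false 1 (b (f (c (a (b (d (b (c (f (a (c (b (d e))))))))))))), t true 1 (a (c (b
  (f (a (d (a (f (a (b (c (b (d e))))))))))))), t false 1 (b (f (c (b (d (a (c (f (a (b (c (b (d
  e))))))))))))), t false 2 (b (f (a (c (b (a (f (a (d (b (c (b (d e))))))))))))), t true 1 (b (a (c
  (f (a (b (d (b (a (f (c (b (d e))))))))))))), t false 1 (b (c (f (a (c (b (d (b (a (f (c (b (d
  e))))))))))))), t true 1 (b (c (f (b (d (b (a (c (a (f (c (b (d e))))))))))))), t false 1 (b (c (f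
  (b (d (a (c (a (b (f (c (b (d e))))))))))))), t true 1 (a (f (c (a (d (a (c (a (b (a (f (b (d
  e))))))))))))), t true 1 (b (c (a (f (a (c (b (d (b (a (f (b (d e))))))))))))), t false 1 (b (c (a
  (f (b (d (b (a (c (a (f (b (d e))))))))))))), t true 1 (b (c (b (d (a (f (b (c (a (b (f (b (d
  e))))))))))))), t true 1 (b (a (f (c (a (b (d (b (a (c (f (b (d e))))))))))))), t false 1 (d (a (f
  (b (a (c (a (b (f (b (a (c (d e))))))))))))), t false 1 (b (c (a (f (b (d (c (b (f (b (a (c (d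
  e))))))))))))), t true 1 (b (a (f (c (a (b (d (c (f (b (a (c (d e))))))))))))), t false 1 (a (c (b
  (f (a (d (c (b (a (f (a (c (d e))))))))))))), t false 1 (d (a (b (f (a (c (b (a (f (a (b (c (d
  e))))))))))))), t true 1 (a (c (b (f (a (d (c (a (f (a (b (c (d e))))))))))))), t false 1 (a (b (f
  (c (b (a (d (c (f (a (b (c (d e))))))))))))), t true 1 (a (f (c (a (d (c (a (b (a (f (b (c (d
  e))))))))))))), t true 1 (b (c (a (f (b (d (c (a (b (f (b (c (d e))))))))))))), t true 1 (b (c (f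
  (c (b (d (c (a (b (a (f (c (d e))))))))))))), t false 1 (a (d (f (c (a (d (a (c (a (b (a (f (d
  e))))))))))))), t false 1 (b (d (f (c (b (d (b (c (a (b (a (f (d e))))))))))))), t false 1 (b (a
  (c (b (d (f (a (b (c (b (a (f (d e))))))))))))), t true 1 (a (b (c (a (d (f (b (a (c (a (b (f (d
  e))))))))))))), t true 1 (a (d (a (f (c (a (d (a (c (a (b (a (f e))))))))))))), t true 1 (b (d (b
  (f (c (b (d (b (c (a (b (a (f e))))))))))))), t true 1 (c (d (b (c (f (c (b (d (c (a (b (a (f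
  e))))))))))))), t true 1 (f (b (d (a (c (a (d (b (a (c (b (a (f e))))))))))))), t false 1 (b (d (a
  (c (a (d (b (f (a (c (b (a (f e))))))))))))), t true 1 (f (d (b (a (c (b (d (a (b (c (b (a (f
  e))))))))))))), t false 1 (d (b (a (c (b (d (f (a (b (c (b (a (f e))))))))))))), t true 1 (f (b (d
  (a (c (b (a (d (b (c (b (a (f e))))))))))))), t false 1 (b (d (a (c (b (f (a (d (b (c (b (a (f
  e))))))))))))), t false 1 (f (c (a (d (b (a (c (a (b (d (b (a (f e))))))))))))), t true 1 (c (a (d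
  (b (a (c (f (a (b (d (b (a (f e))))))))))))), t true 1 (a (d (b (c (a (f (a (c (b (d (b (a (f
  e))))))))))))), t true 1 (f (a (d (b (c (a (b (d (b (a (c (a (f e))))))))))))), t false 1 (a (d (b
  (c (a (f (b (d (b (a (c (a (f e))))))))))))), t false 1 (a (b (a (f (d (a (c (a (d (a (c (a (f
  e))))))))))))), t false 1 (f (d (a (b (c (b (a (d (a (b (c (a (f e))))))))))))), t true 1 (d (a (b
  (c (b (a (d (f (a (b (c (a (f e))))))))))))), t false 1 (b (d (a (c (b (f (b (c (b (a (d (a (f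
  e))))))))))))), t false 1 (f (a (d (b (c (a (b (d (a (c (a (b (f e))))))))))))), t true 1 (a (d (b
  (c (a (f (b (d (a (c (a (b (f e))))))))))))), t false 1 (f (a (d (b (c (b (d (a (b (c (a (b (f
  e))))))))))))), t true 1 (a (d (b (c (b (d (a (f (b (c (a (b (f e))))))))))))), t false 1 (f (a (b
  (c (d (a (b (a (d (c (a (b (f e))))))))))))), t true 1 (a (b (c (d (a (f (b (a (d (c (a (b (f
  e))))))))))))), t false 1 (f (c (a (b (d (a (c (b (a (d (a (b (f e))))))))))))), t true 1 (c (a (b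
  (d (a (c (f (b (a (d (a (b (f e))))))))))))), t false 1 (f (b (d (a (c (b (a (d (a (b (c (b (f
  e))))))))))))), t true 1 (b (d (a (c (b (f (a (d (a (b (c (b (f e))))))))))))), t false 1 (a (b (a
  (f (d (b (c (b (d (b (c (b (f e))))))))))))), t false 1 (f (a (d (b (a (c (a (b (d (b (a (c (f
  e))))))))))))), t true 1 (a (d (b (a (f (c (a (b (d (b (a (c (f e))))))))))))), t false 1 (f (a (b
  (d (a (c (b (a (d (a (b (c (f e))))))))))))), t true 1 (a (b (d (a (f (c (b (a (d (a (b (c (f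
  e)))))))))))))]

def c12 : List (List Tm) := [c12_0, c12_1, c12_2, c12_3, c12_4, c12_5]

def c13_0 : List Tm := [t false 1 (c (d (f (a (b (a (f (d (b (c (a (b (a e))))))))))))), t false 1
  (f (a (d (a (f (c (b (a (d (c (a (b (a e))))))))))))), t true 1 (c (f (a (d (a (f (b (a (d (c (a
  (b (a e))))))))))))), t false 1 (f (a (d (b (a (f (c (b (d (c (a (b (a e))))))))))))), t false 1
  (f (b (a (d (b (f (c (b (d (c (a (b (a e))))))))))))), t true 1 (c (f (a (d (b (a (f (b (d (c (a
  (b (a e))))))))))))), t true 1 (c (f (b (a (d (b (f (b (d (c (a (b (a e))))))))))))), t true 1 (d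
  (a (f (b (a (d (c (b (f (c (a (b (a e))))))))))))), t false 1 (c (d (a (f (b (a (d (b (f (c (a (b
  (a e))))))))))))), t true 1 (d (a (f (c (b (a (d (c (f (c (a (b (a e))))))))))))), t true 1 (d (b
  (a (f (c (b (d (c (f (c (a (b (a e))))))))))))), t true 1 (d (a (f (b (c (b (f (c (a (d (a (b (a
  e))))))))))))), t true 2 (d (f (a (b (a (f (b (c (b (d (a (b (a e))))))))))))), t true 1 (d (c (f
  (a (b (a (f (b (c (d (a (b (a e))))))))))))), t false 1 (d (a (f (b (a (c (b (f (c (d (a (b (a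
  e))))))))))))), t true 1 (d (f (a (b (c (b (a (f (d (a (c (b (a e))))))))))))), t false 3 (d (f (a
  (b (c (a (f (d (a (b (c (b (a e))))))))))))), t false 1 (d (f (b (c (a (b (f (d (a (b (c (b (a
  e))))))))))))), t true 1 (f (c (d (b (c (f (a (b (d (b (c (b (a e))))))))))))), t false 1 (a (f (c
  (d (b (c (f (b (d (b (c (b (a e))))))))))))), t true 1 (f (c (d (c (f (a (b (c (d (b (c (b (a
  e))))))))))))), t false 1 (a (f (c (d (c (f (b (c (d (b (c (b (a e))))))))))))), t true 1 (b (c (d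
  (f (a (b (a (f (d (b (c (b (a e))))))))))))), t true 1 (c (d (f (a (b (c (a (f (d (b (c (b (a
  e))))))))))))), t true 1 (c (d (f (b (c (a (b (f (d (b (c (b (a e))))))))))))), t false 1 (a (c (d
  (f (b (c (b (f (d (b (c (b (a e))))))))))))), t true 1 (d (b (c (f (a (b (d (a (f (b (c (b (a
  e))))))))))))), t true 1 (d (b (c (f (b (d (a (b (f (b (c (b (a e))))))))))))), t false 1 (a (d (b
  (c (f (b (d (b (f (b (c (b (a e))))))))))))), t true 2 (f (a (d (a (f (b (c (b (a (d (c (b (a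
  e))))))))))))), t true 1 (c (f (a (d (a (f (b (c (a (d (c (b (a e))))))))))))), t false 2 (f (a (d
  (b (c (a (f (a (b (d (c (b (a e))))))))))))), t true 2 (f (a (d (b (a (f (a (c (b (d (c (b (a
  e))))))))))))), t true 1 (f (b (a (d (b (f (a (c (b (d (c (b (a e))))))))))))), t false 2 (f (a (d
  (a (f (a (b (c (b (d (c (b (a e))))))))))))), t true 1 (c (f (a (d (b (c (a (f (b (d (c (b (a
  e))))))))))))), t false 1 (b (c (f (b (a (d (b (f (b (d (c (b (a e))))))))))))), t true 1 (a (b (c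
  (f (b (d (b (f (b (d (c (b (a e))))))))))))), t true 1 (f (a (d (c (b (a (f (a (c (d (c (b (a
  e))))))))))))), t false 2 (f (a (d (c (a (f (a (b (c (d (c (b (a e))))))))))))), t true 1 (c (f (a
  (d (c (a (f (b (c (d (c (b (a e))))))))))))), t false 1 (a (d (f (a (b (c (b (a (f (d (c (b (a
  e))))))))))))), t false 1 (d (a (f (a (d (b (c (b (a (f (c (b (a e))))))))))))), t true 1 (d (a (f
  (b (c (b (a (d (a (f (c (b (a e))))))))))))), t false 1 (d (a (f (b (a (d (a (c (b (f (c (b (a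
  e))))))))))))), t true 1 (b (c (d (a (f (b (a (d (b (f (c (b (a e))))))))))))), t false 1 (d (a (f
  (c (b (a (d (a (c (f (c (b (a e))))))))))))), t false 1 (d (b (a (f (c (b (d (a (c (f (c (b (a
  e))))))))))))), t true 1 (f (a (b (d (a (f (b (c (b (a (d (b (a e))))))))))))), t true 1 (f (b (d
  (a (b (f (b (c (b (a (d (b (a e))))))))))))), t true 1 (c (f (b (d (a (b (f (b (c (a (d (b (a
  e))))))))))))), t false 1 (b (d (a (f (b (c (b (f (c (a (d (b (a e))))))))))))), t false 1 (f (a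
  (b (d (a (f (a (b (c (b (d (b (a e))))))))))))), t false 1 (f (b (d (a (b (f (a (b (c (b (d (b (a
  e))))))))))))), t false 2 (b (d (f (a (b (a (f (b (c (b (d (b (a e))))))))))))), t false 1 (f (a
  (b (d (c (a (f (a (b (c (d (b (a e))))))))))))), t false 1 (f (b (d (c (a (b (f (a (b (c (d (b (a
  e))))))))))))), t false 1 (b (d (c (f (a (b (a (f (b (c (d (b (a e))))))))))))), t true 1 (c (f (b
  (d (c (a (b (f (b (c (d (b (a e))))))))))))), t false 1 (a (c (f (b (d (c (b (f (b (c (d (b (a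
  e))))))))))))), t true 1 (b (d (a (f (b (a (c (b (f (c (d (b (a e))))))))))))), t false 1 (a (b (d
  (f (a (b (c (b (a (f (d (b (a e))))))))))))), t false 1 (c (a (b (d (f (a (b (c (a (f (d (b (a
  e))))))))))))), t false 2 (d (a (b (f (a (d (b (c (b (a (f (b (a e))))))))))))), t false 1 (c (d
  (a (b (f (a (d (b (c (a (f (b (a e))))))))))))), t false 1 (d (a (b (f (b (c (b (a (d (a (f (b (a
  e))))))))))))), t true 3 (d (a (b (f (a (d (a (b (c (b (f (b (a e))))))))))))), t true 1 (f (d (a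
  (b (a (d (a (b (a (f (a (c (a e))))))))))))), t true 1 (f (c (b (d (b (c (f (a (b (d (b (c (a
  e))))))))))))), t false 1 (a (f (c (b (d (b (c (f (b (d (b (c (a e))))))))))))), t false 1 (f (b
  (d (c (b (f (a (b (c (d (b (c (a e))))))))))))), t true 1 (a (f (b (d (c (b (f (b (c (d (b (c (a
  e))))))))))))), t false 1 (c (a (b (d (f (a (c (a (f (d (b (c (a e))))))))))))), t false 1 (d (b
  (f (c (b (d (a (b (c (f (b (c (a e))))))))))))), t true 1 (a (d (b (f (c (b (d (b (c (f (b (c (a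
  e))))))))))))), t true 1 (b (f (c (d (a (b (a (d (c (f (b (c (a e))))))))))))), t false 1 (b (c (f
  (a (d (a (f (c (b (a (d (c (a e))))))))))))), t true 1 (c (f (a (d (b (a (f (c (a (b (d (c (a
  e))))))))))))), t false 1 (f (b (c (b (f (a (d (b (c (b (d (c (a e))))))))))))), t true 1 (a (f (b
  (c (b (f (d (b (c (b (d (c (a e))))))))))))), t false 1 (b (c (f (a (d (b (a (f (c (b (d (c (a
  e))))))))))))), t true 1 (c (f (a (d (b (c (a (f (c (b (d (c (a e))))))))))))), t false 1 (b (c (f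
  (b (a (d (b (f (c (b (d (c (a e))))))))))))), t true 1 (a (b (c (f (b (d (b (f (c (b (d (c (a
  e))))))))))))), t false 1 (c (a (d (b (f (a (c (a (f (b (d (c (a e))))))))))))), t true 1 (b (f (a
  (d (c (a (f (b (a (c (d (c (a e))))))))))))), t false 1 (b (f (c (a (d (c (f (b (a (c (d (c (a
  e))))))))))))), t true 1 (f (b (a (d (c (b (f (a (b (c (d (c (a e))))))))))))), t true 1 (f (c (b
  (a (d (c (f (a (b (c (d (c (a e))))))))))))), t true 1 (b (f (a (d (c (b (a (f (b (c (d (c (a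
  e))))))))))))), t false 1 (b (f (c (b (a (d (c (f (b (c (d (c (a e))))))))))))), t true 1 (a (b (f
  (c (b (d (c (f (b (c (d (c (a e))))))))))))), t false 1 (b (c (f (a (d (c (b (a (f (c (d (c (a
  e))))))))))))), t false 1 (b (c (f (b (a (d (c (b (f (c (d (c (a e))))))))))))), t true 1 (a (b (c
  (f (b (d (c (b (f (c (d (c (a e))))))))))))), t false 1 (c (a (d (f (b (a (c (a (b (f (d (c (a
  e))))))))))))), t false 1 (a (f (d (a (b (a (d (a (b (a (f (c (a e))))))))))))), t false 1 (c (d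
  (a (f (b (a (d (c (a (b (f (c (a e))))))))))))), t false 1 (d (b (c (b (d (a (f (b (c (b (f (c (a
  e))))))))))))), t true 1 (a (d (b (c (b (d (f (b (c (b (f (c (a e)))))))))))))]

def c13_1 : List Tm := [t true 1 (b (c (d (a (f (b (a (d (c (b (f (c (a e))))))))))))), t true 1 (b
  (d (a (f (c (a (d (b (a (c (f (c (a e))))))))))))), t true 1 (d (b (a (f (c (b (d (a (b (c (f (c
  (a e))))))))))))), t true 1 (b (d (a (f (c (b (a (d (b (c (f (c (a e))))))))))))), t false 1 (b (a
  (f (c (d (a (b (a (d (c (f (c (a e))))))))))))), t false 1 (b (a (f (c (d (c (f (c (a (b (a (d (a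
  e))))))))))))), t true 2 (f (a (b (a (f (b (c (d (a (b (a (d (a e))))))))))))), t true 1 (b (a (f
  (c (d (a (c (f (c (b (a (d (a e))))))))))))), t false 1 (c (a (b (f (a (d (a (f (b (c (a (d (a
  e))))))))))))), t true 1 (b (f (c (d (a (b (c (f (b (c (a (d (a e))))))))))))), t false 1 (c (a (f
  (b (a (d (a (b (f (c (a (d (a e))))))))))))), t true 1 (b (c (d (a (f (b (c (b (f (c (a (d (a
  e))))))))))))), t false 1 (b (a (f (c (d (a (b (c (f (c (a (d (a e))))))))))))), t false 1 (c (f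
  (a (b (a (f (d (b (c (a (b (d (a e))))))))))))), t false 1 (c (a (f (b (a (d (b (f (c (a (b (d (a
  e))))))))))))), t false 1 (b (a (f (c (d (b (c (f (c (a (b (d (a e))))))))))))), t false 1 (f (a
  (b (c (a (f (a (d (b (c (b (d (a e))))))))))))), t true 1 (b (c (f (a (b (a (f (d (b (c (b (d (a
  e))))))))))))), t true 2 (b (c (d (f (a (b (a (f (b (c (b (d (a e))))))))))))), t true 1 (b (a (f
  (c (d (b (a (c (f (c (b (d (a e))))))))))))), t true 1 (b (a (f (c (d (c (f (a (b (a (c (d (a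
  e))))))))))))), t false 1 (b (f (c (d (c (a (b (a (f (b (c (d (a e))))))))))))), t true 1 (b (c (d
  (c (f (a (b (a (f (b (c (d (a e))))))))))))), t false 1 (c (a (b (f (a (d (c (a (f (b (c (d (a
  e))))))))))))), t false 1 (b (f (c (d (a (b (a (c (f (b (c (d (a e))))))))))))), t true 1 (b (a (f
  (c (d (c (a (b (a (f (c (d (a e))))))))))))), t false 1 (b (a (c (d (c (f (a (b (a (f (c (d (a
  e))))))))))))), t false 1 (c (a (f (b (a (d (c (a (b (f (c (d (a e))))))))))))), t false 1 (b (c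
  (d (a (f (b (a (c (b (f (c (d (a e))))))))))))), t true 1 (b (a (f (c (d (a (b (a (c (f (c (d (a
  e))))))))))))), t false 1 (a (b (c (d (f (a (b (c (b (a (f (d (a e))))))))))))), t true 1 (a (b (a
  (c (d (f (a (b (c (a (f (d (a e))))))))))))), t true 1 (a (b (a (c (d (f (b (c (a (b (f (d (a
  e))))))))))))), t true 1 (a (c (f (d (a (b (a (d (a (b (a (f (a e))))))))))))), t true 1 (d (a (b
  (a (d (b (c (f (a (b (a (f (a e))))))))))))), t true 1 (a (b (d (a (c (f (a (d (b (c (a (f (a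
  e))))))))))))), t true 1 (a (d (b (a (c (f (a (b (d (c (a (f (a e))))))))))))), t true 1 (c (d (a
  (b (a (d (f (b (c (a (b (f (a e))))))))))))), t true 1 (a (d (b (a (c (f (b (d (c (a (b (f (a
  e))))))))))))), t true 1 (f (c (d (a (b (a (d (c (f (b (c (a (b e))))))))))))), t false 1 (c (f (a
  (d (a (f (c (b (a (d (c (a (b e))))))))))))), t true 1 (b (c (f (a (d (a (f (c (a (d (c (a (b
  e))))))))))))), t false 1 (c (f (a (d (b (a (f (c (b (d (c (a (b e))))))))))))), t false 1 (c (f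
  (b (a (d (b (f (c (b (d (c (a (b e))))))))))))), t true 1 (f (a (d (c (a (f (b (a (c (d (c (a (b
  e))))))))))))), t false 1 (f (c (a (d (c (f (b (a (c (d (c (a (b e))))))))))))), t false 1 (b (f
  (a (d (c (a (f (a (c (d (c (a (b e))))))))))))), t true 1 (b (f (c (a (d (c (f (a (c (d (c (a (b
  e))))))))))))), t true 1 (f (a (d (c (b (a (f (b (c (d (c (a (b e))))))))))))), t true 1 (f (b (a
  (d (c (b (f (b (c (d (c (a (b e))))))))))))), t false 1 (c (f (a (d (c (b (a (f (c (d (c (a (b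
  e))))))))))))), t true 1 (b (c (f (a (d (c (a (f (c (d (c (a (b e))))))))))))), t false 1 (c (f (b
  (a (d (c (b (f (c (d (c (a (b e))))))))))))), t false 1 (c (a (d (f (b (a (c (b (f (d (c (a (b
  e))))))))))))), t true 1 (d (a (f (c (a (d (b (a (c (f (c (a (b e))))))))))))), t false 1 (b (d (a
  (f (c (a (d (a (c (f (c (a (b e))))))))))))), t true 1 (d (a (f (c (b (a (d (b (c (f (c (a (b
  e))))))))))))), t true 1 (d (b (a (f (c (b (d (b (c (f (c (a (b e))))))))))))), t false 1 (a (f (c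
  (d (a (b (a (d (c (f (c (a (b e))))))))))))), t false 1 (a (f (c (d (c (f (c (a (b (a (d (a (b
  e))))))))))))), t true 1 (a (f (c (d (a (c (f (c (b (a (d (a (b e))))))))))))), t true 1 (f (c (d
  (a (b (c (f (b (c (a (d (a (b e))))))))))))), t true 1 (c (d (a (f (b (c (b (f (c (a (d (a (b
  e))))))))))))), t false 1 (a (f (c (d (a (b (c (f (c (a (d (a (b e))))))))))))), t false 1 (a (f
  (c (d (b (c (f (c (a (b (d (a (b e))))))))))))), t true 2 (c (d (f (a (b (a (f (b (c (b (d (a (b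
  e))))))))))))), t false 1 (c (a (f (b (a (d (b (f (c (b (d (a (b e))))))))))))), t true 1 (a (f (c
  (d (b (a (c (f (c (b (d (a (b e))))))))))))), t true 1 (a (f (c (d (c (f (a (b (a (c (d (a (b
  e))))))))))))), t false 1 (f (c (d (c (a (b (a (f (b (c (d (a (b e))))))))))))), t true 1 (c (d (c
  (f (a (b (a (f (b (c (d (a (b e))))))))))))), t false 1 (f (c (d (a (b (a (c (f (b (c (d (a (b
  e))))))))))))), t true 1 (a (f (c (d (c (a (b (a (f (c (d (a (b e))))))))))))), t false 1 (a (c (d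
  (c (f (a (b (a (f (c (d (a (b e))))))))))))), t false 1 (c (d (a (f (b (a (c (b (f (c (d (a (b
  e))))))))))))), t false 1 (c (a (f (b (a (d (c (b (f (c (d (a (b e))))))))))))), t true 1 (a (f (c
  (d (a (b (a (c (f (c (d (a (b e))))))))))))), t false 1 (a (b (c (d (f (b (c (a (b (f (d (a (b
  e))))))))))))), t true 1 (a (b (a (c (d (f (b (c (b (f (d (a (b e))))))))))))), t false 1 (a (d (b
  (c (f (a (b (d (c (a (f (a (b e))))))))))))), t false 1 (a (d (b (c (f (b (d (c (a (b (f (a (b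
  e))))))))))))), t true 1 (c (d (a (b (a (d (f (b (c (b (f (a (b e))))))))))))), t true 1 (a (d (b
  (a (c (f (b (d (c (b (f (a (b e))))))))))))), t true 1 (d (a (f (b (c (b (f (a (d (b (a (c (b
  e))))))))))))), t false 1 (d (f (a (b (c (b (a (f (d (b (a (c (b e))))))))))))), t false 1 (f (c
  (d (a (b (c (f (b (a (d (a (c (b e))))))))))))), t false 1 (f (c (d (a (c (f (b (c (a (d (a (c (b
  e))))))))))))), t true 1 (b (f (c (d (a (c (f (c (a (d (a (c (b e))))))))))))), t false 1 (c (d (a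
  (f (b (c (b (f (a (d (a (c (b e))))))))))))), t false 1 (b (a (f (c (d (a (c (f (a (d (a (c (b
  e))))))))))))), t true 1 (a (f (c (d (a (b (c (f (a (d (a (c (b e))))))))))))), t true 1 (a (f (c
  (d (b (c (f (a (b (d (a (c (b e))))))))))))), t false 1 (b (a (f (c (d (c (f (a (c (d (a (c (b
  e))))))))))))), t true 1 (a (f (c (d (c (f (a (b (c (d (a (c (b e))))))))))))), t false 1 (a (b (c
  (d (f (a (b (a (f (d (a (c (b e))))))))))))), t true 2 (c (d (f (a (b (c (b (a (f (d (a (c (b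
  e))))))))))))), t false 1 (b (a (c (d (f (a (c (a (f (d (a (c (b e))))))))))))), t true 1 (a (c (d
  (f (a (b (c (a (f (d (a (c (b e))))))))))))), t true 1 (a (c (d (f (b (c (a (b (f (d (a (c (b
  e))))))))))))), t true 1 (d (a (c (f (a (d (b (c (a (f (a (c (b e)))))))))))))]

def c13_2 : List Tm := [t false 1 (b (d (a (c (f (a (d (c (a (f (a (c (b e))))))))))))), t true 1 (a
  (d (b (c (f (a (b (d (a (f (a (c (b e))))))))))))), t true 1 (a (d (b (c (f (b (d (a (b (f (a (c
  (b e))))))))))))), t false 1 (f (c (d (b (c (f (a (b (d (a (b (c (b e))))))))))))), t true 1 (a (f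
  (c (d (b (c (f (b (d (a (b (c (b e))))))))))))), t false 1 (f (c (d (c (f (a (b (c (d (a (b (c (b
  e))))))))))))), t true 1 (a (f (c (d (c (f (b (c (d (a (b (c (b e))))))))))))), t false 2 (b (c (d
  (f (a (b (a (f (d (a (b (c (b e))))))))))))), t false 3 (c (d (f (a (b (c (a (f (d (a (b (c (b
  e))))))))))))), t false 1 (c (d (f (b (c (a (b (f (d (a (b (c (b e))))))))))))), t true 1 (a (c (d
  (f (b (c (b (f (d (a (b (c (b e))))))))))))), t false 1 (d (b (c (f (a (b (d (a (f (a (b (c (b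
  e))))))))))))), t false 1 (d (b (c (f (b (d (a (b (f (a (b (c (b e))))))))))))), t true 1 (a (d (b
  (c (f (b (d (b (f (a (b (c (b e))))))))))))), t false 2 (d (b (c (b (d (f (a (b (a (f (b (c (b
  e))))))))))))), t true 1 (f (d (a (c (a (d (b (c (b (f (b (c (b e))))))))))))), t false 1 (f (c (d
  (a (b (a (d (a (c (f (b (c (b e))))))))))))), t true 2 (c (f (a (d (a (f (b (c (b (a (d (c (b
  e))))))))))))), t false 2 (f (a (d (b (c (b (a (f (b (a (d (c (b e))))))))))))), t false 1 (f (b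
  (c (b (a (d (a (f (b (a (d (c (b e))))))))))))), t false 1 (f (b (a (d (a (c (b (f (b (a (d (c (b
  e))))))))))))), t true 3 (f (a (d (a (b (c (b (f (b (a (d (c (b e))))))))))))), t true 1 (f (c (a
  (d (a (c (f (b (c (a (d (c (b e))))))))))))), t false 1 (b (f (c (a (d (a (c (f (c (a (d (c (b
  e))))))))))))), t true 2 (c (f (a (d (b (c (b (a (f (a (d (c (b e))))))))))))), t true 1 (c (f (b
  (c (b (a (d (a (f (a (d (c (b e))))))))))))), t true 1 (b (c (f (b (a (d (a (b (f (a (d (c (b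
  e))))))))))))), t false 1 (a (b (c (f (b (d (a (b (f (a (d (c (b e))))))))))))), t true 1 (c (f (b
  (a (d (a (c (b (f (a (d (c (b e))))))))))))), t false 3 (c (f (a (d (a (b (c (b (f (a (d (c (b
  e))))))))))))), t false 2 (c (f (a (d (b (c (a (f (a (b (d (c (b e))))))))))))), t true 1 (b (c (f
  (b (a (d (b (f (a (b (d (c (b e))))))))))))), t false 1 (a (b (c (f (b (d (b (f (a (b (d (c (b
  e))))))))))))), t true 2 (c (f (a (d (b (a (f (a (c (b (d (c (b e))))))))))))), t true 1 (c (f (b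
  (a (d (b (f (a (c (b (d (c (b e))))))))))))), t false 2 (c (f (a (d (a (f (a (b (c (b (d (c (b
  e))))))))))))), t false 1 (f (a (d (c (b (a (f (b (a (c (d (c (b e))))))))))))), t false 1 (f (b
  (a (d (c (b (f (b (a (c (d (c (b e))))))))))))), t true 2 (c (f (a (d (c (b (a (f (a (c (d (c (b
  e))))))))))))), t true 1 (c (f (b (a (d (c (b (f (a (c (d (c (b e))))))))))))), t false 2 (c (f (a
  (d (c (a (f (a (b (c (d (c (b e))))))))))))), t false 1 (c (a (d (f (a (b (c (b (a (f (d (c (b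
  e))))))))))))), t true 2 (a (d (b (c (b (d (f (a (b (a (f (c (b e))))))))))))), t false 1 (c (d (a
  (f (a (d (b (c (b (a (f (c (b e))))))))))))), t true 1 (d (a (f (b (c (b (a (d (b (a (f (c (b
  e))))))))))))), t false 2 (d (a (f (b (a (d (b (a (c (a (f (c (b e))))))))))))), t false 1 (a (f
  (b (c (d (a (b (a (d (a (f (c (b e))))))))))))), t false 1 (b (c (d (a (f (b (a (d (a (b (f (c (b
  e))))))))))))), t false 1 (c (d (a (f (b (a (d (a (c (b (f (c (b e))))))))))))), t false 1 (a (f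
  (d (a (c (a (d (b (c (b (f (c (b e))))))))))))), t false 1 (d (a (f (c (b (a (d (b (a (c (f (c (b
  e))))))))))))), t false 1 (d (b (a (f (c (b (d (b (a (c (f (c (b e))))))))))))), t true 1 (a (f (c
  (d (a (b (a (d (a (c (f (c (b e))))))))))))), t false 1 (a (f (b (d (c (b (f (c (a (b (a (d (b
  e))))))))))))), t true 1 (a (f (b (c (b (f (c (d (a (b (a (d (b e))))))))))))), t true 1 (c (f (a
  (b (d (a (f (b (c (b (a (d (b e))))))))))))), t true 1 (c (f (b (d (a (b (f (b (c (b (a (d (b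
  e))))))))))))), t false 1 (c (a (f (b (d (a (b (f (c (b (a (d (b e))))))))))))), t true 1 (a (f (b
  (d (a (c (b (f (c (b (a (d (b e))))))))))))), t false 1 (f (c (a (b (d (a (c (f (b (c (a (d (b
  e))))))))))))), t false 1 (f (c (b (d (a (b (c (f (b (c (a (d (b e))))))))))))), t false 1 (c (a
  (f (b (d (a (c (b (f (c (a (d (b e))))))))))))), t false 1 (c (b (d (a (f (b (c (b (f (c (a (d (b
  e))))))))))))), t false 1 (b (a (f (c (a (d (a (c (f (c (a (d (b e))))))))))))), t true 1 (a (f (c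
  (a (b (d (a (c (f (c (a (d (b e))))))))))))), t true 1 (a (f (c (b (d (a (b (c (f (c (a (d (b
  e))))))))))))), t true 1 (a (f (c (b (d (b (c (f (c (a (b (d (b e))))))))))))), t false 1 (c (f (a
  (b (d (a (f (a (b (c (b (d (b e))))))))))))), t false 1 (c (f (b (d (a (b (f (a (b (c (b (d (b
  e))))))))))))), t false 2 (c (b (d (f (a (b (a (f (b (c (b (d (b e))))))))))))), t true 2 (a (f (b
  (d (b (a (c (a (f (c (b (d (b e))))))))))))), t false 1 (a (f (c (b (d (b (a (c (f (c (b (d (b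
  e))))))))))))), t true 1 (a (f (b (d (c (b (f (a (b (a (c (d (b e))))))))))))), t false 1 (b (a (c
  (f (a (d (c (a (f (a (c (d (b e))))))))))))), t true 1 (a (c (f (a (b (d (c (a (f (a (c (d (b
  e))))))))))))), t true 1 (a (c (f (b (d (c (a (b (f (a (c (d (b e))))))))))))), t false 1 (c (f (a
  (b (d (c (a (f (a (b (c (d (b e))))))))))))), t false 1 (c (f (b (d (c (a (b (f (a (b (c (d (b
  e))))))))))))), t true 1 (a (c (f (b (d (c (b (f (a (b (c (d (b e))))))))))))), t true 1 (f (c (b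
  (d (c (a (b (a (f (b (c (d (b e))))))))))))), t false 1 (c (b (d (c (f (a (b (a (f (b (c (d (b
  e))))))))))))), t true 1 (f (c (b (d (a (b (a (c (f (b (c (d (b e))))))))))))), t true 4 (a (f (c
  (b (d (c (a (b (a (f (c (d (b e))))))))))))), t true 1 (a (c (b (d (c (f (a (b (a (f (c (d (b
  e))))))))))))), t true 2 (a (f (b (d (a (b (a (c (a (f (c (d (b e))))))))))))), t true 1 (c (b (d
  (a (f (b (a (c (b (f (c (d (b e))))))))))))), t false 1 (a (f (c (b (d (a (b (a (c (f (c (d (b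
  e))))))))))))), t false 5 (a (d (f (c (b (d (c (a (b (a (f (d (b e))))))))))))), t false 1 (c (a
  (b (d (f (a (b (c (b (a (f (d (b e))))))))))))), t true 1 (a (d (b (f (c (b (d (c (a (b (a (f (b
  e))))))))))))), t false 1 (a (d (b (c (b (d (c (f (a (b (a (f (b e))))))))))))), t false 2 (c (d
  (a (b (f (a (d (b (c (b (a (f (b e))))))))))))), t true 2 (d (a (b (f (b (a (d (b (a (c (a (f (b
  e))))))))))))), t false 1 (c (d (a (b (f (b (c (b (a (d (a (f (b e))))))))))))), t true 3 (c (d (a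
  (b (f (a (d (a (b (c (b (f (b e))))))))))))), t true 1 (a (b (f (d (a (c (a (d (b (c (b (f (b
  e))))))))))))), t true 1 (a (d (b (f (c (b (d (a (b (a (c (f (b e))))))))))))), t false 1 (a (b (f
  (c (d (a (b (a (d (a (c (f (b e))))))))))))), t true 1 (f (a (d (a (f (c (b (a (d (a (b (a (c
  e))))))))))))), t false 1 (c (f (a (d (a (f (b (a (d (a (b (a (c e)))))))))))))]

def c13_3 : List Tm := [t true 1 (f (a (d (b (a (f (c (b (d (a (b (a (c e))))))))))))), t true 1 (f
  (b (a (d (b (f (c (b (d (a (b (a (c e))))))))))))), t false 1 (c (f (a (d (b (a (f (b (d (a (b (a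
  (c e))))))))))))), t false 1 (c (f (b (a (d (b (f (b (d (a (b (a (c e))))))))))))), t false 1 (d
  (a (f (b (a (d (c (b (f (a (b (a (c e))))))))))))), t true 1 (c (d (a (f (b (a (d (b (f (a (b (a
  (c e))))))))))))), t false 1 (d (a (f (c (b (a (d (c (f (a (b (a (c e))))))))))))), t false 1 (d
  (b (a (f (c (b (d (c (f (a (b (a (c e))))))))))))), t true 1 (f (a (b (d (a (f (c (b (a (d (b (a
  (c e))))))))))))), t true 1 (f (b (d (a (b (f (c (b (a (d (b (a (c e))))))))))))), t false 1 (c (f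
  (b (d (a (b (f (b (a (d (b (a (c e))))))))))))), t true 1 (b (d (a (f (b (c (b (f (a (d (b (a (c
  e))))))))))))), t true 1 (c (a (b (d (f (a (b (a (f (d (b (a (c e))))))))))))), t false 1 (a (b (d
  (f (a (c (b (a (f (d (b (a (c e))))))))))))), t false 1 (b (d (f (a (b (c (b (a (f (d (b (a (c
  e))))))))))))), t false 2 (d (a (b (f (a (d (c (b (a (f (b (a (c e))))))))))))), t true 1 (c (d (a
  (b (f (a (d (b (a (f (b (a (c e))))))))))))), t true 2 (f (a (b (a (f (c (d (a (b (a (d (a (c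
  e))))))))))))), t false 2 (c (f (a (b (a (f (d (a (b (a (d (a (c e))))))))))))), t true 1 (c (a (b
  (f (a (d (a (f (b (a (d (a (c e))))))))))))), t false 1 (b (f (c (d (a (b (c (f (b (a (d (a (c
  e))))))))))))), t false 1 (b (f (c (d (a (c (f (b (c (a (d (a (c e))))))))))))), t true 1 (c (a (f
  (b (a (d (a (b (f (a (d (a (c e))))))))))))), t false 1 (b (c (d (a (f (b (c (b (f (a (d (a (c
  e))))))))))))), t true 1 (b (a (f (c (d (a (b (c (f (a (d (a (c e))))))))))))), t true 1 (c (a (f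
  (b (a (d (b (f (a (b (d (a (c e))))))))))))), t true 1 (b (a (f (c (d (b (c (f (a (b (d (a (c
  e))))))))))))), t true 1 (b (a (f (c (d (c (f (a (b (c (d (a (c e))))))))))))), t false 1 (a (b (c
  (d (f (a (c (b (a (f (d (a (c e))))))))))))), t true 2 (b (c (d (f (a (b (c (b (a (f (d (a (c
  e))))))))))))), t true 1 (b (a (c (d (f (a (b (c (a (f (d (a (c e))))))))))))), t true 1 (b (a (c
  (d (f (b (c (a (b (f (d (a (c e))))))))))))), t true 1 (c (f (d (a (b (a (d (a (b (a (f (a (c
  e))))))))))))), t true 1 (d (a (b (a (d (c (f (a (b (a (f (a (c e))))))))))))), t false 1 (c (d (a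
  (b (a (d (f (a (b (a (f (a (c e))))))))))))), t false 1 (a (b (d (a (c (f (a (d (b (a (f (a (c
  e))))))))))))), t true 1 (b (d (a (c (f (a (d (b (c (a (f (a (c e))))))))))))), t true 1 (d (b (a
  (c (f (a (b (d (c (a (f (a (c e))))))))))))), t false 1 (a (d (b (a (c (f (a (b (d (a (f (a (c
  e))))))))))))), t true 1 (d (b (a (c (f (b (d (c (a (b (f (a (c e))))))))))))), t false 1 (a (d (b
  (a (c (f (b (d (a (b (f (a (c e))))))))))))), t false 1 (f (c (d (c (f (c (a (b (a (d (a (b (c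
  e))))))))))))), t true 1 (f (c (d (a (c (f (c (b (a (d (a (b (c e))))))))))))), t false 1 (a (f (c
  (d (a (c (f (b (a (d (a (b (c e))))))))))))), t false 1 (f (c (d (b (c (f (c (a (b (d (a (b (c
  e))))))))))))), t true 1 (f (c (d (b (a (c (f (c (b (d (a (b (c e))))))))))))), t true 1 (c (a (f
  (b (a (d (b (f (b (d (a (b (c e))))))))))))), t false 1 (a (f (c (d (b (a (c (f (b (d (a (b (c
  e))))))))))))), t true 1 (f (c (d (c (f (a (b (a (c (d (a (b (c e))))))))))))), t false 1 (a (f (c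
  (d (c (f (b (a (c (d (a (b (c e))))))))))))), t false 3 (b (c (d (f (a (b (c (a (f (d (a (b (c
  e))))))))))))), t false 1 (b (c (d (f (b (c (a (b (f (d (a (b (c e))))))))))))), t true 1 (b (a (c
  (d (f (b (c (b (f (d (a (b (c e))))))))))))), t false 1 (d (b (c (f (a (b (d (c (a (f (a (b (c
  e))))))))))))), t false 1 (d (b (c (f (b (d (c (a (b (f (a (b (c e))))))))))))), t true 1 (d (b (a
  (c (f (b (d (c (b (f (a (b (c e))))))))))))), t false 1 (a (d (b (a (c (f (b (d (b (f (a (b (c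
  e))))))))))))), t false 1 (f (b (d (c (b (f (c (a (b (a (d (b (c e))))))))))))), t true 1 (f (b (c
  (b (f (c (d (a (b (a (d (b (c e))))))))))))), t true 1 (f (b (d (a (c (b (f (c (b (a (d (b (c
  e))))))))))))), t true 1 (c (a (f (b (d (a (b (f (b (a (d (b (c e))))))))))))), t false 1 (a (f (b
  (d (a (c (b (f (b (a (d (b (c e))))))))))))), t true 1 (f (c (b (d (b (c (f (c (a (b (d (b (c
  e))))))))))))), t true 2 (f (b (d (b (a (c (a (f (c (b (d (b (c e))))))))))))), t false 1 (f (c (b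
  (d (b (a (c (f (c (b (d (b (c e))))))))))))), t false 2 (a (f (b (d (b (a (c (a (f (b (d (b (c
  e))))))))))))), t true 1 (a (f (c (b (d (b (a (c (f (b (d (b (c e))))))))))))), t true 1 (f (b (d
  (c (b (f (a (b (a (c (d (b (c e))))))))))))), t false 1 (a (f (b (d (c (b (f (b (a (c (d (b (c
  e))))))))))))), t true 5 (f (c (b (d (c (a (b (a (f (c (d (b (c e))))))))))))), t true 2 (f (b (d
  (a (b (a (c (a (f (c (d (b (c e))))))))))))), t false 5 (d (f (c (b (d (c (a (b (a (f (d (b (c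
  e))))))))))))), t false 2 (d (f (b (d (a (b (a (c (a (f (d (b (c e))))))))))))), t true 1 (d (b (f
  (c (b (d (c (a (b (a (f (b (c e))))))))))))), t false 1 (d (b (c (b (d (c (f (a (b (a (f (b (c
  e))))))))))))), t true 1 (b (f (d (a (c (a (d (b (c (b (f (b (c e))))))))))))), t true 1 (d (b (f
  (c (b (d (a (b (a (c (f (b (c e))))))))))))), t false 1 (a (d (b (f (c (b (d (b (a (c (f (b (c
  e))))))))))))), t false 1 (b (f (c (d (a (b (a (d (a (c (f (b (c e))))))))))))), t true 1 (f (b (a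
  (d (c (b (f (c (a (b (a (d (c e))))))))))))), t true 1 (f (c (b (a (d (c (f (c (a (b (a (d (c
  e))))))))))))), t false 1 (f (b (a (c (b (f (c (d (a (b (a (d (c e))))))))))))), t true 1 (a (f (b
  (a (c (b (f (d (a (b (a (d (c e))))))))))))), t true 2 (b (c (f (a (d (a (f (b (c (b (a (d (c
  e))))))))))))), t false 1 (f (a (d (b (c (b (a (f (c (b (a (d (c e))))))))))))), t false 1 (f (b
  (a (d (a (c (b (f (c (b (a (d (c e))))))))))))), t false 1 (f (c (b (a (d (a (c (f (c (b (a (d (c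
  e))))))))))))), t false 1 (b (f (a (d (b (c (b (a (f (b (a (d (c e))))))))))))), t false 1 (b (f
  (b (c (b (a (d (a (f (b (a (d (c e))))))))))))), t true 3 (b (f (a (d (a (b (c (b (f (b (a (d (c
  e))))))))))))), t true 1 (b (f (c (b (a (d (a (c (f (b (a (d (c e))))))))))))), t false 1 (a (b (f
  (c (b (d (a (c (f (b (a (d (c e))))))))))))), t true 1 (b (f (c (a (d (a (c (f (b (c (a (d (c
  e))))))))))))), t true 2 (b (c (f (a (d (b (c (b (a (f (a (d (c e))))))))))))), t true 1 (b (c (f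
  (b (c (b (a (d (a (f (a (d (c e))))))))))))), t true 1 (b (c (f (b (a (d (a (c (b (f (a (d (c
  e))))))))))))), t false 1 (a (b (c (f (b (d (a (c (b (f (a (d (c e))))))))))))), t false 3 (b (c
  (f (a (d (a (b (c (b (f (a (d (c e))))))))))))), t false 2 (b (c (f (a (d (b (c (a (f (a (b (d (c
  e))))))))))))), t true 1 (f (b (c (b (f (a (d (b (a (c (b (d (c e)))))))))))))]

def c13_4 : List Tm := [t false 1 (a (f (b (c (b (f (d (b (a (c (b (d (c e))))))))))))), t true 2 (b
  (c (f (a (d (b (a (f (a (c (b (d (c e))))))))))))), t true 1 (b (c (f (b (a (d (b (f (a (c (b (d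
  (c e))))))))))))), t false 1 (a (b (c (f (b (d (b (f (a (c (b (d (c e))))))))))))), t false 2 (b
  (c (f (a (d (a (f (a (b (c (b (d (c e))))))))))))), t false 2 (f (b (a (d (b (a (c (a (f (c (b (d
  (c e))))))))))))), t true 1 (f (a (d (a (b (c (a (b (f (c (b (d (c e))))))))))))), t true 2 (b (f
  (b (a (d (b (a (c (a (f (b (d (c e))))))))))))), t false 2 (a (b (f (b (d (b (a (c (a (f (b (d (c
  e))))))))))))), t false 1 (b (f (a (d (a (b (c (a (b (f (b (d (c e))))))))))))), t false 1 (f (b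
  (a (d (c (b (f (a (b (a (c (d (c e))))))))))))), t false 1 (f (c (b (a (d (c (f (a (b (a (c (d (c
  e))))))))))))), t false 1 (b (f (a (d (c (b (a (f (b (a (c (d (c e))))))))))))), t true 1 (b (f (c
  (b (a (d (c (f (b (a (c (d (c e))))))))))))), t false 1 (a (b (f (c (b (d (c (f (b (a (c (d (c
  e))))))))))))), t true 2 (b (c (f (a (d (c (b (a (f (a (c (d (c e))))))))))))), t true 1 (b (c (f
  (b (a (d (c (b (f (a (c (d (c e))))))))))))), t false 1 (a (b (c (f (b (d (c (b (f (a (c (d (c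
  e))))))))))))), t false 2 (b (c (f (a (d (c (a (f (a (b (c (d (c e))))))))))))), t false 5 (f (c
  (b (a (d (c (a (b (a (f (c (d (c e))))))))))))), t false 2 (f (b (a (d (a (b (a (c (a (f (c (d (c
  e))))))))))))), t true 5 (d (f (c (b (a (d (c (a (b (a (f (d (c e))))))))))))), t false 1 (b (c (a
  (d (f (a (b (c (b (a (f (d (c e))))))))))))), t true 2 (d (f (b (a (d (a (b (a (c (a (f (d (c
  e))))))))))))), t false 2 (b (d (f (b (a (d (b (a (c (a (f (d (c e))))))))))))), t false 5 (d (a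
  (f (c (b (a (d (c (a (b (a (f (c e))))))))))))), t false 1 (d (b (a (f (c (b (d (c (a (b (a (f (c
  e))))))))))))), t false 1 (c (a (f (d (a (b (a (d (a (b (a (f (c e))))))))))))), t true 1 (d (b (a
  (c (b (d (c (f (a (b (a (f (c e))))))))))))), t false 1 (a (d (b (a (c (b (d (f (a (b (a (f (c
  e))))))))))))), t false 1 (b (c (d (a (f (a (d (b (c (b (a (f (c e))))))))))))), t true 1 (d (a (f
  (b (c (b (a (d (c (b (a (f (c e))))))))))))), t false 1 (a (f (b (d (a (c (b (a (d (b (a (f (c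
  e))))))))))))), t false 2 (d (a (f (b (a (d (a (b (a (c (a (f (c e))))))))))))), t true 1 (a (f (b
  (a (c (d (a (b (a (d (a (f (c e))))))))))))), t true 1 (d (b (c (b (d (a (f (b (a (c (b (f (c
  e))))))))))))), t false 1 (a (d (b (c (b (d (f (b (a (c (b (f (c e))))))))))))), t false 1 (b (c
  (d (a (f (b (a (d (a (c (b (f (c e))))))))))))), t false 1 (b (a (f (d (a (c (a (d (b (c (b (f (c
  e))))))))))))), t false 1 (d (b (a (f (c (b (d (a (b (a (c (f (c e))))))))))))), t false 1 (b (d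
  (a (f (c (b (a (d (b (a (c (f (c e))))))))))))), t true 1 (b (a (f (c (d (a (b (a (d (a (c (f (c
  e))))))))))))), t false 2 (d (c (f (a (b (a (f (b (c (a (b (a (d e))))))))))))), t true 1 (a (f (b
  (a (d (c (b (f (c (a (b (a (d e))))))))))))), t true 1 (a (f (c (b (a (d (c (f (c (a (b (a (d
  e))))))))))))), t true 1 (b (a (f (c (b (d (c (f (c (a (b (a (d e))))))))))))), t true 1 (c (f (a
  (b (a (f (b (c (d (a (b (a (d e))))))))))))), t false 1 (a (f (b (a (c (b (f (c (d (a (b (a (d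
  e))))))))))))), t true 1 (f (a (b (c (b (a (f (d (a (c (b (a (d e))))))))))))), t false 3 (f (a (b
  (c (a (f (d (a (b (c (b (a (d e))))))))))))), t false 1 (f (b (c (a (b (f (d (a (b (c (b (a (d
  e))))))))))))), t true 1 (d (f (b (c (a (b (f (a (b (c (b (a (d e))))))))))))), t true 2 (d (b (c
  (f (a (b (a (f (b (c (b (a (d e))))))))))))), t true 1 (b (c (f (a (b (d (a (f (b (c (b (a (d
  e))))))))))))), t true 1 (b (c (f (b (d (a (b (f (b (c (b (a (d e))))))))))))), t false 1 (a (f (a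
  (d (b (c (b (a (f (c (b (a (d e))))))))))))), t true 1 (a (f (b (c (b (a (d (a (f (c (b (a (d
  e))))))))))))), t false 1 (b (c (a (f (b (d (a (b (f (c (b (a (d e))))))))))))), t false 1 (a (f
  (b (a (d (a (c (b (f (c (b (a (d e))))))))))))), t false 1 (a (f (c (b (a (d (a (c (f (c (b (a (d
  e))))))))))))), t false 1 (b (a (f (c (b (d (a (c (f (c (b (a (d e))))))))))))), t false 1 (a (b
  (f (a (d (b (c (b (a (f (b (a (d e))))))))))))), t false 1 (a (b (f (b (c (b (a (d (a (f (b (a (d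
  e))))))))))))), t true 3 (a (b (f (a (d (a (b (c (b (f (b (a (d e))))))))))))), t true 1 (a (b (f
  (c (b (a (d (a (c (f (b (a (d e))))))))))))), t false 1 (d (c (a (b (f (a (c (a (f (b (c (a (d
  e))))))))))))), t false 1 (b (f (c (a (b (d (a (c (f (b (c (a (d e))))))))))))), t false 1 (b (f
  (c (b (d (a (b (c (f (b (c (a (d e))))))))))))), t false 1 (d (c (a (f (b (a (c (a (b (f (c (a (d
  e))))))))))))), t false 1 (b (c (a (f (b (d (a (c (b (f (c (a (d e))))))))))))), t false 1 (b (c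
  (b (d (a (f (b (c (b (f (c (a (d e))))))))))))), t true 1 (b (a (f (c (a (b (d (a (c (f (c (a (d
  e))))))))))))), t true 1 (b (a (f (c (b (d (a (b (c (f (c (a (d e))))))))))))), t false 1 (a (b (c
  (f (a (d (b (c (b (a (f (a (d e))))))))))))), t true 1 (a (b (c (f (b (a (d (a (c (b (f (a (d
  e))))))))))))), t false 1 (d (c (a (f (b (a (c (b (f (c (a (b (d e))))))))))))), t true 1 (b (a (f
  (c (b (d (b (c (f (c (a (b (d e))))))))))))), t true 1 (a (b (c (f (a (d (b (c (a (f (a (b (d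
  e))))))))))))), t false 1 (d (a (f (b (c (b (f (a (b (a (c (b (d e))))))))))))), t true 1 (a (f (b
  (c (b (f (a (d (b (a (c (b (d e))))))))))))), t false 1 (f (a (b (c (b (a (f (d (b (a (c (b (d
  e))))))))))))), t true 1 (d (a (b (c (f (a (b (a (f (a (c (b (d e))))))))))))), t false 1 (a (b (c
  (f (a (d (b (a (f (a (c (b (d e))))))))))))), t true 1 (a (b (c (f (b (a (d (b (f (a (c (b (d
  e))))))))))))), t false 1 (b (c (f (a (b (d (a (f (a (b (c (b (d e))))))))))))), t false 1 (b (c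
  (f (b (d (a (b (f (a (b (c (b (d e))))))))))))), t false 2 (b (c (b (d (f (a (b (a (f (b (c (b (d
  e))))))))))))), t false 2 (a (f (b (a (d (b (a (c (a (f (c (b (d e))))))))))))), t true 1 (a (f (a
  (d (a (b (c (a (b (f (c (b (d e))))))))))))), t false 1 (b (a (f (c (b (d (b (a (c (f (c (b (d
  e))))))))))))), t true 2 (a (b (f (b (a (d (b (a (c (a (f (b (d e))))))))))))), t false 1 (a (b (f
  (a (d (a (b (c (a (b (f (b (d e))))))))))))), t false 1 (d (f (a (c (b (a (f (c (a (b (a (c (d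
  e))))))))))))), t false 1 (d (f (b (a (c (b (f (c (a (b (a (c (d e))))))))))))), t true 1 (d (a (f
  (b (a (c (b (f (a (b (a (c (d e))))))))))))), t false 1 (a (f (b (a (d (c (b (f (a (b (a (c (d
  e))))))))))))), t false 1 (a (f (c (b (a (d (c (f (a (b (a (c (d e))))))))))))), t false 1 (b (a
  (f (c (b (d (c (f (a (b (a (c (d e))))))))))))), t true 1 (d (a (b (f (a (c (b (a (f (b (a (c (d
  e))))))))))))), t false 1 (a (b (f (a (d (c (b (a (f (b (a (c (d e)))))))))))))]

def c13_5 : List Tm := [t true 1 (a (b (f (c (b (a (d (c (f (b (a (c (d e))))))))))))), t false 1 (d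
  (a (b (a (c (f (a (b (a (f (a (c (d e))))))))))))), t false 1 (a (b (c (f (a (d (c (b (a (f (a (c
  (d e))))))))))))), t true 1 (b (a (c (f (a (b (d (c (a (f (a (c (d e))))))))))))), t true 1 (b (a
  (c (f (b (d (c (a (b (f (a (c (d e))))))))))))), t true 1 (a (b (c (f (b (a (d (c (b (f (a (c (d
  e))))))))))))), t false 1 (b (c (f (a (b (d (c (a (f (a (b (c (d e))))))))))))), t false 1 (b (c
  (f (b (d (c (a (b (f (a (b (c (d e))))))))))))), t true 1 (b (a (c (f (b (d (c (b (f (a (b (c (d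
  e))))))))))))), t true 1 (b (f (c (b (d (c (a (b (a (f (b (c (d e))))))))))))), t false 1 (b (c (b
  (d (c (f (a (b (a (f (b (c (d e))))))))))))), t true 1 (b (f (c (b (d (a (b (a (c (f (b (c (d
  e))))))))))))), t false 5 (a (f (c (b (a (d (c (a (b (a (f (c (d e))))))))))))), t false 1 (b (a
  (f (c (b (d (c (a (b (a (f (c (d e))))))))))))), t true 1 (b (a (c (b (d (c (f (a (b (a (f (c (d
  e))))))))))))), t false 2 (a (f (b (a (d (a (b (a (c (a (f (c (d e))))))))))))), t true 1 (b (c (b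
  (d (a (f (b (a (c (b (f (c (d e))))))))))))), t false 1 (b (a (f (c (b (d (a (b (a (c (f (c (d
  e))))))))))))), t true 5 (a (d (f (c (b (a (d (c (a (b (a (f (d e))))))))))))), t true 1 (a (b (c
  (a (d (f (a (b (c (b (a (f (d e))))))))))))), t false 1 (b (c (a (b (d (f (a (b (c (b (a (f (d
  e))))))))))))), t true 1 (c (a (b (a (c (d (f (a (b (c (a (f (d e))))))))))))), t true 1 (c (a (b
  (a (c (d (f (b (c (a (b (f (d e))))))))))))), t false 2 (f (c (d (a (b (a (d (b (c (a (b (a (f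
  e))))))))))))), t false 5 (a (d (a (f (c (b (a (d (c (a (b (a (f e))))))))))))), t false 1 (a (d
  (b (a (f (c (b (d (c (a (b (a (f e))))))))))))), t false 1 (a (c (a (f (d (a (b (a (d (a (b (a (f
  e))))))))))))), t true 2 (c (d (a (b (a (d (b (c (f (a (b (a (f e))))))))))))), t true 1 (a (d (b
  (a (c (b (d (c (f (a (b (a (f e))))))))))))), t true 1 (f (d (a (b (c (b (a (d (a (c (b (a (f
  e))))))))))))), t false 1 (d (a (b (c (b (a (d (f (a (c (b (a (f e))))))))))))), t false 1 (f (d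
  (a (b (c (a (d (a (b (c (b (a (f e))))))))))))), t true 1 (f (d (b (c (a (b (d (a (b (c (b (a (f
  e))))))))))))), t true 1 (d (a (b (c (a (d (f (a (b (c (b (a (f e))))))))))))), t false 1 (d (b (c
  (a (b (d (f (a (b (c (b (a (f e))))))))))))), t true 2 (f (b (c (d (a (b (a (d (b (c (b (a (f
  e))))))))))))), t false 2 (b (c (d (a (b (f (a (d (b (c (b (a (f e))))))))))))), t true 2 (b (d (a
  (b (f (b (a (d (b (a (c (a (f e))))))))))))), t false 1 (f (d (c (a (b (a (c (d (a (b (c (a (f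
  e))))))))))))), t true 1 (d (c (a (b (a (c (d (f (a (b (c (a (f e))))))))))))), t false 1 (f (c (a
  (b (d (a (c (a (d (b (c (a (f e))))))))))))), t true 1 (c (a (b (d (a (c (f (a (d (b (c (a (f
  e))))))))))))), t false 1 (f (c (a (d (b (a (c (a (b (d (c (a (f e))))))))))))), t true 1 (c (a (d
  (b (a (c (f (a (b (d (c (a (f e))))))))))))), t false 1 (b (c (d (a (b (f (b (c (b (a (d (a (f
  e))))))))))))), t false 1 (f (d (c (a (b (a (c (d (b (c (a (b (f e))))))))))))), t true 1 (d (c (a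
  (b (a (c (d (f (b (c (a (b (f e))))))))))))), t false 1 (f (c (a (d (b (a (c (b (d (c (a (b (f
  e))))))))))))), t true 1 (c (a (d (b (a (c (f (b (d (c (a (b (f e))))))))))))), t false 1 (f (a (d
  (b (c (b (d (a (b (a (c (b (f e))))))))))))), t true 1 (a (d (b (c (b (d (a (f (b (a (c (b (f
  e))))))))))))), t true 1 (f (a (b (c (d (a (b (a (d (a (c (b (f e))))))))))))), t false 1 (a (b (c
  (d (a (f (b (a (d (a (c (b (f e))))))))))))), t false 3 (f (b (c (d (a (b (a (d (a (b (c (b (f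
  e))))))))))))), t true 3 (b (c (d (a (b (f (a (d (a (b (c (b (f e))))))))))))), t false 1 (a (b (a
  (f (d (a (c (a (d (b (c (b (f e))))))))))))), t true 1 (f (a (d (b (a (c (b (d (a (b (a (c (f
  e))))))))))))), t false 1 (a (d (b (a (f (c (b (d (a (b (a (c (f e))))))))))))), t true 1 (f (a (b
  (d (a (c (b (a (d (b (a (c (f e))))))))))))), t false 1 (a (b (d (a (f (c (b (a (d (b (a (c (f
  e))))))))))))), t false 1 (f (a (b (a (c (d (a (b (a (d (a (c (f e))))))))))))), t true 1 (a (b (a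
  (f (c (d (a (b (a (d (a (c (f e)))))))))))))]

def c13 : List (List Tm) := [c13_0, c13_1, c13_2, c13_3, c13_4, c13_5]

def c14_0 : List Tm := [t true 1 (f (a (c (a (f (c (d (b (a (c (a (b (a e))))))))))))), t true 1 (c
  (f (a (b (a (f (b (d (b (c (a (b (a e))))))))))))), t true 1 (f (a (c (b (a (f (c (d (b (c (a (b
  (a e))))))))))))), t true 1 (f (b (a (c (b (f (c (d (b (c (a (b (a e))))))))))))), t true 1 (c (d
  (f (a (b (a (f (b (d (c (a (b (a e))))))))))))), t false 1 (f (b (a (c (d (b (f (c (d (c (a (b (a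
  e))))))))))))), t false 1 (d (c (f (a (b (a (f (c (b (d (a (b (a e))))))))))))), t false 1 (d (f
  (c (a (b (a (c (f (b (d (a (b (a e))))))))))))), t false 1 (d (f (a (c (b (a (f (b (c (d (a (b (a
  e))))))))))))), t true 1 (a (c (f (a (d (b (a (f (c (d (a (b (a e))))))))))))), t true 1 (a (c (f
  (b (a (d (b (f (c (d (a (b (a e))))))))))))), t true 1 (b (a (c (f (b (d (b (f (c (d (a (b (a
  e))))))))))))), t false 1 (f (b (c (b (a (d (b (c (a (f (a (b (a e))))))))))))), t false 1 (f (a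
  (b (c (a (f (b (d (b (a (c (b (a e))))))))))))), t false 1 (f (a (c (a (f (b (c (d (b (a (c (b (a
  e))))))))))))), t false 1 (d (f (a (b (c (a (f (b (d (a (c (b (a e))))))))))))), t true 1 (d (f (b
  (c (a (b (f (b (d (a (c (b (a e))))))))))))), t false 1 (d (f (a (c (a (f (b (c (d (a (c (b (a
  e))))))))))))), t true 1 (f (b (c (b (a (d (b (a (f (a (c (b (a e))))))))))))), t false 1 (f (b (a
  (d (b (a (c (a (f (a (c (b (a e))))))))))))), t false 1 (f (b (c (b (a (d (a (f (a (b (c (b (a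
  e))))))))))))), t false 1 (f (a (b (c (b (a (f (a (d (b (c (b (a e))))))))))))), t true 1 (f (d (b
  (c (b (d (f (a (d (b (c (b (a e))))))))))))), t true 1 (f (a (b (c (a (f (a (b (d (b (c (b (a
  e))))))))))))), t false 1 (b (c (f (a (b (a (f (b (d (b (c (b (a e))))))))))))), t false 1 (f (a
  (c (b (a (f (a (c (d (b (c (b (a e))))))))))))), t false 1 (f (b (a (c (b (f (a (c (d (b (c (b (a
  e))))))))))))), t true 1 (f (a (c (a (f (a (b (c (d (b (c (b (a e))))))))))))), t true 1 (b (c (a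
  (d (f (a (b (a (f (b (c (b (a e))))))))))))), t false 1 (b (a (d (f (a (c (b (a (f (b (c (b (a
  e))))))))))))), t true 1 (a (d (f (a (b (c (b (a (f (b (c (b (a e))))))))))))), t false 1 (c (b (a
  (d (f (a (c (a (f (b (c (b (a e))))))))))))), t true 1 (c (a (d (f (a (b (c (a (f (b (c (b (a
  e))))))))))))), t true 1 (d (f (b (c (b (a (d (a (f (b (c (b (a e))))))))))))), t true 1 (f (c (d
  (c (f (a (b (c (b (d (c (b (a e))))))))))))), t false 1 (a (f (c (d (c (f (b (c (b (d (c (b (a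
  e))))))))))))), t true 1 (b (c (d (f (a (b (a (f (b (d (c (b (a e))))))))))))), t true 1 (c (d (f
  (a (b (c (a (f (b (d (c (b (a e))))))))))))), t false 1 (c (d (f (b (c (a (b (f (b (d (c (b (a
  e))))))))))))), t true 1 (a (c (d (f (b (c (b (f (b (d (c (b (a e))))))))))))), t true 1 (f (b (a
  (c (d (b (f (a (c (d (c (b (a e))))))))))))), t true 1 (c (d (f (a (c (a (f (b (c (d (c (b (a
  e))))))))))))), t true 1 (c (f (b (a (d (b (a (c (a (f (c (b (a e))))))))))))), t true 1 (c (f (a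
  (b (d (b (a (f (c (a (d (b (a e))))))))))))), t false 1 (c (f (a (b (d (a (f (c (a (b (d (b (a
  e))))))))))))), t false 1 (c (f (b (d (a (b (f (c (a (b (d (b (a e))))))))))))), t true 1 (f (a (b
  (d (c (a (f (a (c (b (d (b (a e))))))))))))), t true 1 (f (b (d (c (a (b (f (a (c (b (d (b (a
  e))))))))))))), t false 1 (f (c (a (b (d (c (f (a (c (b (d (b (a e))))))))))))), t false 1 (f (c
  (b (d (c (f (a (b (c (b (d (b (a e))))))))))))), t true 1 (a (f (c (b (d (c (f (b (c (b (d (b (a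
  e))))))))))))), t true 1 (b (d (c (f (a (b (a (f (c (b (d (b (a e))))))))))))), t false 1 (c (f (b
  (d (c (a (b (f (c (b (d (b (a e))))))))))))), t true 1 (a (c (f (b (d (c (b (f (c (b (d (b (a
  e))))))))))))), t false 1 (c (b (d (f (a (b (c (a (f (b (d (b (a e))))))))))))), t true 1 (c (b (d
  (f (b (c (a (b (f (b (d (b (a e))))))))))))), t false 1 (a (c (b (d (f (b (c (b (f (b (d (b (a
  e))))))))))))), t true 1 (b (d (f (c (a (b (a (c (f (b (d (b (a e))))))))))))), t false 1 (f (b (d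
  (b (a (c (a (f (a (c (d (b (a e))))))))))))), t false 1 (f (a (b (d (b (c (a (f (a (c (d (b (a
  e))))))))))))), t true 1 (b (d (f (a (c (b (a (f (b (c (d (b (a e))))))))))))), t false 1 (c (b (d
  (f (a (c (a (f (b (c (d (b (a e))))))))))))), t false 1 (b (a (c (f (a (d (b (a (f (c (d (b (a
  e))))))))))))), t true 1 (c (f (a (c (b (d (b (a (f (c (d (b (a e))))))))))))), t false 1 (d (b (a
  (c (f (a (d (a (f (c (d (b (a e))))))))))))), t false 1 (b (a (c (f (b (a (d (b (f (c (d (b (a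
  e))))))))))))), t false 1 (c (a (f (a (c (b (d (b (a (f (d (b (a e))))))))))))), t true 1 (c (a (f
  (b (d (b (a (c (a (f (d (b (a e))))))))))))), t false 1 (c (b (f (b (a (d (b (a (c (a (f (b (a
  e))))))))))))), t true 1 (f (a (b (d (c (a (f (b (d (b (a (c (a e))))))))))))), t false 1 (f (c (a
  (b (d (c (f (b (d (b (a (c (a e))))))))))))), t true 2 (b (d (f (a (c (a (f (c (d (b (a (c (a
  e))))))))))))), t false 1 (d (f (a (b (c (a (f (c (b (d (a (c (a e))))))))))))), t true 1 (a (b (f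
  (a (d (c (a (f (b (d (a (c (a e))))))))))))), t false 1 (b (f (c (a (b (d (c (f (b (d (a (c (a
  e))))))))))))), t false 1 (d (f (b (a (c (a (b (f (c (d (a (c (a e))))))))))))), t false 1 (f (c
  (b (a (d (c (a (b (a (f (a (c (a e))))))))))))), t true 1 (f (b (c (b (a (d (c (b (a (f (a (c (a
  e))))))))))))), t false 1 (f (b (c (b (a (d (c (a (f (a (b (c (a e))))))))))))), t true 1 (f (a (b
  (d (c (b (a (f (a (d (b (c (a e))))))))))))), t false 1 (f (a (b (d (c (a (f (a (b (d (b (c (a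
  e))))))))))))), t true 1 (f (c (a (b (d (c (f (a (b (d (b (c (a e))))))))))))), t false 1 (f (b (d
  (b (f (a (b (c (b (d (b (c (a e))))))))))))), t true 1 (a (f (b (d (b (f (b (c (b (d (b (c (a
  e))))))))))))), t true 1 (b (d (c (f (a (b (a (f (b (d (b (c (a e))))))))))))), t true 2 (b (d (f
  (a (c (b (a (f (c (d (b (c (a e))))))))))))), t true 1 (b (d (f (b (a (c (b (f (c (d (b (c (a
  e))))))))))))), t false 1 (a (b (d (f (b (c (b (f (c (d (b (c (a e))))))))))))), t true 1 (b (a (f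
  (c (d (c (f (a (b (a (d (c (a e))))))))))))), t false 1 (f (c (a (b (a (d (c (f (a (b (d (c (a
  e))))))))))))), t true 1 (b (c (d (f (a (b (a (f (c (b (d (c (a e))))))))))))), t true 1 (c (d (f
  (a (b (c (a (f (c (b (d (c (a e))))))))))))), t true 1 (b (f (c (d (c (a (b (a (f (b (d (c (a
  e))))))))))))), t false 1 (b (c (d (c (f (a (b (a (f (b (d (c (a e))))))))))))), t false 1 (c (a
  (b (f (a (d (c (a (f (b (d (c (a e))))))))))))), t false 1 (d (c (a (b (f (a (d (a (f (b (d (c (a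
  e))))))))))))), t true 1 (b (f (c (a (b (a (d (c (f (b (d (c (a e))))))))))))), t false 1 (b (f (c
  (d (a (c (f (b (a (c (d (c (a e))))))))))))), t true 1 (f (a (c (d (b (a (f (a (b (c (d (c (a
  e))))))))))))), t false 1 (f (b (a (c (d (b (f (a (b (c (d (c (a e)))))))))))))]

def c14_1 : List Tm := [t true 1 (f (c (d (b (a (c (f (a (b (c (d (c (a e))))))))))))), t false 1 (b
  (f (c (d (b (a (c (f (b (c (d (c (a e))))))))))))), t true 1 (a (b (f (c (d (b (c (f (b (c (d (c
  (a e))))))))))))), t false 1 (b (a (c (d (f (a (b (a (f (c (d (c (a e))))))))))))), t false 2 (b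
  (c (d (f (a (c (b (a (f (c (d (c (a e))))))))))))), t true 1 (c (d (f (b (a (c (a (b (f (c (d (c
  (a e))))))))))))), t false 2 (b (c (d (f (b (a (c (b (f (c (d (c (a e))))))))))))), t true 2 (a (b
  (c (d (f (b (c (b (f (c (d (c (a e))))))))))))), t false 1 (b (a (f (c (d (c (a (b (a (f (d (c (a
  e))))))))))))), t true 1 (b (a (c (d (c (f (a (b (a (f (d (c (a e))))))))))))), t true 1 (c (f (c
  (b (a (d (c (a (b (a (f (c (a e))))))))))))), t true 1 (f (d (b (c (b (d (f (b (c (b (a (d (a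
  e))))))))))))), t false 1 (a (f (b (a (c (b (f (b (c (a (b (d (a e))))))))))))), t true 1 (f (c (d
  (a (b (a (d (c (f (a (b (d (a e))))))))))))), t false 1 (f (d (b (c (a (b (d (f (a (c (b (d (a
  e))))))))))))), t false 1 (f (d (b (c (b (d (f (a (b (c (b (d (a e))))))))))))), t false 1 (d (b
  (c (f (a (b (d (a (f (c (b (d (a e))))))))))))), t false 1 (b (c (f (d (a (b (a (d (f (c (b (d (a
  e))))))))))))), t true 1 (c (d (a (b (f (a (d (c (a (f (b (d (a e))))))))))))), t false 1 (d (b (f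
  (c (a (b (d (a (c (f (b (d (a e))))))))))))), t false 1 (d (b (f (c (b (d (a (b (c (f (b (d (a
  e))))))))))))), t true 1 (a (d (b (f (c (b (d (b (c (f (b (d (a e))))))))))))), t false 1 (b (f (c
  (d (a (b (a (d (c (f (b (d (a e))))))))))))), t true 1 (f (b (d (a (c (a (d (b (f (a (c (d (a
  e))))))))))))), t true 1 (f (d (b (a (c (a (b (d (f (a (c (d (a e))))))))))))), t true 1 (f (d (b
  (a (c (b (d (f (a (b (c (d (a e))))))))))))), t true 1 (b (d (a (c (f (a (d (b (a (f (c (d (a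
  e))))))))))))), t true 1 (d (b (a (c (f (a (b (d (a (f (c (d (a e))))))))))))), t true 1 (d (b (a
  (c (f (b (d (a (b (f (c (d (a e))))))))))))), t true 1 (d (b (c (f (b (d (a (c (b (f (c (d (a
  e))))))))))))), t false 1 (a (d (b (c (f (b (d (c (b (f (c (d (a e))))))))))))), t true 1 (b (a (c
  (f (d (a (b (a (d (f (c (d (a e))))))))))))), t true 1 (c (d (a (f (b (a (d (c (a (b (f (d (a
  e))))))))))))), t false 1 (d (c (a (f (b (a (c (d (a (b (f (d (a e))))))))))))), t true 1 (d (a (f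
  (b (c (a (d (a (c (b (f (d (a e))))))))))))), t false 1 (d (b (c (b (d (a (f (b (c (b (f (d (a
  e))))))))))))), t true 1 (a (d (b (c (b (d (f (b (c (b (f (d (a e))))))))))))), t false 1 (b (c (d
  (a (f (b (a (d (c (b (f (d (a e))))))))))))), t false 1 (c (a (f (b (d (a (c (a (d (b (f (d (a
  e))))))))))))), t true 1 (b (d (a (f (c (a (d (b (a (c (f (d (a e))))))))))))), t false 1 (c (a (f
  (d (b (a (c (a (b (d (f (d (a e))))))))))))), t false 1 (c (d (f (c (b (a (d (c (a (b (a (f (a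
  e))))))))))))), t true 1 (c (a (b (a (c (b (d (f (a (b (a (f (a e))))))))))))), t false 2 (b (c (b
  (a (d (f (a (b (c (b (a (f (a e))))))))))))), t true 1 (d (b (c (b (f (a (d (b (c (b (a (f (a
  e))))))))))))), t false 1 (b (c (b (d (f (a (d (b (c (b (a (f (a e))))))))))))), t true 1 (a (b (a
  (c (a (b (d (f (a (c (a (f (a e))))))))))))), t true 1 (a (b (a (c (b (d (f (a (b (c (a (f (a
  e))))))))))))), t true 1 (a (b (a (c (b (d (f (b (c (a (b (f (a e))))))))))))), t true 1 (a (b (c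
  (a (b (d (f (b (a (c (b (f (a e))))))))))))), t false 1 (b (a (c (d (f (c (a (b (a (d (c (f (a
  e))))))))))))), t true 2 (d (f (a (c (a (f (c (d (b (a (c (a (b e))))))))))))), t false 1 (f (a (b
  (d (c (a (f (b (d (a (c (a (b e))))))))))))), t false 2 (b (d (f (a (c (a (f (c (d (a (c (a (b
  e))))))))))))), t true 1 (d (c (f (a (b (a (f (b (d (b (c (a (b e))))))))))))), t true 2 (d (f (a
  (c (b (a (f (c (d (b (c (a (b e))))))))))))), t true 1 (d (f (b (a (c (b (f (c (d (b (c (a (b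
  e))))))))))))), t true 1 (a (f (c (d (c (f (a (b (a (d (c (a (b e))))))))))))), t true 1 (f (c (d
  (c (a (b (a (f (b (d (c (a (b e))))))))))))), t false 1 (c (d (c (f (a (b (a (f (b (d (c (a (b
  e))))))))))))), t false 1 (f (c (d (a (c (f (b (a (c (d (c (a (b e))))))))))))), t true 1 (b (f (c
  (d (a (c (f (a (c (d (c (a (b e))))))))))))), t true 1 (f (a (c (d (b (a (f (b (c (d (c (a (b
  e))))))))))))), t false 1 (f (b (a (c (d (b (f (b (c (d (c (a (b e))))))))))))), t false 1 (a (c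
  (d (f (a (b (a (f (c (d (c (a (b e))))))))))))), t false 2 (c (d (f (a (c (b (a (f (c (d (c (a (b
  e))))))))))))), t true 2 (b (c (d (f (a (c (a (f (c (d (c (a (b e))))))))))))), t false 1 (c (d (f
  (b (a (c (b (f (c (d (c (a (b e))))))))))))), t false 1 (a (f (c (d (c (a (b (a (f (d (c (a (b
  e))))))))))))), t true 1 (a (c (d (c (f (a (b (a (f (d (c (a (b e))))))))))))), t false 1 (f (d (b
  (c (b (d (f (b (c (a (d (a (b e))))))))))))), t true 1 (a (f (b (c (b (f (b (c (a (b (d (a (b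
  e))))))))))))), t false 1 (a (f (b (a (c (b (f (b (c (b (d (a (b e))))))))))))), t false 1 (c (f
  (d (a (b (a (d (f (c (b (d (a (b e))))))))))))), t true 1 (f (d (b (a (c (b (d (f (b (c (d (a (b
  e))))))))))))), t true 1 (d (a (c (f (a (d (b (a (f (c (d (a (b e))))))))))))), t false 1 (b (d (a
  (c (f (a (d (a (f (c (d (a (b e))))))))))))), t true 1 (d (b (a (c (f (b (d (b (f (c (d (a (b
  e))))))))))))), t true 1 (a (c (f (d (a (b (a (d (f (c (d (a (b e))))))))))))), t false 1 (d (c (a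
  (f (b (a (c (d (b (f (d (a (b e))))))))))))), t true 1 (d (a (f (c (a (d (b (a (c (f (d (a (b
  e))))))))))))), t false 1 (b (d (a (f (c (a (d (a (c (f (d (a (b e))))))))))))), t false 1 (c (a
  (f (d (b (a (c (b (d (f (d (a (b e))))))))))))), t false 1 (c (b (a (d (f (a (b (c (b (a (f (a (b
  e))))))))))))), t false 1 (a (b (c (a (b (d (f (a (c (a (f (a (b e))))))))))))), t true 1 (b (c (b
  (a (d (f (a (b (c (a (f (a (b e))))))))))))), t false 1 (a (b (c (b (d (f (a (b (c (a (f (a (b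
  e))))))))))))), t false 1 (d (f (b (c (b (a (d (b (c (a (f (a (b e))))))))))))), t false 1 (a (b
  (c (b (d (f (b (c (a (b (f (a (b e))))))))))))), t true 1 (a (b (a (c (b (d (f (b (c (b (f (a (b
  e))))))))))))), t false 1 (a (c (d (f (c (a (b (a (d (c (f (a (b e))))))))))))), t false 1 (a (f
  (b (d (b (f (d (c (a (b (a (c (b e))))))))))))), t true 1 (a (f (b (c (d (b (f (d (a (b (a (c (b
  e))))))))))))), t false 2 (d (f (a (b (c (a (f (b (d (b (a (c (b e))))))))))))), t false 2 (d (f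
  (a (c (a (f (b (c (d (b (a (c (b e))))))))))))), t false 1 (f (b (a (d (b (a (c (a (f (b (a (c (b
  e))))))))))))), t true 1 (a (f (b (c (b (f (a (b (a (d (a (c (b e))))))))))))), t true 1 (f (d (b
  (c (b (d (f (b (a (d (a (c (b e))))))))))))), t true 1 (f (a (b (a (f (b (a (c (a (d (a (c (b
  e))))))))))))), t false 1 (f (a (b (a (f (a (c (a (b (d (a (c (b e)))))))))))))]

def c14_2 : List Tm := [t false 1 (f (d (b (c (a (b (d (f (b (d (a (c (b e))))))))))))), t true 1 (d
  (a (f (b (c (a (d (b (f (d (a (c (b e))))))))))))), t true 1 (d (a (f (c (a (d (b (c (f (d (a (c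
  (b e))))))))))))), t false 1 (b (d (a (f (c (a (d (c (f (d (a (c (b e))))))))))))), t true 1 (a (f
  (d (b (c (a (b (d (f (d (a (c (b e))))))))))))), t false 1 (b (c (b (a (d (f (a (b (a (f (a (c (b
  e))))))))))))), t false 1 (c (b (a (d (f (a (c (b (a (f (a (c (b e))))))))))))), t true 1 (c (a (d
  (f (a (b (c (b (a (f (a (c (b e))))))))))))), t true 1 (d (f (b (c (b (a (d (b (a (f (a (c (b
  e))))))))))))), t false 1 (f (d (b (c (b (d (f (a (d (a (b (c (b e))))))))))))), t false 1 (f (a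
  (b (a (f (a (c (b (d (a (b (c (b e))))))))))))), t true 1 (a (f (d (b (c (b (d (f (d (a (b (c (b
  e))))))))))))), t false 1 (b (c (a (d (f (a (b (a (f (a (b (c (b e))))))))))))), t true 1 (b (a (d
  (f (a (c (b (a (f (a (b (c (b e))))))))))))), t false 1 (a (d (f (a (b (c (b (a (f (a (b (c (b
  e))))))))))))), t true 1 (c (b (a (d (f (a (c (a (f (a (b (c (b e))))))))))))), t false 1 (c (a (d
  (f (a (b (c (a (f (a (b (c (b e))))))))))))), t false 1 (d (f (b (c (b (a (d (a (f (a (b (c (b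
  e))))))))))))), t false 1 (d (f (a (b (c (b (a (f (a (d (b (c (b e))))))))))))), t true 1 (d (f (a
  (b (c (a (f (a (b (d (b (c (b e))))))))))))), t false 1 (d (f (a (b (a (f (a (c (b (d (b (c (b
  e))))))))))))), t false 1 (d (f (b (a (c (b (f (a (c (d (b (c (b e))))))))))))), t false 2 (d (b
  (f (a (c (b (a (f (c (d (b (c (b e))))))))))))), t true 1 (a (f (b (c (b (a (d (a (f (d (b (c (b
  e))))))))))))), t false 1 (a (f (b (c (a (d (a (b (f (d (b (c (b e))))))))))))), t false 1 (a (f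
  (d (b (c (b (a (d (f (d (b (c (b e))))))))))))), t false 1 (f (b (a (d (b (a (c (b (a (f (b (c (b
  e))))))))))))), t true 1 (a (f (b (c (d (b (f (a (b (a (d (c (b e))))))))))))), t false 1 (b (a (f
  (c (d (c (f (a (c (a (d (c (b e))))))))))))), t true 1 (a (f (c (d (c (f (a (b (c (a (d (c (b
  e))))))))))))), t true 1 (c (d (f (a (b (c (b (a (f (a (d (c (b e))))))))))))), t true 1 (b (a (c
  (d (f (a (c (a (f (a (d (c (b e))))))))))))), t false 1 (a (c (d (f (b (c (a (b (f (a (d (c (b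
  e))))))))))))), t false 1 (f (c (d (c (f (a (b (c (a (b (d (c (b e))))))))))))), t true 1 (a (f (c
  (d (c (f (b (c (a (b (d (c (b e))))))))))))), t false 1 (c (d (f (a (b (c (a (f (a (b (d (c (b
  e))))))))))))), t true 1 (c (d (f (b (c (a (b (f (a (b (d (c (b e))))))))))))), t false 1 (a (c (d
  (f (b (c (b (f (a (b (d (c (b e))))))))))))), t true 1 (c (d (f (a (b (a (f (a (c (b (d (c (b
  e))))))))))))), t true 1 (f (c (d (b (c (a (b (a (f (b (d (c (b e))))))))))))), t true 1 (f (b (a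
  (c (d (a (c (b (f (b (d (c (b e))))))))))))), t true 1 (f (d (b (c (a (b (a (d (f (b (d (c (b
  e))))))))))))), t false 1 (f (a (c (d (b (a (f (b (a (c (d (c (b e))))))))))))), t true 1 (f (b (a
  (c (d (b (f (b (a (c (d (c (b e))))))))))))), t true 1 (c (d (f (a (c (b (a (f (a (c (d (c (b
  e))))))))))))), t true 1 (c (d (f (b (a (c (b (f (a (c (d (c (b e))))))))))))), t false 1 (c (d (f
  (a (c (a (f (a (b (c (d (c (b e))))))))))))), t false 1 (f (b (a (c (d (a (b (f (b (c (d (c (b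
  e))))))))))))), t true 1 (c (d (b (f (a (c (b (a (f (c (d (c (b e))))))))))))), t false 1 (a (f (b
  (a (c (d (a (c (b (f (d (c (b e))))))))))))), t false 1 (b (a (f (b (c (d (a (c (b (f (d (c (b
  e))))))))))))), t false 1 (a (f (d (b (c (a (b (a (d (f (d (c (b e))))))))))))), t true 1 (c (f (b
  (a (d (b (a (c (b (a (f (c (b e))))))))))))), t true 1 (a (c (f (d (b (c (a (b (a (d (f (c (b
  e))))))))))))), t true 1 (a (f (c (b (d (b (c (f (a (b (a (d (b e))))))))))))), t true 1 (f (a (c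
  (b (d (b (c (a (f (b (a (d (b e))))))))))))), t true 1 (f (a (d (c (a (f (b (d (a (c (a (d (b
  e))))))))))))), t true 1 (f (c (a (d (c (f (b (d (a (c (a (d (b e))))))))))))), t false 1 (b (f (a
  (d (c (a (f (d (a (c (a (d (b e))))))))))))), t false 1 (b (f (c (a (d (c (f (d (a (c (a (d (b
  e))))))))))))), t true 1 (b (a (f (c (a (d (c (f (a (c (a (d (b e))))))))))))), t false 1 (a (f (c
  (a (b (d (c (f (a (c (a (d (b e))))))))))))), t false 1 (a (f (c (b (d (c (f (a (b (c (a (d (b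
  e))))))))))))), t true 1 (a (b (d (c (f (a (b (a (f (c (a (d (b e))))))))))))), t true 1 (b (a (c
  (f (a (d (c (a (f (c (a (d (b e))))))))))))), t false 1 (a (c (f (b (d (c (a (b (f (c (a (d (b
  e))))))))))))), t false 1 (c (b (d (f (a (b (c (b (a (f (a (d (b e))))))))))))), t false 1 (b (a
  (c (a (d (f (a (c (a (f (a (d (b e))))))))))))), t true 1 (a (c (b (d (f (b (c (a (b (f (a (d (b
  e))))))))))))), t true 1 (c (a (b (d (f (b (a (c (b (f (a (d (b e))))))))))))), t true 1 (a (b (d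
  (f (c (a (b (a (c (f (a (d (b e))))))))))))), t true 1 (f (c (a (b (d (c (f (a (c (a (b (d (b
  e))))))))))))), t true 1 (f (c (b (d (c (f (a (b (c (a (b (d (b e))))))))))))), t true 1 (a (f (b
  (d (c (b (f (b (c (a (b (d (b e))))))))))))), t false 1 (a (f (c (b (d (c (f (b (c (a (b (d (b
  e))))))))))))), t true 1 (c (f (b (d (c (a (b (f (c (a (b (d (b e))))))))))))), t false 1 (a (c (f
  (b (d (c (b (f (c (a (b (d (b e))))))))))))), t true 1 (c (b (d (f (a (b (c (a (f (a (b (d (b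
  e))))))))))))), t false 1 (c (b (d (f (b (c (a (b (f (a (b (d (b e))))))))))))), t true 1 (a (c (b
  (d (f (b (c (b (f (a (b (d (b e))))))))))))), t false 1 (b (d (f (c (a (b (a (c (f (a (b (d (b
  e))))))))))))), t false 1 (f (b (d (b (f (c (a (b (a (c (b (d (b e))))))))))))), t false 2 (c (b
  (d (f (a (b (a (f (a (c (b (d (b e))))))))))))), t true 1 (a (b (d (f (a (c (a (f (a (c (b (d (b
  e))))))))))))), t true 1 (b (d (f (a (b (c (a (f (a (c (b (d (b e))))))))))))), t false 1 (a (f (b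
  (d (a (c (b (f (b (c (b (d (b e))))))))))))), t false 1 (b (d (b (c (f (a (b (a (f (c (b (d (b
  e))))))))))))), t false 1 (f (c (b (d (b (c (a (b (a (f (b (d (b e))))))))))))), t true 1 (f (a (c
  (b (d (b (c (b (a (f (b (d (b e))))))))))))), t false 1 (b (d (c (a (b (f (a (c (a (f (b (d (b
  e))))))))))))), t false 1 (f (b (a (c (a (d (a (c (b (f (b (d (b e))))))))))))), t true 1 (f (a (c
  (a (b (d (a (c (b (f (b (d (b e))))))))))))), t false 1 (f (a (c (b (d (b (a (f (b (a (c (d (b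
  e))))))))))))), t false 1 (f (b (d (b (a (c (a (f (b (a (c (d (b e))))))))))))), t false 1 (f (d
  (b (a (c (a (d (f (b (a (c (d (b e))))))))))))), t true 2 (a (c (b (d (f (a (b (a (f (a (c (d (b
  e))))))))))))), t false 1 (c (b (d (f (a (c (b (a (f (a (c (d (b e))))))))))))), t false 1 (a (b
  (d (f (a (b (c (a (f (a (c (d (b e))))))))))))), t false 1 (c (b (d (f (b (a (c (b (f (a (c (d (b
  e))))))))))))), t true 1 (c (a (b (d (f (b (c (b (f (a (c (d (b e)))))))))))))]

def c14_3 : List Tm := [t false 1 (d (f (b (a (c (a (d (b (f (a (c (d (b e))))))))))))), t true 1 (c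
  (b (d (f (a (c (a (f (a (b (c (d (b e))))))))))))), t false 2 (f (b (d (b (a (c (b (a (f (b (c (d
  (b e))))))))))))), t false 1 (b (d (b (f (a (c (b (a (f (b (c (d (b e))))))))))))), t true 1 (f (b
  (a (c (b (a (d (a (f (b (c (d (b e))))))))))))), t false 1 (f (a (c (a (b (d (a (b (f (b (c (d (b
  e))))))))))))), t false 1 (f (d (b (a (c (b (a (d (f (b (c (d (b e))))))))))))), t false 2 (d (b
  (a (c (f (a (d (b (a (f (c (d (b e))))))))))))), t false 1 (c (f (a (c (a (b (d (a (b (f (c (d (b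
  e))))))))))))), t false 1 (d (b (a (c (f (b (a (d (b (f (c (d (b e))))))))))))), t true 1 (a (f (c
  (b (d (b (c (a (b (a (f (d (b e))))))))))))), t true 1 (c (a (f (b (d (b (a (c (b (a (f (d (b
  e))))))))))))), t true 1 (c (b (a (f (a (d (b (c (b (a (f (d (b e))))))))))))), t false 1 (a (f (a
  (c (b (d (b (c (b (a (f (d (b e))))))))))))), t true 1 (a (f (b (d (c (a (b (a (c (a (f (d (b
  e))))))))))))), t true 1 (c (a (f (a (c (a (b (d (a (b (f (d (b e))))))))))))), t true 1 (a (f (b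
  (a (c (a (d (a (c (b (f (d (b e))))))))))))), t true 1 (b (a (f (b (c (a (d (a (c (b (f (d (b
  e))))))))))))), t false 1 (a (f (a (c (a (b (d (a (c (b (f (d (b e))))))))))))), t true 1 (d (c (a
  (f (b (a (c (a (d (b (f (d (b e))))))))))))), t false 1 (d (b (a (f (c (a (d (b (a (c (f (d (b
  e))))))))))))), t true 1 (c (a (f (d (b (a (c (b (a (d (f (d (b e))))))))))))), t false 1 (c (b (f
  (b (a (d (b (a (c (b (a (f (b e))))))))))))), t false 1 (a (c (d (c (a (b (f (a (d (c (a (f (b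
  e))))))))))))), t false 1 (a (b (f (b (a (c (a (d (a (c (b (f (b e))))))))))))), t true 1 (a (b (f
  (a (c (a (b (d (a (c (b (f (b e))))))))))))), t true 1 (a (c (d (b (f (c (a (b (a (d (c (f (b
  e))))))))))))), t true 1 (d (f (a (b (a (f (b (d (c (a (b (a (c e))))))))))))), t true 1 (a (f (b
  (a (d (b (f (d (c (a (b (a (c e))))))))))))), t false 2 (c (d (f (a (b (a (f (b (d (a (b (a (c
  e))))))))))))), t true 1 (f (b (a (c (d (b (f (c (d (a (b (a (c e))))))))))))), t false 1 (a (f (b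
  (a (c (d (b (f (d (a (b (a (c e))))))))))))), t true 1 (a (f (b (d (b (f (a (c (a (d (b (a (c
  e))))))))))))), t true 1 (f (a (b (d (b (a (f (c (a (d (b (a (c e))))))))))))), t false 1 (f (a (b
  (d (a (f (c (a (b (d (b (a (c e))))))))))))), t false 1 (f (b (d (a (b (f (c (a (b (d (b (a (c
  e))))))))))))), t true 1 (c (f (b (d (a (b (f (a (b (d (b (a (c e))))))))))))), t true 1 (f (a (b
  (d (c (a (f (c (b (d (b (a (c e))))))))))))), t false 1 (f (c (a (b (d (c (f (c (b (d (b (a (c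
  e))))))))))))), t true 2 (c (b (d (f (a (b (a (f (b (d (b (a (c e))))))))))))), t false 2 (b (d (f
  (a (b (c (a (f (b (d (b (a (c e))))))))))))), t false 2 (b (d (f (a (c (a (f (b (c (d (b (a (c
  e))))))))))))), t true 1 (f (a (c (b (d (b (a (f (c (d (b (a (c e))))))))))))), t false 1 (f (b (d
  (b (a (c (a (f (c (d (b (a (c e))))))))))))), t false 1 (f (a (b (d (b (c (a (f (c (d (b (a (c
  e))))))))))))), t false 1 (a (f (a (c (b (d (b (a (f (d (b (a (c e))))))))))))), t true 1 (a (f (b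
  (d (b (a (c (a (f (d (b (a (c e))))))))))))), t false 1 (b (f (b (a (d (b (a (c (a (f (b (a (c
  e))))))))))))), t false 1 (a (f (b (a (c (b (f (a (b (a (d (a (c e))))))))))))), t true 1 (f (d (b
  (c (b (d (f (c (b (a (d (a (c e))))))))))))), t false 1 (f (d (b (c (a (b (d (f (c (b (d (a (c
  e))))))))))))), t true 1 (d (a (b (f (a (d (c (a (f (b (d (a (c e))))))))))))), t false 1 (c (d (a
  (b (f (a (d (a (f (b (d (a (c e))))))))))))), t false 1 (d (b (f (c (a (b (d (c (f (b (d (a (c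
  e))))))))))))), t true 1 (f (b (d (a (c (a (d (b (f (c (d (a (c e))))))))))))), t true 1 (f (d (b
  (a (c (a (b (d (f (c (d (a (c e))))))))))))), t true 1 (d (a (f (b (a (d (c (a (b (f (d (a (c
  e))))))))))))), t false 1 (c (d (a (f (b (a (d (a (b (f (d (a (c e))))))))))))), t true 1 (d (a (f
  (b (c (a (d (c (b (f (d (a (c e))))))))))))), t false 1 (a (f (b (d (a (c (a (d (b (f (d (a (c
  e))))))))))))), t true 1 (b (d (a (f (c (a (d (b (c (f (d (a (c e))))))))))))), t false 1 (a (f (d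
  (b (a (c (a (b (d (f (d (a (c e))))))))))))), t false 1 (d (f (c (b (a (d (c (a (b (a (f (a (c
  e))))))))))))), t true 1 (a (b (a (c (b (d (f (a (b (a (f (a (c e))))))))))))), t false 1 (b (c (b
  (a (d (f (a (c (b (a (f (a (c e))))))))))))), t true 1 (b (c (a (d (f (a (b (c (b (a (f (a (c
  e))))))))))))), t true 1 (d (f (b (c (b (a (d (c (b (a (f (a (c e))))))))))))), t false 1 (a (b (c
  (b (d (f (b (a (c (b (f (a (c e))))))))))))), t true 1 (a (b (c (a (b (d (f (b (c (b (f (a (c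
  e))))))))))))), t false 1 (a (b (d (f (b (a (c (a (d (b (f (a (c e))))))))))))), t false 1 (f (d
  (b (c (b (d (f (c (a (d (a (b (c e))))))))))))), t false 1 (f (d (a (b (a (d (f (c (b (d (a (b (c
  e))))))))))))), t true 1 (f (d (b (a (c (b (d (f (c (d (a (b (c e))))))))))))), t false 1 (c (d (a
  (f (b (a (d (b (f (d (a (b (c e))))))))))))), t false 1 (a (f (d (b (a (c (b (d (f (d (a (b (c
  e))))))))))))), t false 1 (b (a (d (f (a (b (c (b (a (f (a (b (c e))))))))))))), t true 1 (b (c (b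
  (a (d (f (a (c (a (f (a (b (c e))))))))))))), t false 1 (b (c (a (d (f (a (b (c (a (f (a (b (c
  e))))))))))))), t false 1 (d (f (b (c (b (a (d (c (a (f (a (b (c e))))))))))))), t false 1 (c (a
  (f (b (d (b (f (a (b (a (d (b (c e))))))))))))), t true 1 (f (a (b (d (c (b (a (f (c (a (d (b (c
  e))))))))))))), t true 1 (c (a (b (d (f (a (b (a (f (a (d (b (c e))))))))))))), t false 1 (b (d (f
  (a (b (c (b (a (f (a (d (b (c e))))))))))))), t true 1 (a (b (d (f (b (a (c (b (f (a (d (b (c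
  e))))))))))))), t false 1 (f (a (b (d (c (a (f (c (a (b (d (b (c e))))))))))))), t true 1 (f (c (a
  (b (d (c (f (c (a (b (d (b (c e))))))))))))), t true 1 (b (d (f (a (b (c (a (f (a (b (d (b (c
  e))))))))))))), t false 1 (a (f (b (d (b (f (b (a (c (b (d (b (c e))))))))))))), t false 1 (b (d
  (f (a (b (a (f (a (c (b (d (b (c e))))))))))))), t false 1 (b (d (f (b (a (c (b (f (a (c (d (b (c
  e))))))))))))), t true 1 (a (b (d (f (b (c (b (f (a (c (d (b (c e))))))))))))), t false 1 (f (b (d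
  (b (a (c (b (a (f (c (d (b (c e))))))))))))), t false 2 (b (d (b (f (a (c (b (a (f (c (d (b (c
  e))))))))))))), t false 1 (f (a (b (d (b (c (b (a (f (c (d (b (c e))))))))))))), t true 1 (f (b (a
  (c (b (a (d (a (f (c (d (b (c e))))))))))))), t false 1 (f (b (a (c (a (d (a (b (f (c (d (b (c
  e))))))))))))), t false 2 (f (a (c (a (b (d (a (b (f (c (d (b (c e))))))))))))), t false 1 (f (d
  (b (a (c (b (a (d (f (c (d (b (c e))))))))))))), t true 2 (a (f (b (d (b (a (c (b (a (f (d (b (c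
  e))))))))))))), t true 1 (a (b (d (b (f (a (c (b (a (f (d (b (c e)))))))))))))]

def c14_4 : List Tm := [t false 1 (a (f (b (a (c (b (a (d (a (f (d (b (c e))))))))))))), t true 1 (a
  (f (b (a (c (a (d (a (b (f (d (b (c e))))))))))))), t true 2 (a (f (a (c (a (b (d (a (b (f (d (b
  (c e))))))))))))), t true 1 (a (f (d (b (a (c (b (a (d (f (d (b (c e))))))))))))), t false 1 (b (f
  (b (a (d (b (a (c (b (a (f (b (c e))))))))))))), t false 1 (a (b (f (b (d (b (a (c (b (a (f (b (c
  e))))))))))))), t true 1 (a (b (f (b (a (c (b (a (d (a (f (b (c e))))))))))))), t false 1 (a (b (f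
  (a (c (a (b (d (a (b (f (b (c e))))))))))))), t false 1 (f (b (a (c (d (b (f (c (a (b (a (d (c
  e))))))))))))), t true 1 (f (a (d (b (a (f (c (d (a (b (a (d (c e))))))))))))), t true 1 (f (b (a
  (d (b (f (c (d (a (b (a (d (c e))))))))))))), t false 1 (c (f (a (d (b (a (f (d (a (b (a (d (c
  e))))))))))))), t false 1 (c (f (b (a (d (b (f (d (a (b (a (d (c e))))))))))))), t true 1 (c (a (f
  (b (a (d (b (f (a (b (a (d (c e))))))))))))), t false 1 (a (f (b (a (c (d (b (f (a (b (a (d (c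
  e))))))))))))), t true 1 (c (a (b (f (a (d (b (a (f (b (a (d (c e))))))))))))), t false 1 (a (b (f
  (c (d (b (a (c (f (b (a (d (c e))))))))))))), t true 1 (b (a (f (c (d (c (f (a (b (c (a (d (c
  e))))))))))))), t false 1 (c (a (b (a (d (f (a (b (a (f (a (d (c e))))))))))))), t true 1 (b (c (d
  (f (a (b (c (b (a (f (a (d (c e))))))))))))), t true 1 (a (c (d (f (b (a (c (a (b (f (a (d (c
  e))))))))))))), t false 1 (a (b (c (d (f (b (a (c (b (f (a (d (c e))))))))))))), t false 1 (a (f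
  (c (d (c (f (b (a (c (a (b (d (c e))))))))))))), t true 1 (a (b (c (d (f (a (c (a (f (a (b (d (c
  e))))))))))))), t true 1 (b (c (d (f (b (c (a (b (f (a (b (d (c e))))))))))))), t false 1 (b (a (c
  (d (f (b (c (b (f (a (b (d (c e))))))))))))), t false 1 (d (f (c (a (b (a (d (c (f (a (b (d (c
  e))))))))))))), t true 1 (b (c (d (f (a (b (a (f (a (c (b (d (c e))))))))))))), t false 1 (c (d (f
  (a (b (c (a (f (a (c (b (d (c e))))))))))))), t true 1 (f (c (d (b (c (a (b (a (f (c (b (d (c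
  e))))))))))))), t true 1 (f (d (b (c (a (b (a (d (f (c (b (d (c e))))))))))))), t false 1 (d (c (a
  (b (f (a (d (c (a (f (b (d (c e))))))))))))), t true 1 (b (f (b (a (c (d (a (c (b (f (b (d (c
  e))))))))))))), t true 1 (d (b (f (c (a (b (a (d (c (f (b (d (c e))))))))))))), t true 1 (f (b (a
  (c (d (b (f (a (b (a (c (d (c e))))))))))))), t true 1 (b (f (c (d (b (a (c (f (b (a (c (d (c
  e))))))))))))), t false 1 (a (b (f (c (d (b (c (f (b (a (c (d (c e))))))))))))), t true 1 (b (c (d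
  (f (a (c (b (a (f (a (c (d (c e))))))))))))), t false 1 (c (d (f (b (a (c (a (b (f (a (c (d (c
  e))))))))))))), t true 1 (b (c (d (f (b (a (c (b (f (a (c (d (c e))))))))))))), t false 2 (a (b (c
  (d (f (b (c (b (f (a (c (d (c e))))))))))))), t false 1 (b (c (d (f (a (c (a (f (a (b (c (d (c
  e))))))))))))), t false 1 (f (c (d (b (a (c (a (b (a (f (c (d (c e))))))))))))), t true 1 (b (c (d
  (b (f (a (c (b (a (f (c (d (c e))))))))))))), t false 1 (f (d (b (a (c (a (b (a (d (f (c (d (c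
  e))))))))))))), t false 1 (a (b (c (d (b (f (a (c (b (a (f (d (c e))))))))))))), t false 1 (b (a
  (f (b (a (c (d (a (c (b (f (d (c e))))))))))))), t true 1 (a (f (d (b (a (c (a (b (a (d (f (d (c
  e))))))))))))), t false 1 (b (c (f (c (a (d (b (c (a (b (a (f (c e))))))))))))), t true 1 (d (c (f
  (c (b (a (d (c (a (b (a (f (c e))))))))))))), t false 1 (d (b (c (f (c (a (d (c (a (b (a (f (c
  e))))))))))))), t true 1 (b (c (f (b (a (d (b (a (c (b (a (f (c e))))))))))))), t false 1 (a (b (c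
  (f (b (d (b (a (c (b (a (f (c e))))))))))))), t false 1 (a (b (d (b (a (c (f (a (d (b (a (f (c
  e))))))))))))), t false 1 (a (b (c (f (a (c (a (b (d (a (b (f (c e))))))))))))), t false 1 (a (c
  (f (d (b (a (c (a (b (a (d (f (c e))))))))))))), t true 1 (f (a (c (a (f (d (b (a (c (a (b (a (d
  e))))))))))))), t false 1 (d (f (a (c (a (f (b (a (c (a (b (a (d e))))))))))))), t true 1 (f (a (c
  (b (a (f (d (b (c (a (b (a (d e))))))))))))), t true 1 (f (b (a (c (b (f (d (b (c (a (b (a (d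
  e))))))))))))), t false 1 (d (f (a (c (b (a (f (b (c (a (b (a (d e))))))))))))), t false 1 (d (f
  (b (a (c (b (f (b (c (a (b (a (d e))))))))))))), t false 1 (f (b (a (c (d (b (f (d (c (a (b (a (d
  e))))))))))))), t false 1 (a (c (f (a (d (b (a (f (c (a (b (a (d e))))))))))))), t false 1 (a (c
  (f (b (a (d (b (f (c (a (b (a (d e))))))))))))), t false 1 (b (a (c (f (b (d (b (f (c (a (b (a (d
  e))))))))))))), t true 1 (c (f (a (d (b (a (f (c (d (a (b (a (d e))))))))))))), t true 1 (c (f (b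
  (a (d (b (f (c (d (a (b (a (d e))))))))))))), t true 1 (d (c (a (f (b (a (c (b (f (a (b (a (d
  e))))))))))))), t false 1 (a (f (c (b (a (d (b (c (f (a (b (a (d e))))))))))))), t false 1 (f (a
  (b (c (a (f (d (b (a (c (b (a (d e))))))))))))), t false 1 (d (f (b (c (a (b (f (b (a (c (b (a (d
  e))))))))))))), t false 1 (a (f (b (c (a (d (b (f (a (c (b (a (d e))))))))))))), t true 1 (f (d (b
  (c (b (d (f (d (b (c (b (a (d e))))))))))))), t true 1 (d (a (b (c (f (a (b (a (f (c (b (a (d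
  e))))))))))))), t true 1 (a (b (c (f (b (a (d (b (f (c (b (a (d e))))))))))))), t true 1 (d (c (a
  (b (f (a (c (b (a (f (b (a (d e))))))))))))), t true 1 (b (f (a (c (b (d (b (c (a (f (b (a (d
  e))))))))))))), t true 1 (a (b (f (c (a (d (b (a (c (f (b (a (d e))))))))))))), t false 2 (d (f (a
  (b (a (f (c (a (b (a (c (a (d e))))))))))))), t false 1 (f (c (a (b (d (c (f (d (b (a (c (a (d
  e))))))))))))), t true 1 (d (a (b (f (a (c (a (f (b (a (c (a (d e))))))))))))), t true 1 (b (f (c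
  (a (b (d (c (f (b (a (c (a (d e))))))))))))), t true 1 (b (f (a (d (c (a (f (b (d (a (c (a (d
  e))))))))))))), t true 1 (b (f (c (a (d (c (f (b (d (a (c (a (d e))))))))))))), t true 1 (d (a (f
  (b (a (c (a (b (f (a (c (a (d e))))))))))))), t false 1 (b (a (f (c (a (b (d (c (f (a (c (a (d
  e))))))))))))), t true 1 (d (a (f (b (a (c (b (f (a (b (c (a (d e))))))))))))), t false 1 (b (a (f
  (c (b (d (c (f (a (b (c (a (d e))))))))))))), t true 1 (a (b (f (a (d (c (b (a (f (b (c (a (d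
  e))))))))))))), t false 1 (a (b (a (d (c (f (a (b (a (f (c (a (d e))))))))))))), t true 1 (a (c (f
  (b (a (d (c (a (b (f (c (a (d e))))))))))))), t true 1 (a (b (c (f (b (a (d (c (b (f (c (a (d
  e))))))))))))), t false 1 (d (c (a (b (a (c (f (a (b (a (f (a (d e))))))))))))), t true 1 (c (a (b
  (a (c (d (f (a (b (a (f (a (d e))))))))))))), t false 1 (b (c (b (d (f (a (b (c (b (a (f (a (d
  e))))))))))))), t false 1 (a (c (a (d (f (b (a (c (a (b (f (a (d e))))))))))))), t false 1 (a (c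
  (b (a (d (f (b (c (a (b (f (a (d e))))))))))))), t true 2 (a (b (c (a (d (f (b (a (c (b (f (a (d
  e))))))))))))), t true 1 (b (c (a (b (d (f (b (a (c (b (f (a (d e)))))))))))))]

def c14_5 : List Tm := [t false 1 (a (b (c (b (a (d (f (b (c (b (f (a (d e))))))))))))), t false 1
  (a (b (a (d (f (c (a (b (a (c (f (a (d e))))))))))))), t true 1 (a (f (c (a (d (c (f (b (a (c (a
  (b (d e))))))))))))), t false 1 (a (b (f (a (d (c (a (f (a (c (a (b (d e))))))))))))), t true 1 (d
  (a (f (b (a (c (b (f (b (c (a (b (d e))))))))))))), t false 1 (a (f (b (a (d (c (b (f (b (c (a (b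
  (d e))))))))))))), t true 1 (a (f (c (b (a (d (c (f (b (c (a (b (d e))))))))))))), t true 1 (a (c
  (f (a (d (c (b (a (f (c (a (b (d e))))))))))))), t true 1 (a (c (f (b (a (d (c (b (f (c (a (b (d
  e))))))))))))), t false 1 (a (b (c (a (d (f (a (c (a (f (a (b (d e))))))))))))), t false 1 (b (c
  (a (b (d (f (a (c (a (f (a (b (d e))))))))))))), t false 1 (b (c (b (d (f (b (c (a (b (f (a (b (d
  e))))))))))))), t true 1 (b (a (c (b (d (f (b (c (b (f (a (b (d e))))))))))))), t false 1 (c (d (f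
  (c (a (b (a (d (c (f (a (b (d e))))))))))))), t false 1 (f (b (d (b (f (d (c (a (b (a (c (b (d
  e))))))))))))), t true 1 (f (b (c (d (b (f (d (a (b (a (c (b (d e))))))))))))), t true 1 (d (a (f
  (b (c (a (b (f (b (a (c (b (d e))))))))))))), t false 2 (b (c (b (d (f (a (b (a (f (a (c (b (d
  e))))))))))))), t false 1 (a (b (a (d (f (a (c (a (f (a (c (b (d e))))))))))))), t true 1 (f (a (d
  (b (c (b (a (f (d (b (c (b (d e))))))))))))), t true 1 (f (b (c (b (a (d (a (f (d (b (c (b (d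
  e))))))))))))), t false 1 (f (b (c (a (d (a (b (f (d (b (c (b (d e))))))))))))), t false 1 (f (d
  (b (c (b (a (d (f (d (b (c (b (d e))))))))))))), t false 2 (a (f (a (d (b (c (b (a (f (b (c (b (d
  e))))))))))))), t false 1 (a (f (b (c (b (a (d (a (f (b (c (b (d e))))))))))))), t true 1 (a (f (b
  (a (d (a (c (b (f (b (c (b (d e))))))))))))), t true 1 (c (f (c (d (b (c (a (b (a (f (c (b (d
  e))))))))))))), t true 1 (c (f (d (b (c (a (b (a (d (f (c (b (d e))))))))))))), t false 1 (b (f (c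
  (b (d (b (c (a (b (a (f (b (d e))))))))))))), t true 1 (b (c (b (d (b (c (f (a (b (a (f (b (d
  e))))))))))))), t true 1 (a (c (b (f (a (d (b (c (b (a (f (b (d e))))))))))))), t true 1 (b (f (a
  (c (b (d (b (c (b (a (f (b (d e))))))))))))), t false 1 (c (d (c (a (b (f (a (d (c (a (f (b (d
  e))))))))))))), t false 1 (b (f (b (a (c (a (d (a (c (b (f (b (d e))))))))))))), t true 1 (b (f (a
  (c (a (b (d (a (c (b (f (b (d e))))))))))))), t false 1 (a (d (b (f (c (b (a (d (b (c (f (b (d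
  e))))))))))))), t true 1 (c (d (b (f (c (a (b (a (d (c (f (b (d e))))))))))))), t true 1 (f (b (a
  (d (b (f (d (c (a (b (a (c (d e))))))))))))), t false 1 (b (f (a (c (b (d (b (a (f (b (a (c (d
  e))))))))))))), t false 1 (b (f (b (d (b (a (c (a (f (b (a (c (d e))))))))))))), t true 1 (a (b (f
  (c (a (d (b (c (f (b (a (c (d e))))))))))))), t true 2 (b (a (c (b (d (f (a (b (a (f (a (c (d
  e))))))))))))), t false 1 (b (c (b (d (f (a (c (b (a (f (a (c (d e))))))))))))), t true 1 (a (b (a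
  (d (f (a (b (c (a (f (a (c (d e))))))))))))), t false 1 (b (c (b (d (f (b (a (c (b (f (a (c (d
  e))))))))))))), t true 2 (a (b (c (a (d (f (b (c (b (f (a (c (d e))))))))))))), t true 1 (b (c (a
  (b (d (f (b (c (b (f (a (c (d e))))))))))))), t false 1 (b (d (f (b (a (c (a (d (b (f (a (c (d
  e))))))))))))), t true 1 (b (c (b (d (f (a (c (a (f (a (b (c (d e))))))))))))), t false 2 (b (f (b
  (d (b (a (c (b (a (f (b (c (d e))))))))))))), t true 1 (b (f (b (a (c (b (a (d (a (f (b (c (d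
  e))))))))))))), t false 1 (a (b (f (b (c (b (a (d (a (f (b (c (d e))))))))))))), t false 1 (b (f
  (a (c (a (b (d (a (b (f (b (c (d e))))))))))))), t false 1 (c (f (c (d (b (a (c (a (b (a (f (c (d
  e))))))))))))), t false 1 (a (b (c (f (a (d (b (c (b (a (f (c (d e))))))))))))), t false 1 (b (d
  (b (a (c (f (a (d (b (a (f (c (d e))))))))))))), t false 1 (b (c (f (a (c (a (b (d (a (b (f (c (d
  e))))))))))))), t true 1 (a (d (b (c (f (b (a (d (c (b (f (c (d e))))))))))))), t false 1 (c (f (d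
  (b (a (c (a (b (a (d (f (c (d e))))))))))))), t true 1 (a (f (c (a (d (b (a (c (a (b (a (f (d
  e))))))))))))), t true 1 (c (a (f (c (d (b (a (c (a (b (a (f (d e))))))))))))), t true 1 (b (a (f
  (c (b (d (b (c (a (b (a (f (d e))))))))))))), t false 1 (a (c (b (a (d (b (c (f (a (b (a (f (d
  e))))))))))))), t false 1 (b (a (c (b (d (b (c (f (a (b (a (f (d e))))))))))))), t true 1 (b (c (a
  (f (b (d (b (a (c (b (a (f (d e))))))))))))), t true 1 (a (b (c (a (d (b (f (a (c (b (a (f (d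
  e))))))))))))), t true 1 (b (c (b (a (f (a (d (b (c (b (a (f (d e))))))))))))), t false 1 (b (a (f
  (a (c (b (d (b (c (b (a (f (d e))))))))))))), t false 1 (a (f (b (a (d (c (a (b (a (c (a (f (d
  e))))))))))))), t false 1 (c (d (c (a (f (b (a (d (c (a (b (f (d e))))))))))))), t true 1 (b (c (a
  (f (a (c (a (b (d (a (b (f (d e))))))))))))), t true 1 (b (a (f (b (a (c (a (d (a (c (b (f (d
  e))))))))))))), t false 1 (b (a (f (a (c (a (b (d (a (c (b (f (d e))))))))))))), t false 1 (a (d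
  (b (c (b (a (d (f (b (c (b (f (d e))))))))))))), t true 1 (c (d (b (c (a (f (b (a (d (c (b (f (d
  e))))))))))))), t true 1 (b (d (c (a (f (b (a (c (a (d (b (f (d e))))))))))))), t false 1 (b (d (b
  (a (f (c (a (d (b (a (c (f (d e))))))))))))), t true 1 (c (a (f (d (b (a (c (a (b (a (d (f (d
  e))))))))))))), t true 1 (b (c (b (f (c (a (d (b (c (a (b (a (f e))))))))))))), t true 1 (c (d (c
  (f (c (b (a (d (c (a (b (a (f e))))))))))))), t false 1 (c (d (b (c (f (c (a (d (c (a (b (a (f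
  e))))))))))))), t false 1 (f (d (c (a (b (a (c (b (d (a (b (a (f e))))))))))))), t true 1 (d (c (a
  (b (a (c (b (d (f (a (b (a (f e))))))))))))), t false 1 (b (c (b (f (b (a (d (b (a (c (b (a (f
  e))))))))))))), t false 1 (f (a (b (c (a (b (d (b (a (c (b (a (f e))))))))))))), t true 1 (a (b (c
  (a (f (b (d (b (a (c (b (a (f e))))))))))))), t true 1 (f (d (b (c (b (a (d (a (b (c (b (a (f
  e))))))))))))), t false 2 (d (b (c (b (a (d (f (a (b (c (b (a (f e))))))))))))), t false 1 (d (b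
  (c (b (d (f (a (d (b (c (b (a (f e))))))))))))), t true 1 (f (c (a (b (d (b (a (c (a (d (b (a (f
  e))))))))))))), t false 1 (c (a (b (d (b (a (c (f (a (d (b (a (f e))))))))))))), t false 1 (f (d
  (a (b (a (c (a (b (d (a (c (a (f e))))))))))))), t true 1 (d (a (b (a (c (a (b (d (f (a (c (a (f
  e))))))))))))), t false 1 (f (d (a (b (a (c (b (d (a (b (c (a (f e))))))))))))), t true 1 (d (a (b
  (a (c (b (d (f (a (b (c (a (f e))))))))))))), t true 1 (f (b (a (c (d (c (a (b (a (d (c (a (f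
  e))))))))))))), t false 1 (b (a (c (d (c (a (b (f (a (d (c (a (f e))))))))))))), t false 1 (f (d
  (a (b (a (c (b (d (b (c (a (b (f e))))))))))))), t true 1 (d (a (b (a (c (b (d (f (b (c (a (b (f
  e))))))))))))), t true 1 (f (a (c (d (c (a (b (a (d (c (a (b (f e)))))))))))))]

def c14_6 : List Tm := [t false 1 (a (c (d (c (a (f (b (a (d (c (a (b (f e))))))))))))), t true 1 (a
  (b (c (a (f (a (c (a (b (d (a (b (f e))))))))))))), t false 1 (f (d (a (b (c (a (b (d (b (a (c (b
  (f e))))))))))))), t true 1 (d (a (b (c (a (b (d (f (b (a (c (b (f e))))))))))))), t true 1 (a (b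
  (a (f (b (a (c (a (d (a (c (b (f e))))))))))))), t false 1 (a (b (a (f (a (c (a (b (d (a (c (b (f
  e))))))))))))), t false 1 (f (a (c (d (b (c (a (b (a (d (c (b (f e))))))))))))), t true 1 (a (c (d
  (b (c (a (f (b (a (d (c (b (f e))))))))))))), t true 1 (f (c (a (b (d (b (a (c (b (a (d (b (f
  e))))))))))))), t false 1 (c (a (b (d (b (a (c (f (b (a (d (b (f e))))))))))))), t false 1 (f (a
  (b (d (c (a (b (a (c (a (d (b (f e))))))))))))), t true 1 (a (b (d (c (a (f (b (a (c (a (d (b (f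
  e))))))))))))), t true 1 (f (a (b (d (b (a (c (a (d (b (a (c (f e))))))))))))), t false 1 (a (b (d
  (b (a (f (c (a (d (b (a (c (f e))))))))))))), t false 1 (f (b (a (c (d (b (c (a (b (a (d (c (f
  e))))))))))))), t true 1 (b (a (c (d (b (f (c (a (b (a (d (c (f e))))))))))))), t false 1 (f (a (c
  (a (d (b (a (c (a (b (a (d (f e))))))))))))), t true 1 (a (c (a (f (d (b (a (c (a (b (a (d (f
  e)))))))))))))]

def c14 : List (List Tm) := [c14_0, c14_1, c14_2, c14_3, c14_4, c14_5, c14_6]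

def c15_0 : List Tm := [t false 1 (d (a (f (a (d (c (a (b (a (c (a (b (a e))))))))))))), t false 1
  (c (a (b (d (b (f (b (d (a (c (a (b (a e))))))))))))), t false 1 (d (b (c (b (d (c (a (f (b (c (a
  (b (a e))))))))))))), t true 1 (c (d (a (b (a (d (b (f (b (c (a (b (a e))))))))))))), t true 1 (d
  (a (c (b (a (d (c (f (b (c (a (b (a e))))))))))))), t true 1 (c (a (b (a (d (b (f (b (d (c (a (b
  (a e))))))))))))), t false 1 (d (c (a (f (a (c (a (b (a (d (a (b (a e))))))))))))), t true 1 (c (a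
  (f (a (c (d (a (b (a (d (a (b (a e))))))))))))), t false 1 (d (a (b (c (b (f (b (c (a (d (a (b (a
  e))))))))))))), t false 1 (d (b (c (a (f (a (c (a (b (d (a (b (a e))))))))))))), t true 1 (d (a (f
  (c (a (b (a (c (b (d (a (b (a e))))))))))))), t true 1 (d (c (a (b (a (c (b (f (b (d (a (b (a
  e))))))))))))), t false 1 (c (a (b (a (c (d (b (f (b (d (a (b (a e))))))))))))), t true 1 (d (a (b
  (a (c (b (f (b (c (d (a (b (a e))))))))))))), t true 1 (d (f (c (a (b (a (c (b (f (d (a (b (a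
  e))))))))))))), t false 1 (b (a (f (d (a (c (a (d (b (a (c (b (a e))))))))))))), t false 1 (d (a
  (b (c (a (d (b (f (b (a (c (b (a e))))))))))))), t true 1 (d (a (b (c (b (f (b (a (d (a (c (b (a
  e))))))))))))), t true 1 (d (b (a (f (a (c (a (b (d (a (c (b (a e))))))))))))), t false 1 (d (a (f
  (a (b (c (a (b (d (a (c (b (a e))))))))))))), t false 1 (d (a (b (c (a (b (f (b (d (a (c (b (a
  e))))))))))))), t true 1 (b (c (a (b (d (b (f (b (d (a (c (b (a e))))))))))))), t false 1 (d (f (a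
  (b (c (a (b (f (d (a (c (b (a e))))))))))))), t true 1 (f (d (b (c (b (d (b (a (f (a (c (b (a
  e))))))))))))), t false 2 (d (a (f (b (c (b (a (d (a (b (c (b (a e))))))))))))), t false 2 (d (b
  (c (b (a (f (a (d (a (b (c (b (a e))))))))))))), t true 2 (d (b (c (a (f (a (b (d (a (b (c (b (a
  e))))))))))))), t false 1 (d (b (a (f (a (c (b (d (a (b (c (b (a e))))))))))))), t true 1 (d (a (f
  (a (b (c (b (d (a (b (c (b (a e))))))))))))), t false 1 (d (c (b (a (f (a (c (d (a (b (c (b (a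
  e))))))))))))), t true 1 (d (c (a (f (a (b (c (d (a (b (c (b (a e))))))))))))), t false 2 (d (f (b
  (c (b (a (f (d (a (b (c (b (a e))))))))))))), t true 1 (b (c (a (f (d (a (b (a (d (b (c (b (a
  e))))))))))))), t false 1 (b (a (f (d (a (c (b (a (d (b (c (b (a e))))))))))))), t true 1 (a (f (d
  (a (b (c (b (a (d (b (c (b (a e))))))))))))), t true 1 (c (a (f (d (a (b (c (a (d (b (c (b (a
  e))))))))))))), t false 1 (d (f (d (b (c (b (a (f (d (b (c (b (a e))))))))))))), t true 2 (a (d (f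
  (d (b (c (b (f (d (b (c (b (a e))))))))))))), t false 3 (d (a (b (c (b (a (d (a (f (b (c (b (a
  e))))))))))))), t true 1 (d (a (b (c (a (d (a (b (f (b (c (b (a e))))))))))))), t false 1 (b (c (d
  (a (b (a (d (b (f (b (c (b (a e))))))))))))), t false 1 (d (a (c (b (a (d (a (c (f (b (c (b (a
  e))))))))))))), t true 1 (b (a (f (a (c (d (a (b (a (d (c (b (a e))))))))))))), t false 1 (c (d (a
  (b (c (b (f (b (a (d (c (b (a e))))))))))))), t false 1 (c (d (b (a (f (a (c (a (b (d (c (b (a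
  e))))))))))))), t true 1 (c (d (a (f (a (b (c (a (b (d (c (b (a e))))))))))))), t true 1 (f (c (d
  (b (c (a (f (a (b (d (c (b (a e))))))))))))), t true 1 (c (d (a (b (c (a (b (f (b (d (c (b (a
  e))))))))))))), t false 1 (b (c (a (b (a (d (b (f (b (d (c (b (a e))))))))))))), t true 1 (f (c (d
  (c (a (f (a (b (c (d (c (b (a e))))))))))))), t false 1 (a (b (c (d (c (b (f (b (c (d (c (b (a
  e))))))))))))), t false 1 (d (f (c (d (b (c (b (a (f (d (c (b (a e))))))))))))), t true 1 (c (d (f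
  (a (b (c (a (b (f (d (c (b (a e))))))))))))), t false 1 (a (d (f (c (d (b (c (b (f (d (c (b (a
  e))))))))))))), t false 1 (c (f (d (b (c (b (d (b (a (f (c (b (a e))))))))))))), t true 1 (b (d (c
  (a (f (a (c (a (b (a (d (b (a e))))))))))))), t false 2 (b (c (a (f (a (c (d (a (b (a (d (b (a
  e))))))))))))), t true 1 (a (f (c (a (b (d (a (c (b (a (d (b (a e))))))))))))), t true 1 (c (b (d
  (a (b (c (b (f (b (a (d (b (a e))))))))))))), t false 1 (a (b (d (a (c (b (f (b (c (a (d (b (a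
  e))))))))))))), t true 1 (b (d (a (b (c (b (f (b (c (a (d (b (a e))))))))))))), t false 1 (c (b (d
  (b (a (f (a (c (a (b (d (b (a e))))))))))))), t true 1 (b (d (b (c (a (f (a (c (a (b (d (b (a
  e))))))))))))), t false 1 (c (a (b (d (b (f (a (c (a (b (d (b (a e))))))))))))), t false 1 (c (b
  (d (a (f (a (b (c (a (b (d (b (a e))))))))))))), t false 1 (c (f (b (d (b (a (f (c (a (b (d (b (a
  e))))))))))))), t false 1 (f (c (b (d (b (c (a (f (a (b (d (b (a e))))))))))))), t false 1 (b (d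
  (a (f (c (a (b (a (c (b (d (b (a e))))))))))))), t true 2 (f (c (b (d (b (a (f (a (c (b (d (b (a
  e))))))))))))), t false 1 (c (f (c (b (d (b (a (f (c (b (d (b (a e))))))))))))), t true 1 (a (c (f
  (c (b (d (b (f (c (b (d (b (a e))))))))))))), t false 2 (c (a (b (d (b (a (c (a (f (b (d (b (a
  e))))))))))))), t false 1 (c (b (d (a (b (c (a (b (f (b (d (b (a e))))))))))))), t false 1 (b (d
  (c (a (b (a (c (b (f (b (d (b (a e))))))))))))), t true 1 (c (a (b (a (c (a (d (b (f (b (d (b (a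
  e))))))))))))), t true 1 (f (c (b (d (c (b (a (f (a (c (d (b (a e))))))))))))), t false 1 (f (c (b
  (d (c (a (f (a (b (c (d (b (a e))))))))))))), t false 1 (b (d (a (b (a (c (b (f (b (c (d (b (a
  e))))))))))))), t false 1 (c (f (c (b (d (c (b (a (f (c (d (b (a e))))))))))))), t true 1 (c (a (d
  (f (b (d (a (c (a (f (d (b (a e))))))))))))), t false 1 (c (b (d (f (a (b (c (a (b (f (d (b (a
  e))))))))))))), t false 1 (b (d (f (c (a (b (a (c (b (f (d (b (a e))))))))))))), t true 1 (a (d (f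
  (c (b (d (b (c (b (f (d (b (a e))))))))))))), t false 1 (d (b (f (c (b (d (b (c (b (a (f (b (a
  e))))))))))))), t false 1 (c (d (a (b (f (b (a (d (c (a (f (b (a e))))))))))))), t true 1 (d (a (c
  (b (f (b (c (a (d (a (f (b (a e))))))))))))), t false 1 (d (a (b (f (c (a (d (a (c (b (f (b (a
  e))))))))))))), t true 1 (d (b (f (c (b (d (a (b (c (b (f (b (a e))))))))))))), t false 1 (a (d (b
  (f (c (b (d (b (c (b (f (b (a e))))))))))))), t false 1 (a (b (f (d (b (c (b (d (b (c (f (b (a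
  e))))))))))))), t true 1 (d (a (b (a (d (b (f (c (a (b (a (c (a e))))))))))))), t true 1 (a (f (c
  (d (a (b (a (d (a (b (a (c (a e))))))))))))), t false 1 (b (a (c (d (c (f (c (d (a (b (a (c (a
  e))))))))))))), t false 2 (a (b (d (a (b (f (c (a (d (b (a (c (a e))))))))))))), t true 1 (b (a (c
  (a (d (c (f (c (d (b (a (c (a e))))))))))))), t false 1 (b (a (c (a (b (d (c (f (c (d (a (c (a
  e))))))))))))), t false 1 (d (a (b (c (b (f (c (a (d (a (b (c (a e))))))))))))), t true 1 (d (a (f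
  (a (b (a (c (b (d (a (b (c (a e))))))))))))), t true 1 (d (c (a (f (a (b (a (c (d (a (b (c (a
  e))))))))))))), t true 1 (d (a (b (a (c (b (f (c (d (a (b (c (a e)))))))))))))]

def c15_1 : List Tm := [t false 1 (b (a (c (b (d (c (f (c (d (a (b (c (a e))))))))))))), t true 1 (d
  (f (a (b (a (c (b (f (d (a (b (c (a e))))))))))))), t true 1 (f (d (b (c (b (d (c (a (f (a (b (c
  (a e))))))))))))), t true 1 (a (f (a (b (d (a (c (b (a (d (b (c (a e))))))))))))), t false 2 (a (b
  (d (a (b (f (c (b (a (d (b (c (a e))))))))))))), t true 1 (c (a (f (a (b (d (a (c (a (d (b (c (a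
  e))))))))))))), t false 1 (b (d (b (c (b (a (f (c (a (d (b (c (a e))))))))))))), t false 1 (c (a
  (b (d (a (b (f (c (a (d (b (c (a e))))))))))))), t true 1 (a (b (d (a (c (b (f (c (a (d (b (c (a
  e))))))))))))), t true 1 (b (d (a (b (c (b (f (c (a (d (b (c (a e))))))))))))), t false 1 (f (b (d
  (b (c (b (a (f (a (d (b (c (a e))))))))))))), t false 1 (f (c (a (b (d (a (b (f (a (d (b (c (a
  e))))))))))))), t true 1 (f (a (b (d (a (c (b (f (a (d (b (c (a e))))))))))))), t false 1 (c (b (d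
  (b (a (f (c (a (b (d (b (c (a e))))))))))))), t true 1 (b (d (b (c (a (f (c (a (b (d (b (c (a
  e))))))))))))), t false 1 (f (c (b (d (b (a (f (a (b (d (b (c (a e))))))))))))), t false 1 (b (d
  (a (f (a (b (a (c (b (d (b (c (a e))))))))))))), t true 1 (f (b (d (b (a (f (a (c (b (d (b (c (a
  e))))))))))))), t false 1 (a (c (b (d (b (c (f (c (b (d (b (c (a e))))))))))))), t false 1 (b (d
  (c (a (f (a (b (a (c (d (b (c (a e))))))))))))), t true 1 (f (b (d (c (b (a (f (a (c (d (b (c (a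
  e))))))))))))), t false 1 (b (d (a (b (a (c (b (f (c (d (b (c (a e))))))))))))), t true 1 (b (a (c
  (b (a (d (c (f (c (d (b (c (a e))))))))))))), t false 1 (d (f (b (d (b (c (b (a (f (d (b (c (a
  e))))))))))))), t false 1 (b (d (f (a (b (a (c (b (f (d (b (c (a e))))))))))))), t true 1 (a (d (f
  (b (d (b (c (b (f (d (b (c (a e))))))))))))), t false 1 (b (f (d (b (c (b (d (c (a (f (b (c (a
  e))))))))))))), t true 1 (d (a (b (f (c (b (a (d (a (f (b (c (a e))))))))))))), t true 1 (b (c (d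
  (b (c (b (a (f (c (a (d (c (a e))))))))))))), t true 1 (f (b (c (d (b (c (b (a (f (a (d (c (a
  e))))))))))))), t false 1 (b (c (d (b (c (a (f (c (a (b (d (c (a e))))))))))))), t false 1 (f (b
  (c (d (b (c (a (f (a (b (d (c (a e))))))))))))), t false 1 (b (a (c (d (c (f (a (b (a (c (d (c (a
  e))))))))))))), t false 1 (b (f (c (d (c (a (f (b (a (c (d (c (a e))))))))))))), t true 1 (a (b (f
  (c (d (c (b (f (b (c (d (c (a e))))))))))))), t false 3 (b (a (c (d (c (a (b (a (f (c (d (c (a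
  e))))))))))))), t true 1 (b (a (c (a (b (a (d (c (f (c (d (c (a e))))))))))))), t true 2 (b (a (d
  (f (c (d (a (b (a (f (d (c (a e))))))))))))), t false 1 (d (f (b (c (d (b (c (b (a (f (d (c (a
  e))))))))))))), t false 1 (b (a (d (c (f (c (d (a (b (a (f (c (a e))))))))))))), t true 1 (d (b (c
  (f (b (d (b (c (b (a (f (c (a e))))))))))))), t false 1 (b (d (a (c (f (c (a (d (b (a (f (c (a
  e))))))))))))), t true 1 (d (a (c (f (c (b (a (d (a (b (f (c (a e))))))))))))), t true 2 (d (b (c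
  (f (c (a (b (d (a (b (f (c (a e))))))))))))), t false 1 (d (b (c (f (a (b (d (a (c (b (f (c (a
  e))))))))))))), t false 1 (a (d (b (c (f (b (d (b (c (b (f (c (a e))))))))))))), t false 1 (b (d
  (a (c (f (c (b (a (d (b (f (c (a e))))))))))))), t false 1 (b (c (b (a (f (d (a (b (c (b (a (d (a
  e))))))))))))), t true 1 (b (c (b (d (a (f (d (b (c (b (a (d (a e))))))))))))), t false 1 (a (b (a
  (c (a (b (f (d (a (c (a (d (a e))))))))))))), t false 1 (a (b (a (c (b (f (d (a (b (c (a (d (a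
  e))))))))))))), t false 1 (f (b (c (b (d (b (c (b (a (f (a (d (a e))))))))))))), t false 1 (d (a
  (f (d (c (a (b (a (c (a (b (d (a e))))))))))))), t false 1 (a (b (a (c (b (f (d (b (c (a (b (d (a
  e))))))))))))), t true 1 (f (b (c (b (d (b (c (a (f (a (b (d (a e))))))))))))), t false 1 (a (b (c
  (a (b (f (d (b (a (c (b (d (a e))))))))))))), t false 1 (d (b (c (b (d (a (f (d (b (c (b (d (a
  e))))))))))))), t false 1 (a (d (b (c (b (d (f (d (b (c (b (d (a e))))))))))))), t true 1 (d (f (d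
  (b (c (b (a (f (b (c (b (d (a e))))))))))))), t false 1 (c (f (b (c (b (d (b (a (f (c (b (d (a
  e))))))))))))), t true 1 (c (a (b (f (d (b (a (c (a (f (b (d (a e))))))))))))), t true 1 (f (b (c
  (b (d (c (a (f (a (b (c (d (a e))))))))))))), t false 1 (b (f (b (c (b (d (c (a (f (b (c (d (a
  e))))))))))))), t true 1 (b (a (c (f (d (c (a (b (a (f (c (d (a e))))))))))))), t false 1 (c (f (b
  (c (b (d (c (b (a (f (c (d (a e))))))))))))), t false 1 (b (c (a (d (f (d (a (c (b (a (f (d (a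
  e))))))))))))), t true 1 (d (f (b (c (b (d (b (c (b (a (f (d (a e))))))))))))), t true 1 (b (c (b
  (d (f (d (b (c (b (a (f (d (a e))))))))))))), t false 1 (b (c (b (a (d (f (d (b (c (b (f (d (a
  e))))))))))))), t true 1 (a (b (c (b (d (f (d (b (c (b (f (d (a e))))))))))))), t false 1 (d (a (c
  (a (d (b (a (c (a (b (a (f (a e))))))))))))), t true 1 (b (d (a (c (a (d (a (c (a (b (a (f (a
  e))))))))))))), t false 1 (d (b (a (c (b (d (b (c (a (b (a (f (a e))))))))))))), t false 1 (a (c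
  (d (a (b (a (d (c (a (b (a (f (a e))))))))))))), t true 1 (c (a (d (b (a (c (b (d (a (b (a (f (a
  e))))))))))))), t true 1 (d (a (b (c (a (d (b (a (c (b (a (f (a e))))))))))))), t false 1 (d (a (b
  (c (b (a (d (b (c (b (a (f (a e))))))))))))), t true 1 (a (b (c (d (a (b (a (d (c (b (a (f (a
  e))))))))))))), t false 1 (d (a (b (a (d (c (a (b (a (c (a (f (a e))))))))))))), t true 1 (c (d (a
  (b (a (d (a (b (a (c (a (f (a e))))))))))))), t true 1 (a (b (d (a (c (a (d (b (a (c (a (f (a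
  e))))))))))))), t true 1 (a (d (b (a (c (b (d (a (b (c (a (f (a e))))))))))))), t true 1 (a (b (d
  (a (c (b (a (d (b (c (a (f (a e))))))))))))), t false 1 (a (b (a (c (d (a (b (a (d (c (a (f (a
  e))))))))))))), t true 2 (d (c (a (b (a (c (a (b (a (d (a (f (a e))))))))))))), t false 1 (a (b (d
  (a (c (a (d (a (c (a (b (f (a e))))))))))))), t true 1 (a (d (b (a (c (b (d (b (c (a (b (f (a
  e))))))))))))), t true 2 (d (a (b (c (b (a (d (a (b (c (b (f (a e))))))))))))), t false 1 (a (c (d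
  (a (b (a (d (a (b (a (c (f (a e))))))))))))), t false 2 (a (d (c (a (b (a (c (a (b (a (d (f (a
  e))))))))))))), t false 1 (a (c (d (c (f (c (d (a (b (a (c (a (b e))))))))))))), t true 1 (d (b (c
  (a (f (c (b (d (b (a (c (a (b e))))))))))))), t true 1 (a (c (a (d (c (f (c (d (b (a (c (a (b
  e))))))))))))), t true 2 (a (b (d (a (b (f (c (a (d (a (c (a (b e))))))))))))), t false 1 (a (c (a
  (b (d (c (f (c (d (a (c (a (b e))))))))))))), t false 1 (a (c (b (d (c (f (c (d (a (b (c (a (b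
  e))))))))))))), t true 1 (d (b (c (b (a (f (c (a (d (b (c (a (b e))))))))))))), t false 1 (d (b (c
  (a (f (c (a (b (d (b (c (a (b e))))))))))))), t true 1 (a (c (b (a (d (c (f (c (d (b (c (a (b
  e))))))))))))), t false 1 (c (d (b (c (b (a (f (c (a (d (c (a (b e)))))))))))))]

def c15_2 : List Tm := [t true 1 (c (d (b (c (a (f (c (a (b (d (c (a (b e))))))))))))), t false 1 (a
  (c (d (c (f (a (b (a (c (d (c (a (b e))))))))))))), t false 1 (f (c (d (c (a (f (b (a (c (d (c (a
  (b e))))))))))))), t true 1 (b (f (c (d (c (a (f (a (c (d (c (a (b e))))))))))))), t false 3 (a (c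
  (d (c (a (b (a (f (c (d (c (a (b e))))))))))))), t true 1 (a (c (a (b (a (d (c (f (c (d (c (a (b
  e))))))))))))), t true 2 (a (d (f (c (d (a (b (a (f (d (c (a (b e))))))))))))), t false 1 (a (d (c
  (f (c (d (a (b (a (f (c (a (b e))))))))))))), t false 1 (d (a (c (f (c (a (d (b (a (f (c (a (b
  e))))))))))))), t true 1 (d (b (c (f (c (b (d (b (a (f (c (a (b e))))))))))))), t true 1 (b (d (a
  (c (f (c (a (d (a (f (c (a (b e))))))))))))), t false 1 (c (b (a (f (d (a (b (c (b (a (d (a (b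
  e))))))))))))), t true 1 (a (b (c (a (b (f (d (a (c (a (d (a (b e))))))))))))), t true 1 (b (c (b
  (a (f (d (a (b (c (a (d (a (b e))))))))))))), t true 1 (a (b (c (b (f (d (a (b (c (a (d (a (b
  e))))))))))))), t true 1 (b (c (a (f (d (b (a (c (a (b (d (a (b e))))))))))))), t true 1 (b (c (b
  (a (f (d (b (c (a (b (d (a (b e))))))))))))), t true 1 (a (b (c (b (f (d (b (c (a (b (d (a (b
  e))))))))))))), t false 1 (a (b (a (c (b (f (d (b (c (b (d (a (b e))))))))))))), t true 1 (a (c (f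
  (d (c (a (b (a (f (c (d (a (b e))))))))))))), t false 1 (c (a (d (f (d (a (c (b (a (f (d (a (b
  e))))))))))))), t true 1 (b (c (a (d (f (d (a (c (a (f (d (a (b e))))))))))))), t false 1 (c (b (a
  (d (f (d (b (c (b (f (d (a (b e))))))))))))), t false 1 (d (a (b (c (a (d (b (a (c (a (f (a (b
  e))))))))))))), t false 1 (a (d (b (c (b (d (a (b (c (a (f (a (b e))))))))))))), t true 1 (d (a (b
  (c (b (a (d (b (c (a (f (a (b e))))))))))))), t false 1 (a (d (b (c (b (d (b (c (a (b (f (a (b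
  e))))))))))))), t false 1 (a (b (d (a (c (a (d (a (c (b (f (a (b e))))))))))))), t true 1 (a (d (b
  (a (c (b (d (b (c (b (f (a (b e))))))))))))), t false 1 (a (b (d (b (f (b (d (c (a (b (a (c (b
  e))))))))))))), t true 1 (a (b (c (d (b (f (b (d (a (b (a (c (b e))))))))))))), t false 1 (a (b (c
  (a (d (b (f (b (d (b (a (c (b e))))))))))))), t false 1 (b (c (b (a (f (d (a (b (a (d (a (c (b
  e))))))))))))), t true 2 (a (b (c (b (f (d (a (b (a (d (a (c (b e))))))))))))), t false 1 (c (b (a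
  (f (d (a (c (b (a (d (a (c (b e))))))))))))), t true 1 (c (a (f (d (a (b (c (b (a (d (a (c (b
  e))))))))))))), t true 1 (b (a (d (f (d (a (c (a (f (d (a (c (b e))))))))))))), t false 1 (a (d (f
  (d (b (c (a (b (f (d (a (c (b e))))))))))))), t true 1 (c (a (d (f (d (b (c (b (f (d (a (c (b
  e))))))))))))), t false 1 (a (d (b (c (b (d (a (b (a (f (a (c (b e))))))))))))), t false 1 (d (a
  (b (c (b (a (d (b (a (f (a (c (b e))))))))))))), t true 1 (d (a (b (a (d (b (a (c (a (f (a (c (b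
  e))))))))))))), t false 1 (a (b (c (d (a (b (a (d (a (f (a (c (b e))))))))))))), t true 1 (a (c (d
  (a (b (a (d (a (c (f (a (c (b e))))))))))))), t false 1 (b (c (a (f (d (a (b (a (d (a (b (c (b
  e))))))))))))), t true 1 (b (a (f (d (a (c (b (a (d (a (b (c (b e))))))))))))), t false 1 (a (f (d
  (a (b (c (b (a (d (a (b (c (b e))))))))))))), t true 1 (c (b (a (f (d (a (c (a (d (a (b (c (b
  e))))))))))))), t false 1 (c (a (f (d (a (b (c (a (d (a (b (c (b e))))))))))))), t false 2 (a (d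
  (f (d (b (c (b (f (d (a (b (c (b e))))))))))))), t true 1 (d (a (b (c (b (a (d (a (f (a (b (c (b
  e))))))))))))), t false 2 (a (b (c (b (a (d (a (f (a (d (b (c (b e))))))))))))), t false 2 (a (d
  (b (c (b (a (d (f (a (d (b (c (b e))))))))))))), t true 1 (a (d (f (a (d (b (c (b (f (d (b (c (b
  e))))))))))))), t false 1 (f (d (a (b (c (b (a (d (a (f (b (c (b e))))))))))))), t true 1 (f (c (d
  (b (c (b (a (f (b (a (d (c (b e))))))))))))), t false 1 (f (c (d (a (b (c (b (f (b (a (d (c (b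
  e))))))))))))), t false 2 (a (b (c (a (b (a (d (a (f (a (d (c (b e))))))))))))), t false 2 (a (d
  (b (c (a (b (a (d (f (a (d (c (b e))))))))))))), t true 1 (f (c (d (c (b (a (f (b (a (c (d (c (b
  e))))))))))))), t true 1 (a (c (d (c (a (b (a (f (a (c (d (c (b e))))))))))))), t true 1 (a (b (c
  (d (c (a (b (f (a (c (d (c (b e))))))))))))), t true 1 (a (b (c (d (c (b (f (a (b (c (d (c (b
  e))))))))))))), t false 1 (a (c (d (f (b (c (a (b (a (f (d (c (b e))))))))))))), t false 2 (a (d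
  (f (b (c (d (a (b (a (f (d (c (b e))))))))))))), t false 1 (b (a (d (f (c (d (a (c (a (f (d (c (b
  e))))))))))))), t true 1 (a (d (f (c (d (a (b (c (a (f (d (c (b e))))))))))))), t true 2 (a (d (f
  (c (d (b (c (a (b (f (d (c (b e))))))))))))), t false 1 (c (a (d (f (a (d (b (c (b (f (d (c (b
  e))))))))))))), t true 1 (a (d (b (c (f (b (d (a (b (a (f (c (b e))))))))))))), t true 1 (a (d (c
  (f (b (c (d (a (b (a (f (c (b e))))))))))))), t false 1 (a (b (c (f (d (a (b (a (d (a (f (c (b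
  e))))))))))))), t true 1 (c (f (d (a (b (c (b (a (d (a (f (c (b e))))))))))))), t false 1 (a (c (f
  (d (a (b (c (a (d (a (f (c (b e))))))))))))), t true 1 (a (c (f (d (b (c (b (d (a (b (f (c (b
  e))))))))))))), t true 1 (a (b (d (c (b (f (b (c (a (b (a (d (b e))))))))))))), t false 1 (a (c (b
  (d (c (f (b (c (a (b (a (d (b e))))))))))))), t true 1 (b (c (a (f (b (a (c (d (a (b (a (d (b
  e))))))))))))), t true 1 (b (c (b (a (f (b (c (d (a (b (a (d (b e))))))))))))), t false 2 (a (b (c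
  (b (f (b (c (d (a (b (a (d (b e))))))))))))), t false 1 (c (a (b (d (b (f (b (a (c (b (a (d (b
  e))))))))))))), t true 1 (c (a (b (d (a (b (f (b (c (b (a (d (b e))))))))))))), t false 1 (a (b (d
  (a (c (b (f (b (c (b (a (d (b e))))))))))))), t true 1 (a (c (b (d (a (c (f (b (c (b (a (d (b
  e))))))))))))), t false 1 (f (c (b (d (b (c (b (a (f (b (a (d (b e))))))))))))), t true 1 (f (c (b
  (d (a (b (c (b (f (b (a (d (b e))))))))))))), t true 1 (a (b (d (b (f (c (a (b (a (c (a (d (b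
  e))))))))))))), t true 1 (b (a (c (f (c (a (d (a (f (c (a (d (b e))))))))))))), t true 1 (c (f (c
  (a (b (d (a (b (f (c (a (d (b e))))))))))))), t false 1 (a (c (f (c (b (d (a (b (f (c (a (d (b
  e))))))))))))), t true 1 (a (b (d (c (a (b (a (c (a (f (a (d (b e))))))))))))), t true 2 (c (a (b
  (a (c (b (a (d (a (f (a (d (b e))))))))))))), t true 2 (d (c (a (b (a (c (a (d (b (f (a (d (b
  e))))))))))))), t false 2 (d (b (a (c (a (d (b (a (c (f (a (d (b e))))))))))))), t true 2 (c (a (d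
  (b (a (c (b (a (d (f (a (d (b e))))))))))))), t true 1 (c (f (c (b (d (b (a (f (c (a (b (d (b
  e))))))))))))), t false 1 (a (c (f (c (b (d (b (f (c (a (b (d (b e))))))))))))), t false 1 (a (b
  (d (b (a (c (a (f (a (c (b (d (b e))))))))))))), t false 1 (a (c (b (d (b (a (c (f (a (c (b (d (b
  e))))))))))))), t false 1 (f (c (a (b (d (b (a (c (a (f (b (d (b e)))))))))))))]

def c15_3 : List Tm := [t false 1 (f (c (b (d (c (b (a (f (b (a (c (d (b e))))))))))))), t false 1
  (a (c (b (d (c (a (b (a (f (a (c (d (b e))))))))))))), t false 1 (a (b (d (a (b (a (c (a (f (a (c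
  (d (b e))))))))))))), t false 1 (a (c (b (d (a (b (a (c (f (a (c (d (b e))))))))))))), t false 2
  (a (c (f (b (d (c (a (b (a (f (c (d (b e))))))))))))), t true 1 (a (c (f (c (b (d (c (a (b (f (c
  (d (b e))))))))))))), t true 1 (a (c (b (d (f (b (c (a (b (a (f (d (b e))))))))))))), t true 1 (a
  (c (d (f (b (d (c (a (b (a (f (d (b e))))))))))))), t true 1 (c (a (d (f (b (d (a (c (b (a (f (d
  (b e))))))))))))), t true 1 (d (f (c (a (b (d (b (a (c (a (f (d (b e))))))))))))), t true 1 (b (a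
  (d (f (c (a (d (a (c (a (f (d (b e))))))))))))), t false 2 (a (d (f (c (a (b (d (a (c (a (f (d (b
  e))))))))))))), t false 1 (a (d (f (c (b (d (a (b (c (a (f (d (b e))))))))))))), t false 1 (a (d
  (f (c (b (d (b (c (a (b (f (d (b e))))))))))))), t true 1 (c (b (a (d (f (a (d (b (c (b (f (d (b
  e))))))))))))), t false 2 (d (a (b (f (c (a (d (b (a (c (a (f (b e))))))))))))), t false 1 (d (b
  (f (c (a (b (d (b (a (c (a (f (b e))))))))))))), t false 1 (b (a (d (a (f (c (a (d (a (c (a (f (b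
  e))))))))))))), t true 2 (a (d (a (b (f (c (a (d (a (c (a (f (b e))))))))))))), t true 2 (a (d (b
  (f (c (a (b (d (a (c (a (f (b e))))))))))))), t true 1 (a (d (c (a (b (f (c (d (a (c (a (f (b
  e))))))))))))), t true 1 (a (d (b (f (c (b (d (a (b (c (a (f (b e))))))))))))), t true 1 (a (b (f
  (c (d (a (b (a (d (c (a (f (b e))))))))))))), t true 1 (c (d (a (b (f (c (b (a (d (c (a (f (b
  e))))))))))))), t false 1 (a (c (d (a (b (f (c (a (d (c (a (f (b e))))))))))))), t false 1 (c (a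
  (b (f (d (a (c (b (a (d (a (f (b e))))))))))))), t false 1 (c (b (f (d (a (b (c (b (a (d (a (f (b
  e))))))))))))), t true 1 (a (c (a (b (f (d (a (c (a (d (a (f (b e))))))))))))), t true 1 (a (c (b
  (f (d (a (b (c (a (d (a (f (b e))))))))))))), t true 1 (a (d (b (f (c (b (d (b (c (a (b (f (b
  e))))))))))))), t false 2 (a (b (f (d (a (c (a (d (a (c (b (f (b e))))))))))))), t true 1 (a (b (f
  (d (b (c (b (d (a (b (c (f (b e))))))))))))), t false 1 (a (b (f (b (c (d (a (b (a (d (c (f (b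
  e))))))))))))), t true 1 (a (b (a (d (b (f (b (d (c (a (b (a (c e))))))))))))), t true 2 (a (f (a
  (c (d (a (b (a (d (a (b (a (c e))))))))))))), t false 1 (a (b (a (c (d (b (f (b (d (a (b (a (c
  e))))))))))))), t true 1 (a (b (d (a (c (b (f (b (a (d (b (a (c e))))))))))))), t false 1 (a (b (d
  (a (b (f (b (c (a (d (b (a (c e))))))))))))), t false 1 (a (b (d (b (f (a (c (a (b (d (b (a (c
  e))))))))))))), t false 1 (f (b (d (b (a (f (c (a (b (d (b (a (c e))))))))))))), t true 1 (c (f (b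
  (d (b (a (f (a (b (d (b (a (c e))))))))))))), t true 1 (f (c (b (d (b (a (f (c (b (d (b (a (c
  e))))))))))))), t false 2 (a (b (d (b (a (c (a (f (b (d (b (a (c e))))))))))))), t true 1 (a (b (a
  (c (a (d (b (f (b (d (b (a (c e))))))))))))), t true 1 (a (d (f (b (d (a (c (a (f (d (b (a (c
  e))))))))))))), t false 1 (d (b (f (c (b (d (c (b (a (f (b (a (c e))))))))))))), t false 1 (d (a
  (b (f (b (a (d (c (a (f (b (a (c e))))))))))))), t true 1 (c (d (a (b (f (b (a (d (a (f (b (a (c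
  e))))))))))))), t false 1 (d (a (b (f (c (a (d (c (b (f (b (a (c e))))))))))))), t false 2 (a (b
  (a (c (b (f (d (a (b (a (d (a (c e))))))))))))), t false 1 (b (c (b (a (f (d (a (c (b (a (d (a (c
  e))))))))))))), t true 1 (b (c (a (f (d (a (b (c (b (a (d (a (c e))))))))))))), t true 1 (a (b (c
  (b (f (d (b (a (c (b (d (a (c e))))))))))))), t false 1 (a (b (c (a (b (f (d (b (c (b (d (a (c
  e))))))))))))), t true 1 (a (b (f (d (b (a (c (a (f (b (d (a (c e))))))))))))), t true 1 (c (b (a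
  (d (f (d (a (b (a (f (d (a (c e))))))))))))), t true 1 (a (d (f (d (b (a (c (a (b (f (d (a (c
  e))))))))))))), t true 1 (b (c (a (d (f (d (b (c (b (f (d (a (c e))))))))))))), t false 1 (d (b (a
  (c (b (d (c (a (b (a (f (a (c e))))))))))))), t true 1 (a (d (b (a (c (b (d (a (b (a (f (a (c
  e))))))))))))), t false 1 (d (a (b (c (b (a (d (c (b (a (f (a (c e))))))))))))), t false 1 (a (b
  (d (a (c (b (a (d (b (a (f (a (c e))))))))))))), t true 1 (d (a (b (a (d (a (b (a (c (a (f (a (c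
  e))))))))))))), t true 1 (a (b (a (c (d (a (b (a (d (a (f (a (c e))))))))))))), t false 1 (a (c (d
  (a (b (a (d (a (b (c (f (a (c e))))))))))))), t false 1 (b (a (f (d (a (b (c (b (a (d (a (b (c
  e))))))))))))), t true 1 (b (c (b (a (f (d (a (c (a (d (a (b (c e))))))))))))), t false 1 (b (c (a
  (f (d (a (b (c (a (d (a (b (c e))))))))))))), t true 1 (c (a (d (f (d (a (b (a (f (d (a (b (c
  e))))))))))))), t true 1 (a (d (f (d (b (a (c (b (f (d (a (b (c e))))))))))))), t false 1 (b (a (d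
  (f (d (b (c (b (f (d (a (b (c e))))))))))))), t false 1 (a (d (b (c (b (d (a (c (a (f (a (b (c
  e))))))))))))), t true 1 (d (a (b (c (b (a (d (c (a (f (a (b (c e))))))))))))), t true 1 (a (b (d
  (a (c (a (d (a (b (f (a (b (c e))))))))))))), t true 1 (f (c (a (b (d (a (b (f (c (a (d (b (c
  e))))))))))))), t true 1 (a (b (d (b (a (c (b (a (f (a (d (b (c e))))))))))))), t true 2 (a (b (a
  (c (b (a (d (a (f (a (d (b (c e))))))))))))), t true 2 (a (d (b (a (c (b (a (d (f (a (d (b (c
  e))))))))))))), t true 1 (f (c (b (d (b (a (f (c (a (b (d (b (c e))))))))))))), t true 1 (a (b (d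
  (b (a (c (a (f (a (b (d (b (c e))))))))))))), t true 1 (a (c (b (d (b (a (c (f (a (b (d (b (c
  e))))))))))))), t true 1 (a (c (b (d (b (c (f (a (c (b (d (b (c e))))))))))))), t false 1 (c (a (d
  (f (b (d (a (b (a (f (d (b (c e))))))))))))), t true 1 (b (a (d (f (a (d (b (c (b (f (d (b (c
  e))))))))))))), t true 1 (a (d (b (f (b (d (a (c (b (a (f (b (c e))))))))))))), t true 1 (d (a (b
  (f (c (b (a (d (c (a (f (b (c e))))))))))))), t false 1 (a (b (f (d (a (c (b (a (d (a (f (b (c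
  e))))))))))))), t false 1 (b (f (d (a (b (c (b (a (d (a (f (b (c e))))))))))))), t true 2 (a (b (f
  (d (a (c (a (d (a (b (f (b (c e))))))))))))), t true 1 (a (b (f (d (b (c (b (d (a (c (f (b (c
  e))))))))))))), t true 1 (a (c (d (c (f (b (a (c (a (b (a (d (c e))))))))))))), t true 1 (b (a (c
  (d (c (f (b (c (a (b (a (d (c e))))))))))))), t false 2 (a (b (c (d (b (f (b (a (c (b (a (d (c
  e))))))))))))), t true 1 (a (b (c (b (f (b (d (a (c (b (a (d (c e))))))))))))), t true 2 (a (b (c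
  (d (a (b (f (b (c (b (a (d (c e))))))))))))), t true 1 (b (f (c (d (b (c (b (a (f (b (a (d (c
  e))))))))))))), t true 1 (c (a (b (f (b (a (d (a (f (b (a (d (c e))))))))))))), t false 2 (a (b (f
  (c (d (a (c (b (f (b (a (d (c e))))))))))))), t false 1 (b (f (c (d (a (b (c (b (f (b (a (d (c
  e))))))))))))), t true 1 (a (c (d (b (a (c (a (b (a (f (a (d (c e)))))))))))))]

def c15_4 : List Tm := [t true 1 (b (a (c (d (b (c (a (b (a (f (a (d (c e))))))))))))), t false 1 (a
  (b (c (d (b (a (c (b (a (f (a (d (c e))))))))))))), t true 2 (a (b (a (c (a (b (a (d (a (f (a (d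
  (c e))))))))))))), t true 2 (a (d (b (a (c (a (b (a (d (f (a (d (c e))))))))))))), t true 1 (a (b
  (c (d (b (a (c (a (f (a (b (d (c e))))))))))))), t false 1 (a (b (c (d (a (c (a (b (f (a (b (d (c
  e))))))))))))), t false 1 (a (b (f (c (d (b (a (c (a (f (b (d (c e))))))))))))), t true 1 (b (f (c
  (d (c (b (a (f (b (a (c (d (c e))))))))))))), t false 2 (a (b (f (c (d (c (b (f (b (a (c (d (c
  e))))))))))))), t true 1 (b (a (c (d (c (a (b (a (f (a (c (d (c e))))))))))))), t false 1 (a (b (c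
  (d (c (a (b (f (a (b (c (d (c e))))))))))))), t false 1 (f (b (a (c (d (c (a (b (a (f (c (d (c
  e))))))))))))), t true 1 (a (c (d (f (b (a (c (a (b (a (f (d (c e))))))))))))), t true 1 (d (f (b
  (a (c (d (c (a (b (a (f (d (c e))))))))))))), t true 1 (c (a (d (f (b (a (d (a (b (a (f (d (c
  e))))))))))))), t false 1 (b (a (d (f (b (c (d (a (b (a (f (d (c e))))))))))))), t false 2 (a (b
  (c (d (f (b (a (c (b (a (f (d (c e))))))))))))), t true 1 (a (b (d (f (c (d (b (a (c (a (f (d (c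
  e))))))))))))), t true 1 (b (a (d (f (c (d (a (b (c (a (f (d (c e))))))))))))), t false 2 (a (d (f
  (c (d (b (a (c (a (b (f (d (c e))))))))))))), t true 1 (a (d (f (b (c (d (b (a (c (b (f (d (c
  e))))))))))))), t false 1 (b (c (a (d (f (a (d (b (c (b (f (d (c e))))))))))))), t false 1 (d (c
  (f (b (a (c (d (c (a (b (a (f (c e))))))))))))), t false 1 (c (a (d (a (f (b (a (d (a (b (a (f (c
  e))))))))))))), t false 1 (a (d (b (a (c (f (b (d (a (b (a (f (c e))))))))))))), t true 1 (b (a (d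
  (b (c (f (b (d (a (b (a (f (c e))))))))))))), t true 1 (b (a (d (c (f (b (c (d (a (b (a (f (c
  e))))))))))))), t false 1 (a (d (b (c (f (b (d (a (c (b (a (f (c e))))))))))))), t false 1 (a (b
  (d (a (c (f (b (a (d (b (a (f (c e))))))))))))), t true 1 (a (b (a (c (f (d (a (b (a (d (a (f (c
  e))))))))))))), t true 1 (b (c (f (d (a (b (c (b (a (d (a (f (c e))))))))))))), t false 1 (b (a (c
  (f (d (a (b (c (a (d (a (f (c e))))))))))))), t false 2 (a (c (f (d (a (c (b (a (d (a (b (f (c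
  e))))))))))))), t false 1 (a (c (f (d (b (a (c (b (d (a (b (f (c e))))))))))))), t false 1 (a (c
  (a (d (c (f (b (a (c (a (b (a (d e))))))))))))), t false 1 (a (b (a (d (c (b (f (b (c (a (b (a (d
  e))))))))))))), t false 1 (b (a (c (b (d (c (f (b (c (a (b (a (d e))))))))))))), t true 2 (a (b (a
  (c (b (f (b (c (d (a (b (a (d e))))))))))))), t true 1 (f (c (a (b (a (c (b (f (d (a (b (a (d
  e))))))))))))), t true 2 (a (b (c (a (d (b (f (b (a (c (b (a (d e))))))))))))), t false 1 (b (c (a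
  (b (d (b (f (b (a (c (b (a (d e))))))))))))), t false 1 (a (b (c (a (b (f (b (d (a (c (b (a (d
  e))))))))))))), t false 1 (f (a (b (c (a (b (f (d (a (c (b (a (d e))))))))))))), t false 1 (f (b
  (c (b (a (f (d (a (b (c (b (a (d e))))))))))))), t true 1 (d (f (b (c (b (a (f (a (b (c (b (a (d
  e))))))))))))), t false 1 (a (b (c (b (a (d (a (f (b (c (b (a (d e))))))))))))), t false 2 (a (b
  (c (a (d (a (b (f (b (c (b (a (d e))))))))))))), t true 1 (b (c (a (b (d (a (b (f (b (c (b (a (d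
  e))))))))))))), t true 1 (a (b (a (d (a (c (b (f (b (c (b (a (d e))))))))))))), t false 1 (a (c (b
  (a (d (a (c (f (b (c (b (a (d e))))))))))))), t false 1 (b (f (c (b (d (b (c (b (a (f (b (a (d
  e))))))))))))), t true 1 (d (c (a (b (f (b (a (c (a (f (b (a (d e))))))))))))), t true 1 (a (c (b
  (f (b (c (a (d (a (f (b (a (d e))))))))))))), t true 2 (a (b (f (c (a (d (a (c (b (f (b (a (d
  e))))))))))))), t true 1 (b (f (c (b (d (a (b (c (b (f (b (a (d e))))))))))))), t false 1 (a (b (a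
  (d (b (f (c (a (b (a (c (a (d e))))))))))))), t false 2 (a (b (f (c (b (a (d (a (f (b (c (a (d
  e))))))))))))), t true 1 (d (b (a (c (f (c (a (b (a (f (c (a (d e))))))))))))), t true 2 (a (c (f
  (c (b (a (d (a (b (f (c (a (d e))))))))))))), t true 1 (b (c (f (c (a (b (d (a (b (f (c (a (d
  e))))))))))))), t true 1 (b (a (c (f (c (b (d (a (b (f (c (a (d e))))))))))))), t false 1 (a (c (a
  (d (b (a (c (a (b (a (f (a (d e))))))))))))), t false 1 (a (c (b (a (d (b (c (a (b (a (f (a (d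
  e))))))))))))), t false 1 (b (a (c (b (d (b (c (a (b (a (f (a (d e))))))))))))), t true 1 (a (b (c
  (a (d (b (a (c (b (a (f (a (d e))))))))))))), t false 1 (a (b (c (b (a (d (b (c (b (a (f (a (d
  e))))))))))))), t false 1 (a (b (a (d (c (a (b (a (c (a (f (a (d e))))))))))))), t true 2 (c (a (b
  (a (c (a (b (a (d (a (f (a (d e))))))))))))), t true 2 (a (b (c (b (a (d (a (b (c (b (f (a (d
  e))))))))))))), t false 2 (a (d (c (a (b (a (c (a (b (d (f (a (d e))))))))))))), t true 1 (d (a (c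
  (f (c (a (b (a (f (c (a (b (d e))))))))))))), t true 1 (b (c (f (c (b (d (b (a (f (c (a (b (d
  e))))))))))))), t true 1 (a (c (f (c (b (a (d (b (f (c (a (b (d e))))))))))))), t false 1 (a (b (c
  (a (d (b (a (c (a (f (a (b (d e))))))))))))), t true 1 (a (b (c (b (a (d (b (c (a (f (a (b (d
  e))))))))))))), t true 1 (a (b (c (a (d (a (c (a (b (f (a (b (d e))))))))))))), t false 2 (a (b (c
  (b (a (d (b (a (f (a (c (b (d e))))))))))))), t true 1 (a (b (a (d (b (a (c (a (f (a (c (b (d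
  e))))))))))))), t true 1 (a (c (b (a (d (b (a (c (f (a (c (b (d e))))))))))))), t true 3 (a (b (c
  (b (a (d (a (f (a (b (c (b (d e))))))))))))), t true 2 (a (d (b (c (b (a (d (f (a (b (c (b (d
  e))))))))))))), t true 2 (a (d (b (c (b (d (f (a (d (b (c (b (d e))))))))))))), t false 1 (a (d (f
  (a (d (b (c (b (f (b (c (b (d e))))))))))))), t false 1 (d (a (c (f (b (c (a (b (a (f (c (b (d
  e))))))))))))), t false 1 (a (b (c (f (b (a (d (b (a (f (c (b (d e))))))))))))), t false 1 (a (c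
  (f (b (c (a (d (b (a (f (c (b (d e))))))))))))), t true 1 (a (c (f (b (c (b (a (d (b (f (c (b (d
  e))))))))))))), t true 1 (a (c (b (f (b (c (a (d (b (a (f (b (d e))))))))))))), t true 1 (a (b (f
  (c (a (d (b (a (c (a (f (b (d e))))))))))))), t false 1 (b (f (c (a (b (d (b (a (c (a (f (b (d
  e))))))))))))), t false 1 (b (f (c (b (d (c (b (a (f (b (a (c (d e))))))))))))), t true 1 (d (a (b
  (f (b (a (c (a (f (b (a (c (d e))))))))))))), t true 2 (a (b (f (c (a (d (c (b (f (b (a (c (d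
  e))))))))))))), t false 1 (b (a (c (b (d (c (a (b (a (f (a (c (d e))))))))))))), t false 2 (a (b
  (c (b (a (d (c (b (a (f (a (c (d e))))))))))))), t true 1 (a (b (a (d (a (b (a (c (a (f (a (c (d
  e))))))))))))), t true 1 (a (c (b (a (d (a (b (a (c (f (a (c (d e))))))))))))), t true 1 (a (b (c
  (b (a (d (c (a (f (a (b (c (d e))))))))))))), t true 1 (a (b (c (a (d (c (a (b (f (a (b (c (d
  e))))))))))))), t false 1 (a (b (f (c (b (a (d (c (a (f (b (c (d e)))))))))))))]

def c15_5 : List Tm := [t true 1 (a (b (f (b (c (b (a (d (c (f (b (c (d e))))))))))))), t true 1 (d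
  (a (c (f (b (a (c (a (b (a (f (c (d e))))))))))))), t true 2 (a (c (f (b (a (d (c (a (b (a (f (c
  (d e))))))))))))), t false 1 (c (f (b (a (c (d (c (a (b (a (f (c (d e))))))))))))), t false 1 (a
  (b (c (f (b (a (d (c (b (a (f (c (d e))))))))))))), t false 1 (a (c (f (c (b (a (d (c (a (b (f (c
  (d e))))))))))))), t true 1 (a (c (f (b (c (b (a (d (c (b (f (c (d e))))))))))))), t false 1 (d (a
  (c (a (f (b (a (c (a (b (a (f (d e))))))))))))), t false 2 (a (c (a (d (f (b (a (c (a (b (a (f (d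
  e))))))))))))), t false 1 (a (c (b (a (d (f (b (c (a (b (a (f (d e))))))))))))), t false 1 (a (c
  (d (f (b (a (d (c (a (b (a (f (d e))))))))))))), t true 1 (c (d (f (b (a (c (d (c (a (b (a (f (d
  e))))))))))))), t false 1 (c (a (d (f (b (a (c (d (a (b (a (f (d e))))))))))))), t false 1 (c (b
  (a (d (f (b (c (d (a (b (a (f (d e))))))))))))), t true 2 (a (b (c (a (d (f (b (a (c (b (a (f (d
  e))))))))))))), t true 1 (b (c (a (d (f (b (d (a (c (b (a (f (d e))))))))))))), t false 1 (a (b (c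
  (b (a (d (f (b (c (b (a (f (d e))))))))))))), t false 1 (a (b (a (d (f (c (a (b (a (c (a (f (d
  e))))))))))))), t false 1 (a (b (d (f (c (a (d (b (a (c (a (f (d e))))))))))))), t true 1 (b (d (f
  (c (a (b (d (b (a (c (a (f (d e))))))))))))), t false 2 (b (a (d (f (c (a (b (d (a (c (a (f (d
  e))))))))))))), t false 1 (b (a (d (f (c (b (d (a (b (c (a (f (d e))))))))))))), t true 1 (a (d (f
  (c (a (d (b (a (c (a (b (f (d e))))))))))))), t true 1 (a (d (f (c (b (a (d (b (c (a (b (f (d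
  e))))))))))))), t false 1 (a (d (f (b (c (a (d (b (a (c (b (f (d e))))))))))))), t false 1 (a (d
  (f (b (c (b (a (d (b (c (b (f (d e))))))))))))), t true 1 (b (c (b (a (d (f (a (d (b (c (b (f (d
  e))))))))))))), t false 2 (a (b (c (b (d (f (a (d (b (c (b (f (d e))))))))))))), t false 1 (f (d
  (a (c (a (d (b (a (c (a (b (a (f e))))))))))))), t true 1 (f (b (d (a (c (a (d (a (c (a (b (a (f
  e))))))))))))), t false 1 (f (d (a (c (b (a (d (b (c (a (b (a (f e))))))))))))), t false 1 (f (d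
  (b (a (c (b (d (b (c (a (b (a (f e))))))))))))), t true 1 (a (c (d (a (f (b (a (d (c (a (b (a (f
  e))))))))))))), t false 1 (c (d (c (f (b (a (c (d (c (a (b (a (f e))))))))))))), t true 1 (c (a (d
  (a (c (f (b (a (d (a (b (a (f e))))))))))))), t true 1 (f (c (a (d (b (a (c (b (d (a (b (a (f
  e))))))))))))), t true 1 (c (b (a (d (b (c (f (b (d (a (b (a (f e))))))))))))), t true 1 (c (a (d
  (c (f (b (a (c (d (a (b (a (f e))))))))))))), t true 1 (c (b (a (d (c (f (b (c (d (a (b (a (f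
  e))))))))))))), t false 1 (d (a (b (c (a (d (f (b (a (c (b (a (f e))))))))))))), t false 1 (f (a
  (d (b (c (a (b (d (a (c (b (a (f e))))))))))))), t false 1 (b (c (a (d (b (f (b (d (a (c (b (a (f
  e))))))))))))), t false 1 (c (a (d (b (c (f (b (d (a (c (b (a (f e))))))))))))), t false 1 (f (d
  (a (b (c (b (a (d (b (c (b (a (f e))))))))))))), t true 1 (f (a (b (c (d (a (b (a (d (c (b (a (f
  e))))))))))))), t true 1 (f (c (a (b (d (a (c (b (a (d (b (a (f e))))))))))))), t false 1 (c (a (b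
  (d (a (c (f (b (a (d (b (a (f e))))))))))))), t false 2 (f (d (a (b (a (d (c (a (b (a (c (a (f
  e))))))))))))), t true 2 (d (a (b (a (d (f (c (a (b (a (c (a (f e))))))))))))), t true 1 (f (c (d
  (a (b (a (d (a (b (a (c (a (f e))))))))))))), t true 1 (f (a (b (d (a (c (a (d (b (a (c (a (f
  e))))))))))))), t false 1 (a (b (d (a (f (c (a (d (b (a (c (a (f e))))))))))))), t false 2 (b (d
  (a (b (f (c (a (d (b (a (c (a (f e))))))))))))), t false 1 (b (d (b (f (c (a (b (d (b (a (c (a (f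
  e))))))))))))), t true 2 (b (a (d (a (b (f (c (a (d (a (c (a (f e))))))))))))), t true 1 (f (a (d
  (b (a (c (a (b (d (a (c (a (f e))))))))))))), t true 2 (b (a (d (b (f (c (a (b (d (a (c (a (f
  e))))))))))))), t true 1 (b (a (d (c (a (b (f (c (d (a (c (a (f e))))))))))))), t true 1 (f (a (d
  (b (a (c (b (d (a (b (c (a (f e))))))))))))), t true 1 (b (a (d (b (f (c (b (d (a (b (c (a (f
  e))))))))))))), t true 1 (a (b (d (a (f (c (b (a (d (b (c (a (f e))))))))))))), t false 1 (a (b (a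
  (f (c (d (a (b (a (d (c (a (f e))))))))))))), t true 1 (b (c (d (a (b (f (c (b (a (d (c (a (f
  e))))))))))))), t false 1 (b (a (c (d (a (b (f (c (a (d (c (a (f e))))))))))))), t true 2 (f (d (c
  (a (b (a (c (a (b (a (d (a (f e))))))))))))), t false 1 (f (c (a (b (a (c (d (a (b (a (d (a (f
  e))))))))))))), t true 1 (c (a (b (a (c (f (d (a (b (a (d (a (f e))))))))))))), t false 1 (b (c (a
  (b (f (d (a (c (b (a (d (a (f e))))))))))))), t false 1 (b (c (b (f (d (a (b (c (b (a (d (a (f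
  e))))))))))))), t true 1 (b (a (c (a (b (f (d (a (c (a (d (a (f e))))))))))))), t true 1 (b (a (c
  (b (f (d (a (b (c (a (d (a (f e))))))))))))), t false 1 (a (d (a (f (c (a (d (b (a (c (a (b (f
  e))))))))))))), t true 1 (a (d (c (a (f (c (d (b (a (c (a (b (f e))))))))))))), t false 1 (f (a (b
  (d (a (c (a (d (a (c (a (b (f e))))))))))))), t true 2 (a (b (d (a (f (c (a (d (a (c (a (b (f
  e))))))))))))), t false 1 (a (d (a (f (c (b (a (d (b (c (a (b (f e))))))))))))), t true 1 (f (a (d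
  (b (a (c (b (d (b (c (a (b (f e))))))))))))), t false 1 (a (d (b (a (f (c (b (d (b (c (a (b (f
  e))))))))))))), t false 1 (a (c (d (a (f (c (b (a (d (c (a (b (f e))))))))))))), t true 2 (a (c (a
  (f (d (a (c (b (a (d (a (b (f e))))))))))))), t true 1 (a (c (a (f (d (b (a (c (b (d (a (b (f
  e))))))))))))), t true 1 (a (d (a (f (b (c (a (d (b (a (c (b (f e))))))))))))), t true 2 (a (b (a
  (f (d (a (c (a (d (a (c (b (f e))))))))))))), t true 1 (f (d (a (b (c (b (a (d (a (b (c (b (f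
  e))))))))))))), t true 1 (a (d (a (f (b (c (b (a (d (b (c (b (f e))))))))))))), t true 2 (a (b (c
  (b (d (a (f (a (d (b (c (b (f e))))))))))))), t true 1 (d (b (c (b (a (d (f (a (d (b (c (b (f
  e))))))))))))), t false 1 (a (c (d (a (f (b (c (b (a (d (c (b (f e))))))))))))), t false 1 (f (a
  (c (d (a (b (a (d (a (b (a (c (f e))))))))))))), t false 1 (a (b (d (a (f (b (c (a (d (b (a (c (f
  e))))))))))))), t false 1 (a (b (a (f (d (b (c (b (d (a (b (c (f e))))))))))))), t false 1 (a (b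
  (d (a (f (b (c (b (a (d (b (c (f e))))))))))))), t true 1 (a (b (a (f (b (c (d (a (b (a (d (c (f
  e))))))))))))), t false 2 (f (a (d (c (a (b (a (c (a (b (a (d (f e)))))))))))))]

def c15 : List (List Tm) := [c15_0, c15_1, c15_2, c15_3, c15_4, c15_5]

def c23_0 : List Tm := [t false 1 (c (d (f (a (b (a (f (d (a (c (a (b (a e))))))))))))), t true 1 (f
  (b (d (a (b (f (c (a (d (c (a (b (a e))))))))))))), t false 1 (c (f (a (b (d (a (f (a (d (c (a (b
  (a e))))))))))))), t false 1 (c (f (b (d (a (b (f (a (d (c (a (b (a e))))))))))))), t true 1 (f (b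
  (d (b (f (c (a (b (d (c (a (b (a e))))))))))))), t false 1 (c (f (b (d (b (f (a (b (d (c (a (b (a
  e))))))))))))), t true 1 (a (b (d (f (a (c (a (f (d (c (a (b (a e))))))))))))), t true 1 (b (d (f
  (a (b (c (a (f (d (c (a (b (a e))))))))))))), t true 1 (d (a (b (f (a (d (c (a (f (c (a (b (a
  e))))))))))))), t false 1 (d (b (f (c (a (b (d (c (f (c (a (b (a e))))))))))))), t false 1 (d (b
  (f (a (c (a (f (c (b (d (a (b (a e))))))))))))), t true 1 (d (c (f (a (b (a (f (a (c (d (a (b (a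
  e))))))))))))), t false 1 (d (a (b (f (a (c (a (f (c (d (a (b (a e))))))))))))), t true 1 (f (d (b
  (c (b (d (a (b (a (f (a (b (a e))))))))))))), t true 1 (f (b (c (d (a (b (a (d (a (f (a (b (a
  e))))))))))))), t false 1 (f (c (d (a (b (a (d (c (f (a (c (b (a e))))))))))))), t false 1 (c (f
  (b (d (a (b (f (c (a (d (c (b (a e))))))))))))), t false 1 (c (f (b (d (b (f (c (a (b (d (c (b (a
  e))))))))))))), t true 1 (a (c (f (b (d (b (f (c (b (d (c (b (a e))))))))))))), t true 1 (f (b (d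
  (c (a (b (f (a (c (d (c (b (a e))))))))))))), t true 1 (f (b (d (c (b (f (a (b (c (d (c (b (a
  e))))))))))))), t false 1 (f (c (b (d (c (f (a (b (c (d (c (b (a e))))))))))))), t false 1 (a (f
  (b (d (c (b (f (b (c (d (c (b (a e))))))))))))), t true 1 (a (f (c (b (d (c (f (b (c (d (c (b (a
  e))))))))))))), t false 1 (c (f (b (d (c (a (b (f (c (d (c (b (a e))))))))))))), t true 1 (a (c (f
  (b (d (c (b (f (c (d (c (b (a e))))))))))))), t false 1 (c (b (d (f (a (b (c (a (f (d (c (b (a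
  e))))))))))))), t false 1 (c (d (a (b (f (a (d (c (a (f (c (b (a e))))))))))))), t true 1 (d (b (f
  (c (a (b (d (a (c (f (c (b (a e))))))))))))), t true 1 (d (b (f (c (b (d (a (b (c (f (c (b (a
  e))))))))))))), t false 1 (a (d (b (f (c (b (d (b (c (f (c (b (a e))))))))))))), t true 1 (b (f (c
  (d (a (b (a (d (c (f (c (b (a e))))))))))))), t true 1 (b (f (c (d (c (f (c (a (b (a (d (b (a
  e))))))))))))), t false 1 (b (f (c (d (a (c (f (c (b (a (d (b (a e))))))))))))), t true 1 (c (a (b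
  (f (a (d (a (f (c (a (d (b (a e))))))))))))), t true 1 (b (f (c (d (a (b (c (f (c (a (d (b (a
  e))))))))))))), t true 1 (b (f (c (d (b (c (f (c (a (b (d (b (a e))))))))))))), t true 1 (f (c (d
  (b (a (c (f (a (c (b (d (b (a e))))))))))))), t true 1 (c (d (b (f (a (c (a (f (c (b (d (b (a
  e))))))))))))), t false 1 (b (f (c (d (b (a (c (f (c (b (d (b (a e))))))))))))), t false 1 (b (f
  (c (d (c (f (a (b (a (c (d (b (a e))))))))))))), t true 1 (f (c (d (c (a (b (a (f (a (c (d (b (a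
  e))))))))))))), t false 1 (c (d (c (f (a (b (a (f (a (c (d (b (a e))))))))))))), t true 1 (f (c (d
  (a (b (a (c (f (a (c (d (b (a e))))))))))))), t true 1 (b (c (d (c (f (a (b (a (f (c (d (b (a
  e))))))))))))), t true 1 (c (d (a (b (f (a (c (a (f (c (d (b (a e))))))))))))), t true 1 (c (a (b
  (f (a (d (c (a (f (c (d (b (a e))))))))))))), t false 1 (b (f (c (d (a (b (a (c (f (c (d (b (a
  e))))))))))))), t false 1 (d (f (c (d (b (c (a (b (a (f (d (b (a e))))))))))))), t false 1 (b (a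
  (c (d (f (a (c (b (a (f (d (b (a e))))))))))))), t false 1 (a (b (a (c (d (f (a (c (a (f (d (b (a
  e))))))))))))), t false 1 (b (a (c (d (f (b (a (c (b (f (d (b (a e))))))))))))), t false 1 (c (f
  (d (b (c (b (d (a (b (a (f (b (a e))))))))))))), t false 1 (b (d (a (c (f (a (d (c (b (a (f (b (a
  e))))))))))))), t false 1 (a (b (d (a (c (f (a (d (c (a (f (b (a e))))))))))))), t false 1 (d (b
  (a (c (f (b (d (a (c (b (f (b (a e))))))))))))), t false 1 (b (d (a (c (f (b (a (d (c (b (f (b (a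
  e))))))))))))), t false 1 (f (c (d (a (c (f (b (a (d (b (a (c (a e))))))))))))), t true 1 (b (f (c
  (d (a (c (f (a (d (b (a (c (a e))))))))))))), t true 1 (f (a (c (d (b (a (f (b (d (b (a (c (a
  e))))))))))))), t false 1 (f (c (d (c (f (b (a (c (d (b (a (c (a e))))))))))))), t true 1 (b (f (c
  (d (c (f (a (c (d (b (a (c (a e))))))))))))), t false 1 (c (d (f (a (c (b (a (f (d (b (a (c (a
  e))))))))))))), t true 1 (b (c (d (f (a (c (a (f (d (b (a (c (a e))))))))))))), t false 1 (c (d (f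
  (b (a (c (b (f (d (b (a (c (a e))))))))))))), t false 1 (d (a (c (f (a (d (b (a (f (b (a (c (a
  e))))))))))))), t true 1 (b (d (a (c (f (a (d (a (f (b (a (c (a e))))))))))))), t false 1 (d (a (c
  (f (b (a (d (b (f (b (a (c (a e))))))))))))), t false 1 (d (b (a (c (f (b (d (b (f (b (a (c (a
  e))))))))))))), t true 1 (d (a (c (a (d (f (a (b (a (f (a (c (a e))))))))))))), t false 1 (f (d (b
  (c (b (d (a (c (a (f (a (c (a e))))))))))))), t false 1 (f (b (d (a (c (b (a (d (a (f (a (c (a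
  e))))))))))))), t true 1 (f (c (d (a (b (a (d (b (c (f (a (c (a e))))))))))))), t true 1 (d (b (f
  (a (c (a (f (b (d (a (b (c (a e))))))))))))), t true 1 (b (f (c (d (a (c (f (b (a (d (b (c (a
  e))))))))))))), t false 1 (f (c (d (b (a (c (f (a (b (d (b (c (a e))))))))))))), t false 1 (f (c
  (d (b (c (f (a (c (b (d (b (c (a e))))))))))))), t true 1 (a (f (c (d (b (c (f (c (b (d (b (c (a
  e))))))))))))), t false 1 (c (d (b (f (a (c (a (f (b (d (b (c (a e))))))))))))), t true 1 (b (f (c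
  (d (b (a (c (f (b (d (b (c (a e))))))))))))), t false 1 (a (b (f (c (d (b (c (f (b (d (b (c (a
  e))))))))))))), t true 1 (b (f (c (d (c (f (b (a (c (d (b (c (a e))))))))))))), t false 1 (a (b (f
  (c (d (c (f (b (c (d (b (c (a e))))))))))))), t false 1 (b (a (c (d (f (a (b (a (f (d (b (c (a
  e))))))))))))), t true 1 (b (c (d (f (a (c (b (a (f (d (b (c (a e))))))))))))), t true 1 (b (c (d
  (f (b (a (c (b (f (d (b (c (a e))))))))))))), t false 1 (a (b (c (d (f (b (c (b (f (d (b (c (a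
  e))))))))))))), t true 1 (b (d (a (c (f (a (d (b (a (f (b (c (a e))))))))))))), t true 1 (d (b (a
  (c (f (b (d (a (b (f (b (c (a e))))))))))))), t true 1 (d (b (c (f (b (d (a (c (b (f (b (c (a
  e))))))))))))), t false 1 (a (d (b (c (f (b (d (c (b (f (b (c (a e))))))))))))), t true 1 (b (d (a
  (c (f (b (a (d (b (f (b (c (a e))))))))))))), t true 1 (b (f (a (c (a (f (d (a (b (a (d (c (a
  e))))))))))))), t false 1 (b (a (c (f (a (d (a (f (b (a (d (c (a e))))))))))))), t false 1 (c (f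
  (b (d (a (c (b (f (b (a (d (c (a e))))))))))))), t false 1 (c (f (b (d (b (f (b (a (c (a (d (c (a
  e))))))))))))), t true 1 (c (f (b (d (a (b (f (b (c (a (d (c (a e))))))))))))), t true 1 (c (f (b
  (d (b (f (a (c (a (b (d (c (a e))))))))))))), t true 2 (f (b (d (b (a (c (a (f (a (b (d (c (a
  e))))))))))))), t false 1 (f (b (d (a (c (a (b (f (a (b (d (c (a e)))))))))))))]

def c23_1 : List Tm := [t true 1 (f (c (b (d (b (c (f (a (c (b (d (c (a e))))))))))))), t false 1 (a
  (f (c (b (d (b (c (f (c (b (d (c (a e))))))))))))), t false 1 (b (a (c (f (a (d (b (a (f (b (d (c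
  (a e))))))))))))), t true 1 (a (c (f (a (b (d (b (a (f (b (d (c (a e))))))))))))), t true 1 (c (f
  (a (c (b (d (b (a (f (b (d (c (a e))))))))))))), t false 2 (c (f (b (d (b (a (c (a (f (b (d (c (a
  e))))))))))))), t true 1 (c (f (b (d (a (c (a (b (f (b (d (c (a e))))))))))))), t false 1 (c (f (b
  (d (c (b (f (b (a (c (d (c (a e))))))))))))), t false 1 (f (b (d (c (a (b (f (a (b (c (d (c (a
  e))))))))))))), t true 1 (c (f (b (d (c (a (b (f (b (c (d (c (a e))))))))))))), t true 1 (a (c (a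
  (b (d (f (a (b (a (f (d (c (a e))))))))))))), t true 1 (d (f (b (d (b (a (c (b (a (f (d (c (a
  e))))))))))))), t true 1 (c (d (f (b (d (b (a (c (a (f (d (c (a e))))))))))))), t true 1 (c (a (b
  (d (f (a (b (c (a (f (d (c (a e))))))))))))), t false 1 (b (d (a (c (a (d (f (a (b (a (f (c (a
  e))))))))))))), t true 1 (a (c (d (a (b (f (a (d (b (a (f (c (a e))))))))))))), t true 1 (b (f (d
  (b (c (b (d (a (c (a (f (c (a e))))))))))))), t true 1 (c (d (a (b (f (a (d (b (c (a (f (c (a
  e))))))))))))), t false 1 (d (b (f (c (a (b (d (a (b (c (f (c (a e))))))))))))), t false 1 (b (f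
  (c (d (a (b (a (d (b (c (f (c (a e))))))))))))), t true 1 (b (f (a (d (c (a (f (c (a (b (a (d (a
  e))))))))))))), t false 1 (b (f (a (c (a (f (c (d (a (b (a (d (a e))))))))))))), t true 1 (b (f (c
  (a (d (a (c (f (c (b (a (d (a e))))))))))))), t false 1 (c (f (b (c (b (a (d (a (f (b (a (d (a
  e))))))))))))), t true 1 (c (f (b (a (d (a (c (b (f (b (a (d (a e))))))))))))), t false 1 (c (f (b
  (a (d (a (b (f (b (c (a (d (a e))))))))))))), t true 1 (b (f (b (c (b (a (d (a (f (c (a (d (a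
  e))))))))))))), t false 1 (b (f (c (a (d (a (b (c (f (c (a (d (a e))))))))))))), t true 1 (b (f (a
  (d (b (c (a (f (c (a (b (d (a e))))))))))))), t true 1 (f (b (c (b (a (d (b (a (f (a (b (d (a
  e))))))))))))), t false 2 (f (b (a (d (b (a (c (a (f (a (b (d (a e))))))))))))), t true 1 (f (b (a
  (d (a (c (a (b (f (a (b (d (a e))))))))))))), t false 1 (f (c (a (d (b (a (c (f (a (c (b (d (a
  e))))))))))))), t false 1 (f (c (b (a (d (b (c (f (a (c (b (d (a e))))))))))))), t false 1 (c (a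
  (d (b (f (a (c (a (f (c (b (d (a e))))))))))))), t false 1 (c (b (f (a (d (b (c (a (f (c (b (d (a
  e))))))))))))), t true 1 (b (f (c (a (d (b (a (c (f (c (b (d (a e))))))))))))), t true 1 (b (f (c
  (b (a (d (b (c (f (c (b (d (a e))))))))))))), t false 1 (a (b (f (c (b (d (b (c (f (c (b (d (a
  e))))))))))))), t false 1 (c (f (b (c (b (a (d (b (a (f (b (d (a e))))))))))))), t true 2 (c (f (b
  (a (d (b (a (c (a (f (b (d (a e))))))))))))), t false 1 (c (f (b (a (d (a (c (a (b (f (b (d (a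
  e))))))))))))), t false 1 (b (f (a (d (c (a (f (a (b (a (c (d (a e))))))))))))), t false 1 (c (f
  (a (d (c (b (a (f (b (a (c (d (a e))))))))))))), t true 1 (b (c (f (a (d (c (a (f (b (a (c (d (a
  e))))))))))))), t false 1 (f (c (a (d (c (a (b (a (f (a (c (d (a e))))))))))))), t true 1 (c (a (d
  (c (f (a (b (a (f (a (c (d (a e))))))))))))), t false 1 (f (b (c (b (a (d (c (a (f (a (c (d (a
  e))))))))))))), t false 1 (f (c (a (d (a (b (a (c (f (a (c (d (a e))))))))))))), t true 1 (f (b (a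
  (d (c (a (b (f (a (b (c (d (a e))))))))))))), t true 1 (b (c (f (a (d (c (b (a (f (b (c (d (a
  e))))))))))))), t false 1 (c (f (b (a (d (c (a (b (f (b (c (d (a e))))))))))))), t true 1 (b (c (f
  (b (a (d (c (b (f (b (c (d (a e))))))))))))), t false 1 (a (b (c (f (b (d (c (b (f (b (c (d (a
  e))))))))))))), t false 1 (b (c (a (d (c (f (a (b (a (f (c (d (a e))))))))))))), t false 1 (c (a
  (d (a (b (f (a (c (a (f (c (d (a e))))))))))))), t true 1 (b (f (b (c (b (a (d (c (a (f (c (d (a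
  e))))))))))))), t true 1 (b (f (c (a (d (a (b (a (c (f (c (d (a e))))))))))))), t true 1 (d (f (c
  (a (d (b (c (a (b (a (f (d (a e))))))))))))), t false 1 (d (f (b (a (d (b (a (c (b (a (f (d (a
  e))))))))))))), t false 1 (c (d (f (b (a (d (b (a (c (a (f (d (a e))))))))))))), t false 1 (d (a
  (f (c (a (d (b (c (a (b (a (f (a e))))))))))))), t true 1 (c (a (f (d (b (c (b (d (a (b (a (f (a
  e))))))))))))), t true 1 (b (d (a (c (a (d (c (f (a (b (a (f (a e))))))))))))), t true 1 (d (a (f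
  (b (a (d (b (a (c (b (a (f (a e))))))))))))), t true 1 (c (d (a (f (b (c (b (a (d (b (a (f (a
  e))))))))))))), t false 1 (c (d (b (a (f (a (c (b (d (b (a (f (a e))))))))))))), t false 1 (c (d
  (a (f (b (a (d (b (a (c (a (f (a e))))))))))))), t false 1 (b (a (f (d (b (c (b (d (a (c (a (f (a
  e))))))))))))), t false 1 (b (d (a (f (b (c (b (a (d (c (a (f (a e))))))))))))), t true 1 (c (d (a
  (f (b (a (d (a (c (a (b (f (a e))))))))))))), t false 1 (b (d (a (f (c (a (d (a (b (a (c (f (a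
  e))))))))))))), t true 1 (d (b (a (f (c (a (b (d (a (b (c (f (a e))))))))))))), t true 1 (b (a (f
  (c (d (a (b (a (d (b (c (f (a e))))))))))))), t false 1 (d (f (a (c (b (a (f (d (b (a (c (a (b
  e))))))))))))), t false 1 (d (f (b (a (c (b (f (d (b (a (c (a (b e))))))))))))), t true 1 (f (c (d
  (a (c (f (b (a (d (a (c (a (b e))))))))))))), t false 1 (b (f (c (d (a (c (f (a (d (a (c (a (b
  e))))))))))))), t true 1 (f (c (d (c (f (b (a (c (d (a (c (a (b e))))))))))))), t false 1 (b (f (c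
  (d (c (f (a (c (d (a (c (a (b e))))))))))))), t false 1 (a (c (d (f (a (b (a (f (d (a (c (a (b
  e))))))))))))), t true 1 (c (d (f (a (c (b (a (f (d (a (c (a (b e))))))))))))), t false 1 (b (c (d
  (f (a (c (a (f (d (a (c (a (b e))))))))))))), t true 1 (c (d (f (b (a (c (b (f (d (a (c (a (b
  e))))))))))))), t true 1 (d (a (c (f (a (d (b (a (f (a (c (a (b e))))))))))))), t false 1 (b (d (a
  (c (f (a (d (a (f (a (c (a (b e))))))))))))), t true 1 (d (a (c (f (b (a (d (b (f (a (c (a (b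
  e))))))))))))), t true 1 (d (b (a (c (f (b (d (b (f (a (c (a (b e))))))))))))), t false 1 (f (b (d
  (a (c (b (f (b (a (d (c (a (b e))))))))))))), t false 1 (f (b (d (b (f (b (a (c (a (d (c (a (b
  e))))))))))))), t true 1 (f (b (d (a (b (f (b (c (a (d (c (a (b e))))))))))))), t true 1 (b (a (c
  (f (a (d (a (f (a (d (c (a (b e))))))))))))), t false 1 (a (c (f (a (b (d (a (f (a (d (c (a (b
  e))))))))))))), t true 1 (c (f (b (d (a (c (b (f (a (d (c (a (b e))))))))))))), t true 1 (f (b (d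
  (b (f (a (c (a (b (d (c (a (b e))))))))))))), t true 1 (c (f (b (d (b (f (a (c (b (d (c (a (b
  e))))))))))))), t false 1 (f (b (d (c (b (f (b (a (c (d (c (a (b e))))))))))))), t true 1 (c (f (b
  (d (c (b (f (a (c (d (c (a (b e))))))))))))), t true 1 (a (b (d (f (a (b (c (a (f (d (c (a (b
  e))))))))))))), t true 1 (d (b (f (a (c (b (d (b (a (f (c (a (b e)))))))))))))]

def c23_2 : List Tm := [t true 1 (d (a (b (f (a (d (b (c (a (f (c (a (b e))))))))))))), t false 1 (d
  (b (f (c (a (b (d (b (c (f (c (a (b e))))))))))))), t true 1 (f (b (a (d (a (c (b (f (b (a (d (a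
  (b e))))))))))))), t false 1 (f (b (a (d (a (b (f (b (c (a (d (a (b e))))))))))))), t false 1 (c
  (f (b (a (d (a (c (b (f (a (d (a (b e))))))))))))), t true 1 (c (f (a (d (b (a (f (a (c (b (d (a
  (b e))))))))))))), t false 1 (a (d (b (f (a (c (a (f (c (b (d (a (b e))))))))))))), t false 1 (f
  (a (d (c (b (a (f (b (a (c (d (a (b e))))))))))))), t true 1 (a (d (c (f (a (b (a (f (a (c (d (a
  (b e))))))))))))), t true 1 (c (f (a (d (c (b (a (f (a (c (d (a (b e))))))))))))), t false 1 (b (c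
  (f (a (d (c (a (f (a (c (d (a (b e))))))))))))), t false 1 (a (d (a (b (f (a (c (a (f (c (d (a (b
  e))))))))))))), t true 1 (a (f (d (b (c (b (d (a (b (a (f (a (b e))))))))))))), t false 1 (d (b (a
  (f (a (c (b (d (b (a (f (a (b e))))))))))))), t false 2 (d (a (f (b (a (d (b (a (c (a (f (a (b
  e))))))))))))), t true 1 (a (f (b (c (d (a (b (a (d (a (f (a (b e))))))))))))), t true 1 (d (a (f
  (b (a (d (a (c (a (b (f (a (b e))))))))))))), t true 1 (c (d (a (f (b (a (d (a (c (b (f (a (b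
  e))))))))))))), t true 1 (d (b (a (f (c (a (b (d (b (c (f (a (b e))))))))))))), t true 1 (f (c (a
  (d (a (c (f (b (a (d (a (c (b e))))))))))))), t false 1 (b (f (c (a (d (a (c (f (a (d (a (c (b
  e))))))))))))), t false 1 (f (a (d (c (a (f (b (a (c (d (a (c (b e))))))))))))), t true 1 (b (f (a
  (d (c (a (f (a (c (d (a (c (b e))))))))))))), t true 1 (c (a (d (f (b (a (c (b (f (d (a (c (b
  e))))))))))))), t false 1 (d (a (f (c (a (d (b (a (c (f (a (c (b e))))))))))))), t true 1 (b (d (a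
  (f (c (a (d (a (c (f (a (c (b e))))))))))))), t false 1 (a (f (c (d (a (b (a (d (c (f (a (c (b
  e))))))))))))), t false 1 (f (a (c (a (f (b (d (a (c (a (d (c (b e))))))))))))), t true 1 (b (f (a
  (c (a (f (d (a (c (a (d (c (b e))))))))))))), t true 1 (b (a (c (f (a (d (a (f (c (a (d (c (b
  e))))))))))))), t false 1 (a (c (f (b (d (a (b (f (c (a (d (c (b e))))))))))))), t true 1 (c (a (f
  (b (d (a (c (b (f (a (d (c (b e))))))))))))), t false 1 (a (c (f (b (d (b (f (c (a (b (d (c (b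
  e))))))))))))), t true 1 (f (c (a (b (d (c (f (b (a (c (d (c (b e))))))))))))), t true 1 (a (f (b
  (d (c (a (b (f (a (c (d (c (b e))))))))))))), t true 1 (b (a (f (c (a (d (c (f (a (c (d (c (b
  e))))))))))))), t false 1 (a (f (c (a (b (d (c (f (a (c (d (c (b e))))))))))))), t true 1 (a (f (b
  (d (c (b (f (a (b (c (d (c (b e))))))))))))), t false 1 (a (f (c (b (d (c (f (a (b (c (d (c (b
  e))))))))))))), t true 1 (b (a (c (f (a (d (c (a (f (c (d (c (b e))))))))))))), t false 1 (a (c (f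
  (b (d (c (a (b (f (c (d (c (b e))))))))))))), t true 1 (c (a (b (d (f (a (c (b (a (f (d (c (b
  e))))))))))))), t false 1 (a (c (a (b (d (f (a (c (a (f (d (c (b e))))))))))))), t false 1 (a (c
  (b (d (f (a (b (c (a (f (d (c (b e))))))))))))), t false 1 (d (a (c (a (d (b (f (a (c (a (f (c (b
  e))))))))))))), t true 1 (b (d (a (c (a (d (f (a (c (a (f (c (b e))))))))))))), t false 1 (a (c (d
  (a (b (f (a (d (c (a (f (c (b e))))))))))))), t true 1 (a (d (b (f (c (a (b (d (a (c (f (c (b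
  e))))))))))))), t true 1 (a (d (b (f (c (b (d (a (b (c (f (c (b e))))))))))))), t true 1 (a (b (f
  (c (d (a (b (a (d (c (f (c (b e))))))))))))), t true 1 (a (b (f (c (d (c (f (c (a (b (a (d (b
  e))))))))))))), t true 1 (c (a (b (f (a (d (a (f (c (b (a (d (b e))))))))))))), t false 1 (a (b (f
  (c (d (a (c (f (c (b (a (d (b e))))))))))))), t true 1 (a (b (f (c (d (a (b (c (f (c (a (d (b
  e))))))))))))), t true 1 (a (b (f (c (d (b (c (f (c (a (b (d (b e))))))))))))), t true 1 (c (a (f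
  (b (a (d (b (f (a (c (b (d (b e))))))))))))), t true 1 (a (f (c (d (b (a (c (f (a (c (b (d (b
  e))))))))))))), t true 1 (c (a (b (f (a (d (b (a (f (c (b (d (b e))))))))))))), t true 1 (a (c (d
  (b (f (a (c (a (f (c (b (d (b e))))))))))))), t false 1 (a (b (f (c (d (b (a (c (f (c (b (d (b
  e))))))))))))), t false 1 (a (b (f (c (d (c (f (a (b (a (c (d (b e))))))))))))), t true 1 (a (f (c
  (d (c (a (b (a (f (a (c (d (b e))))))))))))), t false 1 (a (c (d (c (f (a (b (a (f (a (c (d (b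
  e))))))))))))), t true 1 (c (a (f (b (a (d (c (b (f (a (c (d (b e))))))))))))), t true 1 (a (f (c
  (d (a (b (a (c (f (a (c (d (b e))))))))))))), t true 1 (a (b (c (d (c (f (a (b (a (f (c (d (b
  e))))))))))))), t true 1 (c (a (b (f (a (d (c (b (a (f (c (d (b e))))))))))))), t true 1 (a (c (d
  (a (b (f (a (c (a (f (c (d (b e))))))))))))), t false 1 (a (b (f (c (d (a (b (a (c (f (c (d (b
  e))))))))))))), t false 1 (a (d (f (c (d (b (c (a (b (a (f (d (b e))))))))))))), t false 1 (a (b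
  (a (c (d (f (a (c (b (a (f (d (b e))))))))))))), t false 1 (a (b (a (c (d (f (b (a (c (b (f (d (b
  e))))))))))))), t false 1 (a (c (f (d (b (c (b (d (a (b (a (f (b e))))))))))))), t true 1 (d (a (b
  (a (d (a (c (f (a (b (a (f (b e))))))))))))), t false 1 (a (b (d (a (c (f (a (d (c (b (a (f (b
  e))))))))))))), t true 1 (d (a (c (f (b (a (d (b (a (c (a (f (b e))))))))))))), t false 1 (a (d (b
  (a (c (f (b (d (a (c (b (f (b e))))))))))))), t false 1 (a (b (d (a (c (f (b (a (d (c (b (f (b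
  e))))))))))))), t true 1 (d (f (a (b (c (a (f (d (c (a (b (a (c e))))))))))))), t false 1 (f (b (d
  (a (b (f (c (a (d (a (b (a (c e))))))))))))), t true 1 (c (f (b (d (a (b (f (a (d (a (b (a (c
  e))))))))))))), t false 1 (f (b (d (b (f (c (a (b (d (a (b (a (c e))))))))))))), t true 1 (c (f (b
  (d (b (f (a (b (d (a (b (a (c e))))))))))))), t true 1 (c (b (d (f (a (b (a (f (d (a (b (a (c
  e))))))))))))), t false 1 (a (b (d (f (a (c (a (f (d (a (b (a (c e))))))))))))), t false 1 (b (d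
  (f (a (b (c (a (f (d (a (b (a (c e))))))))))))), t false 1 (d (a (b (f (a (d (c (a (f (a (b (a (c
  e))))))))))))), t true 1 (c (d (a (b (f (a (d (a (f (a (b (a (c e))))))))))))), t true 1 (d (b (f
  (c (a (b (d (c (f (a (b (a (c e))))))))))))), t true 1 (f (c (d (c (f (c (a (b (a (d (b (a (c
  e))))))))))))), t false 1 (f (c (d (a (c (f (c (b (a (d (b (a (c e))))))))))))), t true 1 (f (c (d
  (a (b (c (f (c (a (d (b (a (c e))))))))))))), t false 1 (c (a (b (f (a (d (a (f (a (d (b (a (c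
  e))))))))))))), t false 1 (b (f (c (d (a (b (c (f (a (d (b (a (c e))))))))))))), t true 1 (f (c (d
  (b (c (f (c (a (b (d (b (a (c e))))))))))))), t false 1 (b (f (c (d (b (c (f (a (b (d (b (a (c
  e))))))))))))), t true 1 (f (a (c (d (b (a (f (c (b (d (b (a (c e))))))))))))), t false 1 (f (c (d
  (c (f (a (b (a (c (d (b (a (c e))))))))))))), t false 1 (b (f (c (d (c (f (a (b (c (d (b (a (c
  e))))))))))))), t true 1 (f (c (d (c (a (b (a (f (c (d (b (a (c e)))))))))))))]

def c23_3 : List Tm := [t false 1 (d (f (c (d (c (a (b (a (f (d (b (a (c e))))))))))))), t false 1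
  (a (c (d (f (a (c (b (a (f (d (b (a (c e))))))))))))), t true 1 (a (b (c (d (f (a (c (a (f (d (b
  (a (c e))))))))))))), t false 1 (a (c (d (f (b (a (c (b (f (d (b (a (c e))))))))))))), t false 1
  (b (a (c (d (f (b (c (b (f (d (b (a (c e))))))))))))), t false 1 (d (a (c (f (a (d (c (b (a (f (b
  (a (c e))))))))))))), t true 1 (a (b (d (a (c (f (a (d (a (f (b (a (c e))))))))))))), t false 1 (d
  (a (c (f (b (a (d (c (b (f (b (a (c e))))))))))))), t false 1 (d (b (a (c (f (b (d (c (b (f (b (a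
  (c e))))))))))))), t true 1 (f (a (d (c (a (f (c (a (b (a (d (a (c e))))))))))))), t true 1 (f (c
  (a (d (a (c (f (c (b (a (d (a (c e))))))))))))), t false 1 (f (c (a (d (a (b (c (f (c (a (d (a (c
  e))))))))))))), t true 1 (b (f (c (a (d (a (b (c (f (a (d (a (c e))))))))))))), t true 1 (f (a (d
  (b (c (a (f (c (a (b (d (a (c e))))))))))))), t true 1 (c (b (f (a (d (b (a (f (a (b (d (a (c
  e))))))))))))), t false 1 (b (f (a (d (b (c (a (f (a (b (d (a (c e))))))))))))), t false 1 (f (a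
  (d (c (a (f (a (b (a (c (d (a (c e))))))))))))), t false 1 (b (f (a (d (c (a (f (a (b (c (d (a (c
  e))))))))))))), t false 1 (f (c (a (d (c (a (b (a (f (c (d (a (c e))))))))))))), t true 1 (d (f (c
  (a (d (c (a (b (a (f (d (a (c e))))))))))))), t false 1 (d (a (f (c (a (d (c (a (b (a (f (a (c
  e))))))))))))), t true 1 (d (a (c (a (d (c (f (a (b (a (f (a (c e))))))))))))), t false 1 (a (f (d
  (b (c (b (d (a (c (a (f (a (c e))))))))))))), t false 1 (a (f (b (d (a (c (b (a (d (a (f (a (c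
  e))))))))))))), t false 1 (d (a (f (c (a (d (a (b (a (c (f (a (c e))))))))))))), t false 1 (b (d
  (a (f (c (a (d (a (b (c (f (a (c e))))))))))))), t true 1 (a (f (c (d (a (b (a (d (b (c (f (a (c
  e))))))))))))), t false 1 (f (b (a (d (a (b (f (c (a (d (a (b (c e))))))))))))), t true 1 (c (f (b
  (a (d (a (b (f (a (d (a (b (c e))))))))))))), t false 1 (c (f (a (d (b (a (f (a (b (d (a (b (c
  e))))))))))))), t true 1 (a (d (b (f (a (c (a (f (b (d (a (b (c e))))))))))))), t true 1 (d (a (f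
  (b (a (d (c (a (b (f (a (b (c e))))))))))))), t false 1 (c (d (a (f (b (a (d (a (b (f (a (b (c
  e))))))))))))), t true 1 (d (b (a (f (c (a (b (d (c (f (a (b (c e))))))))))))), t false 1 (c (f (a
  (b (a (f (d (a (b (a (d (b (c e))))))))))))), t false 1 (c (a (b (f (a (d (a (f (b (a (d (b (c
  e))))))))))))), t true 1 (a (b (f (c (d (a (c (f (b (a (d (b (c e))))))))))))), t false 1 (c (a (f
  (b (a (d (b (f (a (b (d (b (c e))))))))))))), t false 1 (a (f (c (d (b (a (c (f (a (b (d (b (c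
  e))))))))))))), t false 1 (a (f (c (d (b (c (f (a (c (b (d (b (c e))))))))))))), t false 1 (c (a
  (b (f (a (d (b (a (f (b (d (b (c e))))))))))))), t false 1 (a (c (d (b (f (a (c (a (f (b (d (b (c
  e))))))))))))), t true 1 (a (b (f (c (d (b (a (c (f (b (d (b (c e))))))))))))), t true 1 (a (b (f
  (c (d (c (f (b (a (c (d (b (c e))))))))))))), t true 1 (a (b (c (d (f (a (c (b (a (f (d (b (c
  e))))))))))))), t false 1 (b (a (c (d (f (a (b (c (a (f (d (b (c e))))))))))))), t true 1 (a (b (c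
  (d (f (b (a (c (b (f (d (b (c e))))))))))))), t true 1 (d (a (b (a (d (c (f (a (b (a (f (b (c
  e))))))))))))), t false 1 (c (d (a (b (a (d (f (a (b (a (f (b (c e))))))))))))), t true 1 (a (b (d
  (a (c (f (a (d (b (a (f (b (c e))))))))))))), t true 1 (a (d (b (a (c (f (b (d (a (b (f (b (c
  e))))))))))))), t true 1 (a (d (b (c (f (b (d (a (c (b (f (b (c e))))))))))))), t true 1 (a (b (d
  (a (c (f (b (a (d (b (f (b (c e))))))))))))), t false 1 (f (c (a (b (d (c (f (c (a (b (a (d (c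
  e))))))))))))), t true 1 (a (b (f (a (c (a (f (d (a (b (a (d (c e))))))))))))), t false 1 (a (c (f
  (b (d (a (c (b (f (b (a (d (c e))))))))))))), t false 1 (a (c (f (b (d (b (f (b (a (c (a (d (c
  e))))))))))))), t false 1 (f (a (c (a (f (a (b (d (a (c (a (d (c e))))))))))))), t false 1 (b (a
  (c (f (a (d (a (f (b (c (a (d (c e))))))))))))), t true 1 (a (c (f (b (d (a (b (f (b (c (a (d (c
  e))))))))))))), t true 1 (a (c (f (b (d (b (f (a (c (a (b (d (c e))))))))))))), t true 1 (f (a (c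
  (b (d (b (a (f (c (a (b (d (c e))))))))))))), t false 1 (f (c (a (b (d (b (c (f (c (a (b (d (c
  e))))))))))))), t false 1 (a (f (a (c (b (d (b (a (f (a (b (d (c e))))))))))))), t true 2 (a (f (b
  (d (b (a (c (a (f (a (b (d (c e))))))))))))), t false 1 (a (f (b (d (a (c (a (b (f (a (b (d (c
  e))))))))))))), t false 1 (b (a (f (c (a (d (b (c (f (a (b (d (c e))))))))))))), t true 1 (a (f (c
  (a (b (d (b (c (f (a (b (d (c e))))))))))))), t true 1 (a (f (c (b (d (b (c (f (a (c (b (d (c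
  e))))))))))))), t true 1 (a (c (f (a (c (b (d (b (a (f (b (d (c e))))))))))))), t false 2 (a (c (f
  (b (d (b (a (c (a (f (b (d (c e))))))))))))), t false 1 (b (a (c (f (a (d (b (c (a (f (b (d (c
  e))))))))))))), t true 1 (a (c (f (b (d (a (c (a (b (f (b (d (c e))))))))))))), t true 1 (f (c (a
  (b (d (c (f (a (b (a (c (d (c e))))))))))))), t false 1 (a (c (f (b (d (c (b (f (b (a (c (d (c
  e))))))))))))), t false 1 (a (f (b (d (c (a (b (f (a (b (c (d (c e))))))))))))), t false 1 (b (a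
  (f (c (a (d (c (f (a (b (c (d (c e))))))))))))), t true 1 (a (f (c (a (b (d (c (f (a (b (c (d (c
  e))))))))))))), t false 1 (b (a (c (f (a (d (c (a (f (b (c (d (c e))))))))))))), t true 1 (a (c (f
  (b (d (c (a (b (f (b (c (d (c e))))))))))))), t true 1 (a (d (f (b (d (b (a (c (b (a (f (d (c
  e))))))))))))), t true 1 (a (c (d (f (b (d (b (a (c (a (f (d (c e))))))))))))), t true 1 (a (c (a
  (b (d (f (a (b (c (a (f (d (c e))))))))))))), t true 1 (d (a (b (f (c (a (d (c (a (b (a (f (c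
  e))))))))))))), t false 1 (a (b (d (a (c (a (d (f (a (b (a (f (c e))))))))))))), t true 1 (a (b (f
  (d (b (c (b (d (a (c (a (f (c e))))))))))))), t false 1 (d (a (c (a (d (a (b (f (a (c (a (f (c
  e))))))))))))), t true 1 (a (c (d (a (b (f (a (d (b (c (a (f (c e))))))))))))), t false 1 (a (d (b
  (f (c (a (b (d (a (b (c (f (c e))))))))))))), t false 1 (a (b (f (c (d (a (b (a (d (b (c (f (c
  e))))))))))))), t false 1 (d (c (f (a (b (a (f (a (c (a (b (a (d e))))))))))))), t true 1 (a (b (f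
  (a (d (c (a (f (c (a (b (a (d e))))))))))))), t false 1 (a (b (f (c (a (d (c (f (c (a (b (a (d
  e))))))))))))), t false 1 (b (f (c (a (b (d (c (f (c (a (b (a (d e))))))))))))), t true 1 (c (f (a
  (b (a (f (a (c (d (a (b (a (d e))))))))))))), t false 1 (a (b (f (a (c (a (f (c (d (a (b (a (d
  e))))))))))))), t true 1 (d (c (a (b (f (a (c (a (f (c (b (a (d e))))))))))))), t true 1 (a (b (f
  (c (a (d (a (c (f (c (b (a (d e))))))))))))), t false 1 (a (c (f (b (c (b (a (d (a (f (b (a (d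
  e))))))))))))), t true 1 (a (c (f (b (a (d (a (c (b (f (b (a (d e)))))))))))))]

def c23_4 : List Tm := [t true 1 (d (b (f (a (c (a (f (a (b (a (c (a (d e))))))))))))), t false 1 (b
  (a (c (f (b (d (b (f (b (a (c (a (d e))))))))))))), t false 1 (b (f (a (c (a (f (a (b (d (a (c (a
  (d e))))))))))))), t false 1 (d (f (b (a (c (a (b (f (a (b (c (a (d e))))))))))))), t false 1 (d
  (b (a (c (f (a (b (a (f (b (c (a (d e))))))))))))), t false 1 (a (c (f (b (a (d (a (b (f (b (c (a
  (d e))))))))))))), t true 1 (a (b (f (b (c (b (a (d (a (f (c (a (d e))))))))))))), t false 1 (a (b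
  (f (c (a (d (a (b (c (f (c (a (d e))))))))))))), t false 1 (f (a (c (b (a (f (d (b (a (c (a (b (d
  e))))))))))))), t false 1 (f (b (a (c (b (f (d (b (a (c (a (b (d e))))))))))))), t true 1 (d (f (a
  (c (b (a (f (b (a (c (a (b (d e))))))))))))), t true 1 (d (f (b (a (c (b (f (b (a (c (a (b (d
  e))))))))))))), t false 1 (d (a (c (f (a (b (a (f (a (c (a (b (d e))))))))))))), t true 1 (b (a (c
  (f (b (d (b (f (a (c (a (b (d e))))))))))))), t false 1 (d (f (b (a (c (a (b (f (b (c (a (b (d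
  e))))))))))))), t true 1 (b (f (a (c (b (d (b (a (f (c (a (b (d e))))))))))))), t true 1 (a (b (f
  (a (d (b (c (a (f (c (a (b (d e))))))))))))), t false 1 (a (b (f (c (a (d (b (c (f (c (a (b (d
  e))))))))))))), t false 1 (b (f (c (a (b (d (b (c (f (c (a (b (d e))))))))))))), t true 1 (a (f (b
  (c (b (a (d (b (a (f (a (b (d e))))))))))))), t false 1 (b (a (f (a (c (b (d (b (a (f (a (b (d
  e))))))))))))), t false 2 (a (f (b (a (d (b (a (c (a (f (a (b (d e))))))))))))), t true 1 (a (f (b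
  (a (d (a (c (a (b (f (a (b (d e))))))))))))), t true 1 (b (a (f (c (a (b (d (b (c (f (a (b (d
  e))))))))))))), t true 1 (d (c (a (f (b (a (c (b (f (a (c (b (d e))))))))))))), t false 1 (a (f (c
  (a (d (b (a (c (f (a (c (b (d e))))))))))))), t false 1 (a (f (c (b (a (d (b (c (f (a (c (b (d
  e))))))))))))), t true 1 (d (c (a (b (f (a (c (b (a (f (c (b (d e))))))))))))), t false 1 (a (c (a
  (d (b (f (a (c (a (f (c (b (d e))))))))))))), t false 1 (a (c (b (f (a (d (b (c (a (f (c (b (d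
  e))))))))))))), t true 1 (a (b (f (c (a (d (b (a (c (f (c (b (d e))))))))))))), t true 1 (a (b (f
  (c (b (a (d (b (c (f (c (b (d e))))))))))))), t false 1 (a (c (f (b (c (b (a (d (b (a (f (b (d
  e))))))))))))), t true 2 (a (c (f (b (a (d (b (a (c (a (f (b (d e))))))))))))), t false 1 (a (c (f
  (b (a (d (a (c (a (b (f (b (d e))))))))))))), t true 1 (f (a (b (c (a (f (d (c (a (b (a (c (d
  e))))))))))))), t true 1 (d (f (b (c (a (b (f (c (a (b (a (c (d e))))))))))))), t true 1 (d (a (b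
  (f (a (c (a (f (a (b (a (c (d e))))))))))))), t false 1 (a (b (f (a (d (c (a (f (a (b (a (c (d
  e))))))))))))), t true 1 (a (b (f (c (a (d (c (f (a (b (a (c (d e))))))))))))), t true 1 (b (f (c
  (a (b (d (c (f (a (b (a (c (d e))))))))))))), t false 1 (a (c (f (a (d (c (b (a (f (b (a (c (d
  e))))))))))))), t true 1 (a (b (c (f (a (d (c (a (f (b (a (c (d e))))))))))))), t false 1 (b (a (c
  (f (b (d (c (b (f (b (a (c (d e))))))))))))), t false 1 (a (f (c (a (d (c (a (b (a (f (a (c (d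
  e))))))))))))), t true 1 (a (c (a (d (c (f (a (b (a (f (a (c (d e))))))))))))), t false 1 (a (f (b
  (c (b (a (d (c (a (f (a (c (d e))))))))))))), t false 1 (a (f (c (a (d (a (b (a (c (f (a (c (d
  e))))))))))))), t false 1 (d (a (f (b (a (c (a (b (f (a (b (c (d e))))))))))))), t true 1 (a (f (b
  (a (d (c (a (b (f (a (b (c (d e))))))))))))), t true 1 (b (a (f (c (a (b (d (c (f (a (b (c (d
  e))))))))))))), t false 1 (d (a (b (a (c (f (a (b (a (f (b (c (d e))))))))))))), t true 1 (a (b (c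
  (f (a (d (c (b (a (f (b (c (d e))))))))))))), t false 1 (a (c (f (b (a (d (c (a (b (f (b (c (d
  e))))))))))))), t true 1 (a (b (c (f (b (a (d (c (b (f (b (c (d e))))))))))))), t false 1 (a (b (c
  (a (d (c (f (a (b (a (f (c (d e))))))))))))), t false 1 (a (c (a (d (a (b (f (a (c (a (f (c (d
  e))))))))))))), t true 1 (a (b (f (b (c (b (a (d (c (a (f (c (d e))))))))))))), t true 1 (a (b (f
  (c (a (d (a (b (a (c (f (c (d e))))))))))))), t true 1 (a (d (f (c (a (d (b (c (a (b (a (f (d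
  e))))))))))))), t false 1 (a (d (f (b (a (d (b (a (c (b (a (f (d e))))))))))))), t false 1 (c (a
  (b (a (c (d (f (a (c (b (a (f (d e))))))))))))), t false 1 (a (c (d (f (b (a (d (b (a (c (a (f (d
  e))))))))))))), t true 1 (b (a (c (a (b (d (f (a (b (c (a (f (d e))))))))))))), t false 1 (c (a (b
  (a (c (d (f (b (a (c (b (f (d e))))))))))))), t false 1 (f (c (d (a (b (a (d (a (c (a (b (a (f
  e))))))))))))), t false 1 (a (d (a (f (c (a (d (b (c (a (b (a (f e))))))))))))), t false 1 (f (a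
  (b (d (a (c (a (d (c (a (b (a (f e))))))))))))), t true 1 (a (b (d (a (f (c (a (d (c (a (b (a (f
  e))))))))))))), t true 1 (b (d (a (b (f (c (a (d (c (a (b (a (f e))))))))))))), t true 1 (a (c (a
  (f (d (b (c (b (d (a (b (a (f e))))))))))))), t true 1 (c (d (a (b (a (d (a (c (f (a (b (a (f
  e))))))))))))), t true 1 (a (b (d (a (c (a (d (c (f (a (b (a (f e))))))))))))), t true 1 (a (d (a
  (f (b (a (d (b (a (c (b (a (f e))))))))))))), t true 1 (f (d (c (a (b (a (c (d (a (c (b (a (f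
  e))))))))))))), t false 1 (d (c (a (b (a (c (d (f (a (c (b (a (f e))))))))))))), t true 1 (f (c (a
  (b (d (a (c (a (d (c (b (a (f e))))))))))))), t false 1 (c (a (b (d (a (c (f (a (d (c (b (a (f
  e))))))))))))), t true 1 (a (c (d (a (f (b (c (b (a (d (b (a (f e))))))))))))), t false 1 (a (c (d
  (b (a (f (a (c (b (d (b (a (f e))))))))))))), t true 1 (f (b (d (a (c (a (d (a (b (a (c (a (f
  e))))))))))))), t true 1 (f (a (c (d (a (b (a (d (b (a (c (a (f e))))))))))))), t true 1 (c (d (a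
  (c (f (b (a (d (b (a (c (a (f e))))))))))))), t false 1 (a (b (a (f (d (b (c (b (d (a (c (a (f
  e))))))))))))), t false 1 (b (d (a (c (a (d (a (b (f (a (c (a (f e))))))))))))), t false 1 (f (d
  (b (a (c (a (b (d (a (b (c (a (f e))))))))))))), t true 1 (d (b (a (c (a (b (d (f (a (b (c (a (f
  e))))))))))))), t false 1 (f (b (a (c (d (a (b (a (d (b (c (a (f e))))))))))))), t true 1 (b (a (c
  (d (a (b (f (a (d (b (c (a (f e))))))))))))), t false 1 (a (b (d (a (f (b (c (b (a (d (c (a (f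
  e))))))))))))), t true 1 (f (d (a (c (b (a (d (b (a (c (a (b (f e))))))))))))), t false 1 (d (a (c
  (b (a (d (f (b (a (c (a (b (f e))))))))))))), t false 1 (f (a (c (d (a (b (a (d (a (c (a (b (f
  e))))))))))))), t true 1 (a (c (d (a (f (b (a (d (a (c (a (b (f e))))))))))))), t true 1 (f (d (c
  (a (b (a (c (d (b (a (c (b (f e))))))))))))), t false 1 (d (c (a (b (a (c (d (f (b (a (c (b (f
  e))))))))))))), t true 1 (f (c (a (d (b (a (c (b (d (a (c (b (f e))))))))))))), t false 1 (c (a (d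
  (b (a (c (f (b (d (a (c (b (f e))))))))))))), t true 1 (f (c (a (b (d (a (c (b (a (d (c (b (f
  e))))))))))))), t false 1 (c (a (b (d (a (c (f (b (a (d (c (b (f e)))))))))))))]

def c23_5 : List Tm := [t false 1 (f (d (a (b (c (a (d (c (a (b (a (c (f e))))))))))))), t true 1 (d
  (a (b (c (a (d (f (c (a (b (a (c (f e))))))))))))), t true 1 (f (a (b (d (a (c (a (d (a (b (a (c
  (f e))))))))))))), t false 1 (a (b (d (a (f (c (a (d (a (b (a (c (f e))))))))))))), t false 1 (f
  (a (d (b (a (c (a (b (d (a (b (c (f e))))))))))))), t true 1 (a (d (b (a (f (c (a (b (d (a (b (c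
  (f e))))))))))))), t false 1 (f (a (b (a (c (d (a (b (a (d (b (c (f e))))))))))))), t true 1 (a (b
  (a (f (c (d (a (b (a (d (b (c (f e)))))))))))))]

def c23 : List (List Tm) := [c23_0, c23_1, c23_2, c23_3, c23_4, c23_5]

def c24_0 : List Tm := [t false 1 (c (f (a (b (a (f (a (d (a (c (a (b (a e))))))))))))), t false 1
  (f (b (c (a (b (f (c (d (a (c (a (b (a e))))))))))))), t false 1 (f (b (c (b (f (c (d (a (b (c (a
  (b (a e))))))))))))), t false 1 (c (b (f (a (d (a (f (d (b (c (a (b (a e))))))))))))), t true 1 (c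
  (d (f (a (b (a (f (a (d (c (a (b (a e))))))))))))), t false 1 (c (a (b (f (a (d (a (f (d (c (a (b
  (a e))))))))))))), t false 1 (d (c (f (a (b (a (f (c (a (d (a (b (a e))))))))))))), t false 1 (d
  (f (c (a (b (a (c (f (a (d (a (b (a e))))))))))))), t true 1 (d (f (b (c (a (b (f (a (c (d (a (b
  (a e))))))))))))), t false 1 (b (c (f (b (d (a (b (f (c (d (a (b (a e))))))))))))), t true 1 (c (a
  (b (f (a (c (d (a (f (d (a (b (a e))))))))))))), t true 1 (d (f (a (b (c (a (f (c (d (a (c (b (a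
  e))))))))))))), t true 2 (d (f (b (c (a (b (f (c (d (a (c (b (a e))))))))))))), t true 2 (d (f (b
  (c (b (f (c (d (a (b (c (b (a e))))))))))))), t false 1 (f (b (a (d (c (b (f (a (d (b (c (b (a
  e))))))))))))), t false 1 (f (c (b (a (d (c (f (a (d (b (c (b (a e))))))))))))), t false 2 (a (d
  (f (b (c (b (f (c (d (b (c (b (a e))))))))))))), t false 1 (b (f (a (d (c (b (a (f (d (b (c (b (a
  e))))))))))))), t false 1 (c (b (f (a (d (c (a (f (d (b (c (b (a e))))))))))))), t false 1 (b (f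
  (c (d (c (f (a (b (a (d (c (b (a e))))))))))))), t true 1 (f (c (d (c (a (b (a (f (a (d (c (b (a
  e))))))))))))), t true 1 (c (d (c (f (a (b (a (f (a (d (c (b (a e))))))))))))), t false 1 (f (c (d
  (b (c (f (a (b (c (d (c (b (a e))))))))))))), t true 1 (a (f (c (d (b (c (f (b (c (d (c (b (a
  e))))))))))))), t true 1 (b (c (d (f (a (b (a (f (c (d (c (b (a e))))))))))))), t false 1 (c (d (f
  (a (b (c (a (f (c (d (c (b (a e))))))))))))), t false 2 (c (d (f (b (c (a (b (f (c (d (c (b (a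
  e))))))))))))), t true 2 (a (c (d (f (b (c (b (f (c (d (c (b (a e))))))))))))), t false 1 (b (f (c
  (d (c (a (b (a (f (d (c (b (a e))))))))))))), t false 1 (b (c (d (c (f (a (b (a (f (d (c (b (a
  e))))))))))))), t true 1 (d (c (a (b (f (a (d (a (f (d (c (b (a e))))))))))))), t true 1 (b (c (f
  (c (d (c (a (b (a (f (c (b (a e))))))))))))), t true 1 (b (c (f (d (c (a (b (a (d (f (c (b (a
  e))))))))))))), t true 2 (f (a (c (a (f (b (a (c (b (a (d (b (a e))))))))))))), t true 1 (b (f (a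
  (c (a (f (a (c (b (a (d (b (a e))))))))))))), t true 1 (a (c (f (a (b (a (f (c (b (a (d (b (a
  e))))))))))))), t true 1 (a (b (f (a (c (a (f (a (c (a (d (b (a e))))))))))))), t false 1 (f (c (d
  (a (b (a (d (c (f (a (d (b (a e))))))))))))), t false 2 (f (b (a (c (a (b (f (a (c (b (d (b (a
  e))))))))))))), t true 2 (f (a (c (b (a (f (a (b (c (b (d (b (a e))))))))))))), t false 2 (b (f (a
  (c (b (a (f (b (c (b (d (b (a e))))))))))))), t false 1 (b (a (c (f (a (b (a (f (c (b (d (b (a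
  e))))))))))))), t false 2 (f (a (b (c (b (a (f (a (b (c (d (b (a e))))))))))))), t true 1 (d (b (c
  (f (b (d (a (b (f (c (d (b (a e))))))))))))), t false 1 (a (d (b (c (f (b (d (b (f (c (d (b (a
  e))))))))))))), t false 1 (c (d (a (b (f (a (d (c (a (f (d (b (a e))))))))))))), t false 1 (d (a
  (b (f (c (a (d (a (c (f (d (b (a e))))))))))))), t true 1 (d (b (f (c (b (d (a (b (c (f (d (b (a
  e))))))))))))), t false 1 (a (d (b (f (c (b (d (b (c (f (d (b (a e))))))))))))), t true 1 (b (f (c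
  (d (a (b (a (d (c (f (d (b (a e))))))))))))), t true 1 (c (a (b (f (d (a (c (a (d (f (d (b (a
  e))))))))))))), t false 1 (b (a (c (a (d (f (a (c (b (a (f (b (a e))))))))))))), t false 1 (a (b
  (a (c (a (d (f (a (c (a (f (b (a e))))))))))))), t true 1 (b (a (c (a (d (f (b (a (c (b (f (b (a
  e))))))))))))), t false 1 (b (a (c (b (a (d (f (b (c (b (f (b (a e))))))))))))), t true 2 (b (c (d
  (f (c (a (b (a (d (c (f (b (a e))))))))))))), t false 3 (b (f (a (d (a (f (d (c (a (b (a (c (a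
  e))))))))))))), t true 1 (b (f (a (c (d (a (f (d (a (b (a (c (a e))))))))))))), t true 2 (b (a (c
  (f (a (d (a (f (a (b (a (c (a e))))))))))))), t false 2 (f (b (a (c (a (b (f (b (d (b (a (c (a
  e))))))))))))), t false 3 (f (a (b (c (a (f (b (c (d (b (a (c (a e))))))))))))), t true 1 (b (f (d
  (a (c (a (d (f (d (b (a (c (a e))))))))))))), t true 1 (d (f (b (a (c (b (f (b (a (d (a (c (a
  e))))))))))))), t true 1 (f (b (d (b (f (d (a (c (a (d (a (c (a e))))))))))))), t false 1 (a (f (b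
  (a (d (b (f (c (a (d (a (c (a e))))))))))))), t false 2 (d (f (b (a (c (a (b (f (b (d (a (c (a
  e))))))))))))), t true 1 (d (f (b (c (b (f (b (a (c (d (a (c (a e))))))))))))), t false 1 (d (f (b
  (c (a (b (f (b (c (d (a (c (a e))))))))))))), t true 1 (b (c (a (f (b (d (b (f (c (d (a (c (a
  e))))))))))))), t false 3 (b (f (a (c (b (d (b (a (f (d (a (c (a e))))))))))))), t false 1 (b (f
  (b (d (b (a (c (a (f (d (a (c (a e))))))))))))), t false 1 (a (b (f (a (d (b (c (a (f (d (a (c (a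
  e))))))))))))), t true 1 (b (f (a (c (a (b (d (b (f (d (a (c (a e))))))))))))), t false 1 (b (f (c
  (b (d (b (a (c (f (d (a (c (a e))))))))))))), t true 1 (b (f (c (a (b (d (b (c (f (d (a (c (a
  e))))))))))))), t false 1 (b (f (d (b (a (c (a (d (f (d (a (c (a e))))))))))))), t true 2 (b (a (c
  (b (f (a (d (b (a (f (a (c (a e))))))))))))), t false 1 (f (a (b (d (a (b (c (a (b (f (a (c (a
  e))))))))))))), t false 1 (d (f (a (c (b (a (f (a (d (a (b (c (a e))))))))))))), t false 2 (d (f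
  (b (a (c (b (f (a (d (a (b (c (a e))))))))))))), t true 1 (d (f (a (c (a (f (a (b (d (a (b (c (a
  e))))))))))))), t false 2 (d (f (b (c (b (f (a (c (d (a (b (c (a e))))))))))))), t true 1 (d (b (f
  (a (c (b (a (f (d (a (b (c (a e))))))))))))), t true 3 (b (f (a (c (b (d (a (f (d (a (b (c (a
  e))))))))))))), t false 1 (f (b (d (b (a (c (b (a (f (a (b (c (a e))))))))))))), t true 1 (b (d (b
  (f (a (c (b (a (f (a (b (c (a e))))))))))))), t false 4 (f (b (a (c (b (a (d (a (f (a (b (c (a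
  e))))))))))))), t false 1 (f (a (c (a (b (d (a (b (f (a (b (c (a e))))))))))))), t false 1 (b (f
  (a (c (a (f (a (b (a (d (b (c (a e))))))))))))), t false 1 (f (d (a (c (b (a (d (f (a (d (b (c (a
  e))))))))))))), t true 2 (f (b (a (c (a (b (f (a (b (d (b (c (a e))))))))))))), t false 2 (f (a (b
  (c (b (a (f (a (c (d (b (c (a e))))))))))))), t true 3 (f (a (b (c (a (f (a (b (c (d (b (c (a
  e))))))))))))), t false 1 (d (a (c (b (f (a (d (a (f (d (b (c (a e))))))))))))), t true 1 (d (b (f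
  (c (b (d (a (c (f (d (b (c (a e))))))))))))), t false 1 (a (d (b (f (c (b (d (c (f (d (b (c (a
  e))))))))))))), t true 1 (b (f (d (a (c (b (a (d (f (d (b (c (a e))))))))))))), t false 1 (b (f (a
  (c (d (a (f (a (b (a (d (c (a e))))))))))))), t false 1 (f (c (d (c (f (b (a (c (b (a (d (c (a
  e))))))))))))), t true 1 (b (f (c (d (c (f (a (c (b (a (d (c (a e)))))))))))))]

def c24_1 : List Tm := [t true 1 (a (c (d (f (a (b (a (f (b (a (d (c (a e))))))))))))), t true 1 (c
  (d (f (a (c (b (a (f (b (a (d (c (a e))))))))))))), t false 2 (b (c (d (f (a (c (a (f (b (a (d (c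
  (a e))))))))))))), t false 1 (c (d (f (b (a (c (b (f (b (a (d (c (a e))))))))))))), t true 1 (c (a
  (f (b (a (d (b (f (c (a (d (c (a e))))))))))))), t false 1 (f (c (d (a (c (a (b (a (f (a (d (c (a
  e))))))))))))), t false 1 (c (d (a (c (f (a (b (a (f (a (d (c (a e))))))))))))), t true 1 (b (c (d
  (b (f (a (c (a (f (a (d (c (a e))))))))))))), t false 1 (f (d (a (c (a (b (a (d (f (a (d (c (a
  e))))))))))))), t true 1 (b (f (c (d (c (f (b (a (c (b (d (c (a e))))))))))))), t false 1 (a (b (f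
  (c (d (c (f (b (c (b (d (c (a e))))))))))))), t false 1 (b (a (c (d (f (a (b (a (f (b (d (c (a
  e))))))))))))), t false 1 (b (c (d (f (a (c (b (a (f (b (d (c (a e))))))))))))), t true 2 (c (d (f
  (b (a (c (a (b (f (b (d (c (a e))))))))))))), t false 1 (b (c (d (f (b (a (c (b (f (b (d (c (a
  e))))))))))))), t true 1 (a (b (c (d (f (b (c (b (f (b (d (c (a e))))))))))))), t false 1 (c (d (f
  (b (c (b (f (b (a (c (d (c (a e))))))))))))), t false 2 (f (a (b (c (d (b (a (f (a (c (d (c (a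
  e))))))))))))), t true 2 (f (a (b (c (d (a (f (a (b (c (d (c (a e))))))))))))), t false 1 (b (c (d
  (f (a (b (a (f (b (c (d (c (a e))))))))))))), t true 1 (c (d (f (b (c (a (b (f (b (c (d (c (a
  e))))))))))))), t false 1 (b (c (a (f (b (a (d (b (f (c (d (c (a e))))))))))))), t true 1 (b (f (c
  (d (a (c (a (b (a (f (d (c (a e))))))))))))), t true 1 (b (c (d (a (c (f (a (b (a (f (d (c (a
  e))))))))))))), t false 1 (d (a (c (a (b (f (a (d (a (f (d (c (a e))))))))))))), t true 1 (b (f (d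
  (a (c (a (b (a (d (f (d (c (a e))))))))))))), t false 1 (b (c (f (c (d (a (c (a (b (a (f (c (a
  e))))))))))))), t true 2 (d (c (f (b (a (c (b (a (d (a (f (c (a e))))))))))))), t true 1 (c (f (a
  (b (d (a (b (c (a (b (f (c (a e))))))))))))), t true 1 (d (b (a (c (f (b (a (d (a (b (f (c (a
  e))))))))))))), t false 1 (b (c (f (d (a (c (a (b (a (d (f (c (a e))))))))))))), t false 1 (b (c
  (f (a (d (a (f (c (a (b (a (d (a e))))))))))))), t false 1 (b (f (c (a (d (a (c (f (a (b (a (d (a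
  e))))))))))))), t true 1 (f (c (a (d (c (f (b (a (c (b (a (d (a e))))))))))))), t false 1 (b (f (c
  (a (d (c (f (a (c (b (a (d (a e))))))))))))), t false 1 (f (b (a (d (c (b (f (b (c (b (a (d (a
  e))))))))))))), t true 1 (c (f (a (d (c (b (a (f (c (b (a (d (a e))))))))))))), t false 1 (b (c (f
  (a (d (c (a (f (c (b (a (d (a e))))))))))))), t true 1 (c (f (b (a (d (c (b (f (c (b (a (d (a
  e))))))))))))), t false 1 (c (a (d (f (a (c (b (a (f (b (a (d (a e))))))))))))), t true 2 (b (c (a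
  (d (f (a (c (a (f (b (a (d (a e))))))))))))), t true 1 (c (a (d (f (b (a (c (b (f (b (a (d (a
  e))))))))))))), t true 1 (a (d (f (c (a (b (a (c (f (b (a (d (a e))))))))))))), t false 2 (f (a (d
  (a (f (c (a (b (a (c (a (d (a e))))))))))))), t true 2 (c (f (a (d (a (f (a (b (a (c (a (d (a
  e))))))))))))), t true 1 (c (a (f (b (d (b (f (d (a (c (a (d (a e))))))))))))), t true 2 (c (b (f
  (a (d (b (a (f (a (c (a (d (a e))))))))))))), t true 1 (c (a (d (f (a (b (a (f (b (c (a (d (a
  e))))))))))))), t true 1 (a (d (f (b (a (c (b (f (b (c (a (d (a e))))))))))))), t true 1 (b (a (d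
  (f (b (c (b (f (b (c (a (d (a e))))))))))))), t true 1 (f (c (a (d (a (c (a (b (a (f (a (d (a
  e))))))))))))), t true 1 (f (b (c (a (d (b (a (c (a (f (a (d (a e))))))))))))), t false 1 (b (c (a
  (d (b (f (a (c (a (f (a (d (a e))))))))))))), t true 1 (f (b (c (b (a (d (b (c (a (f (a (d (a
  e))))))))))))), t false 1 (f (a (b (c (b (d (b (c (a (f (a (d (a e))))))))))))), t true 1 (f (a (d
  (c (a (b (a (c (b (f (a (d (a e))))))))))))), t true 1 (c (b (f (a (d (a (f (b (c (a (b (d (a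
  e))))))))))))), t true 1 (c (f (b (a (d (a (b (f (c (a (b (d (a e))))))))))))), t false 1 (b (f (c
  (a (d (c (f (b (a (c (b (d (a e))))))))))))), t true 1 (f (b (a (d (c (b (f (a (b (c (b (d (a
  e))))))))))))), t true 1 (f (c (b (a (d (c (f (a (b (c (b (d (a e))))))))))))), t true 1 (f (b (d
  (c (b (f (a (d (b (c (b (d (a e))))))))))))), t true 1 (f (c (b (d (c (f (a (d (b (c (b (d (a
  e))))))))))))), t false 1 (a (f (b (d (c (b (f (d (b (c (b (d (a e))))))))))))), t false 1 (a (f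
  (c (b (d (c (f (d (b (c (b (d (a e))))))))))))), t true 1 (b (f (a (d (c (b (a (f (b (c (b (d (a
  e))))))))))))), t true 1 (c (b (f (a (d (c (a (f (b (c (b (d (a e))))))))))))), t false 1 (b (f (c
  (b (a (d (c (f (b (c (b (d (a e))))))))))))), t true 1 (a (b (f (c (b (d (c (f (b (c (b (d (a
  e))))))))))))), t false 1 (b (a (d (c (f (a (b (a (f (c (b (d (a e))))))))))))), t false 1 (b (c
  (f (a (d (c (b (a (f (c (b (d (a e))))))))))))), t false 1 (b (c (f (b (a (d (c (b (f (c (b (d (a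
  e))))))))))))), t true 1 (a (b (c (f (b (d (c (b (f (c (b (d (a e))))))))))))), t true 1 (b (c (a
  (d (f (a (c (b (a (f (b (d (a e))))))))))))), t false 2 (c (a (d (f (b (a (c (a (b (f (b (d (a
  e))))))))))))), t false 1 (c (b (a (d (f (b (c (a (b (f (b (d (a e))))))))))))), t true 1 (b (c (a
  (d (f (b (a (c (b (f (b (d (a e))))))))))))), t true 1 (b (c (b (a (d (f (b (c (b (f (b (d (a
  e))))))))))))), t false 1 (a (b (c (b (d (f (b (c (b (f (b (d (a e))))))))))))), t false 1 (b (a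
  (d (f (c (a (b (a (c (f (b (d (a e))))))))))))), t true 3 (b (f (a (d (a (f (c (a (b (a (c (d (a
  e))))))))))))), t false 2 (b (c (f (a (d (a (f (a (b (a (c (d (a e))))))))))))), t false 1 (a (d
  (f (a (b (c (a (f (b (a (c (d (a e))))))))))))), t false 1 (a (d (f (b (c (a (b (f (b (a (c (d (a
  e))))))))))))), t true 1 (c (a (d (f (b (c (b (f (b (a (c (d (a e))))))))))))), t false 1 (f (b (c
  (b (a (d (b (a (f (a (c (d (a e))))))))))))), t false 2 (b (c (b (f (a (d (b (a (f (a (c (d (a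
  e))))))))))))), t true 1 (f (a (b (c (b (d (b (a (f (a (c (d (a e))))))))))))), t true 1 (f (b (a
  (d (b (a (c (a (f (a (c (d (a e))))))))))))), t false 2 (f (a (d (a (b (c (a (b (f (a (c (d (a
  e))))))))))))), t false 4 (f (a (d (b (c (b (a (f (a (b (c (d (a e))))))))))))), t true 4 (f (b (c
  (b (a (d (a (f (a (b (c (d (a e))))))))))))), t false 1 (b (a (d (f (a (c (b (a (f (b (c (d (a
  e))))))))))))), t true 1 (a (d (f (a (b (c (b (a (f (b (c (d (a e))))))))))))), t true 1 (d (f (a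
  (d (b (c (b (a (f (b (c (d (a e))))))))))))), t false 2 (c (b (a (d (f (a (c (a (f (b (c (d (a
  e))))))))))))), t false 2 (d (f (b (c (b (a (d (a (f (b (c (d (a e))))))))))))), t false 1 (c (a
  (d (f (b (c (a (b (f (b (c (d (a e))))))))))))), t false 1 (b (a (d (f (b (a (c (b (f (b (c (d (a
  e))))))))))))), t true 1 (b (a (d (a (c (f (a (b (a (f (c (d (a e)))))))))))))]

def c24_2 : List Tm := [t true 2 (c (f (b (c (b (a (d (b (a (f (c (d (a e))))))))))))), t false 2 (a
  (b (c (f (a (b (d (b (a (f (c (d (a e))))))))))))), t false 2 (c (f (a (b (c (b (d (b (a (f (c (d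
  (a e))))))))))))), t false 3 (c (f (b (a (d (b (a (c (a (f (c (d (a e))))))))))))), t true 2 (c (b
  (a (d (b (f (a (c (a (f (c (d (a e))))))))))))), t true 1 (c (f (a (d (a (b (c (a (b (f (c (d (a
  e))))))))))))), t false 1 (d (b (c (f (b (a (d (a (b (f (c (d (a e))))))))))))), t false 1 (b (f
  (c (a (d (a (c (a (b (a (f (d (a e))))))))))))), t true 1 (a (d (c (a (b (f (a (c (b (a (f (d (a
  e))))))))))))), t false 1 (c (a (b (f (a (c (b (d (b (a (f (d (a e))))))))))))), t true 1 (c (b (f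
  (b (a (d (b (a (c (a (f (d (a e))))))))))))), t false 1 (b (f (b (c (a (d (b (a (c (a (f (d (a
  e))))))))))))), t false 1 (c (a (b (f (b (d (b (a (c (a (f (d (a e))))))))))))), t false 1 (b (f
  (b (c (b (a (d (b (c (a (f (d (a e))))))))))))), t true 1 (a (b (f (a (c (b (d (b (c (a (f (d (a
  e))))))))))))), t true 1 (b (f (a (b (c (b (d (b (c (a (f (d (a e))))))))))))), t false 1 (b (f (a
  (d (c (a (b (a (c (b (f (d (a e))))))))))))), t true 1 (c (a (b (f (a (c (a (b (d (b (f (d (a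
  e))))))))))))), t true 1 (a (b (f (c (a (b (d (b (a (c (f (d (a e))))))))))))), t true 1 (d (a (b
  (f (c (a (b (d (a (c (f (d (a e))))))))))))), t false 1 (c (a (b (f (d (b (a (c (a (d (f (d (a
  e))))))))))))), t true 1 (b (a (c (a (d (a (c (f (a (b (a (f (a e))))))))))))), t false 1 (d (c (b
  (a (f (a (d (b (c (b (a (f (a e))))))))))))), t false 2 (d (c (a (f (b (a (c (b (a (d (a (f (a
  e))))))))))))), t false 1 (c (a (f (a (b (d (a (b (c (a (b (f (a e))))))))))))), t true 2 (b (c (d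
  (c (a (f (b (a (d (c (b (f (a e))))))))))))), t true 1 (d (b (a (f (c (b (a (d (a (b (c (f (a
  e))))))))))))), t false 1 (b (c (d (a (f (c (a (b (a (d (c (f (a e))))))))))))), t true 1 (f (a (c
  (b (a (f (b (a (d (a (c (a (b e))))))))))))), t true 1 (f (b (a (c (b (f (b (a (d (a (c (a (b
  e))))))))))))), t false 1 (a (c (f (a (b (a (f (a (d (a (c (a (b e))))))))))))), t true 1 (f (b (c
  (b (f (b (a (c (d (a (c (a (b e))))))))))))), t false 1 (f (b (c (a (b (f (b (c (d (a (c (a (b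
  e))))))))))))), t true 1 (c (b (d (f (a (c (b (a (f (a (c (a (b e))))))))))))), t false 1 (f (a (c
  (b (a (f (a (d (a (b (c (a (b e))))))))))))), t false 1 (f (b (a (c (b (f (a (d (a (b (c (a (b
  e))))))))))))), t false 1 (f (b (c (b (f (a (c (d (a (b (c (a (b e))))))))))))), t false 1 (b (d
  (f (a (c (b (a (f (a (b (c (a (b e))))))))))))), t false 1 (c (b (d (f (a (c (a (f (a (b (c (a (b
  e))))))))))))), t false 1 (d (f (b (a (c (b (f (a (d (b (c (a (b e))))))))))))), t true 1 (d (f (a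
  (c (a (f (a (b (d (b (c (a (b e))))))))))))), t false 1 (d (f (b (c (b (f (a (c (d (b (c (a (b
  e))))))))))))), t true 1 (d (b (f (a (c (b (a (f (d (b (c (a (b e))))))))))))), t false 1 (a (c (b
  (f (a (d (a (f (d (b (c (a (b e))))))))))))), t true 2 (b (f (a (c (b (d (a (f (d (b (c (a (b
  e))))))))))))), t false 1 (f (b (d (b (a (c (b (a (f (b (c (a (b e))))))))))))), t true 1 (b (d (b
  (f (a (c (b (a (f (b (c (a (b e))))))))))))), t false 4 (f (b (a (c (b (a (d (a (f (b (c (a (b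
  e))))))))))))), t false 1 (f (a (c (a (b (d (a (b (f (b (c (a (b e))))))))))))), t true 1 (f (c (d
  (c (f (b (a (c (a (d (c (a (b e))))))))))))), t false 1 (b (f (c (d (c (f (a (c (a (d (c (a (b
  e))))))))))))), t false 1 (a (c (d (f (a (b (a (f (a (d (c (a (b e))))))))))))), t true 1 (b (c (d
  (f (a (c (a (f (a (d (c (a (b e))))))))))))), t true 1 (c (d (f (b (a (c (b (f (a (d (c (a (b
  e))))))))))))), t false 1 (c (d (f (a (c (a (f (a (b (d (c (a (b e))))))))))))), t true 1 (c (d (f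
  (b (c (b (f (a (c (d (c (a (b e))))))))))))), t false 1 (c (d (b (f (a (c (b (a (f (d (c (a (b
  e))))))))))))), t false 1 (a (c (a (b (f (a (d (a (f (d (c (a (b e))))))))))))), t true 1 (c (f (b
  (d (b (a (c (b (a (f (c (a (b e))))))))))))), t false 1 (c (b (d (b (f (a (c (b (a (f (c (a (b
  e))))))))))))), t true 2 (c (f (b (a (c (b (a (d (a (f (c (a (b e))))))))))))), t true 1 (b (a (c
  (f (b (a (d (a (b (f (c (a (b e))))))))))))), t true 1 (c (f (a (c (a (b (d (a (b (f (c (a (b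
  e))))))))))))), t true 1 (d (b (a (c (f (b (a (d (b (f (c (a (b e))))))))))))), t false 1 (c (f (a
  (d (b (a (f (c (b (a (d (a (b e))))))))))))), t false 1 (c (f (b (a (d (b (f (c (b (a (d (a (b
  e))))))))))))), t false 1 (f (c (a (d (c (f (b (a (c (a (d (a (b e))))))))))))), t true 1 (b (f (c
  (a (d (c (f (a (c (a (d (a (b e))))))))))))), t true 1 (f (a (d (c (b (a (f (b (c (a (d (a (b
  e))))))))))))), t true 1 (f (b (a (d (c (b (f (b (c (a (d (a (b e))))))))))))), t false 1 (a (d (c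
  (f (a (b (a (f (c (a (d (a (b e))))))))))))), t false 1 (c (f (a (d (c (b (a (f (c (a (d (a (b
  e))))))))))))), t true 1 (b (c (f (a (d (c (a (f (c (a (d (a (b e))))))))))))), t false 1 (c (f (b
  (a (d (c (b (f (c (a (d (a (b e))))))))))))), t false 1 (b (c (a (d (f (a (c (a (f (a (d (a (b
  e))))))))))))), t false 1 (c (a (d (f (b (a (c (b (f (a (d (a (b e))))))))))))), t false 1 (a (d
  (f (c (a (b (a (c (f (a (d (a (b e))))))))))))), t true 1 (c (a (d (f (a (c (a (f (a (b (d (a (b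
  e))))))))))))), t true 1 (c (f (b (a (d (a (b (f (c (b (d (a (b e))))))))))))), t true 1 (a (d (f
  (b (c (a (b (f (a (c (d (a (b e))))))))))))), t false 1 (c (a (d (f (b (c (b (f (a (c (d (a (b
  e))))))))))))), t false 4 (f (a (d (b (c (b (a (f (b (c (d (a (b e))))))))))))), t true 2 (f (b (c
  (b (a (d (a (f (b (c (d (a (b e))))))))))))), t true 2 (f (a (b (c (b (d (a (f (b (c (d (a (b
  e))))))))))))), t true 1 (a (d (b (c (f (a (b (a (f (c (d (a (b e))))))))))))), t false 2 (c (f (b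
  (c (b (a (d (a (f (c (d (a (b e))))))))))))), t false 1 (b (c (f (b (a (d (a (b (f (c (d (a (b
  e))))))))))))), t false 1 (d (b (c (f (b (a (d (b (f (c (d (a (b e))))))))))))), t true 1 (c (a (d
  (b (f (a (c (b (a (f (d (a (b e))))))))))))), t true 2 (c (b (f (a (d (b (c (b (a (f (d (a (b
  e))))))))))))), t true 1 (c (a (b (f (a (c (b (d (a (f (d (a (b e))))))))))))), t false 1 (c (a (f
  (b (d (b (a (c (b (a (f (a (b e))))))))))))), t true 1 (c (a (b (d (b (f (a (c (b (a (f (a (b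
  e))))))))))))), t false 2 (c (b (a (f (a (d (b (c (b (a (f (a (b e))))))))))))), t false 2 (c (a
  (f (b (a (c (b (a (d (a (f (a (b e))))))))))))), t false 1 (c (a (f (a (c (a (b (d (a (b (f (a (b
  e))))))))))))), t true 1 (b (a (f (c (b (a (d (a (b (c (f (a (b e))))))))))))), t true 1 (d (b (a
  (f (c (b (a (d (b (c (f (a (b e))))))))))))), t false 3 (f (a (b (a (f (a (d (c (a (b (a (c (b
  e))))))))))))), t false 1 (f (a (d (a (f (b (a (c (a (d (a (c (b e)))))))))))))]

def c24_3 : List Tm := [t true 1 (b (f (a (d (a (f (a (c (a (d (a (c (b e))))))))))))), t false 1 (b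
  (a (d (f (a (c (a (f (c (d (a (c (b e))))))))))))), t true 1 (a (d (f (a (b (c (a (f (c (d (a (c
  (b e))))))))))))), t true 2 (a (d (f (b (c (a (b (f (c (d (a (c (b e))))))))))))), t true 2 (a (d
  (f (b (c (b (f (c (d (a (b (c (b e))))))))))))), t false 1 (a (f (b (a (d (c (b (f (a (d (b (c (b
  e))))))))))))), t false 1 (a (f (c (b (a (d (c (f (a (d (b (c (b e))))))))))))), t false 1 (d (a
  (f (b (c (b (f (a (c (d (b (c (b e))))))))))))), t false 1 (a (b (f (a (d (c (b (a (f (d (b (c (b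
  e))))))))))))), t false 1 (a (c (b (f (a (d (c (a (f (d (b (c (b e))))))))))))), t false 2 (f (b
  (a (c (b (a (d (c (a (f (b (c (b e))))))))))))), t false 1 (a (b (f (c (d (c (f (a (b (a (d (c (b
  e))))))))))))), t true 1 (f (c (d (c (a (b (a (f (b (a (d (c (b e))))))))))))), t true 1 (f (c (a
  (b (a (d (c (f (b (a (d (c (b e))))))))))))), t true 1 (a (c (d (c (f (a (b (a (f (a (d (c (b
  e))))))))))))), t true 1 (c (a (f (b (a (d (c (b (f (a (d (c (b e))))))))))))), t true 1 (d (c (a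
  (f (b (a (d (b (f (a (d (c (b e))))))))))))), t false 1 (a (f (c (a (b (a (d (c (f (a (d (c (b
  e))))))))))))), t true 1 (f (c (d (a (b (c (f (b (a (c (d (c (b e))))))))))))), t true 1 (c (d (a
  (f (b (c (b (f (a (c (d (c (b e))))))))))))), t true 1 (b (a (f (c (d (a (c (f (a (c (d (c (b
  e))))))))))))), t false 1 (a (f (c (d (a (b (c (f (a (c (d (c (b e))))))))))))), t false 1 (a (f
  (c (d (b (c (f (a (b (c (d (c (b e))))))))))))), t true 1 (a (b (c (d (f (a (b (a (f (c (d (c (b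
  e))))))))))))), t true 2 (b (a (c (d (f (a (c (a (f (c (d (c (b e))))))))))))), t false 1 (a (c (d
  (f (a (b (c (a (f (c (d (c (b e))))))))))))), t false 2 (a (c (d (f (b (c (a (b (f (c (d (c (b
  e))))))))))))), t true 1 (c (a (b (f (a (d (c (b (a (f (d (c (b e))))))))))))), t true 1 (d (c (a
  (b (f (a (d (b (a (f (d (c (b e))))))))))))), t false 1 (a (c (a (b (f (a (d (c (a (f (d (c (b
  e))))))))))))), t true 1 (b (c (f (a (b (a (f (c (a (b (a (d (b e))))))))))))), t true 1 (c (a (b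
  (f (a (c (a (f (a (b (a (d (b e))))))))))))), t true 1 (a (b (f (a (c (a (f (a (c (b (a (d (b
  e))))))))))))), t false 1 (c (f (d (a (b (a (d (f (c (b (a (d (b e))))))))))))), t false 2 (f (c
  (d (a (b (a (d (c (f (b (a (d (b e))))))))))))), t false 2 (f (b (a (c (a (b (f (b (a (c (a (d (b
  e))))))))))))), t true 1 (b (f (a (c (b (a (f (a (b (c (a (d (b e))))))))))))), t false 1 (f (d (a
  (c (b (a (d (f (b (c (a (d (b e))))))))))))), t false 1 (d (a (c (f (b (a (d (b (f (c (a (d (b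
  e))))))))))))), t true 1 (a (c (f (d (a (b (a (d (f (c (a (d (b e))))))))))))), t false 2 (c (d (a
  (f (b (a (d (c (b (f (a (d (b e))))))))))))), t false 1 (d (a (f (c (a (d (b (a (c (f (a (d (b
  e))))))))))))), t true 1 (b (d (a (f (c (a (d (a (c (f (a (d (b e))))))))))))), t false 1 (d (a (f
  (c (b (a (d (b (c (f (a (d (b e))))))))))))), t true 1 (a (f (c (d (a (b (a (d (c (f (a (d (b
  e))))))))))))), t true 2 (f (b (a (c (a (b (f (a (c (a (b (d (b e))))))))))))), t false 2 (f (a (b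
  (a (f (c (a (b (a (c (b (d (b e))))))))))))), t false 2 (a (b (f (a (c (b (a (f (b (c (b (d (b
  e))))))))))))), t true 1 (d (a (c (f (a (d (b (c (a (f (c (d (b e))))))))))))), t false 1 (b (d (a
  (c (f (a (d (c (a (f (c (d (b e))))))))))))), t true 1 (a (d (b (c (f (b (d (a (b (f (c (d (b
  e))))))))))))), t false 2 (c (d (a (b (f (a (d (c (b (a (f (d (b e))))))))))))), t false 1 (d (a
  (c (a (d (b (f (a (c (a (f (d (b e))))))))))))), t true 1 (b (d (a (c (a (d (f (a (c (a (f (d (b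
  e))))))))))))), t false 1 (d (a (c (b (f (a (d (b (c (a (f (d (b e))))))))))))), t true 1 (a (c (d
  (a (b (f (a (d (c (a (f (d (b e))))))))))))), t false 1 (d (a (b (f (c (a (d (b (a (c (f (d (b
  e))))))))))))), t true 1 (a (d (b (f (c (b (d (a (b (c (f (d (b e))))))))))))), t false 1 (d (a (b
  (f (c (b (a (d (b (c (f (d (b e))))))))))))), t true 1 (a (b (f (c (d (a (b (a (d (c (f (d (b
  e))))))))))))), t true 1 (c (a (b (f (d (a (c (b (a (d (f (d (b e))))))))))))), t false 1 (a (b (a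
  (c (a (d (f (a (c (b (a (f (b e))))))))))))), t true 1 (b (a (c (b (a (d (f (a (b (c (a (f (b
  e))))))))))))), t false 2 (b (a (c (a (d (f (b (a (c (a (b (f (b e))))))))))))), t false 1 (a (b
  (a (c (a (d (f (b (a (c (b (f (b e))))))))))))), t false 1 (a (b (a (c (b (a (d (f (b (c (b (f (b
  e))))))))))))), t true 1 (a (b (c (d (f (c (a (b (a (d (c (f (b e))))))))))))), t true 1 (d (f (a
  (b (a (f (a (d (c (a (b (a (c e))))))))))))), t false 3 (a (b (f (a (d (a (f (d (c (a (b (a (c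
  e))))))))))))), t false 1 (c (d (f (a (b (a (f (a (d (a (b (a (c e))))))))))))), t true 1 (a (b (f
  (a (c (d (a (f (d (a (b (a (c e))))))))))))), t true 2 (a (b (a (c (f (a (d (a (f (a (b (a (c
  e))))))))))))), t true 2 (b (f (a (c (a (f (b (c (b (d (b (a (c e))))))))))))), t false 2 (f (b (a
  (c (a (b (f (c (b (d (b (a (c e))))))))))))), t false 1 (d (a (b (f (a (d (c (a (f (d (b (a (c
  e))))))))))))), t true 1 (c (d (a (b (f (a (d (a (f (d (b (a (c e))))))))))))), t false 1 (d (a (b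
  (f (c (a (d (c (f (d (b (a (c e))))))))))))), t true 1 (a (b (f (d (a (c (a (d (f (d (b (a (c
  e))))))))))))), t true 2 (b (a (c (a (d (f (b (c (b (f (b (a (c e))))))))))))), t true 1 (c (b (f
  (a (d (a (f (a (b (a (d (a (c e))))))))))))), t true 1 (a (d (f (b (a (c (b (f (b (a (d (a (c
  e))))))))))))), t false 1 (b (a (d (f (b (c (b (f (b (a (d (a (c e))))))))))))), t false 1 (f (a
  (d (a (f (a (b (a (c (a (d (a (c e))))))))))))), t true 1 (a (f (b (d (b (f (d (a (c (a (d (a (c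
  e))))))))))))), t false 1 (b (f (a (d (a (f (a (b (c (a (d (a (c e))))))))))))), t true 1 (f (b (a
  (d (a (b (f (c (a (b (d (a (c e))))))))))))), t false 1 (c (f (b (a (d (a (b (f (a (b (d (a (c
  e))))))))))))), t false 1 (c (b (a (d (f (a (b (a (f (b (d (a (c e))))))))))))), t true 1 (b (a (d
  (f (a (b (c (a (f (b (d (a (c e))))))))))))), t false 2 (a (d (f (b (a (c (a (b (f (b (d (a (c
  e))))))))))))), t true 2 (a (d (f (b (c (b (f (b (a (c (d (a (c e))))))))))))), t true 1 (b (a (d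
  (f (a (c (a (f (b (c (d (a (c e))))))))))))), t false 1 (a (d (f (a (b (c (a (f (b (c (d (a (c
  e))))))))))))), t false 2 (a (d (f (b (c (a (b (f (b (c (d (a (c e))))))))))))), t false 1 (f (b
  (c (b (a (d (b (a (f (c (d (a (c e))))))))))))), t false 1 (f (a (d (a (b (c (a (b (f (c (d (a (c
  e))))))))))))), t true 1 (b (f (b (c (b (a (d (b (a (f (d (a (c e))))))))))))), t false 3 (a (b (f
  (a (c (b (d (b (a (f (d (a (c e))))))))))))), t false 1 (a (b (f (b (d (b (a (c (a (f (d (a (c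
  e))))))))))))), t true 1 (b (f (a (d (a (b (c (a (b (f (d (a (c e)))))))))))))]

def c24_4 : List Tm := [t true 1 (a (b (f (a (c (a (b (d (b (f (d (a (c e))))))))))))), t false 1 (a
  (b (f (c (b (d (b (a (c (f (d (a (c e))))))))))))), t true 1 (a (b (f (c (a (b (d (b (c (f (d (a
  (c e))))))))))))), t true 1 (d (a (b (f (c (a (b (d (c (f (d (a (c e))))))))))))), t false 1 (a (b
  (f (d (b (a (c (a (d (f (d (a (c e))))))))))))), t true 2 (a (b (a (c (b (f (a (d (b (a (f (a (c
  e))))))))))))), t false 1 (a (f (a (b (d (a (b (c (a (b (f (a (c e))))))))))))), t false 1 (f (a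
  (d (b (a (f (c (b (a (d (a (b (c e))))))))))))), t false 1 (f (b (a (d (b (f (c (b (a (d (a (b (c
  e))))))))))))), t true 1 (c (f (a (d (b (a (f (b (a (d (a (b (c e))))))))))))), t true 1 (c (f (b
  (a (d (b (f (b (a (d (a (b (c e))))))))))))), t false 1 (c (a (d (f (a (b (a (f (a (d (a (b (c
  e))))))))))))), t false 1 (a (d (f (a (c (b (a (f (a (d (a (b (c e))))))))))))), t false 2 (a (d
  (f (b (a (c (b (f (a (d (a (b (c e))))))))))))), t true 1 (a (d (f (a (c (a (f (a (b (d (a (b (c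
  e))))))))))))), t true 1 (f (b (a (d (a (b (f (c (b (d (a (b (c e))))))))))))), t false 1 (c (f (b
  (a (d (a (b (f (b (d (a (b (c e))))))))))))), t false 2 (a (d (f (b (c (b (f (a (c (d (a (b (c
  e))))))))))))), t false 4 (f (a (d (b (c (b (a (f (c (d (a (b (c e))))))))))))), t true 1 (a (d (b
  (f (a (c (b (a (f (d (a (b (c e))))))))))))), t true 4 (b (f (a (d (b (c (b (a (f (d (a (b (c
  e))))))))))))), t true 3 (a (b (f (a (c (b (d (a (f (d (a (b (c e))))))))))))), t false 1 (a (f (b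
  (d (b (a (c (b (a (f (a (b (c e))))))))))))), t true 1 (a (b (d (b (f (a (c (b (a (f (a (b (c
  e))))))))))))), t false 4 (b (a (f (a (d (b (c (b (a (f (a (b (c e))))))))))))), t false 4 (a (f
  (b (a (c (b (a (d (a (f (a (b (c e))))))))))))), t false 1 (a (f (a (c (a (b (d (a (b (f (a (b (c
  e))))))))))))), t true 1 (b (a (f (c (b (a (d (a (c (f (a (b (c e))))))))))))), t false 1 (b (a (f
  (c (a (d (a (b (c (f (a (b (c e))))))))))))), t true 1 (d (b (a (f (c (b (a (d (c (f (a (b (c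
  e))))))))))))), t false 1 (f (d (a (b (a (d (f (c (b (a (d (b (c e))))))))))))), t true 1 (b (f (a
  (c (b (a (f (a (c (a (d (b (c e))))))))))))), t false 1 (b (f (a (c (a (f (a (b (c (a (d (b (c
  e))))))))))))), t false 1 (f (d (a (c (b (a (d (f (c (a (d (b (c e))))))))))))), t false 2 (d (a
  (f (b (a (d (c (b (f (a (d (b (c e))))))))))))), t true 1 (c (d (a (f (b (a (d (b (f (a (d (b (c
  e))))))))))))), t false 1 (d (a (f (c (b (a (d (c (f (a (d (b (c e))))))))))))), t true 2 (f (b (a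
  (c (a (b (f (c (a (b (d (b (c e))))))))))))), t false 2 (d (a (b (f (a (d (c (b (a (f (d (b (c
  e))))))))))))), t true 1 (c (d (a (b (f (a (d (b (a (f (d (b (c e))))))))))))), t false 1 (d (a (c
  (b (f (a (d (c (a (f (d (b (c e))))))))))))), t true 1 (a (d (b (f (c (b (d (a (c (f (d (b (c
  e))))))))))))), t false 1 (d (a (b (f (c (b (a (d (c (f (d (b (c e))))))))))))), t true 1 (a (b (f
  (d (a (c (b (a (d (f (d (b (c e))))))))))))), t false 1 (a (b (a (c (a (d (f (a (b (a (f (b (c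
  e))))))))))))), t false 1 (b (a (c (b (a (d (f (a (c (a (f (b (c e))))))))))))), t false 1 (b (a
  (c (a (d (f (a (b (c (a (f (b (c e))))))))))))), t false 2 (d (f (b (a (c (b (a (d (c (a (f (b (c
  e))))))))))))), t true 2 (a (d (f (b (a (c (b (a (d (a (f (b (c e))))))))))))), t false 2 (b (a (c
  (a (d (f (b (c (a (b (f (b (c e))))))))))))), t false 1 (f (b (d (a (b (f (c (d (a (b (a (d (c
  e))))))))))))), t true 1 (c (f (b (d (a (b (f (d (a (b (a (d (c e))))))))))))), t true 1 (c (a (b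
  (f (a (d (a (f (a (b (a (d (c e))))))))))))), t false 1 (a (b (f (a (c (d (a (f (a (b (a (d (c
  e))))))))))))), t false 1 (b (f (c (d (c (f (a (b (c (b (a (d (c e))))))))))))), t true 1 (f (c (d
  (c (a (b (a (f (c (b (a (d (c e))))))))))))), t true 1 (f (d (c (a (b (a (d (f (c (b (a (d (c
  e))))))))))))), t true 1 (a (c (d (f (a (c (b (a (f (b (a (d (c e))))))))))))), t false 1 (a (b (c
  (d (f (a (c (a (f (b (a (d (c e))))))))))))), t false 1 (b (c (d (f (a (b (c (a (f (b (a (d (c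
  e))))))))))))), t false 1 (a (c (d (f (b (a (c (b (f (b (a (d (c e))))))))))))), t true 1 (b (a (c
  (d (f (b (c (b (f (b (a (d (c e))))))))))))), t true 2 (d (f (c (a (b (a (d (c (f (b (a (d (c
  e))))))))))))), t true 1 (f (a (c (d (a (f (a (b (a (c (a (d (c e))))))))))))), t true 1 (c (d (f
  (a (c (a (f (b (a (c (a (d (c e))))))))))))), t true 2 (b (f (a (c (d (b (a (f (a (c (a (d (c
  e))))))))))))), t false 2 (b (f (a (c (d (a (f (a (b (c (a (d (c e))))))))))))), t false 1 (f (c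
  (d (a (c (a (b (a (f (c (a (d (c e))))))))))))), t true 1 (b (c (d (b (f (a (c (a (f (c (a (d (c
  e))))))))))))), t false 1 (f (d (a (c (a (b (a (d (f (c (a (d (c e))))))))))))), t false 1 (a (c
  (d (a (c (f (a (b (a (f (a (d (c e))))))))))))), t false 1 (b (c (d (a (f (b (c (a (b (f (a (d (c
  e))))))))))))), t true 2 (d (c (a (f (b (a (d (c (b (f (a (d (c e))))))))))))), t false 1 (d (a (f
  (c (a (b (a (d (c (f (a (d (c e))))))))))))), t false 2 (b (f (a (c (d (a (f (b (c (a (b (d (c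
  e))))))))))))), t false 1 (c (a (f (b (a (d (a (b (f (a (b (d (c e))))))))))))), t false 1 (b (a
  (f (c (d (a (b (c (f (a (b (d (c e))))))))))))), t true 1 (a (b (f (c (d (c (f (b (a (c (b (d (c
  e))))))))))))), t false 1 (c (a (b (a (d (f (a (b (a (f (b (d (c e))))))))))))), t false 1 (b (a
  (c (d (f (a (b (c (a (f (b (d (c e))))))))))))), t true 2 (a (c (d (f (b (a (c (a (b (f (b (d (c
  e))))))))))))), t false 1 (a (b (c (d (f (b (a (c (b (f (b (d (c e))))))))))))), t true 1 (c (d (f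
  (a (b (c (a (f (b (a (c (d (c e))))))))))))), t false 2 (a (c (d (f (b (c (b (f (b (a (c (d (c
  e))))))))))))), t true 1 (c (d (a (f (b (c (a (b (f (a (c (d (c e))))))))))))), t false 1 (b (a (f
  (c (d (a (c (f (a (b (c (d (c e))))))))))))), t true 1 (a (f (c (d (a (b (c (f (a (b (c (d (c
  e))))))))))))), t false 1 (a (b (c (d (f (a (b (a (f (b (c (d (c e))))))))))))), t false 3 (b (a
  (c (d (f (a (c (a (f (b (c (d (c e))))))))))))), t true 1 (a (c (d (f (a (b (c (a (f (b (c (d (c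
  e))))))))))))), t true 2 (a (c (d (f (b (c (a (b (f (b (c (d (c e))))))))))))), t false 2 (f (b (a
  (c (d (b (a (c (a (f (c (d (c e))))))))))))), t true 2 (b (a (c (d (b (f (a (c (a (f (c (d (c
  e))))))))))))), t true 2 (d (c (a (b (f (a (d (c (b (a (f (d (c e))))))))))))), t false 1 (d (a (c
  (a (b (f (a (d (c (a (f (d (c e))))))))))))), t false 1 (d (a (b (f (c (a (b (a (d (c (f (d (c
  e))))))))))))), t true 1 (a (b (f (d (a (c (a (b (a (d (f (d (c e))))))))))))), t false 2 (a (c (f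
  (b (a (c (b (a (d (b (a (f (c e))))))))))))), t false 1 (b (a (c (f (b (c (b (a (d (b (a (f (c
  e))))))))))))), t false 2 (b (a (c (f (a (b (c (b (d (b (a (f (c e)))))))))))))]

def c24_5 : List Tm := [t true 2 (c (f (b (a (c (a (d (b (a (c (a (f (c e))))))))))))), t true 2 (b
  (a (c (b (a (d (b (f (a (c (a (f (c e))))))))))))), t true 2 (c (f (b (a (c (b (a (d (b (c (a (f
  (c e))))))))))))), t true 2 (d (c (f (b (a (c (b (a (d (c (a (f (c e))))))))))))), t false 1 (b (a
  (c (f (a (d (a (b (c (a (b (f (c e))))))))))))), t true 1 (a (c (f (a (b (d (a (b (c (a (b (f (c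
  e))))))))))))), t true 1 (a (d (b (a (c (f (b (a (d (a (b (f (c e))))))))))))), t false 1 (f (b (c
  (a (b (f (d (a (c (a (b (a (d e))))))))))))), t true 1 (d (f (b (c (a (b (f (a (c (a (b (a (d
  e))))))))))))), t false 1 (f (b (c (b (f (d (a (b (c (a (b (a (d e))))))))))))), t true 1 (d (f (b
  (c (b (f (a (b (c (a (b (a (d e))))))))))))), t true 1 (d (b (c (f (a (b (a (f (c (a (b (a (d
  e))))))))))))), t true 1 (b (c (f (a (b (d (a (f (c (a (b (a (d e))))))))))))), t true 1 (b (c (f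
  (b (d (a (b (f (c (a (b (a (d e))))))))))))), t false 1 (c (f (b (d (a (b (f (c (d (a (b (a (d
  e))))))))))))), t true 1 (d (c (a (b (f (a (c (a (f (a (b (a (d e))))))))))))), t false 1 (c (a (b
  (f (a (c (d (a (f (a (b (a (d e))))))))))))), t true 1 (b (f (c (a (b (d (a (c (f (a (b (a (d
  e))))))))))))), t false 1 (d (a (b (f (a (c (a (f (a (c (b (a (d e))))))))))))), t true 1 (b (f (c
  (a (b (d (c (f (a (c (b (a (d e))))))))))))), t true 1 (b (f (c (b (d (c (f (a (b (c (b (a (d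
  e))))))))))))), t false 1 (f (b (a (d (c (b (f (d (b (c (b (a (d e))))))))))))), t false 1 (f (c
  (b (a (d (c (f (d (b (c (b (a (d e))))))))))))), t true 1 (c (f (c (d (c (a (b (a (f (c (b (a (d
  e))))))))))))), t false 1 (b (c (f (a (b (d (c (a (f (c (b (a (d e))))))))))))), t true 1 (b (c (f
  (b (d (c (a (b (f (c (b (a (d e))))))))))))), t true 1 (c (f (d (c (a (b (a (d (f (c (b (a (d
  e))))))))))))), t false 1 (a (c (a (d (f (a (c (b (a (f (b (a (d e))))))))))))), t true 1 (a (b (c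
  (a (d (f (a (c (a (f (b (a (d e))))))))))))), t true 1 (b (c (a (b (d (f (a (c (a (f (b (a (d
  e))))))))))))), t true 1 (b (c (b (d (f (a (b (c (a (f (b (a (d e))))))))))))), t true 1 (a (c (a
  (d (f (b (a (c (b (f (b (a (d e))))))))))))), t false 1 (a (c (b (a (d (f (b (c (b (f (b (a (d
  e))))))))))))), t false 1 (b (a (c (b (d (f (b (c (b (f (b (a (d e))))))))))))), t true 2 (c (d (f
  (c (a (b (a (d (c (f (b (a (d e))))))))))))), t false 2 (f (a (d (a (f (d (c (a (b (a (c (a (d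
  e))))))))))))), t true 1 (f (a (c (d (a (f (d (a (b (a (c (a (d e))))))))))))), t true 2 (a (c (f
  (a (d (a (f (a (b (a (c (a (d e))))))))))))), t true 2 (b (f (a (c (a (f (b (d (b (a (c (a (d
  e))))))))))))), t false 3 (f (b (a (c (a (b (f (d (b (a (c (a (d e))))))))))))), t true 1 (f (d (a
  (c (a (d (f (d (b (a (c (a (d e))))))))))))), t true 2 (b (d (f (a (c (a (f (b (d (a (c (a (d
  e))))))))))))), t false 3 (f (a (c (b (d (b (a (f (d (a (c (a (d e))))))))))))), t true 2 (f (b (d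
  (b (a (c (a (f (d (a (c (a (d e))))))))))))), t false 2 (b (d (b (f (a (c (a (f (d (a (c (a (d
  e))))))))))))), t false 1 (f (b (a (c (a (d (b (f (d (a (c (a (d e))))))))))))), t true 1 (f (a (c
  (a (b (d (b (f (d (a (c (a (d e))))))))))))), t false 1 (f (c (b (d (b (a (c (f (d (a (c (a (d
  e))))))))))))), t true 1 (f (c (a (b (d (b (c (f (d (a (c (a (d e))))))))))))), t false 1 (f (d (b
  (a (c (a (d (f (d (a (c (a (d e))))))))))))), t true 2 (a (c (b (f (a (d (b (a (f (a (c (a (d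
  e))))))))))))), t true 1 (a (b (f (a (d (b (c (a (f (a (c (a (d e))))))))))))), t true 1 (b (f (c
  (b (d (b (a (c (f (a (c (a (d e))))))))))))), t false 1 (b (f (c (a (b (d (b (c (f (a (c (a (d
  e))))))))))))), t true 3 (f (a (c (b (d (a (f (d (a (b (c (a (d e))))))))))))), t true 1 (d (b (f
  (a (c (b (a (f (a (b (c (a (d e))))))))))))), t false 1 (c (f (c (d (a (c (a (b (a (f (c (a (d
  e))))))))))))), t true 1 (b (a (c (f (a (b (d (b (a (f (c (a (d e))))))))))))), t false 1 (b (c (f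
  (a (c (b (d (b (a (f (c (a (d e))))))))))))), t true 1 (b (c (f (a (b (d (b (c (a (f (c (a (d
  e))))))))))))), t false 1 (b (d (b (a (c (f (a (d (a (f (c (a (d e))))))))))))), t false 1 (b (c
  (f (b (d (a (c (a (b (f (c (a (d e))))))))))))), t false 1 (c (f (d (a (c (a (b (a (d (f (c (a (d
  e))))))))))))), t true 1 (a (c (a (d (a (c (f (a (b (a (f (a (d e))))))))))))), t true 1 (b (c (a
  (f (a (c (b (d (b (a (f (a (d e))))))))))))), t false 1 (b (c (a (f (b (d (b (a (c (a (f (a (d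
  e))))))))))))), t true 2 (b (c (a (f (b (d (a (c (a (b (f (a (d e))))))))))))), t true 1 (b (c (b
  (d (a (f (b (c (a (b (f (a (d e))))))))))))), t true 2 (c (d (c (a (f (b (a (d (c (b (f (a (d
  e))))))))))))), t true 1 (b (a (f (c (a (b (d (b (a (c (f (a (d e))))))))))))), t false 1 (b (d (b
  (a (f (c (a (d (a (c (f (a (d e))))))))))))), t false 1 (c (d (a (f (c (a (b (a (d (c (f (a (d
  e))))))))))))), t true 1 (d (f (b (a (c (a (b (f (a (c (a (b (d e))))))))))))), t false 1 (f (a (c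
  (b (a (f (d (a (b (c (a (b (d e))))))))))))), t false 1 (f (b (a (c (b (f (d (a (b (c (a (b (d
  e))))))))))))), t false 1 (d (f (a (c (b (a (f (a (b (c (a (b (d e))))))))))))), t true 2 (f (a (c
  (b (d (a (f (d (b (c (a (b (d e))))))))))))), t true 1 (a (c (b (f (a (d (a (f (b (c (a (b (d
  e))))))))))))), t true 1 (a (c (f (b (a (d (a (b (f (c (a (b (d e))))))))))))), t true 1 (b (a (c
  (f (b (d (a (b (f (c (a (b (d e))))))))))))), t false 1 (d (c (a (f (b (a (c (a (b (f (a (b (d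
  e))))))))))))), t true 1 (a (f (c (b (a (d (a (b (c (f (a (b (d e))))))))))))), t true 1 (b (a (f
  (c (b (d (a (b (c (f (a (b (d e))))))))))))), t false 3 (f (a (b (a (f (d (c (a (b (a (c (b (d
  e))))))))))))), t false 1 (d (f (a (b (a (f (c (a (b (a (c (b (d e))))))))))))), t false 1 (d (a
  (b (f (a (c (a (f (b (a (c (b (d e))))))))))))), t false 1 (a (b (f (c (a (d (c (f (b (a (c (b (d
  e))))))))))))), t false 1 (d (a (f (b (a (c (b (f (a (b (c (b (d e))))))))))))), t true 1 (a (f (b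
  (a (d (c (b (f (a (b (c (b (d e))))))))))))), t true 1 (a (f (c (b (a (d (c (f (a (b (c (b (d
  e))))))))))))), t true 1 (a (f (b (d (c (b (f (a (d (b (c (b (d e))))))))))))), t true 1 (a (f (c
  (b (d (c (f (a (d (b (c (b (d e))))))))))))), t false 1 (d (a (b (f (a (c (b (a (f (b (c (b (d
  e))))))))))))), t true 1 (a (b (f (a (d (c (b (a (f (b (c (b (d e))))))))))))), t true 1 (a (c (b
  (f (a (d (c (a (f (b (c (b (d e))))))))))))), t false 1 (a (b (f (c (b (a (d (c (f (b (c (b (d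
  e))))))))))))), t false 1 (a (b (c (f (b (a (d (c (b (f (c (b (d e))))))))))))), t false 1 (d (c
  (a (b (a (c (f (a (b (a (f (b (d e))))))))))))), t true 1 (a (c (b (a (d (f (a (b (c (a (f (b (d
  e))))))))))))), t true 1 (b (a (c (b (d (f (a (b (c (a (f (b (d e)))))))))))))]

def c24_6 : List Tm := [t false 2 (a (c (a (d (f (b (a (c (a (b (f (b (d e))))))))))))), t true 1 (a
  (b (c (a (d (f (b (a (c (b (f (b (d e))))))))))))), t true 1 (a (b (c (b (a (d (f (b (c (b (f (b
  (d e))))))))))))), t true 3 (a (b (f (a (d (a (f (c (a (b (a (c (d e))))))))))))), t false 2 (a (b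
  (c (f (a (d (a (f (a (b (a (c (d e))))))))))))), t true 2 (a (c (a (d (f (b (c (b (f (b (a (c (d
  e))))))))))))), t false 2 (a (b (c (b (f (a (d (b (a (f (a (c (d e))))))))))))), t false 1 (a (f
  (a (d (a (b (c (a (b (f (a (c (d e))))))))))))), t false 4 (a (f (a (d (b (c (b (a (f (a (b (c (d
  e))))))))))))), t true 4 (a (f (b (c (b (a (d (a (f (a (b (c (d e))))))))))))), t true 1 (a (f (c
  (b (a (d (a (c (f (a (b (c (d e))))))))))))), t true 1 (b (a (f (c (b (d (a (c (f (a (b (c (d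
  e))))))))))))), t false 1 (a (f (c (a (d (a (b (c (f (a (b (c (d e))))))))))))), t true 1 (a (b (c
  (a (d (f (a (b (a (f (b (c (d e))))))))))))), t true 1 (a (d (f (a (d (b (c (b (a (f (b (c (d
  e))))))))))))), t false 1 (a (c (b (a (d (f (a (c (a (f (b (c (d e))))))))))))), t true 1 (b (a (c
  (b (d (f (a (c (a (f (b (c (d e))))))))))))), t false 1 (a (c (a (d (f (a (b (c (a (f (b (c (d
  e))))))))))))), t false 2 (a (d (f (b (c (b (a (d (a (f (b (c (d e))))))))))))), t false 2 (a (c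
  (a (d (f (b (c (a (b (f (b (c (d e))))))))))))), t true 1 (a (c (f (b (c (b (a (d (b (a (f (c (d
  e))))))))))))), t false 2 (a (c (f (a (b (c (b (d (b (a (f (c (d e))))))))))))), t false 2 (a (c
  (f (b (a (d (b (a (c (a (f (c (d e))))))))))))), t true 2 (a (c (b (a (d (b (f (a (c (a (f (c (d
  e))))))))))))), t false 1 (a (d (b (c (f (b (a (d (a (b (f (c (d e))))))))))))), t true 1 (a (b (f
  (c (a (d (a (c (a (b (a (f (d e))))))))))))), t true 1 (c (a (b (f (c (d (a (c (a (b (a (f (d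
  e))))))))))))), t true 2 (c (d (c (a (b (f (a (d (c (b (a (f (d e))))))))))))), t true 1 (a (c (b
  (f (b (c (b (a (d (b (a (f (d e))))))))))))), t false 1 (c (d (a (c (a (b (f (a (d (c (a (f (d
  e))))))))))))), t true 1 (a (c (b (f (a (d (a (b (c (a (b (f (d e))))))))))))), t false 1 (a (d (b
  (f (c (b (a (d (a (b (c (f (d e))))))))))))), t false 1 (c (d (a (b (f (c (a (b (a (d (c (f (d
  e))))))))))))), t true 1 (c (a (b (f (d (a (c (a (b (a (d (f (d e))))))))))))), t false 1 (f (a (b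
  (a (c (a (d (a (c (a (b (a (f e))))))))))))), t false 1 (a (b (a (f (c (a (d (a (c (a (b (a (f
  e))))))))))))), t true 1 (b (c (a (b (f (c (d (a (c (a (b (a (f e))))))))))))), t true 1 (a (b (a
  (c (a (d (a (c (f (a (b (a (f e))))))))))))), t true 1 (f (d (a (b (a (c (a (d (a (c (b (a (f
  e))))))))))))), t false 1 (d (a (b (a (c (a (d (f (a (c (b (a (f e))))))))))))), t false 1 (a (d
  (c (b (a (f (a (d (b (c (b (a (f e))))))))))))), t false 2 (f (b (c (d (c (a (b (a (d (c (b (a (f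
  e))))))))))))), t true 2 (b (c (d (c (a (b (f (a (d (c (b (a (f e))))))))))))), t true 1 (b (a (c
  (b (f (b (c (b (a (d (b (a (f e))))))))))))), t false 1 (f (d (b (a (c (b (a (d (a (b (c (a (f
  e))))))))))))), t true 1 (d (b (a (c (b (a (d (f (a (b (c (a (f e))))))))))))), t true 1 (f (b (c
  (d (a (c (a (b (a (d (c (a (f e))))))))))))), t false 1 (b (c (d (a (c (a (b (f (a (d (c (a (f
  e))))))))))))), t true 2 (f (a (d (c (a (b (a (c (b (a (d (a (f e))))))))))))), t false 2 (a (d (c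
  (a (f (b (a (c (b (a (d (a (f e))))))))))))), t true 2 (f (d (b (a (c (a (d (b (a (c (a (b (f
  e))))))))))))), t false 2 (d (b (a (c (a (d (f (b (a (c (a (b (f e))))))))))))), t false 1 (f (b
  (a (c (b (a (d (a (b (c (a (b (f e))))))))))))), t true 1 (b (a (c (b (f (a (d (a (b (c (a (b (f
  e))))))))))))), t false 1 (a (c (a (f (a (b (d (a (b (c (a (b (f e))))))))))))), t false 1 (f (c
  (a (d (b (a (c (b (a (d (a (b (f e))))))))))))), t true 1 (c (a (d (b (a (c (f (b (a (d (a (b (f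
  e))))))))))))), t true 1 (f (d (a (b (a (c (a (d (b (a (c (b (f e))))))))))))), t false 1 (d (a (b
  (a (c (a (d (f (b (a (c (b (f e))))))))))))), t true 1 (f (d (a (b (a (c (b (a (d (b (c (b (f
  e))))))))))))), t false 1 (d (a (b (a (c (b (a (d (f (b (c (b (f e))))))))))))), t false 1 (f (a
  (b (c (d (c (a (b (a (d (c (b (f e))))))))))))), t true 1 (a (b (c (d (c (a (f (b (a (d (c (b (f
  e))))))))))))), t false 1 (f (a (d (b (a (c (b (a (d (a (b (c (f e))))))))))))), t true 1 (a (d (b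
  (a (f (c (b (a (d (a (b (c (f e))))))))))))), t true 1 (f (a (b (c (d (a (c (a (b (a (d (c (f
  e))))))))))))), t true 1 (f (b (c (d (a (b (c (a (b (a (d (c (f e))))))))))))), t false 1 (a (b (c
  (d (a (f (c (a (b (a (d (c (f e))))))))))))), t false 1 (b (c (d (a (b (f (c (a (b (a (d (c (f
  e))))))))))))), t false 1 (f (b (c (a (b (d (a (c (a (b (a (d (f e))))))))))))), t true 1 (b (c (a
  (b (f (d (a (c (a (b (a (d (f e)))))))))))))]

def c24 : List (List Tm) := [c24_0, c24_1, c24_2, c24_3, c24_4, c24_5, c24_6]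

def c25_0 : List Tm := [t true 1 (d (b (f (b (d (c (a (b (a (c (a (b (a e))))))))))))), t false 1 (c
  (d (b (f (b (d (a (b (a (c (a (b (a e))))))))))))), t true 1 (c (a (d (b (f (b (d (b (a (c (a (b
  (a e))))))))))))), t false 1 (c (b (f (d (a (b (a (d (a (c (a (b (a e))))))))))))), t true 1 (a (b
  (f (d (a (c (a (d (a (c (a (b (a e))))))))))))), t true 1 (b (f (d (a (b (c (a (d (a (c (a (b (a
  e))))))))))))), t false 1 (d (a (b (a (d (c (a (f (a (c (a (b (a e))))))))))))), t true 2 (c (d (a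
  (b (a (d (a (f (a (c (a (b (a e))))))))))))), t true 2 (c (b (a (d (a (f (a (d (b (c (a (b (a
  e))))))))))))), t true 2 (c (a (b (a (d (a (f (a (d (c (a (b (a e))))))))))))), t true 1 (c (f (d
  (a (b (a (d (a (f (c (a (b (a e))))))))))))), t false 1 (d (c (b (f (b (c (a (b (a (d (a (b (a
  e))))))))))))), t true 1 (c (b (f (b (c (d (a (b (a (d (a (b (a e))))))))))))), t true 1 (d (a (c
  (b (f (b (c (b (a (d (a (b (a e))))))))))))), t false 1 (d (b (f (c (a (b (a (c (a (d (a (b (a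
  e))))))))))))), t false 2 (c (a (b (a (c (d (a (f (a (d (a (b (a e))))))))))))), t false 2 (b (c
  (b (d (a (b (c (f (a (d (a (b (a e))))))))))))), t true 1 (d (b (a (c (a (f (a (c (b (d (a (b (a
  e))))))))))))), t true 1 (d (a (b (a (c (a (f (a (c (d (a (b (a e))))))))))))), t true 1 (d (f (c
  (a (b (a (c (a (f (d (a (b (a e))))))))))))), t true 2 (f (d (a (c (a (d (a (c (b (f (a (b (a
  e))))))))))))), t false 1 (f (d (b (c (b (d (a (b (c (f (a (b (a e))))))))))))), t true 1 (b (c (d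
  (c (f (c (d (a (b (a (c (b (a e))))))))))))), t false 1 (b (c (a (d (c (f (c (d (b (a (c (b (a
  e))))))))))))), t true 1 (b (c (a (b (d (c (f (c (d (a (c (b (a e))))))))))))), t true 1 (b (c (b
  (d (c (f (c (d (a (b (c (b (a e))))))))))))), t false 1 (b (c (b (a (d (c (f (c (d (b (c (b (a
  e))))))))))))), t true 1 (b (c (d (c (f (a (b (a (c (d (c (b (a e))))))))))))), t false 1 (f (c (d
  (c (a (b (f (a (c (d (c (b (a e))))))))))))), t false 1 (f (c (d (c (b (f (a (b (c (d (c (b (a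
  e))))))))))))), t true 1 (a (f (c (d (c (b (f (b (c (d (c (b (a e))))))))))))), t true 4 (b (c (d
  (c (a (b (a (f (c (d (c (b (a e))))))))))))), t false 1 (b (c (a (b (a (d (c (f (c (d (c (b (a
  e))))))))))))), t false 6 (b (d (f (c (d (a (b (a (f (d (c (b (a e))))))))))))), t true 1 (b (d (c
  (f (c (d (a (b (a (f (c (b (a e))))))))))))), t false 1 (d (b (c (f (c (a (b (d (a (f (c (b (a
  e))))))))))))), t false 1 (d (b (c (f (c (b (d (a (b (f (c (b (a e))))))))))))), t true 1 (a (d (b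
  (c (f (c (b (d (b (f (c (b (a e))))))))))))), t true 1 (b (a (c (a (f (d (a (c (b (a (d (b (a
  e))))))))))))), t true 1 (a (b (a (c (a (f (d (a (c (a (d (b (a e))))))))))))), t true 1 (c (a (b
  (f (d (b (a (c (a (b (d (b (a e))))))))))))), t true 2 (b (a (c (a (f (d (b (a (c (b (d (b (a
  e))))))))))))), t false 1 (a (c (a (b (f (d (b (a (c (b (d (b (a e))))))))))))), t true 1 (f (d (b
  (a (c (a (f (a (c (b (d (b (a e))))))))))))), t true 1 (b (a (c (b (a (f (d (b (c (b (d (b (a
  e))))))))))))), t true 1 (b (c (d (f (d (c (a (b (a (f (d (b (a e))))))))))))), t false 1 (c (a (b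
  (d (f (d (a (c (a (f (d (b (a e))))))))))))), t true 1 (c (b (d (f (d (a (b (c (a (f (d (b (a
  e))))))))))))), t false 1 (c (b (d (f (d (b (c (a (b (f (d (b (a e))))))))))))), t true 1 (a (c (b
  (d (f (d (b (c (b (f (d (b (a e))))))))))))), t true 1 (d (b (c (b (d (b (c (a (b (a (f (b (a
  e))))))))))))), t false 1 (b (d (a (c (a (d (a (c (b (a (f (b (a e))))))))))))), t false 1 (a (b
  (d (a (c (a (d (a (c (a (f (b (a e))))))))))))), t true 1 (b (d (a (c (a (d (b (a (c (b (f (b (a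
  e))))))))))))), t true 1 (d (b (a (c (a (b (d (a (c (b (f (b (a e))))))))))))), t false 1 (d (a (c
  (b (a (d (a (b (c (b (f (b (a e))))))))))))), t true 1 (b (d (a (c (b (a (d (b (c (b (f (b (a
  e))))))))))))), t true 2 (b (a (d (a (f (a (d (c (a (b (a (c (a e))))))))))))), t false 2 (b (a (c
  (d (a (f (a (d (a (b (a (c (a e))))))))))))), t false 2 (b (c (d (a (c (f (a (d (a (b (a (c (a
  e))))))))))))), t false 1 (a (c (b (f (d (a (b (a (d (b (a (c (a e))))))))))))), t true 1 (b (f (d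
  (b (a (c (a (b (d (b (a (c (a e))))))))))))), t false 1 (a (b (f (d (b (c (a (b (d (b (a (c (a
  e))))))))))))), t true 1 (c (b (f (d (b (a (c (b (d (b (a (c (a e))))))))))))), t false 1 (c (a (b
  (f (d (b (c (b (d (b (a (c (a e))))))))))))), t true 1 (f (d (b (a (c (a (f (b (d (b (a (c (a
  e))))))))))))), t false 3 (b (d (f (d (a (c (a (f (d (b (a (c (a e))))))))))))), t true 1 (d (b (a
  (c (b (d (b (a (f (b (a (c (a e))))))))))))), t false 1 (d (b (a (c (b (a (f (b (a (d (a (c (a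
  e))))))))))))), t false 1 (b (a (c (b (d (b (a (f (b (d (a (c (a e))))))))))))), t false 1 (a (b
  (a (d (b (c (a (f (b (d (a (c (a e))))))))))))), t false 1 (b (c (b (d (b (a (c (f (b (d (a (c (a
  e))))))))))))), t true 1 (b (c (a (b (d (b (c (f (b (d (a (c (a e))))))))))))), t false 1 (b (d (b
  (a (c (a (d (f (b (d (a (c (a e))))))))))))), t true 1 (b (d (f (b (d (a (c (a (f (d (a (c (a
  e))))))))))))), t false 1 (f (d (a (c (b (a (d (b (a (f (a (c (a e))))))))))))), t false 1 (f (d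
  (b (a (c (b (d (b (a (f (a (c (a e))))))))))))), t false 1 (b (d (b (f (b (d (a (c (a (f (a (c (a
  e))))))))))))), t false 1 (d (b (f (b (a (c (b (a (d (a (b (c (a e))))))))))))), t true 1 (b (f (b
  (d (a (c (b (a (d (a (b (c (a e))))))))))))), t true 1 (d (a (b (f (b (c (b (a (d (a (b (c (a
  e))))))))))))), t false 2 (b (a (c (b (d (a (f (a (d (a (b (c (a e))))))))))))), t false 2 (b (c
  (b (d (a (c (f (a (d (a (b (c (a e))))))))))))), t false 1 (f (d (b (c (b (d (a (c (f (a (b (c (a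
  e))))))))))))), t true 1 (b (a (c (a (f (d (a (b (a (d (b (c (a e))))))))))))), t false 1 (a (c (a
  (b (f (d (a (b (a (d (b (c (a e))))))))))))), t false 1 (f (d (b (a (c (b (a (f (a (d (b (c (a
  e))))))))))))), t false 1 (c (b (f (d (b (a (c (a (b (d (b (c (a e))))))))))))), t true 1 (c (a (b
  (f (d (b (c (a (b (d (b (c (a e))))))))))))), t false 1 (f (d (b (a (c (a (f (a (b (d (b (c (a
  e))))))))))))), t false 1 (b (d (f (d (a (c (b (a (f (d (b (c (a e))))))))))))), t true 2 (c (b (d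
  (f (d (a (c (a (f (d (b (c (a e))))))))))))), t false 1 (b (d (f (d (b (a (c (b (f (d (b (c (a
  e))))))))))))), t true 1 (a (b (d (f (d (b (c (b (f (d (b (c (a e))))))))))))), t true 2 (b (d (a
  (c (a (d (a (b (a (f (b (c (a e))))))))))))), t false 1 (d (b (a (c (a (b (d (a (b (f (b (c (a
  e))))))))))))), t false 3 (d (a (b (a (d (a (b (c (b (f (b (c (a e))))))))))))), t false 3 (b (c
  (d (a (b (a (d (b (c (f (b (c (a e))))))))))))), t true 1 (f (c (d (b (a (c (b (a (f (a (d (c (a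
  e))))))))))))), t false 2 (f (c (d (b (a (c (a (f (a (b (d (c (a e)))))))))))))]

def c25_1 : List Tm := [t true 1 (f (c (d (a (c (a (b (f (a (b (d (c (a e))))))))))))), t true 1 (f
  (b (c (d (b (a (c (f (a (b (d (c (a e))))))))))))), t false 3 (b (c (d (a (c (a (b (a (f (b (d (c
  (a e))))))))))))), t true 1 (b (a (c (a (b (a (d (b (f (b (d (c (a e))))))))))))), t true 1 (b (d
  (a (c (a (b (a (d (f (b (d (c (a e))))))))))))), t true 1 (b (a (c (d (c (a (f (b (a (c (d (c (a
  e))))))))))))), t true 1 (f (c (d (c (a (b (f (a (b (c (d (c (a e))))))))))))), t false 1 (b (c (d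
  (c (a (b (a (f (b (c (d (c (a e))))))))))))), t true 1 (b (a (c (d (c (b (a (f (b (c (d (c (a
  e))))))))))))), t true 1 (b (a (f (c (d (c (b (a (f (c (d (c (a e))))))))))))), t false 1 (b (c (d
  (f (a (c (a (b (a (f (d (c (a e))))))))))))), t false 3 (b (d (f (c (d (a (c (b (a (f (d (c (a
  e))))))))))))), t false 3 (c (b (d (f (b (d (a (c (a (f (d (c (a e))))))))))))), t true 2 (b (d (f
  (b (c (d (a (c (a (f (d (c (a e))))))))))))), t true 1 (b (d (f (c (d (b (a (c (b (f (d (c (a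
  e))))))))))))), t false 1 (a (b (d (f (c (d (b (c (b (f (d (c (a e))))))))))))), t true 1 (c (f (d
  (a (c (b (a (d (b (a (f (c (a e))))))))))))), t true 1 (c (f (d (b (a (c (b (d (b (a (f (c (a
  e))))))))))))), t true 1 (c (b (d (b (f (b (d (a (c (a (f (c (a e))))))))))))), t true 1 (d (b (a
  (c (f (a (b (d (a (b (f (c (a e))))))))))))), t true 1 (b (a (c (f (d (a (b (a (d (b (f (c (a
  e))))))))))))), t true 1 (b (c (f (d (a (c (b (a (d (b (f (c (a e))))))))))))), t false 1 (b (a (d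
  (c (a (f (a (c (a (b (a (d (a e))))))))))))), t true 1 (b (a (c (a (f (a (c (d (a (b (a (d (a
  e))))))))))))), t false 1 (c (f (c (b (a (d (a (f (c (b (a (d (a e))))))))))))), t false 1 (b (c
  (f (c (a (d (a (f (c (b (a (d (a e))))))))))))), t false 1 (c (b (a (d (a (b (c (b (f (b (a (d (a
  e))))))))))))), t false 3 (b (a (d (a (b (c (b (f (b (c (a (d (a e))))))))))))), t false 3 (b (c
  (a (d (a (b (c (f (b (c (a (d (a e))))))))))))), t true 2 (b (c (f (b (c (a (d (a (f (c (a (d (a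
  e))))))))))))), t false 1 (f (c (b (a (d (b (c (b (a (f (a (d (a e))))))))))))), t true 2 (c (b (a
  (d (b (a (f (a (c (a (b (d (a e))))))))))))), t false 1 (b (a (d (b (c (a (f (a (c (a (b (d (a
  e))))))))))))), t true 1 (c (f (b (a (d (b (a (f (c (a (b (d (a e))))))))))))), t true 2 (f (c (a
  (d (b (a (c (a (f (a (b (d (a e))))))))))))), t true 2 (f (c (b (a (d (b (c (a (f (a (b (d (a
  e))))))))))))), t false 1 (f (c (a (d (a (c (a (b (f (a (b (d (a e))))))))))))), t false 1 (f (b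
  (c (a (d (b (a (c (f (a (b (d (a e))))))))))))), t false 1 (f (b (c (b (a (d (b (c (f (a (b (d (a
  e))))))))))))), t false 2 (f (c (b (a (d (b (a (f (a (c (b (d (a e))))))))))))), t false 1 (c (f
  (c (b (a (d (b (a (f (c (b (d (a e))))))))))))), t false 1 (b (c (f (c (a (d (b (a (f (c (b (d (a
  e))))))))))))), t false 1 (b (c (f (c (b (a (d (b (f (c (b (d (a e))))))))))))), t true 1 (a (b (c
  (f (c (b (d (b (f (c (b (d (a e))))))))))))), t true 3 (b (c (a (d (a (c (a (b (a (f (b (d (a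
  e))))))))))))), t false 1 (c (a (b (a (c (b (d (b (a (f (b (d (a e))))))))))))), t false 1 (d (c
  (a (b (a (c (b (d (a (f (b (d (a e))))))))))))), t true 1 (c (b (a (d (a (b (c (a (b (f (b (d (a
  e))))))))))))), t true 1 (b (a (d (c (a (b (a (c (b (f (b (d (a e))))))))))))), t true 1 (a (b (c
  (a (b (d (b (a (c (f (b (d (a e))))))))))))), t true 1 (d (a (b (c (a (b (d (a (c (f (b (d (a
  e))))))))))))), t false 1 (c (a (b (d (b (a (c (a (d (f (b (d (a e))))))))))))), t false 1 (f (c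
  (b (a (d (c (b (a (f (a (c (d (a e))))))))))))), t true 2 (f (c (b (a (d (c (a (f (a (b (c (d (a
  e))))))))))))), t false 1 (f (c (a (d (c (a (b (f (a (b (c (d (a e))))))))))))), t false 1 (f (b
  (c (b (a (d (c (f (a (b (c (d (a e))))))))))))), t true 1 (b (c (a (d (c (a (b (a (f (b (c (d (a
  e))))))))))))), t true 3 (b (a (d (a (b (a (c (b (f (b (c (d (a e))))))))))))), t true 3 (b (c (a
  (d (a (b (a (c (f (b (c (d (a e))))))))))))), t false 2 (b (c (f (a (d (c (a (b (a (f (c (d (a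
  e))))))))))))), t false 2 (b (c (f (c (a (d (c (b (a (f (c (d (a e))))))))))))), t true 2 (b (c (f
  (b (c (a (d (c (a (f (c (d (a e))))))))))))), t false 1 (b (c (d (f (a (d (c (a (b (a (f (d (a
  e))))))))))))), t false 1 (a (d (f (c (a (b (a (c (b (a (f (d (a e))))))))))))), t true 3 (b (d (f
  (c (a (d (a (c (b (a (f (d (a e))))))))))))), t true 1 (d (f (c (b (a (d (b (c (b (a (f (d (a
  e))))))))))))), t true 2 (c (b (d (f (b (a (d (a (c (a (f (d (a e))))))))))))), t false 2 (b (d (f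
  (b (c (a (d (a (c (a (f (d (a e))))))))))))), t true 1 (c (a (b (d (f (b (d (a (c (a (f (d (a
  e))))))))))))), t false 1 (c (b (d (f (a (d (a (b (c (a (f (d (a e))))))))))))), t true 1 (c (b (a
  (d (f (a (b (c (a (b (f (d (a e))))))))))))), t true 1 (c (b (d (f (a (d (b (c (a (b (f (d (a
  e))))))))))))), t true 1 (b (a (d (f (c (a (b (a (c (b (f (d (a e))))))))))))), t false 1 (b (d (f
  (c (b (a (d (b (c (b (f (d (a e))))))))))))), t true 1 (a (b (d (f (c (b (d (b (c (b (f (d (a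
  e))))))))))))), t false 2 (b (d (a (f (c (a (d (a (c (b (a (f (a e))))))))))))), t false 1 (d (a
  (f (c (b (a (d (b (c (b (a (f (a e))))))))))))), t true 1 (c (d (a (f (c (b (a (d (c (b (a (f (a
  e))))))))))))), t false 1 (c (a (f (d (a (c (b (a (d (b (a (f (a e))))))))))))), t false 1 (c (a
  (f (d (b (a (c (b (d (b (a (f (a e))))))))))))), t false 1 (c (a (b (d (b (f (b (d (a (c (a (f (a
  e))))))))))))), t false 1 (c (b (d (a (f (a (d (b (c (a (b (f (a e))))))))))))), t false 1 (b (d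
  (c (a (f (c (d (b (a (c (b (f (a e))))))))))))), t true 1 (d (b (a (f (c (a (b (d (a (c (b (f (a
  e))))))))))))), t true 1 (b (d (a (f (c (b (a (d (b (c (b (f (a e))))))))))))), t true 1 (b (d (b
  (a (f (c (b (d (b (c (b (f (a e))))))))))))), t false 1 (a (b (d (b (f (c (b (d (b (c (b (f (a
  e))))))))))))), t true 1 (b (c (d (a (f (c (b (a (d (c (b (f (a e))))))))))))), t false 1 (b (c (a
  (f (d (a (c (b (a (d (b (f (a e))))))))))))), t false 1 (b (a (f (d (a (c (a (d (b (a (c (f (a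
  e))))))))))))), t true 1 (d (b (a (f (b (a (c (a (d (a (c (f (a e))))))))))))), t false 1 (d (b (a
  (f (a (c (a (b (d (a (c (f (a e))))))))))))), t true 1 (a (d (b (f (b (d (c (a (b (a (c (a (b
  e))))))))))))), t false 1 (a (c (d (b (f (b (d (a (b (a (c (a (b e))))))))))))), t true 1 (d (b (f
  (b (a (c (a (d (b (a (c (a (b e))))))))))))), t false 2 (d (a (b (f (b (c (a (d (b (a (c (a (b
  e))))))))))))), t false 1 (d (b (f (a (c (a (b (d (b (a (c (a (b e))))))))))))), t false 2 (d (b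
  (a (c (a (f (b (d (b (a (c (a (b e))))))))))))), t true 1 (d (a (c (a (b (f (b (d (b (a (c (a (b
  e))))))))))))), t true 1 (a (c (a (d (b (f (b (d (b (a (c (a (b e)))))))))))))]

def c25_2 : List Tm := [t false 2 (d (f (b (a (c (a (f (d (b (a (c (a (b e))))))))))))), t false 1
  (f (d (a (c (a (d (b (f (b (a (c (a (b e))))))))))))), t false 1 (a (c (b (f (d (a (b (a (d (a (c
  (a (b e))))))))))))), t false 1 (c (b (f (d (a (c (b (a (d (a (c (a (b e))))))))))))), t true 1 (a
  (b (f (d (a (b (c (a (d (a (c (a (b e))))))))))))), t true 2 (b (d (f (d (a (c (a (f (d (a (c (a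
  (b e))))))))))))), t false 1 (d (a (b (a (d (b (c (a (f (a (c (a (b e))))))))))))), t true 2 (a (c
  (d (a (b (a (d (a (f (a (c (a (b e))))))))))))), t false 1 (d (b (a (c (a (b (d (b (f (a (c (a (b
  e))))))))))))), t false 1 (b (f (d (a (c (b (a (d (a (b (c (a (b e))))))))))))), t true 1 (c (b (f
  (d (a (c (a (d (a (b (c (a (b e))))))))))))), t true 2 (d (a (c (b (a (d (a (f (a (b (c (a (b
  e))))))))))))), t true 1 (b (f (b (d (a (c (b (a (d (b (c (a (b e))))))))))))), t true 2 (a (c (b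
  (a (d (a (f (a (d (b (c (a (b e))))))))))))), t false 1 (d (f (b (a (c (b (a (f (d (b (c (a (b
  e))))))))))))), t true 2 (f (d (a (c (a (d (a (b (f (b (c (a (b e))))))))))))), t false 1 (b (f (b
  (a (c (d (a (b (a (d (c (a (b e))))))))))))), t true 1 (a (b (f (b (c (d (a (b (a (d (c (a (b
  e))))))))))))), t false 2 (c (d (b (f (b (a (c (b (a (d (c (a (b e))))))))))))), t true 1 (c (b (f
  (b (d (a (c (b (a (d (c (a (b e))))))))))))), t true 2 (c (d (a (b (f (b (c (b (a (d (c (a (b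
  e))))))))))))), t false 1 (f (c (d (a (c (b (f (b (a (d (c (a (b e))))))))))))), t true 2 (a (c (a
  (b (a (d (a (f (a (d (c (a (b e))))))))))))), t false 2 (f (c (d (b (a (c (a (f (b (d (c (a (b
  e))))))))))))), t false 1 (f (c (d (c (b (f (b (a (c (d (c (a (b e))))))))))))), t false 1 (b (a
  (c (d (c (a (f (a (c (d (c (a (b e))))))))))))), t true 1 (f (c (d (c (a (b (f (b (c (d (c (a (b
  e))))))))))))), t false 1 (a (f (c (d (c (a (b (f (c (d (c (a (b e))))))))))))), t false 1 (c (d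
  (f (b (a (c (b (a (f (d (c (a (b e))))))))))))), t true 2 (d (f (c (d (b (a (c (a (f (d (c (a (b
  e))))))))))))), t false 1 (b (d (f (c (d (a (c (a (f (d (c (a (b e))))))))))))), t true 1 (d (b (a
  (c (f (b (d (b (a (f (c (a (b e))))))))))))), t true 1 (a (c (f (d (a (b (a (d (a (f (c (a (b
  e))))))))))))), t false 1 (a (d (c (b (f (b (c (a (b (a (d (a (b e))))))))))))), t true 1 (a (c (b
  (f (b (c (d (a (b (a (d (a (b e))))))))))))), t true 2 (c (a (d (b (f (b (a (c (b (a (d (a (b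
  e))))))))))))), t false 1 (c (a (b (f (b (d (a (c (b (a (d (a (b e))))))))))))), t true 2 (c (b (a
  (d (a (f (b (c (b (a (d (a (b e))))))))))))), t false 2 (c (a (d (a (b (f (b (c (b (a (d (a (b
  e))))))))))))), t true 1 (a (d (a (c (b (f (b (c (b (a (d (a (b e))))))))))))), t false 1 (c (f (b
  (a (d (a (f (c (b (a (d (a (b e))))))))))))), t true 1 (f (c (a (d (a (c (b (f (b (a (d (a (b
  e))))))))))))), t false 1 (a (d (b (f (c (a (b (a (c (a (d (a (b e))))))))))))), t false 2 (f (c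
  (b (a (d (a (f (b (c (a (d (a (b e))))))))))))), t false 2 (c (f (c (b (a (d (a (f (c (a (d (a (b
  e))))))))))))), t true 1 (b (c (f (c (a (d (a (f (c (a (d (a (b e))))))))))))), t true 2 (a (d (c
  (a (b (a (c (a (f (a (d (a (b e))))))))))))), t false 2 (c (a (b (a (c (b (d (a (f (a (d (a (b
  e))))))))))))), t false 2 (b (c (b (a (d (a (b (c (f (a (d (a (b e))))))))))))), t false 2 (d (b
  (c (b (a (d (b (c (f (a (d (a (b e))))))))))))), t true 1 (b (f (c (a (d (b (a (c (a (b (d (a (b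
  e))))))))))))), t true 1 (c (a (d (b (a (c (a (f (a (b (d (a (b e))))))))))))), t true 1 (a (d (b
  (a (c (a (f (a (c (b (d (a (b e))))))))))))), t true 2 (f (c (a (d (b (a (c (a (f (b (d (a (b
  e))))))))))))), t true 1 (f (c (a (d (c (b (f (b (a (c (d (a (b e))))))))))))), t true 1 (a (d (a
  (b (a (c (a (f (a (c (d (a (b e))))))))))))), t true 1 (c (a (d (f (b (a (c (b (a (f (d (a (b
  e))))))))))))), t false 1 (a (d (f (c (a (b (a (c (a (f (d (a (b e))))))))))))), t false 2 (d (f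
  (c (a (d (b (a (c (a (f (d (a (b e))))))))))))), t true 1 (b (d (f (c (a (d (a (c (a (f (d (a (b
  e))))))))))))), t true 1 (c (b (d (f (a (d (b (c (b (f (d (a (b e))))))))))))), t true 2 (d (a (f
  (c (a (d (b (a (c (a (f (a (b e))))))))))))), t false 1 (b (d (a (f (c (a (d (a (c (a (f (a (b
  e))))))))))))), t true 2 (d (a (f (c (b (a (d (b (c (a (f (a (b e))))))))))))), t true 1 (d (b (a
  (f (c (b (d (b (c (a (f (a (b e))))))))))))), t true 1 (d (a (f (c (a (d (a (c (a (b (f (a (b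
  e))))))))))))), t true 2 (a (f (d (a (c (a (d (a (c (b (f (a (b e))))))))))))), t true 1 (c (b (d
  (a (f (a (d (b (c (b (f (a (b e))))))))))))), t false 1 (d (a (f (b (c (a (d (b (a (c (f (a (b
  e))))))))))))), t false 1 (b (a (f (d (a (c (a (d (a (c (f (a (b e))))))))))))), t false 1 (a (f
  (d (b (c (b (d (a (b (c (f (a (b e))))))))))))), t false 1 (d (a (f (b (c (b (a (d (b (c (f (a (b
  e))))))))))))), t true 2 (d (a (b (a (d (a (f (c (a (b (a (c (b e))))))))))))), t true 1 (a (b (c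
  (d (c (f (c (d (a (b (a (c (b e))))))))))))), t false 1 (d (a (c (b (f (c (b (a (d (b (a (c (b
  e))))))))))))), t false 1 (d (b (a (c (a (f (c (b (d (b (a (c (b e))))))))))))), t true 1 (d (a (c
  (a (b (f (c (b (d (b (a (c (b e))))))))))))), t false 1 (d (a (b (a (c (a (f (c (d (b (a (c (b
  e))))))))))))), t false 1 (a (b (c (a (d (c (f (c (d (b (a (c (b e))))))))))))), t false 1 (d (f
  (a (b (a (c (a (f (d (b (a (c (b e))))))))))))), t false 1 (f (d (a (c (a (d (c (b (f (b (a (c (b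
  e))))))))))))), t true 3 (c (b (a (d (a (f (c (b (a (d (a (c (b e))))))))))))), t false 2 (c (a (d
  (a (b (f (c (b (a (d (a (c (b e))))))))))))), t true 1 (a (d (a (c (b (f (c (b (a (d (a (c (b
  e))))))))))))), t true 1 (f (c (b (a (d (a (f (b (a (d (a (c (b e))))))))))))), t true 1 (f (b (a
  (d (a (f (b (c (a (d (a (c (b e))))))))))))), t false 2 (c (a (d (a (c (b (f (c (a (d (a (c (b
  e))))))))))))), t false 1 (b (c (a (d (a (c (f (c (a (d (a (c (b e))))))))))))), t true 2 (c (f (c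
  (b (a (d (a (f (a (d (a (c (b e))))))))))))), t false 1 (c (b (a (d (b (a (f (c (b (d (a (c (b
  e))))))))))))), t true 1 (a (d (b (a (c (a (f (c (b (d (a (c (b e))))))))))))), t true 1 (b (a (d
  (b (c (a (f (c (b (d (a (c (b e))))))))))))), t false 1 (a (d (a (c (a (b (f (c (b (d (a (c (b
  e))))))))))))), t false 1 (f (c (b (a (d (b (a (f (b (d (a (c (b e))))))))))))), t true 1 (f (b (a
  (d (b (c (a (f (b (d (a (c (b e))))))))))))), t true 1 (f (b (a (d (c (a (f (b (c (d (a (c (b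
  e))))))))))))), t true 1 (a (d (a (b (a (c (a (f (c (d (a (c (b e))))))))))))), t true 1 (a (b (c
  (a (b (d (c (f (c (d (a (c (b e))))))))))))), t true 1 (a (d (f (a (b (a (c (a (f (d (a (c (b
  e))))))))))))), t true 1 (b (d (f (a (d (a (c (a (f (d (a (c (b e)))))))))))))]

def c25_3 : List Tm := [t false 2 (d (a (f (c (b (a (d (b (a (f (a (c (b e))))))))))))), t true 1 (a
  (f (d (a (c (a (d (c (b (f (a (c (b e))))))))))))), t true 1 (a (b (c (b (d (c (f (c (d (a (b (c
  (b e))))))))))))), t false 1 (d (a (b (a (c (b (a (f (c (d (b (c (b e))))))))))))), t false 1 (a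
  (b (c (b (a (d (c (f (c (d (b (c (b e))))))))))))), t false 1 (f (a (c (d (a (c (b (f (b (a (d (c
  (b e))))))))))))), t true 1 (f (b (a (c (d (a (f (b (c (a (d (c (b e))))))))))))), t true 1 (a (f
  (a (c (d (a (c (b (f (a (d (c (b e))))))))))))), t false 1 (f (a (c (d (b (a (c (a (f (b (d (c (b
  e))))))))))))), t true 1 (a (b (c (d (c (f (a (b (a (c (d (c (b e))))))))))))), t false 1 (f (c (d
  (c (a (b (f (b (a (c (d (c (b e))))))))))))), t true 1 (b (a (f (c (d (c (a (f (a (c (d (c (b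
  e))))))))))))), t false 1 (a (f (c (d (c (b (f (a (b (c (d (c (b e))))))))))))), t true 1 (f (b (a
  (c (d (c (a (f (b (c (d (c (b e))))))))))))), t true 3 (a (b (c (d (c (a (b (a (f (c (d (c (b
  e))))))))))))), t true 1 (c (d (a (b (a (c (b (a (f (c (d (c (b e))))))))))))), t false 1 (a (c (d
  (a (b (a (c (a (f (c (d (c (b e))))))))))))), t false 1 (a (b (c (a (b (a (d (c (f (c (d (c (b
  e))))))))))))), t true 1 (a (b (c (d (f (c (a (b (a (f (d (c (b e))))))))))))), t false 2 (a (b (d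
  (f (c (d (a (b (a (f (d (c (b e))))))))))))), t false 1 (c (d (f (a (b (a (c (b (a (f (d (c (b
  e))))))))))))), t true 1 (a (c (d (f (a (b (a (c (a (f (d (c (b e))))))))))))), t true 1 (d (f (a
  (c (d (b (a (c (a (f (d (c (b e))))))))))))), t true 1 (d (a (c (f (a (d (b (a (c (a (f (c (b
  e))))))))))))), t false 1 (b (d (a (c (f (a (d (a (c (a (f (c (b e))))))))))))), t false 1 (a (d
  (b (c (f (c (a (b (d (a (f (c (b e))))))))))))), t false 1 (a (d (b (c (f (c (b (d (a (b (f (c (b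
  e))))))))))))), t true 1 (c (a (b (a (c (a (f (d (a (b (a (d (b e))))))))))))), t true 1 (a (b (a
  (c (a (f (d (a (c (b (a (d (b e))))))))))))), t true 1 (d (b (a (c (a (f (d (b (a (c (a (d (b
  e))))))))))))), t true 2 (f (d (b (a (c (a (f (b (a (c (a (d (b e))))))))))))), t false 1 (b (d (a
  (c (a (d (f (d (a (c (a (d (b e))))))))))))), t false 1 (c (a (f (d (b (a (c (b (a (f (a (d (b
  e))))))))))))), t false 1 (b (a (c (a (f (d (b (a (c (a (b (d (b e))))))))))))), t true 1 (a (c (a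
  (b (f (d (b (a (c (a (b (d (b e))))))))))))), t false 1 (f (d (b (a (c (a (f (a (c (a (b (d (b
  e))))))))))))), t true 1 (a (b (a (c (a (f (d (b (a (c (b (d (b e))))))))))))), t true 1 (a (b (a
  (c (b (a (f (d (b (c (b (d (b e))))))))))))), t true 1 (b (a (c (a (d (f (d (a (c (a (f (d (b
  e))))))))))))), t false 1 (a (c (a (b (d (f (d (a (c (a (f (d (b e))))))))))))), t false 1 (a (c
  (b (d (f (d (b (c (a (b (f (d (b e))))))))))))), t true 1 (d (b (c (a (b (d (a (c (a (b (a (f (b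
  e))))))))))))), t true 1 (d (b (c (b (d (a (b (c (a (b (a (f (b e))))))))))))), t true 2 (b (c (d
  (a (b (a (d (c (a (b (a (f (b e))))))))))))), t true 1 (d (b (a (c (a (b (d (b (a (c (a (f (b
  e))))))))))))), t false 1 (f (d (a (c (a (d (f (b (a (c (a (f (b e))))))))))))), t false 1 (b (d
  (a (c (b (a (d (a (b (c (a (f (b e))))))))))))), t true 1 (d (a (c (b (a (d (a (b (c (a (b (f (b
  e))))))))))))), t false 1 (b (d (a (c (b (a (d (b (c (a (b (f (b e))))))))))))), t true 3 (c (d (a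
  (b (a (d (a (b (a (c (b (f (b e))))))))))))), t true 1 (a (b (d (a (c (a (d (b (a (c (b (f (b
  e))))))))))))), t true 1 (a (d (b (a (c (a (b (d (a (c (b (f (b e))))))))))))), t true 1 (d (c (a
  (b (a (c (a (b (a (d (b (f (b e))))))))))))), t false 3 (b (c (d (a (b (a (d (a (b (a (c (f (b
  e))))))))))))), t false 1 (b (d (c (a (b (a (c (a (b (a (d (f (b e))))))))))))), t true 2 (a (b (a
  (d (a (f (a (d (c (a (b (a (c e))))))))))))), t true 1 (f (d (a (b (a (d (a (f (c (a (b (a (c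
  e))))))))))))), t false 2 (a (b (a (c (d (a (f (a (d (a (b (a (c e))))))))))))), t true 2 (b (c (d
  (a (b (c (f (a (d (a (b (a (c e))))))))))))), t true 1 (a (b (f (d (b (a (c (a (b (d (b (a (c
  e))))))))))))), t true 1 (a (c (b (f (d (b (a (c (b (d (b (a (c e))))))))))))), t true 1 (b (a (c
  (a (f (d (b (c (b (d (b (a (c e))))))))))))), t false 1 (a (c (a (b (f (d (b (c (b (d (b (a (c
  e))))))))))))), t true 1 (f (d (b (a (c (a (f (c (b (d (b (a (c e))))))))))))), t false 2 (c (b (d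
  (f (d (a (b (a (f (d (b (a (c e))))))))))))), t false 1 (a (b (d (f (d (a (c (a (f (d (b (a (c
  e))))))))))))), t true 1 (b (d (f (d (a (b (c (a (f (d (b (a (c e))))))))))))), t true 1 (d (b (c
  (b (d (c (a (b (a (f (b (a (c e))))))))))))), t true 1 (d (b (a (c (b (d (c (b (a (f (b (a (c
  e))))))))))))), t false 1 (a (d (b (a (c (b (a (f (b (a (d (a (c e))))))))))))), t false 1 (b (a
  (d (b (c (b (a (f (b (a (d (a (c e))))))))))))), t true 2 (b (a (d (a (b (c (b (f (b (a (d (a (c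
  e))))))))))))), t true 3 (b (c (a (d (a (b (c (f (b (a (d (a (c e))))))))))))), t true 1 (b (a (d
  (b (a (f (b (a (c (a (d (a (c e))))))))))))), t true 3 (b (c (a (d (a (c (f (b (c (a (d (a (c
  e))))))))))))), t false 2 (b (c (f (b (c (a (d (a (f (a (d (a (c e))))))))))))), t true 1 (f (b (a
  (d (b (a (f (c (a (b (d (a (c e))))))))))))), t false 1 (c (f (b (a (d (b (a (f (a (b (d (a (c
  e))))))))))))), t false 2 (f (c (b (a (d (b (a (f (c (b (d (a (c e))))))))))))), t false 1 (a (b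
  (a (c (b (d (b (a (f (b (d (a (c e))))))))))))), t false 1 (a (b (c (b (d (b (a (c (f (b (d (a (c
  e))))))))))))), t true 1 (a (b (c (a (b (d (b (c (f (b (d (a (c e))))))))))))), t true 1 (d (a (b
  (c (a (b (d (c (f (b (d (a (c e))))))))))))), t false 1 (a (b (d (b (a (c (a (d (f (b (d (a (c
  e))))))))))))), t true 1 (c (b (d (f (a (d (a (b (a (f (d (a (c e))))))))))))), t true 1 (a (b (d
  (f (b (d (a (c (a (f (d (a (c e))))))))))))), t false 1 (b (d (f (a (d (a (b (c (a (f (d (a (c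
  e))))))))))))), t true 1 (d (b (a (f (c (b (d (c (b (a (f (a (c e))))))))))))), t true 1 (c (a (f
  (d (a (b (a (d (b (a (f (a (c e))))))))))))), t false 1 (a (f (d (a (c (b (a (d (b (a (f (a (c
  e))))))))))))), t false 1 (a (f (d (b (a (c (b (d (b (a (f (a (c e))))))))))))), t false 1 (a (b
  (d (b (f (b (d (a (c (a (f (a (c e))))))))))))), t false 1 (b (a (f (d (a (c (a (d (b (c (f (a (c
  e))))))))))))), t false 1 (a (d (b (f (b (a (c (b (a (d (a (b (c e))))))))))))), t true 1 (a (b (f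
  (b (d (a (c (b (a (d (a (b (c e))))))))))))), t true 1 (a (d (a (b (f (b (c (b (a (d (a (b (c
  e))))))))))))), t false 1 (f (b (a (d (a (f (c (b (a (d (a (b (c e))))))))))))), t true 2 (c (f (b
  (a (d (a (f (b (a (d (a (b (c e))))))))))))), t false 2 (f (c (b (a (d (a (f (c (a (d (a (b (c
  e))))))))))))), t true 2 (a (d (b (a (c (b (a (f (a (d (a (b (c e)))))))))))))]

def c25_4 : List Tm := [t false 2 (a (b (a (c (b (d (a (f (a (d (a (b (c e))))))))))))), t false 2
  (b (c (b (a (d (a (c (f (a (d (a (b (c e))))))))))))), t true 2 (b (c (a (d (a (b (c (f (a (d (a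
  (b (c e))))))))))))), t false 2 (d (b (c (b (a (d (c (f (a (d (a (b (c e))))))))))))), t true 1 (b
  (d (f (a (d (b (c (b (f (d (a (b (c e))))))))))))), t false 1 (c (d (a (f (b (a (d (b (a (f (a (b
  (c e))))))))))))), t true 2 (d (a (f (c (b (a (d (c (a (f (a (b (c e))))))))))))), t true 1 (d (b
  (a (f (c (b (d (c (a (f (a (b (c e))))))))))))), t false 1 (d (a (f (c (a (d (c (a (b (f (a (b (c
  e))))))))))))), t true 1 (b (d (a (f (a (d (b (c (b (f (a (b (c e))))))))))))), t false 1 (a (f (d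
  (b (c (b (d (a (c (f (a (b (c e))))))))))))), t false 1 (d (a (f (b (c (b (a (d (c (f (a (b (c
  e))))))))))))), t false 1 (a (f (d (b (a (c (b (a (f (a (d (b (c e))))))))))))), t false 1 (a (c
  (b (f (d (b (a (c (a (b (d (b (c e))))))))))))), t false 1 (b (a (c (a (f (d (b (c (a (b (d (b (c
  e))))))))))))), t true 1 (a (c (a (b (f (d (b (c (a (b (d (b (c e))))))))))))), t false 1 (f (d (b
  (a (c (a (f (c (a (b (d (b (c e))))))))))))), t false 1 (c (a (b (d (f (d (a (b (a (f (d (b (c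
  e))))))))))))), t true 1 (a (c (b (d (f (d (a (c (a (f (d (b (c e))))))))))))), t false 1 (a (b (d
  (f (d (b (a (c (b (f (d (b (c e))))))))))))), t true 1 (d (b (c (a (b (d (c (a (b (a (f (b (c
  e))))))))))))), t true 1 (a (b (d (a (c (a (d (a (b (a (f (b (c e))))))))))))), t false 1 (b (d (a
  (c (b (a (d (a (c (a (f (b (c e))))))))))))), t true 1 (b (d (a (c (a (d (a (b (c (a (f (b (c
  e))))))))))))), t true 1 (b (d (a (c (a (d (b (c (a (b (f (b (c e))))))))))))), t false 1 (a (d (b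
  (a (c (a (b (d (a (b (f (b (c e))))))))))))), t true 3 (d (a (b (a (d (a (b (a (c (b (f (b (c
  e))))))))))))), t true 3 (b (c (d (a (b (a (d (b (a (c (f (b (c e))))))))))))), t false 1 (a (b (c
  (d (c (f (a (c (a (b (a (d (c e))))))))))))), t false 1 (b (c (d (c (f (a (b (c (a (b (a (d (c
  e))))))))))))), t false 1 (b (c (d (b (c (a (b (a (f (b (a (d (c e))))))))))))), t true 1 (b (a (c
  (d (a (b (c (b (f (b (a (d (c e))))))))))))), t false 1 (b (a (c (d (b (a (f (b (a (c (a (d (c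
  e))))))))))))), t true 1 (a (f (c (d (b (a (c (b (a (f (a (d (c e))))))))))))), t false 1 (b (a (f
  (b (a (c (d (a (c (f (a (d (c e))))))))))))), t false 1 (c (a (f (b (a (d (b (a (f (a (b (d (c
  e))))))))))))), t false 2 (a (f (c (d (b (a (c (a (f (a (b (d (c e))))))))))))), t false 1 (b (a
  (f (c (d (b (c (a (f (a (b (d (c e))))))))))))), t true 1 (a (f (c (d (a (c (a (b (f (a (b (d (c
  e))))))))))))), t true 1 (a (f (b (c (d (b (a (c (f (a (b (d (c e))))))))))))), t false 1 (a (b (c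
  (d (a (c (a (b (a (f (b (d (c e))))))))))))), t true 1 (b (c (d (a (b (c (a (b (a (f (b (d (c
  e))))))))))))), t true 1 (d (c (a (b (a (d (c (b (a (f (b (d (c e))))))))))))), t false 1 (b (a (c
  (d (a (b (c (a (b (f (b (d (c e))))))))))))), t true 1 (a (b (a (c (a (b (a (d (b (f (b (d (c
  e))))))))))))), t false 1 (d (a (b (c (a (b (a (d (c (f (b (d (c e))))))))))))), t true 1 (a (b (d
  (a (c (a (b (a (d (f (b (d (c e))))))))))))), t false 1 (b (c (d (c (a (b (a (f (b (a (c (d (c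
  e))))))))))))), t false 1 (b (a (c (d (c (b (a (f (b (a (c (d (c e))))))))))))), t false 1 (b (a
  (f (c (d (c (b (a (f (a (c (d (c e))))))))))))), t false 1 (b (a (f (c (d (c (a (f (a (b (c (d (c
  e))))))))))))), t true 1 (a (f (c (d (c (a (b (f (a (b (c (d (c e))))))))))))), t false 1 (a (b (c
  (d (c (a (b (a (f (b (c (d (c e))))))))))))), t true 1 (f (a (b (c (d (c (a (b (a (f (c (d (c
  e))))))))))))), t false 1 (a (b (c (d (f (a (c (a (b (a (f (d (c e))))))))))))), t true 1 (b (c (d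
  (f (a (b (c (a (b (a (f (d (c e))))))))))))), t false 1 (d (f (a (b (c (d (c (a (b (a (f (d (c
  e))))))))))))), t true 1 (b (d (f (a (b (c (d (a (b (a (f (d (c e))))))))))))), t false 1 (a (b (d
  (f (c (d (a (c (b (a (f (d (c e))))))))))))), t false 1 (b (d (f (c (d (a (b (c (b (a (f (d (c
  e))))))))))))), t false 1 (a (c (b (d (f (b (d (a (c (a (f (d (c e))))))))))))), t false 1 (b (d
  (f (b (a (c (d (a (c (a (f (d (c e))))))))))))), t true 1 (a (b (d (f (c (d (b (a (c (b (f (d (c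
  e))))))))))))), t true 1 (d (b (c (f (a (b (d (c (a (b (a (f (c e))))))))))))), t true 1 (d (c (f
  (a (b (c (d (c (a (b (a (f (c e))))))))))))), t false 1 (c (b (d (a (b (f (a (d (a (b (a (f (c
  e))))))))))))), t false 1 (b (d (b (c (f (a (b (d (a (b (a (f (c e))))))))))))), t false 1 (b (d
  (c (f (a (b (c (d (a (b (a (f (c e))))))))))))), t true 1 (a (c (f (d (a (c (b (a (d (b (a (f (c
  e))))))))))))), t true 1 (a (c (f (d (b (a (c (b (d (b (a (f (c e))))))))))))), t false 1 (b (d (a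
  (c (f (b (a (d (a (c (a (f (c e))))))))))))), t true 1 (a (c (b (d (b (f (b (d (a (c (a (f (c
  e))))))))))))), t true 1 (b (d (a (c (f (a (d (a (b (c (a (f (c e))))))))))))), t true 1 (a (d (b
  (a (c (f (a (b (d (a (b (f (c e))))))))))))), t true 1 (a (b (a (c (f (d (a (b (a (d (b (f (c
  e))))))))))))), t true 1 (a (b (c (f (d (a (c (b (a (d (b (f (c e))))))))))))), t false 1 (a (b (a
  (d (c (a (f (a (c (a (b (a (d e))))))))))))), t true 1 (a (b (c (a (d (c (f (a (c (a (b (a (d
  e))))))))))))), t true 1 (b (c (a (b (d (c (f (a (c (a (b (a (d e))))))))))))), t true 1 (b (c (b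
  (d (c (f (a (b (c (a (b (a (d e))))))))))))), t true 1 (a (b (a (c (a (f (a (c (d (a (b (a (d
  e))))))))))))), t true 1 (f (c (a (b (a (c (a (f (d (a (b (a (d e))))))))))))), t false 2 (d (b (c
  (f (c (a (b (a (f (c (b (a (d e))))))))))))), t false 1 (a (c (f (c (b (a (d (a (f (c (b (a (d
  e))))))))))))), t false 1 (b (c (f (c (a (b (d (a (f (c (b (a (d e))))))))))))), t true 1 (b (c (b
  (d (b (c (a (b (a (f (b (a (d e))))))))))))), t true 1 (b (a (c (a (b (d (a (c (b (f (b (a (d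
  e))))))))))))), t false 1 (a (c (b (a (d (a (b (c (b (f (b (a (d e))))))))))))), t false 1 (b (a
  (c (b (d (a (b (c (b (f (b (a (d e))))))))))))), t true 2 (f (d (b (a (c (a (f (d (b (a (c (a (d
  e))))))))))))), t true 2 (b (a (c (b (d (b (a (f (b (a (c (a (d e))))))))))))), t true 1 (a (b (a
  (d (b (c (a (f (b (a (c (a (d e))))))))))))), t true 1 (b (c (b (d (b (a (c (f (b (a (c (a (d
  e))))))))))))), t false 1 (b (c (a (b (d (b (c (f (b (a (c (a (d e))))))))))))), t true 1 (b (d (b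
  (a (c (a (d (f (b (a (c (a (d e))))))))))))), t true 1 (b (d (a (c (a (d (f (b (d (a (c (a (d
  e))))))))))))), t false 1 (d (f (b (a (c (b (a (f (a (b (c (a (d e))))))))))))), t false 1 (b (a
  (c (a (b (d (a (b (f (b (c (a (d e))))))))))))), t false 3 (a (b (a (d (a (b (c (b (f (b (c (a (d
  e))))))))))))), t true 3 (b (c (a (b (d (a (b (c (f (b (c (a (d e)))))))))))))]

def c25_5 : List Tm := [t true 1 (d (b (c (f (a (c (a (b (a (f (c (a (d e))))))))))))), t false 1 (b
  (c (f (a (c (b (d (a (b (f (c (a (d e))))))))))))), t true 1 (c (a (f (c (d (b (a (c (b (a (f (a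
  (d e))))))))))))), t false 1 (a (f (c (b (a (d (b (c (b (a (f (a (d e))))))))))))), t true 1 (b (c
  (a (f (a (c (b (d (a (b (f (a (d e))))))))))))), t true 1 (b (a (f (c (a (b (d (a (c (b (f (a (d
  e))))))))))))), t true 1 (b (a (f (b (a (c (a (d (a (c (f (a (d e))))))))))))), t false 1 (b (a (f
  (a (c (a (b (d (a (c (f (a (d e))))))))))))), t false 1 (f (b (a (c (a (f (d (b (a (c (a (b (d
  e))))))))))))), t true 2 (d (f (b (a (c (a (f (b (a (c (a (b (d e))))))))))))), t true 2 (a (c (b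
  (a (d (b (a (f (a (c (a (b (d e))))))))))))), t false 1 (a (b (a (d (b (c (a (f (a (c (a (b (d
  e))))))))))))), t false 1 (b (a (c (a (b (d (b (f (a (c (a (b (d e))))))))))))), t false 1 (f (b
  (a (c (b (a (f (d (b (c (a (b (d e))))))))))))), t true 1 (a (c (f (b (a (d (b (a (f (c (a (b (d
  e))))))))))))), t true 1 (b (a (c (f (b (d (b (a (f (c (a (b (d e))))))))))))), t false 1 (d (c (a
  (f (b (a (c (b (a (f (a (b (d e))))))))))))), t true 2 (a (f (c (a (d (b (a (c (a (f (a (b (d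
  e))))))))))))), t true 2 (a (f (c (b (a (d (b (c (a (f (a (b (d e))))))))))))), t true 1 (b (a (f
  (c (b (d (b (c (a (f (a (b (d e))))))))))))), t false 1 (a (f (c (a (d (a (c (a (b (f (a (b (d
  e))))))))))))), t false 1 (a (f (b (c (a (d (b (a (c (f (a (b (d e))))))))))))), t false 1 (a (f
  (b (c (b (a (d (b (c (f (a (b (d e))))))))))))), t false 2 (a (f (c (b (a (d (b (a (f (a (c (b (d
  e))))))))))))), t false 1 (d (a (b (c (f (c (a (b (a (f (c (b (d e))))))))))))), t false 1 (a (c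
  (f (c (b (a (d (b (a (f (c (b (d e))))))))))))), t true 1 (a (b (c (f (c (a (d (b (a (f (c (b (d
  e))))))))))))), t false 1 (a (b (c (f (c (b (a (d (b (f (c (b (d e))))))))))))), t true 1 (a (b (c
  (a (d (a (c (a (b (a (f (b (d e))))))))))))), t false 1 (b (c (a (b (d (a (c (a (b (a (f (b (d
  e))))))))))))), t false 1 (b (c (b (d (a (b (c (a (b (a (f (b (d e))))))))))))), t true 2 (b (a (c
  (a (b (d (b (a (c (a (f (b (d e))))))))))))), t false 1 (b (d (b (a (c (a (d (a (c (a (f (b (d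
  e))))))))))))), t true 1 (a (c (b (a (d (a (b (c (a (b (f (b (d e))))))))))))), t true 1 (b (a (c
  (b (d (a (b (c (a (b (f (b (d e))))))))))))), t true 1 (a (b (a (d (c (a (b (a (c (b (f (b (d
  e))))))))))))), t true 1 (c (a (b (a (c (a (b (a (d (b (f (b (d e))))))))))))), t true 1 (b (d (c
  (a (b (a (c (b (a (d (f (b (d e))))))))))))), t true 1 (b (c (b (d (c (a (b (a (f (b (a (c (d
  e))))))))))))), t true 1 (b (a (c (b (d (c (b (a (f (b (a (c (d e))))))))))))), t false 1 (a (f (c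
  (b (a (d (c (b (a (f (a (c (d e))))))))))))), t true 1 (b (a (f (c (b (d (c (b (a (f (a (c (d
  e))))))))))))), t false 1 (d (a (f (b (a (c (b (a (f (a (b (c (d e))))))))))))), t true 2 (a (f (c
  (b (a (d (c (a (f (a (b (c (d e))))))))))))), t true 1 (b (a (f (c (b (d (c (a (f (a (b (c (d
  e))))))))))))), t false 1 (a (f (c (a (d (c (a (b (f (a (b (c (d e))))))))))))), t false 1 (a (f
  (b (c (b (a (d (c (f (a (b (c (d e))))))))))))), t true 1 (a (b (c (a (d (c (a (b (a (f (b (c (d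
  e))))))))))))), t true 1 (b (c (a (b (d (c (a (b (a (f (b (c (d e))))))))))))), t true 3 (a (b (a
  (d (a (b (a (c (b (f (b (c (d e))))))))))))), t false 3 (b (c (a (b (d (a (b (a (c (f (b (c (d
  e))))))))))))), t false 1 (a (b (c (f (a (d (c (a (b (a (f (c (d e))))))))))))), t true 1 (b (c (f
  (a (b (d (c (a (b (a (f (c (d e))))))))))))), t true 1 (c (f (a (b (c (d (c (a (b (a (f (c (d
  e))))))))))))), t false 1 (d (b (c (a (b (f (a (c (a (b (a (f (d e))))))))))))), t true 1 (a (b (c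
  (a (d (f (a (c (a (b (a (f (d e))))))))))))), t false 1 (b (c (a (b (d (f (a (c (a (b (a (f (d
  e))))))))))))), t false 1 (b (c (b (d (f (a (b (c (a (b (a (f (d e))))))))))))), t false 1 (c (d
  (f (a (b (c (d (c (a (b (a (f (d e))))))))))))), t true 1 (c (a (b (d (f (a (c (d (a (b (a (f (d
  e))))))))))))), t true 1 (c (b (d (f (a (b (c (d (a (b (a (f (d e))))))))))))), t true 1 (a (b (d
  (f (c (a (d (a (c (b (a (f (d e))))))))))))), t true 2 (b (d (f (c (a (b (d (a (c (b (a (f (d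
  e))))))))))))), t true 1 (b (d (f (c (b (d (a (b (c (b (a (f (d e))))))))))))), t true 1 (a (d (f
  (c (b (a (d (b (c (b (a (f (d e))))))))))))), t false 1 (b (a (c (a (b (d (f (b (a (c (a (f (d
  e))))))))))))), t true 1 (b (d (f (b (a (c (a (d (a (c (a (f (d e))))))))))))), t false 1 (b (d (f
  (a (c (a (b (d (a (c (a (f (d e))))))))))))), t false 1 (b (a (c (a (d (f (b (d (a (c (a (f (d
  e))))))))))))), t true 1 (a (c (a (b (d (f (b (d (a (c (a (f (d e))))))))))))), t true 1 (a (c (b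
  (a (d (f (a (b (c (a (b (f (d e))))))))))))), t true 1 (a (c (b (d (f (a (d (b (c (a (b (f (d
  e))))))))))))), t true 1 (a (b (a (d (f (c (a (b (a (c (b (f (d e))))))))))))), t false 1 (a (b (d
  (f (c (b (a (d (b (c (b (f (d e))))))))))))), t true 1 (f (d (b (c (a (b (d (a (c (a (b (a (f
  e))))))))))))), t false 1 (d (b (c (a (b (d (f (a (c (a (b (a (f e))))))))))))), t true 1 (f (d (b
  (c (b (d (a (b (c (a (b (a (f e))))))))))))), t false 1 (d (b (c (b (d (f (a (b (c (a (b (a (f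
  e))))))))))))), t true 1 (f (b (c (d (a (b (a (d (c (a (b (a (f e))))))))))))), t true 1 (b (c (d
  (a (b (f (a (d (c (a (b (a (f e))))))))))))), t true 1 (c (d (b (c (f (a (b (d (c (a (b (a (f
  e))))))))))))), t true 1 (c (d (c (f (a (b (c (d (c (a (b (a (f e))))))))))))), t true 1 (f (c (a
  (b (d (a (c (a (d (a (b (a (f e))))))))))))), t false 1 (c (a (b (d (a (c (f (a (d (a (b (a (f
  e))))))))))))), t false 1 (c (b (d (b (c (f (a (b (d (a (b (a (f e))))))))))))), t false 1 (c (a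
  (b (d (c (f (a (c (d (a (b (a (f e))))))))))))), t false 1 (c (b (d (c (f (a (b (c (d (a (b (a (f
  e))))))))))))), t false 1 (a (b (d (a (f (c (a (d (a (c (b (a (f e))))))))))))), t false 3 (b (d
  (a (b (f (c (a (d (a (c (b (a (f e))))))))))))), t false 2 (b (d (b (f (c (a (b (d (a (c (b (a (f
  e))))))))))))), t false 1 (b (d (c (a (b (f (c (d (a (c (b (a (f e))))))))))))), t false 1 (b (d
  (b (f (c (b (d (a (b (c (b (a (f e))))))))))))), t false 1 (a (d (a (f (c (b (a (d (b (c (b (a (f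
  e))))))))))))), t true 1 (a (c (d (a (f (c (b (a (d (c (b (a (f e))))))))))))), t true 2 (b (c (d
  (a (b (f (c (a (d (c (b (a (f e))))))))))))), t false 1 (a (c (a (f (d (a (c (b (a (d (b (a (f
  e))))))))))))), t false 1 (a (c (a (f (d (b (a (c (b (d (b (a (f e))))))))))))), t true 1 (f (d (b
  (a (c (a (b (d (b (a (c (a (f e))))))))))))), t true 1 (b (d (a (c (a (d (b (f (b (a (c (a (f
  e))))))))))))), t false 1 (d (b (a (c (a (b (d (f (b (a (c (a (f e)))))))))))))]

def c25_6 : List Tm := [t false 1 (b (d (a (c (b (f (b (a (d (a (c (a (f e))))))))))))), t false 2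
  (c (b (d (a (c (f (b (a (d (a (c (a (f e))))))))))))), t false 1 (b (d (b (f (b (a (c (a (d (a (c
  (a (f e))))))))))))), t true 3 (b (d (a (b (f (b (c (a (d (a (c (a (f e))))))))))))), t true 1 (b
  (d (b (f (a (c (a (b (d (a (c (a (f e))))))))))))), t false 1 (b (d (a (c (a (b (f (b (d (a (c (a
  (f e))))))))))))), t true 1 (b (a (c (a (d (b (f (b (d (a (c (a (f e))))))))))))), t false 1 (a (c
  (a (b (d (b (f (b (d (a (c (a (f e))))))))))))), t true 1 (b (f (d (a (c (a (d (b (f (a (c (a (f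
  e))))))))))))), t true 1 (c (b (d (a (c (f (a (d (a (b (c (a (f e))))))))))))), t false 2 (b (c (d
  (a (b (f (b (c (a (d (c (a (f e))))))))))))), t true 1 (d (a (c (b (a (d (f (a (b (c (a (b (f
  e))))))))))))), t false 1 (f (b (d (a (c (b (a (d (b (c (a (b (f e))))))))))))), t false 1 (a (c
  (b (d (a (f (a (d (b (c (a (b (f e))))))))))))), t false 1 (f (c (a (d (b (a (c (a (b (d (a (b (f
  e))))))))))))), t true 1 (c (a (d (b (a (c (f (a (b (d (a (b (f e))))))))))))), t false 1 (f (d (a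
  (b (a (d (c (a (b (a (c (b (f e))))))))))))), t true 1 (d (a (b (a (d (f (c (a (b (a (c (b (f
  e))))))))))))), t true 3 (f (c (d (a (b (a (d (a (b (a (c (b (f e))))))))))))), t false 1 (f (a (b
  (d (a (c (a (d (b (a (c (b (f e))))))))))))), t false 1 (a (b (d (c (a (f (c (d (b (a (c (b (f
  e))))))))))))), t true 1 (a (d (b (a (f (c (a (b (d (a (c (b (f e))))))))))))), t false 1 (f (a (d
  (b (a (c (b (d (a (b (c (b (f e))))))))))))), t false 1 (f (a (b (d (a (c (b (a (d (b (c (b (f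
  e))))))))))))), t true 1 (a (b (d (a (f (c (b (a (d (b (c (b (f e))))))))))))), t true 1 (a (b (d
  (b (a (f (c (b (d (b (c (b (f e))))))))))))), t true 1 (a (b (c (d (a (f (c (b (a (d (c (b (f
  e))))))))))))), t true 1 (f (d (c (a (b (a (c (a (b (a (d (b (f e))))))))))))), t false 1 (f (c (a
  (b (a (c (d (a (b (a (d (b (f e))))))))))))), t true 1 (c (a (b (a (c (f (d (a (b (a (d (b (f
  e))))))))))))), t false 1 (a (b (c (a (f (d (a (c (b (a (d (b (f e))))))))))))), t false 3 (f (b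
  (c (d (a (b (a (d (a (b (a (c (f e))))))))))))), t false 1 (a (b (a (f (d (a (c (a (d (b (a (c (f
  e))))))))))))), t true 1 (a (d (b (a (f (b (a (c (a (d (a (c (f e))))))))))))), t false 1 (a (d (b
  (a (f (a (c (a (b (d (a (c (f e))))))))))))), t false 1 (f (b (d (c (a (b (a (c (a (b (a (d (f
  e)))))))))))))]

def c25 : List (List Tm) := [c25_0, c25_1, c25_2, c25_3, c25_4, c25_5, c25_6]

def c34_0 : List Tm := [t false 1 (c (f (a (d (a (f (d (b (a (c (a (b (a e))))))))))))), t true 1 (c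
  (a (b (f (a (d (a (f (a (c (a (b (a e))))))))))))), t true 2 (c (f (b (d (b (f (d (a (b (c (a (b
  (a e))))))))))))), t false 2 (c (f (b (a (d (b (f (d (b (c (a (b (a e))))))))))))), t true 1 (c (a
  (f (b (a (d (b (f (b (c (a (b (a e))))))))))))), t true 1 (f (a (c (a (f (c (b (a (d (c (a (b (a
  e))))))))))))), t false 1 (f (c (a (b (a (c (f (c (d (c (a (b (a e))))))))))))), t true 1 (c (f (d
  (a (b (a (d (f (d (c (a (b (a e))))))))))))), t true 3 (d (f (c (d (c (a (b (a (f (c (a (b (a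
  e))))))))))))), t false 1 (d (f (c (a (b (a (d (c (f (c (a (b (a e))))))))))))), t true 2 (d (f (a
  (c (a (f (c (b (a (d (a (b (a e))))))))))))), t false 1 (a (f (c (a (d (c (f (b (a (d (a (b (a
  e))))))))))))), t false 2 (d (a (b (f (a (c (a (f (a (d (a (b (a e))))))))))))), t true 1 (a (b (f
  (c (a (d (c (f (a (d (a (b (a e))))))))))))), t true 1 (b (f (c (a (b (d (c (f (a (d (a (b (a
  e))))))))))))), t false 1 (d (f (b (c (b (f (c (a (b (d (a (b (a e))))))))))))), t true 1 (b (f (c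
  (b (d (c (f (a (b (d (a (b (a e))))))))))))), t true 1 (d (f (b (a (c (b (f (c (b (d (a (b (a
  e))))))))))))), t false 1 (a (f (c (b (a (d (c (f (b (d (a (b (a e))))))))))))), t false 1 (b (a
  (f (c (b (d (c (f (b (d (a (b (a e))))))))))))), t false 1 (d (f (c (a (b (a (c (f (c (d (a (b (a
  e))))))))))))), t false 4 (c (f (c (d (c (a (b (a (f (d (a (b (a e))))))))))))), t false 1 (a (c
  (f (a (d (c (b (a (f (d (a (b (a e))))))))))))), t true 1 (a (b (c (f (a (d (c (a (f (d (a (b (a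
  e))))))))))))), t true 1 (b (c (f (a (b (d (c (a (f (d (a (b (a e))))))))))))), t true 1 (b (c (f
  (b (d (c (a (b (f (d (a (b (a e))))))))))))), t false 1 (a (c (f (b (a (d (c (b (f (d (a (b (a
  e))))))))))))), t false 1 (b (a (c (f (b (d (c (b (f (d (a (b (a e))))))))))))), t true 1 (c (f (a
  (b (a (c (d (c (f (d (a (b (a e))))))))))))), t false 1 (c (f (d (c (a (b (a (d (f (d (a (b (a
  e))))))))))))), t true 2 (f (a (c (d (a (b (a (c (b (f (a (b (a e))))))))))))), t false 1 (a (c (a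
  (f (b (a (d (c (b (f (a (b (a e))))))))))))), t false 1 (f (b (c (b (f (b (d (a (b (a (c (b (a
  e))))))))))))), t true 1 (b (c (f (a (d (a (f (d (b (a (c (b (a e))))))))))))), t false 1 (b (c (f
  (a (b (d (a (f (d (a (c (b (a e))))))))))))), t true 1 (f (c (d (b (c (a (b (a (f (a (c (b (a
  e))))))))))))), t true 1 (f (b (c (a (b (a (d (a (f (a (c (b (a e))))))))))))), t true 1 (d (f (b
  (c (b (f (b (d (a (b (c (b (a e))))))))))))), t false 2 (b (c (f (b (d (b (f (d (a (b (c (b (a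
  e))))))))))))), t true 1 (f (c (a (d (b (c (f (a (d (b (c (b (a e))))))))))))), t false 1 (a (d (f
  (b (c (b (f (b (d (b (c (b (a e))))))))))))), t true 1 (b (c (f (a (d (b (a (f (d (b (c (b (a
  e))))))))))))), t true 1 (c (f (a (d (b (c (a (f (d (b (c (b (a e))))))))))))), t true 2 (b (c (f
  (b (a (d (b (f (d (b (c (b (a e))))))))))))), t false 1 (b (c (a (f (b (a (d (b (f (b (c (b (a
  e))))))))))))), t false 1 (f (a (c (a (f (b (c (b (a (d (c (b (a e))))))))))))), t false 1 (a (f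
  (b (c (a (b (f (b (a (d (c (b (a e))))))))))))), t false 1 (c (f (a (b (a (f (a (c (a (d (c (b (a
  e))))))))))))), t true 1 (f (a (c (a (f (a (b (c (b (d (c (b (a e))))))))))))), t true 1 (f (c (a
  (b (a (c (f (a (c (d (c (b (a e))))))))))))), t false 1 (d (b (c (f (b (d (a (b (f (d (c (b (a
  e))))))))))))), t true 1 (a (d (b (c (f (b (d (b (f (d (c (b (a e))))))))))))), t false 1 (b (c (f
  (d (a (b (a (d (f (d (c (b (a e))))))))))))), t false 1 (d (f (c (d (b (c (a (b (a (f (c (b (a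
  e))))))))))))), t false 3 (b (d (f (c (d (c (a (b (a (f (c (b (a e))))))))))))), t true 1 (c (a (b
  (a (d (f (a (c (a (f (c (b (a e))))))))))))), t false 2 (d (f (b (c (a (b (a (d (a (f (c (b (a
  e))))))))))))), t true 1 (d (f (c (a (b (a (d (a (c (f (c (b (a e))))))))))))), t true 1 (f (b (d
  (b (f (b (c (a (b (a (d (b (a e))))))))))))), t false 1 (b (f (c (d (c (f (d (a (b (a (d (b (a
  e))))))))))))), t true 1 (c (f (b (d (c (b (f (a (b (a (d (b (a e))))))))))))), t false 3 (b (d (f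
  (a (c (a (f (c (b (a (d (b (a e))))))))))))), t false 1 (c (a (f (b (d (c (b (f (b (a (d (b (a
  e))))))))))))), t true 1 (b (a (f (c (a (d (c (f (b (a (d (b (a e))))))))))))), t false 1 (a (f (c
  (a (b (d (c (f (b (a (d (b (a e))))))))))))), t false 1 (c (f (b (d (b (f (a (b (c (a (d (b (a
  e))))))))))))), t true 1 (c (a (f (b (d (b (f (b (c (a (d (b (a e))))))))))))), t false 2 (c (b (d
  (f (a (b (a (f (c (a (d (b (a e))))))))))))), t true 1 (b (d (f (a (b (c (a (f (c (a (d (b (a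
  e))))))))))))), t false 3 (f (c (b (d (c (a (b (a (f (a (d (b (a e))))))))))))), t true 1 (c (b (d
  (c (f (a (b (a (f (a (d (b (a e))))))))))))), t false 4 (f (b (d (a (b (a (c (a (f (a (d (b (a
  e))))))))))))), t true 2 (b (d (a (b (f (a (c (a (f (a (d (b (a e))))))))))))), t false 1 (f (b (a
  (c (a (d (c (b (f (a (d (b (a e))))))))))))), t true 2 (f (a (c (a (b (d (c (b (f (a (d (b (a
  e))))))))))))), t false 2 (a (c (a (f (b (d (c (b (f (a (d (b (a e))))))))))))), t true 1 (f (a (b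
  (a (c (a (d (c (f (a (d (b (a e))))))))))))), t false 1 (c (f (b (d (b (f (b (c (a (b (d (b (a
  e))))))))))))), t true 1 (b (d (f (b (c (b (f (c (a (b (d (b (a e))))))))))))), t false 1 (f (a (c
  (b (d (c (a (f (a (b (d (b (a e))))))))))))), t true 1 (f (a (c (b (d (a (f (a (c (b (d (b (a
  e))))))))))))), t true 1 (f (b (d (a (c (b (f (a (c (b (d (b (a e))))))))))))), t true 1 (f (c (b
  (d (a (c (f (a (c (b (d (b (a e))))))))))))), t true 1 (a (c (f (b (d (b (f (b (c (b (d (b (a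
  e))))))))))))), t true 1 (c (b (d (f (a (c (a (f (c (b (d (b (a e))))))))))))), t false 1 (b (d (f
  (b (a (c (b (f (c (b (d (b (a e))))))))))))), t true 1 (b (a (f (c (b (a (d (c (f (b (d (b (a
  e))))))))))))), t true 1 (f (c (b (d (b (c (f (a (b (c (d (b (a e))))))))))))), t false 1 (a (f (c
  (b (d (b (c (f (b (c (d (b (a e))))))))))))), t true 1 (c (b (d (f (b (c (a (b (f (c (d (b (a
  e))))))))))))), t false 1 (a (c (b (d (f (b (c (b (f (c (d (b (a e))))))))))))), t true 1 (b (d (f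
  (c (a (b (a (c (f (c (d (b (a e))))))))))))), t true 2 (c (f (c (b (d (c (a (b (a (f (d (b (a
  e))))))))))))), t true 4 (b (c (f (c (d (c (a (b (a (f (d (b (a e))))))))))))), t true 1 (b (a (c
  (f (a (d (c (b (a (f (d (b (a e))))))))))))), t false 1 (a (c (f (a (b (d (c (b (a (f (d (b (a
  e))))))))))))), t false 1 (c (f (a (c (b (d (c (b (a (f (d (b (a e))))))))))))), t true 1 (c (f (b
  (d (a (b (a (c (a (f (d (b (a e))))))))))))), t true 1 (a (b (a (c (f (a (d (c (a (f (d (b (a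
  e))))))))))))), t true 1 (b (a (c (f (b (a (d (c (b (f (d (b (a e)))))))))))))]

def c34_1 : List Tm := [t false 1 (c (f (a (b (a (c (a (d (c (f (d (b (a e))))))))))))), t true 1 (b
  (c (f (d (c (a (b (a (d (f (d (b (a e))))))))))))), t true 1 (b (f (b (c (d (a (b (a (c (a (f (b
  (a e))))))))))))), t false 1 (b (f (b (c (a (b (a (d (c (a (f (b (a e))))))))))))), t false 2 (b
  (f (a (c (d (a (b (a (c (b (f (b (a e))))))))))))), t true 1 (b (a (c (a (f (b (a (d (c (b (f (b
  (a e))))))))))))), t false 1 (d (b (f (c (a (b (a (d (a (c (f (b (a e))))))))))))), t true 1 (f (a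
  (c (a (f (b (a (d (a (b (a (c (a e))))))))))))), t false 1 (b (f (a (c (a (f (a (d (a (b (a (c (a
  e))))))))))))), t true 1 (f (b (a (c (b (f (b (d (a (b (a (c (a e))))))))))))), t true 1 (a (c (f
  (a (b (a (f (d (a (b (a (c (a e))))))))))))), t true 1 (b (d (f (a (c (a (f (a (d (b (a (c (a
  e))))))))))))), t true 1 (f (a (c (b (d (a (f (b (d (b (a (c (a e))))))))))))), t true 1 (f (b (d
  (a (c (b (f (b (d (b (a (c (a e))))))))))))), t true 1 (f (c (b (d (a (c (f (b (d (b (a (c (a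
  e))))))))))))), t false 1 (b (a (c (f (a (d (a (f (d (b (a (c (a e))))))))))))), t false 1 (d (b
  (f (a (c (a (f (b (a (d (a (c (a e))))))))))))), t true 1 (b (f (c (b (d (a (c (f (b (d (a (c (a
  e))))))))))))), t true 1 (b (a (c (f (a (b (d (a (f (d (a (c (a e))))))))))))), t true 1 (b (a (c
  (f (b (d (a (b (f (d (a (c (a e))))))))))))), t true 1 (b (c (f (b (d (a (c (b (f (d (a (c (a
  e))))))))))))), t false 1 (f (c (d (b (a (c (a (b (a (f (a (c (a e))))))))))))), t true 1 (f (b (c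
  (d (b (a (c (b (a (f (a (c (a e))))))))))))), t false 1 (f (b (a (c (a (b (a (d (a (f (a (c (a
  e))))))))))))), t true 1 (f (a (c (a (b (a (d (a (b (f (a (c (a e))))))))))))), t false 2 (d (f (a
  (c (a (f (b (a (d (a (b (c (a e))))))))))))), t true 2 (d (b (f (a (c (a (f (a (d (a (b (c (a
  e))))))))))))), t false 1 (d (f (b (a (c (b (f (b (d (a (b (c (a e))))))))))))), t true 1 (a (c (f
  (b (a (d (b (f (d (a (b (c (a e))))))))))))), t true 2 (b (a (c (f (b (d (b (f (d (a (b (c (a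
  e))))))))))))), t true 2 (f (a (c (a (b (a (d (b (f (a (b (c (a e))))))))))))), t true 1 (f (c (a
  (b (a (d (b (c (f (a (b (c (a e))))))))))))), t true 2 (b (d (f (a (c (a (f (b (a (d (b (c (a
  e))))))))))))), t true 1 (c (f (b (d (b (f (a (c (a (d (b (c (a e))))))))))))), t false 1 (c (a (f
  (b (d (b (f (c (a (d (b (c (a e))))))))))))), t true 5 (f (b (d (b (a (c (a (f (a (d (b (c (a
  e))))))))))))), t false 1 (b (d (b (f (a (c (a (f (a (d (b (c (a e))))))))))))), t true 2 (f (b (a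
  (c (a (d (b (f (a (d (b (c (a e))))))))))))), t false 1 (f (b (d (a (c (b (f (a (b (d (b (c (a
  e))))))))))))), t false 1 (f (c (b (d (a (c (f (a (b (d (b (c (a e))))))))))))), t false 1 (f (b
  (d (c (b (f (a (c (b (d (b (c (a e))))))))))))), t false 1 (f (c (b (d (c (f (a (c (b (d (b (c (a
  e))))))))))))), t true 1 (a (f (b (d (c (b (f (c (b (d (b (c (a e))))))))))))), t true 1 (a (f (c
  (b (d (c (f (c (b (d (b (c (a e))))))))))))), t false 1 (c (b (d (f (a (c (a (f (b (d (b (c (a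
  e))))))))))))), t true 1 (b (d (f (b (a (c (b (f (b (d (b (c (a e))))))))))))), t false 1 (a (b (d
  (f (b (c (b (f (b (d (b (c (a e))))))))))))), t true 1 (f (c (b (d (b (c (f (a (c (d (b (c (a
  e))))))))))))), t false 1 (a (f (c (b (d (b (c (f (c (d (b (c (a e))))))))))))), t false 1 (b (d
  (a (c (f (a (b (a (f (d (b (c (a e))))))))))))), t false 1 (b (a (c (f (a (d (b (a (f (d (b (c (a
  e))))))))))))), t true 1 (a (c (f (a (b (d (b (a (f (d (b (c (a e))))))))))))), t true 1 (c (f (a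
  (c (b (d (b (a (f (d (b (c (a e))))))))))))), t false 5 (c (f (b (d (b (a (c (a (f (d (b (c (a
  e))))))))))))), t false 2 (b (a (c (f (b (a (d (b (f (d (b (c (a e))))))))))))), t false 2 (b (f
  (c (d (a (c (a (b (a (f (b (c (a e))))))))))))), t true 1 (a (c (a (b (f (a (d (b (a (f (b (c (a
  e))))))))))))), t true 4 (c (b (f (b (d (b (a (c (a (f (b (c (a e))))))))))))), t false 3 (b (f (b
  (c (d (b (a (c (a (f (b (c (a e))))))))))))), t true 1 (c (a (b (f (a (d (b (c (a (f (b (c (a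
  e))))))))))))), t true 1 (d (a (c (a (b (f (a (d (a (f (b (c (a e))))))))))))), t false 2 (b (f (a
  (c (a (b (a (d (b (f (b (c (a e))))))))))))), t false 1 (b (f (c (a (b (a (d (b (c (f (b (c (a
  e))))))))))))), t false 1 (a (f (b (c (a (b (f (c (b (a (d (c (a e))))))))))))), t true 1 (c (f (a
  (b (a (f (a (b (c (a (d (c (a e))))))))))))), t true 1 (a (f (b (a (c (a (b (f (c (a (d (c (a
  e))))))))))))), t true 1 (c (f (a (b (a (f (b (c (a (b (d (c (a e))))))))))))), t false 1 (d (b (f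
  (c (b (d (a (c (f (b (d (c (a e))))))))))))), t true 1 (a (d (b (f (c (b (d (c (f (b (d (c (a
  e))))))))))))), t false 1 (f (c (a (b (a (c (f (a (b (c (d (c (a e))))))))))))), t false 1 (b (d
  (a (c (f (a (d (b (a (f (d (c (a e))))))))))))), t false 1 (d (b (c (f (b (d (a (c (b (f (d (c (a
  e))))))))))))), t true 1 (a (d (b (c (f (b (d (c (b (f (d (c (a e))))))))))))), t true 1 (b (a (c
  (f (d (a (b (a (d (f (d (c (a e))))))))))))), t true 1 (d (f (c (d (b (a (c (a (b (a (f (c (a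
  e))))))))))))), t true 2 (b (d (f (c (d (a (c (a (b (a (f (c (a e))))))))))))), t true 1 (b (a (d
  (f (c (d (c (a (b (a (f (c (a e))))))))))))), t false 1 (d (f (b (c (d (b (a (c (b (a (f (c (a
  e))))))))))))), t true 2 (b (d (f (b (c (d (b (a (c (a (f (c (a e))))))))))))), t false 1 (c (a (b
  (a (d (f (a (b (c (a (f (c (a e))))))))))))), t true 2 (d (f (b (a (c (a (b (a (d (a (f (c (a
  e))))))))))))), t false 1 (d (f (a (c (a (b (a (d (a (b (f (c (a e))))))))))))), t false 1 (b (c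
  (a (b (a (d (f (b (c (b (f (c (a e))))))))))))), t true 1 (b (d (f (a (c (a (b (a (d (b (f (c (a
  e))))))))))))), t false 1 (d (f (c (a (b (a (d (a (b (c (f (c (a e))))))))))))), t true 1 (b (f (a
  (d (a (f (a (c (a (b (a (d (a e))))))))))))), t false 1 (f (b (a (d (b (f (b (c (a (b (a (d (a
  e))))))))))))), t true 1 (a (d (f (a (b (a (f (c (a (b (a (d (a e))))))))))))), t true 1 (b (a (f
  (c (d (c (f (d (a (b (a (d (a e))))))))))))), t false 1 (c (f (a (d (c (b (a (f (a (b (a (d (a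
  e))))))))))))), t false 1 (c (f (b (a (d (c (b (f (a (b (a (d (a e))))))))))))), t false 1 (b (c
  (f (a (d (a (f (a (c (b (a (d (a e))))))))))))), t true 1 (f (c (a (d (b (c (f (b (c (b (a (d (a
  e))))))))))))), t true 3 (b (a (d (f (a (c (a (f (c (b (a (d (a e))))))))))))), t false 1 (a (d (f
  (b (c (a (b (f (c (b (a (d (a e))))))))))))), t false 1 (a (d (a (b (f (a (c (a (f (b (a (d (a
  e))))))))))))), t false 1 (a (b (f (c (a (b (d (c (f (b (a (d (a e))))))))))))), t true 1 (c (f (a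
  (d (b (a (f (a (b (c (a (d (a e))))))))))))), t true 1 (c (f (b (a (d (b (f (a (b (c (a (d (a
  e))))))))))))), t false 1 (c (b (f (a (d (b (a (f (b (c (a (d (a e)))))))))))))]

def c34_2 : List Tm := [t true 1 (a (d (b (f (a (c (a (f (b (c (a (d (a e))))))))))))), t true 1 (b
  (f (a (d (b (c (a (f (b (c (a (d (a e))))))))))))), t true 1 (b (f (c (a (d (b (c (f (b (c (a (d
  (a e))))))))))))), t true 2 (c (b (a (d (f (a (b (a (f (c (a (d (a e))))))))))))), t false 1 (b (a
  (d (f (a (b (c (a (f (c (a (d (a e))))))))))))), t true 1 (a (d (f (b (a (c (a (b (f (c (a (d (a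
  e))))))))))))), t true 1 (b (c (a (d (f (b (c (b (f (c (a (d (a e))))))))))))), t true 3 (f (c (b
  (a (d (c (a (b (a (f (a (d (a e))))))))))))), t false 1 (c (b (a (d (c (f (a (b (a (f (a (d (a
  e))))))))))))), t false 2 (f (b (c (b (a (d (c (b (a (f (a (d (a e))))))))))))), t true 1 (b (c (b
  (f (a (d (c (b (a (f (a (d (a e))))))))))))), t true 4 (f (b (a (d (a (b (a (c (a (f (a (d (a
  e))))))))))))), t false 2 (b (a (d (a (b (f (a (c (a (f (a (d (a e))))))))))))), t true 1 (f (a (d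
  (a (b (a (c (a (b (f (a (d (a e))))))))))))), t false 1 (a (d (a (f (b (a (c (a (b (f (a (d (a
  e))))))))))))), t true 1 (f (a (b (c (a (b (d (c (b (f (a (d (a e))))))))))))), t false 1 (a (b (c
  (a (f (b (d (c (b (f (a (d (a e))))))))))))), t false 1 (f (a (b (a (c (a (b (d (c (f (a (d (a
  e))))))))))))), t true 1 (c (f (b (a (d (b (f (b (c (a (b (d (a e))))))))))))), t true 1 (c (a (d
  (f (a (b (a (f (c (a (b (d (a e))))))))))))), t true 1 (a (d (f (b (a (c (b (f (c (a (b (d (a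
  e))))))))))))), t false 1 (b (a (d (f (b (c (b (f (c (a (b (d (a e))))))))))))), t true 1 (f (c (a
  (d (c (a (b (a (f (a (b (d (a e))))))))))))), t false 1 (c (a (d (c (f (a (b (a (f (a (b (d (a
  e))))))))))))), t true 1 (f (b (c (b (a (d (c (a (f (a (b (d (a e))))))))))))), t false 1 (b (c (b
  (f (a (d (c (a (f (a (b (d (a e))))))))))))), t false 1 (a (d (a (f (b (a (c (b (f (a (b (d (a
  e))))))))))))), t false 1 (f (a (b (a (c (b (d (c (f (a (b (d (a e))))))))))))), t false 1 (b (c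
  (f (a (d (a (f (b (a (c (b (d (a e))))))))))))), t false 1 (f (b (c (b (a (d (a (f (a (c (b (d (a
  e))))))))))))), t false 1 (f (b (a (d (a (c (b (f (a (c (b (d (a e))))))))))))), t false 1 (f (c
  (b (a (d (a (c (f (a (c (b (d (a e))))))))))))), t false 1 (f (c (a (d (b (c (f (a (b (c (b (d (a
  e))))))))))))), t false 1 (f (c (d (b (c (f (a (d (b (c (b (d (a e))))))))))))), t true 1 (a (f (c
  (d (b (c (f (d (b (c (b (d (a e))))))))))))), t false 1 (b (c (f (a (d (b (a (f (b (c (b (d (a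
  e))))))))))))), t false 1 (c (f (a (d (b (c (a (f (b (c (b (d (a e))))))))))))), t false 1 (b (c
  (f (b (a (d (b (f (b (c (b (d (a e))))))))))))), t true 1 (a (b (c (f (b (d (b (f (b (c (b (d (a
  e))))))))))))), t true 1 (b (c (a (d (f (a (b (a (f (c (b (d (a e))))))))))))), t false 1 (a (d (f
  (a (b (c (b (a (f (c (b (d (a e))))))))))))), t false 1 (d (f (a (d (b (c (b (a (f (c (b (d (a
  e))))))))))))), t false 1 (c (b (a (d (f (a (c (a (f (c (b (d (a e))))))))))))), t true 2 (d (f (b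
  (c (b (a (d (a (f (c (b (d (a e))))))))))))), t true 1 (b (a (d (f (b (a (c (b (f (c (b (d (a
  e))))))))))))), t true 1 (b (f (c (a (d (c (a (b (a (f (b (d (a e))))))))))))), t true 2 (b (f (b
  (c (b (a (d (c (a (f (b (d (a e))))))))))))), t true 1 (b (f (a (d (a (b (a (c (b (f (b (d (a
  e))))))))))))), t true 1 (d (b (f (c (b (a (d (a (c (f (b (d (a e))))))))))))), t true 1 (b (f (c
  (a (d (a (c (f (b (a (c (d (a e))))))))))))), t false 1 (f (c (b (a (d (b (c (f (a (b (c (d (a
  e))))))))))))), t false 1 (c (b (f (a (d (b (c (a (f (b (c (d (a e))))))))))))), t true 1 (b (f (c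
  (b (a (d (b (c (f (b (c (d (a e))))))))))))), t false 1 (a (b (f (c (b (d (b (c (f (b (c (d (a
  e))))))))))))), t true 1 (b (c (a (d (f (a (c (b (a (f (c (d (a e))))))))))))), t false 1 (c (b (a
  (d (f (b (c (a (b (f (c (d (a e))))))))))))), t true 1 (b (c (b (a (d (f (b (c (b (f (c (d (a
  e))))))))))))), t false 1 (a (b (c (b (d (f (b (c (b (f (c (d (a e))))))))))))), t false 1 (b (a
  (d (f (c (a (b (a (c (f (c (d (a e))))))))))))), t false 2 (c (f (c (b (a (d (c (a (b (a (f (d (a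
  e))))))))))))), t false 1 (b (c (f (c (a (d (c (a (b (a (f (d (a e))))))))))))), t false 3 (b (a
  (c (f (c (d (c (a (b (a (f (d (a e))))))))))))), t true 1 (c (f (b (c (b (a (d (c (b (a (f (d (a
  e))))))))))))), t false 1 (c (f (b (a (d (a (b (a (c (a (f (d (a e))))))))))))), t false 1 (b (c
  (f (b (c (b (a (d (c (a (f (d (a e))))))))))))), t false 1 (a (b (a (c (f (a (b (d (c (a (f (d (a
  e))))))))))))), t false 1 (a (b (a (c (f (b (d (c (a (b (f (d (a e))))))))))))), t true 1 (d (b (c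
  (f (b (a (d (a (c (b (f (d (a e))))))))))))), t true 1 (c (f (a (b (a (c (a (b (d (c (f (d (a
  e))))))))))))), t false 1 (b (a (c (f (d (c (a (b (a (d (f (d (a e))))))))))))), t false 1 (d (a
  (f (c (d (b (a (c (a (b (a (f (a e))))))))))))), t true 1 (a (f (c (a (b (a (d (c (a (b (a (f (a
  e))))))))))))), t true 2 (c (a (f (c (b (a (d (c (a (b (a (f (a e))))))))))))), t false 1 (a (c (a
  (b (a (d (c (f (a (b (a (f (a e))))))))))))), t true 1 (d (a (f (b (c (d (b (a (c (b (a (f (a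
  e))))))))))))), t true 1 (d (b (c (a (f (a (d (b (c (b (a (f (a e))))))))))))), t false 1 (c (a (f
  (b (c (b (a (d (c (b (a (f (a e))))))))))))), t true 1 (c (b (a (f (a (c (b (d (c (b (a (f (a
  e))))))))))))), t true 1 (c (a (f (b (a (d (a (b (a (c (a (f (a e))))))))))))), t false 1 (b (a (f
  (b (c (d (a (b (a (c (a (f (a e))))))))))))), t true 1 (b (a (f (b (c (a (b (a (d (c (a (f (a
  e))))))))))))), t false 2 (d (a (f (b (a (c (a (b (a (d (a (f (a e))))))))))))), t true 1 (a (f (a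
  (c (a (b (a (d (c (a (b (f (a e))))))))))))), t true 1 (d (a (f (a (c (a (b (a (d (a (b (f (a
  e))))))))))))), t false 3 (b (c (a (f (a (d (a (b (a (c (b (f (a e))))))))))))), t true 2 (b (a (f
  (a (c (d (a (b (a (c (b (f (a e))))))))))))), t false 1 (d (b (c (a (f (b (a (d (a (c (b (f (a
  e))))))))))))), t false 1 (b (a (f (a (c (a (b (a (d (c (b (f (a e))))))))))))), t true 1 (c (b (a
  (f (b (a (c (a (d (c (b (f (a e))))))))))))), t true 1 (d (b (a (f (c (a (b (a (d (a (c (f (a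
  e))))))))))))), t true 1 (b (d (a (f (c (a (b (a (d (b (c (f (a e))))))))))))), t true 1 (f (a (c
  (a (f (a (d (a (b (a (c (a (b e))))))))))))), t true 1 (d (f (a (c (a (f (a (d (b (a (c (a (b
  e))))))))))))), t false 1 (a (c (f (a (d (a (f (d (b (a (c (a (b e))))))))))))), t false 2 (f (b
  (a (c (d (a (b (f (b (a (c (a (b e))))))))))))), t false 1 (b (d (f (a (c (a (f (a (d (a (c (a (b
  e))))))))))))), t false 1 (f (b (d (a (c (b (f (b (d (a (c (a (b e))))))))))))), t true 1 (a (c (f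
  (b (d (a (b (f (d (a (c (a (b e))))))))))))), t true 1 (c (f (b (d (a (c (b (f (d (a (c (a (b
  e))))))))))))), t true 1 (a (c (a (b (f (a (d (a (f (a (c (a (b e)))))))))))))]

def c34_3 : List Tm := [t true 1 (a (c (f (b (d (b (f (d (a (b (c (a (b e))))))))))))), t false 1 (d
  (a (c (f (a (b (a (f (d (b (c (a (b e))))))))))))), t false 1 (a (c (f (b (a (d (b (f (d (b (c (a
  (b e))))))))))))), t false 2 (f (c (d (a (c (a (b (a (f (b (c (a (b e))))))))))))), t false 2 (f
  (b (c (d (b (a (c (a (f (b (c (a (b e))))))))))))), t false 1 (b (f (a (c (b (a (f (a (b (d (c (a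
  (b e))))))))))))), t true 1 (c (f (a (b (a (f (b (c (b (d (c (a (b e))))))))))))), t false 1 (f (c
  (a (b (a (c (f (b (c (d (c (a (b e))))))))))))), t false 1 (d (a (c (f (a (d (b (a (f (d (c (a (b
  e))))))))))))), t true 1 (b (d (a (c (f (a (d (a (f (d (c (a (b e))))))))))))), t true 1 (a (c (f
  (d (a (b (a (d (f (d (c (a (b e))))))))))))), t true 2 (d (f (c (d (a (c (a (b (a (f (c (a (b
  e))))))))))))), t true 1 (a (d (f (c (d (c (a (b (a (f (c (a (b e))))))))))))), t true 2 (d (f (b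
  (c (d (b (a (c (a (f (c (a (b e))))))))))))), t false 1 (c (a (b (a (d (f (b (c (b (f (c (a (b
  e))))))))))))), t false 1 (d (f (c (a (b (a (d (b (c (f (c (a (b e))))))))))))), t true 1 (a (f (c
  (d (c (f (d (a (b (a (d (a (b e))))))))))))), t false 1 (c (f (a (d (a (f (a (c (b (a (d (a (b
  e))))))))))))), t true 2 (a (d (f (a (c (a (f (c (b (a (d (a (b e))))))))))))), t true 1 (b (c (f
  (a (d (a (f (a (c (a (d (a (b e))))))))))))), t true 1 (c (a (d (f (b (c (b (f (c (a (d (a (b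
  e))))))))))))), t false 2 (a (d (a (b (f (a (c (a (f (a (d (a (b e))))))))))))), t true 1 (a (b (f
  (c (a (b (d (c (f (a (d (a (b e))))))))))))), t false 2 (a (d (f (b (c (b (f (c (a (b (d (a (b
  e))))))))))))), t false 1 (b (f (c (b (a (d (c (f (a (b (d (a (b e))))))))))))), t true 1 (a (b (f
  (c (b (d (c (f (a (b (d (a (b e))))))))))))), t true 2 (c (a (d (f (a (b (a (f (c (b (d (a (b
  e))))))))))))), t true 2 (a (d (f (b (a (c (b (f (c (b (d (a (b e))))))))))))), t true 2 (f (c (a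
  (d (c (a (b (a (f (b (d (a (b e))))))))))))), t false 1 (c (a (d (c (f (a (b (a (f (b (d (a (b
  e))))))))))))), t true 2 (f (b (c (b (a (d (c (a (f (b (d (a (b e))))))))))))), t false 1 (b (c (b
  (f (a (d (c (a (f (b (d (a (b e))))))))))))), t true 1 (f (a (d (a (b (a (c (b (f (b (d (a (b
  e))))))))))))), t false 1 (a (d (a (f (b (a (c (b (f (b (d (a (b e))))))))))))), t false 1 (f (a
  (b (a (c (b (d (c (f (b (d (a (b e))))))))))))), t true 1 (f (c (a (d (a (c (f (b (a (c (d (a (b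
  e))))))))))))), t false 1 (b (f (c (a (d (a (c (f (a (c (d (a (b e))))))))))))), t true 1 (c (a (d
  (f (a (c (b (a (f (c (d (a (b e))))))))))))), t false 1 (b (c (a (d (f (a (c (a (f (c (d (a (b
  e))))))))))))), t false 1 (a (d (f (c (a (b (a (c (f (c (d (a (b e))))))))))))), t false 1 (c (f
  (c (a (d (c (a (b (a (f (d (a (b e))))))))))))), t false 3 (a (c (f (c (d (c (a (b (a (f (d (a (b
  e))))))))))))), t false 1 (c (f (b (c (b (a (d (c (a (f (d (a (b e))))))))))))), t true 1 (a (b (c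
  (f (a (b (d (c (a (f (d (a (b e))))))))))))), t true 1 (a (b (c (f (b (d (c (a (b (f (d (a (b
  e))))))))))))), t false 1 (a (b (a (c (f (b (d (c (b (f (d (a (b e))))))))))))), t true 1 (c (f (a
  (b (a (c (b (d (c (f (d (a (b e))))))))))))), t false 1 (a (c (f (d (c (a (b (a (d (f (d (a (b
  e))))))))))))), t false 3 (c (a (f (a (d (a (b (a (c (b (f (a (b e))))))))))))), t true 2 (a (f (a
  (c (d (a (b (a (c (b (f (a (b e))))))))))))), t true 1 (d (a (f (a (c (a (b (a (d (b (f (a (b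
  e))))))))))))), t true 1 (d (a (f (c (a (b (a (d (b (c (f (a (b e))))))))))))), t false 1 (f (a (b
  (c (a (f (a (d (a (b (a (c (b e))))))))))))), t false 3 (f (b (c (b (f (a (b (d (a (b (a (c (b
  e))))))))))))), t false 2 (f (a (b (a (f (a (c (d (a (b (a (c (b e))))))))))))), t true 2 (b (c (d
  (f (a (b (a (f (a (b (a (c (b e))))))))))))), t false 1 (d (f (a (b (c (a (f (a (d (b (a (c (b
  e))))))))))))), t false 1 (d (f (b (c (b (f (a (b (d (b (a (c (b e))))))))))))), t false 2 (d (f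
  (a (b (a (f (a (c (d (b (a (c (b e))))))))))))), t true 2 (d (b (c (f (a (b (a (f (d (b (a (c (b
  e))))))))))))), t true 1 (a (b (c (f (a (d (a (f (d (b (a (c (b e))))))))))))), t false 2 (f (c (d
  (b (c (a (b (a (f (b (a (c (b e))))))))))))), t true 2 (c (d (b (c (f (a (b (a (f (b (a (c (b
  e))))))))))))), t false 2 (f (b (a (c (d (a (c (b (f (b (a (c (b e))))))))))))), t false 1 (f (c
  (a (b (a (d (a (c (f (b (a (c (b e))))))))))))), t false 1 (f (a (d (c (a (f (b (c (a (d (a (c (b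
  e))))))))))))), t false 1 (f (c (a (d (c (f (b (c (a (d (a (c (b e))))))))))))), t true 1 (b (f (a
  (d (c (a (f (c (a (d (a (c (b e))))))))))))), t true 1 (b (f (c (a (d (c (f (c (a (d (a (c (b
  e))))))))))))), t false 1 (b (a (d (f (a (c (a (f (a (d (a (c (b e))))))))))))), t true 1 (a (d (f
  (a (b (c (a (f (a (d (a (c (b e))))))))))))), t false 1 (c (a (d (f (b (c (b (f (a (d (a (c (b
  e))))))))))))), t true 1 (a (d (f (b (c (b (f (a (b (d (a (c (b e))))))))))))), t true 1 (c (f (a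
  (d (a (f (b (c (b (d (a (c (b e))))))))))))), t false 1 (c (b (f (a (d (a (f (c (b (d (a (c (b
  e))))))))))))), t false 1 (f (b (c (b (a (d (a (f (b (d (a (c (b e))))))))))))), t false 3 (f (b
  (a (d (a (c (b (f (b (d (a (c (b e))))))))))))), t true 3 (f (a (d (a (b (c (b (f (b (d (a (c (b
  e))))))))))))), t true 2 (a (d (f (a (b (a (f (a (c (d (a (c (b e))))))))))))), t true 2 (f (b (a
  (d (a (b (f (b (c (d (a (c (b e))))))))))))), t true 1 (f (c (a (d (a (c (f (b (c (d (a (c (b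
  e))))))))))))), t false 1 (b (f (c (a (d (a (c (f (c (d (a (c (b e))))))))))))), t false 3 (a (d
  (b (c (f (a (b (a (f (d (a (c (b e))))))))))))), t true 1 (c (f (b (c (b (a (d (a (f (d (a (c (b
  e))))))))))))), t false 1 (a (b (c (f (a (b (d (a (f (d (a (c (b e))))))))))))), t true 1 (b (c (f
  (b (a (d (a (b (f (d (a (c (b e))))))))))))), t false 1 (a (b (c (f (b (d (a (b (f (d (a (c (b
  e))))))))))))), t true 1 (c (f (b (a (d (a (c (b (f (d (a (c (b e))))))))))))), t false 3 (c (f (a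
  (d (a (b (c (b (f (d (a (c (b e))))))))))))), t true 1 (d (b (c (f (b (a (d (b (f (d (a (c (b
  e))))))))))))), t true 3 (a (f (c (d (b (c (a (b (a (f (a (c (b e))))))))))))), t false 2 (a (c (d
  (b (c (f (a (b (a (f (a (c (b e))))))))))))), t true 1 (a (f (b (c (a (b (a (d (a (f (a (c (b
  e))))))))))))), t false 1 (b (c (a (f (b (a (d (a (b (f (a (c (b e))))))))))))), t false 1 (c (a
  (f (b (a (d (a (c (b (f (a (c (b e))))))))))))), t true 2 (a (f (b (a (c (d (a (c (b (f (a (c (b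
  e))))))))))))), t true 2 (b (a (f (b (c (d (a (c (b (f (a (c (b e))))))))))))), t false 1 (d (b (c
  (a (f (b (a (d (b (f (a (c (b e))))))))))))), t true 1 (a (f (c (a (b (a (d (a (c (f (a (c (b
  e))))))))))))), t true 1 (a (d (f (b (c (b (f (b (d (a (b (c (b e)))))))))))))]

def c34_4 : List Tm := [t false 1 (a (b (c (f (b (d (b (f (d (a (b (c (b e))))))))))))), t true 1 (d
  (a (f (b (c (a (b (f (a (d (b (c (b e))))))))))))), t true 1 (a (f (c (a (d (b (c (f (a (d (b (c
  (b e))))))))))))), t true 1 (d (a (b (c (f (a (b (a (f (d (b (c (b e))))))))))))), t true 1 (a (b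
  (c (f (a (d (b (a (f (d (b (c (b e))))))))))))), t true 1 (a (c (f (a (d (b (c (a (f (d (b (c (b
  e))))))))))))), t true 1 (a (b (c (f (b (a (d (b (f (d (b (c (b e))))))))))))), t true 2 (f (c (d
  (a (b (c (a (b (a (f (b (c (b e))))))))))))), t false 2 (f (b (a (c (d (b (a (c (a (f (b (c (b
  e))))))))))))), t true 1 (f (a (b (a (f (a (c (a (b (a (d (c (b e))))))))))))), t true 1 (b (c (f
  (a (b (a (f (a (b (a (d (c (b e))))))))))))), t true 1 (f (a (c (b (a (f (b (a (c (a (d (c (b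
  e))))))))))))), t false 1 (a (c (f (a (b (a (f (a (c (a (d (c (b e))))))))))))), t false 1 (d (a
  (f (c (a (d (b (c (f (a (d (c (b e))))))))))))), t true 1 (b (d (a (f (c (a (d (c (f (a (d (c (b
  e))))))))))))), t false 1 (b (f (a (c (b (a (f (c (a (b (d (c (b e))))))))))))), t false 1 (c (f
  (a (b (a (f (b (a (c (b (d (c (b e))))))))))))), t false 1 (a (b (f (a (c (b (a (f (c (b (d (c (b
  e))))))))))))), t true 1 (f (c (a (b (a (c (f (b (a (c (d (c (b e))))))))))))), t false 1 (d (a (c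
  (f (a (d (b (c (a (f (d (c (b e))))))))))))), t true 1 (b (d (a (c (f (a (d (c (a (f (d (c (b
  e))))))))))))), t false 1 (a (d (b (c (f (b (d (a (b (f (d (c (b e))))))))))))), t false 1 (a (b
  (c (f (d (a (b (a (d (f (d (c (b e))))))))))))), t false 1 (a (d (f (c (d (b (c (a (b (a (f (c (b
  e))))))))))))), t false 1 (a (b (d (f (c (d (c (a (b (a (f (c (b e))))))))))))), t false 1 (b (c
  (a (b (a (d (f (a (b (a (f (c (b e))))))))))))), t true 2 (d (f (b (a (c (d (b (a (c (a (f (c (b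
  e))))))))))))), t true 1 (a (c (a (b (a (d (f (a (c (a (f (c (b e))))))))))))), t false 2 (a (d (f
  (b (c (a (b (a (d (a (f (c (b e))))))))))))), t true 1 (c (a (b (a (d (f (b (a (c (b (f (c (b
  e))))))))))))), t true 1 (d (f (c (a (b (a (d (b (a (c (f (c (b e))))))))))))), t false 1 (a (b (f
  (c (d (c (f (d (a (b (a (d (b e))))))))))))), t false 1 (c (f (a (b (d (c (a (f (a (b (a (d (b
  e))))))))))))), t true 1 (c (f (b (d (c (a (b (f (a (b (a (d (b e))))))))))))), t true 1 (c (f (a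
  (b (d (a (f (a (c (b (a (d (b e))))))))))))), t true 1 (c (a (f (b (d (b (f (b (c (b (a (d (b
  e))))))))))))), t true 1 (c (b (d (f (a (b (a (f (c (b (a (d (b e))))))))))))), t false 2 (a (b (d
  (f (a (c (a (f (c (b (a (d (b e))))))))))))), t false 1 (b (d (f (a (b (c (a (f (c (b (a (d (b
  e))))))))))))), t false 1 (f (a (c (b (d (c (b (a (f (b (a (d (b e))))))))))))), t false 1 (f (b
  (d (a (b (a (c (a (f (b (a (d (b e))))))))))))), t true 2 (b (d (a (b (f (a (c (a (f (b (a (d (b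
  e))))))))))))), t true 1 (f (a (c (a (b (d (c (b (f (b (a (d (b e))))))))))))), t false 1 (a (c (a
  (f (b (d (c (b (f (b (a (d (b e))))))))))))), t true 1 (f (c (b (d (a (b (a (c (f (b (a (d (b
  e))))))))))))), t true 1 (f (a (b (a (c (a (d (c (f (b (a (d (b e))))))))))))), t true 1 (f (a (c
  (b (d (a (f (b (a (c (a (d (b e))))))))))))), t true 1 (f (b (d (a (c (b (f (b (a (c (a (d (b
  e))))))))))))), t false 1 (f (c (d (a (c (f (b (d (a (c (a (d (b e))))))))))))), t true 1 (b (f (c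
  (d (a (c (f (d (a (c (a (d (b e))))))))))))), t true 1 (b (a (c (f (a (d (a (f (a (c (a (d (b
  e))))))))))))), t false 1 (a (c (f (a (b (d (a (f (a (c (a (d (b e))))))))))))), t false 1 (a (c
  (f (b (d (a (b (f (a (c (a (d (b e))))))))))))), t false 1 (c (f (b (d (a (c (b (f (a (c (a (d (b
  e))))))))))))), t false 1 (a (c (f (b (d (b (f (a (b (c (a (d (b e))))))))))))), t true 1 (f (a (c
  (b (d (b (a (f (b (c (a (d (b e))))))))))))), t true 3 (f (b (d (b (a (c (a (f (b (c (a (d (b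
  e))))))))))))), t false 1 (b (d (b (f (a (c (a (f (b (c (a (d (b e))))))))))))), t false 1 (f (c
  (b (d (b (a (c (f (b (c (a (d (b e))))))))))))), t false 2 (a (c (b (d (f (a (b (a (f (c (a (d (b
  e))))))))))))), t false 1 (d (f (b (d (b (a (c (a (f (c (a (d (b e))))))))))))), t true 2 (a (b (d
  (f (a (b (c (a (f (c (a (d (b e))))))))))))), t false 1 (c (a (b (d (f (b (c (b (f (c (a (d (b
  e))))))))))))), t true 1 (d (f (b (a (c (a (d (b (f (c (a (d (b e))))))))))))), t false 2 (a (f (c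
  (b (d (c (a (b (a (f (a (d (b e))))))))))))), t true 1 (a (f (a (c (b (d (c (b (a (f (a (d (b
  e))))))))))))), t false 3 (a (f (b (d (a (b (a (c (a (f (a (d (b e))))))))))))), t true 1 (b (d (a
  (f (b (a (c (a (b (f (a (d (b e))))))))))))), t true 1 (c (b (d (a (f (b (a (c (b (f (a (d (b
  e))))))))))))), t false 1 (a (f (c (b (d (a (b (a (c (f (a (d (b e))))))))))))), t true 1 (d (b (a
  (f (c (a (d (b (c (f (a (d (b e))))))))))))), t false 1 (a (c (f (b (d (b (f (b (c (a (b (d (b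
  e))))))))))))), t false 1 (b (d (f (a (c (b (a (f (c (a (b (d (b e))))))))))))), t false 1 (b (d
  (f (b (a (c (b (f (c (a (b (d (b e))))))))))))), t true 2 (a (b (d (f (b (c (b (f (c (a (b (d (b
  e))))))))))))), t true 1 (c (a (f (b (d (c (a (b (f (a (b (d (b e))))))))))))), t true 1 (b (d (a
  (f (b (a (c (b (f (a (b (d (b e))))))))))))), t false 1 (b (a (f (c (b (a (d (c (f (a (b (d (b
  e))))))))))))), t true 1 (c (f (b (d (a (b (f (b (a (c (b (d (b e))))))))))))), t false 2 (c (a (f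
  (b (d (a (b (f (a (c (b (d (b e))))))))))))), t true 1 (a (f (b (d (a (c (b (f (a (c (b (d (b
  e))))))))))))), t true 1 (b (d (a (f (b (c (b (f (a (c (b (d (b e))))))))))))), t true 1 (a (f (c
  (b (d (a (c (f (a (c (b (d (b e))))))))))))), t false 1 (c (a (f (b (d (b (f (a (b (c (b (d (b
  e))))))))))))), t false 2 (c (a (b (d (f (a (b (a (f (c (b (d (b e))))))))))))), t true 1 (a (c (b
  (d (f (a (c (a (f (c (b (d (b e))))))))))))), t false 2 (a (b (d (f (b (a (c (b (f (c (b (d (b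
  e))))))))))))), t false 2 (f (c (a (b (d (c (a (b (a (f (b (d (b e))))))))))))), t true 2 (f (b (d
  (a (b (a (c (b (a (f (b (d (b e))))))))))))), t true 1 (b (d (a (b (f (a (c (b (a (f (b (d (b
  e))))))))))))), t true 1 (f (b (a (c (b (a (d (c (a (f (b (d (b e))))))))))))), t false 1 (b (a (c
  (b (f (a (d (c (a (f (b (d (b e))))))))))))), t false 1 (f (a (c (a (b (d (c (a (b (f (b (d (b
  e))))))))))))), t true 1 (a (c (a (f (b (d (c (a (b (f (b (d (b e))))))))))))), t false 1 (f (a (b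
  (d (a (b (a (c (b (f (b (d (b e))))))))))))), t true 1 (a (b (d (a (f (b (a (c (b (f (b (d (b
  e))))))))))))), t true 1 (f (a (b (a (c (b (a (d (c (f (b (d (b e))))))))))))), t false 1 (f (c (a
  (b (d (a (c (f (b (a (c (d (b e))))))))))))), t false 1 (c (a (f (b (d (a (c (b (f (a (c (d (b
  e))))))))))))), t false 1 (b (a (f (c (a (d (a (c (f (a (c (d (b e)))))))))))))]

def c34_5 : List Tm := [t true 1 (a (f (c (a (b (d (a (c (f (a (c (d (b e))))))))))))), t true 1 (a
  (f (c (b (d (b (c (f (a (b (c (d (b e))))))))))))), t false 1 (c (a (b (d (f (a (c (b (a (f (c (d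
  (b e))))))))))))), t false 1 (b (a (c (a (d (f (a (c (a (f (c (d (b e))))))))))))), t true 1 (a (c
  (a (b (d (f (a (c (a (f (c (d (b e))))))))))))), t true 1 (a (c (b (d (f (b (c (a (b (f (c (d (b
  e))))))))))))), t true 1 (a (b (d (f (c (a (b (a (c (f (c (d (b e))))))))))))), t true 2 (a (c (f
  (c (b (d (c (a (b (a (f (d (b e))))))))))))), t true 3 (a (b (c (f (c (d (c (a (b (a (f (d (b
  e))))))))))))), t false 3 (c (f (b (d (a (b (a (c (b (a (f (d (b e))))))))))))), t true 1 (a (b (a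
  (c (f (a (d (c (b (a (f (d (b e))))))))))))), t false 1 (a (c (f (a (c (b (d (c (b (a (f (d (b
  e))))))))))))), t true 4 (a (c (f (b (d (a (b (a (c (a (f (d (b e))))))))))))), t true 1 (a (b (a
  (c (f (b (a (d (c (b (f (d (b e))))))))))))), t false 1 (c (f (a (b (a (c (b (a (d (c (f (d (b
  e))))))))))))), t true 1 (a (b (c (f (d (c (a (b (a (d (f (d (b e))))))))))))), t false 2 (d (a (b
  (f (c (d (a (c (a (b (a (f (b e))))))))))))), t true 1 (c (a (b (f (c (a (d (c (a (b (a (f (b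
  e))))))))))))), t true 1 (a (b (f (b (c (d (a (b (a (c (a (f (b e))))))))))))), t true 3 (d (a (c
  (b (f (b (d (b (a (c (a (f (b e))))))))))))), t false 2 (d (b (f (b (a (c (d (b (a (c (a (f (b
  e))))))))))))), t true 1 (d (a (c (a (b (f (a (d (b (c (a (f (b e))))))))))))), t true 1 (c (a (b
  (f (b (c (b (a (d (c (a (f (b e))))))))))))), t true 3 (c (a (b (f (a (d (a (b (a (c (b (f (b
  e))))))))))))), t false 2 (a (b (f (a (c (d (a (b (a (c (b (f (b e))))))))))))), t false 1 (d (a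
  (b (f (a (c (a (b (a (d (b (f (b e))))))))))))), t false 1 (a (d (b (f (c (a (b (a (d (a (c (f (b
  e))))))))))))), t true 1 (f (a (c (a (f (c (b (a (d (a (b (a (c e))))))))))))), t false 1 (f (a (b
  (c (a (f (c (a (d (a (b (a (c e))))))))))))), t false 1 (a (b (f (a (c (a (f (a (d (a (b (a (c
  e))))))))))))), t false 3 (f (b (c (b (f (c (a (b (d (a (b (a (c e))))))))))))), t true 3 (f (b (a
  (c (b (f (c (b (d (a (b (a (c e))))))))))))), t true 1 (d (f (c (a (b (a (d (c (f (a (b (a (c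
  e))))))))))))), t true 3 (f (b (d (b (f (c (a (b (a (d (b (a (c e))))))))))))), t false 1 (c (f (b
  (d (b (f (a (b (a (d (b (a (c e))))))))))))), t true 1 (c (b (d (f (a (b (a (f (a (d (b (a (c
  e))))))))))))), t false 1 (b (d (f (a (b (c (a (f (a (d (b (a (c e))))))))))))), t false 2 (f (b
  (d (c (b (f (c (a (b (d (b (a (c e))))))))))))), t false 1 (b (d (f (b (c (b (f (a (b (d (b (a (c
  e))))))))))))), t true 1 (f (a (c (b (d (a (f (c (b (d (b (a (c e))))))))))))), t true 3 (f (b (d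
  (a (c (b (f (c (b (d (b (a (c e))))))))))))), t true 1 (f (c (b (d (a (c (f (c (b (d (b (a (c
  e))))))))))))), t false 2 (f (b (d (b (f (a (b (a (c (d (b (a (c e))))))))))))), t false 2 (b (d
  (f (a (b (a (f (a (c (d (b (a (c e))))))))))))), t true 2 (b (d (b (c (f (a (b (a (f (d (b (a (c
  e))))))))))))), t false 1 (a (b (a (c (f (a (d (a (f (d (b (a (c e))))))))))))), t false 2 (b (f
  (c (d (b (c (a (b (a (f (b (a (c e))))))))))))), t true 2 (b (c (d (b (c (f (a (b (a (f (b (a (c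
  e))))))))))))), t false 2 (b (f (b (a (c (d (a (c (b (f (b (a (c e))))))))))))), t false 1 (b (f
  (c (a (b (a (d (a (c (f (b (a (c e))))))))))))), t false 1 (d (b (f (c (a (b (a (d (c (f (b (a (c
  e))))))))))))), t false 3 (f (b (a (d (b (f (c (a (b (a (d (a (c e))))))))))))), t true 1 (c (f (b
  (a (d (b (f (a (b (a (d (a (c e))))))))))))), t true 1 (f (a (d (b (c (a (f (c (b (a (d (a (c
  e))))))))))))), t true 1 (f (c (a (d (b (c (f (c (b (a (d (a (c e))))))))))))), t true 1 (c (b (f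
  (a (d (b (a (f (b (a (d (a (c e))))))))))))), t false 1 (a (d (b (f (a (c (a (f (b (a (d (a (c
  e))))))))))))), t false 1 (b (f (a (d (b (c (a (f (b (a (d (a (c e))))))))))))), t false 1 (b (f
  (c (a (d (b (c (f (b (a (d (a (c e))))))))))))), t false 1 (b (f (a (d (c (a (f (b (c (a (d (a (c
  e))))))))))))), t false 1 (b (f (c (a (d (c (f (b (c (a (d (a (c e))))))))))))), t false 1 (c (b
  (a (d (f (a (b (a (f (a (d (a (c e))))))))))))), t true 1 (b (a (d (f (a (b (c (a (f (a (d (a (c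
  e))))))))))))), t false 1 (b (c (a (d (f (b (c (b (f (a (d (a (c e))))))))))))), t true 2 (f (b (a
  (d (c (b (f (c (a (b (d (a (c e))))))))))))), t true 1 (b (a (d (f (b (c (b (f (a (b (d (a (c
  e))))))))))))), t true 2 (f (b (c (b (a (d (a (f (c (b (d (a (c e))))))))))))), t false 3 (f (b (a
  (d (a (c (b (f (c (b (d (a (c e))))))))))))), t false 1 (f (c (b (a (d (a (c (f (c (b (d (a (c
  e))))))))))))), t false 1 (a (d (b (f (a (c (b (a (f (b (d (a (c e))))))))))))), t false 3 (b (f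
  (b (c (b (a (d (a (f (b (d (a (c e))))))))))))), t true 3 (b (f (a (d (a (b (c (b (f (b (d (a (c
  e))))))))))))), t true 1 (b (f (c (b (a (d (a (c (f (b (d (a (c e))))))))))))), t true 1 (d (b (f
  (c (b (a (d (c (f (b (d (a (c e))))))))))))), t true 2 (f (b (a (d (b (f (a (b (a (c (d (a (c
  e))))))))))))), t true 2 (b (a (d (f (a (b (a (f (a (c (d (a (c e))))))))))))), t true 1 (b (f (c
  (a (d (a (c (f (b (c (d (a (c e))))))))))))), t true 1 (a (d (b (a (c (f (a (b (a (f (d (a (c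
  e))))))))))))), t false 2 (b (a (d (b (c (f (a (b (a (f (d (a (c e))))))))))))), t true 1 (b (c (f
  (b (c (b (a (d (a (f (d (a (c e))))))))))))), t true 1 (a (b (a (c (f (a (b (d (a (f (d (a (c
  e))))))))))))), t true 1 (a (b (a (c (f (b (d (a (b (f (d (a (c e))))))))))))), t true 1 (b (c (f
  (b (a (d (a (c (b (f (d (a (c e))))))))))))), t false 3 (b (c (f (a (d (a (b (c (b (f (d (a (c
  e))))))))))))), t true 1 (d (b (c (f (b (a (d (c (b (f (d (a (c e))))))))))))), t false 1 (a (f (c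
  (d (b (a (c (a (b (a (f (a (c e))))))))))))), t true 2 (b (a (f (c (d (b (c (a (b (a (f (a (c
  e))))))))))))), t false 2 (b (a (c (d (b (c (f (a (b (a (f (a (c e))))))))))))), t true 1 (a (f (b
  (c (d (b (a (c (b (a (f (a (c e))))))))))))), t false 1 (a (f (b (a (c (a (b (a (d (a (f (a (c
  e))))))))))))), t false 1 (b (c (a (f (b (a (d (a (c (b (f (a (c e))))))))))))), t true 2 (b (a (f
  (b (a (c (d (a (c (b (f (a (c e))))))))))))), t false 1 (d (b (c (a (f (b (a (d (c (b (f (a (c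
  e))))))))))))), t true 1 (b (a (f (c (a (b (a (d (a (c (f (a (c e))))))))))))), t true 1 (d (b (a
  (f (c (a (b (a (d (c (f (a (c e))))))))))))), t true 1 (c (f (a (d (a (f (a (b (a (d (a (b (c
  e))))))))))))), t false 2 (a (d (f (a (c (a (f (b (a (d (a (b (c e))))))))))))), t true 2 (a (d (b
  (f (a (c (a (f (a (d (a (b (c e))))))))))))), t false 1 (c (a (d (f (a (b (a (f (b (d (a (b (c
  e))))))))))))), t false 1 (a (d (f (b (a (c (b (f (b (d (a (b (c e)))))))))))))]

def c34_6 : List Tm := [t true 1 (a (b (a (c (f (b (d (b (f (d (a (b (c e))))))))))))), t true 1 (a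
  (f (a (c (a (b (a (d (b (f (a (b (c e))))))))))))), t true 1 (a (f (c (a (b (a (d (b (c (f (a (b
  (c e))))))))))))), t true 1 (d (a (f (c (a (b (a (d (c (f (a (b (c e))))))))))))), t true 2 (a (b
  (d (f (a (c (a (f (b (a (d (b (c e))))))))))))), t true 1 (f (a (c (b (d (b (a (f (c (a (d (b (c
  e))))))))))))), t true 2 (f (b (d (b (a (c (a (f (c (a (d (b (c e))))))))))))), t false 1 (b (d (b
  (f (a (c (a (f (c (a (d (b (c e))))))))))))), t true 1 (f (b (a (c (a (d (b (f (c (a (d (b (c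
  e))))))))))))), t false 1 (f (c (b (d (b (a (c (f (c (a (d (b (c e))))))))))))), t false 1 (a (f
  (a (c (b (d (b (a (f (a (d (b (c e))))))))))))), t true 3 (a (f (b (d (b (a (c (a (f (a (d (b (c
  e))))))))))))), t true 1 (b (d (a (f (b (c (a (b (f (a (d (b (c e))))))))))))), t true 1 (a (f (c
  (b (d (b (a (c (f (a (d (b (c e))))))))))))), t true 1 (b (a (f (c (a (d (b (c (f (a (d (b (c
  e))))))))))))), t true 1 (d (b (a (f (c (a (d (c (f (a (d (b (c e))))))))))))), t true 1 (c (a (f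
  (b (d (a (b (f (a (b (d (b (c e))))))))))))), t false 1 (a (f (b (d (a (c (b (f (a (b (d (b (c
  e))))))))))))), t false 1 (a (f (c (b (d (a (c (f (a (b (d (b (c e))))))))))))), t false 1 (a (f
  (b (d (c (b (f (a (c (b (d (b (c e))))))))))))), t false 1 (a (f (c (b (d (c (f (a (c (b (d (b (c
  e))))))))))))), t true 2 (c (a (b (d (f (a (b (a (f (b (d (b (c e))))))))))))), t false 1 (a (c (b
  (d (f (a (c (a (f (b (d (b (c e))))))))))))), t true 1 (a (b (d (f (b (a (c (b (f (b (d (b (c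
  e))))))))))))), t true 1 (a (f (c (b (d (b (c (f (a (c (d (b (c e))))))))))))), t true 1 (b (d (a
  (b (c (f (a (b (a (f (d (b (c e))))))))))))), t false 1 (a (b (a (c (f (a (d (b (a (f (d (b (c
  e))))))))))))), t true 1 (a (c (f (a (c (b (d (b (a (f (d (b (c e))))))))))))), t false 4 (a (c (f
  (b (d (b (a (c (a (f (d (b (c e))))))))))))), t false 1 (a (b (a (c (f (b (a (d (b (f (d (b (c
  e))))))))))))), t true 2 (b (f (c (d (a (b (c (a (b (a (f (b (c e))))))))))))), t true 3 (a (c (b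
  (f (b (d (b (a (c (a (f (b (c e))))))))))))), t false 2 (b (f (b (a (c (d (b (a (c (a (f (b (c
  e))))))))))))), t false 1 (a (b (f (b (c (d (b (a (c (a (f (b (c e))))))))))))), t true 1 (a (c (a
  (b (f (a (d (b (c (a (f (b (c e))))))))))))), t true 1 (d (a (c (a (b (f (a (d (c (a (f (b (c
  e))))))))))))), t false 1 (a (b (f (a (c (a (b (a (d (b (f (b (c e))))))))))))), t false 1 (a (b
  (f (c (a (b (a (d (b (c (f (b (c e))))))))))))), t false 1 (f (c (a (b (a (c (f (c (a (b (a (d (c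
  e))))))))))))), t true 1 (f (d (a (b (a (d (f (c (a (b (a (d (c e))))))))))))), t true 1 (b (c (f
  (a (b (a (f (a (c (b (a (d (c e))))))))))))), t true 1 (b (f (a (c (b (a (f (b (a (c (a (d (c
  e))))))))))))), t false 1 (b (a (c (f (a (b (a (f (a (c (a (d (c e))))))))))))), t true 1 (c (d (a
  (f (b (a (d (a (b (f (a (d (c e))))))))))))), t false 1 (b (d (a (f (c (a (d (b (c (f (a (d (c
  e))))))))))))), t false 1 (c (d (a (b (f (a (d (b (a (f (b (d (c e))))))))))))), t false 1 (a (d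
  (b (f (c (b (d (a (c (f (b (d (c e))))))))))))), t true 1 (f (c (a (b (a (c (f (a (b (a (c (d (c
  e))))))))))))), t true 1 (c (d (a (b (a (d (f (a (b (a (f (d (c e))))))))))))), t false 1 (b (d (a
  (c (f (a (d (b (c (a (f (d (c e))))))))))))), t false 1 (a (d (b (c (f (b (d (a (c (b (f (d (c
  e))))))))))))), t true 1 (a (b (a (c (f (d (a (b (a (d (f (d (c e))))))))))))), t true 1 (d (f (c
  (d (a (b (a (c (a (b (a (f (c e))))))))))))), t true 1 (a (b (d (f (c (d (a (c (a (b (a (f (c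
  e))))))))))))), t true 1 (b (d (f (c (d (a (b (c (a (b (a (f (c e))))))))))))), t false 1 (b (a (d
  (f (c (d (b (c (a (b (a (f (c e))))))))))))), t false 1 (d (f (c (a (b (a (d (c (a (b (a (f (c
  e))))))))))))), t false 1 (a (d (f (b (c (d (b (a (c (b (a (f (c e))))))))))))), t false 1 (b (c
  (a (b (a (d (f (a (c (b (a (f (c e))))))))))))), t true 2 (b (d (f (b (a (c (d (b (a (c (a (f (c
  e))))))))))))), t true 1 (b (a (c (a (b (a (d (f (a (c (a (f (c e))))))))))))), t true 2 (a (d (f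
  (b (a (c (a (b (a (d (a (f (c e))))))))))))), t true 1 (a (c (a (b (a (d (f (b (c (a (b (f (c
  e))))))))))))), t false 1 (a (b (c (a (b (a (d (f (b (c (b (f (c e))))))))))))), t false 1 (c (a
  (b (a (d (f (c (a (b (a (c (f (c e))))))))))))), t true 1 (d (f (c (a (b (a (d (a (b (a (c (f (c
  e))))))))))))), t true 1 (a (b (f (a (d (a (f (a (c (a (b (a (d e))))))))))))), t false 1 (c (f (a
  (b (a (f (c (d (c (a (b (a (d e))))))))))))), t false 1 (f (c (a (b (a (c (f (d (c (a (b (a (d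
  e))))))))))))), t true 1 (f (d (a (b (a (d (f (d (c (a (b (a (d e))))))))))))), t false 1 (c (d (f
  (a (b (a (f (c (d (a (b (a (d e))))))))))))), t false 3 (f (c (d (c (a (b (a (f (d (a (b (a (d
  e))))))))))))), t true 1 (c (d (c (f (a (b (a (f (d (a (b (a (d e))))))))))))), t true 1 (f (a (b
  (a (c (d (c (f (d (a (b (a (d e))))))))))))), t false 1 (f (d (c (a (b (a (d (f (d (a (b (a (d
  e))))))))))))), t true 2 (c (f (c (d (c (a (b (a (f (a (b (a (d e))))))))))))), t true 1 (a (c (f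
  (a (d (c (b (a (f (a (b (a (d e))))))))))))), t false 1 (a (b (c (f (a (d (c (a (f (a (b (a (d
  e))))))))))))), t false 1 (b (c (f (a (b (d (c (a (f (a (b (a (d e))))))))))))), t false 1 (b (c
  (f (b (d (c (a (b (f (a (b (a (d e))))))))))))), t true 1 (a (c (f (b (a (d (c (b (f (a (b (a (d
  e))))))))))))), t true 1 (b (a (c (f (b (d (c (b (f (a (b (a (d e))))))))))))), t false 1 (c (f (a
  (b (a (c (d (c (f (a (b (a (d e))))))))))))), t true 1 (d (f (b (c (b (f (a (b (a (c (b (a (d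
  e))))))))))))), t false 1 (d (b (c (f (a (b (a (f (a (c (b (a (d e))))))))))))), t true 1 (b (c (f
  (a (b (d (a (f (a (c (b (a (d e))))))))))))), t false 1 (f (b (c (d (b (f (d (a (b (c (b (a (d
  e))))))))))))), t true 1 (b (c (f (b (d (b (f (a (b (c (b (a (d e))))))))))))), t true 1 (f (b (c
  (a (d (b (f (d (b (c (b (a (d e))))))))))))), t true 1 (f (c (a (d (b (c (f (d (b (c (b (a (d
  e))))))))))))), t true 2 (b (c (b (d (f (a (b (a (f (c (b (a (d e))))))))))))), t true 2 (a (b (a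
  (d (f (a (c (a (f (c (b (a (d e))))))))))))), t true 1 (b (f (c (b (d (c (a (b (a (f (b (a (d
  e))))))))))))), t false 1 (b (c (b (d (c (f (a (b (a (f (b (a (d e))))))))))))), t false 1 (a (c
  (b (f (a (d (c (b (a (f (b (a (d e))))))))))))), t false 1 (b (f (a (c (b (d (c (b (a (f (b (a (d
  e))))))))))))), t true 1 (b (f (c (b (d (a (b (a (c (f (b (a (d e))))))))))))), t false 1 (d (f (b
  (a (c (b (f (a (b (a (c (a (d e))))))))))))), t true 1 (f (b (d (a (c (b (f (d (b (a (c (a (d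
  e))))))))))))), t true 1 (f (c (b (d (a (c (f (d (b (a (c (a (d e)))))))))))))]

def c34_7 : List Tm := [t false 1 (d (b (f (a (c (b (a (f (b (a (c (a (d e))))))))))))), t true 1 (a
  (c (b (f (a (d (a (f (b (a (c (a (d e))))))))))))), t true 1 (b (f (a (c (b (d (a (f (b (a (c (a
  (d e))))))))))))), t false 1 (b (f (c (b (d (a (c (f (b (a (c (a (d e))))))))))))), t false 1 (b
  (f (c (d (a (c (f (b (d (a (c (a (d e))))))))))))), t true 1 (d (b (a (c (f (a (b (a (f (a (c (a
  (d e))))))))))))), t false 1 (b (a (c (f (a (b (d (a (f (a (c (a (d e))))))))))))), t false 1 (b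
  (a (c (f (b (d (a (b (f (a (c (a (d e))))))))))))), t false 1 (b (c (f (b (d (a (c (b (f (a (c (a
  (d e))))))))))))), t true 1 (f (b (a (c (d (b (f (d (a (b (c (a (d e))))))))))))), t false 1 (b (a
  (c (f (b (d (b (f (a (b (c (a (d e))))))))))))), t true 1 (b (f (a (c (b (d (b (a (f (b (c (a (d
  e))))))))))))), t true 3 (b (f (b (d (b (a (c (a (f (b (c (a (d e))))))))))))), t true 1 (a (b (f
  (a (d (b (c (a (f (b (c (a (d e))))))))))))), t false 1 (b (f (c (b (d (b (a (c (f (b (c (a (d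
  e))))))))))))), t false 2 (b (a (c (b (d (f (a (b (a (f (c (a (d e))))))))))))), t false 1 (b (d
  (f (b (d (b (a (c (a (f (c (a (d e))))))))))))), t false 2 (a (b (a (d (f (a (b (c (a (f (c (a (d
  e))))))))))))), t false 1 (b (c (a (b (d (f (b (c (b (f (c (a (d e))))))))))))), t true 1 (b (d (f
  (b (a (c (a (d (b (f (c (a (d e))))))))))))), t true 1 (a (f (c (b (a (d (c (a (b (a (f (a (d
  e))))))))))))), t false 1 (b (a (f (c (b (d (c (a (b (a (f (a (d e))))))))))))), t true 1 (a (c (b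
  (a (d (c (f (a (b (a (f (a (d e))))))))))))), t true 1 (b (a (c (b (d (c (f (a (b (a (f (a (d
  e))))))))))))), t false 1 (a (f (b (c (b (a (d (c (b (a (f (a (d e))))))))))))), t true 1 (b (a (f
  (a (c (b (d (c (b (a (f (a (d e))))))))))))), t true 3 (a (f (b (a (d (a (b (a (c (a (f (a (d
  e))))))))))))), t false 1 (c (d (c (a (f (b (a (d (a (b (f (a (d e))))))))))))), t true 1 (b (c (b
  (d (a (f (b (a (c (b (f (a (d e))))))))))))), t false 1 (b (a (f (c (b (d (a (b (a (c (f (a (d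
  e))))))))))))), t true 1 (b (d (b (a (f (c (a (d (b (c (f (a (d e))))))))))))), t true 1 (f (a (c
  (a (f (d (a (b (a (c (a (b (d e))))))))))))), t false 1 (d (f (a (c (a (f (a (b (a (c (a (b (d
  e))))))))))))), t true 1 (a (c (f (a (d (a (f (b (a (c (a (b (d e))))))))))))), t false 1 (a (c (b
  (f (a (d (a (f (a (c (a (b (d e))))))))))))), t true 1 (d (a (c (f (a (b (a (f (b (c (a (b (d
  e))))))))))))), t true 1 (a (c (f (b (a (d (b (f (b (c (a (b (d e))))))))))))), t false 1 (a (b (a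
  (d (f (b (c (b (f (c (a (b (d e))))))))))))), t false 1 (a (f (a (d (a (b (a (c (b (f (a (b (d
  e))))))))))))), t false 1 (f (a (b (c (a (f (d (a (b (a (c (b (d e))))))))))))), t false 1 (a (b
  (c (f (a (d (a (f (b (a (c (b (d e))))))))))))), t false 1 (a (f (b (c (b (a (d (a (f (a (c (b (d
  e))))))))))))), t false 1 (b (c (a (f (b (d (a (b (f (a (c (b (d e))))))))))))), t false 1 (a (f
  (b (a (d (a (c (b (f (a (c (b (d e))))))))))))), t false 1 (a (f (c (b (a (d (a (c (f (a (c (b (d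
  e))))))))))))), t false 1 (d (a (f (b (c (a (b (f (a (b (c (b (d e))))))))))))), t false 1 (a (f
  (c (a (d (b (c (f (a (b (c (b (d e))))))))))))), t false 1 (a (f (c (d (b (c (f (a (d (b (c (b (d
  e))))))))))))), t false 2 (d (a (b (c (f (a (b (a (f (b (c (b (d e))))))))))))), t false 1 (a (b
  (c (f (a (d (b (a (f (b (c (b (d e))))))))))))), t false 1 (a (c (f (a (d (b (c (a (f (b (c (b (d
  e))))))))))))), t false 1 (a (b (c (f (b (a (d (b (f (b (c (b (d e))))))))))))), t false 1 (b (c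
  (a (b (d (f (a (b (a (f (c (b (d e))))))))))))), t false 1 (a (d (f (a (d (b (c (b (a (f (c (b (d
  e))))))))))))), t false 1 (a (c (b (a (d (f (a (c (a (f (c (b (d e))))))))))))), t true 2 (a (d (f
  (b (c (b (a (d (a (f (c (b (d e))))))))))))), t true 1 (a (b (a (d (f (b (a (c (b (f (c (b (d
  e))))))))))))), t false 1 (b (f (c (a (b (d (c (a (b (a (f (b (d e))))))))))))), t true 3 (b (f (b
  (d (a (b (a (c (b (a (f (b (d e))))))))))))), t true 1 (c (d (c (a (b (f (a (d (b (a (f (b (d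
  e))))))))))))), t true 1 (a (b (f (b (c (b (a (d (c (a (f (b (d e))))))))))))), t true 1 (a (b (f
  (a (d (a (b (a (c (b (f (b (d e))))))))))))), t true 1 (a (d (b (f (c (b (a (d (a (c (f (b (d
  e))))))))))))), t false 1 (b (f (c (a (b (d (a (c (f (b (a (c (d e))))))))))))), t false 1 (d (c
  (a (f (b (a (c (a (b (f (a (c (d e))))))))))))), t false 1 (b (c (a (f (b (d (a (c (b (f (a (c (d
  e))))))))))))), t true 1 (b (a (f (c (a (b (d (a (c (f (a (c (d e))))))))))))), t false 1 (a (f (c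
  (b (a (d (b (c (f (a (b (c (d e))))))))))))), t true 1 (d (c (a (b (f (a (c (b (a (f (b (c (d
  e))))))))))))), t false 1 (a (c (b (f (a (d (b (c (a (f (b (c (d e))))))))))))), t true 1 (a (b (f
  (c (b (a (d (b (c (f (b (c (d e))))))))))))), t false 1 (d (c (a (b (a (c (f (a (b (a (f (c (d
  e))))))))))))), t false 1 (b (c (a (b (d (f (a (c (b (a (f (c (d e))))))))))))), t true 1 (b (a (c
  (a (b (d (f (a (c (a (f (c (d e))))))))))))), t false 1 (a (c (b (a (d (f (b (c (a (b (f (c (d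
  e))))))))))))), t true 1 (a (b (c (b (a (d (f (b (c (b (f (c (d e))))))))))))), t false 1 (a (b (a
  (d (f (c (a (b (a (c (f (c (d e))))))))))))), t false 1 (c (f (c (a (b (a (d (c (a (b (a (f (d
  e))))))))))))), t false 1 (a (c (f (c (b (a (d (c (a (b (a (f (d e))))))))))))), t false 1 (a (b
  (c (f (c (a (d (c (a (b (a (f (d e))))))))))))), t false 1 (b (c (f (c (a (b (d (c (a (b (a (f (d
  e))))))))))))), t true 1 (b (a (c (f (c (b (d (c (a (b (a (f (d e))))))))))))), t true 1 (c (f (a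
  (b (a (c (d (c (a (b (a (f (d e))))))))))))), t true 1 (c (a (b (a (f (c (d (c (a (b (a (f (d
  e))))))))))))), t false 2 (a (b (a (c (f (c (d (c (a (b (a (f (d e))))))))))))), t false 1 (c (d
  (c (a (b (a (d (f (a (b (a (f (d e))))))))))))), t false 3 (b (c (f (b (d (a (b (a (c (b (a (f (d
  e))))))))))))), t true 1 (a (c (f (b (c (b (a (d (c (b (a (f (d e))))))))))))), t false 1 (a (c (f
  (b (a (d (a (b (a (c (a (f (d e))))))))))))), t true 3 (b (a (c (f (b (d (a (b (a (c (a (f (d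
  e))))))))))))), t true 1 (a (d (b (c (f (b (a (d (a (c (b (f (d e))))))))))))), t false 1 (c (f (a
  (b (a (c (a (b (a (d (c (f (d e))))))))))))), t false 1 (a (b (a (c (f (d (c (a (b (a (d (f (d
  e))))))))))))), t false 1 (a (d (a (f (c (d (b (a (c (a (b (a (f e))))))))))))), t false 2 (b (d
  (a (b (f (c (d (a (c (a (b (a (f e))))))))))))), t true 2 (a (c (a (f (c (b (a (d (c (a (b (a (f
  e))))))))))))), t true 1 (b (c (a (b (f (c (a (d (c (a (b (a (f e))))))))))))), t false 2 (c (a (b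
  (a (c (f (c (d (c (a (b (a (f e))))))))))))), t true 1 (d (a (b (a (d (f (c (d (c (a (b (a (f
  e))))))))))))), t true 1 (a (d (a (f (b (c (d (b (a (c (b (a (f e)))))))))))))]

def c34_8 : List Tm := [t true 1 (f (d (b (c (a (b (a (d (a (c (b (a (f e))))))))))))), t false 1 (d
  (b (c (a (b (a (d (f (a (c (b (a (f e))))))))))))), t true 1 (a (d (b (c (a (f (a (d (b (c (b (a
  (f e))))))))))))), t false 1 (a (c (a (f (b (c (b (a (d (c (b (a (f e))))))))))))), t true 1 (a (c
  (b (a (f (a (c (b (d (c (b (a (f e))))))))))))), t false 1 (f (a (c (a (b (a (d (a (b (a (c (a (f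
  e))))))))))))), t true 1 (a (c (a (f (b (a (d (a (b (a (c (a (f e))))))))))))), t false 1 (a (b (a
  (f (b (c (d (a (b (a (c (a (f e))))))))))))), t true 3 (b (d (a (c (b (f (b (d (b (a (c (a (f
  e))))))))))))), t false 2 (b (d (b (f (b (a (c (d (b (a (c (a (f e))))))))))))), t false 1 (f (d
  (b (a (c (a (b (a (d (a (c (a (f e))))))))))))), t true 1 (d (b (a (c (a (b (a (d (f (a (c (a (f
  e))))))))))))), t false 1 (f (b (d (a (c (a (b (a (d (b (c (a (f e))))))))))))), t true 1 (b (d (a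
  (c (a (b (f (a (d (b (c (a (f e))))))))))))), t true 1 (b (c (a (b (f (b (c (b (a (d (c (a (f
  e))))))))))))), t true 2 (f (a (d (a (b (a (c (a (b (a (d (a (f e))))))))))))), t false 2 (a (d (a
  (f (b (a (c (a (b (a (d (a (f e))))))))))))), t false 1 (f (d (a (c (a (b (a (d (b (c (a (b (f
  e))))))))))))), t true 1 (d (a (c (a (b (a (d (f (b (c (a (b (f e))))))))))))), t false 3 (f (b (c
  (a (b (a (d (a (b (a (c (b (f e))))))))))))), t true 3 (b (c (a (b (f (a (d (a (b (a (c (b (f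
  e))))))))))))), t true 2 (a (b (a (f (a (c (d (a (b (a (c (b (f e))))))))))))), t true 1 (f (a (d
  (b (c (a (b (a (d (a (c (b (f e))))))))))))), t false 1 (a (d (b (c (a (f (b (a (d (a (c (b (f
  e))))))))))))), t true 1 (f (b (d (a (b (a (c (a (b (a (d (b (f e))))))))))))), t false 1 (b (d (a
  (b (f (a (c (a (b (a (d (b (f e))))))))))))), t true 2 (f (d (c (a (b (a (d (c (a (b (a (c (f
  e))))))))))))), t false 2 (d (c (a (b (a (d (f (c (a (b (a (c (f e))))))))))))), t false 1 (f (a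
  (d (b (a (c (a (b (a (d (a (c (f e))))))))))))), t true 1 (a (d (b (a (f (c (a (b (a (d (a (c (f
  e))))))))))))), t false 1 (f (a (b (d (a (c (a (b (a (d (b (c (f e))))))))))))), t true 1 (a (b (d
  (a (f (c (a (b (a (d (b (c (f e))))))))))))), t true 1 (f (c (a (b (a (c (d (c (a (b (a (d (f
  e))))))))))))), t false 1 (c (a (b (a (c (f (d (c (a (b (a (d (f e)))))))))))))]

def c34 : List (List Tm) := [c34_0, c34_1, c34_2, c34_3, c34_4, c34_5, c34_6, c34_7, c34_8]

def c35_0 : List Tm := [t true 1 (d (c (f (c (d (c (a (b (a (c (a (b (a e))))))))))))), t true 1 (c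
  (a (d (a (f (a (d (b (a (c (a (b (a e))))))))))))), t false 1 (c (a (b (d (a (f (a (d (a (c (a (b
  (a e))))))))))))), t false 1 (c (b (d (a (b (f (a (d (a (c (a (b (a e))))))))))))), t false 1 (c
  (b (d (b (f (b (d (a (b (c (a (b (a e))))))))))))), t true 1 (c (b (a (d (b (f (b (d (b (c (a (b
  (a e))))))))))))), t true 1 (a (c (f (d (a (c (b (a (d (c (a (b (a e))))))))))))), t false 1 (a (b
  (c (f (d (a (c (a (d (c (a (b (a e))))))))))))), t false 1 (b (c (f (d (a (b (c (a (d (c (a (b (a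
  e))))))))))))), t false 1 (b (c (f (d (b (c (a (b (d (c (a (b (a e))))))))))))), t true 1 (a (c (f
  (d (b (a (c (b (d (c (a (b (a e))))))))))))), t true 1 (b (a (c (f (d (b (c (b (d (c (a (b (a
  e))))))))))))), t true 1 (c (f (d (c (a (b (a (c (d (c (a (b (a e))))))))))))), t true 2 (f (d (c
  (a (b (a (f (c (d (c (a (b (a e))))))))))))), t false 3 (c (d (f (d (a (b (a (f (d (c (a (b (a
  e))))))))))))), t false 1 (d (b (c (a (b (d (c (a (f (c (a (b (a e))))))))))))), t true 1 (d (c (a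
  (b (a (c (d (c (f (c (a (b (a e))))))))))))), t true 1 (d (b (c (a (b (a (f (c (a (d (a (b (a
  e))))))))))))), t false 1 (a (c (a (d (c (b (a (f (c (d (a (b (a e))))))))))))), t true 1 (a (b (c
  (a (d (c (a (f (c (d (a (b (a e))))))))))))), t true 1 (b (c (a (b (d (c (a (f (c (d (a (b (a
  e))))))))))))), t true 1 (b (c (b (d (c (a (b (f (c (d (a (b (a e))))))))))))), t false 1 (a (c (b
  (a (d (c (b (f (c (d (a (b (a e))))))))))))), t false 1 (b (a (c (b (d (c (b (f (c (d (a (b (a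
  e))))))))))))), t false 1 (c (d (c (a (b (a (d (f (c (d (a (b (a e))))))))))))), t true 3 (c (d (f
  (c (d (a (b (a (f (d (a (b (a e))))))))))))), t false 1 (c (d (c (f (c (d (a (b (a (f (a (b (a
  e))))))))))))), t true 1 (f (d (b (c (b (d (c (a (b (f (a (b (a e))))))))))))), t true 1 (f (d (a
  (c (b (a (d (c (b (f (a (b (a e))))))))))))), t false 1 (b (d (c (f (c (d (c (a (b (a (c (b (a
  e))))))))))))), t false 1 (b (c (a (d (a (f (a (d (b (a (c (b (a e))))))))))))), t true 1 (d (c (f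
  (b (c (a (b (a (d (a (c (b (a e))))))))))))), t false 1 (c (f (b (c (d (a (b (a (d (a (c (b (a
  e))))))))))))), t true 1 (d (b (c (a (b (a (f (a (d (a (c (b (a e))))))))))))), t true 1 (b (c (a
  (b (d (a (f (a (d (a (c (b (a e))))))))))))), t true 1 (b (c (b (d (a (b (f (a (d (a (c (b (a
  e))))))))))))), t false 1 (d (f (b (c (a (b (a (f (d (a (c (b (a e))))))))))))), t false 1 (f (d
  (b (c (b (d (a (b (f (a (c (b (a e))))))))))))), t true 1 (b (c (b (d (b (f (b (d (a (b (c (b (a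
  e))))))))))))), t false 1 (b (c (b (a (d (b (f (b (d (b (c (b (a e))))))))))))), t false 1 (b (a
  (c (f (d (a (c (b (a (d (c (b (a e))))))))))))), t true 5 (c (a (b (a (f (d (a (c (a (d (c (b (a
  e))))))))))))), t false 1 (a (b (a (c (f (d (a (c (a (d (c (b (a e))))))))))))), t true 1 (f (d (b
  (c (a (b (a (f (a (d (c (b (a e))))))))))))), t false 1 (b (a (c (f (d (b (a (c (b (d (c (b (a
  e))))))))))))), t false 1 (b (c (f (d (c (a (b (a (c (d (c (b (a e))))))))))))), t false 2 (f (d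
  (c (a (b (a (f (a (c (d (c (b (a e))))))))))))), t false 2 (d (f (d (b (c (a (b (a (f (d (c (b (a
  e))))))))))))), t true 2 (b (c (d (f (d (a (b (a (f (d (c (b (a e))))))))))))), t false 1 (c (d (f
  (d (a (b (c (a (f (d (c (b (a e))))))))))))), t true 2 (c (d (f (d (b (c (a (b (f (d (c (b (a
  e))))))))))))), t false 2 (a (c (d (f (d (b (c (b (f (d (c (b (a e))))))))))))), t false 1 (c (d
  (a (b (a (d (a (c (a (f (c (b (a e))))))))))))), t false 1 (d (a (c (b (a (d (a (c (b (f (c (b (a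
  e))))))))))))), t true 1 (d (a (c (a (d (a (b (c (b (f (c (b (a e))))))))))))), t true 1 (b (d (a
  (c (b (a (d (c (b (f (c (b (a e))))))))))))), t false 1 (d (c (a (b (a (c (d (a (c (f (c (b (a
  e))))))))))))), t false 1 (c (a (b (d (a (c (a (d (c (f (c (b (a e))))))))))))), t false 1 (c (b
  (d (b (f (a (b (a (c (a (d (b (a e))))))))))))), t true 1 (c (a (b (d (b (a (f (c (a (b (d (b (a
  e))))))))))))), t true 1 (c (b (d (b (a (c (a (f (c (b (d (b (a e))))))))))))), t true 1 (c (a (b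
  (d (b (c (a (f (c (b (d (b (a e))))))))))))), t false 1 (c (b (d (c (b (f (a (b (a (c (d (b (a
  e))))))))))))), t true 1 (f (c (b (d (c (b (f (a (b (c (d (b (a e))))))))))))), t false 1 (a (f (c
  (b (d (c (b (f (b (c (d (b (a e))))))))))))), t true 1 (b (a (c (a (d (c (b (a (f (c (d (b (a
  e))))))))))))), t true 1 (c (b (d (a (b (a (c (a (f (c (d (b (a e))))))))))))), t true 1 (a (b (a
  (c (a (d (c (a (f (c (d (b (a e))))))))))))), t true 1 (d (a (b (a (c (a (d (a (f (c (d (b (a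
  e))))))))))))), t true 1 (b (a (c (b (a (d (c (b (f (c (d (b (a e))))))))))))), t true 1 (b (c (d
  (c (a (b (a (d (f (c (d (b (a e))))))))))))), t true 1 (d (f (b (d (b (c (a (b (a (f (d (b (a
  e))))))))))))), t false 1 (c (d (f (c (b (d (a (b (a (f (d (b (a e))))))))))))), t false 3 (b (c
  (d (f (c (d (a (b (a (f (d (b (a e))))))))))))), t true 1 (c (d (f (a (b (d (a (c (a (f (d (b (a
  e))))))))))))), t false 1 (c (d (f (b (d (b (c (a (b (f (d (b (a e))))))))))))), t true 1 (a (c (d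
  (f (b (d (b (c (b (f (d (b (a e))))))))))))), t true 1 (b (c (d (c (f (c (d (a (b (a (f (b (a
  e))))))))))))), t false 1 (c (d (a (b (f (a (d (a (c (a (f (b (a e))))))))))))), t false 1 (c (d
  (b (f (a (b (d (a (c (a (f (b (a e))))))))))))), t false 1 (b (f (d (b (c (b (d (c (a (b (f (b (a
  e))))))))))))), t false 1 (b (f (d (a (c (b (a (d (c (b (f (b (a e))))))))))))), t true 1 (a (b (f
  (d (b (c (b (d (c (b (f (b (a e))))))))))))), t true 1 (b (a (d (c (f (c (d (c (a (b (a (c (a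
  e))))))))))))), t true 1 (a (c (f (d (a (b (a (d (a (b (a (c (a e))))))))))))), t false 1 (c (f (d
  (a (c (b (a (d (a (b (a (c (a e))))))))))))), t true 2 (b (c (f (d (a (c (a (d (a (b (a (c (a
  e))))))))))))), t false 1 (c (f (d (b (a (c (b (d (a (b (a (c (a e))))))))))))), t true 1 (d (a (c
  (a (d (b (a (f (a (b (a (c (a e))))))))))))), t true 1 (d (a (c (b (a (d (b (f (a (b (a (c (a
  e))))))))))))), t true 1 (b (a (c (a (d (a (f (a (d (b (a (c (a e))))))))))))), t true 1 (b (f (d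
  (a (c (a (d (a (f (b (a (c (a e))))))))))))), t false 1 (d (c (f (b (a (c (a (b (a (d (a (c (a
  e))))))))))))), t true 1 (c (f (b (a (c (d (a (b (a (d (a (c (a e))))))))))))), t false 1 (d (b (a
  (c (a (b (a (f (a (d (a (c (a e))))))))))))), t false 1 (b (a (c (a (b (d (a (f (a (d (a (c (a
  e))))))))))))), t true 1 (b (c (b (d (a (c (b (f (a (d (a (c (a e))))))))))))), t true 1 (d (f (b
  (a (c (a (b (a (f (d (a (c (a e))))))))))))), t true 2 (f (d (a (c (b (a (d (a (b (f (a (c (a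
  e))))))))))))), t true 1 (f (d (b (a (c (b (d (a (b (f (a (c (a e)))))))))))))]

def c35_1 : List Tm := [t true 1 (d (b (c (f (a (c (a (b (d (a (b (c (a e))))))))))))), t true 1 (d
  (a (c (a (b (a (f (b (d (a (b (c (a e))))))))))))), t false 1 (b (a (c (b (d (b (f (b (d (a (b (c
  (a e))))))))))))), t true 2 (d (f (a (c (a (b (a (f (d (a (b (c (a e))))))))))))), t false 1 (f (d
  (a (c (b (a (d (b (f (a (b (c (a e))))))))))))), t false 1 (b (d (c (f (a (c (a (b (a (d (b (c (a
  e))))))))))))), t true 1 (b (c (f (a (c (d (a (b (a (d (b (c (a e))))))))))))), t false 1 (b (a (c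
  (a (d (a (f (b (a (d (b (c (a e))))))))))))), t true 1 (a (c (a (b (d (a (f (b (a (d (b (c (a
  e))))))))))))), t true 1 (a (c (b (d (a (b (f (b (a (d (b (c (a e))))))))))))), t false 1 (c (b (d
  (b (f (b (a (c (a (d (b (c (a e))))))))))))), t true 1 (c (a (b (d (a (f (b (c (a (d (b (c (a
  e))))))))))))), t true 1 (c (b (d (a (b (f (b (c (a (d (b (c (a e))))))))))))), t false 1 (f (b (a
  (c (a (d (a (f (a (d (b (c (a e))))))))))))), t true 1 (f (a (c (a (b (d (a (f (a (d (b (c (a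
  e))))))))))))), t true 1 (f (a (c (b (d (a (b (f (a (d (b (c (a e))))))))))))), t true 3 (c (b (d
  (b (f (a (c (a (b (d (b (c (a e))))))))))))), t false 1 (b (d (b (c (f (a (c (a (b (d (b (c (a
  e))))))))))))), t false 2 (f (c (b (d (b (f (a (c (b (d (b (c (a e))))))))))))), t true 2 (a (f (c
  (b (d (b (f (c (b (d (b (c (a e))))))))))))), t true 2 (b (d (a (c (a (b (a (f (b (d (b (c (a
  e))))))))))))), t false 1 (c (b (d (b (a (c (a (f (b (d (b (c (a e))))))))))))), t true 1 (b (a (c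
  (b (a (d (b (f (b (d (b (c (a e))))))))))))), t true 1 (b (d (c (a (b (a (f (b (c (d (b (c (a
  e))))))))))))), t true 1 (b (d (f (a (c (a (b (a (f (d (b (c (a e))))))))))))), t false 1 (c (b (d
  (f (b (a (c (a (f (d (b (c (a e))))))))))))), t false 2 (c (d (f (b (d (a (c (a (f (d (b (c (a
  e))))))))))))), t true 1 (c (d (b (f (b (d (a (c (a (f (b (c (a e))))))))))))), t false 2 (d (a (c
  (b (f (b (a (d (a (f (b (c (a e))))))))))))), t true 1 (d (a (b (f (b (c (a (d (a (f (b (c (a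
  e))))))))))))), t true 1 (d (b (f (c (b (d (a (c (b (f (b (c (a e))))))))))))), t false 1 (a (d (b
  (f (c (b (d (c (b (f (b (c (a e))))))))))))), t true 1 (b (f (d (a (c (b (a (d (b (f (b (c (a
  e))))))))))))), t false 1 (a (c (a (b (a (f (d (a (b (a (d (c (a e))))))))))))), t false 4 (c (a
  (b (a (f (d (a (b (c (a (d (c (a e))))))))))))), t true 1 (a (b (a (c (f (d (a (b (c (a (d (c (a
  e))))))))))))), t false 1 (f (d (b (a (c (a (b (a (f (a (d (c (a e))))))))))))), t false 3 (c (a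
  (b (a (f (d (b (c (a (b (d (c (a e))))))))))))), t true 1 (a (b (a (c (f (d (b (c (a (b (d (c (a
  e))))))))))))), t true 1 (f (d (a (c (a (b (a (f (a (b (d (c (a e))))))))))))), t true 1 (b (a (c
  (f (d (c (a (b (a (c (d (c (a e))))))))))))), t true 2 (f (d (c (a (b (a (f (a (b (c (d (c (a
  e))))))))))))), t true 2 (d (f (d (b (a (c (a (b (a (f (d (c (a e))))))))))))), t false 1 (b (a (c
  (d (f (d (a (b (a (f (d (c (a e))))))))))))), t true 2 (b (c (d (f (d (a (c (b (a (f (d (c (a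
  e))))))))))))), t true 1 (c (b (d (f (d (b (a (c (a (f (d (c (a e))))))))))))), t false 2 (c (d (f
  (d (b (a (c (a (b (f (d (c (a e))))))))))))), t true 1 (b (c (d (f (d (b (a (c (b (f (d (c (a
  e))))))))))))), t false 1 (a (b (c (d (f (d (b (c (b (f (d (c (a e))))))))))))), t true 1 (a (c (d
  (a (b (a (d (a (b (a (f (c (a e))))))))))))), t true 1 (c (d (a (b (a (d (a (b (c (a (f (c (a
  e))))))))))))), t true 3 (b (c (d (a (b (a (d (b (c (b (f (c (a e))))))))))))), t true 1 (d (c (a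
  (b (a (c (d (a (b (c (f (c (a e))))))))))))), t true 1 (c (a (b (d (a (c (a (d (b (c (f (c (a
  e))))))))))))), t true 1 (c (a (d (b (a (c (a (b (d (c (f (c (a e))))))))))))), t true 2 (b (c (a
  (d (c (a (f (c (a (b (a (d (a e))))))))))))), t false 1 (c (b (a (d (a (c (b (f (c (b (a (d (a
  e))))))))))))), t true 1 (c (a (d (a (b (c (b (f (c (b (a (d (a e))))))))))))), t true 1 (c (a (d
  (b (a (f (a (b (a (c (a (d (a e))))))))))))), t true 1 (c (b (a (d (b (f (a (b (a (c (a (d (a
  e))))))))))))), t false 1 (c (a (b (a (f (a (b (d (a (c (a (d (a e))))))))))))), t false 2 (c (b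
  (f (b (a (d (a (f (b (c (a (d (a e))))))))))))), t true 1 (b (f (b (c (a (d (a (f (b (c (a (d (a
  e))))))))))))), t true 1 (b (c (a (d (b (c (b (a (f (c (a (d (a e))))))))))))), t true 2 (b (c (a
  (d (a (b (c (b (f (c (a (d (a e))))))))))))), t true 1 (f (a (d (b (a (c (a (b (a (f (a (d (a
  e))))))))))))), t true 1 (b (c (a (d (b (c (a (f (c (a (b (d (a e))))))))))))), t true 1 (b (c (a
  (d (a (f (a (b (a (c (b (d (a e))))))))))))), t true 1 (f (c (a (d (b (c (a (f (a (c (b (d (a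
  e))))))))))))), t false 1 (c (b (a (d (b (a (c (a (f (c (b (d (a e))))))))))))), t true 1 (c (b (a
  (d (a (c (a (b (f (c (b (d (a e))))))))))))), t false 1 (c (a (d (a (b (c (a (b (f (c (b (d (a
  e))))))))))))), t false 1 (b (f (a (d (a (c (a (b (a (f (b (d (a e))))))))))))), t false 1 (c (b
  (f (b (a (d (b (c (a (f (b (d (a e))))))))))))), t true 1 (c (a (d (c (b (a (f (a (b (a (c (d (a
  e))))))))))))), t true 1 (c (b (a (d (c (b (f (a (b (a (c (d (a e))))))))))))), t true 2 (b (f (c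
  (a (d (c (a (f (b (a (c (d (a e))))))))))))), t false 1 (f (c (a (d (c (b (a (f (a (b (c (d (a
  e))))))))))))), t false 1 (f (c (b (a (d (c (b (f (a (b (c (d (a e))))))))))))), t false 1 (b (f
  (a (d (c (a (b (a (f (b (c (d (a e))))))))))))), t false 1 (b (f (c (a (d (c (b (a (f (b (c (d (a
  e))))))))))))), t false 2 (c (b (f (b (a (d (c (a (f (b (c (d (a e))))))))))))), t true 1 (b (f (b
  (c (a (d (c (a (f (b (c (d (a e))))))))))))), t true 1 (b (f (c (b (a (d (c (b (f (b (c (d (a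
  e))))))))))))), t false 1 (a (b (f (c (b (d (c (b (f (b (c (d (a e))))))))))))), t false 1 (a (b
  (a (c (a (b (d (c (a (f (c (d (a e))))))))))))), t false 1 (d (a (b (a (c (a (b (d (a (f (c (d (a
  e))))))))))))), t false 1 (a (b (a (c (b (d (c (a (b (f (c (d (a e))))))))))))), t false 1 (d (a
  (b (a (c (b (d (a (b (f (c (d (a e))))))))))))), t false 3 (b (c (a (d (a (b (a (c (b (f (c (d (a
  e))))))))))))), t false 1 (b (a (c (d (c (a (b (a (d (f (c (d (a e))))))))))))), t false 1 (a (d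
  (f (a (b (a (c (a (b (a (f (d (a e))))))))))))), t false 2 (d (f (a (d (b (a (c (a (b (a (f (d (a
  e))))))))))))), t false 1 (d (f (b (a (d (b (c (a (b (a (f (d (a e))))))))))))), t true 1 (c (d (f
  (c (b (a (d (a (b (a (f (d (a e))))))))))))), t true 2 (b (c (d (f (c (a (d (a (b (a (f (d (a
  e))))))))))))), t true 1 (b (a (c (d (f (c (d (a (b (a (f (d (a e))))))))))))), t false 1 (b (c (d
  (f (a (d (a (c (b (a (f (d (a e))))))))))))), t false 1 (c (b (a (d (f (a (b (a (c (a (f (d (a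
  e))))))))))))), t false 1 (c (b (d (f (a (d (b (a (c (a (f (d (a e)))))))))))))]

def c35_2 : List Tm := [t true 1 (c (d (f (b (a (d (a (b (c (a (f (d (a e))))))))))))), t true 1 (c
  (a (d (f (a (b (a (c (a (b (f (d (a e))))))))))))), t true 2 (c (d (f (a (d (b (a (c (a (b (f (d
  (a e))))))))))))), t true 1 (c (d (f (b (a (d (b (c (a (b (f (d (a e))))))))))))), t false 1 (b (c
  (d (f (a (d (b (a (c (b (f (d (a e))))))))))))), t true 2 (d (a (f (a (d (b (a (c (a (b (a (f (a
  e))))))))))))), t true 1 (d (a (f (b (a (d (b (c (a (b (a (f (a e))))))))))))), t false 1 (c (d (a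
  (f (c (b (a (d (a (b (a (f (a e))))))))))))), t false 1 (b (a (c (d (c (f (c (d (a (b (a (f (a
  e))))))))))))), t false 1 (d (b (c (a (f (b (d (b (c (b (a (f (a e))))))))))))), t false 2 (c (d
  (a (f (a (d (b (a (c (a (b (f (a e))))))))))))), t false 1 (c (d (a (f (b (a (d (b (c (a (b (f (a
  e))))))))))))), t true 1 (b (a (f (d (b (c (b (d (c (a (b (f (a e))))))))))))), t false 1 (d (b (c
  (a (f (c (a (b (d (a (b (f (a e))))))))))))), t true 1 (b (c (d (a (f (a (d (b (a (c (b (f (a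
  e))))))))))))), t true 1 (c (d (b (c (a (f (b (d (b (c (b (f (a e))))))))))))), t false 1 (a (c (d
  (b (c (f (b (d (b (c (b (f (a e))))))))))))), t true 1 (b (a (f (d (a (c (b (a (d (c (b (f (a
  e))))))))))))), t false 1 (b (d (c (a (f (a (c (d (b (a (c (f (a e))))))))))))), t false 1 (d (b
  (c (a (f (a (c (b (d (a (c (f (a e))))))))))))), t false 1 (b (c (a (f (d (a (c (b (a (d (c (f (a
  e))))))))))))), t true 1 (a (d (c (f (c (d (c (a (b (a (c (a (b e))))))))))))), t true 1 (c (f (d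
  (a (c (a (d (a (b (a (c (a (b e))))))))))))), t true 1 (d (a (c (a (d (a (f (a (b (a (c (a (b
  e))))))))))))), t true 1 (a (c (a (d (a (f (a (d (b (a (c (a (b e))))))))))))), t true 1 (f (d (a
  (c (a (d (a (f (b (a (c (a (b e))))))))))))), t false 1 (a (c (a (b (d (a (f (a (d (a (c (a (b
  e))))))))))))), t true 1 (c (b (d (a (c (b (f (a (d (a (c (a (b e))))))))))))), t false 1 (a (c (b
  (d (b (f (b (d (a (b (c (a (b e))))))))))))), t false 1 (d (c (f (a (c (a (b (a (d (b (c (a (b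
  e))))))))))))), t true 1 (c (f (a (c (d (a (b (a (d (b (c (a (b e))))))))))))), t true 3 (d (a (c
  (a (b (a (f (b (d (b (c (a (b e))))))))))))), t true 1 (a (c (b (a (d (b (f (b (d (b (c (a (b
  e))))))))))))), t true 1 (d (c (a (b (a (f (b (c (d (b (c (a (b e))))))))))))), t true 3 (d (f (a
  (c (a (b (a (f (d (b (c (a (b e))))))))))))), t false 1 (a (b (c (f (d (a (b (c (a (d (c (a (b
  e))))))))))))), t false 1 (a (b (c (f (d (b (c (a (b (d (c (a (b e))))))))))))), t false 3 (c (a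
  (b (a (f (d (b (c (b (d (c (a (b e))))))))))))), t true 1 (a (b (a (c (f (d (b (c (b (d (c (a (b
  e))))))))))))), t true 1 (f (d (a (c (a (b (a (f (b (d (c (a (b e))))))))))))), t true 1 (a (c (f
  (d (c (a (b (a (c (d (c (a (b e))))))))))))), t true 2 (f (d (c (a (b (a (f (b (c (d (c (a (b
  e))))))))))))), t false 1 (a (c (d (f (d (a (b (a (f (d (c (a (b e))))))))))))), t true 2 (c (d (f
  (d (a (c (b (a (f (d (c (a (b e))))))))))))), t false 2 (b (c (d (f (d (a (c (a (f (d (c (a (b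
  e))))))))))))), t false 1 (d (b (c (a (b (d (b (c (a (f (c (a (b e))))))))))))), t true 3 (c (d (a
  (b (a (d (b (c (b (f (c (a (b e))))))))))))), t true 1 (d (c (a (b (a (c (d (b (c (f (c (a (b
  e))))))))))))), t true 1 (c (a (d (b (a (c (b (d (c (f (c (a (b e))))))))))))), t true 2 (c (a (d
  (c (a (f (c (a (b (a (d (a (b e))))))))))))), t true 1 (c (b (a (d (a (b (f (c (b (a (d (a (b
  e))))))))))))), t true 1 (f (b (c (a (d (a (f (b (c (a (d (a (b e))))))))))))), t true 1 (a (d (b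
  (c (a (b (a (f (c (a (d (a (b e))))))))))))), t true 2 (c (a (d (b (c (b (a (f (c (a (d (a (b
  e))))))))))))), t true 1 (c (b (a (d (a (c (b (f (c (a (d (a (b e))))))))))))), t true 1 (c (a (d
  (a (b (c (b (f (c (a (d (a (b e))))))))))))), t true 1 (c (a (d (a (f (a (b (a (c (b (d (a (b
  e))))))))))))), t false 1 (f (a (d (a (c (a (b (a (f (b (d (a (b e))))))))))))), t true 1 (c (a (d
  (c (a (f (a (b (a (c (d (a (b e))))))))))))), t true 2 (f (c (a (d (c (a (f (b (a (c (d (a (b
  e))))))))))))), t false 1 (b (f (c (a (d (c (a (f (a (c (d (a (b e))))))))))))), t false 1 (f (a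
  (d (c (a (b (a (f (b (c (d (a (b e))))))))))))), t false 2 (f (c (a (d (c (b (a (f (b (c (d (a (b
  e))))))))))))), t true 1 (f (b (c (a (d (c (a (f (b (c (d (a (b e))))))))))))), t true 1 (a (b (c
  (a (b (d (c (a (f (c (d (a (b e))))))))))))), t true 1 (a (b (c (b (d (c (a (b (f (c (d (a (b
  e))))))))))))), t false 3 (c (a (d (a (b (a (c (b (f (c (d (a (b e))))))))))))), t false 1 (a (b
  (a (c (b (d (c (b (f (c (d (a (b e))))))))))))), t false 1 (d (a (b (a (c (b (d (b (f (c (d (a (b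
  e))))))))))))), t false 1 (a (c (d (c (a (b (a (d (f (c (d (a (b e))))))))))))), t true 2 (c (d (f
  (c (a (d (a (b (a (f (d (a (b e))))))))))))), t true 1 (a (c (d (f (c (d (a (b (a (f (d (a (b
  e))))))))))))), t false 1 (c (d (f (a (d (a (c (b (a (f (d (a (b e))))))))))))), t true 1 (b (c (d
  (f (a (d (a (c (a (f (d (a (b e))))))))))))), t true 1 (c (a (d (f (a (b (a (c (b (f (d (a (b
  e))))))))))))), t false 1 (a (c (d (c (f (c (d (a (b (a (f (a (b e))))))))))))), t true 1 (b (a (f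
  (d (a (c (a (d (c (a (f (a (b e))))))))))))), t true 1 (a (f (d (b (c (b (d (c (a (b (f (a (b
  e))))))))))))), t true 1 (a (f (d (a (c (b (a (d (c (b (f (a (b e))))))))))))), t true 1 (b (a (f
  (d (b (c (b (d (c (b (f (a (b e))))))))))))), t false 1 (d (c (a (f (a (c (d (b (a (c (f (a (b
  e))))))))))))), t false 1 (c (a (f (d (a (c (b (a (d (c (f (a (b e))))))))))))), t false 1 (a (b
  (d (c (f (c (d (c (a (b (a (c (b e))))))))))))), t false 1 (c (f (d (a (b (c (a (d (a (b (a (c (b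
  e))))))))))))), t true 1 (d (a (c (f (b (c (b (a (d (b (a (c (b e))))))))))))), t true 1 (d (b (c
  (a (b (a (f (a (d (b (a (c (b e))))))))))))), t false 1 (a (b (c (a (d (a (f (a (d (b (a (c (b
  e))))))))))))), t true 1 (d (c (a (b (a (f (a (c (d (b (a (c (b e))))))))))))), t true 1 (d (f (b
  (c (a (b (a (f (d (b (a (c (b e))))))))))))), t true 1 (a (d (c (f (b (c (a (b (a (d (a (c (b
  e))))))))))))), t false 1 (a (c (f (b (c (d (a (b (a (d (a (c (b e))))))))))))), t true 2 (c (a (d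
  (a (f (b (c (b (a (d (a (c (b e))))))))))))), t false 1 (a (d (a (c (f (b (c (b (a (d (a (c (b
  e))))))))))))), t false 2 (f (c (a (d (a (f (b (c (a (d (a (c (b e))))))))))))), t true 2 (b (f (c
  (a (d (a (f (c (a (d (a (c (b e))))))))))))), t false 1 (a (d (b (c (a (b (a (f (a (d (a (c (b
  e))))))))))))), t true 1 (a (b (c (a (b (d (a (f (a (d (a (c (b e))))))))))))), t true 1 (b (c (b
  (a (d (a (b (f (a (d (a (c (b e))))))))))))), t true 1 (c (b (a (d (a (c (b (f (a (d (a (c (b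
  e))))))))))))), t false 2 (c (a (d (a (b (c (b (f (a (d (a (c (b e)))))))))))))]

def c35_3 : List Tm := [t true 1 (d (b (c (b (a (d (b (f (a (d (a (c (b e))))))))))))), t false 1 (a
  (d (c (a (b (a (f (a (c (d (a (c (b e))))))))))))), t false 2 (a (d (f (b (c (a (b (a (f (d (a (c
  (b e))))))))))))), t false 1 (c (a (d (f (b (c (b (a (f (d (a (c (b e))))))))))))), t false 1 (c
  (d (f (a (d (b (c (b (f (d (a (c (b e))))))))))))), t false 1 (d (b (c (a (f (b (d (b (a (f (a (c
  (b e))))))))))))), t true 1 (d (a (f (c (a (d (b (c (a (f (a (c (b e))))))))))))), t false 1 (b (d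
  (a (f (c (a (d (c (a (f (a (c (b e))))))))))))), t false 1 (a (f (d (b (c (b (d (a (b (f (a (c (b
  e))))))))))))), t true 1 (a (b (c (b (d (b (f (b (d (a (b (c (b e))))))))))))), t true 1 (d (c (f
  (a (b (c (a (b (a (d (b (c (b e))))))))))))), t false 1 (c (f (a (b (c (d (a (b (a (d (b (c (b
  e))))))))))))), t true 1 (d (b (c (a (b (a (f (b (a (d (b (c (b e))))))))))))), t false 1 (d (a (b
  (c (a (b (a (f (b (d (b (c (b e))))))))))))), t false 1 (a (b (c (b (a (d (b (f (b (d (b (c (b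
  e))))))))))))), t true 1 (d (c (a (b (a (f (b (a (c (d (b (c (b e))))))))))))), t true 1 (f (d (a
  (c (a (d (b (c (a (f (b (c (b e))))))))))))), t false 1 (b (c (a (b (a (f (d (a (b (a (d (c (b
  e))))))))))))), t true 5 (c (a (b (a (f (d (a (c (b (a (d (c (b e))))))))))))), t false 1 (a (b (a
  (c (f (d (a (c (b (a (d (c (b e))))))))))))), t true 2 (f (d (b (c (a (b (a (f (b (a (d (c (b
  e))))))))))))), t false 1 (a (f (d (b (c (a (b (a (f (a (d (c (b e))))))))))))), t true 6 (c (a (b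
  (a (f (d (b (a (c (b (d (c (b e))))))))))))), t false 1 (a (b (a (c (f (d (b (a (c (b (d (c (b
  e))))))))))))), t false 1 (a (b (c (f (d (c (a (b (a (c (d (c (b e))))))))))))), t false 2 (f (d
  (c (a (b (a (f (b (a (c (d (c (b e))))))))))))), t false 2 (a (d (f (d (b (c (a (b (a (f (d (c (b
  e))))))))))))), t false 1 (c (d (f (d (a (b (c (b (a (f (d (c (b e))))))))))))), t false 1 (b (a
  (c (d (f (d (a (c (a (f (d (c (b e))))))))))))), t true 2 (a (c (d (f (d (b (c (a (b (f (d (c (b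
  e))))))))))))), t true 3 (b (c (d (a (b (a (d (a (b (a (f (c (b e))))))))))))), t false 2 (a (c (d
  (a (b (a (d (a (c (a (f (c (b e))))))))))))), t true 1 (d (a (c (b (a (d (a (c (a (b (f (c (b
  e))))))))))))), t false 1 (d (a (c (a (d (a (b (c (a (b (f (c (b e))))))))))))), t false 1 (b (d
  (a (c (b (a (d (c (a (b (f (c (b e))))))))))))), t false 3 (c (d (a (b (a (d (b (a (c (b (f (c (b
  e))))))))))))), t false 1 (d (c (a (b (a (c (d (b (a (c (f (c (b e))))))))))))), t false 1 (c (a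
  (d (b (a (c (b (d (a (c (f (c (b e))))))))))))), t false 1 (c (a (b (d (a (c (b (a (d (c (f (c (b
  e))))))))))))), t false 2 (c (a (b (d (c (a (f (c (a (b (a (d (b e))))))))))))), t true 1 (f (a (c
  (b (d (a (c (b (f (b (a (d (b e))))))))))))), t false 1 (a (c (b (d (b (f (a (b (a (c (a (d (b
  e))))))))))))), t false 1 (f (b (a (c (a (d (a (f (b (c (a (d (b e))))))))))))), t true 1 (f (a (c
  (a (b (d (a (f (b (c (a (d (b e))))))))))))), t false 1 (c (a (b (d (b (c (b (a (f (c (a (d (b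
  e))))))))))))), t false 3 (c (a (b (d (a (b (c (b (f (c (a (d (b e))))))))))))), t false 2 (c (a
  (f (b (d (b (c (b (a (f (a (d (b e))))))))))))), t false 2 (c (a (f (c (a (b (d (a (b (f (a (d (b
  e))))))))))))), t true 1 (c (a (f (a (b (d (a (c (b (f (a (d (b e))))))))))))), t false 1 (a (f (a
  (c (b (d (a (c (b (f (a (d (b e))))))))))))), t false 1 (c (a (b (d (b (c (a (f (c (a (b (d (b
  e))))))))))))), t false 1 (c (a (f (b (d (b (a (f (a (c (b (d (b e))))))))))))), t true 2 (a (c (b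
  (d (b (a (c (a (f (c (b (d (b e))))))))))))), t true 1 (f (a (c (b (d (b (a (c (a (f (b (d (b
  e))))))))))))), t false 1 (a (c (b (d (c (b (f (a (b (a (c (d (b e))))))))))))), t false 1 (f (c
  (a (b (d (c (a (f (b (a (c (d (b e))))))))))))), t true 1 (f (c (b (d (c (a (b (f (b (a (c (d (b
  e))))))))))))), t false 1 (c (a (f (b (d (c (b (a (f (a (c (d (b e))))))))))))), t false 1 (b (a
  (f (c (a (d (c (a (f (a (c (d (b e))))))))))))), t true 1 (a (f (c (a (b (d (c (a (f (a (c (d (b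
  e))))))))))))), t false 1 (a (f (c (b (d (c (a (b (f (a (c (d (b e))))))))))))), t true 1 (a (f (c
  (b (d (c (b (f (a (b (c (d (b e))))))))))))), t false 1 (f (c (a (b (d (c (b (a (f (b (c (d (b
  e))))))))))))), t false 1 (f (b (a (c (a (d (c (a (f (b (c (d (b e))))))))))))), t true 1 (f (a (c
  (a (b (d (c (a (f (b (c (d (b e))))))))))))), t true 1 (a (b (a (c (a (d (c (b (a (f (c (d (b
  e))))))))))))), t true 1 (d (a (b (a (c (a (d (b (a (f (c (d (b e))))))))))))), t true 2 (a (c (b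
  (d (a (b (a (c (a (f (c (d (b e))))))))))))), t true 3 (c (a (b (d (a (b (a (c (b (f (c (d (b
  e))))))))))))), t true 1 (a (b (a (c (b (a (d (c (b (f (c (d (b e))))))))))))), t true 1 (d (a (b
  (a (c (b (a (d (b (f (c (d (b e))))))))))))), t true 1 (a (b (c (d (c (a (b (a (d (f (c (d (b
  e))))))))))))), t true 1 (a (d (f (b (d (b (c (a (b (a (f (d (b e))))))))))))), t false 2 (a (c (d
  (f (c (b (d (a (b (a (f (d (b e))))))))))))), t false 1 (a (b (c (d (f (c (d (a (b (a (f (d (b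
  e))))))))))))), t true 1 (c (d (f (b (d (a (b (c (b (a (f (d (b e))))))))))))), t true 1 (a (c (b
  (d (f (a (b (a (c (a (f (d (b e))))))))))))), t false 1 (d (f (a (c (b (d (b (a (c (a (f (d (b
  e))))))))))))), t true 1 (a (c (d (f (a (b (d (a (c (a (f (d (b e))))))))))))), t false 1 (a (c (d
  (f (b (d (b (c (a (b (f (d (b e))))))))))))), t false 2 (c (d (a (b (f (c (a (d (a (b (a (f (b
  e))))))))))))), t true 1 (a (b (c (d (c (f (c (d (a (b (a (f (b e))))))))))))), t true 1 (c (d (a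
  (b (f (a (d (a (c (b (a (f (b e))))))))))))), t true 1 (d (b (f (a (c (b (d (b (a (c (a (f (b
  e))))))))))))), t false 1 (a (c (d (a (b (f (a (d (a (c (a (f (b e))))))))))))), t true 1 (c (d (a
  (c (b (f (a (d (a (c (a (f (b e))))))))))))), t false 1 (b (c (d (a (c (f (a (d (a (c (a (f (b
  e))))))))))))), t false 1 (a (c (d (b (f (a (b (d (a (c (a (f (b e))))))))))))), t false 1 (d (a
  (c (b (f (b (a (d (b (c (a (f (b e))))))))))))), t false 1 (a (b (f (d (b (c (b (d (c (a (b (f (b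
  e))))))))))))), t false 1 (a (b (f (d (a (c (b (a (d (c (b (f (b e))))))))))))), t true 1 (d (c (f
  (c (a (b (a (d (c (a (b (a (c e))))))))))))), t true 1 (d (b (c (f (c (a (b (d (c (a (b (a (c
  e))))))))))))), t false 1 (d (c (f (a (b (a (c (d (c (a (b (a (c e))))))))))))), t false 4 (d (c
  (a (b (a (f (c (d (c (a (b (a (c e))))))))))))), t true 1 (a (b (a (d (c (f (c (d (c (a (b (a (c
  e))))))))))))), t false 4 (d (f (c (a (b (a (f (d (c (a (b (a (c e))))))))))))), t false 2 (b (c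
  (f (d (a (b (c (a (d (a (b (a (c e))))))))))))), t false 1 (b (c (f (d (b (c (a (b (d (a (b (a (c
  e))))))))))))), t true 1 (c (f (d (c (a (b (a (c (d (a (b (a (c e)))))))))))))]

def c35_4 : List Tm := [t false 2 (d (f (d (c (a (b (a (f (d (a (b (a (c e))))))))))))), t true 2 (c
  (d (f (d (a (b (a (f (d (a (b (a (c e))))))))))))), t true 1 (d (a (c (a (d (c (b (a (f (a (b (a
  (c e))))))))))))), t true 1 (d (a (c (b (a (d (c (b (f (a (b (a (c e))))))))))))), t false 1 (d (c
  (a (b (a (c (d (c (f (a (b (a (c e))))))))))))), t true 1 (b (d (a (c (f (b (c (b (a (d (b (a (c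
  e))))))))))))), t false 2 (f (c (b (d (a (b (f (c (a (d (b (a (c e))))))))))))), t true 1 (b (d (b
  (c (a (b (a (f (a (d (b (a (c e))))))))))))), t true 1 (a (b (a (c (a (d (a (f (a (d (b (a (c
  e))))))))))))), t false 1 (f (c (b (d (b (f (c (a (b (d (b (a (c e))))))))))))), t false 1 (c (a
  (b (d (b (a (f (a (b (d (b (a (c e))))))))))))), t true 1 (b (d (c (a (b (a (f (a (c (d (b (a (c
  e))))))))))))), t false 2 (f (b (d (c (a (b (a (f (c (d (b (a (c e))))))))))))), t true 3 (b (d (f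
  (b (c (a (b (a (f (d (b (a (c e))))))))))))), t true 2 (d (f (b (d (c (a (b (a (f (d (b (a (c
  e))))))))))))), t false 1 (c (d (f (b (d (a (b (a (f (d (b (a (c e))))))))))))), t false 1 (d (b
  (f (c (a (b (d (c (a (f (b (a (c e))))))))))))), t true 1 (a (b (f (d (a (c (a (d (a (f (b (a (c
  e))))))))))))), t true 1 (d (b (f (c (b (d (c (a (b (f (b (a (c e))))))))))))), t false 1 (a (d (c
  (f (b (a (c (a (b (a (d (a (c e))))))))))))), t true 1 (a (c (f (b (a (c (d (a (b (a (d (a (c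
  e))))))))))))), t true 2 (b (c (a (d (a (f (b (c (b (a (d (a (c e))))))))))))), t false 1 (b (a (d
  (a (c (f (b (c (b (a (d (a (c e))))))))))))), t true 1 (c (b (f (b (a (d (a (f (b (a (d (a (c
  e))))))))))))), t false 2 (b (f (c (a (d (a (f (b (c (a (d (a (c e))))))))))))), t true 3 (f (c (b
  (a (d (a (b (f (c (a (d (a (c e))))))))))))), t false 1 (b (a (d (b (c (a (b (a (f (a (d (a (c
  e))))))))))))), t false 1 (a (b (a (c (a (b (d (a (f (a (d (a (c e))))))))))))), t true 1 (b (c (b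
  (a (d (a (c (b (f (a (d (a (c e))))))))))))), t false 2 (b (c (a (d (a (b (c (b (f (a (d (a (c
  e))))))))))))), t true 1 (d (b (c (b (a (d (c (b (f (a (d (a (c e))))))))))))), t false 1 (f (c (a
  (d (b (a (f (c (a (b (d (a (c e))))))))))))), t true 2 (f (c (b (a (d (b (f (c (a (b (d (a (c
  e))))))))))))), t false 1 (f (b (c (a (d (b (a (f (c (b (d (a (c e))))))))))))), t true 1 (b (f (b
  (c (a (d (b (a (f (b (d (a (c e))))))))))))), t false 1 (b (a (d (c (a (b (a (f (a (c (d (a (c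
  e))))))))))))), t true 3 (f (b (a (d (c (a (b (a (f (c (d (a (c e))))))))))))), t false 2 (a (d (f
  (b (a (c (a (b (a (f (d (a (c e))))))))))))), t false 4 (b (a (d (f (b (c (a (b (a (f (d (a (c
  e))))))))))))), t false 3 (d (f (b (a (d (c (a (b (a (f (d (a (c e))))))))))))), t true 1 (c (d (f
  (b (a (d (a (b (a (f (d (a (c e))))))))))))), t false 1 (b (c (a (d (f (b (c (b (a (f (d (a (c
  e))))))))))))), t false 1 (b (c (d (f (a (d (b (c (b (f (d (a (c e))))))))))))), t true 2 (d (a (f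
  (b (a (d (c (a (b (a (f (a (c e))))))))))))), t false 1 (c (d (a (f (b (a (d (a (b (a (f (a (c
  e))))))))))))), t false 1 (d (b (c (a (f (b (d (c (b (a (f (a (c e))))))))))))), t true 1 (b (d (a
  (f (c (a (d (b (c (a (f (a (c e))))))))))))), t true 1 (d (b (a (f (c (a (b (d (c (a (f (a (c
  e))))))))))))), t false 2 (d (a (f (c (b (a (d (c (a (b (f (a (c e))))))))))))), t false 1 (d (b
  (a (f (c (b (d (c (a (b (f (a (c e))))))))))))), t false 1 (c (a (f (d (a (b (a (d (a (b (f (a (c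
  e))))))))))))), t true 2 (a (f (d (a (c (b (a (d (a (b (f (a (c e))))))))))))), t true 1 (a (f (d
  (b (a (c (b (d (a (b (f (a (c e))))))))))))), t true 2 (f (c (a (d (a (f (c (b (a (d (a (b (c
  e))))))))))))), t false 1 (c (b (a (d (a (b (f (b (a (d (a (b (c e))))))))))))), t true 1 (a (d (b
  (c (f (a (c (a (b (d (a (b (c e))))))))))))), t true 1 (a (d (a (c (a (b (a (f (b (d (a (b (c
  e))))))))))))), t false 1 (a (b (a (c (b (d (b (f (b (d (a (b (c e))))))))))))), t false 1 (c (a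
  (d (c (b (a (f (b (c (d (a (b (c e))))))))))))), t true 1 (b (c (a (d (c (a (f (b (c (d (a (b (c
  e))))))))))))), t false 1 (f (c (a (d (c (b (a (f (c (d (a (b (c e))))))))))))), t true 1 (f (b (c
  (a (d (c (a (f (c (d (a (b (c e))))))))))))), t false 2 (d (f (a (d (c (a (b (a (f (d (a (b (c
  e))))))))))))), t true 1 (c (d (f (a (d (a (b (a (f (d (a (b (c e))))))))))))), t false 1 (d (a (f
  (c (a (d (c (b (a (f (a (b (c e))))))))))))), t false 1 (a (f (d (a (c (b (a (d (b (f (a (b (c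
  e))))))))))))), t true 1 (b (d (c (f (a (b (c (a (b (a (d (b (c e))))))))))))), t false 1 (b (c (f
  (a (b (c (d (a (b (a (d (b (c e))))))))))))), t false 1 (f (c (a (b (d (a (f (c (b (a (d (b (c
  e))))))))))))), t true 1 (b (d (b (c (a (b (a (f (b (a (d (b (c e))))))))))))), t false 1 (a (c (b
  (d (b (f (b (a (c (a (d (b (c e))))))))))))), t false 1 (b (a (c (a (d (a (f (b (c (a (d (b (c
  e))))))))))))), t true 1 (a (c (a (b (d (a (f (b (c (a (d (b (c e))))))))))))), t true 1 (a (c (b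
  (d (a (b (f (b (c (a (d (b (c e))))))))))))), t false 1 (f (b (a (c (a (d (a (f (c (a (d (b (c
  e))))))))))))), t true 1 (f (a (c (a (b (d (a (f (c (a (d (b (c e))))))))))))), t false 1 (f (a (c
  (b (d (a (b (f (c (a (d (b (c e))))))))))))), t true 2 (a (f (a (c (b (d (a (b (f (a (d (b (c
  e))))))))))))), t true 3 (a (c (b (d (b (f (a (c (a (b (d (b (c e))))))))))))), t false 1 (a (b (d
  (b (c (f (a (c (a (b (d (b (c e))))))))))))), t true 1 (c (a (f (b (d (b (a (f (a (b (d (b (c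
  e))))))))))))), t false 2 (a (f (c (b (d (b (f (a (c (b (d (b (c e))))))))))))), t true 1 (f (c (a
  (b (d (b (a (f (c (b (d (b (c e))))))))))))), t true 1 (a (b (d (a (c (a (b (a (f (b (d (b (c
  e))))))))))))), t false 1 (b (d (a (b (c (a (b (a (f (b (d (b (c e))))))))))))), t false 2 (a (c
  (b (d (b (a (c (a (f (b (d (b (c e))))))))))))), t true 1 (a (b (a (c (b (a (d (b (f (b (d (b (c
  e))))))))))))), t true 1 (b (d (c (a (b (a (f (b (a (c (d (b (c e))))))))))))), t true 2 (a (b (d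
  (c (a (b (a (f (b (c (d (b (c e))))))))))))), t true 1 (a (b (d (f (a (c (a (b (a (f (d (b (c
  e))))))))))))), t false 2 (a (c (b (d (f (b (a (c (a (f (d (b (c e))))))))))))), t false 1 (a (c
  (d (f (b (d (a (c (a (f (d (b (c e))))))))))))), t true 2 (d (a (b (f (a (d (c (a (b (a (f (b (c
  e))))))))))))), t false 1 (c (d (a (b (f (a (d (a (b (a (f (b (c e))))))))))))), t false 1 (d (b
  (f (c (a (b (d (c (b (a (f (b (c e))))))))))))), t false 1 (a (b (f (d (a (c (a (d (b (a (f (b (c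
  e))))))))))))), t true 1 (a (c (d (b (f (b (d (a (c (a (f (b (c e))))))))))))), t true 1 (b (f (d
  (a (c (a (d (b (c (a (f (b (c e))))))))))))), t false 2 (d (a (c (b (f (b (a (d (c (a (f (b (c
  e))))))))))))), t false 1 (d (b (f (b (a (c (a (d (c (a (f (b (c e)))))))))))))]

def c35_5 : List Tm := [t true 1 (d (a (b (f (b (c (a (d (c (a (f (b (c e))))))))))))), t true 1 (d
  (b (f (a (c (a (b (d (c (a (f (b (c e))))))))))))), t true 1 (a (d (b (f (b (a (c (a (d (a (f (b
  (c e))))))))))))), t false 1 (a (d (b (f (a (c (a (b (d (a (f (b (c e))))))))))))), t true 1 (a (d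
  (b (f (c (b (d (a (c (b (f (b (c e))))))))))))), t true 1 (a (b (f (d (a (c (b (a (d (b (f (b (c
  e))))))))))))), t true 2 (f (d (c (a (b (a (f (c (a (b (a (d (c e))))))))))))), t false 1 (c (d (a
  (b (a (d (f (d (a (b (a (d (c e))))))))))))), t true 2 (f (d (b (c (a (b (a (f (c (b (a (d (c
  e))))))))))))), t true 1 (a (c (a (b (a (f (d (a (b (c (a (d (c e))))))))))))), t false 2 (f (d (b
  (a (c (a (b (a (f (c (a (d (c e))))))))))))), t true 1 (a (f (d (b (a (c (a (b (a (f (a (d (c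
  e))))))))))))), t true 2 (a (c (a (b (a (f (d (b (c (a (b (d (c e))))))))))))), t true 1 (f (d (a
  (c (a (b (a (f (c (a (b (d (c e))))))))))))), t true 1 (b (c (a (b (a (f (d (b (a (c (b (d (c
  e))))))))))))), t true 1 (a (b (c (a (b (a (f (d (b (c (b (d (c e))))))))))))), t false 5 (c (a (b
  (a (f (d (c (a (b (a (c (d (c e))))))))))))), t true 1 (a (b (a (c (f (d (c (a (b (a (c (d (c
  e))))))))))))), t false 2 (f (d (c (a (b (a (f (a (b (a (c (d (c e))))))))))))), t true 2 (a (d (f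
  (d (b (a (c (a (b (a (f (d (c e))))))))))))), t true 1 (c (a (b (a (d (f (d (a (b (a (f (d (c
  e))))))))))))), t false 1 (a (b (a (c (d (f (d (a (b (a (f (d (c e))))))))))))), t false 2 (a (c
  (d (f (d (b (a (c (a (b (f (d (c e))))))))))))), t true 1 (a (b (c (d (f (d (b (a (c (b (f (d (c
  e))))))))))))), t true 1 (d (c (a (b (a (c (d (c (a (b (a (f (c e))))))))))))), t true 1 (d (b (c
  (b (d (a (b (a (c (b (a (f (c e))))))))))))), t false 1 (a (d (b (c (b (d (b (a (c (b (a (f (c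
  e))))))))))))), t true 1 (d (a (c (b (a (d (a (b (a (c (a (f (c e))))))))))))), t false 1 (b (d (a
  (c (b (a (d (b (a (c (a (f (c e))))))))))))), t true 2 (a (c (d (a (b (a (d (a (b (c (a (f (c
  e))))))))))))), t true 1 (b (d (a (c (b (a (d (a (c (a (b (f (c e))))))))))))), t false 1 (b (d (a
  (c (a (d (a (b (c (a (b (f (c e))))))))))))), t false 3 (b (c (d (a (b (a (d (b (a (c (b (f (c
  e))))))))))))), t false 1 (d (c (a (b (a (c (d (a (b (a (c (f (c e))))))))))))), t false 1 (c (a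
  (d (b (a (c (a (b (d (a (c (f (c e))))))))))))), t true 1 (c (a (b (d (a (c (b (a (d (b (c (f (c
  e))))))))))))), t true 1 (d (c (a (b (a (c (a (b (a (d (c (f (c e))))))))))))), t false 1 (c (d (c
  (a (b (a (c (a (b (a (d (f (c e))))))))))))), t true 1 (f (d (c (a (b (a (f (d (c (a (b (a (d
  e))))))))))))), t true 1 (a (c (a (d (c (b (a (f (c (a (b (a (d e))))))))))))), t false 1 (a (b (c
  (a (d (c (a (f (c (a (b (a (d e))))))))))))), t false 3 (b (c (a (b (d (c (a (f (c (a (b (a (d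
  e))))))))))))), t false 1 (b (c (b (d (c (a (b (f (c (a (b (a (d e))))))))))))), t true 1 (a (c (b
  (a (d (c (b (f (c (a (b (a (d e))))))))))))), t true 1 (b (a (c (b (d (c (b (f (c (a (b (a (d
  e))))))))))))), t true 1 (c (a (b (a (c (d (c (f (c (a (b (a (d e))))))))))))), t true 1 (c (d (c
  (a (b (a (d (f (c (a (b (a (d e))))))))))))), t true 1 (c (d (a (b (a (d (f (c (d (a (b (a (d
  e))))))))))))), t false 1 (f (b (c (a (b (a (f (d (a (c (b (a (d e))))))))))))), t true 1 (d (f (b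
  (c (a (b (a (f (a (c (b (a (d e))))))))))))), t false 1 (a (c (b (a (d (a (c (b (f (c (b (a (d
  e))))))))))))), t false 1 (b (a (c (b (d (a (c (b (f (c (b (a (d e))))))))))))), t true 1 (a (c (a
  (d (a (b (c (b (f (c (b (a (d e))))))))))))), t true 1 (b (f (a (c (b (d (a (c (b (f (b (a (d
  e))))))))))))), t true 1 (a (c (a (d (b (a (f (a (b (a (c (a (d e))))))))))))), t true 1 (a (c (b
  (a (d (b (f (a (b (a (c (a (d e))))))))))))), t false 1 (a (c (a (b (a (f (a (b (d (a (c (a (d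
  e))))))))))))), t true 1 (f (b (a (c (a (b (a (f (d (a (c (a (d e))))))))))))), t false 1 (d (f (b
  (a (c (a (b (a (f (a (c (a (d e))))))))))))), t true 1 (f (a (c (a (b (a (f (d (a (b (c (a (d
  e))))))))))))), t false 1 (d (b (f (a (c (a (b (a (f (b (c (a (d e))))))))))))), t false 2 (a (c
  (b (f (b (a (d (a (f (b (c (a (d e))))))))))))), t false 1 (b (f (b (a (c (a (d (a (f (b (c (a (d
  e))))))))))))), t true 2 (a (b (f (b (c (a (d (a (f (b (c (a (d e))))))))))))), t true 1 (b (f (a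
  (c (a (b (d (a (f (b (c (a (d e))))))))))))), t false 1 (b (c (a (b (d (b (c (b (a (f (c (a (d
  e))))))))))))), t false 1 (a (b (c (a (d (a (b (c (b (f (c (a (d e))))))))))))), t false 3 (b (c
  (a (b (d (a (b (c (b (f (c (a (d e))))))))))))), t true 1 (a (f (a (d (b (a (c (a (b (a (f (a (d
  e))))))))))))), t false 2 (b (c (a (f (b (d (b (c (b (a (f (a (d e))))))))))))), t false 2 (b (c
  (a (f (c (a (b (d (a (b (f (a (d e))))))))))))), t true 1 (b (c (a (f (a (b (d (a (c (b (f (a (d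
  e))))))))))))), t false 1 (b (a (f (a (c (b (d (a (c (b (f (a (d e))))))))))))), t true 2 (f (a (c
  (a (b (a (f (d (b (c (a (b (d e))))))))))))), t false 1 (d (f (a (c (a (b (a (f (b (c (a (b (d
  e))))))))))))), t false 1 (b (c (a (b (d (b (c (a (f (c (a (b (d e))))))))))))), t false 1 (c (a
  (f (a (c (d (b (a (c (f (a (b (d e))))))))))))), t true 1 (a (b (c (a (d (a (f (a (b (a (c (b (d
  e))))))))))))), t true 1 (f (b (c (a (b (a (f (d (b (a (c (b (d e))))))))))))), t true 1 (d (a (f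
  (b (c (a (b (a (f (a (c (b (d e))))))))))))), t false 1 (b (c (a (f (b (d (b (a (f (a (c (b (d
  e))))))))))))), t true 1 (a (f (c (a (d (b (c (a (f (a (c (b (d e))))))))))))), t false 2 (a (c (b
  (a (d (b (a (c (a (f (c (b (d e))))))))))))), t true 1 (a (c (b (a (d (a (c (a (b (f (c (b (d
  e))))))))))))), t true 1 (b (a (c (b (d (a (c (a (b (f (c (b (d e))))))))))))), t false 1 (a (c (a
  (d (a (b (c (a (b (f (c (b (d e))))))))))))), t false 1 (a (b (f (a (d (a (c (a (b (a (f (b (d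
  e))))))))))))), t true 1 (b (f (a (c (b (d (b (a (c (a (f (b (d e))))))))))))), t false 1 (a (c (b
  (f (b (a (d (b (c (a (f (b (d e))))))))))))), t false 3 (f (c (a (b (a (f (d (c (a (b (a (c (d
  e))))))))))))), t true 2 (d (f (c (a (b (a (f (c (a (b (a (c (d e))))))))))))), t true 1 (a (c (a
  (d (c (b (a (f (a (b (a (c (d e))))))))))))), t true 1 (a (c (b (a (d (c (b (f (a (b (a (c (d
  e))))))))))))), t false 1 (c (a (b (a (c (d (c (f (a (b (a (c (d e))))))))))))), t true 1 (a (b (f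
  (c (a (d (c (a (f (b (a (c (d e))))))))))))), t false 1 (b (f (c (a (b (d (c (a (f (b (a (c (d
  e))))))))))))), t true 1 (b (f (c (b (d (c (a (b (f (b (a (c (d e))))))))))))), t false 1 (d (a (f
  (b (a (c (a (b (a (f (a (c (d e))))))))))))), t false 1 (b (c (a (f (b (d (c (b (a (f (a (c (d
  e))))))))))))), t true 1 (b (a (f (c (a (b (d (c (a (f (a (c (d e)))))))))))))]

def c35_6 : List Tm := [t false 1 (b (a (f (c (b (d (c (a (b (f (a (c (d e))))))))))))), t false 1
  (a (f (c (a (d (c (b (a (f (a (b (c (d e))))))))))))), t false 1 (a (f (c (b (a (d (c (b (f (a (b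
  (c (d e))))))))))))), t false 1 (d (a (b (f (a (c (a (b (a (f (b (c (d e))))))))))))), t false 1
  (a (b (f (a (d (c (a (b (a (f (b (c (d e))))))))))))), t false 2 (a (b (f (c (a (d (c (b (a (f (b
  (c (d e))))))))))))), t false 1 (b (f (c (a (b (d (c (b (a (f (b (c (d e))))))))))))), t false 2
  (a (c (b (f (b (a (d (c (a (f (b (c (d e))))))))))))), t false 1 (b (f (b (a (c (a (d (c (a (f (b
  (c (d e))))))))))))), t true 2 (a (b (f (b (c (a (d (c (a (f (b (c (d e))))))))))))), t true 1 (b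
  (f (a (c (a (b (d (c (a (f (b (c (d e))))))))))))), t true 1 (a (b (f (c (b (a (d (c (b (f (b (c
  (d e))))))))))))), t true 1 (c (a (b (a (c (d (c (a (b (a (f (c (d e))))))))))))), t false 1 (a (c
  (b (a (d (a (b (a (c (a (f (c (d e))))))))))))), t true 1 (b (a (c (b (d (a (b (a (c (a (f (c (d
  e))))))))))))), t true 3 (b (c (a (b (d (a (b (a (c (b (f (c (d e))))))))))))), t false 1 (c (a (b
  (a (c (d (a (b (a (c (f (c (d e))))))))))))), t true 1 (c (a (b (a (c (a (b (a (d (c (f (c (d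
  e))))))))))))), t true 1 (c (d (a (b (a (c (a (b (a (d (f (c (d e))))))))))))), t false 2 (a (d (f
  (a (d (b (a (c (a (b (a (f (d e))))))))))))), t false 1 (a (d (f (b (a (d (b (c (a (b (a (f (d
  e))))))))))))), t true 1 (d (c (a (b (a (c (f (c (a (b (a (f (d e))))))))))))), t true 2 (a (c (d
  (f (c (b (a (d (a (b (a (f (d e))))))))))))), t false 1 (c (a (b (a (d (f (c (d (a (b (a (f (d
  e))))))))))))), t true 1 (a (b (a (c (d (f (c (d (a (b (a (f (d e))))))))))))), t false 1 (b (c (d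
  (f (a (b (d (a (c (b (a (f (d e))))))))))))), t false 1 (a (c (b (a (d (f (a (b (a (c (a (f (d
  e))))))))))))), t false 1 (b (d (f (a (c (b (d (b (a (c (a (f (d e))))))))))))), t true 1 (b (a (c
  (d (f (a (b (d (a (c (a (f (d e))))))))))))), t true 1 (a (c (a (d (f (a (b (a (c (a (b (f (d
  e))))))))))))), t true 2 (a (c (d (f (a (d (b (a (c (a (b (f (d e))))))))))))), t true 1 (a (c (d
  (f (b (a (d (b (c (a (b (f (d e))))))))))))), t false 1 (a (b (c (d (f (a (d (b (a (c (b (f (d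
  e))))))))))))), t true 2 (a (d (a (f (a (d (b (a (c (a (b (a (f e))))))))))))), t true 1 (a (d (a
  (f (b (a (d (b (c (a (b (a (f e))))))))))))), t true 1 (f (d (c (a (b (a (c (d (c (a (b (a (f
  e))))))))))))), t false 2 (a (c (d (a (f (c (b (a (d (a (b (a (f e))))))))))))), t false 2 (b (c
  (d (a (b (f (c (a (d (a (b (a (f e))))))))))))), t true 1 (c (a (b (a (d (c (f (c (d (a (b (a (f
  e))))))))))))), t false 1 (a (b (a (c (d (c (f (c (d (a (b (a (f e))))))))))))), t true 1 (f (d (b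
  (c (b (d (a (b (a (c (b (a (f e))))))))))))), t false 1 (f (a (d (b (c (b (d (b (a (c (b (a (f
  e))))))))))))), t false 1 (f (b (c (d (a (b (a (d (a (c (b (a (f e))))))))))))), t true 2 (b (c (d
  (a (b (f (a (d (a (c (b (a (f e))))))))))))), t true 1 (b (c (d (b (f (a (b (d (a (c (b (a (f
  e))))))))))))), t false 1 (c (d (b (c (f (b (d (a (b (c (b (a (f e))))))))))))), t true 1 (f (a (d
  (b (c (a (b (d (b (c (b (a (f e))))))))))))), t false 1 (a (d (b (c (a (f (b (d (b (c (b (a (f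
  e))))))))))))), t false 1 (f (d (b (a (c (b (d (a (b (a (c (a (f e))))))))))))), t false 1 (d (a
  (c (b (a (d (f (a (b (a (c (a (f e))))))))))))), t false 1 (f (b (d (a (c (b (a (d (b (a (c (a (f
  e))))))))))))), t true 1 (c (b (d (a (c (f (a (d (b (a (c (a (f e))))))))))))), t true 1 (b (d (b
  (f (a (c (b (d (b (a (c (a (f e))))))))))))), t true 1 (f (b (a (c (d (a (b (a (d (a (c (a (f
  e))))))))))))), t false 1 (b (a (c (d (a (b (f (a (d (a (c (a (f e))))))))))))), t true 1 (b (c (d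
  (a (c (b (f (a (d (a (c (a (f e))))))))))))), t false 1 (b (a (c (d (b (f (a (b (d (a (c (a (f
  e))))))))))))), t true 1 (f (a (c (d (a (b (a (d (a (b (c (a (f e))))))))))))), t false 1 (c (d (a
  (c (f (b (a (d (a (b (c (a (f e))))))))))))), t false 1 (b (d (a (c (b (f (b (a (d (b (c (a (f
  e))))))))))))), t true 1 (c (a (d (b (a (c (f (c (a (b (d (a (f e))))))))))))), t false 1 (f (d (a
  (c (a (d (a (b (a (c (a (b (f e))))))))))))), t true 1 (d (a (c (a (d (f (a (b (a (c (a (b (f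
  e))))))))))))), t false 2 (a (c (d (a (f (a (d (b (a (c (a (b (f e))))))))))))), t true 1 (f (b (d
  (a (c (b (a (d (a (c (a (b (f e))))))))))))), t false 1 (f (b (d (a (c (a (d (a (b (c (a (b (f
  e))))))))))))), t true 1 (f (a (c (d (a (b (a (d (b (c (a (b (f e))))))))))))), t false 1 (a (c (d
  (a (f (b (a (d (b (c (a (b (f e))))))))))))), t true 1 (a (b (a (f (d (b (c (b (d (c (a (b (f
  e))))))))))))), t false 1 (a (d (b (c (a (f (c (a (b (d (a (b (f e))))))))))))), t false 3 (f (b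
  (c (d (a (b (a (d (b (a (c (b (f e))))))))))))), t true 1 (a (b (c (d (a (f (a (d (b (a (c (b (f
  e))))))))))))), t false 1 (f (a (d (b (c (a (b (d (a (b (c (b (f e))))))))))))), t false 2 (f (a
  (b (c (d (a (b (a (d (b (c (b (f e))))))))))))), t true 1 (a (c (d (b (c (a (f (b (d (b (c (b (f
  e))))))))))))), t true 1 (a (b (a (f (d (a (c (b (a (d (c (b (f e))))))))))))), t false 1 (c (a (b
  (d (a (c (f (c (b (a (d (b (f e))))))))))))), t false 1 (f (d (c (a (b (a (c (d (a (b (a (c (f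
  e))))))))))))), t false 1 (a (b (d (c (a (f (a (c (d (b (a (c (f e))))))))))))), t false 1 (f (c
  (a (d (b (a (c (a (b (d (a (c (f e))))))))))))), t false 1 (a (d (b (c (a (f (a (c (b (d (a (c (f
  e))))))))))))), t true 1 (f (c (a (b (d (a (c (b (a (d (b (c (f e))))))))))))), t true 1 (f (d (c
  (a (b (a (c (a (b (a (d (c (f e))))))))))))), t false 1 (f (c (a (b (a (c (d (a (b (a (d (c (f
  e))))))))))))), t true 1 (c (a (b (a (c (f (d (a (b (a (d (c (f e))))))))))))), t false 1 (a (b (c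
  (a (f (d (a (c (b (a (d (c (f e))))))))))))), t false 1 (f (c (d (c (a (b (a (c (a (b (a (d (f
  e)))))))))))))]

def c35 : List (List Tm) := [c35_0, c35_1, c35_2, c35_3, c35_4, c35_5, c35_6]

def c45_0 : List Tm := [t true 1 (c (b (d (f (a (b (a (d (a (c (a (b (a e))))))))))))), t false 1 (c
  (b (d (a (b (a (f (d (a (c (a (b (a e))))))))))))), t false 1 (d (f (c (d (c (a (b (a (d (c (a (b
  (a e))))))))))))), t true 1 (a (c (d (f (a (c (b (a (d (c (a (b (a e))))))))))))), t false 1 (a (b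
  (c (d (f (a (c (a (d (c (a (b (a e))))))))))))), t false 1 (b (c (d (f (a (b (c (a (d (c (a (b (a
  e))))))))))))), t false 1 (b (c (d (f (b (c (a (b (d (c (a (b (a e))))))))))))), t true 1 (a (c (d
  (f (b (a (c (b (d (c (a (b (a e))))))))))))), t true 1 (b (a (c (d (f (b (c (b (d (c (a (b (a
  e))))))))))))), t true 1 (c (d (f (c (a (b (a (c (d (c (a (b (a e))))))))))))), t false 3 (f (c (d
  (a (b (a (f (c (d (c (a (b (a e))))))))))))), t true 1 (d (c (f (d (c (a (b (a (f (c (a (b (a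
  e))))))))))))), t false 1 (c (d (f (c (d (c (a (b (a (d (a (b (a e))))))))))))), t true 2 (d (a (c
  (a (f (a (c (b (a (d (a (b (a e))))))))))))), t false 2 (d (a (b (c (a (f (a (c (a (d (a (b (a
  e))))))))))))), t false 1 (d (b (c (a (b (f (a (c (a (d (a (b (a e))))))))))))), t false 2 (d (b
  (c (b (f (a (b (c (a (d (a (b (a e))))))))))))), t true 1 (b (c (b (d (f (a (b (c (a (d (a (b (a
  e))))))))))))), t false 1 (d (b (c (b (f (b (c (a (b (d (a (b (a e))))))))))))), t true 1 (d (a (c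
  (b (a (f (b (c (b (d (a (b (a e))))))))))))), t true 1 (d (b (a (c (b (f (b (c (b (d (a (b (a
  e))))))))))))), t false 1 (d (c (f (c (a (b (a (f (c (d (a (b (a e))))))))))))), t false 1 (a (c
  (a (d (a (c (b (a (f (d (a (b (a e))))))))))))), t true 1 (a (b (c (a (d (a (c (a (f (d (a (b (a
  e))))))))))))), t true 1 (b (c (a (b (d (a (c (a (f (d (a (b (a e))))))))))))), t true 1 (b (c (b
  (d (a (b (c (a (f (d (a (b (a e))))))))))))), t true 1 (b (c (b (d (b (c (a (b (f (d (a (b (a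
  e))))))))))))), t false 1 (a (c (a (d (b (a (c (b (f (d (a (b (a e))))))))))))), t false 1 (a (c
  (b (a (d (b (c (b (f (d (a (b (a e))))))))))))), t false 1 (b (a (c (b (d (b (c (b (f (d (a (b (a
  e))))))))))))), t true 1 (c (d (c (a (b (a (d (c (f (d (a (b (a e))))))))))))), t false 1 (f (a (c
  (a (d (a (c (b (a (f (a (b (a e))))))))))))), t true 1 (f (b (c (b (d (b (c (a (b (f (a (b (a
  e))))))))))))), t true 1 (f (a (c (a (d (b (a (c (b (f (a (b (a e))))))))))))), t true 1 (f (c (d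
  (c (a (b (a (d (c (f (a (b (a e))))))))))))), t true 1 (d (b (c (b (f (a (b (a (d (a (c (b (a
  e))))))))))))), t false 1 (b (c (b (d (f (a (b (a (d (a (c (b (a e))))))))))))), t false 1 (d (a
  (c (a (f (b (c (b (d (a (c (b (a e))))))))))))), t true 1 (f (b (c (b (d (a (b (a (f (a (c (b (a
  e))))))))))))), t true 1 (d (f (a (b (c (b (a (d (a (b (c (b (a e))))))))))))), t false 1 (b (c (a
  (d (f (a (b (a (d (b (c (b (a e))))))))))))), t true 1 (b (a (d (f (a (c (b (a (d (b (c (b (a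
  e))))))))))))), t false 1 (a (d (f (a (b (c (b (a (d (b (c (b (a e))))))))))))), t true 1 (c (b (a
  (d (f (a (c (a (d (b (c (b (a e))))))))))))), t false 1 (c (a (d (f (a (b (c (a (d (b (c (b (a
  e))))))))))))), t true 3 (f (a (d (b (c (b (f (a (d (b (c (b (a e))))))))))))), t true 2 (d (b (c
  (b (a (d (a (f (d (b (c (b (a e))))))))))))), t true 1 (b (d (f (c (d (c (a (b (a (d (c (b (a
  e))))))))))))), t true 1 (c (d (b (c (b (f (a (b (a (d (c (b (a e))))))))))))), t false 1 (b (a (c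
  (d (f (a (c (b (a (d (c (b (a e))))))))))))), t false 2 (c (d (a (b (a (f (a (c (a (d (c (b (a
  e))))))))))))), t true 1 (c (a (b (a (d (f (a (c (a (d (c (b (a e))))))))))))), t false 1 (a (b (a
  (c (d (f (a (c (a (d (c (b (a e))))))))))))), t false 1 (f (a (c (d (b (c (b (f (a (d (c (b (a
  e))))))))))))), t false 1 (f (c (d (b (c (b (f (a (b (d (c (b (a e))))))))))))), t false 1 (b (a
  (c (d (f (b (a (c (b (d (c (b (a e))))))))))))), t true 1 (c (d (a (c (a (f (b (c (b (d (c (b (a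
  e))))))))))))), t true 1 (a (f (c (d (b (c (b (f (b (d (c (b (a e))))))))))))), t false 1 (b (c (d
  (f (c (a (b (a (c (d (c (b (a e))))))))))))), t true 3 (f (c (d (a (b (a (f (a (c (d (c (b (a
  e))))))))))))), t true 3 (d (b (c (a (b (a (d (a (f (d (c (b (a e))))))))))))), t false 1 (d (c (f
  (d (b (c (a (b (a (f (c (b (a e))))))))))))), t false 1 (b (d (c (f (d (c (a (b (a (f (c (b (a
  e))))))))))))), t true 1 (d (b (c (f (a (b (a (d (a (f (c (b (a e))))))))))))), t true 1 (b (c (d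
  (f (c (d (c (a (b (a (d (b (a e))))))))))))), t false 1 (c (b (d (b (c (b (f (a (b (a (d (b (a
  e))))))))))))), t false 2 (b (d (a (c (a (f (a (c (b (a (d (b (a e))))))))))))), t false 1 (c (a
  (d (f (b (d (b (a (c (a (d (b (a e))))))))))))), t false 1 (c (b (d (a (b (a (f (a (c (a (d (b (a
  e))))))))))))), t true 2 (b (d (a (b (c (a (f (a (c (a (d (b (a e))))))))))))), t true 1 (b (d (b
  (c (a (b (f (a (c (a (d (b (a e))))))))))))), t false 1 (c (f (b (d (a (b (a (f (c (a (d (b (a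
  e))))))))))))), t true 1 (f (a (c (b (d (b (c (b (f (a (d (b (a e))))))))))))), t true 1 (c (a (b
  (d (f (b (a (c (a (b (d (b (a e))))))))))))), t true 1 (b (d (b (c (b (f (b (c (a (b (d (b (a
  e))))))))))))), t true 1 (f (c (b (d (b (c (b (f (a (b (d (b (a e))))))))))))), t true 1 (b (a (c
  (a (d (f (b (a (c (b (d (b (a e))))))))))))), t false 1 (a (c (a (b (d (f (b (a (c (b (d (b (a
  e))))))))))))), t false 1 (b (d (a (c (b (a (f (b (c (b (d (b (a e))))))))))))), t false 1 (c (b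
  (d (a (c (a (f (b (c (b (d (b (a e))))))))))))), t false 1 (b (d (b (a (c (b (f (b (c (b (d (b (a
  e))))))))))))), t false 1 (a (f (c (b (d (b (c (b (f (b (d (b (a e))))))))))))), t false 1 (f (c
  (b (d (a (b (a (f (a (c (d (b (a e))))))))))))), t false 1 (f (b (d (b (c (a (b (f (a (c (d (b (a
  e))))))))))))), t true 1 (b (d (c (f (c (a (b (a (f (c (d (b (a e))))))))))))), t true 2 (c (f (c
  (b (d (a (b (a (f (c (d (b (a e))))))))))))), t true 1 (c (f (b (d (b (c (a (b (f (c (d (b (a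
  e))))))))))))), t false 1 (a (c (f (b (d (b (c (b (f (c (d (b (a e))))))))))))), t true 1 (b (a (c
  (a (d (a (c (b (a (f (d (b (a e))))))))))))), t true 1 (a (b (a (c (a (d (a (c (a (f (d (b (a
  e))))))))))))), t false 2 (d (c (a (b (a (c (a (d (a (f (d (b (a e))))))))))))), t false 1 (c (a
  (b (d (b (a (c (a (b (f (d (b (a e))))))))))))), t true 1 (a (c (a (b (d (b (a (c (b (f (d (b (a
  e))))))))))))), t false 1 (d (b (a (c (a (d (a (c (b (f (d (b (a e))))))))))))), t true 1 (b (a (c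
  (b (a (d (b (c (b (f (d (b (a e))))))))))))), t false 1 (d (a (b (a (c (a (d (a (c (f (d (b (a
  e))))))))))))), t false 1 (b (c (d (c (a (b (a (d (c (f (d (b (a e))))))))))))), t true 1 (b (f (a
  (c (a (d (a (c (b (a (f (b (a e))))))))))))), t true 2 (c (a (d (b (f (d (b (a (c (a (f (b (a
  e))))))))))))), t true 1 (a (b (f (a (c (a (d (a (c (a (f (b (a e)))))))))))))]

def c45_1 : List Tm := [t false 1 (b (f (b (c (a (b (d (a (c (a (f (b (a e))))))))))))), t false 1
  (b (f (b (c (b (d (a (b (c (a (f (b (a e))))))))))))), t false 1 (b (f (b (c (b (d (b (c (a (b (f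
  (b (a e))))))))))))), t false 1 (b (f (a (c (a (d (b (a (c (b (f (b (a e))))))))))))), t true 1 (a
  (b (f (b (c (b (d (b (c (b (f (b (a e))))))))))))), t false 1 (b (f (c (d (c (a (b (a (d (c (f (b
  (a e))))))))))))), t true 1 (b (c (d (f (a (c (a (d (a (b (a (c (a e))))))))))))), t false 1 (a (c
  (b (d (f (a (b (a (d (b (a (c (a e))))))))))))), t false 1 (d (f (b (d (b (a (c (a (d (b (a (c (a
  e))))))))))))), t true 1 (b (d (f (b (a (c (a (b (d (b (a (c (a e))))))))))))), t false 1 (a (b (d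
  (f (b (c (a (b (d (b (a (c (a e))))))))))))), t true 1 (c (b (d (f (b (a (c (b (d (b (a (c (a
  e))))))))))))), t false 1 (c (a (b (d (f (b (c (b (d (b (a (c (a e))))))))))))), t true 1 (a (c (b
  (d (a (b (a (f (d (b (a (c (a e))))))))))))), t false 1 (b (d (b (a (c (a (b (f (d (b (a (c (a
  e))))))))))))), t true 1 (a (b (d (b (c (a (b (f (d (b (a (c (a e))))))))))))), t false 1 (c (b (d
  (b (a (c (b (f (d (b (a (c (a e))))))))))))), t true 1 (c (a (b (d (b (c (b (f (d (b (a (c (a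
  e))))))))))))), t false 1 (d (b (a (c (a (d (b (f (d (b (a (c (a e))))))))))))), t true 2 (d (b (f
  (d (b (a (c (a (f (b (a (c (a e))))))))))))), t true 1 (d (b (a (c (b (f (a (b (a (d (a (c (a
  e))))))))))))), t true 2 (d (b (c (b (f (a (c (b (a (d (a (c (a e))))))))))))), t false 1 (b (c (b
  (d (f (a (c (b (a (d (a (c (a e))))))))))))), t false 1 (b (d (f (b (d (b (a (c (a (d (a (c (a
  e))))))))))))), t false 2 (d (a (b (a (f (b (c (a (b (d (a (c (a e))))))))))))), t false 2 (d (a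
  (b (c (a (f (b (c (b (d (a (c (a e))))))))))))), t false 2 (d (b (f (b (a (c (a (f (b (d (a (c (a
  e))))))))))))), t true 1 (b (f (b (d (a (c (a (f (b (d (a (c (a e))))))))))))), t false 1 (b (a (c
  (b (d (a (b (a (f (d (a (c (a e))))))))))))), t true 1 (a (b (a (d (b (c (a (b (f (d (a (c (a
  e))))))))))))), t true 1 (b (c (b (d (b (a (c (b (f (d (a (c (a e))))))))))))), t false 1 (b (c (a
  (b (d (b (c (b (f (d (a (c (a e))))))))))))), t true 1 (b (d (b (a (c (a (d (b (f (d (a (c (a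
  e))))))))))))), t false 2 (f (a (c (b (a (d (a (b (a (f (a (c (a e))))))))))))), t false 1 (f (b
  (a (c (b (d (a (b (a (f (a (c (a e))))))))))))), t true 1 (b (d (b (f (d (b (a (c (a (f (a (c (a
  e))))))))))))), t false 1 (f (a (b (a (d (b (c (a (b (f (a (c (a e))))))))))))), t true 1 (d (a (c
  (a (f (a (b (a (d (a (b (c (a e))))))))))))), t false 2 (d (b (c (b (f (a (c (a (d (a (b (c (a
  e))))))))))))), t true 1 (b (c (b (d (f (a (c (a (d (a (b (c (a e))))))))))))), t true 1 (b (d (a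
  (c (a (f (a (b (a (d (b (c (a e))))))))))))), t true 1 (b (a (c (a (d (f (a (b (a (d (b (c (a
  e))))))))))))), t false 1 (a (c (a (b (d (f (a (b (a (d (b (c (a e))))))))))))), t true 1 (c (d (f
  (b (d (b (a (c (a (d (b (c (a e))))))))))))), t false 1 (b (d (b (c (b (f (a (c (a (d (b (c (a
  e))))))))))))), t true 1 (f (a (b (d (b (c (b (f (a (d (b (c (a e))))))))))))), t false 1 (c (b (d
  (f (b (a (c (a (b (d (b (c (a e))))))))))))), t true 1 (c (a (b (d (f (b (c (a (b (d (b (c (a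
  e))))))))))))), t true 1 (b (d (a (b (a (f (b (c (b (d (b (c (a e))))))))))))), t true 1 (f (b (d
  (b (c (b (f (a (c (d (b (c (a e))))))))))))), t false 1 (a (f (b (d (b (c (b (f (c (d (b (c (a
  e))))))))))))), t false 1 (b (a (c (a (d (a (b (a (f (d (b (c (a e))))))))))))), t true 1 (a (c (a
  (b (d (a (b (a (f (d (b (c (a e))))))))))))), t false 3 (d (b (a (c (b (a (d (a (f (d (b (c (a
  e))))))))))))), t true 1 (c (b (d (b (a (c (a (b (f (d (b (c (a e))))))))))))), t false 1 (c (a (b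
  (d (b (c (a (b (f (d (b (c (a e))))))))))))), t true 1 (d (b (a (c (a (d (a (b (f (d (b (c (a
  e))))))))))))), t false 2 (b (f (a (c (a (d (a (b (a (f (b (c (a e))))))))))))), t false 2 (c (d
  (b (f (d (b (a (c (a (f (b (c (a e))))))))))))), t false 1 (b (a (d (f (c (d (c (a (b (a (d (c (a
  e))))))))))))), t false 1 (a (c (d (a (b (a (f (a (b (a (d (c (a e))))))))))))), t false 1 (c (d
  (a (c (b (a (f (a (b (a (d (c (a e))))))))))))), t false 1 (c (d (b (a (c (b (f (a (b (a (d (c (a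
  e))))))))))))), t false 1 (b (f (c (d (a (c (a (f (b (a (d (c (a e))))))))))))), t true 1 (c (b (d
  (f (b (d (b (a (c (a (d (c (a e))))))))))))), t true 1 (b (c (d (b (c (b (f (a (c (a (d (c (a
  e))))))))))))), t true 3 (c (d (a (b (a (f (a (b (c (a (d (c (a e))))))))))))), t false 1 (c (a (b
  (a (d (f (a (b (c (a (d (c (a e))))))))))))), t true 1 (a (b (a (c (d (f (a (b (c (a (d (c (a
  e))))))))))))), t false 1 (f (b (c (d (a (c (b (a (f (a (d (c (a e))))))))))))), t true 1 (f (c (d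
  (b (a (c (a (b (f (a (d (c (a e))))))))))))), t false 1 (f (b (c (d (b (a (c (b (f (a (d (c (a
  e))))))))))))), t true 4 (c (d (a (b (a (f (b (c (a (b (d (c (a e))))))))))))), t false 1 (c (a (b
  (a (d (f (b (c (a (b (d (c (a e))))))))))))), t true 1 (a (b (a (c (d (f (b (c (a (b (d (c (a
  e))))))))))))), t false 1 (f (a (c (d (a (b (a (f (a (b (d (c (a e))))))))))))), t true 1 (f (c (d
  (a (c (b (a (f (a (b (d (c (a e))))))))))))), t true 1 (f (c (d (b (a (c (b (f (a (b (d (c (a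
  e))))))))))))), t false 1 (b (c (d (a (b (a (f (b (c (b (d (c (a e))))))))))))), t true 2 (c (d (a
  (b (c (a (f (b (c (b (d (c (a e))))))))))))), t true 1 (b (f (c (d (a (c (b (a (f (b (d (c (a
  e))))))))))))), t true 2 (c (d (b (f (b (a (c (a (f (b (d (c (a e))))))))))))), t false 1 (b (f (c
  (d (b (a (c (b (f (b (d (c (a e))))))))))))), t true 1 (a (b (f (c (d (b (c (b (f (b (d (c (a
  e))))))))))))), t true 1 (b (a (c (d (f (c (a (b (a (c (d (c (a e))))))))))))), t false 3 (f (c (d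
  (a (b (a (f (a (b (c (d (c (a e))))))))))))), t false 3 (d (b (a (c (a (b (a (d (a (f (d (c (a
  e))))))))))))), t false 1 (d (a (c (a (b (a (d (a (b (f (d (c (a e))))))))))))), t false 1 (b (d
  (a (c (a (b (a (d (b (f (d (c (a e))))))))))))), t true 1 (d (c (f (d (b (a (c (a (b (a (f (c (a
  e))))))))))))), t true 1 (b (a (d (c (f (d (c (a (b (a (f (c (a e))))))))))))), t true 2 (c (f (a
  (c (b (a (d (a (b (a (f (c (a e))))))))))))), t true 1 (c (f (b (a (c (b (d (a (b (a (f (c (a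
  e))))))))))))), t true 1 (c (f (b (c (b (d (a (c (b (a (f (c (a e))))))))))))), t false 1 (c (b (d
  (b (f (d (b (a (c (a (f (c (a e))))))))))))), t false 1 (d (b (a (c (f (a (b (a (d (a (f (c (a
  e))))))))))))), t true 1 (c (f (a (b (a (d (b (c (a (b (f (c (a e))))))))))))), t false 1 (b (c (f
  (a (b (a (d (b (c (b (f (c (a e))))))))))))), t false 1 (b (d (a (c (f (a (b (a (d (b (f (c (a
  e))))))))))))), t false 1 (b (a (c (d (f (c (d (c (a (b (a (d (a e)))))))))))))]

def c45_2 : List Tm := [t true 1 (c (a (d (a (c (b (a (f (a (b (a (d (a e))))))))))))), t true 1 (b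
  (c (a (d (a (c (a (f (a (b (a (d (a e))))))))))))), t true 1 (c (a (d (b (a (c (b (f (a (b (a (d
  (a e))))))))))))), t true 1 (c (b (a (d (b (c (b (f (a (b (a (d (a e))))))))))))), t true 2 (b (a
  (d (a (c (a (f (a (c (b (a (d (a e))))))))))))), t true 2 (a (d (b (c (b (f (a (b (c (b (a (d (a
  e))))))))))))), t false 1 (a (b (c (b (d (f (a (b (c (b (a (d (a e))))))))))))), t true 2 (d (b (c
  (b (f (a (d (b (c (b (a (d (a e))))))))))))), t false 1 (b (c (b (d (f (a (d (b (c (b (a (d (a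
  e))))))))))))), t true 1 (f (a (d (b (c (b (f (b (c (b (a (d (a e))))))))))))), t true 1 (b (f (c
  (a (d (a (c (a (f (b (a (d (a e))))))))))))), t false 1 (c (a (b (d (f (b (d (b (a (c (a (d (a
  e))))))))))))), t false 2 (b (a (d (a (b (c (a (f (a (c (a (d (a e))))))))))))), t false 1 (b (a
  (d (b (c (a (b (f (a (c (a (d (a e))))))))))))), t false 1 (b (c (a (d (b (c (b (f (a (c (a (d (a
  e))))))))))))), t true 1 (c (f (b (a (d (a (b (a (f (c (a (d (a e))))))))))))), t true 1 (f (b (c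
  (a (d (a (c (b (a (f (a (d (a e))))))))))))), t false 1 (f (c (a (d (b (a (c (a (b (f (a (d (a
  e))))))))))))), t false 1 (f (c (b (a (d (b (c (a (b (f (a (d (a e))))))))))))), t true 1 (f (b (c
  (a (d (b (a (c (b (f (a (d (a e))))))))))))), t true 1 (f (b (c (b (a (d (b (c (b (f (a (d (a
  e))))))))))))), t false 1 (c (a (d (a (b (a (f (b (c (a (b (d (a e))))))))))))), t false 1 (b (a
  (d (b (c (b (f (b (c (a (b (d (a e))))))))))))), t false 1 (c (f (a (d (a (b (a (f (c (a (b (d (a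
  e))))))))))))), t false 1 (f (c (a (d (a (c (b (a (f (a (b (d (a e))))))))))))), t false 1 (f (c
  (a (d (b (a (c (b (f (a (b (d (a e))))))))))))), t false 1 (f (c (b (a (d (b (c (b (f (a (b (d (a
  e))))))))))))), t false 2 (f (a (d (b (c (b (f (a (b (c (b (d (a e))))))))))))), t false 2 (f (d
  (b (c (b (f (a (d (b (c (b (d (a e))))))))))))), t true 2 (a (f (d (b (c (b (f (d (b (c (b (d (a
  e))))))))))))), t true 1 (b (a (d (a (c (b (a (f (b (c (b (d (a e))))))))))))), t true 2 (c (b (a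
  (d (a (c (a (f (b (c (b (d (a e))))))))))))), t false 2 (c (a (d (a (b (c (a (f (b (c (b (d (a
  e))))))))))))), t false 1 (d (b (c (b (a (d (a (f (b (c (b (d (a e))))))))))))), t true 1 (b (a (d
  (b (a (c (b (f (b (c (b (d (a e))))))))))))), t true 1 (c (f (b (a (d (a (c (a (f (c (b (d (a
  e))))))))))))), t false 2 (c (f (a (d (a (b (c (a (f (c (b (d (a e))))))))))))), t false 1 (b (f
  (c (a (d (a (c (b (a (f (b (d (a e))))))))))))), t false 2 (c (a (d (b (f (b (a (c (a (f (b (d (a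
  e))))))))))))), t false 1 (c (b (f (b (a (d (a (c (a (f (b (d (a e))))))))))))), t true 1 (c (a (b
  (f (b (d (a (c (a (f (b (d (a e))))))))))))), t true 1 (c (b (f (a (d (a (b (c (a (f (b (d (a
  e))))))))))))), t true 1 (b (f (c (a (d (b (a (c (b (f (b (d (a e))))))))))))), t true 1 (b (f (c
  (b (a (d (b (c (b (f (b (d (a e))))))))))))), t false 1 (a (b (f (c (b (d (b (c (b (f (b (d (a
  e))))))))))))), t true 1 (f (c (b (a (d (a (b (a (f (a (c (d (a e))))))))))))), t true 1 (f (b (a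
  (d (b (c (a (b (f (a (c (d (a e))))))))))))), t true 2 (b (f (c (a (d (a (b (a (f (b (c (d (a
  e))))))))))))), t false 1 (b (f (a (d (a (c (b (a (f (b (c (d (a e))))))))))))), t false 1 (b (a
  (d (c (f (c (a (b (a (f (c (d (a e))))))))))))), t false 3 (c (f (c (b (a (d (a (b (a (f (c (d (a
  e))))))))))))), t true 1 (b (c (f (c (a (d (a (b (a (f (c (d (a e))))))))))))), t true 1 (b (c (f
  (a (d (a (c (b (a (f (c (d (a e))))))))))))), t false 1 (c (f (b (a (d (b (c (a (b (f (c (d (a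
  e))))))))))))), t true 1 (b (c (f (b (a (d (b (c (b (f (c (d (a e))))))))))))), t false 1 (a (b (c
  (f (b (d (b (c (b (f (c (d (a e))))))))))))), t true 3 (a (d (c (a (b (a (c (a (b (a (f (d (a
  e))))))))))))), t false 1 (c (a (b (a (c (b (d (a (b (a (f (d (a e))))))))))))), t false 1 (d (b
  (c (b (a (d (b (c (b (a (f (d (a e))))))))))))), t false 1 (a (b (a (c (a (b (d (a (c (a (f (d (a
  e))))))))))))), t false 1 (a (b (a (c (b (d (a (b (c (a (f (d (a e))))))))))))), t true 2 (d (c (a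
  (b (a (c (a (b (d (a (f (d (a e))))))))))))), t false 1 (a (b (a (c (b (d (b (c (a (b (f (d (a
  e))))))))))))), t true 1 (d (c (a (b (a (c (b (d (a (b (f (d (a e))))))))))))), t false 1 (a (b (c
  (a (b (d (b (a (c (b (f (d (a e))))))))))))), t false 1 (d (a (b (c (a (b (d (a (c (b (f (d (a
  e))))))))))))), t true 1 (c (a (b (d (b (a (c (a (d (b (f (d (a e))))))))))))), t true 1 (d (a (b
  (a (c (a (b (d (a (c (f (d (a e))))))))))))), t true 1 (d (a (b (a (c (b (d (a (b (c (f (d (a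
  e))))))))))))), t true 1 (b (a (c (d (c (a (b (a (d (c (f (d (a e))))))))))))), t false 1 (d (c (a
  (f (d (b (a (c (a (b (a (f (a e))))))))))))), t false 2 (c (a (f (a (c (b (a (d (a (b (a (f (a
  e))))))))))))), t false 1 (c (a (f (b (a (c (b (d (a (b (a (f (a e))))))))))))), t false 1 (b (a
  (f (a (c (a (d (a (c (b (a (f (a e))))))))))))), t false 1 (c (a (f (b (c (b (d (a (c (b (a (f (a
  e))))))))))))), t false 1 (d (a (f (b (c (b (d (b (c (b (a (f (a e))))))))))))), t false 1 (b (c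
  (b (d (a (f (d (b (c (b (a (f (a e))))))))))))), t true 1 (c (a (b (d (b (f (d (b (a (c (a (f (a
  e))))))))))))), t true 1 (b (a (f (b (c (a (b (d (a (c (a (f (a e))))))))))))), t true 1 (b (a (f
  (b (c (b (d (a (b (c (a (f (a e))))))))))))), t true 1 (c (d (a (f (d (a (b (a (c (a (b (f (a
  e))))))))))))), t true 1 (c (b (d (a (f (d (a (b (c (a (b (f (a e))))))))))))), t false 1 (c (a (f
  (a (b (a (d (b (c (a (b (f (a e))))))))))))), t true 1 (b (a (f (b (c (b (d (b (c (a (b (f (a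
  e))))))))))))), t false 1 (c (d (a (f (a (b (a (d (c (a (b (f (a e))))))))))))), t true 1 (b (a (f
  (a (c (a (d (b (a (c (b (f (a e))))))))))))), t true 1 (b (c (a (f (a (b (a (d (b (c (b (f (a
  e))))))))))))), t false 1 (d (b (c (b (d (a (f (d (b (c (b (f (a e))))))))))))), t true 1 (a (d (b
  (c (b (d (f (d (b (c (b (f (a e))))))))))))), t true 1 (b (a (f (c (d (c (a (b (a (d (c (f (a
  e))))))))))))), t true 1 (c (d (f (a (c (a (d (a (b (a (c (a (b e))))))))))))), t true 1 (d (f (b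
  (a (c (a (b (d (b (a (c (a (b e))))))))))))), t true 1 (a (c (b (d (f (a (b (a (d (a (c (a (b
  e))))))))))))), t false 1 (c (b (d (f (a (c (b (a (d (a (c (a (b e))))))))))))), t false 1 (b (d
  (f (b (a (c (a (b (d (a (c (a (b e))))))))))))), t true 1 (a (b (d (f (b (c (a (b (d (a (c (a (b
  e))))))))))))), t false 1 (c (b (d (f (b (a (c (b (d (a (c (a (b e))))))))))))), t true 1 (c (a (b
  (d (f (b (c (b (d (a (c (a (b e))))))))))))), t true 1 (f (b (d (a (c (a (f (b (d (a (c (a (b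
  e))))))))))))), t false 2 (a (c (b (d (a (b (a (f (d (a (c (a (b e)))))))))))))]

def c45_3 : List Tm := [t true 1 (c (b (d (a (c (b (a (f (d (a (c (a (b e))))))))))))), t true 2 (b
  (d (b (a (c (a (b (f (d (a (c (a (b e))))))))))))), t false 2 (a (b (d (b (c (a (b (f (d (a (c (a
  (b e))))))))))))), t true 2 (c (b (d (b (a (c (b (f (d (a (c (a (b e))))))))))))), t false 2 (c (a
  (b (d (b (c (b (f (d (a (c (a (b e))))))))))))), t true 2 (d (b (a (c (a (d (b (f (d (a (c (a (b
  e))))))))))))), t true 1 (b (d (f (a (c (b (a (d (a (b (c (a (b e))))))))))))), t true 1 (c (b (d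
  (f (a (c (a (d (a (b (c (a (b e))))))))))))), t false 1 (b (d (a (c (b (a (f (d (a (b (c (a (b
  e))))))))))))), t false 1 (c (b (d (a (c (a (f (d (a (b (c (a (b e))))))))))))), t true 2 (d (a (c
  (a (f (a (b (a (d (b (c (a (b e))))))))))))), t false 1 (d (b (c (b (f (a (c (a (d (b (c (a (b
  e))))))))))))), t true 1 (d (a (b (a (f (b (c (b (d (b (c (a (b e))))))))))))), t false 2 (f (a (c
  (a (d (a (b (a (f (b (c (a (b e))))))))))))), t false 1 (a (d (f (c (d (c (a (b (a (d (c (a (b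
  e))))))))))))), t false 1 (c (d (a (c (a (f (a (b (a (d (c (a (b e))))))))))))), t false 1 (f (c
  (d (a (c (a (f (b (a (d (c (a (b e))))))))))))), t true 1 (c (d (b (c (b (f (a (c (a (d (c (a (b
  e))))))))))))), t false 1 (a (b (c (d (f (a (b (c (a (d (c (a (b e))))))))))))), t true 1 (b (f (c
  (d (a (c (a (f (a (d (c (a (b e))))))))))))), t false 1 (a (b (c (d (f (b (c (a (b (d (c (a (b
  e))))))))))))), t true 1 (c (d (a (b (a (f (b (c (b (d (c (a (b e))))))))))))), t false 1 (c (a (b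
  (a (d (f (b (c (b (d (c (a (b e))))))))))))), t true 1 (a (b (a (c (d (f (b (c (b (d (c (a (b
  e))))))))))))), t false 1 (f (a (c (d (a (b (a (f (b (d (c (a (b e))))))))))))), t true 2 (f (c (d
  (a (c (b (a (f (b (d (c (a (b e))))))))))))), t false 1 (f (b (c (d (a (c (a (f (b (d (c (a (b
  e))))))))))))), t true 1 (a (c (d (f (c (a (b (a (c (d (c (a (b e))))))))))))), t false 3 (f (c (d
  (a (b (a (f (b (c (d (c (a (b e))))))))))))), t false 2 (d (a (c (a (b (a (d (b (f (d (c (a (b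
  e))))))))))))), t true 1 (a (d (c (f (d (c (a (b (a (f (c (a (b e))))))))))))), t false 1 (d (a (c
  (f (a (b (a (d (b (f (c (a (b e))))))))))))), t false 1 (a (c (d (f (c (d (c (a (b (a (d (a (b
  e))))))))))))), t true 2 (c (a (d (a (c (a (f (a (b (a (d (a (b e))))))))))))), t true 2 (a (d (a
  (c (a (f (a (c (b (a (d (a (b e))))))))))))), t false 1 (c (b (d (f (a (d (b (c (b (a (d (a (b
  e))))))))))))), t true 1 (f (c (a (d (a (c (a (f (b (a (d (a (b e))))))))))))), t false 2 (a (d (a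
  (b (c (a (f (a (c (a (d (a (b e))))))))))))), t false 1 (a (d (b (c (a (b (f (a (c (a (d (a (b
  e))))))))))))), t false 1 (c (a (d (b (c (b (f (a (c (a (d (a (b e))))))))))))), t false 2 (a (d
  (b (c (b (f (a (b (c (a (d (a (b e))))))))))))), t true 1 (a (b (c (b (d (f (a (b (c (a (d (a (b
  e))))))))))))), t false 1 (f (a (d (b (c (b (f (b (c (a (d (a (b e))))))))))))), t false 1 (b (f
  (c (a (d (a (c (a (f (a (d (a (b e))))))))))))), t false 1 (a (d (b (c (b (f (b (c (a (b (d (a (b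
  e))))))))))))), t true 1 (c (a (d (a (b (a (f (b (c (b (d (a (b e))))))))))))), t true 1 (a (d (a
  (c (b (a (f (b (c (b (d (a (b e))))))))))))), t true 1 (a (d (b (a (c (b (f (b (c (b (d (a (b
  e))))))))))))), t true 1 (c (f (a (d (a (b (a (f (c (b (d (a (b e))))))))))))), t false 2 (f (c (a
  (d (a (c (b (a (f (b (d (a (b e))))))))))))), t true 1 (f (b (c (a (d (a (c (a (f (b (d (a (b
  e))))))))))))), t true 2 (f (c (a (d (a (b (a (f (b (c (d (a (b e))))))))))))), t false 1 (f (a (d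
  (a (c (b (a (f (b (c (d (a (b e))))))))))))), t false 1 (a (d (c (f (c (a (b (a (f (c (d (a (b
  e))))))))))))), t true 1 (c (f (a (d (a (c (b (a (f (c (d (a (b e))))))))))))), t false 1 (b (c (f
  (a (d (a (c (a (f (c (d (a (b e))))))))))))), t false 1 (c (b (a (d (a (b (c (b (a (f (d (a (b
  e))))))))))))), t true 1 (a (b (c (a (b (d (a (c (a (f (d (a (b e))))))))))))), t true 1 (a (b (c
  (b (d (a (b (c (a (f (d (a (b e))))))))))))), t true 1 (a (b (c (b (d (b (c (a (b (f (d (a (b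
  e))))))))))))), t false 1 (a (b (a (c (b (d (b (c (b (f (d (a (b e))))))))))))), t true 1 (d (c (a
  (b (a (c (b (d (b (f (d (a (b e))))))))))))), t true 1 (d (a (b (a (c (b (d (b (c (f (d (a (b
  e))))))))))))), t true 1 (a (c (d (c (a (b (a (d (c (f (d (a (b e))))))))))))), t false 1 (a (f (a
  (c (a (d (a (c (b (a (f (a (b e))))))))))))), t true 1 (c (b (d (a (f (d (b (c (b (a (f (a (b
  e))))))))))))), t true 1 (b (a (f (a (c (a (d (a (c (a (f (a (b e))))))))))))), t true 1 (a (f (b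
  (c (b (d (b (c (a (b (f (a (b e))))))))))))), t true 1 (c (d (a (f (d (a (b (a (c (b (f (a (b
  e))))))))))))), t true 1 (a (f (a (c (a (d (b (a (c (b (f (a (b e))))))))))))), t true 1 (b (a (f
  (b (c (b (d (b (c (b (f (a (b e))))))))))))), t false 1 (c (d (a (f (a (b (a (d (c (b (f (a (b
  e))))))))))))), t true 1 (a (f (c (d (c (a (b (a (d (c (f (a (b e))))))))))))), t true 1 (b (d (f
  (a (b (a (d (c (a (b (a (c (b e))))))))))))), t false 1 (b (d (a (b (a (f (d (c (a (b (a (c (b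
  e))))))))))))), t false 1 (b (c (d (f (a (b (a (d (a (b (a (c (b e))))))))))))), t false 1 (c (d
  (f (a (b (c (a (d (a (b (a (c (b e))))))))))))), t false 1 (f (a (c (a (d (b (c (b (f (b (a (c (b
  e))))))))))))), t true 1 (a (d (b (c (b (f (a (b (a (d (a (c (b e))))))))))))), t false 1 (a (b (c
  (b (d (f (a (b (a (d (a (c (b e))))))))))))), t true 1 (c (d (f (a (d (b (c (b (a (d (a (c (b
  e))))))))))))), t true 1 (f (a (d (b (c (b (f (b (a (d (a (c (b e))))))))))))), t false 1 (a (d (a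
  (c (a (f (b (c (b (d (a (c (b e))))))))))))), t true 1 (f (b (a (d (a (c (a (f (b (d (a (c (b
  e))))))))))))), t false 1 (f (a (d (a (b (c (a (f (b (d (a (c (b e))))))))))))), t true 1 (f (a (d
  (a (c (a (f (b (c (d (a (c (b e))))))))))))), t false 1 (b (f (a (d (a (c (a (f (c (d (a (c (b
  e))))))))))))), t false 1 (d (a (b (c (a (b (d (b (f (d (a (c (b e))))))))))))), t true 1 (a (f (b
  (c (b (d (a (b (a (f (a (c (b e))))))))))))), t true 1 (a (f (a (c (a (d (b (c (b (f (a (c (b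
  e))))))))))))), t false 1 (d (f (a (d (b (c (b (a (d (a (b (c (b e))))))))))))), t false 1 (f (a
  (d (b (c (b (f (a (d (a (b (c (b e))))))))))))), t false 1 (d (b (c (a (b (f (a (b (a (d (b (c (b
  e))))))))))))), t false 1 (a (d (f (a (d (b (c (b (a (d (b (c (b e))))))))))))), t false 2 (d (a
  (c (b (a (f (a (c (a (d (b (c (b e))))))))))))), t false 2 (d (b (a (c (b (f (a (c (a (d (b (c (b
  e))))))))))))), t true 2 (d (a (c (a (f (a (b (c (a (d (b (c (b e))))))))))))), t false 1 (d (a (f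
  (b (c (b (a (f (a (d (b (c (b e))))))))))))), t true 2 (a (f (a (d (b (c (b (f (a (d (b (c (b
  e))))))))))))), t true 1 (d (a (b (a (f (b (a (c (b (d (b (c (b e)))))))))))))]

def c45_4 : List Tm := [t true 2 (a (d (b (c (b (a (d (a (f (d (b (c (b e))))))))))))), t true 1 (f
  (a (b (a (d (a (c (b (a (f (b (c (b e))))))))))))), t true 1 (a (b (d (f (c (d (c (a (b (a (d (c
  (b e))))))))))))), t true 2 (c (d (b (c (a (b (f (a (b (a (d (c (b e))))))))))))), t false 1 (a (c
  (d (b (c (b (f (a (b (a (d (c (b e))))))))))))), t false 2 (c (d (a (b (a (f (a (c (b (a (d (c (b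
  e))))))))))))), t true 1 (c (a (b (a (d (f (a (c (b (a (d (c (b e))))))))))))), t false 1 (a (b (a
  (c (d (f (a (c (b (a (d (c (b e))))))))))))), t true 1 (c (a (d (f (a (d (b (c (b (a (d (c (b
  e))))))))))))), t true 1 (f (c (d (a (b (c (a (f (b (a (d (c (b e))))))))))))), t true 1 (f (c (d
  (b (c (a (b (f (b (a (d (c (b e))))))))))))), t false 1 (f (a (c (d (b (c (b (f (b (a (d (c (b
  e))))))))))))), t true 1 (c (d (a (c (b (a (f (a (c (a (d (c (b e))))))))))))), t true 1 (c (d (b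
  (a (c (b (f (a (c (a (d (c (b e))))))))))))), t false 1 (c (d (a (c (a (f (a (b (c (a (d (c (b
  e))))))))))))), t true 1 (c (d (a (f (b (c (b (a (f (a (d (c (b e))))))))))))), t true 1 (b (a (f
  (c (d (a (c (a (f (a (d (c (b e))))))))))))), t false 1 (a (f (c (d (a (b (c (a (f (a (d (c (b
  e))))))))))))), t false 1 (a (f (c (d (b (c (a (b (f (a (d (c (b e))))))))))))), t false 2 (c (a
  (f (a (d (b (c (b (f (a (d (c (b e))))))))))))), t false 1 (a (f (c (d (b (c (b (f (a (b (d (c (b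
  e))))))))))))), t false 4 (c (d (a (b (a (f (b (a (c (b (d (c (b e))))))))))))), t true 1 (c (a (b
  (a (d (f (b (a (c (b (d (c (b e))))))))))))), t false 1 (a (b (a (c (d (f (b (a (c (b (d (c (b
  e))))))))))))), t true 1 (a (c (d (a (c (a (f (b (c (b (d (c (b e))))))))))))), t true 1 (f (c (d
  (a (b (c (b (a (f (b (d (c (b e))))))))))))), t true 1 (f (b (a (c (d (a (c (a (f (b (d (c (b
  e))))))))))))), t false 1 (a (b (c (d (f (c (a (b (a (c (d (c (b e))))))))))))), t true 3 (f (c (d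
  (a (b (a (f (b (a (c (d (c (b e))))))))))))), t true 1 (d (b (c (a (b (a (d (b (a (f (d (c (b
  e))))))))))))), t true 2 (a (d (b (c (a (b (a (d (a (f (d (c (b e))))))))))))), t true 1 (d (a (b
  (c (a (b (a (d (b (f (d (c (b e))))))))))))), t false 1 (a (b (d (c (f (d (c (a (b (a (f (c (b
  e))))))))))))), t false 1 (b (c (f (a (b (a (d (a (b (a (f (c (b e))))))))))))), t false 1 (c (f
  (a (b (a (d (a (c (b (a (f (c (b e))))))))))))), t true 1 (a (c (f (a (b (a (d (a (c (a (f (c (b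
  e))))))))))))), t true 1 (a (d (b (c (f (a (b (a (d (a (f (c (b e))))))))))))), t true 1 (a (b (c
  (d (f (c (d (c (a (b (a (d (b e))))))))))))), t false 2 (c (a (b (d (a (c (a (f (a (b (a (d (b
  e))))))))))))), t false 1 (c (b (d (b (c (a (b (f (a (b (a (d (b e))))))))))))), t false 2 (a (b
  (d (a (c (a (f (a (c (b (a (d (b e))))))))))))), t false 1 (c (b (a (d (f (a (d (b (c (b (a (d (b
  e))))))))))))), t false 1 (f (c (a (b (d (a (c (a (f (b (a (d (b e))))))))))))), t false 1 (f (c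
  (b (d (a (b (c (a (f (b (a (d (b e))))))))))))), t true 1 (d (a (c (a (f (b (d (b (a (c (a (d (b
  e))))))))))))), t false 1 (a (c (a (d (f (b (d (b (a (c (a (d (b e))))))))))))), t false 2 (f (b
  (d (a (c (a (f (b (a (c (a (d (b e))))))))))))), t false 2 (f (d (a (c (a (f (b (d (a (c (a (d (b
  e))))))))))))), t true 2 (b (f (d (a (c (a (f (d (a (c (a (d (b e))))))))))))), t false 1 (a (c (b
  (d (a (b (a (f (a (c (a (d (b e))))))))))))), t false 1 (c (b (d (a (c (b (a (f (a (c (a (d (b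
  e))))))))))))), t true 2 (a (b (d (a (b (c (a (f (a (c (a (d (b e))))))))))))), t true 1 (a (b (d
  (b (c (a (b (f (a (c (a (d (b e))))))))))))), t false 1 (c (b (d (b (a (c (b (f (a (c (a (d (b
  e))))))))))))), t true 1 (c (a (b (d (b (c (b (f (a (c (a (d (b e))))))))))))), t true 1 (c (b (d
  (a (c (a (f (a (b (c (a (d (b e))))))))))))), t false 1 (f (b (d (a (c (b (a (f (b (c (a (d (b
  e))))))))))))), t false 1 (c (f (b (d (b (a (c (b (f (c (a (d (b e))))))))))))), t true 1 (c (a (f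
  (b (d (a (c (b (a (f (a (d (b e))))))))))))), t false 1 (c (b (d (a (f (b (c (b (a (f (a (d (b
  e))))))))))))), t false 1 (b (a (f (c (a (d (a (c (a (f (a (d (b e))))))))))))), t true 1 (a (f (c
  (a (b (d (a (c (a (f (a (d (b e))))))))))))), t true 1 (a (f (c (b (d (a (b (c (a (f (a (d (b
  e))))))))))))), t true 1 (c (a (f (b (d (b (a (c (b (f (a (d (b e))))))))))))), t true 1 (c (b (a
  (f (a (d (b (c (b (f (a (d (b e))))))))))))), t true 1 (a (f (a (c (b (d (b (c (b (f (a (d (b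
  e))))))))))))), t false 1 (b (a (c (a (d (f (b (a (c (a (b (d (b e))))))))))))), t true 1 (a (c (a
  (b (d (f (b (a (c (a (b (d (b e))))))))))))), t true 1 (a (b (d (b (c (b (f (b (c (a (b (d (b
  e))))))))))))), t true 1 (a (f (c (b (d (b (c (b (f (a (b (d (b e))))))))))))), t true 1 (c (b (d
  (a (b (a (f (b (a (c (b (d (b e))))))))))))), t false 1 (a (b (d (a (c (b (a (f (b (c (b (d (b
  e))))))))))))), t false 1 (a (c (b (d (a (c (a (f (b (c (b (d (b e))))))))))))), t false 1 (a (b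
  (d (b (a (c (b (f (b (c (b (d (b e))))))))))))), t false 1 (c (f (a (b (d (a (b (a (f (c (b (d (b
  e))))))))))))), t false 2 (f (c (a (b (d (a (c (b (a (f (b (d (b e))))))))))))), t false 1 (f (c
  (b (d (a (b (c (b (a (f (b (d (b e))))))))))))), t false 1 (f (b (a (c (a (d (a (c (a (f (b (d (b
  e))))))))))))), t true 1 (f (a (c (a (b (d (a (c (a (f (b (d (b e))))))))))))), t false 1 (a (f (c
  (b (d (a (b (a (f (a (c (d (b e))))))))))))), t false 1 (a (f (b (d (b (c (a (b (f (a (c (d (b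
  e))))))))))))), t true 1 (f (a (b (d (a (c (b (a (f (b (c (d (b e))))))))))))), t true 1 (a (b (d
  (c (f (c (a (b (a (f (c (d (b e))))))))))))), t true 2 (a (c (f (c (b (d (a (b (a (f (c (d (b
  e))))))))))))), t false 1 (c (f (a (b (d (a (c (b (a (f (c (d (b e))))))))))))), t false 1 (b (a
  (c (f (a (d (a (c (a (f (c (d (b e))))))))))))), t true 1 (a (c (f (a (b (d (a (c (a (f (c (d (b
  e))))))))))))), t true 1 (a (c (f (b (d (b (c (a (b (f (c (d (b e))))))))))))), t true 2 (b (d (c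
  (a (b (a (c (a (b (a (f (d (b e))))))))))))), t true 1 (a (b (a (c (a (d (a (c (b (a (f (d (b
  e))))))))))))), t false 2 (d (c (a (b (a (c (a (d (b (a (f (d (b e))))))))))))), t true 3 (d (b (a
  (c (a (d (b (a (c (a (f (d (b e))))))))))))), t false 1 (d (b (a (c (b (a (d (b (c (a (f (d (b
  e))))))))))))), t false 2 (c (a (d (b (a (c (b (a (d (a (f (d (b e))))))))))))), t true 1 (b (a (c
  (a (d (b (a (c (a (b (f (d (b e))))))))))))), t false 1 (a (c (a (b (d (b (a (c (a (b (f (d (b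
  e))))))))))))), t true 1 (d (b (a (c (a (d (a (c (a (b (f (d (b e))))))))))))), t true 1 (a (b (a
  (c (a (d (b (a (c (b (f (d (b e))))))))))))), t true 1 (a (b (a (c (b (a (d (b (c (b (f (d (b
  e))))))))))))), t false 1 (d (c (a (b (a (c (b (a (d (b (f (d (b e)))))))))))))]

def c45_5 : List Tm := [t false 1 (d (a (b (a (c (a (d (b (a (c (f (d (b e))))))))))))), t false 1
  (d (a (b (a (c (b (a (d (b (c (f (d (b e))))))))))))), t false 1 (a (b (c (d (c (a (b (a (d (c (f
  (d (b e))))))))))))), t false 1 (d (b (f (d (c (a (b (a (c (b (a (f (b e))))))))))))), t true 1 (c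
  (b (f (a (b (a (d (a (c (b (a (f (b e))))))))))))), t true 1 (a (b (f (a (c (a (d (a (c (b (a (f
  (b e))))))))))))), t true 1 (c (d (b (f (a (b (a (d (c (b (a (f (b e))))))))))))), t true 1 (a (d
  (b (f (d (c (a (b (a (c (a (f (b e))))))))))))), t true 1 (d (b (f (a (c (a (d (b (a (c (a (f (b
  e))))))))))))), t true 2 (a (c (a (d (b (f (d (b (a (c (a (f (b e))))))))))))), t false 1 (a (c (b
  (f (a (b (a (d (a (c (a (f (b e))))))))))))), t false 1 (a (b (f (b (c (a (b (d (a (c (a (f (b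
  e))))))))))))), t false 1 (d (a (c (a (d (b (f (d (a (c (a (f (b e))))))))))))), t true 1 (b (d (a
  (c (a (d (f (d (a (c (a (f (b e))))))))))))), t false 1 (a (b (f (b (c (b (d (a (b (c (a (f (b
  e))))))))))))), t false 1 (a (c (d (b (f (a (b (a (d (c (a (f (b e))))))))))))), t false 1 (a (b
  (f (b (c (b (d (b (c (a (b (f (b e))))))))))))), t false 1 (a (b (f (a (c (a (d (b (a (c (b (f (b
  e))))))))))))), t false 1 (a (b (f (c (d (c (a (b (a (d (c (f (b e))))))))))))), t true 1 (d (f (c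
  (a (b (a (c (d (c (a (b (a (c e))))))))))))), t false 1 (a (c (d (f (a (c (b (a (d (a (b (a (c
  e))))))))))))), t true 1 (a (b (c (d (f (a (c (a (d (a (b (a (c e))))))))))))), t true 1 (b (c (d
  (f (b (c (a (b (d (a (b (a (c e))))))))))))), t false 1 (a (c (d (f (b (a (c (b (d (a (b (a (c
  e))))))))))))), t false 1 (b (a (c (d (f (b (c (b (d (a (b (a (c e))))))))))))), t false 1 (c (d
  (f (c (a (b (a (c (d (a (b (a (c e))))))))))))), t true 1 (f (c (d (a (b (a (f (c (d (a (b (a (c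
  e))))))))))))), t true 1 (a (c (d (a (c (b (a (f (d (a (b (a (c e))))))))))))), t false 1 (a (b (c
  (d (a (c (a (f (d (a (b (a (c e))))))))))))), t false 1 (b (c (d (a (b (c (a (f (d (a (b (a (c
  e))))))))))))), t false 1 (b (c (d (b (c (a (b (f (d (a (b (a (c e))))))))))))), t true 1 (a (c (d
  (b (a (c (b (f (d (a (b (a (c e))))))))))))), t true 1 (b (a (c (d (b (c (b (f (d (a (b (a (c
  e))))))))))))), t true 1 (c (d (c (a (b (a (c (f (d (a (b (a (c e))))))))))))), t true 1 (d (c (a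
  (b (a (d (c (f (d (a (b (a (c e))))))))))))), t false 1 (a (d (f (b (d (b (a (c (a (d (b (a (c
  e))))))))))))), t false 1 (f (b (d (a (b (a (f (c (a (d (b (a (c e))))))))))))), t true 1 (c (f (b
  (d (a (b (a (f (a (d (b (a (c e))))))))))))), t true 1 (a (b (d (f (b (a (c (a (b (d (b (a (c
  e))))))))))))), t true 1 (a (c (b (d (f (b (a (c (b (d (b (a (c e))))))))))))), t true 1 (b (a (c
  (a (d (f (b (c (b (d (b (a (c e))))))))))))), t false 1 (a (c (a (b (d (f (b (c (b (d (b (a (c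
  e))))))))))))), t true 1 (f (c (b (d (a (b (a (f (c (d (b (a (c e))))))))))))), t false 1 (a (b (d
  (b (a (c (a (b (f (d (b (a (c e))))))))))))), t false 1 (a (c (b (d (b (a (c (b (f (d (b (a (c
  e))))))))))))), t false 1 (b (a (c (a (d (b (c (b (f (d (b (a (c e))))))))))))), t true 1 (a (c (a
  (b (d (b (c (b (f (d (b (a (c e))))))))))))), t false 1 (d (b (a (c (a (d (c (b (f (d (b (a (c
  e))))))))))))), t false 1 (d (a (b (a (c (a (d (c (f (d (b (a (c e))))))))))))), t true 2 (a (d (b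
  (f (d (b (a (c (a (f (b (a (c e))))))))))))), t false 1 (b (f (a (c (a (d (b (c (b (f (b (a (c
  e))))))))))))), t true 1 (a (d (a (c (b (a (f (a (b (a (d (a (c e))))))))))))), t true 1 (a (d (b
  (a (c (b (f (a (b (a (d (a (c e))))))))))))), t true 2 (a (d (b (c (b (f (a (c (b (a (d (a (c
  e))))))))))))), t false 1 (a (b (c (b (d (f (a (c (b (a (d (a (c e))))))))))))), t true 1 (b (c (d
  (f (a (d (b (c (b (a (d (a (c e))))))))))))), t true 1 (f (a (d (b (c (b (f (c (b (a (d (a (c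
  e))))))))))))), t false 1 (a (b (d (f (b (d (b (a (c (a (d (a (c e))))))))))))), t true 1 (f (b (a
  (d (a (b (a (f (c (a (d (a (c e))))))))))))), t false 1 (c (f (b (a (d (a (b (a (f (a (d (a (c
  e))))))))))))), t false 1 (a (d (a (b (a (f (b (c (a (b (d (a (c e))))))))))))), t false 1 (f (a
  (d (a (b (a (f (c (a (b (d (a (c e))))))))))))), t true 1 (b (a (d (a (c (a (f (b (c (b (d (a (c
  e))))))))))))), t false 2 (a (d (a (b (c (a (f (b (c (b (d (a (c e))))))))))))), t true 1 (f (b (a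
  (d (a (c (a (f (c (b (d (a (c e))))))))))))), t false 2 (f (a (d (a (b (c (a (f (c (b (d (a (c
  e))))))))))))), t false 1 (c (b (f (a (d (a (b (a (f (b (d (a (c e))))))))))))), t false 2 (a (d
  (b (f (b (a (c (a (f (b (d (a (c e))))))))))))), t true 1 (a (b (f (b (d (a (c (a (f (b (d (a (c
  e))))))))))))), t true 1 (b (f (a (d (a (b (c (a (f (b (d (a (c e))))))))))))), t true 1 (b (f (a
  (d (a (c (a (f (b (c (d (a (c e))))))))))))), t false 2 (f (c (b (a (d (a (b (a (f (c (d (a (c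
  e))))))))))))), t false 1 (a (b (a (c (b (d (a (b (a (f (d (a (c e))))))))))))), t true 1 (a (b (c
  (b (d (b (a (c (b (f (d (a (c e))))))))))))), t false 1 (a (b (c (a (b (d (b (c (b (f (d (a (c
  e))))))))))))), t false 1 (d (a (b (c (a (b (d (c (b (f (d (a (c e))))))))))))), t true 1 (a (b (d
  (b (a (c (a (d (b (f (d (a (c e))))))))))))), t true 1 (d (a (b (a (c (a (b (d (c (f (d (a (c
  e))))))))))))), t true 1 (c (a (f (a (b (a (d (a (b (a (f (a (c e))))))))))))), t false 2 (a (f (a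
  (c (b (a (d (a (b (a (f (a (c e))))))))))))), t false 1 (a (f (b (a (c (b (d (a (b (a (f (a (c
  e))))))))))))), t true 1 (a (b (d (b (f (d (b (a (c (a (f (a (c e))))))))))))), t true 1 (d (a (f
  (d (a (b (a (c (a (b (f (a (c e))))))))))))), t true 1 (b (d (a (f (d (a (b (c (a (b (f (a (c
  e))))))))))))), t false 1 (a (f (a (b (a (d (b (c (a (b (f (a (c e))))))))))))), t false 1 (d (a
  (f (a (b (a (d (c (a (b (f (a (c e))))))))))))), t true 1 (b (a (f (a (c (a (d (b (c (b (f (a (c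
  e))))))))))))), t true 1 (a (d (a (c (a (f (a (b (a (d (a (b (c e))))))))))))), t false 1 (b (d (f
  (a (d (b (c (b (a (d (a (b (c e))))))))))))), t false 2 (a (d (b (c (b (f (a (c (a (d (a (b (c
  e))))))))))))), t true 1 (a (b (c (b (d (f (a (c (a (d (a (b (c e))))))))))))), t false 1 (f (a (d
  (b (c (b (f (c (a (d (a (b (c e))))))))))))), t true 1 (a (d (a (b (a (f (b (c (b (d (a (b (c
  e))))))))))))), t true 1 (f (a (d (a (b (a (f (c (b (d (a (b (c e))))))))))))), t false 1 (c (f (a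
  (d (a (b (a (f (b (d (a (b (c e))))))))))))), t false 1 (b (a (d (a (b (c (b (a (f (d (a (b (c
  e))))))))))))), t true 1 (d (a (b (a (c (b (d (c (f (d (a (b (c e))))))))))))), t true 1 (b (d (a
  (f (d (b (c (b (a (f (a (b (c e))))))))))))), t true 1 (d (a (f (d (a (b (a (c (b (f (a (b (c
  e))))))))))))), t false 1 (d (a (f (a (b (a (d (c (b (f (a (b (c e)))))))))))))]

def c45_6 : List Tm := [t false 1 (a (b (d (a (c (a (f (a (b (a (d (b (c e))))))))))))), t false 1
  (b (d (b (c (a (b (f (a (b (a (d (b (c e))))))))))))), t false 1 (b (a (d (f (a (d (b (c (b (a (d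
  (b (c e))))))))))))), t true 1 (a (c (d (f (b (d (b (a (c (a (d (b (c e))))))))))))), t false 2 (b
  (d (a (c (b (a (f (a (c (a (d (b (c e))))))))))))), t false 2 (b (d (b (a (c (b (f (a (c (a (d (b
  (c e))))))))))))), t true 1 (a (b (d (b (c (b (f (a (c (a (d (b (c e))))))))))))), t true 2 (b (d
  (a (c (a (f (a (b (c (a (d (b (c e))))))))))))), t false 2 (f (b (d (a (c (b (a (f (c (a (d (b (c
  e))))))))))))), t false 2 (f (b (d (b (a (c (b (f (c (a (d (b (c e))))))))))))), t true 1 (f (a (b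
  (d (b (c (b (f (c (a (d (b (c e))))))))))))), t true 1 (c (a (f (b (d (a (b (a (f (a (d (b (c
  e))))))))))))), t true 2 (a (f (b (d (a (c (b (a (f (a (d (b (c e))))))))))))), t false 1 (b (d (a
  (f (b (c (b (a (f (a (d (b (c e))))))))))))), t true 2 (a (f (b (d (b (a (c (b (f (a (d (b (c
  e))))))))))))), t true 2 (b (a (f (a (d (b (c (b (f (a (d (b (c e))))))))))))), t false 1 (a (c (b
  (d (f (b (a (c (a (b (d (b (c e))))))))))))), t false 1 (b (a (c (a (d (f (b (c (a (b (d (b (c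
  e))))))))))))), t true 1 (a (c (a (b (d (f (b (c (a (b (d (b (c e))))))))))))), t true 1 (b (d (a
  (b (a (f (b (a (c (b (d (b (c e))))))))))))), t true 1 (a (b (d (a (b (a (f (b (c (b (d (b (c
  e))))))))))))), t false 1 (f (a (b (d (a (b (a (f (c (b (d (b (c e))))))))))))), t true 1 (a (f (b
  (d (b (c (b (f (a (c (d (b (c e))))))))))))), t false 1 (d (b (a (c (b (a (d (c (a (f (d (b (c
  e))))))))))))), t false 2 (a (d (b (a (c (b (a (d (a (f (d (b (c e))))))))))))), t true 1 (a (c (b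
  (d (b (a (c (a (b (f (d (b (c e))))))))))))), t true 1 (b (a (c (a (d (b (c (a (b (f (d (b (c
  e))))))))))))), t false 1 (a (c (a (b (d (b (c (a (b (f (d (b (c e))))))))))))), t true 1 (d (b (a
  (c (a (d (c (a (b (f (d (b (c e))))))))))))), t false 1 (d (a (b (a (c (b (a (d (c (f (d (b (c
  e))))))))))))), t false 2 (a (b (f (a (c (a (d (a (b (a (f (b (c e))))))))))))), t false 1 (d (b
  (f (d (a (b (a (c (b (a (f (b (c e))))))))))))), t true 1 (a (d (b (f (d (b (a (c (b (a (f (b (c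
  e))))))))))))), t true 1 (b (f (a (b (a (d (a (c (b (a (f (b (c e))))))))))))), t true 1 (d (b (f
  (a (b (a (d (c (b (a (f (b (c e))))))))))))), t false 2 (a (c (d (b (f (d (b (a (c (a (f (b (c
  e))))))))))))), t true 4 (d (a (b (a (f (c (d (c (a (b (a (d (c e))))))))))))), t false 1 (a (b (a
  (d (f (c (d (c (a (b (a (d (c e))))))))))))), t false 1 (f (c (d (a (b (a (f (c (a (b (a (d (c
  e))))))))))))), t false 1 (f (d (a (b (a (f (c (d (a (b (a (d (c e))))))))))))), t true 2 (c (f (d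
  (a (b (a (f (d (a (b (a (d (c e))))))))))))), t false 1 (a (c (d (a (c (b (a (f (a (b (a (d (c
  e))))))))))))), t true 1 (a (b (c (d (a (c (a (f (a (b (a (d (c e))))))))))))), t true 1 (b (c (d
  (b (c (a (b (f (a (b (a (d (c e))))))))))))), t false 1 (a (c (d (b (a (c (b (f (a (b (a (d (c
  e))))))))))))), t false 1 (b (a (c (d (b (c (b (f (a (b (a (d (c e))))))))))))), t true 1 (c (d (b
  (c (a (b (f (a (c (b (a (d (c e))))))))))))), t false 1 (a (c (d (b (c (b (f (a (c (b (a (d (c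
  e))))))))))))), t true 1 (b (c (a (d (f (a (d (b (c (b (a (d (c e))))))))))))), t true 1 (f (c (d
  (b (c (a (b (f (c (b (a (d (c e))))))))))))), t false 1 (f (a (c (d (b (c (b (f (c (b (a (d (c
  e))))))))))))), t true 1 (b (f (c (d (a (b (c (a (f (b (a (d (c e))))))))))))), t true 1 (a (c (b
  (d (f (b (d (b (a (c (a (d (c e))))))))))))), t true 1 (b (c (d (a (c (b (a (f (a (c (a (d (c
  e))))))))))))), t true 1 (b (c (d (b (a (c (b (f (a (c (a (d (c e))))))))))))), t false 1 (b (c (d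
  (a (c (a (f (a (b (c (a (d (c e))))))))))))), t false 1 (c (a (f (b (a (d (a (b (a (f (a (d (c
  e))))))))))))), t false 1 (a (f (b (c (d (a (c (b (a (f (a (d (c e))))))))))))), t true 1 (b (c (d
  (a (f (b (c (b (a (f (a (d (c e))))))))))))), t false 1 (b (a (f (c (d (a (b (c (a (f (a (d (c
  e))))))))))))), t true 1 (a (f (c (d (b (a (c (a (b (f (a (d (c e))))))))))))), t false 1 (a (f (b
  (c (d (b (a (c (b (f (a (d (c e))))))))))))), t false 2 (b (c (a (f (a (d (b (c (b (f (a (d (c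
  e))))))))))))), t true 1 (a (c (d (a (b (a (f (b (c (a (b (d (c e))))))))))))), t true 1 (c (d (a
  (c (b (a (f (b (c (a (b (d (c e))))))))))))), t false 1 (b (c (d (a (c (a (f (b (c (a (b (d (c
  e))))))))))))), t false 1 (f (a (c (d (a (b (a (f (c (a (b (d (c e))))))))))))), t true 1 (f (c (d
  (a (c (b (a (f (c (a (b (d (c e))))))))))))), t false 1 (f (b (c (d (a (c (a (f (c (a (b (d (c
  e))))))))))))), t true 1 (a (f (c (d (a (c (b (a (f (a (b (d (c e))))))))))))), t true 1 (a (f (c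
  (d (b (a (c (b (f (a (b (d (c e))))))))))))), t false 1 (b (c (d (a (b (a (f (b (a (c (b (d (c
  e))))))))))))), t false 1 (a (b (c (d (a (b (a (f (b (c (b (d (c e))))))))))))), t true 2 (a (c (d
  (a (b (c (a (f (b (c (b (d (c e))))))))))))), t false 1 (c (a (b (f (a (d (a (b (a (f (b (d (c
  e))))))))))))), t true 1 (a (b (f (c (d (a (c (b (a (f (b (d (c e))))))))))))), t true 1 (b (f (c
  (d (a (b (c (b (a (f (b (d (c e))))))))))))), t true 2 (a (c (d (b (f (b (a (c (a (f (b (d (c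
  e))))))))))))), t false 1 (a (c (b (f (b (d (a (c (a (f (b (d (c e))))))))))))), t true 1 (b (f (b
  (a (c (d (a (c (a (f (b (d (c e))))))))))))), t false 1 (a (b (f (c (d (b (a (c (b (f (b (d (c
  e))))))))))))), t true 3 (c (d (a (b (a (f (c (a (b (a (c (d (c e))))))))))))), t false 1 (c (a (b
  (a (d (f (c (a (b (a (c (d (c e))))))))))))), t true 1 (a (b (a (c (d (f (c (a (b (a (c (d (c
  e))))))))))))), t true 3 (f (c (d (a (b (a (f (a (b (a (c (d (c e))))))))))))), t true 2 (c (d (c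
  (a (b (a (c (a (b (a (f (d (c e))))))))))))), t true 2 (d (c (a (b (a (d (c (a (b (a (f (d (c
  e))))))))))))), t true 1 (d (b (c (a (b (a (d (c (b (a (f (d (c e))))))))))))), t false 1 (d (b (a
  (c (a (b (a (d (c (a (f (d (c e))))))))))))), t false 2 (a (d (b (a (c (a (b (a (d (a (f (d (c
  e))))))))))))), t false 1 (d (a (c (a (b (a (d (c (a (b (f (d (c e))))))))))))), t true 1 (d (a (b
  (c (a (b (a (d (c (b (f (d (c e))))))))))))), t false 1 (a (b (d (a (c (a (b (a (d (b (f (d (c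
  e))))))))))))), t false 1 (d (a (b (a (c (a (b (a (d (c (f (d (c e))))))))))))), t true 1 (a (b (a
  (d (c (f (d (c (a (b (a (f (c e))))))))))))), t true 2 (a (c (f (a (c (b (a (d (a (b (a (f (c
  e))))))))))))), t true 1 (a (c (f (b (a (c (b (d (a (b (a (f (c e))))))))))))), t false 2 (d (a (b
  (a (d (c (f (d (a (b (a (f (c e))))))))))))), t true 1 (c (d (a (b (a (d (f (d (a (b (a (f (c
  e))))))))))))), t false 1 (b (c (f (a (b (a (d (a (c (b (a (f (c e)))))))))))))]

def c45_7 : List Tm := [t true 1 (a (c (f (b (c (b (d (a (c (b (a (f (c e))))))))))))), t false 1 (a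
  (c (b (d (b (f (d (b (a (c (a (f (c e))))))))))))), t true 1 (b (a (c (f (a (b (a (d (a (c (a (f
  (c e))))))))))))), t false 1 (a (d (b (a (c (f (a (b (a (d (a (f (c e))))))))))))), t true 1 (a (c
  (f (a (b (a (d (b (c (a (b (f (c e))))))))))))), t false 1 (a (b (c (f (a (b (a (d (b (c (b (f (c
  e))))))))))))), t false 1 (a (b (d (a (c (f (a (b (a (d (b (f (c e))))))))))))), t true 3 (c (d (a
  (b (a (f (c (d (c (a (b (a (d e))))))))))))), t false 1 (a (b (a (c (d (f (c (d (c (a (b (a (d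
  e))))))))))))), t true 3 (f (c (d (a (b (a (f (d (c (a (b (a (d e))))))))))))), t true 2 (d (c (f
  (c (a (b (a (f (c (a (b (a (d e))))))))))))), t false 2 (c (f (c (d (a (b (a (f (c (a (b (a (d
  e))))))))))))), t false 1 (c (f (d (a (b (a (f (c (d (a (b (a (d e))))))))))))), t true 1 (a (c (a
  (d (a (c (b (a (f (a (b (a (d e))))))))))))), t false 1 (a (b (c (a (d (a (c (a (f (a (b (a (d
  e))))))))))))), t false 2 (b (c (a (b (d (a (c (a (f (a (b (a (d e))))))))))))), t false 1 (b (c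
  (b (d (b (c (a (b (f (a (b (a (d e))))))))))))), t true 1 (a (c (a (d (b (a (c (b (f (a (b (a (d
  e))))))))))))), t true 1 (a (c (b (a (d (b (c (b (f (a (b (a (d e))))))))))))), t true 1 (b (a (c
  (b (d (b (c (b (f (a (b (a (d e))))))))))))), t true 2 (a (b (a (d (a (c (a (f (a (c (b (a (d
  e))))))))))))), t false 1 (d (a (b (c (b (a (f (a (b (c (b (a (d e))))))))))))), t true 1 (a (b (c
  (b (a (d (f (a (b (c (b (a (d e))))))))))))), t true 3 (a (d (b (c (b (f (a (d (b (c (b (a (d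
  e))))))))))))), t false 1 (b (c (b (a (d (f (a (d (b (c (b (a (d e))))))))))))), t true 2 (f (a (d
  (b (c (b (f (d (b (c (b (a (d e))))))))))))), t false 1 (d (c (f (b (c (a (b (a (f (c (b (a (d
  e))))))))))))), t false 1 (b (f (c (a (b (d (a (c (a (f (b (a (d e))))))))))))), t false 1 (b (f
  (c (b (d (a (b (c (a (f (b (a (d e))))))))))))), t true 1 (b (d (a (c (a (f (b (d (b (a (c (a (d
  e))))))))))))), t false 1 (a (c (a (b (d (f (b (d (b (a (c (a (d e))))))))))))), t true 1 (f (b (d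
  (a (c (a (f (d (b (a (c (a (d e))))))))))))), t true 1 (d (b (f (b (a (c (a (f (b (a (c (a (d
  e))))))))))))), t false 3 (b (f (b (d (a (c (a (f (b (a (c (a (d e))))))))))))), t false 2 (b (f
  (d (a (c (a (f (b (d (a (c (a (d e))))))))))))), t false 1 (b (a (c (b (d (a (b (a (f (a (c (a (d
  e))))))))))))), t false 1 (b (c (b (d (a (c (b (a (f (a (c (a (d e))))))))))))), t false 2 (a (b
  (a (d (a (b (c (a (f (a (c (a (d e))))))))))))), t false 1 (a (b (a (d (b (c (a (b (f (a (c (a (d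
  e))))))))))))), t false 1 (b (c (b (d (b (a (c (b (f (a (c (a (d e))))))))))))), t true 1 (b (c (a
  (b (d (b (c (b (f (a (c (a (d e))))))))))))), t true 1 (b (c (b (d (a (c (a (f (a (b (c (a (d
  e))))))))))))), t false 1 (b (f (b (d (a (c (b (a (f (b (c (a (d e))))))))))))), t true 1 (d (c (f
  (b (a (c (a (b (a (f (c (a (d e))))))))))))), t true 1 (a (c (f (b (a (d (a (b (a (f (c (a (d
  e))))))))))))), t true 1 (b (a (c (f (b (d (a (b (a (f (c (a (d e))))))))))))), t false 1 (b (c (f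
  (b (d (b (a (c (b (f (c (a (d e))))))))))))), t false 1 (d (c (a (f (b (a (c (a (b (a (f (a (d
  e))))))))))))), t true 1 (a (f (b (c (a (d (a (c (b (a (f (a (d e))))))))))))), t true 1 (b (c (a
  (f (b (d (a (c (b (a (f (a (d e))))))))))))), t false 1 (b (c (b (d (a (f (b (c (b (a (f (a (d
  e))))))))))))), t true 1 (b (a (f (c (a (b (d (a (c (a (f (a (d e))))))))))))), t true 1 (b (a (f
  (c (b (d (a (b (c (a (f (a (d e))))))))))))), t false 1 (a (f (c (a (d (b (a (c (a (b (f (a (d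
  e))))))))))))), t false 1 (a (f (c (b (a (d (b (c (a (b (f (a (d e))))))))))))), t false 1 (b (a
  (f (c (b (d (b (c (a (b (f (a (d e))))))))))))), t true 1 (a (f (b (c (a (d (b (a (c (b (f (a (d
  e))))))))))))), t true 1 (b (c (a (f (b (d (b (a (c (b (f (a (d e))))))))))))), t true 1 (a (f (b
  (c (b (a (d (b (c (b (f (a (d e))))))))))))), t true 1 (b (c (b (a (f (a (d (b (c (b (f (a (d
  e))))))))))))), t true 1 (b (a (f (a (c (b (d (b (c (b (f (a (d e))))))))))))), t false 1 (d (b (a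
  (c (a (b (f (b (a (c (a (b (d e))))))))))))), t true 1 (b (a (c (a (b (d (f (b (a (c (a (b (d
  e))))))))))))), t false 1 (f (d (a (c (b (a (f (d (b (c (a (b (d e))))))))))))), t false 1 (a (c
  (a (d (a (b (a (f (b (c (a (b (d e))))))))))))), t false 1 (a (b (a (d (b (c (b (f (b (c (a (b (d
  e))))))))))))), t true 1 (d (c (f (a (c (a (b (a (f (c (a (b (d e))))))))))))), t false 2 (a (c (f
  (a (d (a (b (a (f (c (a (b (d e))))))))))))), t false 1 (c (f (a (c (d (a (b (a (f (c (a (b (d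
  e))))))))))))), t false 1 (a (f (c (a (d (a (c (b (a (f (a (b (d e))))))))))))), t false 1 (a (f
  (c (a (d (b (a (c (b (f (a (b (d e))))))))))))), t false 1 (a (f (c (b (a (d (b (c (b (f (a (b (d
  e))))))))))))), t false 1 (f (d (a (b (c (a (f (d (b (a (c (b (d e))))))))))))), t true 1 (b (c (b
  (d (a (b (a (f (b (a (c (b (d e))))))))))))), t true 1 (d (a (f (b (c (b (a (f (a (b (c (b (d
  e))))))))))))), t false 2 (a (f (a (d (b (c (b (f (a (b (c (b (d e))))))))))))), t false 2 (a (f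
  (d (b (c (b (f (a (d (b (c (b (d e))))))))))))), t true 1 (a (b (a (d (a (c (b (a (f (b (c (b (d
  e))))))))))))), t true 2 (a (c (b (a (d (a (c (a (f (b (c (b (d e))))))))))))), t false 2 (a (c (a
  (d (a (b (c (a (f (b (c (b (d e))))))))))))), t false 1 (a (d (b (c (b (a (d (a (f (b (c (b (d
  e))))))))))))), t true 1 (a (b (a (d (b (a (c (b (f (b (c (b (d e))))))))))))), t false 1 (a (b (c
  (f (a (d (a (b (a (f (c (b (d e))))))))))))), t false 1 (b (c (f (a (b (d (a (b (a (f (c (b (d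
  e))))))))))))), t true 1 (a (c (f (b (a (d (a (c (a (f (c (b (d e))))))))))))), t false 2 (a (c (f
  (a (d (a (b (c (a (f (c (b (d e))))))))))))), t false 1 (d (c (a (b (f (a (c (a (b (a (f (b (d
  e))))))))))))), t false 3 (a (b (f (c (a (d (a (c (b (a (f (b (d e))))))))))))), t false 2 (b (f
  (c (a (b (d (a (c (b (a (f (b (d e))))))))))))), t false 1 (c (a (b (f (c (d (a (c (b (a (f (b (d
  e))))))))))))), t false 1 (b (f (c (b (d (a (b (c (b (a (f (b (d e))))))))))))), t false 2 (a (c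
  (a (d (b (f (b (a (c (a (f (b (d e))))))))))))), t false 1 (a (c (b (f (b (a (d (a (c (a (f (b (d
  e))))))))))))), t false 1 (b (f (b (a (c (a (d (a (c (a (f (b (d e))))))))))))), t true 1 (a (b (f
  (b (c (a (d (a (c (a (f (b (d e))))))))))))), t true 1 (b (f (a (c (a (b (d (a (c (a (f (b (d
  e))))))))))))), t true 1 (a (c (a (b (f (b (d (a (c (a (f (b (d e))))))))))))), t true 1 (a (c (b
  (f (a (d (a (b (c (a (f (b (d e))))))))))))), t true 1 (a (b (f (c (a (d (b (a (c (b (f (b (d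
  e))))))))))))), t true 1 (a (b (f (c (b (a (d (b (c (b (f (b (d e)))))))))))))]

def c45_8 : List Tm := [t false 1 (d (c (a (b (a (c (f (c (a (b (a (c (d e))))))))))))), t true 1 (c
  (a (b (a (c (d (f (c (a (b (a (c (d e))))))))))))), t true 1 (a (f (c (b (a (d (a (b (a (f (a (c
  (d e))))))))))))), t true 1 (a (f (b (a (d (b (c (a (b (f (a (c (d e))))))))))))), t true 2 (a (b
  (f (c (a (d (a (b (a (f (b (c (d e))))))))))))), t true 1 (b (f (a (b (d (a (c (b (a (f (b (c (d
  e))))))))))))), t true 1 (d (a (b (a (c (f (c (a (b (a (f (c (d e))))))))))))), t false 1 (a (b (a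
  (d (c (f (c (a (b (a (f (c (d e))))))))))))), t false 3 (a (c (f (c (b (a (d (a (b (a (f (c (d
  e))))))))))))), t true 1 (a (b (c (f (c (a (d (a (b (a (f (c (d e))))))))))))), t false 1 (b (a (c
  (f (c (b (d (a (b (a (f (c (d e))))))))))))), t false 1 (a (b (a (c (f (c (d (a (b (a (f (c (d
  e))))))))))))), t false 1 (b (c (f (a (b (d (a (c (b (a (f (c (d e))))))))))))), t true 1 (b (a (c
  (f (a (b (d (a (c (a (f (c (d e))))))))))))), t false 1 (a (c (f (b (a (d (b (c (a (b (f (c (d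
  e))))))))))))), t true 1 (a (b (c (f (b (a (d (b (c (b (f (c (d e))))))))))))), t false 1 (a (d (b
  (c (b (a (d (b (c (b (a (f (d e))))))))))))), t true 1 (c (d (b (c (a (b (a (d (c (b (a (f (d
  e))))))))))))), t true 1 (b (d (b (a (c (a (d (b (a (c (a (f (d e))))))))))))), t false 1 (c (d (b
  (a (c (a (b (a (d (c (a (f (d e))))))))))))), t true 2 (a (d (c (a (b (a (c (a (b (d (a (f (d
  e))))))))))))), t false 1 (c (d (a (c (a (b (a (d (c (a (b (f (d e))))))))))))), t false 1 (b (d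
  (c (a (b (a (c (b (a (d (b (f (d e))))))))))))), t false 1 (c (d (a (b (a (c (a (b (a (d (c (f (d
  e))))))))))))), t false 2 (f (c (d (c (a (b (a (d (c (a (b (a (f e))))))))))))), t true 1 (c (a (b
  (a (d (c (f (d (c (a (b (a (f e))))))))))))), t true 1 (d (c (a (b (a (d (f (d (c (a (b (a (f
  e))))))))))))), t false 2 (a (c (a (f (a (c (b (a (d (a (b (a (f e))))))))))))), t false 1 (a (c
  (a (f (b (a (c (b (d (a (b (a (f e))))))))))))), t false 2 (c (d (a (b (a (d (c (f (d (a (b (a (f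
  e))))))))))))), t false 1 (b (d (b (f (d (c (a (b (a (c (b (a (f e))))))))))))), t true 1 (b (c (b
  (f (a (b (a (d (a (c (b (a (f e))))))))))))), t false 1 (a (b (a (f (a (c (a (d (a (c (b (a (f
  e))))))))))))), t false 1 (a (c (a (f (b (c (b (d (a (c (b (a (f e))))))))))))), t true 1 (d (b (c
  (a (b (d (f (d (a (c (b (a (f e))))))))))))), t true 1 (d (b (c (b (d (f (d (a (b (c (b (a (f
  e))))))))))))), t false 1 (a (d (a (f (b (c (b (d (b (c (b (a (f e))))))))))))), t false 1 (a (b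
  (c (b (d (a (f (d (b (c (b (a (f e))))))))))))), t false 1 (d (b (c (b (a (d (f (d (b (c (b (a (f
  e))))))))))))), t true 1 (f (c (d (b (c (a (b (a (d (c (b (a (f e))))))))))))), t true 1 (b (c (d
  (b (f (a (b (a (d (c (b (a (f e))))))))))))), t true 1 (b (a (d (b (f (d (c (a (b (a (c (a (f
  e))))))))))))), t false 1 (f (b (d (b (a (c (a (d (b (a (c (a (f e))))))))))))), t true 1 (b (d (b
  (f (a (c (a (d (b (a (c (a (f e))))))))))))), t true 1 (b (a (c (a (d (b (f (d (b (a (c (a (f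
  e))))))))))))), t true 1 (a (c (a (b (d (b (f (d (b (a (c (a (f e))))))))))))), t true 1 (d (b (a
  (c (a (d (f (d (b (a (c (a (f e))))))))))))), t false 1 (b (a (c (b (f (a (b (a (d (a (c (a (f
  e))))))))))))), t true 1 (a (b (a (f (b (c (a (b (d (a (c (a (f e))))))))))))), t false 1 (b (d (a
  (c (a (d (b (f (d (a (c (a (f e))))))))))))), t false 1 (d (b (a (c (a (b (d (f (d (a (c (a (f
  e))))))))))))), t true 1 (a (b (a (f (b (c (b (d (a (b (c (a (f e))))))))))))), t false 1 (d (b (a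
  (c (b (d (f (d (a (b (c (a (f e))))))))))))), t false 1 (f (c (d (b (a (c (a (b (a (d (c (a (f
  e))))))))))))), t false 1 (b (a (c (d (b (f (a (b (a (d (c (a (f e))))))))))))), t true 1 (f (c (a
  (d (b (a (c (a (b (a (d (a (f e))))))))))))), t false 1 (c (a (d (b (a (c (f (a (b (a (d (a (f
  e))))))))))))), t true 2 (f (a (d (c (a (b (a (c (a (b (d (a (f e))))))))))))), t true 1 (a (c (d
  (a (f (d (a (b (a (c (a (b (f e))))))))))))), t true 1 (d (a (c (a (d (f (d (b (a (c (a (b (f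
  e))))))))))))), t true 1 (a (c (b (d (a (f (d (a (b (c (a (b (f e))))))))))))), t false 1 (a (c (a
  (f (a (b (a (d (b (c (a (b (f e))))))))))))), t true 1 (a (b (a (f (b (c (b (d (b (c (a (b (f
  e))))))))))))), t true 1 (d (a (c (b (a (d (f (d (b (c (a (b (f e))))))))))))), t false 1 (f (c (d
  (a (c (a (b (a (d (c (a (b (f e))))))))))))), t false 1 (a (c (d (a (f (a (b (a (d (c (a (b (f
  e))))))))))))), t true 1 (a (b (a (f (a (c (a (d (b (a (c (b (f e))))))))))))), t false 1 (f (a (d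
  (b (c (b (a (d (a (b (c (b (f e))))))))))))), t true 1 (a (b (c (a (f (a (b (a (d (b (c (b (f
  e))))))))))))), t false 1 (a (d (b (c (b (d (a (f (d (b (c (b (f e))))))))))))), t true 1 (f (c (a
  (b (d (a (c (a (b (a (d (b (f e))))))))))))), t false 1 (c (a (b (d (a (c (f (a (b (a (d (b (f
  e))))))))))))), t false 1 (f (b (d (c (a (b (a (c (b (a (d (b (f e))))))))))))), t false 1 (f (c
  (d (a (b (a (c (a (b (a (d (c (f e))))))))))))), t false 1 (f (a (b (a (c (d (c (a (b (a (d (c (f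
  e))))))))))))), t true 1 (a (b (a (f (c (d (c (a (b (a (d (c (f e)))))))))))))]

def c45 : List (List Tm) := [c45_0, c45_1, c45_2, c45_3, c45_4, c45_5, c45_6, c45_7, c45_8]

def c56_0 : List Tm := [t true 1 (a (d (c (a (f (c (d (b (a (c (a (b (a e))))))))))))), t false 1 (f
  (a (b (d (a (c (a (d (a (c (a (b (a e))))))))))))), t false 1 (a (b (d (a (f (c (a (d (a (c (a (b
  (a e))))))))))))), t false 3 (b (d (a (b (f (c (a (d (a (c (a (b (a e))))))))))))), t false 1 (b
  (d (b (f (c (a (b (d (a (c (a (b (a e))))))))))))), t false 1 (a (b (d (c (a (f (c (d (a (c (a (b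
  (a e))))))))))))), t false 1 (b (d (c (a (b (f (c (d (a (c (a (b (a e))))))))))))), t false 1 (b
  (d (b (f (c (b (d (a (b (c (a (b (a e))))))))))))), t false 1 (b (d (c (b (f (c (d (a (b (c (a (b
  (a e))))))))))))), t true 1 (a (d (a (f (c (b (a (d (b (c (a (b (a e))))))))))))), t true 1 (a (d
  (b (a (f (c (b (d (b (c (a (b (a e))))))))))))), t true 1 (b (a (d (b (f (c (b (d (b (c (a (b (a
  e))))))))))))), t true 1 (a (d (c (b (a (f (c (d (b (c (a (b (a e))))))))))))), t true 1 (b (a (d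
  (c (b (f (c (d (b (c (a (b (a e))))))))))))), t false 1 (c (d (c (f (c (a (b (a (d (c (a (b (a
  e))))))))))))), t false 1 (c (d (b (c (f (c (a (b (d (c (a (b (a e))))))))))))), t true 1 (c (d (c
  (f (a (b (a (c (d (c (a (b (a e))))))))))))), t true 4 (c (d (c (a (b (a (f (c (d (c (a (b (a
  e))))))))))))), t false 1 (a (c (d (c (b (a (f (c (d (c (a (b (a e))))))))))))), t true 1 (a (b (c
  (d (c (a (f (c (d (c (a (b (a e))))))))))))), t true 1 (b (c (d (c (a (b (f (c (d (c (a (b (a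
  e))))))))))))), t false 1 (b (a (c (d (c (b (f (c (d (c (a (b (a e))))))))))))), t false 1 (a (b
  (a (c (d (c (f (c (d (c (a (b (a e))))))))))))), t false 6 (d (f (c (d (a (b (a (f (d (c (a (b (a
  e))))))))))))), t true 2 (d (c (f (c (d (a (b (a (f (c (a (b (a e))))))))))))), t true 2 (a (c (a
  (f (d (a (c (b (a (d (a (b (a e))))))))))))), t false 1 (a (b (c (a (f (d (a (c (a (d (a (b (a
  e))))))))))))), t false 1 (b (c (a (b (f (d (a (c (a (d (a (b (a e))))))))))))), t false 3 (b (c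
  (b (f (d (a (b (c (a (d (a (b (a e))))))))))))), t false 2 (b (c (b (f (d (b (c (a (b (d (a (b (a
  e))))))))))))), t true 2 (a (c (a (f (d (b (a (c (b (d (a (b (a e))))))))))))), t true 1 (a (c (b
  (a (f (d (b (c (b (d (a (b (a e))))))))))))), t true 1 (b (a (c (b (f (d (b (c (b (d (a (b (a
  e))))))))))))), t false 1 (c (f (d (c (a (b (a (f (c (d (a (b (a e))))))))))))), t true 2 (c (d (f
  (d (c (a (b (a (f (d (a (b (a e))))))))))))), t false 1 (d (a (c (a (d (a (c (b (a (f (a (b (a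
  e))))))))))))), t true 1 (d (a (b (c (a (d (a (c (a (f (a (b (a e))))))))))))), t true 1 (d (b (c
  (b (d (a (b (c (a (f (a (b (a e))))))))))))), t true 1 (d (b (c (b (d (b (c (a (b (f (a (b (a
  e))))))))))))), t true 1 (d (a (c (a (d (b (a (c (b (f (a (b (a e))))))))))))), t true 1 (b (d (a
  (c (a (d (a (c (b (f (a (b (a e))))))))))))), t true 1 (a (b (d (a (c (a (d (a (c (f (a (b (a
  e))))))))))))), t true 1 (c (d (b (c (f (b (d (a (b (a (c (b (a e))))))))))))), t true 1 (c (d (c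
  (f (b (c (d (a (b (a (c (b (a e))))))))))))), t false 1 (f (a (d (b (c (a (b (d (b (a (c (b (a
  e))))))))))))), t false 1 (c (a (d (b (c (f (b (d (b (a (c (b (a e))))))))))))), t false 1 (a (d
  (c (a (f (b (c (d (b (a (c (b (a e))))))))))))), t false 1 (c (a (d (c (f (b (c (d (b (a (c (b (a
  e))))))))))))), t false 1 (b (c (b (f (d (a (b (a (d (a (c (b (a e))))))))))))), t true 2 (a (b (a
  (f (d (a (c (a (d (a (c (b (a e))))))))))))), t false 1 (d (f (d (a (b (c (a (f (d (a (c (b (a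
  e))))))))))))), t true 1 (d (f (d (b (c (a (b (f (d (a (c (b (a e))))))))))))), t false 1 (d (a (b
  (a (d (a (c (a (f (a (c (b (a e))))))))))))), t true 1 (b (c (d (a (b (a (d (a (f (a (c (b (a
  e))))))))))))), t true 1 (d (a (c (a (d (b (c (b (f (a (c (b (a e))))))))))))), t false 1 (b (d (a
  (c (a (d (c (b (f (a (c (b (a e))))))))))))), t false 1 (c (d (a (b (a (d (a (c (f (a (c (b (a
  e))))))))))))), t true 1 (f (d (a (b (c (b (a (d (a (b (c (b (a e))))))))))))), t true 1 (d (f (d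
  (b (c (b (f (d (a (b (c (b (a e))))))))))))), t false 1 (d (a (b (c (b (a (d (f (a (b (c (b (a
  e))))))))))))), t true 1 (a (d (b (c (b (a (f (a (d (b (c (b (a e))))))))))))), t true 2 (b (c (b
  (a (d (a (f (a (d (b (c (b (a e))))))))))))), t true 3 (d (b (c (b (a (d (f (a (d (b (c (b (a
  e))))))))))))), t true 1 (a (d (b (c (a (f (a (b (d (b (c (b (a e))))))))))))), t true 1 (b (c (a
  (d (b (f (a (b (d (b (c (b (a e))))))))))))), t true 1 (c (a (d (b (c (f (a (b (d (b (c (b (a
  e))))))))))))), t false 1 (a (d (b (a (f (a (c (b (d (b (c (b (a e))))))))))))), t false 1 (b (a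
  (d (b (f (a (c (b (d (b (c (b (a e))))))))))))), t true 1 (a (d (a (f (a (b (c (b (d (b (c (b (a
  e))))))))))))), t false 1 (a (d (c (b (a (f (a (c (d (b (c (b (a e))))))))))))), t false 1 (b (a
  (d (c (b (f (a (c (d (b (c (b (a e))))))))))))), t false 1 (c (b (a (d (c (f (a (c (d (b (c (b (a
  e))))))))))))), t true 1 (a (d (c (a (f (a (b (c (d (b (c (b (a e))))))))))))), t true 1 (c (a (d
  (c (f (a (b (c (d (b (c (b (a e))))))))))))), t true 1 (c (d (c (f (b (c (a (b (a (d (c (b (a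
  e))))))))))))), t true 1 (c (d (b (c (a (b (a (f (a (d (c (b (a e))))))))))))), t true 2 (b (c (a
  (b (a (d (a (f (a (d (c (b (a e))))))))))))), t true 2 (d (b (c (a (b (a (d (f (a (d (c (b (a
  e))))))))))))), t true 1 (a (c (d (c (b (a (f (a (c (d (c (b (a e))))))))))))), t false 1 (a (b (c
  (d (c (a (f (a (c (d (c (b (a e))))))))))))), t false 1 (b (c (d (c (a (b (f (a (c (d (c (b (a
  e))))))))))))), t true 1 (b (a (c (d (c (b (f (a (c (d (c (b (a e))))))))))))), t false 1 (c (a (b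
  (a (d (c (f (a (c (d (c (b (a e))))))))))))), t true 1 (a (b (a (c (d (c (f (a (c (d (c (b (a
  e))))))))))))), t false 1 (b (c (d (c (b (f (a (b (c (d (c (b (a e))))))))))))), t true 1 (c (d (f
  (b (c (a (b (a (f (d (c (b (a e))))))))))))), t true 2 (d (f (b (c (d (a (b (a (f (d (c (b (a
  e))))))))))))), t false 2 (d (f (c (d (b (c (a (b (f (d (c (b (a e))))))))))))), t false 1 (d (b
  (c (f (b (d (a (b (a (f (c (b (a e))))))))))))), t false 1 (d (c (f (b (c (d (a (b (a (f (c (b (a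
  e))))))))))))), t false 1 (c (f (d (b (c (b (d (a (b (f (c (b (a e))))))))))))), t false 1 (b (d
  (c (b (f (b (c (a (b (a (d (b (a e))))))))))))), t true 1 (b (c (b (f (b (c (d (a (b (a (d (b (a
  e))))))))))))), t false 1 (a (c (a (f (b (d (a (c (b (a (d (b (a e))))))))))))), t true 1 (b (d (a
  (c (b (f (b (c (b (a (d (b (a e))))))))))))), t false 1 (c (b (d (a (c (f (b (c (b (a (d (b (a
  e))))))))))))), t false 1 (b (d (b (f (c (a (b (a (c (a (d (b (a e))))))))))))), t true 1 (c (f (c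
  (b (d (a (b (f (c (a (d (b (a e))))))))))))), t false 1 (c (b (d (b (c (a (b (a (f (a (d (b (a
  e))))))))))))), t false 1 (b (d (c (a (b (a (c (a (f (a (d (b (a e)))))))))))))]

def c56_1 : List Tm := [t false 2 (c (a (b (a (c (a (d (a (f (a (d (b (a e))))))))))))), t false 2
  (d (c (a (b (a (c (a (d (f (a (d (b (a e))))))))))))), t true 1 (a (c (b (d (b (a (f (a (c (b (d
  (b (a e))))))))))))), t true 1 (b (d (b (a (c (a (f (a (c (b (d (b (a e))))))))))))), t true 1 (b
  (a (c (a (d (b (f (a (c (b (d (b (a e))))))))))))), t false 1 (a (c (a (b (d (b (f (a (c (b (d (b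
  (a e))))))))))))), t true 1 (c (b (d (b (a (c (f (a (c (b (d (b (a e))))))))))))), t true 1 (b (d
  (a (b (a (c (a (f (a (c (d (b (a e))))))))))))), t true 1 (c (b (d (a (b (a (c (f (a (c (d (b (a
  e))))))))))))), t true 2 (c (f (b (d (c (a (b (a (f (c (d (b (a e))))))))))))), t false 1 (c (f (c
  (b (d (c (a (b (f (c (d (b (a e))))))))))))), t false 1 (c (b (d (f (b (c (a (b (a (f (d (b (a
  e))))))))))))), t false 1 (c (d (f (b (d (c (a (b (a (f (d (b (a e))))))))))))), t true 1 (d (f (c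
  (b (d (b (c (a (b (f (d (b (a e))))))))))))), t false 1 (b (f (c (d (a (b (a (d (c (a (f (b (a
  e))))))))))))), t false 1 (d (b (f (c (b (d (b (c (a (b (f (b (a e))))))))))))), t true 2 (b (f (d
  (a (c (a (d (a (c (b (f (b (a e))))))))))))), t true 1 (a (b (f (d (a (c (a (d (a (c (f (b (a
  e))))))))))))), t false 1 (b (f (d (b (c (b (d (a (b (c (f (b (a e))))))))))))), t true 1 (b (f (b
  (c (d (a (b (a (d (c (f (b (a e))))))))))))), t true 2 (a (d (a (f (b (a (d (c (a (b (a (c (a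
  e))))))))))))), t true 1 (a (d (b (a (f (b (d (c (a (b (a (c (a e))))))))))))), t false 1 (f (a (c
  (d (a (b (a (d (a (b (a (c (a e))))))))))))), t false 1 (a (c (d (a (f (b (a (d (a (b (a (c (a
  e))))))))))))), t false 1 (c (d (a (c (f (b (a (d (a (b (a (c (a e))))))))))))), t false 1 (a (c
  (d (b (a (f (b (d (a (b (a (c (a e))))))))))))), t false 1 (c (d (b (a (c (f (b (d (a (b (a (c (a
  e))))))))))))), t false 1 (c (d (c (f (b (a (c (d (a (b (a (c (a e))))))))))))), t false 1 (b (d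
  (b (f (b (a (c (a (d (b (a (c (a e))))))))))))), t true 2 (b (d (a (b (f (b (c (a (d (b (a (c (a
  e))))))))))))), t true 1 (b (d (b (f (a (c (a (b (d (b (a (c (a e))))))))))))), t true 1 (a (c (b
  (d (b (a (f (b (d (b (a (c (a e))))))))))))), t true 3 (b (d (b (a (c (a (f (b (d (b (a (c (a
  e))))))))))))), t false 1 (a (b (d (b (c (a (f (b (d (b (a (c (a e))))))))))))), t false 1 (b (d
  (a (c (a (b (f (b (d (b (a (c (a e))))))))))))), t false 1 (a (c (a (b (d (b (f (b (d (b (a (c (a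
  e))))))))))))), t true 1 (c (b (d (b (a (c (f (b (d (b (a (c (a e))))))))))))), t false 1 (c (a (b
  (d (b (c (f (b (d (b (a (c (a e))))))))))))), t false 2 (d (f (b (d (a (c (a (f (d (b (a (c (a
  e))))))))))))), t true 1 (d (b (f (b (d (a (c (a (f (b (a (c (a e))))))))))))), t true 1 (b (f (d
  (a (c (a (d (b (f (b (a (c (a e))))))))))))), t true 2 (b (a (c (b (f (d (a (b (a (d (a (c (a
  e))))))))))))), t true 2 (b (c (b (f (d (a (c (b (a (d (a (c (a e))))))))))))), t true 1 (a (b (a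
  (f (d (a (b (c (a (d (a (c (a e))))))))))))), t false 1 (a (b (a (f (d (b (c (a (b (d (a (c (a
  e))))))))))))), t false 1 (b (c (b (f (d (b (a (c (b (d (a (c (a e))))))))))))), t true 1 (b (c (a
  (b (f (d (b (c (b (d (a (c (a e))))))))))))), t false 1 (b (f (d (b (a (c (a (f (b (d (a (c (a
  e))))))))))))), t false 1 (d (f (d (b (a (c (a (b (f (d (a (c (a e))))))))))))), t false 1 (d (a
  (c (b (a (d (a (b (a (f (a (c (a e))))))))))))), t true 1 (b (d (a (c (b (a (d (b (a (f (a (c (a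
  e))))))))))))), t true 1 (d (a (b (a (d (a (b (c (a (f (a (c (a e))))))))))))), t false 1 (b (a (c
  (d (a (b (a (d (a (f (a (c (a e))))))))))))), t true 1 (a (c (d (a (b (a (d (a (b (f (a (c (a
  e))))))))))))), t true 1 (c (d (a (b (a (d (a (b (c (f (a (c (a e))))))))))))), t false 2 (b (c (b
  (f (d (a (c (a (d (a (b (c (a e))))))))))))), t false 1 (a (b (a (f (d (b (c (b (d (a (b (c (a
  e))))))))))))), t false 1 (d (f (d (b (a (c (b (f (d (a (b (c (a e))))))))))))), t true 1 (d (b (c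
  (b (d (a (c (a (f (a (b (c (a e))))))))))))), t false 1 (b (d (a (c (a (d (a (b (f (a (b (c (a
  e))))))))))))), t false 1 (b (d (b (f (b (a (c (b (a (d (b (c (a e))))))))))))), t true 1 (b (d (a
  (b (f (b (c (b (a (d (b (c (a e))))))))))))), t false 1 (b (d (b (a (c (b (a (f (a (d (b (c (a
  e))))))))))))), t false 2 (b (a (c (b (a (d (a (f (a (d (b (c (a e))))))))))))), t false 2 (d (b
  (a (c (b (a (d (f (a (d (b (c (a e))))))))))))), t false 1 (a (c (b (d (b (a (f (a (b (d (b (c (a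
  e))))))))))))), t false 1 (b (d (b (a (c (a (f (a (b (d (b (c (a e))))))))))))), t true 1 (a (b (d
  (b (c (a (f (a (b (d (b (c (a e))))))))))))), t false 1 (b (a (c (a (d (b (f (a (b (d (b (c (a
  e))))))))))))), t true 1 (a (c (a (b (d (b (f (a (b (d (b (c (a e))))))))))))), t false 1 (c (b (d
  (b (a (c (f (a (b (d (b (c (a e))))))))))))), t true 1 (c (a (b (d (b (c (f (a (b (d (b (c (a
  e))))))))))))), t false 1 (c (b (d (b (c (f (a (c (b (d (b (c (a e))))))))))))), t false 2 (b (f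
  (d (a (c (a (d (a (b (f (b (c (a e))))))))))))), t false 1 (b (f (d (b (c (b (d (a (c (f (b (c (a
  e))))))))))))), t false 1 (c (d (c (f (b (a (c (a (b (a (d (c (a e))))))))))))), t true 1 (a (b (a
  (f (b (c (d (a (b (a (d (c (a e))))))))))))), t true 4 (b (c (d (b (f (b (a (c (b (a (d (c (a
  e))))))))))))), t false 2 (b (c (b (f (b (d (a (c (b (a (d (c (a e))))))))))))), t false 4 (b (c
  (d (a (b (f (b (c (b (a (d (c (a e))))))))))))), t true 2 (b (f (c (d (a (c (b (f (b (a (d (c (a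
  e))))))))))))), t false 1 (c (d (b (a (c (a (b (a (f (a (d (c (a e))))))))))))), t true 1 (b (c (d
  (b (a (c (b (a (f (a (d (c (a e))))))))))))), t false 2 (b (a (c (a (b (a (d (a (f (a (d (c (a
  e))))))))))))), t false 2 (d (b (a (c (a (b (a (d (f (a (d (c (a e))))))))))))), t true 1 (c (d (a
  (c (a (b (a (f (a (b (d (c (a e))))))))))))), t false 1 (b (c (d (b (a (c (a (f (a (b (d (c (a
  e))))))))))))), t true 1 (b (c (d (a (c (a (b (f (a (b (d (c (a e))))))))))))), t true 2 (b (f (c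
  (d (b (a (c (a (f (b (d (c (a e))))))))))))), t true 2 (b (f (c (d (c (b (f (b (a (c (d (c (a
  e))))))))))))), t true 1 (a (b (c (d (c (a (f (a (b (c (d (c (a e))))))))))))), t true 1 (b (c (d
  (c (a (b (f (a (b (c (d (c (a e))))))))))))), t true 1 (c (a (b (a (d (c (f (a (b (c (d (c (a
  e))))))))))))), t false 1 (a (b (a (c (d (c (f (a (b (c (d (c (a e))))))))))))), t false 1 (b (f
  (c (d (c (a (b (f (b (c (d (c (a e))))))))))))), t true 1 (b (a (f (c (d (c (a (b (f (c (d (c (a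
  e))))))))))))), t false 1 (c (d (f (b (a (c (a (b (a (f (d (c (a e))))))))))))), t false 1 (d (f
  (b (a (c (d (a (b (a (f (d (c (a e))))))))))))), t true 3 (b (c (d (f (b (a (c (b (a (f (d (c (a
  e))))))))))))), t false 2 (b (d (f (c (d (b (a (c (a (f (d (c (a e)))))))))))))]

def c56_2 : List Tm := [t true 2 (d (f (c (d (b (a (c (a (b (f (d (c (a e))))))))))))), t false 1 (d
  (f (b (c (d (b (a (c (b (f (d (c (a e))))))))))))), t true 1 (d (a (c (f (b (a (d (a (b (a (f (c
  (a e))))))))))))), t true 1 (d (b (a (c (f (b (d (a (b (a (f (c (a e))))))))))))), t true 1 (d (c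
  (f (b (a (c (d (a (b (a (f (c (a e))))))))))))), t true 1 (a (c (f (d (a (b (a (d (a (b (f (c (a
  e))))))))))))), t true 2 (c (f (d (a (c (b (a (d (a (b (f (c (a e))))))))))))), t true 1 (c (f (d
  (b (a (c (b (d (a (b (f (c (a e))))))))))))), t false 2 (f (a (d (c (a (b (a (c (a (b (a (d (a
  e))))))))))))), t true 1 (c (a (d (c (f (b (a (c (a (b (a (d (a e))))))))))))), t true 1 (b (a (d
  (c (b (f (b (c (a (b (a (d (a e))))))))))))), t true 2 (a (c (a (f (b (a (c (d (a (b (a (d (a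
  e))))))))))))), t false 1 (b (a (c (b (f (b (c (d (a (b (a (d (a e))))))))))))), t false 4 (b (c
  (a (d (b (f (b (a (c (b (a (d (a e))))))))))))), t true 2 (b (c (a (b (f (b (d (a (c (b (a (d (a
  e))))))))))))), t true 1 (a (d (b (c (b (a (f (b (c (b (a (d (a e))))))))))))), t false 1 (b (c (b
  (a (d (a (f (b (c (b (a (d (a e))))))))))))), t false 1 (a (b (c (b (d (a (f (b (c (b (a (d (a
  e))))))))))))), t true 4 (b (c (a (d (a (b (f (b (c (b (a (d (a e))))))))))))), t false 1 (b (a (d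
  (a (c (b (f (b (c (b (a (d (a e))))))))))))), t true 1 (c (b (a (d (a (c (f (b (c (b (a (d (a
  e))))))))))))), t true 1 (d (b (c (b (a (d (f (b (c (b (a (d (a e))))))))))))), t true 1 (b (c (f
  (b (a (d (a (f (c (b (a (d (a e))))))))))))), t false 1 (c (b (f (b (c (a (d (a (f (b (a (d (a
  e))))))))))))), t false 2 (b (f (c (a (d (a (c (b (f (b (a (d (a e))))))))))))), t true 1 (b (a (d
  (b (f (c (a (b (a (c (a (d (a e))))))))))))), t false 2 (a (b (a (f (c (a (b (d (a (c (a (d (a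
  e))))))))))))), t true 2 (b (f (c (b (a (d (a (f (b (c (a (d (a e))))))))))))), t true 2 (b (c (f
  (c (b (a (d (a (f (c (a (d (a e))))))))))))), t false 2 (c (f (c (b (a (d (a (b (f (c (a (d (a
  e))))))))))))), t true 1 (c (a (d (b (a (c (a (b (a (f (a (d (a e))))))))))))), t true 1 (c (b (a
  (d (b (c (a (b (a (f (a (d (a e))))))))))))), t false 1 (b (c (a (d (b (a (c (b (a (f (a (d (a
  e))))))))))))), t true 1 (b (a (d (c (a (b (a (c (a (f (a (d (a e))))))))))))), t true 2 (c (a (b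
  (a (c (a (b (d (a (f (a (d (a e))))))))))))), t true 2 (a (d (c (a (b (a (c (a (b (f (a (d (a
  e))))))))))))), t false 1 (b (c (b (a (d (a (b (c (b (f (a (d (a e))))))))))))), t true 2 (d (c (a
  (b (a (c (a (b (d (f (a (d (a e))))))))))))), t false 1 (c (f (c (b (a (d (b (f (c (a (b (d (a
  e))))))))))))), t true 1 (b (c (a (d (b (a (c (a (f (a (b (d (a e))))))))))))), t false 1 (b (c (a
  (d (a (c (a (b (f (a (b (d (a e))))))))))))), t true 1 (b (c (b (a (d (b (a (f (a (c (b (d (a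
  e))))))))))))), t false 1 (b (a (d (b (a (c (a (f (a (c (b (d (a e))))))))))))), t false 1 (c (b
  (a (d (b (a (c (f (a (c (b (d (a e))))))))))))), t false 1 (a (d (b (c (b (a (f (a (b (c (b (d (a
  e))))))))))))), t false 2 (b (c (b (a (d (a (f (a (b (c (b (d (a e))))))))))))), t true 1 (a (b (c
  (b (d (a (f (a (b (c (b (d (a e))))))))))))), t false 1 (a (d (a (b (c (b (f (a (b (c (b (d (a
  e))))))))))))), t false 2 (d (b (c (b (a (d (f (a (b (c (b (d (a e))))))))))))), t false 2 (d (b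
  (c (b (d (f (a (d (b (c (b (d (a e))))))))))))), t true 1 (d (f (a (d (b (c (b (f (b (c (b (d (a
  e))))))))))))), t true 1 (b (c (f (b (a (d (b (a (f (c (b (d (a e))))))))))))), t true 1 (c (f (b
  (c (a (d (b (a (f (c (b (d (a e))))))))))))), t false 1 (c (f (b (c (b (a (d (b (f (c (b (d (a
  e))))))))))))), t false 1 (c (b (f (b (c (a (d (b (a (f (b (d (a e))))))))))))), t false 2 (b (f
  (c (a (d (b (a (c (a (f (b (d (a e))))))))))))), t false 2 (b (f (c (a (d (c (b (f (b (a (c (d (a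
  e))))))))))))), t true 1 (b (c (b (a (d (c (b (a (f (a (c (d (a e))))))))))))), t false 1 (b (a (d
  (a (b (a (c (a (f (a (c (d (a e))))))))))))), t false 1 (c (b (a (d (a (b (a (c (f (a (c (d (a
  e))))))))))))), t false 1 (b (c (a (d (c (a (b (f (a (b (c (d (a e))))))))))))), t true 1 (b (f (c
  (b (a (d (c (a (f (b (c (d (a e))))))))))))), t false 1 (b (f (b (c (b (a (d (c (f (b (c (d (a
  e))))))))))))), t false 3 (c (f (b (a (d (c (a (b (a (f (c (d (a e))))))))))))), t true 1 (b (c (f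
  (b (a (d (c (b (a (f (c (d (a e))))))))))))), t true 1 (c (f (c (b (a (d (c (a (b (f (c (d (a
  e))))))))))))), t false 1 (c (f (b (c (b (a (d (c (b (f (c (d (a e))))))))))))), t true 3 (c (a (d
  (f (b (a (c (a (b (a (f (d (a e))))))))))))), t true 2 (c (b (a (d (f (b (c (a (b (a (f (d (a
  e))))))))))))), t true 2 (c (d (f (b (a (d (c (a (b (a (f (d (a e))))))))))))), t false 3 (b (c (a
  (d (f (b (a (c (b (a (f (d (a e))))))))))))), t true 2 (b (a (d (f (c (a (b (a (c (a (f (d (a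
  e))))))))))))), t true 2 (b (d (f (c (a (d (b (a (c (a (f (d (a e))))))))))))), t false 1 (d (f (c
  (a (d (b (a (c (a (b (f (d (a e))))))))))))), t false 1 (d (f (c (b (a (d (b (c (a (b (f (d (a
  e))))))))))))), t true 1 (d (f (b (c (a (d (b (a (c (b (f (d (a e))))))))))))), t true 1 (d (f (b
  (c (b (a (d (b (c (b (f (d (a e))))))))))))), t true 1 (b (c (b (d (f (a (d (b (c (b (f (d (a
  e))))))))))))), t false 1 (c (d (a (f (b (a (d (c (a (b (a (f (a e))))))))))))), t false 1 (b (c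
  (d (a (f (b (a (d (c (b (a (f (a e))))))))))))), t false 1 (b (d (a (f (c (a (d (b (a (c (a (f (a
  e))))))))))))), t false 1 (b (d (a (f (c (b (a (d (b (c (a (f (a e))))))))))))), t true 1 (b (a (f
  (c (d (a (b (a (d (c (a (f (a e))))))))))))), t true 1 (d (a (f (c (a (d (b (a (c (a (b (f (a
  e))))))))))))), t false 1 (d (c (a (f (c (d (b (a (c (a (b (f (a e))))))))))))), t false 2 (b (d
  (a (f (c (a (d (a (c (a (b (f (a e))))))))))))), t true 1 (d (a (f (c (b (a (d (b (c (a (b (f (a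
  e))))))))))))), t true 1 (d (b (a (f (c (b (d (b (c (a (b (f (a e))))))))))))), t true 1 (c (d (a
  (f (c (b (a (d (c (a (b (f (a e))))))))))))), t false 2 (c (a (f (d (a (c (b (a (d (a (b (f (a
  e))))))))))))), t false 1 (c (a (f (d (b (a (c (b (d (a (b (f (a e))))))))))))), t false 1 (d (a
  (f (b (c (a (d (b (a (c (b (f (a e))))))))))))), t false 2 (b (a (f (d (a (c (a (d (a (c (b (f (a
  e))))))))))))), t false 1 (d (a (f (b (c (b (a (d (b (c (b (f (a e))))))))))))), t true 1 (d (b (c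
  (b (a (f (a (d (b (c (b (f (a e))))))))))))), t false 2 (b (c (b (d (a (f (a (d (b (c (b (f (a
  e))))))))))))), t true 1 (c (d (a (f (b (c (b (a (d (c (b (f (a e))))))))))))), t true 1 (b (d (a
  (f (b (c (a (d (b (a (c (f (a e))))))))))))), t true 1 (b (a (f (d (b (c (b (d (a (b (c (f (a
  e))))))))))))), t true 1 (b (d (a (f (b (c (b (a (d (b (c (f (a e)))))))))))))]

def c56_3 : List Tm := [t false 1 (b (a (f (b (c (d (a (b (a (d (c (f (a e))))))))))))), t true 1 (a
  (d (a (f (a (d (c (a (b (a (c (a (b e))))))))))))), t false 1 (c (d (c (f (a (c (d (a (b (a (c (a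
  (b e))))))))))))), t true 1 (f (d (b (a (c (a (b (d (b (a (c (a (b e))))))))))))), t true 1 (d (f
  (d (a (c (a (f (d (b (a (c (a (b e))))))))))))), t false 1 (d (b (a (c (a (b (d (f (b (a (c (a (b
  e))))))))))))), t true 1 (a (c (b (d (a (f (b (a (d (a (c (a (b e))))))))))))), t true 1 (b (d (a
  (c (b (f (b (a (d (a (c (a (b e))))))))))))), t true 1 (c (b (d (a (c (f (b (a (d (a (c (a (b
  e))))))))))))), t true 1 (b (d (b (f (b (a (c (a (d (a (c (a (b e))))))))))))), t false 1 (a (b (d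
  (a (f (b (c (a (d (a (c (a (b e))))))))))))), t false 1 (b (d (a (b (f (b (c (a (d (a (c (a (b
  e))))))))))))), t false 1 (b (d (b (f (a (c (a (b (d (a (c (a (b e))))))))))))), t true 1 (a (c (b
  (d (b (a (f (b (d (a (c (a (b e))))))))))))), t false 1 (a (b (d (b (c (a (f (b (d (a (c (a (b
  e))))))))))))), t false 1 (b (d (a (c (a (b (f (b (d (a (c (a (b e))))))))))))), t true 1 (b (a (c
  (a (d (b (f (b (d (a (c (a (b e))))))))))))), t true 1 (c (b (d (b (a (c (f (b (d (a (c (a (b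
  e))))))))))))), t false 1 (c (a (b (d (b (c (f (b (d (a (c (a (b e))))))))))))), t true 1 (d (b (a
  (c (a (d (f (b (d (a (c (a (b e))))))))))))), t true 1 (b (d (c (b (f (b (a (c (d (a (c (a (b
  e))))))))))))), t true 1 (c (b (d (c (f (b (a (c (d (a (c (a (b e))))))))))))), t false 1 (a (b (d
  (c (a (f (b (c (d (a (c (a (b e))))))))))))), t false 1 (b (d (c (a (b (f (b (c (d (a (c (a (b
  e))))))))))))), t false 1 (c (a (b (d (c (f (b (c (d (a (c (a (b e))))))))))))), t true 1 (d (f (b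
  (d (a (c (a (f (d (a (c (a (b e))))))))))))), t false 1 (f (b (d (a (c (b (a (d (a (b (c (a (b
  e))))))))))))), t false 1 (b (d (b (f (a (c (b (d (a (b (c (a (b e))))))))))))), t false 1 (b (d
  (c (b (f (a (c (d (a (b (c (a (b e))))))))))))), t false 1 (c (b (d (c (f (a (c (d (a (b (c (a (b
  e))))))))))))), t false 1 (a (b (a (f (d (b (c (b (d (b (c (a (b e))))))))))))), t true 1 (d (f (d
  (a (c (b (a (f (d (b (c (a (b e))))))))))))), t false 2 (d (a (c (a (d (a (b (a (f (b (c (a (b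
  e))))))))))))), t true 3 (d (a (b (a (d (b (c (b (f (b (c (a (b e))))))))))))), t true 3 (c (d (a
  (b (a (d (b (c (f (b (c (a (b e))))))))))))), t false 1 (c (d (c (f (a (c (a (b (a (d (c (a (b
  e))))))))))))), t true 4 (c (d (a (c (a (b (a (f (b (d (c (a (b e))))))))))))), t true 2 (b (c (d
  (b (a (c (a (f (b (d (c (a (b e))))))))))))), t false 1 (a (c (a (b (a (d (b (f (b (d (c (a (b
  e))))))))))))), t false 1 (d (a (c (a (b (a (d (f (b (d (c (a (b e))))))))))))), t false 1 (a (c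
  (d (c (a (f (b (a (c (d (c (a (b e))))))))))))), t true 1 (c (d (c (a (b (a (f (b (c (d (c (a (b
  e))))))))))))), t false 1 (a (c (d (c (b (a (f (b (c (d (c (a (b e))))))))))))), t true 1 (a (b (c
  (d (c (a (f (b (c (d (c (a (b e))))))))))))), t true 1 (b (c (d (c (a (b (f (b (c (d (c (a (b
  e))))))))))))), t false 1 (b (a (c (d (c (b (f (b (c (d (c (a (b e))))))))))))), t true 1 (c (a (b
  (a (d (c (f (b (c (d (c (a (b e))))))))))))), t false 1 (a (b (a (c (d (c (f (b (c (d (c (a (b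
  e))))))))))))), t false 1 (a (f (c (d (c (b (a (f (c (d (c (a (b e))))))))))))), t false 1 (d (f
  (a (c (d (a (b (a (f (d (c (a (b e))))))))))))), t true 3 (d (f (c (d (a (c (b (a (f (d (c (a (b
  e))))))))))))), t false 2 (d (f (b (c (d (a (c (a (f (d (c (a (b e))))))))))))), t true 1 (d (a (c
  (f (a (d (a (b (a (f (c (a (b e))))))))))))), t true 1 (d (c (f (a (c (d (a (b (a (f (c (a (b
  e))))))))))))), t true 1 (a (d (c (a (f (a (c (a (b (a (d (a (b e))))))))))))), t true 1 (c (a (d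
  (c (f (a (c (a (b (a (d (a (b e))))))))))))), t true 1 (c (f (c (a (d (a (f (c (b (a (d (a (b
  e))))))))))))), t false 1 (a (d (b (c (b (a (f (b (c (a (d (a (b e))))))))))))), t true 1 (b (c (b
  (a (d (a (f (b (c (a (d (a (b e))))))))))))), t true 1 (a (b (c (b (d (a (f (b (c (a (d (a (b
  e))))))))))))), t true 1 (b (c (a (d (a (b (f (b (c (a (d (a (b e))))))))))))), t true 3 (a (d (a
  (b (c (b (f (b (c (a (d (a (b e))))))))))))), t true 3 (c (a (d (a (b (c (f (b (c (a (d (a (b
  e))))))))))))), t false 1 (d (b (c (b (a (d (f (b (c (a (d (a (b e))))))))))))), t false 2 (c (f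
  (b (c (a (d (a (f (c (a (d (a (b e))))))))))))), t true 1 (a (d (b (c (a (f (a (c (a (b (d (a (b
  e))))))))))))), t true 2 (c (f (c (a (d (b (a (f (c (b (d (a (b e))))))))))))), t false 3 (c (a (d
  (a (c (a (b (a (f (b (d (a (b e))))))))))))), t false 2 (b (c (a (d (b (a (c (a (f (b (d (a (b
  e))))))))))))), t false 1 (a (d (c (a (b (a (c (b (f (b (d (a (b e))))))))))))), t true 1 (c (a (b
  (a (c (b (d (b (f (b (d (a (b e))))))))))))), t true 1 (d (c (a (b (a (c (b (d (f (b (d (a (b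
  e))))))))))))), t false 1 (c (a (d (c (a (b (a (f (b (c (d (a (b e))))))))))))), t true 2 (b (c (b
  (a (d (c (a (f (b (c (d (a (b e))))))))))))), t false 3 (a (d (a (b (a (c (b (f (b (c (d (a (b
  e))))))))))))), t false 3 (c (a (d (a (b (a (c (f (b (c (d (a (b e))))))))))))), t true 2 (c (f (c
  (a (d (c (b (a (f (c (d (a (b e))))))))))))), t false 2 (c (f (b (c (a (d (c (a (f (c (d (a (b
  e))))))))))))), t true 2 (c (a (d (f (a (c (a (b (a (f (d (a (b e))))))))))))), t true 2 (c (d (f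
  (a (d (c (a (b (a (f (d (a (b e))))))))))))), t false 3 (d (f (c (a (d (a (c (b (a (f (d (a (b
  e))))))))))))), t true 2 (d (f (b (c (a (d (a (c (a (f (d (a (b e))))))))))))), t true 2 (d (a (f
  (c (a (d (a (c (b (a (f (a (b e))))))))))))), t true 1 (a (f (d (a (c (a (d (b (a (c (f (a (b
  e))))))))))))), t true 1 (b (a (f (d (b (c (b (d (b (c (f (a (b e))))))))))))), t false 1 (b (d (b
  (f (a (b (d (c (a (b (a (c (b e))))))))))))), t false 3 (f (b (c (d (a (b (a (d (a (b (a (c (b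
  e))))))))))))), t true 1 (b (c (d (b (f (a (b (d (a (b (a (c (b e))))))))))))), t true 1 (c (d (b
  (c (f (a (b (d (a (b (a (c (b e))))))))))))), t true 1 (c (d (c (f (a (b (c (d (a (b (a (c (b
  e))))))))))))), t false 1 (d (f (d (a (b (c (a (f (d (b (a (c (b e))))))))))))), t false 1 (d (b
  (c (b (d (a (b (a (f (b (a (c (b e))))))))))))), t false 1 (b (d (a (c (a (d (c (b (f (b (a (c (b
  e))))))))))))), t true 1 (a (d (b (c (b (a (f (b (a (d (a (c (b e))))))))))))), t false 1 (b (c (b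
  (a (d (a (f (b (a (d (a (c (b e))))))))))))), t false 1 (a (b (c (b (d (a (f (b (a (d (a (c (b
  e))))))))))))), t false 1 (b (c (a (d (a (b (f (b (a (d (a (c (b e))))))))))))), t true 1 (b (a (d
  (a (c (b (f (b (a (d (a (c (b e))))))))))))), t false 3 (a (d (a (b (c (b (f (b (a (d (a (c (b
  e))))))))))))), t true 1 (c (b (a (d (a (c (f (b (a (d (a (c (b e)))))))))))))]

def c56_4 : List Tm := [t false 3 (c (a (d (a (b (c (f (b (a (d (a (c (b e))))))))))))), t true 1 (d
  (b (c (b (a (d (f (b (a (d (a (c (b e))))))))))))), t false 3 (c (a (d (a (c (f (b (c (a (d (a (c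
  (b e))))))))))))), t true 2 (c (f (b (c (a (d (a (f (a (d (a (c (b e))))))))))))), t false 1 (a (d
  (b (a (f (a (c (a (b (d (a (c (b e))))))))))))), t false 1 (b (a (d (b (a (c (a (f (b (d (a (c (b
  e))))))))))))), t true 1 (a (d (a (b (c (a (b (f (b (d (a (c (b e))))))))))))), t false 1 (a (b (c
  (a (b (d (b (f (b (d (a (c (b e))))))))))))), t false 1 (d (a (b (c (a (b (d (f (b (d (a (c (b
  e))))))))))))), t true 1 (d (f (b (a (d (a (c (a (f (d (a (c (b e))))))))))))), t false 1 (a (f (d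
  (b (c (b (d (b (a (f (a (c (b e))))))))))))), t true 1 (a (f (d (a (c (a (d (b (c (f (a (c (b
  e))))))))))))), t true 1 (a (d (a (b (c (b (f (a (d (a (b (c (b e))))))))))))), t false 1 (d (f (a
  (d (b (c (b (f (d (a (b (c (b e))))))))))))), t true 1 (a (b (a (f (d (a (c (b (a (d (b (c (b
  e))))))))))))), t true 1 (a (b (a (f (d (b (a (c (b (d (b (c (b e))))))))))))), t false 1 (d (f (d
  (a (b (c (b (a (f (d (b (c (b e))))))))))))), t true 1 (a (d (f (d (b (c (b (a (f (d (b (c (b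
  e))))))))))))), t false 1 (d (b (c (a (b (d (a (b (a (f (b (c (b e))))))))))))), t false 3 (b (c
  (d (a (b (a (d (b (a (f (b (c (b e))))))))))))), t true 1 (d (a (c (b (a (d (a (c (a (f (b (c (b
  e))))))))))))), t false 1 (d (a (c (a (d (a (b (c (a (f (b (c (b e))))))))))))), t false 1 (b (d
  (a (c (b (a (d (c (a (f (b (c (b e))))))))))))), t false 1 (d (a (c (a (d (b (c (a (b (f (b (c (b
  e))))))))))))), t true 1 (b (d (a (c (a (d (c (a (b (f (b (c (b e))))))))))))), t false 1 (a (d (b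
  (c (a (b (d (a (b (f (b (c (b e))))))))))))), t false 3 (d (a (b (a (d (b (a (c (b (f (b (c (b
  e))))))))))))), t false 3 (c (d (a (b (a (d (b (a (c (f (b (c (b e))))))))))))), t true 1 (c (d (c
  (f (a (b (c (a (b (a (d (c (b e))))))))))))), t false 1 (a (b (a (f (a (c (d (a (b (a (d (c (b
  e))))))))))))), t true 1 (c (d (b (c (a (b (a (f (b (a (d (c (b e))))))))))))), t true 1 (a (b (a
  (c (d (a (c (f (b (a (d (c (b e))))))))))))), t true 1 (a (c (d (b (a (f (b (a (c (a (d (c (b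
  e))))))))))))), t true 1 (a (f (b (a (c (d (a (c (f (a (d (c (b e))))))))))))), t false 1 (c (d (a
  (b (c (a (b (a (f (b (d (c (b e))))))))))))), t false 1 (b (a (c (d (b (a (c (a (f (b (d (c (b
  e))))))))))))), t true 1 (a (b (c (a (b (a (d (b (f (b (d (c (b e))))))))))))), t true 1 (d (a (b
  (c (a (b (a (d (f (b (d (c (b e))))))))))))), t true 1 (c (d (c (a (b (a (f (b (a (c (d (c (b
  e))))))))))))), t true 1 (a (c (d (c (b (a (f (b (a (c (d (c (b e))))))))))))), t true 1 (b (a (c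
  (d (c (b (f (b (a (c (d (c (b e))))))))))))), t false 1 (c (a (b (a (d (c (f (b (a (c (d (c (b
  e))))))))))))), t true 1 (a (b (a (c (d (c (f (b (a (c (d (c (b e))))))))))))), t true 1 (a (f (c
  (d (c (b (a (f (a (c (d (c (b e))))))))))))), t true 1 (d (f (c (d (a (b (c (b (a (f (d (c (b
  e))))))))))))), t true 1 (a (d (f (c (d (b (c (b (a (f (d (c (b e))))))))))))), t true 1 (d (f (b
  (a (c (d (a (c (a (f (d (c (b e))))))))))))), t true 1 (a (c (f (d (b (c (b (d (b (a (f (c (b
  e))))))))))))), t false 1 (f (b (d (c (a (b (a (c (a (b (a (d (b e))))))))))))), t false 1 (a (b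
  (d (c (a (f (a (c (a (b (a (d (b e))))))))))))), t false 1 (c (a (b (d (c (f (a (c (a (b (a (d (b
  e))))))))))))), t false 1 (c (b (d (c (f (a (b (c (a (b (a (d (b e))))))))))))), t false 1 (b (c
  (a (b (f (a (c (d (a (b (a (d (b e))))))))))))), t false 1 (b (c (b (f (a (b (c (d (a (b (a (d (b
  e))))))))))))), t true 1 (c (f (c (a (b (d (a (f (c (b (a (d (b e))))))))))))), t false 1 (c (b (d
  (b (c (a (b (a (f (b (a (d (b e))))))))))))), t false 1 (a (c (a (b (d (a (c (b (f (b (a (d (b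
  e))))))))))))), t false 1 (a (b (a (c (a (d (a (c (f (b (a (d (b e))))))))))))), t false 1 (a (c
  (b (d (b (a (f (b (a (c (a (d (b e))))))))))))), t true 1 (b (a (c (a (d (b (f (b (a (c (a (d (b
  e))))))))))))), t false 1 (a (c (a (b (d (b (f (b (a (c (a (d (b e))))))))))))), t false 1 (d (a
  (c (a (d (f (b (d (a (c (a (d (b e))))))))))))), t true 1 (a (c (a (b (d (a (b (f (b (c (a (d (b
  e))))))))))))), t false 3 (a (b (d (a (b (c (b (f (b (c (a (d (b e))))))))))))), t false 3 (c (a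
  (b (d (a (b (c (f (b (c (a (d (b e))))))))))))), t true 1 (c (f (a (c (b (d (a (b (f (c (a (d (b
  e))))))))))))), t false 1 (c (a (f (a (c (b (d (a (b (f (a (d (b e))))))))))))), t false 1 (a (f
  (c (a (b (d (a (c (b (f (a (d (b e))))))))))))), t false 1 (a (f (b (a (c (a (d (a (c (f (a (d (b
  e))))))))))))), t true 1 (a (f (a (c (a (b (d (a (c (f (a (d (b e))))))))))))), t true 2 (a (c (b
  (d (b (a (f (a (c (a (b (d (b e))))))))))))), t false 1 (a (b (d (b (c (a (f (a (c (a (b (d (b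
  e))))))))))))), t false 1 (b (a (c (a (d (b (f (a (c (a (b (d (b e))))))))))))), t true 1 (a (c (a
  (b (d (b (f (a (c (a (b (d (b e))))))))))))), t false 2 (a (f (c (b (d (b (a (f (a (c (b (d (b
  e))))))))))))), t true 1 (c (b (d (a (b (c (a (b (a (f (b (d (b e))))))))))))), t false 1 (b (d (c
  (a (b (a (c (b (a (f (b (d (b e))))))))))))), t true 2 (b (a (c (a (d (b (a (c (a (f (b (d (b
  e))))))))))))), t false 2 (a (c (a (b (d (b (a (c (a (f (b (d (b e))))))))))))), t true 1 (d (b (a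
  (c (a (d (a (c (a (f (b (d (b e))))))))))))), t true 1 (a (b (d (c (a (b (a (c (b (f (b (d (b
  e))))))))))))), t false 1 (c (a (b (a (c (b (a (d (b (f (b (d (b e))))))))))))), t false 1 (d (c
  (a (b (a (c (b (a (d (f (b (d (b e))))))))))))), t false 1 (c (b (d (c (a (b (a (f (b (a (c (d (b
  e))))))))))))), t false 1 (a (c (b (d (c (b (a (f (b (a (c (d (b e))))))))))))), t false 2 (a (f
  (c (b (d (c (b (a (f (a (c (d (b e))))))))))))), t false 1 (c (a (b (d (c (a (b (a (f (b (c (d (b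
  e))))))))))))), t true 3 (a (b (d (a (b (a (c (b (f (b (c (d (b e))))))))))))), t true 3 (c (a (b
  (d (a (b (a (c (f (b (c (d (b e))))))))))))), t true 1 (a (c (f (c (b (d (c (b (a (f (c (d (b
  e))))))))))))), t false 2 (d (f (c (a (b (d (a (c (b (a (f (d (b e))))))))))))), t false 1 (d (f
  (c (b (d (a (b (c (b (a (f (d (b e))))))))))))), t false 1 (d (f (b (a (c (a (d (a (c (a (f (d (b
  e))))))))))))), t true 1 (d (f (a (c (a (b (d (a (c (a (f (d (b e))))))))))))), t false 2 (c (d (a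
  (b (f (a (d (c (a (b (a (f (b e))))))))))))), t true 3 (d (a (b (f (c (a (d (a (c (b (a (f (b
  e))))))))))))), t true 2 (d (b (f (c (a (b (d (a (c (b (a (f (b e))))))))))))), t true 1 (d (c (a
  (b (f (c (d (a (c (b (a (f (b e))))))))))))), t true 1 (d (b (f (c (b (d (a (b (c (b (a (f (b
  e))))))))))))), t false 2 (c (d (a (b (f (c (a (d (c (b (a (f (b e)))))))))))))]

def c56_5 : List Tm := [t false 1 (d (a (c (a (d (b (f (b (a (c (a (f (b e))))))))))))), t true 1 (d
  (a (c (b (f (b (a (d (a (c (a (f (b e))))))))))))), t true 1 (d (b (f (b (a (c (a (d (a (c (a (f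
  (b e))))))))))))), t false 3 (d (a (b (f (b (c (a (d (a (c (a (f (b e))))))))))))), t false 1 (d
  (b (f (a (c (a (b (d (a (c (a (f (b e))))))))))))), t true 1 (d (a (c (a (b (f (b (d (a (c (a (f
  (b e))))))))))))), t false 1 (f (d (a (c (a (d (b (f (a (c (a (f (b e))))))))))))), t true 2 (c (d
  (a (b (f (b (c (a (d (c (a (f (b e))))))))))))), t true 1 (a (d (b (f (c (a (b (d (a (c (b (f (b
  e))))))))))))), t false 1 (a (b (f (d (a (c (a (d (b (a (c (f (b e))))))))))))), t true 1 (a (d (b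
  (f (b (a (c (a (d (a (c (f (b e))))))))))))), t false 1 (a (d (b (f (a (c (a (b (d (a (c (f (b
  e))))))))))))), t true 1 (f (d (c (a (b (a (c (d (c (a (b (a (c e))))))))))))), t false 1 (d (c (a
  (b (a (c (d (f (c (a (b (a (c e))))))))))))), t true 1 (c (d (c (f (c (a (b (a (d (a (b (a (c
  e))))))))))))), t false 1 (a (c (d (a (f (c (b (a (d (a (b (a (c e))))))))))))), t false 1 (c (d
  (a (c (f (c (b (a (d (a (b (a (c e))))))))))))), t true 1 (a (b (c (d (a (f (c (a (d (a (b (a (c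
  e))))))))))))), t true 1 (b (c (d (a (b (f (c (a (d (a (b (a (c e))))))))))))), t true 1 (c (d (a
  (b (c (f (c (a (d (a (b (a (c e))))))))))))), t true 1 (b (c (d (b (f (c (a (b (d (a (b (a (c
  e))))))))))))), t true 1 (c (d (b (c (f (c (a (b (d (a (b (a (c e))))))))))))), t false 1 (a (c (d
  (b (a (f (c (b (d (a (b (a (c e))))))))))))), t false 1 (b (a (c (d (b (f (c (b (d (a (b (a (c
  e))))))))))))), t false 1 (c (d (b (a (c (f (c (b (d (a (b (a (c e))))))))))))), t false 1 (c (d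
  (c (f (a (b (a (c (d (a (b (a (c e))))))))))))), t true 1 (c (d (c (a (b (a (f (c (d (a (b (a (c
  e))))))))))))), t false 1 (a (c (d (c (b (a (f (c (d (a (b (a (c e))))))))))))), t true 1 (a (b (c
  (d (c (a (f (c (d (a (b (a (c e))))))))))))), t true 1 (b (c (d (c (a (b (f (c (d (a (b (a (c
  e))))))))))))), t false 1 (b (a (c (d (c (b (f (c (d (a (b (a (c e))))))))))))), t false 1 (c (d
  (a (b (a (c (f (c (d (a (b (a (c e))))))))))))), t true 1 (c (a (b (a (d (c (f (c (d (a (b (a (c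
  e))))))))))))), t true 1 (d (c (a (b (a (d (f (c (d (a (b (a (c e))))))))))))), t true 1 (b (d (a
  (c (b (f (c (b (a (d (b (a (c e))))))))))))), t false 1 (a (b (d (b (a (f (c (a (b (d (b (a (c
  e))))))))))))), t true 1 (a (c (b (d (b (a (f (c (b (d (b (a (c e))))))))))))), t true 1 (b (d (b
  (a (c (a (f (c (b (d (b (a (c e))))))))))))), t false 1 (a (b (d (b (c (a (f (c (b (d (b (a (c
  e))))))))))))), t false 1 (b (d (a (c (a (b (f (c (b (d (b (a (c e))))))))))))), t true 1 (b (a (c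
  (a (d (b (f (c (b (d (b (a (c e))))))))))))), t false 1 (a (c (a (b (d (b (f (c (b (d (b (a (c
  e))))))))))))), t true 1 (c (b (d (b (a (c (f (c (b (d (b (a (c e))))))))))))), t false 1 (c (a (b
  (d (b (c (f (c (b (d (b (a (c e))))))))))))), t false 1 (c (b (d (c (a (b (a (f (c (d (b (a (c
  e))))))))))))), t false 1 (a (b (a (c (a (d (c (f (c (d (b (a (c e))))))))))))), t false 1 (d (a
  (b (a (c (a (d (f (c (d (b (a (c e))))))))))))), t true 1 (d (f (c (b (d (a (b (a (f (d (b (a (c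
  e))))))))))))), t false 1 (d (f (a (b (d (a (c (a (f (d (b (a (c e))))))))))))), t true 1 (d (a (b
  (f (a (d (a (c (a (f (b (a (c e))))))))))))), t true 1 (d (b (f (a (b (d (a (c (a (f (b (a (c
  e))))))))))))), t true 1 (b (f (d (a (c (a (d (c (b (f (b (a (c e))))))))))))), t true 1 (a (d (b
  (c (b (a (f (c (b (a (d (a (c e))))))))))))), t false 1 (a (b (c (b (d (a (f (c (b (a (d (a (c
  e))))))))))))), t true 2 (b (c (a (d (a (b (f (c (b (a (d (a (c e))))))))))))), t false 1 (a (d (a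
  (b (c (b (f (c (b (a (d (a (c e))))))))))))), t true 1 (c (b (a (d (a (c (f (c (b (a (d (a (c
  e))))))))))))), t true 1 (d (b (c (b (a (d (f (c (b (a (d (a (c e))))))))))))), t true 1 (b (f (c
  (b (a (d (a (f (b (a (d (a (c e))))))))))))), t true 2 (b (c (a (d (a (c (b (f (c (a (d (a (c
  e))))))))))))), t false 2 (b (c (f (c (b (a (d (a (f (a (d (a (c e))))))))))))), t true 1 (b (c (b
  (a (d (b (a (f (c (b (d (a (c e))))))))))))), t false 1 (b (a (d (b (a (c (a (f (c (b (d (a (c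
  e))))))))))))), t true 1 (a (d (a (b (c (a (b (f (c (b (d (a (c e))))))))))))), t true 1 (b (f (c
  (b (a (d (b (a (f (b (d (a (c e))))))))))))), t true 1 (c (b (a (d (c (a (b (a (f (c (d (a (c
  e))))))))))))), t false 1 (b (a (d (a (b (a (c (a (f (c (d (a (c e))))))))))))), t true 1 (a (b (a
  (c (a (b (d (c (f (c (d (a (c e))))))))))))), t true 1 (d (a (b (a (c (a (b (d (f (c (d (a (c
  e))))))))))))), t false 1 (d (f (c (b (a (d (a (b (a (f (d (a (c e))))))))))))), t false 1 (d (f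
  (b (a (d (a (b (c (a (f (d (a (c e))))))))))))), t true 1 (d (a (f (c (b (a (d (a (b (a (f (a (c
  e))))))))))))), t false 1 (b (a (f (d (a (c (a (d (c (b (f (a (c e))))))))))))), t false 1 (b (a
  (d (a (b (f (c (b (a (d (a (b (c e))))))))))))), t false 1 (a (d (b (c (b (a (f (c (a (d (a (b (c
  e))))))))))))), t false 1 (b (c (b (a (d (a (f (c (a (d (a (b (c e))))))))))))), t true 1 (a (b (c
  (b (d (a (f (c (a (d (a (b (c e))))))))))))), t true 1 (b (c (a (d (a (b (f (c (a (d (a (b (c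
  e))))))))))))), t false 1 (b (a (d (a (c (b (f (c (a (d (a (b (c e))))))))))))), t true 1 (a (d (a
  (b (c (b (f (c (a (d (a (b (c e))))))))))))), t false 1 (c (b (a (d (a (c (f (c (a (d (a (b (c
  e))))))))))))), t true 1 (c (a (d (a (b (c (f (c (a (d (a (b (c e))))))))))))), t false 1 (d (b (c
  (b (a (d (f (c (a (d (a (b (c e))))))))))))), t true 1 (a (b (a (c (b (d (c (f (c (d (a (b (c
  e))))))))))))), t true 1 (d (a (b (a (c (b (d (f (c (d (a (b (c e))))))))))))), t false 1 (a (f (d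
  (b (c (b (d (c (a (f (a (b (c e))))))))))))), t true 1 (a (c (a (b (d (a (b (f (c (a (d (b (c
  e))))))))))))), t true 1 (a (f (b (d (b (c (b (a (f (a (d (b (c e))))))))))))), t true 1 (a (f (c
  (a (b (d (a (b (f (a (d (b (c e))))))))))))), t true 1 (a (c (b (d (b (a (f (c (a (b (d (b (c
  e))))))))))))), t false 1 (b (a (c (a (d (b (f (c (a (b (d (b (c e))))))))))))), t true 1 (a (c (a
  (b (d (b (f (c (a (b (d (b (c e))))))))))))), t true 1 (c (a (b (d (b (c (f (c (a (b (d (b (c
  e))))))))))))), t true 1 (a (f (c (b (d (b (a (f (a (b (d (b (c e))))))))))))), t false 1 (a (b (a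
  (c (b (a (d (c (f (c (d (b (c e))))))))))))), t false 1 (d (a (b (a (c (b (a (d (f (c (d (b (c
  e))))))))))))), t false 1 (d (f (a (b (d (a (c (b (a (f (d (b (c e))))))))))))), t false 1 (d (f
  (b (d (a (b (c (b (a (f (d (b (c e))))))))))))), t true 1 (a (d (f (b (d (b (c (b (a (f (d (b (c
  e))))))))))))), t true 1 (d (a (b (f (a (d (a (c (b (a (f (b (c e)))))))))))))]

def c56_6 : List Tm := [t true 1 (d (b (f (a (b (d (a (c (b (a (f (b (c e))))))))))))), t true 1 (a
  (b (f (d (b (c (b (d (c (a (f (b (c e))))))))))))), t false 1 (f (c (d (c (a (b (a (c (a (b (a (d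
  (c e))))))))))))), t true 1 (c (a (b (a (d (c (f (c (a (b (a (d (c e))))))))))))), t false 1 (a (b
  (a (c (d (c (f (c (a (b (a (d (c e))))))))))))), t false 1 (d (a (b (a (d (f (c (d (a (b (a (d (c
  e))))))))))))), t false 1 (b (a (c (d (a (c (b (f (c (b (a (d (c e))))))))))))), t true 1 (a (c (d
  (a (b (c (b (f (c (b (a (d (c e))))))))))))), t true 1 (b (f (a (c (d (a (c (b (f (b (a (d (c
  e))))))))))))), t false 1 (b (f (b (a (c (d (a (f (b (c (a (d (c e))))))))))))), t false 1 (a (f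
  (b (c (d (b (c (b (a (f (a (d (c e))))))))))))), t false 1 (b (a (f (a (c (d (a (c (b (f (a (d (c
  e))))))))))))), t true 1 (c (d (a (c (a (b (a (f (c (a (b (d (c e))))))))))))), t true 1 (a (f (b
  (c (d (b (c (a (f (a (b (d (c e))))))))))))), t true 1 (b (a (c (d (a (c (a (b (f (c (b (d (c
  e))))))))))))), t false 1 (a (c (d (a (b (c (a (b (f (c (b (d (c e))))))))))))), t true 1 (b (f (a
  (c (d (b (a (c (a (f (b (d (c e))))))))))))), t false 1 (c (a (b (a (d (c (f (a (b (a (c (d (c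
  e))))))))))))), t true 1 (a (b (a (c (d (c (f (a (b (a (c (d (c e))))))))))))), t true 1 (b (f (c
  (d (c (a (b (f (b (a (c (d (c e))))))))))))), t false 1 (b (a (f (c (d (c (a (b (f (a (c (d (c
  e))))))))))))), t false 1 (a (b (f (c (d (c (b (a (f (b (c (d (c e))))))))))))), t false 1 (b (f
  (b (a (c (d (c (a (f (b (c (d (c e))))))))))))), t false 1 (c (d (a (b (a (c (a (b (a (f (c (d (c
  e))))))))))))), t true 1 (a (b (a (c (d (c (a (b (a (f (c (d (c e))))))))))))), t true 1 (b (a (c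
  (d (a (b (a (c (a (f (c (d (c e))))))))))))), t false 1 (a (b (a (c (a (b (a (d (c (f (c (d (c
  e))))))))))))), t false 1 (d (a (b (a (c (a (b (a (d (f (c (d (c e))))))))))))), t true 1 (b (c (d
  (f (a (b (a (c (b (a (f (d (c e))))))))))))), t true 1 (a (d (f (b (c (d (b (c (b (a (f (d (c
  e))))))))))))), t false 1 (b (a (c (d (f (a (b (a (c (a (f (d (c e))))))))))))), t false 1 (b (d
  (f (a (c (d (b (a (c (a (f (d (c e))))))))))))), t true 1 (d (b (c (f (b (d (a (b (c (b (a (f (c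
  e))))))))))))), t false 1 (a (d (b (c (f (b (d (b (c (b (a (f (c e))))))))))))), t false 1 (b (d
  (a (c (f (a (d (b (a (c (a (f (c e))))))))))))), t true 1 (d (a (c (f (b (a (d (a (b (c (a (f (c
  e))))))))))))), t false 1 (b (d (a (c (f (b (a (d (b (c (a (f (c e))))))))))))), t false 1 (a (d
  (b (c (f (c (a (b (d (a (b (f (c e))))))))))))), t false 1 (a (c (d (c (b (a (f (d (c (a (b (a (d
  e))))))))))))), t true 1 (a (b (c (d (c (a (f (d (c (a (b (a (d e))))))))))))), t true 1 (b (c (d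
  (c (a (b (f (d (c (a (b (a (d e))))))))))))), t false 1 (b (a (c (d (c (b (f (d (c (a (b (a (d
  e))))))))))))), t true 1 (c (a (b (a (d (c (f (d (c (a (b (a (d e))))))))))))), t false 1 (a (b (a
  (c (d (c (f (d (c (a (b (a (d e))))))))))))), t true 1 (d (c (a (b (a (d (f (d (c (a (b (a (d
  e))))))))))))), t false 1 (c (f (d (c (a (b (a (f (c (a (b (a (d e))))))))))))), t true 1 (a (d (b
  (c (b (a (f (d (b (c (b (a (d e))))))))))))), t false 1 (a (b (c (b (d (a (f (d (b (c (b (a (d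
  e))))))))))))), t true 1 (d (b (c (b (a (d (f (d (b (c (b (a (d e))))))))))))), t true 1 (a (c (b
  (d (b (a (f (d (b (a (c (a (d e))))))))))))), t true 1 (b (d (b (a (c (a (f (d (b (a (c (a (d
  e))))))))))))), t false 1 (a (b (d (b (c (a (f (d (b (a (c (a (d e))))))))))))), t true 1 (b (a (c
  (a (d (b (f (d (b (a (c (a (d e))))))))))))), t false 1 (a (c (a (b (d (b (f (d (b (a (c (a (d
  e))))))))))))), t true 1 (c (b (d (b (a (c (f (d (b (a (c (a (d e))))))))))))), t false 1 (c (a (b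
  (d (b (c (f (d (b (a (c (a (d e))))))))))))), t true 1 (d (b (a (c (a (d (f (d (b (a (c (a (d
  e))))))))))))), t true 1 (a (f (b (c (b (d (b (c (b (a (f (a (d e))))))))))))), t true 1 (a (d (a
  (f (d (c (a (b (a (c (a (b (d e))))))))))))), t false 1 (c (f (d (a (c (a (b (a (f (c (a (b (d
  e))))))))))))), t false 1 (a (f (b (c (b (d (b (c (a (f (a (b (d e))))))))))))), t true 1 (a (d (b
  (c (b (d (a (f (d (b (c (b (d e))))))))))))), t false 1 (a (d (f (d (b (c (b (a (f (b (c (b (d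
  e))))))))))))), t true 1 (a (c (f (b (c (b (d (b (a (f (c (b (d e))))))))))))), t true 1 (c (a (b
  (f (d (a (c (a (b (a (f (b (d e))))))))))))), t false 1 (a (f (b (c (b (d (c (a (f (a (b (c (d
  e))))))))))))), t true 1 (a (b (f (b (c (b (d (c (a (f (b (c (d e))))))))))))), t false 1 (a (b (a
  (c (f (d (c (a (b (a (f (c (d e))))))))))))), t true 1 (a (c (f (b (c (b (d (c (b (a (f (c (d
  e))))))))))))), t false 1 (a (d (f (b (c (b (d (b (c (b (a (f (d e))))))))))))), t false 1 (a (b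
  (c (b (d (f (d (b (c (b (a (f (d e))))))))))))), t true 1 (b (f (d (a (c (a (d (f (b (a (c (a (f
  e)))))))))))))]

def c56 : List (List Tm) := [c56_0, c56_1, c56_2, c56_3, c56_4, c56_5, c56_6]

def Pw : List Tm := [t false 1 (a (b (a (f (a (b (a (c (d (c (f (c (d (c e)))))))))))))), t false 1
  (a (b (c (d (c (a (f (a (b (a (c (d (c (f e)))))))))))))), t true 1 (a (b (c (d (c (f (a (b (a (c
  (d (c (f (b e)))))))))))))), t false 1 (a (b (c (d (f (a (b (a (c (d (c (f (d (b e)))))))))))))),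
  t true 1 (a (c (d (c (b (a (f (a (b (a (c (d (c (f e)))))))))))))), t false 1 (a (c (d (c (f (a (b
  (a (c (d (c (f (a (b e)))))))))))))), t true 1 (a (c (d (f (a (b (a (c (d (c (f (d (a (b
  e)))))))))))))), t true 1 (b (a (c (d (c (b (f (a (b (a (c (d (c (f e)))))))))))))), t false 1 (b
  (a (c (d (c (f (a (b (a (c (d (c (f (a e)))))))))))))), t true 1 (b (a (c (d (f (a (b (a (c (d (c
  (f (d (a e)))))))))))))), t false 1 (b (c (d (c (a (b (f (a (b (a (c (d (c (f e)))))))))))))), t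
  true 1 (b (c (d (c (f (a (b (a (c (d (c (f (b (a e)))))))))))))), t false 1 (b (c (d (f (a (b (a
  (c (d (c (f (d (b (a e)))))))))))))), t false 1 (c (a (b (a (f (a (b (a (c (d (c (f (c (d
  e)))))))))))))), t true 1 (c (d (a (b (a (f (a (b (a (c (d (c (f (d e)))))))))))))), t false 1 (c
  (d (c (a (b (a (f (a (b (a (c (d (c (f e)))))))))))))), t false 1 (c (d (c (f (a (b (a (c (d (c (f
  (a (b (a e)))))))))))))), t false 1 (c (d (f (a (b (a (c (a (b (d (c (f (d (a e)))))))))))))), t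
  true 1 (c (d (f (a (b (a (c (a (d (c (f (d (b (a e)))))))))))))), t true 1 (c (d (f (a (b (a (c (b
  (a (d (c (f (d (b e)))))))))))))), t false 1 (c (d (f (a (b (a (c (b (d (c (f (d (a (b
  e)))))))))))))), t true 1 (c (d (f (a (b (a (c (d (c (f (a (b (a (d e)))))))))))))), t false 1 (c
  (f (a (b (a (c (d (c (f (a (b (a (c (d e)))))))))))))), t true 1 (d (a (b (a (f (a (b (a (c (d (c
  (f (d (c e)))))))))))))), t false 1 (d (c (a (b (a (f (a (b (a (c (d (c (f (c e)))))))))))))), t
  false 1 (d (c (f (a (b (a (c (d (c (f (a (b (a (c e)))))))))))))), t true 1 (d (f (a (b (a (c (a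
  (b (d (a (c (f (d (a e)))))))))))))), t false 1 (d (f (a (b (a (c (a (d (a (c (f (d (b (a
  e)))))))))))))), t false 1 (d (f (a (b (a (c (a (d (b (a (c (f (d (b e)))))))))))))), t false 1 (d
  (f (a (b (a (c (b (a (d (b (c (f (d (b e)))))))))))))), t true 1 (d (f (a (b (a (c (b (d (a (b (c
  (f (d (a e)))))))))))))), t true 1 (d (f (a (b (a (c (b (d (b (c (f (d (a (b e)))))))))))))), t
  true 1 (d (f (a (b (a (c (d (c (f (a (b (a (d (c e)))))))))))))), t false 1 (f (a (b (a (c (a (b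
  (d (a (c (f (a (d (a e)))))))))))))), t true 1 (f (a (b (a (c (a (d (a (c (f (a (d (b (a
  e)))))))))))))), t true 1 (f (a (b (a (c (a (d (a (c (f (b (a (d (b e)))))))))))))), t true 1 (f
  (a (b (a (c (a (d (b (a (c (f (b (d (b e)))))))))))))), t true 1 (f (a (b (a (c (b (a (d (b (c (f
  (b (d (b e)))))))))))))), t false 1 (f (a (b (a (c (b (d (a (b (c (f (a (d (a e)))))))))))))), t
  false 1 (f (a (b (a (c (b (d (b (c (f (a (b (d (a e)))))))))))))), t false 1 (f (a (b (a (c (b (d
  (b (c (f (b (d (a (b e)))))))))))))), t false 1 (f (a (b (a (c (d (c (f (a (b (a (c (d (c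
  e))))))))))))))]

end H387FK
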