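import Pool.Agent.helper387_fk.Engine
import Pool.Agent.helper387_fk.CData

/-!
Kernel evaluation of the tests for the element of degree 14.
-/

namespace H387FK

theorem z_sq : radT 8 (DPL S.s56 false c56 T.z) = true := by decide +kernel

theorem homP : hom (W.a (W.a (W.a (W.a (W.a (W.a (W.a (W.a (W.a (W.a (W.a (W.a (W.a (W.a W.e))))))))))))))
    Pw = true := by decide +kernel

theorem radP : all5 (radT 8) (revP Pw) = true := by decide +kernel

theorem phP : nzroot (ph (insLL c56 T.z) Pw T.z) = true := by decide +kernel

end H387FK
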