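import Pool.Agent.helper387_fk.Engine

/-!
Kernel evaluation of the test for the rules for words with last letter 1.
-/

namespace H387FK

theorem chk_R11 : chkR R11 (W.a (W.a W.e)) = true := by decide +kernel

theorem chk_R12 : chkR R12 (W.b (W.a W.e)) = true := by decide +kernel

theorem chk_R13 : chkR R13 (W.c (W.a W.e)) = true := by decide +kernel

theorem chk_R14 : chkR R14 (W.d (W.a W.e)) = true := by decide +kernel

theorem chk_R15 : chkR R15 (W.f (W.a W.e)) = true := by decide +kernel

theorem chk_R1 : chkR R1 (W.a W.e) = true := by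
  show band (chkR R11 (W.a (W.a W.e))) (band (chkR R12 (W.b (W.a W.e))) (band (chkR R13 (W.c (W.a W.e))) (band (chkR R14 (W.d (W.a W.e))) (chkR R15 (W.f (W.a W.e)))))) = true
  rw [chk_R11, chk_R12, chk_R13, chk_R14, chk_R15]
  try rfl

end H387FK
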