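import Pool.Agent.helper387_fk.Engine

/-!
Kernel evaluation of the test for the rules for words with last letter 2.
-/

namespace H387FK

theorem chk_R21 : chkR R21 (W.a (W.b W.e)) = true := by decide +kernel

theorem chk_R22 : chkR R22 (W.b (W.b W.e)) = true := by decide +kernel

theorem chk_R23 : chkR R23 (W.c (W.b W.e)) = true := by decide +kernel

theorem chk_R24 : chkR R24 (W.d (W.b W.e)) = true := by decide +kernel

theorem chk_R25 : chkR R25 (W.f (W.b W.e)) = true := by decide +kernel

theorem chk_R2 : chkR R2 (W.b W.e) = true := by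
  show band (chkR R21 (W.a (W.b W.e))) (band (chkR R22 (W.b (W.b W.e))) (band (chkR R23 (W.c (W.b W.e))) (band (chkR R24 (W.d (W.b W.e))) (chkR R25 (W.f (W.b W.e)))))) = true
  rw [chk_R21, chk_R22, chk_R23, chk_R24, chk_R25]
  try rfl

end H387FK
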