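import Pool.Agent.helper387_fk.Engine

/-!
Kernel evaluation of the test for the rules for words with last letter 3.
-/

namespace H387FK

theorem chk_R31 : chkR R31 (W.a (W.c W.e)) = true := by decide +kernel

theorem chk_R32 : chkR R32 (W.b (W.c W.e)) = true := by decide +kernel

theorem chk_R33 : chkR R33 (W.c (W.c W.e)) = true := by decide +kernel

theorem chk_R34 : chkR R34 (W.d (W.c W.e)) = true := by decide +kernel

theorem chk_R35 : chkR R35 (W.f (W.c W.e)) = true := by decide +kernel

theorem chk_R3 : chkR R3 (W.c W.e) = true := by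
  show band (chkR R31 (W.a (W.c W.e))) (band (chkR R32 (W.b (W.c W.e))) (band (chkR R33 (W.c (W.c W.e))) (band (chkR R34 (W.d (W.c W.e))) (chkR R35 (W.f (W.c W.e)))))) = true
  rw [chk_R31, chk_R32, chk_R33, chk_R34, chk_R35]
  try rfl

end H387FK
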