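import Pool.Agent.helper387_fk.Engine

/-!
Kernel evaluation of the test for the rules for words with last letter 4.
-/

namespace H387FK

theorem chk_R41 : chkR R41 (W.a (W.d W.e)) = true := by decide +kernel

theorem chk_R42 : chkR R42 (W.b (W.d W.e)) = true := by decide +kernel

theorem chk_R43 : chkR R43 (W.c (W.d W.e)) = true := by decide +kernel

theorem chk_R44 : chkR R44 (W.d (W.d W.e)) = true := by decide +kernel

theorem chk_R45 : chkR R45 (W.f (W.d W.e)) = true := by decide +kernel

theorem chk_R4 : chkR R4 (W.d W.e) = true := by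
  show band (chkR R41 (W.a (W.d W.e))) (band (chkR R42 (W.b (W.d W.e))) (band (chkR R43 (W.c (W.d W.e))) (band (chkR R44 (W.d (W.d W.e))) (chkR R45 (W.f (W.d W.e)))))) = true
  rw [chk_R41, chk_R42, chk_R43, chk_R44, chk_R45]
  try rfl

end H387FK
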