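import Pool.Agent.helper387_fk.Engine

/-!
Kernel evaluation of the test for the rules for words with last letter 5.
-/

namespace H387FK

theorem chk_R51 : chkR R51 (W.a (W.f W.e)) = true := by decide +kernel

theorem chk_R52 : chkR R52 (W.b (W.f W.e)) = true := by decide +kernel

theorem chk_R53 : chkR R53 (W.c (W.f W.e)) = true := by decide +kernel

theorem chk_R54 : chkR R54 (W.d (W.f W.e)) = true := by decide +kernel

theorem chk_R5 : chkR R5 (W.f W.e) = true := by
  show band (chkR R51 (W.a (W.f W.e))) (band (chkR R52 (W.b (W.f W.e))) (band (chkR R53 (W.c (W.f W.e))) (band (chkR R54 (W.d (W.f W.e))) (chkR R.nil (W.f (W.f W.e)))))) = true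
  rw [chk_R51, chk_R52, chk_R53, chk_R54]
  try rfl

end H387FK
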