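import Pool.Agent.helper387_fk.Engine
import Pool.Agent.helper387_fk.CData

/-!
Kernel evaluation of the radical test for the relations which involve the vertices 2 and 4.
-/

namespace H387FK

theorem z24_1 : radT 8 (DPL S.s16 false c24 T.z) = true := by decide +kernel

theorem z24_2 : radT 8 (DPL S.s26 false c24 T.z) = true := by decide +kernel

theorem z24_3 : radT 8 (DPL S.s36 false c24 T.z) = true := by decide +kernel

theorem z24_4 : radT 8 (DPL S.s46 false c24 T.z) = true := by decide +kernel

theorem z24_5 : radT 8 (DPL S.s24 true c56 (DPL S.s56 false c24 T.z)) = true := by decide +kernel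

end H387FK
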