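import Pool.Agent.helper387_fk.Star

/-!
One-dimensional extensions of the regular module of the Fomin-Kirillov algebra on six points.
-/

namespace H387FK

attribute [local irreducible] instRing instAlg

/-- Data of functionals on the algebra which satisfies the relations that involve the centre of the
star. -/
structure Mixed (C : Fin 6 → Fin 6 → FK 6 →ₗ[ℚ] ℚ) : Prop where
  anti : ∀ i j, C i j = - C j i
  sq : ∀ i, i ≠ 5 → ∀ u, C i 5 (x i 5 * u) = 0
  comm : ∀ i j k, i ≠ 5 → j ≠ 5 → k ≠ 5 → i ≠ j → k ≠ i → k ≠ j → ∀ u,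
    C i j (x k 5 * u) = C k 5 (x i j * u)
  tri : ∀ i j, i ≠ 5 → j ≠ 5 → i ≠ j → ∀ u,
    C i j (x j 5 * u) = C j 5 (x i 5 * u) + C i 5 (x i j * u)
  kill : ∀ i j a b, a ≠ 5 → b ≠ 5 → ∀ u, C i j (u * x a b) = 0

section
variable {i j k : Fin 6}

theorem xy_j (hij : i ≠ j) (hi : i ≠ 5) (hj : j ≠ 5) (v : FK 6) :
    x i j * (x j 5 * v) = x j 5 * (x i 5 * v) + x i 5 * (x i j * v) := by
  rw [← mul_assoc, x_mul_y hij hi hj, add_mul, mul_assoc, mul_assoc]

theorem xy_i (hij : i ≠ j) (hi : i ≠ 5) (hj : j ≠ 5) (v : FK 6) :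
    x i j * (x i 5 * v) = - (x i 5 * (x j 5 * v)) + x j 5 * (x i j * v) := by
  rw [x_anti i j, neg_mul, neg_mul, xy_j hij.symm hj hi, mul_neg]
  abel

theorem xy_k (hij : i ≠ j) (hki : k ≠ i) (hkj : k ≠ j) (hi : i ≠ 5) (hj : j ≠ 5) (hk : k ≠ 5)
    (v : FK 6) : x i j * (x k 5 * v) = x k 5 * (x i j * v) := by
  rw [← mul_assoc, (x_isRep 6).comm i j k 5 hij hki.symm hi hkj.symm hj hk, mul_assoc]

end

variable {C : Fin 6 → Fin 6 → FK 6 →ₗ[ℚ] ℚ}

theorem Mixed.anti' (h : Mixed C) (i j : Fin 6) (u : FK 6) : C i j u = - C j i u := by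
  rw [h.anti i j]; rfl

/-- `C_ij (y_i u) = - C_i6 (y_j u) + C_j6 (x_ij u)`. -/
theorem Mixed.tri' (h : Mixed C) {i j : Fin 6} (hi : i ≠ 5) (hj : j ≠ 5) (hij : i ≠ j) (u : FK 6) :
    C i j (x i 5 * u) = - C i 5 (x j 5 * u) + C j 5 (x i j * u) := by
  rw [h.anti' i j, h.tri j i hj hi hij.symm, x_anti j i, neg_mul, map_neg]
  ring

/-- The functional vanishes if it vanishes on `y_k u`. -/
theorem ext_ind {g : FK 6 →ₗ[ℚ] ℚ} (h2 : ∀ v i j, i ≠ 5 → j ≠ 5 → g (v * x i j) = 0)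
    (h0 : g 1 = 0) (h1 : ∀ k, k ≠ 5 → ∀ v, g (x k 5 * v) = 0) (u : FK 6) : g u = 0 := by
  refine star_ind ?_ h2 u
  intro w
  cases w with
  | nil => exact h0
  | cons k w => exact h1 (vx k) (vx_ne k) (evf w)

theorem x_sq_mul {i j : Fin 6} (hij : i ≠ j) (v : FK 6) : x i j * (x i j * v) = 0 := by
  rw [← mul_assoc, (x_isRep 6).sq i j hij, zero_mul]

theorem x_comm_mul {i j k l : Fin 6} (h1 : i ≠ j) (h2 : i ≠ k) (h3 : i ≠ l) (h4 : j ≠ k)
    (h5 : j ≠ l) (h6 : k ≠ l) (v : FK 6) : x i j * (x k l * v) = x k l * (x i j * v) := by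
  rw [← mul_assoc, (x_isRep 6).comm i j k l h1 h2 h3 h4 h5 h6, mul_assoc]

theorem x_tri_mul {i j k : Fin 6} (h1 : i ≠ j) (h2 : j ≠ k) (h3 : i ≠ k) (v : FK 6) :
    x i j * (x j k * v) + x j k * (x k i * v) + x k i * (x i j * v) = 0 := by
  have h := congrArg (fun z => z * v) ((x_isRep 6).tri i j k h1 h2 h3)
  simpa only [add_mul, zero_mul, mul_assoc] using h

theorem Mixed.sq_j (h : Mixed C) {i j : Fin 6} (hi : i ≠ 5) (hj : j ≠ 5) (hij : i ≠ j) (v : FK 6) :
    C i j (x i j * (x j 5 * v)) = 0 := by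
  have e1 := h.tri i j hi hj hij (x i 5 * v)
  have e2 := h.tri' hi hj hij (x i j * v)
  have e3 := h.sq i hi (x j 5 * v)
  rw [x_sq_mul hi, map_zero, xy_i hij hi hj, map_add, map_neg] at e1
  rw [x_sq_mul hij, map_zero] at e2
  rw [xy_j hij hi hj, map_add, e1, e2]
  linarith

theorem Mixed.sq_all (h : Mixed C) {i j : Fin 6} (hi : i ≠ 5) (hj : j ≠ 5) (hij : i ≠ j)
    (u : FK 6) : C i j (x i j * u) = 0 := by
  refine ext_ind (g := (C i j).comp (LinearMap.mulLeft ℚ (x i j))) ?_ ?_ ?_ u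
  · intro v a b ha hb
    show C i j (x i j * (v * x a b)) = 0
    rw [← mul_assoc]
    exact h.kill i j a b ha hb _
  · show C i j (x i j * 1) = 0
    rw [mul_one, ← one_mul (x i j)]
    exact h.kill i j i j hi hj _
  · intro k hk v
    show C i j (x i j * (x k 5 * v)) = 0
    by_cases hkj : k = j
    · rw [hkj]; exact h.sq_j hi hj hij v
    · by_cases hki : k = i
      · rw [hki, x_anti i j, neg_mul, map_neg, h.anti' i j, neg_neg]
        exact h.sq_j hj hi hij.symm v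
      · rw [xy_k hij hki hkj hi hj hk, h.comm i j k hi hj hk hij hki hkj, x_sq_mul hij, map_zero]

theorem Mixed.comm_j (h : Mixed C) {i j k l : Fin 6} (hi : i ≠ 5) (hj : j ≠ 5) (hk : k ≠ 5)
    (hl : l ≠ 5) (h1 : i ≠ j) (h2 : i ≠ k) (h3 : i ≠ l) (h4 : j ≠ k) (h5 : j ≠ l) (h6 : k ≠ l)
    (v : FK 6) : C i j (x k l * (x j 5 * v)) = C k l (x i j * (x j 5 * v)) := by
  have e1 := h.tri i j hi hj h1 (x k l * v)
  have e2 := h.comm k l j hk hl hj h6 h4 h5 (x i 5 * v)
  have e3 := h.comm k l i hk hl hi h6 h2 h3 (x i j * v)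
  rw [xy_k h6 h2 h3 hk hl hi] at e2
  rw [x_comm_mul h6 h2.symm h4.symm h3.symm h5.symm h1] at e3
  rw [xy_k h6 h4 h5 hk hl hj, e1, xy_j h1 hi hj, map_add, e2, e3]

theorem Mixed.comm_all (h : Mixed C) {i j k l : Fin 6} (hi : i ≠ 5) (hj : j ≠ 5) (hk : k ≠ 5)
    (hl : l ≠ 5) (h1 : i ≠ j) (h2 : i ≠ k) (h3 : i ≠ l) (h4 : j ≠ k) (h5 : j ≠ l) (h6 : k ≠ l)
    (u : FK 6) : C i j (x k l * u) = C k l (x i j * u) := by
  rw [← sub_eq_zero]
  refine ext_ind (g := (C i j).comp (LinearMap.mulLeft ℚ (x k l)) -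
    (C k l).comp (LinearMap.mulLeft ℚ (x i j))) ?_ ?_ ?_ u
  · intro v a b ha hb
    show C i j (x k l * (v * x a b)) - C k l (x i j * (v * x a b)) = 0
    rw [← mul_assoc, ← mul_assoc, h.kill i j a b ha hb, h.kill k l a b ha hb, sub_zero]
  · show C i j (x k l * 1) - C k l (x i j * 1) = 0
    rw [mul_one, mul_one, ← one_mul (x k l), ← one_mul (x i j), h.kill i j k l hk hl,
      h.kill k l i j hi hj, sub_zero]
  · intro m hm v
    show C i j (x k l * (x m 5 * v)) - C k l (x i j * (x m 5 * v)) = 0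
    by_cases hmj : m = j
    · rw [hmj, h.comm_j hi hj hk hl h1 h2 h3 h4 h5 h6, sub_self]
    by_cases hmi : m = i
    · have := h.comm_j hj hi hk hl h1.symm h4 h5 h2 h3 h6 v
      rw [hmi, h.anti' i j, this, x_anti i j, neg_mul, map_neg]
      ring
    by_cases hml : m = l
    · have := h.comm_j hk hl hi hj h6 h2.symm h4.symm h3.symm h5.symm h1 v
      rw [hml, this, sub_self]
    by_cases hmk : m = k
    · have := h.comm_j hl hk hi hj h6.symm h3.symm h5.symm h2.symm h4.symm h1 v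
      rw [hmk, h.anti' k l, this, x_anti k l, neg_mul, map_neg]
      ring
    rw [xy_k h6 hmk hml hk hl hm, xy_k h1 hmi hmj hi hj hm, h.comm i j m hi hj hm h1 hmi hmj,
      h.comm k l m hk hl hm h6 hmk hml, x_comm_mul h1 h2 h3 h4 h5 h6, sub_self]

theorem Mixed.tri_j (h : Mixed C) {i j k : Fin 6} (hi : i ≠ 5) (hj : j ≠ 5) (hk : k ≠ 5)
    (hij : i ≠ j) (hjk : j ≠ k) (hik : i ≠ k) (v : FK 6) :
    C i j (x j k * (x j 5 * v)) + C j k (x k i * (x j 5 * v)) + C k i (x i j * (x j 5 * v)) = 0 := by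
  -- first term
  have a1 : x j k * (x j 5 * v) = - (x j 5 * (x k 5 * v)) + x k 5 * (x j k * v) :=
    xy_i hjk hj hk v
  have a2 := h.tri i j hi hj hij (x k 5 * v)
  have a3 := h.comm i j k hi hj hk hij hik.symm hjk.symm (x j k * v)
  rw [xy_k hij hik.symm hjk.symm hi hj hk] at a2
  -- second term
  have b1 : x k i * (x j 5 * v) = x j 5 * (x k i * v) := xy_k hik.symm hjk hij.symm hk hi hj v
  have b2 := h.tri' hj hk hjk (x k i * v)
  -- third term
  have c1 : x i j * (x j 5 * v) = x j 5 * (x i 5 * v) + x i 5 * (x i j * v) := xy_j hij hi hj v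
  have c2 := h.comm k i j hk hi hj hik.symm hjk hij.symm (x i 5 * v)
  have c3 := h.tri k i hk hi hik.symm (x i j * v)
  have c4 : x k i * (x i 5 * v) = x i 5 * (x k 5 * v) + x k 5 * (x k i * v) :=
    xy_j hik.symm hk hi v
  have t := congrArg (C k 5) (x_tri_mul hij hjk hik v)
  rw [map_add, map_add, map_zero] at t
  rw [c4, map_add] at c2
  rw [a1, b1, c1, map_add, map_neg, map_add, a2, a3, b2, c2, c3]
  linarith

theorem Mixed.tri_all (h : Mixed C) {i j k : Fin 6} (hi : i ≠ 5) (hj : j ≠ 5) (hk : k ≠ 5)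
    (hij : i ≠ j) (hjk : j ≠ k) (hik : i ≠ k) (u : FK 6) :
    C i j (x j k * u) + C j k (x k i * u) + C k i (x i j * u) = 0 := by
  refine ext_ind (g := (C i j).comp (LinearMap.mulLeft ℚ (x j k)) +
    (C j k).comp (LinearMap.mulLeft ℚ (x k i)) + (C k i).comp (LinearMap.mulLeft ℚ (x i j)))
    ?_ ?_ ?_ u
  · intro v a b ha hb
    show C i j (x j k * (v * x a b)) + C j k (x k i * (v * x a b)) +
      C k i (x i j * (v * x a b)) = 0
    rw [← mul_assoc, ← mul_assoc, ← mul_assoc, h.kill i j a b ha hb, h.kill j k a b ha hb,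
      h.kill k i a b ha hb]
    ring
  · show C i j (x j k * 1) + C j k (x k i * 1) + C k i (x i j * 1) = 0
    rw [mul_one, mul_one, mul_one, ← one_mul (x j k), ← one_mul (x k i), ← one_mul (x i j),
      h.kill i j j k hj hk, h.kill j k k i hk hi, h.kill k i i j hi hj]
    ring
  · intro m hm v
    show C i j (x j k * (x m 5 * v)) + C j k (x k i * (x m 5 * v)) +
      C k i (x i j * (x m 5 * v)) = 0
    by_cases hmj : m = j
    · rw [hmj]; exact h.tri_j hi hj hk hij hjk hik v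
    by_cases hmi : m = i
    · have := h.tri_j hk hi hj hik.symm hij hjk.symm v
      rw [hmi]; linarith
    by_cases hmk : m = k
    · have := h.tri_j hj hk hi hjk hik.symm hij.symm v
      rw [hmk]; linarith
    rw [xy_k hjk hmj hmk hj hk hm, xy_k hik.symm hmk hmi hk hi hm, xy_k hij hmi hmj hi hj hm,
      h.comm i j m hi hj hm hij hmi hmj, h.comm j k m hj hk hm hjk hmj hmk,
      h.comm k i m hk hi hm hik.symm hmk hmi, ← map_add, ← map_add, x_tri_mul hij hjk hik, map_zero]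

/-- The operators on the extension. -/
noncomputable def rho (C : Fin 6 → Fin 6 → FK 6 →ₗ[ℚ] ℚ) (i j : Fin 6) :
    Module.End ℚ (FK 6 × ℚ) :=
  LinearMap.prod ((LinearMap.mulLeft ℚ (x i j)).comp (LinearMap.fst ℚ (FK 6) ℚ))
    ((C i j).comp (LinearMap.fst ℚ (FK 6) ℚ))

theorem rho_apply (i j : Fin 6) (u : FK 6) (c : ℚ) : rho C i j (u, c) = (x i j * u, C i j u) := rfl

theorem rho_mul (i j k l : Fin 6) (u : FK 6) (c : ℚ) :
    (rho C i j * rho C k l) (u, c) = (x i j * (x k l * u), C i j (x k l * u)) := rfl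

theorem Mixed.sq5 (h : Mixed C) (i j : Fin 6) (hij : i ≠ j) (u : FK 6) :
    C i j (x i j * u) = 0 := by
  by_cases hi : i = 5
  · subst hi
    rw [x_anti, neg_mul, map_neg, h.anti' 5 j, h.sq j hij.symm, neg_zero, neg_zero]
  · by_cases hj : j = 5
    · subst hj
      exact h.sq i hi u
    · exact h.sq_all hi hj hij u

theorem Mixed.comm5 (h : Mixed C) (i j k l : Fin 6) (h1 : i ≠ j) (h2 : i ≠ k) (h3 : i ≠ l)
    (h4 : j ≠ k) (h5 : j ≠ l) (h6 : k ≠ l) (u : FK 6) : C i j (x k l * u) = C k l (x i j * u) := by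
  by_cases hi : i = 5
  · subst hi
    rw [h.anti' 5 j, x_anti 5 j, neg_mul, map_neg,
      ← h.comm k l j h2.symm h3.symm h1.symm h6 h4 h5]
  · by_cases hj : j = 5
    · subst hj
      rw [h.comm k l i h4.symm h5.symm hi h6 h2 h3]
    · by_cases hk : k = 5
      · subst hk
        rw [h.anti' 5 l, x_anti 5 l, neg_mul, map_neg,
          h.comm i j l hi hj h6.symm h1 h3.symm h5.symm]
      · by_cases hl : l = 5
        · subst hl
          rw [h.comm i j k hi hj hk h1 h2.symm h4.symm]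
        · exact h.comm_all hi hj hk hl h1 h2 h3 h4 h5 h6 u

theorem Mixed.tri5 (h : Mixed C) (i j k : Fin 6) (hij : i ≠ j) (hjk : j ≠ k) (hik : i ≠ k)
    (u : FK 6) : C i j (x j k * u) + C j k (x k i * u) + C k i (x i j * u) = 0 := by
  have key : ∀ i j : Fin 6, i ≠ 5 → j ≠ 5 → i ≠ j →
      C i j (x j 5 * u) + C j 5 (x 5 i * u) + C 5 i (x i j * u) = 0 := by
    intro i j hi hj hij
    rw [h.tri i j hi hj hij u, x_anti 5 i, neg_mul, map_neg, h.anti' 5 i]
    ring
  by_cases hi : i = 5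
  · subst hi
    have := key j k hij.symm hik.symm hjk
    linarith
  · by_cases hj : j = 5
    · subst hj
      have := key k i hjk.symm hij hik.symm
      linarith
    · by_cases hk : k = 5
      · subst hk
        exact key i j hi hj hij
      · exact h.tri_all hi hj hk hij hjk hik u

theorem Mixed.isRep (h : Mixed C) : IsRep (rho C) where
  anti i j := by
    refine LinearMap.ext ?_
    rintro ⟨u, c⟩
    rw [LinearMap.neg_apply, rho_apply, rho_apply, h.anti' i j, x_anti i j, neg_mul]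
    rfl
  sq i j hij := by
    refine LinearMap.ext ?_
    rintro ⟨u, c⟩
    rw [rho_mul, x_sq_mul hij, h.sq5 i j hij]
    rfl
  comm i j k l h1 h2 h3 h4 h5 h6 := by
    refine LinearMap.ext ?_
    rintro ⟨u, c⟩
    rw [rho_mul, rho_mul, x_comm_mul h1 h2 h3 h4 h5 h6, h.comm5 i j k l h1 h2 h3 h4 h5 h6]
  tri i j k h1 h2 h3 := by
    refine LinearMap.ext ?_
    rintro ⟨u, c⟩
    rw [LinearMap.add_apply, LinearMap.add_apply, rho_mul, rho_mul, rho_mul, Prod.mk_add_mk,
      Prod.mk_add_mk, x_tri_mul h1 h2 h3, h.tri5 i j k h1 h2 h3]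
    rfl

/-- The extension as a module. -/
noncomputable def rhoHom (h : Mixed C) : FK 6 →ₐ[ℚ] Module.End ℚ (FK 6 × ℚ) := lift (rho C) h.isRep

theorem rhoHom_fst (h : Mixed C) (u : FK 6) : (rhoHom h u (1, 0)).1 = u := by
  refine ind_left (p := fun u => (rhoHom h u (1, 0)).1 = u) ?_ ?_ ?_ ?_ u
  · rw [map_one]; rfl
  · intro u v hu hv; rw [map_add, LinearMap.add_apply, Prod.fst_add, hu, hv]
  · intro c u hu; rw [map_smul, LinearMap.smul_apply, Prod.smul_fst, hu]
  · intro i j u hu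
    rw [map_mul, Module.End.mul_apply, rhoHom, lift_x]
    show x i j * (lift (rho C) h.isRep u (1, 0)).1 = _
    rw [rhoHom] at hu
    rw [hu]

/-- The functional detected by the extension. -/
noncomputable def Phi (h : Mixed C) : FK 6 →ₗ[ℚ] ℚ :=
  (LinearMap.snd ℚ (FK 6) ℚ).comp
    ((LinearMap.applyₗ (R := ℚ) ((1, 0) : FK 6 × ℚ)).comp (rhoHom h).toLinearMap)

theorem Phi_x_mul (h : Mixed C) (i j : Fin 6) (u : FK 6) : Phi h (x i j * u) = C i j u := by
  show (rhoHom h (x i j * u) (1, 0)).2 = _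
  rw [map_mul, Module.End.mul_apply]
  have : rhoHom h (x i j) = rho C i j := lift_x _ _ _ _
  rw [this]
  show C i j (rhoHom h u (1, 0)).1 = _
  rw [rhoHom_fst]

end H387FK
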