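import Pool.Agent.helper387_fk.Sound2
import Pool.Agent.helper387_fk.Ext
import Pool.Agent.helper387_fk.CData
import Pool.Agent.helper387_fk.ChkR1
import Pool.Agent.helper387_fk.ChkR2
import Pool.Agent.helper387_fk.ChkR3
import Pool.Agent.helper387_fk.ChkR4
import Pool.Agent.helper387_fk.ChkR5
import Pool.Agent.helper387_fk.ChkZ12
import Pool.Agent.helper387_fk.ChkZ13
import Pool.Agent.helper387_fk.ChkZ14
import Pool.Agent.helper387_fk.ChkZ15
import Pool.Agent.helper387_fk.ChkZ23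
import Pool.Agent.helper387_fk.ChkZ24
import Pool.Agent.helper387_fk.ChkZ25
import Pool.Agent.helper387_fk.ChkZ34
import Pool.Agent.helper387_fk.ChkZ35
import Pool.Agent.helper387_fk.ChkZ45
import Pool.Agent.helper387_fk.ChkP

/-!
The functionals which extend the regular module, and the element of degree 14.
-/

namespace H387FK

attribute [local irreducible] instRing instAlg

theorem chk_all : Chk := by
  intro k
  cases k
  · exact chk_R1
  · exact chk_R2
  · exact chk_R3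
  · exact chk_R4
  · exact chk_R5

theorem radA (st : S) {i j : Fin 6} (e : sf st = (i, j)) (p : List (List Tm))
    (h : radT 8 (DPL st false p T.z) = true) : Rad (DformLL i j p) := by
  have h1 := radT_sound chk_all.val chk_all.hom 8 _ h
  have h2 := DPL_sound chk_all st false p T.z
  rw [e] at h2
  refine Eqr.rad (h2.trans (Eqr.of_eq ?_)).symm h1
  simp [evT, vl]

theorem radB (st st' : S) {i j i' j' : Fin 6} (e : sf st = (i, j)) (e' : sf st' = (i', j'))
    (p p' : List (List Tm)) (h : radT 8 (DPL st' true p' (DPL st false p T.z)) = true) :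
    Rad (DformLL i j p - DformLL i' j' p') := by
  have h1 := radT_sound chk_all.val chk_all.hom 8 _ h
  have h2 := DPL_sound chk_all st false p T.z
  have h3 := DPL_sound chk_all st' true p' (DPL st false p T.z)
  rw [e] at h2
  rw [e'] at h3
  refine Eqr.rad ((h3.trans (h2.add (Eqr.refl _))).trans (Eqr.of_eq ?_)).symm h1
  simp [evT, vl, sub_eq_add_neg]

theorem DformLL_nil (i j : Fin 6) : DformLL i j [] = 0 := rfl

theorem evLL_nil : evLL [] = 0 := rfl

theorem rad_az {a : FK 6} (h : Rad a) : Rad (a + 0 - 0) := by rwa [add_zero, sub_zero]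

theorem rad_zz {a : FK 6} (h : Rad a) : Rad (a - 0 - 0) := by rwa [sub_zero, sub_zero]

theorem rad_z {a : FK 6} (h : Rad a) : Rad (a - 0) := by rwa [sub_zero]

theorem rad_ab {a b : FK 6} (h : Rad (a - b)) : Rad (a + 0 - b) := by rwa [add_zero]

theorem phiL_zero_add (a : FK 6) (p : List Tm) : eps (0 : FK 6) + phiL (0 + a) p = phiL a p := by
  rw [map_zero, zero_add, zero_add]

theorem evT_z : evT T.z = 0 := rfl

/-- The table of star polynomials for the pairs `i < j`. -/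
def cD (i j : Fin 6) : List (List Tm) :=
  if i = 0 ∧ j = 1 then c12
  else if i = 0 ∧ j = 2 then c13
  else if i = 0 ∧ j = 3 then c14
  else if i = 0 ∧ j = 4 then c15
  else if i = 1 ∧ j = 2 then c23
  else if i = 1 ∧ j = 3 then c24
  else if i = 1 ∧ j = 4 then c25
  else if i = 2 ∧ j = 3 then c34
  else if i = 2 ∧ j = 4 then c35
  else if i = 3 ∧ j = 4 then c45
  else if i = 4 ∧ j = 5 then c56
  else []

theorem cD_01 : cD 0 1 = c12 := rfl
theorem cD_02 : cD 0 2 = c13 := rfl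
theorem cD_03 : cD 0 3 = c14 := rfl
theorem cD_04 : cD 0 4 = c15 := rfl
theorem cD_12 : cD 1 2 = c23 := rfl
theorem cD_13 : cD 1 3 = c24 := rfl
theorem cD_14 : cD 1 4 = c25 := rfl
theorem cD_23 : cD 2 3 = c34 := rfl
theorem cD_24 : cD 2 4 = c35 := rfl
theorem cD_34 : cD 3 4 = c45 := rfl
theorem cD_45 : cD 4 5 = c56 := rfl
theorem cD_05 : cD 0 5 = [] := rfl
theorem cD_15 : cD 1 5 = [] := rfl
theorem cD_25 : cD 2 5 = [] := rfl
theorem cD_35 : cD 3 5 = [] := rfl

/-- The condition for three points. -/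
def PC (i j k : Fin 6) : Prop := Rad (DformLL k 5 (cD i j) - DformLL i j (cD k 5))

/-- The first condition for two points. -/
def PT (i j : Fin 6) : Prop :=
  Rad (DformLL j 5 (cD i j) - DformLL i 5 (cD j 5) - DformLL i j (cD i 5))

/-- The second condition for two points. -/
def PS (i j : Fin 6) : Prop :=
  Rad (DformLL i 5 (cD i j) + DformLL j 5 (cD i 5) - DformLL i j (cD j 5))

theorem PC.mk {i j k : Fin 6} {a b : FK 6} (h1 : DformLL k 5 (cD i j) = a)
    (h2 : DformLL i j (cD k 5) = b) (h : Rad (a - b)) : PC i j k := by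
  unfold PC
  rw [h1, h2]
  exact h

theorem PT.mk {i j : Fin 6} {a b c : FK 6} (h1 : DformLL j 5 (cD i j) = a)
    (h2 : DformLL i 5 (cD j 5) = b) (h3 : DformLL i j (cD i 5) = c) (h : Rad (a - b - c)) :
    PT i j := by
  unfold PT
  rw [h1, h2, h3]
  exact h

theorem PS.mk {i j : Fin 6} {a b c : FK 6} (h1 : DformLL i 5 (cD i j) = a)
    (h2 : DformLL j 5 (cD i 5) = b) (h3 : DformLL i j (cD j 5) = c) (h : Rad (a + b - c)) :
    PS i j := by
  unfold PS
  rw [h1, h2, h3]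
  exact h

theorem fs_01 : PS 0 1 :=
  PS.mk (congrArg (DformLL 0 5) cD_01)
    ((congrArg (DformLL 1 5) cD_05).trans (DformLL_nil 1 5))
    ((congrArg (DformLL 0 1) cD_15).trans (DformLL_nil 0 1))
    (rad_az (radA (i := 0) (j := 5) S.s16 rfl c12 z12_1))

theorem ft_01 : PT 0 1 :=
  PT.mk (congrArg (DformLL 1 5) cD_01)
    ((congrArg (DformLL 0 5) cD_15).trans (DformLL_nil 0 5))
    ((congrArg (DformLL 0 1) cD_05).trans (DformLL_nil 0 1))
    (rad_zz (radA (i := 1) (j := 5) S.s26 rfl c12 z12_2))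

theorem fc_01_2 : PC 0 1 2 :=
  PC.mk (congrArg (DformLL 2 5) cD_01)
    ((congrArg (DformLL 0 1) cD_25).trans (DformLL_nil 0 1))
    (rad_z (radA (i := 2) (j := 5) S.s36 rfl c12 z12_3))

theorem fc_01_3 : PC 0 1 3 :=
  PC.mk (congrArg (DformLL 3 5) cD_01)
    ((congrArg (DformLL 0 1) cD_35).trans (DformLL_nil 0 1))
    (rad_z (radA (i := 3) (j := 5) S.s46 rfl c12 z12_4))

theorem fc_01_4 : PC 0 1 4 :=
  PC.mk (congrArg (DformLL 4 5) cD_01)
    (congrArg (DformLL 0 1) cD_45)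
    (radB (i := 4) (j := 5) (i' := 0) (j' := 1) S.s56 S.s12 rfl rfl c12 c56 z12_5)

theorem fs_02 : PS 0 2 :=
  PS.mk (congrArg (DformLL 0 5) cD_02)
    ((congrArg (DformLL 2 5) cD_05).trans (DformLL_nil 2 5))
    ((congrArg (DformLL 0 2) cD_25).trans (DformLL_nil 0 2))
    (rad_az (radA (i := 0) (j := 5) S.s16 rfl c13 z13_1))

theorem fc_02_1 : PC 0 2 1 :=
  PC.mk (congrArg (DformLL 1 5) cD_02)
    ((congrArg (DformLL 0 2) cD_15).trans (DformLL_nil 0 2))
    (rad_z (radA (i := 1) (j := 5) S.s26 rfl c13 z13_2))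

theorem ft_02 : PT 0 2 :=
  PT.mk (congrArg (DformLL 2 5) cD_02)
    ((congrArg (DformLL 0 5) cD_25).trans (DformLL_nil 0 5))
    ((congrArg (DformLL 0 2) cD_05).trans (DformLL_nil 0 2))
    (rad_zz (radA (i := 2) (j := 5) S.s36 rfl c13 z13_3))

theorem fc_02_3 : PC 0 2 3 :=
  PC.mk (congrArg (DformLL 3 5) cD_02)
    ((congrArg (DformLL 0 2) cD_35).trans (DformLL_nil 0 2))
    (rad_z (radA (i := 3) (j := 5) S.s46 rfl c13 z13_4))

theorem fc_02_4 : PC 0 2 4 :=
  PC.mk (congrArg (DformLL 4 5) cD_02)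
    (congrArg (DformLL 0 2) cD_45)
    (radB (i := 4) (j := 5) (i' := 0) (j' := 2) S.s56 S.s13 rfl rfl c13 c56 z13_5)

theorem fs_03 : PS 0 3 :=
  PS.mk (congrArg (DformLL 0 5) cD_03)
    ((congrArg (DformLL 3 5) cD_05).trans (DformLL_nil 3 5))
    ((congrArg (DformLL 0 3) cD_35).trans (DformLL_nil 0 3))
    (rad_az (radA (i := 0) (j := 5) S.s16 rfl c14 z14_1))

theorem fc_03_1 : PC 0 3 1 :=
  PC.mk (congrArg (DformLL 1 5) cD_03)
    ((congrArg (DformLL 0 3) cD_15).trans (DformLL_nil 0 3))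
    (rad_z (radA (i := 1) (j := 5) S.s26 rfl c14 z14_2))

theorem fc_03_2 : PC 0 3 2 :=
  PC.mk (congrArg (DformLL 2 5) cD_03)
    ((congrArg (DformLL 0 3) cD_25).trans (DformLL_nil 0 3))
    (rad_z (radA (i := 2) (j := 5) S.s36 rfl c14 z14_3))

theorem ft_03 : PT 0 3 :=
  PT.mk (congrArg (DformLL 3 5) cD_03)
    ((congrArg (DformLL 0 5) cD_35).trans (DformLL_nil 0 5))
    ((congrArg (DformLL 0 3) cD_05).trans (DformLL_nil 0 3))
    (rad_zz (radA (i := 3) (j := 5) S.s46 rfl c14 z14_4))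

theorem fc_03_4 : PC 0 3 4 :=
  PC.mk (congrArg (DformLL 4 5) cD_03)
    (congrArg (DformLL 0 3) cD_45)
    (radB (i := 4) (j := 5) (i' := 0) (j' := 3) S.s56 S.s14 rfl rfl c14 c56 z14_5)

theorem fs_04 : PS 0 4 :=
  PS.mk (congrArg (DformLL 0 5) cD_04)
    ((congrArg (DformLL 4 5) cD_05).trans (DformLL_nil 4 5))
    (congrArg (DformLL 0 4) cD_45)
    (rad_ab (radB (i := 0) (j := 5) (i' := 0) (j' := 4) S.s16 S.s15 rfl rfl c15 c56 z15_1))

theorem fc_04_1 : PC 0 4 1 :=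
  PC.mk (congrArg (DformLL 1 5) cD_04)
    ((congrArg (DformLL 0 4) cD_15).trans (DformLL_nil 0 4))
    (rad_z (radA (i := 1) (j := 5) S.s26 rfl c15 z15_2))

theorem fc_04_2 : PC 0 4 2 :=
  PC.mk (congrArg (DformLL 2 5) cD_04)
    ((congrArg (DformLL 0 4) cD_25).trans (DformLL_nil 0 4))
    (rad_z (radA (i := 2) (j := 5) S.s36 rfl c15 z15_3))

theorem fc_04_3 : PC 0 4 3 :=
  PC.mk (congrArg (DformLL 3 5) cD_04)
    ((congrArg (DformLL 0 4) cD_35).trans (DformLL_nil 0 4))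
    (rad_z (radA (i := 3) (j := 5) S.s46 rfl c15 z15_4))

theorem ft_04 : PT 0 4 :=
  PT.mk (congrArg (DformLL 4 5) cD_04)
    (congrArg (DformLL 0 5) cD_45)
    ((congrArg (DformLL 0 4) cD_05).trans (DformLL_nil 0 4))
    (rad_z (radB (i := 4) (j := 5) (i' := 0) (j' := 5) S.s56 S.s16 rfl rfl c15 c56 z15_5))

theorem fc_12_0 : PC 1 2 0 :=
  PC.mk (congrArg (DformLL 0 5) cD_12)
    ((congrArg (DformLL 1 2) cD_05).trans (DformLL_nil 1 2))
    (rad_z (radA (i := 0) (j := 5) S.s16 rfl c23 z23_1))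

theorem fs_12 : PS 1 2 :=
  PS.mk (congrArg (DformLL 1 5) cD_12)
    ((congrArg (DformLL 2 5) cD_15).trans (DformLL_nil 2 5))
    ((congrArg (DformLL 1 2) cD_25).trans (DformLL_nil 1 2))
    (rad_az (radA (i := 1) (j := 5) S.s26 rfl c23 z23_2))

theorem ft_12 : PT 1 2 :=
  PT.mk (congrArg (DformLL 2 5) cD_12)
    ((congrArg (DformLL 1 5) cD_25).trans (DformLL_nil 1 5))
    ((congrArg (DformLL 1 2) cD_15).trans (DformLL_nil 1 2))
    (rad_zz (radA (i := 2) (j := 5) S.s36 rfl c23 z23_3))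

theorem fc_12_3 : PC 1 2 3 :=
  PC.mk (congrArg (DformLL 3 5) cD_12)
    ((congrArg (DformLL 1 2) cD_35).trans (DformLL_nil 1 2))
    (rad_z (radA (i := 3) (j := 5) S.s46 rfl c23 z23_4))

theorem fc_12_4 : PC 1 2 4 :=
  PC.mk (congrArg (DformLL 4 5) cD_12)
    (congrArg (DformLL 1 2) cD_45)
    (radB (i := 4) (j := 5) (i' := 1) (j' := 2) S.s56 S.s23 rfl rfl c23 c56 z23_5)

theorem fc_13_0 : PC 1 3 0 :=
  PC.mk (congrArg (DformLL 0 5) cD_13)
    ((congrArg (DformLL 1 3) cD_05).trans (DformLL_nil 1 3))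
    (rad_z (radA (i := 0) (j := 5) S.s16 rfl c24 z24_1))

theorem fs_13 : PS 1 3 :=
  PS.mk (congrArg (DformLL 1 5) cD_13)
    ((congrArg (DformLL 3 5) cD_15).trans (DformLL_nil 3 5))
    ((congrArg (DformLL 1 3) cD_35).trans (DformLL_nil 1 3))
    (rad_az (radA (i := 1) (j := 5) S.s26 rfl c24 z24_2))

theorem fc_13_2 : PC 1 3 2 :=
  PC.mk (congrArg (DformLL 2 5) cD_13)
    ((congrArg (DformLL 1 3) cD_25).trans (DformLL_nil 1 3))
    (rad_z (radA (i := 2) (j := 5) S.s36 rfl c24 z24_3))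

theorem ft_13 : PT 1 3 :=
  PT.mk (congrArg (DformLL 3 5) cD_13)
    ((congrArg (DformLL 1 5) cD_35).trans (DformLL_nil 1 5))
    ((congrArg (DformLL 1 3) cD_15).trans (DformLL_nil 1 3))
    (rad_zz (radA (i := 3) (j := 5) S.s46 rfl c24 z24_4))

theorem fc_13_4 : PC 1 3 4 :=
  PC.mk (congrArg (DformLL 4 5) cD_13)
    (congrArg (DformLL 1 3) cD_45)
    (radB (i := 4) (j := 5) (i' := 1) (j' := 3) S.s56 S.s24 rfl rfl c24 c56 z24_5)

theorem fc_14_0 : PC 1 4 0 :=
  PC.mk (congrArg (DformLL 0 5) cD_14)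
    ((congrArg (DformLL 1 4) cD_05).trans (DformLL_nil 1 4))
    (rad_z (radA (i := 0) (j := 5) S.s16 rfl c25 z25_1))

theorem fs_14 : PS 1 4 :=
  PS.mk (congrArg (DformLL 1 5) cD_14)
    ((congrArg (DformLL 4 5) cD_15).trans (DformLL_nil 4 5))
    (congrArg (DformLL 1 4) cD_45)
    (rad_ab (radB (i := 1) (j := 5) (i' := 1) (j' := 4) S.s26 S.s25 rfl rfl c25 c56 z25_2))

theorem fc_14_2 : PC 1 4 2 :=
  PC.mk (congrArg (DformLL 2 5) cD_14)
    ((congrArg (DformLL 1 4) cD_25).trans (DformLL_nil 1 4))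
    (rad_z (radA (i := 2) (j := 5) S.s36 rfl c25 z25_3))

theorem fc_14_3 : PC 1 4 3 :=
  PC.mk (congrArg (DformLL 3 5) cD_14)
    ((congrArg (DformLL 1 4) cD_35).trans (DformLL_nil 1 4))
    (rad_z (radA (i := 3) (j := 5) S.s46 rfl c25 z25_4))

theorem ft_14 : PT 1 4 :=
  PT.mk (congrArg (DformLL 4 5) cD_14)
    (congrArg (DformLL 1 5) cD_45)
    ((congrArg (DformLL 1 4) cD_15).trans (DformLL_nil 1 4))
    (rad_z (radB (i := 4) (j := 5) (i' := 1) (j' := 5) S.s56 S.s26 rfl rfl c25 c56 z25_5))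

theorem fc_23_0 : PC 2 3 0 :=
  PC.mk (congrArg (DformLL 0 5) cD_23)
    ((congrArg (DformLL 2 3) cD_05).trans (DformLL_nil 2 3))
    (rad_z (radA (i := 0) (j := 5) S.s16 rfl c34 z34_1))

theorem fc_23_1 : PC 2 3 1 :=
  PC.mk (congrArg (DformLL 1 5) cD_23)
    ((congrArg (DformLL 2 3) cD_15).trans (DformLL_nil 2 3))
    (rad_z (radA (i := 1) (j := 5) S.s26 rfl c34 z34_2))

theorem fs_23 : PS 2 3 :=
  PS.mk (congrArg (DformLL 2 5) cD_23)
    ((congrArg (DformLL 3 5) cD_25).trans (DformLL_nil 3 5))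
    ((congrArg (DformLL 2 3) cD_35).trans (DformLL_nil 2 3))
    (rad_az (radA (i := 2) (j := 5) S.s36 rfl c34 z34_3))

theorem ft_23 : PT 2 3 :=
  PT.mk (congrArg (DformLL 3 5) cD_23)
    ((congrArg (DformLL 2 5) cD_35).trans (DformLL_nil 2 5))
    ((congrArg (DformLL 2 3) cD_25).trans (DformLL_nil 2 3))
    (rad_zz (radA (i := 3) (j := 5) S.s46 rfl c34 z34_4))

theorem fc_23_4 : PC 2 3 4 :=
  PC.mk (congrArg (DformLL 4 5) cD_23)
    (congrArg (DformLL 2 3) cD_45)
    (radB (i := 4) (j := 5) (i' := 2) (j' := 3) S.s56 S.s34 rfl rfl c34 c56 z34_5)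

theorem fc_24_0 : PC 2 4 0 :=
  PC.mk (congrArg (DformLL 0 5) cD_24)
    ((congrArg (DformLL 2 4) cD_05).trans (DformLL_nil 2 4))
    (rad_z (radA (i := 0) (j := 5) S.s16 rfl c35 z35_1))

theorem fc_24_1 : PC 2 4 1 :=
  PC.mk (congrArg (DformLL 1 5) cD_24)
    ((congrArg (DformLL 2 4) cD_15).trans (DformLL_nil 2 4))
    (rad_z (radA (i := 1) (j := 5) S.s26 rfl c35 z35_2))

theorem fs_24 : PS 2 4 :=
  PS.mk (congrArg (DformLL 2 5) cD_24)
    ((congrArg (DformLL 4 5) cD_25).trans (DformLL_nil 4 5))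
    (congrArg (DformLL 2 4) cD_45)
    (rad_ab (radB (i := 2) (j := 5) (i' := 2) (j' := 4) S.s36 S.s35 rfl rfl c35 c56 z35_3))

theorem fc_24_3 : PC 2 4 3 :=
  PC.mk (congrArg (DformLL 3 5) cD_24)
    ((congrArg (DformLL 2 4) cD_35).trans (DformLL_nil 2 4))
    (rad_z (radA (i := 3) (j := 5) S.s46 rfl c35 z35_4))

theorem ft_24 : PT 2 4 :=
  PT.mk (congrArg (DformLL 4 5) cD_24)
    (congrArg (DformLL 2 5) cD_45)
    ((congrArg (DformLL 2 4) cD_25).trans (DformLL_nil 2 4))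
    (rad_z (radB (i := 4) (j := 5) (i' := 2) (j' := 5) S.s56 S.s36 rfl rfl c35 c56 z35_5))

theorem fc_34_0 : PC 3 4 0 :=
  PC.mk (congrArg (DformLL 0 5) cD_34)
    ((congrArg (DformLL 3 4) cD_05).trans (DformLL_nil 3 4))
    (rad_z (radA (i := 0) (j := 5) S.s16 rfl c45 z45_1))

theorem fc_34_1 : PC 3 4 1 :=
  PC.mk (congrArg (DformLL 1 5) cD_34)
    ((congrArg (DformLL 3 4) cD_15).trans (DformLL_nil 3 4))
    (rad_z (radA (i := 1) (j := 5) S.s26 rfl c45 z45_2))

theorem fc_34_2 : PC 3 4 2 :=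
  PC.mk (congrArg (DformLL 2 5) cD_34)
    ((congrArg (DformLL 3 4) cD_25).trans (DformLL_nil 3 4))
    (rad_z (radA (i := 2) (j := 5) S.s36 rfl c45 z45_3))

theorem fs_34 : PS 3 4 :=
  PS.mk (congrArg (DformLL 3 5) cD_34)
    ((congrArg (DformLL 4 5) cD_35).trans (DformLL_nil 4 5))
    (congrArg (DformLL 3 4) cD_45)
    (rad_ab (radB (i := 3) (j := 5) (i' := 3) (j' := 4) S.s46 S.s45 rfl rfl c45 c56 z45_4))

theorem ft_34 : PT 3 4 :=
  PT.mk (congrArg (DformLL 4 5) cD_34)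
    (congrArg (DformLL 3 5) cD_45)
    ((congrArg (DformLL 3 4) cD_35).trans (DformLL_nil 3 4))
    (rad_z (radB (i := 4) (j := 5) (i' := 3) (j' := 5) S.s56 S.s46 rfl rfl c45 c56 z45_5))

/-- The admissible triples. -/
def trips : List (Fin 6 × Fin 6 × Fin 6) := [(0, 1, 2), (0, 1, 3), (0, 1, 4), (0, 2, 1), (0, 2, 3), (0, 2, 4), (0, 3, 1), (0, 3, 2), (0, 3, 4), (0, 4, 1), (0, 4, 2), (0, 4, 3), (1, 2, 0), (1, 2, 3), (1, 2, 4), (1, 3, 0), (1, 3, 2), (1, 3, 4), (1, 4, 0), (1, 4, 2), (1, 4, 3), (2, 3, 0), (2, 3, 1), (2, 3, 4), (2, 4, 0), (2, 4, 1), (2, 4, 3), (3, 4, 0), (3, 4, 1), (3, 4, 2)]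

/-- The admissible pairs. -/
def pairs : List (Fin 6 × Fin 6) := [(0, 1), (0, 2), (0, 3), (0, 4), (1, 2), (1, 3), (1, 4), (2, 3), (2, 4), (3, 4)]

theorem comm_cases : ∀ i j k : Fin 6, i < j → j ≠ 5 → k ≠ 5 → k ≠ i → k ≠ j → (i, j, k) ∈ trips := by decide

theorem pair_cases : ∀ i j : Fin 6, i < j → j ≠ 5 → (i, j) ∈ pairs := by decide

theorem comm_all (t : Fin 6 × Fin 6 × Fin 6) (h : t ∈ trips) : PC t.1 t.2.1 t.2.2 := by
  unfold trips at h
  simp only [List.mem_cons, List.not_mem_nil, or_false] at h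
  rcases h with rfl | rfl | rfl | rfl | rfl | rfl | rfl | rfl | rfl | rfl | rfl | rfl | rfl | rfl | rfl | rfl | rfl | rfl | rfl | rfl | rfl | rfl | rfl | rfl | rfl | rfl | rfl | rfl | rfl | rfl
  · exact fc_01_2
  · exact fc_01_3
  · exact fc_01_4
  · exact fc_02_1
  · exact fc_02_3
  · exact fc_02_4
  · exact fc_03_1
  · exact fc_03_2
  · exact fc_03_4
  · exact fc_04_1
  · exact fc_04_2
  · exact fc_04_3
  · exact fc_12_0
  · exact fc_12_3
  · exact fc_12_4
  · exact fc_13_0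
  · exact fc_13_2
  · exact fc_13_4
  · exact fc_14_0
  · exact fc_14_2
  · exact fc_14_3
  · exact fc_23_0
  · exact fc_23_1
  · exact fc_23_4
  · exact fc_24_0
  · exact fc_24_1
  · exact fc_24_3
  · exact fc_34_0
  · exact fc_34_1
  · exact fc_34_2

theorem t_all (t : Fin 6 × Fin 6) (h : t ∈ pairs) : PT t.1 t.2 := by
  unfold pairs at h
  simp only [List.mem_cons, List.not_mem_nil, or_false] at h
  rcases h with rfl | rfl | rfl | rfl | rfl | rfl | rfl | rfl | rfl | rfl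
  · exact ft_01
  · exact ft_02
  · exact ft_03
  · exact ft_04
  · exact ft_12
  · exact ft_13
  · exact ft_14
  · exact ft_23
  · exact ft_24
  · exact ft_34

theorem s_all (t : Fin 6 × Fin 6) (h : t ∈ pairs) : PS t.1 t.2 := by
  unfold pairs at h
  simp only [List.mem_cons, List.not_mem_nil, or_false] at h
  rcases h with rfl | rfl | rfl | rfl | rfl | rfl | rfl | rfl | rfl | rfl
  · exact fs_01
  · exact fs_02
  · exact fs_03
  · exact fs_04
  · exact fs_12
  · exact fs_13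
  · exact fs_14
  · exact fs_23
  · exact fs_24
  · exact fs_34

attribute [local irreducible] DformLL evLL

theorem rel_comm (i j k : Fin 6) (h1 : i < j) (h2 : j ≠ 5) (h3 : k ≠ 5) (h4 : k ≠ i) (h5 : k ≠ j) :
    Rad (DformLL k 5 (cD i j) - DformLL i j (cD k 5)) := by
  have h : PC i j k := comm_all (i, j, k) (comm_cases i j k h1 h2 h3 h4 h5)
  unfold PC at h
  exact h

theorem rel_t (i j : Fin 6) (h1 : i < j) (h2 : j ≠ 5) :
    Rad (DformLL j 5 (cD i j) - DformLL i 5 (cD j 5) - DformLL i j (cD i 5)) := by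
  have h : PT i j := t_all (i, j) (pair_cases i j h1 h2)
  unfold PT at h
  exact h

theorem rel_s (i j : Fin 6) (h1 : i < j) (h2 : j ≠ 5) :
    Rad (DformLL i 5 (cD i j) + DformLL j 5 (cD i 5) - DformLL i j (cD j 5)) := by
  have h : PS i j := s_all (i, j) (pair_cases i j h1 h2)
  unfold PS at h
  exact h

/-- The family of star polynomials. -/
noncomputable def cE (i j : Fin 6) : FK 6 := if i < j then evLL (cD i j) else - evLL (cD j i)

theorem cE_lt {i j : Fin 6} (h : i < j) : cE i j = evLL (cD i j) := if_pos h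

theorem cE_gt {i j : Fin 6} (h : j < i) : cE i j = - evLL (cD j i) := if_neg (not_lt.mpr h.le)

theorem cD_self (i : Fin 6) : cD i i = [] := by
  revert i
  decide

theorem cE_anti (i j : Fin 6) : cE i j = - cE j i := by
  rcases lt_trichotomy i j with h | h | h
  · rw [cE_lt h, cE_gt h, neg_neg]
  · subst h
    unfold cE
    rw [if_neg (lt_irrefl i), cD_self, evLL_nil, neg_zero, neg_zero]
  · rw [cE_gt h, cE_lt h]

theorem InU.cE (i j : Fin 6) : InU (cE i j) := by
  rcases lt_or_ge i j with h | h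
  · rw [cE_lt h]; exact InU.evLL _
  · unfold H387FK.cE
    rw [if_neg (not_lt.mpr h)]
    intro a b ha hb
    rw [map_neg, InU.evLL _ a b ha hb, neg_zero]

/-- The functionals. -/
noncomputable def CC (i j : Fin 6) : FK 6 →ₗ[ℚ] ℚ := (B (cE i j) : FK 6 →ₗ[ℚ] ℚ)

theorem CC_apply (i j : Fin 6) (u : FK 6) : CC i j u = B u (cE i j) := B_symm _ _

theorem lt5 {i : Fin 6} (h : i ≠ 5) : i < 5 := by
  revert h
  revert i
  decide

theorem CC_x5 {i j k : Fin 6} (h : i < j) (u : FK 6) :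
    CC i j (x k 5 * u) = B u (DformLL k 5 (cD i j)) := by
  rw [CC_apply, cE_lt h, B_DformLL]

theorem CC_5x {i j k : Fin 6} (h : k ≠ 5) (u : FK 6) :
    CC k 5 (x i j * u) = B u (DformLL i j (cD k 5)) := by
  rw [CC_apply, cE_lt (lt5 h), B_DformLL]

theorem CC_anti (i j : Fin 6) (u : FK 6) : CC i j u = - CC j i u := by
  rw [CC_apply, CC_apply, cE_anti i j, map_neg]

theorem mixed_CC : Mixed CC where
  anti i j := by
    refine LinearMap.ext fun u => ?_
    rw [LinearMap.neg_apply, CC_anti]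
  sq i hi u := by
    rw [CC_5x hi]
    by_cases h4 : i = 4
    · rw [h4, cD_45]
      exact radA (i := 4) (j := 5) S.s56 rfl c56 z_sq u
    · have : cD i 5 = [] := by
        revert hi h4
        revert i
        intro i hi h4
        fin_cases i
        · rfl
        · rfl
        · rfl
        · rfl
        · exact absurd rfl h4
        · exact absurd rfl hi
      rw [this, DformLL_nil, map_zero]
  comm i j k hi hj hk hij hki hkj u := by
    rcases lt_or_gt_of_ne hij with h | h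
    · rw [CC_x5 h, CC_5x hk]
      have := rel_comm i j k h hj hk hki hkj u
      rw [map_sub] at this
      linarith
    · rw [CC_anti i j, CC_x5 h, x_anti i j, neg_mul, map_neg, CC_5x hk]
      have := rel_comm j i k h hi hk hkj hki u
      rw [map_sub] at this
      linarith
  tri i j hi hj hij u := by
    rcases lt_or_gt_of_ne hij with h | h
    · rw [CC_x5 h, CC_5x hj, CC_5x hi]
      have := rel_t i j h hj u
      rw [map_sub, map_sub] at this
      linarith
    · rw [CC_anti i j, CC_x5 h, x_anti i j, neg_mul, map_neg, CC_5x hi, CC_5x hj]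
      have := rel_s j i h hi u
      rw [map_sub, map_add] at this
      linarith
  kill i j a b ha hb u := by
    rw [CC_apply]
    exact (InU.cE i j).B_mul_x u ha hb

/-- The element of degree 14. -/
noncomputable def Pel : FK 6 := evLf Pw

theorem len_Pw : Len 14 Pw :=
  hom_sound (W.a (W.a (W.a (W.a (W.a (W.a (W.a (W.a (W.a (W.a (W.a (W.a (W.a (W.a W.e))))))))))))))
    Pw homP

theorem rad_Pel : Rad Pel := by
  unfold Pel
  rw [← evL_revP]
  refine rad_of_all5 chk_all.val chk_all.hom (radT_sound chk_all.val chk_all.hom 8) ?_ radP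
  rw [evL_revP]
  exact eps_evLf len_Pw

theorem phiW_e (z : FK 6) : phiW z W.e = 0 := rfl
theorem phiW_a (z : FK 6) (w : W) : phiW z (W.a w) = 0 := rfl
theorem phiW_b (z : FK 6) (w : W) : phiW z (W.b w) = 0 := rfl
theorem phiW_c (z : FK 6) (w : W) : phiW z (W.c w) = 0 := rfl
theorem phiW_d (z : FK 6) (w : W) : phiW z (W.d w) = 0 := rfl
theorem phiW_f (z : FK 6) (w : W) : phiW z (W.f w) = B (evf (wl w)) z := rfl
theorem wl_e : wl W.e = [] := rfl
theorem wl_a (w : W) : wl (W.a w) = L.l1 :: wl w := rfl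
theorem wl_b (w : W) : wl (W.b w) = L.l2 :: wl w := rfl
theorem wl_c (w : W) : wl (W.c w) = L.l3 :: wl w := rfl
theorem wl_d (w : W) : wl (W.d w) = L.l4 :: wl w := rfl
theorem wl_f (w : W) : wl (W.f w) = L.l5 :: wl w := rfl
theorem evf_nil : evf [] = 1 := rfl
theorem cD_l5 : cD (vx L.l5) 5 = c56 := rfl

theorem Phi_one {C : Fin 6 → Fin 6 → FK 6 →ₗ[ℚ] ℚ} (h : Mixed C) : Phi h 1 = 0 := by
  show (rhoHom h 1 (1, 0)).2 = 0
  rw [map_one]
  rfl

theorem Phi_evf (w : W) : Phi mixed_CC (evf (wl w)) = phiW (evLL c56) w := by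
  have h0 : ∀ k : L, k ≠ L.l5 → ∀ w : List L, Phi mixed_CC (evf (k :: w)) = 0 := by
    intro k hk w
    rw [evf, y, Phi_x_mul, CC_apply, cE_lt (lt5 (vx_ne k))]
    have : cD (vx k) 5 = [] := by
      cases k
      · rfl
      · rfl
      · rfl
      · rfl
      · exact absurd rfl hk
    rw [this, evLL_nil, map_zero]
  cases w with
  | e => rw [wl_e, evf_nil, Phi_one, phiW_e]
  | a w => rw [wl_a, phiW_a]; exact h0 .l1 (by intro h; exact L.noConfusion h) (wl w)
  | b w => rw [wl_b, phiW_b]; exact h0 .l2 (by intro h; exact L.noConfusion h) (wl w)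
  | c w => rw [wl_c, phiW_c]; exact h0 .l3 (by intro h; exact L.noConfusion h) (wl w)
  | d w => rw [wl_d, phiW_d]; exact h0 .l4 (by intro h; exact L.noConfusion h) (wl w)
  | f w => rw [wl_f, phiW_f, evf, y, Phi_x_mul, CC_apply, cE_lt (lt5 (vx_ne L.l5)), cD_l5]

theorem Phi_evLf (p : List Tm) : Phi mixed_CC (evLf p) = phiL (evLL c56) p := by
  induction p with
  | nil => exact map_zero _
  | cons tm p ih =>
    obtain ⟨s, q, w⟩ := tm
    rw [evLf, map_add, map_smul, ih, Phi_evf, phiL, smul_eq_mul]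

theorem Pel_ne_zero : Pel ≠ 0 := by
  intro h
  have h1 := Phi_evLf Pw
  have h2 := nzroot_sound _ phP
  rw [ph_sound chk_all, evT_insLL, evT_z, phiL_zero_add, ← h1] at h2
  apply h2
  unfold Pel at h
  rw [h, map_zero]

end H387FK
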