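import Pool.Agent.helper387_fk.Inf

/-!
Embeddings of Fomin-Kirillov algebras given by injections of the sets of points, and the subalgebras
of graphs.
-/

namespace H387FK

attribute [local irreducible] instRing instAlg

variable {m n : ℕ}

/-- The homomorphism of Fomin-Kirillov algebras given by an injection. -/
noncomputable def embF (f : Fin m ↪ Fin n) : FK m →ₐ[ℚ] FK n :=
  lift (fun i j => x (f i) (f j))
    { anti := fun _ _ => x_anti _ _
      sq := fun _ _ h1 => (x_isRep n).sq _ _ (fun e => h1 (f.injective e))
      comm := fun _ _ _ _ h1 h2 h3 h4 h5 h6 => (x_isRep n).comm _ _ _ _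
        (fun e => h1 (f.injective e)) (fun e => h2 (f.injective e))
        (fun e => h3 (f.injective e)) (fun e => h4 (f.injective e))
        (fun e => h5 (f.injective e)) (fun e => h6 (f.injective e))
      tri := fun _ _ _ h1 h2 h3 => (x_isRep n).tri _ _ _
        (fun e => h1 (f.injective e)) (fun e => h2 (f.injective e))
        (fun e => h3 (f.injective e)) }

theorem embF_x (f : Fin m ↪ Fin n) (i j : Fin m) : embF f (x i j) = x (f i) (f j) := lift_x _ _ _ _

/-- The retraction on generators. -/
noncomputable def prx (g : Fin n → Option (Fin m)) (k l : Fin n) : FK m :=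
  (g k).elim 0 fun i => (g l).elim 0 fun j => x i j

theorem prx_some {g : Fin n → Option (Fin m)} {k l : Fin n} {i j : Fin m} (hk : g k = some i)
    (hl : g l = some j) : prx g k l = x i j := by
  unfold prx
  rw [hk, hl]
  rfl

theorem prx_left {g : Fin n → Option (Fin m)} {k l : Fin n} (hk : g k = none) :
    prx g k l = 0 := by
  unfold prx
  rw [hk]
  rfl

theorem prx_right {g : Fin n → Option (Fin m)} {k l : Fin n} (hl : g l = none) :
    prx g k l = 0 := by
  unfold prx
  rw [hl]
  cases g k <;> rfl

theorem prx_isRep {g : Fin n → Option (Fin m)} (hg : ∀ k l i, g k = some i → g l = some i → k = l) :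
    IsRep (prx g) where
  anti k l := by
    rcases hk : g k with _ | i
    · rw [prx_left hk, prx_right hk, neg_zero]
    · rcases hl : g l with _ | j
      · rw [prx_left hl, prx_right hl, neg_zero]
      · rw [prx_some hk hl, prx_some hl hk, x_anti]
  sq k l h := by
    rcases hk : g k with _ | i
    · rw [prx_left hk, zero_mul]
    · rcases hl : g l with _ | j
      · rw [prx_right hl, zero_mul]
      · rw [prx_some hk hl]
        exact (x_isRep m).sq _ _ (fun e => h (hg k l j (e ▸ hk) hl))
  comm k l p q h1 h2 h3 h4 h5 h6 := by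
    rcases hk : g k with _ | i
    · rw [prx_left hk, zero_mul, mul_zero]
    · rcases hl : g l with _ | j
      · rw [prx_right hl, zero_mul, mul_zero]
      · rcases hp : g p with _ | r
        · rw [prx_left hp, zero_mul, mul_zero]
        · rcases hq : g q with _ | s
          · rw [prx_right hq, zero_mul, mul_zero]
          · rw [prx_some hk hl, prx_some hp hq]
            exact (x_isRep m).comm _ _ _ _ (fun e => h1 (hg _ _ _ (e ▸ hk) hl))
              (fun e => h2 (hg _ _ _ (e ▸ hk) hp)) (fun e => h3 (hg _ _ _ (e ▸ hk) hq))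
              (fun e => h4 (hg _ _ _ (e ▸ hl) hp)) (fun e => h5 (hg _ _ _ (e ▸ hl) hq))
              (fun e => h6 (hg _ _ _ (e ▸ hp) hq))
  tri k l p h1 h2 h3 := by
    rcases hk : g k with _ | i
    · rw [prx_left hk, prx_right hk, zero_mul, mul_zero, zero_mul, add_zero, add_zero]
    · rcases hl : g l with _ | j
      · rw [prx_left hl, prx_right hl, zero_mul, mul_zero, zero_mul, add_zero, add_zero]
      · rcases hp : g p with _ | r
        · rw [prx_left hp, prx_right hp, zero_mul, mul_zero, zero_mul, add_zero, add_zero]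
        · rw [prx_some hk hl, prx_some hl hp, prx_some hp hk]
          exact (x_isRep m).tri _ _ _ (fun e => h1 (hg _ _ _ (e ▸ hk) hl))
            (fun e => h2 (hg _ _ _ (e ▸ hl) hp)) (fun e => h3 (hg _ _ _ (e ▸ hk) hp))

theorem embF_injective (f : Fin m ↪ Fin n) : Function.Injective (embF f) := by
  have hp := Function.partialInv_of_injective f.injective
  have hg : ∀ k l i, Function.partialInv f k = some i → Function.partialInv f l = some i →
      k = l := by
    intro k l i hk hl
    rw [← (hp i k).mp hk, ← (hp i l).mp hl]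
  have h : ∀ u, lift (prx (Function.partialInv f)) (prx_isRep hg) (embF f u) = u := by
    intro u
    refine ind_left (p := fun u => lift (prx (Function.partialInv f)) (prx_isRep hg) (embF f u) = u)
      ?_ ?_ ?_ ?_ u
    · rw [map_one, map_one]
    · intro u v hu hv; rw [map_add, map_add, hu, hv]
    · intro c u hu; rw [map_smul, map_smul, hu]
    · intro i j u hu
      rw [map_mul, map_mul, hu, embF_x, lift_x, prx_some ((hp i _).mpr rfl) ((hp j _).mpr rfl)]
  exact Function.LeftInverse.injective h

/-- The subalgebra generated by the edges of a graph. -/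
noncomputable def EG (G : SimpleGraph (Fin n)) : Subalgebra ℚ (FK n) :=
  Algebra.adjoin ℚ {u | ∃ i j, G.Adj i j ∧ u = x i j}

theorem embF_evf_mem (G : SimpleGraph (Fin n)) (f : Fin 6 ↪ Fin n)
    (h : ∀ k, k ≠ 5 → G.Adj (f k) (f 5)) (w : List L) : embF f (evf w) ∈ EG G := by
  induction w with
  | nil =>
    show embF f 1 ∈ _
    rw [map_one]
    exact Subalgebra.one_mem _
  | cons k w ih =>
    rw [evf, map_mul, y, embF_x]
    exact Subalgebra.mul_mem _ (Algebra.subset_adjoin ⟨_, _, h _ (vx_ne k), rfl⟩) ih

theorem embF_evLf_mem (G : SimpleGraph (Fin n)) (f : Fin 6 ↪ Fin n)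
    (h : ∀ k, k ≠ 5 → G.Adj (f k) (f 5)) (p : List Tm) : embF f (evLf p) ∈ EG G := by
  induction p with
  | nil =>
    show embF f 0 ∈ _
    rw [map_zero]
    exact Subalgebra.zero_mem _
  | cons tm p ih =>
    obtain ⟨s, q, w⟩ := tm
    rw [evLf, map_add, map_smul]
    exact Subalgebra.add_mem _ (Subalgebra.smul_mem _ (embF_evf_mem G f h _) _) ih

theorem not_finite_of_star (G : SimpleGraph (Fin n)) (f : Fin 6 ↪ Fin n)
    (h : ∀ k, k ≠ 5 → G.Adj (f k) (f 5)) : ¬ Module.Finite ℚ (EG G) := by
  intro hfin
  let p : EG G := ⟨embF f Pel, embF_evLf_mem G f h Pw⟩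
  have hli : LinearIndependent ℚ (fun k : ℕ => p ^ k) := by
    have h1 : LinearIndependent ℚ (fun k : ℕ => embF f (Pel ^ k)) :=
      Pel_pow_li.map' (embF f).toLinearMap (LinearMap.ker_eq_bot.mpr (embF_injective f))
    refine LinearIndependent.of_comp (EG G).val.toLinearMap ?_
    convert h1 using 1
    funext k
    show ((p ^ k : EG G) : FK n) = _
    rw [map_pow]
    rfl
  have := hli.finite
  exact not_finite ℕ

end H387FK
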