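import Pool.Agent.helper387_fk.GSound
import Pool.Agent.helper387_fk.Emb

/-!
Elements of the radical of degree 14 in the subalgebras of graphs, and infinite-dimensionality.
-/

namespace H387G

open H387FK

attribute [local irreducible] H387FK.instRing H387FK.instAlg

/-- The length of a word. -/
def wlen : W → Nat
  | .e => 0
  | .a w => wlen w + 1
  | .b w => wlen w + 1
  | .c w => wlen w + 1
  | .d w => wlen w + 1
  | .f w => wlen w + 1
  | .g w => wlen w + 1

/-- All words of a list have length `m`. -/
def lenL (m : Nat) : List Tm → Bool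
  | [] => true
  | .t _ _ w :: r => and (Nat.beq (wlen w) m) (lenL m r)

theorem length_wl (w : W) : (wl w).length = wlen w := by
  induction w with
  | e => rfl
  | a w ih => exact congrArg (· + 1) ih
  | b w ih => exact congrArg (· + 1) ih
  | c w ih => exact congrArg (· + 1) ih
  | d w ih => exact congrArg (· + 1) ih
  | f w ih => exact congrArg (· + 1) ih
  | g w ih => exact congrArg (· + 1) ih

theorem lenL_Len {m : ℕ} (p : List Tm) (h : lenL m p = true) : Len m p := by
  induction p with
  | nil => trivial
  | cons tm p ih =>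
    obtain ⟨s, q, w⟩ := tm
    rw [lenL, Bool.and_eq_true] at h
    exact ⟨by rw [length_wl]; exact Nat.eq_of_beq_eq_true h.1, ih h.2⟩

theorem evf_mem (D : GD) (w : List L) : evf D w ∈ deg 6 w.length := by
  induction w with
  | nil => exact one_mem_deg
  | cons k w ih => exact x_mul_mem_deg _ _ ih

theorem evLf_mem (D : GD) {m : ℕ} (p : List Tm) (h : Len m p) : evLf D p ∈ deg 6 m := by
  induction p with
  | nil => exact Submodule.zero_mem _
  | cons tm p ih =>
    obtain ⟨s, q, w⟩ := tm
    refine Submodule.add_mem _ (Submodule.smul_mem _ _ ?_) (ih h.2)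
    rw [← h.1]
    exact evf_mem D (wl w)

/-- The transposition of two points. -/
def tr (a b i : Fin 6) : Fin 6 := if i = a then b else if i = b then a else i

theorem tr_eq (a b i : Fin 6) : tr a b i = Equiv.swap a b i := rfl

/-- The action of the product of the transpositions of the letters of a word. -/
def apw (D : GD) : List L → Fin 6 → Fin 6
  | [], i => i
  | k :: w, i => tr (D.v1 k) (D.v2 k) (apw D w i)

/-- The product of the transpositions is trivial for all words of a list. -/
def allE (D : GD) : List Tm → Bool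
  | [] => true
  | .t _ _ w :: r => and (decide (∀ i : Fin 6, apw D (wl w) i = i)) (allE D r)

/-- The product of the transpositions of the letters of a word. -/
def gdeg (D : GD) : List L → Equiv.Perm (Fin 6)
  | [] => 1
  | k :: w => Equiv.swap (D.v1 k) (D.v2 k) * gdeg D w

theorem gdeg_apply (D : GD) (w : List L) (i : Fin 6) : gdeg D w i = apw D w i := by
  induction w with
  | nil => rfl
  | cons k w ih => rw [gdeg, Equiv.Perm.mul_apply, ih, apw, tr_eq]

theorem gp_evf (D : GD) (w : List L) :
    ∀ g, gp g (evf D w) = if g = gdeg D w then evf D w else 0 := by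
  induction w with
  | nil => exact gp_one
  | cons k w ih =>
    intro g
    rw [evf, y, gp_x_mul, ih, gdeg]
    by_cases e : Equiv.swap (D.v1 k) (D.v2 k) * g = gdeg D w
    · have e' : g = Equiv.swap (D.v1 k) (D.v2 k) * gdeg D w := by
        rw [← e, ← mul_assoc, Equiv.swap_mul_self, one_mul]
      rw [if_pos e, if_pos e']
    · have e' : ¬ g = Equiv.swap (D.v1 k) (D.v2 k) * gdeg D w := by
        intro e'
        apply e
        rw [e', ← mul_assoc, Equiv.swap_mul_self, one_mul]
      rw [if_neg e, if_neg e', mul_zero]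

theorem isE_evLf (D : GD) (p : List Tm) (h : allE D p = true) : IsE (evLf D p) := by
  intro g
  induction p with
  | nil =>
    show gp g 0 = if g = 1 then 0 else 0
    rw [map_zero, ite_self]
  | cons tm p ih =>
    obtain ⟨s, q, w⟩ := tm
    rw [allE, Bool.and_eq_true] at h
    have h1 := of_decide_eq_true h.1
    have h2 : gdeg D (wl w) = 1 := Equiv.ext fun i => by rw [gdeg_apply, h1]; rfl
    rw [evLf, map_add, map_smul, ih h.2, gp_evf, h2]
    split_ifs
    · rfl
    · rw [smul_zero, zero_add]

theorem Phi_evf (D : GD) (hlt : ∀ k, D.v1 k < D.v2 k) (w : List L) :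
    Phi mixed_CC (evf D w) = phW D (fun k => evLL (cD (D.v1 k) (D.v2 k))) w := by
  cases w with
  | nil => exact Phi_one mixed_CC
  | cons k w => rw [evf, y, Phi_x_mul, CC_apply, cE_lt (hlt k)]; rfl

theorem Phi_evLf (D : GD) (hlt : ∀ k, D.v1 k < D.v2 k) (p : List Tm) :
    Phi mixed_CC (evLf D p) = phL D (fun k => evLL (cD (D.v1 k) (D.v2 k))) p := by
  induction p with
  | nil => exact map_zero _
  | cons tm p ih =>
    obtain ⟨s, q, w⟩ := tm
    rw [evLf, map_add, map_smul, ih, Phi_evf D hlt, phL, smul_eq_mul]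

/-- The removal test. -/
def emG (a b i j : Fin 6) : Sg :=
  if i = a ∧ j = b then Sg.po else if i = b ∧ j = a then Sg.ne else Sg.no

theorem kap_eq_sgv {a b : Fin 6} (hab : a ≠ b) (i j : Fin 6) : kap a b i j = sgv (emG a b i j) := by
  unfold kap emG
  by_cases h1 : i = a ∧ j = b
  · have h2 : ¬ (i = b ∧ j = a) := by
      rintro ⟨h, _⟩
      exact hab (h1.1.symm.trans h)
    rw [if_pos h1, if_neg h2, if_pos h1, sub_zero, sgv]
  · by_cases h2 : i = b ∧ j = a
    · rw [if_neg h1, if_pos h2, if_neg h1, if_pos h2, zero_sub, sgv]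
    · rw [if_neg h1, if_neg h2, if_neg h1, if_neg h2, sub_zero, sgv]

/-- The data of a graph together with an element of degree 14 which pass all tests. -/
structure Good (D : GD) (cc : L → H387FK.T) (Q : List Tm) : Prop where
  law : Law D
  lt : ∀ k, D.v1 k < D.v2 k
  val : ∀ k, H387FK.evT (cc k) = evLL (cD (D.v1 k) (D.v2 k))
  tab : Chk D
  len : lenL 14 Q = true
  deg : allE D Q = true
  rad : chkQ D Q = true
  phi : nzroot (ph D cc Q H387FK.T.z) = true

theorem Good.dat {D : GD} {cc : L → H387FK.T} {Q : List Tm} (h : Good D cc Q) :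
    Dat 13 (Phi mixed_CC) (evLf D Q) where
  one := Phi_one mixed_CC
  co i j := by
    refine ⟨cE i j, cE_mem i j, ?_⟩
    refine LinearMap.ext fun u => ?_
    rw [fL_apply, Phi_x_mul]
    rfl
  P_deg := evLf_mem D Q (lenL_Len Q h.len)
  P_rad := chkQ_sound h.law h.tab Q (lenL_Len Q h.len) h.rad
  P_ne := by
    have h2 := nzroot_sound _ h.phi
    rw [ph_sound chk_all] at h2
    have e : (fun k => H387FK.evT (cc k)) = fun k => evLL (cD (D.v1 k) (D.v2 k)) := funext h.val
    rw [e, ← Phi_evLf D h.lt] at h2
    simpa [H387FK.evT] using h2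
  P_e := isE_evLf D Q h.deg

variable {n : ℕ}

theorem embF_evf_mem (D : GD) (G : SimpleGraph (Fin n)) (f : Fin 6 ↪ Fin n)
    (h : ∀ k, G.Adj (f (D.v1 k)) (f (D.v2 k))) (w : List L) : embF f (evf D w) ∈ EG G := by
  induction w with
  | nil =>
    show embF f 1 ∈ _
    rw [map_one]
    exact Subalgebra.one_mem _
  | cons k w ih =>
    rw [evf, map_mul, y, embF_x]
    exact Subalgebra.mul_mem _ (Algebra.subset_adjoin ⟨_, _, h k, rfl⟩) ih

theorem embF_evLf_mem (D : GD) (G : SimpleGraph (Fin n)) (f : Fin 6 ↪ Fin n)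
    (h : ∀ k, G.Adj (f (D.v1 k)) (f (D.v2 k))) (p : List Tm) : embF f (evLf D p) ∈ EG G := by
  induction p with
  | nil =>
    show embF f 0 ∈ _
    rw [map_zero]
    exact Subalgebra.zero_mem _
  | cons tm p ih =>
    obtain ⟨s, q, w⟩ := tm
    rw [evLf, map_add, map_smul]
    exact Subalgebra.add_mem _ (Subalgebra.smul_mem _ (embF_evf_mem D G f h _) _) ih

/-- The subalgebra of a graph which contains the given graph is infinite-dimensional. -/
theorem Good.not_finite {D : GD} {cc : L → H387FK.T} {Q : List Tm} (hg : Good D cc Q)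
    (G : SimpleGraph (Fin n)) (f : Fin 6 ↪ Fin n)
    (h : ∀ k, G.Adj (f (D.v1 k)) (f (D.v2 k))) : ¬ Module.Finite ℚ (EG G) := by
  intro hfin
  let p : EG G := ⟨embF f (evLf D Q), embF_evLf_mem D G f h Q⟩
  have hli : LinearIndependent ℚ (fun k : ℕ => p ^ k) := by
    have h1 : LinearIndependent ℚ (fun k : ℕ => embF f (evLf D Q ^ k)) :=
      hg.dat.linearIndependent.map' (embF f).toLinearMap
        (LinearMap.ker_eq_bot.mpr (embF_injective f))
    refine LinearIndependent.of_comp (EG G).val.toLinearMap ?_
    convert h1 using 1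
    funext k
    show ((p ^ k : EG G) : FK n) = _
    rw [map_pow]
    rfl
  have := hli.finite
  exact _root_.not_finite ℕ

end H387G
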