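import Pool.Agent.helper387_fk.GM4Data
import Pool.Agent.helper387_fk.CData
import Pool.Agent.helper387_fk.GInf

/-!
Kernel evaluation of the tests.
-/

namespace H387G.M4

open H387FK

attribute [local irreducible] H387FK.instRing H387FK.instAlg

theorem chk_a : chkR D Ra (W.a W.e) = true := by decide +kernel

theorem chk_b : chkR D Rb (W.b W.e) = true := by decide +kernel

theorem chk_c : chkR D Rc (W.c W.e) = true := by decide +kernel

theorem chk_d : chkR D Rd (W.d W.e) = true := by decide +kernel

theorem chk_f : chkR D Rf (W.f W.e) = true := by decide +kernel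

theorem chk_g : chkR D Rg (W.g W.e) = true := by decide +kernel

theorem tab : Chk D := by
  intro k
  cases k
  · exact chk_a
  · exact chk_b
  · exact chk_c
  · exact chk_d
  · exact chk_f
  · exact chk_g

theorem rad : chkQ D Q = true := by decide +kernel

theorem len : lenL 14 Q = true := by decide +kernel

/-- The star polynomials for the letters. -/
noncomputable def cc (k : L) : H387FK.T :=
  L.rec (motive := fun _ => H387FK.T) (insLL c15 H387FK.T.z) (insLL c12 H387FK.T.z) H387FK.T.z H387FK.T.z H387FK.T.z (insLL c13 H387FK.T.z) k

theorem phi : nzroot (ph D cc Q H387FK.T.z) = true := by decide +kernel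

theorem law : Law D where
  nx1 k s := by cases k <;> cases s <;> rfl
  nx2 k s := by cases k <;> cases s <;> rfl
  em k s := by
    rw [kap_eq_sgv]
    · cases k <;> cases s <;> rfl
    · cases k <;> decide

theorem lt (k : L) : D.v1 k < D.v2 k := by cases k <;> decide

theorem val (k : L) : H387FK.evT (cc k) = evLL (cD (D.v1 k) (D.v2 k)) := by
  cases k
  · exact (evT_insLL c15 H387FK.T.z).trans (zero_add _)
  · exact (evT_insLL c12 H387FK.T.z).trans (zero_add _)
  · rfl
  · rfl
  · rfl
  · exact (evT_insLL c13 H387FK.T.z).trans (zero_add _)

theorem deg : allE D Q = true := by decide +kernel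

theorem good : Good D cc Q := ⟨law, lt, val, tab, len, deg, rad, phi⟩

end H387G.M4
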