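import Mathlib

/-!
The Fomin-Kirillov algebra over the rationals: presentation, universal property, the action of the
symmetric group, the braided derivations and the canonical form.
-/

namespace H387FK

/-- The free generator with index `(i, j)`. -/
abbrev X {n : ℕ} (i j : Fin n) : FreeAlgebra ℚ (Fin n × Fin n) := FreeAlgebra.ι ℚ (i, j)

/-- The defining relations of the Fomin-Kirillov algebra. The generators are indexed by all ordered
pairs, and `X i j = - X j i` (so that the generators with `i = j` vanish). -/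
inductive Rel (n : ℕ) : FreeAlgebra ℚ (Fin n × Fin n) → FreeAlgebra ℚ (Fin n × Fin n) → Prop
  | anti (i j : Fin n) : Rel n (X i j) (-X j i)
  | sq (i j : Fin n) (hij : i ≠ j) : Rel n (X i j * X i j) 0
  | comm (i j k l : Fin n) (hij : i ≠ j) (hik : i ≠ k) (hil : i ≠ l) (hjk : j ≠ k) (hjl : j ≠ l)
      (hkl : k ≠ l) : Rel n (X i j * X k l) (X k l * X i j)
  | tri (i j k : Fin n) (hij : i ≠ j) (hjk : j ≠ k) (hik : i ≠ k) :
      Rel n (X i j * X j k + X j k * X k i + X k i * X i j) 0

/-- The Fomin-Kirillov algebra over `ℚ`. -/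
def FK (n : ℕ) : Type := RingQuot (Rel n)

noncomputable instance instRing (n : ℕ) : Ring (FK n) := RingQuot.instRing (Rel n)
noncomputable instance instAlg (n : ℕ) : Algebra ℚ (FK n) := RingQuot.instAlgebra (Rel n)

/-- The quotient map. -/
noncomputable def mk (n : ℕ) : FreeAlgebra ℚ (Fin n × Fin n) →ₐ[ℚ] FK n :=
  RingQuot.mkAlgHom ℚ (Rel n)

theorem mk_rel {n : ℕ} {a b : FreeAlgebra ℚ (Fin n × Fin n)} (h : Rel n a b) : mk n a = mk n b :=
  RingQuot.mkAlgHom_rel ℚ h

theorem mk_surjective (n : ℕ) : Function.Surjective (mk n) :=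
  RingQuot.mkAlgHom_surjective ℚ (Rel n)

/-- The generator `x_ij`. -/
noncomputable def x {n : ℕ} (i j : Fin n) : FK n := mk n (X i j)

/-- A family of elements of an algebra which satisfies the Fomin-Kirillov relations. -/
structure IsRep {n : ℕ} {A : Type*} [Ring A] (f : Fin n → Fin n → A) : Prop where
  anti : ∀ i j, f i j = - f j i
  sq : ∀ i j, i ≠ j → f i j * f i j = 0
  comm : ∀ i j k l, i ≠ j → i ≠ k → i ≠ l → j ≠ k → j ≠ l → k ≠ l → f i j * f k l = f k l * f i j
  tri : ∀ i j k, i ≠ j → j ≠ k → i ≠ k → f i j * f j k + f j k * f k i + f k i * f i j = 0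

section lift
variable {n : ℕ} {A : Type*} [Ring A] [Algebra ℚ A]

theorem IsRep.resp {f : Fin n → Fin n → A} (hf : IsRep f)
    ⦃a b : FreeAlgebra ℚ (Fin n × Fin n)⦄ (h : Rel n a b) :
    FreeAlgebra.lift ℚ (fun p : Fin n × Fin n => f p.1 p.2) a =
      FreeAlgebra.lift ℚ (fun p : Fin n × Fin n => f p.1 p.2) b := by
  cases h with
  | anti i j => simpa using hf.anti i j
  | sq i j hij => simpa using hf.sq i j hij
  | comm i j k l h1 h2 h3 h4 h5 h6 => simpa using hf.comm i j k l h1 h2 h3 h4 h5 h6
  | tri i j k h1 h2 h3 => simpa using hf.tri i j k h1 h2 h3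

/-- The universal property of the Fomin-Kirillov algebra. -/
noncomputable def lift (f : Fin n → Fin n → A) (hf : IsRep f) : FK n →ₐ[ℚ] A :=
  RingQuot.liftAlgHom ℚ ⟨FreeAlgebra.lift ℚ (fun p : Fin n × Fin n => f p.1 p.2), hf.resp⟩

@[simp] theorem lift_x (f : Fin n → Fin n → A) (hf : IsRep f) (i j : Fin n) :
    lift f hf (x i j) = f i j := by
  have := RingQuot.liftAlgHom_mkAlgHom_apply (S := ℚ) (s := Rel n)
    (FreeAlgebra.lift ℚ (fun p : Fin n × Fin n => f p.1 p.2)) hf.resp (X i j)
  refine this.trans ?_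
  simp

end lift

attribute [local irreducible] instRing instAlg

theorem x_isRep (n : ℕ) : IsRep (x : Fin n → Fin n → FK n) where
  anti i j := by simpa [x] using mk_rel (Rel.anti i j)
  sq i j h := by simpa [x] using mk_rel (Rel.sq i j h)
  comm i j k l h1 h2 h3 h4 h5 h6 := by simpa [x] using mk_rel (Rel.comm i j k l h1 h2 h3 h4 h5 h6)
  tri i j k h1 h2 h3 := by simpa [x] using mk_rel (Rel.tri i j k h1 h2 h3)

variable {n : ℕ}

theorem x_anti (i j : Fin n) : (x i j : FK n) = - x j i := (x_isRep n).anti i j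
theorem x_self (i : Fin n) : (x i i : FK n) = 0 := by
  have h := x_anti i i
  have h2 : (2 : ℚ) • (x i i : FK n) = 0 := by
    rw [two_smul]
    nth_rewrite 1 [h]
    simp
  simpa using h2

/-- Induction principle: left multiplication by generators. -/
theorem ind_left {p : FK n → Prop} (h1 : p 1) (hadd : ∀ u v, p u → p v → p (u + v))
    (hsmul : ∀ (c : ℚ) u, p u → p (c • u)) (hx : ∀ i j u, p u → p (x i j * u)) : ∀ u, p u := by
  have key : ∀ (q : FreeAlgebra ℚ (Fin n × Fin n)) (v : FK n), p v → p (mk n q * v) := by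
    intro q
    induction q using FreeAlgebra.induction with
    | grade0 r =>
      intro v hv
      rw [AlgHom.commutes, ← Algebra.smul_def]
      exact hsmul _ _ hv
    | grade1 s =>
      intro v hv
      exact hx s.1 s.2 v hv
    | mul a b ha hb =>
      intro v hv
      rw [map_mul, mul_assoc]
      exact ha _ (hb _ hv)
    | add a b ha hb =>
      intro v hv
      rw [map_add, add_mul]
      exact hadd _ _ (ha _ hv) (hb _ hv)
  intro u
  obtain ⟨q, rfl⟩ := mk_surjective n u
  simpa using key q 1 h1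

/-- Induction principle: right multiplication by generators. -/
theorem ind_right {p : FK n → Prop} (h1 : p 1) (hadd : ∀ u v, p u → p v → p (u + v))
    (hsmul : ∀ (c : ℚ) u, p u → p (c • u)) (hx : ∀ i j u, p u → p (u * x i j)) : ∀ u, p u := by
  have key : ∀ (q : FreeAlgebra ℚ (Fin n × Fin n)) (v : FK n), p v → p (v * mk n q) := by
    intro q
    induction q using FreeAlgebra.induction with
    | grade0 r =>
      intro v hv
      rw [AlgHom.commutes, ← Algebra.commutes, ← Algebra.smul_def]
      exact hsmul _ _ hv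
    | grade1 s =>
      intro v hv
      exact hx s.1 s.2 v hv
    | mul a b ha hb =>
      intro v hv
      rw [map_mul, ← mul_assoc]
      exact hb _ (ha _ hv)
    | add a b ha hb =>
      intro v hv
      rw [map_add, mul_add]
      exact hadd _ _ (ha _ hv) (hb _ hv)
  intro u
  obtain ⟨q, rfl⟩ := mk_surjective n u
  simpa using key q 1 h1

/-- The action of a permutation on the Fomin-Kirillov algebra: `w (x_ij) = x_(w i)(w j)`. -/
noncomputable def act (w : Equiv.Perm (Fin n)) : FK n →ₐ[ℚ] FK n :=
  lift (fun i j => x (w i) (w j))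
    { anti := fun i j => x_anti _ _
      sq := fun i j h => (x_isRep n).sq _ _ (by simpa using h)
      comm := fun i j k l h1 h2 h3 h4 h5 h6 => (x_isRep n).comm _ _ _ _ (by simpa using h1)
        (by simpa using h2) (by simpa using h3) (by simpa using h4) (by simpa using h5)
        (by simpa using h6)
      tri := fun i j k h1 h2 h3 => (x_isRep n).tri _ _ _ (by simpa using h1) (by simpa using h2)
        (by simpa using h3) }

@[simp] theorem act_x (w : Equiv.Perm (Fin n)) (i j : Fin n) : act w (x i j) = x (w i) (w j) :=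
  lift_x _ _ _ _

theorem act_act (w v : Equiv.Perm (Fin n)) (u : FK n) : act w (act v u) = act (w * v) u := by
  refine ind_left (p := fun u => act w (act v u) = act (w * v) u) ?_ ?_ ?_ ?_ u
  · simp
  · intro u v hu hv; simp only [map_add, hu, hv]
  · intro c u hu; simp only [map_smul, hu]
  · intro i j u hu; simp only [map_mul, hu, act_x, Equiv.Perm.mul_apply]

/-- The augmentation. -/
noncomputable def eps : FK n →ₐ[ℚ] ℚ :=
  lift (fun _ _ => (0 : ℚ))
    { anti := by simp
      sq := by simp
      comm := by simp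
      tri := by simp }

@[simp] theorem eps_x (i j : Fin n) : eps (x i j : FK n) = 0 := lift_x _ _ _ _

theorem eps_act (w : Equiv.Perm (Fin n)) (u : FK n) : eps (act w u) = eps u := by
  refine ind_left (p := fun u => eps (act w u) = eps u) ?_ ?_ ?_ ?_ u
  · simp
  · intro u v hu hv; simp only [map_add, hu, hv]
  · intro c u hu; simp only [map_smul, hu]
  · intro i j u hu; simp only [map_mul, act_x, eps_x, zero_mul]

/-- The pairing of generators. -/
def kap (a b i j : Fin n) : ℚ :=
  (if i = a ∧ j = b then 1 else 0) - (if i = b ∧ j = a then 1 else 0)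

theorem kap_anti (a b i j : Fin n) : kap a b i j = - kap a b j i := by
  unfold kap
  have h1 : (j = a ∧ i = b) ↔ (i = b ∧ j = a) := and_comm
  have h2 : (j = b ∧ i = a) ↔ (i = a ∧ j = b) := and_comm
  simp only [h1, h2]
  ring

theorem kap_anti' (a b i j : Fin n) : kap a b i j = - kap b a i j := by
  unfold kap
  ring

theorem kap_symm (a b i j : Fin n) : kap a b i j = kap i j a b := by
  unfold kap
  have h1 : (i = a ∧ j = b) ↔ (a = i ∧ b = j) :=
    ⟨fun h => ⟨h.1.symm, h.2.symm⟩, fun h => ⟨h.1.symm, h.2.symm⟩⟩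
  have h2 : (i = b ∧ j = a) ↔ (a = j ∧ b = i) :=
    ⟨fun h => ⟨h.2.symm, h.1.symm⟩, fun h => ⟨h.2.symm, h.1.symm⟩⟩
  simp only [h1, h2]

theorem kap_perm (w : Equiv.Perm (Fin n)) (a b i j : Fin n) :
    kap (w a) (w b) (w i) (w j) = kap a b i j := by
  unfold kap
  simp

theorem kap_swap (a b i j : Fin n) :
    kap a b (Equiv.swap a b i) (Equiv.swap a b j) = - kap a b i j := by
  have := kap_perm (Equiv.swap a b) b a i j
  rw [Equiv.swap_apply_left, Equiv.swap_apply_right] at this
  rw [this, kap_anti']

theorem kap_ne {a b i j : Fin n} (h : kap a b i j ≠ 0) : (i = a ∧ j = b) ∨ (i = b ∧ j = a) := by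
  unfold kap at h
  by_contra hc
  push Not at hc
  apply h
  rw [if_neg (fun h => hc.1 h.1 h.2), if_neg (fun h => hc.2 h.1 h.2)]
  simp

theorem kap_self {a b : Fin n} (h : a ≠ b) : kap a b a b = 1 := by
  unfold kap
  simp [h]

theorem kap_smul_x (a b i j : Fin n) (u : FK n) :
    kap a b i j • (x (Equiv.swap a b i) (Equiv.swap a b j) * u) = - kap a b i j • (x i j * u) := by
  by_cases h : kap a b i j = 0
  · simp [h]
  · rcases kap_ne h with ⟨rfl, rfl⟩ | ⟨rfl, rfl⟩
    · rw [Equiv.swap_apply_left, Equiv.swap_apply_right, x_anti j i]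
      simp
    · rw [Equiv.swap_apply_left, Equiv.swap_apply_right, x_anti j i]
      simp

end H387FK
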