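import Pool.Agent.helper387_fk.Form

/-!
The defining properties of the canonical form on the Fomin-Kirillov algebra; existence, uniqueness,
and compatibility with the inclusion of a smaller algebra into a larger one.
-/

namespace H387FK

attribute [local irreducible] instRing instAlg

/-- The homogeneous elements of degree `d`: the span of the products of `d` generators. -/
noncomputable def deg (n d : ℕ) : Submodule ℚ (FK n) :=
  (Submodule.span ℚ (Set.range fun p : Fin n × Fin n => (x p.1 p.2 : FK n))) ^ d

/-- The defining properties of the operator `Δ_ab`. -/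
structure IsDelta {n : ℕ} (a b : Fin n) (D : FK n →ₗ[ℚ] FK n) : Prop where
  one : D 1 = 0
  self : D (x a b) = 1
  other : ∀ i j, i ≠ j → ¬(i = a ∧ j = b) → ¬(i = b ∧ j = a) → D (x i j) = 0
  leibniz : ∀ P Q, D (P * Q) = D P * Q + act (Equiv.swap a b) P * D Q

/-- The defining properties of the canonical form: `F P Q = Δ_P(Q)` when `P` is a monomial and `Q`
is homogeneous of the same degree, and elements of different degrees are orthogonal. -/
def IsCanonicalForm {n : ℕ} (F : FK n →ₗ[ℚ] FK n →ₗ[ℚ] ℚ) : Prop :=
  ∃ Δ : Fin n → Fin n → Module.End ℚ (FK n),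
    (∀ a b, a ≠ b → IsDelta a b (Δ a b)) ∧
    (∀ l : List (Fin n × Fin n), (∀ p ∈ l, p.1 ≠ p.2) → ∀ Q ∈ deg n l.length,
      (l.map fun p => Δ p.1 p.2).prod Q =
        algebraMap ℚ (FK n) (F (l.map fun p => x p.1 p.2).prod Q)) ∧
    (∀ d e, d ≠ e → ∀ P ∈ deg n d, ∀ Q ∈ deg n e, F P Q = 0)

variable {n : ℕ}

theorem mem_deg_zero {u : FK n} (hu : u ∈ deg n 0) : ∃ c : ℚ, u = c • 1 := by
  unfold deg at hu
  rw [pow_zero, Submodule.mem_one] at hu
  obtain ⟨c, rfl⟩ := hu
  exact ⟨c, Algebra.algebraMap_eq_smul_one c⟩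

theorem smul_one_mem_deg (c : ℚ) : (c • 1 : FK n) ∈ deg n 0 := by
  unfold deg
  rw [pow_zero, Submodule.mem_one]
  exact ⟨c, Algebra.algebraMap_eq_smul_one c⟩

theorem x_mul_mem_deg (i j : Fin n) {d : ℕ} {u : FK n} (hu : u ∈ deg n d) :
    x i j * u ∈ deg n (d + 1) := by
  unfold deg at *
  rw [pow_succ']
  exact Submodule.mul_mem_mul (Submodule.subset_span ⟨(i, j), rfl⟩) hu

theorem deg_succ_le {d : ℕ} {S : Submodule ℚ (FK n)}
    (hx : ∀ i j w, w ∈ deg n d → x i j * w ∈ S) : deg n (d + 1) ≤ S := by
  have h : deg n (d + 1) =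
      (Submodule.span ℚ (Set.range fun p : Fin n × Fin n => (x p.1 p.2 : FK n))) * deg n d := by
    unfold deg
    rw [pow_succ']
  rw [h, Submodule.mul_le]
  intro m hm w hw
  induction hm using Submodule.span_induction with
  | mem m hm =>
    obtain ⟨p, rfl⟩ := hm
    exact hx p.1 p.2 w hw
  | zero => rw [zero_mul]; exact S.zero_mem
  | add u v _ _ hu hv => rw [add_mul]; exact S.add_mem hu hv
  | smul c u _ hu => rw [smul_mul_assoc]; exact S.smul_mem c hu

theorem dl_deg_zero (a b : Fin n) {u : FK n} (hu : u ∈ deg n 0) : dl a b u = 0 := by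
  obtain ⟨c, rfl⟩ := mem_deg_zero hu
  rw [map_smul, dl_one, smul_zero]

theorem dl_deg_succ (a b : Fin n) (d : ℕ) : deg n (d + 1) ≤ (deg n d).comap (dl a b) := by
  induction d with
  | zero =>
    refine deg_succ_le ?_
    intro i j w hw
    rw [Submodule.mem_comap, dl_x_mul, dl_deg_zero a b hw, mul_zero, zero_add]
    exact Submodule.smul_mem _ _ hw
  | succ d ih =>
    refine deg_succ_le ?_
    intro i j w hw
    rw [Submodule.mem_comap, dl_x_mul]
    exact Submodule.add_mem _ (x_mul_mem_deg _ _ (ih hw)) (Submodule.smul_mem _ _ hw)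

theorem Th_deg (d m : ℕ) (Q : FK n) (hQ : Q ∈ deg n (d + m)) :
    ∀ P ∈ deg n d, Th P Q ∈ deg n m := by
  induction d generalizing m with
  | zero =>
    intro P hP
    obtain ⟨c, rfl⟩ := mem_deg_zero hP
    rw [map_smul, map_one, LinearMap.smul_apply, Module.End.one_apply]
    rw [zero_add] at hQ
    exact Submodule.smul_mem _ _ hQ
  | succ d ih =>
    intro P hP
    have h : deg n (d + 1) ≤ (deg n m).comap
        ((LinearMap.applyₗ (R := ℚ) Q).comp (Th (n := n)).toLinearMap) := by
      refine deg_succ_le ?_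
      intro i j w hw
      rw [Submodule.mem_comap]
      show Th (x i j * w) Q ∈ deg n m
      rw [map_mul, Module.End.mul_apply, Th_x]
      refine dl_deg_succ i j m (ih (m + 1) ?_ w hw)
      rw [show d + (m + 1) = d + 1 + m by omega]
      exact hQ
    exact h hP

theorem Th_deg_lt (d e : ℕ) (hde : e < d) (Q : FK n) (hQ : Q ∈ deg n e) :
    ∀ P ∈ deg n d, Th P Q = 0 := by
  induction d with
  | zero => omega
  | succ d ih =>
    intro P hP
    have h : deg n (d + 1) ≤ (⊥ : Submodule ℚ (FK n)).comap
        ((LinearMap.applyₗ (R := ℚ) Q).comp (Th (n := n)).toLinearMap) := by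
      refine deg_succ_le ?_
      intro i j w hw
      rw [Submodule.mem_comap, Submodule.mem_bot]
      show Th (x i j * w) Q = 0
      rw [map_mul, Module.End.mul_apply, Th_x]
      rcases Nat.lt_or_ge e d with h | h
      · rw [ih h w hw, map_zero]
      · have he : e = d := by omega
        subst he
        exact dl_deg_zero i j (Th_deg e 0 Q (by rwa [add_zero]) w hw)
    exact (Submodule.mem_bot ℚ).mp (h hP)

theorem eps_deg_succ (d : ℕ) {u : FK n} (hu : u ∈ deg n (d + 1)) : eps u = 0 := by
  have h : deg n (d + 1) ≤ LinearMap.ker (eps (n := n)).toLinearMap := by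
    refine deg_succ_le ?_
    intro i j w _
    rw [LinearMap.mem_ker]
    show eps (x i j * w) = 0
    rw [map_mul, eps_x, zero_mul]
  exact LinearMap.mem_ker.mp (h hu)

/-- The monomial of a list. -/
noncomputable def mono (l : List (Fin n × Fin n)) : FK n := (l.map fun p => x p.1 p.2).prod

theorem mono_cons (p : Fin n × Fin n) (l : List (Fin n × Fin n)) :
    mono (p :: l) = x p.1 p.2 * mono l := by
  unfold mono
  rw [List.map_cons, List.prod_cons]

theorem mono_mem (l : List (Fin n × Fin n)) : mono l ∈ deg n l.length := by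
  induction l with
  | nil =>
    have := smul_one_mem_deg (n := n) 1
    rwa [one_smul] at this
  | cons p l ih =>
    rw [mono_cons, List.length_cons]
    exact x_mul_mem_deg _ _ ih

theorem Th_mono (l : List (Fin n × Fin n)) : Th (mono l) = (l.map fun p => dl p.1 p.2).prod := by
  unfold mono
  rw [map_list_prod, List.map_map]
  congr 1
  exact List.map_congr_left fun p _ => Th_x _ _

theorem isDelta_dl {a b : Fin n} (hab : a ≠ b) : IsDelta a b (dl a b) where
  one := dl_one a b
  self := by rw [dl_x, kap_self hab, one_smul]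
  other i j _ h1 h2 := by
    rw [dl_x]
    have : kap a b i j = 0 := by
      by_contra h
      rcases kap_ne h with h | h
      · exact h1 h
      · exact h2 h
    rw [this, zero_smul]
  leibniz := dl_mul a b

theorem B_isCanonicalForm : IsCanonicalForm (B (n := n)) := by
  refine ⟨dl, fun a b h => isDelta_dl h, ?_, ?_⟩
  · intro l _ Q hQ
    rw [← Th_mono]
    show Th (mono l) Q = algebraMap ℚ (FK n) (B (mono l) Q)
    have h := Th_deg l.length 0 Q (by rwa [add_zero]) (mono l) (mono_mem l)
    obtain ⟨c, hc⟩ := mem_deg_zero h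
    rw [B_def, hc, map_smul, map_one, smul_eq_mul, mul_one, Algebra.algebraMap_eq_smul_one]
  · intro d e hde P hP Q hQ
    rw [B_def]
    rcases Nat.lt_or_ge e d with h | h
    · rw [Th_deg_lt d e h Q hQ P hP, map_zero]
    · obtain ⟨m, rfl⟩ : ∃ m, e = d + (m + 1) := ⟨e - d - 1, by omega⟩
      exact eps_deg_succ m (Th_deg d (m + 1) Q hQ P hP)

theorem IsDelta.eq_dl {a b : Fin n} (hab : a ≠ b) {D : FK n →ₗ[ℚ] FK n} (h : IsDelta a b D) :
    D = dl a b := by
  refine LinearMap.ext ?_
  intro u
  refine ind_left (p := fun u => D u = dl a b u) ?_ ?_ ?_ ?_ u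
  · rw [h.one, dl_one]
  · intro u v hu hv; rw [map_add, map_add, hu, hv]
  · intro c u hu; rw [map_smul, map_smul, hu]
  · intro i j u hu
    have hx : D (x i j) = dl a b (x i j) := by
      by_cases h1 : i = a ∧ j = b
      · obtain ⟨rfl, rfl⟩ := h1
        rw [h.self, (isDelta_dl hab).self]
      · by_cases h2 : i = b ∧ j = a
        · obtain ⟨rfl, rfl⟩ := h2
          rw [x_anti i j, map_neg, map_neg, h.self, (isDelta_dl hab).self]
        · by_cases h3 : i = j
          · subst h3
            rw [x_self, map_zero, map_zero]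
          · rw [h.other i j h3 h1 h2, (isDelta_dl hab).other i j h3 h1 h2]
    rw [h.leibniz, dl_mul, hx, hu]

theorem mem_span_mono (u : FK n) : u ∈ Submodule.span ℚ (Set.range (mono (n := n))) := by
  refine ind_left (p := fun u => u ∈ Submodule.span ℚ (Set.range (mono (n := n)))) ?_ ?_ ?_ ?_ u
  · exact Submodule.subset_span ⟨[], rfl⟩
  · intro u v hu hv; exact Submodule.add_mem _ hu hv
  · intro c u hu; exact Submodule.smul_mem _ _ hu
  · intro i j u hu
    induction hu using Submodule.span_induction with
    | mem u hu =>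
      obtain ⟨l, rfl⟩ := hu
      exact Submodule.subset_span ⟨(i, j) :: l, mono_cons _ _⟩
    | zero => rw [mul_zero]; exact Submodule.zero_mem _
    | add u v _ _ hu hv => rw [mul_add]; exact Submodule.add_mem _ hu hv
    | smul c u _ hu => rw [mul_smul_comm]; exact Submodule.smul_mem _ _ hu

theorem mono_eq_zero (l : List (Fin n × Fin n)) (h : ¬ ∀ p ∈ l, p.1 ≠ p.2) : mono l = 0 := by
  induction l with
  | nil => exact absurd (fun p hp => absurd hp List.not_mem_nil) h
  | cons p l ih =>
    rw [mono_cons]
    by_cases hp : p.1 = p.2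
    · rw [hp, x_self, zero_mul]
    · rw [ih, mul_zero]
      intro h'
      apply h
      intro q hq
      rcases List.mem_cons.mp hq with rfl | hq
      · exact hp
      · exact h' q hq

theorem algebraMap_inj {c d : ℚ} (h : algebraMap ℚ (FK n) c = algebraMap ℚ (FK n) d) : c = d := by
  have := congrArg (eps (n := n)) h
  simpa using this

/-- The canonical form is determined by its defining properties. -/
theorem IsCanonicalForm.eq_B {F : FK n →ₗ[ℚ] FK n →ₗ[ℚ] ℚ} (h : IsCanonicalForm F) : F = B := by
  obtain ⟨Δ, hΔ, h1, h2⟩ := h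
  have key : ∀ l l' : List (Fin n × Fin n), F (mono l) (mono l') = B (mono l) (mono l') := by
    intro l l'
    by_cases hl : ∀ p ∈ l, p.1 ≠ p.2
    · by_cases hlen : l.length = l'.length
      · have hQ : mono l' ∈ deg n l.length := by rw [hlen]; exact mono_mem l'
        have e1 := h1 l hl (mono l') hQ
        obtain ⟨Δ', hΔ', h1', _⟩ := B_isCanonicalForm (n := n)
        have e2 := h1' l hl (mono l') hQ
        have e3 : (l.map fun p => Δ p.1 p.2) = (l.map fun p => Δ' p.1 p.2) :=
          List.map_congr_left fun p hp => by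
            rw [(hΔ p.1 p.2 (hl p hp)).eq_dl (hl p hp), (hΔ' p.1 p.2 (hl p hp)).eq_dl (hl p hp)]
        rw [e3, e2] at e1
        exact (algebraMap_inj e1).symm
      · obtain ⟨_, _, _, h2'⟩ := B_isCanonicalForm (n := n)
        rw [h2 _ _ hlen _ (mono_mem l) _ (mono_mem l'), h2' _ _ hlen _ (mono_mem l) _ (mono_mem l')]
    · rw [mono_eq_zero l hl, map_zero, map_zero]
  refine LinearMap.ext fun P => LinearMap.ext fun Q => ?_
  have hP := mem_span_mono P
  induction hP using Submodule.span_induction with
  | mem P hP =>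
    obtain ⟨l, rfl⟩ := hP
    have hQ := mem_span_mono Q
    induction hQ using Submodule.span_induction with
    | mem Q hQ => obtain ⟨l', rfl⟩ := hQ; exact key l l'
    | zero => rw [map_zero, map_zero]
    | add u v _ _ hu hv => rw [map_add, map_add, hu, hv]
    | smul c u _ hu => rw [map_smul, map_smul, hu]
  | zero => rw [map_zero, map_zero]
  | add u v _ _ hu hv => rw [map_add, map_add, LinearMap.add_apply, LinearMap.add_apply, hu, hv]
  | smul c u _ hu => rw [map_smul, map_smul, LinearMap.smul_apply, LinearMap.smul_apply, hu]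

section embed
variable {m : ℕ}

/-- The inclusion of a smaller algebra. -/
noncomputable def iota (h : m ≤ n) : FK m →ₐ[ℚ] FK n :=
  lift (fun i j => x (Fin.castLE h i) (Fin.castLE h j))
    { anti := fun _ _ => x_anti _ _
      sq := fun _ _ h1 => (x_isRep n).sq _ _ (fun e => h1 (Fin.castLE_injective h e))
      comm := fun _ _ _ _ h1 h2 h3 h4 h5 h6 => (x_isRep n).comm _ _ _ _
        (fun e => h1 (Fin.castLE_injective h e)) (fun e => h2 (Fin.castLE_injective h e))
        (fun e => h3 (Fin.castLE_injective h e)) (fun e => h4 (Fin.castLE_injective h e))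
        (fun e => h5 (Fin.castLE_injective h e)) (fun e => h6 (Fin.castLE_injective h e))
      tri := fun _ _ _ h1 h2 h3 => (x_isRep n).tri _ _ _
        (fun e => h1 (Fin.castLE_injective h e)) (fun e => h2 (Fin.castLE_injective h e))
        (fun e => h3 (Fin.castLE_injective h e)) }

theorem iota_x (h : m ≤ n) (i j : Fin m) :
    iota h (x i j) = x (Fin.castLE h i) (Fin.castLE h j) := lift_x _ _ _ _

/-- The retraction on generators. -/
noncomputable def retx (m : ℕ) (i j : Fin n) : FK m :=
  if h : i.1 < m ∧ j.1 < m then x ⟨i.1, h.1⟩ ⟨j.1, h.2⟩ else 0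

theorem retx_of (i j : Fin n) (hi : i.1 < m) (hj : j.1 < m) :
    retx m i j = x ⟨i.1, hi⟩ ⟨j.1, hj⟩ := dif_pos ⟨hi, hj⟩

theorem retx_left (i j : Fin n) (hi : ¬ i.1 < m) : retx m i j = 0 := dif_neg fun h => hi h.1

theorem retx_right (i j : Fin n) (hj : ¬ j.1 < m) : retx m i j = 0 := dif_neg fun h => hj h.2

theorem retx_isRep : IsRep (retx m : Fin n → Fin n → FK m) where
  anti i j := by
    by_cases hi : i.1 < m
    · by_cases hj : j.1 < m
      · rw [retx_of i j hi hj, retx_of j i hj hi, x_anti]
      · rw [retx_right i j hj, retx_left j i hj, neg_zero]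
    · rw [retx_left i j hi, retx_right j i hi, neg_zero]
  sq i j hij := by
    by_cases hi : i.1 < m
    · by_cases hj : j.1 < m
      · rw [retx_of i j hi hj]
        exact (x_isRep m).sq _ _ (fun e => hij (Fin.ext (congrArg Fin.val e :)))
      · rw [retx_right i j hj, zero_mul]
    · rw [retx_left i j hi, zero_mul]
  comm i j k l h1 h2 h3 h4 h5 h6 := by
    by_cases hi : i.1 < m
    · by_cases hj : j.1 < m
      · by_cases hk : k.1 < m
        · by_cases hl : l.1 < m
          · rw [retx_of i j hi hj, retx_of k l hk hl]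
            exact (x_isRep m).comm _ _ _ _ (fun e => h1 (Fin.ext (congrArg Fin.val e :)))
              (fun e => h2 (Fin.ext (congrArg Fin.val e :)))
              (fun e => h3 (Fin.ext (congrArg Fin.val e :)))
              (fun e => h4 (Fin.ext (congrArg Fin.val e :)))
              (fun e => h5 (Fin.ext (congrArg Fin.val e :)))
              (fun e => h6 (Fin.ext (congrArg Fin.val e :)))
          · rw [retx_right k l hl, mul_zero, zero_mul]
        · rw [retx_left k l hk, mul_zero, zero_mul]
      · rw [retx_right i j hj, mul_zero, zero_mul]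
    · rw [retx_left i j hi, mul_zero, zero_mul]
  tri i j k h1 h2 h3 := by
    by_cases hi : i.1 < m
    · by_cases hj : j.1 < m
      · by_cases hk : k.1 < m
        · rw [retx_of i j hi hj, retx_of j k hj hk, retx_of k i hk hi]
          exact (x_isRep m).tri _ _ _ (fun e => h1 (Fin.ext (congrArg Fin.val e :)))
            (fun e => h2 (Fin.ext (congrArg Fin.val e :)))
            (fun e => h3 (Fin.ext (congrArg Fin.val e :)))
        · rw [retx_right j k hk, retx_left k i hk, mul_zero, zero_mul, zero_mul, add_zero, add_zero]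
      · rw [retx_right i j hj, retx_left j k hj, mul_zero, zero_mul, mul_zero, add_zero, add_zero]
    · rw [retx_left i j hi, retx_right k i hi, mul_zero, zero_mul, zero_mul, add_zero, add_zero]

/-- The retraction onto a smaller algebra. -/
noncomputable def ret (m : ℕ) : FK n →ₐ[ℚ] FK m := lift (retx m) retx_isRep

theorem ret_x (i j : Fin n) : ret m (x i j) = retx m i j := lift_x _ _ _ _

theorem ret_iota (h : m ≤ n) (u : FK m) : ret m (iota h u) = u := by
  refine ind_left (p := fun u => ret m (iota h u) = u) ?_ ?_ ?_ ?_ u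
  · rw [map_one, map_one]
  · intro u v hu hv; rw [map_add, map_add, hu, hv]
  · intro c u hu; rw [map_smul, map_smul, hu]
  · intro i j u hu
    rw [map_mul, map_mul, hu, iota_x, ret_x,
      retx_of (Fin.castLE h i) (Fin.castLE h j) (show i.1 < m from i.2) (show j.1 < m from j.2)]
    rfl

theorem eps_iota (h : m ≤ n) (u : FK m) : eps (iota h u) = eps u := by
  refine ind_left (p := fun u => eps (iota h u) = eps u) ?_ ?_ ?_ ?_ u
  · rw [map_one, map_one, map_one]
  · intro u v hu hv; rw [map_add, map_add, map_add, hu, hv]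
  · intro c u hu; rw [map_smul, map_smul, map_smul, hu]
  · intro i j u _
    rw [map_mul, map_mul, map_mul, iota_x, eps_x, eps_x, zero_mul, zero_mul]

theorem kap_castLE (h : m ≤ n) (a b i j : Fin m) :
    kap (Fin.castLE h a) (Fin.castLE h b) (Fin.castLE h i) (Fin.castLE h j) = kap a b i j := by
  unfold kap
  simp only [Fin.castLE_inj]

theorem dl_iota (h : m ≤ n) (a b : Fin m) (u : FK m) :
    dl (Fin.castLE h a) (Fin.castLE h b) (iota h u) = iota h (dl a b u) := by
  refine ind_left (p := fun u => dl (Fin.castLE h a) (Fin.castLE h b) (iota h u) =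
    iota h (dl a b u)) ?_ ?_ ?_ ?_ u
  · rw [map_one, dl_one, dl_one, map_zero]
  · intro u v hu hv; simp only [map_add, hu, hv]
  · intro c u hu; simp only [map_smul, hu]
  · intro i j u hu
    rw [map_mul, iota_x, dl_x_mul, hu, dl_x_mul, map_add, map_mul, map_smul, iota_x, kap_castLE,
      (Fin.castLE_injective h).swap_apply, (Fin.castLE_injective h).swap_apply]

theorem dl_iota_zero (h : m ≤ n) (a b : Fin n) (hab : ¬ (a.1 < m ∧ b.1 < m)) (u : FK m) :
    dl a b (iota h u) = 0 := by
  refine ind_left (p := fun u => dl a b (iota h u) = 0) ?_ ?_ ?_ ?_ u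
  · rw [map_one, dl_one]
  · intro u v hu hv; rw [map_add, map_add, hu, hv, add_zero]
  · intro c u hu; rw [map_smul, map_smul, hu, smul_zero]
  · intro i j u hu
    rw [map_mul, iota_x, dl_x_mul, hu, mul_zero, zero_add]
    have : kap a b (Fin.castLE h i) (Fin.castLE h j) = 0 := by
      by_contra hk
      apply hab
      rcases kap_ne hk with ⟨rfl, rfl⟩ | ⟨rfl, rfl⟩
      · exact ⟨i.2, j.2⟩
      · exact ⟨j.2, i.2⟩
    rw [this, zero_smul]

theorem B_iota (h : m ≤ n) (u : FK n) (v : FK m) : B u (iota h v) = B (ret m u) v := by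
  revert v
  refine ind_right (p := fun u => ∀ v, B u (iota h v) = B (ret m u) v) ?_ ?_ ?_ ?_ u
  · intro v
    rw [B_one_left, map_one (ret m), B_one_left, eps_iota]
  · intro u u' hu hu' v; simp only [map_add, LinearMap.add_apply, hu, hu']
  · intro c u hu v; simp only [map_smul, LinearMap.smul_apply, hu]
  · intro a b u hu v
    rw [B_mul_x, map_mul, ret_x]
    by_cases hab : a.1 < m ∧ b.1 < m
    · rw [retx_of a b hab.1 hab.2, B_mul_x, ← hu, ← dl_iota]
      rfl
    · rw [dl_iota_zero h a b hab, map_zero]
      have : retx m a b = 0 := dif_neg hab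
      rw [this, mul_zero, map_zero, LinearMap.zero_apply]

theorem iota_deg (h : m ≤ n) (d : ℕ) : deg m d ≤ (deg n d).comap (iota h).toLinearMap := by
  induction d with
  | zero =>
    intro u hu
    obtain ⟨c, rfl⟩ := mem_deg_zero hu
    rw [Submodule.mem_comap]
    show iota h (c • 1) ∈ _
    rw [map_smul, map_one]
    exact smul_one_mem_deg c
  | succ d ih =>
    refine deg_succ_le ?_
    intro i j w hw
    rw [Submodule.mem_comap]
    show iota h (x i j * w) ∈ _
    rw [map_mul, iota_x]
    exact x_mul_mem_deg _ _ (ih hw)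

end embed

end H387FK
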