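import Pool.Agent.helper387_fk.Form

/-!
Certificates for identities in the Fomin-Kirillov algebra on six points: a combination of two-sided
multiples of the quadratic relations is added up in a binary tree and compared with a polynomial.
-/

namespace H387C

open H387FK

attribute [local irreducible] H387FK.instRing H387FK.instAlg

/-- The generators `x_ij` with `i < j`. -/
inductive L : Type
  | a12 | a13 | a14 | a15 | a16 | a23 | a24 | a25 | a26 | a34 | a35 | a36 | a45 | a46 | a56

/-- The first vertex. -/
def v1 : L → Fin 6
  | .a12 => 0 | .a13 => 0 | .a14 => 0 | .a15 => 0 | .a16 => 0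
  | .a23 => 1 | .a24 => 1 | .a25 => 1 | .a26 => 1
  | .a34 => 2 | .a35 => 2 | .a36 => 2 | .a45 => 3 | .a46 => 3 | .a56 => 4

/-- The second vertex. -/
def v2 : L → Fin 6
  | .a12 => 1 | .a13 => 2 | .a14 => 3 | .a15 => 4 | .a16 => 5
  | .a23 => 2 | .a24 => 3 | .a25 => 4 | .a26 => 5
  | .a34 => 3 | .a35 => 4 | .a36 => 5 | .a45 => 4 | .a46 => 5 | .a56 => 5

theorem v1_lt_v2 (l : L) : v1 l < v2 l := by cases l <;> decide

/-- Put the code of a letter in front of a path. -/
noncomputable def bt (l : L) (r : List Bool) : List Bool :=
  L.rec (motive := fun _ => List Bool)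
    (false :: false :: false :: false :: r) (false :: false :: false :: true :: r)
    (false :: false :: true :: false :: r) (false :: false :: true :: true :: r)
    (false :: true :: false :: false :: r) (false :: true :: false :: true :: r)
    (false :: true :: true :: false :: r) (false :: true :: true :: true :: r)
    (true :: false :: false :: false :: r) (true :: false :: false :: true :: r)
    (true :: false :: true :: false :: r) (true :: false :: true :: true :: r)
    (true :: true :: false :: false :: r) (true :: true :: false :: true :: r)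
    (true :: true :: true :: false :: r) l

/-- Decode a letter. -/
def dl4 : Bool → Bool → Bool → Bool → L
  | false, false, false, false => .a12 | false, false, false, true => .a13
  | false, false, true, false => .a14 | false, false, true, true => .a15
  | false, true, false, false => .a16 | false, true, false, true => .a23
  | false, true, true, false => .a24 | false, true, true, true => .a25
  | true, false, false, false => .a26 | true, false, false, true => .a34
  | true, false, true, false => .a35 | true, false, true, true => .a36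
  | true, true, false, false => .a45 | true, true, false, true => .a46
  | true, true, true, false => .a56 | true, true, true, true => .a56

/-- Decode a path. -/
def dec : List Bool → List L
  | a :: b :: c :: d :: r => dl4 a b c d :: dec r
  | _ => []

theorem dec_bt (l : L) (r : List Bool) : dec (bt l r) = l :: dec r := by cases l <;> rfl

/-- The path of a word, followed by a path. -/
noncomputable def wp (w : List L) (r : List Bool) : List Bool :=
  List.rec (motive := fun _ => List Bool) r (fun l _ ih => bt l ih) w

theorem dec_wp (w : List L) (r : List Bool) : dec (wp w r) = w ++ dec r := by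
  induction w with
  | nil => rfl
  | cons l w ih =>
    show dec (bt l (wp w r)) = _
    rw [dec_bt, ih]
    rfl

/-- Binary trees with positive and negative multiplicities. -/
inductive BT : Type
  | z | n (p m : Nat) (l r : BT)

/-- Evaluate the head of a tree before it is passed on. -/
noncomputable def fo (t : BT) (k : BT → BT) : BT :=
  BT.rec (motive := fun _ => BT) (k BT.z) (fun p m l r _ _ => k (BT.n p m l r)) t

theorem fo_eq (t : BT) (k : BT → BT) : fo t k = k t := by cases t <;> rfl

/-- Change the multiplicities by one. -/
noncomputable def bump (s : Bool) (p m : Nat) (l r : BT) : BT :=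
  Bool.rec (motive := fun _ => BT) (BT.n (Nat.succ p) m l r) (BT.n p (Nat.succ m) l r) s

/-- Insert a path with a sign. -/
noncomputable def ins (s : Bool) (w : List Bool) : BT → BT :=
  List.rec (motive := fun _ => BT → BT)
    (fun t => BT.rec (motive := fun _ => BT) (bump s 0 0 BT.z BT.z) (fun p m l r _ _ => bump s p m l r) t)
    (fun b _ ih t => Bool.rec (motive := fun _ => BT)
      (BT.rec (motive := fun _ => BT) (fo (ih BT.z) (fun l' => BT.n 0 0 l' BT.z))
        (fun p m l r _ _ => fo (ih l) (fun l' => BT.n p m l' r)) t)
      (BT.rec (motive := fun _ => BT) (fo (ih BT.z) (fun r' => BT.n 0 0 BT.z r'))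
        (fun p m l r _ _ => fo (ih r) (fun r' => BT.n p m l r')) t) b) w

/-- The value of a tree for a function on paths. -/
noncomputable def evB : BT → (List Bool → FK 6) → FK 6
  | .z, _ => 0
  | .n p m l r, φ => ((p : ℚ) - (m : ℚ)) • φ [] + evB l (fun w => φ (false :: w)) +
      evB r (fun w => φ (true :: w))

/-- The value of a sign. -/
def sv (s : Bool) : ℚ := if s then -1 else 1

theorem evB_bump (s : Bool) (p m : Nat) (l r : BT) (φ : List Bool → FK 6) :
    evB (bump s p m l r) φ = evB (.n p m l r) φ + sv s • φ [] := by
  cases s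
  · show evB (.n (p + 1) m l r) φ = _
    simp only [evB, sv, Nat.cast_add, Nat.cast_one]
    simp only [Bool.false_eq_true, if_false, one_smul, sub_smul, add_smul]
    abel
  · show evB (.n p (m + 1) l r) φ = _
    simp only [evB, sv, Nat.cast_add, Nat.cast_one]
    simp only [if_true, neg_smul, one_smul, sub_smul, add_smul]
    abel

theorem evB_ins (s : Bool) (w : List Bool) : ∀ (t : BT) (φ : List Bool → FK 6),
    evB (ins s w t) φ = evB t φ + sv s • φ w := by
  induction w with
  | nil =>
    intro t φ
    cases t with
    | z =>
      show evB (bump s 0 0 BT.z BT.z) φ = _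
      rw [evB_bump]
      simp [evB]
    | n p m l r =>
      show evB (bump s p m l r) φ = _
      rw [evB_bump]
  | cons b w ih =>
    intro t φ
    cases b
    · cases t with
      | z =>
        show evB (fo (ins s w BT.z) (fun l' => BT.n 0 0 l' BT.z)) φ = _
        rw [fo_eq]
        simp only [evB]
        rw [ih]
        simp [evB]
      | n p m l r =>
        show evB (fo (ins s w l) (fun l' => BT.n p m l' r)) φ = _
        rw [fo_eq]
        simp only [evB]
        rw [ih]
        abel
    · cases t with
      | z =>
        show evB (fo (ins s w BT.z) (fun r' => BT.n 0 0 BT.z r')) φ = _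
        rw [fo_eq]
        simp only [evB]
        rw [ih]
        simp [evB]
      | n p m l r =>
        show evB (fo (ins s w r) (fun r' => BT.n p m l r')) φ = _
        rw [fo_eq]
        simp only [evB]
        rw [ih]
        abel

/-- Test whether all multiplicities cancel. -/
noncomputable def isz (t : BT) : Bool :=
  BT.rec (motive := fun _ => Bool) true
    (fun p m _ _ a b => Bool.rec (motive := fun _ => Bool) false
      (Bool.rec (motive := fun _ => Bool) false b a) (Nat.beq p m)) t

theorem isz_sound (t : BT) : isz t = true → ∀ φ : List Bool → FK 6, evB t φ = 0 := by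
  induction t with
  | z => intro _ _; rfl
  | n p m l r ihl ihr =>
    intro h φ
    have h' : (Bool.rec (motive := fun _ => Bool) false
      (Bool.rec (motive := fun _ => Bool) false (isz r) (isz l)) (Nat.beq p m)) = true := h
    have h1 : Nat.beq p m = true := by
      cases hb : Nat.beq p m with
      | true => rfl
      | false => rw [hb] at h'; exact (Bool.false_ne_true h').elim
    rw [h1] at h'
    have h2 : isz l = true := by
      cases hb : isz l with
      | true => rfl
      | false =>
        have : (Bool.rec (motive := fun _ => Bool) false (isz r) (isz l)) = true := h'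
        rw [hb] at this
        exact (Bool.false_ne_true this).elim
    have h3 : isz r = true := by
      have : (Bool.rec (motive := fun _ => Bool) false (isz r) (isz l)) = true := h'
      rw [h2] at this
      exact this
    have h4 : p = m := Nat.eq_of_beq_eq_true h1
    simp only [evB]
    rw [ihl h2, ihr h3, h4]
    simp

/-- The value of a word. -/
noncomputable def evw : List L → FK 6
  | [] => 1
  | l :: w => x (v1 l) (v2 l) * evw w

theorem evw_append (u v : List L) : evw (u ++ v) = evw u * evw v := by
  induction u with
  | nil => simp [evw]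
  | cons l u ih => simp only [List.cons_append, evw, ih, mul_assoc]

/-- A two-sided multiple of a quadratic relation: a square, a commutator, or one of the two relations
with three terms. -/
inductive It : Type
  | sq (s : Bool) (u : List L) (a : L) (v : List L)
  | cm (s : Bool) (u : List L) (a b : L) (v : List L)
  | t1 (s : Bool) (u : List L) (p q r : L) (v : List L)
  | t2 (s : Bool) (u : List L) (p q r : L) (v : List L)

/-- The opposite sign. -/
noncomputable def nt (s : Bool) : Bool := Bool.rec (motive := fun _ => Bool) true false s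

theorem sv_nt (s : Bool) : sv (nt s) = - sv s := by cases s <;> simp [nt, sv]

/-- The path of a product of words. -/
noncomputable def pa (u : List L) (a b : L) (v : List L) : List Bool := wp u (bt a (bt b (wp v [])))

theorem dec_pa (u : List L) (a b : L) (v : List L) : dec (pa u a b v) = u ++ a :: b :: v := by
  unfold pa
  rw [dec_wp, dec_bt, dec_bt, dec_wp]
  simp [dec]

/-- Add an item to a tree. -/
noncomputable def stp (it : It) (t : BT) : BT :=
  It.rec (motive := fun _ => BT)
    (fun s u a v => ins s (pa u a a v) t)
    (fun s u a b v => fo (ins s (pa u a b v) t) (ins (nt s) (pa u b a v)))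
    (fun s u p q r v => fo (fo (ins s (pa u p q v) t) (ins (nt s) (pa u q r v))) (ins (nt s) (pa u r p v)))
    (fun s u p q r v => fo (fo (ins s (pa u q p v) t) (ins (nt s) (pa u r q v))) (ins (nt s) (pa u p r v)))
    it

/-- Validity of an item. -/
def okI : It → Bool
  | .sq _ _ _ _ => true
  | .cm _ _ a b _ => decide (v1 a ≠ v1 b ∧ v1 a ≠ v2 b ∧ v2 a ≠ v1 b ∧ v2 a ≠ v2 b)
  | .t1 _ _ p q r _ => decide (v1 p = v1 r ∧ v2 p = v1 q ∧ v2 q = v2 r)
  | .t2 _ _ p q r _ => decide (v1 p = v1 r ∧ v2 p = v1 q ∧ v2 q = v2 r)

theorem rel_sq (a : L) : x (v1 a) (v2 a) * x (v1 a) (v2 a) = (0 : FK 6) :=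
  (x_isRep 6).sq _ _ (ne_of_lt (v1_lt_v2 a))

theorem rel_t1 {p q r : L} (h1 : v1 p = v1 r) (h2 : v2 p = v1 q) (h3 : v2 q = v2 r) :
    (x (v1 p) (v2 p) * x (v1 q) (v2 q) - x (v1 q) (v2 q) * x (v1 r) (v2 r) -
      x (v1 r) (v2 r) * x (v1 p) (v2 p) : FK 6) = 0 := by
  have hp := v1_lt_v2 p
  have hq := v1_lt_v2 q
  have hr := v1_lt_v2 r
  have := (x_isRep 6).tri (v1 p) (v2 p) (v2 q) (ne_of_lt hp) (by rw [h2]; exact ne_of_lt hq)
    (by rw [h1, h3]; exact ne_of_lt hr)
  rw [h2, x_anti (v2 q) (v1 p)] at this
  rw [h2, ← h1, ← h3, ← this]
  noncomm_ring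

theorem rel_t2 {p q r : L} (h1 : v1 p = v1 r) (h2 : v2 p = v1 q) (h3 : v2 q = v2 r) :
    (x (v1 q) (v2 q) * x (v1 p) (v2 p) - x (v1 r) (v2 r) * x (v1 q) (v2 q) -
      x (v1 p) (v2 p) * x (v1 r) (v2 r) : FK 6) = 0 := by
  have hp := v1_lt_v2 p
  have hq := v1_lt_v2 q
  have hr := v1_lt_v2 r
  have := (x_isRep 6).tri (v1 p) (v2 q) (v2 p) (by rw [h1, h3]; exact ne_of_lt hr)
    (by rw [h2]; exact (ne_of_lt hq).symm) (ne_of_lt hp)
  rw [h2, x_anti (v2 q) (v1 q), x_anti (v1 q) (v1 p)] at this
  rw [h2, ← h1, ← h3, ← this]
  noncomm_ring

/-- The function on paths. -/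
noncomputable def ph (w : List Bool) : FK 6 := evw (dec w)

theorem ph_pa (u : List L) (a b : L) (v : List L) :
    ph (pa u a b v) = evw u * (x (v1 a) (v2 a) * x (v1 b) (v2 b)) * evw v := by
  unfold ph
  rw [dec_pa, evw_append]
  simp only [evw, mul_assoc]

theorem evB_stp (it : It) (h : okI it = true) (t : BT) : evB (stp it t) ph = evB t ph := by
  cases it with
  | sq s u a v =>
    show evB (ins s (pa u a a v) t) ph = _
    rw [evB_ins, ph_pa, rel_sq]
    simp
  | cm s u a b v =>
    show evB (fo (ins s (pa u a b v) t) (ins (nt s) (pa u b a v))) ph = _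
    have h' := of_decide_eq_true h
    rw [fo_eq, evB_ins, evB_ins, ph_pa, ph_pa, sv_nt,
      (x_isRep 6).comm (v1 a) (v2 a) (v1 b) (v2 b) (ne_of_lt (v1_lt_v2 a)) h'.1 h'.2.1 h'.2.2.1
        h'.2.2.2 (ne_of_lt (v1_lt_v2 b))]
    simp
  | t1 s u p q r v =>
    show evB (fo (fo (ins s (pa u p q v) t) (ins (nt s) (pa u q r v))) (ins (nt s) (pa u r p v))) ph = _
    have h' := of_decide_eq_true h
    have h2 := rel_t1 h'.1 h'.2.1 h'.2.2
    rw [fo_eq, fo_eq, evB_ins, evB_ins, evB_ins, ph_pa, ph_pa, ph_pa, sv_nt]
    have h3 : sv s • (evw u * (x (v1 p) (v2 p) * x (v1 q) (v2 q) - x (v1 q) (v2 q) * x (v1 r) (v2 r) -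
      x (v1 r) (v2 r) * x (v1 p) (v2 p)) * evw v) = (0 : FK 6) := by rw [h2]; simp
    simp only [mul_sub, sub_mul, smul_sub] at h3
    simp only [neg_smul]
    rw [← sub_eq_zero]
    rw [← h3]
    abel
  | t2 s u p q r v =>
    show evB (fo (fo (ins s (pa u q p v) t) (ins (nt s) (pa u r q v))) (ins (nt s) (pa u p r v))) ph = _
    have h' := of_decide_eq_true h
    have h2 := rel_t2 h'.1 h'.2.1 h'.2.2
    rw [fo_eq, fo_eq, evB_ins, evB_ins, evB_ins, ph_pa, ph_pa, ph_pa, sv_nt]
    have h3 : sv s • (evw u * (x (v1 q) (v2 q) * x (v1 p) (v2 p) - x (v1 r) (v2 r) * x (v1 q) (v2 q) -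
      x (v1 p) (v2 p) * x (v1 r) (v2 r)) * evw v) = (0 : FK 6) := by rw [h2]; simp
    simp only [mul_sub, sub_mul, smul_sub] at h3
    simp only [neg_smul]
    rw [← sub_eq_zero]
    rw [← h3]
    abel

/-- Add all items of a list. -/
noncomputable def run (l : List It) : BT → BT :=
  List.rec (motive := fun _ => BT → BT) (fun t => t) (fun it _ ih t => fo (stp it t) ih) l

theorem evB_run (l : List It) (h : l.all okI = true) : ∀ t, evB (run l t) ph = evB t ph := by
  induction l with
  | nil => intro t; rfl
  | cons it l ih =>
    intro t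
    rw [List.all_cons, Bool.and_eq_true] at h
    show evB (fo (stp it t) (run l)) ph = _
    rw [fo_eq, ih h.2, evB_stp it h.1]

/-- The value of a polynomial. -/
noncomputable def evp : List (Bool × List L) → FK 6
  | [] => 0
  | (s, w) :: p => sv s • evw w + evp p

/-- Add the terms of a polynomial. -/
noncomputable def insP (p : List (Bool × List L)) : BT → BT :=
  List.rec (motive := fun _ => BT → BT) (fun t => t)
    (fun q _ ih t => Prod.rec (motive := fun _ => BT) (fun s w => fo (ins s (wp w []) t) ih) q) p

theorem evB_insP (p : List (Bool × List L)) : ∀ t, evB (insP p t) ph = evB t ph + evp p := by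
  induction p with
  | nil => intro t; simp [insP, evp]
  | cons q p ih =>
    intro t
    obtain ⟨s, w⟩ := q
    show evB (fo (ins s (wp w []) t) (insP p)) ph = _
    rw [fo_eq, ih, evB_ins]
    have : ph (wp w []) = evw w := by
      unfold ph
      rw [dec_wp]
      simp [dec]
    rw [this, evp]
    abel

/-- Soundness of the certificates. -/
theorem cert_sound (p : List (Bool × List L)) (c : List It) (h1 : c.all okI = true)
    (h2 : isz (run c (insP p BT.z)) = true) : evp p = 0 := by
  have := isz_sound _ h2 ph
  rw [evB_run c h1, evB_insP] at this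
  simpa [evB] using this

end H387C
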