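import Pool.Agent.helper387_fk.Form

/-!
Star words `y_k = x_{k6}` in the Fomin-Kirillov algebra on six points, the radical of the canonical
form, and the criterion for an element of the star subalgebra to lie in the radical.
-/

namespace H387FK

attribute [local irreducible] instRing instAlg

/-- The letters of star words. -/
inductive L : Type
  | l1 | l2 | l3 | l4 | l5

/-- The vertex of a letter. -/
def vx : L → Fin 6
  | .l1 => 0
  | .l2 => 1
  | .l3 => 2
  | .l4 => 3
  | .l5 => 4

theorem vx_ne (k : L) : vx k ≠ 5 := by cases k <;> decide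

/-- The star generator. -/
noncomputable def y (k : L) : FK 6 := x (vx k) 5

/-- The product of a star word whose last letter is the head of the list. -/
noncomputable def ev : List L → FK 6
  | [] => 1
  | k :: w => ev w * y k

/-- The product of a star word whose first letter is the head of the list. -/
noncomputable def evf : List L → FK 6
  | [] => 1
  | k :: w => y k * evf w

/-- The skew derivation `D_ij` of a star word. -/
noncomputable def Dform : Fin 6 → Fin 6 → List L → FK 6
  | _, _, [] => 0
  | i, j, k :: w => kap (vx k) 5 i j • ev w +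
      Dform (Equiv.swap (vx k) 5 i) (Equiv.swap (vx k) 5 j) w * y k

theorem B_Dform (w : List L) (i j : Fin 6) (u : FK 6) :
    B (x i j * u) (ev w) = B u (Dform i j w) := by
  induction w generalizing i j u with
  | nil =>
    rw [ev, B_symm, B_one_left, map_mul, eps_x, zero_mul, Dform, map_zero]
  | cons k w ih =>
    rw [ev, y, B_mul_x_right, dl_x_mul, map_add, LinearMap.add_apply, ih, Dform, map_add, map_smul,
      map_smul, LinearMap.smul_apply, y, B_mul_x_right, add_comm]

/-- The radical of the canonical form. -/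
def Rad {n : ℕ} (z : FK n) : Prop := ∀ u, B u z = 0

section Rad
variable {n : ℕ}

theorem Rad.zero : Rad (0 : FK n) := fun _ => map_zero _

theorem Rad.add {u v : FK n} (hu : Rad u) (hv : Rad v) : Rad (u + v) := fun w => by
  rw [map_add, hu, hv, add_zero]

theorem Rad.smul {u : FK n} (c : ℚ) (hu : Rad u) : Rad (c • u) := fun w => by
  rw [map_smul, hu, smul_zero]

theorem Rad.neg {u : FK n} (hu : Rad u) : Rad (-u) := fun w => by
  rw [map_neg, hu, neg_zero]

theorem Rad.sub {u v : FK n} (hu : Rad u) (hv : Rad v) : Rad (u - v) := fun w => by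
  rw [map_sub, hu, hv, sub_zero]

theorem Rad.mul_x {u : FK n} (hu : Rad u) (i j : Fin n) : Rad (u * x i j) := fun w => by
  rw [B_mul_x_right, hu]

theorem Rad.dl {u : FK n} (hu : Rad u) (i j : Fin n) : Rad (dl i j u) := fun w => by
  rw [← B_mul_x, hu]

theorem Rad.x_mul {u : FK n} (hu : Rad u) (i j : Fin n) : Rad (x i j * u) := by
  have key : ∀ w : FK n, ∀ u : FK n, Rad u → ∀ i j, B (x i j * u) w = 0 := by
    intro w
    refine ind_right (p := fun w => ∀ u : FK n, Rad u → ∀ i j, B (x i j * u) w = 0) ?_ ?_ ?_ ?_ w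
    · intro u hu i j
      rw [B_symm, B_one_left, map_mul, eps_x, zero_mul]
    · intro w w' hw hw' u hu i j
      rw [map_add, hw u hu, hw' u hu, add_zero]
    · intro c w hw u hu i j
      rw [map_smul, hw u hu, smul_zero]
    · intro a b w hw u hu i j
      rw [B_mul_x_right, dl_x_mul, map_add, LinearMap.add_apply, hw _ (hu.dl a b), map_smul,
        LinearMap.smul_apply, B_symm, hu, smul_zero, add_zero]
  intro w
  rw [B_symm]
  exact key w u hu i j

/-- Equality modulo the radical. -/
def Eqr (u v : FK n) : Prop := Rad (u - v)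

theorem Eqr.refl (u : FK n) : Eqr u u := by
  unfold Eqr; rw [sub_self]; exact Rad.zero

theorem Eqr.of_eq {u v : FK n} (h : u = v) : Eqr u v := h ▸ Eqr.refl u

theorem Eqr.symm {u v : FK n} (h : Eqr u v) : Eqr v u := by
  have := Rad.neg h
  rwa [neg_sub] at this

theorem Eqr.trans {u v w : FK n} (h : Eqr u v) (h' : Eqr v w) : Eqr u w := by
  have := Rad.add h h'
  rwa [sub_add_sub_cancel] at this

theorem Eqr.add {u v u' v' : FK n} (h : Eqr u v) (h' : Eqr u' v') : Eqr (u + u') (v + v') := by
  have := Rad.add h h'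
  unfold Eqr
  convert this using 1
  abel

theorem Eqr.smul {u v : FK n} (c : ℚ) (h : Eqr u v) : Eqr (c • u) (c • v) := by
  have := Rad.smul c h
  unfold Eqr
  rwa [smul_sub] at this

theorem Eqr.mul_x {u v : FK n} (h : Eqr u v) (i j : Fin n) : Eqr (u * x i j) (v * x i j) := by
  have := Rad.mul_x h i j
  unfold Eqr
  rwa [sub_mul] at this

theorem Eqr.x_mul {u v : FK n} (h : Eqr u v) (i j : Fin n) : Eqr (x i j * u) (x i j * v) := by
  have := Rad.x_mul h i j
  unfold Eqr
  rwa [mul_sub] at this

theorem Eqr.rad {u v : FK n} (h : Eqr u v) (hv : Rad v) : Rad u := by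
  have := Rad.add h hv
  rwa [sub_add_cancel] at this

theorem Eqr.B_eq {u v : FK n} (h : Eqr u v) (w : FK n) : B w u = B w v := by
  have := h w
  rwa [map_sub, sub_eq_zero] at this

end Rad

theorem Eqr.mul_evf {u v : FK 6} (h : Eqr u v) (w : List L) : Eqr (u * evf w) (v * evf w) := by
  induction w generalizing u v with
  | nil => simpa [evf] using h
  | cons k w ih =>
    rw [evf, ← mul_assoc, ← mul_assoc]
    exact ih (h.mul_x _ _)

theorem Eqr.ev_mul {u v : FK 6} (h : Eqr u v) (w : List L) : Eqr (ev w * u) (ev w * v) := by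
  induction w generalizing u v with
  | nil => simpa [ev] using h
  | cons k w ih =>
    rw [ev, mul_assoc, mul_assoc]
    exact ih (h.x_mul _ _)

theorem ev_append (u v : List L) : ev (u ++ v) = ev v * ev u := by
  induction u with
  | nil => simp [ev]
  | cons k u ih => rw [List.cons_append, ev, ih, ev, mul_assoc]

theorem evf_append (u v : List L) : evf (u ++ v) = evf u * evf v := by
  induction u with
  | nil => simp [evf]
  | cons k u ih => rw [List.cons_append, evf, ih, evf, mul_assoc]

theorem ev_reverse (w : List L) : ev w.reverse = evf w := by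
  induction w with
  | nil => rfl
  | cons k w ih => rw [List.reverse_cons, ev_append, ih, evf]; simp [ev]

/-- Elements which are annihilated by the derivations away from the centre of the star. -/
def InU (z : FK 6) : Prop := ∀ i j : Fin 6, i ≠ 5 → j ≠ 5 → dl i j z = 0

theorem InU.zero : InU 0 := fun _ _ _ _ => map_zero _

theorem InU.add {u v : FK 6} (hu : InU u) (hv : InU v) : InU (u + v) := fun i j hi hj => by
  rw [map_add, hu i j hi hj, hv i j hi hj, add_zero]

theorem InU.smul {u : FK 6} (c : ℚ) (hu : InU u) : InU (c • u) := fun i j hi hj => by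
  rw [map_smul, hu i j hi hj, smul_zero]

theorem InU.mul_y {u : FK 6} (hu : InU u) (k : L) : InU (u * y k) := fun i j hi hj => by
  rw [y, dl_mul_x, hu i j hi hj, zero_mul, zero_add]
  have : kap i j (vx k) 5 = 0 := by
    by_contra h
    rcases kap_ne h with ⟨_, h⟩ | ⟨_, h⟩
    · exact hj h.symm
    · exact hi h.symm
  rw [this, zero_smul]

theorem InU.ev (w : List L) : InU (ev w) := by
  induction w with
  | nil => intro i j _ _; exact dl_one i j
  | cons k w ih => exact ih.mul_y k

theorem InU.Dform (i j : Fin 6) (w : List L) : InU (Dform i j w) := by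
  induction w generalizing i j with
  | nil => exact InU.zero
  | cons k w ih => exact ((InU.ev w).smul _).add ((ih _ _).mul_y k)

/-- The spanning set used below. -/
def spanSet : Set (FK 6) :=
  {u | ∃ w : List L, u = evf w} ∪ {u | ∃ (v : FK 6) (i j : Fin 6), i ≠ 5 ∧ j ≠ 5 ∧ u = v * x i j}

theorem star_cases (i : Fin 6) (h : i ≠ 5) : ∃ k : L, vx k = i := by
  fin_cases i
  · exact ⟨.l1, rfl⟩
  · exact ⟨.l2, rfl⟩
  · exact ⟨.l3, rfl⟩
  · exact ⟨.l4, rfl⟩
  · exact ⟨.l5, rfl⟩
  · exact absurd rfl h

theorem y_mul_mem (k : L) {u : FK 6} (hu : u ∈ Submodule.span ℚ spanSet) :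
    y k * u ∈ Submodule.span ℚ spanSet := by
  induction hu using Submodule.span_induction with
  | mem u hu =>
    rcases hu with ⟨w, rfl⟩ | ⟨v, i, j, hi, hj, rfl⟩
    · exact Submodule.subset_span (Or.inl ⟨k :: w, rfl⟩)
    · exact Submodule.subset_span (Or.inr ⟨y k * v, i, j, hi, hj, (mul_assoc _ _ _).symm⟩)
  | zero => rw [mul_zero]; exact Submodule.zero_mem _
  | add u v _ _ hu hv => rw [mul_add]; exact Submodule.add_mem _ hu hv
  | smul c u _ hu => rw [mul_smul_comm]; exact Submodule.smul_mem _ _ hu

/-- `x_ij y_j = y_j y_i + y_i x_ij`. -/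
theorem x_mul_y {i j : Fin 6} (hij : i ≠ j) (hi : i ≠ 5) (hj : j ≠ 5) :
    x i j * x j 5 = x j 5 * x i 5 + x i 5 * x i j := by
  have h := (x_isRep 6).tri i j 5 hij hj hi
  rw [x_anti 5 i] at h
  simp only [mul_neg, neg_mul] at h
  have h2 : x i j * x j 5 = (x i j * x j 5 + -(x j 5 * x i 5) + -(x i 5 * x i j)) +
    (x j 5 * x i 5 + x i 5 * x i j) := by abel
  rw [h2, h, zero_add]

theorem x_mul_evf_mem (w : List L) (i j : Fin 6) (hi : i ≠ 5) (hj : j ≠ 5) :
    x i j * evf w ∈ Submodule.span ℚ spanSet := by
  rcases eq_or_ne i j with rfl | hij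
  · rw [x_self, zero_mul]; exact Submodule.zero_mem _
  · induction w generalizing i j with
    | nil =>
      exact Submodule.subset_span (Or.inr ⟨1, i, j, hi, hj, by rw [evf, mul_one, one_mul]⟩)
    | cons k w ih =>
      rw [evf, ← mul_assoc]
      by_cases hkj : vx k = j
      · subst hkj
        obtain ⟨m, rfl⟩ := star_cases i hi
        rw [y, x_mul_y hij hi hj, add_mul, mul_assoc, mul_assoc]
        exact Submodule.add_mem _ (Submodule.subset_span (Or.inl ⟨k :: m :: w, rfl⟩))
          (y_mul_mem m (ih _ _ hi hj hij))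
      · by_cases hki : vx k = i
        · subst hki
          obtain ⟨m, rfl⟩ := star_cases j hj
          rw [y, x_anti (vx k) (vx m), neg_mul, x_mul_y hij.symm hj hi, neg_mul, add_mul, mul_assoc,
            mul_assoc]
          exact Submodule.neg_mem _ (Submodule.add_mem _
            (Submodule.subset_span (Or.inl ⟨k :: m :: w, rfl⟩))
            (y_mul_mem m (ih _ _ hj hi hij.symm)))
        · rw [y, (x_isRep 6).comm i j (vx k) 5 hij (Ne.symm hki) hi (Ne.symm hkj) hj (vx_ne k),
            mul_assoc]
          exact y_mul_mem k (ih _ _ hi hj hij)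

theorem x_mul_mem (i j : Fin 6) {u : FK 6} (hu : u ∈ Submodule.span ℚ spanSet) :
    x i j * u ∈ Submodule.span ℚ spanSet := by
  by_cases hi : i = 5
  · by_cases hj : j = 5
    · rw [hi, hj, x_self, zero_mul]; exact Submodule.zero_mem _
    · obtain ⟨k, rfl⟩ := star_cases j hj
      rw [hi, x_anti, neg_mul]
      exact Submodule.neg_mem _ (y_mul_mem k hu)
  · by_cases hj : j = 5
    · obtain ⟨k, rfl⟩ := star_cases i hi
      rw [hj]
      exact y_mul_mem k hu
    · induction hu using Submodule.span_induction with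
      | mem u hu =>
        rcases hu with ⟨w, rfl⟩ | ⟨v, i', j', hi', hj', rfl⟩
        · exact x_mul_evf_mem w i j hi hj
        · exact Submodule.subset_span
            (Or.inr ⟨x i j * v, i', j', hi', hj', (mul_assoc _ _ _).symm⟩)
      | zero => rw [mul_zero]; exact Submodule.zero_mem _
      | add u v _ _ hu hv => rw [mul_add]; exact Submodule.add_mem _ hu hv
      | smul c u _ hu => rw [mul_smul_comm]; exact Submodule.smul_mem _ _ hu

theorem mem_spanSet (u : FK 6) : u ∈ Submodule.span ℚ spanSet := by
  refine ind_left (p := fun u => u ∈ Submodule.span ℚ spanSet) ?_ ?_ ?_ ?_ u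
  · exact Submodule.subset_span (Or.inl ⟨[], rfl⟩)
  · intro u v hu hv; exact Submodule.add_mem _ hu hv
  · intro c u hu; exact Submodule.smul_mem _ _ hu
  · intro i j u hu; exact x_mul_mem i j hu

/-- A property of elements which holds on star words and on `E x_ij` with `i, j ≠ 6` and which is
linear holds everywhere. -/
theorem star_ind {f : FK 6 →ₗ[ℚ] ℚ} (h1 : ∀ w, f (evf w) = 0)
    (h2 : ∀ v i j, i ≠ 5 → j ≠ 5 → f (v * x i j) = 0) (u : FK 6) : f u = 0 := by
  have hu := mem_spanSet u
  induction hu using Submodule.span_induction with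
  | mem u hu =>
    rcases hu with ⟨w, rfl⟩ | ⟨v, i, j, hi, hj, rfl⟩
    · exact h1 w
    · exact h2 v i j hi hj
  | zero => exact map_zero _
  | add u v _ _ hu hv => rw [map_add, hu, hv, add_zero]
  | smul c u _ hu => rw [map_smul, hu, smul_zero]

theorem InU.B_mul_x {z : FK 6} (hz : InU z) (v : FK 6) {i j : Fin 6} (hi : i ≠ 5) (hj : j ≠ 5) :
    B (v * x i j) z = 0 := by
  rw [H387FK.B_mul_x, hz i j hi hj, map_zero]

/-- The criterion. -/
theorem rad_of_D {z : FK 6} (hz : InU z) (h1 : eps z = 0)
    (hD : ∀ k : L, ∃ z', Rad z' ∧ ∀ u, B (y k * u) z = B u z') : Rad z := by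
  intro u
  rw [← B_symm]
  refine star_ind (f := (B z : FK 6 →ₗ[ℚ] ℚ)) ?_ ?_ u
  · intro w
    rw [B_symm]
    cases w with
    | nil => rw [evf, B_one_left, h1]
    | cons k w =>
      obtain ⟨z', hz', h⟩ := hD k
      rw [evf, h, hz']
  · intro v i j hi hj
    rw [B_symm, hz.B_mul_x v hi hj]

end H387FK
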