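import Pool.Agent.helper387_fk.Canon
import Pool.Agent.helper387_fk.Star

/-!
The braided coproduct `Δ` of the Fomin-Kirillov algebra, through its action on the tensor square, and
the operators `K φ = (φ ⊗ id) Δ` for linear functionals `φ`.
-/

namespace H387FK

attribute [local irreducible] instRing instAlg

open scoped TensorProduct

variable {n : ℕ}

/-- The action of a generator on the tensor square. -/
noncomputable def cgen (i j : Fin n) : Module.End ℚ (FK n ⊗[ℚ] FK n) :=
  TensorProduct.map (LinearMap.mulLeft ℚ (x i j)) LinearMap.id +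
    TensorProduct.map (act (Equiv.swap i j)).toLinearMap (LinearMap.mulLeft ℚ (x i j))

theorem cgen_tmul (i j : Fin n) (a b : FK n) :
    cgen i j (a ⊗ₜ[ℚ] b) =
      (x i j * a) ⊗ₜ[ℚ] b + act (Equiv.swap i j) a ⊗ₜ[ℚ] (x i j * b) := rfl

theorem act_swap_comm {i j k l : Fin n} (h1 : i ≠ k) (h2 : i ≠ l) (h3 : j ≠ k)
    (h4 : j ≠ l) (a : FK n) : act (Equiv.swap i j) (act (Equiv.swap k l) a) =
      act (Equiv.swap k l) (act (Equiv.swap i j) a) := by
  rw [act_act, act_act]
  congr 1
  congr 1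
  ext m
  simp only [Equiv.Perm.mul_apply, Equiv.swap_apply_def]
  split_ifs <;> simp_all

theorem swap_tri {i j k : Fin n} (h1 : i ≠ j) (h2 : j ≠ k) (h3 : i ≠ k) :
    Equiv.swap i j * Equiv.swap j k = Equiv.swap j k * Equiv.swap k i := by
  ext m
  simp only [Equiv.Perm.mul_apply, Equiv.swap_apply_def]
  split_ifs <;> simp_all

theorem cgen_isRep : IsRep (cgen : Fin n → Fin n → Module.End ℚ (FK n ⊗[ℚ] FK n)) where
  anti i j := by
    refine TensorProduct.ext' fun a b => ?_
    rw [LinearMap.neg_apply, cgen_tmul, cgen_tmul, x_anti i j, Equiv.swap_comm i j, neg_mul,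
      neg_mul, TensorProduct.neg_tmul, TensorProduct.tmul_neg, neg_add]
  sq i j h := by
    refine TensorProduct.ext' fun a b => ?_
    rw [Module.End.mul_apply, cgen_tmul, map_add, cgen_tmul, cgen_tmul, map_mul, act_x,
      Equiv.swap_apply_left, Equiv.swap_apply_right, ← mul_assoc, ← mul_assoc, (x_isRep n).sq i j h,
      zero_mul, zero_mul, TensorProduct.zero_tmul, TensorProduct.tmul_zero, x_anti j i, neg_mul,
      TensorProduct.neg_tmul]
    simp
  comm i j k l h1 h2 h3 h4 h5 h6 := by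
    refine TensorProduct.ext' fun a b => ?_
    rw [Module.End.mul_apply, Module.End.mul_apply, cgen_tmul, cgen_tmul, map_add, map_add,
      cgen_tmul, cgen_tmul, cgen_tmul, cgen_tmul, map_mul, map_mul, act_x, act_x,
      Equiv.swap_apply_of_ne_of_ne h2.symm h4.symm, Equiv.swap_apply_of_ne_of_ne h3.symm h5.symm,
      Equiv.swap_apply_of_ne_of_ne h2 h3, Equiv.swap_apply_of_ne_of_ne h4 h5,
      act_swap_comm h2 h3 h4 h5, ← mul_assoc, ← mul_assoc, ← mul_assoc, ← mul_assoc,
      (x_isRep n).comm i j k l h1 h2 h3 h4 h5 h6]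
    abel
  tri i j k h1 h2 h3 := by
    refine TensorProduct.ext' fun a b => ?_
    have e1 := (x_isRep n).tri i j k h1 h2 h3
    have f1 := congrArg (fun z => (z * a) ⊗ₜ[ℚ] b) e1
    have f2 := congrArg (fun z => act (Equiv.swap i j * Equiv.swap j k) a ⊗ₜ[ℚ] (z * b)) e1
    have s1 := swap_tri h1 h2 h3
    have s2 := swap_tri h2 h3.symm h1.symm
    simp only [add_mul, zero_mul, TensorProduct.add_tmul, TensorProduct.tmul_add,
      TensorProduct.zero_tmul, TensorProduct.tmul_zero, mul_assoc] at f1 f2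
    simp only [LinearMap.add_apply, Module.End.mul_apply, cgen_tmul, map_add, map_mul, act_x,
      LinearMap.zero_apply]
    rw [act_act, act_act, act_act, ← s2, ← s1, Equiv.swap_apply_right,
      Equiv.swap_apply_of_ne_of_ne h3.symm h2.symm, Equiv.swap_apply_right,
      Equiv.swap_apply_of_ne_of_ne h1 h3, Equiv.swap_apply_right,
      Equiv.swap_apply_of_ne_of_ne h2 h1.symm, x_anti i k, x_anti j i, x_anti k j]
    simp only [neg_mul, TensorProduct.neg_tmul]
    generalize (x i j * (x j k * a)) ⊗ₜ[ℚ] b = t1 at *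
    generalize (x j k * (x k i * a)) ⊗ₜ[ℚ] b = t2 at *
    generalize (x k i * (x i j * a)) ⊗ₜ[ℚ] b = t3 at *
    generalize act (Equiv.swap i j * Equiv.swap j k) a ⊗ₜ[ℚ] (x i j * (x j k * b)) = r1 at *
    generalize act (Equiv.swap i j * Equiv.swap j k) a ⊗ₜ[ℚ] (x j k * (x k i * b)) = r2 at *
    generalize act (Equiv.swap i j * Equiv.swap j k) a ⊗ₜ[ℚ] (x k i * (x i j * b)) = r3 at *
    generalize (x k i * act (Equiv.swap i j) a) ⊗ₜ[ℚ] (x i j * b) = m1 at *
    generalize (x i j * act (Equiv.swap j k) a) ⊗ₜ[ℚ] (x j k * b) = m2 at *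
    generalize (x j k * act (Equiv.swap k i) a) ⊗ₜ[ℚ] (x k i * b) = m3 at *
    calc _ = (t1 + t2 + t3) + (r1 + r2 + r3) := by abel
      _ = 0 := by rw [f1, f2, add_zero]

/-- The braided coproduct. -/
noncomputable def Dlt : FK n →ₗ[ℚ] FK n ⊗[ℚ] FK n :=
  (LinearMap.applyₗ (R := ℚ) ((1 : FK n) ⊗ₜ[ℚ] (1 : FK n))).comp
    (lift cgen cgen_isRep).toLinearMap

theorem Dlt_one : Dlt (1 : FK n) = (1 : FK n) ⊗ₜ[ℚ] (1 : FK n) := by
  show lift cgen cgen_isRep 1 ((1 : FK n) ⊗ₜ[ℚ] (1 : FK n)) = _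
  rw [map_one, Module.End.one_apply]

theorem Dlt_x_mul (i j : Fin n) (u : FK n) : Dlt (x i j * u) = cgen i j (Dlt u) := by
  show lift cgen cgen_isRep (x i j * u) ((1 : FK n) ⊗ₜ[ℚ] (1 : FK n)) = _
  rw [map_mul, lift_x, Module.End.mul_apply]
  rfl

/-- The operator `(φ ⊗ id) Δ`. -/
noncomputable def K (φ : FK n →ₗ[ℚ] ℚ) : FK n →ₗ[ℚ] FK n :=
  ((TensorProduct.lid ℚ (FK n)).toLinearMap.comp (TensorProduct.map φ LinearMap.id)).comp Dlt

theorem K_def (φ : FK n →ₗ[ℚ] ℚ) (u : FK n) :
    K φ u = TensorProduct.lid ℚ (FK n) (TensorProduct.map φ LinearMap.id (Dlt u)) := rfl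

/-- The functional `a ↦ φ (x_ij a)`. -/
noncomputable def fL (φ : FK n →ₗ[ℚ] ℚ) (i j : Fin n) : FK n →ₗ[ℚ] ℚ :=
  φ.comp (LinearMap.mulLeft ℚ (x i j))

theorem fL_apply (φ : FK n →ₗ[ℚ] ℚ) (i j : Fin n) (u : FK n) : fL φ i j u = φ (x i j * u) := rfl

/-- The functional `a ↦ φ (w a)`. -/
noncomputable def fA (φ : FK n →ₗ[ℚ] ℚ) (w : Equiv.Perm (Fin n)) : FK n →ₗ[ℚ] ℚ :=
  φ.comp (act w).toLinearMap

theorem fA_apply (φ : FK n →ₗ[ℚ] ℚ) (w : Equiv.Perm (Fin n)) (u : FK n) :
    fA φ w u = φ (act w u) := rfl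

theorem fA_fA (φ : FK n →ₗ[ℚ] ℚ) (w v : Equiv.Perm (Fin n)) : fA (fA φ w) v = fA φ (w * v) := by
  refine LinearMap.ext fun u => ?_
  rw [fA_apply, fA_apply, fA_apply, act_act]

theorem K_one (φ : FK n →ₗ[ℚ] ℚ) : K φ 1 = φ 1 • 1 := by
  rw [K_def, Dlt_one, TensorProduct.map_tmul, TensorProduct.lid_tmul, LinearMap.id_apply]

theorem K_x_mul (φ : FK n →ₗ[ℚ] ℚ) (i j : Fin n) (u : FK n) :
    K φ (x i j * u) = K (fL φ i j) u + x i j * K (fA φ (Equiv.swap i j)) u := by
  have key : ∀ t : FK n ⊗[ℚ] FK n,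
      TensorProduct.lid ℚ (FK n) (TensorProduct.map φ LinearMap.id (cgen i j t)) =
      TensorProduct.lid ℚ (FK n) (TensorProduct.map (fL φ i j) LinearMap.id t) +
      x i j * TensorProduct.lid ℚ (FK n)
        (TensorProduct.map (fA φ (Equiv.swap i j)) LinearMap.id t) := by
    intro t
    induction t using TensorProduct.induction_on with
    | zero => simp only [map_zero, mul_zero, add_zero]
    | tmul a b =>
      rw [cgen_tmul, map_add, map_add, TensorProduct.map_tmul, TensorProduct.map_tmul,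
        TensorProduct.map_tmul, TensorProduct.map_tmul, TensorProduct.lid_tmul,
        TensorProduct.lid_tmul, TensorProduct.lid_tmul, TensorProduct.lid_tmul, fL_apply, fA_apply,
        LinearMap.id_apply, LinearMap.id_apply, mul_smul_comm]
    | add s t hs ht =>
      simp only [map_add, mul_add, hs, ht]
      abel
  rw [K_def, Dlt_x_mul, key]
  rfl

theorem K_zero (u : FK n) : K 0 u = 0 := by
  rw [K_def, TensorProduct.map_zero_left]
  simp

theorem K_add (φ ψ : FK n →ₗ[ℚ] ℚ) (u : FK n) : K (φ + ψ) u = K φ u + K ψ u := by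
  rw [K_def, TensorProduct.map_add_left, LinearMap.add_apply, map_add]
  rfl

theorem K_smul (c : ℚ) (φ : FK n →ₗ[ℚ] ℚ) (u : FK n) : K (c • φ) u = c • K φ u := by
  rw [K_def, TensorProduct.map_smul_left, LinearMap.smul_apply, map_smul]
  rfl

theorem dl_K (a b : Fin n) (u : FK n) : ∀ φ : FK n →ₗ[ℚ] ℚ,
    dl a b (K φ u) = K (fA φ (Equiv.swap a b)) (dl a b u) := by
  refine ind_left (p := fun u => ∀ φ : FK n →ₗ[ℚ] ℚ,
    dl a b (K φ u) = K (fA φ (Equiv.swap a b)) (dl a b u)) ?_ ?_ ?_ ?_ u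
  · intro φ
    rw [K_one, map_smul, dl_one, map_zero, smul_zero]
  · intro u v hu hv φ; simp only [map_add, hu, hv]
  · intro c u hu φ; simp only [map_smul, hu]
  · intro i j u hu φ
    rw [K_x_mul, map_add, hu, dl_x_mul, hu, dl_x_mul, map_add, map_smul, K_x_mul, fA_fA, fA_fA]
    have e1 : fL (fA φ (Equiv.swap a b)) (Equiv.swap a b i) (Equiv.swap a b j) =
        fA (fL φ i j) (Equiv.swap a b) := by
      refine LinearMap.ext fun v => ?_
      rw [fL_apply, fA_apply, fA_apply, fL_apply, map_mul, act_x, Equiv.swap_apply_self,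
        Equiv.swap_apply_self]
    have e2 : Equiv.swap a b * Equiv.swap (Equiv.swap a b i) (Equiv.swap a b j) =
        Equiv.swap i j * Equiv.swap a b := by
      rw [Equiv.swap_apply_apply]
      simp [mul_assoc]
    have e3 : kap a b i j • K (fA φ (Equiv.swap a b)) u =
        kap a b i j • K (fA φ (Equiv.swap i j)) u := by
      by_cases h : kap a b i j = 0
      · rw [h, zero_smul, zero_smul]
      · rcases kap_ne h with ⟨rfl, rfl⟩ | ⟨rfl, rfl⟩
        · rfl
        · rw [Equiv.swap_comm i j]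
    rw [e1, e2, e3]
    abel

theorem eps_K (u : FK n) : ∀ φ : FK n →ₗ[ℚ] ℚ, eps (K φ u) = φ u := by
  refine ind_left (p := fun u => ∀ φ : FK n →ₗ[ℚ] ℚ, eps (K φ u) = φ u) ?_ ?_ ?_ ?_ u
  · intro φ; simp [K_one]
  · intro u v hu hv φ; simp only [map_add, hu, hv]
  · intro c u hu φ; simp only [map_smul, hu]
  · intro i j u hu φ
    rw [K_x_mul, map_add, map_mul, eps_x, zero_mul, add_zero, hu, fL_apply]

theorem act_one (u : FK n) : act 1 u = u := by
  refine ind_left (p := fun u => act 1 u = u) ?_ ?_ ?_ ?_ u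
  · simp
  · intro u v hu hv; simp only [map_add, hu, hv]
  · intro c u hu; simp only [map_smul, hu]
  · intro i j u hu; simp only [map_mul, hu, act_x, Equiv.Perm.one_apply]

theorem fA_B (c : FK n) (w : Equiv.Perm (Fin n)) : fA (B c) w = B (act w⁻¹ c) := by
  refine LinearMap.ext fun u => ?_
  rw [fA_apply, ← B_act w (act w⁻¹ c) u, act_act, mul_inv_cancel, act_one]

theorem Rad.K_B {s : FK n} (hs : Rad s) (c : FK n) : Rad (K (B c) s) := by
  have key : ∀ v : FK n, ∀ c s : FK n, Rad s → B v (K (B c) s) = 0 := by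
    intro v
    refine ind_right (p := fun v => ∀ c s : FK n, Rad s → B v (K (B c) s) = 0) ?_ ?_ ?_ ?_ v
    · intro c s hs
      rw [B_one_left, eps_K, hs c]
    · intro u v hu hv c s hs
      rw [map_add, LinearMap.add_apply, hu c s hs, hv c s hs, add_zero]
    · intro r u hu c s hs
      rw [map_smul, LinearMap.smul_apply, hu c s hs, smul_zero]
    · intro a b u hu c s hs
      rw [B_mul_x, dl_K, fA_B]
      exact hu _ _ (hs.dl a b)
  exact fun v => key v c s hs

/-! Degrees. -/

theorem eq_zero_of_deg {φ : FK n →ₗ[ℚ] ℚ} (h : ∀ d, ∀ u ∈ deg n d, φ u = 0) : φ = 0 := by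
  refine LinearMap.ext fun u => ?_
  have hu := mem_span_mono u
  induction hu using Submodule.span_induction with
  | mem u hu =>
    obtain ⟨l, rfl⟩ := hu
    exact h _ _ (mono_mem l)
  | zero => rw [map_zero, map_zero]
  | add u v _ _ hu hv => rw [map_add, map_add, hu, hv]
  | smul c u _ hu => rw [map_smul, map_smul, hu]

/-- A functional which vanishes on all homogeneous components but one. -/
def HomD (d : ℕ) (φ : FK n →ₗ[ℚ] ℚ) : Prop := ∀ e, e ≠ d → ∀ u ∈ deg n e, φ u = 0

theorem HomD.fL {d : ℕ} {φ : FK n →ₗ[ℚ] ℚ} (h : HomD (d + 1) φ) (i j : Fin n) :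
    HomD d (fL φ i j) := by
  intro e he u hu
  rw [fL_apply]
  exact h (e + 1) (by omega) _ (x_mul_mem_deg i j hu)

theorem HomD.fL_zero {φ : FK n →ₗ[ℚ] ℚ} (h : HomD 0 φ) (i j : Fin n) : H387FK.fL φ i j = 0 := by
  refine eq_zero_of_deg fun e u hu => ?_
  rw [fL_apply]
  exact h (e + 1) (by omega) _ (x_mul_mem_deg i j hu)

theorem act_deg (w : Equiv.Perm (Fin n)) (d : ℕ) {u : FK n} (hu : u ∈ deg n d) :
    act w u ∈ deg n d := by
  have key : ∀ d, deg n d ≤ (deg n d).comap (act w).toLinearMap := by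
    intro d
    induction d with
    | zero =>
      intro u hu
      obtain ⟨c, rfl⟩ := mem_deg_zero hu
      rw [Submodule.mem_comap]
      show act w (c • 1) ∈ _
      rw [map_smul, map_one]
      exact smul_one_mem_deg c
    | succ d ih =>
      refine deg_succ_le ?_
      intro i j v hv
      rw [Submodule.mem_comap]
      show act w (x i j * v) ∈ _
      rw [map_mul, act_x]
      exact x_mul_mem_deg _ _ (ih hv)
  exact key d hu

theorem HomD.fA {d : ℕ} {φ : FK n →ₗ[ℚ] ℚ} (h : HomD d φ) (w : Equiv.Perm (Fin n)) :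
    HomD d (fA φ w) := by
  intro e he u hu
  rw [fA_apply]
  exact h e he _ (act_deg w e hu)

theorem K_deg_lt (m : ℕ) : ∀ u ∈ deg n m, ∀ d, m < d → ∀ φ : FK n →ₗ[ℚ] ℚ, HomD d φ →
    K φ u = 0 := by
  induction m with
  | zero =>
    intro u hu d hd φ hφ
    obtain ⟨c, rfl⟩ := mem_deg_zero hu
    have h1 : φ 1 = 0 := hφ 0 (by omega) 1 (by simpa using smul_one_mem_deg (n := n) 1)
    rw [map_smul, K_one, h1, zero_smul, smul_zero]
  | succ m ih =>
    intro u hu d hd φ hφ
    have key : deg n (m + 1) ≤ LinearMap.ker (K φ) := by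
      refine deg_succ_le ?_
      intro i j v hv
      rw [LinearMap.mem_ker, K_x_mul]
      obtain ⟨d', rfl⟩ : ∃ d', d = d' + 1 := ⟨d - 1, by omega⟩
      rw [ih v hv d' (by omega) _ (hφ.fL i j), ih v hv (d' + 1) (by omega) _ (hφ.fA _), mul_zero,
        add_zero]
    exact LinearMap.mem_ker.mp (key hu)

theorem K_deg (m : ℕ) : ∀ u, ∀ d, ∀ φ : FK n →ₗ[ℚ] ℚ, u ∈ deg n (d + m) → HomD d φ →
    K φ u ∈ deg n m := by
  have key : ∀ k, ∀ m d, k = d + m → ∀ u ∈ deg n k, ∀ φ : FK n →ₗ[ℚ] ℚ, HomD d φ →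
      K φ u ∈ deg n m := by
    intro k
    induction k with
    | zero =>
      intro m d hk u hu φ hφ
      obtain ⟨c, rfl⟩ := mem_deg_zero hu
      obtain rfl : m = 0 := by omega
      rw [map_smul, K_one]
      exact Submodule.smul_mem _ _ (smul_one_mem_deg _)
    | succ k ih =>
      intro m d hk u hu φ hφ
      have key : deg n (k + 1) ≤ (deg n m).comap (K φ) := by
        refine deg_succ_le ?_
        intro i j v hv
        rw [Submodule.mem_comap, K_x_mul]
        refine Submodule.add_mem _ ?_ ?_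
        · rcases Nat.eq_zero_or_pos d with rfl | hd
          · rw [hφ.fL_zero, K_zero]
            exact Submodule.zero_mem _
          · obtain ⟨d', rfl⟩ : ∃ d', d = d' + 1 := ⟨d - 1, by omega⟩
            exact ih m d' (by omega) v hv _ (hφ.fL i j)
        · rcases Nat.eq_zero_or_pos m with rfl | hm
          · rw [K_deg_lt k v hv d (by omega) _ (hφ.fA _), mul_zero]
            exact Submodule.zero_mem _
          · obtain ⟨m', rfl⟩ : ∃ m', m = m' + 1 := ⟨m - 1, by omega⟩
            exact x_mul_mem_deg i j (ih m' d (by omega) v hv _ (hφ.fA _))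
      exact key hu
  intro u d φ hu hφ
  exact key _ m d rfl u hu φ hφ

theorem HomD_B {d : ℕ} {c : FK n} (hc : c ∈ deg n d) : HomD d (B c) := by
  intro e he u hu
  obtain ⟨_, _, _, h⟩ := B_isCanonicalForm (n := n)
  exact h d e he.symm c hc u hu

theorem K_deg_eq {d : ℕ} {u : FK n} (hu : u ∈ deg n d) {φ : FK n →ₗ[ℚ] ℚ} (hφ : HomD d φ) :
    K φ u = φ u • 1 := by
  have h := K_deg 0 u d φ (by rwa [add_zero]) hφ
  obtain ⟨c, hc⟩ := mem_deg_zero h
  have h2 := eps_K u φ
  rw [hc, map_smul, map_one, smul_eq_mul, mul_one] at h2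
  rw [hc, h2]

theorem deg_succ_le' {d : ℕ} {S : Submodule ℚ (FK n)}
    (hx : ∀ i j w, w ∈ deg n d → w * x i j ∈ S) : deg n (d + 1) ≤ S := by
  have h : deg n (d + 1) = deg n d *
      (Submodule.span ℚ (Set.range fun p : Fin n × Fin n => (x p.1 p.2 : FK n))) := by
    unfold deg
    rw [pow_succ]
  rw [h, Submodule.mul_le]
  intro w hw m hm
  induction hm using Submodule.span_induction with
  | mem m hm =>
    obtain ⟨p, rfl⟩ := hm
    exact hx p.1 p.2 w hw
  | zero => rw [mul_zero]; exact S.zero_mem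
  | add u v _ _ hu hv => rw [mul_add]; exact S.add_mem hu hv
  | smul c u _ hu => rw [mul_smul_comm]; exact S.smul_mem c hu

theorem mul_x_mem_deg (i j : Fin n) {d : ℕ} {u : FK n} (hu : u ∈ deg n d) :
    u * x i j ∈ deg n (d + 1) := by
  unfold deg at *
  rw [pow_succ]
  exact Submodule.mul_mem_mul hu (Submodule.subset_span ⟨(i, j), rfl⟩)

/-- The adjoint of left multiplication by a generator. -/
theorem exists_adj (d : ℕ) : ∀ c ∈ deg n (d + 1), ∀ i j : Fin n, ∃ c' ∈ deg n d,
    fL (B c) i j = B c' := by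
  induction d with
  | zero =>
    intro c hc i j
    have key : deg n (0 + 1) ≤
        { carrier := {c | ∃ c' ∈ deg n 0, fL (B c) i j = B c'}
          add_mem' := by
            rintro a b ⟨a', ha, ha'⟩ ⟨b', hb, hb'⟩
            refine ⟨a' + b', Submodule.add_mem _ ha hb, ?_⟩
            rw [map_add, map_add, ← ha', ← hb']; rfl
          zero_mem' := ⟨0, Submodule.zero_mem _, by rw [map_zero]; rfl⟩
          smul_mem' := by
            rintro r a ⟨a', ha, ha'⟩
            refine ⟨r • a', Submodule.smul_mem _ _ ha, ?_⟩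
            rw [map_smul, map_smul, ← ha']; rfl : Submodule ℚ (FK n) } := by
      refine deg_succ_le' ?_
      intro a b w hw
      obtain ⟨r, rfl⟩ := mem_deg_zero hw
      refine ⟨kap a b i j • (r • 1), Submodule.smul_mem _ _ (smul_one_mem_deg r), ?_⟩
      refine LinearMap.ext fun u => ?_
      rw [fL_apply, B_mul_x, dl_x_mul, map_add, map_smul, map_smul, map_smul, map_smul,
        LinearMap.smul_apply, LinearMap.smul_apply, LinearMap.smul_apply, B_one_left, map_mul,
        eps_x, zero_mul, smul_zero, zero_add]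
      rfl
    exact key hc
  | succ d ih =>
    intro c hc i j
    have key : deg n (d + 1 + 1) ≤
        { carrier := {c | ∃ c' ∈ deg n (d + 1), fL (B c) i j = B c'}
          add_mem' := by
            rintro a b ⟨a', ha, ha'⟩ ⟨b', hb, hb'⟩
            refine ⟨a' + b', Submodule.add_mem _ ha hb, ?_⟩
            rw [map_add, map_add, ← ha', ← hb']; rfl
          zero_mem' := ⟨0, Submodule.zero_mem _, by rw [map_zero]; rfl⟩
          smul_mem' := by
            rintro r a ⟨a', ha, ha'⟩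
            refine ⟨r • a', Submodule.smul_mem _ _ ha, ?_⟩
            rw [map_smul, map_smul, ← ha']; rfl : Submodule ℚ (FK n) } := by
      refine deg_succ_le' ?_
      intro a b w hw
      obtain ⟨w', hw', e⟩ := ih w hw (Equiv.swap a b i) (Equiv.swap a b j)
      refine ⟨kap a b i j • w + w' * x a b, Submodule.add_mem _ (Submodule.smul_mem _ _ hw)
        (mul_x_mem_deg _ _ hw'), ?_⟩
      refine LinearMap.ext fun u => ?_
      rw [fL_apply, B_mul_x, dl_x_mul, map_add, map_smul, map_add, map_smul, LinearMap.add_apply,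
        LinearMap.smul_apply, B_mul_x, ← e, fL_apply, add_comm]
    exact key hc

theorem fL_B_deg_zero {c : FK n} (hc : c ∈ deg n 0) (i j : Fin n) : fL (B c) i j = 0 :=
  (HomD_B hc).fL_zero i j

end H387FK
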