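import Pool.Agent.helper387_fk.GSound
import Pool.Agent.helper387_fk.Cert

/-!
Exact rewriting in the Fomin-Kirillov algebra on six points: every rule is either certified by
two-sided multiples of the quadratic relations, or obtained from overlaps of shorter rules.
-/

namespace H387E

open H387FK (S Sg bnot bxor band)
open H387G

attribute [local irreducible] H387FK.instRing H387FK.instAlg

/-- Look for a rule at the head of a word, using at most `n` letters of the word. -/
noncomputable def findN (r : R) : Nat → W → (List Tm → W → T) → T → T :=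
  R.rec (motive := fun _ => Nat → W → (List Tm → W → T) → T → T)
    (fun _ _ _ x => x)
    (fun p _ w g _ => g p w)
    (fun _ _ _ _ _ _ i1 i2 i3 i4 i5 i6 n w g x => Nat.rec (motive := fun _ => T) x
      (fun n _ => W.rec (motive := fun _ => T) x
        (fun w _ => i1 n w g x) (fun w _ => i2 n w g x) (fun w _ => i3 n w g x)
        (fun w _ => i4 n w g x) (fun w _ => i5 n w g x) (fun w _ => i6 n w g x) w) n) r

/-- Normal form of `pre * todo` for the rules of length at most `n + 1`, added to `acc`. -/
noncomputable def nfN (D : GD) (n : Nat) (fuel : Nat) : W → W → Bool → Nat → T → T :=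
  Nat.rec (motive := fun _ => W → W → Bool → Nat → T → T)
    (fun pre todo s q acc => ins s q (rapp todo pre) acc)
    (fun _ ih pre todo s q acc => W.rec (motive := fun _ => T) (ins s q pre acc)
      (fun w _ => findN (D.tab L.a) n pre (fun p pre' => fold p ih pre' w s q acc) (ih (W.a pre) w s q acc))
      (fun w _ => findN (D.tab L.b) n pre (fun p pre' => fold p ih pre' w s q acc) (ih (W.b pre) w s q acc))
      (fun w _ => findN (D.tab L.c) n pre (fun p pre' => fold p ih pre' w s q acc) (ih (W.c pre) w s q acc))
      (fun w _ => findN (D.tab L.d) n pre (fun p pre' => fold p ih pre' w s q acc) (ih (W.d pre) w s q acc))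
      (fun w _ => findN (D.tab L.f) n pre (fun p pre' => fold p ih pre' w s q acc) (ih (W.f pre) w s q acc))
      (fun w _ => findN (D.tab L.g) n pre (fun p pre' => fold p ih pre' w s q acc) (ih (W.g pre) w s q acc))
      todo) fuel

/-- The normal form of a word where only the last letter is new; the word is given with the last
letter outermost. -/
noncomputable def sfx (D : GD) (n : Nat) (s : Bool) (v : W) (acc : T) : T :=
  W.rec (motive := fun _ => T) (ins s 1 W.e acc)
    (fun w _ => nfN D n 1000 w (W.a W.e) s 1 acc) (fun w _ => nfN D n 1000 w (W.b W.e) s 1 acc)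
    (fun w _ => nfN D n 1000 w (W.c W.e) s 1 acc) (fun w _ => nfN D n 1000 w (W.d W.e) s 1 acc)
    (fun w _ => nfN D n 1000 w (W.f W.e) s 1 acc) (fun w _ => nfN D n 1000 w (W.g W.e) s 1 acc) v

/-- Add the differences of the two normal forms for the words of a list. -/
noncomputable def spo (D : GD) (n : Nat) (c : List (Bool × W)) : T → T :=
  List.rec (motive := fun _ => T → T) (fun acc => acc)
    (fun q _ ih acc => Prod.rec (motive := fun _ => T) (fun s v =>
      fo (fo (nfN D n 1000 W.e v s 1 acc) (sfx D n (bnot s) (rapp v W.e))) ih) q) c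

/-- Add the terms of a polynomial. -/
noncomputable def insR (p : List Tm) : T → T :=
  List.rec (motive := fun _ => T → T) (fun acc => acc)
    (fun tm _ ih acc => Tm.rec (motive := fun _ => T)
      (fun s q w => fo (ins s q (rapp w W.e) acc) ih) tm) p

/-- Add the normal forms of the terms of a polynomial. -/
noncomputable def nfP (D : GD) (n : Nat) (p : List Tm) : T → T :=
  List.rec (motive := fun _ => T → T) (fun acc => acc)
    (fun tm _ ih acc => Tm.rec (motive := fun _ => T)
      (fun s q w => fo (nfN D n 1000 W.e w s q acc) ih) tm) p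

/-- Certificates for the rules of a table. -/
inductive C : Type
  | nil | ov (c : List (Bool × W)) | ba (c : List H387C.It) | br (r1 r2 r3 r4 r5 r6 : C)

/-- The test for a rule `g ↦ p` which is obtained from overlaps. -/
noncomputable def chkS (D : GD) (n : Nat) (g : W) (p : List Tm) (c : List (Bool × W)) : Bool :=
  isz (spo D n c (ins true 1 (rapp g W.e) (insR p T.z)))

/-- Translate a word. -/
noncomputable def cw (tc : L → H387C.L) (w : W) : List H387C.L :=
  W.rec (motive := fun _ => List H387C.L) [] (fun _ ih => tc L.a :: ih) (fun _ ih => tc L.b :: ih)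
    (fun _ ih => tc L.c :: ih) (fun _ ih => tc L.d :: ih) (fun _ ih => tc L.f :: ih)
    (fun _ ih => tc L.g :: ih) w

/-- Translate a polynomial, with a change of all signs if `s₀` is `true`. -/
noncomputable def cp (tc : L → H387C.L) (s₀ : Bool) (p : List Tm) : List (Bool × List H387C.L) :=
  List.rec (motive := fun _ => List (Bool × List H387C.L)) []
    (fun tm _ ih => Tm.rec (motive := fun _ => List (Bool × List H387C.L))
      (fun s _ w => (bxor s₀ s, cw tc w) :: ih) tm) p

/-- All multiplicities are one. -/
noncomputable def q1 (p : List Tm) : Bool :=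
  List.rec (motive := fun _ => Bool) true
    (fun tm _ ih => Tm.rec (motive := fun _ => Bool) (fun _ q _ => band (Nat.beq q 1) ih) tm) p

/-- The test for a rule `g ↦ p` which is certified by quadratic relations. -/
noncomputable def chkB (tc : L → H387C.L) (g : W) (p : List Tm) (c : List H387C.It) : Bool :=
  band (q1 p) (band (c.all H387C.okI)
    (H387C.isz (H387C.run c (H387C.insP ((false, cw tc g) :: cp tc true p) H387C.BT.z))))

/-- The test for all rules of a table. -/
noncomputable def chkC (D : GD) (tc : L → H387C.L) (r : R) : C → Nat → W → Bool :=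
  R.rec (motive := fun _ => C → Nat → W → Bool) (fun _ _ _ => true)
    (fun p c m g => Nat.rec (motive := fun _ => Bool) false
      (fun k _ => C.rec (motive := fun _ => Bool) false (fun cs => chkS D k g p cs)
        (fun its => chkB tc g p its) (fun _ _ _ _ _ _ _ _ _ _ _ _ => false) c) m)
    (fun _ _ _ _ _ _ i1 i2 i3 i4 i5 i6 c m g => C.rec (motive := fun _ => Bool) false
      (fun _ => false) (fun _ => false)
      (fun c1 c2 c3 c4 c5 c6 _ _ _ _ _ _ => band (i1 c1 (Nat.succ m) (W.a g))
        (band (i2 c2 (Nat.succ m) (W.b g)) (band (i3 c3 (Nat.succ m) (W.c g))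
        (band (i4 c4 (Nat.succ m) (W.d g)) (band (i5 c5 (Nat.succ m) (W.f g))
        (i6 c6 (Nat.succ m) (W.g g))))))) c) r

/-- The test for an identity. -/
noncomputable def chkT (D : GD) (n : Nat) (p : List Tm) (c : List (Bool × W)) : Bool :=
  isz (spo D n c (nfP D n p T.z))

open H387FK (FK x vl vl_bxor vl_bnot band_eq)

theorem findN_spec (r : R) : ∀ (n : Nat) (w : W),
    (∃ u w' p, wl w = u ++ wl w' ∧ u.length ≤ n ∧ mem r u p ∧ ∀ g x, findN r n w g x = g p w') ∨
      (∀ g x, findN r n w g x = x) := by
  induction r with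
  | nil => exact fun _ _ => Or.inr fun _ _ => rfl
  | hit p => exact fun n w => Or.inl ⟨[], w, p, rfl, Nat.zero_le _, ⟨rfl, rfl⟩, fun _ _ => rfl⟩
  | br r1 r2 r3 r4 r5 r6 i1 i2 i3 i4 i5 i6 =>
    intro n w
    cases n with
    | zero => exact Or.inr fun _ _ => rfl
    | succ n =>
      cases w with
      | e => exact Or.inr fun _ _ => rfl
      | a w =>
        rcases i1 n w with ⟨u, w', p, h1, h0, h2, h3⟩ | h
        · exact Or.inl ⟨.a :: u, w', p, congrArg _ h1, Nat.succ_le_succ h0, h2, h3⟩
        · exact Or.inr h
      | b w =>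
        rcases i2 n w with ⟨u, w', p, h1, h0, h2, h3⟩ | h
        · exact Or.inl ⟨.b :: u, w', p, congrArg _ h1, Nat.succ_le_succ h0, h2, h3⟩
        · exact Or.inr h
      | c w =>
        rcases i3 n w with ⟨u, w', p, h1, h0, h2, h3⟩ | h
        · exact Or.inl ⟨.c :: u, w', p, congrArg _ h1, Nat.succ_le_succ h0, h2, h3⟩
        · exact Or.inr h
      | d w =>
        rcases i4 n w with ⟨u, w', p, h1, h0, h2, h3⟩ | h
        · exact Or.inl ⟨.d :: u, w', p, congrArg _ h1, Nat.succ_le_succ h0, h2, h3⟩
        · exact Or.inr h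
      | f w =>
        rcases i5 n w with ⟨u, w', p, h1, h0, h2, h3⟩ | h
        · exact Or.inl ⟨.f :: u, w', p, congrArg _ h1, Nat.succ_le_succ h0, h2, h3⟩
        · exact Or.inr h
      | g w =>
        rcases i6 n w with ⟨u, w', p, h1, h0, h2, h3⟩ | h
        · exact Or.inl ⟨.g :: u, w', p, congrArg _ h1, Nat.succ_le_succ h0, h2, h3⟩
        · exact Or.inr h

/-- All rules of length at most `N` hold in the algebra. -/
def ValE (D : GD) (N : ℕ) : Prop :=
  ∀ k u p, mem (D.tab k) u p → u.length + 1 ≤ N → ev D (k :: u) = evLf D p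

theorem fold_soundE {D : GD} {h : W → W → Bool → ℕ → T → T}
    (hh : ∀ pre todo s q acc, evT D (h pre todo s q acc) =
      evT D acc + vl s q • (ev D (wl pre) * evf D (wl todo)))
    (pre todo : W) (s : Bool) (q : ℕ) (p : List Tm) (acc : T) :
    evT D (fold p h pre todo s q acc) =
      evT D acc + vl s q • (ev D (wl pre) * evLf D p * evf D (wl todo)) := by
  induction p generalizing acc with
  | nil =>
    show evT D acc = _
    rw [evLf, mul_zero, zero_mul, smul_zero, add_zero]
  | cons tm p ih =>
    obtain ⟨s', q', w'⟩ := tm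
    show evT D (fo (h pre (app w' todo) (bxor s s') (Nat.mul q q') acc)
      (fun acc => fold p h pre todo s q acc)) = _
    rw [fo_eq, ih, hh, vl_bxor, wl_app, evf_append, evLf]
    simp only [mul_add, add_mul, mul_smul_comm, smul_mul_assoc, mul_assoc, smul_add, smul_smul]
    abel

theorem nfN_succ (D : GD) (n fuel : ℕ) (pre : W) (k : L) (w : W) (s : Bool) (q : ℕ) (acc : T) :
    nfN D n (fuel + 1) pre (cn k w) s q acc =
      findN (D.tab k) n pre (fun p pre' => fold p (nfN D n fuel) pre' w s q acc)
        (nfN D n fuel (cn k pre) w s q acc) := by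
  cases k <;> rfl

theorem nfN_sound {D : GD} {n : ℕ} (hV : ValE D (n + 1)) (fuel : ℕ) :
    ∀ pre todo s q acc, evT D (nfN D n fuel pre todo s q acc) =
      evT D acc + vl s q • (ev D (wl pre) * evf D (wl todo)) := by
  induction fuel with
  | zero =>
    intro pre todo s q acc
    show evT D (ins s q (rapp todo pre) acc) = _
    rw [ins_eq, wl_rapp, ev_append, ev_reverse]
  | succ fuel ih =>
    intro pre todo s q acc
    refine W_ind (p := fun todo => evT D (nfN D n (fuel + 1) pre todo s q acc) =
      evT D acc + vl s q • (ev D (wl pre) * evf D (wl todo))) ?_ ?_ todo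
    · show evT D (ins s q pre acc) = _
      rw [ins_eq, wl, evf, mul_one]
    · intro k w _
      rw [nfN_succ]
      rcases findN_spec (D.tab k) n pre with ⟨u, w', p, h1, h0, h2, h3⟩ | h3
      · rw [h3, fold_soundE ih]
        have hv := hV k u p h2 (Nat.succ_le_succ h0)
        rw [← hv, h1, ev_append, wl_cn, ev, evf]
        simp only [mul_assoc]
      · rw [h3, ih, wl_cn, wl_cn, ev, evf, mul_assoc]

theorem sfx_cn (D : GD) (n : ℕ) (s : Bool) (k : L) (w : W) (acc : T) :
    sfx D n s (cn k w) acc = nfN D n 1000 w (cn k W.e) s 1 acc := by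
  cases k <;> rfl

theorem sfx_sound {D : GD} {n : ℕ} (hV : ValE D (n + 1)) (s : Bool) (v : W) (acc : T) :
    evT D (sfx D n s v acc) = evT D acc + vl s 1 • ev D (wl v) := by
  refine W_ind (p := fun v => evT D (sfx D n s v acc) = evT D acc + vl s 1 • ev D (wl v)) ?_ ?_ v
  · show evT D (ins s 1 W.e acc) = _
    rw [ins_eq]
  · intro k w _
    rw [sfx_cn, nfN_sound hV, wl_cn, wl_cn, wl, evf, evf, mul_one, ev]

theorem spo_sound {D : GD} {n : ℕ} (hV : ValE D (n + 1)) (c : List (Bool × W)) :
    ∀ acc, evT D (spo D n c acc) = evT D acc := by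
  induction c with
  | nil => intro acc; rfl
  | cons q c ih =>
    intro acc
    obtain ⟨s, v⟩ := q
    show evT D (fo (fo (nfN D n 1000 W.e v s 1 acc) (sfx D n (bnot s) (rapp v W.e))) (spo D n c)) = _
    rw [fo_eq, fo_eq, ih, sfx_sound hV, nfN_sound hV, vl_bnot, wl_rapp, wl, List.append_nil,
      ev_reverse, ev, one_mul, neg_smul]
    abel

theorem insR_sound (D : GD) (p : List Tm) : ∀ acc, evT D (insR p acc) = evT D acc + evLf D p := by
  induction p with
  | nil =>
    intro acc
    show evT D acc = _
    rw [evLf, add_zero]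
  | cons tm p ih =>
    intro acc
    obtain ⟨s, q, w⟩ := tm
    show evT D (fo (ins s q (rapp w W.e) acc) (insR p)) = _
    rw [fo_eq, ih, ins_eq, wl_rapp, wl, List.append_nil, ev_reverse, evLf, add_assoc]

theorem nfP_sound {D : GD} {n : ℕ} (hV : ValE D (n + 1)) (p : List Tm) :
    ∀ acc, evT D (nfP D n p acc) = evT D acc + evLf D p := by
  induction p with
  | nil =>
    intro acc
    show evT D acc = _
    rw [evLf, add_zero]
  | cons tm p ih =>
    intro acc
    obtain ⟨s, q, w⟩ := tm
    show evT D (fo (nfN D n 1000 W.e w s q acc) (nfP D n p)) = _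
    rw [fo_eq, ih, nfN_sound hV, wl, ev, one_mul, evLf, add_assoc]

theorem chkS_sound {D : GD} {n : ℕ} (hV : ValE D (n + 1)) (g : W) (p : List Tm)
    (c : List (Bool × W)) (h : chkS D n g p c = true) : evf D (wl g) = evLf D p := by
  have h1 := isz_sound D _ h
  rw [spo_sound hV, ins_eq, insR_sound, wl_rapp, wl, List.append_nil, ev_reverse] at h1
  have h2 : (vl true 1 : ℚ) = -1 := by simp [vl]
  rw [h2, neg_smul, one_smul, evT, zero_add] at h1
  exact (add_neg_eq_zero.mp h1).symm

theorem chkT_sound {D : GD} {n : ℕ} (hV : ValE D (n + 1)) (p : List Tm)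
    (c : List (Bool × W)) (h : chkT D n p c = true) : evLf D p = 0 := by
  have h1 := isz_sound D _ h
  rw [spo_sound hV, nfP_sound hV, evT, zero_add] at h1
  exact h1

/-- The letters have the right vertices. -/
def Tr (D : GD) (tc : L → H387C.L) : Prop :=
  ∀ k, H387C.v1 (tc k) = D.v1 k ∧ H387C.v2 (tc k) = D.v2 k

theorem evw_cw {D : GD} {tc : L → H387C.L} (ht : Tr D tc) (w : W) :
    H387C.evw (cw tc w) = evf D (wl w) := by
  refine W_ind (p := fun w => H387C.evw (cw tc w) = evf D (wl w)) rfl ?_ w
  intro k w ih
  have h : cw tc (cn k w) = tc k :: cw tc w := by cases k <;> rfl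
  rw [h, H387C.evw, ih, wl_cn, evf, y, (ht k).1, (ht k).2]

theorem sv_bxor (s t : Bool) : H387C.sv (bxor s t) = H387C.sv s * H387C.sv t := by
  cases s <;> cases t <;> simp [H387C.sv, bxor, bnot]

theorem evp_cp {D : GD} {tc : L → H387C.L} (ht : Tr D tc) (s₀ : Bool) (p : List Tm)
    (h : q1 p = true) : H387C.evp (cp tc s₀ p) = H387C.sv s₀ • evLf D p := by
  induction p with
  | nil =>
    show (0 : FK 6) = _
    rw [evLf, smul_zero]
  | cons tm p ih =>
    obtain ⟨s, q, w⟩ := tm
    obtain ⟨h1, h2⟩ := band_eq (s := Nat.beq q 1) h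
    have h3 : q = 1 := Nat.eq_of_beq_eq_true h1
    subst h3
    show H387C.sv (bxor s₀ s) • H387C.evw (cw tc w) + H387C.evp (cp tc s₀ p) = _
    rw [ih h2, evw_cw ht, evLf, smul_add, sv_bxor, mul_smul]
    congr 3
    cases s <;> simp [H387C.sv, vl]

theorem chkB_sound {D : GD} {tc : L → H387C.L} (ht : Tr D tc) (g : W) (p : List Tm)
    (c : List H387C.It) (h : chkB tc g p c = true) : evf D (wl g) = evLf D p := by
  obtain ⟨h1, h⟩ := band_eq (s := q1 p) h
  obtain ⟨h2, h3⟩ := band_eq (s := c.all H387C.okI) h
  have h4 := H387C.cert_sound _ c h2 h3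
  rw [H387C.evp, evp_cp ht true p h1, evw_cw ht] at h4
  have h5 : H387C.sv false = 1 := by simp [H387C.sv]
  have h6 : H387C.sv true = -1 := by simp [H387C.sv]
  rw [h5, h6, one_smul, neg_smul, one_smul] at h4
  exact add_neg_eq_zero.mp h4

theorem chkC_sound {D : GD} {tc : L → H387C.L} (ht : Tr D tc) (r : R) :
    ∀ (c : C) (m : ℕ) (g : W), chkC D tc r c m g = true → ∀ u p, mem r u p →
      ValE D (m + u.length) → evf D (u.reverse ++ wl g) = evLf D p := by
  induction r with
  | nil => intro c m g _ u p hm; exact absurd hm (by simp [mem])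
  | hit q =>
    intro c m g h u p hm hV
    obtain ⟨rfl, rfl⟩ := hm
    cases m with
    | zero => exact absurd h (by intro h; exact Bool.noConfusion h)
    | succ k =>
      cases c with
      | nil => exact absurd h (by intro h; exact Bool.noConfusion h)
      | ov cs => exact chkS_sound hV g p cs h
      | ba its => exact chkB_sound ht g p its h
      | br _ _ _ _ _ _ => exact absurd h (by intro h; exact Bool.noConfusion h)
  | br r1 r2 r3 r4 r5 r6 i1 i2 i3 i4 i5 i6 =>
    intro c m g h u p hm hV
    cases c with
    | nil => exact absurd h (by intro h; exact Bool.noConfusion h)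
    | ov cs => exact absurd h (by intro h; exact Bool.noConfusion h)
    | ba its => exact absurd h (by intro h; exact Bool.noConfusion h)
    | br c1 c2 c3 c4 c5 c6 =>
      obtain ⟨h1, h⟩ := band_eq (s := chkC D tc r1 c1 (Nat.succ m) (W.a g)) h
      obtain ⟨h2, h⟩ := band_eq (s := chkC D tc r2 c2 (Nat.succ m) (W.b g)) h
      obtain ⟨h3, h⟩ := band_eq (s := chkC D tc r3 c3 (Nat.succ m) (W.c g)) h
      obtain ⟨h4, h⟩ := band_eq (s := chkC D tc r4 c4 (Nat.succ m) (W.d g)) h
      obtain ⟨h5, h6⟩ := band_eq (s := chkC D tc r5 c5 (Nat.succ m) (W.f g)) h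
      cases u with
      | nil => exact absurd hm (by simp [mem])
      | cons k u =>
        have e : m + (k :: u).length = Nat.succ m + u.length := by
          rw [List.length_cons, Nat.succ_add, Nat.add_succ]
        rw [e] at hV
        rw [List.reverse_cons, List.append_assoc, List.singleton_append]
        cases k with
        | a => exact i1 c1 _ _ h1 u p hm hV
        | b => exact i2 c2 _ _ h2 u p hm hV
        | c => exact i3 c3 _ _ h3 u p hm hV
        | d => exact i4 c4 _ _ h4 u p hm hV
        | f => exact i5 c5 _ _ h5 u p hm hV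
        | g => exact i6 c6 _ _ h6 u p hm hV

/-- If all tests are passed, then all rules hold in the algebra. -/
theorem valE_of_chk {D : GD} {tc : L → H387C.L} (ht : Tr D tc)
    (h : ∀ k, ∃ c, chkC D tc (D.tab k) c 0 (cn k W.e) = true) (N : ℕ) : ValE D N := by
  induction N with
  | zero => intro k u p _ hN; exact absurd hN (by omega)
  | succ N ih =>
    intro k u p hm hN
    by_cases h1 : u.length + 1 ≤ N
    · exact ih k u p hm h1
    · obtain ⟨c, hc⟩ := h k
      have h2 : 0 + u.length = N := by omega
      have h3 := chkC_sound ht (D.tab k) c 0 (cn k W.e) hc u p hm (by rw [h2]; exact ih)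
      rw [← h3, wl_cn, wl]
      have h4 : u.reverse ++ [k] = (k :: u).reverse := by rw [List.reverse_cons]
      rw [h4, ← ev_reverse, List.reverse_reverse]

end H387E
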