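import Pool.Agent.helper387_fk.EX1Data

/-!
Kernel evaluation of the tests.
-/

namespace H387E.X1

open H387G

theorem chk_a : chkC D tc Ra Ca 0 (W.a W.e) = true := by decide +kernel

theorem chk_b : chkC D tc Rb Cb 0 (W.b W.e) = true := by decide +kernel

theorem chk_c : chkC D tc Rc Cc 0 (W.c W.e) = true := by decide +kernel

theorem chk_d : chkC D tc Rd Cd 0 (W.d W.e) = true := by decide +kernel

theorem chk_f : chkC D tc Rf Cf 0 (W.f W.e) = true := by decide +kernel

theorem chk_g : chkC D tc Rg Cg 0 (W.g W.e) = true := by decide +kernel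

theorem tr : Tr D tc := by
  intro k
  cases k <;> exact ⟨rfl, rfl⟩

theorem val (N : ℕ) : ValE D N := by
  refine valE_of_chk tr ?_ N
  intro k
  cases k
  · exact ⟨Ca, chk_a⟩
  · exact ⟨Cb, chk_b⟩
  · exact ⟨Cc, chk_c⟩
  · exact ⟨Cd, chk_d⟩
  · exact ⟨Cf, chk_f⟩
  · exact ⟨Cg, chk_g⟩

theorem chk_t0 : chkT D 12 t0 s0 = true := by decide +kernel

theorem zero_t0 : evLf D t0 = 0 := chkT_sound (val 13) t0 s0 chk_t0

theorem q_t0 : q1 t0 = true := by decide +kernel

theorem evp_t0 : H387C.evp (cp tc false t0) = 0 := by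
  rw [evp_cp tr false t0 q_t0, zero_t0, smul_zero]

theorem chk_t1 : chkT D 12 t1 s1 = true := by decide +kernel

theorem zero_t1 : evLf D t1 = 0 := chkT_sound (val 13) t1 s1 chk_t1

theorem q_t1 : q1 t1 = true := by decide +kernel

theorem evp_t1 : H387C.evp (cp tc false t1) = 0 := by
  rw [evp_cp tr false t1 q_t1, zero_t1, smul_zero]

theorem chk_t2 : chkT D 12 t2 s2 = true := by decide +kernel

theorem zero_t2 : evLf D t2 = 0 := chkT_sound (val 13) t2 s2 chk_t2

theorem q_t2 : q1 t2 = true := by decide +kernel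

theorem evp_t2 : H387C.evp (cp tc false t2) = 0 := by
  rw [evp_cp tr false t2 q_t2, zero_t2, smul_zero]

theorem chk_t3 : chkT D 12 t3 s3 = true := by decide +kernel

theorem zero_t3 : evLf D t3 = 0 := chkT_sound (val 13) t3 s3 chk_t3

theorem q_t3 : q1 t3 = true := by decide +kernel

theorem evp_t3 : H387C.evp (cp tc false t3) = 0 := by
  rw [evp_cp tr false t3 q_t3, zero_t3, smul_zero]

end H387E.X1
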