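import Pool.Agent.helper387_fk.EEngine

/-!
Rules for the graph with edges 16, 36, 13, 46, 26, 15, with certificates (generated by a program).
-/

namespace H387E.X1

open H387FK (S Sg)
open H387G
open W Tm

def b_aa : List H387C.It := [
  .sq true [] .a16 []]

def b_bb : List H387C.It := [
  .sq true [] .a36 []]

def b_ca : List H387C.It := [
  .t2 false [] .a13 .a36 .a16 []]

def b_cb : List H387C.It := [
  .t1 true [] .a13 .a36 .a16 []]

def b_cc : List H387C.It := [
  .sq true [] .a13 []]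

def b_dc : List H387C.It := [
  .cm false [] .a13 .a46 []]

def b_dd : List H387C.It := [
  .sq true [] .a46 []]

def b_fc : List H387C.It := [
  .cm false [] .a13 .a26 []]

def b_ff : List H387C.It := [
  .sq true [] .a26 []]

def b_gb : List H387C.It := [
  .cm true [] .a15 .a36 []]

def b_gd : List H387C.It := [
  .cm true [] .a15 .a46 []]

def b_gf : List H387C.It := [
  .cm true [] .a15 .a26 []]

def b_dad : List H387C.It := [
  .sq false [] .a16 [.a14],
  .t1 false [] .a14 .a46 .a16 [.a46],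
  .sq true [.a14] .a46 [],
  .t1 false [.a16] .a14 .a46 .a16 []]

def b_dbd : List H387C.It := [
  .sq false [] .a36 [.a34],
  .t1 false [] .a34 .a46 .a36 [.a46],
  .sq true [.a34] .a46 [],
  .t1 false [.a36] .a34 .a46 .a36 []]

def b_faf : List H387C.It := [
  .sq false [] .a16 [.a12],
  .t1 false [] .a12 .a26 .a16 [.a26],
  .sq true [.a12] .a26 [],
  .t1 false [.a16] .a12 .a26 .a16 []]

def b_fbf : List H387C.It := [
  .sq false [] .a26 [.a23],
  .t1 false [] .a23 .a36 .a26 [.a36],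
  .sq true [.a23] .a36 [],
  .t1 false [.a26] .a23 .a36 .a26 []]

def b_fdf : List H387C.It := [
  .sq false [] .a26 [.a24],
  .t1 false [] .a24 .a46 .a26 [.a46],
  .sq true [.a24] .a46 [],
  .t1 false [.a26] .a24 .a46 .a26 []]

def b_gag : List H387C.It := [
  .sq true [] .a15 [.a56],
  .t1 false [] .a15 .a56 .a16 [.a16],
  .t1 false [.a15] .a15 .a56 .a16 [],
  .sq false [.a56] .a16 []]

def b_gcg : List H387C.It := [
  .sq true [] .a13 [.a35],
  .t1 false [] .a13 .a35 .a15 [.a15],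
  .t1 false [.a13] .a13 .a35 .a15 [],
  .sq false [.a35] .a15 []]

def b_fadf : List H387C.It := [
  .sq false [] .a26 [.a24, .a14],
  .cm false [] .a26 .a14 [.a16, .a26],
  .t2 false [] .a14 .a46 .a16 [.a26, .a16],
  .t1 false [] .a24 .a46 .a26 [.a46, .a14],
  .t2 false [.a26] .a14 .a46 .a16 [.a26],
  .t1 false [.a26] .a24 .a46 .a26 [.a14],
  .cm false [.a26, .a46] .a26 .a14 [],
  .cm false [.a46] .a26 .a14 [.a16],
  .t2 false [.a46, .a26] .a14 .a46 .a16 [],
  .sq true [.a14] .a16 [.a12],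
  .t1 true [.a14] .a12 .a26 .a16 [.a26],
  .t1 true [.a14, .a16] .a12 .a26 .a16 [],
  .sq false [.a14, .a12] .a26 [],
  .sq true [.a24] .a46 [.a14]]

def b_fbdf : List H387C.It := [
  .sq false [] .a36 [.a34, .a23],
  .cm false [] .a46 .a23 [.a26, .a46],
  .t2 false [] .a23 .a36 .a26 [.a46, .a26],
  .t1 false [] .a34 .a46 .a36 [.a46, .a23],
  .cm false [.a36] .a46 .a23 [.a26],
  .t1 false [.a36] .a34 .a46 .a36 [.a23],
  .t2 false [.a36, .a46] .a23 .a36 .a26 [],
  .t2 false [.a46] .a23 .a36 .a26 [.a46],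
  .cm false [.a46, .a36] .a46 .a23 [],
  .sq true [.a23] .a26 [.a24],
  .t1 true [.a23] .a24 .a46 .a26 [.a46],
  .t1 true [.a23, .a26] .a24 .a46 .a26 [],
  .sq false [.a23, .a24] .a46 [],
  .sq true [.a34] .a46 [.a23]]

def b_fdaf : List H387C.It := [
  .sq false [] .a26 [.a24, .a12],
  .cm false [] .a46 .a12 [.a16, .a46],
  .t2 false [] .a12 .a26 .a16 [.a46, .a16],
  .t1 false [] .a24 .a46 .a26 [.a46, .a12],
  .cm false [.a26] .a46 .a12 [.a16],
  .t1 false [.a26] .a24 .a46 .a26 [.a12],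
  .t2 false [.a26, .a46] .a12 .a26 .a16 [],
  .t2 false [.a46] .a12 .a26 .a16 [.a46],
  .cm false [.a46, .a26] .a46 .a12 [],
  .sq true [.a12] .a16 [.a14],
  .t1 true [.a12] .a14 .a46 .a16 [.a46],
  .t1 true [.a12, .a16] .a14 .a46 .a16 [],
  .sq false [.a12, .a14] .a46 [],
  .sq true [.a24] .a46 [.a12]]

def b_fdbf : List H387C.It := [
  .sq false [] .a36 [.a34, .a24],
  .cm false [] .a36 .a24 [.a26, .a36],
  .t2 false [] .a24 .a46 .a26 [.a36, .a26],
  .t1 false [] .a34 .a46 .a36 [.a46, .a24],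
  .t2 false [.a36] .a24 .a46 .a26 [.a36],
  .t1 false [.a36] .a34 .a46 .a36 [.a24],
  .cm false [.a36, .a46] .a36 .a24 [],
  .cm false [.a46] .a36 .a24 [.a26],
  .t2 false [.a46, .a36] .a24 .a46 .a26 [],
  .sq true [.a24] .a26 [.a23],
  .t1 true [.a24] .a23 .a36 .a26 [.a36],
  .t1 true [.a24, .a26] .a23 .a36 .a26 [],
  .sq false [.a24, .a23] .a36 [],
  .sq true [.a34] .a46 [.a24]]

def b_fadbf : List H387C.It := [
  .sq false [] .a36 [.a34, .a24, .a14],
  .cm false [] .a26 .a14 [.a16, .a36, .a26],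
  .cm false [] .a36 .a14 [.a26, .a16, .a36],
  .cm false [] .a36 .a24 [.a26, .a36, .a14],
  .t2 false [] .a14 .a46 .a16 [.a36, .a26, .a16],
  .t2 false [] .a24 .a46 .a26 [.a36, .a26, .a14],
  .t1 false [] .a34 .a46 .a36 [.a46, .a24, .a14],
  .t2 false [.a26] .a14 .a46 .a16 [.a36, .a26],
  .cm false [.a26, .a46] .a36 .a14 [.a26],
  .cm false [.a26, .a46, .a36] .a26 .a14 [],
  .cm false [.a36] .a26 .a14 [.a16, .a36],
  .t2 false [.a36] .a24 .a46 .a26 [.a36, .a14],
  .t1 false [.a36] .a34 .a46 .a36 [.a24, .a14],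
  .t2 false [.a36, .a26] .a14 .a46 .a16 [.a36],
  .cm false [.a36, .a26, .a46] .a36 .a14 [],
  .cm false [.a36, .a46] .a36 .a24 [.a14],
  .cm false [.a46] .a36 .a14 [.a26, .a16],
  .cm false [.a46] .a36 .a24 [.a26, .a14],
  .cm false [.a46, .a36] .a26 .a14 [.a16],
  .t2 false [.a46, .a36] .a24 .a46 .a26 [.a14],
  .t2 false [.a46, .a36, .a26] .a14 .a46 .a16 [],
  .sq true [.a14] .a26 [.a23, .a13],
  .cm true [.a14] .a26 .a13 [.a16, .a26],
  .t2 true [.a14] .a13 .a36 .a16 [.a26, .a16],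
  .t1 true [.a14] .a23 .a36 .a26 [.a36, .a13],
  .t2 true [.a14, .a26] .a13 .a36 .a16 [.a26],
  .t1 true [.a14, .a26] .a23 .a36 .a26 [.a13],
  .cm true [.a14, .a26, .a36] .a26 .a13 [],
  .cm true [.a14, .a36] .a26 .a13 [.a16],
  .t2 true [.a14, .a36, .a26] .a13 .a36 .a16 [],
  .sq false [.a14, .a13] .a16 [.a12],
  .t1 false [.a14, .a13] .a12 .a26 .a16 [.a26],
  .t1 false [.a14, .a13, .a16] .a12 .a26 .a16 [],
  .sq true [.a14, .a13, .a12] .a26 [],
  .sq false [.a14, .a23] .a36 [.a13],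
  .sq true [.a24] .a26 [.a23, .a14],
  .t1 true [.a24] .a23 .a36 .a26 [.a36, .a14],
  .t1 true [.a24, .a26] .a23 .a36 .a26 [.a14],
  .sq false [.a24, .a23] .a36 [.a14],
  .sq true [.a34] .a46 [.a24, .a14]]

def b_fbdaf : List H387C.It := [
  .sq false [] .a36 [.a34, .a23, .a12],
  .cm false [] .a36 .a12 [.a46, .a16, .a36],
  .cm false [] .a46 .a12 [.a16, .a36, .a46],
  .cm false [] .a46 .a23 [.a26, .a46, .a12],
  .t2 false [] .a12 .a26 .a16 [.a36, .a46, .a16],
  .t2 false [] .a23 .a36 .a26 [.a46, .a26, .a12],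
  .t1 false [] .a34 .a46 .a36 [.a46, .a23, .a12],
  .cm false [.a26] .a36 .a12 [.a46, .a16],
  .cm false [.a26, .a36] .a46 .a12 [.a16],
  .t2 false [.a26, .a36, .a46] .a12 .a26 .a16 [],
  .cm false [.a36] .a46 .a12 [.a16, .a36],
  .cm false [.a36] .a46 .a23 [.a26, .a12],
  .t1 false [.a36] .a34 .a46 .a36 [.a23, .a12],
  .t2 false [.a36, .a46] .a12 .a26 .a16 [.a36],
  .t2 false [.a36, .a46] .a23 .a36 .a26 [.a12],
  .cm false [.a36, .a46, .a26] .a36 .a12 [],
  .t2 false [.a46] .a12 .a26 .a16 [.a36, .a46],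
  .t2 false [.a46] .a23 .a36 .a26 [.a46, .a12],
  .cm false [.a46, .a26] .a36 .a12 [.a46],
  .cm false [.a46, .a26, .a36] .a46 .a12 [],
  .cm false [.a46, .a36] .a46 .a23 [.a12],
  .sq true [.a12] .a36 [.a34, .a13],
  .cm true [.a12] .a46 .a13 [.a16, .a46],
  .t2 true [.a12] .a13 .a36 .a16 [.a46, .a16],
  .t1 true [.a12] .a34 .a46 .a36 [.a46, .a13],
  .cm true [.a12, .a36] .a46 .a13 [.a16],
  .t1 true [.a12, .a36] .a34 .a46 .a36 [.a13],
  .t2 true [.a12, .a36, .a46] .a13 .a36 .a16 [],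
  .t2 true [.a12, .a46] .a13 .a36 .a16 [.a46],
  .cm true [.a12, .a46, .a36] .a46 .a13 [],
  .sq false [.a12, .a13] .a16 [.a14],
  .t1 false [.a12, .a13] .a14 .a46 .a16 [.a46],
  .t1 false [.a12, .a13, .a16] .a14 .a46 .a16 [],
  .sq true [.a12, .a13, .a14] .a46 [],
  .sq false [.a12, .a34] .a46 [.a13],
  .sq true [.a23] .a26 [.a24, .a12],
  .t1 true [.a23] .a24 .a46 .a26 [.a46, .a12],
  .t1 true [.a23, .a26] .a24 .a46 .a26 [.a12],
  .sq false [.a23, .a24] .a46 [.a12],
  .sq true [.a34] .a46 [.a23, .a12]]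

def b_fdabaf : List H387C.It := [
  .sq false [] .a26 [.a24, .a16, .a36, .a16],
  .sq false [] .a36 [.a34, .a13, .a24, .a12],
  .cm false [] .a16 .a24 [.a36, .a26, .a16, .a12],
  .cm false [] .a36 .a12 [.a16, .a46, .a26, .a36],
  .cm false [] .a36 .a24 [.a26, .a16, .a36, .a12],
  .cm false [] .a46 .a12 [.a26, .a36, .a16, .a46],
  .cm false [] .a46 .a13 [.a16, .a46, .a24, .a12],
  .t1 true [] .a12 .a26 .a16 [.a36, .a16, .a46, .a26],
  .t2 false [] .a12 .a26 .a16 [.a46, .a26, .a36, .a16],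
  .t2 false [] .a13 .a36 .a16 [.a46, .a16, .a24, .a12],
  .t1 false [] .a24 .a46 .a26 [.a46, .a16, .a36, .a16],
  .t2 false [] .a24 .a46 .a26 [.a16, .a36, .a26, .a12],
  .t1 false [] .a34 .a46 .a36 [.a46, .a13, .a24, .a12],
  .sq true [.a16] .a26 [.a24, .a36, .a16],
  .cm false [.a16] .a36 .a12 [.a16, .a46, .a26],
  .cm false [.a16] .a36 .a24 [.a26, .a16, .a12],
  .cm true [.a16] .a46 .a13 [.a26, .a46, .a36],
  .t1 true [.a16] .a24 .a46 .a26 [.a46, .a36, .a16],
  .t1 true [.a16, .a26] .a24 .a46 .a26 [.a36, .a16],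
  .sq false [.a16, .a36] .a26 [.a24, .a16],
  .t2 false [.a16, .a36] .a12 .a26 .a16 [.a46, .a26],
  .t1 false [.a16, .a36] .a24 .a46 .a26 [.a46, .a16],
  .t2 false [.a16, .a36] .a24 .a46 .a26 [.a16, .a12],
  .sq true [.a16, .a36, .a16] .a26 [.a24],
  .t1 true [.a16, .a36, .a16] .a24 .a46 .a26 [.a46],
  .t1 true [.a16, .a36, .a16, .a26] .a24 .a46 .a26 [],
  .sq false [.a16, .a36, .a16, .a24] .a46 [],
  .cm false [.a16, .a36, .a26] .a46 .a12 [.a26],
  .t1 false [.a16, .a36, .a26] .a24 .a46 .a26 [.a16],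
  .t1 true [.a16, .a36, .a26, .a46] .a12 .a26 .a16 [],
  .cm false [.a16, .a36, .a46] .a16 .a24 [.a12],
  .sq true [.a16, .a36, .a24] .a46 [.a16],
  .cm true [.a16, .a46] .a26 .a13 [.a46, .a36],
  .cm true [.a16, .a46, .a26] .a46 .a13 [.a36],
  .t1 false [.a16, .a46, .a26, .a46] .a13 .a36 .a16 [],
  .sq false [.a16, .a24] .a46 [.a36, .a16],
  .cm false [.a26] .a46 .a12 [.a26, .a36, .a16],
  .t1 false [.a26] .a24 .a46 .a26 [.a16, .a36, .a16],
  .t1 true [.a26, .a46] .a12 .a26 .a16 [.a36, .a16],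
  .cm false [.a26, .a46, .a16] .a36 .a12 [.a16],
  .t2 false [.a26, .a46, .a16, .a36] .a12 .a26 .a16 [],
  .sq false [.a36] .a26 [.a24, .a16, .a36],
  .cm false [.a36] .a46 .a13 [.a16, .a24, .a12],
  .t2 false [.a36] .a12 .a26 .a16 [.a46, .a26, .a36],
  .t1 false [.a36] .a24 .a46 .a26 [.a46, .a16, .a36],
  .t2 false [.a36] .a24 .a46 .a26 [.a16, .a36, .a12],
  .t1 false [.a36] .a34 .a46 .a36 [.a13, .a24, .a12],
  .sq true [.a36, .a16] .a26 [.a24, .a36],
  .t1 true [.a36, .a16] .a24 .a46 .a26 [.a46, .a36],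
  .t1 true [.a36, .a16, .a26] .a24 .a46 .a26 [.a36],
  .sq false [.a36, .a16, .a24] .a46 [.a36],
  .cm false [.a36, .a26] .a46 .a12 [.a26, .a36],
  .t1 false [.a36, .a26] .a24 .a46 .a26 [.a16, .a36],
  .t1 true [.a36, .a26, .a46] .a12 .a26 .a16 [.a36],
  .cm false [.a36, .a26, .a46, .a16] .a36 .a12 [],
  .cm false [.a36, .a46] .a16 .a24 [.a36, .a12],
  .t2 false [.a36, .a46] .a13 .a36 .a16 [.a24, .a12],
  .cm false [.a36, .a46, .a16] .a36 .a24 [.a12],
  .sq true [.a36, .a24] .a46 [.a16, .a36],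
  .cm false [.a46] .a16 .a24 [.a36, .a26, .a12],
  .t1 true [.a46] .a12 .a26 .a16 [.a36, .a16, .a46],
  .t2 false [.a46] .a13 .a36 .a16 [.a46, .a24, .a12],
  .cm false [.a46, .a16] .a36 .a12 [.a16, .a46],
  .cm false [.a46, .a16] .a36 .a24 [.a26, .a12],
  .t2 false [.a46, .a16, .a36] .a12 .a26 .a16 [.a46],
  .t2 false [.a46, .a16, .a36] .a24 .a46 .a26 [.a12],
  .cm false [.a46, .a16, .a36, .a26] .a46 .a12 [],
  .cm false [.a46, .a36] .a46 .a13 [.a24, .a12],
  .sq true [.a12] .a36 [.a34, .a23, .a14],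
  .cm true [.a12] .a26 .a14 [.a36, .a16, .a26],
  .cm true [.a12] .a36 .a14 [.a16, .a26, .a36],
  .cm true [.a12] .a46 .a23 [.a26, .a46, .a14],
  .t2 true [.a12] .a14 .a46 .a16 [.a26, .a36, .a16],
  .t2 true [.a12] .a23 .a36 .a26 [.a46, .a26, .a14],
  .t1 true [.a12] .a34 .a46 .a36 [.a46, .a23, .a14],
  .cm true [.a12, .a26] .a36 .a14 [.a16, .a26],
  .t2 true [.a12, .a26, .a36] .a14 .a46 .a16 [.a26],
  .cm true [.a12, .a26, .a36, .a46] .a26 .a14 [],
  .cm true [.a12, .a36] .a46 .a23 [.a26, .a14],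
  .t2 true [.a12, .a36] .a14 .a46 .a16 [.a26, .a36],
  .t1 true [.a12, .a36] .a34 .a46 .a36 [.a23, .a14],
  .cm true [.a12, .a36, .a46] .a26 .a14 [.a36],
  .t2 true [.a12, .a36, .a46] .a23 .a36 .a26 [.a14],
  .cm true [.a12, .a36, .a46, .a26] .a36 .a14 [],
  .cm true [.a12, .a46] .a26 .a14 [.a36, .a16],
  .t2 true [.a12, .a46] .a23 .a36 .a26 [.a46, .a14],
  .cm true [.a12, .a46, .a26] .a36 .a14 [.a16],
  .t2 true [.a12, .a46, .a26, .a36] .a14 .a46 .a16 [],
  .cm true [.a12, .a46, .a36] .a46 .a23 [.a14],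
  .sq false [.a12, .a14] .a26 [.a23, .a12],
  .cm false [.a12, .a14] .a36 .a12 [.a16, .a36],
  .t2 false [.a12, .a14] .a12 .a26 .a16 [.a36, .a16],
  .t1 false [.a12, .a14] .a23 .a36 .a26 [.a36, .a12],
  .cm false [.a12, .a14, .a26] .a36 .a12 [.a16],
  .t1 false [.a12, .a14, .a26] .a23 .a36 .a26 [.a12],
  .t2 false [.a12, .a14, .a26, .a36] .a12 .a26 .a16 [],
  .t2 false [.a12, .a14, .a36] .a12 .a26 .a16 [.a36],
  .cm false [.a12, .a14, .a36, .a26] .a36 .a12 [],
  .sq true [.a12, .a14, .a12] .a16 [.a13],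
  .t1 true [.a12, .a14, .a12] .a13 .a36 .a16 [.a36],
  .t1 true [.a12, .a14, .a12, .a16] .a13 .a36 .a16 [],
  .sq false [.a12, .a14, .a12, .a13] .a36 [],
  .sq true [.a12, .a14, .a23] .a36 [.a12],
  .sq false [.a12, .a23] .a26 [.a24, .a14],
  .t1 false [.a12, .a23] .a24 .a46 .a26 [.a46, .a14],
  .t1 false [.a12, .a23, .a26] .a24 .a46 .a26 [.a14],
  .sq true [.a12, .a23, .a24] .a46 [.a14],
  .sq false [.a12, .a34] .a46 [.a23, .a14],
  .sq true [.a13] .a16 [.a14, .a24, .a12],
  .t1 true [.a13] .a14 .a46 .a16 [.a46, .a24, .a12],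
  .t1 true [.a13, .a16] .a14 .a46 .a16 [.a24, .a12],
  .sq false [.a13, .a14] .a46 [.a24, .a12],
  .sq true [.a24] .a26 [.a23, .a13, .a12],
  .sq true [.a24] .a46 [.a16, .a36, .a16],
  .cm true [.a24] .a26 .a13 [.a16, .a26, .a12],
  .t2 true [.a24] .a13 .a36 .a16 [.a26, .a16, .a12],
  .t1 true [.a24] .a23 .a36 .a26 [.a36, .a13, .a12],
  .t2 true [.a24, .a26] .a13 .a36 .a16 [.a26, .a12],
  .t1 true [.a24, .a26] .a23 .a36 .a26 [.a13, .a12],
  .cm true [.a24, .a26, .a36] .a26 .a13 [.a12],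
  .cm true [.a24, .a36] .a26 .a13 [.a16, .a12],
  .t2 true [.a24, .a36, .a26] .a13 .a36 .a16 [.a12],
  .sq false [.a24, .a13] .a16 [.a12, .a12],
  .t1 false [.a24, .a13] .a12 .a26 .a16 [.a26, .a12],
  .t1 false [.a24, .a13, .a16] .a12 .a26 .a16 [.a12],
  .sq true [.a24, .a13, .a12] .a26 [.a12],
  .sq false [.a24, .a23] .a36 [.a13, .a12],
  .sq true [.a34] .a46 [.a13, .a24, .a12]]

def Ra : R := (.br (.hit []) (.br (.br .nil .nil .nil .nil .nil (.hit [t true 1 (b (g (a (b e))))]))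
  .nil .nil (.hit [t false 1 (c (d (b e))), t true 1 (d (a (c e)))]) (.hit [t false 1 (c (f (b e))),
  t true 1 (f (a (c e)))]) .nil) (.hit [t true 1 (a (b e)), t false 1 (b (c e))]) (.br (.br .nil
  .nil .nil .nil .nil (.hit [t true 1 (d (g (a (d e))))])) (.br (.br .nil .nil .nil .nil .nil (.hit
  [t true 1 (b (d (g (a (b e))))), t true 1 (d (g (a (b (d e)))))])) .nil .nil .nil (.br (.br .nil
  .nil .nil .nil .nil (.hit [t true 1 (b (d (g (a (f (b e)))))), t true 1 (d (g (a (f (b (d e)))))),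
  t true 1 (f (b (d (g (a (f e))))))])) .nil (.br (.br .nil .nil .nil (.br (.br .nil .nil .nil .nil
  (.hit [t true 1 (a (b (d (f (a (b (a (f (d e))))))))), t true 1 (a (d (b (f (a (b (d (a (f
  e))))))))), t false 1 (a (d (f (a (b (a (f (d (a e))))))))), t false 1 (b (c (d (f (a (b (a (f (d
  e))))))))), t true 1 (d (a (b (f (a (c (d (b (f e))))))))), t false 1 (d (a (f (a (c (d (b (f (a
  e))))))))), t true 1 (d (b (f (a (b (d (a (c (f e))))))))), t false 1 (d (f (a (b (a (f (d (a (c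
  e))))))))), t false 1 (f (a (b (d (a (c (f (b (d e)))))))))]) .nil) .nil .nil .nil .nil .nil) .nil
  .nil) .nil .nil .nil .nil .nil) .nil .nil .nil) .nil) .nil .nil (.br (.br .nil .nil .nil .nil .nil
  (.hit [t true 1 (d (g (a (f (d e))))), t true 1 (f (d (g (a (f e)))))])) (.br (.br .nil .nil .nil
  .nil .nil (.hit [t true 1 (b (f (d (g (a (b e)))))), t true 1 (d (g (a (b (f (d e)))))), t true 1
  (f (d (g (a (b (f e))))))])) .nil .nil .nil .nil .nil) .nil .nil .nil .nil) .nil) (.br (.br .nil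
  .nil .nil (.br (.br .nil .nil .nil .nil (.hit [t false 1 (d (f (a (d (a (f e))))))]) .nil) (.br
  (.br .nil .nil .nil .nil (.hit [t false 1 (b (d (f (a (b (a (f e))))))), t false 1 (d (f (a (b (d
  (a (f e)))))))]) .nil) .nil .nil .nil .nil .nil) .nil .nil .nil .nil) .nil (.hit [t true 1 (f (g
  (a (f e))))])) (.br (.br .nil .nil .nil .nil .nil (.hit [t true 1 (b (f (g (a (b e))))), t true 1
  (f (g (a (b (f e)))))])) .nil .nil (.br (.br .nil .nil .nil .nil .nil (.hit [t true 1 (b (f (g (a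
  (d (b e)))))), t true 1 (d (b (f (g (a (d e)))))), t true 1 (f (g (a (d (b (f e))))))])) .nil .nil
  .nil .nil .nil) .nil .nil) (.br (.br .nil .nil .nil (.br (.br .nil .nil .nil .nil (.hit [t true 1
  (b (f (a (c (d (b (f e))))))), t false 1 (b (f (a (d (a (c (f e))))))), t true 1 (d (b (f (a (d (a
  (f e))))))), t false 1 (f (a (c (d (b (f (a e)))))))]) .nil) .nil .nil .nil .nil .nil) .nil .nil)
  .nil .nil .nil .nil .nil) (.br (.br .nil (.br (.br .nil .nil .nil (.br .nil .nil .nil .nil (.hit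
  [t false 1 (b (d (f (a (b (a (f (d e)))))))), t false 1 (b (f (d (a (b (a (d (f e)))))))), t false
  1 (d (b (f (a (b (d (a (f e)))))))), t true 1 (d (f (a (b (a (f (d (a e)))))))), t false 1 (f (b
  (d (a (b (f (a (d e))))))))]) .nil) .nil .nil) .nil .nil .nil .nil .nil) .nil .nil .nil (.hit [t
  true 1 (d (f (g (a (d e))))), t true 1 (f (g (a (d (f e)))))])) (.br (.br .nil .nil .nil .nil .nil
  (.hit [t true 1 (b (d (f (g (a (b e)))))), t true 1 (d (f (g (a (b (d e)))))), t true 1 (f (g (a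
  (b (d (f e))))))])) .nil .nil .nil .nil .nil) .nil .nil .nil .nil) .nil .nil) (.br (.br .nil .nil
  .nil (.br .nil (.br .nil .nil .nil .nil (.br .nil (.br .nil .nil .nil (.br (.br .nil .nil .nil
  .nil .nil (.hit [t false 1 (a (g (a (d (b (f (b (d (a (g e))))))))))])) .nil .nil .nil .nil .nil)
  .nil .nil) .nil (.br (.br .nil .nil .nil .nil .nil (.hit [t false 1 (a (g (a (d (f (b (d (a (g
  e)))))))))])) .nil .nil .nil .nil .nil) .nil .nil) .nil) .nil .nil (.br .nil (.br .nil .nil .nil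
  (.br (.br .nil .nil .nil .nil .nil (.hit [t false 1 (a (g (a (d (b (f (d (a (g e)))))))))])) .nil
  .nil .nil .nil .nil) .nil .nil) .nil (.br (.br .nil .nil .nil .nil .nil (.hit [t false 1 (a (g (a
  (d (f (d (a (g e))))))))])) .nil (.br (.br .nil .nil .nil .nil .nil (.hit [t false 1 (a (c (g (a
  (d (f (d (a (g e))))))))), t false 1 (c (g (a (c (d (f (d (a (g e)))))))))])) .nil .nil .nil .nil
  .nil) .nil .nil .nil) .nil .nil) .nil) .nil .nil) (.br .nil .nil .nil (.br .nil .nil .nil .nil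
  (.br .nil .nil (.br .nil (.br (.br .nil .nil .nil .nil .nil (.hit [t false 1 (a (b (f (d (g (a (b
  (c (g e))))))))), t false 1 (a (d (g (a (b (c (f (d (g e))))))))), t false 1 (a (f (d (g (a (b (c
  (f (g e))))))))), t false 1 (a (g (a (b (c (f (d (b (g e))))))))), t true 1 (b (c (f (d (g (a (b
  (c (g e))))))))), t true 1 (d (g (a (b (c (f (d (g (a e))))))))), t true 1 (f (d (g (a (b (c (f (g
  (a e)))))))))])) .nil .nil .nil .nil .nil) .nil .nil .nil .nil) .nil .nil .nil) .nil) (.br .nil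
  .nil .nil (.br .nil .nil (.br .nil (.br (.br .nil .nil .nil .nil .nil (.hit [t false 1 (a (b (d (f
  (g (a (b (c (g e))))))))), t false 1 (a (d (f (g (a (b (c (d (g e))))))))), t false 1 (a (f (g (a
  (b (c (d (f (g e))))))))), t false 1 (a (g (a (b (c (d (f (b (g e))))))))), t true 1 (b (c (d (f
  (g (a (b (c (g e))))))))), t true 1 (d (f (g (a (b (c (d (g (a e))))))))), t true 1 (f (g (a (b (c
  (d (f (g (a e)))))))))])) .nil .nil .nil .nil .nil) .nil .nil .nil .nil) .nil .nil .nil) .nil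
  .nil) .nil) (.br (.br .nil .nil .nil (.br .nil .nil .nil .nil (.br .nil .nil .nil (.br .nil (.br
  (.br .nil .nil .nil .nil .nil (.hit [t true 1 (a (g (a (b (c (d (f (d (b (g e)))))))))), t false 1
  (a (g (a (b (d (f (d (a (c (g e)))))))))), t false 1 (g (a (b (c (d (f (d (b (g (a e))))))))))]))
  .nil .nil .nil .nil .nil) .nil .nil .nil .nil) .nil .nil) .nil) .nil .nil) (.br (.br .nil .nil
  .nil .nil .nil (.hit [t false 1 (c (g (a (b (c (g e))))))])) .nil .nil .nil .nil .nil) .nil .nil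
  .nil .nil) .nil .nil .nil))

def Ca : C := (.br (.ba b_aa) (.br (.br .nil .nil .nil .nil .nil (.ov [(false, (g (b (a (b e)))))]))
  .nil .nil (.ov [(true, (d (c (b e))))]) (.ov [(true, (f (c (b e))))]) .nil) (.ba b_ca) (.br (.br
  .nil .nil .nil .nil .nil (.ov [(false, (g (d (a (d e)))))])) (.br (.br .nil .nil .nil .nil .nil
  (.ov [(false, (g (d (a (b (d e))))))])) .nil .nil .nil (.br (.br .nil .nil .nil .nil .nil (.ov
  [(false, (g (f (b (d (a (f e)))))))])) .nil (.br (.br .nil .nil .nil (.br (.br .nil .nil .nil .nil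
  (.ov [(false, (f (a (d (a (f (b (d (a (d e))))))))))]) .nil) .nil .nil .nil .nil .nil) .nil .nil)
  .nil .nil .nil .nil .nil) .nil .nil .nil) .nil) .nil .nil (.br (.br .nil .nil .nil .nil .nil (.ov
  [(false, (g (f (d (a (f e))))))])) (.br (.br .nil .nil .nil .nil .nil (.ov [(false, (g (f (d (a (b
  (f e)))))))])) .nil .nil .nil .nil .nil) .nil .nil .nil .nil) .nil) (.br (.br .nil .nil .nil (.br
  (.br .nil .nil .nil .nil (.ov [(false, (f (a (d (f (a (f e)))))))]) .nil) (.br (.br .nil .nil .nil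
  .nil (.ov [(false, (f (a (b (d (f (a (f e))))))))]) .nil) .nil .nil .nil .nil .nil) .nil .nil .nil
  .nil) .nil (.ov [(false, (g (f (a (f e)))))])) (.br (.br .nil .nil .nil .nil .nil (.ov [(false, (g
  (f (a (b (f e))))))])) .nil .nil (.br (.br .nil .nil .nil .nil .nil (.ov [(false, (g (f (a (d (b
  (f e)))))))])) .nil .nil .nil .nil .nil) .nil .nil) (.br (.br .nil .nil .nil (.br (.br .nil .nil
  .nil .nil (.ov [(true, (f (a (d (b (f (a (f e))))))))]) .nil) .nil .nil .nil .nil .nil) .nil .nil)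
  .nil .nil .nil .nil .nil) (.br (.br .nil (.br (.br .nil .nil .nil (.br .nil .nil .nil .nil (.ov
  [(false, (f (d (a (b (f (a (d (f e)))))))))]) .nil) .nil .nil) .nil .nil .nil .nil .nil) .nil .nil
  .nil (.ov [(false, (g (f (a (d (f e))))))])) (.br (.br .nil .nil .nil .nil .nil (.ov [(false, (g
  (f (a (b (d (f e)))))))])) .nil .nil .nil .nil .nil) .nil .nil .nil .nil) .nil .nil) (.br (.br
  .nil .nil .nil (.br .nil (.br .nil .nil .nil .nil (.br .nil (.br .nil .nil .nil (.br (.br .nil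
  .nil .nil .nil .nil (.ov [(false, (g (a (d (b (f (b (d (g (a (g e)))))))))))])) .nil .nil .nil
  .nil .nil) .nil .nil) .nil (.br (.br .nil .nil .nil .nil .nil (.ov [(false, (g (a (d (f (b (d (g
  (a (g e))))))))))])) .nil .nil .nil .nil .nil) .nil .nil) .nil) .nil .nil (.br .nil (.br .nil .nil
  .nil (.br (.br .nil .nil .nil .nil .nil (.ov [(false, (g (a (d (b (f (d (g (a (g e))))))))))]))
  .nil .nil .nil .nil .nil) .nil .nil) .nil (.br (.br .nil .nil .nil .nil .nil (.ov [(false, (g (a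
  (d (f (d (g (a (g e)))))))))])) .nil (.br (.br .nil .nil .nil .nil .nil (.ov [(false, (g (a (c (d
  (f (d (g (a (g e))))))))))])) .nil .nil .nil .nil .nil) .nil .nil .nil) .nil .nil) .nil) .nil
  .nil) (.br .nil .nil .nil (.br .nil .nil .nil .nil (.br .nil .nil (.br .nil (.br (.br .nil .nil
  .nil .nil .nil (.ov [(false, (g (a (b (f (d (b (g (a (g e))))))))))])) .nil .nil .nil .nil .nil)
  .nil .nil .nil .nil) .nil .nil .nil) .nil) (.br .nil .nil .nil (.br .nil .nil (.br .nil (.br (.br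
  .nil .nil .nil .nil .nil (.ov [(false, (g (a (b (d (f (b (g (a (g e))))))))))])) .nil .nil .nil
  .nil .nil) .nil .nil .nil .nil) .nil .nil .nil) .nil .nil) .nil) (.br (.br .nil .nil .nil (.br
  .nil .nil .nil .nil (.br .nil .nil .nil (.br .nil (.br (.br .nil .nil .nil .nil .nil (.ov [(true,
  (g (a (b (d (f (d (b (g (a (g e)))))))))))])) .nil .nil .nil .nil .nil) .nil .nil .nil .nil) .nil
  .nil) .nil) .nil .nil) (.br (.br .nil .nil .nil .nil .nil (.ov [(false, (g (a (c (g (a (g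
  e)))))))])) .nil .nil .nil .nil .nil) .nil .nil .nil .nil) .nil .nil .nil))

def Rb : R := (.br (.br .nil (.hit [t true 1 (a (b (a e)))]) .nil (.br .nil .nil .nil .nil (.br .nil
  .nil .nil (.br .nil .nil (.br (.br .nil .nil .nil .nil .nil (.hit [t false 1 (b (d (f (d (g (a (b
  (c e)))))))), t false 1 (b (g (a (b (c (d (f (d e)))))))), t true 1 (b (g (a (c (d (f (d (a
  e)))))))), t true 1 (b (g (a (d (f (d (a (b e)))))))), t true 1 (d (b (g (a (b (c (f (d e)))))))),
  t false 1 (d (f (b (g (a (b (c (d e)))))))), t true 1 (d (f (d (b (g (a (b (c e)))))))), t false 1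
  (f (b (g (a (b (c (d (f e)))))))), t true 1 (f (d (b (g (a (b (c (f e)))))))), t false 1 (g (a (b
  (d (f (d (a (c e))))))))])) .nil .nil .nil .nil .nil) .nil .nil .nil) .nil .nil) .nil) (.br .nil
  (.br .nil .nil .nil (.br .nil (.br .nil .nil .nil .nil (.hit [t true 1 (b (d (f (a (b (a (f
  e))))))), t false 1 (d (f (b (d (a (b (f e))))))), t true 1 (f (b (d (a (b (f (a e)))))))]) .nil)
  .nil .nil .nil .nil) .nil .nil) .nil .nil .nil .nil) (.br .nil .nil .nil (.br .nil .nil (.br .nil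
  (.br (.br .nil .nil .nil .nil .nil (.hit [t true 1 (a (g (a (b (c (d (g (a e)))))))), t false 1 (g
  (a (b (c (d (b (g (c e))))))))])) .nil .nil .nil .nil .nil) .nil .nil .nil .nil) .nil (.br .nil
  .nil (.br .nil (.br (.br .nil .nil .nil .nil .nil (.hit [t true 1 (a (g (a (b (c (f (d (g (a
  e))))))))), t false 1 (g (a (b (c (f (d (b (g (c e)))))))))])) .nil .nil .nil .nil .nil) .nil .nil
  .nil .nil) (.br .nil .nil (.br .nil (.br (.br .nil .nil .nil .nil .nil (.hit [t true 1 (a (g (a (b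
  (c (d (f (d (g (a e)))))))))), t false 1 (g (a (b (c (d (f (d (b (g (c e))))))))))])) .nil .nil
  .nil .nil .nil) .nil .nil .nil .nil) .nil .nil .nil) .nil .nil) .nil) (.br (.br .nil .nil .nil
  (.br (.br .nil .nil .nil .nil (.br (.br .nil .nil .nil (.br .nil .nil (.br (.br .nil .nil .nil
  .nil .nil (.hit [t false 1 (a (c (d (b (f (b (d (g (a (b (c (f (g e))))))))))))), t false 1 (a (c
  (d (b (f (d (g (a (b (c (d (f (g e))))))))))))), t false 1 (a (c (d (b (f (g (a (b (c (d (b (f (g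
  e))))))))))))), t true 1 (a (c (d (f (d (b (g (a (d (f (d (a (g e))))))))))))), t false 1 (a (c (f
  (b (d (b (f (g (a (b (c (d (g e))))))))))))), t true 1 (a (d (a (c (f (b (d (g (a (b (c (f (g
  e))))))))))))), t true 1 (a (d (a (c (f (d (g (a (b (c (d (f (g e))))))))))))), t true 1 (a (d (a
  (c (f (g (a (b (c (d (b (f (g e))))))))))))), t true 1 (a (d (f (b (d (g (a (b (c (f (d (g (a
  e))))))))))))), t false 1 (a (d (f (d (a (c (g (a (d (f (d (a (g e))))))))))))), t true 1 (a (d (f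
  (d (g (a (b (c (d (f (d (g (a e))))))))))))), t true 1 (a (d (f (g (a (b (c (d (b (f (d (g (a
  e))))))))))))), t true 1 (a (f (a (d (a (c (f (g (a (b (c (d (g e))))))))))))), t false 1 (a (f (b
  (d (g (a (b (c (f (b (d (g (a e))))))))))))), t false 1 (a (f (d (g (a (b (c (d (f (b (d (g (a
  e))))))))))))), t false 1 (a (f (g (a (b (c (d (b (f (b (d (g (a e))))))))))))), t true 1 (a (g (a
  (c (d (a (f (a (d (a (f (g (a e))))))))))))), t false 1 (b (a (d (b (f (b (d (g (a (b (c (f (g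
  e))))))))))))), t false 1 (b (a (d (b (f (d (g (a (b (c (d (f (g e))))))))))))), t false 1 (b (a
  (d (b (f (g (a (b (c (d (b (f (g e))))))))))))), t true 1 (b (a (d (f (b (d (g (a (b (c (f (d (g
  e))))))))))))), t true 1 (b (a (d (f (d (b (g (a (d (f (d (a (g e))))))))))))), t true 1 (b (a (d
  (f (d (g (a (b (c (d (f (d (g e))))))))))))), t true 1 (b (a (d (f (g (a (b (c (d (b (f (d (g
  e))))))))))))), t false 1 (b (a (f (b (d (b (f (g (a (b (c (d (g e))))))))))))), t false 1 (b (a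
  (f (b (d (g (a (b (c (f (b (d (g e))))))))))))), t false 1 (b (a (f (d (g (a (b (c (d (f (b (d (g
  e))))))))))))), t false 1 (b (a (f (g (a (b (c (d (b (f (b (d (g e))))))))))))), t true 1 (b (a (g
  (a (c (d (a (f (a (d (a (f (g e))))))))))))), t true 1 (b (d (b (f (b (d (a (g (a (b (c (f (g
  e))))))))))))), t true 1 (b (d (b (f (d (a (g (a (b (c (d (f (g e))))))))))))), t true 1 (b (d (b
  (f (g (a (b (c (d (b (f (g (c e))))))))))))), t false 1 (b (d (f (b (d (a (g (a (b (c (f (d (g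
  e))))))))))))), t false 1 (b (d (f (d (a (g (a (b (c (d (f (d (g e))))))))))))), t false 1 (b (d
  (f (d (b (g (a (d (f (d (a (g (c e))))))))))))), t false 1 (b (d (f (g (a (b (c (d (b (f (d (g (c
  e))))))))))))), t true 1 (b (d (g (a (b (c (f (b (d (b (f (g (c e))))))))))))), t false 1 (b (d (g
  (a (b (c (f (b (d (g (a (b (f e))))))))))))), t true 1 (b (f (b (d (b (f (a (g (a (b (c (d (g
  e))))))))))))), t true 1 (b (f (b (d (g (a (b (c (f (b (d (g (c e))))))))))))), t true 1 (b (f (d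
  (g (a (b (c (d (f (b (d (g (c e))))))))))))), t true 1 (b (f (g (a (b (c (d (b (f (b (d (g (c
  e))))))))))))), t false 1 (b (g (a (c (d (a (f (a (d (a (f (g (c e))))))))))))), t false 1 (c (d
  (b (f (b (d (b (f (g (a (b (c (g e))))))))))))), t false 1 (c (d (b (f (b (d (g (a (b (c (f (b (g
  e))))))))))))), t false 1 (c (d (b (f (d (g (a (b (c (d (f (b (g e))))))))))))), t false 1 (c (d
  (b (f (g (a (b (c (d (b (f (b (g e))))))))))))), t true 1 (c (d (b (g (a (c (d (f (a (d (a (f (g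
  e))))))))))))), t false 1 (c (d (f (b (g (a (c (d (a (f (d (a (g e))))))))))))), t false 1 (c (d
  (f (d (b (g (a (c (d (f (d (a (g e))))))))))))), t false 1 (c (f (b (d (b (f (g (a (b (c (d (b (g
  e))))))))))))), t true 1 (c (f (b (g (a (c (d (a (f (a (d (a (g e))))))))))))), t true 1 (c (f (d
  (b (g (a (c (d (f (a (d (a (g e))))))))))))), t true 1 (d (a (c (f (b (d (g (a (b (c (f (b (g
  e))))))))))))), t true 1 (d (a (c (f (d (g (a (b (c (d (f (b (g e))))))))))))), t true 1 (d (a (c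
  (f (g (a (b (c (d (b (f (b (g e))))))))))))), t false 1 (d (a (c (g (a (c (d (f (a (d (a (f (g
  e))))))))))))), t true 1 (d (b (f (b (d (b (f (a (g (a (b (c (g e))))))))))))), t true 1 (d (b (f
  (b (d (g (a (b (c (f (b (g (c e))))))))))))), t true 1 (d (b (f (d (g (a (b (c (d (f (b (g (c
  e))))))))))))), t true 1 (d (b (f (g (a (b (c (d (b (f (b (g (c e))))))))))))), t false 1 (d (b (g
  (a (c (d (f (a (d (a (f (g (c e))))))))))))), t true 1 (d (f (a (c (g (a (c (d (a (f (d (a (g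
  e))))))))))))), t false 1 (d (f (b (d (a (g (a (b (c (f (d (g (a e))))))))))))), t true 1 (d (f (b
  (g (a (c (d (a (f (d (a (g (c e))))))))))))), t true 1 (d (f (d (a (c (g (a (c (d (f (d (a (g
  e))))))))))))), t false 1 (d (f (d (a (g (a (b (c (d (f (d (g (a e))))))))))))), t true 1 (d (f (d
  (b (g (a (c (d (f (d (a (g (c e))))))))))))), t false 1 (d (f (g (a (b (c (d (b (f (d (b (g (c
  e))))))))))))), t true 1 (d (f (g (a (b (c (d (b (f (d (g (a (b e))))))))))))), t true 1 (d (g (a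
  (b (c (d (f (b (d (b (f (g (c e))))))))))))), t false 1 (d (g (a (b (c (d (f (b (d (g (a (b (f
  e))))))))))))), t false 1 (f (a (c (g (a (c (d (a (f (a (d (a (g e))))))))))))), t true 1 (f (a (d
  (a (c (f (b (d (g (a (b (c (g e))))))))))))), t true 1 (f (a (d (a (c (f (g (a (b (c (d (b (g
  e))))))))))))), t true 1 (f (b (d (b (f (g (a (b (c (d (b (g (c e))))))))))))), t true 1 (f (b (d
  (g (a (b (c (f (b (d (b (g (c e))))))))))))), t false 1 (f (b (d (g (a (b (c (f (b (d (g (a (b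
  e))))))))))))), t false 1 (f (b (g (a (c (d (a (f (a (d (a (g (c e))))))))))))), t false 1 (f (d
  (a (c (g (a (c (d (f (a (d (a (g e))))))))))))), t false 1 (f (d (b (g (a (c (d (f (a (d (a (g (c
  e))))))))))))), t true 1 (f (d (g (a (b (c (d (f (b (d (b (g (c e))))))))))))), t false 1 (f (d (g
  (a (b (c (d (f (b (d (g (a (b e))))))))))))), t true 1 (f (g (a (b (c (d (b (f (b (d (b (g (c
  e))))))))))))), t false 1 (f (g (a (b (c (d (b (f (b (d (g (a (b e))))))))))))), t true 1 (g (a (b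
  (c (d (b (f (b (d (b (f (g (c e))))))))))))), t false 1 (g (a (b (c (d (b (f (b (d (g (a (b (f
  e))))))))))))), t false 1 (g (a (c (d (a (f (a (d (a (f (b (g (c e)))))))))))))])) .nil .nil .nil
  .nil .nil) .nil .nil .nil) .nil .nil) .nil .nil .nil .nil .nil) .nil) .nil .nil .nil .nil .nil)
  .nil .nil) .nil (.br .nil (.br (.br .nil .nil .nil .nil .nil (.hit [t true 1 (a (g (a (b (c (f (g
  (a e)))))))), t false 1 (g (a (b (c (f (b (g (c e))))))))])) .nil .nil .nil .nil .nil) .nil .nil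
  .nil .nil) (.br .nil .nil (.br .nil (.br (.br .nil .nil .nil .nil .nil (.hit [t true 1 (a (g (a (b
  (c (d (f (g (a e))))))))), t false 1 (g (a (b (c (d (f (b (g (c e)))))))))])) .nil .nil .nil .nil
  .nil) .nil .nil .nil .nil) .nil .nil .nil) .nil .nil) .nil)) (.hit []) (.hit [t false 1 (a (c e)),
  t false 1 (b (a e))]) (.br .nil .nil (.br (.br .nil .nil .nil .nil .nil (.hit [t true 1 (b (g (a
  (d (b e))))), t true 1 (d (b (g (a (d e))))), t true 1 (d (g (a (c (d e)))))])) .nil .nil .nil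
  .nil .nil) .nil .nil .nil) (.br .nil (.br (.br .nil .nil .nil (.br .nil (.br .nil .nil .nil .nil
  (.hit [t false 1 (a (f (b (d (a (b (f e))))))), t false 1 (d (a (f (b (d (b (f e)))))))]) .nil)
  .nil .nil .nil .nil) .nil (.br .nil .nil .nil (.br .nil (.br .nil .nil .nil .nil (.br .nil .nil
  (.br .nil (.br (.br .nil .nil .nil .nil .nil (.hit [t false 1 (c (g (a (b (c (f (b (d (g (a (b (f
  e)))))))))))), t false 1 (g (a (b (c (d (g (a (f (b (d (b (f e))))))))))))])) .nil .nil .nil .nil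
  .nil) .nil .nil .nil .nil) .nil .nil .nil) .nil) .nil .nil .nil .nil) .nil .nil)) .nil .nil (.br
  .nil (.br .nil .nil .nil .nil (.hit [t false 1 (d (f (b (d (b (f e))))))]) .nil) (.br (.br .nil
  .nil .nil .nil (.hit [t false 1 (a (d (f (a (b (a (f e))))))), t false 1 (d (f (a (c (d (b (f
  e)))))))]) .nil) .nil .nil .nil .nil .nil) .nil .nil .nil) .nil .nil) (.br .nil (.br (.br .nil
  .nil .nil .nil .nil (.br .nil .nil .nil (.br .nil (.br .nil .nil .nil .nil (.br .nil .nil (.br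
  .nil (.br (.br .nil .nil .nil .nil .nil (.hit [t true 1 (a (b (c (d (f (g (a (b (c (d (b (f (g
  e))))))))))))), t false 1 (a (b (c (f (g (a (b (c (d (b (f (b (g e))))))))))))), t true 1 (a (c (d
  (f (a (g (a (b (c (d (g (a (f e))))))))))))), t false 1 (a (c (d (f (g (a (b (c (d (b (f (g (c
  e))))))))))))), t true 1 (a (c (f (a (g (a (b (c (d (f (g (a (f e))))))))))))), t true 1 (a (c (f
  (g (a (b (c (d (b (f (b (g (c e))))))))))))), t false 1 (c (g (a (b (c (d (f (b (d (g (a (b (f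
  e))))))))))))), t true 1 (c (g (a (b (c (f (b (d (b (f (g (a (b e))))))))))))), t false 1 (g (a (b
  (c (d (f (b (d (g (a (b (c (f e))))))))))))), t false 1 (g (a (b (c (d (g (a (f (b (d (b (f (a
  e))))))))))))), t true 1 (g (a (b (c (f (b (d (b (f (g (a (b (c e)))))))))))))])) .nil .nil .nil
  .nil .nil) .nil .nil .nil .nil) .nil .nil .nil) .nil) .nil .nil .nil .nil) .nil .nil)) .nil .nil
  .nil .nil .nil) .nil .nil .nil .nil) (.br (.br .nil (.br (.br .nil .nil .nil (.br .nil .nil .nil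
  .nil (.hit [t false 1 (a (f (d (a (b (a (d (f e)))))))), t true 1 (d (a (c (f (b (d (b (f
  e)))))))), t false 1 (f (a (d (a (c (f (b (d e))))))))]) .nil) .nil .nil) .nil .nil .nil .nil
  .nil) .nil .nil .nil .nil) .nil (.br (.br .nil .nil .nil .nil .nil (.hit [t true 1 (b (g (a (d (f
  (b e)))))), t true 1 (d (f (b (g (a (d e)))))), t true 1 (d (f (g (a (c (d e)))))), t true 1 (f (b
  (g (a (d (f e)))))), t true 1 (f (g (a (c (d (f e))))))])) .nil .nil .nil .nil .nil) .nil .nil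
  .nil) .nil .nil) (.hit [t false 1 (b (g e))]))

def Cb : C := (.br (.br .nil (.ov [(true, (c (a (a e))))]) .nil (.br .nil .nil .nil .nil (.br .nil
  .nil .nil (.br .nil .nil (.br (.br .nil .nil .nil .nil .nil (.ov [(false, (g (a (d (f (d (a (c (c
  e)))))))))])) .nil .nil .nil .nil .nil) .nil .nil .nil) .nil .nil) .nil) (.br .nil (.br .nil .nil
  .nil (.br .nil (.br .nil .nil .nil .nil (.ov [(false, (f (b (d (f (a (b (f e))))))))]) .nil) .nil
  .nil .nil .nil) .nil .nil) .nil .nil .nil .nil) (.br .nil .nil .nil (.br .nil .nil (.br .nil (.br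
  (.br .nil .nil .nil .nil .nil (.ov [(false, (g (a (b (c (d (g (c (a e)))))))))])) .nil .nil .nil
  .nil .nil) .nil .nil .nil .nil) .nil (.br .nil .nil (.br .nil (.br (.br .nil .nil .nil .nil .nil
  (.ov [(false, (g (a (b (c (f (d (g (c (a e))))))))))])) .nil .nil .nil .nil .nil) .nil .nil .nil
  .nil) (.br .nil .nil (.br .nil (.br (.br .nil .nil .nil .nil .nil (.ov [(false, (g (a (b (c (d (f
  (d (g (c (a e)))))))))))])) .nil .nil .nil .nil .nil) .nil .nil .nil .nil) .nil .nil .nil) .nil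
  .nil) .nil) (.br (.br .nil .nil .nil (.br (.br .nil .nil .nil .nil (.br (.br .nil .nil .nil (.br
  .nil .nil (.br (.br .nil .nil .nil .nil .nil (.ov [(true, (g (a (d (b (f (b (d (a (g (a (b (f (a
  e)))))))))))))), (false, (g (a (d (b (f (b (d (a (b (f (g (c (a e))))))))))))))])) .nil .nil .nil
  .nil .nil) .nil .nil .nil) .nil .nil) .nil .nil .nil .nil .nil) .nil) .nil .nil .nil .nil .nil)
  .nil .nil) .nil (.br .nil (.br (.br .nil .nil .nil .nil .nil (.ov [(false, (g (a (b (c (f (g (c (a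
  e)))))))))])) .nil .nil .nil .nil .nil) .nil .nil .nil .nil) (.br .nil .nil (.br .nil (.br (.br
  .nil .nil .nil .nil .nil (.ov [(false, (g (a (b (c (d (f (g (c (a e))))))))))])) .nil .nil .nil
  .nil .nil) .nil .nil .nil .nil) .nil .nil .nil) .nil .nil) .nil)) (.ba b_bb) (.ba b_cb) (.br .nil
  .nil (.br (.br .nil .nil .nil .nil .nil (.ov [(false, (g (c (d (b (d e))))))])) .nil .nil .nil
  .nil .nil) .nil .nil .nil) (.br .nil (.br (.br .nil .nil .nil (.br .nil (.br .nil .nil .nil .nil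
  (.ov [(false, (f (b (d (a (f (b (f e))))))))]) .nil) .nil .nil .nil .nil) .nil (.br .nil .nil .nil
  (.br .nil (.br .nil .nil .nil .nil (.br .nil .nil (.br .nil (.br (.br .nil .nil .nil .nil .nil
  (.ov [(false, (g (a (b (c (f (b (d (g (a (f (b (f e)))))))))))))])) .nil .nil .nil .nil .nil) .nil
  .nil .nil .nil) .nil .nil .nil) .nil) .nil .nil .nil .nil) .nil .nil)) .nil .nil (.br .nil (.br
  .nil .nil .nil .nil (.ov [(false, (f (b (d (f (b (f e)))))))]) .nil) (.br (.br .nil .nil .nil .nil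
  (.ov [(false, (f (a (c (d (f (b (f e))))))))]) .nil) .nil .nil .nil .nil .nil) .nil .nil .nil)
  .nil .nil) (.br .nil (.br (.br .nil .nil .nil .nil .nil (.br .nil .nil .nil (.br .nil (.br .nil
  .nil .nil .nil (.br .nil .nil (.br .nil (.br (.br .nil .nil .nil .nil .nil (.ov [(true, (g (a (b
  (c (f (b (d (g (a (b (f (b (a e))))))))))))))])) .nil .nil .nil .nil .nil) .nil .nil .nil .nil)
  .nil .nil .nil) .nil) .nil .nil .nil .nil) .nil .nil)) .nil .nil .nil .nil .nil) .nil .nil .nil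
  .nil) (.br (.br .nil (.br (.br .nil .nil .nil (.br .nil .nil .nil .nil (.ov [(false, (f (d (a (c
  (f (b (d (f e)))))))))]) .nil) .nil .nil) .nil .nil .nil .nil .nil) .nil .nil .nil .nil) .nil (.br
  (.br .nil .nil .nil .nil .nil (.ov [(false, (g (c (f (b (d (f e)))))))])) .nil .nil .nil .nil
  .nil) .nil .nil .nil) .nil .nil) (.ba b_gb))

def Rc : R := (.br (.br .nil (.br (.br .nil .nil .nil (.hit [t true 1 (c (d (a (b (a e)))))]) (.hit
  [t true 1 (c (f (a (b (a e)))))]) .nil) .nil .nil .nil .nil .nil) .nil (.br .nil .nil .nil .nil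
  (.br .nil .nil .nil (.br (.br .nil .nil .nil .nil .nil (.hit [t true 1 (b (d (f (d (g (a (b
  e))))))), t true 1 (b (g (a (b (d (f (d e))))))), t false 1 (b (g (a (d (f (d (b e))))))), t false
  1 (d (b (g (a (b (f (d e))))))), t true 1 (d (f (b (g (a (b (d e))))))), t false 1 (d (f (d (b (g
  (a (b e))))))), t true 1 (f (b (g (a (b (d (f e))))))), t false 1 (f (d (b (g (a (b (f e))))))), t
  true 1 (g (a (b (d (f (d (a e))))))), t false 1 (g (a (c (d (f (d (b e)))))))])) .nil .nil .nil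
  .nil .nil) .nil .nil) .nil) (.br .nil (.br (.br .nil .nil .nil (.br .nil (.br .nil .nil .nil .nil
  (.hit [t true 1 (a (f (b (d (a (b (f (a e)))))))), t true 1 (c (f (a (d (a (c (f (b e)))))))), t
  true 1 (d (a (f (b (d (b (f (a e)))))))), t true 1 (f (a (b (d (a (c (f (b e))))))))]) .nil) .nil
  .nil .nil .nil) .nil .nil) .nil .nil .nil .nil .nil) .nil .nil .nil .nil) (.br .nil .nil .nil (.br
  .nil .nil (.br .nil (.br (.br .nil .nil .nil .nil .nil (.hit [t true 1 (a (b (d (g (a (b (c (g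
  e)))))))), t true 1 (a (d (g (a (b (c (d (g e)))))))), t false 1 (b (c (d (g (a (b (c (g
  e)))))))), t false 1 (d (g (a (b (c (d (g (a e))))))))])) .nil .nil .nil .nil .nil) .nil .nil .nil
  .nil) .nil (.br .nil .nil (.br .nil (.br (.br .nil .nil .nil .nil .nil (.hit [t true 1 (a (b (f (d
  (g (a (b (c (g e))))))))), t true 1 (a (d (g (a (b (c (f (d (g e))))))))), t true 1 (a (f (d (g (a
  (b (c (f (g e))))))))), t false 1 (b (c (f (d (g (a (b (c (g e))))))))), t false 1 (d (g (a (b (c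
  (f (d (g (a e))))))))), t false 1 (f (d (g (a (b (c (f (g (a e)))))))))])) .nil .nil .nil .nil
  .nil) .nil .nil .nil .nil) (.br .nil .nil (.br .nil (.br (.br .nil .nil .nil .nil .nil (.hit [t
  false 1 (a (g (a (b (c (d (f (d (b (g e)))))))))), t true 1 (g (a (b (c (d (f (d (b (g (a
  e))))))))))])) .nil .nil .nil .nil .nil) .nil .nil .nil .nil) .nil .nil .nil) .nil .nil) .nil)
  (.br .nil (.br (.br .nil .nil .nil (.br .nil (.br .nil .nil .nil .nil (.br .nil (.br .nil .nil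
  .nil (.br (.br .nil .nil .nil .nil .nil (.hit [t true 1 (a (b (d (g (a (b (c (f (b (d (b (f (g
  e))))))))))))), t true 1 (a (b (g (a (d (b (f (b (d (a (b (f (g e))))))))))))), t true 1 (a (d (b
  (g (a (d (f (b (d (a (b (f (g e))))))))))))), t false 1 (a (d (f (b (d (g (a (b (c (f (d (b (g
  e))))))))))))), t false 1 (a (d (f (b (g (a (d (b (f (d (a (b (g e))))))))))))), t false 1 (a (d
  (f (d (b (g (a (d (f (d (a (b (g e))))))))))))), t false 1 (a (d (f (d (g (a (b (c (d (f (d (b (g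
  e))))))))))))), t false 1 (a (d (f (g (a (b (c (d (b (f (d (b (g e))))))))))))), t true 1 (a (d (g
  (a (b (c (d (f (b (d (b (f (g e))))))))))))), t true 1 (a (f (b (d (g (a (b (c (f (b (d (b (g
  e))))))))))))), t true 1 (a (f (b (g (a (d (b (f (b (d (a (b (g e))))))))))))), t true 1 (a (f (d
  (b (g (a (d (f (b (d (a (b (g e))))))))))))), t true 1 (a (f (d (g (a (b (c (d (f (b (d (b (g
  e))))))))))))), t true 1 (a (f (g (a (b (c (d (b (f (b (d (b (g e))))))))))))), t true 1 (a (g (a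
  (b (c (d (b (f (b (d (b (f (g e))))))))))))), t false 1 (a (g (a (c (d (a (f (a (d (a (f (b (g
  e))))))))))))), t false 1 (b (d (g (a (b (c (f (b (d (b (f (g (a e))))))))))))), t false 1 (b (g
  (a (d (b (f (b (d (a (b (f (g (a e))))))))))))), t true 1 (c (d (f (b (g (a (d (b (f (d (a (g (c
  e))))))))))))), t true 1 (c (d (f (d (b (g (a (d (f (d (a (g (c e))))))))))))), t false 1 (c (f (b
  (g (a (d (b (f (b (d (a (g (c e))))))))))))), t false 1 (c (f (d (b (g (a (d (f (b (d (a (g (c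
  e))))))))))))), t false 1 (d (b (g (a (d (f (b (d (a (b (f (g (a e))))))))))))), t false 1 (d (f
  (a (c (g (a (d (b (f (d (a (g (c e))))))))))))), t true 1 (d (f (b (d (a (g (a (b (c (f (d (b (g
  e))))))))))))), t true 1 (d (f (b (g (a (d (b (f (d (a (b (g (a e))))))))))))), t false 1 (d (f (d
  (a (c (g (a (d (f (d (a (g (c e))))))))))))), t true 1 (d (f (d (a (g (a (b (c (d (f (d (b (g
  e))))))))))))), t true 1 (d (f (d (b (g (a (d (f (d (a (b (g (a e))))))))))))), t true 1 (d (f (g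
  (a (b (c (d (b (f (d (b (g (a e))))))))))))), t true 1 (d (f (g (a (b (c (d (b (f (d (g (a (c
  e))))))))))))), t false 1 (d (g (a (b (c (d (f (b (d (b (f (g (a e))))))))))))), t true 1 (f (a (c
  (g (a (d (b (f (b (d (a (g (c e))))))))))))), t false 1 (f (b (d (g (a (b (c (f (b (d (b (g (a
  e))))))))))))), t false 1 (f (b (d (g (a (b (c (f (b (d (g (a (c e))))))))))))), t false 1 (f (b
  (g (a (d (b (f (b (d (a (b (g (a e))))))))))))), t true 1 (f (d (a (c (g (a (d (f (b (d (a (g (c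
  e))))))))))))), t false 1 (f (d (b (g (a (d (f (b (d (a (b (g (a e))))))))))))), t false 1 (f (d
  (g (a (b (c (d (f (b (d (b (g (a e))))))))))))), t false 1 (f (d (g (a (b (c (d (f (b (d (g (a (c
  e))))))))))))), t false 1 (f (g (a (b (c (d (b (f (b (d (b (g (a e))))))))))))), t false 1 (f (g
  (a (b (c (d (b (f (b (d (g (a (c e))))))))))))), t false 1 (g (a (b (c (d (b (f (b (d (b (f (g (a
  e))))))))))))), t true 1 (g (a (c (d (a (f (a (d (a (f (b (g (a e))))))))))))), t true 1 (g (a (c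
  (d (a (f (a (d (a (f (g (a (c e)))))))))))))])) .nil .nil .nil .nil .nil) .nil .nil) .nil .nil
  .nil .nil) .nil) .nil .nil .nil .nil) .nil .nil) .nil .nil .nil .nil .nil) (.br .nil (.br (.br
  .nil .nil .nil .nil .nil (.hit [t true 1 (a (b (f (g (a (b (c (g e)))))))), t true 1 (a (f (g (a
  (b (c (f (g e)))))))), t false 1 (b (c (f (g (a (b (c (g e)))))))), t false 1 (f (g (a (b (c (f (g
  (a e))))))))])) .nil .nil .nil .nil .nil) .nil .nil .nil .nil) (.br .nil .nil (.br .nil (.br (.br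
  .nil .nil .nil .nil .nil (.hit [t true 1 (a (b (d (f (g (a (b (c (g e))))))))), t true 1 (a (d (f
  (g (a (b (c (d (g e))))))))), t true 1 (a (f (g (a (b (c (d (f (g e))))))))), t false 1 (b (c (d
  (f (g (a (b (c (g e))))))))), t false 1 (d (f (g (a (b (c (d (g (a e))))))))), t false 1 (f (g (a
  (b (c (d (f (g (a e)))))))))])) .nil .nil .nil .nil .nil) .nil .nil .nil .nil) .nil .nil .nil)
  .nil .nil) .nil)) (.br (.br .nil .nil .nil (.hit [t true 1 (c (d (a (c e))))]) (.hit [t true 1 (c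
  (f (a (c e))))]) .nil) .nil .nil (.hit [t false 1 (c (d (a e))), t false 1 (d (a (b e)))]) (.hit
  [t false 1 (c (f (a e))), t false 1 (f (a (b e)))]) .nil) (.hit []) (.hit [t false 1 (c (d e))])
  (.hit [t false 1 (c (f e))]) (.br .nil (.br (.br .nil .nil .nil (.br .nil (.br .nil .nil .nil .nil
  (.br .nil (.br .nil .nil .nil (.br (.br .nil .nil .nil .nil .nil (.hit [t false 1 (a (d (f (g (a
  (d (b (f (d (a (g e))))))))))), t true 1 (a (f (g (a (d (b (f (b (d (a (g e))))))))))), t false 1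
  (a (g (a (c (d (a (f (a (d (a (g e))))))))))), t false 1 (a (g (a (d (b (f (b (d (a (b (g
  e))))))))))), t true 1 (d (f (g (a (d (b (f (d (a (g (c e))))))))))), t false 1 (f (g (a (d (b (f
  (b (d (a (g (c e))))))))))), t true 1 (g (a (c (d (a (f (a (d (a (g (c e)))))))))))])) .nil .nil
  .nil .nil .nil) .nil .nil) .nil (.br (.br .nil .nil .nil .nil .nil (.hit [t false 1 (a (d (f (b (d
  (g (a (b (c (g e)))))))))), t false 1 (a (d (f (d (g (a (b (c (d (g e)))))))))), t false 1 (a (d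
  (f (g (a (b (c (d (b (g e)))))))))), t true 1 (a (f (g (a (d (f (b (d (a (g e)))))))))), t false 1
  (a (g (a (c (d (f (a (d (a (g e)))))))))), t false 1 (a (g (a (d (f (b (d (a (b (g e)))))))))), t
  true 1 (d (f (b (d (a (g (a (b (c (g e)))))))))), t true 1 (d (f (d (a (g (a (b (c (d (g
  e)))))))))), t true 1 (d (f (g (a (b (c (d (b (g (c e)))))))))), t false 1 (f (g (a (d (f (b (d (a
  (g (c e)))))))))), t true 1 (g (a (c (d (f (a (d (a (g (c e))))))))))])) .nil .nil .nil .nil .nil)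
  .nil .nil) .nil) .nil .nil (.br .nil (.br .nil .nil .nil (.br (.br .nil .nil .nil .nil .nil (.hit
  [t true 1 (a (d (g (a (d (b (f (d (a (g e)))))))))), t false 1 (a (g (a (c (d (a (f (d (a (g
  e)))))))))), t false 1 (a (g (a (d (b (f (d (a (b (g e)))))))))), t false 1 (d (g (a (d (b (f (d
  (a (g (c e)))))))))), t true 1 (g (a (c (d (a (f (d (a (g (c e))))))))))])) .nil .nil .nil .nil
  .nil) .nil .nil) .nil (.br (.br .nil .nil .nil .nil .nil (.hit [t false 1 (a (g (a (c (d (f (d (a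
  (g e))))))))), t false 1 (a (g (a (d (f (d (a (b (g e))))))))), t true 1 (g (a (c (d (f (d (a (g
  (c e)))))))))])) .nil .nil .nil .nil .nil) .nil .nil) .nil) .nil .nil) .nil .nil .nil .nil .nil)
  (.br (.br .nil .nil .nil (.br .nil .nil .nil .nil (.br .nil .nil .nil (.br .nil (.br (.br .nil
  .nil .nil .nil .nil (.hit [t false 1 (a (c (d (f (d (g (a (b (c (g e)))))))))), t false 1 (a (c (g
  (a (b (c (d (f (d (g e)))))))))), t false 1 (b (a (d (f (d (g (a (b (c (g e)))))))))), t true 1 (b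
  (d (f (d (a (g (a (b (c (g e)))))))))), t false 1 (c (g (a (b (d (f (d (a (c (g e)))))))))), t
  true 1 (d (a (c (g (a (b (c (f (d (g e)))))))))), t false 1 (d (f (a (c (g (a (b (c (d (g
  e)))))))))), t true 1 (d (f (d (a (c (g (a (b (c (g e)))))))))), t false 1 (f (a (c (g (a (b (c (d
  (f (g e)))))))))), t true 1 (f (d (a (c (g (a (b (c (f (g e))))))))))])) .nil .nil .nil .nil .nil)
  .nil .nil .nil .nil) .nil .nil) .nil) .nil .nil) (.br (.br .nil .nil .nil .nil .nil (.hit [t false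
  1 (a (g (a (b (c (g e))))))])) .nil .nil .nil .nil .nil) .nil .nil .nil .nil) (.br .nil .nil (.br
  .nil (.br (.br .nil .nil .nil .nil .nil (.hit [t false 1 (a (g (a (b (c (d (g e)))))))])) .nil
  .nil .nil .nil .nil) .nil .nil .nil .nil) .nil (.br .nil .nil (.br .nil (.br (.br .nil .nil .nil
  .nil .nil (.hit [t false 1 (a (g (a (b (c (f (d (g e))))))))])) .nil .nil .nil .nil .nil) .nil
  .nil .nil .nil) (.br .nil .nil (.br .nil (.br (.br .nil .nil .nil .nil .nil (.hit [t false 1 (a (g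
  (a (b (c (d (f (d (g e)))))))))])) .nil .nil .nil .nil .nil) .nil .nil .nil .nil) .nil .nil .nil)
  .nil .nil) .nil) (.br .nil (.br (.br .nil .nil .nil (.br .nil (.br .nil .nil .nil .nil (.br .nil
  (.br .nil .nil .nil (.br (.br .nil .nil .nil .nil .nil (.hit [t false 1 (a (d (f (b (d (g (a (b (c
  (f (d (g e)))))))))))), t false 1 (a (d (f (b (g (a (d (b (f (d (a (g e)))))))))))), t false 1 (a
  (d (f (d (b (g (a (d (f (d (a (g e)))))))))))), t false 1 (a (d (f (d (g (a (b (c (d (f (d (g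
  e)))))))))))), t false 1 (a (d (f (g (a (b (c (d (b (f (d (g e)))))))))))), t true 1 (a (f (b (d
  (g (a (b (c (f (b (d (g e)))))))))))), t true 1 (a (f (b (g (a (d (b (f (b (d (a (g e)))))))))))),
  t true 1 (a (f (d (b (g (a (d (f (b (d (a (g e)))))))))))), t true 1 (a (f (d (g (a (b (c (d (f (b
  (d (g e)))))))))))), t true 1 (a (f (g (a (b (c (d (b (f (b (d (g e)))))))))))), t false 1 (a (g
  (a (c (d (a (f (a (d (a (f (g e)))))))))))), t false 1 (a (g (a (d (b (f (b (d (a (b (f (g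
  e)))))))))))), t true 1 (d (f (b (d (a (g (a (b (c (f (d (g e)))))))))))), t true 1 (d (f (b (g (a
  (d (b (f (d (a (g (c e)))))))))))), t true 1 (d (f (d (a (g (a (b (c (d (f (d (g e)))))))))))), t
  true 1 (d (f (d (b (g (a (d (f (d (a (g (c e)))))))))))), t true 1 (d (f (g (a (b (c (d (b (f (d
  (g (c e)))))))))))), t false 1 (f (b (d (g (a (b (c (f (b (d (g (c e)))))))))))), t false 1 (f (b
  (g (a (d (b (f (b (d (a (g (c e)))))))))))), t false 1 (f (d (b (g (a (d (f (b (d (a (g (c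
  e)))))))))))), t false 1 (f (d (g (a (b (c (d (f (b (d (g (c e)))))))))))), t false 1 (f (g (a (b
  (c (d (b (f (b (d (g (c e)))))))))))), t true 1 (g (a (c (d (a (f (a (d (a (f (g (c
  e))))))))))))])) .nil .nil .nil .nil .nil) .nil .nil) .nil (.br (.br .nil .nil .nil .nil .nil
  (.hit [t false 1 (a (d (f (b (d (g (a (b (c (f (g e))))))))))), t false 1 (a (d (f (d (g (a (b (c
  (d (f (g e))))))))))), t false 1 (a (d (f (g (a (b (c (d (b (f (g e))))))))))), t true 1 (a (f (b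
  (d (g (a (b (c (f (b (g e))))))))))), t true 1 (a (f (d (g (a (b (c (d (f (b (g e))))))))))), t
  true 1 (a (f (d (g (a (d (f (b (d (a (g e))))))))))), t true 1 (a (f (g (a (b (c (d (b (f (b (g
  e))))))))))), t false 1 (a (g (a (c (d (f (a (d (a (f (g e))))))))))), t false 1 (a (g (a (d (f (b
  (d (a (b (f (g e))))))))))), t true 1 (d (f (b (d (a (g (a (b (c (f (g e))))))))))), t true 1 (d
  (f (d (a (g (a (b (c (d (f (g e))))))))))), t true 1 (d (f (g (a (b (c (d (b (f (g (c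
  e))))))))))), t false 1 (f (b (d (g (a (b (c (f (b (g (c e))))))))))), t false 1 (f (d (g (a (b (c
  (d (f (b (g (c e))))))))))), t false 1 (f (d (g (a (d (f (b (d (a (g (c e))))))))))), t false 1 (f
  (g (a (b (c (d (b (f (b (g (c e))))))))))), t true 1 (g (a (c (d (f (a (d (a (f (g (c
  e)))))))))))])) .nil .nil .nil .nil .nil) .nil .nil) .nil) .nil .nil .nil .nil) .nil .nil) .nil
  .nil .nil .nil .nil) (.br .nil (.br (.br .nil .nil .nil .nil .nil (.hit [t false 1 (a (g (a (b (c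
  (f (g e)))))))])) .nil .nil .nil .nil .nil) .nil .nil .nil .nil) (.br .nil .nil (.br .nil (.br
  (.br .nil .nil .nil .nil .nil (.hit [t false 1 (a (g (a (b (c (d (f (g e))))))))])) .nil .nil .nil
  .nil .nil) .nil .nil .nil .nil) .nil .nil .nil) .nil .nil) .nil))

def Cc : C := (.br (.br .nil (.br (.br .nil .nil .nil (.ov [(true, (d (a (b (c (b e))))))]) (.ov
  [(true, (f (a (b (c (b e))))))]) .nil) .nil .nil .nil .nil .nil) .nil (.br .nil .nil .nil .nil
  (.br .nil .nil .nil (.br (.br .nil .nil .nil .nil .nil (.ov [(false, (g (f (d (a (b (a (f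
  e))))))))])) .nil .nil .nil .nil .nil) .nil .nil) .nil) (.br .nil (.br (.br .nil .nil .nil (.br
  .nil (.br .nil .nil .nil .nil (.ov [(false, (f (b (d (a (b (f (b (a e)))))))))]) .nil) .nil .nil
  .nil .nil) .nil .nil) .nil .nil .nil .nil .nil) .nil .nil .nil .nil) (.br .nil .nil .nil (.br .nil
  .nil (.br .nil (.br (.br .nil .nil .nil .nil .nil (.ov [(false, (g (a (b (d (g (a (c (g
  e)))))))))])) .nil .nil .nil .nil .nil) .nil .nil .nil .nil) .nil (.br .nil .nil (.br .nil (.br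
  (.br .nil .nil .nil .nil .nil (.ov [(false, (g (a (b (f (d (g (a (c (g e))))))))))])) .nil .nil
  .nil .nil .nil) .nil .nil .nil .nil) (.br .nil .nil (.br .nil (.br (.br .nil .nil .nil .nil .nil
  (.ov [(true, (g (a (b (c (d (f (d (g (c (b e)))))))))))])) .nil .nil .nil .nil .nil) .nil .nil
  .nil .nil) .nil .nil .nil) .nil .nil) .nil) (.br .nil (.br (.br .nil .nil .nil (.br .nil (.br .nil
  .nil .nil .nil (.br .nil (.br .nil .nil .nil (.br (.br .nil .nil .nil .nil .nil (.ov [(true, (g (a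
  (d (b (f (b (d (a (b (f (g (c (b e))))))))))))))])) .nil .nil .nil .nil .nil) .nil .nil) .nil .nil
  .nil .nil) .nil) .nil .nil .nil .nil) .nil .nil) .nil .nil .nil .nil .nil) (.br .nil (.br (.br
  .nil .nil .nil .nil .nil (.ov [(false, (g (a (b (f (g (a (c (g e)))))))))])) .nil .nil .nil .nil
  .nil) .nil .nil .nil .nil) (.br .nil .nil (.br .nil (.br (.br .nil .nil .nil .nil .nil (.ov
  [(false, (g (a (b (d (f (g (a (c (g e))))))))))])) .nil .nil .nil .nil .nil) .nil .nil .nil .nil)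
  .nil .nil .nil) .nil .nil) .nil)) (.br (.br .nil .nil .nil (.ov [(false, (d (b (c (c e)))))]) (.ov
  [(false, (f (b (c (c e)))))]) .nil) .nil .nil (.ov [(true, (d (c (a e))))]) (.ov [(true, (f (c (a
  e))))]) .nil) (.ba b_cc) (.ba b_dc) (.ba b_fc) (.br .nil (.br (.br .nil .nil .nil (.br .nil (.br
  .nil .nil .nil .nil (.br .nil (.br .nil .nil .nil (.br (.br .nil .nil .nil .nil .nil (.ov [(false,
  (g (a (d (b (f (b (d (b (g (c (g e))))))))))))])) .nil .nil .nil .nil .nil) .nil .nil) .nil (.br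
  (.br .nil .nil .nil .nil .nil (.ov [(false, (g (a (d (f (b (d (b (g (c (g e)))))))))))])) .nil
  .nil .nil .nil .nil) .nil .nil) .nil) .nil .nil (.br .nil (.br .nil .nil .nil (.br (.br .nil .nil
  .nil .nil .nil (.ov [(false, (g (a (d (b (f (d (b (g (c (g e)))))))))))])) .nil .nil .nil .nil
  .nil) .nil .nil) .nil (.br (.br .nil .nil .nil .nil .nil (.ov [(false, (g (a (d (f (d (b (g (c (g
  e))))))))))])) .nil .nil .nil .nil .nil) .nil .nil) .nil) .nil .nil) .nil .nil .nil .nil .nil)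
  (.br (.br .nil .nil .nil (.br .nil .nil .nil .nil (.br .nil .nil .nil (.br .nil (.br (.br .nil
  .nil .nil .nil .nil (.ov [(false, (g (a (c (d (f (d (b (g (c (g e)))))))))))])) .nil .nil .nil
  .nil .nil) .nil .nil .nil .nil) .nil .nil) .nil) .nil .nil) (.br (.br .nil .nil .nil .nil .nil
  (.ov [(false, (g (a (b (g (c (g e)))))))])) .nil .nil .nil .nil .nil) .nil .nil .nil .nil) (.br
  .nil .nil (.br .nil (.br (.br .nil .nil .nil .nil .nil (.ov [(true, (g (a (b (c (g (c (d
  e))))))))])) .nil .nil .nil .nil .nil) .nil .nil .nil .nil) .nil (.br .nil .nil (.br .nil (.br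
  (.br .nil .nil .nil .nil .nil (.ov [(true, (g (a (b (c (f (g (c (d e)))))))))])) .nil .nil .nil
  .nil .nil) .nil .nil .nil .nil) (.br .nil .nil (.br .nil (.br (.br .nil .nil .nil .nil .nil (.ov
  [(true, (g (a (b (c (d (f (g (c (d e))))))))))])) .nil .nil .nil .nil .nil) .nil .nil .nil .nil)
  .nil .nil .nil) .nil .nil) .nil) (.br .nil (.br (.br .nil .nil .nil (.br .nil (.br .nil .nil .nil
  .nil (.br .nil (.br .nil .nil .nil (.br (.br .nil .nil .nil .nil .nil (.ov [(true, (g (a (d (b (f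
  (b (d (a (b (g (c (f e)))))))))))))])) .nil .nil .nil .nil .nil) .nil .nil) .nil (.br (.br .nil
  .nil .nil .nil .nil (.ov [(true, (g (a (d (f (b (d (a (b (g (c (f e))))))))))))])) .nil .nil .nil
  .nil .nil) .nil .nil) .nil) .nil .nil .nil .nil) .nil .nil) .nil .nil .nil .nil .nil) (.br .nil
  (.br (.br .nil .nil .nil .nil .nil (.ov [(true, (g (a (b (c (g (c (f e))))))))])) .nil .nil .nil
  .nil .nil) .nil .nil .nil .nil) (.br .nil .nil (.br .nil (.br (.br .nil .nil .nil .nil .nil (.ov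
  [(true, (g (a (b (c (d (g (c (f e)))))))))])) .nil .nil .nil .nil .nil) .nil .nil .nil .nil) .nil
  .nil .nil) .nil .nil) .nil))

def Rd : R := (.br (.br .nil .nil .nil (.hit [t true 1 (a (d (a e)))]) (.br .nil (.br .nil .nil .nil
  (.br .nil (.br .nil .nil .nil .nil (.hit [t false 1 (b (c (f (b (d (b (f e))))))), t true 1 (b (f
  (a (c (d (b (f e))))))), t true 1 (c (f (b (d (b (f (a e))))))), t false 1 (f (a (c (d (b (f (a
  e)))))))]) .nil) .nil .nil .nil .nil) .nil .nil) .nil .nil .nil .nil) (.br .nil .nil .nil (.br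
  .nil .nil (.br .nil (.br (.br .nil .nil .nil .nil .nil (.hit [t true 1 (c (g (a (b (c (d (g (a
  e))))))))])) .nil .nil .nil .nil .nil) .nil .nil .nil .nil) .nil .nil .nil) .nil .nil)) (.br (.br
  .nil .nil .nil (.hit [t true 1 (a (b (d (a e)))), t true 1 (b (d (a (b e))))]) .nil (.br .nil .nil
  .nil .nil (.br .nil (.br .nil .nil .nil (.br .nil (.br .nil .nil .nil .nil (.br .nil .nil (.br
  .nil (.br (.br .nil .nil .nil .nil .nil (.hit [t false 1 (a (c (d (b (f (b (d (g (a (b (c (f (g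
  e))))))))))))), t false 1 (a (c (d (b (f (g (a (b (c (d (b (f (g e))))))))))))), t true 1 (a (c (f
  (b (d (b (f (g (a (b (c (d (g e))))))))))))), t true 1 (a (d (a (c (f (b (d (g (a (b (c (f (g
  e))))))))))))), t true 1 (a (d (a (c (f (g (a (b (c (d (b (f (g e))))))))))))), t true 1 (a (d (b
  (f (b (d (g (a (b (c (f (g (a e))))))))))))), t true 1 (a (d (b (f (g (a (b (c (d (b (f (g (a
  e))))))))))))), t false 1 (a (d (f (a (b (a (f (d (g (a (b (c (g e))))))))))))), t true 1 (a (d (g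
  (a (b (c (f (b (d (b (f (g (a e))))))))))))), t false 1 (a (f (a (c (d (b (f (g (a (b (c (d (g
  e))))))))))))), t false 1 (a (f (b (d (b (f (g (a (b (c (d (g (a e))))))))))))), t false 1 (a (f
  (b (d (g (a (b (c (f (b (d (g (a e))))))))))))), t false 1 (a (f (g (a (b (c (d (b (f (b (d (g (a
  e))))))))))))), t true 1 (b (a (d (g (a (b (c (f (b (d (b (f (g e))))))))))))), t false 1 (b (a (f
  (b (d (g (a (b (c (f (b (d (g e))))))))))))), t false 1 (b (a (f (g (a (b (c (d (b (f (b (d (g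
  e))))))))))))), t false 1 (b (d (g (a (b (c (f (b (d (g (a (b (f e))))))))))))), t false 1 (b (f
  (b (d (a (g (a (b (c (f (g (a (d e))))))))))))), t true 1 (b (f (b (d (g (a (b (c (f (b (d (g (c
  e))))))))))))), t true 1 (b (f (g (a (b (c (d (b (f (g (a (b (d e))))))))))))), t false 1 (c (d (b
  (f (b (d (g (a (b (c (f (b (g e))))))))))))), t false 1 (c (d (b (f (g (a (b (c (d (b (f (b (g
  e))))))))))))), t true 1 (c (f (b (d (b (f (g (a (b (c (d (b (g e))))))))))))), t true 1 (d (a (c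
  (f (b (d (b (f (g (a (b (c (g e))))))))))))), t true 1 (d (a (c (f (b (d (g (a (b (c (f (b (g
  e))))))))))))), t true 1 (d (a (c (f (g (a (b (c (d (b (f (b (g e))))))))))))), t false 1 (d (a (f
  (a (c (d (b (f (g (a (b (c (g e))))))))))))), t false 1 (d (b (f (b (d (a (g (a (b (c (f (g (a
  e))))))))))))), t true 1 (d (b (f (b (d (g (a (b (c (f (b (g (c e))))))))))))), t true 1 (d (b (f
  (g (a (b (c (d (b (f (g (a (b e))))))))))))), t true 1 (d (f (a (b (a (f (d (b (g (a (b (c (g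
  e))))))))))))), t false 1 (d (g (a (b (c (d (f (b (d (g (a (b (f e))))))))))))), t true 1 (d (g (a
  (b (c (f (b (d (b (f (g (a (b e))))))))))))), t true 1 (f (a (b (a (f (d (b (g (a (b (c (d (g
  e))))))))))))), t false 1 (f (a (c (d (b (f (g (a (b (c (d (b (g e))))))))))))), t true 1 (f (b (d
  (a (g (a (b (c (f (d (g (a (d e))))))))))))), t true 1 (f (b (d (b (f (a (g (a (b (c (d (g (a
  e))))))))))))), t false 1 (f (b (d (b (f (g (a (b (c (d (b (g (c e))))))))))))), t true 1 (f (b (d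
  (g (a (b (c (f (b (d (b (g (c e))))))))))))), t false 1 (f (b (d (g (a (b (c (f (b (d (g (a (b
  e))))))))))))), t false 1 (f (g (a (b (c (d (b (f (b (d (g (a (b e))))))))))))), t false 1 (f (g
  (a (b (c (d (b (f (d (g (a (b (d e))))))))))))), t false 1 (g (a (b (c (d (b (f (b (d (g (a (b (f
  e)))))))))))))])) .nil .nil .nil .nil .nil) .nil .nil .nil .nil) .nil .nil .nil) .nil) .nil .nil
  .nil .nil) .nil .nil) .nil .nil .nil .nil) .nil)) .nil .nil (.hit [t true 1 (b (d (b e)))]) (.br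
  (.br .nil .nil .nil (.br (.br .nil .nil .nil .nil (.hit [t false 1 (a (f (a (b (d (a (f e))))))),
  t true 1 (f (a (b (d (a (f (b e)))))))]) .nil) .nil .nil .nil .nil .nil) .nil .nil) .nil .nil (.br
  (.br .nil .nil .nil .nil .nil (.br .nil .nil .nil (.br .nil .nil .nil .nil (.br .nil .nil (.br
  .nil (.br (.br .nil .nil .nil .nil .nil (.hit [t false 1 (a (b (g (a (b (c (f (d (g (a (d (f
  e)))))))))))), t false 1 (a (g (a (b (c (f (d (g (a (d (f (b e)))))))))))), t true 1 (b (c (g (a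
  (b (c (f (d (g (a (d (f e)))))))))))), t true 1 (c (g (a (b (c (f (b (d (b (f (g (c e)))))))))))),
  t false 1 (g (a (b (c (d (f (b (d (b (f (g (a e)))))))))))), t true 1 (g (a (b (c (d (g (a (f (b
  (d (b (f e)))))))))))), t false 1 (g (a (b (c (f (b (d (b (f (g (a (c e))))))))))))])) .nil .nil
  .nil .nil .nil) .nil .nil .nil .nil) .nil .nil .nil) .nil) .nil .nil)) .nil .nil .nil .nil .nil)
  .nil .nil) .nil) (.br (.br .nil .nil .nil (.hit [t true 1 (a (d (a (c e))))]) .nil .nil) .nil .nil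
  .nil .nil (.hit [t false 1 (d (g (c e)))])) (.hit []) (.br (.br .nil .nil .nil (.br (.br .nil .nil
  .nil .nil (.hit [t false 1 (a (f (a (d (a (f e))))))]) .nil) (.br (.br .nil .nil .nil .nil (.hit
  [t false 1 (a (b (f (a (d (a (f e))))))), t false 1 (b (f (a (b (d (a (f e))))))), t true 1 (f (a
  (b (a (f (d (a e)))))))]) .nil) .nil .nil .nil .nil .nil) .nil .nil .nil .nil) .nil .nil) (.br
  (.br .nil .nil .nil (.br .nil (.br .nil .nil .nil .nil (.hit [t false 1 (b (f (b (d (a (b (f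
  e))))))), t false 1 (f (a (b (a (f (d (a e)))))))]) .nil) .nil .nil .nil .nil) .nil (.br .nil .nil
  .nil (.br .nil (.br .nil .nil .nil .nil (.br .nil .nil .nil (.br .nil .nil (.br .nil (.br (.br
  .nil .nil .nil .nil .nil (.hit [t false 1 (a (b (d (f (b (g (a (b (c (f (d (g (a e))))))))))))), t
  true 1 (a (d (f (g (a (b (c (d (b (f (d (g (a e))))))))))))), t false 1 (a (f (g (a (b (c (d (b (f
  (b (d (g (a e))))))))))))), t true 1 (b (c (d (f (b (g (a (b (c (f (d (g (a e))))))))))))), t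
  false 1 (d (f (a (g (a (b (c (d (f (d (g (a (f e))))))))))))), t false 1 (d (f (g (a (b (c (d (b
  (f (d (b (g (c e))))))))))))), t true 1 (d (f (g (a (b (c (d (b (f (d (g (a (b e))))))))))))), t
  false 1 (f (a (g (a (b (c (d (f (d (g (a (f (d e))))))))))))), t true 1 (f (g (a (b (c (d (b (f (b
  (d (b (g (c e))))))))))))), t false 1 (f (g (a (b (c (d (b (f (b (d (g (a (b e))))))))))))), t
  false 1 (g (a (b (c (d (b (f (b (d (g (a (b (f e)))))))))))))])) .nil .nil .nil .nil .nil) .nil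
  .nil .nil .nil) .nil .nil .nil) .nil .nil) .nil) .nil .nil .nil .nil) .nil .nil)) .nil .nil (.br
  .nil (.br .nil .nil .nil .nil (.hit [t false 1 (b (f (b (d (b (f e))))))]) .nil) (.br (.br .nil
  .nil .nil .nil (.hit [t false 1 (a (f (a (c (d (b (f e))))))), t true 1 (f (a (b (a (f (d (b
  e)))))))]) .nil) .nil .nil .nil .nil .nil) .nil .nil .nil) .nil .nil) (.br (.br .nil .nil .nil
  (.br (.br .nil .nil .nil .nil (.hit [t false 1 (a (f (a (d (a (c (f e)))))))]) .nil) (.br (.br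
  .nil .nil .nil .nil (.hit [t false 1 (a (b (f (a (d (a (c (f e)))))))), t false 1 (b (f (a (b (d
  (a (c (f e)))))))), t true 1 (f (a (b (a (f (d (a (c e))))))))]) .nil) .nil .nil .nil .nil .nil)
  .nil .nil .nil .nil) .nil .nil) .nil .nil .nil .nil .nil) .nil .nil .nil) (.hit [t false 1 (d (g
  e))]))

def Cd : C := (.br (.br .nil .nil .nil (.ba b_dad) (.br .nil (.br .nil .nil .nil (.br .nil (.br .nil
  .nil .nil .nil (.ov [(false, (f (b (f (a (d (b (f e))))))))]) .nil) .nil .nil .nil .nil) .nil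
  .nil) .nil .nil .nil .nil) (.br .nil .nil .nil (.br .nil .nil (.br .nil (.br (.br .nil .nil .nil
  .nil .nil (.ov [(false, (g (a (b (c (g (a (d (a e)))))))))])) .nil .nil .nil .nil .nil) .nil .nil
  .nil .nil) .nil .nil .nil) .nil .nil)) (.br (.br .nil .nil .nil (.ov [(true, (d (b (d (c e)))))])
  .nil (.br .nil .nil .nil .nil (.br .nil (.br .nil .nil .nil (.br .nil (.br .nil .nil .nil .nil
  (.br .nil .nil (.br .nil (.br (.br .nil .nil .nil .nil .nil (.ov [(true, (g (a (d (b (f (b (d (a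
  (g (a (b (f (a e)))))))))))))), (true, (g (a (b (c (f (d (b (g (a (b (d (f (a e)))))))))))))),
  (true, (g (a (d (b (f (d (a (g (a (b (d (f (a e))))))))))))))])) .nil .nil .nil .nil .nil) .nil
  .nil .nil .nil) .nil .nil .nil) .nil) .nil .nil .nil .nil) .nil .nil) .nil .nil .nil .nil) .nil))
  .nil .nil (.ba b_dbd) (.br (.br .nil .nil .nil (.br (.br .nil .nil .nil .nil (.ov [(false, (f (a
  (f (b (d (a (f e))))))))]) .nil) .nil .nil .nil .nil .nil) .nil .nil) .nil .nil (.br (.br .nil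
  .nil .nil .nil .nil (.br .nil .nil .nil (.br .nil .nil .nil .nil (.br .nil .nil (.br .nil (.br
  (.br .nil .nil .nil .nil .nil (.ov [(false, (g (a (b (c (f (d (g (a (f (b (d (f e)))))))))))))]))
  .nil .nil .nil .nil .nil) .nil .nil .nil .nil) .nil .nil .nil) .nil) .nil .nil)) .nil .nil .nil
  .nil .nil) .nil .nil) .nil) (.br (.br .nil .nil .nil (.ov [(true, (d (a (d (c e)))))]) .nil .nil)
  .nil .nil .nil .nil (.ov [(true, (g (d (c e))))])) (.ba b_dd) (.br (.br .nil .nil .nil (.br (.br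
  .nil .nil .nil .nil (.ov [(false, (f (a (f (d (a (f e)))))))]) .nil) (.br (.br .nil .nil .nil .nil
  (.ov [(false, (f (a (b (f (d (a (f e))))))))]) .nil) .nil .nil .nil .nil .nil) .nil .nil .nil
  .nil) .nil .nil) (.br (.br .nil .nil .nil (.br .nil (.br .nil .nil .nil .nil (.ov [(false, (f (b
  (f (d (a (b (f e))))))))]) .nil) .nil .nil .nil .nil) .nil (.br .nil .nil .nil (.br .nil (.br .nil
  .nil .nil .nil (.br .nil .nil .nil (.br .nil .nil (.br .nil (.br (.br .nil .nil .nil .nil .nil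
  (.ov [(false, (g (a (b (c (d (f (b (g (a (b (f (d (a e))))))))))))))])) .nil .nil .nil .nil .nil)
  .nil .nil .nil .nil) .nil .nil .nil) .nil .nil) .nil) .nil .nil .nil .nil) .nil .nil)) .nil .nil
  (.br .nil (.br .nil .nil .nil .nil (.ov [(false, (f (b (f (d (b (f e)))))))]) .nil) (.br (.br .nil
  .nil .nil .nil (.ov [(false, (f (a (c (f (d (b (f e))))))))]) .nil) .nil .nil .nil .nil .nil) .nil
  .nil .nil) .nil .nil) (.br (.br .nil .nil .nil (.br (.br .nil .nil .nil .nil (.ov [(false, (f (a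
  (f (d (a (c (f e))))))))]) .nil) (.br (.br .nil .nil .nil .nil (.ov [(false, (f (a (b (f (d (a (c
  (f e)))))))))]) .nil) .nil .nil .nil .nil .nil) .nil .nil .nil .nil) .nil .nil) .nil .nil .nil
  .nil .nil) .nil .nil .nil) (.ba b_gd))

def Rf : R := (.br (.br .nil (.br (.br .nil .nil .nil (.br .nil .nil .nil .nil (.hit [t false 1 (a
  (b (a (d (f (d e)))))), t true 1 (a (b (d (f (d (a e)))))), t false 1 (a (c (d (f (d (b e)))))), t
  true 1 (a (d (f (d (a (c e)))))), t false 1 (b (a (d (f (d (b e)))))), t true 1 (b (d (f (d (a (b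
  e)))))), t true 1 (d (a (b (a (f (d e)))))), t false 1 (d (f (a (b (a (d e)))))), t true 1 (d (f
  (d (a (b (a e)))))), t false 1 (f (a (b (a (d (f e))))))]) .nil) .nil .nil) .nil .nil .nil .nil
  .nil) .nil (.br .nil (.br .nil .nil .nil .nil (.hit [t true 1 (a (f (b (d (a e))))), t true 1 (b
  (d (a (f (b e))))), t true 1 (d (a (f (b (d e)))))]) .nil) .nil .nil (.hit [t true 1 (a (f (d (a
  e)))), t true 1 (d (a (f (d e))))]) .nil) (.hit [t true 1 (a (f (a e)))]) (.br .nil .nil .nil (.br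
  .nil (.br .nil .nil .nil .nil (.br .nil .nil (.br .nil (.br (.br .nil .nil .nil .nil .nil (.hit [t
  false 1 (b (g (a (b (c (d (g (a (f (b e)))))))))), t true 1 (c (g (a (b (c (f (b (d (g (a
  e)))))))))), t true 1 (g (a (b (c (d (g (a (f (b (d e))))))))))])) .nil .nil .nil .nil .nil) .nil
  .nil .nil .nil) .nil .nil .nil) .nil) .nil .nil (.br .nil .nil (.br .nil (.br (.br .nil .nil .nil
  .nil .nil (.hit [t true 1 (c (g (a (b (c (f (d (g (a e))))))))), t true 1 (g (a (b (c (d (g (a (f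
  (d e)))))))))])) .nil .nil .nil .nil .nil) .nil .nil .nil .nil) .nil .nil .nil) .nil) (.br .nil
  .nil (.br .nil (.br (.br .nil .nil .nil .nil .nil (.hit [t true 1 (c (g (a (b (c (f (g (a
  e))))))))])) .nil .nil .nil .nil .nil) .nil .nil .nil .nil) .nil .nil .nil) .nil)) (.br (.br .nil
  .nil .nil (.br .nil .nil .nil .nil (.hit [t true 1 (a (b (f (d (a e))))), t true 1 (b (f (d (a (b
  e))))), t true 1 (d (a (b (f (d e)))))]) .nil) (.hit [t true 1 (a (b (f (a e)))), t true 1 (b (f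
  (a (b e))))]) .nil) .nil .nil (.br (.br .nil .nil .nil .nil (.hit [t true 1 (a (d (b (f (a e))))),
  t true 1 (b (f (a (d (b e))))), t true 1 (d (b (f (a (d e)))))]) (.br .nil .nil .nil .nil (.br
  .nil .nil (.br .nil (.br (.br .nil .nil .nil .nil .nil (.hit [t false 1 (b (g (a (b (c (f (g (a (d
  (b e)))))))))), t true 1 (c (g (a (b (c (d (b (f (g (a e)))))))))), t true 1 (g (a (b (c (d (b (f
  (g (a (d e))))))))))])) .nil .nil .nil .nil .nil) .nil .nil .nil .nil) (.br .nil .nil (.br .nil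
  (.br (.br .nil .nil .nil .nil .nil (.hit [t true 1 (a (b (g (a (b (c (d (f (g (a (f e))))))))))),
  t false 1 (b (c (g (a (b (c (d (f (g (a (f e))))))))))), t false 1 (c (g (a (b (c (d (b (f (b (g
  (c e))))))))))), t true 1 (c (g (a (b (c (d (b (f (g (a (b e))))))))))), t true 1 (g (a (b (c (d
  (b (f (g (a (d (b e)))))))))))])) .nil .nil .nil .nil .nil) .nil .nil .nil .nil) .nil .nil .nil)
  .nil .nil) .nil)) .nil .nil .nil (.hit [t true 1 (b (f (d (b e)))), t true 1 (d (b (f (d e))))])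
  .nil) (.hit [t true 1 (b (f (b e)))]) .nil) (.br (.br .nil .nil .nil (.br .nil .nil .nil .nil
  (.hit [t true 1 (a (f (d (a (c e))))), t true 1 (d (a (c (f (d e)))))]) .nil) (.hit [t true 1 (a
  (f (a (c e))))]) .nil) .nil .nil .nil .nil (.hit [t false 1 (f (g (c e)))])) (.br (.br .nil .nil
  .nil .nil (.hit [t true 1 (a (d (f (a e)))), t true 1 (d (f (a (d e))))]) (.br .nil .nil .nil .nil
  (.br .nil .nil (.br .nil (.br (.br .nil .nil .nil .nil .nil (.hit [t true 1 (c (g (a (b (c (d (f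
  (g (a e))))))))), t true 1 (g (a (b (c (d (f (g (a (d e)))))))))])) .nil .nil .nil .nil .nil) .nil
  .nil .nil .nil) .nil .nil .nil) .nil)) (.br (.br .nil .nil .nil .nil (.hit [t true 1 (a (b (d (f
  (a e))))), t true 1 (b (d (f (a (b e))))), t true 1 (d (f (a (b (d e)))))]) (.br .nil .nil .nil
  (.br .nil .nil .nil .nil (.br .nil (.br .nil .nil .nil (.br .nil .nil (.br .nil (.br (.br .nil
  .nil .nil .nil .nil (.hit [t true 1 (a (c (d (b (f (b (d (g (a (b (c (f (g e))))))))))))), t true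
  1 (a (c (d (b (f (d (g (a (b (c (d (f (g e))))))))))))), t true 1 (a (c (d (b (f (g (a (b (c (d (b
  (f (g e))))))))))))), t false 1 (a (d (a (c (f (b (d (g (a (b (c (f (g e))))))))))))), t false 1
  (a (d (a (c (f (d (g (a (b (c (d (f (g e))))))))))))), t false 1 (a (d (a (c (f (g (a (b (c (d (b
  (f (g e))))))))))))), t false 1 (a (d (b (f (b (d (g (a (b (c (f (g (a e))))))))))))), t false 1
  (a (d (b (f (d (g (a (b (c (d (f (g (a e))))))))))))), t false 1 (a (d (b (f (g (a (b (c (d (b (f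
  (g (a e))))))))))))), t true 1 (a (d (f (a (b (a (f (d (g (a (b (c (g e))))))))))))), t true 1 (a
  (f (a (c (d (b (f (g (a (b (c (d (g e))))))))))))), t false 1 (a (f (a (d (a (c (f (g (a (b (c (d
  (g e))))))))))))), t true 1 (a (f (b (d (g (a (b (c (f (b (d (g (a e))))))))))))), t true 1 (a (f
  (d (g (a (b (c (d (f (b (d (g (a e))))))))))))), t true 1 (a (f (g (a (b (c (d (b (f (b (d (g (a
  e))))))))))))), t true 1 (b (a (f (b (d (g (a (b (c (f (b (d (g e))))))))))))), t true 1 (b (a (f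
  (d (g (a (b (c (d (f (b (d (g e))))))))))))), t true 1 (b (a (f (g (a (b (c (d (b (f (b (d (g
  e))))))))))))), t false 1 (b (d (a (g (a (b (c (f (d (g (a (d (f e))))))))))))), t false 1 (b (d
  (g (a (b (c (f (b (d (b (f (g (c e))))))))))))), t true 1 (b (d (g (a (b (c (f (b (d (g (a (b (f
  e))))))))))))), t true 1 (b (f (b (d (a (g (a (b (c (f (g (a (d e))))))))))))), t false 1 (b (f (b
  (d (g (a (b (c (f (b (d (g (c e))))))))))))), t true 1 (b (f (d (a (g (a (b (c (d (f (g (a (d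
  e))))))))))))), t false 1 (b (f (d (g (a (b (c (d (f (b (d (g (c e))))))))))))), t false 1 (b (f
  (g (a (b (c (d (b (f (g (a (b (d e))))))))))))), t true 1 (c (d (b (f (b (d (g (a (b (c (f (b (g
  e))))))))))))), t true 1 (c (d (b (f (d (g (a (b (c (d (f (b (g e))))))))))))), t true 1 (c (d (b
  (f (g (a (b (c (d (b (f (b (g e))))))))))))), t false 1 (d (a (c (f (b (d (g (a (b (c (f (b (g
  e))))))))))))), t false 1 (d (a (c (f (d (g (a (b (c (d (f (b (g e))))))))))))), t false 1 (d (a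
  (c (f (g (a (b (c (d (b (f (b (g e))))))))))))), t true 1 (d (a (f (a (c (d (b (f (g (a (b (c (g
  e))))))))))))), t false 1 (d (a (g (a (b (c (d (f (d (g (a (d (f e))))))))))))), t true 1 (d (b (f
  (b (d (a (g (a (b (c (f (g (a e))))))))))))), t false 1 (d (b (f (b (d (g (a (b (c (f (b (g (c
  e))))))))))))), t true 1 (d (b (f (d (a (g (a (b (c (d (f (g (a e))))))))))))), t false 1 (d (b (f
  (d (g (a (b (c (d (f (b (g (c e))))))))))))), t false 1 (d (b (f (g (a (b (c (d (b (f (g (a (b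
  e))))))))))))), t false 1 (d (f (a (b (a (f (d (b (g (a (b (c (g e))))))))))))), t false 1 (d (g
  (a (b (c (d (f (b (d (b (f (g (c e))))))))))))), t true 1 (d (g (a (b (c (d (f (b (d (g (a (b (f
  e))))))))))))), t false 1 (f (a (b (a (f (d (b (g (a (b (c (d (g e))))))))))))), t true 1 (f (a (c
  (d (b (f (g (a (b (c (d (b (g e))))))))))))), t false 1 (f (a (d (a (c (f (b (d (g (a (b (c (g
  e))))))))))))), t false 1 (f (a (d (a (c (f (g (a (b (c (d (b (g e))))))))))))), t false 1 (f (b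
  (d (a (g (a (b (c (f (d (g (a (d e))))))))))))), t false 1 (f (b (d (g (a (b (c (f (b (d (b (g (c
  e))))))))))))), t true 1 (f (b (d (g (a (b (c (f (b (d (g (a (b e))))))))))))), t false 1 (f (d (a
  (g (a (b (c (d (f (d (g (a (d e))))))))))))), t false 1 (f (d (g (a (b (c (d (f (b (d (b (g (c
  e))))))))))))), t true 1 (f (d (g (a (b (c (d (f (b (d (g (a (b e))))))))))))), t true 1 (f (g (a
  (b (c (d (b (f (b (d (g (a (b e))))))))))))), t true 1 (f (g (a (b (c (d (b (f (d (g (a (b (d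
  e))))))))))))), t true 1 (g (a (b (c (d (b (f (b (d (g (a (b (f e)))))))))))))])) .nil .nil .nil
  .nil .nil) .nil .nil .nil .nil) .nil .nil .nil) .nil .nil) .nil .nil .nil .nil) .nil) .nil .nil))
  .nil .nil .nil (.hit [t true 1 (b (d (f (b e)))), t true 1 (d (f (b (d e))))]) .nil) (.br (.br
  .nil .nil .nil .nil (.hit [t true 1 (a (d (f (a (c e))))), t true 1 (d (f (a (c (d e)))))]) .nil)
  .nil .nil .nil .nil .nil) .nil (.hit [t true 1 (d (f (d e)))]) .nil) (.hit []) (.hit [t false 1 (f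
  (g e))]))

def Cf : C := (.br (.br .nil (.br (.br .nil .nil .nil (.br .nil .nil .nil .nil (.ba b_fdabaf) .nil)
  .nil .nil) .nil .nil .nil .nil .nil) .nil (.br .nil (.br .nil .nil .nil .nil (.ba b_fbdaf) .nil)
  .nil .nil (.ba b_fdaf) .nil) (.ba b_faf) (.br .nil .nil .nil (.br .nil (.br .nil .nil .nil .nil
  (.br .nil .nil (.br .nil (.br (.br .nil .nil .nil .nil .nil (.ov [(false, (g (a (b (c (g (a (f (b
  (d (a e)))))))))))])) .nil .nil .nil .nil .nil) .nil .nil .nil .nil) .nil .nil .nil) .nil) .nil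
  .nil (.br .nil .nil (.br .nil (.br (.br .nil .nil .nil .nil .nil (.ov [(false, (g (a (b (c (g (a
  (f (d (a e))))))))))])) .nil .nil .nil .nil .nil) .nil .nil .nil .nil) .nil .nil .nil) .nil) (.br
  .nil .nil (.br .nil (.br (.br .nil .nil .nil .nil .nil (.ov [(false, (g (a (b (c (g (a (f (a
  e)))))))))])) .nil .nil .nil .nil .nil) .nil .nil .nil .nil) .nil .nil .nil) .nil)) (.br (.br .nil
  .nil .nil (.br .nil .nil .nil .nil (.ov [(true, (f (d (b (f (c e))))))]) .nil) (.ov [(true, (f (b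
  (f (c e)))))]) .nil) .nil .nil (.br (.br .nil .nil .nil .nil (.ba b_fadbf) (.br .nil .nil .nil
  .nil (.br .nil .nil (.br .nil (.br (.br .nil .nil .nil .nil .nil (.ov [(false, (g (a (b (c (g (a
  (d (b (f (a e)))))))))))])) .nil .nil .nil .nil .nil) .nil .nil .nil .nil) (.br .nil .nil (.br
  .nil (.br (.br .nil .nil .nil .nil .nil (.ov [(false, (g (a (b (c (d (g (a (d (b (f (a
  e))))))))))))])) .nil .nil .nil .nil .nil) .nil .nil .nil .nil) .nil .nil .nil) .nil .nil) .nil))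
  .nil .nil .nil (.ba b_fdbf) .nil) (.ba b_fbf) .nil) (.br (.br .nil .nil .nil (.br .nil .nil .nil
  .nil (.ov [(true, (f (d (a (f (c e))))))]) .nil) (.ov [(true, (f (a (f (c e)))))]) .nil) .nil .nil
  .nil .nil (.ov [(true, (g (f (c e))))])) (.br (.br .nil .nil .nil .nil (.ba b_fadf) (.br .nil .nil
  .nil .nil (.br .nil .nil (.br .nil (.br (.br .nil .nil .nil .nil .nil (.ov [(false, (g (a (b (c (g
  (a (d (f (a e))))))))))])) .nil .nil .nil .nil .nil) .nil .nil .nil .nil) .nil .nil .nil) .nil))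
  (.br (.br .nil .nil .nil .nil (.ov [(true, (f (b (d (f (c e))))))]) (.br .nil .nil .nil (.br .nil
  .nil .nil .nil (.br .nil (.br .nil .nil .nil (.br .nil .nil (.br .nil (.br (.br .nil .nil .nil
  .nil .nil (.ov [(false, (g (a (d (b (f (b (d (a (g (a (b (f (a e)))))))))))))), (false, (g (a (d
  (b (f (d (a (g (a (b (d (f (a e))))))))))))))])) .nil .nil .nil .nil .nil) .nil .nil .nil .nil)
  .nil .nil .nil) .nil .nil) .nil .nil .nil .nil) .nil) .nil .nil)) .nil .nil .nil (.ba b_fbdf)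
  .nil) (.br (.br .nil .nil .nil .nil (.ov [(true, (f (a (d (f (c e))))))]) .nil) .nil .nil .nil
  .nil .nil) .nil (.ba b_fdf) .nil) (.ba b_ff) (.ba b_gf))

def Rg : R := (.br (.br .nil .nil .nil .nil .nil (.hit [t true 1 (a (g (a e)))])) (.br (.br .nil
  .nil .nil .nil .nil (.hit [t true 1 (a (g (a (b e))))])) .nil .nil (.br (.br .nil .nil .nil .nil
  .nil (.hit [t true 1 (a (g (a (d (b e)))))])) (.br .nil .nil .nil .nil (.br .nil (.br .nil .nil
  .nil (.br (.br .nil .nil .nil .nil .nil (.hit [t true 1 (a (g (a (d (b (f (b (d (b e)))))))))]))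
  .nil .nil .nil .nil .nil) .nil .nil) .nil (.br (.br .nil .nil .nil .nil .nil (.hit [t true 1 (a (g
  (a (d (f (b (d (b e))))))))])) .nil .nil .nil .nil .nil) .nil .nil) .nil) .nil .nil (.br .nil (.br
  (.br .nil .nil .nil .nil .nil (.hit [t true 1 (a (g (a (b (f (d (b e)))))))])) .nil .nil (.br (.br
  .nil .nil .nil .nil .nil (.hit [t true 1 (a (g (a (d (b (f (d (b e))))))))])) .nil .nil .nil .nil
  .nil) .nil .nil) .nil (.br (.br .nil .nil .nil .nil .nil (.hit [t true 1 (a (g (a (d (f (d (b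
  e)))))))])) (.br (.br .nil .nil .nil .nil .nil (.hit [t true 1 (a (g (a (b (d (f (d (b
  e))))))))])) .nil .nil .nil .nil .nil) (.br (.br .nil .nil .nil .nil .nil (.hit [t true 1 (a (c (g
  (a (d (f (d (b e)))))))), t true 1 (c (g (a (c (d (f (d (b e))))))))])) .nil .nil .nil .nil .nil)
  .nil .nil .nil) .nil .nil) .nil) (.br .nil (.br .nil .nil .nil (.br (.br .nil .nil .nil .nil .nil
  (.hit [t true 1 (a (g (a (d (b (f (b e)))))))])) .nil .nil .nil .nil .nil) .nil .nil) .nil (.br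
  (.br .nil .nil .nil .nil .nil (.hit [t true 1 (a (g (a (d (f (b e))))))])) (.br (.br .nil .nil
  .nil .nil .nil (.hit [t true 1 (a (g (a (b (d (f (b e)))))))])) .nil .nil .nil .nil .nil) .nil
  .nil .nil .nil) .nil .nil) .nil) (.br (.br .nil .nil .nil .nil .nil (.hit [t true 1 (a (c (g (a
  e)))), t true 1 (c (g (a (c e))))])) .nil .nil .nil .nil (.hit [t true 1 (c (g (c e)))])) (.br
  (.br .nil .nil .nil .nil .nil (.hit [t true 1 (a (g (a (d e))))])) (.br (.br .nil .nil .nil .nil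
  .nil (.hit [t true 1 (a (g (a (b (d e)))))])) .nil .nil .nil (.br .nil (.br .nil .nil .nil (.br
  (.br .nil .nil .nil .nil .nil (.hit [t true 1 (a (g (a (d (b (f (b (d e))))))))])) .nil .nil .nil
  .nil .nil) .nil .nil) .nil (.br (.br .nil .nil .nil .nil .nil (.hit [t true 1 (a (g (a (d (f (b (d
  e)))))))])) .nil .nil .nil .nil .nil) .nil .nil) .nil) (.br (.br .nil .nil .nil .nil .nil (.hit [t
  true 1 (a (c (g (a (d e))))), t true 1 (c (g (a (c (d e)))))])) .nil .nil .nil .nil .nil) .nil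
  (.br .nil (.br (.br .nil .nil .nil .nil .nil (.hit [t true 1 (a (g (a (b (f (d e))))))])) .nil
  .nil (.br (.br .nil .nil .nil .nil .nil (.hit [t true 1 (a (g (a (d (b (f (d e)))))))])) .nil .nil
  .nil .nil .nil) .nil .nil) (.br (.br .nil .nil .nil .nil .nil (.hit [t true 1 (a (c (g (a (f (d
  e)))))), t true 1 (c (g (a (c (f (d e))))))])) .nil .nil .nil .nil .nil) (.br (.br .nil .nil .nil
  .nil .nil (.hit [t true 1 (a (g (a (d (f (d e))))))])) (.br (.br .nil .nil .nil .nil .nil (.hit [t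
  true 1 (a (g (a (b (d (f (d e)))))))])) .nil .nil .nil .nil .nil) (.br (.br .nil .nil .nil .nil
  .nil (.hit [t true 1 (a (c (g (a (d (f (d e))))))), t true 1 (c (g (a (c (d (f (d e)))))))])) .nil
  .nil .nil .nil .nil) .nil .nil .nil) .nil .nil) .nil) (.br .nil (.br (.br .nil .nil .nil .nil .nil
  (.hit [t true 1 (a (g (a (b (f e)))))])) .nil .nil (.br (.br .nil .nil .nil .nil .nil (.hit [t
  true 1 (a (g (a (d (b (f e))))))])) .nil .nil .nil .nil .nil) .nil .nil) (.br (.br .nil .nil .nil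
  .nil .nil (.hit [t true 1 (a (c (g (a (f e))))), t true 1 (c (g (a (c (f e)))))])) .nil .nil .nil
  .nil .nil) (.br (.br .nil .nil .nil .nil .nil (.hit [t true 1 (a (g (a (d (f e)))))])) (.br (.br
  .nil .nil .nil .nil .nil (.hit [t true 1 (a (g (a (b (d (f e))))))])) .nil .nil .nil .nil .nil)
  (.br (.br .nil .nil .nil .nil .nil (.hit [t true 1 (a (c (g (a (d (f e)))))), t true 1 (c (g (a (c
  (d (f e))))))])) .nil .nil .nil .nil .nil) .nil .nil .nil) .nil .nil) .nil)

def Cg : C := (.br (.br .nil .nil .nil .nil .nil (.ba b_gag)) (.br (.br .nil .nil .nil .nil .nil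
  (.ov [(true, (g (a (g (b e)))))])) .nil .nil (.br (.br .nil .nil .nil .nil .nil (.ov [(true, (g (a
  (d (g (b e))))))])) (.br .nil .nil .nil .nil (.br .nil (.br .nil .nil .nil (.br (.br .nil .nil
  .nil .nil .nil (.ov [(true, (g (a (d (b (f (b (d (g (b e))))))))))])) .nil .nil .nil .nil .nil)
  .nil .nil) .nil (.br (.br .nil .nil .nil .nil .nil (.ov [(true, (g (a (d (f (b (d (g (b
  e)))))))))])) .nil .nil .nil .nil .nil) .nil .nil) .nil) .nil .nil (.br .nil (.br (.br .nil .nil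
  .nil .nil .nil (.ov [(true, (g (a (b (f (d (g (b e))))))))])) .nil .nil (.br (.br .nil .nil .nil
  .nil .nil (.ov [(true, (g (a (d (b (f (d (g (b e)))))))))])) .nil .nil .nil .nil .nil) .nil .nil)
  .nil (.br (.br .nil .nil .nil .nil .nil (.ov [(true, (g (a (d (f (d (g (b e))))))))])) (.br (.br
  .nil .nil .nil .nil .nil (.ov [(true, (g (a (b (d (f (d (g (b e)))))))))])) .nil .nil .nil .nil
  .nil) (.br (.br .nil .nil .nil .nil .nil (.ov [(true, (g (a (c (d (f (d (g (b e)))))))))])) .nil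
  .nil .nil .nil .nil) .nil .nil .nil) .nil .nil) .nil) (.br .nil (.br .nil .nil .nil (.br (.br .nil
  .nil .nil .nil .nil (.ov [(true, (g (a (d (b (f (g (b e))))))))])) .nil .nil .nil .nil .nil) .nil
  .nil) .nil (.br (.br .nil .nil .nil .nil .nil (.ov [(true, (g (a (d (f (g (b e)))))))])) (.br (.br
  .nil .nil .nil .nil .nil (.ov [(true, (g (a (b (d (f (g (b e))))))))])) .nil .nil .nil .nil .nil)
  .nil .nil .nil .nil) .nil .nil) .nil) (.br (.br .nil .nil .nil .nil .nil (.ov [(true, (g (c (g (b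
  e)))))])) .nil .nil .nil .nil (.ba b_gcg)) (.br (.br .nil .nil .nil .nil .nil (.ov [(true, (g (a
  (g (d e)))))])) (.br (.br .nil .nil .nil .nil .nil (.ov [(true, (g (a (b (g (d e))))))])) .nil
  .nil .nil (.br .nil (.br .nil .nil .nil (.br (.br .nil .nil .nil .nil .nil (.ov [(true, (g (a (d
  (b (f (b (g (d e)))))))))])) .nil .nil .nil .nil .nil) .nil .nil) .nil (.br (.br .nil .nil .nil
  .nil .nil (.ov [(true, (g (a (d (f (b (g (d e))))))))])) .nil .nil .nil .nil .nil) .nil .nil)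
  .nil) (.br (.br .nil .nil .nil .nil .nil (.ov [(true, (g (a (c (g (d e))))))])) .nil .nil .nil
  .nil .nil) .nil (.br .nil (.br (.br .nil .nil .nil .nil .nil (.ov [(true, (g (a (b (f (g (d
  e)))))))])) .nil .nil (.br (.br .nil .nil .nil .nil .nil (.ov [(true, (g (a (d (b (f (g (d
  e))))))))])) .nil .nil .nil .nil .nil) .nil .nil) (.br (.br .nil .nil .nil .nil .nil (.ov [(true,
  (g (a (c (f (g (d e)))))))])) .nil .nil .nil .nil .nil) (.br (.br .nil .nil .nil .nil .nil (.ov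
  [(true, (g (a (d (f (g (d e)))))))])) (.br (.br .nil .nil .nil .nil .nil (.ov [(true, (g (a (b (d
  (f (g (d e))))))))])) .nil .nil .nil .nil .nil) (.br (.br .nil .nil .nil .nil .nil (.ov [(true, (g
  (a (c (d (f (g (d e))))))))])) .nil .nil .nil .nil .nil) .nil .nil .nil) .nil .nil) .nil) (.br
  .nil (.br (.br .nil .nil .nil .nil .nil (.ov [(true, (g (a (b (g (f e))))))])) .nil .nil (.br (.br
  .nil .nil .nil .nil .nil (.ov [(true, (g (a (d (b (g (f e)))))))])) .nil .nil .nil .nil .nil) .nil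
  .nil) (.br (.br .nil .nil .nil .nil .nil (.ov [(true, (g (a (c (g (f e))))))])) .nil .nil .nil
  .nil .nil) (.br (.br .nil .nil .nil .nil .nil (.ov [(true, (g (a (d (g (f e))))))])) (.br (.br
  .nil .nil .nil .nil .nil (.ov [(true, (g (a (b (d (g (f e)))))))])) .nil .nil .nil .nil .nil) (.br
  (.br .nil .nil .nil .nil .nil (.ov [(true, (g (a (c (d (g (f e)))))))])) .nil .nil .nil .nil .nil)
  .nil .nil .nil) .nil .nil) .nil)

/-- The data of the graph. -/
noncomputable def D : GD where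
  st := fun k => L.rec (motive := fun _ => S) S.s16 S.s36 S.s13 S.s46 S.s26 S.s15 k
  nx := fun _ s => s
  em := fun _ _ => Sg.no
  tab := fun k => L.rec (motive := fun _ => R) Ra Rb Rc Rd Rf Rg k

/-- The letters. -/
noncomputable def tc (k : L) : H387C.L := L.rec (motive := fun _ => H387C.L) .a16 .a36 .a13 .a46 .a26 .a15 k

def t0 : List Tm := [t true 1 (d (b (d (a (f (g (a (d (b (d (a (f (g (a e)))))))))))))), t false 1
  (d (b (a (f (g (a (d (b (d (a (f (g (a (b e)))))))))))))), t true 1 (d (a (f (g (a (d (b (d (a (f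
  (g (a (d (b e)))))))))))))), t true 1 (b (d (a (f (g (a (d (b (d (a (f (g (a (d e)))))))))))))), t
  false 1 (b (a (f (g (a (d (b (d (a (f (g (a (b (d e)))))))))))))), t true 1 (f (a (d (b (d (a (f
  (g (a (d (b (d (a (g e)))))))))))))), t true 1 (f (g (a (d (b (d (a (f (g (a (d (b (d (a
  e)))))))))))))), t false 1 (a (d (b (d (f (g (a (d (b (d (a (f (g (a e)))))))))))))), t true 1 (a
  (d (b (d (a (f (g (a (d (b (d (a (f (g e)))))))))))))), t false 1 (a (f (g (a (d (b (d (a (f (d (b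
  (d (g (a e)))))))))))))), t true 1 (a (f (g (a (d (b (d (a (f (g (a (d (b (d e)))))))))))))), t
  true 1 (g (a (d (b (d (a (f (g (a (d (b (d (a (f e)))))))))))))), t false 1 (b (d (b (a (f (g (a
  (b (d (b (a (f (g (a e)))))))))))))), t true 1 (b (d (a (f (g (a (b (d (b (a (f (g (a (d
  e)))))))))))))), t false 1 (b (a (f (g (a (b (d (b (a (f (g (a (b (d e)))))))))))))), t false 1 (d
  (b (a (f (g (a (b (d (b (a (f (g (a (b e)))))))))))))), t true 1 (d (a (f (g (a (b (d (b (a (f (g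
  (a (d (b e)))))))))))))), t false 1 (f (a (b (d (b (a (f (g (a (b (d (b (a (g e)))))))))))))), t
  false 1 (f (g (a (b (d (b (a (f (g (a (b (d (b (a e)))))))))))))), t true 1 (a (b (d (b (f (g (a
  (b (d (b (a (f (g (a e)))))))))))))), t false 1 (a (b (d (b (a (f (g (a (b (d (b (a (f (g
  e)))))))))))))), t true 1 (a (f (g (a (b (d (b (a (f (b (d (b (g (a e)))))))))))))), t false 1 (a
  (f (g (a (b (d (b (a (f (g (a (b (d (b e)))))))))))))), t false 1 (g (a (b (d (b (a (f (g (a (b (d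
  (b (a (f e))))))))))))))]

def s0 : List (Bool × W) := []

def t1 : List Tm := [t true 1 (b (f (b (a (d (g (a (b (f (b (a (d (g (a e)))))))))))))), t false 1
  (b (f (a (d (g (a (b (f (b (a (d (g (a (f e)))))))))))))), t true 1 (b (a (d (g (a (b (f (b (a (d
  (g (a (b (f e)))))))))))))), t true 1 (f (b (a (d (g (a (b (f (b (a (d (g (a (b e)))))))))))))), t
  false 1 (f (a (d (g (a (b (f (b (a (d (g (a (f (b e)))))))))))))), t true 1 (d (a (b (f (b (a (d
  (g (a (b (f (b (a (g e)))))))))))))), t true 1 (d (g (a (b (f (b (a (d (g (a (b (f (b (a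
  e)))))))))))))), t false 1 (a (b (f (b (d (g (a (b (f (b (a (d (g (a e)))))))))))))), t true 1 (a
  (b (f (b (a (d (g (a (b (f (b (a (d (g e)))))))))))))), t false 1 (a (d (g (a (b (f (b (a (d (b (f
  (b (g (a e)))))))))))))), t true 1 (a (d (g (a (b (f (b (a (d (g (a (b (f (b e)))))))))))))), t
  true 1 (g (a (b (f (b (a (d (g (a (b (f (b (a (d e)))))))))))))), t false 1 (b (d (b (a (f (g (a
  (b (d (b (a (f (g (a e)))))))))))))), t true 1 (b (d (a (f (g (a (b (d (b (a (f (g (a (d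
  e)))))))))))))), t false 1 (b (a (f (g (a (b (d (b (a (f (g (a (b (d e)))))))))))))), t false 1 (d
  (b (a (f (g (a (b (d (b (a (f (g (a (b e)))))))))))))), t true 1 (d (a (f (g (a (b (d (b (a (f (g
  (a (d (b e)))))))))))))), t false 1 (f (a (b (d (b (a (f (g (a (b (d (b (a (g e)))))))))))))), t
  false 1 (f (g (a (b (d (b (a (f (g (a (b (d (b (a e)))))))))))))), t true 1 (a (b (d (b (f (g (a
  (b (d (b (a (f (g (a e)))))))))))))), t false 1 (a (b (d (b (a (f (g (a (b (d (b (a (f (g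
  e)))))))))))))), t true 1 (a (f (g (a (b (d (b (a (f (b (d (b (g (a e)))))))))))))), t false 1 (a
  (f (g (a (b (d (b (a (f (g (a (b (d (b e)))))))))))))), t false 1 (g (a (b (d (b (a (f (g (a (b (d
  (b (a (f e))))))))))))))]

def s1 : List (Bool × W) := [(false, (g (a (b (c (d (f (b (d (g (a (b (f (d (c e))))))))))))))),
  (true, (g (a (b (c (f (b (d (b (f (g (a (b (d (c e))))))))))))))), (true, (g (a (b (c (f (g (a (d
  (b (f (b (d (a (f e)))))))))))))))]

def t2 : List Tm := [t false 1 (f (d (f (a (f (d (f (c (a (g (a (c (a (g e)))))))))))))), t true 1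
  (f (d (f (a (c (a (f (d (f (g (a (c (a (g e)))))))))))))), t false 1 (f (d (f (a (c (g (a (f (d (f
  (a (g (c (a e)))))))))))))), t false 1 (f (d (f (a (g (a (c (a (f (d (f (g (a (c e)))))))))))))),
  t false 1 (f (d (f (c (a (g (a (c (a (f (d (f (g (a e)))))))))))))), t true 1 (f (d (a (f (d (f (c
  (a (g (a (c (a (d (g e)))))))))))))), t false 1 (f (d (a (f (c (a (g (a (c (a (d (f (g (a
  e)))))))))))))), t false 1 (f (d (a (d (f (c (a (g (a (c (a (d (g (a e)))))))))))))), t false 1 (f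
  (d (a (c (a (f (d (f (g (a (c (a (d (g e)))))))))))))), t true 1 (f (d (a (c (g (a (f (d (f (a (g
  (c (a (d e)))))))))))))), t true 1 (f (d (a (g (a (c (a (f (d (f (g (a (d (c e)))))))))))))), t
  true 1 (f (d (c (a (g (a (c (a (f (d (f (g (a (d e)))))))))))))), t false 1 (f (a (f (d (f (c (a
  (g (a (c (a (f (d (g e)))))))))))))), t false 1 (f (a (f (d (c (a (g (a (c (a (f (g (a (d
  e)))))))))))))), t true 1 (f (a (d (f (c (a (g (a (c (a (f (d (g (a e)))))))))))))), t false 1 (f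
  (a (d (c (a (g (a (c (a (f (d (g (a (d e)))))))))))))), t true 1 (f (a (c (a (f (d (f (g (a (c (a
  (f (d (g e)))))))))))))), t false 1 (f (a (c (g (a (f (d (f (a (g (c (a (f (d e)))))))))))))), t
  false 1 (f (a (g (a (c (a (f (d (f (g (a (f (d (c e)))))))))))))), t false 1 (f (c (a (g (a (c (a
  (f (d (f (g (a (f (d e)))))))))))))), t false 1 (d (f (a (f (d (f (c (a (g (a (c (a (f (g
  e)))))))))))))), t false 1 (d (f (a (f (d (c (a (g (a (c (a (f (g (a e)))))))))))))), t true 1 (d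
  (f (a (c (a (f (d (f (g (a (c (a (f (g e)))))))))))))), t false 1 (d (f (a (c (g (a (f (d (f (a (g
  (c (a (f e)))))))))))))), t false 1 (d (f (a (g (a (c (a (f (d (f (g (a (f (c e)))))))))))))), t
  false 1 (d (f (c (a (g (a (c (a (f (d (f (g (a (f e)))))))))))))), t true 1 (d (a (f (d (f (c (a
  (g (a (c (a (d (f (g e)))))))))))))), t false 1 (d (a (f (c (a (g (a (c (a (d (f (g (a (f
  e)))))))))))))), t false 1 (d (a (d (f (c (a (g (a (c (a (d (g (a (f e)))))))))))))), t false 1 (d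
  (a (c (a (f (d (f (g (a (c (a (d (f (g e)))))))))))))), t true 1 (d (a (c (g (a (f (d (f (a (g (c
  (a (d (f e)))))))))))))), t true 1 (d (a (g (a (c (a (f (d (f (g (a (d (f (c e)))))))))))))), t
  true 1 (d (c (a (g (a (c (a (f (d (f (g (a (d (f e)))))))))))))), t false 1 (a (f (d (f (a (c (g
  (a (f (d (f (a (g (c e)))))))))))))), t false 1 (a (f (d (f (a (g (c (a (f (d (f (a (c (g
  e)))))))))))))), t false 1 (a (f (d (f (c (a (g (a (c (a (f (d (f (g e)))))))))))))), t true 1 (a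
  (f (d (f (g (c (a (f (d (f (a (c (g (a e)))))))))))))), t false 1 (a (f (d (c (a (g (a (c (a (f (g
  (a (d (f e)))))))))))))), t false 1 (a (f (c (a (g (a (c (a (d (f (g (a (f (d e)))))))))))))), t
  true 1 (a (d (f (c (a (g (a (c (a (f (d (g (a (f e)))))))))))))), t false 1 (a (d (c (a (g (a (c
  (a (f (d (g (a (d (f e)))))))))))))), t true 1 (a (c (a (f (d (f (g (a (c (a (f (d (f (g
  e)))))))))))))), t false 1 (a (c (g (a (f (d (f (a (g (c (a (f (d (f e)))))))))))))), t false 1 (a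
  (g (a (c (a (f (d (f (g (a (f (d (f (c e)))))))))))))), t false 1 (c (a (f (d (f (a (c (g (a (f (d
  (f (a (g e)))))))))))))), t true 1 (c (a (f (d (f (g (a (c (a (f (d (f (g (a e)))))))))))))), t
  false 1 (c (a (g (a (c (a (f (d (f (g (a (f (d (f e)))))))))))))), t false 1 (c (g (a (f (d (f (a
  (g (c (a (f (d (f (a e)))))))))))))), t false 1 (g (a (f (d (f (a (g (c (a (f (d (f (a (c
  e)))))))))))))), t false 1 (g (a (c (a (f (d (f (g (a (f (d (f (c (a e)))))))))))))), t false 1 (b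
  (d (b (a (f (g (a (b (d (b (a (f (g (a e)))))))))))))), t true 1 (b (d (a (f (g (a (b (d (b (a (f
  (g (a (d e)))))))))))))), t false 1 (b (a (f (g (a (b (d (b (a (f (g (a (b (d e)))))))))))))), t
  false 1 (d (b (a (f (g (a (b (d (b (a (f (g (a (b e)))))))))))))), t true 1 (d (a (f (g (a (b (d
  (b (a (f (g (a (d (b e)))))))))))))), t false 1 (f (a (b (d (b (a (f (g (a (b (d (b (a (g
  e)))))))))))))), t false 1 (f (g (a (b (d (b (a (f (g (a (b (d (b (a e)))))))))))))), t true 1 (a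
  (b (d (b (f (g (a (b (d (b (a (f (g (a e)))))))))))))), t false 1 (a (b (d (b (a (f (g (a (b (d (b
  (a (f (g e)))))))))))))), t true 1 (a (f (g (a (b (d (b (a (f (b (d (b (g (a e)))))))))))))), t
  false 1 (a (f (g (a (b (d (b (a (f (g (a (b (d (b e)))))))))))))), t false 1 (g (a (b (d (b (a (f
  (g (a (b (d (b (a (f e))))))))))))))]

def s2 : List (Bool × W) := [(false, (g (a (b (c (d (f (b (d (g (a (b (f (d (c e))))))))))))))),
  (true, (g (a (b (c (d (f (g (a (d (b (f (d (a (f e)))))))))))))))]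

def t3 : List Tm := [t false 1 (c (g (c (a (c (g (c (f (a (d (a (f (a (d e)))))))))))))), t true 1
  (c (g (c (a (f (a (c (g (c (d (a (f (a (d e)))))))))))))), t false 1 (c (g (c (a (f (d (a (c (g (c
  (a (d (f (a e)))))))))))))), t false 1 (c (g (c (a (d (a (f (a (c (g (c (d (a (f e)))))))))))))),
  t false 1 (c (g (c (f (a (d (a (f (a (c (g (c (d (a e)))))))))))))), t true 1 (c (g (a (c (g (c (f
  (a (d (a (f (a (g (d e)))))))))))))), t false 1 (c (g (a (c (f (a (d (a (f (a (g (c (d (a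
  e)))))))))))))), t false 1 (c (g (a (g (c (f (a (d (a (f (a (g (d (a e)))))))))))))), t false 1 (c
  (g (a (f (a (c (g (c (d (a (f (a (g (d e)))))))))))))), t true 1 (c (g (a (f (d (a (c (g (c (a (d
  (f (a (g e)))))))))))))), t true 1 (c (g (a (d (a (f (a (c (g (c (d (a (g (f e)))))))))))))), t
  true 1 (c (g (f (a (d (a (f (a (c (g (c (d (a (g e)))))))))))))), t false 1 (c (a (c (g (c (f (a
  (d (a (f (a (c (g (d e)))))))))))))), t false 1 (c (a (c (g (f (a (d (a (f (a (c (d (a (g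
  e)))))))))))))), t true 1 (c (a (g (c (f (a (d (a (f (a (c (g (d (a e)))))))))))))), t false 1 (c
  (a (g (f (a (d (a (f (a (c (g (d (a (g e)))))))))))))), t true 1 (c (a (f (a (c (g (c (d (a (f (a
  (c (g (d e)))))))))))))), t false 1 (c (a (f (d (a (c (g (c (a (d (f (a (c (g e)))))))))))))), t
  false 1 (c (a (d (a (f (a (c (g (c (d (a (c (g (f e)))))))))))))), t false 1 (c (f (a (d (a (f (a
  (c (g (c (d (a (c (g e)))))))))))))), t false 1 (g (c (a (c (g (c (f (a (d (a (f (a (c (d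
  e)))))))))))))), t false 1 (g (c (a (c (g (f (a (d (a (f (a (c (d (a e)))))))))))))), t true 1 (g
  (c (a (f (a (c (g (c (d (a (f (a (c (d e)))))))))))))), t false 1 (g (c (a (f (d (a (c (g (c (a (d
  (f (a (c e)))))))))))))), t false 1 (g (c (a (d (a (f (a (c (g (c (d (a (c (f e)))))))))))))), t
  false 1 (g (c (f (a (d (a (f (a (c (g (c (d (a (c e)))))))))))))), t true 1 (g (a (c (g (c (f (a
  (d (a (f (a (g (c (d e)))))))))))))), t false 1 (g (a (c (f (a (d (a (f (a (g (c (d (a (c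
  e)))))))))))))), t false 1 (g (a (g (c (f (a (d (a (f (a (g (d (a (c e)))))))))))))), t false 1 (g
  (a (f (a (c (g (c (d (a (f (a (g (c (d e)))))))))))))), t true 1 (g (a (f (d (a (c (g (c (a (d (f
  (a (g (c e)))))))))))))), t true 1 (g (a (d (a (f (a (c (g (c (d (a (g (c (f e)))))))))))))), t
  true 1 (g (f (a (d (a (f (a (c (g (c (d (a (g (c e)))))))))))))), t false 1 (a (c (g (c (a (f (d
  (a (c (g (c (a (d (f e)))))))))))))), t false 1 (a (c (g (c (a (d (f (a (c (g (c (a (f (d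
  e)))))))))))))), t false 1 (a (c (g (c (f (a (d (a (f (a (c (g (c (d e)))))))))))))), t true 1 (a
  (c (g (c (d (f (a (c (g (c (a (f (d (a e)))))))))))))), t false 1 (a (c (g (f (a (d (a (f (a (c (d
  (a (g (c e)))))))))))))), t false 1 (a (c (f (a (d (a (f (a (g (c (d (a (c (g e)))))))))))))), t
  true 1 (a (g (c (f (a (d (a (f (a (c (g (d (a (c e)))))))))))))), t false 1 (a (g (f (a (d (a (f
  (a (c (g (d (a (g (c e)))))))))))))), t true 1 (a (f (a (c (g (c (d (a (f (a (c (g (c (d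
  e)))))))))))))), t false 1 (a (f (d (a (c (g (c (a (d (f (a (c (g (c e)))))))))))))), t false 1 (a
  (d (a (f (a (c (g (c (d (a (c (g (c (f e)))))))))))))), t false 1 (f (a (c (g (c (a (f (d (a (c (g
  (c (a (d e)))))))))))))), t true 1 (f (a (c (g (c (d (a (f (a (c (g (c (d (a e)))))))))))))), t
  false 1 (f (a (d (a (f (a (c (g (c (d (a (c (g (c e)))))))))))))), t false 1 (f (d (a (c (g (c (a
  (d (f (a (c (g (c (a e)))))))))))))), t false 1 (d (a (c (g (c (a (d (f (a (c (g (c (a (f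
  e)))))))))))))), t false 1 (d (a (f (a (c (g (c (d (a (c (g (c (f (a e)))))))))))))), t true 1 (f
  (d (f (a (f (d (f (c (a (g (a (c (a (g e)))))))))))))), t false 1 (f (d (f (a (c (a (f (d (f (g (a
  (c (a (g e)))))))))))))), t true 1 (f (d (f (a (c (g (a (f (d (f (a (g (c (a e)))))))))))))), t
  true 1 (f (d (f (a (g (a (c (a (f (d (f (g (a (c e)))))))))))))), t true 1 (f (d (f (c (a (g (a (c
  (a (f (d (f (g (a e)))))))))))))), t false 1 (f (d (a (f (d (f (c (a (g (a (c (a (d (g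
  e)))))))))))))), t true 1 (f (d (a (f (c (a (g (a (c (a (d (f (g (a e)))))))))))))), t true 1 (f
  (d (a (d (f (c (a (g (a (c (a (d (g (a e)))))))))))))), t true 1 (f (d (a (c (a (f (d (f (g (a (c
  (a (d (g e)))))))))))))), t false 1 (f (d (a (c (g (a (f (d (f (a (g (c (a (d e)))))))))))))), t
  false 1 (f (d (a (g (a (c (a (f (d (f (g (a (d (c e)))))))))))))), t false 1 (f (d (c (a (g (a (c
  (a (f (d (f (g (a (d e)))))))))))))), t true 1 (f (a (f (d (f (c (a (g (a (c (a (f (d (g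
  e)))))))))))))), t true 1 (f (a (f (d (c (a (g (a (c (a (f (g (a (d e)))))))))))))), t false 1 (f
  (a (d (f (c (a (g (a (c (a (f (d (g (a e)))))))))))))), t true 1 (f (a (d (c (a (g (a (c (a (f (d
  (g (a (d e)))))))))))))), t false 1 (f (a (c (a (f (d (f (g (a (c (a (f (d (g e)))))))))))))), t
  true 1 (f (a (c (g (a (f (d (f (a (g (c (a (f (d e)))))))))))))), t true 1 (f (a (g (a (c (a (f (d
  (f (g (a (f (d (c e)))))))))))))), t true 1 (f (c (a (g (a (c (a (f (d (f (g (a (f (d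
  e)))))))))))))), t true 1 (d (f (a (f (d (f (c (a (g (a (c (a (f (g e)))))))))))))), t true 1 (d
  (f (a (f (d (c (a (g (a (c (a (f (g (a e)))))))))))))), t false 1 (d (f (a (c (a (f (d (f (g (a (c
  (a (f (g e)))))))))))))), t true 1 (d (f (a (c (g (a (f (d (f (a (g (c (a (f e)))))))))))))), t
  true 1 (d (f (a (g (a (c (a (f (d (f (g (a (f (c e)))))))))))))), t true 1 (d (f (c (a (g (a (c (a
  (f (d (f (g (a (f e)))))))))))))), t false 1 (d (a (f (d (f (c (a (g (a (c (a (d (f (g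
  e)))))))))))))), t true 1 (d (a (f (c (a (g (a (c (a (d (f (g (a (f e)))))))))))))), t true 1 (d
  (a (d (f (c (a (g (a (c (a (d (g (a (f e)))))))))))))), t true 1 (d (a (c (a (f (d (f (g (a (c (a
  (d (f (g e)))))))))))))), t false 1 (d (a (c (g (a (f (d (f (a (g (c (a (d (f e)))))))))))))), t
  false 1 (d (a (g (a (c (a (f (d (f (g (a (d (f (c e)))))))))))))), t false 1 (d (c (a (g (a (c (a
  (f (d (f (g (a (d (f e)))))))))))))), t true 1 (a (f (d (f (a (c (g (a (f (d (f (a (g (c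
  e)))))))))))))), t true 1 (a (f (d (f (a (g (c (a (f (d (f (a (c (g e)))))))))))))), t true 1 (a
  (f (d (f (c (a (g (a (c (a (f (d (f (g e)))))))))))))), t false 1 (a (f (d (f (g (c (a (f (d (f (a
  (c (g (a e)))))))))))))), t true 1 (a (f (d (c (a (g (a (c (a (f (g (a (d (f e)))))))))))))), t
  true 1 (a (f (c (a (g (a (c (a (d (f (g (a (f (d e)))))))))))))), t false 1 (a (d (f (c (a (g (a
  (c (a (f (d (g (a (f e)))))))))))))), t true 1 (a (d (c (a (g (a (c (a (f (d (g (a (d (f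
  e)))))))))))))), t false 1 (a (c (a (f (d (f (g (a (c (a (f (d (f (g e)))))))))))))), t true 1 (a
  (c (g (a (f (d (f (a (g (c (a (f (d (f e)))))))))))))), t true 1 (a (g (a (c (a (f (d (f (g (a (f
  (d (f (c e)))))))))))))), t true 1 (c (a (f (d (f (a (c (g (a (f (d (f (a (g e)))))))))))))), t
  false 1 (c (a (f (d (f (g (a (c (a (f (d (f (g (a e)))))))))))))), t true 1 (c (a (g (a (c (a (f
  (d (f (g (a (f (d (f e)))))))))))))), t true 1 (c (g (a (f (d (f (a (g (c (a (f (d (f (a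
  e)))))))))))))), t true 1 (g (a (f (d (f (a (g (c (a (f (d (f (a (c e)))))))))))))), t true 1 (g
  (a (c (a (f (d (f (g (a (f (d (f (c (a e))))))))))))))]

def s3 : List (Bool × W) := []

end H387E.X1
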