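import Pool.Agent.helper387_fk.EEngine

/-!
Rules for the graph with edges 16, 15, 35, 36, 46, 26, with certificates (generated by a program).
-/

namespace H387E.X2

open H387FK (S Sg)
open H387G
open W Tm

def b_aa : List H387C.It := [
  .sq true [] .a16 []]

def b_bb : List H387C.It := [
  .sq true [] .a15 []]

def b_ca : List H387C.It := [
  .cm false [] .a16 .a35 []]

def b_cc : List H387C.It := [
  .sq true [] .a35 []]

def b_db : List H387C.It := [
  .cm false [] .a15 .a36 []]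

def b_dd : List H387C.It := [
  .sq true [] .a36 []]

def b_fb : List H387C.It := [
  .cm false [] .a15 .a46 []]

def b_fc : List H387C.It := [
  .cm false [] .a35 .a46 []]

def b_ff : List H387C.It := [
  .sq true [] .a46 []]

def b_gb : List H387C.It := [
  .cm false [] .a15 .a26 []]

def b_gc : List H387C.It := [
  .cm true [] .a26 .a35 []]

def b_bab : List H387C.It := [
  .sq true [] .a15 [.a56],
  .t1 false [] .a15 .a56 .a16 [.a16],
  .t1 false [.a15] .a15 .a56 .a16 [],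
  .sq false [.a56] .a16 []]

def b_cbc : List H387C.It := [
  .sq false [] .a15 [.a13],
  .t1 false [] .a13 .a35 .a15 [.a35],
  .sq true [.a13] .a35 [],
  .t1 false [.a15] .a13 .a35 .a15 []]

def b_dab : List H387C.It := [
  .cm false [] .a16 .a35 [.a13],
  .t2 false [] .a13 .a35 .a15 [.a36],
  .t1 false [] .a13 .a36 .a16 [.a15],
  .cm false [.a13] .a15 .a36 [],
  .t2 true [.a16] .a13 .a35 .a15 [],
  .t1 true [.a35] .a13 .a36 .a16 []]

def b_dad : List H387C.It := [
  .sq false [] .a16 [.a13],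
  .t1 false [] .a13 .a36 .a16 [.a36],
  .sq true [.a13] .a36 [],
  .t1 false [.a16] .a13 .a36 .a16 []]

def b_dcb : List H387C.It := [
  .cm true [] .a15 .a36 [.a13],
  .t1 true [] .a13 .a35 .a15 [.a16],
  .t2 true [] .a13 .a36 .a16 [.a35],
  .cm true [.a13] .a16 .a35 [],
  .t2 false [.a15] .a13 .a36 .a16 [],
  .t1 false [.a36] .a13 .a35 .a15 []]

def b_dcd : List H387C.It := [
  .sq true [] .a35 [.a56],
  .t1 false [] .a35 .a56 .a36 [.a36],
  .t1 false [.a35] .a35 .a56 .a36 [],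
  .sq false [.a56] .a36 []]

def b_faf : List H387C.It := [
  .sq false [] .a16 [.a14],
  .t1 false [] .a14 .a46 .a16 [.a46],
  .sq true [.a14] .a46 [],
  .t1 false [.a16] .a14 .a46 .a16 []]

def b_fdf : List H387C.It := [
  .sq false [] .a36 [.a34],
  .t1 false [] .a34 .a46 .a36 [.a46],
  .sq true [.a34] .a46 [],
  .t1 false [.a36] .a34 .a46 .a36 []]

def b_gag : List H387C.It := [
  .sq false [] .a16 [.a12],
  .t1 false [] .a12 .a26 .a16 [.a26],
  .sq true [.a12] .a26 [],
  .t1 false [.a16] .a12 .a26 .a16 []]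

def b_gdg : List H387C.It := [
  .sq false [] .a26 [.a23],
  .t1 false [] .a23 .a36 .a26 [.a36],
  .sq true [.a23] .a36 [],
  .t1 false [.a26] .a23 .a36 .a26 []]

def b_dacd : List H387C.It := [
  .sq false [] .a15 [.a56, .a13],
  .t1 false [] .a13 .a35 .a15 [.a36, .a35],
  .t1 false [] .a13 .a36 .a16 [.a35, .a36],
  .t1 true [] .a15 .a56 .a16 [.a16, .a13],
  .sq true [.a13] .a35 [.a56],
  .t1 false [.a13] .a35 .a56 .a36 [.a36],
  .t1 false [.a13, .a35] .a35 .a56 .a36 [],
  .sq false [.a13, .a56] .a36 [],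
  .t1 false [.a15] .a13 .a36 .a16 [.a35],
  .t1 true [.a15] .a15 .a56 .a16 [.a13],
  .t1 false [.a15, .a16] .a13 .a35 .a15 [],
  .t1 false [.a16] .a13 .a35 .a15 [.a36],
  .t1 false [.a16, .a15] .a13 .a36 .a16 [],
  .sq true [.a56] .a16 [.a13]]

def b_fadf : List H387C.It := [
  .sq false [] .a36 [.a34, .a13],
  .cm false [] .a46 .a13 [.a16, .a46],
  .t2 false [] .a13 .a36 .a16 [.a46, .a16],
  .t1 false [] .a34 .a46 .a36 [.a46, .a13],
  .cm false [.a36] .a46 .a13 [.a16],
  .t1 false [.a36] .a34 .a46 .a36 [.a13],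
  .t2 false [.a36, .a46] .a13 .a36 .a16 [],
  .t2 false [.a46] .a13 .a36 .a16 [.a46],
  .cm false [.a46, .a36] .a46 .a13 [],
  .sq true [.a13] .a16 [.a14],
  .t1 true [.a13] .a14 .a46 .a16 [.a46],
  .t1 true [.a13, .a16] .a14 .a46 .a16 [],
  .sq false [.a13, .a14] .a46 [],
  .sq true [.a34] .a46 [.a13]]

def b_fdaf : List H387C.It := [
  .sq false [] .a36 [.a34, .a14],
  .cm false [] .a36 .a14 [.a16, .a36],
  .t2 false [] .a14 .a46 .a16 [.a36, .a16],
  .t1 false [] .a34 .a46 .a36 [.a46, .a14],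
  .t2 false [.a36] .a14 .a46 .a16 [.a36],
  .t1 false [.a36] .a34 .a46 .a36 [.a14],
  .cm false [.a36, .a46] .a36 .a14 [],
  .cm false [.a46] .a36 .a14 [.a16],
  .t2 false [.a46, .a36] .a14 .a46 .a16 [],
  .sq true [.a14] .a16 [.a13],
  .t1 true [.a14] .a13 .a36 .a16 [.a36],
  .t1 true [.a14, .a16] .a13 .a36 .a16 [],
  .sq false [.a14, .a13] .a36 [],
  .sq true [.a34] .a46 [.a14]]

def b_gadg : List H387C.It := [
  .sq false [] .a26 [.a23, .a13],
  .cm false [] .a26 .a13 [.a16, .a26],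
  .t2 false [] .a13 .a36 .a16 [.a26, .a16],
  .t1 false [] .a23 .a36 .a26 [.a36, .a13],
  .t2 false [.a26] .a13 .a36 .a16 [.a26],
  .t1 false [.a26] .a23 .a36 .a26 [.a13],
  .cm false [.a26, .a36] .a26 .a13 [],
  .cm false [.a36] .a26 .a13 [.a16],
  .t2 false [.a36, .a26] .a13 .a36 .a16 [],
  .sq true [.a13] .a16 [.a12],
  .t1 true [.a13] .a12 .a26 .a16 [.a26],
  .t1 true [.a13, .a16] .a12 .a26 .a16 [],
  .sq false [.a13, .a12] .a26 [],
  .sq true [.a23] .a36 [.a13]]

def b_gafg : List H387C.It := [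
  .sq false [] .a26 [.a24, .a14],
  .cm false [] .a26 .a14 [.a16, .a26],
  .t2 false [] .a14 .a46 .a16 [.a26, .a16],
  .t1 false [] .a24 .a46 .a26 [.a46, .a14],
  .t2 false [.a26] .a14 .a46 .a16 [.a26],
  .t1 false [.a26] .a24 .a46 .a26 [.a14],
  .cm false [.a26, .a46] .a26 .a14 [],
  .cm false [.a46] .a26 .a14 [.a16],
  .t2 false [.a46, .a26] .a14 .a46 .a16 [],
  .sq true [.a14] .a16 [.a12],
  .t1 true [.a14] .a12 .a26 .a16 [.a26],
  .t1 true [.a14, .a16] .a12 .a26 .a16 [],
  .sq false [.a14, .a12] .a26 [],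
  .sq true [.a24] .a46 [.a14]]

def b_gdag : List H387C.It := [
  .sq false [] .a26 [.a23, .a12],
  .cm false [] .a36 .a12 [.a16, .a36],
  .t2 false [] .a12 .a26 .a16 [.a36, .a16],
  .t1 false [] .a23 .a36 .a26 [.a36, .a12],
  .cm false [.a26] .a36 .a12 [.a16],
  .t1 false [.a26] .a23 .a36 .a26 [.a12],
  .t2 false [.a26, .a36] .a12 .a26 .a16 [],
  .t2 false [.a36] .a12 .a26 .a16 [.a36],
  .cm false [.a36, .a26] .a36 .a12 [],
  .sq true [.a12] .a16 [.a13],
  .t1 true [.a12] .a13 .a36 .a16 [.a36],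
  .t1 true [.a12, .a16] .a13 .a36 .a16 [],
  .sq false [.a12, .a13] .a36 [],
  .sq true [.a23] .a36 [.a12]]

def b_gdfg : List H387C.It := [
  .sq false [] .a36 [.a34, .a23],
  .cm false [] .a46 .a23 [.a26, .a46],
  .t2 false [] .a23 .a36 .a26 [.a46, .a26],
  .t1 false [] .a34 .a46 .a36 [.a46, .a23],
  .cm false [.a36] .a46 .a23 [.a26],
  .t1 false [.a36] .a34 .a46 .a36 [.a23],
  .t2 false [.a36, .a46] .a23 .a36 .a26 [],
  .t2 false [.a46] .a23 .a36 .a26 [.a46],
  .cm false [.a46, .a36] .a46 .a23 [],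
  .sq true [.a23] .a26 [.a24],
  .t1 true [.a23] .a24 .a46 .a26 [.a46],
  .t1 true [.a23, .a26] .a24 .a46 .a26 [],
  .sq false [.a23, .a24] .a46 [],
  .sq true [.a34] .a46 [.a23]]

def b_gfag : List H387C.It := [
  .sq false [] .a26 [.a24, .a12],
  .cm false [] .a46 .a12 [.a16, .a46],
  .t2 false [] .a12 .a26 .a16 [.a46, .a16],
  .t1 false [] .a24 .a46 .a26 [.a46, .a12],
  .cm false [.a26] .a46 .a12 [.a16],
  .t1 false [.a26] .a24 .a46 .a26 [.a12],
  .t2 false [.a26, .a46] .a12 .a26 .a16 [],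
  .t2 false [.a46] .a12 .a26 .a16 [.a46],
  .cm false [.a46, .a26] .a46 .a12 [],
  .sq true [.a12] .a16 [.a14],
  .t1 true [.a12] .a14 .a46 .a16 [.a46],
  .t1 true [.a12, .a16] .a14 .a46 .a16 [],
  .sq false [.a12, .a14] .a46 [],
  .sq true [.a24] .a46 [.a12]]

def b_gfdg : List H387C.It := [
  .sq false [] .a36 [.a34, .a24],
  .cm false [] .a36 .a24 [.a26, .a36],
  .t2 false [] .a24 .a46 .a26 [.a36, .a26],
  .t1 false [] .a34 .a46 .a36 [.a46, .a24],
  .t2 false [.a36] .a24 .a46 .a26 [.a36],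
  .t1 false [.a36] .a34 .a46 .a36 [.a24],
  .cm false [.a36, .a46] .a36 .a24 [],
  .cm false [.a46] .a36 .a24 [.a26],
  .t2 false [.a46, .a36] .a24 .a46 .a26 [],
  .sq true [.a24] .a26 [.a23],
  .t1 true [.a24] .a23 .a36 .a26 [.a36],
  .t1 true [.a24, .a26] .a23 .a36 .a26 [],
  .sq false [.a24, .a23] .a36 [],
  .sq true [.a34] .a46 [.a24]]

def b_gadfg : List H387C.It := [
  .sq true [] .a36 [.a34, .a13, .a12],
  .cm true [] .a36 .a12 [.a46, .a26, .a36],
  .cm true [] .a46 .a12 [.a26, .a36, .a46],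
  .cm true [] .a46 .a13 [.a16, .a46, .a12],
  .t1 false [] .a12 .a26 .a16 [.a36, .a46, .a26],
  .t2 true [] .a13 .a36 .a16 [.a46, .a16, .a12],
  .t1 true [] .a34 .a46 .a36 [.a46, .a13, .a12],
  .cm true [.a16] .a36 .a12 [.a46, .a26],
  .cm true [.a16, .a36] .a46 .a12 [.a26],
  .t1 false [.a16, .a36, .a46] .a12 .a26 .a16 [],
  .cm true [.a36] .a46 .a12 [.a26, .a36],
  .cm true [.a36] .a46 .a13 [.a16, .a12],
  .t1 true [.a36] .a34 .a46 .a36 [.a13, .a12],
  .t1 false [.a36, .a46] .a12 .a26 .a16 [.a36],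
  .t2 true [.a36, .a46] .a13 .a36 .a16 [.a12],
  .cm true [.a36, .a46, .a16] .a36 .a12 [],
  .t1 false [.a46] .a12 .a26 .a16 [.a36, .a46],
  .t2 true [.a46] .a13 .a36 .a16 [.a46, .a12],
  .cm true [.a46, .a16] .a36 .a12 [.a46],
  .cm true [.a46, .a16, .a36] .a46 .a12 [],
  .cm true [.a46, .a36] .a46 .a13 [.a12],
  .sq false [.a12] .a36 [.a34, .a23],
  .cm false [.a12] .a46 .a23 [.a26, .a46],
  .t2 false [.a12] .a23 .a36 .a26 [.a46, .a26],
  .t1 false [.a12] .a34 .a46 .a36 [.a46, .a23],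
  .cm false [.a12, .a36] .a46 .a23 [.a26],
  .t1 false [.a12, .a36] .a34 .a46 .a36 [.a23],
  .t2 false [.a12, .a36, .a46] .a23 .a36 .a26 [],
  .t2 false [.a12, .a46] .a23 .a36 .a26 [.a46],
  .cm false [.a12, .a46, .a36] .a46 .a23 [],
  .sq true [.a12, .a23] .a26 [.a24],
  .t1 true [.a12, .a23] .a24 .a46 .a26 [.a46],
  .t1 true [.a12, .a23, .a26] .a24 .a46 .a26 [],
  .sq false [.a12, .a23, .a24] .a46 [],
  .sq true [.a12, .a34] .a46 [.a23],
  .sq false [.a13] .a16 [.a14, .a12],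
  .t1 false [.a13] .a14 .a46 .a16 [.a46, .a12],
  .t1 false [.a13, .a16] .a14 .a46 .a16 [.a12],
  .sq true [.a13, .a14] .a46 [.a12],
  .sq false [.a34] .a46 [.a13, .a12]]

def b_gafdg : List H387C.It := [
  .sq false [] .a36 [.a34, .a24, .a14],
  .cm false [] .a26 .a14 [.a16, .a36, .a26],
  .cm false [] .a36 .a14 [.a26, .a16, .a36],
  .cm false [] .a36 .a24 [.a26, .a36, .a14],
  .t2 false [] .a14 .a46 .a16 [.a36, .a26, .a16],
  .t2 false [] .a24 .a46 .a26 [.a36, .a26, .a14],
  .t1 false [] .a34 .a46 .a36 [.a46, .a24, .a14],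
  .t2 false [.a26] .a14 .a46 .a16 [.a36, .a26],
  .cm false [.a26, .a46] .a36 .a14 [.a26],
  .cm false [.a26, .a46, .a36] .a26 .a14 [],
  .cm false [.a36] .a26 .a14 [.a16, .a36],
  .t2 false [.a36] .a24 .a46 .a26 [.a36, .a14],
  .t1 false [.a36] .a34 .a46 .a36 [.a24, .a14],
  .t2 false [.a36, .a26] .a14 .a46 .a16 [.a36],
  .cm false [.a36, .a26, .a46] .a36 .a14 [],
  .cm false [.a36, .a46] .a36 .a24 [.a14],
  .cm false [.a46] .a36 .a14 [.a26, .a16],
  .cm false [.a46] .a36 .a24 [.a26, .a14],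
  .cm false [.a46, .a36] .a26 .a14 [.a16],
  .t2 false [.a46, .a36] .a24 .a46 .a26 [.a14],
  .t2 false [.a46, .a36, .a26] .a14 .a46 .a16 [],
  .sq true [.a14] .a26 [.a23, .a13],
  .cm true [.a14] .a26 .a13 [.a16, .a26],
  .t2 true [.a14] .a13 .a36 .a16 [.a26, .a16],
  .t1 true [.a14] .a23 .a36 .a26 [.a36, .a13],
  .t2 true [.a14, .a26] .a13 .a36 .a16 [.a26],
  .t1 true [.a14, .a26] .a23 .a36 .a26 [.a13],
  .cm true [.a14, .a26, .a36] .a26 .a13 [],
  .cm true [.a14, .a36] .a26 .a13 [.a16],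
  .t2 true [.a14, .a36, .a26] .a13 .a36 .a16 [],
  .sq false [.a14, .a13] .a16 [.a12],
  .t1 false [.a14, .a13] .a12 .a26 .a16 [.a26],
  .t1 false [.a14, .a13, .a16] .a12 .a26 .a16 [],
  .sq true [.a14, .a13, .a12] .a26 [],
  .sq false [.a14, .a23] .a36 [.a13],
  .sq true [.a24] .a26 [.a23, .a14],
  .t1 true [.a24] .a23 .a36 .a26 [.a36, .a14],
  .t1 true [.a24, .a26] .a23 .a36 .a26 [.a14],
  .sq false [.a24, .a23] .a36 [.a14],
  .sq true [.a34] .a46 [.a24, .a14]]

def b_gdafg : List H387C.It := [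
  .sq false [] .a36 [.a34, .a23, .a14],
  .cm false [] .a26 .a14 [.a36, .a16, .a26],
  .cm false [] .a36 .a14 [.a16, .a26, .a36],
  .cm false [] .a46 .a23 [.a26, .a46, .a14],
  .t2 false [] .a14 .a46 .a16 [.a26, .a36, .a16],
  .t2 false [] .a23 .a36 .a26 [.a46, .a26, .a14],
  .t1 false [] .a34 .a46 .a36 [.a46, .a23, .a14],
  .cm false [.a26] .a36 .a14 [.a16, .a26],
  .t2 false [.a26, .a36] .a14 .a46 .a16 [.a26],
  .cm false [.a26, .a36, .a46] .a26 .a14 [],
  .cm false [.a36] .a46 .a23 [.a26, .a14],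
  .t2 false [.a36] .a14 .a46 .a16 [.a26, .a36],
  .t1 false [.a36] .a34 .a46 .a36 [.a23, .a14],
  .cm false [.a36, .a46] .a26 .a14 [.a36],
  .t2 false [.a36, .a46] .a23 .a36 .a26 [.a14],
  .cm false [.a36, .a46, .a26] .a36 .a14 [],
  .cm false [.a46] .a26 .a14 [.a36, .a16],
  .t2 false [.a46] .a23 .a36 .a26 [.a46, .a14],
  .cm false [.a46, .a26] .a36 .a14 [.a16],
  .t2 false [.a46, .a26, .a36] .a14 .a46 .a16 [],
  .cm false [.a46, .a36] .a46 .a23 [.a14],
  .sq true [.a14] .a26 [.a23, .a12],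
  .cm true [.a14] .a36 .a12 [.a16, .a36],
  .t2 true [.a14] .a12 .a26 .a16 [.a36, .a16],
  .t1 true [.a14] .a23 .a36 .a26 [.a36, .a12],
  .cm true [.a14, .a26] .a36 .a12 [.a16],
  .t1 true [.a14, .a26] .a23 .a36 .a26 [.a12],
  .t2 true [.a14, .a26, .a36] .a12 .a26 .a16 [],
  .t2 true [.a14, .a36] .a12 .a26 .a16 [.a36],
  .cm true [.a14, .a36, .a26] .a36 .a12 [],
  .sq false [.a14, .a12] .a16 [.a13],
  .t1 false [.a14, .a12] .a13 .a36 .a16 [.a36],
  .t1 false [.a14, .a12, .a16] .a13 .a36 .a16 [],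
  .sq true [.a14, .a12, .a13] .a36 [],
  .sq false [.a14, .a23] .a36 [.a12],
  .sq true [.a23] .a26 [.a24, .a14],
  .t1 true [.a23] .a24 .a46 .a26 [.a46, .a14],
  .t1 true [.a23, .a26] .a24 .a46 .a26 [.a14],
  .sq false [.a23, .a24] .a46 [.a14],
  .sq true [.a34] .a46 [.a23, .a14]]

def b_gdfag : List H387C.It := [
  .sq false [] .a36 [.a34, .a23, .a12],
  .cm false [] .a36 .a12 [.a46, .a16, .a36],
  .cm false [] .a46 .a12 [.a16, .a36, .a46],
  .cm false [] .a46 .a23 [.a26, .a46, .a12],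
  .t2 false [] .a12 .a26 .a16 [.a36, .a46, .a16],
  .t2 false [] .a23 .a36 .a26 [.a46, .a26, .a12],
  .t1 false [] .a34 .a46 .a36 [.a46, .a23, .a12],
  .cm false [.a26] .a36 .a12 [.a46, .a16],
  .cm false [.a26, .a36] .a46 .a12 [.a16],
  .t2 false [.a26, .a36, .a46] .a12 .a26 .a16 [],
  .cm false [.a36] .a46 .a12 [.a16, .a36],
  .cm false [.a36] .a46 .a23 [.a26, .a12],
  .t1 false [.a36] .a34 .a46 .a36 [.a23, .a12],
  .t2 false [.a36, .a46] .a12 .a26 .a16 [.a36],
  .t2 false [.a36, .a46] .a23 .a36 .a26 [.a12],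
  .cm false [.a36, .a46, .a26] .a36 .a12 [],
  .t2 false [.a46] .a12 .a26 .a16 [.a36, .a46],
  .t2 false [.a46] .a23 .a36 .a26 [.a46, .a12],
  .cm false [.a46, .a26] .a36 .a12 [.a46],
  .cm false [.a46, .a26, .a36] .a46 .a12 [],
  .cm false [.a46, .a36] .a46 .a23 [.a12],
  .sq true [.a12] .a36 [.a34, .a13],
  .cm true [.a12] .a46 .a13 [.a16, .a46],
  .t2 true [.a12] .a13 .a36 .a16 [.a46, .a16],
  .t1 true [.a12] .a34 .a46 .a36 [.a46, .a13],
  .cm true [.a12, .a36] .a46 .a13 [.a16],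
  .t1 true [.a12, .a36] .a34 .a46 .a36 [.a13],
  .t2 true [.a12, .a36, .a46] .a13 .a36 .a16 [],
  .t2 true [.a12, .a46] .a13 .a36 .a16 [.a46],
  .cm true [.a12, .a46, .a36] .a46 .a13 [],
  .sq false [.a12, .a13] .a16 [.a14],
  .t1 false [.a12, .a13] .a14 .a46 .a16 [.a46],
  .t1 false [.a12, .a13, .a16] .a14 .a46 .a16 [],
  .sq true [.a12, .a13, .a14] .a46 [],
  .sq false [.a12, .a34] .a46 [.a13],
  .sq true [.a23] .a26 [.a24, .a12],
  .t1 true [.a23] .a24 .a46 .a26 [.a46, .a12],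
  .t1 true [.a23, .a26] .a24 .a46 .a26 [.a12],
  .sq false [.a23, .a24] .a46 [.a12],
  .sq true [.a34] .a46 [.a23, .a12]]

def b_gfadg : List H387C.It := [
  .sq false [] .a36 [.a34, .a13, .a24],
  .cm false [] .a16 .a24 [.a36, .a26, .a16],
  .cm false [] .a36 .a24 [.a26, .a16, .a36],
  .cm false [] .a46 .a13 [.a16, .a46, .a24],
  .t2 false [] .a13 .a36 .a16 [.a46, .a16, .a24],
  .t2 false [] .a24 .a46 .a26 [.a16, .a36, .a26],
  .t1 false [] .a34 .a46 .a36 [.a46, .a13, .a24],
  .cm false [.a16] .a36 .a24 [.a26, .a16],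
  .t2 false [.a16, .a36] .a24 .a46 .a26 [.a16],
  .cm false [.a16, .a36, .a46] .a16 .a24 [],
  .cm false [.a36] .a46 .a13 [.a16, .a24],
  .t2 false [.a36] .a24 .a46 .a26 [.a16, .a36],
  .t1 false [.a36] .a34 .a46 .a36 [.a13, .a24],
  .cm false [.a36, .a46] .a16 .a24 [.a36],
  .t2 false [.a36, .a46] .a13 .a36 .a16 [.a24],
  .cm false [.a36, .a46, .a16] .a36 .a24 [],
  .cm false [.a46] .a16 .a24 [.a36, .a26],
  .t2 false [.a46] .a13 .a36 .a16 [.a46, .a24],
  .cm false [.a46, .a16] .a36 .a24 [.a26],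
  .t2 false [.a46, .a16, .a36] .a24 .a46 .a26 [],
  .cm false [.a46, .a36] .a46 .a13 [.a24],
  .sq true [.a13] .a16 [.a14, .a24],
  .t1 true [.a13] .a14 .a46 .a16 [.a46, .a24],
  .t1 true [.a13, .a16] .a14 .a46 .a16 [.a24],
  .sq false [.a13, .a14] .a46 [.a24],
  .sq true [.a24] .a26 [.a23, .a13],
  .cm true [.a24] .a26 .a13 [.a16, .a26],
  .t2 true [.a24] .a13 .a36 .a16 [.a26, .a16],
  .t1 true [.a24] .a23 .a36 .a26 [.a36, .a13],
  .t2 true [.a24, .a26] .a13 .a36 .a16 [.a26],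
  .t1 true [.a24, .a26] .a23 .a36 .a26 [.a13],
  .cm true [.a24, .a26, .a36] .a26 .a13 [],
  .cm true [.a24, .a36] .a26 .a13 [.a16],
  .t2 true [.a24, .a36, .a26] .a13 .a36 .a16 [],
  .sq false [.a24, .a13] .a16 [.a12],
  .t1 false [.a24, .a13] .a12 .a26 .a16 [.a26],
  .t1 false [.a24, .a13, .a16] .a12 .a26 .a16 [],
  .sq true [.a24, .a13, .a12] .a26 [],
  .sq false [.a24, .a23] .a36 [.a13],
  .sq true [.a34] .a46 [.a13, .a24]]

def b_gfdag : List H387C.It := [
  .sq false [] .a36 [.a34, .a14, .a24],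
  .cm false [] .a16 .a24 [.a26, .a36, .a16],
  .cm false [] .a36 .a14 [.a16, .a36, .a24],
  .cm false [] .a36 .a24 [.a16, .a26, .a36],
  .t2 false [] .a14 .a46 .a16 [.a36, .a16, .a24],
  .t2 false [] .a24 .a46 .a26 [.a36, .a16, .a26],
  .t1 false [] .a34 .a46 .a36 [.a46, .a14, .a24],
  .t2 false [.a16] .a24 .a46 .a26 [.a36, .a16],
  .cm false [.a16, .a46] .a36 .a24 [.a16],
  .cm false [.a16, .a46, .a36] .a16 .a24 [],
  .cm false [.a36] .a16 .a24 [.a26, .a36],
  .t2 false [.a36] .a14 .a46 .a16 [.a36, .a24],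
  .t1 false [.a36] .a34 .a46 .a36 [.a14, .a24],
  .t2 false [.a36, .a16] .a24 .a46 .a26 [.a36],
  .cm false [.a36, .a16, .a46] .a36 .a24 [],
  .cm false [.a36, .a46] .a36 .a14 [.a24],
  .cm false [.a46] .a36 .a14 [.a16, .a24],
  .cm false [.a46] .a36 .a24 [.a16, .a26],
  .cm false [.a46, .a36] .a16 .a24 [.a26],
  .t2 false [.a46, .a36] .a14 .a46 .a16 [.a24],
  .t2 false [.a46, .a36, .a16] .a24 .a46 .a26 [],
  .sq true [.a14] .a16 [.a13, .a24],
  .t1 true [.a14] .a13 .a36 .a16 [.a36, .a24],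
  .t1 true [.a14, .a16] .a13 .a36 .a16 [.a24],
  .sq false [.a14, .a13] .a36 [.a24],
  .sq true [.a24] .a26 [.a23, .a12],
  .cm true [.a24] .a36 .a12 [.a16, .a36],
  .t2 true [.a24] .a12 .a26 .a16 [.a36, .a16],
  .t1 true [.a24] .a23 .a36 .a26 [.a36, .a12],
  .cm true [.a24, .a26] .a36 .a12 [.a16],
  .t1 true [.a24, .a26] .a23 .a36 .a26 [.a12],
  .t2 true [.a24, .a26, .a36] .a12 .a26 .a16 [],
  .t2 true [.a24, .a36] .a12 .a26 .a16 [.a36],
  .cm true [.a24, .a36, .a26] .a36 .a12 [],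
  .sq false [.a24, .a12] .a16 [.a13],
  .t1 false [.a24, .a12] .a13 .a36 .a16 [.a36],
  .t1 false [.a24, .a12, .a16] .a13 .a36 .a16 [],
  .sq true [.a24, .a12, .a13] .a36 [],
  .sq false [.a24, .a23] .a36 [.a12],
  .sq true [.a34] .a46 [.a14, .a24]]

def b_gdafag : List H387C.It := [
  .sq false [] .a26 [.a23, .a16, .a46, .a16],
  .sq false [] .a36 [.a34, .a23, .a14, .a12],
  .cm false [] .a26 .a14 [.a36, .a16, .a26, .a12],
  .cm false [] .a36 .a12 [.a26, .a46, .a16, .a36],
  .cm false [] .a36 .a14 [.a16, .a26, .a36, .a12],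
  .cm false [] .a46 .a12 [.a16, .a36, .a26, .a46],
  .cm false [] .a46 .a23 [.a26, .a46, .a14, .a12],
  .t1 true [] .a12 .a26 .a16 [.a46, .a16, .a36, .a26],
  .t2 false [] .a12 .a26 .a16 [.a36, .a26, .a46, .a16],
  .t2 false [] .a14 .a46 .a16 [.a26, .a36, .a16, .a12],
  .t1 false [] .a23 .a36 .a26 [.a36, .a16, .a46, .a16],
  .t2 false [] .a23 .a36 .a26 [.a46, .a26, .a14, .a12],
  .t1 false [] .a34 .a46 .a36 [.a46, .a23, .a14, .a12],
  .sq true [.a16] .a26 [.a23, .a46, .a16],
  .cm false [.a16] .a46 .a12 [.a16, .a36, .a26],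
  .t1 true [.a16] .a23 .a36 .a26 [.a36, .a46, .a16],
  .t1 true [.a16, .a26] .a23 .a36 .a26 [.a46, .a16],
  .sq false [.a16, .a46] .a26 [.a23, .a16],
  .t2 false [.a16, .a46] .a12 .a26 .a16 [.a36, .a26],
  .t1 false [.a16, .a46] .a23 .a36 .a26 [.a36, .a16],
  .sq true [.a16, .a46, .a16] .a26 [.a23],
  .t1 true [.a16, .a46, .a16] .a23 .a36 .a26 [.a36],
  .t1 true [.a16, .a46, .a16, .a26] .a23 .a36 .a26 [],
  .sq false [.a16, .a46, .a16, .a23] .a36 [],
  .cm false [.a16, .a46, .a26] .a36 .a12 [.a26],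
  .t1 false [.a16, .a46, .a26] .a23 .a36 .a26 [.a16],
  .t1 true [.a16, .a46, .a26, .a36] .a12 .a26 .a16 [],
  .sq true [.a16, .a46, .a23] .a36 [.a16],
  .sq false [.a16, .a23] .a36 [.a46, .a16],
  .cm false [.a26] .a36 .a12 [.a26, .a46, .a16],
  .cm false [.a26] .a36 .a14 [.a16, .a26, .a12],
  .t1 false [.a26] .a23 .a36 .a26 [.a16, .a46, .a16],
  .t1 true [.a26, .a36] .a12 .a26 .a16 [.a46, .a16],
  .t2 false [.a26, .a36] .a14 .a46 .a16 [.a26, .a12],
  .cm false [.a26, .a36, .a16] .a46 .a12 [.a16],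
  .t2 false [.a26, .a36, .a16, .a46] .a12 .a26 .a16 [],
  .cm false [.a26, .a36, .a46] .a26 .a14 [.a12],
  .cm false [.a36] .a46 .a23 [.a26, .a14, .a12],
  .t1 true [.a36] .a12 .a26 .a16 [.a46, .a16, .a36],
  .t2 false [.a36] .a14 .a46 .a16 [.a26, .a36, .a12],
  .t1 false [.a36] .a34 .a46 .a36 [.a23, .a14, .a12],
  .cm false [.a36, .a16] .a46 .a12 [.a16, .a36],
  .t2 false [.a36, .a16, .a46] .a12 .a26 .a16 [.a36],
  .cm false [.a36, .a16, .a46, .a26] .a36 .a12 [],
  .cm false [.a36, .a46] .a26 .a14 [.a36, .a12],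
  .t2 false [.a36, .a46] .a23 .a36 .a26 [.a14, .a12],
  .cm false [.a36, .a46, .a26] .a36 .a14 [.a12],
  .sq false [.a46] .a26 [.a23, .a16, .a46],
  .cm false [.a46] .a26 .a14 [.a36, .a16, .a12],
  .t2 false [.a46] .a12 .a26 .a16 [.a36, .a26, .a46],
  .t1 false [.a46] .a23 .a36 .a26 [.a36, .a16, .a46],
  .t2 false [.a46] .a23 .a36 .a26 [.a46, .a14, .a12],
  .sq true [.a46, .a16] .a26 [.a23, .a46],
  .t1 true [.a46, .a16] .a23 .a36 .a26 [.a36, .a46],
  .t1 true [.a46, .a16, .a26] .a23 .a36 .a26 [.a46],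
  .sq false [.a46, .a16, .a23] .a36 [.a46],
  .cm false [.a46, .a26] .a36 .a12 [.a26, .a46],
  .cm false [.a46, .a26] .a36 .a14 [.a16, .a12],
  .t1 false [.a46, .a26] .a23 .a36 .a26 [.a16, .a46],
  .t1 true [.a46, .a26, .a36] .a12 .a26 .a16 [.a46],
  .t2 false [.a46, .a26, .a36] .a14 .a46 .a16 [.a12],
  .cm false [.a46, .a26, .a36, .a16] .a46 .a12 [],
  .cm false [.a46, .a36] .a46 .a23 [.a14, .a12],
  .sq true [.a46, .a23] .a36 [.a16, .a46],
  .sq true [.a12] .a36 [.a34, .a13, .a24],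
  .cm true [.a12] .a16 .a24 [.a36, .a26, .a16],
  .cm true [.a12] .a36 .a24 [.a26, .a16, .a36],
  .cm true [.a12] .a46 .a13 [.a16, .a46, .a24],
  .t2 true [.a12] .a13 .a36 .a16 [.a46, .a16, .a24],
  .t2 true [.a12] .a24 .a46 .a26 [.a16, .a36, .a26],
  .t1 true [.a12] .a34 .a46 .a36 [.a46, .a13, .a24],
  .cm true [.a12, .a16] .a36 .a24 [.a26, .a16],
  .t2 true [.a12, .a16, .a36] .a24 .a46 .a26 [.a16],
  .cm true [.a12, .a16, .a36, .a46] .a16 .a24 [],
  .cm true [.a12, .a36] .a46 .a13 [.a16, .a24],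
  .t2 true [.a12, .a36] .a24 .a46 .a26 [.a16, .a36],
  .t1 true [.a12, .a36] .a34 .a46 .a36 [.a13, .a24],
  .cm true [.a12, .a36, .a46] .a16 .a24 [.a36],
  .t2 true [.a12, .a36, .a46] .a13 .a36 .a16 [.a24],
  .cm true [.a12, .a36, .a46, .a16] .a36 .a24 [],
  .cm true [.a12, .a46] .a16 .a24 [.a36, .a26],
  .t2 true [.a12, .a46] .a13 .a36 .a16 [.a46, .a24],
  .cm true [.a12, .a46, .a16] .a36 .a24 [.a26],
  .t2 true [.a12, .a46, .a16, .a36] .a24 .a46 .a26 [],
  .cm true [.a12, .a46, .a36] .a46 .a13 [.a24],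
  .sq false [.a12, .a13] .a16 [.a14, .a24],
  .t1 false [.a12, .a13] .a14 .a46 .a16 [.a46, .a24],
  .t1 false [.a12, .a13, .a16] .a14 .a46 .a16 [.a24],
  .sq true [.a12, .a13, .a14] .a46 [.a24],
  .sq false [.a12, .a24] .a26 [.a23, .a13],
  .cm false [.a12, .a24] .a26 .a13 [.a16, .a26],
  .t2 false [.a12, .a24] .a13 .a36 .a16 [.a26, .a16],
  .t1 false [.a12, .a24] .a23 .a36 .a26 [.a36, .a13],
  .t2 false [.a12, .a24, .a26] .a13 .a36 .a16 [.a26],
  .t1 false [.a12, .a24, .a26] .a23 .a36 .a26 [.a13],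
  .cm false [.a12, .a24, .a26, .a36] .a26 .a13 [],
  .cm false [.a12, .a24, .a36] .a26 .a13 [.a16],
  .t2 false [.a12, .a24, .a36, .a26] .a13 .a36 .a16 [],
  .sq true [.a12, .a24, .a13] .a16 [.a12],
  .t1 true [.a12, .a24, .a13] .a12 .a26 .a16 [.a26],
  .t1 true [.a12, .a24, .a13, .a16] .a12 .a26 .a16 [],
  .sq false [.a12, .a24, .a13, .a12] .a26 [],
  .sq true [.a12, .a24, .a23] .a36 [.a13],
  .sq false [.a12, .a34] .a46 [.a13, .a24],
  .sq true [.a14] .a26 [.a23, .a12, .a12],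
  .cm true [.a14] .a36 .a12 [.a16, .a36, .a12],
  .t2 true [.a14] .a12 .a26 .a16 [.a36, .a16, .a12],
  .t1 true [.a14] .a23 .a36 .a26 [.a36, .a12, .a12],
  .cm true [.a14, .a26] .a36 .a12 [.a16, .a12],
  .t1 true [.a14, .a26] .a23 .a36 .a26 [.a12, .a12],
  .t2 true [.a14, .a26, .a36] .a12 .a26 .a16 [.a12],
  .t2 true [.a14, .a36] .a12 .a26 .a16 [.a36, .a12],
  .cm true [.a14, .a36, .a26] .a36 .a12 [.a12],
  .sq false [.a14, .a12] .a16 [.a13, .a12],
  .t1 false [.a14, .a12] .a13 .a36 .a16 [.a36, .a12],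
  .t1 false [.a14, .a12, .a16] .a13 .a36 .a16 [.a12],
  .sq true [.a14, .a12, .a13] .a36 [.a12],
  .sq false [.a14, .a23] .a36 [.a12, .a12],
  .sq true [.a23] .a26 [.a24, .a14, .a12],
  .sq true [.a23] .a36 [.a16, .a46, .a16],
  .t1 true [.a23] .a24 .a46 .a26 [.a46, .a14, .a12],
  .t1 true [.a23, .a26] .a24 .a46 .a26 [.a14, .a12],
  .sq false [.a23, .a24] .a46 [.a14, .a12],
  .sq true [.a34] .a46 [.a23, .a14, .a12]]

def b_gdfdag : List H387C.It := [
  .sq true [] .a36 [.a34, .a23, .a12, .a13],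
  .cm true [] .a26 .a13 [.a16, .a46, .a36, .a26],
  .cm true [] .a36 .a12 [.a46, .a16, .a36, .a13],
  .cm true [] .a46 .a12 [.a16, .a36, .a46, .a13],
  .cm true [] .a46 .a13 [.a36, .a26, .a16, .a46],
  .cm true [] .a46 .a23 [.a26, .a46, .a12, .a13],
  .t2 true [] .a12 .a26 .a16 [.a36, .a46, .a16, .a13],
  .t1 false [] .a13 .a36 .a16 [.a26, .a16, .a46, .a36],
  .t2 true [] .a13 .a36 .a16 [.a46, .a36, .a26, .a16],
  .t2 true [] .a23 .a36 .a26 [.a46, .a26, .a12, .a13],
  .t1 true [] .a34 .a46 .a36 [.a46, .a23, .a12, .a13],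
  .cm true [.a16] .a26 .a13 [.a16, .a46, .a36],
  .t2 true [.a16, .a26] .a13 .a36 .a16 [.a46, .a36],
  .cm true [.a16, .a26, .a36] .a46 .a13 [.a36],
  .t1 false [.a16, .a26, .a36, .a46] .a13 .a36 .a16 [],
  .cm true [.a26] .a36 .a12 [.a46, .a16, .a13],
  .t2 true [.a26] .a13 .a36 .a16 [.a46, .a36, .a26],
  .cm true [.a26, .a36] .a46 .a12 [.a16, .a13],
  .cm true [.a26, .a36] .a46 .a13 [.a36, .a26],
  .t2 true [.a26, .a36, .a46] .a12 .a26 .a16 [.a13],
  .t1 false [.a26, .a36, .a46] .a13 .a36 .a16 [.a26],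
  .cm true [.a26, .a36, .a46, .a16] .a26 .a13 [],
  .cm true [.a36] .a46 .a12 [.a16, .a36, .a13],
  .cm true [.a36] .a46 .a13 [.a36, .a26, .a16],
  .cm true [.a36] .a46 .a23 [.a26, .a12, .a13],
  .t1 true [.a36] .a34 .a46 .a36 [.a23, .a12, .a13],
  .t2 true [.a36, .a46] .a12 .a26 .a16 [.a36, .a13],
  .t1 false [.a36, .a46] .a13 .a36 .a16 [.a26, .a16],
  .t2 true [.a36, .a46] .a23 .a36 .a26 [.a12, .a13],
  .cm true [.a36, .a46, .a16] .a26 .a13 [.a16],
  .t2 true [.a36, .a46, .a16, .a26] .a13 .a36 .a16 [],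
  .cm true [.a36, .a46, .a26] .a36 .a12 [.a13],
  .t2 true [.a46] .a12 .a26 .a16 [.a36, .a46, .a13],
  .t1 false [.a46] .a13 .a36 .a16 [.a26, .a16, .a46],
  .t2 true [.a46] .a23 .a36 .a26 [.a46, .a12, .a13],
  .cm true [.a46, .a16] .a26 .a13 [.a16, .a46],
  .t2 true [.a46, .a16, .a26] .a13 .a36 .a16 [.a46],
  .cm true [.a46, .a16, .a26, .a36] .a46 .a13 [],
  .cm true [.a46, .a26] .a36 .a12 [.a46, .a13],
  .cm true [.a46, .a26, .a36] .a46 .a12 [.a13],
  .cm true [.a46, .a36] .a46 .a23 [.a12, .a13],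
  .sq false [.a12] .a36 [.a34, .a13, .a13],
  .cm false [.a12] .a46 .a13 [.a16, .a46, .a13],
  .t2 false [.a12] .a13 .a36 .a16 [.a46, .a16, .a13],
  .t1 false [.a12] .a34 .a46 .a36 [.a46, .a13, .a13],
  .cm false [.a12, .a36] .a46 .a13 [.a16, .a13],
  .t1 false [.a12, .a36] .a34 .a46 .a36 [.a13, .a13],
  .t2 false [.a12, .a36, .a46] .a13 .a36 .a16 [.a13],
  .t2 false [.a12, .a46] .a13 .a36 .a16 [.a46, .a13],
  .cm false [.a12, .a46, .a36] .a46 .a13 [.a13],
  .sq true [.a12, .a13] .a16 [.a14, .a13],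
  .t1 true [.a12, .a13] .a14 .a46 .a16 [.a46, .a13],
  .t1 true [.a12, .a13, .a16] .a14 .a46 .a16 [.a13],
  .sq false [.a12, .a13, .a14] .a46 [.a13],
  .sq true [.a12, .a34] .a46 [.a13, .a13],
  .sq false [.a13] .a36 [.a34, .a24, .a14],
  .cm false [.a13] .a26 .a14 [.a16, .a36, .a26],
  .cm false [.a13] .a36 .a14 [.a26, .a16, .a36],
  .cm false [.a13] .a36 .a24 [.a26, .a36, .a14],
  .t2 false [.a13] .a14 .a46 .a16 [.a36, .a26, .a16],
  .t2 false [.a13] .a24 .a46 .a26 [.a36, .a26, .a14],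
  .t1 false [.a13] .a34 .a46 .a36 [.a46, .a24, .a14],
  .t2 false [.a13, .a26] .a14 .a46 .a16 [.a36, .a26],
  .cm false [.a13, .a26, .a46] .a36 .a14 [.a26],
  .cm false [.a13, .a26, .a46, .a36] .a26 .a14 [],
  .cm false [.a13, .a36] .a26 .a14 [.a16, .a36],
  .t2 false [.a13, .a36] .a24 .a46 .a26 [.a36, .a14],
  .t1 false [.a13, .a36] .a34 .a46 .a36 [.a24, .a14],
  .t2 false [.a13, .a36, .a26] .a14 .a46 .a16 [.a36],
  .cm false [.a13, .a36, .a26, .a46] .a36 .a14 [],
  .cm false [.a13, .a36, .a46] .a36 .a24 [.a14],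
  .cm false [.a13, .a46] .a36 .a14 [.a26, .a16],
  .cm false [.a13, .a46] .a36 .a24 [.a26, .a14],
  .cm false [.a13, .a46, .a36] .a26 .a14 [.a16],
  .t2 false [.a13, .a46, .a36] .a24 .a46 .a26 [.a14],
  .t2 false [.a13, .a46, .a36, .a26] .a14 .a46 .a16 [],
  .sq true [.a13, .a14] .a26 [.a23, .a13],
  .cm true [.a13, .a14] .a26 .a13 [.a16, .a26],
  .t2 true [.a13, .a14] .a13 .a36 .a16 [.a26, .a16],
  .t1 true [.a13, .a14] .a23 .a36 .a26 [.a36, .a13],
  .t2 true [.a13, .a14, .a26] .a13 .a36 .a16 [.a26],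
  .t1 true [.a13, .a14, .a26] .a23 .a36 .a26 [.a13],
  .cm true [.a13, .a14, .a26, .a36] .a26 .a13 [],
  .cm true [.a13, .a14, .a36] .a26 .a13 [.a16],
  .t2 true [.a13, .a14, .a36, .a26] .a13 .a36 .a16 [],
  .sq false [.a13, .a14, .a13] .a16 [.a12],
  .t1 false [.a13, .a14, .a13] .a12 .a26 .a16 [.a26],
  .t1 false [.a13, .a14, .a13, .a16] .a12 .a26 .a16 [],
  .sq true [.a13, .a14, .a13, .a12] .a26 [],
  .sq false [.a13, .a14, .a23] .a36 [.a13],
  .sq true [.a13, .a24] .a26 [.a23, .a14],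
  .t1 true [.a13, .a24] .a23 .a36 .a26 [.a36, .a14],
  .t1 true [.a13, .a24, .a26] .a23 .a36 .a26 [.a14],
  .sq false [.a13, .a24, .a23] .a36 [.a14],
  .sq true [.a13, .a34] .a46 [.a24, .a14],
  .sq false [.a23] .a26 [.a24, .a12, .a13],
  .t1 false [.a23] .a24 .a46 .a26 [.a46, .a12, .a13],
  .t1 false [.a23, .a26] .a24 .a46 .a26 [.a12, .a13],
  .sq true [.a23, .a24] .a46 [.a12, .a13],
  .sq false [.a34] .a46 [.a23, .a12, .a13]]

def Ra : R := (.br (.hit []) (.br (.br .nil .nil .nil .nil (.hit [t true 1 (b (f (a (b e))))]) (.hit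
  [t true 1 (b (g (a (b e))))])) .nil (.br (.br .nil .nil .nil (.hit [t false 1 (a (b (a (c (d
  e))))), t true 1 (a (d (a (c (b e))))), t false 1 (b (a (c (d (a e)))))]) .nil .nil) .nil .nil
  .nil .nil .nil) .nil .nil .nil) (.hit [t false 1 (a (c e))]) (.br .nil .nil .nil .nil (.br .nil
  (.br (.br .nil .nil .nil .nil .nil (.br .nil .nil (.br .nil .nil .nil (.br (.br .nil .nil .nil
  .nil (.br .nil .nil .nil (.br .nil .nil .nil .nil .nil (.hit [t false 1 (a (b (c (b (f (g (a (b (c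
  (d (g (f e)))))))))))), t true 1 (a (b (d (a (g (d (f (a (d (g (a (f e)))))))))))), t true 1 (a (c
  (b (d (g (d (f (a (d (g (a (f e)))))))))))), t false 1 (a (c (d (g (d (f (a (d (c (g (a (f
  e)))))))))))), t true 1 (a (g (a (d (a (c (g (f (a (d (a (f e)))))))))))), t true 1 (a (g (d (f (a
  (d (c (g (a (f (d (a e)))))))))))), t true 1 (b (a (c (b (g (d (f (a (d (g (a (f e)))))))))))), t
  false 1 (b (a (c (g (d (f (a (d (c (g (a (f e)))))))))))), t false 1 (b (a (g (d (f (a (d (c (g (a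
  (f (d e)))))))))))), t true 1 (b (c (b (f (a (d (g (a (f (a (b (g e)))))))))))), t false 1 (b (c
  (b (f (a (g (a (f (a (b (g (d e)))))))))))), t false 1 (b (c (d (f (g (a (d (a (c (b (g (f
  e)))))))))))), t false 1 (b (c (f (a (d (c (g (a (f (a (b (g e)))))))))))), t false 1 (b (c (f (a
  (d (g (d (a (f (d (c (g e)))))))))))), t true 1 (b (c (f (a (g (d (a (f (d (c (g (a e)))))))))))),
  t false 1 (b (c (f (d (g (a (d (c (f (a (b (g e)))))))))))), t true 1 (b (c (f (g (a (d (a (c (g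
  (f (a (b e)))))))))))), t false 1 (b (c (g (d (f (a (d (c (g (a (b (f e)))))))))))), t false 1 (b
  (d (c (f (a (d (g (d (a (f (d (g e)))))))))))), t false 1 (b (d (c (f (g (a (d (a (g (f (d (a
  e)))))))))))), t true 1 (b (d (f (a (b (c (g (d (f (d (g (a e)))))))))))), t false 1 (b (d (f (a
  (g (a (b (c (f (d (g (a e)))))))))))), t true 1 (b (d (f (g (a (b (c (d (g (f (d (a e)))))))))))),
  t false 1 (b (d (f (g (a (d (a (c (b (g (f (d e)))))))))))), t false 1 (b (f (a (d (c (g (a (f (a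
  (b (g (d e)))))))))))), t false 1 (b (f (a (d (g (a (f (a (b (g (d (a e)))))))))))), t false 1 (b
  (f (a (d (g (d (a (f (d (c (g (d e)))))))))))), t true 1 (b (f (a (g (d (a (f (a (b (d (g (a
  e)))))))))))), t true 1 (b (f (a (g (d (a (f (d (c (g (a (d e)))))))))))), t false 1 (b (f (d (g
  (a (d (c (f (a (b (g (d e)))))))))))), t false 1 (b (f (d (g (a (d (f (a (b (g (d (a
  e)))))))))))), t true 1 (b (f (g (a (d (a (c (g (f (a (b (d e)))))))))))), t true 1 (b (f (g (a (d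
  (a (g (f (a (b (d (a e)))))))))))), t false 1 (b (g (a (d (f (a (g (d (a (c (f (d e)))))))))))), t
  false 1 (b (g (d (a (f (a (d (g (a (b (f (a e)))))))))))), t false 1 (b (g (d (f (a (d (c (g (a (b
  (f (d e)))))))))))), t true 1 (c (b (d (c (g (d (f (a (d (g (a (f e)))))))))))), t true 1 (c (b (f
  (a (g (a (f (a (b (g (d (a e)))))))))))), t true 1 (c (b (f (g (a (b (c (d (g (f (a (b
  e)))))))))))), t true 1 (c (b (g (a (f (a (g (d (a (c (f (d e)))))))))))), t true 1 (c (d (a (f (g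
  (a (d (a (c (b (g (f e)))))))))))), t false 1 (c (d (c (g (d (a (f (a (d (g (a (f e)))))))))))), t
  true 1 (c (d (g (d (a (f (a (d (c (g (a (f e)))))))))))), t false 1 (c (f (a (b (c (g (a (d (f (a
  (b (g e)))))))))))), t true 1 (c (f (a (d (g (d (a (f (d (c (g (a e)))))))))))), t true 1 (c (f (a
  (g (d (a (c (b (f (a (b (g e)))))))))))), t true 1 (c (f (d (a (c (b (g (a (f (a (b (g
  e)))))))))))), t true 1 (c (f (d (a (g (a (d (c (f (a (b (g e)))))))))))), t true 1 (c (f (g (a (d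
  (a (c (b (g (f (a (b e)))))))))))), t true 1 (c (g (d (a (f (a (d (c (g (a (b (f e)))))))))))), t
  true 1 (d (c (f (a (d (g (d (a (f (d (g (a e)))))))))))), t true 1 (d (f (g (a (d (a (c (b (g (f
  (d (a e)))))))))))), t true 1 (d (g (a (b (c (f (a (d (g (d (a (f e)))))))))))), t false 1 (d (g
  (d (a (c (b (f (a (g (d (a (f e)))))))))))), t true 1 (f (a (d (c (g (a (f (a (b (g (d (a
  e)))))))))))), t true 1 (f (a (d (g (d (a (f (d (c (g (d (a e)))))))))))), t false 1 (f (a (g (d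
  (a (f (d (c (g (a (d (a e)))))))))))), t true 1 (f (d (g (a (d (c (f (a (b (g (d (a e)))))))))))),
  t false 1 (f (g (a (d (a (c (g (f (a (b (d (a e)))))))))))), t true 1 (g (a (b (c (f (a (d (c (g
  (a (b (f e)))))))))))), t true 1 (g (a (b (c (f (a (d (g (d (a (c (f e)))))))))))), t true 1 (g (a
  (d (c (f (a (g (d (a (c (f (d e)))))))))))), t false 1 (g (d (a (c (b (f (a (g (d (a (c (f
  e))))))))))))])) .nil .nil) .nil) .nil .nil .nil .nil .nil) .nil .nil) .nil .nil .nil)) .nil .nil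
  .nil .nil .nil) (.br (.br .nil .nil .nil (.br (.br .nil .nil .nil .nil (.hit [t false 1 (a (d (c
  (f (a (d (a (f e)))))))), t false 1 (c (f (a (d (a (c (f (d e)))))))), t true 1 (d (c (f (a (d (a
  (c (f e))))))))]) .nil) .nil .nil .nil .nil (.br (.br .nil .nil .nil .nil (.br (.br .nil .nil .nil
  .nil .nil (.hit [t true 1 (a (g (a (d (c (f (a (g (d (a (f e))))))))))), t false 1 (c (g (a (f (a
  (g (d (a (c (f (d e))))))))))), t true 1 (g (a (d (c (f (a (g (d (a (c (f e)))))))))))])) .nil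
  .nil (.br (.br .nil .nil .nil .nil .nil (.hit [t true 1 (a (d (g (a (d (c (f (a (g (d (a (f
  e)))))))))))), t false 1 (a (g (a (d (a (c (g (f (a (d (a (f e)))))))))))), t false 1 (g (a (d (c
  (f (a (g (d (a (c (f (d e))))))))))))])) .nil .nil .nil .nil .nil) .nil .nil) .nil) .nil .nil .nil
  .nil .nil)) .nil .nil) .nil .nil .nil .nil .nil) .nil .nil .nil) (.br .nil .nil (.br (.br .nil
  .nil .nil (.br (.br .nil .nil .nil .nil .nil (.hit [t false 1 (a (d (c (g (a (d (a (g e)))))))), t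
  false 1 (c (g (a (d (a (c (g (d e)))))))), t true 1 (d (c (g (a (d (a (c (g e))))))))])) .nil .nil
  .nil (.br (.br .nil .nil .nil .nil .nil (.hit [t false 1 (a (f (d (c (g (a (d (a (g e))))))))), t
  false 1 (c (g (a (f (d (a (c (g (d e))))))))), t true 1 (d (c (g (a (f (d (a (c (g e))))))))), t
  false 1 (f (d (c (g (a (f (d (a (g e)))))))))])) .nil .nil .nil .nil .nil) .nil) .nil .nil) .nil
  .nil .nil .nil .nil) .nil (.br .nil (.br .nil .nil (.br (.br .nil .nil .nil (.br (.br .nil .nil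
  .nil .nil (.br .nil .nil .nil .nil .nil (.hit [t true 1 (a (b (g (f (a (d (a (c (b (f (g
  e))))))))))), t false 1 (a (c (b (g (f (a (d (a (c (f (g e))))))))))), t true 1 (a (c (d (g (d (f
  (a (d (g (a (f e))))))))))), t false 1 (b (a (c (d (g (f (a (d (a (f (g e))))))))))), t true 1 (b
  (a (g (f (a (b (c (d (f (g (a e))))))))))), t true 1 (b (c (f (a (d (g (a (f (d (a (g
  e))))))))))), t true 1 (b (c (f (a (d (g (d (a (f (d (g e))))))))))), t false 1 (b (c (g (a (d (f
  (a (g (d (a (f e))))))))))), t false 1 (b (f (a (b (c (g (d (f (d (g (a e))))))))))), t true 1 (b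
  (g (a (f (a (b (c (g (d (f (a e))))))))))), t false 1 (b (g (f (a (d (a (c (b (f (g (d
  e))))))))))), t true 1 (c (b (g (f (a (d (a (c (f (g (d e))))))))))), t false 1 (c (d (g (d (a (f
  (a (d (g (a (f e))))))))))), t false 1 (c (f (a (d (g (d (a (f (d (g (a e))))))))))), t true 1 (d
  (a (c (b (g (f (a (d (a (f (g e))))))))))), t false 1 (d (a (c (g (f (a (d (a (c (f (g
  e))))))))))), t false 1 (f (d (a (c (b (g (a (f (d (a (g e))))))))))), t false 1 (f (d (a (c (b (g
  (d (a (f (d (g e))))))))))), t false 1 (g (a (b (c (f (a (d (g (d (a (f e))))))))))), t true 1 (g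
  (a (f (d (a (c (b (g (d (a (f e))))))))))), t true 1 (g (d (a (c (b (f (a (g (d (a (f
  e))))))))))), t true 1 (g (d (a (f (a (d (c (g (d (a (f e)))))))))))])) .nil) .nil .nil .nil .nil
  .nil) .nil .nil) .nil .nil .nil .nil .nil) .nil .nil .nil) (.br (.br .nil .nil .nil (.br (.br .nil
  .nil .nil .nil (.br .nil .nil .nil .nil .nil (.hit [t false 1 (a (d (c (g (f (a (d (a (f (g
  e)))))))))), t false 1 (c (g (f (a (d (a (c (f (g (d e)))))))))), t true 1 (d (c (g (f (a (d (a (c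
  (f (g e)))))))))), t true 1 (f (a (d (c (g (a (f (d (a (g e)))))))))), t true 1 (f (a (d (c (g (d
  (a (f (d (g e)))))))))), t false 1 (g (a (d (c (f (a (g (d (a (f e)))))))))), t false 1 (g (d (f
  (a (d (c (g (d (a (f e))))))))))])) .nil) .nil .nil .nil .nil .nil) .nil .nil) .nil .nil .nil .nil
  .nil) .nil .nil .nil) .nil)) (.br (.br .nil .nil .nil (.br (.br .nil .nil .nil .nil (.hit [t false
  1 (d (f (a (d (a (f e))))))]) (.br .nil (.br (.br .nil .nil .nil .nil (.br (.br .nil .nil .nil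
  .nil .nil (.hit [t true 1 (a (b (f (a (b (d (g (a (f (a (g e))))))))))), t false 1 (a (b (g (a (d
  (f (a (b (g (a (f e))))))))))), t false 1 (a (d (f (a (b (g (a (d (a (g (f e))))))))))), t false 1
  (a (f (a (b (d (g (a (d (f (a (g e))))))))))), t true 1 (a (f (a (b (g (a (d (a (g (f (a
  e))))))))))), t false 1 (g (a (d (f (a (b (g (a (d (a (f e)))))))))))])) .nil .nil .nil .nil .nil)
  .nil) .nil .nil .nil .nil .nil) .nil .nil .nil .nil)) .nil .nil .nil .nil (.br (.br .nil .nil .nil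
  .nil (.br (.br .nil .nil .nil .nil .nil (.hit [t true 1 (a (d (f (g (a (d (a (g (f e))))))))), t
  true 1 (a (f (a (d (g (a (f (a (g e))))))))), t true 1 (a (f (d (g (a (d (f (a (g e))))))))), t
  false 1 (a (f (g (a (d (a (g (f (a e))))))))), t false 1 (g (a (d (f (a (g (d (a (f e)))))))))]))
  (.br .nil .nil (.br (.br .nil .nil .nil (.br .nil .nil .nil .nil .nil (.hit [t true 1 (a (b (a (f
  (g (a (d (a (c (b (g (f e)))))))))))), t true 1 (a (b (c (f (d (a (g (a (d (f (a (g e)))))))))))),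
  t true 1 (a (b (f (a (b (c (g (a (d (f (a (g e)))))))))))), t false 1 (a (b (f (a (g (d (a (c (b
  (f (a (g e)))))))))))), t false 1 (a (b (f (d (a (c (b (g (a (f (a (g e)))))))))))), t false 1 (a
  (b (f (d (a (g (a (d (c (f (a (g e)))))))))))), t false 1 (a (b (f (g (a (d (a (c (b (g (f (a
  e)))))))))))), t false 1 (a (c (b (f (a (d (c (g (a (f (a (g e)))))))))))), t false 1 (a (c (b (f
  (d (g (a (d (c (f (a (g e)))))))))))), t true 1 (a (c (b (f (g (a (d (a (c (g (f (a e)))))))))))),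
  t false 1 (a (g (a (b (c (d (a (f (a (g (a (f e)))))))))))), t true 1 (b (a (c (b (f (g (a (d (a
  (c (g (f e)))))))))))), t false 1 (b (d (a (c (b (f (g (a (d (a (g (f e)))))))))))), t true 1 (b
  (d (a (c (f (g (a (d (a (c (g (f e)))))))))))), t true 1 (b (g (d (a (c (b (f (a (g (d (a (f
  e)))))))))))), t false 1 (c (b (a (d (c (f (g (a (d (a (g (f e)))))))))))), t true 1 (c (b (d (c
  (f (g (a (d (a (c (g (f e)))))))))))), t true 1 (c (b (g (a (d (c (f (a (g (d (a (f e)))))))))))),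
  t true 1 (d (a (c (b (f (a (d (g (a (f (a (g e)))))))))))), t true 1 (d (a (c (b (f (d (g (a (d (f
  (a (g e)))))))))))), t false 1 (d (a (c (b (f (g (a (d (a (g (f (a e)))))))))))), t false 1 (d (a
  (c (f (a (d (c (g (a (f (a (g e)))))))))))), t false 1 (d (a (c (f (d (g (a (d (c (f (a (g
  e)))))))))))), t true 1 (d (a (c (f (g (a (d (a (c (g (f (a e)))))))))))), t true 1 (g (a (b (c (d
  (a (f (a (g (d (a (f e))))))))))))])) .nil .nil) .nil .nil .nil .nil .nil) .nil .nil .nil) (.br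
  .nil .nil .nil (.br (.br .nil .nil .nil .nil .nil (.hit [t false 1 (a (c (d (c (f (g (a (d (a (g
  (f e))))))))))), t true 1 (a (d (c (f (a (d (g (a (f (a (g e))))))))))), t true 1 (a (d (c (f (d
  (g (a (d (f (a (g e))))))))))), t false 1 (a (d (c (f (g (a (d (a (g (f (a e))))))))))), t true 1
  (c (d (c (f (g (a (d (a (c (g (f e))))))))))), t true 1 (c (g (a (d (c (f (a (g (d (a (f
  e))))))))))), t false 1 (d (c (f (a (d (c (g (a (f (a (g e))))))))))), t false 1 (d (c (f (d (g (a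
  (d (c (f (a (g e))))))))))), t true 1 (d (c (f (g (a (d (a (c (g (f (a e)))))))))))])) .nil .nil
  .nil .nil .nil) .nil .nil) (.br (.br .nil .nil .nil .nil .nil (.hit [t true 1 (a (d (f (a (d (g (a
  (f (a (g e)))))))))), t true 1 (a (d (f (d (g (a (d (f (a (g e)))))))))), t false 1 (a (d (f (g (a
  (d (a (g (f (a e))))))))))])) .nil .nil .nil .nil .nil) .nil .nil) .nil) .nil (.br .nil .nil .nil
  (.br (.br .nil .nil .nil .nil (.br (.br .nil .nil .nil (.br .nil .nil .nil .nil .nil (.hit [t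
  false 1 (a (b (a (f (g (a (d (a (c (b (g (f e)))))))))))), t false 1 (a (b (c (d (a (f (g (a (d (a
  (g (f e)))))))))))), t false 1 (a (b (c (d (f (a (g (a (f (d (a (g e)))))))))))), t true 1 (a (b
  (c (d (f (g (a (d (a (g (f (d e)))))))))))), t true 1 (a (b (c (d (g (a (f (a (g (d (a (f
  e)))))))))))), t false 1 (a (b (c (f (d (a (g (a (d (f (a (g e)))))))))))), t true 1 (a (b (c (f
  (d (g (a (d (f (a (g (d e)))))))))))), t false 1 (a (b (c (f (g (a (d (a (g (f (a (d
  e)))))))))))), t true 1 (a (b (c (g (d (a (f (a (d (g (a (f e)))))))))))), t true 1 (a (b (d (a (f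
  (g (a (d (a (c (g (f e)))))))))))), t true 1 (a (b (d (f (a (g (a (f (d (a (c (g e)))))))))))), t
  false 1 (a (b (d (f (g (a (d (a (g (f (d (c e)))))))))))), t false 1 (a (b (d (g (a (f (a (g (d (a
  (c (f e)))))))))))), t true 1 (a (b (f (a (g (a (b (c (f (a (d (g e)))))))))))), t false 1 (a (b
  (f (a (g (a (f (d (a (c (b (g e)))))))))))), t true 1 (a (b (f (d (a (g (a (d (c (f (a (g
  e)))))))))))), t false 1 (a (b (f (d (g (a (d (f (a (g (d (c e)))))))))))), t true 1 (a (b (f (g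
  (a (d (a (c (b (g (f (a e)))))))))))), t true 1 (a (b (f (g (a (d (a (g (f (a (d (c e)))))))))))),
  t false 1 (a (b (g (a (b (c (f (a (d (g (a (f e)))))))))))), t false 1 (a (b (g (a (f (a (b (c (g
  (a (d (f e)))))))))))), t true 1 (a (b (g (a (f (a (g (d (a (c (b (f e)))))))))))), t false 1 (a
  (b (g (d (a (f (a (d (c (g (a (f e)))))))))))), t false 1 (a (c (b (g (d (f (a (d (c (g (a (f
  e)))))))))))), t false 1 (a (f (a (b (c (d (a (g (a (f (a (g e)))))))))))), t false 1 (b (c (d (g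
  (d (a (f (a (d (g (a (f e)))))))))))), t false 1 (b (f (d (a (c (b (g (d (a (f (d (g
  e)))))))))))), t true 1 (b (g (a (f (d (a (c (b (g (d (a (f e)))))))))))), t true 1 (b (g (d (a (f
  (a (d (c (g (d (a (f e)))))))))))), t false 1 (c (b (f (a (d (c (g (d (a (f (d (g e)))))))))))), t
  true 1 (c (b (g (d (f (a (d (c (g (d (a (f e)))))))))))), t true 1 (c (d (a (g (d (a (f (a (d (g
  (a (f e)))))))))))), t true 1 (c (d (g (a (d (a (g (f (a (d (a (f e)))))))))))), t true 1 (d (a (c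
  (b (g (d (f (a (d (g (a (f e)))))))))))), t false 1 (d (a (c (g (d (f (a (d (c (g (a (f
  e)))))))))))), t true 1 (f (a (b (c (d (a (g (a (f (d (a (g e)))))))))))), t false 1 (f (d (a (c
  (b (g (d (a (f (d (g (a e)))))))))))), t false 1 (g (a (b (c (d (g (a (f (a (d (a (f
  e)))))))))))), t true 1 (g (a (f (d (a (c (b (g (d (a (f (a e))))))))))))])) .nil .nil) .nil .nil
  (.br .nil .nil .nil .nil .nil (.hit [t true 1 (a (d (c (g (d (f (a (d (g (a (f e))))))))))), t
  false 1 (c (f (a (d (c (g (d (a (f (d (g e))))))))))), t true 1 (c (g (d (f (a (d (c (g (d (a (f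
  e))))))))))), t false 1 (d (c (g (d (f (a (d (c (g (a (f e))))))))))), t false 1 (f (a (d (c (g (d
  (a (f (d (g (a e)))))))))))])) .nil .nil) .nil) .nil .nil .nil .nil .nil) .nil .nil) (.br (.br
  .nil .nil .nil .nil (.br .nil .nil (.br .nil (.br (.br .nil .nil .nil .nil .nil (.hit [t false 1
  (a (b (g (a (b (c (f (a (d (g (a (f e)))))))))))), t false 1 (a (g (a (b (c (d (a (f (a (g (a (f
  e)))))))))))), t true 1 (b (g (a (b (c (f (a (d (g (d (a (f e)))))))))))), t true 1 (g (a (b (c (d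
  (a (f (a (g (d (a (f e)))))))))))), t false 1 (g (a (b (c (d (g (a (f (a (d (a (f e))))))))))))]))
  .nil .nil .nil .nil .nil) .nil .nil .nil .nil) .nil .nil .nil) .nil) .nil .nil .nil .nil .nil)
  .nil .nil)) .nil (.br .nil .nil (.br .nil .nil .nil (.br (.br .nil .nil .nil .nil (.br (.br .nil
  .nil .nil (.br .nil .nil .nil .nil .nil (.hit [t true 1 (a (g (d (a (f (a (d (c (g (a (f
  e))))))))))), t true 1 (d (a (g (d (f (a (d (c (g (a (f e))))))))))), t true 1 (g (a (d (a (g (f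
  (a (d (a (c (f e)))))))))))])) .nil .nil) .nil (.br .nil (.br (.br .nil .nil .nil .nil .nil (.hit
  [t true 1 (a (g (a (b (c (f (a (d (c (g (a (f e)))))))))))), t false 1 (g (a (b (c (d (g (f (a (d
  (a (c (f e))))))))))))])) .nil .nil .nil .nil .nil) .nil .nil .nil .nil) .nil .nil .nil) .nil)
  .nil .nil .nil .nil .nil) .nil .nil) (.br (.br .nil .nil .nil .nil (.br (.br .nil .nil .nil (.br
  .nil .nil .nil .nil .nil (.hit [t true 1 (a (g (d (a (f (a (d (g (a (f e)))))))))), t true 1 (d (a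
  (g (d (f (a (d (g (a (f e)))))))))), t true 1 (g (a (d (a (g (f (a (d (a (f e))))))))))])) .nil
  .nil) .nil (.br .nil (.br (.br .nil .nil .nil .nil .nil (.hit [t true 1 (a (g (a (b (c (f (a (d (g
  (a (f e))))))))))), t false 1 (g (a (b (c (d (g (f (a (d (a (f e)))))))))))])) .nil .nil .nil .nil
  .nil) .nil (.br .nil (.br (.br .nil .nil .nil .nil .nil (.hit [t true 1 (a (d (g (a (b (c (f (a (d
  (g (a (f e)))))))))))), t true 1 (d (g (a (b (d (c (f (a (d (g (a (f e)))))))))))), t true 1 (g (a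
  (b (c (d (c (g (f (a (d (a (f e))))))))))))])) .nil .nil .nil .nil .nil) .nil .nil .nil .nil) .nil
  .nil) (.br .nil .nil .nil .nil .nil (.hit [t true 1 (d (g (d (f (a (d (g (a (f e)))))))))])) .nil
  .nil) .nil) .nil .nil .nil .nil .nil) .nil .nil)) (.br (.br .nil .nil .nil .nil .nil (.br .nil
  .nil (.br .nil .nil .nil (.br (.br .nil .nil .nil .nil (.br (.br .nil .nil .nil (.br .nil .nil
  .nil .nil .nil (.hit [t false 1 (a (f (a (d (g (a (b (c (f (a (d (g e)))))))))))), t true 1 (a (f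
  (a (d (g (d (a (c (b (f (a (g e)))))))))))), t true 1 (b (c (d (c (g (d (f (a (d (g (a (f
  e)))))))))))), t true 1 (b (c (g (d (f (a (d (g (a (b (f (a e)))))))))))), t false 1 (c (d (a (c
  (g (d (f (a (d (g (a (f e)))))))))))), t false 1 (c (f (a (g (a (b (c (f (d (c (g (a
  e)))))))))))), t false 1 (c (g (d (a (f (a (d (g (a (b (f (a e)))))))))))), t true 1 (d (a (c (g
  (d (a (f (a (d (g (a (f e)))))))))))), t false 1 (d (a (f (a (g (d (a (c (b (f (a (g
  e)))))))))))), t true 1 (d (a (g (a (b (c (f (a (d (g (a (f e)))))))))))), t false 1 (d (a (g (d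
  (a (f (a (d (c (g (a (f e)))))))))))), t true 1 (d (c (g (a (d (a (g (f (a (d (a (f e)))))))))))),
  t false 1 (d (g (a (b (c (d (g (f (a (d (a (f e)))))))))))), t false 1 (d (g (a (d (a (g (f (a (d
  (a (c (f e)))))))))))), t true 1 (f (a (d (c (g (a (b (c (f (d (c (g e)))))))))))), t false 1 (f
  (a (d (g (a (b (c (f (a (b (d (g e)))))))))))), t true 1 (f (a (d (g (d (a (c (b (f (a (b (g
  e)))))))))))), t true 1 (f (a (g (a (b (c (f (a (b (d (g (a e)))))))))))), t true 1 (f (a (g (a (b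
  (c (f (d (c (g (a (d e)))))))))))), t false 1 (g (a (b (c (f (a (d (g (a (b (f (a e))))))))))))]))
  .nil .nil) .nil .nil (.br .nil .nil .nil .nil .nil (.hit [t false 1 (b (c (g (d (f (a (d (g (a (b
  (f e))))))))))), t false 1 (b (d (c (g (d (f (a (d (g (a (f e))))))))))), t false 1 (b (g (d (f (a
  (d (g (a (b (f (a e))))))))))), t true 1 (c (g (d (a (f (a (d (g (a (b (f e))))))))))), t true 1
  (d (c (g (d (a (f (a (d (g (a (f e))))))))))), t false 1 (d (f (a (g (d (a (c (b (f (a (g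
  e))))))))))), t true 1 (d (g (a (b (c (f (a (d (g (a (f e))))))))))), t false 1 (d (g (d (a (f (a
  (d (c (g (a (f e))))))))))), t false 1 (f (a (g (d (a (c (b (f (a (b (g e))))))))))), t true 1 (g
  (a (b (c (f (a (d (g (a (b (f e))))))))))), t false 1 (g (d (a (f (a (d (c (g (a (b (f
  e)))))))))))])) .nil .nil) .nil) .nil .nil .nil .nil .nil) .nil .nil) .nil .nil .nil)) .nil (.br
  (.br .nil .nil .nil (.br .nil .nil .nil .nil .nil (.br (.br .nil .nil .nil .nil (.br (.br .nil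
  .nil .nil .nil .nil (.hit [t true 1 (a (c (d (f (g (a (d (a (g (f (d e))))))))))), t true 1 (a (c
  (d (g (a (f (a (g (d (a (f e))))))))))), t true 1 (a (c (f (a (d (g (a (f (a (g (d e))))))))))), t
  true 1 (a (c (f (d (g (a (d (f (a (g (d e))))))))))), t false 1 (a (c (f (g (a (d (a (g (f (a (d
  e))))))))))), t false 1 (a (d (f (g (a (d (a (g (f (d (c e))))))))))), t false 1 (a (d (g (a (f (a
  (g (d (a (c (f e))))))))))), t false 1 (a (f (a (d (g (a (f (a (g (d (c e))))))))))), t false 1 (a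
  (f (d (g (a (d (f (a (g (d (c e))))))))))), t true 1 (a (f (g (a (d (a (g (f (a (d (c
  e))))))))))), t false 1 (a (g (a (f (a (b (c (g (a (d (f e))))))))))), t true 1 (a (g (a (f (a (g
  (d (a (c (b (f e))))))))))), t true 1 (c (d (f (g (a (d (a (g (f (d (a e))))))))))), t true 1 (c
  (d (g (a (d (f (a (g (d (a (f e))))))))))), t true 1 (c (f (a (d (g (a (f (a (g (d (a
  e))))))))))), t true 1 (c (f (d (g (a (d (f (a (g (d (a e))))))))))), t false 1 (c (f (g (a (d (a
  (g (f (a (d (a e))))))))))), t false 1 (c (g (a (d (a (g (f (a (d (a (f e))))))))))), t false 1 (d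
  (f (g (a (d (a (g (f (d (a (c e))))))))))), t false 1 (d (g (a (d (f (a (g (d (a (c (f
  e))))))))))), t false 1 (f (a (d (g (a (f (a (g (d (a (c e))))))))))), t false 1 (f (a (g (a (f (a
  (b (c (g (a (d e))))))))))), t true 1 (f (a (g (a (f (a (g (d (a (c (b e))))))))))), t false 1 (f
  (d (g (a (d (f (a (g (d (a (c e))))))))))), t true 1 (f (g (a (d (a (g (f (a (d (a (c
  e))))))))))), t true 1 (g (a (d (a (g (f (a (d (a (c (f e))))))))))), t false 1 (g (a (f (a (b (c
  (g (a (d (f (a e)))))))))))])) .nil .nil (.br (.br .nil .nil .nil .nil .nil (.hit [t false 1 (a (c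
  (d (c (f (g (a (d (a (g (f (d e)))))))))))), t false 1 (a (c (d (c (g (a (f (a (g (d (a (f
  e)))))))))))), t true 1 (a (d (c (f (a (d (g (a (f (a (g (d e)))))))))))), t true 1 (a (d (c (f (d
  (g (a (d (f (a (g (d e)))))))))))), t false 1 (a (d (c (f (g (a (d (a (g (f (a (d e)))))))))))), t
  false 1 (a (d (f (a (d (g (a (f (a (g (d (c e)))))))))))), t false 1 (a (d (f (d (g (a (d (f (a (g
  (d (c e)))))))))))), t true 1 (a (d (f (g (a (d (a (g (f (a (d (c e)))))))))))), t false 1 (a (d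
  (g (a (f (a (b (c (g (a (d (f e)))))))))))), t true 1 (a (d (g (a (f (a (g (d (a (c (b (f
  e)))))))))))), t true 1 (c (d (c (f (g (a (d (a (c (g (f (d e)))))))))))), t false 1 (c (d (f (g
  (a (d (a (c (g (f (d (a e)))))))))))), t false 1 (c (d (g (a (d (c (f (a (g (d (a (f
  e)))))))))))), t false 1 (c (f (a (d (c (g (a (f (a (g (d (a e)))))))))))), t false 1 (c (f (d (g
  (a (d (c (f (a (g (d (a e)))))))))))), t true 1 (c (f (g (a (d (a (c (g (f (a (d (a e)))))))))))),
  t false 1 (c (f (g (a (d (a (g (f (a (b (c (d e)))))))))))), t true 1 (c (g (a (d (a (c (g (f (a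
  (d (a (f e)))))))))))), t false 1 (c (g (a (d (a (g (f (a (b (c (d (f e)))))))))))), t false 1 (d
  (c (f (a (d (c (g (a (f (a (g (d e)))))))))))), t false 1 (d (c (f (d (g (a (d (c (f (a (g (d
  e)))))))))))), t true 1 (d (f (g (a (b (c (d (c (g (f (a (d e)))))))))))), t true 1 (d (f (g (a (d
  (a (g (f (d (a (c (b e)))))))))))), t false 1 (d (g (a (d (f (a (b (c (g (a (d (f e)))))))))))), t
  true 1 (d (g (a (d (f (a (g (d (a (c (b (f e)))))))))))), t false 1 (f (a (d (g (a (f (a (b (c (g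
  (a (d e)))))))))))), t true 1 (f (a (d (g (a (f (a (g (d (a (c (b e)))))))))))), t false 1 (f (d
  (g (a (d (f (a (b (c (g (a (d e)))))))))))), t true 1 (f (d (g (a (d (f (a (g (d (a (c (b
  e)))))))))))), t true 1 (f (g (a (b (c (d (g (f (a (b (c (d e)))))))))))), t false 1 (f (g (a (d
  (a (g (f (a (d (a (c (b e)))))))))))), t true 1 (g (a (b (c (d (g (f (a (b (c (d (f e)))))))))))),
  t false 1 (g (a (d (a (g (f (a (d (a (c (b (f e)))))))))))), t false 1 (g (a (d (f (a (b (c (g (a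
  (d (f (a e))))))))))))])) .nil .nil .nil .nil .nil) .nil .nil) .nil) .nil .nil .nil .nil .nil))
  .nil .nil) .nil .nil .nil .nil .nil) .nil .nil .nil) (.br (.br .nil .nil .nil (.br (.br .nil .nil
  .nil .nil .nil (.br .nil (.br (.br .nil .nil .nil .nil (.br (.br .nil .nil .nil .nil .nil (.hit [t
  true 1 (a (b (f (a (b (d (c (g (a (f (a (g e)))))))))))), t false 1 (a (b (g (a (d (f (a (b (c (g
  (a (f e)))))))))))), t false 1 (a (d (f (a (b (g (a (d (a (c (g (f e)))))))))))), t false 1 (a (f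
  (a (b (d (g (a (d (c (f (a (g e)))))))))))), t true 1 (a (f (a (b (g (a (d (a (c (g (f (a
  e)))))))))))), t false 1 (g (a (d (f (a (b (g (a (d (a (c (f e))))))))))))])) .nil .nil .nil .nil
  .nil) .nil) .nil .nil .nil .nil .nil) .nil .nil .nil .nil)) .nil .nil .nil .nil (.br (.br .nil
  .nil .nil .nil (.br (.br .nil .nil .nil .nil .nil (.hit [t true 1 (a (d (f (g (a (d (a (c (g (f
  e)))))))))), t true 1 (a (f (a (d (c (g (a (f (a (g e)))))))))), t true 1 (a (f (d (g (a (d (c (f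
  (a (g e)))))))))), t false 1 (a (f (g (a (d (a (c (g (f (a e)))))))))), t false 1 (g (a (d (f (a
  (g (d (a (c (f e))))))))))])) .nil .nil (.br (.br .nil .nil .nil .nil .nil (.hit [t true 1 (a (d
  (f (a (d (c (g (a (f (a (g e))))))))))), t true 1 (a (d (f (d (g (a (d (c (f (a (g e))))))))))), t
  false 1 (a (d (f (g (a (d (a (c (g (f (a e)))))))))))])) .nil .nil .nil .nil .nil) .nil .nil)
  .nil) .nil .nil .nil .nil .nil)) .nil .nil) (.br (.br .nil .nil .nil .nil .nil (.br .nil .nil (.br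
  .nil .nil .nil (.br (.br .nil .nil .nil .nil (.br (.br .nil .nil .nil (.br .nil .nil .nil .nil
  .nil (.hit [t false 1 (a (b (c (b (d (a (f (g (a (d (a (g (f e))))))))))))), t false 1 (a (b (c (b
  (d (f (a (g (a (f (d (a (g e))))))))))))), t true 1 (a (b (c (b (d (f (g (a (d (a (g (f (d
  e))))))))))))), t true 1 (a (b (c (b (d (g (a (f (a (g (d (a (f e))))))))))))), t false 1 (a (b (c
  (b (f (d (a (g (a (d (f (a (g e))))))))))))), t true 1 (a (b (c (b (f (d (g (a (d (f (a (g (d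
  e))))))))))))), t false 1 (a (b (c (b (f (g (a (d (a (g (f (a (d e))))))))))))), t true 1 (a (b (c
  (b (g (d (a (f (a (d (g (a (f e))))))))))))), t true 1 (a (b (f (a (b (d (c (g (a (d (f (a (g
  e))))))))))))), t true 1 (a (c (b (a (f (g (a (d (a (c (b (g (f e))))))))))))), t false 1 (a (c (b
  (d (a (f (g (a (d (a (c (g (f e))))))))))))), t false 1 (a (c (b (d (f (a (g (a (f (d (a (c (g
  e))))))))))))), t true 1 (a (c (b (d (f (g (a (d (a (g (f (d (c e))))))))))))), t true 1 (a (c (b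
  (d (g (a (f (a (g (d (a (c (f e))))))))))))), t false 1 (a (c (b (f (a (b (c (g (a (d (f (a (g
  e))))))))))))), t false 1 (a (c (b (f (a (g (a (b (c (f (a (d (g e))))))))))))), t true 1 (a (c (b
  (f (a (g (a (f (d (a (c (b (g e))))))))))))), t false 1 (a (c (b (f (d (a (g (a (d (c (f (a (g
  e))))))))))))), t true 1 (a (c (b (f (d (g (a (d (f (a (g (d (c e))))))))))))), t false 1 (a (c (b
  (f (g (a (d (a (c (b (g (f (a e))))))))))))), t false 1 (a (c (b (f (g (a (d (a (g (f (a (d (c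
  e))))))))))))), t true 1 (a (c (b (g (a (b (c (f (a (d (g (a (f e))))))))))))), t true 1 (a (c (b
  (g (a (f (a (b (c (g (a (d (f e))))))))))))), t false 1 (a (c (b (g (a (f (a (g (d (a (c (b (f
  e))))))))))))), t true 1 (a (c (b (g (d (a (f (a (d (c (g (a (f e))))))))))))), t true 1 (a (c (d
  (g (d (f (a (d (g (a (b (f (a e))))))))))))), t true 1 (a (c (f (a (b (c (d (a (g (a (f (a (g
  e))))))))))))), t false 1 (a (c (f (a (g (a (b (c (f (a (d (g (d e))))))))))))), t true 1 (a (f (a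
  (b (d (c (g (a (d (c (f (a (g e))))))))))))), t true 1 (a (f (a (d (c (g (a (b (c (f (a (d (g
  e))))))))))))), t false 1 (a (f (a (d (c (g (d (a (c (b (f (a (g e))))))))))))), t true 1 (b (a (c
  (d (c (g (d (f (a (d (g (a (f e))))))))))))), t true 1 (b (a (c (g (d (f (a (d (g (a (b (f (a
  e))))))))))))), t false 1 (b (c (b (d (g (d (a (f (a (d (g (a (f e))))))))))))), t false 1 (b (c
  (f (a (b (c (g (d (f (d (g (a (b e))))))))))))), t false 1 (b (c (f (a (b (d (c (g (d (f (d (g (a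
  e))))))))))))), t true 1 (b (c (f (a (d (g (a (b (c (f (d (g (a e))))))))))))), t true 1 (b (c (f
  (a (g (a (b (c (f (d (g (a (b e))))))))))))), t true 1 (b (c (g (d (f (a (b (d (c (g (d (f (a
  e))))))))))))), t true 1 (c (b (f (d (a (c (b (g (d (a (f (d (g e))))))))))))), t false 1 (c (b (g
  (a (f (d (a (c (b (g (d (a (f e))))))))))))), t false 1 (c (b (g (d (a (f (a (d (c (g (d (a (f
  e))))))))))))), t false 1 (c (d (a (c (b (g (d (f (a (d (g (a (f e))))))))))))), t false 1 (c (d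
  (g (d (a (f (a (d (g (a (b (f (a e))))))))))))), t false 1 (c (f (a (b (c (d (a (g (a (f (d (a (g
  e))))))))))))), t false 1 (c (f (a (b (d (c (g (d (f (d (g (a (b e))))))))))))), t true 1 (c (f (a
  (d (c (g (d (a (f (d (g (a (b e))))))))))))), t true 1 (c (f (a (d (g (a (b (c (f (d (g (a (b
  e))))))))))))), t true 1 (c (f (d (a (c (b (g (d (a (f (d (g (a e))))))))))))), t true 1 (c (g (a
  (b (c (d (g (a (f (a (d (a (f e))))))))))))), t false 1 (c (g (a (f (d (a (c (b (g (d (a (f (a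
  e))))))))))))), t false 1 (c (g (d (a (f (a (b (d (c (g (d (f (a e))))))))))))), t false 1 (d (a
  (c (f (a (b (c (g (a (d (f (a (g e))))))))))))), t true 1 (d (a (c (f (a (g (d (a (c (b (f (a (g
  e))))))))))))), t true 1 (d (a (c (g (d (a (f (a (d (c (g (a (f e))))))))))))), t false 1 (d (a (f
  (a (b (c (g (a (d (c (f (a (g e))))))))))))), t true 1 (d (a (g (a (b (c (f (a (d (c (g (a (f
  e))))))))))))), t true 1 (d (c (g (a (d (a (g (f (a (d (a (c (f e))))))))))))), t false 1 (d (g (a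
  (b (c (d (g (f (a (d (a (c (f e))))))))))))), t false 1 (f (a (d (g (a (b (c (f (a (b (d (c (g
  e))))))))))))), t true 1 (f (a (d (g (d (a (c (b (f (a (b (c (g e))))))))))))), t true 1 (f (a (g
  (a (b (c (f (a (b (d (c (g (a e))))))))))))), t true 1 (f (a (g (a (b (c (f (a (d (c (g (a (d
  e))))))))))))), t false 1 (g (a (b (c (f (a (d (g (a (b (c (f (a e)))))))))))))])) .nil .nil) .nil
  .nil (.br .nil .nil .nil .nil .nil (.hit [t false 1 (a (c (d (g (d (f (a (d (g (a (b (f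
  e)))))))))))), t false 1 (b (a (c (g (d (f (a (d (g (a (b (f e)))))))))))), t false 1 (b (a (d (c
  (g (d (f (a (d (g (a (f e)))))))))))), t false 1 (b (a (g (d (f (a (d (g (a (b (f (a
  e)))))))))))), t true 1 (b (c (f (a (b (d (c (g (d (f (d (g e)))))))))))), t false 1 (b (c (f (a
  (d (g (a (b (c (f (d (g e)))))))))))), t false 1 (b (c (g (d (f (a (b (d (c (g (d (f
  e)))))))))))), t true 1 (b (f (a (b (c (g (d (f (d (g (a (b e)))))))))))), t true 1 (b (f (a (b (d
  (c (g (d (f (d (g (a e)))))))))))), t false 1 (b (f (a (d (g (a (b (c (f (d (g (a e)))))))))))), t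
  false 1 (b (f (a (g (a (b (c (f (d (g (a (b e)))))))))))), t false 1 (b (g (d (f (a (b (d (c (g (d
  (f (a e)))))))))))), t true 1 (c (d (g (d (a (f (a (d (g (a (b (f e)))))))))))), t true 1 (c (f (a
  (d (g (d (a (f (d (g (a (b e)))))))))))), t true 1 (c (g (d (a (f (a (b (d (c (g (d (f
  e)))))))))))), t false 1 (c (g (d (a (f (a (d (c (g (d (a (f e)))))))))))), t false 1 (d (c (f (a
  (b (c (g (a (d (f (a (g e)))))))))))), t true 1 (d (c (f (a (g (d (a (c (b (f (a (g e)))))))))))),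
  t true 1 (d (c (g (d (a (f (a (d (c (g (a (f e)))))))))))), t false 1 (d (f (a (b (c (g (a (d (c
  (f (a (g e)))))))))))), t true 1 (d (g (a (b (c (f (a (d (c (g (a (f e)))))))))))), t false 1 (f
  (a (g (d (a (c (b (f (a (b (c (g e)))))))))))), t true 1 (g (a (b (c (f (a (d (g (a (b (c (f
  e)))))))))))), t false 1 (g (d (a (f (a (d (c (g (a (b (c (f e))))))))))))])) .nil .nil) .nil)
  .nil .nil .nil .nil .nil) .nil .nil) .nil .nil .nil)) .nil .nil .nil .nil .nil) .nil .nil .nil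
  .nil) (.br (.br .nil .nil .nil .nil .nil (.br (.br .nil .nil .nil (.br .nil .nil .nil .nil (.br
  .nil .nil (.br .nil .nil .nil (.br (.br .nil .nil .nil .nil .nil (.hit [t false 1 (a (c (d (a (c
  (f (g (a (d (a (g (f e)))))))))))), t true 1 (a (d (c (f (d (a (g (a (d (f (a (g e)))))))))))), t
  true 1 (c (d (c (f (g (a (d (a (c (g (f (d e)))))))))))), t true 1 (c (d (f (a (d (c (g (a (f (d
  (a (g e)))))))))))), t false 1 (c (d (f (g (a (d (a (c (g (f (d (a e)))))))))))), t false 1 (c (d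
  (g (a (d (c (f (a (g (d (a (f e)))))))))))), t false 1 (c (f (a (d (a (c (f (g (a (d (a (g
  e)))))))))))), t false 1 (c (f (d (g (a (d (c (f (a (g (d (a e)))))))))))), t false 1 (d (c (f (d
  (g (a (d (c (f (a (g (d e)))))))))))), t true 1 (d (g (a (d (c (f (d (a (g (a (d (f e)))))))))))),
  t true 1 (f (d (g (a (d (c (f (d (a (g (a (d e))))))))))))])) .nil .nil .nil .nil .nil) .nil .nil)
  .nil .nil .nil) .nil) .nil .nil) .nil .nil .nil .nil .nil)) .nil .nil .nil .nil .nil) .nil (.br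
  .nil .nil (.br (.br .nil .nil .nil (.br .nil (.br (.br .nil .nil .nil .nil (.br .nil (.br (.br
  .nil .nil .nil .nil .nil (.hit [t true 1 (a (c (f (g (a (b (c (f (a (d (g (d e)))))))))))), t
  false 1 (a (d (g (a (b (c (f (a (b (d (c (g e)))))))))))), t false 1 (a (f (d (c (g (a (b (c (f (a
  (d (g e)))))))))))), t true 1 (a (g (a (b (c (f (a (b (d (c (g (a e)))))))))))), t true 1 (a (g (a
  (b (c (f (a (d (c (g (a (d e)))))))))))), t true 1 (d (g (a (b (d (f (a (b (d (a (c (g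
  e)))))))))))), t false 1 (g (a (b (d (f (a (b (d (a (c (g (f e))))))))))))])) .nil .nil .nil .nil
  .nil) .nil .nil .nil .nil) .nil) .nil .nil .nil .nil .nil) .nil .nil .nil .nil) .nil .nil) .nil
  .nil .nil .nil .nil) .nil .nil .nil)) (.br (.br .nil .nil .nil (.br (.br .nil .nil .nil .nil .nil
  (.hit [t false 1 (d (g (a (d (a (g e))))))])) (.br (.br .nil .nil .nil .nil (.br .nil .nil .nil
  .nil .nil (.hit [t false 1 (a (b (d (a (g (f (a (b e)))))))), t false 1 (d (f (a (b (d (a (g (f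
  e)))))))), t false 1 (d (g (f (a (b (d (a (g e)))))))), t true 1 (f (a (b (d (a (g (f (a
  e))))))))])) .nil) .nil .nil .nil .nil .nil) .nil .nil (.br (.br .nil .nil .nil .nil .nil (.hit [t
  false 1 (d (g (a (f (d (a (g e))))))), t false 1 (f (d (g (a (f (a (g e)))))))])) .nil .nil (.br
  (.br .nil .nil .nil .nil .nil (.hit [t false 1 (a (g (a (d (f (d (a (g e)))))))), t true 1 (d (a
  (g (a (f (d (a (g e)))))))), t false 1 (d (f (a (g (a (d (a (g e)))))))), t false 1 (f (a (g (a (d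
  (f (a (g e)))))))), t true 1 (f (d (a (g (a (f (a (g e))))))))])) .nil .nil .nil .nil .nil) .nil
  .nil) .nil) (.br (.br .nil .nil .nil .nil .nil (.hit [t false 1 (f (g (a (f (a (g e))))))])) (.br
  (.br .nil .nil .nil .nil .nil (.hit [t false 1 (a (b (f (a (g (a (b e))))))), t false 1 (f (g (a
  (b (f (a (g e)))))))])) .nil (.br (.br .nil .nil .nil (.br .nil .nil .nil .nil .nil (.hit [t true
  1 (a (b (f (g (a (b (c (d (g e))))))))), t true 1 (a (f (g (a (d (a (c (b (g e))))))))), t false 1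
  (b (c (d (f (g (a (d (a (g e))))))))), t true 1 (c (d (a (f (g (a (d (a (g e))))))))), t false 1
  (d (a (f (g (a (d (a (c (g e))))))))), t false 1 (f (g (d (a (c (b (f (a (g e)))))))))])) .nil
  .nil) .nil .nil .nil .nil .nil) .nil .nil .nil) (.br .nil (.br (.br .nil .nil .nil .nil .nil (.hit
  [t false 1 (a (b (f (a (g (a (b (c e)))))))), t false 1 (f (g (a (b (c (f (a (g e))))))))])) .nil
  .nil .nil .nil .nil) .nil (.br (.br .nil .nil .nil .nil .nil (.hit [t false 1 (d (f (g (a (d (a (c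
  (g e)))))))), t false 1 (f (g (a (d (c (f (a (g e))))))))])) (.br (.br .nil .nil .nil .nil .nil
  (.hit [t false 1 (a (b (d (f (a (g (a (b (c e))))))))), t false 1 (d (f (g (a (b (d (a (c (g
  e))))))))), t false 1 (f (g (a (b (d (c (f (a (g e)))))))))])) .nil .nil .nil .nil .nil) .nil .nil
  .nil .nil) .nil .nil) (.br (.br .nil .nil .nil .nil .nil (.hit [t false 1 (d (f (g (a (d (a (g
  e))))))), t false 1 (f (g (a (d (f (a (g e)))))))])) (.br (.br .nil .nil .nil .nil .nil (.hit [t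
  false 1 (a (b (d (f (a (g (a (b e)))))))), t false 1 (d (f (g (a (b (d (a (g e)))))))), t false 1
  (f (g (a (b (d (f (a (g e))))))))])) .nil .nil .nil .nil .nil) .nil .nil .nil .nil) .nil .nil)
  .nil) (.br (.br .nil .nil .nil .nil (.br .nil (.br .nil .nil (.br (.br .nil .nil .nil (.br .nil
  .nil .nil .nil .nil (.hit [t false 1 (a (b (a (d (g (a (f (a (b (g e)))))))))), t false 1 (a (b (d
  (g (a (d (f (a (b (g e)))))))))), t true 1 (a (b (f (d (c (g (a (d (a (g e)))))))))), t true 1 (a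
  (c (b (a (g (a (f (a (b (g e)))))))))), t true 1 (a (d (g (a (d (c (f (a (b (g e)))))))))), t true
  1 (a (f (a (b (d (g (a (d (a (g e)))))))))), t false 1 (a (f (a (d (g (a (d (a (c (g e)))))))))),
  t false 1 (a (f (d (g (a (d (a (c (b (g e)))))))))), t false 1 (b (f (a (b (d (g (a (f (a (g
  e)))))))))), t true 1 (c (b (f (a (b (g (a (f (a (g e)))))))))), t true 1 (c (g (a (b (c (f (d (c
  (g (a e)))))))))), t false 1 (d (a (f (a (b (g (a (d (a (g e)))))))))), t true 1 (d (a (f (a (g (a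
  (d (a (c (g e)))))))))), t false 1 (d (c (g (a (b (c (f (d (c (g e)))))))))), t true 1 (d (g (a (b
  (c (f (a (b (d (g e)))))))))), t false 1 (d (g (d (a (c (b (f (a (b (g e)))))))))), t true 1 (f (a
  (b (d (g (a (d (f (a (g e)))))))))), t false 1 (f (a (d (g (a (d (c (f (a (g e)))))))))), t false
  1 (f (d (g (a (b (c (f (a (d (g e)))))))))), t true 1 (f (d (g (d (a (c (b (f (a (g e)))))))))), t
  false 1 (g (a (b (c (f (a (b (d (g (a e)))))))))), t false 1 (g (a (b (c (f (d (c (g (a (d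
  e))))))))))])) .nil .nil) .nil .nil .nil .nil .nil) .nil .nil .nil) (.br .nil .nil .nil (.br (.br
  .nil .nil .nil .nil .nil (.hit [t true 1 (a (b (g (a (d (f (a (b (g e))))))))), t false 1 (a (c (b
  (g (a (f (a (b (g e))))))))), t false 1 (a (g (a (d (c (f (a (b (g e))))))))), t false 1 (b (g (a
  (d (f (a (b (g (a e))))))))), t true 1 (c (b (g (a (f (a (b (g (a e))))))))), t true 1 (c (f (a (b
  (g (a (f (a (g e))))))))), t false 1 (d (f (a (b (g (a (d (a (g e))))))))), t true 1 (d (f (a (g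
  (a (d (a (c (g e))))))))), t false 1 (f (a (b (g (a (d (f (a (g e))))))))), t true 1 (f (a (g (a
  (d (c (f (a (g e)))))))))])) .nil .nil .nil .nil .nil) .nil .nil) .nil .nil .nil) .nil) .nil (.br
  (.br .nil .nil .nil (.br .nil .nil .nil .nil (.br (.br .nil .nil .nil .nil .nil (.hit [t false 1
  (a (b (f (g (a (b (c (d (g e))))))))), t false 1 (a (f (g (a (d (a (c (b (g e))))))))), t false 1
  (c (d (a (f (g (a (d (a (g e))))))))), t false 1 (c (d (f (g (a (f (d (a (g e))))))))), t true 1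
  (c (d (g (a (f (a (g (d (a e))))))))), t false 1 (c (f (d (g (a (f (a (g (d e))))))))), t true 1
  (d (a (f (g (a (d (a (c (g e))))))))), t true 1 (d (f (g (a (f (d (a (c (g e))))))))), t false 1
  (d (g (a (f (a (g (d (a (c e))))))))), t true 1 (f (d (g (a (f (a (g (d (c e))))))))), t true 1 (f
  (g (a (b (c (f (a (d (g e))))))))), t false 1 (f (g (a (f (d (a (c (b (g e))))))))), t false 1 (g
  (a (b (c (f (a (d (g (a e))))))))), t false 1 (g (a (f (a (b (c (g (a (d e))))))))), t true 1 (g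
  (a (f (a (g (d (a (c (b e)))))))))])) .nil .nil .nil .nil .nil) .nil) .nil .nil) .nil .nil .nil
  .nil .nil) .nil .nil .nil) (.br (.br .nil .nil .nil (.br (.br .nil .nil .nil .nil .nil (.hit [t
  false 1 (d (g (a (d (a (c (g e)))))))])) (.br (.br .nil .nil .nil .nil (.br .nil (.br (.br .nil
  .nil .nil .nil .nil (.hit [t false 1 (a (b (f (a (d (g (a (b (c (d (g e))))))))))), t true 1 (a (f
  (a (d (c (g (a (b (c (d (g e))))))))))), t true 1 (c (f (g (a (b (c (f (a (d (g (d e))))))))))), t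
  false 1 (d (g (a (b (c (f (a (b (d (c (g e))))))))))), t false 1 (d (g (a (b (f (a (b (d (a (c (g
  e))))))))))), t false 1 (f (d (c (g (a (b (c (f (a (d (g e))))))))))), t true 1 (g (a (b (c (f (a
  (b (d (c (g (a e))))))))))), t true 1 (g (a (b (c (f (a (d (c (g (a (d e)))))))))))])) .nil .nil
  .nil .nil .nil) .nil .nil .nil (.hit [t false 1 (a (b (d (a (g (f (a (b (c e))))))))), t false 1
  (d (f (a (b (d (a (c (g (f e))))))))), t false 1 (d (g (f (a (b (d (a (c (g e))))))))), t true 1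
  (f (a (b (d (a (c (g (f (a e)))))))))])) .nil) .nil .nil .nil .nil .nil) .nil .nil (.br (.br .nil
  .nil .nil .nil .nil (.hit [t false 1 (d (g (a (f (d (a (c (g e)))))))), t false 1 (f (d (c (g (a
  (f (a (g e))))))))])) .nil .nil .nil .nil .nil) .nil) .nil .nil) (.br (.br .nil .nil .nil .nil
  (.br .nil (.br .nil .nil (.br (.br .nil .nil .nil (.br .nil .nil .nil .nil .nil (.hit [t false 1
  (a (b (a (d (g (a (f (a (b (c (g e))))))))))), t false 1 (a (b (d (g (a (d (f (a (b (c (g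
  e))))))))))), t true 1 (a (b (f (d (c (g (a (d (a (c (g e))))))))))), t true 1 (a (c (b (a (g (a
  (f (a (b (c (g e))))))))))), t true 1 (a (c (b (f (a (g (a (b (c (d (g e))))))))))), t true 1 (a
  (d (g (a (d (c (f (a (b (c (g e))))))))))), t true 1 (a (f (a (b (d (g (a (d (a (c (g
  e))))))))))), t true 1 (a (f (d (c (g (a (d (a (c (b (g e))))))))))), t false 1 (b (c (b (f (a (g
  (a (d (f (a (g e))))))))))), t false 1 (b (f (a (b (d (c (g (a (f (a (g e))))))))))), t false 1 (b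
  (f (a (d (c (g (a (d (f (a (g e))))))))))), t true 1 (b (f (d (c (g (a (d (c (f (a (g
  e))))))))))), t true 1 (c (b (f (a (b (c (g (a (f (a (g e))))))))))), t false 1 (c (f (g (a (b (c
  (f (a (d (g (d e))))))))))), t false 1 (d (a (f (a (b (g (a (d (a (c (g e))))))))))), t true 1 (d
  (g (a (b (c (f (a (b (d (c (g e))))))))))), t false 1 (d (g (d (a (c (b (f (a (b (c (g
  e))))))))))), t true 1 (f (a (b (d (g (a (d (c (f (a (g e))))))))))), t true 1 (f (d (c (g (a (b
  (c (f (a (d (g e))))))))))), t false 1 (f (d (c (g (d (a (c (b (f (a (g e))))))))))), t false 1 (g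
  (a (b (c (f (a (b (d (c (g (a e))))))))))), t false 1 (g (a (b (c (f (a (d (c (g (a (d
  e)))))))))))])) .nil .nil) .nil .nil .nil .nil .nil) .nil .nil .nil) (.br .nil .nil .nil (.br (.br
  .nil .nil .nil .nil .nil (.hit [t true 1 (a (b (g (a (d (f (a (b (c (g e)))))))))), t false 1 (a
  (c (b (g (a (f (a (b (c (g e)))))))))), t false 1 (a (g (a (d (c (f (a (b (c (g e)))))))))), t
  false 1 (b (g (a (d (f (a (b (c (g (a e)))))))))), t true 1 (c (b (g (a (f (a (b (c (g (a
  e)))))))))), t true 1 (c (f (a (b (c (g (a (f (a (g e)))))))))), t false 1 (d (f (a (b (g (a (d (a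
  (c (g e)))))))))), t false 1 (f (a (b (g (a (d (c (f (a (g e))))))))))])) .nil .nil .nil .nil
  .nil) .nil .nil) .nil .nil .nil) .nil) .nil .nil .nil .nil .nil) .nil .nil .nil .nil) .nil (.br
  (.br .nil .nil .nil (.br (.br .nil .nil .nil .nil (.br .nil .nil .nil .nil .nil (.hit [t false 1
  (d (f (g (a (d (a (g (f e)))))))), t false 1 (d (g (f (a (d (a (f (g e)))))))), t false 1 (f (d (g
  (a (d (f (a (g e)))))))), t true 1 (f (g (a (d (a (g (f (a e)))))))), t false 1 (g (d (f (a (d (g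
  (a (f e))))))))])) .nil) (.br (.br .nil .nil .nil .nil .nil (.hit [t false 1 (a (b (d (a (f (g (a
  (b e)))))))), t false 1 (d (f (g (a (b (d (a (f e)))))))), t false 1 (d (g (a (b (d (a (f (g
  e)))))))), t true 1 (f (g (a (b (d (a (f (a e))))))))])) .nil .nil .nil .nil .nil) .nil .nil .nil
  .nil) .nil .nil) (.br .nil .nil (.br (.br .nil .nil .nil (.br (.br .nil .nil .nil .nil (.br .nil
  .nil .nil .nil .nil (.hit [t false 1 (a (b (g (f (a (b (c (d (f (g e)))))))))), t false 1 (a (g (f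
  (a (d (a (c (b (f (g e)))))))))), t true 1 (b (g (f (a (b (c (d (f (g (a e)))))))))), t false 1 (c
  (d (a (g (f (a (d (a (f (g e)))))))))), t true 1 (c (d (f (a (g (a (f (d (a (g e)))))))))), t
  false 1 (c (d (f (g (a (d (a (g (f (d e)))))))))), t false 1 (c (d (g (a (f (a (g (d (a (f
  e)))))))))), t false 1 (c (f (d (g (a (d (f (a (g (d e)))))))))), t true 1 (c (f (g (a (d (a (g (f
  (a (d e)))))))))), t false 1 (c (g (d (a (f (a (d (g (a (f e)))))))))), t true 1 (d (a (g (f (a (d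
  (a (c (f (g e)))))))))), t false 1 (d (f (a (g (a (f (d (a (c (g e)))))))))), t true 1 (d (f (g (a
  (d (a (g (f (d (c e)))))))))), t true 1 (d (g (a (f (a (g (d (a (c (f e)))))))))), t false 1 (f (a
  (b (c (g (a (d (f (a (g e)))))))))), t false 1 (f (a (g (a (b (c (f (a (d (g e)))))))))), t true 1
  (f (a (g (a (f (d (a (c (b (g e)))))))))), t true 1 (f (a (g (d (a (c (b (f (a (g e)))))))))), t
  true 1 (f (d (g (a (d (f (a (g (d (c e)))))))))), t false 1 (f (g (a (d (a (g (f (a (d (c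
  e)))))))))), t true 1 (g (a (f (a (b (c (g (a (d (f e)))))))))), t false 1 (g (a (f (a (g (d (a (c
  (b (f e)))))))))), t true 1 (g (d (a (f (a (d (c (g (a (f e))))))))))])) .nil) .nil .nil .nil .nil
  .nil) .nil .nil) .nil .nil .nil .nil .nil) .nil .nil .nil) (.br (.br .nil .nil .nil (.br .nil (.br
  (.br .nil .nil .nil .nil .nil (.hit [t false 1 (a (b (d (a (f (g (a (b (c e))))))))), t false 1 (d
  (f (g (a (b (d (a (c (f e))))))))), t false 1 (d (g (a (b (d (a (c (f (g e))))))))), t true 1 (f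
  (g (a (b (d (a (c (f (a e)))))))))])) .nil .nil .nil .nil .nil) .nil .nil .nil .nil) .nil .nil)
  .nil .nil .nil .nil .nil) .nil .nil .nil) .nil))

def Ca : C := (.br (.ba b_aa) (.br (.br .nil .nil .nil .nil (.ov [(false, (f (b (a (b e)))))]) (.ov
  [(false, (g (b (a (b e)))))])) .nil (.br (.br .nil .nil .nil (.ov [(false, (d (c (b (a (b
  e))))))]) .nil .nil) .nil .nil .nil .nil .nil) .nil .nil .nil) (.ba b_ca) (.br .nil .nil .nil .nil
  (.br .nil (.br (.br .nil .nil .nil .nil .nil (.br .nil .nil (.br .nil .nil .nil (.br (.br .nil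
  .nil .nil .nil (.br .nil .nil .nil (.br .nil .nil .nil .nil .nil (.ov [(false, (g (d (g (d (c (f
  (a (d (a (f (g (d e)))))))))))))])) .nil .nil) .nil) .nil .nil .nil .nil .nil) .nil .nil) .nil
  .nil .nil)) .nil .nil .nil .nil .nil) (.br (.br .nil .nil .nil (.br (.br .nil .nil .nil .nil (.ov
  [(false, (f (a (d (c (f (d (a (f e)))))))))]) .nil) .nil .nil .nil .nil (.br (.br .nil .nil .nil
  .nil (.br (.br .nil .nil .nil .nil .nil (.ov [(false, (g (a (f (a (g (d (c (f (d (a (f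
  e))))))))))))])) .nil .nil (.br (.br .nil .nil .nil .nil .nil (.ov [(false, (g (a (d (f (a (g (d
  (c (f (d (a (f e)))))))))))))])) .nil .nil .nil .nil .nil) .nil .nil) .nil) .nil .nil .nil .nil
  .nil)) .nil .nil) .nil .nil .nil .nil .nil) .nil .nil .nil) (.br .nil .nil (.br (.br .nil .nil
  .nil (.br (.br .nil .nil .nil .nil .nil (.ov [(false, (g (a (d (c (g (d (a (g e)))))))))])) .nil
  .nil .nil (.br (.br .nil .nil .nil .nil .nil (.ov [(false, (g (a (f (d (c (g (d (a (g
  e))))))))))])) .nil .nil .nil .nil .nil) .nil) .nil .nil) .nil .nil .nil .nil .nil) .nil (.br .nil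
  (.br .nil .nil (.br (.br .nil .nil .nil (.br (.br .nil .nil .nil .nil (.br .nil .nil .nil .nil
  .nil (.ov [(true, (g (f (d (a (c (b (g (d (a (f (g e))))))))))))])) .nil) .nil .nil .nil .nil
  .nil) .nil .nil) .nil .nil .nil .nil .nil) .nil .nil .nil) (.br (.br .nil .nil .nil (.br (.br .nil
  .nil .nil .nil (.br .nil .nil .nil .nil .nil (.ov [(false, (g (f (a (d (c (g (d (a (f (g
  e)))))))))))])) .nil) .nil .nil .nil .nil .nil) .nil .nil) .nil .nil .nil .nil .nil) .nil .nil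
  .nil) .nil)) (.br (.br .nil .nil .nil (.br (.br .nil .nil .nil .nil (.ov [(false, (f (a (d (f (a
  (f e)))))))]) (.br .nil (.br (.br .nil .nil .nil .nil (.br (.br .nil .nil .nil .nil .nil (.ov
  [(true, (g (a (f (a (b (g (d (f (a (d (f e))))))))))))])) .nil .nil .nil .nil .nil) .nil) .nil
  .nil .nil .nil .nil) .nil .nil .nil .nil)) .nil .nil .nil .nil (.br (.br .nil .nil .nil .nil (.br
  (.br .nil .nil .nil .nil .nil (.ov [(false, (g (a (f (a (g (d (f (a (f e))))))))))])) (.br .nil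
  .nil (.br (.br .nil .nil .nil (.br .nil .nil .nil .nil .nil (.ov [(false, (g (d (a (c (b (f (a (g
  (d (f (a (f e)))))))))))))])) .nil .nil) .nil .nil .nil .nil .nil) .nil .nil .nil) (.br .nil .nil
  .nil (.br (.br .nil .nil .nil .nil .nil (.ov [(false, (g (a (d (c (f (a (g (d (f (a (f
  e))))))))))))])) .nil .nil .nil .nil .nil) .nil .nil) (.br (.br .nil .nil .nil .nil .nil (.ov
  [(false, (g (a (d (f (a (g (d (f (a (f e)))))))))))])) .nil .nil .nil .nil .nil) .nil .nil) .nil)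
  .nil (.br .nil .nil .nil (.br (.br .nil .nil .nil .nil (.br (.br .nil .nil .nil (.br .nil .nil
  .nil .nil .nil (.ov [(false, (g (d (a (f (a (d (c (g (d (f (a (f e)))))))))))))])) .nil .nil) .nil
  .nil (.br .nil .nil .nil .nil .nil (.ov [(false, (g (d (f (a (d (c (g (d (f (a (f e))))))))))))]))
  .nil .nil) .nil) .nil .nil .nil .nil .nil) .nil .nil) (.br (.br .nil .nil .nil .nil (.br .nil .nil
  (.br .nil (.br (.br .nil .nil .nil .nil .nil (.ov [(false, (g (a (b (c (f (a (d (g (d (f (a (f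
  e)))))))))))))])) .nil .nil .nil .nil .nil) .nil .nil .nil .nil) .nil .nil .nil) .nil) .nil .nil
  .nil .nil .nil) .nil .nil)) .nil (.br .nil .nil (.br .nil .nil .nil (.br (.br .nil .nil .nil .nil
  (.br (.br .nil .nil .nil (.br .nil .nil .nil .nil .nil (.ov [(false, (g (d (a (f (a (d (c (g (f (a
  (f e))))))))))))])) .nil .nil) .nil (.br .nil (.br (.br .nil .nil .nil .nil .nil (.ov [(true, (g
  (a (b (c (f (a (d (g (a (f (a (c e)))))))))))))])) .nil .nil .nil .nil .nil) .nil .nil .nil .nil)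
  .nil .nil .nil) .nil) .nil .nil .nil .nil .nil) .nil .nil) (.br (.br .nil .nil .nil .nil (.br (.br
  .nil .nil .nil (.br .nil .nil .nil .nil .nil (.ov [(false, (g (d (a (f (a (d (g (f (a (f
  e)))))))))))])) .nil .nil) .nil (.br .nil (.br (.br .nil .nil .nil .nil .nil (.ov [(false, (g (a
  (b (c (f (a (d (g (f (a (f e))))))))))))])) .nil .nil .nil .nil .nil) .nil (.br .nil (.br (.br
  .nil .nil .nil .nil .nil (.ov [(false, (g (a (b (d (c (f (a (d (g (f (a (f e)))))))))))))])) .nil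
  .nil .nil .nil .nil) .nil .nil .nil .nil) .nil .nil) (.br .nil .nil .nil .nil .nil (.ov [(false,
  (g (d (f (a (d (g (f (a (f e))))))))))])) .nil .nil) .nil) .nil .nil .nil .nil .nil) .nil .nil))
  (.br (.br .nil .nil .nil .nil .nil (.br .nil .nil (.br .nil .nil .nil (.br (.br .nil .nil .nil
  .nil (.br (.br .nil .nil .nil (.br .nil .nil .nil .nil .nil (.ov [(false, (g (d (f (a (d (c (g (a
  (b (f (a (a e)))))))))))))])) .nil .nil) .nil .nil (.br .nil .nil .nil .nil .nil (.ov [(true, (g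
  (d (f (d (c (g (a (b (f (a (f e))))))))))))])) .nil .nil) .nil) .nil .nil .nil .nil .nil) .nil
  .nil) .nil .nil .nil)) .nil (.br (.br .nil .nil .nil (.br .nil .nil .nil .nil .nil (.br (.br .nil
  .nil .nil .nil (.br (.br .nil .nil .nil .nil .nil (.ov [(true, (g (a (f (a (b (c (g (f (a (d (f
  e)))))))))))), (true, (g (a (f (a (g (d (a (f (d (c (b e))))))))))))])) .nil .nil (.br (.br .nil
  .nil .nil .nil .nil (.ov [(true, (g (a (d (f (a (b (c (g (f (a (d (f e))))))))))))), (false, (g (a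
  (d (f (a (g (f (d (a (c (b (f e)))))))))))))])) .nil .nil .nil .nil .nil) .nil .nil) .nil) .nil
  .nil .nil .nil .nil)) .nil .nil) .nil .nil .nil .nil .nil) .nil .nil .nil) (.br (.br .nil .nil
  .nil (.br (.br .nil .nil .nil .nil .nil (.br .nil (.br (.br .nil .nil .nil .nil (.br (.br .nil
  .nil .nil .nil .nil (.ov [(true, (g (a (f (a (b (g (d (f (a (d (c (f e)))))))))))))])) .nil .nil
  .nil .nil .nil) .nil) .nil .nil .nil .nil .nil) .nil .nil .nil .nil)) .nil .nil .nil .nil (.br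
  (.br .nil .nil .nil .nil (.br (.br .nil .nil .nil .nil .nil (.ov [(false, (g (a (f (a (g (d (c (f
  (a (f e)))))))))))])) .nil .nil (.br (.br .nil .nil .nil .nil .nil (.ov [(true, (g (a (d (f (a (g
  (d (a (f (a (c e))))))))))))])) .nil .nil .nil .nil .nil) .nil .nil) .nil) .nil .nil .nil .nil
  .nil)) .nil .nil) (.br (.br .nil .nil .nil .nil .nil (.br .nil .nil (.br .nil .nil .nil (.br (.br
  .nil .nil .nil .nil (.br (.br .nil .nil .nil (.br .nil .nil .nil .nil .nil (.ov [(false, (g (d (f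
  (a (d (c (g (a (b (c (f (a (a e))))))))))))))])) .nil .nil) .nil .nil (.br .nil .nil .nil .nil
  .nil (.ov [(true, (g (d (f (a (d (c (g (a (b (f (a (c e)))))))))))))])) .nil .nil) .nil) .nil .nil
  .nil .nil .nil) .nil .nil) .nil .nil .nil)) .nil .nil .nil .nil .nil) .nil .nil .nil .nil) (.br
  (.br .nil .nil .nil .nil .nil (.br (.br .nil .nil .nil (.br .nil .nil .nil .nil (.br .nil .nil
  (.br .nil .nil .nil (.br (.br .nil .nil .nil .nil .nil (.ov [(false, (g (a (d (c (f (d (a (g (f (a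
  (d (f e)))))))))))))])) .nil .nil .nil .nil .nil) .nil .nil) .nil .nil .nil) .nil) .nil .nil) .nil
  .nil .nil .nil .nil)) .nil .nil .nil .nil .nil) .nil (.br .nil .nil (.br (.br .nil .nil .nil (.br
  .nil (.br (.br .nil .nil .nil .nil (.br .nil (.br (.br .nil .nil .nil .nil .nil (.ov [(false, (g
  (a (b (g (f (a (b (d (a (c (g (a e)))))))))))))])) .nil .nil .nil .nil .nil) .nil .nil .nil .nil)
  .nil) .nil .nil .nil .nil .nil) .nil .nil .nil .nil) .nil .nil) .nil .nil .nil .nil .nil) .nil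
  .nil .nil)) (.br (.br .nil .nil .nil (.br (.br .nil .nil .nil .nil .nil (.ov [(false, (g (a (d (g
  (a (g e)))))))])) (.br (.br .nil .nil .nil .nil (.br .nil .nil .nil .nil .nil (.ov [(false, (g (f
  (a (b (d (g (a (g e)))))))))])) .nil) .nil .nil .nil .nil .nil) .nil .nil (.br (.br .nil .nil .nil
  .nil .nil (.ov [(false, (g (a (f (d (g (a (g e))))))))])) .nil .nil (.br (.br .nil .nil .nil .nil
  .nil (.ov [(true, (g (d (f (d (a (g (a (g e)))))))))])) .nil .nil .nil .nil .nil) .nil .nil) .nil)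
  (.br (.br .nil .nil .nil .nil .nil (.ov [(false, (g (a (f (g (a (g e)))))))])) (.br (.br .nil .nil
  .nil .nil .nil (.ov [(false, (g (a (b (f (g (a (g e))))))))])) .nil (.br (.br .nil .nil .nil (.br
  .nil .nil .nil .nil .nil (.ov [(false, (g (d (a (c (b (f (g (a (g e))))))))))])) .nil .nil) .nil
  .nil .nil .nil .nil) .nil .nil .nil) (.br .nil (.br (.br .nil .nil .nil .nil .nil (.ov [(true, (g
  (a (b (f (a (g (a (c e)))))))))])) .nil .nil .nil .nil .nil) .nil (.br (.br .nil .nil .nil .nil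
  .nil (.ov [(false, (g (a (d (c (f (g (a (g e)))))))))])) (.br (.br .nil .nil .nil .nil .nil (.ov
  [(true, (g (a (b (d (f (a (g (a (c e))))))))))])) .nil .nil .nil .nil .nil) .nil .nil .nil .nil)
  .nil .nil) (.br (.br .nil .nil .nil .nil .nil (.ov [(false, (g (a (d (f (g (a (g e))))))))])) (.br
  (.br .nil .nil .nil .nil .nil (.ov [(false, (g (a (b (d (f (g (a (g e)))))))))])) .nil .nil .nil
  .nil .nil) .nil .nil .nil .nil) .nil .nil) .nil) (.br (.br .nil .nil .nil .nil (.br .nil (.br .nil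
  .nil (.br (.br .nil .nil .nil (.br .nil .nil .nil .nil .nil (.ov [(false, (g (a (b (f (d (c (g (a
  (d (g e))))))))))), (true, (g (d (a (c (f (a (b (g (a (g e)))))))))))])) .nil .nil) .nil .nil .nil
  .nil .nil) .nil .nil .nil) (.br .nil .nil .nil (.br (.br .nil .nil .nil .nil .nil (.ov [(true, (g
  (d (c (f (a (b (g (a (g e))))))))))])) .nil .nil .nil .nil .nil) .nil .nil) .nil .nil .nil) .nil)
  .nil (.br (.br .nil .nil .nil (.br .nil .nil .nil .nil (.br (.br .nil .nil .nil .nil .nil (.ov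
  [(true, (g (a (b (c (f (g (a (d (g e)))))))))), (false, (g (a (f (g (d (a (c (b (g e))))))))))]))
  .nil .nil .nil .nil .nil) .nil) .nil .nil) .nil .nil .nil .nil .nil) .nil .nil .nil) (.br (.br
  .nil .nil .nil (.br (.br .nil .nil .nil .nil .nil (.ov [(true, (g (a (d (a (g (a (c e))))))))]))
  (.br (.br .nil .nil .nil .nil (.br .nil (.br (.br .nil .nil .nil .nil .nil (.ov [(true, (g (a (b
  (f (a (d (c (g (a (d (g e))))))))))))])) .nil .nil .nil .nil .nil) .nil .nil .nil (.ov [(true, (g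
  (f (a (b (d (a (g (a (c e))))))))))])) .nil) .nil .nil .nil .nil .nil) .nil .nil (.br (.br .nil
  .nil .nil .nil .nil (.ov [(true, (g (a (f (d (a (g (a (c e)))))))))])) .nil .nil .nil .nil .nil)
  .nil) .nil .nil) (.br (.br .nil .nil .nil .nil (.br .nil (.br .nil .nil (.br (.br .nil .nil .nil
  (.br .nil .nil .nil .nil .nil (.ov [(false, (g (d (g (d (a (c (f (a (b (c (g e))))))))))))])) .nil
  .nil) .nil .nil .nil .nil .nil) .nil .nil .nil) (.br .nil .nil .nil (.br (.br .nil .nil .nil .nil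
  .nil (.ov [(true, (g (d (c (f (a (b (c (g (a (g e)))))))))))])) .nil .nil .nil .nil .nil) .nil
  .nil) .nil .nil .nil) .nil) .nil .nil .nil .nil .nil) .nil .nil .nil .nil) .nil (.br (.br .nil
  .nil .nil (.br (.br .nil .nil .nil .nil (.br .nil .nil .nil .nil .nil (.ov [(false, (g (f (a (d (g
  (a (f (g e)))))))))])) .nil) (.br (.br .nil .nil .nil .nil .nil (.ov [(false, (g (a (b (d (g (a (f
  (g e)))))))))])) .nil .nil .nil .nil .nil) .nil .nil .nil .nil) .nil .nil) (.br .nil .nil (.br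
  (.br .nil .nil .nil (.br (.br .nil .nil .nil .nil (.br .nil .nil .nil .nil .nil (.ov [(true, (g (f
  (d (a (c (b (g (a (f (g e)))))))))))])) .nil) .nil .nil .nil .nil .nil) .nil .nil) .nil .nil .nil
  .nil .nil) .nil .nil .nil) (.br (.br .nil .nil .nil (.br .nil (.br (.br .nil .nil .nil .nil .nil
  (.ov [(true, (g (a (b (d (a (f (g (a (c e))))))))))])) .nil .nil .nil .nil .nil) .nil .nil .nil
  .nil) .nil .nil) .nil .nil .nil .nil .nil) .nil .nil .nil) .nil))

def Rb : R := (.br (.br .nil (.hit [t true 1 (a (b (a e)))]) .nil (.hit [t false 1 (a (b (c e))), t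
  true 1 (b (c (d e))), t false 1 (c (d (a e)))]) (.br .nil (.br (.br .nil .nil .nil .nil .nil (.br
  .nil .nil .nil (.br (.br .nil .nil .nil .nil (.br (.br .nil .nil .nil (.br .nil .nil .nil .nil
  .nil (.hit [t false 1 (a (g (d (a (f (a (d (g (a (b (f (a e)))))))))))), t false 1 (d (a (g (d (f
  (a (d (g (a (b (f (a e)))))))))))), t false 1 (g (a (d (a (c (g (d (f (a (d (a (f e)))))))))))), t
  true 1 (g (a (d (a (g (f (a (b (c (d (f (a e))))))))))))])) .nil .nil) .nil .nil .nil .nil .nil)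
  .nil) .nil .nil .nil .nil .nil) .nil .nil)) .nil .nil .nil .nil .nil) .nil (.br (.br .nil .nil
  .nil .nil .nil (.br .nil .nil (.br .nil (.br (.br .nil .nil .nil .nil (.br (.br .nil .nil .nil
  .nil .nil (.hit [t true 1 (a (b (c (d (f (g (a (b (c (d (g (f e)))))))))))), t false 1 (a (b (c (f
  (d (g (a (d (f (a (b (g e)))))))))))), t false 1 (a (b (d (c (f (d (g (a (d (f (a (g
  e)))))))))))), t true 1 (a (b (d (f (g (a (b (c (d (g (f (a e)))))))))))), t false 1 (a (b (f (d
  (g (a (d (f (a (b (g (a e)))))))))))), t true 1 (a (b (f (g (a (b (c (d (g (f (a (b e)))))))))))),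
  t true 1 (a (d (f (a (b (c (g (a (d (f (a (g e)))))))))))), t false 1 (a (d (g (a (b (c (f (a (d
  (g (a (f e)))))))))))), t true 1 (a (f (a (b (c (g (a (d (f (a (b (g e)))))))))))), t false 1 (a
  (g (a (b (c (f (a (d (g (a (b (f e)))))))))))), t false 1 (c (d (f (a (d (g (a (b (c (f (d (g
  e)))))))))))), t false 1 (c (d (f (g (a (b (c (d (c (g (f (d e)))))))))))), t true 1 (c (d (g (a
  (d (f (a (b (c (g (d (f e)))))))))))), t true 1 (c (f (d (g (a (d (f (a (b (c (g (d e)))))))))))),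
  t true 1 (d (c (f (d (g (a (d (c (f (a (g (d e)))))))))))), t false 1 (d (f (a (d (g (a (b (c (f
  (a (d (g e)))))))))))), t false 1 (d (f (g (a (b (c (d (c (g (f (a (d e)))))))))))), t true 1 (d
  (g (a (d (f (a (b (c (g (a (d (f e)))))))))))), t true 1 (f (a (b (c (d (f (g (a (b (c (d (g
  e)))))))))))), t false 1 (f (a (d (g (a (b (c (f (a (d (g (a e)))))))))))), t false 1 (f (a (g (a
  (b (c (f (a (d (g (a (b e)))))))))))), t true 1 (f (d (g (a (d (f (a (b (c (g (a (d e)))))))))))),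
  t false 1 (f (g (a (b (c (d (g (f (a (b (c (d e)))))))))))), t false 1 (g (a (b (c (d (g (f (a (b
  (c (d (f e)))))))))))), t true 1 (g (a (d (f (a (b (c (g (a (d (f (a e))))))))))))])) .nil .nil
  (.br (.br .nil .nil .nil .nil .nil (.hit [t false 1 (a (b (c (d (c (f (g (a (b (c (d (g (f
  e))))))))))))), t false 1 (a (b (d (c (f (d (g (a (d (f (a (b (g e))))))))))))), t false 1 (a (b
  (d (f (d (g (a (d (f (a (b (g (a e))))))))))))), t true 1 (a (b (d (f (g (a (b (c (d (g (f (a (b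
  e))))))))))))), t true 1 (a (c (d (c (f (g (a (b (c (d (g (f (d e))))))))))))), t false 1 (a (d (a
  (c (f (g (a (b (c (d (c (g (f e))))))))))))), t true 1 (a (d (f (a (b (c (g (a (d (f (a (b (g
  e))))))))))))), t false 1 (a (d (g (a (b (c (f (a (d (g (a (b (f e))))))))))))), t false 1 (a (f
  (d (a (g (a (b (d (c (f (a (d (g e))))))))))))), t false 1 (b (c (d (c (f (g (a (b (c (d (g (f (a
  e))))))))))))), t false 1 (b (d (c (f (d (g (a (d (f (a (b (g (a e))))))))))))), t true 1 (b (d (c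
  (f (g (a (b (c (d (g (f (a (b e))))))))))))), t false 1 (c (b (a (d (f (g (a (b (c (d (g (f (d
  e))))))))))))), t true 1 (c (b (d (f (g (a (b (c (d (c (g (f (d e))))))))))))), t true 1 (c (d (a
  (c (f (g (a (b (c (d (g (f (a e))))))))))))), t true 1 (c (d (f (a (d (c (g (a (b (c (f (d (g
  e))))))))))))), t false 1 (c (d (g (a (d (c (f (a (b (c (g (d (f e))))))))))))), t false 1 (c (f
  (d (g (a (d (c (f (a (b (c (g (d e))))))))))))), t false 1 (d (a (c (f (g (a (b (c (d (c (g (f (a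
  e))))))))))))), t true 1 (d (a (f (a (d (g (a (b (c (f (a (d (g e))))))))))))), t true 1 (d (a (f
  (g (a (b (c (d (c (g (f (a (d e))))))))))))), t false 1 (d (a (g (a (b (d (c (f (a (d (g (a (f
  e))))))))))))), t false 1 (d (a (g (a (d (c (f (d (a (g (a (d (f e))))))))))))), t false 1 (d (a
  (g (a (d (f (a (b (c (g (a (d (f e))))))))))))), t true 1 (d (c (f (d (a (g (a (d (f (a (b (g (a
  e))))))))))))), t true 1 (d (c (f (d (g (a (d (c (f (a (b (g (d e))))))))))))), t false 1 (d (c (f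
  (g (a (b (c (d (c (g (f (a (b e))))))))))))), t true 1 (d (f (a (b (c (g (a (d (f (a (b (g (a
  e))))))))))))), t false 1 (d (f (a (b (g (a (d (f (a (b (g (a (f e))))))))))))), t false 1 (d (g
  (a (b (d (c (f (a (d (g (a (b (f e))))))))))))), t false 1 (d (g (a (d (c (f (d (a (g (a (b (d (f
  e))))))))))))), t false 1 (f (a (b (c (d (c (f (g (a (b (c (d (g e))))))))))))), t false 1 (f (a
  (d (a (c (f (g (a (b (c (d (c (g e))))))))))))), t false 1 (f (a (d (g (a (b (c (f (a (d (g (a (b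
  e))))))))))))), t false 1 (f (d (a (g (a (b (d (c (f (a (d (g (a e))))))))))))), t false 1 (f (d
  (a (g (a (d (c (f (d (a (g (a (d e))))))))))))), t false 1 (f (d (a (g (a (d (f (a (b (c (g (a (d
  e))))))))))))), t false 1 (f (d (g (a (b (d (c (f (a (d (g (a (b e))))))))))))), t false 1 (f (d
  (g (a (d (c (f (d (a (g (a (b (d e))))))))))))), t true 1 (f (g (a (b (c (d (c (g (f (a (b (c (d
  e))))))))))))), t true 1 (g (a (b (c (d (c (g (f (a (b (c (d (f e)))))))))))))])) .nil .nil .nil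
  .nil .nil) .nil .nil) .nil) .nil .nil .nil .nil .nil) .nil .nil .nil .nil) .nil .nil .nil)) .nil
  .nil .nil .nil (.br .nil .nil (.br .nil (.br (.br .nil .nil .nil .nil (.br (.br .nil .nil .nil
  .nil .nil (.hit [t false 1 (a (c (d (f (g (a (b (c (d (g (f e))))))))))), t true 1 (a (c (f (d (g
  (a (d (f (a (b (g e))))))))))), t true 1 (a (d (c (f (d (g (a (d (f (a (g e))))))))))), t false 1
  (a (d (f (g (a (b (c (d (g (f (a e))))))))))), t true 1 (a (f (d (g (a (d (f (a (b (g (a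
  e))))))))))), t false 1 (a (f (g (a (b (c (d (g (f (a (b e))))))))))), t true 1 (c (d (f (g (a (b
  (c (d (c (g (f e))))))))))), t false 1 (c (f (a (d (g (a (b (c (f (d (g e))))))))))), t false 1 (c
  (f (d (g (a (d (f (a (b (c (g e))))))))))), t true 1 (c (g (a (d (f (a (b (c (g (d (f
  e))))))))))), t false 1 (d (c (f (d (g (a (d (c (f (a (g e))))))))))), t true 1 (d (f (g (a (b (c
  (d (c (g (f (a e))))))))))), t false 1 (f (a (d (g (a (b (c (f (d (g (a e))))))))))), t false 1 (f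
  (a (g (a (b (c (f (d (g (a (b e))))))))))), t false 1 (f (d (g (a (d (f (a (b (c (g (a
  e))))))))))), t true 1 (f (g (a (b (c (d (g (f (a (b (c e))))))))))), t true 1 (g (a (d (f (a (b
  (c (g (d (f (a e)))))))))))])) .nil .nil (.br (.br .nil .nil .nil .nil .nil (.hit [t true 1 (a (d
  (c (f (d (g (a (d (f (a (b (g e)))))))))))), t true 1 (a (d (f (d (g (a (d (f (a (b (g (a
  e)))))))))))), t false 1 (a (d (f (g (a (b (c (d (g (f (a (b e)))))))))))), t true 1 (c (b (a (d
  (f (g (a (b (c (d (g (f e)))))))))))), t false 1 (c (b (d (f (g (a (b (c (d (c (g (f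
  e)))))))))))), t true 1 (c (f (a (d (c (g (a (b (c (f (d (g e)))))))))))), t true 1 (c (f (d (g (a
  (d (c (f (a (b (c (g e)))))))))))), t false 1 (c (g (a (d (c (f (a (b (c (g (d (f e)))))))))))), t
  false 1 (d (c (f (d (g (a (d (c (f (a (b (g e)))))))))))), t false 1 (d (f (d (a (g (a (d (f (a (b
  (g (a e)))))))))))), t true 1 (d (f (g (a (b (c (d (c (g (f (a (b e)))))))))))), t false 1 (f (a
  (d (g (a (b (c (f (d (g (a (b e)))))))))))), t false 1 (f (d (a (g (a (b (d (c (f (d (g (a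
  e)))))))))))), t true 1 (f (d (a (g (a (d (c (f (d (a (g (a e)))))))))))), t true 1 (f (d (a (g (a
  (d (f (a (b (c (g (a e)))))))))))), t false 1 (f (d (g (a (b (d (c (f (d (g (a (b e)))))))))))), t
  true 1 (f (d (g (a (d (c (f (d (a (g (a (b e)))))))))))), t false 1 (f (g (a (b (c (d (c (g (f (a
  (b (c e))))))))))))])) .nil .nil .nil .nil .nil) .nil .nil) .nil) .nil .nil .nil .nil .nil) .nil
  .nil .nil .nil) .nil .nil .nil)) .nil .nil) (.br .nil (.br (.br .nil .nil .nil .nil (.br (.br .nil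
  .nil .nil .nil .nil (.hit [t true 1 (f (g (a (f (a (b (g (a e))))))))])) .nil .nil (.br (.br .nil
  .nil .nil .nil .nil (.hit [t true 1 (d (c (f (d (g (a (d (a (g e))))))))), t false 1 (d (f (g (a
  (b (c (d (g (a e))))))))), t true 1 (f (g (a (d (f (a (b (g (a e)))))))))])) .nil .nil .nil .nil
  .nil) .nil .nil) .nil) .nil .nil .nil .nil .nil) (.br .nil (.br (.br .nil .nil .nil .nil (.br (.br
  .nil .nil .nil .nil .nil (.hit [t false 1 (c (d (g (a (b (c (f (d (g e))))))))), t true 1 (c (d (g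
  (a (f (a (b (c (g e))))))))), t true 1 (c (f (d (g (a (f (a (b (g e))))))))), t true 1 (d (c (f (d
  (g (a (f (a (g e))))))))), t false 1 (d (g (a (b (c (f (d (g (a e))))))))), t true 1 (d (g (a (f
  (a (b (c (g (a e))))))))), t true 1 (f (d (g (a (f (a (b (g (a e))))))))), t false 1 (g (a (b (c
  (f (d (g (a (b e)))))))))])) .nil .nil (.br (.br .nil .nil .nil .nil .nil (.hit [t true 1 (a (b (d
  (a (g (a (f (d (a (g e)))))))))), t true 1 (a (c (b (d (g (a (f (d (a (g e)))))))))), t false 1 (a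
  (g (a (b (d (c (f (d (g (a e)))))))))), t true 1 (a (g (a (d (c (f (d (a (g (a e)))))))))), t true
  1 (a (g (a (d (f (a (b (c (g (a e)))))))))), t true 1 (b (a (c (b (g (a (f (d (a (g e)))))))))), t
  true 1 (b (d (a (c (g (a (f (d (a (g e)))))))))), t true 1 (c (b (d (c (g (a (f (d (a (g
  e)))))))))), t false 1 (d (a (c (f (d (g (a (f (a (g e)))))))))), t true 1 (d (a (g (a (b (c (f (d
  (g (a e)))))))))), t false 1 (d (a (g (a (f (a (b (c (g (a e)))))))))), t true 1 (d (c (f (a (d (g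
  (a (d (a (g e)))))))))), t false 1 (d (f (a (g (a (b (c (d (g (a e)))))))))), t true 1 (f (a (g (a
  (d (f (a (b (g (a e)))))))))), t false 1 (f (d (a (g (a (f (a (b (g (a e)))))))))), t false 1 (g
  (a (b (d (c (f (d (g (a (b e)))))))))), t true 1 (g (a (d (c (f (d (a (g (a (b e))))))))))])) .nil
  .nil .nil .nil .nil) .nil .nil) .nil) .nil .nil .nil .nil .nil) .nil .nil .nil .nil) .nil (.br
  .nil .nil .nil (.br .nil .nil (.br .nil (.br (.br .nil .nil .nil .nil (.br .nil .nil .nil .nil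
  .nil (.hit [t true 1 (c (d (f (g (a (b (c (d (g (f e)))))))))), t true 1 (c (d (g (f (a (b (c (d
  (f (g e)))))))))), t false 1 (c (f (d (g (a (d (f (a (b (g e)))))))))), t false 1 (c (g (d (f (a
  (d (g (a (b (f e)))))))))), t false 1 (d (c (f (d (g (a (d (f (a (g e)))))))))), t false 1 (d (c
  (g (d (f (a (d (g (a (f e)))))))))), t true 1 (d (f (g (a (b (c (d (g (f (a e)))))))))), t true 1
  (d (g (f (a (b (c (d (f (g (a e)))))))))), t false 1 (f (d (g (a (d (f (a (b (g (a e)))))))))), t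
  true 1 (f (g (a (b (c (d (g (f (a (b e)))))))))), t false 1 (g (d (f (a (d (g (a (b (f (a
  e))))))))))])) .nil) .nil .nil .nil .nil .nil) .nil .nil .nil .nil) .nil .nil .nil) .nil .nil)
  .nil)) (.hit []) (.br .nil (.br (.br .nil .nil .nil .nil (.hit [t true 1 (c (f (a (b (c e)))))])
  (.hit [t true 1 (c (g (a (b (c e)))))])) .nil .nil .nil .nil .nil) .nil (.hit [t false 1 (a (d (c
  e))), t true 1 (b (a (d e))), t false 1 (c (b (a e)))]) .nil .nil) (.hit [t false 1 (b (d e))])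
  (.hit [t false 1 (b (f e))]) (.hit [t false 1 (b (g e))]))

def Cb : C := (.br (.br .nil (.ba b_bab) .nil (.ba b_dab) (.br .nil (.br (.br .nil .nil .nil .nil
  .nil (.br .nil .nil .nil (.br (.br .nil .nil .nil .nil (.br (.br .nil .nil .nil (.br .nil .nil
  .nil .nil .nil (.ov [(false, (g (d (a (f (a (d (g (a (f (a (b (a e)))))))))))))])) .nil .nil) .nil
  .nil .nil .nil .nil) .nil) .nil .nil .nil .nil .nil) .nil .nil)) .nil .nil .nil .nil .nil) .nil
  (.br (.br .nil .nil .nil .nil .nil (.br .nil .nil (.br .nil (.br (.br .nil .nil .nil .nil (.br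
  (.br .nil .nil .nil .nil .nil (.ov [(false, (g (a (d (f (a (b (c (g (f (a (d (f e))))))))))))),
  (false, (g (a (f (a (b (c (g (f (a (b (d (f e)))))))))))))])) .nil .nil (.br (.br .nil .nil .nil
  .nil .nil (.ov [(false, (g (a (d (f (a (b (c (g (f (a (b (d (f e))))))))))))))])) .nil .nil .nil
  .nil .nil) .nil .nil) .nil) .nil .nil .nil .nil .nil) .nil .nil .nil .nil) .nil .nil .nil)) .nil
  .nil .nil .nil (.br .nil .nil (.br .nil (.br (.br .nil .nil .nil .nil (.br (.br .nil .nil .nil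
  .nil .nil (.ov [(false, (g (a (d (c (f (a (g (d (f (a (f e)))))))))))), (true, (g (a (f (a (g (d
  (a (f (a (b (a e))))))))))))])) .nil .nil (.br (.br .nil .nil .nil .nil .nil (.ov [(true, (g (a (f
  (a (b (c (g (d (f (a (b (b e)))))))))))))])) .nil .nil .nil .nil .nil) .nil .nil) .nil) .nil .nil
  .nil .nil .nil) .nil .nil .nil .nil) .nil .nil .nil)) .nil .nil) (.br .nil (.br (.br .nil .nil
  .nil .nil (.br (.br .nil .nil .nil .nil .nil (.ov [(false, (g (a (f (a (g (a (b (a e)))))))))]))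
  .nil .nil (.br (.br .nil .nil .nil .nil .nil (.ov [(false, (g (a (d (f (a (g (a (b (a
  e))))))))))])) .nil .nil .nil .nil .nil) .nil .nil) .nil) .nil .nil .nil .nil .nil) (.br .nil (.br
  (.br .nil .nil .nil .nil (.br (.br .nil .nil .nil .nil .nil (.ov [(false, (g (a (f (d (a (g (a (b
  (a e))))))))))])) .nil .nil (.br (.br .nil .nil .nil .nil .nil (.ov [(false, (g (a (d (f (d (a (g
  (a (b (a e)))))))))))])) .nil .nil .nil .nil .nil) .nil .nil) .nil) .nil .nil .nil .nil .nil) .nil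
  .nil .nil .nil) .nil (.br .nil .nil .nil (.br .nil .nil (.br .nil (.br (.br .nil .nil .nil .nil
  (.br .nil .nil .nil .nil .nil (.ov [(true, (g (f (a (d (a (f (g (a (b (a e)))))))))))])) .nil)
  .nil .nil .nil .nil .nil) .nil .nil .nil .nil) .nil .nil .nil) .nil .nil) .nil)) (.ba b_bb) (.br
  .nil (.br (.br .nil .nil .nil .nil (.ov [(false, (f (a (c (b (c e))))))]) (.ov [(false, (g (a (c
  (b (c e))))))])) .nil .nil .nil .nil .nil) .nil (.ba b_dcb) .nil .nil) (.ba b_db) (.ba b_fb) (.ba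
  b_gb))

def Rc : R := (.br (.br .nil (.br .nil .nil (.hit [t true 1 (b (c (b (a e))))]) .nil .nil .nil) .nil
  (.br .nil .nil .nil .nil (.br (.br .nil .nil .nil .nil .nil (.br .nil .nil (.br .nil .nil .nil
  (.br (.br .nil .nil .nil .nil (.br (.br .nil .nil .nil (.br .nil .nil .nil .nil .nil (.hit [t
  false 1 (a (f (a (d (g (d (a (f (d (c (g (d (a e))))))))))))), t true 1 (d (a (f (a (g (d (a (f (d
  (c (g (d (a e))))))))))))), t true 1 (f (a (d (g (d (a (f (a (d (c (g (d (a e)))))))))))))])) .nil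
  .nil) .nil .nil (.br .nil .nil .nil .nil .nil (.hit [t true 1 (d (f (a (g (d (a (f (d (c (g (d (a
  e)))))))))))), t false 1 (f (a (g (d (a (f (a (d (c (g (d (a e)))))))))))), t true 1 (g (d (a (f
  (a (d (c (g (a (f (d (a e))))))))))))])) .nil .nil) .nil) .nil .nil .nil .nil .nil) .nil .nil)
  .nil .nil .nil)) (.br .nil .nil (.br (.br .nil .nil .nil (.br .nil .nil .nil .nil .nil (.br (.br
  .nil .nil .nil .nil (.br (.br .nil .nil .nil .nil .nil (.hit [t true 1 (a (b (c (b (d (f (g (a (b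
  (c (d (g (f e))))))))))))), t false 1 (a (c (b (d (f (g (a (b (c (d (g (f (a e))))))))))))), t
  false 1 (a (c (b (f (a (d (g (a (f (a (b (g (a e))))))))))))), t false 1 (a (c (b (f (g (a (b (c
  (d (g (f (a (b e))))))))))))), t false 1 (a (c (d (c (f (a (d (g (a (f (a (g (d e))))))))))))), t
  true 1 (a (c (d (c (f (d (a (g (a (d (f (a (g e))))))))))))), t false 1 (a (c (d (c (f (d (g (a (d
  (f (a (g (d e))))))))))))), t true 1 (a (c (d (c (f (g (a (d (a (g (f (a (d e))))))))))))), t true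
  1 (a (c (d (f (a (d (g (a (f (a (g (d (c e))))))))))))), t false 1 (a (c (d (f (d (a (c (b (g (a
  (f (a (g e))))))))))))), t false 1 (a (c (d (f (d (a (g (a (d (c (f (a (g e))))))))))))), t true 1
  (a (c (d (f (d (g (a (d (f (a (g (d (c e))))))))))))), t false 1 (a (c (d (f (g (a (d (a (c (b (g
  (f (a e))))))))))))), t false 1 (a (c (d (f (g (a (d (a (g (f (a (d (c e))))))))))))), t true 1 (a
  (c (d (g (a (b (c (f (a (d (g (a (f e))))))))))))), t true 1 (a (c (d (g (a (f (a (b (c (g (a (d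
  (f e))))))))))))), t false 1 (a (c (d (g (a (f (a (g (d (a (c (b (f e))))))))))))), t false 1 (a
  (c (f (d (a (c (b (g (a (f (a (b (g e))))))))))))), t false 1 (a (c (f (d (a (g (a (d (c (f (a (b
  (g e))))))))))))), t false 1 (a (c (f (g (a (d (a (c (b (g (f (a (b e))))))))))))), t true 1 (a (c
  (g (a (b (c (f (a (d (g (a (b (f e))))))))))))), t false 1 (a (d (f (g (a (d (a (c (b (g (f (d (a
  e))))))))))))), t false 1 (a (f (a (d (c (g (a (f (a (b (g (d (a e))))))))))))), t false 1 (a (f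
  (d (g (a (d (c (f (a (b (g (d (a e))))))))))))), t true 1 (a (f (g (a (d (a (c (g (f (a (b (d (a
  e))))))))))))), t false 1 (a (g (a (d (c (f (a (g (d (a (c (f (d e))))))))))))), t true 1 (c (d (c
  (f (a (d (c (g (a (f (a (g (d e))))))))))))), t true 1 (c (d (f (a (d (g (a (b (c (f (a (d (g
  e))))))))))))), t false 1 (c (d (f (g (a (d (a (g (f (d (a (c (b e))))))))))))), t false 1 (c (d
  (g (a (d (f (a (g (d (a (c (b (f e))))))))))))), t false 1 (c (f (a (b (c (d (f (g (a (b (c (d (g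
  e))))))))))))), t true 1 (c (f (a (d (g (a (b (c (f (a (d (g (a e))))))))))))), t true 1 (c (f (a
  (d (g (a (f (a (b (c (g (a (d e))))))))))))), t false 1 (c (f (a (d (g (a (f (a (g (d (a (c (b
  e))))))))))))), t true 1 (c (f (a (g (a (b (c (f (a (d (g (a (b e))))))))))))), t false 1 (c (f (d
  (g (a (d (f (a (g (d (a (c (b e))))))))))))), t true 1 (c (f (g (a (d (a (g (f (a (d (a (c (b
  e))))))))))))), t true 1 (c (g (a (d (a (g (f (a (d (a (c (b (f e))))))))))))), t true 1 (g (a (d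
  (f (a (g (d (a (c (b (f (d (a e))))))))))))), t true 1 (g (a (f (a (b (c (g (a (d (c (f (a (b
  e)))))))))))))])) .nil .nil .nil .nil .nil) .nil) .nil .nil .nil .nil .nil)) .nil .nil) .nil .nil
  .nil .nil .nil) .nil .nil .nil) .nil .nil .nil .nil) (.br .nil (.br .nil .nil (.br (.br .nil .nil
  .nil (.br .nil .nil .nil .nil (.br (.br .nil .nil .nil .nil .nil (.hit [t false 1 (a (b (c (b (f
  (g (a (b (c (d (g e))))))))))), t true 1 (a (f (d (c (g (a (d (a (c (g (d e))))))))))), t true 1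
  (b (c (b (d (f (g (a (b (c (d (g e))))))))))), t true 1 (c (d (a (f (g (a (d (a (c (b (g
  e))))))))))), t true 1 (c (d (c (f (d (g (a (f (a (g (d e))))))))))), t false 1 (c (d (f (d (g (a
  (f (a (g (d (c e))))))))))), t false 1 (c (d (f (g (a (b (c (f (a (d (g e))))))))))), t true 1 (c
  (d (f (g (a (f (d (a (c (b (g e))))))))))), t true 1 (c (d (g (a (b (c (f (a (d (g (a
  e))))))))))), t true 1 (c (d (g (a (f (a (b (c (g (a (d e))))))))))), t false 1 (c (d (g (a (f (a
  (g (d (a (c (b e))))))))))), t true 1 (c (f (d (c (g (a (f (a (b (g (a e))))))))))), t true 1 (c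
  (g (a (b (c (f (a (d (g (a (b e))))))))))), t true 1 (d (g (a (f (d (a (c (b (g (d (a
  e))))))))))), t true 1 (f (d (c (g (a (f (a (b (g (d (a e))))))))))), t true 1 (f (d (c (g (a (f
  (d (a (c (g (d e))))))))))), t true 1 (g (a (b (c (f (a (d (c (g (a (b e)))))))))))])) .nil .nil
  .nil .nil .nil) .nil) .nil .nil) .nil .nil .nil .nil .nil) .nil .nil .nil) (.br .nil .nil .nil
  (.br (.br .nil .nil .nil .nil (.br (.br .nil .nil .nil (.br .nil .nil .nil .nil .nil (.hit [t
  false 1 (a (d (g (d (f (a (d (c (g (d (a e))))))))))), t true 1 (a (f (a (d (a (c (g (a (d (a (g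
  e))))))))))), t false 1 (a (f (d (c (g (a (d (a (c (g (d e))))))))))), t true 1 (d (g (d (a (f (a
  (d (c (g (d (a e))))))))))), t false 1 (f (a (d (g (d (f (d (c (g (d (a e))))))))))), t true 1 (f
  (d (g (d (a (f (d (c (g (d (a e)))))))))))])) .nil .nil) .nil .nil (.br .nil .nil .nil .nil .nil
  (.hit [t true 1 (a (g (d (f (a (d (c (g (d (a e)))))))))), t true 1 (f (a (g (d (f (d (c (g (d (a
  e))))))))))])) .nil .nil) .nil) .nil .nil .nil (.br (.br .nil .nil .nil (.br .nil .nil .nil .nil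
  .nil (.hit [t false 1 (a (c (f (g (a (d (a (c (g (d e)))))))))), t false 1 (a (f (a (d (c (g (a (d
  (a (g e)))))))))), t true 1 (a (f (d (c (g (a (d (a (c (g e)))))))))), t true 1 (f (g (d (a (f (d
  (c (g (d (a e))))))))))])) .nil .nil) .nil .nil (.br .nil .nil .nil .nil .nil (.hit [t true 1 (f
  (g (d (f (d (c (g (d (a e)))))))))])) .nil .nil) .nil) .nil .nil) .nil .nil .nil)) (.hit [t false
  1 (c (f (a e)))]) (.hit [t false 1 (c (g (a e)))])) (.br (.br .nil .nil .nil .nil .nil (.br .nil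
  .nil .nil (.br (.br .nil .nil .nil .nil (.br (.br .nil .nil .nil (.br .nil .nil .nil .nil .nil
  (.hit [t true 1 (a (d (g (d (f (a (d (g (a (b e)))))))))), t false 1 (d (g (d (a (f (a (d (g (a (b
  e)))))))))), t true 1 (f (a (d (g (d (f (d (g (a (b e)))))))))), t false 1 (f (d (g (d (a (f (d (g
  (a (b e)))))))))), t false 1 (g (d (a (f (a (b (d (c (g (d e)))))))))), t true 1 (g (d (a (f (a (d
  (c (g (d (a e))))))))))])) .nil .nil) .nil .nil (.br .nil .nil .nil .nil .nil (.hit [t false 1 (a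
  (g (d (f (a (d (g (a (b e))))))))), t false 1 (f (a (g (d (f (d (g (a (b e))))))))), t false 1 (g
  (d (f (a (b (d (c (g (d e))))))))), t true 1 (g (d (f (a (d (c (g (d (a e)))))))))])) .nil .nil)
  .nil) .nil .nil .nil .nil .nil) .nil .nil)) .nil (.hit [t true 1 (b (c (b e)))]) .nil .nil .nil)
  (.hit []) (.br (.br .nil .nil .nil .nil .nil (.br (.br .nil .nil .nil (.br .nil .nil .nil .nil
  (.br .nil .nil (.br .nil .nil .nil (.br (.br .nil .nil .nil .nil .nil (.hit [t true 1 (a (b (a (d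
  (f (g (a (b (c (d (g e))))))))))), t true 1 (a (b (g (a (d (f (a (b (c (g (d e))))))))))), t false
  1 (a (c (b (a (f (g (a (b (c (d (g e))))))))))), t false 1 (a (c (b (g (a (f (a (b (c (g (d
  e))))))))))), t false 1 (a (d (c (f (g (a (d (a (c (b (g e))))))))))), t false 1 (a (g (a (d (c (f
  (a (b (c (g (d e))))))))))), t true 1 (b (d (c (f (g (a (b (c (d (c (g e))))))))))), t true 1 (b
  (f (g (a (b (d (c (f (a (d (g e))))))))))), t false 1 (b (g (a (b (d (c (f (a (d (g (a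
  e))))))))))), t false 1 (b (g (a (d (f (a (b (c (g (a (d e))))))))))), t false 1 (c (b (f (g (a (b
  (c (f (a (d (g e))))))))))), t true 1 (c (b (g (a (b (c (f (a (d (g (a e))))))))))), t true 1 (c
  (b (g (a (f (a (b (c (g (a (d e))))))))))), t true 1 (c (f (a (b (c (g (a (f (a (g (d
  e))))))))))), t false 1 (d (f (a (b (g (a (d (a (c (g (d e))))))))))), t false 1 (f (a (b (g (a (d
  (c (f (a (g (d e))))))))))), t false 1 (f (g (a (d (c (f (d (a (c (b (g e))))))))))), t true 1 (g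
  (a (d (c (f (a (g (d (a (c (b e))))))))))), t true 1 (g (a (d (c (f (d (a (c (b (g (a
  e)))))))))))])) .nil .nil .nil .nil .nil) .nil .nil) .nil .nil .nil) .nil) .nil .nil) .nil (.br
  .nil .nil .nil (.br .nil .nil .nil .nil (.br (.br .nil .nil .nil (.br .nil .nil .nil .nil .nil
  (.hit [t false 1 (d (a (f (g (a (d (a (c (g (d e)))))))))), t true 1 (f (g (d (a (f (a (d (c (g (d
  e)))))))))), t false 1 (g (d (a (f (a (d (c (g (a (d e))))))))))])) .nil .nil) .nil (.br .nil (.br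
  (.br .nil .nil .nil .nil .nil (.hit [t true 1 (a (b (f (a (d (g (a (b (c (d (g e))))))))))), t
  false 1 (a (b (f (d (g (a (b (c (d (c (g e))))))))))), t false 1 (a (f (a (d (c (g (a (b (c (d (g
  e))))))))))), t false 1 (c (f (g (a (b (c (f (a (d (g (d e))))))))))), t true 1 (f (d (c (g (a (b
  (c (f (a (d (g e))))))))))), t true 1 (f (d (g (a (b (c (f (a (d (c (g e))))))))))), t false 1 (g
  (a (b (c (f (a (d (c (g (a (d e)))))))))))])) .nil .nil .nil .nil .nil) .nil .nil .nil .nil) (.br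
  .nil .nil .nil .nil .nil (.hit [t false 1 (d (f (g (a (d (a (c (g (d e))))))))), t true 1 (f (g (d
  (f (a (d (c (g (d e))))))))), t false 1 (g (d (f (a (d (c (g (a (d e)))))))))])) .nil .nil) .nil)
  .nil .nil) .nil .nil .nil)) .nil .nil .nil (.br (.br .nil .nil .nil .nil .nil (.br .nil .nil (.br
  .nil .nil .nil (.br (.br .nil .nil .nil .nil (.br (.br .nil .nil .nil (.br .nil .nil .nil .nil
  .nil (.hit [t false 1 (a (f (a (d (g (d (a (f (d (c (g (d e)))))))))))), t true 1 (d (a (f (a (g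
  (d (a (f (d (c (g (d e)))))))))))), t true 1 (f (a (d (g (d (a (f (a (d (c (g (d e))))))))))))]))
  .nil .nil) .nil .nil (.br .nil .nil .nil .nil .nil (.hit [t true 1 (d (f (a (g (d (a (f (d (c (g
  (d e))))))))))), t false 1 (f (a (g (d (a (f (a (d (c (g (d e))))))))))), t true 1 (g (d (a (f (a
  (d (c (g (a (f (d e)))))))))))])) .nil .nil) .nil) .nil .nil .nil .nil .nil) .nil .nil) .nil .nil
  .nil)) (.br .nil .nil (.br (.br .nil .nil .nil (.br .nil .nil .nil .nil .nil (.br (.br .nil .nil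
  .nil .nil (.br (.br .nil .nil .nil .nil .nil (.hit [t false 1 (a (c (d (f (g (a (d (a (c (b (g (f
  e)))))))))))), t false 1 (a (c (f (a (d (c (g (a (f (a (b (g e)))))))))))), t false 1 (a (c (f (d
  (g (a (d (c (f (a (b (g e)))))))))))), t true 1 (a (c (f (g (a (d (a (c (g (f (a (b e)))))))))))),
  t false 1 (a (c (g (a (d (f (a (g (d (a (c (f e)))))))))))), t false 1 (a (d (c (f (g (a (d (a (g
  (f (d (a e)))))))))))), t false 1 (a (d (c (g (a (d (f (a (g (d (a (f e)))))))))))), t true 1 (a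
  (d (f (g (a (b (c (d (g (f (d (a e)))))))))))), t false 1 (a (d (f (g (a (d (a (c (b (g (f (d
  e)))))))))))), t true 1 (a (d (g (a (f (a (b (c (g (d (f (a e)))))))))))), t false 1 (a (f (a (d
  (c (g (a (f (a (b (g (d e)))))))))))), t false 1 (a (f (a (d (g (a (f (a (b (g (d (a
  e)))))))))))), t false 1 (a (f (d (g (a (d (c (f (a (b (g (d e)))))))))))), t false 1 (a (f (d (g
  (a (d (f (a (b (g (d (a e)))))))))))), t true 1 (a (f (g (a (d (a (c (g (f (a (b (d e)))))))))))),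
  t true 1 (a (f (g (a (d (a (g (f (a (b (d (a e)))))))))))), t false 1 (a (g (a (d (f (a (g (d (a
  (c (f (d e)))))))))))), t true 1 (a (g (a (f (a (b (c (g (d (c (f (a e)))))))))))), t true 1 (c (g
  (a (d (f (a (g (d (a (c (b (f e)))))))))))), t true 1 (d (c (f (g (a (d (a (c (g (f (d (a
  e)))))))))))), t true 1 (d (c (g (a (d (c (f (a (g (d (a (f e)))))))))))), t false 1 (d (f (g (a
  (b (c (d (c (g (f (d (a e)))))))))))), t true 1 (d (g (a (d (f (a (b (c (g (d (f (a e)))))))))))),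
  t true 1 (f (a (d (g (a (f (a (b (c (g (d (a e)))))))))))), t true 1 (f (a (g (a (f (a (b (c (g (d
  (a (c e)))))))))))), t true 1 (f (d (g (a (d (f (a (b (c (g (d (a e)))))))))))), t false 1 (f (g
  (a (d (a (g (f (a (b (c (d (a e)))))))))))), t true 1 (g (a (d (a (c (g (d (f (a (d (a (f
  e)))))))))))), t false 1 (g (a (d (a (g (f (a (b (c (d (f (a e)))))))))))), t true 1 (g (a (d (f
  (a (g (d (a (c (b (f (d e)))))))))))), t false 1 (g (a (f (a (b (c (g (d (c (f (a (b
  e))))))))))))])) .nil .nil .nil .nil .nil) .nil) .nil .nil .nil .nil .nil)) .nil .nil) .nil .nil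
  .nil .nil .nil) .nil .nil .nil) (.br (.br .nil .nil .nil (.br .nil .nil .nil .nil .nil (.br (.br
  .nil .nil .nil .nil (.br (.br .nil .nil .nil .nil .nil (.hit [t true 1 (a (c (f (a (d (g (a (f (a
  (b (g e))))))))))), t false 1 (a (c (f (a (g (a (f (a (b (g (d e))))))))))), t true 1 (a (d (c (f
  (a (d (g (a (f (a (g e))))))))))), t true 1 (a (f (a (d (g (a (f (a (b (g (a e))))))))))), t false
  1 (a (f (a (g (a (f (a (b (g (d (a e))))))))))), t false 1 (a (g (a (f (a (g (d (a (c (f (d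
  e))))))))))), t true 1 (c (f (a (d (g (a (b (c (f (d (g e))))))))))), t false 1 (c (f (a (d (g (a
  (f (a (b (c (g e))))))))))), t true 1 (c (f (a (g (a (f (a (b (g (d (c e))))))))))), t false 1 (d
  (c (f (a (d (c (g (a (f (a (g e))))))))))), t true 1 (f (a (d (g (a (b (c (f (d (g (a
  e))))))))))), t false 1 (f (a (d (g (a (f (a (b (c (g (a e))))))))))), t true 1 (f (a (g (a (b (c
  (f (d (g (a (b e))))))))))), t true 1 (f (a (g (a (f (a (b (g (d (a (c e)))))))))))])) .nil .nil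
  .nil .nil .nil) .nil) .nil .nil .nil .nil .nil)) .nil .nil) .nil .nil .nil .nil .nil) .nil .nil
  .nil) (.br .nil (.br .nil .nil (.br (.br .nil .nil .nil (.br .nil .nil .nil .nil (.br (.br .nil
  .nil .nil .nil .nil (.hit [t true 1 (a (c (f (d (g (a (d (a (c (g e)))))))))), t true 1 (a (f (d
  (g (a (d (a (c (g (d e)))))))))), t false 1 (a (f (g (a (b (c (d (c (g (a e)))))))))), t true 1 (c
  (d (g (a (f (d (a (c (b (g e)))))))))), t true 1 (c (f (d (c (g (a (f (a (b (g e)))))))))), t true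
  1 (c (f (d (g (a (f (d (a (c (g e)))))))))), t true 1 (d (a (c (f (d (g (a (d (a (g e)))))))))), t
  false 1 (d (a (f (g (a (b (c (d (g (a e)))))))))), t true 1 (d (c (f (d (g (a (f (d (a (g
  e)))))))))), t false 1 (d (f (g (a (b (c (f (d (g (a e)))))))))), t true 1 (d (g (a (f (a (b (c (g
  (d (a e)))))))))), t true 1 (d (g (a (f (d (a (c (b (g (d e)))))))))), t true 1 (f (d (c (g (a (f
  (a (b (g (d e)))))))))), t true 1 (f (d (g (a (f (a (b (g (d (a e)))))))))), t true 1 (f (d (g (a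
  (f (d (a (c (g (d e)))))))))), t false 1 (f (g (a (b (c (f (d (c (g (a e)))))))))), t false 1 (g
  (a (b (c (f (d (c (g (a (b e)))))))))), t true 1 (g (a (f (a (b (c (g (d (a (c e))))))))))])) .nil
  .nil .nil .nil .nil) .nil) .nil .nil) .nil .nil .nil .nil .nil) .nil .nil .nil) (.br (.br .nil
  .nil .nil (.br .nil .nil .nil .nil (.br (.br .nil .nil .nil .nil .nil (.hit [t true 1 (a (f (g (a
  (d (a (c (g (d e))))))))), t true 1 (c (d (g (a (b (c (f (d (g e))))))))), t false 1 (c (d (g (a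
  (f (a (b (c (g e))))))))), t false 1 (c (f (d (g (a (f (a (b (g e))))))))), t true 1 (c (f (g (a
  (f (a (b (g (d e))))))))), t true 1 (c (g (a (f (a (b (g (d (c e))))))))), t false 1 (d (c (f (d
  (g (a (f (a (g e))))))))), t true 1 (d (g (a (b (c (f (d (g (a e))))))))), t false 1 (d (g (a (f
  (a (b (c (g (a e))))))))), t false 1 (f (d (g (a (f (a (b (g (a e))))))))), t true 1 (f (g (a (f
  (a (b (g (d (a e))))))))), t true 1 (f (g (a (f (d (a (c (g (d e))))))))), t true 1 (g (a (b (c (f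
  (d (g (a (b e))))))))), t true 1 (g (a (f (a (b (g (d (a (c e)))))))))])) .nil .nil .nil .nil
  .nil) .nil) .nil .nil) .nil .nil (.br (.br .nil .nil .nil .nil (.br (.br .nil .nil .nil (.br .nil
  .nil .nil .nil .nil (.hit [t false 1 (a (d (g (d (f (a (d (c (g (d e)))))))))), t false 1 (a (f (d
  (g (a (d (a (c (g (d e)))))))))), t true 1 (d (g (d (a (f (a (d (c (g (d e)))))))))), t false 1 (f
  (a (d (g (d (f (d (c (g (d e)))))))))), t true 1 (f (d (g (d (a (f (d (c (g (d e))))))))))])) .nil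
  .nil) .nil .nil (.br .nil .nil .nil .nil .nil (.hit [t true 1 (a (g (d (f (a (d (c (g (d
  e))))))))), t true 1 (f (a (g (d (f (d (c (g (d e)))))))))])) .nil .nil) .nil) .nil .nil .nil (.br
  (.br .nil .nil .nil (.br .nil .nil .nil .nil .nil (.hit [t false 1 (a (f (g (a (d (a (c (g (d
  e))))))))), t true 1 (f (g (d (a (f (d (c (g (d e)))))))))])) .nil .nil) .nil .nil (.br .nil .nil
  .nil .nil .nil (.hit [t true 1 (f (g (d (f (d (c (g (d e))))))))])) .nil .nil) .nil) .nil .nil)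
  .nil (.br .nil (.br .nil .nil (.br (.br .nil .nil .nil (.br (.br .nil .nil .nil .nil (.br .nil
  .nil .nil .nil .nil (.hit [t false 1 (a (b (d (a (g (f (a (d (a (f (g e))))))))))), t false 1 (a
  (c (b (d (g (f (a (d (a (f (g e))))))))))), t true 1 (a (c (d (g (f (a (d (a (c (f (g
  e))))))))))), t true 1 (a (c (g (d (f (a (d (c (g (a (f e))))))))))), t true 1 (a (d (g (f (a (d
  (a (c (f (g (d e))))))))))), t true 1 (a (g (d (f (a (d (c (g (a (f (d e))))))))))), t false 1 (a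
  (g (f (a (b (c (d (c (f (g (a e))))))))))), t false 1 (b (a (c (b (g (f (a (d (a (f (g
  e))))))))))), t false 1 (b (d (a (c (g (f (a (d (a (f (g e))))))))))), t false 1 (c (b (d (c (g (f
  (a (d (a (f (g e))))))))))), t true 1 (c (d (f (g (a (d (a (c (b (g (f e))))))))))), t true 1 (c
  (d (g (f (a (d (a (c (b (f (g e))))))))))), t false 1 (c (f (a (d (g (a (f (d (a (c (g
  e))))))))))), t false 1 (c (f (a (g (d (a (f (d (c (g (a e))))))))))), t true 1 (c (f (d (g (a (d
  (c (f (a (b (g e))))))))))), t false 1 (c (f (g (a (d (a (c (g (f (a (b e))))))))))), t true 1 (c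
  (g (a (d (f (a (g (d (a (c (f e))))))))))), t true 1 (c (g (d (f (a (d (c (g (a (b (f
  e))))))))))), t true 1 (d (a (c (g (d (f (a (d (g (a (f e))))))))))), t false 1 (d (a (g (f (a (b
  (c (d (f (g (a e))))))))))), t false 1 (d (c (f (a (d (g (a (f (d (a (g e))))))))))), t true 1 (d
  (c (f (g (a (d (a (g (f (d (a e))))))))))), t true 1 (d (c (g (a (d (f (a (g (d (a (f
  e))))))))))), t true 1 (d (f (a (g (a (b (c (f (d (g (a e))))))))))), t false 1 (d (f (g (a (b (c
  (d (g (f (d (a e))))))))))), t true 1 (d (f (g (a (d (a (c (b (g (f (d e))))))))))), t false 1 (d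
  (g (a (f (a (b (c (g (d (f (a e))))))))))), t true 1 (d (g (f (a (d (a (c (b (f (g (d
  e))))))))))), t true 1 (f (a (b (c (g (d (f (d (c (g (a e))))))))))), t false 1 (f (a (d (g (a (f
  (d (a (c (g (d e))))))))))), t false 1 (f (a (g (d (a (f (a (b (d (g (a e))))))))))), t false 1 (f
  (a (g (d (a (f (d (c (g (a (d e))))))))))), t true 1 (f (d (g (a (d (c (f (a (b (g (d
  e))))))))))), t true 1 (f (d (g (a (d (f (a (b (g (d (a e))))))))))), t false 1 (f (g (a (d (a (c
  (g (f (a (b (d e))))))))))), t false 1 (f (g (a (d (a (g (f (a (b (d (a e))))))))))), t true 1 (g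
  (a (d (f (a (g (d (a (c (f (d e))))))))))), t false 1 (g (a (f (a (b (c (g (d (c (f (a
  e))))))))))), t true 1 (g (d (a (f (a (d (g (a (b (f (a e))))))))))), t true 1 (g (d (f (a (d (c
  (g (a (b (f (d e))))))))))), t false 1 (g (f (a (b (c (d (c (f (g (a (b e)))))))))))])) .nil) .nil
  .nil .nil .nil .nil) .nil .nil) .nil .nil .nil .nil .nil) .nil .nil .nil) (.br (.br .nil .nil .nil
  (.br (.br .nil .nil .nil .nil (.br .nil .nil .nil .nil .nil (.hit [t true 1 (a (g (f (a (d (a (c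
  (f (g (d e)))))))))), t false 1 (f (a (g (a (f (d (a (c (g (d e)))))))))), t false 1 (f (a (g (d
  (a (f (d (c (g (d e)))))))))), t true 1 (g (a (f (a (g (d (a (c (f (d e))))))))))])) .nil) .nil
  .nil .nil .nil .nil) .nil .nil) .nil .nil .nil .nil .nil) .nil .nil .nil) .nil)) (.hit [t false 1
  (c (f e))]) (.hit [t false 1 (c (g e))]))

def Cc : C := (.br (.br .nil (.br .nil .nil (.ov [(true, (c (b (c (a e)))))]) .nil .nil .nil) .nil
  (.br .nil .nil .nil .nil (.br (.br .nil .nil .nil .nil .nil (.br .nil .nil (.br .nil .nil .nil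
  (.br (.br .nil .nil .nil .nil (.br (.br .nil .nil .nil (.br .nil .nil .nil .nil .nil (.ov [(true,
  (g (d (a (f (a (d (c (g (a (f (d (c (a e))))))))))))))])) .nil .nil) .nil .nil (.br .nil .nil .nil
  .nil .nil (.ov [(true, (g (d (f (a (d (c (g (a (f (d (c (a e)))))))))))))])) .nil .nil) .nil) .nil
  .nil .nil .nil .nil) .nil .nil) .nil .nil .nil)) (.br .nil .nil (.br (.br .nil .nil .nil (.br .nil
  .nil .nil .nil .nil (.br (.br .nil .nil .nil .nil (.br (.br .nil .nil .nil .nil .nil (.ov [(true,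
  (g (a (f (a (g (d (a (c (b (f (d (c (a e))))))))))))))])) .nil .nil .nil .nil .nil) .nil) .nil
  .nil .nil .nil .nil)) .nil .nil) .nil .nil .nil .nil .nil) .nil .nil .nil) .nil .nil .nil .nil)
  (.br .nil (.br .nil .nil (.br (.br .nil .nil .nil (.br .nil .nil .nil .nil (.br (.br .nil .nil
  .nil .nil .nil (.ov [(true, (g (a (f (d (a (c (b (g (d (c (a e))))))))))))])) .nil .nil .nil .nil
  .nil) .nil) .nil .nil) .nil .nil .nil .nil .nil) .nil .nil .nil) (.br .nil .nil .nil (.br (.br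
  .nil .nil .nil .nil (.br (.br .nil .nil .nil (.br .nil .nil .nil .nil .nil (.ov [(true, (g (d (a
  (f (a (d (c (g (d (c (a e))))))))))))])) .nil .nil) .nil .nil (.br .nil .nil .nil .nil .nil (.ov
  [(true, (g (d (f (a (d (c (g (d (c (a e)))))))))))])) .nil .nil) .nil) .nil .nil .nil (.br (.br
  .nil .nil .nil (.br .nil .nil .nil .nil .nil (.ov [(true, (g (d (a (f (d (c (g (d (c (a
  e)))))))))))])) .nil .nil) .nil .nil (.br .nil .nil .nil .nil .nil (.ov [(true, (g (d (f (d (c (g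
  (d (c (a e))))))))))])) .nil .nil) .nil) .nil .nil) .nil .nil .nil)) (.ov [(true, (f (c (a e))))])
  (.ov [(true, (g (c (a e))))])) (.br (.br .nil .nil .nil .nil .nil (.br .nil .nil .nil (.br (.br
  .nil .nil .nil .nil (.br (.br .nil .nil .nil (.br .nil .nil .nil .nil .nil (.ov [(true, (g (d (a
  (f (a (d (g (d (a (b e)))))))))))])) .nil .nil) .nil .nil (.br .nil .nil .nil .nil .nil (.ov
  [(true, (g (d (f (a (d (g (d (a (b e))))))))))])) .nil .nil) .nil) .nil .nil .nil .nil .nil) .nil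
  .nil)) .nil (.ba b_cbc) .nil .nil .nil) (.ba b_cc) (.br (.br .nil .nil .nil .nil .nil (.br (.br
  .nil .nil .nil (.br .nil .nil .nil .nil (.br .nil .nil (.br .nil .nil .nil (.br (.br .nil .nil
  .nil .nil .nil (.ov [(false, (g (a (d (c (f (g (d (a (c (b (g e))))))))))))])) .nil .nil .nil .nil
  .nil) .nil .nil) .nil .nil .nil) .nil) .nil .nil) .nil (.br .nil .nil .nil (.br .nil .nil .nil
  .nil (.br (.br .nil .nil .nil (.br .nil .nil .nil .nil .nil (.ov [(false, (g (d (a (f (d (g (a (d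
  (c (d e)))))))))))])) .nil .nil) .nil (.br .nil (.br (.br .nil .nil .nil .nil .nil (.ov [(false,
  (g (a (b (c (f (d (g (a (d (c (d e))))))))))))])) .nil .nil .nil .nil .nil) .nil .nil .nil .nil)
  (.br .nil .nil .nil .nil .nil (.ov [(false, (g (d (f (d (g (a (d (c (d e))))))))))])) .nil .nil)
  .nil) .nil .nil) .nil .nil .nil)) .nil .nil .nil (.br (.br .nil .nil .nil .nil .nil (.br .nil .nil
  (.br .nil .nil .nil (.br (.br .nil .nil .nil .nil (.br (.br .nil .nil .nil (.br .nil .nil .nil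
  .nil .nil (.ov [(false, (g (d (a (f (a (d (g (a (f (d (c (d e)))))))))))))])) .nil .nil) .nil .nil
  (.br .nil .nil .nil .nil .nil (.ov [(false, (g (d (f (a (d (g (a (f (d (c (d e))))))))))))])) .nil
  .nil) .nil) .nil .nil .nil .nil .nil) .nil .nil) .nil .nil .nil)) (.br .nil .nil (.br (.br .nil
  .nil .nil (.br .nil .nil .nil .nil .nil (.br (.br .nil .nil .nil .nil (.br (.br .nil .nil .nil
  .nil .nil (.ov [(false, (g (a (f (a (g (d (a (f (d (a (c (d e)))))))))))))])) .nil .nil .nil .nil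
  .nil) .nil) .nil .nil .nil .nil .nil)) .nil .nil) .nil .nil .nil .nil .nil) .nil .nil .nil) (.br
  (.br .nil .nil .nil (.br .nil .nil .nil .nil .nil (.br (.br .nil .nil .nil .nil (.br (.br .nil
  .nil .nil .nil .nil (.ov [(false, (g (a (f (a (g (d (a (f (d (c (d e))))))))))))])) .nil .nil .nil
  .nil .nil) .nil) .nil .nil .nil .nil .nil)) .nil .nil) .nil .nil .nil .nil .nil) .nil .nil .nil)
  (.br .nil (.br .nil .nil (.br (.br .nil .nil .nil (.br .nil .nil .nil .nil (.br (.br .nil .nil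
  .nil .nil .nil (.ov [(false, (g (a (f (d (a (g (d (a (c (d e)))))))))))])) .nil .nil .nil .nil
  .nil) .nil) .nil .nil) .nil .nil .nil .nil .nil) .nil .nil .nil) (.br (.br .nil .nil .nil (.br
  .nil .nil .nil .nil (.br (.br .nil .nil .nil .nil .nil (.ov [(true, (g (a (f (d (a (g (a (b (a
  e)))))))))), (false, (g (a (f (d (a (g (d (c (d e))))))))))])) .nil .nil .nil .nil .nil) .nil)
  .nil .nil) .nil .nil (.br (.br .nil .nil .nil .nil (.br (.br .nil .nil .nil (.br .nil .nil .nil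
  .nil .nil (.ov [(false, (g (d (a (f (a (d (g (d (c (d e)))))))))))])) .nil .nil) .nil .nil (.br
  .nil .nil .nil .nil .nil (.ov [(false, (g (d (f (a (d (g (d (c (d e))))))))))])) .nil .nil) .nil)
  .nil .nil .nil (.br (.br .nil .nil .nil (.br .nil .nil .nil .nil .nil (.ov [(false, (g (d (a (f (d
  (g (d (c (d e))))))))))])) .nil .nil) .nil .nil (.br .nil .nil .nil .nil .nil (.ov [(false, (g (d
  (f (d (g (d (c (d e)))))))))])) .nil .nil) .nil) .nil .nil) .nil (.br .nil (.br .nil .nil (.br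
  (.br .nil .nil .nil (.br (.br .nil .nil .nil .nil (.br .nil .nil .nil .nil .nil (.ov [(false, (g
  (f (a (d (a (f (g (d (a (c (d e))))))))))))])) .nil) .nil .nil .nil .nil .nil) .nil .nil) .nil
  .nil .nil .nil .nil) .nil .nil .nil) (.br (.br .nil .nil .nil (.br (.br .nil .nil .nil .nil (.br
  .nil .nil .nil .nil .nil (.ov [(false, (g (f (a (d (a (f (g (d (c (d e)))))))))))])) .nil) .nil
  .nil .nil .nil .nil) .nil .nil) .nil .nil .nil .nil .nil) .nil .nil .nil) .nil)) (.ba b_fc) (.ba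
  b_gc))

def Rd : R := (.br (.br .nil .nil .nil (.hit [t true 1 (a (d (a e)))]) (.br .nil (.br (.br .nil .nil
  .nil .nil .nil (.br .nil .nil .nil (.br (.br .nil .nil .nil .nil (.br (.br .nil .nil .nil (.br
  .nil .nil .nil .nil .nil (.hit [t false 1 (a (f (a (b (d (c (g (d (f (a (d (g e)))))))))))), t
  true 1 (a (f (a (d (c (g (d (a (f (a (d (g e)))))))))))), t true 1 (b (c (d (c (g (d (f (a (d (g
  (a (f e)))))))))))), t true 1 (b (c (g (d (f (a (d (g (a (b (f (a e)))))))))))), t false 1 (c (d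
  (a (c (g (d (f (a (d (g (a (f e)))))))))))), t false 1 (c (f (a (g (a (b (c (f (d (c (g (a
  e)))))))))))), t false 1 (c (g (d (a (f (a (d (g (a (b (f (a e)))))))))))), t false 1 (d (a (c (f
  (a (g (d (a (f (a (d (g e)))))))))))), t true 1 (d (a (c (g (d (a (f (a (d (g (a (f e)))))))))))),
  t true 1 (d (a (f (a (b (c (g (d (f (a (d (g e)))))))))))), t false 1 (d (a (f (a (g (a (b (c (f
  (a (d (g e)))))))))))), t true 1 (d (a (g (a (b (c (f (a (d (g (a (f e)))))))))))), t true 1 (d (c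
  (g (a (d (a (g (f (a (d (a (f e)))))))))))), t false 1 (d (g (a (b (c (d (g (f (a (d (a (f
  e)))))))))))), t false 1 (f (a (b (d (c (g (d (f (a (b (d (g e)))))))))))), t true 1 (f (a (d (c
  (g (a (b (c (f (d (c (g e)))))))))))), t true 1 (f (a (d (c (g (d (a (f (a (b (d (g e)))))))))))),
  t true 1 (f (a (g (a (b (c (f (a (b (d (g (a e)))))))))))), t true 1 (f (a (g (a (b (c (f (d (c (g
  (a (d e)))))))))))), t false 1 (g (a (b (c (f (a (d (g (a (b (f (a e))))))))))))])) .nil .nil)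
  .nil .nil (.br .nil .nil .nil .nil .nil (.hit [t false 1 (b (c (g (d (f (a (d (g (a (b (f
  e))))))))))), t false 1 (b (d (c (g (d (f (a (d (g (a (f e))))))))))), t false 1 (b (g (d (f (a (d
  (g (a (b (f (a e))))))))))), t false 1 (c (f (a (g (d (a (f (a (b (d (g e))))))))))), t true 1 (c
  (g (d (a (f (a (d (g (a (b (f e))))))))))), t false 1 (d (c (f (a (g (d (a (f (a (d (g
  e))))))))))), t true 1 (d (c (g (d (a (f (a (d (g (a (f e))))))))))), t true 1 (d (f (a (b (c (g
  (d (f (a (d (g e))))))))))), t false 1 (d (f (a (g (a (b (c (f (a (d (g e))))))))))), t true 1 (d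
  (g (a (b (c (f (a (d (g (a (f e))))))))))), t true 1 (f (a (b (c (g (d (f (a (b (d (g
  e))))))))))), t false 1 (f (a (g (a (b (c (f (a (b (d (g e))))))))))), t true 1 (g (a (b (c (f (a
  (d (g (a (b (f e)))))))))))])) .nil .nil) .nil) .nil .nil .nil .nil .nil) .nil .nil)) .nil .nil
  .nil .nil .nil) (.br .nil .nil .nil (.br (.br .nil .nil .nil .nil .nil (.br .nil .nil (.br .nil
  (.br (.br .nil .nil .nil .nil (.br (.br .nil .nil .nil .nil .nil (.hit [t true 1 (a (b (c (f (g (a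
  (b (c (d (c (g (f (a e))))))))))))), t true 1 (a (b (d (a (f (a (g (a (f (d (a (c (g
  e))))))))))))), t false 1 (a (b (d (a (f (g (a (d (a (g (f (d (c e))))))))))))), t false 1 (a (b
  (d (a (g (a (f (a (g (d (a (c (f e))))))))))))), t false 1 (a (b (d (c (f (g (a (b (c (d (c (g (f
  e))))))))))))), t false 2 (a (b (f (a (b (d (c (g (a (d (f (a (g e))))))))))))), t false 1 (a (b
  (f (a (d (g (a (b (c (f (a (d (g e))))))))))))), t false 1 (a (b (f (d (g (a (b (d (c (f (a (d (g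
  e))))))))))))), t false 1 (a (b (f (g (a (b (c (d (c (g (f (a (d e))))))))))))), t true 1 (a (b (g
  (a (b (d (c (f (a (d (g (a (f e))))))))))))), t true 2 (a (b (g (a (d (f (a (b (c (g (a (d (f
  e))))))))))))), t true 1 (a (c (b (d (a (f (g (a (d (a (c (g (f e))))))))))))), t true 1 (a (c (b
  (d (f (a (g (a (f (d (a (c (g e))))))))))))), t false 1 (a (c (b (d (f (g (a (d (a (g (f (d (c
  e))))))))))))), t false 1 (a (c (b (d (g (a (f (a (g (d (a (c (f e))))))))))))), t true 1 (a (c (b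
  (f (a (b (c (g (a (d (f (a (g e))))))))))))), t true 1 (a (c (b (f (a (g (a (b (c (f (a (d (g
  e))))))))))))), t false 1 (a (c (b (f (g (a (b (c (d (g (f (a (d e))))))))))))), t false 1 (a (c
  (b (g (a (b (c (f (a (d (g (a (f e))))))))))))), t false 1 (a (c (b (g (a (f (a (b (c (g (a (d (f
  e))))))))))))), t true 1 (a (c (f (a (b (c (g (a (d (f (a (g (d e))))))))))))), t false 1 (a (c (f
  (g (a (d (a (c (b (g (f (a (d e))))))))))))), t true 1 (a (c (f (g (a (d (a (c (g (f (a (d (c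
  e))))))))))))), t true 2 (a (d (f (a (b (g (a (d (a (c (g (d (f e))))))))))))), t true 2 (a (f (a
  (b (c (g (a (d (c (f (a (g (d e))))))))))))), t false 2 (a (f (a (b (d (c (g (a (d (c (f (a (g
  e))))))))))))), t false 2 (a (f (a (b (g (a (d (a (c (g (d (f (a e))))))))))))), t true 1 (a (f (a
  (d (c (g (a (f (d (a (c (b (g e))))))))))))), t false 1 (a (f (a (d (g (a (b (c (f (a (d (c (g
  e))))))))))))), t false 1 (a (f (d (g (a (b (d (c (f (a (d (c (g e))))))))))))), t true 1 (a (f (d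
  (g (a (d (c (f (d (a (c (b (g e))))))))))))), t false 1 (a (f (g (a (b (c (d (c (g (f (a (d (c
  e))))))))))))), t false 1 (a (f (g (a (d (a (c (g (f (d (a (c (b e))))))))))))), t true 1 (a (g (a
  (b (d (c (f (a (d (c (g (a (f e))))))))))))), t false 1 (a (g (a (d (c (f (a (g (d (a (c (b (f
  e))))))))))))), t false 1 (a (g (a (d (c (f (d (a (c (b (g (a (f e))))))))))))), t true 1 (a (g (a
  (d (f (a (b (c (g (a (d (c (f e))))))))))))), t true 1 (b (a (c (b (a (f (g (a (d (a (c (g (f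
  e))))))))))))), t true 1 (b (a (c (b (f (a (g (a (f (d (a (c (g e))))))))))))), t false 1 (b (a (c
  (b (f (g (a (d (a (g (f (d (c e))))))))))))), t false 1 (b (a (c (b (g (a (f (a (g (d (a (c (f
  e))))))))))))), t true 1 (b (d (a (c (f (a (g (a (f (d (a (c (g e))))))))))))), t false 1 (b (d (a
  (c (f (g (a (d (a (g (f (d (c e))))))))))))), t false 1 (b (d (a (c (g (a (f (a (g (d (a (c (f
  e))))))))))))), t true 1 (c (b (d (a (c (f (g (a (d (a (c (g (f e))))))))))))), t true 1 (c (b (d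
  (c (f (a (g (a (f (d (a (c (g e))))))))))))), t false 1 (c (b (d (c (f (g (a (d (a (g (f (d (c
  e))))))))))))), t false 1 (c (b (d (c (g (a (f (a (g (d (a (c (f e))))))))))))), t false 1 (c (d
  (a (c (f (d (g (a (d (c (f (a (g e))))))))))))), t true 1 (c (d (a (f (g (a (b (c (d (c (g (f (a
  e))))))))))))), t true 1 (c (d (f (a (g (a (b (c (f (d (c (g (a e))))))))))))), t false 1 (c (d (f
  (g (a (b (c (d (g (f (d (a (c e))))))))))))), t false 1 (c (d (g (a (f (a (b (c (g (d (c (f (a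
  e))))))))))))), t false 1 (c (f (d (a (g (a (d (f (a (b (c (g (a e))))))))))))), t true 1 (c (f (d
  (g (a (d (f (a (b (g (d (a (c e))))))))))))), t true 1 (c (f (g (a (b (c (d (c (g (f (a (b (c
  e))))))))))))), t true 1 (d (a (c (f (d (g (a (d (f (a (g (d (c e))))))))))))), t true 1 (d (a (f
  (a (g (a (b (c (f (a (d (c (g e))))))))))))), t false 1 (d (a (f (g (a (b (c (d (g (f (a (d (c
  e))))))))))))), t false 1 (d (a (g (a (f (a (b (c (g (a (d (c (f e))))))))))))), t true 1 (d (c (f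
  (a (d (a (f (g (a (d (a (c (g e))))))))))))), t true 1 (d (c (f (d (g (a (d (f (a (g (d (a (c
  e))))))))))))), t true 1 (d (f (a (g (a (b (c (f (a (d (c (g (a e))))))))))))), t false 1 (d (f (g
  (a (b (c (d (g (f (a (d (a (c e))))))))))))), t false 1 (d (g (a (b (c (d (g (f (a (d (a (c (f
  e))))))))))))), t false 1 (d (g (a (f (a (b (c (g (a (d (c (f (a e))))))))))))), t false 1 (f (a
  (d (g (a (b (c (f (a (b (d (c (g e))))))))))))), t true 1 (f (a (g (a (b (c (f (a (b (d (c (g (a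
  e))))))))))))), t true 1 (f (d (a (g (a (d (f (a (b (g (a (d (c e))))))))))))), t false 1 (f (d (g
  (a (b (d (c (f (a (b (d (c (g e))))))))))))), t true 1 (f (d (g (a (d (f (a (b (g (a (d (a (c
  e))))))))))))), t false 1 (f (g (a (b (c (d (c (g (f (a (b (d (c e))))))))))))), t false 1 (f (g
  (a (b (c (d (g (f (a (b (d (a (c e))))))))))))), t false 1 (g (a (b (c (f (a (d (g (a (b (c (f (a
  e))))))))))))), t true 1 (g (a (b (d (c (f (a (d (g (a (b (c (f e))))))))))))), t true 1 (g (a (d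
  (c (f (d (a (g (a (b (d (c (f e)))))))))))))])) .nil .nil .nil .nil .nil) .nil) .nil .nil .nil
  .nil .nil) .nil .nil .nil .nil) .nil .nil .nil)) .nil .nil .nil .nil (.br .nil .nil (.br .nil (.br
  (.br .nil .nil .nil .nil (.br (.br .nil .nil .nil .nil .nil (.hit [t true 1 (a (b (d (a (f (a (g
  (a (f (d (a (g e)))))))))))), t false 1 (a (b (d (a (f (g (a (d (a (g (f (d e)))))))))))), t false
  1 (a (b (d (a (g (a (f (a (g (d (a (f e)))))))))))), t true 1 (a (c (b (d (a (f (g (a (d (a (g (f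
  e)))))))))))), t true 1 (a (c (b (d (f (a (g (a (f (d (a (g e)))))))))))), t false 1 (a (c (b (d
  (f (g (a (d (a (g (f (d e)))))))))))), t false 1 (a (c (b (d (g (a (f (a (g (d (a (f
  e)))))))))))), t true 1 (a (c (f (g (a (b (c (d (c (g (f (a e)))))))))))), t false 1 (a (f (a (d
  (g (a (b (c (f (a (d (g e)))))))))))), t false 1 (a (f (d (g (a (b (d (c (f (a (d (g
  e)))))))))))), t false 1 (a (f (g (a (b (c (d (c (g (f (a (d e)))))))))))), t true 1 (a (g (a (b
  (d (c (f (a (d (g (a (f e)))))))))))), t true 1 (a (g (a (d (c (f (d (a (g (a (d (f e)))))))))))),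
  t true 1 (b (a (c (b (a (f (g (a (d (a (g (f e)))))))))))), t true 1 (b (a (c (b (f (a (g (a (f (d
  (a (g e)))))))))))), t false 1 (b (a (c (b (f (g (a (d (a (g (f (d e)))))))))))), t false 1 (b (a
  (c (b (g (a (f (a (g (d (a (f e)))))))))))), t false 1 (b (a (d (f (g (a (b (c (d (c (g (f
  e)))))))))))), t true 1 (b (d (a (c (f (a (g (a (f (d (a (g e)))))))))))), t false 1 (b (d (a (c
  (f (g (a (d (a (g (f (d e)))))))))))), t false 1 (b (d (a (c (g (a (f (a (g (d (a (f
  e)))))))))))), t true 1 (c (b (a (f (g (a (b (c (d (c (g (f e)))))))))))), t true 1 (c (b (d (a (c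
  (f (g (a (d (a (g (f e)))))))))))), t true 1 (c (b (d (c (f (a (g (a (f (d (a (g e)))))))))))), t
  false 1 (c (b (d (c (f (g (a (d (a (g (f (d e)))))))))))), t false 1 (c (b (d (c (g (a (f (a (g (d
  (a (f e)))))))))))), t false 1 (c (d (a (c (f (d (g (a (d (f (a (g e)))))))))))), t true 1 (c (d
  (a (f (g (a (b (c (d (g (f (a e)))))))))))), t true 1 (c (d (f (a (g (a (b (c (f (d (g (a
  e)))))))))))), t false 1 (c (d (f (g (a (b (c (d (g (f (d (a e)))))))))))), t false 1 (c (d (g (a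
  (f (a (b (c (g (d (f (a e)))))))))))), t false 1 (c (f (d (a (g (a (d (f (a (b (g (a
  e)))))))))))), t true 1 (c (f (d (g (a (d (f (a (b (g (d (a e)))))))))))), t true 1 (c (f (g (a (b
  (c (d (c (g (f (a (b e)))))))))))), t false 1 (c (g (a (f (a (b (c (g (d (c (f (a e)))))))))))), t
  true 1 (d (a (c (f (d (g (a (d (f (a (g (d e)))))))))))), t true 1 (d (a (f (a (g (a (b (c (f (a
  (d (g e)))))))))))), t false 1 (d (a (f (g (a (b (c (d (g (f (a (d e)))))))))))), t false 1 (d (a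
  (g (a (f (a (b (c (g (a (d (f e)))))))))))), t true 1 (d (c (f (a (d (a (f (g (a (d (a (g
  e)))))))))))), t true 1 (d (c (f (d (g (a (d (f (a (g (d (a e)))))))))))), t true 1 (d (f (a (g (a
  (b (c (f (a (d (g (a e)))))))))))), t false 1 (d (f (g (a (b (c (d (g (f (a (d (a e)))))))))))), t
  false 1 (d (g (a (b (c (d (g (f (a (d (a (f e)))))))))))), t false 1 (d (g (a (f (a (b (c (g (a (d
  (f (a e)))))))))))), t false 1 (f (a (d (g (a (b (c (f (a (b (d (g e)))))))))))), t true 1 (f (a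
  (g (a (b (c (f (a (b (d (g (a e)))))))))))), t true 1 (f (d (a (g (a (d (f (a (b (g (a (d
  e)))))))))))), t false 1 (f (d (g (a (b (d (c (f (a (b (d (g e)))))))))))), t true 1 (f (d (g (a
  (d (f (a (b (g (a (d (a e)))))))))))), t false 1 (f (g (a (b (c (d (c (g (f (a (b (d
  e)))))))))))), t false 1 (f (g (a (b (c (d (g (f (a (b (d (a e)))))))))))), t false 1 (g (a (b (c
  (f (a (d (g (a (b (f (a e)))))))))))), t true 1 (g (a (b (d (c (f (a (d (g (a (b (f e)))))))))))),
  t true 1 (g (a (d (c (f (a (b (c (g (d (c (f e)))))))))))), t true 1 (g (a (d (c (f (d (a (g (a (b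
  (d (f e))))))))))))])) .nil .nil .nil .nil .nil) .nil) .nil .nil .nil .nil .nil) .nil .nil .nil
  .nil) .nil .nil .nil)) .nil .nil) (.br (.br .nil .nil .nil .nil .nil (.br .nil .nil (.br .nil (.br
  (.br .nil .nil .nil .nil (.br (.br .nil .nil .nil .nil .nil (.hit [t true 1 (a (b (f (a (b (c (g
  (a (d (f (a (g e)))))))))))), t false 1 (a (b (g (a (f (a (b (c (g (a (d (f e)))))))))))), t true
  1 (a (f (a (b (c (g (a (d (f (a (g (d e))))))))))))])) .nil .nil .nil .nil .nil) .nil) .nil .nil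
  .nil .nil .nil) .nil .nil .nil .nil) .nil .nil .nil)) .nil .nil .nil .nil (.br .nil .nil (.br .nil
  (.br (.br .nil .nil .nil .nil (.br (.br .nil .nil .nil .nil .nil (.hit [t true 1 (a (g (a (f (a (b
  (c (g (a (d (f e))))))))))), t true 1 (g (a (f (a (b (c (g (a (d (f (a e)))))))))))])) .nil .nil
  .nil .nil .nil) .nil) .nil .nil .nil .nil .nil) .nil (.br .nil (.br (.br .nil .nil .nil .nil (.br
  (.br .nil .nil .nil (.br .nil .nil .nil .nil .nil (.hit [t true 1 (a (g (d (a (f (a (b (d (c (g (a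
  (d (f e))))))))))))), t false 1 (c (g (a (d (a (c (g (f (a (b (c (d (f e))))))))))))), t true 1 (d
  (a (g (d (f (a (b (d (c (g (a (d (f e))))))))))))), t true 1 (g (a (b (c (d (c (g (f (a (b (c (d
  (f e))))))))))))), t true 1 (g (a (d (a (c (g (f (a (b (c (d (c (f e))))))))))))), t true 1 (g (d
  (a (f (a (b (d (c (g (a (d (f (a e)))))))))))))])) .nil .nil) .nil .nil (.br .nil .nil .nil .nil
  .nil (.hit [t false 1 (c (g (a (d (a (g (f (a (b (c (d (f e)))))))))))), t true 1 (d (g (d (f (a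
  (b (d (c (g (a (d (f e)))))))))))), t true 1 (g (a (b (c (d (g (f (a (b (c (d (f e)))))))))))), t
  true 1 (g (d (f (a (b (d (c (g (a (d (f (a e))))))))))))])) .nil .nil) .nil) .nil .nil .nil .nil
  .nil) .nil .nil .nil .nil) .nil .nil) .nil .nil .nil)) .nil .nil) (.br .nil .nil .nil (.br (.br
  .nil .nil .nil .nil (.br .nil .nil (.br .nil (.br (.br .nil .nil .nil .nil .nil (.hit [t true 1 (a
  (b (f (a (g (a (b (c (d (g e)))))))))), t false 1 (f (g (a (b (c (f (a (d (g (d e))))))))))]))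
  .nil .nil .nil .nil .nil) .nil .nil .nil .nil) .nil .nil .nil) .nil) (.br (.br .nil .nil .nil .nil
  (.br (.br .nil .nil .nil (.br .nil .nil .nil .nil .nil (.hit [t false 1 (a (b (d (g (d (f (a (b (d
  (g e)))))))))), t false 1 (a (b (f (d (c (g (a (d (a (g e)))))))))), t false 1 (a (f (a (b (d (g
  (a (d (a (g e)))))))))), t true 1 (b (c (g (d (f (a (b (d (g (a e)))))))))), t false 1 (b (d (c (g
  (d (f (a (b (d (g e)))))))))), t true 1 (b (f (d (c (g (d (f (a (d (g e)))))))))), t false 1 (c (g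
  (a (b (c (f (d (c (g (a e)))))))))), t false 1 (c (g (d (a (f (a (b (d (g (a e)))))))))), t true 1
  (d (a (f (a (b (g (a (d (a (g e)))))))))), t true 1 (d (c (g (a (b (c (f (d (c (g e)))))))))), t
  true 1 (d (c (g (d (a (f (a (b (d (g e)))))))))), t true 1 (f (a (b (d (g (d (f (a (d (g
  e)))))))))), t false 1 (f (d (c (g (d (a (f (a (d (g e)))))))))), t true 1 (g (a (b (c (f (d (c (g
  (a (d e))))))))))])) .nil .nil) .nil .nil (.br .nil .nil .nil .nil .nil (.hit [t true 1 (a (b (g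
  (d (f (a (b (d (g e))))))))), t false 1 (b (g (d (f (a (b (d (g (a e))))))))), t true 1 (d (f (a
  (b (g (a (d (a (g e))))))))), t false 1 (f (a (b (g (d (f (a (d (g e)))))))))])) .nil .nil) .nil)
  .nil .nil .nil .nil .nil) (.br .nil (.br (.br .nil .nil .nil .nil .nil (.hit [t true 1 (a (b (g (a
  (b (c (d (g e)))))))), t false 1 (b (g (a (b (c (d (g (a e))))))))])) .nil .nil .nil .nil .nil)
  .nil .nil .nil .nil) .nil (.br (.br .nil .nil .nil (.br .nil .nil .nil .nil .nil (.hit [t true 1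
  (d (a (f (g (a (d (a (g e)))))))), t false 1 (f (g (d (a (f (a (d (g e)))))))), t true 1 (g (d (a
  (f (a (d (g (a e))))))))])) .nil .nil) .nil (.br (.br .nil .nil .nil (.br .nil (.br (.br .nil .nil
  .nil .nil .nil (.hit [t true 1 (a (b (d (a (f (g (a (b (c (d (g e))))))))))), t true 1 (d (f (g (a
  (b (d (a (c (f (d (g e))))))))))), t false 1 (d (g (a (b (d (a (c (f (d (g (d e))))))))))), t
  false 1 (f (g (a (b (d (a (c (f (a (d (g e))))))))))), t true 1 (g (a (b (d (a (c (f (a (d (g (a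
  e)))))))))))])) .nil .nil .nil .nil .nil) .nil .nil .nil .nil) .nil .nil) (.br (.br .nil .nil .nil
  .nil .nil (.hit [t true 1 (a (b (f (g (a (b (c (d (g e))))))))), t false 1 (f (g (a (b (c (f (a (d
  (g e))))))))), t true 1 (g (a (b (c (f (a (d (g (a e)))))))))])) .nil .nil .nil .nil .nil) .nil
  (.br .nil (.br (.br .nil .nil .nil .nil .nil (.hit [t true 1 (a (b (d (f (g (a (b (c (d (g
  e)))))))))), t true 1 (b (d (c (f (g (a (b (c (d (g e)))))))))), t false 1 (d (c (f (g (a (b (c (d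
  (c (g e)))))))))), t false 1 (f (g (a (b (d (c (f (a (d (g e)))))))))), t true 1 (g (a (b (d (c (f
  (a (d (g (a e))))))))))])) .nil .nil .nil .nil .nil) .nil .nil .nil .nil) .nil .nil) (.br .nil
  .nil .nil .nil .nil (.hit [t true 1 (d (f (g (a (d (a (g e))))))), t false 1 (f (g (d (f (a (d (g
  e))))))), t true 1 (g (d (f (a (d (g (a e)))))))])) .nil .nil) .nil) (.br .nil .nil (.br .nil .nil
  .nil (.br .nil .nil (.br .nil (.br (.br .nil .nil .nil .nil (.br .nil .nil .nil .nil .nil (.hit [t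
  false 1 (a (b (d (g (f (a (b (c (d (f (g e))))))))))), t true 1 (b (c (g (f (a (b (c (d (f (g (a
  e))))))))))), t false 1 (b (d (c (g (f (a (b (c (d (f (g e))))))))))), t false 1 (c (g (f (a (b (c
  (d (c (f (g (a e))))))))))), t true 1 (d (c (g (f (a (b (c (d (c (f (g e))))))))))), t false 1 (f
  (a (b (d (c (g (a (d (f (a (g e))))))))))), t false 1 (f (a (b (d (c (g (d (f (a (d (g
  e))))))))))), t true 1 (g (a (d (f (a (b (c (g (a (d (f e))))))))))), t true 1 (g (d (f (a (b (d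
  (c (g (a (d (f e)))))))))))])) .nil) .nil .nil .nil .nil .nil) .nil .nil .nil .nil) .nil .nil
  .nil) .nil .nil) (.br .nil .nil (.br .nil (.br (.br .nil .nil .nil .nil (.br .nil .nil .nil .nil
  .nil (.hit [t true 1 (a (b (g (f (a (b (c (d (f (g e)))))))))), t false 1 (b (g (f (a (b (c (d (f
  (g (a e)))))))))), t true 1 (f (a (b (c (g (a (d (f (a (g e)))))))))), t true 1 (f (a (b (c (g (d
  (f (a (d (g e)))))))))), t false 1 (g (a (f (a (b (c (g (a (d (f e))))))))))])) .nil) .nil .nil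
  .nil .nil .nil) .nil .nil .nil .nil) .nil .nil .nil) .nil .nil) .nil)) (.br (.br .nil .nil .nil
  .nil .nil (.br .nil .nil (.br .nil .nil .nil (.br .nil .nil .nil .nil (.br (.br .nil .nil .nil
  (.br .nil .nil .nil .nil .nil (.hit [t true 1 (a (c (d (g (d (f (a (d (c (g e)))))))))), t true 1
  (a (d (g (d (f (a (d (c (g (d e)))))))))), t true 1 (a (f (g (a (b (c (d (c (g (a e)))))))))), t
  true 1 (b (a (c (g (d (f (a (d (c (g e)))))))))), t true 1 (b (c (f (a (g (d (f (d (c (g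
  e)))))))))), t false 1 (b (c (f (g (d (f (d (c (g (a e)))))))))), t false 1 (b (c (g (d (f (d (c
  (g (a (b e)))))))))), t false 1 (c (d (g (d (a (f (a (d (c (g e)))))))))), t true 1 (c (f (a (d (g
  (d (f (d (c (g e)))))))))), t false 1 (c (f (d (g (d (a (f (d (c (g e)))))))))), t true 1 (c (f (g
  (d (a (f (d (c (g (a e)))))))))), t true 1 (c (g (d (a (f (d (c (g (a (b e)))))))))), t false 1 (d
  (a (c (f (d (g (a (d (a (g e)))))))))), t true 1 (d (a (f (g (a (b (c (d (g (a e)))))))))), t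
  false 1 (d (g (d (a (f (a (d (c (g (d e)))))))))), t true 1 (f (a (d (g (d (f (d (c (g (d
  e)))))))))), t false 1 (f (d (g (d (a (f (d (c (g (d e)))))))))), t true 1 (f (g (a (b (c (f (d (c
  (g (a e)))))))))), t true 1 (f (g (d (a (f (a (b (d (g (a e)))))))))), t true 1 (f (g (d (a (f (d
  (c (g (a (d e)))))))))), t false 1 (g (a (b (c (f (a (d (g (d (c e)))))))))), t true 1 (g (a (b (c
  (f (d (c (g (a (b e)))))))))), t true 1 (g (d (a (c (b (f (a (g (d (c e)))))))))), t true 1 (g (d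
  (a (f (a (b (d (g (a (b e))))))))))])) .nil .nil) .nil .nil .nil .nil .nil) .nil) .nil .nil) (.br
  .nil .nil .nil .nil (.br (.br .nil .nil .nil (.br .nil .nil .nil .nil .nil (.hit [t true 1 (d (a
  (c (f (g (a (d (a (g e))))))))), t false 1 (d (a (f (g (a (b (c (d (g e))))))))), t false 1 (f (g
  (d (a (f (a (b (d (g e))))))))), t true 1 (g (d (a (f (a (d (g (a (b e)))))))))])) .nil .nil) .nil
  (.br .nil (.br (.br .nil .nil .nil .nil .nil (.hit [t false 1 (a (b (c (f (g (a (b (c (d (g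
  e)))))))))), t false 1 (f (g (a (b (c (f (a (b (d (g e)))))))))), t true 1 (g (a (b (c (f (a (d (g
  (a (b e))))))))))])) .nil .nil .nil .nil .nil) .nil (.br .nil (.br (.br .nil .nil .nil .nil .nil
  (.hit [t false 1 (a (b (d (c (f (g (a (b (c (d (g e))))))))))), t true 1 (a (d (c (f (g (a (b (c
  (d (c (g e))))))))))), t false 1 (b (a (d (f (g (a (b (c (d (c (g e))))))))))), t true 1 (c (b (a
  (f (g (a (b (c (d (c (g e))))))))))), t false 1 (f (g (a (b (d (c (f (a (b (d (g e))))))))))), t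
  true 1 (g (a (b (d (c (f (a (d (g (a (b e)))))))))))])) .nil .nil .nil .nil .nil) .nil .nil .nil
  .nil) .nil .nil) (.br .nil .nil .nil .nil .nil (.hit [t true 1 (d (c (f (g (a (d (a (g e)))))))),
  t false 1 (d (f (g (a (b (c (d (g e)))))))), t false 1 (f (g (d (f (a (b (d (g e)))))))), t true 1
  (g (d (f (a (d (g (a (b e))))))))])) .nil .nil) .nil) .nil .nil)) .nil (.br (.br .nil .nil .nil
  (.hit [t true 1 (a (b (c (d (a e))))), t true 1 (b (d (a (c (b e))))), t true 1 (c (b (a (d (c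
  e)))))]) .nil .nil) .nil .nil .nil .nil .nil) .nil .nil .nil) (.br (.br .nil .nil .nil (.hit [t
  true 1 (a (b (d (a e)))), t true 1 (a (c (b (d e)))), t true 1 (b (a (c (b e)))), t true 1 (b (d
  (a (c e)))), t true 1 (c (b (d (c e))))]) .nil .nil) .nil .nil (.hit [t true 1 (c (d (c e)))])
  .nil .nil) (.hit []) (.br (.br .nil .nil .nil (.br (.br .nil .nil .nil .nil (.hit [t false 1 (a (f
  (a (d (a (f e))))))]) .nil) .nil .nil .nil .nil (.br (.br .nil .nil .nil .nil (.br (.br .nil .nil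
  .nil .nil .nil (.hit [t true 1 (a (g (a (f (a (g (d (a (f e))))))))), t true 1 (f (a (g (a (f (a
  (g (d (a e)))))))))])) (.br .nil .nil (.br (.br .nil .nil .nil (.br .nil .nil .nil .nil .nil (.hit
  [t false 1 (a (b (c (g (a (d (f (a (g (d (a (f e)))))))))))), t false 1 (a (b (f (g (a (b (c (d (g
  (f (d (a e)))))))))))), t false 1 (a (f (g (a (d (a (c (b (g (f (d (a e)))))))))))), t true 1 (a
  (g (d (a (c (b (f (a (g (d (a (f e)))))))))))), t true 1 (b (c (d (f (g (a (d (a (g (f (d (a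
  e)))))))))))), t true 1 (b (c (d (g (a (d (f (a (g (d (a (f e)))))))))))), t true 1 (b (c (f (d (g
  (a (d (f (a (g (d (a e)))))))))))), t false 1 (b (c (f (g (a (d (a (g (f (a (d (a e)))))))))))), t
  false 1 (b (c (g (a (d (a (g (f (a (d (a (f e)))))))))))), t true 1 (b (f (g (a (b (c (d (g (f (a
  (d (a e)))))))))))), t true 1 (b (g (a (b (c (d (g (f (a (d (a (f e)))))))))))), t false 1 (c (d
  (a (f (g (a (d (a (g (f (d (a e)))))))))))), t false 1 (c (d (a (g (a (d (f (a (g (d (a (f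
  e)))))))))))), t false 1 (c (f (d (a (g (a (d (f (a (g (d (a e)))))))))))), t true 1 (d (a (c (b
  (g (a (f (a (g (d (a (f e)))))))))))), t true 1 (d (a (f (g (a (d (a (c (g (f (d (a e)))))))))))),
  t true 1 (d (a (g (a (d (c (f (a (g (d (a (f e)))))))))))), t false 1 (f (a (b (c (g (a (d (f (a
  (g (d (a e)))))))))))), t true 1 (f (a (g (d (a (c (b (f (a (g (d (a e)))))))))))), t true 1 (f (d
  (a (c (b (g (a (f (a (g (d (a e)))))))))))), t true 1 (f (d (a (g (a (d (c (f (a (g (d (a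
  e)))))))))))), t true 1 (f (g (a (d (a (c (b (g (f (a (d (a e)))))))))))), t true 1 (g (a (d (a (c
  (b (g (f (a (d (a (f e))))))))))))])) .nil .nil) .nil .nil .nil .nil .nil) .nil .nil .nil) (.br
  .nil .nil .nil (.br (.br .nil .nil .nil .nil .nil (.hit [t true 1 (a (d (c (g (a (f (a (g (d (a (f
  e))))))))))), t true 1 (d (f (g (a (d (a (c (g (f (d (a e))))))))))), t true 1 (d (g (a (d (c (f
  (a (g (d (a (f e))))))))))), t true 1 (f (a (d (c (g (a (f (a (g (d (a e))))))))))), t true 1 (f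
  (d (g (a (d (c (f (a (g (d (a e))))))))))), t false 1 (f (g (a (d (a (c (g (f (a (d (a
  e))))))))))), t false 1 (g (a (d (a (c (g (f (a (d (a (f e)))))))))))])) .nil .nil .nil .nil .nil)
  .nil .nil) (.br (.br .nil .nil .nil .nil .nil (.hit [t true 1 (a (d (g (a (f (a (g (d (a (f
  e)))))))))), t true 1 (d (f (g (a (d (a (g (f (d (a e)))))))))), t true 1 (d (g (a (d (f (a (g (d
  (a (f e)))))))))), t true 1 (f (a (d (g (a (f (a (g (d (a e)))))))))), t true 1 (f (d (g (a (d (f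
  (a (g (d (a e)))))))))), t false 1 (f (g (a (d (a (g (f (a (d (a e)))))))))), t false 1 (g (a (d
  (a (g (f (a (d (a (f e))))))))))])) .nil .nil .nil .nil .nil) .nil .nil) .nil) (.br .nil .nil (.br
  (.br .nil .nil .nil (.br .nil .nil .nil .nil (.br (.br .nil .nil .nil .nil .nil (.hit [t false 1
  (a (b (f (a (g (a (b (c (f (d (g (a e)))))))))))), t true 1 (a (b (f (g (a (b (c (d (g (f (d (a
  e)))))))))))), t true 1 (a (b (g (a (f (a (b (c (g (d (f (a e)))))))))))), t true 1 (a (f (g (a (d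
  (a (c (b (g (f (d (a e)))))))))))), t true 1 (a (g (a (f (d (a (c (b (g (d (a (f e)))))))))))), t
  false 1 (b (a (f (a (b (c (g (a (d (f (a (g e)))))))))))), t true 1 (b (a (g (a (b (c (f (a (d (g
  (a (f e)))))))))))), t true 1 (b (f (a (b (c (d (f (g (a (d (a (g e)))))))))))), t true 1 (b (f (a
  (g (a (b (c (f (a (d (g (a e)))))))))))), t false 1 (b (f (g (a (b (c (d (g (f (a (d (a
  e)))))))))))), t false 1 (b (g (a (b (c (d (g (f (a (d (a (f e)))))))))))), t false 1 (b (g (a (f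
  (a (b (c (g (a (d (f (a e)))))))))))), t false 1 (c (d (a (f (a (d (g (a (f (d (a (g
  e)))))))))))), t true 1 (c (d (a (f (g (a (d (a (g (f (d (a e)))))))))))), t true 1 (c (d (a (g (a
  (d (f (a (g (d (a (f e)))))))))))), t true 1 (c (f (d (a (g (a (d (f (a (g (d (a e)))))))))))), t
  true 1 (d (a (f (a (d (c (g (a (f (d (a (g e)))))))))))), t false 1 (d (a (f (g (a (d (a (c (g (f
  (d (a e)))))))))))), t false 1 (d (a (g (a (d (c (f (a (g (d (a (f e)))))))))))), t false 1 (d (c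
  (f (a (g (a (f (d (a (c (g (d e)))))))))))), t true 1 (d (c (g (a (f (a (g (d (a (c (f (d
  e)))))))))))), t true 1 (d (f (a (d (c (g (a (f (d (a (c (g e)))))))))))), t false 1 (d (f (g (a
  (d (a (c (g (f (d (a (c e)))))))))))), t false 1 (d (g (a (d (c (f (a (g (d (a (c (f
  e)))))))))))), t true 1 (f (a (b (c (g (a (d (f (a (g (d (a e)))))))))))), t true 1 (f (a (g (a (f
  (d (a (c (b (g (d (a e)))))))))))), t false 1 (f (d (a (g (a (d (c (f (a (g (d (a e)))))))))))), t
  false 1 (f (d (g (a (d (c (f (a (g (d (a (c e)))))))))))), t false 1 (f (g (a (d (a (c (b (g (f (a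
  (d (a e)))))))))))), t true 1 (f (g (a (d (a (c (g (f (a (d (a (c e)))))))))))), t false 1 (g (a
  (d (a (c (b (g (f (a (d (a (f e)))))))))))), t true 1 (g (a (d (a (c (g (f (a (d (a (c (f
  e)))))))))))), t false 1 (g (a (f (a (g (d (a (c (b (f (d (a e))))))))))))])) .nil .nil .nil .nil
  .nil) .nil) .nil .nil) .nil .nil .nil .nil .nil) .nil .nil .nil) (.br .nil .nil .nil (.br (.br
  .nil .nil .nil .nil (.br (.br .nil .nil .nil (.br .nil .nil .nil .nil .nil (.hit [t true 1 (a (g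
  (d (a (f (a (d (c (g (d (a (f e)))))))))))), t true 1 (d (a (g (d (f (a (d (c (g (d (a (f
  e)))))))))))), t false 1 (g (a (d (a (c (g (f (a (d (a (c (f e)))))))))))), t true 1 (g (d (a (f
  (a (d (c (g (a (f (d (a e))))))))))))])) .nil .nil) .nil .nil (.br .nil .nil .nil .nil .nil (.hit
  [t true 1 (d (g (d (f (a (d (c (g (d (a (f e))))))))))), t true 1 (g (a (d (a (c (g (f (a (d (a (f
  e))))))))))), t true 1 (g (d (f (a (d (c (g (a (f (d (a e)))))))))))])) .nil .nil) .nil) .nil .nil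
  .nil .nil .nil) .nil .nil) (.br (.br .nil .nil .nil .nil (.br .nil .nil (.br .nil (.br (.br .nil
  .nil .nil .nil .nil (.hit [t false 1 (a (b (f (a (g (a (b (c (f (d (g (a e)))))))))))), t true 1
  (a (g (a (b (c (f (a (d (g (d (a (f e)))))))))))), t true 1 (b (a (g (a (b (c (f (a (d (g (a (f
  e)))))))))))), t true 1 (b (f (a (g (a (b (c (f (a (d (g (a e)))))))))))), t true 1 (f (a (g (a (b
  (c (f (a (d (g (d (a e))))))))))))])) .nil .nil .nil .nil .nil) .nil .nil .nil .nil) .nil .nil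
  .nil) .nil) .nil .nil .nil .nil .nil) .nil .nil)) .nil (.br .nil .nil .nil (.br (.br .nil .nil
  .nil .nil (.br (.br .nil .nil .nil (.br .nil .nil .nil .nil .nil (.hit [t true 1 (a (f (a (d (g (d
  (a (f (d (g e)))))))))), t false 1 (d (a (f (a (g (d (a (f (d (g e)))))))))), t false 1 (f (a (d
  (g (d (a (f (a (d (g e))))))))))])) .nil .nil) .nil (.br .nil (.br (.br .nil .nil .nil .nil .nil
  (.hit [t true 1 (a (b (f (a (g (a (b (c (f (d (g e))))))))))), t false 1 (b (f (a (g (a (b (c (f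
  (a (d (g e))))))))))), t true 1 (b (g (a (b (c (f (a (d (g (a (f e))))))))))), t false 1 (f (a (g
  (a (b (c (f (a (d (g (d e)))))))))))])) .nil .nil .nil .nil .nil) .nil (.br .nil (.br (.br .nil
  .nil .nil .nil .nil (.hit [t true 1 (a (b (d (f (a (g (a (b (c (f (d (g e)))))))))))), t false 1
  (b (c (f (g (a (b (c (d (g (f (a (d e)))))))))))), t true 1 (b (d (c (f (g (a (b (c (d (g (f (d
  e)))))))))))), t true 1 (c (f (g (a (b (c (d (c (g (f (a (d e)))))))))))), t false 1 (d (c (f (g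
  (a (b (c (d (c (g (f (d e)))))))))))), t false 1 (d (f (g (a (b (d (a (c (f (d (g (f
  e)))))))))))), t false 1 (f (a (d (g (a (b (c (f (a (d (g (d e)))))))))))), t false 1 (f (d (g (a
  (b (d (c (f (a (d (g (d e)))))))))))), t true 1 (f (g (a (b (d (a (c (f (a (d (g (f e)))))))))))),
  t false 1 (g (a (b (d (a (c (f (a (d (g (a (f e))))))))))))])) .nil .nil .nil .nil .nil) .nil .nil
  .nil .nil) .nil .nil) (.br .nil .nil .nil .nil .nil (.hit [t false 1 (d (f (a (g (d (a (f (d (g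
  e))))))))), t true 1 (f (a (g (d (a (f (a (d (g e))))))))), t false 1 (g (d (a (f (a (d (g (a (f
  e)))))))))])) .nil .nil) .nil) .nil .nil .nil .nil .nil) .nil .nil)) (.br (.br .nil .nil .nil .nil
  .nil (.br .nil .nil .nil (.br (.br .nil .nil .nil .nil (.br .nil .nil .nil (.br .nil .nil .nil
  .nil .nil (.hit [t false 1 (d (c (f (a (g (d (a (f (d (g e)))))))))), t true 1 (d (f (a (b (c (g
  (d (f (d (g e)))))))))), t false 1 (d (f (a (g (a (b (c (f (d (g e)))))))))), t true 1 (f (a (g (d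
  (a (f (a (b (d (g e)))))))))), t false 1 (g (d (a (f (a (d (g (a (b (f e))))))))))])) .nil .nil)
  .nil) .nil .nil .nil .nil .nil) .nil .nil)) .nil .nil .nil .nil .nil) (.br .nil .nil .nil (.br
  (.br .nil .nil .nil .nil .nil (.br .nil .nil (.br .nil (.br (.br .nil .nil .nil .nil (.br (.br
  .nil .nil .nil .nil .nil (.hit [t true 1 (a (b (g (a (d (f (a (b (c (g (d (f e)))))))))))), t true
  1 (b (f (a (b (d (c (g (a (d (f (a (g e)))))))))))), t false 1 (b (g (a (d (f (a (b (c (g (a (d (f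
  e)))))))))))), t false 1 (d (f (a (b (g (a (d (a (c (g (d (f e)))))))))))), t false 1 (f (a (b (c
  (g (a (d (c (f (a (g (d e)))))))))))), t true 1 (f (a (b (d (c (g (a (d (c (f (a (g e)))))))))))),
  t true 1 (f (a (b (g (a (d (a (c (g (d (f (a e)))))))))))), t false 1 (g (a (d (f (a (b (c (g (a
  (d (c (f e))))))))))))])) .nil .nil (.br (.br .nil .nil .nil .nil .nil (.hit [t true 1 (a (b (a (d
  (g (a (f (a (b (c (g (d (f e))))))))))))), t true 1 (a (b (d (g (a (d (f (a (b (c (g (d (f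
  e))))))))))))), t false 1 (a (b (g (a (d (a (g (f (a (b (c (d (f e))))))))))))), t false 1 (b (f
  (a (b (d (c (g (a (d (f (a (g (d e))))))))))))), t true 1 (b (g (a (d (f (a (b (c (g (a (d (f (d
  e))))))))))))), t true 1 (d (f (a (b (g (a (d (a (c (g (d (f (d e))))))))))))), t false 1 (f (a (b
  (d (c (g (a (d (c (f (a (g (d e))))))))))))), t false 1 (f (a (b (g (a (d (a (c (g (d (f (a (d
  e)))))))))))))])) .nil .nil .nil .nil .nil) .nil .nil) .nil) .nil .nil .nil .nil .nil) .nil .nil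
  .nil .nil) .nil .nil .nil)) .nil .nil .nil .nil .nil) .nil .nil) (.br (.br .nil .nil .nil .nil
  .nil (.br (.br .nil .nil .nil (.br .nil .nil .nil .nil (.br .nil .nil (.br .nil .nil .nil (.br
  (.br .nil .nil .nil .nil .nil (.hit [t true 1 (a (d (c (f (a (d (g (a (f (d (a (g e)))))))))))), t
  true 1 (a (d (c (f (d (g (a (d (f (d (a (g e)))))))))))), t false 1 (a (d (c (f (g (a (d (a (g (f
  (d (a e)))))))))))), t false 1 (a (d (c (g (a (d (f (a (g (d (a (f e)))))))))))), t false 1 (b (c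
  (f (a (g (a (b (c (f (a (d (g e)))))))))))), t true 1 (b (c (f (g (a (b (c (d (g (f (a (d
  e)))))))))))), t true 1 (b (c (g (a (b (c (f (a (d (g (a (f e)))))))))))), t true 1 (b (d (c (f (a
  (g (a (b (c (f (d (g e)))))))))))), t false 1 (b (d (c (f (g (a (b (c (d (g (f (d e)))))))))))), t
  false 1 (c (f (a (d (g (a (b (c (f (a (d (g e)))))))))))), t false 1 (c (f (d (g (a (b (d (c (f (a
  (d (g e)))))))))))), t false 1 (c (f (g (a (b (c (d (c (g (f (a (d e)))))))))))), t true 1 (c (g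
  (a (b (d (c (f (a (d (g (a (f e)))))))))))), t true 1 (c (g (a (d (c (f (d (a (g (a (d (f
  e)))))))))))), t false 1 (d (c (f (a (d (c (g (a (f (d (a (g e)))))))))))), t true 1 (d (c (f (a
  (d (g (a (b (c (f (d (g e)))))))))))), t true 1 (d (c (f (d (g (a (b (d (c (f (d (g e)))))))))))),
  t false 1 (d (c (f (d (g (a (d (c (f (d (a (g e)))))))))))), t true 1 (d (c (f (g (a (b (c (d (c
  (g (f (d e)))))))))))), t true 1 (d (c (f (g (a (d (a (c (g (f (d (a e)))))))))))), t true 1 (d (c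
  (g (a (d (c (f (a (g (d (a (f e)))))))))))), t true 1 (d (f (g (a (b (d (a (c (f (d (g (f
  e)))))))))))), t false 1 (f (g (a (b (d (a (c (f (a (d (g (f e)))))))))))), t true 1 (g (a (b (d
  (a (c (f (a (d (g (a (f e)))))))))))), t true 1 (g (a (d (a (c (g (d (f (a (d (a (f
  e))))))))))))])) .nil .nil .nil .nil .nil) .nil .nil) .nil .nil .nil) .nil) .nil .nil) .nil (.br
  .nil (.br (.br .nil .nil .nil .nil (.br (.br .nil .nil .nil .nil .nil (.hit [t false 1 (a (b (g (a
  (f (a (b (c (g (d (f e))))))))))), t false 1 (b (f (a (b (c (g (a (d (f (a (g e))))))))))), t true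
  1 (b (g (a (f (a (b (c (g (a (d (f e))))))))))), t false 1 (f (a (b (c (g (a (d (f (a (g (d
  e)))))))))))])) .nil .nil .nil .nil .nil) .nil) .nil .nil .nil .nil .nil) .nil .nil .nil .nil)
  .nil .nil .nil)) .nil .nil .nil .nil (.br .nil .nil (.br .nil (.br (.br .nil .nil .nil .nil (.br
  (.br .nil .nil .nil .nil .nil (.hit [t true 1 (a (g (a (f (a (b (c (g (d (f e))))))))))])) .nil
  (.br .nil .nil .nil (.br (.br .nil .nil .nil .nil .nil (.hit [t true 1 (a (d (c (g (a (f (a (b (c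
  (g (d (f e)))))))))))), t true 1 (d (g (a (d (c (f (a (b (c (g (d (f e)))))))))))), t false 1 (g
  (a (d (a (c (g (f (a (b (c (d (f e))))))))))))])) .nil .nil .nil .nil .nil) .nil .nil) (.br (.br
  .nil .nil .nil .nil .nil (.hit [t true 1 (a (d (g (a (f (a (b (c (g (d (f e))))))))))), t true 1
  (d (g (a (d (f (a (b (c (g (d (f e))))))))))), t false 1 (g (a (d (a (g (f (a (b (c (d (f
  e)))))))))))])) .nil .nil .nil .nil .nil) .nil .nil) .nil) .nil .nil .nil .nil .nil) .nil .nil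
  .nil .nil) .nil .nil .nil)) .nil .nil) (.br (.br .nil .nil .nil (.br (.br .nil .nil .nil .nil .nil
  (.hit [t false 1 (a (g (a (d (a (g e))))))])) .nil .nil .nil (.br (.br .nil .nil .nil (.br .nil
  .nil (.br .nil (.br (.br .nil .nil .nil .nil .nil (.hit [t true 1 (a (f (g (a (b (c (d (a (f (a (g
  e))))))))))), t false 1 (a (g (a (b (c (d (a (f (a (g (a e))))))))))), t false 1 (f (g (a (b (c (d
  (a (f (d (a (g e))))))))))), t true 1 (g (a (b (c (d (a (f (a (g (d (a e)))))))))))])) .nil .nil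
  .nil .nil .nil) .nil .nil .nil .nil) .nil .nil .nil) .nil (.hit [t false 1 (a (f (g (a (d (a (g
  e))))))), t false 1 (f (g (a (f (d (a (g e))))))), t true 1 (g (a (f (a (g (d (a e)))))))])) (.br
  .nil .nil (.br (.br .nil .nil .nil (.br .nil .nil .nil .nil .nil (.hit [t false 1 (a (b (f (g (a
  (d (a (c (b (g e)))))))))), t true 1 (a (c (b (f (g (a (d (a (c (g e)))))))))), t false 1 (d (a (c
  (b (f (g (a (d (a (g e)))))))))), t true 1 (d (a (c (f (g (a (d (a (c (g e)))))))))), t false 1 (f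
  (g (d (a (c (b (f (d (a (g e)))))))))), t true 1 (g (d (a (c (b (f (a (g (d (a e))))))))))])) .nil
  .nil) .nil .nil .nil .nil .nil) .nil .nil .nil) (.br .nil .nil .nil (.br (.br .nil .nil .nil .nil
  .nil (.hit [t false 1 (a (d (c (f (g (a (d (a (g e))))))))), t true 1 (d (c (f (g (a (d (a (c (g
  e))))))))), t false 1 (f (g (a (d (c (f (d (a (g e))))))))), t true 1 (g (a (d (c (f (a (g (d (a
  e)))))))))])) .nil .nil .nil .nil .nil) .nil .nil) (.br (.br .nil .nil .nil .nil .nil (.hit [t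
  false 1 (a (d (f (g (a (d (a (g e)))))))), t false 1 (f (g (a (d (f (d (a (g e)))))))), t true 1
  (g (a (d (f (a (g (d (a e))))))))])) .nil .nil .nil .nil .nil) .nil .nil) .nil) (.br .nil .nil
  .nil (.br .nil .nil (.br .nil (.br (.br .nil .nil .nil .nil (.br .nil .nil (.br (.br .nil .nil
  .nil (.br .nil .nil .nil .nil .nil (.hit [t true 1 (a (b (f (a (b (d (c (g (a (d (f (a (g
  e))))))))))))), t true 1 (a (b (f (a (d (g (d (a (c (b (f (a (g e))))))))))))), t false 1 (a (c (b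
  (f (a (b (c (g (a (d (f (a (g e))))))))))))), t false 1 (a (c (b (f (a (g (d (a (c (b (f (a (g
  e))))))))))))), t true 1 (a (d (g (d (c (f (a (b (c (d (f (a (g e))))))))))))), t true 1 (a (f (a
  (b (d (c (g (a (d (c (f (a (g e))))))))))))), t false 1 (a (f (a (d (c (g (d (a (c (b (f (a (g
  e))))))))))))), t false 1 (a (f (d (c (g (a (b (c (d (a (f (a (g e))))))))))))), t false 1 (b (f
  (a (b (d (c (g (a (d (f (d (a (g e))))))))))))), t false 1 (b (f (a (d (g (d (a (c (b (f (d (a (g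
  e))))))))))))), t true 1 (c (b (f (a (b (c (g (a (d (f (d (a (g e))))))))))))), t true 1 (c (b (f
  (a (g (d (a (c (b (f (d (a (g e))))))))))))), t true 1 (c (g (a (b (f (a (b (c (d (f (a (g (d
  e))))))))))))), t false 1 (d (a (c (f (a (b (c (g (a (d (f (a (g e))))))))))))), t false 1 (d (a
  (f (a (b (c (g (a (d (c (f (a (g e))))))))))))), t false 1 (d (c (g (a (b (f (a (b (c (d (f (a (g
  e))))))))))))), t false 1 (d (g (a (b (f (a (b (c (d (c (f (a (g e))))))))))))), t false 1 (d (g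
  (d (a (c (f (a (b (c (d (f (a (g e))))))))))))), t false 1 (f (a (b (d (c (g (a (d (c (f (d (a (g
  e))))))))))))), t true 1 (f (a (d (c (g (d (a (c (b (f (d (a (g e))))))))))))), t true 1 (f (d (c
  (g (a (b (c (d (a (f (d (a (g e))))))))))))), t true 1 (g (a (b (d (f (a (b (d (a (c (g (d (f
  e))))))))))))), t true 1 (g (a (b (f (a (b (c (d (c (f (a (g (d e))))))))))))), t false 1 (g (a (b
  (f (a (b (d (a (c (g (d (f (a e))))))))))))), t false 1 (g (d (a (c (b (f (a (b (c (g (d (f (a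
  e)))))))))))))])) .nil .nil) .nil .nil (.br .nil .nil .nil .nil .nil (.hit [t false 1 (a (g (d (c
  (f (a (b (c (d (f (a (g e)))))))))))), t true 1 (b (g (a (d (f (a (b (c (g (d (f (a e)))))))))))),
  t false 1 (c (b (g (a (f (a (b (c (g (d (f (a e)))))))))))), t true 1 (c (f (a (b (c (g (a (d (f
  (d (a (g e)))))))))))), t false 1 (d (c (f (a (b (c (g (a (d (f (a (g e)))))))))))), t false 1 (d
  (f (a (b (c (g (a (d (c (f (a (g e)))))))))))), t true 1 (f (a (b (c (g (a (d (c (f (d (a (g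
  e)))))))))))), t false 1 (g (a (d (c (f (a (b (c (g (d (f (a e)))))))))))), t true 1 (g (d (a (c
  (b (f (a (b (c (g (d (f e))))))))))))])) .nil .nil) .nil .nil .nil) .nil) .nil .nil .nil .nil
  .nil) .nil .nil .nil .nil) .nil .nil .nil) .nil .nil) .nil) (.br .nil .nil (.br (.br .nil .nil
  .nil (.br .nil .nil .nil .nil (.br .nil .nil (.br .nil .nil .nil (.br (.br .nil .nil .nil .nil
  .nil (.hit [t true 1 (a (b (g (a (b (d (c (f (a (d (g e))))))))))), t true 1 (a (b (g (a (d (f (d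
  (a (c (b (g e))))))))))), t false 1 (a (c (b (g (a (b (c (f (a (d (g e))))))))))), t false 1 (a (c
  (b (g (a (f (d (a (c (b (g e))))))))))), t true 1 (a (d (f (d (c (g (a (b (c (d (g e))))))))))), t
  true 1 (a (g (a (b (d (c (f (a (d (c (g e))))))))))), t false 1 (a (g (a (d (c (f (d (a (c (b (g
  e))))))))))), t false 1 (b (g (a (b (d (c (f (a (d (g (d e))))))))))), t false 1 (b (g (a (d (f (a
  (b (c (g (d (a e))))))))))), t false 1 (b (g (a (d (f (d (a (c (b (g (d e))))))))))), t true 1 (c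
  (b (g (a (b (c (f (a (d (g (d e))))))))))), t true 1 (c (b (g (a (f (a (b (c (g (d (a
  e))))))))))), t true 1 (c (b (g (a (f (d (a (c (b (g (d e))))))))))), t true 1 (c (f (a (b (c (g
  (a (f (d (a (g e))))))))))), t false 1 (c (f (a (b (g (a (b (c (f (d (g e))))))))))), t false 1 (d
  (a (c (g (a (b (c (f (a (d (g e))))))))))), t false 1 (d (a (g (a (b (c (f (a (d (c (g
  e))))))))))), t true 1 (d (c (f (a (b (c (g (a (d (a (g e))))))))))), t false 1 (d (c (f (a (b (g
  (a (b (c (d (g e))))))))))), t true 1 (d (f (a (b (c (g (a (d (a (c (g e))))))))))), t false 1 (d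
  (f (a (b (g (a (b (c (d (c (g e))))))))))), t false 1 (d (f (d (a (c (g (a (b (c (d (g
  e))))))))))), t true 1 (f (a (b (g (a (b (d (c (f (d (g e))))))))))), t false 1 (f (a (b (g (a (d
  (c (f (d (a (g e))))))))))), t false 1 (f (d (a (c (g (a (b (c (f (d (g e))))))))))), t false 1 (g
  (a (b (d (c (f (a (d (c (g (d e))))))))))), t true 1 (g (a (d (c (f (a (b (c (g (d (a
  e)))))))))))])) .nil .nil .nil .nil .nil) .nil .nil) .nil .nil .nil) .nil) .nil .nil) .nil .nil
  .nil .nil .nil) .nil .nil .nil) (.br (.br .nil .nil .nil (.br .nil .nil .nil .nil (.br .nil .nil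
  (.br .nil .nil .nil (.br (.br .nil .nil .nil .nil .nil (.hit [t true 1 (a (b (c (b (g (a (f (a (b
  (g e)))))))))), t true 1 (a (b (g (a (d (c (f (a (b (g e)))))))))), t true 1 (a (b (g (a (d (f (d
  (a (c (g e)))))))))), t false 1 (a (c (b (g (a (f (d (a (c (g e)))))))))), t false 1 (a (d (f (d
  (g (a (b (c (d (g e)))))))))), t true 1 (a (g (a (b (d (c (f (d (c (g e)))))))))), t false 1 (a (g
  (a (d (c (f (d (a (c (g e)))))))))), t false 1 (b (c (b (g (a (f (a (b (g (d e)))))))))), t false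
  1 (b (g (a (d (c (f (a (b (g (d e)))))))))), t false 1 (b (g (a (d (f (a (b (g (d (a e)))))))))),
  t false 1 (b (g (a (d (f (d (a (c (g (d e)))))))))), t true 1 (c (b (g (a (f (a (b (g (d (a
  e)))))))))), t true 1 (c (b (g (a (f (d (a (c (g (d e)))))))))), t true 1 (c (f (a (b (g (a (f (d
  (a (g e)))))))))), t false 1 (d (a (g (a (b (c (f (d (c (g e)))))))))), t true 1 (d (c (f (a (b (g
  (a (d (a (g e)))))))))), t false 1 (d (c (f (a (g (a (d (a (c (g e)))))))))), t true 1 (d (f (a (g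
  (a (b (c (d (c (g e)))))))))), t true 1 (d (f (d (a (g (a (b (c (d (g e)))))))))), t false 1 (f (a
  (b (g (a (d (f (d (a (g e)))))))))), t false 1 (f (a (g (a (b (d (c (f (d (g e)))))))))), t true 1
  (f (a (g (a (d (c (f (d (a (g e)))))))))), t true 1 (f (d (a (g (a (b (c (f (d (g e)))))))))), t
  false 1 (g (a (b (d (c (f (d (c (g (d e)))))))))), t true 1 (g (a (d (c (f (a (b (g (d (a
  e))))))))))])) .nil .nil .nil .nil .nil) .nil .nil) .nil .nil .nil) .nil) .nil .nil) .nil .nil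
  (.br (.br .nil .nil .nil .nil (.br .nil .nil (.br .nil (.br (.br .nil .nil .nil .nil .nil (.hit [t
  false 1 (a (f (d (c (g (a (b (c (d (g e)))))))))), t true 1 (c (g (a (b (c (f (a (d (g (d
  e)))))))))), t false 1 (d (c (g (a (b (c (f (a (d (g e)))))))))), t false 1 (d (g (a (b (c (f (a
  (d (c (g e)))))))))), t false 1 (f (d (c (g (a (b (c (f (d (g e))))))))))])) .nil .nil .nil .nil
  .nil) .nil .nil .nil .nil) .nil .nil .nil) .nil) .nil (.br .nil (.br (.br .nil .nil .nil .nil .nil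
  (.hit [t true 1 (a (d (g (a (b (c (d (g e)))))))), t false 1 (d (g (a (b (c (d (c (g e))))))))]))
  .nil .nil .nil .nil .nil) .nil .nil .nil .nil) .nil .nil .nil) .nil .nil) (.br (.br .nil .nil .nil
  .nil (.br (.br .nil .nil .nil (.br .nil .nil .nil .nil .nil (.hit [t true 1 (a (d (g (d (f (a (d
  (g e)))))))), t true 1 (a (f (d (g (a (d (a (g e)))))))), t false 1 (d (g (d (a (f (a (d (g
  e)))))))), t true 1 (f (a (d (g (d (f (d (g e)))))))), t false 1 (f (d (g (d (a (f (d (g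
  e))))))))])) .nil .nil) .nil .nil (.br .nil .nil .nil .nil .nil (.hit [t false 1 (a (g (d (f (a (d
  (g e))))))), t false 1 (f (a (g (d (f (d (g e)))))))])) .nil .nil) .nil) (.br (.br .nil .nil .nil
  .nil (.br .nil .nil .nil (.br .nil .nil .nil .nil .nil (.hit [t false 1 (a (g (d (f (a (b (d (g
  e)))))))), t false 1 (f (a (b (g (d (f (d (g e))))))))])) .nil .nil) .nil) .nil .nil .nil .nil
  .nil) (.br .nil (.br (.br .nil .nil .nil .nil .nil (.hit [t false 1 (a (g (a (b (c (d (g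
  e)))))))])) .nil .nil .nil .nil .nil) .nil .nil .nil .nil) .nil (.br (.br .nil .nil .nil (.br .nil
  .nil .nil .nil .nil (.hit [t true 1 (a (f (g (a (d (a (g e))))))), t false 1 (f (g (d (a (f (d (g
  e)))))))])) .nil .nil) .nil (.br .nil (.br (.br .nil .nil .nil .nil .nil (.hit [t false 1 (a (f (g
  (a (b (c (d (g e)))))))), t false 1 (f (g (a (b (c (f (d (g e))))))))])) .nil .nil .nil .nil .nil)
  .nil (.br .nil (.br (.br .nil .nil .nil .nil .nil (.hit [t false 1 (a (d (f (g (a (b (c (d (g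
  e))))))))), t true 1 (d (f (g (a (b (c (d (c (g e))))))))), t false 1 (f (g (a (b (d (c (f (d (g
  e)))))))))])) .nil .nil .nil .nil .nil) .nil .nil .nil .nil) .nil .nil) (.br .nil .nil .nil .nil
  .nil (.hit [t false 1 (f (g (d (f (d (g e))))))])) .nil .nil) .nil) (.br (.br .nil .nil .nil (.br
  (.br .nil .nil .nil .nil (.br .nil .nil (.br .nil .nil .nil (.br .nil .nil .nil .nil .nil (.hit [t
  true 1 (a (b (c (b (f (a (g (a (b (f e)))))))))), t true 1 (a (b (f (a (d (c (g (a (b (f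
  e)))))))))), t true 1 (a (b (f (a (d (g (d (a (c (f e)))))))))), t false 1 (a (c (b (f (a (g (d (a
  (c (f e)))))))))), t false 1 (a (d (g (d (c (f (a (d (a (f e)))))))))), t false 1 (a (g (d (c (f
  (a (d (a (f (g e)))))))))), t false 1 (b (c (b (f (a (g (a (b (f (d e)))))))))), t false 1 (b (f
  (a (d (c (g (a (b (f (d e)))))))))), t false 1 (b (f (a (d (g (a (b (f (d (a e)))))))))), t false
  1 (b (f (a (d (g (d (a (c (f (d e)))))))))), t true 1 (c (b (f (a (g (a (b (f (d (a e)))))))))), t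
  true 1 (c (b (f (a (g (d (a (c (f (d e)))))))))), t false 1 (c (f (a (g (d (a (c (f (d (g
  e)))))))))), t true 1 (c (g (a (b (f (a (g (d (a (f e)))))))))), t false 1 (d (c (f (a (d (a (f (g
  (d (c e)))))))))), t true 1 (d (c (g (a (b (f (a (d (a (f e)))))))))), t true 1 (d (g (d (a (c (f
  (a (d (a (f e)))))))))), t true 1 (f (a (d (c (g (a (b (f (d (a e)))))))))), t true 1 (f (a (d (g
  (d (a (c (f (d (a e)))))))))), t true 1 (f (a (g (d (a (c (f (d (a (g e)))))))))), t false 1 (g (a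
  (b (f (a (d (g (d (a (f e))))))))))])) .nil .nil) .nil .nil (.hit [t false 1 (a (g (f (a (d (a (f
  (g e)))))))), t true 1 (f (a (g (a (f (d (a (g e)))))))), t true 1 (f (a (g (d (a (f (d (g
  e)))))))), t false 1 (g (a (f (a (g (d (a (f e))))))))])) .nil) .nil (.br .nil (.br (.br .nil .nil
  .nil .nil .nil (.hit [t false 1 (a (f (g (a (b (c (d (a (f e))))))))), t false 1 (a (g (a (b (c (d
  (a (f (g e))))))))), t true 1 (b (a (f (g (a (b (c (d (a e))))))))), t true 1 (f (g (a (b (c (d (a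
  (f (d e)))))))))])) .nil .nil .nil .nil .nil) .nil .nil .nil .nil) .nil .nil .nil) .nil .nil) .nil
  .nil (.br .nil .nil (.br .nil (.br (.br .nil .nil .nil .nil (.br .nil .nil .nil .nil .nil (.hit [t
  false 1 (a (g (f (a (b (c (d (f (g e))))))))), t true 1 (f (a (b (c (g (d (f (d (g e))))))))), t
  false 1 (g (a (f (a (b (c (g (d (f e)))))))))])) .nil) .nil .nil .nil .nil .nil) .nil .nil .nil
  .nil) .nil .nil .nil) .nil .nil) .nil))

def Cd : C := (.br (.br .nil .nil .nil (.ba b_dad) (.br .nil (.br (.br .nil .nil .nil .nil .nil (.br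
  .nil .nil .nil (.br (.br .nil .nil .nil .nil (.br (.br .nil .nil .nil (.br .nil .nil .nil .nil
  .nil (.ov [(false, (g (d (f (a (d (g (a (b (f (d (a (d e)))))))))))))])) .nil .nil) .nil .nil (.br
  .nil .nil .nil .nil .nil (.ov [(true, (g (d (f (d (g (a (b (f (a (d (f e))))))))))))])) .nil .nil)
  .nil) .nil .nil .nil .nil .nil) .nil .nil)) .nil .nil .nil .nil .nil) (.br .nil .nil .nil (.br
  (.br .nil .nil .nil .nil .nil (.br .nil .nil (.br .nil (.br (.br .nil .nil .nil .nil (.br (.br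
  .nil .nil .nil .nil .nil (.ov [(true, (g (a (f (a (b (c (g (d (f (a (d (c (d e))))))))))))))]))
  .nil .nil .nil .nil .nil) .nil) .nil .nil .nil .nil .nil) .nil .nil .nil .nil) .nil .nil .nil))
  .nil .nil .nil .nil (.br .nil .nil (.br .nil (.br (.br .nil .nil .nil .nil (.br (.br .nil .nil
  .nil .nil .nil (.ov [(true, (g (a (f (a (b (g (d (c (f (a (d (f e)))))))))))))])) .nil .nil .nil
  .nil .nil) .nil) .nil .nil .nil .nil .nil) .nil .nil .nil .nil) .nil .nil .nil)) .nil .nil) (.br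
  (.br .nil .nil .nil .nil .nil (.br .nil .nil (.br .nil (.br (.br .nil .nil .nil .nil (.br (.br
  .nil .nil .nil .nil .nil (.ov [(true, (g (a (f (a (b (c (g (d (f (a (d (d e)))))))))))))])) .nil
  .nil .nil .nil .nil) .nil) .nil .nil .nil .nil .nil) .nil .nil .nil .nil) .nil .nil .nil)) .nil
  .nil .nil .nil (.br .nil .nil (.br .nil (.br (.br .nil .nil .nil .nil (.br (.br .nil .nil .nil
  .nil .nil (.ov [(false, (g (a (f (a (b (c (g (f (a (d (f e))))))))))))])) .nil .nil .nil .nil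
  .nil) .nil) .nil .nil .nil .nil .nil) .nil (.br .nil (.br (.br .nil .nil .nil .nil (.br (.br .nil
  .nil .nil (.br .nil .nil .nil .nil .nil (.ov [(false, (g (d (a (f (a (b (d (c (g (f (a (d (f
  e))))))))))))))])) .nil .nil) .nil .nil (.br .nil .nil .nil .nil .nil (.ov [(false, (g (d (f (a (b
  (d (c (g (f (a (d (f e)))))))))))))])) .nil .nil) .nil) .nil .nil .nil .nil .nil) .nil .nil .nil
  .nil) .nil .nil) .nil .nil .nil)) .nil .nil) (.br .nil .nil .nil (.br (.br .nil .nil .nil .nil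
  (.br .nil .nil (.br .nil (.br (.br .nil .nil .nil .nil .nil (.ov [(false, (g (a (b (c (f (a (g (a
  (d (g e)))))))))))])) .nil .nil .nil .nil .nil) .nil .nil .nil .nil) .nil .nil .nil) .nil) (.br
  (.br .nil .nil .nil .nil (.br (.br .nil .nil .nil (.br .nil .nil .nil .nil .nil (.ov [(true, (g (a
  (b (f (d (c (g (a (d (g e))))))))))), (false, (g (d (a (f (a (b (g (a (d (g e)))))))))))])) .nil
  .nil) .nil .nil (.br .nil .nil .nil .nil .nil (.ov [(false, (g (d (f (a (b (g (a (d (g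
  e))))))))))])) .nil .nil) .nil) .nil .nil .nil .nil .nil) (.br .nil (.br (.br .nil .nil .nil .nil
  .nil (.ov [(false, (g (a (b (c (g (a (d (g e)))))))))])) .nil .nil .nil .nil .nil) .nil .nil .nil
  .nil) .nil (.br (.br .nil .nil .nil (.br .nil .nil .nil .nil .nil (.ov [(false, (g (d (a (f (g (a
  (d (g e)))))))))])) .nil .nil) .nil (.br (.br .nil .nil .nil (.br .nil (.br (.br .nil .nil .nil
  .nil .nil (.ov [(false, (g (a (b (d (a (c (f (g (a (d (g e))))))))))))])) .nil .nil .nil .nil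
  .nil) .nil .nil .nil .nil) .nil .nil) (.br (.br .nil .nil .nil .nil .nil (.ov [(false, (g (a (b (c
  (f (g (a (d (g e))))))))))])) .nil .nil .nil .nil .nil) .nil (.br .nil (.br (.br .nil .nil .nil
  .nil .nil (.ov [(false, (g (a (b (d (c (f (g (a (d (g e)))))))))))])) .nil .nil .nil .nil .nil)
  .nil .nil .nil .nil) .nil .nil) (.br .nil .nil .nil .nil .nil (.ov [(false, (g (d (f (g (a (d (g
  e))))))))])) .nil .nil) .nil) (.br .nil .nil (.br .nil .nil .nil (.br .nil .nil (.br .nil (.br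
  (.br .nil .nil .nil .nil (.br .nil .nil .nil .nil .nil (.ov [(true, (g (f (a (b (d (c (g (a (d (f
  (g e))))))))))))])) .nil) .nil .nil .nil .nil .nil) .nil .nil .nil .nil) .nil .nil .nil) .nil
  .nil) (.br .nil .nil (.br .nil (.br (.br .nil .nil .nil .nil (.br .nil .nil .nil .nil .nil (.ov
  [(false, (g (f (a (b (c (g (a (d (f (g e)))))))))))])) .nil) .nil .nil .nil .nil .nil) .nil .nil
  .nil .nil) .nil .nil .nil) .nil .nil) .nil)) (.br (.br .nil .nil .nil .nil .nil (.br .nil .nil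
  (.br .nil .nil .nil (.br .nil .nil .nil .nil (.br (.br .nil .nil .nil (.br .nil .nil .nil .nil
  .nil (.ov [(true, (g (d (a (f (a (d (g (d (c (d e))))))))))), (false, (g (d (a (f (d (g (d (a (c
  (d e)))))))))))])) .nil .nil) .nil .nil .nil .nil .nil) .nil) .nil .nil) (.br .nil .nil .nil .nil
  (.br (.br .nil .nil .nil (.br .nil .nil .nil .nil .nil (.ov [(true, (g (d (a (f (d (g (a (d (b
  e))))))))))])) .nil .nil) .nil (.br .nil (.br (.br .nil .nil .nil .nil .nil (.ov [(false, (g (a (b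
  (c (f (g (a (b (d (g e)))))))))))])) .nil .nil .nil .nil .nil) .nil (.br .nil (.br (.br .nil .nil
  .nil .nil .nil (.ov [(false, (g (a (b (d (c (f (g (a (b (d (g e))))))))))))])) .nil .nil .nil .nil
  .nil) .nil .nil .nil .nil) .nil .nil) (.br .nil .nil .nil .nil .nil (.ov [(true, (g (d (f (d (g (a
  (d (b e)))))))))])) .nil .nil) .nil) .nil .nil)) .nil (.br (.br .nil .nil .nil (.ov [(true, (d (a
  (c (d (b e))))))]) .nil .nil) .nil .nil .nil .nil .nil) .nil .nil .nil) (.br (.br .nil .nil .nil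
  (.ba b_dacd) .nil .nil) .nil .nil (.ba b_dcd) .nil .nil) (.ba b_dd) (.br (.br .nil .nil .nil (.br
  (.br .nil .nil .nil .nil (.ov [(false, (f (a (f (d (a (f e)))))))]) .nil) .nil .nil .nil .nil (.br
  (.br .nil .nil .nil .nil (.br (.br .nil .nil .nil .nil .nil (.ov [(false, (g (a (f (a (g (f (d (a
  (f e))))))))))])) (.br .nil .nil (.br (.br .nil .nil .nil (.br .nil .nil .nil .nil .nil (.ov
  [(false, (g (d (a (c (b (f (a (g (f (d (a (f e)))))))))))))])) .nil .nil) .nil .nil .nil .nil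
  .nil) .nil .nil .nil) (.br .nil .nil .nil (.br (.br .nil .nil .nil .nil .nil (.ov [(false, (g (a
  (d (c (f (a (g (f (d (a (f e))))))))))))])) .nil .nil .nil .nil .nil) .nil .nil) (.br (.br .nil
  .nil .nil .nil .nil (.ov [(false, (g (a (d (f (a (g (f (d (a (f e)))))))))))])) .nil .nil .nil
  .nil .nil) .nil .nil) .nil) (.br .nil .nil (.br (.br .nil .nil .nil (.br .nil .nil .nil .nil (.br
  (.br .nil .nil .nil .nil .nil (.ov [(false, (g (a (f (d (a (c (b (g (f (d (a (f e)))))))))))))]))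
  .nil .nil .nil .nil .nil) .nil) .nil .nil) .nil .nil .nil .nil .nil) .nil .nil .nil) (.br .nil
  .nil .nil (.br (.br .nil .nil .nil .nil (.br (.br .nil .nil .nil (.br .nil .nil .nil .nil .nil
  (.ov [(false, (g (d (a (f (a (d (c (g (f (d (a (f e)))))))))))))])) .nil .nil) .nil .nil (.br .nil
  .nil .nil .nil .nil (.ov [(false, (g (d (f (a (d (c (g (f (d (a (f e))))))))))))])) .nil .nil)
  .nil) .nil .nil .nil .nil .nil) .nil .nil) (.br (.br .nil .nil .nil .nil (.br .nil .nil (.br .nil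
  (.br (.br .nil .nil .nil .nil .nil (.ov [(false, (g (a (b (c (f (a (d (g (f (d (a (f
  e)))))))))))))])) .nil .nil .nil .nil .nil) .nil .nil .nil .nil) .nil .nil .nil) .nil) .nil .nil
  .nil .nil .nil) .nil .nil)) .nil (.br .nil .nil .nil (.br (.br .nil .nil .nil .nil (.br (.br .nil
  .nil .nil (.br .nil .nil .nil .nil .nil (.ov [(false, (g (d (f (a (d (g (a (f (d (d
  e)))))))))))])) .nil .nil) .nil (.br .nil (.br (.br .nil .nil .nil .nil .nil (.ov [(false, (g (a
  (b (c (f (a (g (a (f (d (g e))))))))))))])) .nil .nil .nil .nil .nil) .nil (.br .nil (.br (.br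
  .nil .nil .nil .nil .nil (.ov [(false, (g (a (b (d (c (f (a (g (a (f (d (g e)))))))))))))])) .nil
  .nil .nil .nil .nil) .nil .nil .nil .nil) .nil .nil) (.br .nil .nil .nil .nil .nil (.ov [(false,
  (g (d (f (a (g (a (f (d (g e))))))))))])) .nil .nil) .nil) .nil .nil .nil .nil .nil) .nil .nil))
  (.br (.br .nil .nil .nil .nil .nil (.br .nil .nil .nil (.br (.br .nil .nil .nil .nil (.br .nil
  .nil .nil (.br .nil .nil .nil .nil .nil (.ov [(false, (g (d (f (a (g (a (b (f (d (g
  e)))))))))))])) .nil .nil) .nil) .nil .nil .nil .nil .nil) .nil .nil)) .nil .nil .nil .nil .nil)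
  (.br .nil .nil .nil (.br (.br .nil .nil .nil .nil .nil (.br .nil .nil (.br .nil (.br (.br .nil
  .nil .nil .nil (.br (.br .nil .nil .nil .nil .nil (.ov [(true, (g (a (f (a (b (g (a (d (c (f (d (f
  e)))))))))))))])) .nil .nil (.br (.br .nil .nil .nil .nil .nil (.ov [(false, (g (a (f (a (b (c (g
  (a (d (c (f (d (d e))))))))))))))])) .nil .nil .nil .nil .nil) .nil .nil) .nil) .nil .nil .nil
  .nil .nil) .nil .nil .nil .nil) .nil .nil .nil)) .nil .nil .nil .nil .nil) .nil .nil) (.br (.br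
  .nil .nil .nil .nil .nil (.br (.br .nil .nil .nil (.br .nil .nil .nil .nil (.br .nil .nil (.br
  .nil .nil .nil (.br (.br .nil .nil .nil .nil .nil (.ov [(false, (g (a (d (c (f (d (a (g (a (f (d
  (f e)))))))))))))])) .nil .nil .nil .nil .nil) .nil .nil) .nil .nil .nil) .nil) .nil .nil) .nil
  (.br .nil (.br (.br .nil .nil .nil .nil (.br (.br .nil .nil .nil .nil .nil (.ov [(false, (g (a (f
  (a (b (c (g (a (f (d (f e))))))))))))])) .nil .nil .nil .nil .nil) .nil) .nil .nil .nil .nil .nil)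
  .nil .nil .nil .nil) .nil .nil .nil)) .nil .nil .nil .nil (.br .nil .nil (.br .nil (.br (.br .nil
  .nil .nil .nil (.br (.br .nil .nil .nil .nil .nil (.ov [(false, (g (a (f (a (b (c (g (f (d (f
  e)))))))))))])) .nil (.br .nil .nil .nil (.br (.br .nil .nil .nil .nil .nil (.ov [(false, (g (a (d
  (c (f (a (b (c (g (f (d (f e)))))))))))))])) .nil .nil .nil .nil .nil) .nil .nil) (.br (.br .nil
  .nil .nil .nil .nil (.ov [(false, (g (a (d (f (a (b (c (g (f (d (f e))))))))))))])) .nil .nil .nil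
  .nil .nil) .nil .nil) .nil) .nil .nil .nil .nil .nil) .nil .nil .nil .nil) .nil .nil .nil)) .nil
  .nil) (.br (.br .nil .nil .nil (.br (.br .nil .nil .nil .nil .nil (.ov [(false, (g (a (g (d (a (g
  e)))))))])) .nil .nil .nil (.br (.br .nil .nil .nil (.br .nil .nil (.br .nil (.br (.br .nil .nil
  .nil .nil .nil (.ov [(false, (g (a (b (c (d (a (f (g (d (a (g e))))))))))))])) .nil .nil .nil .nil
  .nil) .nil .nil .nil .nil) .nil .nil .nil) .nil (.ov [(false, (g (a (f (g (d (a (g e))))))))]))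
  (.br .nil .nil (.br (.br .nil .nil .nil (.br .nil .nil .nil .nil .nil (.ov [(false, (g (d (a (c (b
  (f (g (d (a (g e)))))))))))])) .nil .nil) .nil .nil .nil .nil .nil) .nil .nil .nil) (.br .nil .nil
  .nil (.br (.br .nil .nil .nil .nil .nil (.ov [(false, (g (a (d (c (f (g (d (a (g e))))))))))]))
  .nil .nil .nil .nil .nil) .nil .nil) (.br (.br .nil .nil .nil .nil .nil (.ov [(false, (g (a (d (f
  (g (d (a (g e)))))))))])) .nil .nil .nil .nil .nil) .nil .nil) .nil) (.br .nil .nil .nil (.br .nil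
  .nil (.br .nil (.br (.br .nil .nil .nil .nil (.br .nil .nil (.br (.br .nil .nil .nil (.br .nil
  .nil .nil .nil .nil (.ov [(false, (g (d (a (c (f (a (b (c (g (d (f (a (g e))))))))))))))])) .nil
  .nil) .nil .nil (.br .nil .nil .nil .nil .nil (.ov [(false, (g (d (c (f (a (b (c (g (d (f (a (g
  e)))))))))))))])) .nil .nil) .nil .nil .nil) .nil) .nil .nil .nil .nil .nil) .nil .nil .nil .nil)
  .nil .nil .nil) .nil .nil) .nil) (.br .nil .nil (.br (.br .nil .nil .nil (.br .nil .nil .nil .nil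
  (.br .nil .nil (.br .nil .nil .nil (.br (.br .nil .nil .nil .nil .nil (.ov [(true, (g (a (d (c (f
  (d (a (c (g (d (b e))))))))))))])) .nil .nil .nil .nil .nil) .nil .nil) .nil .nil .nil) .nil) .nil
  .nil) .nil .nil .nil .nil .nil) .nil .nil .nil) (.br (.br .nil .nil .nil (.br .nil .nil .nil .nil
  (.br .nil .nil (.br .nil .nil .nil (.br (.br .nil .nil .nil .nil .nil (.ov [(true, (g (d (c (f (a
  (b (g (d (a (g e))))))))))), (true, (g (d (c (f (d (a (c (g (d (g e)))))))))))])) .nil .nil .nil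
  .nil .nil) .nil .nil) .nil .nil .nil) .nil) .nil .nil) .nil .nil (.br (.br .nil .nil .nil .nil
  (.br .nil .nil (.br .nil (.br (.br .nil .nil .nil .nil .nil (.ov [(true, (g (a (b (f (a (d (c (g
  (d (g e)))))))))))])) .nil .nil .nil .nil .nil) .nil .nil .nil .nil) .nil .nil .nil) .nil) .nil
  (.br .nil (.br (.br .nil .nil .nil .nil .nil (.ov [(true, (g (a (b (d (c (g (d (g e)))))))))]))
  .nil .nil .nil .nil .nil) .nil .nil .nil .nil) .nil .nil .nil) .nil .nil) (.br (.br .nil .nil .nil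
  .nil (.br (.br .nil .nil .nil (.br .nil .nil .nil .nil .nil (.ov [(false, (g (d (a (f (a (g (d (g
  e)))))))))])) .nil .nil) .nil .nil (.br .nil .nil .nil .nil .nil (.ov [(false, (g (d (f (a (g (d
  (g e))))))))])) .nil .nil) .nil) (.br (.br .nil .nil .nil .nil (.br .nil .nil .nil (.br .nil .nil
  .nil .nil .nil (.ov [(false, (g (d (f (a (b (g (d (g e)))))))))])) .nil .nil) .nil) .nil .nil .nil
  .nil .nil) (.br .nil (.br (.br .nil .nil .nil .nil .nil (.ov [(false, (g (a (b (c (g (d (g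
  e))))))))])) .nil .nil .nil .nil .nil) .nil .nil .nil .nil) .nil (.br (.br .nil .nil .nil (.br
  .nil .nil .nil .nil .nil (.ov [(false, (g (d (a (f (g (d (g e))))))))])) .nil .nil) .nil (.br .nil
  (.br (.br .nil .nil .nil .nil .nil (.ov [(false, (g (a (b (c (f (g (d (g e)))))))))])) .nil .nil
  .nil .nil .nil) .nil (.br .nil (.br (.br .nil .nil .nil .nil .nil (.ov [(false, (g (a (b (d (c (f
  (g (d (g e))))))))))])) .nil .nil .nil .nil .nil) .nil .nil .nil .nil) .nil .nil) (.br .nil .nil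
  .nil .nil .nil (.ov [(false, (g (d (f (g (d (g e)))))))])) .nil .nil) .nil) (.br (.br .nil .nil
  .nil (.br (.br .nil .nil .nil .nil (.br .nil .nil (.br .nil .nil .nil (.br .nil .nil .nil .nil
  .nil (.ov [(false, (g (d (c (f (a (g (d (a (f (g e)))))))))))])) .nil .nil) .nil .nil (.ov
  [(false, (g (f (a (g (d (a (f (g e)))))))))])) .nil) .nil (.br .nil (.br (.br .nil .nil .nil .nil
  .nil (.ov [(false, (g (a (b (c (g (d (a (f (g e))))))))))])) .nil .nil .nil .nil .nil) .nil .nil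
  .nil .nil) .nil .nil .nil) .nil .nil) .nil .nil (.br .nil .nil (.br .nil (.br (.br .nil .nil .nil
  .nil (.br .nil .nil .nil .nil .nil (.ov [(false, (g (f (a (b (c (g (d (f (g e))))))))))])) .nil)
  .nil .nil .nil .nil .nil) .nil .nil .nil .nil) .nil .nil .nil) .nil .nil) .nil))

def Rf : R := (.br (.br .nil .nil .nil (.br .nil .nil .nil .nil (.hit [t true 1 (a (f (d (a e)))), t
  true 1 (d (a (f (d e))))]) (.br .nil .nil (.br .nil .nil .nil (.br .nil .nil .nil .nil (.br (.br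
  .nil .nil .nil (.br .nil .nil .nil .nil .nil (.hit [t false 1 (a (b (c (b (g (a (f (a (b (g
  e)))))))))), t true 1 (a (c (b (g (a (f (d (a (c (g e)))))))))), t true 1 (a (c (b (g (d (a (f (d
  (c (g e)))))))))), t true 1 (a (f (d (c (g (a (d (a (g (f e)))))))))), t true 1 (b (c (b (g (a (f
  (a (b (g (d e)))))))))), t false 1 (c (b (g (a (f (a (b (g (d (a e)))))))))), t false 1 (c (b (g
  (a (f (d (a (c (g (d e)))))))))), t false 1 (c (b (g (d (a (f (d (c (g (d e)))))))))), t false 1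
  (c (f (a (b (g (a (f (d (a (g e)))))))))), t false 1 (c (f (a (b (g (d (a (f (d (g e)))))))))), t
  true 1 (c (g (a (f (a (b (g (d (a (f e)))))))))), t true 1 (c (g (a (f (d (a (c (g (d (f
  e)))))))))), t true 1 (d (a (c (g (d (a (f (d (c (g e)))))))))), t true 1 (d (c (g (a (d (a (g (f
  (d (c e)))))))))), t false 1 (f (d (a (c (g (d (a (f (d (g e)))))))))), t false 1 (f (d (c (g (a
  (d (a (g (f (d e))))))))))])) .nil .nil) .nil .nil (.br .nil .nil .nil .nil .nil (.hit [t true 1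
  (a (f (d (c (g (a (d (a (g e))))))))), t false 1 (c (g (d (a (f (d (c (g (d e))))))))), t true 1
  (d (c (g (d (a (f (d (c (g e))))))))), t false 1 (f (d (c (g (d (a (f (d (g e))))))))), t true 1
  (g (d (a (f (d (c (g (d (a e)))))))))])) .nil .nil) .nil) .nil .nil) .nil .nil .nil)) (.hit [t
  true 1 (a (f (a e)))]) (.br (.br .nil .nil .nil (.br .nil .nil .nil .nil (.br .nil .nil (.br .nil
  .nil .nil (.br (.br .nil .nil .nil .nil .nil (.hit [t false 1 (a (d (c (g (a (d (f (d (a (g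
  e)))))))))), t true 1 (b (c (g (a (b (c (f (d (g (a e)))))))))), t false 1 (b (d (c (g (a (b (c (f
  (d (g e)))))))))), t true 1 (c (d (f (g (a (d (a (c (g (d e)))))))))), t false 1 (c (d (g (a (d (a
  (c (g (f (d e)))))))))), t true 1 (c (g (a (b (d (c (f (d (g (a e)))))))))), t false 1 (c (g (a (d
  (c (f (d (a (g (a e)))))))))), t false 1 (d (c (g (a (b (d (c (f (d (g e)))))))))), t true 1 (d (c
  (g (a (d (c (f (d (a (g e)))))))))), t false 1 (d (f (g (a (d (a (c (g (d (f e)))))))))), t false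
  1 (d (g (a (b (d (a (c (f (d (g e)))))))))), t false 1 (d (g (a (d (a (c (g (d (f (d e)))))))))),
  t false 1 (f (a (d (c (g (a (d (f (a (g e)))))))))), t true 1 (f (d (c (g (a (d (c (f (a (g
  e)))))))))), t true 1 (f (g (a (d (a (c (g (d (f (a e)))))))))), t true 1 (g (a (b (d (a (c (f (d
  (g (a e)))))))))), t true 1 (g (a (d (a (c (g (d (f (d (a e))))))))))])) .nil .nil .nil .nil .nil)
  .nil .nil) .nil .nil .nil) .nil) .nil .nil) (.br (.br .nil .nil .nil .nil (.br (.br .nil .nil .nil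
  .nil .nil (.hit [t true 1 (a (b (g (a (f (a (b (g e)))))))), t false 1 (b (g (a (f (a (b (g (a
  e)))))))), t false 1 (f (a (b (g (a (f (a (g e))))))))])) .nil .nil .nil .nil .nil) .nil) .nil
  .nil .nil .nil .nil) (.br .nil (.br (.br .nil .nil .nil .nil (.br (.br .nil .nil .nil .nil .nil
  (.hit [t true 1 (a (b (g (a (f (a (b (c (g e))))))))), t false 1 (b (g (a (f (a (b (c (g (a
  e))))))))), t false 1 (f (a (b (c (g (a (f (a (g e)))))))))])) .nil .nil .nil .nil .nil) .nil)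
  .nil .nil .nil .nil .nil) .nil (.br .nil .nil .nil .nil (.br (.br .nil .nil .nil (.br .nil .nil
  .nil .nil .nil (.hit [t false 1 (d (a (g (d (a (f (d (c (g e))))))))), t false 1 (d (g (a (d (a (g
  (f (d (c e)))))))))])) .nil .nil) .nil .nil (.br .nil .nil .nil .nil .nil (.hit [t false 1 (d (g
  (d (a (f (d (c (g e)))))))), t true 1 (g (d (a (f (d (c (g (a e))))))))])) .nil .nil) .nil) .nil
  .nil) (.br .nil .nil .nil .nil (.br (.br .nil .nil .nil (.br .nil .nil .nil .nil .nil (.hit [t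
  false 1 (d (a (g (d (a (f (d (g e)))))))), t false 1 (d (g (a (d (a (g (f (d e))))))))])) .nil
  .nil) .nil (.br .nil (.br (.br .nil .nil .nil .nil .nil (.hit [t true 1 (a (b (g (a (b (c (f (d (g
  e))))))))), t false 1 (b (g (a (b (c (f (d (g (a e))))))))), t true 1 (g (a (b (c (d (g (a (f (d
  e)))))))))])) .nil .nil .nil .nil .nil) .nil (.br .nil (.br (.br .nil .nil .nil .nil .nil (.hit [t
  true 1 (a (b (d (g (a (b (c (f (d (g e)))))))))), t false 1 (d (g (a (b (d (a (c (f (d (g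
  e)))))))))), t false 1 (g (a (b (c (d (c (g (a (f (d e)))))))))), t true 1 (g (a (b (d (a (c (f (d
  (g (a e))))))))))])) .nil .nil .nil .nil .nil) .nil .nil .nil .nil) .nil .nil) (.br .nil .nil .nil
  .nil .nil (.hit [t false 1 (d (g (d (a (f (d (g e))))))), t true 1 (g (d (a (f (d (g (a
  e)))))))])) .nil .nil) .nil) .nil .nil)) (.br (.br .nil .nil .nil .nil (.hit [t true 1 (a (f (a (b
  e))))]) (.br .nil .nil (.br .nil .nil .nil (.br .nil .nil .nil .nil (.br .nil .nil .nil (.br .nil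
  .nil .nil .nil .nil (.hit [t false 1 (b (d (c (g (d (f (a (d (g e))))))))), t true 1 (d (c (g (d
  (a (f (a (d (g e))))))))), t true 1 (d (g (a (b (c (f (a (d (g e))))))))), t false 1 (d (g (d (a
  (c (b (f (a (g e))))))))), t false 1 (d (g (d (a (f (a (d (c (g e))))))))), t true 1 (g (d (a (f
  (d (c (g (a (b e)))))))))])) .nil .nil) .nil) .nil .nil) (.br .nil .nil .nil .nil (.br (.br .nil
  .nil .nil (.br .nil .nil .nil .nil .nil (.hit [t false 1 (b (c (d (c (g (d (f (d (g e))))))))), t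
  true 1 (c (d (a (c (g (d (f (d (g e))))))))), t false 1 (d (a (c (g (d (a (f (d (g e))))))))), t
  false 1 (d (a (g (a (b (c (f (d (g e))))))))), t false 1 (d (c (g (a (d (a (g (f (d e))))))))), t
  true 1 (d (g (a (b (c (d (g (f (d e)))))))))])) .nil .nil) .nil .nil (.br .nil .nil .nil .nil .nil
  (.hit [t true 1 (b (d (c (g (d (f (d (g e)))))))), t false 1 (d (c (g (d (a (f (d (g e)))))))), t
  false 1 (d (g (a (b (c (f (d (g e)))))))), t true 1 (g (d (a (f (d (g (a (b e))))))))])) .nil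
  .nil) .nil) .nil .nil)) .nil (.br (.br .nil .nil .nil (.br .nil .nil .nil .nil (.hit [t false 1 (a
  (b (c (f (a (d e)))))), t true 1 (a (f (d (a (c (b e)))))), t true 1 (b (c (d (f (a (d e)))))), t
  false 1 (c (d (a (f (a (d e)))))), t true 1 (d (a (c (b (f (a e)))))), t true 1 (d (a (f (a (d (c
  e))))))]) .nil) .nil .nil) .nil .nil .nil .nil .nil) .nil .nil .nil) (.br (.br .nil .nil .nil (.br
  .nil .nil .nil .nil (.hit [t true 1 (a (f (d (a (c e))))), t true 1 (d (a (f (d (c e)))))]) .nil)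
  .nil .nil) (.br (.br .nil .nil .nil .nil (.hit [t true 1 (a (f (a (b (c e)))))]) (.br .nil .nil
  (.br .nil .nil .nil (.br .nil .nil .nil .nil (.br .nil .nil .nil (.br .nil .nil .nil .nil .nil
  (.hit [t true 1 (b (a (d (c (g (a (d (f (a (g e)))))))))), t true 1 (b (c (b (a (g (a (d (f (a (g
  e)))))))))), t false 1 (b (d (c (g (a (d (c (f (a (g e)))))))))), t false 1 (b (d (c (g (d (f (a
  (d (c (g e)))))))))), t true 1 (d (c (g (d (a (c (b (f (a (g e)))))))))), t true 1 (d (c (g (d (a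
  (f (a (d (c (g e)))))))))), t true 1 (d (g (a (b (c (f (a (d (c (g e)))))))))), t true 1 (g (d (a
  (f (d (c (g (a (b (c e))))))))))])) .nil .nil) .nil) .nil .nil) .nil .nil .nil)) .nil .nil .nil
  .nil .nil) .nil (.br (.br .nil .nil .nil .nil (.hit [t true 1 (a (d (c (f (a e))))), t true 1 (d
  (f (a (d (c e)))))]) (.br .nil (.br (.br .nil .nil .nil .nil (.br (.br .nil .nil .nil .nil .nil
  (.hit [t true 1 (a (b (g (a (d (f (a (b (c (g e)))))))))), t false 1 (b (g (a (d (f (a (b (c (g (a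
  e)))))))))), t false 1 (d (f (a (b (g (a (d (a (c (g e)))))))))), t false 1 (f (a (b (g (a (d (c
  (f (a (g e)))))))))), t true 1 (g (a (d (f (a (b (g (a (d (c e))))))))))])) .nil .nil (.br (.br
  .nil .nil .nil .nil .nil (.hit [t true 1 (a (b (a (d (g (a (f (a (b (c (g e))))))))))), t true 1
  (a (b (d (g (a (d (f (a (b (c (g e))))))))))), t false 1 (a (b (g (a (d (a (g (f (a (b (c
  e))))))))))), t true 1 (b (f (a (b (d (c (g (a (f (a (g e))))))))))), t false 1 (b (g (a (d (f (a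
  (b (c (g (a (f e))))))))))), t false 1 (d (f (a (b (g (a (d (a (c (g (f e))))))))))), t false 1 (f
  (a (b (d (g (a (d (c (f (a (g e))))))))))), t true 1 (f (a (b (g (a (d (a (c (g (f (a
  e)))))))))))])) .nil .nil .nil .nil .nil) .nil .nil) .nil) .nil .nil .nil .nil .nil) .nil .nil
  .nil .nil)) (.br (.br .nil .nil .nil .nil (.hit [t true 1 (a (d (f (a (b (c e)))))), t true 1 (d
  (f (a (b (d (c e))))))]) .nil) .nil .nil .nil .nil .nil) .nil .nil (.hit [t true 1 (d (f (d (c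
  e))))]) (.br (.br .nil .nil .nil .nil (.br (.br .nil .nil .nil .nil .nil (.hit [t false 1 (a (g (a
  (d (c (f (a (g e)))))))), t true 1 (g (a (d (f (a (g (d (c e))))))))])) .nil .nil (.br (.br .nil
  .nil .nil .nil .nil (.hit [t false 1 (a (d (g (a (d (c (f (a (g e))))))))), t true 1 (a (g (a (d
  (a (c (g (f (a e)))))))))])) .nil .nil .nil .nil .nil) .nil .nil) .nil) (.br (.br .nil .nil .nil
  .nil (.br (.br .nil .nil .nil .nil .nil (.hit [t false 1 (a (g (a (d (f (a (b (c (g e))))))))), t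
  true 1 (g (a (d (f (a (b (g (d (c e)))))))))])) .nil .nil .nil .nil .nil) .nil) .nil .nil .nil
  .nil .nil) .nil .nil .nil .nil)) .nil .nil) (.br (.br .nil .nil .nil .nil (.hit [t true 1 (a (d (f
  (a e)))), t true 1 (d (f (a (d e))))]) (.br .nil (.br (.br .nil .nil .nil .nil (.br (.br .nil .nil
  .nil .nil .nil (.hit [t true 1 (a (b (g (a (d (f (a (b (g e))))))))), t false 1 (b (g (a (d (f (a
  (b (g (a e))))))))), t false 1 (d (f (a (b (g (a (d (a (g e))))))))), t false 1 (f (a (b (g (a (d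
  (f (a (g e))))))))), t true 1 (g (a (d (f (a (b (g (a (d e)))))))))])) .nil .nil (.br (.br .nil
  .nil .nil .nil .nil (.hit [t true 1 (a (b (a (d (g (a (f (a (b (g e)))))))))), t true 1 (a (b (d
  (g (a (d (f (a (b (g e)))))))))), t false 1 (a (b (g (a (d (a (g (f (a (b e)))))))))), t true 1 (b
  (f (a (b (d (g (a (f (a (g e)))))))))), t false 1 (b (g (a (d (f (a (b (g (a (f e)))))))))), t
  false 1 (d (f (a (b (g (a (d (a (g (f e)))))))))), t false 1 (f (a (b (d (g (a (d (f (a (g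
  e)))))))))), t true 1 (f (a (b (g (a (d (a (g (f (a e))))))))))])) .nil .nil .nil .nil .nil) .nil
  .nil) .nil) .nil .nil .nil .nil .nil) (.br .nil .nil .nil (.br (.br .nil .nil .nil .nil (.br .nil
  .nil .nil (.br .nil .nil .nil .nil .nil (.hit [t true 1 (a (b (d (g (a (f (a (b (c (g e)))))))))),
  t false 1 (b (c (g (a (f (a (b (c (g (a e)))))))))), t true 1 (b (d (c (g (a (f (a (b (c (g
  e)))))))))), t false 1 (c (d (f (g (a (d (a (c (g (d e)))))))))), t false 1 (c (g (a (d (f (a (b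
  (c (g (a e)))))))))), t false 1 (c (g (d (f (a (b (d (c (g (a e)))))))))), t false 1 (c (g (d (f
  (a (d (c (g (a (d e)))))))))), t true 1 (d (c (g (a (d (f (a (b (c (g e)))))))))), t true 1 (d (c
  (g (d (f (a (b (d (c (g e)))))))))), t true 1 (d (f (g (a (d (a (c (g (d (f e)))))))))), t false 1
  (f (a (b (d (c (g (a (f (a (g e)))))))))), t false 1 (f (a (d (c (g (d (f (a (d (g e)))))))))), t
  false 1 (f (d (c (g (a (d (c (f (a (g e)))))))))), t false 1 (f (g (a (d (a (c (g (d (f (a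
  e)))))))))), t true 1 (g (a (d (f (a (b (c (g (a (f e)))))))))), t true 1 (g (d (f (a (b (d (c (g
  (a (f e))))))))))])) .nil .nil) .nil) .nil .nil .nil (.br .nil .nil .nil (.br .nil .nil .nil .nil
  .nil (.hit [t true 1 (a (b (d (g (a (f (a (b (g e))))))))), t true 1 (a (d (c (g (d (f (d (c (g
  e))))))))), t false 1 (b (a (d (g (d (f (d (c (g e))))))))), t false 1 (b (c (g (a (f (a (b (g (a
  e))))))))), t true 1 (b (d (c (g (a (f (a (b (g e))))))))), t true 1 (b (d (g (d (a (f (d (c (g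
  e))))))))), t false 1 (b (f (d (c (g (a (f (a (g e))))))))), t false 1 (b (g (d (a (f (d (c (g (a
  e))))))))), t true 1 (c (b (a (g (d (f (d (c (g e))))))))), t false 1 (c (b (g (d (f (d (c (g (a
  e))))))))), t false 1 (c (g (a (d (f (a (b (g (a e))))))))), t false 1 (c (g (d (f (a (b (d (g (a
  e))))))))), t false 1 (c (g (d (f (d (c (g (a (d e))))))))), t true 1 (d (c (g (a (d (f (a (b (g
  e))))))))), t true 1 (d (c (g (d (f (a (b (d (g e))))))))), t false 1 (f (a (b (d (g (a (f (a (g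
  e))))))))), t false 1 (f (d (c (g (a (d (f (a (g e))))))))), t false 1 (f (d (c (g (d (f (a (d (g
  e))))))))), t true 1 (g (a (d (f (a (b (g (a (f e))))))))), t true 1 (g (d (f (a (b (d (g (a (f
  e)))))))))])) .nil .nil) .nil) .nil .nil) .nil .nil .nil)) (.br (.br .nil .nil .nil .nil (.hit [t
  true 1 (a (d (f (a (b e))))), t true 1 (d (f (a (b (d e)))))]) .nil) .nil .nil .nil .nil .nil)
  .nil .nil (.hit [t true 1 (d (f (d e)))]) (.br (.br .nil .nil .nil .nil (.br (.br .nil .nil .nil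
  .nil .nil (.hit [t false 1 (a (g (a (d (f (a (g e))))))), t true 1 (g (a (d (f (a (g (d
  e)))))))])) (.br .nil .nil (.br (.br .nil .nil .nil (.br .nil .nil .nil .nil .nil (.hit [t true 1
  (a (b (g (d (a (c (b (f (a (g e)))))))))), t true 1 (a (c (b (g (a (d (c (f (a (g e)))))))))), t
  true 1 (a (g (a (b (c (d (a (f (a (g e)))))))))), t true 1 (b (a (c (g (a (d (a (g (f (a
  e)))))))))), t false 1 (b (a (g (a (b (c (d (g (f (a e)))))))))), t false 1 (b (g (d (a (c (b (f
  (a (g (d e)))))))))), t false 1 (c (b (g (a (d (c (f (a (g (d e)))))))))), t false 1 (d (a (c (b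
  (g (a (d (f (a (g e)))))))))), t true 1 (d (a (c (g (a (d (c (f (a (g e)))))))))), t false 1 (g (a
  (b (c (d (a (f (a (g (d e)))))))))), t false 1 (g (a (d (a (c (b (g (d (f (a e))))))))))])) .nil
  .nil) .nil .nil .nil .nil .nil) .nil .nil .nil) (.br .nil .nil .nil (.br (.br .nil .nil .nil .nil
  .nil (.hit [t false 1 (a (d (c (g (a (d (f (a (g e))))))))), t false 1 (c (g (a (d (c (f (a (g (d
  e))))))))), t true 1 (d (c (g (a (d (c (f (a (g e))))))))), t true 1 (g (a (d (a (c (g (d (f (a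
  e)))))))))])) .nil .nil .nil .nil .nil) .nil .nil) (.br (.br .nil .nil .nil .nil .nil (.hit [t
  false 1 (a (d (g (a (d (f (a (g e)))))))), t true 1 (a (g (a (d (a (g (f (a e))))))))])) .nil .nil
  .nil .nil .nil) .nil .nil) .nil) (.br (.br .nil .nil .nil .nil (.br (.br .nil .nil .nil .nil .nil
  (.hit [t false 1 (a (g (a (d (f (a (b (g e)))))))), t true 1 (g (a (d (f (a (b (g (d e))))))))]))
  .nil .nil .nil .nil .nil) .nil) .nil .nil .nil .nil .nil) (.br .nil .nil .nil (.br (.br .nil .nil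
  .nil .nil (.br (.br .nil .nil .nil (.br .nil .nil .nil .nil .nil (.hit [t false 1 (a (b (c (g (d
  (a (f (a (d (g e)))))))))), t true 1 (a (b (g (a (f (d (a (c (b (g e)))))))))), t true 1 (a (b (g
  (d (a (f (a (d (c (g e)))))))))), t true 1 (a (c (b (g (d (f (a (d (c (g e)))))))))), t true 1 (a
  (c (d (g (a (d (a (g (f (a e)))))))))), t true 1 (a (c (f (d (g (a (d (a (g (f e)))))))))), t
  false 1 (a (f (g (a (b (c (d (g (a (f e)))))))))), t false 1 (a (g (a (b (c (d (g (a (f (a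
  e)))))))))), t false 1 (b (a (c (f (d (g (a (d (a (g e)))))))))), t true 1 (b (a (f (g (a (b (c (d
  (g (a e)))))))))), t true 1 (b (c (d (g (d (a (f (a (d (g e)))))))))), t true 1 (b (c (f (d (g (d
  (a (f (d (g e)))))))))), t false 1 (b (g (a (f (a (b (c (g (d (a e)))))))))), t false 1 (b (g (a
  (f (d (a (c (b (g (d e)))))))))), t false 1 (b (g (d (a (f (a (d (c (g (d e)))))))))), t false 1
  (c (b (g (d (f (a (d (c (g (d e)))))))))), t false 1 (c (d (a (g (d (a (f (a (d (g e)))))))))), t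
  false 1 (c (d (g (a (d (a (g (f (a (d e)))))))))), t false 1 (c (f (d (a (g (d (a (f (d (g
  e)))))))))), t false 1 (c (f (d (g (a (d (a (g (f (d e)))))))))), t false 1 (d (a (c (b (g (d (f
  (a (d (g e)))))))))), t true 1 (d (a (c (g (d (f (a (d (c (g e)))))))))), t false 1 (f (a (b (c (g
  (a (f (d (a (g e)))))))))), t false 1 (f (a (b (c (g (d (a (f (d (g e)))))))))), t true 1 (f (a (b
  (g (a (b (c (f (d (g e)))))))))), t false 1 (f (d (a (c (b (g (d (f (d (g e)))))))))), t true 1 (f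
  (g (a (b (c (d (g (a (f (d e)))))))))), t true 1 (g (a (b (c (d (g (a (f (a (d e)))))))))), t true
  1 (g (a (d (a (c (b (g (d (f (a e)))))))))), t true 1 (g (a (f (a (b (c (g (d (a (f e)))))))))), t
  true 1 (g (a (f (d (a (c (b (g (d (f e))))))))))])) .nil .nil) .nil .nil (.br .nil .nil .nil .nil
  .nil (.hit [t false 1 (a (d (c (g (d (f (a (d (g e))))))))), t false 1 (c (g (d (f (a (d (c (g (d
  e))))))))), t true 1 (d (c (g (d (f (a (d (c (g e))))))))), t false 1 (f (a (d (c (g (d (f (d (g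
  e))))))))), t false 1 (g (a (d (a (c (g (d (f (a e)))))))))])) .nil .nil) .nil) .nil .nil .nil
  (.br (.br .nil .nil .nil (.br .nil .nil .nil .nil .nil (.hit [t true 1 (a (b (c (g (a (f (a (b (g
  e))))))))), t true 1 (a (b (g (a (f (d (a (c (g e))))))))), t true 1 (a (b (g (d (a (f (d (c (g
  e))))))))), t true 1 (a (c (b (g (d (f (d (c (g e))))))))), t true 1 (a (c (g (a (d (f (a (b (g
  e))))))))), t false 1 (b (c (g (a (f (a (b (g (d e))))))))), t false 1 (b (g (a (f (a (b (g (d (a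
  e))))))))), t false 1 (b (g (a (f (d (a (c (g (d e))))))))), t false 1 (b (g (d (a (f (d (c (g (d
  e))))))))), t false 1 (c (b (g (d (f (d (c (g (d e))))))))), t false 1 (c (f (a (b (g (d (f (d (g
  e))))))))), t false 1 (c (g (a (d (f (a (b (g (d e))))))))), t true 1 (d (a (c (g (d (f (d (c (g
  e))))))))), t false 1 (f (a (b (g (a (f (d (a (g e))))))))), t false 1 (f (a (b (g (d (a (f (d (g
  e))))))))), t false 1 (f (d (a (c (g (d (f (d (g e))))))))), t true 1 (g (a (f (a (b (g (d (a (f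
  e))))))))), t true 1 (g (a (f (d (a (c (g (d (f e)))))))))])) .nil .nil) .nil .nil .nil .nil .nil)
  .nil) .nil .nil) (.br (.br .nil .nil .nil .nil (.br .nil .nil (.br .nil (.br (.br .nil .nil .nil
  .nil .nil (.hit [t true 1 (a (b (g (a (b (c (f (a (d (g e)))))))))), t false 1 (a (f (g (a (b (c
  (d (g (a (f e)))))))))), t true 1 (a (g (a (b (c (d (a (f (a (g e)))))))))), t false 1 (a (g (a (b
  (c (d (g (a (f (a e)))))))))), t true 1 (b (a (f (g (a (b (c (d (g (a e)))))))))), t false 1 (b (a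
  (g (a (b (c (d (g (f (a e)))))))))), t false 1 (b (g (a (b (c (f (a (d (g (d e)))))))))), t true 1
  (f (a (b (g (a (b (c (f (d (g e)))))))))), t true 1 (f (g (a (b (c (d (g (a (f (d e)))))))))), t
  false 1 (g (a (b (c (d (a (f (a (g (d e)))))))))), t true 1 (g (a (b (c (d (g (a (f (a (d
  e))))))))))])) .nil .nil .nil .nil .nil) .nil .nil .nil .nil) .nil .nil .nil) .nil) .nil .nil .nil
  .nil .nil) .nil .nil)) (.hit []) (.br (.br .nil .nil .nil (.br .nil .nil .nil .nil (.br (.br .nil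
  .nil .nil .nil .nil (.hit [t false 1 (a (g (a (f (d (a (g e))))))), t true 1 (g (a (d (a (g (f (d
  e)))))))])) .nil (.br .nil .nil .nil (.br (.br .nil .nil .nil .nil .nil (.hit [t false 1 (a (d (c
  (g (a (f (d (a (g e))))))))), t false 1 (c (g (a (d (a (c (g (f (d e))))))))), t false 1 (d (g (a
  (d (c (f (d (a (g e))))))))), t true 1 (g (a (d (a (c (g (f (d (a e)))))))))])) .nil .nil .nil
  .nil .nil) .nil .nil) (.br (.br .nil .nil .nil .nil .nil (.hit [t false 1 (a (d (g (a (f (d (a (g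
  e)))))))), t false 1 (d (g (a (d (f (d (a (g e)))))))), t true 1 (g (a (d (a (g (f (d (a
  e))))))))])) .nil .nil .nil .nil .nil) .nil .nil) .nil) (.br (.br .nil .nil .nil .nil .nil (.hit
  [t false 1 (a (g (a (f (a (g e))))))])) (.br .nil .nil (.br (.br .nil .nil .nil (.br .nil .nil
  .nil .nil .nil (.hit [t true 1 (a (b (c (g (a (d (f (a (g e))))))))), t false 1 (a (g (d (a (c (b
  (f (a (g e))))))))), t false 1 (b (c (d (g (a (d (f (a (g e))))))))), t true 1 (b (c (g (a (d (a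
  (g (f (a e))))))))), t false 1 (b (g (a (b (c (d (g (f (a e))))))))), t true 1 (c (d (a (g (a (d
  (f (a (g e))))))))), t false 1 (d (a (c (b (g (a (f (a (g e))))))))), t false 1 (d (a (g (a (d (c
  (f (a (g e))))))))), t false 1 (g (a (d (a (c (b (g (f (a e)))))))))])) .nil .nil) .nil .nil .nil
  .nil .nil) .nil .nil .nil) (.br .nil (.br (.br .nil .nil .nil .nil .nil (.hit [t false 1 (a (g (a
  (b (c (f (a (g e)))))))), t true 1 (b (a (g (a (b (c (f (a e))))))))])) .nil .nil .nil .nil .nil)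
  .nil (.br (.br .nil .nil .nil .nil .nil (.hit [t false 1 (a (d (c (g (a (f (a (g e)))))))), t
  false 1 (d (g (a (d (c (f (a (g e)))))))), t true 1 (g (a (d (a (c (g (f (a e))))))))])) (.br (.br
  .nil .nil .nil .nil .nil (.hit [t false 1 (a (d (g (a (b (c (f (a (g e))))))))), t false 1 (d (g
  (a (b (d (c (f (a (g e))))))))), t true 1 (g (a (b (d (a (c (g (f (a e)))))))))])) .nil .nil .nil
  .nil .nil) .nil .nil .nil .nil) .nil .nil) (.br (.br .nil .nil .nil .nil .nil (.hit [t false 1 (a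
  (d (g (a (f (a (g e))))))), t false 1 (d (g (a (d (f (a (g e))))))), t true 1 (g (a (d (a (g (f (a
  e)))))))])) .nil .nil .nil .nil .nil) .nil .nil) .nil) (.br (.br .nil .nil .nil .nil (.br (.br
  .nil .nil .nil .nil .nil (.hit [t false 1 (a (g (a (f (a (b (g e)))))))])) (.br .nil .nil (.br
  (.br .nil .nil .nil (.br .nil .nil .nil .nil .nil (.hit [t true 1 (a (b (c (g (a (d (f (a (b (g
  e)))))))))), t false 1 (a (g (d (a (c (b (f (a (b (g e)))))))))), t false 1 (b (c (d (g (a (d (f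
  (a (b (g e)))))))))), t true 1 (b (c (g (a (d (a (g (f (a (b e)))))))))), t false 1 (b (g (a (b (c
  (d (g (f (a (b e)))))))))), t true 1 (c (d (a (g (a (d (f (a (b (g e)))))))))), t false 1 (d (a (c
  (b (g (a (f (a (b (g e)))))))))), t false 1 (d (a (g (a (d (c (f (a (b (g e)))))))))), t false 1
  (g (a (d (a (c (b (g (f (a (b e))))))))))])) .nil .nil) .nil .nil .nil .nil .nil) .nil .nil .nil)
  (.br .nil .nil .nil (.br (.br .nil .nil .nil .nil .nil (.hit [t false 1 (a (d (c (g (a (f (a (b (g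
  e))))))))), t false 1 (d (g (a (d (c (f (a (b (g e))))))))), t true 1 (g (a (d (a (c (g (f (a (b
  e)))))))))])) .nil .nil .nil .nil .nil) .nil .nil) (.br (.br .nil .nil .nil .nil .nil (.hit [t
  false 1 (a (d (g (a (f (a (b (g e)))))))), t false 1 (d (g (a (d (f (a (b (g e)))))))), t true 1
  (g (a (d (a (g (f (a (b e))))))))])) .nil .nil .nil .nil .nil) .nil .nil) .nil) .nil (.br (.br
  .nil .nil .nil (.br .nil .nil .nil .nil (.br (.br .nil .nil .nil .nil .nil (.hit [t false 1 (a (g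
  (a (f (d (a (c (b (g e))))))))), t false 1 (c (g (a (d (a (g (f (a (d e))))))))), t true 1 (g (a
  (b (c (d (g (f (a (d e))))))))), t true 1 (g (a (d (a (c (b (g (f (a e))))))))), t true 1 (g (a (d
  (a (g (f (a (d (c e)))))))))])) .nil (.br .nil .nil .nil (.br (.br .nil .nil .nil .nil .nil (.hit
  [t false 1 (a (d (c (g (a (f (d (a (c (b (g e))))))))))), t true 1 (c (g (a (d (a (c (b (g (f (a
  (d e))))))))))), t false 1 (c (g (a (d (a (c (g (f (a (d (c e))))))))))), t false 1 (d (g (a (d (c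
  (f (d (a (c (b (g e))))))))))), t true 1 (g (a (d (a (c (g (f (d (a (c (b e)))))))))))])) .nil
  .nil .nil .nil .nil) .nil .nil) .nil .nil .nil) .nil) .nil .nil) .nil .nil .nil .nil .nil) .nil
  .nil .nil) (.br (.br .nil .nil .nil (.br .nil .nil .nil .nil (.br (.br .nil .nil .nil .nil .nil
  (.hit [t false 1 (a (g (a (f (d (a (c (g e)))))))), t true 1 (g (a (d (a (g (f (d (c e))))))))]))
  .nil (.br .nil .nil .nil (.br (.br .nil .nil .nil .nil .nil (.hit [t false 1 (a (d (c (g (a (f (d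
  (a (c (g e)))))))))), t false 1 (c (g (a (d (a (c (g (f (d (c e)))))))))), t false 1 (d (g (a (d
  (c (f (d (a (c (g e)))))))))), t true 1 (g (a (d (a (c (g (f (d (a (c e))))))))))])) .nil .nil
  .nil .nil .nil) .nil .nil) .nil .nil .nil) .nil) .nil .nil) (.br (.br .nil .nil .nil .nil (.br
  (.br .nil .nil .nil .nil .nil (.hit [t false 1 (a (g (a (f (a (b (c (g e))))))))])) (.br .nil .nil
  (.br (.br .nil .nil .nil (.br .nil .nil .nil .nil .nil (.hit [t true 1 (a (b (c (g (a (d (f (a (b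
  (c (g e))))))))))), t false 1 (a (g (d (a (c (b (f (a (b (c (g e))))))))))), t false 1 (b (c (d (g
  (a (d (f (a (b (c (g e))))))))))), t true 1 (b (c (g (a (d (a (g (f (a (b (c e))))))))))), t false
  1 (b (g (a (b (c (d (g (f (a (b (c e))))))))))), t true 1 (c (d (a (g (a (d (f (a (b (c (g
  e))))))))))), t false 1 (d (a (c (b (g (a (f (a (b (c (g e))))))))))), t false 1 (d (a (g (a (d (c
  (f (a (b (c (g e))))))))))), t false 1 (g (a (d (a (c (b (g (f (a (b (c e)))))))))))])) .nil .nil)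
  .nil .nil .nil .nil .nil) .nil .nil .nil) (.br .nil .nil .nil (.br (.br .nil .nil .nil .nil .nil
  (.hit [t false 1 (a (d (c (g (a (f (a (b (c (g e)))))))))), t false 1 (d (g (a (d (c (f (a (b (c
  (g e)))))))))), t true 1 (g (a (d (a (c (g (f (a (b (c e))))))))))])) .nil .nil .nil .nil .nil)
  .nil .nil) (.br (.br .nil .nil .nil .nil .nil (.hit [t false 1 (a (d (g (a (f (a (b (c (g
  e))))))))), t false 1 (d (g (a (d (f (a (b (c (g e))))))))), t true 1 (g (a (d (a (g (f (a (b (c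
  e)))))))))])) .nil .nil .nil .nil .nil) .nil .nil) .nil) .nil .nil .nil .nil .nil) .nil (.br (.br
  .nil .nil .nil .nil (.br (.br .nil .nil .nil (.br .nil .nil .nil .nil .nil (.hit [t false 1 (a (g
  (d (a (f (a (d (c (g e))))))))), t false 1 (d (a (g (d (f (a (d (c (g e))))))))), t false 1 (g (a
  (d (a (g (f (a (d (c e)))))))))])) .nil .nil) .nil (.br .nil (.br (.br .nil .nil .nil .nil .nil
  (.hit [t false 1 (a (g (a (b (c (f (a (d (c (g e)))))))))), t false 1 (b (g (a (b (c (d (c (g (f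
  (a e)))))))))), t true 1 (g (a (b (c (d (g (f (a (d (c e))))))))))])) .nil .nil .nil .nil .nil)
  .nil (.br .nil (.br (.br .nil .nil .nil .nil .nil (.hit [t false 1 (a (d (g (a (b (c (f (a (d (c
  (g e))))))))))), t false 1 (b (c (g (a (b (c (d (c (g (f (a e))))))))))), t false 1 (d (g (a (b (d
  (c (f (a (d (c (g e))))))))))), t false 1 (g (a (b (c (d (c (g (f (a (d (c e)))))))))))])) .nil
  .nil .nil .nil .nil) .nil .nil .nil .nil) .nil .nil) (.br .nil .nil .nil .nil .nil (.hit [t false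
  1 (d (g (d (f (a (d (c (g e)))))))), t false 1 (g (a (d (a (c (g (f (a e))))))))])) .nil .nil)
  .nil) (.br (.br .nil .nil .nil .nil (.br (.br .nil .nil .nil (.br .nil .nil .nil .nil .nil (.hit
  [t false 1 (a (g (d (a (f (a (b (d (c (g e)))))))))), t false 1 (d (a (g (d (f (a (b (d (c (g
  e)))))))))), t false 1 (g (a (d (a (g (f (a (b (d (c e))))))))))])) .nil .nil) .nil (.br .nil (.br
  (.br .nil .nil .nil .nil .nil (.hit [t false 1 (a (g (a (b (c (f (a (b (d (c (g e))))))))))), t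
  false 1 (b (g (a (b (c (d (g (f (a (b (c e))))))))))), t true 1 (g (a (b (c (d (g (f (a (b (d (c
  e)))))))))))])) .nil .nil .nil .nil .nil) .nil (.br .nil (.br (.br .nil .nil .nil .nil .nil (.hit
  [t false 1 (a (d (g (a (b (c (f (a (b (d (c (g e)))))))))))), t false 1 (b (c (g (a (b (c (d (g (f
  (a (b (c e)))))))))))), t true 1 (c (g (a (b (c (d (c (g (f (a (b (c e)))))))))))), t false 1 (d
  (g (a (b (d (c (f (a (b (d (c (g e)))))))))))), t false 1 (g (a (b (c (d (c (g (f (a (b (d (c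
  e))))))))))))])) .nil .nil .nil .nil .nil) .nil .nil .nil .nil) .nil .nil) (.br .nil .nil .nil
  .nil .nil (.hit [t false 1 (d (g (d (f (a (b (d (c (g e))))))))), t false 1 (g (a (d (a (g (f (a
  (b (c e)))))))))])) .nil .nil) .nil) .nil .nil .nil .nil .nil) .nil .nil (.br (.br .nil .nil .nil
  (.br .nil .nil .nil .nil .nil (.hit [t false 1 (a (g (d (a (f (d (c (g e)))))))), t false 1 (d (a
  (g (d (f (d (c (g e)))))))), t false 1 (g (a (d (a (g (f (d (c e))))))))])) .nil .nil) .nil (.br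
  .nil (.br (.br .nil .nil .nil .nil .nil (.hit [t false 1 (a (g (a (b (c (f (d (c (g e))))))))), t
  true 1 (g (a (b (c (d (g (f (d (c e)))))))))])) .nil .nil .nil .nil .nil) .nil .nil .nil .nil)
  .nil .nil .nil) .nil) .nil .nil) (.br (.br .nil .nil .nil .nil (.br (.br .nil .nil .nil (.br .nil
  .nil .nil .nil .nil (.hit [t false 1 (a (g (d (a (f (a (d (g e)))))))), t false 1 (d (a (g (d (f
  (a (d (g e)))))))), t false 1 (g (a (d (a (g (f (a (d e))))))))])) .nil .nil) .nil (.br .nil (.br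
  (.br .nil .nil .nil .nil .nil (.hit [t false 1 (a (g (a (b (c (f (a (d (g e))))))))), t false 1 (b
  (g (a (b (c (d (g (f (a e))))))))), t true 1 (g (a (b (c (d (g (f (a (d e)))))))))])) .nil .nil
  .nil .nil .nil) .nil (.br .nil (.br (.br .nil .nil .nil .nil .nil (.hit [t false 1 (a (d (g (a (b
  (c (f (a (d (g e)))))))))), t false 1 (b (c (g (a (b (c (d (g (f (a e)))))))))), t true 1 (c (g (a
  (b (c (d (c (g (f (a e)))))))))), t false 1 (d (g (a (b (d (c (f (a (d (g e)))))))))), t false 1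
  (g (a (b (c (d (c (g (f (a (d e))))))))))])) .nil .nil .nil .nil .nil) .nil .nil .nil .nil) .nil
  .nil) (.br .nil .nil .nil .nil .nil (.hit [t false 1 (d (g (d (f (a (d (g e))))))), t false 1 (g
  (a (d (a (g (f (a e)))))))])) .nil .nil) .nil) (.br (.br .nil .nil .nil .nil (.br (.br .nil .nil
  .nil (.br .nil .nil .nil .nil .nil (.hit [t false 1 (a (g (d (a (f (a (b (d (g e))))))))), t false
  1 (d (a (g (d (f (a (b (d (g e))))))))), t false 1 (g (a (d (a (g (f (a (b (d e)))))))))])) .nil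
  .nil) .nil (.br .nil (.br (.br .nil .nil .nil .nil .nil (.hit [t false 1 (a (g (a (b (c (f (a (b
  (d (g e)))))))))), t false 1 (b (g (a (b (c (d (g (f (a (b e)))))))))), t true 1 (g (a (b (c (d (g
  (f (a (b (d e))))))))))])) .nil .nil .nil .nil .nil) .nil (.br .nil (.br (.br .nil .nil .nil .nil
  .nil (.hit [t false 1 (a (d (g (a (b (c (f (a (b (d (g e))))))))))), t false 1 (b (c (g (a (b (c
  (d (g (f (a (b e))))))))))), t true 1 (c (g (a (b (c (d (c (g (f (a (b e))))))))))), t false 1 (d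
  (g (a (b (d (c (f (a (b (d (g e))))))))))), t false 1 (g (a (b (c (d (c (g (f (a (b (d
  e)))))))))))])) .nil .nil .nil .nil .nil) .nil .nil .nil .nil) .nil .nil) (.br .nil .nil .nil .nil
  .nil (.hit [t false 1 (d (g (d (f (a (b (d (g e)))))))), t false 1 (g (a (d (a (g (f (a (b
  e))))))))])) .nil .nil) .nil) .nil .nil .nil .nil .nil) .nil .nil (.br (.br .nil .nil .nil (.br
  .nil .nil .nil .nil .nil (.hit [t false 1 (a (g (d (a (f (d (g e))))))), t false 1 (d (a (g (d (f
  (d (g e))))))), t false 1 (g (a (d (a (g (f (d e)))))))])) .nil .nil) .nil (.br .nil (.br (.br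
  .nil .nil .nil .nil .nil (.hit [t false 1 (a (g (a (b (c (f (d (g e)))))))), t true 1 (g (a (b (c
  (d (g (f (d e))))))))])) .nil .nil .nil .nil .nil) .nil (.br .nil (.br (.br .nil .nil .nil .nil
  .nil (.hit [t false 1 (a (d (g (a (b (c (f (d (g e))))))))), t false 1 (d (g (a (b (d (c (f (d (g
  e))))))))), t false 1 (g (a (b (c (d (c (g (f (d e)))))))))])) .nil .nil .nil .nil .nil) .nil .nil
  .nil .nil) .nil .nil) (.br .nil .nil .nil .nil .nil (.hit [t false 1 (d (g (d (f (d (g e))))))]))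
  .nil .nil) .nil) .nil .nil))

def Cf : C := (.br (.br .nil .nil .nil (.br .nil .nil .nil .nil (.ba b_fdaf) (.br .nil .nil (.br
  .nil .nil .nil (.br .nil .nil .nil .nil (.br (.br .nil .nil .nil (.br .nil .nil .nil .nil .nil
  (.ov [(true, (g (d (f (d (c (g (d (a (f (f e)))))))))))])) .nil .nil) .nil .nil (.br .nil .nil
  .nil .nil .nil (.ov [(true, (g (a (f (d (c (g (d (a (g e)))))))))), (true, (g (f (d (c (g (d (a (f
  (g e))))))))))])) .nil .nil) .nil) .nil .nil) .nil .nil .nil)) (.ba b_faf) (.br (.br .nil .nil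
  .nil (.br .nil .nil .nil .nil (.br .nil .nil (.br .nil .nil .nil (.br (.br .nil .nil .nil .nil
  .nil (.ov [(false, (g (a (d (c (g (d (f (d (a (g e)))))))))))])) .nil .nil .nil .nil .nil) .nil
  .nil) .nil .nil .nil) .nil) .nil .nil) (.br (.br .nil .nil .nil .nil (.br (.br .nil .nil .nil .nil
  .nil (.ov [(true, (g (f (a (b (g (a (f (g e)))))))))])) .nil .nil .nil .nil .nil) .nil) .nil .nil
  .nil .nil .nil) (.br .nil (.br (.br .nil .nil .nil .nil (.br (.br .nil .nil .nil .nil .nil (.ov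
  [(true, (g (a (f (a (b (g (a (f (c e))))))))))])) .nil .nil .nil .nil .nil) .nil) .nil .nil .nil
  .nil .nil) .nil (.br .nil .nil .nil .nil (.br (.br .nil .nil .nil (.br .nil .nil .nil .nil .nil
  (.ov [(true, (g (d (a (f (d (g (a (f (c e))))))))))])) .nil .nil) .nil .nil (.br .nil .nil .nil
  .nil .nil (.ov [(false, (g (d (g (a (f (d (c (g e)))))))))])) .nil .nil) .nil) .nil .nil) (.br
  .nil .nil .nil .nil (.br (.br .nil .nil .nil (.br .nil .nil .nil .nil .nil (.ov [(false, (g (d (a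
  (g (a (f (d (g e)))))))))])) .nil .nil) .nil (.br .nil (.br (.br .nil .nil .nil .nil .nil (.ov
  [(false, (g (a (b (c (g (a (f (d (g e))))))))))])) .nil .nil .nil .nil .nil) .nil (.br .nil (.br
  (.br .nil .nil .nil .nil .nil (.ov [(false, (g (a (b (d (c (g (a (f (d (g e)))))))))))])) .nil
  .nil .nil .nil .nil) .nil .nil .nil .nil) .nil .nil) (.br .nil .nil .nil .nil .nil (.ov [(false,
  (g (d (g (a (f (d (g e))))))))])) .nil .nil) .nil) .nil .nil)) (.br (.br .nil .nil .nil .nil (.ov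
  [(true, (f (a (f (b e)))))]) (.br .nil .nil (.br .nil .nil .nil (.br .nil .nil .nil .nil (.br .nil
  .nil .nil (.br .nil .nil .nil .nil .nil (.ov [(true, (g (d (f (d (c (g (a (f (b e))))))))))]))
  .nil .nil) .nil) .nil .nil) (.br .nil .nil .nil .nil (.br (.br .nil .nil .nil (.br .nil .nil .nil
  .nil .nil (.ov [(true, (g (d (a (f (d (g (a (f (b e))))))))))])) .nil .nil) .nil .nil (.br .nil
  .nil .nil .nil .nil (.ov [(false, (g (d (g (a (b (f (d (g e)))))))))])) .nil .nil) .nil) .nil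
  .nil)) .nil (.br (.br .nil .nil .nil (.br .nil .nil .nil .nil (.ov [(true, (f (d (a (c (f (b
  e)))))))]) .nil) .nil .nil) .nil .nil .nil .nil .nil) .nil .nil .nil) (.br (.br .nil .nil .nil
  (.br .nil .nil .nil .nil (.ov [(true, (f (d (a (f (c e))))))]) .nil) .nil .nil) (.br (.br .nil
  .nil .nil .nil (.ov [(true, (f (a (b (f (c e))))))]) (.br .nil .nil (.br .nil .nil .nil (.br .nil
  .nil .nil .nil (.br .nil .nil .nil (.br .nil .nil .nil .nil .nil (.ov [(true, (g (d (g (a (b (f (a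
  (d (c (g e)))))))))))])) .nil .nil) .nil) .nil .nil) .nil .nil .nil)) .nil .nil .nil .nil .nil)
  .nil (.br (.br .nil .nil .nil .nil (.ov [(true, (f (a (d (f (c e))))))]) (.br .nil (.br (.br .nil
  .nil .nil .nil (.br (.br .nil .nil .nil .nil .nil (.ov [(true, (g (a (f (a (b (g (a (d (f (c
  e)))))))))))])) .nil .nil (.br (.br .nil .nil .nil .nil .nil (.ov [(true, (g (a (f (a (b (g (a (d
  (c (f (f e))))))))))))])) .nil .nil .nil .nil .nil) .nil .nil) .nil) .nil .nil .nil .nil .nil)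
  .nil .nil .nil .nil)) (.br (.br .nil .nil .nil .nil (.ov [(true, (f (a (b (d (f (c e)))))))])
  .nil) .nil .nil .nil .nil .nil) .nil .nil (.ov [(true, (f (d (f (c e)))))]) (.br (.br .nil .nil
  .nil .nil (.br (.br .nil .nil .nil .nil .nil (.ov [(false, (g (a (g (d (c (f (a (g e)))))))))]))
  .nil .nil (.br (.br .nil .nil .nil .nil .nil (.ov [(true, (g (a (d (f (a (g (d (f (c
  e))))))))))])) .nil .nil .nil .nil .nil) .nil .nil) .nil) (.br (.br .nil .nil .nil .nil (.br (.br
  .nil .nil .nil .nil .nil (.ov [(false, (g (a (g (d (f (a (b (c (g e))))))))))])) .nil .nil .nil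
  .nil .nil) .nil) .nil .nil .nil .nil .nil) .nil .nil .nil .nil)) .nil .nil) (.br (.br .nil .nil
  .nil .nil (.ba b_fadf) (.br .nil (.br (.br .nil .nil .nil .nil (.br (.br .nil .nil .nil .nil .nil
  (.ov [(true, (g (d (f (a (b (g (a (d (g e)))))))))), (true, (g (f (a (b (g (a (d (f (g
  e))))))))))])) .nil .nil (.br (.br .nil .nil .nil .nil .nil (.ov [(true, (g (a (f (a (b (g (a (d
  (f (f e)))))))))))])) .nil .nil .nil .nil .nil) .nil .nil) .nil) .nil .nil .nil .nil .nil) (.br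
  .nil .nil .nil (.br (.br .nil .nil .nil .nil (.br .nil .nil .nil (.br .nil .nil .nil .nil .nil
  (.ov [(true, (g (d (f (d (c (g (a (d (f (c e)))))))))))])) .nil .nil) .nil) .nil .nil .nil (.br
  .nil .nil .nil (.br .nil .nil .nil .nil .nil (.ov [(true, (g (f (a (b (d (g (a (f (g e)))))))))),
  (true, (g (f (d (c (g (a (d (f (g e))))))))))])) .nil .nil) .nil) .nil .nil) .nil .nil .nil)) (.br
  (.br .nil .nil .nil .nil (.ov [(true, (f (a (d (f (b e))))))]) .nil) .nil .nil .nil .nil .nil)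
  .nil .nil (.ba b_fdf) (.br (.br .nil .nil .nil .nil (.br (.br .nil .nil .nil .nil .nil (.ov
  [(false, (g (a (g (d (f (a (g e))))))))])) (.br .nil .nil (.br (.br .nil .nil .nil (.br .nil .nil
  .nil .nil .nil (.ov [(false, (g (d (a (c (b (g (d (f (a (g e)))))))))))])) .nil .nil) .nil .nil
  .nil .nil .nil) .nil .nil .nil) (.br .nil .nil .nil (.br (.br .nil .nil .nil .nil .nil (.ov
  [(false, (g (a (d (c (g (d (f (a (g e))))))))))])) .nil .nil .nil .nil .nil) .nil .nil) (.br (.br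
  .nil .nil .nil .nil .nil (.ov [(false, (g (a (d (g (d (f (a (g e)))))))))])) .nil .nil .nil .nil
  .nil) .nil .nil) .nil) (.br (.br .nil .nil .nil .nil (.br (.br .nil .nil .nil .nil .nil (.ov
  [(false, (g (a (g (d (f (a (b (g e)))))))))])) .nil .nil .nil .nil .nil) .nil) .nil .nil .nil .nil
  .nil) (.br .nil .nil .nil (.br (.br .nil .nil .nil .nil (.br (.br .nil .nil .nil (.br .nil .nil
  .nil .nil .nil (.ov [(true, (g (a (b (c (g (d (a (f (a (g e))))))))))), (true, (g (d (a (c (b (g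
  (d (f (a (g e))))))))))), (true, (g (d (a (f (d (c (g (d (f (b e)))))))))))])) .nil .nil) .nil
  .nil (.br .nil .nil .nil .nil .nil (.ov [(true, (g (a (d (c (g (d (f (a (g e)))))))))), (true, (g
  (f (a (d (c (g (d (f (g e))))))))))])) .nil .nil) .nil) .nil .nil .nil (.br (.br .nil .nil .nil
  (.br .nil .nil .nil .nil .nil (.ov [(true, (g (f (a (b (g (d (a (f (g e)))))))))), (true, (g (f (d
  (a (c (g (d (f (g e))))))))))])) .nil .nil) .nil .nil .nil .nil .nil) .nil) .nil .nil) (.br (.br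
  .nil .nil .nil .nil (.br .nil .nil (.br .nil (.br (.br .nil .nil .nil .nil .nil (.ov [(true, (g (a
  (b (c (g (d (a (f (a (g e)))))))))))])) .nil .nil .nil .nil .nil) .nil .nil .nil .nil) .nil .nil
  .nil) .nil) .nil .nil .nil .nil .nil) .nil .nil)) (.ba b_ff) (.br (.br .nil .nil .nil (.br .nil
  .nil .nil .nil (.br (.br .nil .nil .nil .nil .nil (.ov [(false, (g (a (g (f (d (a (g e))))))))]))
  .nil (.br .nil .nil .nil (.br (.br .nil .nil .nil .nil .nil (.ov [(false, (g (a (d (c (g (f (d (a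
  (g e))))))))))])) .nil .nil .nil .nil .nil) .nil .nil) (.br (.br .nil .nil .nil .nil .nil (.ov
  [(false, (g (a (d (g (f (d (a (g e)))))))))])) .nil .nil .nil .nil .nil) .nil .nil) .nil) (.br
  (.br .nil .nil .nil .nil .nil (.ov [(false, (g (a (g (f (a (g e)))))))])) (.br .nil .nil (.br (.br
  .nil .nil .nil (.br .nil .nil .nil .nil .nil (.ov [(false, (g (d (a (c (b (g (f (a (g
  e))))))))))])) .nil .nil) .nil .nil .nil .nil .nil) .nil .nil .nil) (.br .nil (.br (.br .nil .nil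
  .nil .nil .nil (.ov [(false, (g (a (b (c (g (f (a (g e)))))))))])) .nil .nil .nil .nil .nil) .nil
  (.br (.br .nil .nil .nil .nil .nil (.ov [(false, (g (a (d (c (g (f (a (g e)))))))))])) (.br (.br
  .nil .nil .nil .nil .nil (.ov [(false, (g (a (b (d (c (g (f (a (g e))))))))))])) .nil .nil .nil
  .nil .nil) .nil .nil .nil .nil) .nil .nil) (.br (.br .nil .nil .nil .nil .nil (.ov [(false, (g (a
  (d (g (f (a (g e))))))))])) .nil .nil .nil .nil .nil) .nil .nil) .nil) (.br (.br .nil .nil .nil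
  .nil (.br (.br .nil .nil .nil .nil .nil (.ov [(false, (g (a (g (f (a (b (g e))))))))])) (.br .nil
  .nil (.br (.br .nil .nil .nil (.br .nil .nil .nil .nil .nil (.ov [(false, (g (d (a (c (b (g (f (a
  (b (g e)))))))))))])) .nil .nil) .nil .nil .nil .nil .nil) .nil .nil .nil) (.br .nil .nil .nil
  (.br (.br .nil .nil .nil .nil .nil (.ov [(false, (g (a (d (c (g (f (a (b (g e))))))))))])) .nil
  .nil .nil .nil .nil) .nil .nil) (.br (.br .nil .nil .nil .nil .nil (.ov [(false, (g (a (d (g (f (a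
  (b (g e)))))))))])) .nil .nil .nil .nil .nil) .nil .nil) .nil) .nil (.br (.br .nil .nil .nil (.br
  .nil .nil .nil .nil (.br (.br .nil .nil .nil .nil .nil (.ov [(false, (g (a (g (f (d (a (c (b (g
  e))))))))))])) .nil (.br .nil .nil .nil (.br (.br .nil .nil .nil .nil .nil (.ov [(true, (g (a (d
  (c (f (d (a (c (g (f (b e))))))))))))])) .nil .nil .nil .nil .nil) .nil .nil) .nil .nil .nil)
  .nil) .nil .nil) .nil .nil .nil .nil .nil) .nil .nil .nil) (.br (.br .nil .nil .nil (.br .nil .nil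
  .nil .nil (.br (.br .nil .nil .nil .nil .nil (.ov [(false, (g (a (g (f (d (a (c (g e)))))))))]))
  .nil (.br .nil .nil .nil (.br (.br .nil .nil .nil .nil .nil (.ov [(false, (g (a (d (c (g (f (d (a
  (c (g e)))))))))))])) .nil .nil .nil .nil .nil) .nil .nil) .nil .nil .nil) .nil) .nil .nil) (.br
  (.br .nil .nil .nil .nil (.br (.br .nil .nil .nil .nil .nil (.ov [(false, (g (a (g (f (a (b (c (g
  e)))))))))])) (.br .nil .nil (.br (.br .nil .nil .nil (.br .nil .nil .nil .nil .nil (.ov [(false,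
  (g (d (a (c (b (g (f (a (b (c (g e))))))))))))])) .nil .nil) .nil .nil .nil .nil .nil) .nil .nil
  .nil) (.br .nil .nil .nil (.br (.br .nil .nil .nil .nil .nil (.ov [(false, (g (a (d (c (g (f (a (b
  (c (g e)))))))))))])) .nil .nil .nil .nil .nil) .nil .nil) (.br (.br .nil .nil .nil .nil .nil (.ov
  [(false, (g (a (d (g (f (a (b (c (g e))))))))))])) .nil .nil .nil .nil .nil) .nil .nil) .nil) .nil
  .nil .nil .nil .nil) .nil (.br (.br .nil .nil .nil .nil (.br (.br .nil .nil .nil (.br .nil .nil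
  .nil .nil .nil (.ov [(false, (g (d (a (g (f (a (d (c (g e))))))))))])) .nil .nil) .nil (.br .nil
  (.br (.br .nil .nil .nil .nil .nil (.ov [(false, (g (a (b (c (g (f (a (d (c (g e)))))))))))]))
  .nil .nil .nil .nil .nil) .nil (.br .nil (.br (.br .nil .nil .nil .nil .nil (.ov [(true, (g (a (b
  (d (c (f (a (d (g (f (c e))))))))))))])) .nil .nil .nil .nil .nil) .nil .nil .nil .nil) .nil .nil)
  (.br .nil .nil .nil .nil .nil (.ov [(false, (g (d (g (f (a (d (c (g e)))))))))])) .nil .nil) .nil)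
  (.br (.br .nil .nil .nil .nil (.br (.br .nil .nil .nil (.br .nil .nil .nil .nil .nil (.ov [(false,
  (g (d (a (g (f (a (b (d (c (g e)))))))))))])) .nil .nil) .nil (.br .nil (.br (.br .nil .nil .nil
  .nil .nil (.ov [(false, (g (a (b (c (g (f (a (b (d (c (g e))))))))))))])) .nil .nil .nil .nil
  .nil) .nil (.br .nil (.br (.br .nil .nil .nil .nil .nil (.ov [(true, (g (a (b (d (c (f (a (b (d (g
  (f (c e)))))))))))))])) .nil .nil .nil .nil .nil) .nil .nil .nil .nil) .nil .nil) (.br .nil .nil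
  .nil .nil .nil (.ov [(false, (g (d (g (f (a (b (d (c (g e))))))))))])) .nil .nil) .nil) .nil .nil
  .nil .nil .nil) .nil .nil (.br (.br .nil .nil .nil (.br .nil .nil .nil .nil .nil (.ov [(false, (g
  (d (a (g (f (d (c (g e)))))))))])) .nil .nil) .nil (.br .nil (.br (.br .nil .nil .nil .nil .nil
  (.ov [(false, (g (a (b (c (g (f (d (c (g e))))))))))])) .nil .nil .nil .nil .nil) .nil .nil .nil
  .nil) .nil .nil .nil) .nil) .nil .nil) (.br (.br .nil .nil .nil .nil (.br (.br .nil .nil .nil (.br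
  .nil .nil .nil .nil .nil (.ov [(false, (g (d (a (g (f (a (d (g e)))))))))])) .nil .nil) .nil (.br
  .nil (.br (.br .nil .nil .nil .nil .nil (.ov [(false, (g (a (b (c (g (f (a (d (g e))))))))))]))
  .nil .nil .nil .nil .nil) .nil (.br .nil (.br (.br .nil .nil .nil .nil .nil (.ov [(false, (g (a (b
  (d (c (g (f (a (d (g e)))))))))))])) .nil .nil .nil .nil .nil) .nil .nil .nil .nil) .nil .nil)
  (.br .nil .nil .nil .nil .nil (.ov [(false, (g (d (g (f (a (d (g e))))))))])) .nil .nil) .nil)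
  (.br (.br .nil .nil .nil .nil (.br (.br .nil .nil .nil (.br .nil .nil .nil .nil .nil (.ov [(false,
  (g (d (a (g (f (a (b (d (g e))))))))))])) .nil .nil) .nil (.br .nil (.br (.br .nil .nil .nil .nil
  .nil (.ov [(false, (g (a (b (c (g (f (a (b (d (g e)))))))))))])) .nil .nil .nil .nil .nil) .nil
  (.br .nil (.br (.br .nil .nil .nil .nil .nil (.ov [(true, (g (a (b (d (c (f (a (d (g (f (b
  e))))))))))))])) .nil .nil .nil .nil .nil) .nil .nil .nil .nil) .nil .nil) (.br .nil .nil .nil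
  .nil .nil (.ov [(false, (g (d (g (f (a (b (d (g e)))))))))])) .nil .nil) .nil) .nil .nil .nil .nil
  .nil) .nil .nil (.br (.br .nil .nil .nil (.br .nil .nil .nil .nil .nil (.ov [(false, (g (d (a (g
  (f (d (g e))))))))])) .nil .nil) .nil (.br .nil (.br (.br .nil .nil .nil .nil .nil (.ov [(false,
  (g (a (b (c (g (f (d (g e)))))))))])) .nil .nil .nil .nil .nil) .nil (.br .nil (.br (.br .nil .nil
  .nil .nil .nil (.ov [(false, (g (a (b (d (c (g (f (d (g e))))))))))])) .nil .nil .nil .nil .nil)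
  .nil .nil .nil .nil) .nil .nil) (.br .nil .nil .nil .nil .nil (.ov [(false, (g (d (g (f (d (g
  e)))))))])) .nil .nil) .nil) .nil .nil))

def Rg : R := (.br (.br .nil .nil .nil (.br .nil .nil .nil .nil (.br .nil .nil (.br .nil .nil .nil
  (.br .nil .nil .nil .nil .nil (.hit [t false 1 (a (b (g (d (c (f (d e))))))), t false 1 (a (d (f
  (d (g (a (b e))))))), t false 1 (a (g (a (b (d (f (d e))))))), t true 1 (a (g (d (c (f (d (a
  e))))))), t false 1 (b (g (d (c (f (d (g e))))))), t true 1 (d (a (g (a (b (f (d e))))))), t false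
  1 (d (f (a (b (g (d (c e))))))), t false 1 (d (f (a (g (a (b (d e))))))), t true 1 (d (f (d (a (g
  (a (b e))))))), t false 1 (f (a (b (g (d (c (f e))))))), t false 1 (f (a (g (a (b (d (f e))))))),
  t true 1 (f (d (a (g (a (b (f e))))))), t false 1 (g (a (b (d (f (d (g e)))))))])) .nil .nil) (.br
  .nil .nil .nil .nil .nil (.hit [t false 1 (a (d (f (d (g (a e)))))), t false 1 (a (g (a (d (f (d
  e)))))), t true 1 (a (g (d (f (d (a e)))))), t true 1 (d (a (g (a (f (d e)))))), t false 1 (d (f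
  (a (g (a (d e)))))), t true 1 (d (f (d (a (g (a e)))))), t false 1 (f (a (g (a (d (f e)))))), t
  true 1 (f (d (a (g (a (f e)))))), t false 1 (g (a (d (f (d (g e))))))])) .nil (.hit [t true 1 (a
  (g (f (d (a e))))), t true 1 (d (a (g (f (d e))))), t true 1 (f (d (a (g (f e)))))])) (.hit [t
  true 1 (a (g (d (a e)))), t true 1 (d (a (g (d e))))])) (.br (.br .nil .nil .nil (.br .nil .nil
  .nil .nil .nil (.hit [t false 1 (a (d (g (d (f (a e)))))), t false 1 (a (f (a (d (g (d e)))))), t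
  true 1 (a (f (d (g (d (a e)))))), t true 1 (d (a (f (a (g (d e)))))), t false 1 (d (g (a (f (a (d
  e)))))), t true 1 (d (g (d (a (f (a e)))))), t false 1 (f (a (d (g (d (f e)))))), t true 1 (f (d
  (g (d (a (f e)))))), t false 1 (g (a (f (a (d (g e))))))])) .nil .nil) .nil (.br (.br .nil .nil
  .nil (.br .nil .nil .nil .nil .nil (.hit [t false 1 (a (d (g (d (c (f (a e))))))), t false 1 (a (f
  (a (d (g (d (c e))))))), t true 1 (a (f (d (c (g (a (b e))))))), t true 1 (a (f (d (g (d (a (c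
  e))))))), t true 1 (c (g (a (b (f (a (g e))))))), t true 1 (d (a (f (a (g (d (c e))))))), t true 1
  (d (c (g (a (b (f (a e))))))), t false 1 (d (g (a (b (f (a (d e))))))), t true 1 (d (g (d (a (c (f
  (a e))))))), t false 1 (f (a (d (g (d (c (f e))))))), t true 1 (f (d (c (g (a (b (f e))))))), t
  true 1 (f (d (g (d (a (c (f e))))))), t false 1 (g (a (b (f (a (d (g e)))))))])) .nil .nil) .nil
  .nil (.br .nil .nil .nil .nil .nil (.hit [t true 1 (a (g (d (c (f (a e)))))), t true 1 (d (f (a (g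
  (d (c e)))))), t true 1 (f (a (g (d (c (f e))))))])) .nil .nil) (.br .nil .nil .nil .nil .nil
  (.hit [t true 1 (a (g (d (f (a e))))), t true 1 (d (f (a (g (d e))))), t true 1 (f (a (g (d (f
  e)))))])) .nil (.hit [t true 1 (a (g (f (a e)))), t true 1 (f (a (g (f e))))])) (.hit [t true 1 (a
  (g (a e)))])) (.br (.br .nil .nil .nil .nil (.br (.br .nil .nil .nil (.br .nil .nil .nil .nil .nil
  (.hit [t false 1 (a (b (f (d (c (g (d e))))))), t false 1 (a (d (g (d (f (a (b e))))))), t false 1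
  (a (f (a (b (d (g (d e))))))), t true 1 (a (f (d (c (g (d (a e))))))), t true 1 (a (f (d (g (a (b
  (c e))))))), t false 1 (b (f (d (c (g (d (f e))))))), t true 1 (d (a (f (a (b (g (d e))))))), t
  false 1 (d (g (a (f (a (b (d e))))))), t true 1 (d (g (d (a (f (a (b e))))))), t false 1 (f (a (b
  (d (g (d (f e))))))), t true 1 (f (d (c (g (d (a (f e))))))), t true 1 (f (d (g (a (b (c (f
  e))))))), t false 1 (g (a (f (a (b (d (g e)))))))])) .nil .nil) .nil (.br (.br .nil .nil .nil (.br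
  .nil .nil .nil .nil .nil (.hit [t false 1 (a (b (f (a (b (d (g (a e)))))))), t true 1 (a (c (b (f
  (a (b (g (a e)))))))), t false 1 (a (d (g (d (c (f (a (b e)))))))), t true 1 (a (f (a (b (d (g (a
  (d e)))))))), t false 1 (a (f (a (d (g (a (d (c e)))))))), t true 1 (a (f (d (g (d (a (c (b
  e)))))))), t false 1 (b (f (a (b (d (g (a (f e)))))))), t true 1 (c (b (f (a (b (g (a (f
  e)))))))), t true 1 (c (g (a (b (f (a (b (g e)))))))), t true 1 (d (a (c (f (a (b (g (a e)))))))),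
  t false 1 (d (a (f (a (b (g (a (d e)))))))), t true 1 (d (a (f (a (g (a (d (c e)))))))), t true 1
  (d (c (g (a (b (f (a (b e)))))))), t false 1 (d (g (a (b (f (a (b (d e)))))))), t true 1 (d (g (d
  (a (c (f (a (b e)))))))), t true 1 (f (a (b (d (g (a (d (f e)))))))), t false 1 (f (a (d (g (a (d
  (c (f e)))))))), t true 1 (f (d (g (d (a (c (b (f e)))))))), t false 1 (g (a (b (f (a (b (d (g
  e))))))))])) .nil .nil) .nil .nil (.br .nil .nil .nil .nil .nil (.hit [t true 1 (a (g (d (c (f (a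
  (b e))))))), t true 1 (c (f (a (b (g (a (f e))))))), t true 1 (d (c (f (a (b (g (a e))))))), t
  false 1 (d (f (a (b (g (a (d e))))))), t true 1 (d (f (a (g (a (d (c e))))))), t false 1 (f (a (b
  (g (a (d (f e))))))), t true 1 (f (a (g (a (d (c (f e)))))))])) .nil .nil) (.br .nil .nil .nil
  .nil .nil (.hit [t true 1 (a (g (d (f (a (b e)))))), t true 1 (d (f (a (b (g (d e)))))), t true 1
  (f (a (b (g (d (f e))))))])) .nil (.hit [t true 1 (a (g (f (a (b e))))), t true 1 (f (a (b (g (f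
  e)))))])) (.hit [t true 1 (a (g (a (b e))))])) .nil (.br (.br .nil .nil .nil (.br .nil .nil .nil
  .nil (.br .nil .nil .nil .nil .nil (.hit [t false 1 (a (b (c (g (f (a (d e))))))), t true 1 (a (g
  (f (d (a (c (b e))))))), t true 1 (b (c (d (g (f (a (d e))))))), t false 1 (c (d (a (g (f (a (d
  e))))))), t true 1 (d (a (c (b (g (f (a e))))))), t true 1 (d (a (g (f (a (d (c e))))))), t true 1
  (f (d (a (c (b (g (f e)))))))])) (.hit [t false 1 (a (b (c (g (a (d e)))))), t true 1 (a (g (d (a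
  (c (b e)))))), t true 1 (b (c (d (g (a (d e)))))), t false 1 (c (d (a (g (a (d e)))))), t true 1
  (d (a (c (b (g (a e)))))), t true 1 (d (a (g (a (d (c e))))))])) .nil .nil) .nil .nil .nil .nil
  .nil) .nil .nil .nil) (.br (.br .nil .nil .nil (.br .nil .nil .nil .nil (.br .nil .nil (.br .nil
  .nil .nil (.br .nil .nil .nil .nil .nil (.hit [t false 1 (a (b (g (d (c (f (d (c e)))))))), t
  false 1 (a (d (f (d (g (a (b (c e)))))))), t false 1 (a (g (a (b (d (f (d (c e)))))))), t true 1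
  (a (g (d (c (f (d (a (c e)))))))), t false 1 (b (g (d (c (f (d (c (g e)))))))), t true 1 (d (a (g
  (a (b (f (d (c e)))))))), t false 1 (d (f (a (g (a (b (d (c e)))))))), t true 1 (d (f (d (a (g (a
  (b (c e)))))))), t false 1 (f (a (g (a (b (d (c (f e)))))))), t true 1 (f (d (a (g (a (b (c (f
  e)))))))), t false 1 (g (a (b (d (f (d (c (g e))))))))])) .nil .nil) .nil .nil (.hit [t true 1 (a
  (g (f (d (a (c e)))))), t true 1 (d (a (g (f (d (c e)))))), t true 1 (f (d (a (c (g (f e))))))]))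
  (.hit [t true 1 (a (g (d (a (c e))))), t true 1 (d (a (g (d (c e)))))])) .nil .nil) (.br (.br .nil
  .nil .nil .nil (.br .nil .nil (.br (.br .nil .nil .nil (.br .nil .nil .nil .nil .nil (.hit [t
  false 1 (a (b (c (b (f (a (g (a (d e))))))))), t false 1 (a (b (f (a (b (d (c (g (a e))))))))), t
  false 1 (a (b (f (a (d (c (g (a (d e))))))))), t true 1 (a (b (f (d (c (g (a (d (c e))))))))), t
  true 1 (a (c (b (f (a (b (c (g (a e))))))))), t false 1 (a (d (g (d (c (f (a (b (c e))))))))), t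
  true 1 (a (f (a (b (d (g (a (d (c e))))))))), t false 1 (a (f (d (c (g (d (a (c (b e))))))))), t
  false 1 (b (c (b (f (a (g (a (d (f e))))))))), t false 1 (b (f (a (b (d (c (g (a (f e))))))))), t
  false 1 (b (f (a (d (c (g (a (d (f e))))))))), t true 1 (b (f (d (c (g (a (d (c (f e))))))))), t
  true 1 (c (b (f (a (b (c (g (a (f e))))))))), t true 1 (c (g (a (b (f (a (b (c (g e))))))))), t
  true 1 (d (a (c (f (a (b (c (g (a e))))))))), t false 1 (d (a (f (a (b (g (a (d (c e))))))))), t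
  true 1 (d (c (g (a (b (f (a (b (c e))))))))), t false 1 (d (g (a (b (f (a (b (d (c e))))))))), t
  true 1 (d (g (d (a (c (f (a (b (c e))))))))), t true 1 (f (a (b (d (g (a (d (c (f e))))))))), t
  false 1 (f (d (c (g (d (a (c (b (f e))))))))), t false 1 (g (a (b (f (a (b (d (c (g e)))))))))]))
  .nil .nil) .nil .nil (.br .nil .nil .nil .nil .nil (.hit [t true 1 (a (g (d (c (f (a (b (c
  e)))))))), t true 1 (c (f (a (b (c (g (a (f e)))))))), t true 1 (d (c (f (a (b (c (g (a e)))))))),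
  t false 1 (d (f (a (b (g (a (d (c e)))))))), t false 1 (f (a (b (g (a (d (c (f e))))))))])) .nil
  .nil) (.br .nil .nil .nil .nil .nil (.hit [t true 1 (a (g (d (f (a (b (c e))))))), t true 1 (d (f
  (a (b (g (d (c e))))))), t true 1 (f (a (b (g (d (c (f e)))))))])) .nil (.hit [t true 1 (a (g (f
  (a (b (c e)))))), t true 1 (f (a (b (c (g (f e))))))])) (.hit [t true 1 (a (g (a (b (c e)))))]))
  .nil .nil .nil .nil .nil) .nil (.br (.br .nil .nil .nil .nil (.br (.br .nil .nil .nil .nil .nil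
  (.hit [t true 1 (a (f (d (c (g (a (b e))))))), t true 1 (c (g (a (b (f (a (g e))))))), t true 1 (d
  (c (g (a (b (f (a e))))))), t false 1 (d (g (a (b (f (a (d e))))))), t true 1 (d (g (a (f (a (d (c
  e))))))), t true 1 (f (d (c (g (a (b (f e))))))), t false 1 (g (a (b (f (a (d (g e)))))))])) (.br
  (.br .nil .nil .nil .nil .nil (.hit [t false 1 (a (f (d (c (g (a (b (c e)))))))), t false 1 (c (g
  (a (b (c (f (a (g e)))))))), t false 1 (d (c (g (a (b (c (f (a e)))))))), t true 1 (d (g (a (b (f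
  (a (d (c e)))))))), t false 1 (f (d (c (g (a (b (c (f e))))))))])) .nil .nil .nil .nil .nil) .nil
  .nil .nil (.hit [t true 1 (a (d (c (g (f (a e)))))), t true 1 (d (g (f (a (d (c e)))))), t true 1
  (f (a (d (c (g (f e))))))])) (.hit [t true 1 (a (d (c (g (a e))))), t true 1 (d (g (a (d (c
  e)))))])) (.br (.br .nil .nil .nil .nil (.br .nil .nil .nil .nil .nil (.hit [t true 1 (a (d (g (f
  (a (b (c e))))))), t true 1 (d (g (f (a (b (d (c e))))))), t true 1 (f (a (b (d (c (g (f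
  e)))))))])) (.hit [t true 1 (a (d (g (a (b (c e)))))), t true 1 (d (g (a (b (d (c e))))))])) .nil
  .nil .nil .nil .nil) .nil .nil (.br (.br .nil .nil .nil .nil .nil (.hit [t true 1 (a (f (d (c (g
  (a e)))))), t true 1 (d (g (a (f (d (c e)))))), t true 1 (f (d (c (g (a (f e))))))])) (.br (.br
  .nil .nil .nil .nil .nil (.hit [t true 1 (a (f (d (g (a (b (c e))))))), t true 1 (d (g (a (b (f (d
  (c e))))))), t true 1 (f (d (g (a (b (c (f e)))))))])) .nil .nil .nil .nil .nil) .nil .nil .nil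
  (.hit [t true 1 (d (g (f (d (c e))))), t true 1 (f (d (c (g (f e)))))])) (.hit [t true 1 (d (g (d
  (c e))))])) .nil .nil) (.br (.br .nil .nil .nil .nil (.br .nil .nil .nil .nil .nil (.hit [t true 1
  (a (d (g (f (a e))))), t true 1 (d (g (f (a (d e))))), t true 1 (f (a (d (g (f e)))))])) (.hit [t
  true 1 (a (d (g (a e)))), t true 1 (d (g (a (d e))))])) (.br (.br .nil .nil .nil .nil (.br .nil
  .nil .nil .nil .nil (.hit [t true 1 (a (d (g (f (a (b e)))))), t true 1 (d (g (f (a (b (d e)))))),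
  t true 1 (f (a (b (d (g (f e))))))])) (.hit [t true 1 (a (d (g (a (b e))))), t true 1 (d (g (a (b
  (d e)))))])) .nil .nil .nil .nil .nil) .nil .nil (.br (.br .nil .nil .nil .nil .nil (.hit [t true
  1 (a (f (d (g (a e))))), t true 1 (d (g (a (f (d e))))), t true 1 (f (d (g (a (f e)))))])) (.br
  (.br .nil .nil .nil .nil .nil (.hit [t true 1 (a (f (d (g (a (b e)))))), t true 1 (d (g (a (b (f
  (d e)))))), t true 1 (f (d (g (a (b (f e))))))])) .nil .nil .nil .nil .nil) .nil .nil .nil (.hit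
  [t true 1 (d (g (f (d e)))), t true 1 (f (d (g (f e))))])) (.hit [t true 1 (d (g (d e)))])) (.br
  (.br .nil .nil .nil (.br .nil .nil .nil .nil .nil (.hit [t true 1 (a (f (g (d (a e))))), t true 1
  (d (a (f (g (d e))))), t true 1 (f (g (d (a (f e)))))])) .nil (.hit [t true 1 (a (f (g (a e)))), t
  true 1 (f (g (a (f e))))])) (.br (.br .nil .nil .nil .nil .nil (.hit [t true 1 (a (f (g (a (b
  e))))), t true 1 (f (g (a (b (f e)))))])) .nil (.br (.br .nil .nil .nil (.br .nil .nil .nil .nil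
  .nil (.hit [t false 1 (a (b (c (f (g (a (d e))))))), t true 1 (a (f (g (d (a (c (b e))))))), t
  true 1 (b (c (d (f (g (a (d e))))))), t false 1 (c (d (a (f (g (a (d e))))))), t true 1 (d (a (c
  (b (f (g (a e))))))), t true 1 (d (a (f (g (a (d (c e))))))), t true 1 (f (g (d (a (c (b (f
  e)))))))])) .nil .nil) .nil .nil .nil .nil .nil) .nil .nil .nil) (.br (.br .nil .nil .nil (.br
  .nil .nil .nil .nil .nil (.hit [t true 1 (a (f (g (d (a (c e)))))), t true 1 (d (a (f (g (d (c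
  e)))))), t true 1 (f (g (d (a (c (f e))))))])) .nil .nil) (.br (.br .nil .nil .nil .nil .nil (.hit
  [t true 1 (a (f (g (a (b (c e)))))), t true 1 (f (g (a (b (c (f e))))))])) .nil .nil .nil .nil
  .nil) .nil (.br (.br .nil .nil .nil .nil .nil (.hit [t true 1 (a (d (c (f (g (a e)))))), t true 1
  (d (f (g (a (d (c e)))))), t true 1 (f (g (a (d (c (f e))))))])) (.br (.br .nil .nil .nil .nil
  .nil (.hit [t true 1 (a (d (f (g (a (b (c e))))))), t true 1 (d (f (g (a (b (d (c e))))))), t true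
  1 (f (g (a (b (d (c (f e)))))))])) .nil .nil .nil .nil .nil) .nil .nil .nil .nil) .nil .nil) (.br
  (.br .nil .nil .nil .nil .nil (.hit [t true 1 (a (d (f (g (a e))))), t true 1 (d (f (g (a (d
  e))))), t true 1 (f (g (a (d (f e)))))])) (.br (.br .nil .nil .nil .nil .nil (.hit [t true 1 (a (d
  (f (g (a (b e)))))), t true 1 (d (f (g (a (b (d e)))))), t true 1 (f (g (a (b (d (f e))))))]))
  .nil .nil .nil .nil .nil) .nil .nil .nil (.hit [t true 1 (d (f (g (d e)))), t true 1 (f (g (d (f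
  e))))])) .nil .nil) .nil)

def Cg : C := (.br (.br .nil .nil .nil (.br .nil .nil .nil .nil (.br .nil .nil (.br .nil .nil .nil
  (.br .nil .nil .nil .nil .nil (.ov [(false, (g (d (f (a (b (g (c e)))))))), (true, (g (d (f (d (a
  (g (b e))))))))])) .nil .nil) (.br .nil .nil .nil .nil .nil (.ba b_gdfdag)) .nil (.ba b_gfdag))
  (.ba b_gdag)) (.br (.br .nil .nil .nil (.br .nil .nil .nil .nil .nil (.ba b_gdafag)) .nil .nil)
  .nil (.br (.br .nil .nil .nil (.br .nil .nil .nil .nil .nil (.ov [(true, (g (a (f (d (c (g (b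
  e)))))))), (true, (g (d (a (f (a (g (c e))))))))])) .nil .nil) .nil .nil (.br .nil .nil .nil .nil
  .nil (.ov [(true, (g (d (f (a (g (c e)))))))])) .nil .nil) (.br .nil .nil .nil .nil .nil (.ba
  b_gdfag)) .nil (.ba b_gfag)) (.ba b_gag)) (.br (.br .nil .nil .nil .nil (.br (.br .nil .nil .nil
  (.br .nil .nil .nil .nil .nil (.ov [(true, (g (d (a (f (a (g (b e))))))))])) .nil .nil) .nil (.br
  (.br .nil .nil .nil (.br .nil .nil .nil .nil .nil (.ov [(true, (g (d (a (c (f (a (g (b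
  e)))))))))])) .nil .nil) .nil .nil (.br .nil .nil .nil .nil .nil (.ov [(true, (g (d (c (f (a (g (b
  e))))))))])) .nil .nil) (.br .nil .nil .nil .nil .nil (.ov [(true, (g (d (f (a (g (b e)))))))]))
  .nil (.ov [(true, (g (f (a (g (b e))))))])) (.ov [(true, (g (a (g (b e)))))])) .nil (.br (.br .nil
  .nil .nil (.br .nil .nil .nil .nil (.br .nil .nil .nil .nil .nil (.ov [(true, (g (f (d (a (c (g (b
  e))))))))])) (.ov [(true, (g (d (a (c (g (b e)))))))])) .nil .nil) .nil .nil .nil .nil .nil) .nil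
  .nil .nil) (.br (.br .nil .nil .nil (.br .nil .nil .nil .nil (.br .nil .nil (.br .nil .nil .nil
  (.br .nil .nil .nil .nil .nil (.ov [(true, (g (d (c (f (d (a (g (c e)))))))))])) .nil .nil) .nil
  .nil (.ov [(true, (g (f (d (a (g (c e)))))))])) (.ov [(true, (g (d (a (g (c e))))))])) .nil .nil)
  (.br (.br .nil .nil .nil .nil (.br .nil .nil (.br (.br .nil .nil .nil (.br .nil .nil .nil .nil
  .nil (.ov [(true, (g (d (a (c (f (a (b (g (c e))))))))))])) .nil .nil) .nil .nil (.br .nil .nil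
  .nil .nil .nil (.ov [(true, (g (d (c (f (a (b (g (c e)))))))))])) .nil .nil) (.br .nil .nil .nil
  .nil .nil (.ov [(true, (g (d (f (a (b (g (c e))))))))])) .nil (.ov [(true, (g (f (a (b (g (c
  e)))))))])) (.ov [(true, (g (a (b (g (c e))))))])) .nil .nil .nil .nil .nil) .nil (.br (.br .nil
  .nil .nil .nil (.br (.br .nil .nil .nil .nil .nil (.ov [(true, (g (a (f (d (c (g (b e))))))))]))
  (.br (.br .nil .nil .nil .nil .nil (.ov [(false, (g (a (f (a (d (c (g (c e)))))))))])) .nil .nil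
  .nil .nil .nil) .nil .nil .nil (.ov [(true, (g (f (a (d (g (c e)))))))])) (.ov [(true, (g (a (d (g
  (c e))))))])) (.br (.br .nil .nil .nil .nil (.br .nil .nil .nil .nil .nil (.ov [(true, (g (f (a (b
  (d (g (c e))))))))])) (.ov [(true, (g (a (b (d (g (c e)))))))])) .nil .nil .nil .nil .nil) .nil
  .nil (.br (.br .nil .nil .nil .nil .nil (.ov [(true, (g (a (f (d (g (c e)))))))])) (.br (.br .nil
  .nil .nil .nil .nil (.ov [(true, (g (a (b (f (d (g (c e))))))))])) .nil .nil .nil .nil .nil) .nil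
  .nil .nil (.ov [(true, (g (f (d (g (c e))))))])) (.ov [(true, (g (d (g (c e)))))])) .nil .nil)
  (.br (.br .nil .nil .nil .nil (.br .nil .nil .nil .nil .nil (.ba b_gfadg)) (.ba b_gadg)) (.br (.br
  .nil .nil .nil .nil (.br .nil .nil .nil .nil .nil (.ov [(true, (g (f (a (d (g (b e)))))))])) (.ov
  [(true, (g (a (d (g (b e))))))])) .nil .nil .nil .nil .nil) .nil .nil (.br (.br .nil .nil .nil
  .nil .nil (.ba b_gafdg)) (.br (.br .nil .nil .nil .nil .nil (.ov [(true, (g (a (f (d (g (b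
  e)))))))])) .nil .nil .nil .nil .nil) .nil .nil .nil (.ba b_gfdg)) (.ba b_gdg)) (.br (.br .nil
  .nil .nil (.br .nil .nil .nil .nil .nil (.ba b_gdafg)) .nil (.ba b_gafg)) (.br (.br .nil .nil .nil
  .nil .nil (.ov [(true, (g (a (f (g (b e))))))])) .nil (.br (.br .nil .nil .nil (.br .nil .nil .nil
  .nil .nil (.ov [(true, (g (d (a (c (f (g (b e))))))))])) .nil .nil) .nil .nil .nil .nil .nil) .nil
  .nil .nil) (.br (.br .nil .nil .nil (.br .nil .nil .nil .nil .nil (.ov [(true, (g (d (a (f (g (c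
  e)))))))])) .nil .nil) (.br (.br .nil .nil .nil .nil .nil (.ov [(true, (g (a (b (f (g (c
  e)))))))])) .nil .nil .nil .nil .nil) .nil (.br (.br .nil .nil .nil .nil .nil (.ov [(true, (g (a
  (d (f (g (c e)))))))])) (.br (.br .nil .nil .nil .nil .nil (.ov [(true, (g (a (b (d (f (g (c
  e))))))))])) .nil .nil .nil .nil .nil) .nil .nil .nil .nil) .nil .nil) (.br (.br .nil .nil .nil
  .nil .nil (.ba b_gadfg)) (.br (.br .nil .nil .nil .nil .nil (.ov [(true, (g (a (d (f (g (b
  e)))))))])) .nil .nil .nil .nil .nil) .nil .nil .nil (.ba b_gdfg)) .nil .nil) .nil)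

/-- The data of the graph. -/
noncomputable def D : GD where
  st := fun k => L.rec (motive := fun _ => S) S.s16 S.s15 S.s35 S.s36 S.s46 S.s26 k
  nx := fun _ s => s
  em := fun _ _ => Sg.no
  tab := fun k => L.rec (motive := fun _ => R) Ra Rb Rc Rd Rf Rg k

/-- The letters. -/
noncomputable def tc (k : L) : H387C.L := L.rec (motive := fun _ => H387C.L) .a16 .a15 .a35 .a36 .a46 .a26 k

def t0 : List Tm := [t true 1 (a (f (a (d (g (c (d (a (f (a (d (g (c (d e)))))))))))))), t false 1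
  (a (f (d (g (c (d (a (f (a (d (g (c (d (f e)))))))))))))), t true 1 (a (d (g (c (d (a (f (a (d (g
  (c (d (a (f e)))))))))))))), t true 1 (f (a (d (g (c (d (a (f (a (d (g (c (d (a e)))))))))))))), t
  false 1 (f (d (g (c (d (a (f (a (d (g (c (d (f (a e)))))))))))))), t true 1 (g (d (a (f (a (d (g
  (c (d (a (f (a (d (c e)))))))))))))), t true 1 (g (c (d (a (f (a (d (g (c (d (a (f (a (d
  e)))))))))))))), t false 1 (d (a (f (a (g (c (d (a (f (a (d (g (c (d e)))))))))))))), t true 1 (d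
  (a (f (a (d (g (c (d (a (f (a (d (g (c e)))))))))))))), t false 1 (d (g (c (d (a (f (a (d (g (a (f
  (a (c (d e)))))))))))))), t true 1 (d (g (c (d (a (f (a (d (g (c (d (a (f (a e)))))))))))))), t
  true 1 (c (d (a (f (a (d (g (c (d (a (f (a (d (g e)))))))))))))), t false 1 (d (f (d (a (g (b (a
  (d (f (d (a (g (b (a e)))))))))))))), t true 1 (d (f (a (g (b (a (d (f (d (a (g (b (a (f
  e)))))))))))))), t false 1 (d (a (g (b (a (d (f (d (a (g (b (a (d (f e)))))))))))))), t false 1 (f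
  (d (a (g (b (a (d (f (d (a (g (b (a (d e)))))))))))))), t true 1 (f (a (g (b (a (d (f (d (a (g (b
  (a (f (d e)))))))))))))), t false 1 (g (a (d (f (d (a (g (b (a (d (f (d (a (b e)))))))))))))), t
  false 1 (g (b (a (d (f (d (a (g (b (a (d (f (d (a e)))))))))))))), t true 1 (a (d (f (d (g (b (a
  (d (f (d (a (g (b (a e)))))))))))))), t false 1 (a (d (f (d (a (g (b (a (d (f (d (a (g (b
  e)))))))))))))), t true 1 (a (g (b (a (d (f (d (a (g (d (f (d (b (a e)))))))))))))), t false 1 (a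
  (g (b (a (d (f (d (a (g (b (a (d (f (d e)))))))))))))), t false 1 (b (a (d (f (d (a (g (b (a (d (f
  (d (a (g e))))))))))))))]

def s0 : List (Bool × W) := [(true, (g (a (b (c (f (a (b (d (c (g (f (a (d (f e))))))))))))))),
  (true, (g (a (b (f (a (b (d (a (c (g (f (a (d (f e))))))))))))))), (true, (g (a (b (c (f (a (d (g
  (d (a (f (d (c (b e))))))))))))))), (false, (g (d (a (c (f (a (b (c (d (f (a (g (d (d
  e))))))))))))))), (true, (g (a (f (d (a (c (b (g (f (d (a (c (b (f e))))))))))))))), (true, (g (d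
  (a (c (b (f (a (g (f (d (a (c (b (f e))))))))))))))), (true, (g (f (a (d (a (c (b (f (g (d (a (c
  (b (a e))))))))))))))), (false, (g (a (f (a (b (g (a (d (a (c (f (a (d (f e)))))))))))))))]

end H387E.X2
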