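import Pool.Agent.helper387_fk.Trie

/-!
Rewriting of star polynomials and their skew derivations.
-/

namespace H387FK

/-- Polynomials in star words as trees branching over the last letter. -/
inductive T : Type
  | z | n (p m : Nat) (a b c d f : T)

/-- Ordered pairs of distinct vertices. -/
inductive S : Type
  | s12 | s13 | s14 | s15 | s16 | s21 | s23 | s24 | s25 | s26 | s31 | s32 | s34 | s35 | s36 | s41 | s42 | s43 | s45 | s46 | s51 | s52 | s53 | s54 | s56 | s61 | s62 | s63 | s64 | s65

/-- Result of a removal test. -/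
inductive Sg : Type
  | no | po | ne

/-- The state after passing the letter a. -/
noncomputable def nxa (s : S) : S := S.rec (motive := fun _ => S) S.s62 S.s63 S.s64 S.s65 S.s61 S.s26 S.s23 S.s24 S.s25 S.s21 S.s36 S.s32 S.s34 S.s35 S.s31 S.s46 S.s42 S.s43 S.s45 S.s41 S.s56 S.s52 S.s53 S.s54 S.s51 S.s16 S.s12 S.s13 S.s14 S.s15 s

/-- The removal test for the letter a. -/
noncomputable def ema (s : S) : Sg := S.rec (motive := fun _ => Sg) Sg.no Sg.no Sg.no Sg.no Sg.po Sg.no Sg.no Sg.no Sg.no Sg.no Sg.no Sg.no Sg.no Sg.no Sg.no Sg.no Sg.no Sg.no Sg.no Sg.no Sg.no Sg.no Sg.no Sg.no Sg.no Sg.ne Sg.no Sg.no Sg.no Sg.no s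

/-- The state after passing the letter b. -/
noncomputable def nxb (s : S) : S := S.rec (motive := fun _ => S) S.s16 S.s13 S.s14 S.s15 S.s12 S.s61 S.s63 S.s64 S.s65 S.s62 S.s31 S.s36 S.s34 S.s35 S.s32 S.s41 S.s46 S.s43 S.s45 S.s42 S.s51 S.s56 S.s53 S.s54 S.s52 S.s21 S.s26 S.s23 S.s24 S.s25 s

/-- The removal test for the letter b. -/
noncomputable def emb (s : S) : Sg := S.rec (motive := fun _ => Sg) Sg.no Sg.no Sg.no Sg.no Sg.no Sg.no Sg.no Sg.no Sg.no Sg.po Sg.no Sg.no Sg.no Sg.no Sg.no Sg.no Sg.no Sg.no Sg.no Sg.no Sg.no Sg.no Sg.no Sg.no Sg.no Sg.no Sg.ne Sg.no Sg.no Sg.no s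

/-- The state after passing the letter c. -/
noncomputable def nxc (s : S) : S := S.rec (motive := fun _ => S) S.s12 S.s16 S.s14 S.s15 S.s13 S.s21 S.s26 S.s24 S.s25 S.s23 S.s61 S.s62 S.s64 S.s65 S.s63 S.s41 S.s42 S.s46 S.s45 S.s43 S.s51 S.s52 S.s56 S.s54 S.s53 S.s31 S.s32 S.s36 S.s34 S.s35 s

/-- The removal test for the letter c. -/
noncomputable def emc (s : S) : Sg := S.rec (motive := fun _ => Sg) Sg.no Sg.no Sg.no Sg.no Sg.no Sg.no Sg.no Sg.no Sg.no Sg.no Sg.no Sg.no Sg.no Sg.no Sg.po Sg.no Sg.no Sg.no Sg.no Sg.no Sg.no Sg.no Sg.no Sg.no Sg.no Sg.no Sg.no Sg.ne Sg.no Sg.no s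

/-- The state after passing the letter d. -/
noncomputable def nxd (s : S) : S := S.rec (motive := fun _ => S) S.s12 S.s13 S.s16 S.s15 S.s14 S.s21 S.s23 S.s26 S.s25 S.s24 S.s31 S.s32 S.s36 S.s35 S.s34 S.s61 S.s62 S.s63 S.s65 S.s64 S.s51 S.s52 S.s53 S.s56 S.s54 S.s41 S.s42 S.s43 S.s46 S.s45 s

/-- The removal test for the letter d. -/
noncomputable def emd (s : S) : Sg := S.rec (motive := fun _ => Sg) Sg.no Sg.no Sg.no Sg.no Sg.no Sg.no Sg.no Sg.no Sg.no Sg.no Sg.no Sg.no Sg.no Sg.no Sg.no Sg.no Sg.no Sg.no Sg.no Sg.po Sg.no Sg.no Sg.no Sg.no Sg.no Sg.no Sg.no Sg.no Sg.ne Sg.no s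

/-- The state after passing the letter f. -/
noncomputable def nxf (s : S) : S := S.rec (motive := fun _ => S) S.s12 S.s13 S.s14 S.s16 S.s15 S.s21 S.s23 S.s24 S.s26 S.s25 S.s31 S.s32 S.s34 S.s36 S.s35 S.s41 S.s42 S.s43 S.s46 S.s45 S.s61 S.s62 S.s63 S.s64 S.s65 S.s51 S.s52 S.s53 S.s54 S.s56 s

/-- The removal test for the letter f. -/
noncomputable def emf (s : S) : Sg := S.rec (motive := fun _ => Sg) Sg.no Sg.no Sg.no Sg.no Sg.no Sg.no Sg.no Sg.no Sg.no Sg.no Sg.no Sg.no Sg.no Sg.no Sg.no Sg.no Sg.no Sg.no Sg.no Sg.no Sg.no Sg.no Sg.no Sg.no Sg.po Sg.no Sg.no Sg.no Sg.no Sg.ne s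

noncomputable def bnot (s : Bool) : Bool := Bool.rec (motive := fun _ => Bool) true false s
noncomputable def bxor (s t : Bool) : Bool := Bool.rec (motive := fun _ => Bool) t (bnot t) s
noncomputable def band (s t : Bool) : Bool := Bool.rec (motive := fun _ => Bool) false t s
noncomputable def bor (s t : Bool) : Bool := Bool.rec (motive := fun _ => Bool) t true s

/-- Evaluate the head of a tree before it is passed on. -/
noncomputable def fo (t : T) (k : T → T) : T :=
  T.rec (motive := fun _ => T) (k T.z) (fun p m a b c d f _ _ _ _ _ => k (T.n p m a b c d f)) t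

noncomputable def lf (s : Bool) (q : Nat) : T :=
  Bool.rec (motive := fun _ => T) (T.n q 0 T.z T.z T.z T.z T.z) (T.n 0 q T.z T.z T.z T.z T.z) s
noncomputable def bump (s : Bool) (q p m : Nat) (a b c d f : T) : T :=
  Bool.rec (motive := fun _ => T) (T.n (Nat.add p q) m a b c d f) (T.n p (Nat.add m q) a b c d f) s

/-- Insert a term into a tree. -/
noncomputable def ins (s : Bool) (q : Nat) (w : W) : T → T :=
  W.rec (motive := fun _ => T → T)
    (fun t => T.rec (motive := fun _ => T) (lf s q) (fun p m a b c d f _ _ _ _ _ => bump s q p m a b c d f) t)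
    (fun _ ih t => T.rec (motive := fun _ => T) (fo (ih T.z) (fun r => T.n 0 0 r T.z T.z T.z T.z))
      (fun p m a b c d f _ _ _ _ _ => fo (ih a) (fun r => T.n p m r b c d f)) t)
    (fun _ ih t => T.rec (motive := fun _ => T) (fo (ih T.z) (fun r => T.n 0 0 T.z r T.z T.z T.z))
      (fun p m a b c d f _ _ _ _ _ => fo (ih b) (fun r => T.n p m a r c d f)) t)
    (fun _ ih t => T.rec (motive := fun _ => T) (fo (ih T.z) (fun r => T.n 0 0 T.z T.z r T.z T.z))
      (fun p m a b c d f _ _ _ _ _ => fo (ih c) (fun r => T.n p m a b r d f)) t)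
    (fun _ ih t => T.rec (motive := fun _ => T) (fo (ih T.z) (fun r => T.n 0 0 T.z T.z T.z r T.z))
      (fun p m a b c d f _ _ _ _ _ => fo (ih d) (fun r => T.n p m a b c r f)) t)
    (fun _ ih t => T.rec (motive := fun _ => T) (fo (ih T.z) (fun r => T.n 0 0 T.z T.z T.z T.z r))
      (fun p m a b c d f _ _ _ _ _ => fo (ih f) (fun r => T.n p m a b c d r)) t)
    w

/-- `app v w`: put `v` in front of `w`. -/
noncomputable def app (v w : W) : W :=
  W.rec (motive := fun _ => W) w (fun _ ih => W.a ih) (fun _ ih => W.b ih) (fun _ ih => W.c ih) (fun _ ih => W.d ih) (fun _ ih => W.f ih) v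

/-- `rapp v w`: put the reverse of `v` in front of `w`. -/
noncomputable def rapp (v : W) : W → W :=
  W.rec (motive := fun _ => W → W) (fun w => w) (fun _ ih w => ih (W.a w)) (fun _ ih w => ih (W.b w)) (fun _ ih w => ih (W.c w)) (fun _ ih w => ih (W.d w)) (fun _ ih w => ih (W.f w)) v

/-- Look for a rule at the head of a word. -/
noncomputable def find (r : R) : W → (List Tm → W → T) → T → T :=
  R.rec (motive := fun _ => W → (List Tm → W → T) → T → T)
    (fun _ _ x => x)
    (fun p w g _ => g p w)
    (fun _ _ _ _ _ i1 i2 i3 i4 i5 w g x => W.rec (motive := fun _ => T) x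
      (fun w _ => i1 w g x) (fun w _ => i2 w g x) (fun w _ => i3 w g x) (fun w _ => i4 w g x) (fun w _ => i5 w g x) w) r

/-- Replace by the terms of a rule. -/
noncomputable def fold (p : List Tm) (h : W → W → Bool → Nat → T → T) (pre todo : W) (s : Bool) (q : Nat) : T → T :=
  List.rec (motive := fun _ => T → T) (fun acc => acc)
    (fun tm _ ih acc => Tm.rec (motive := fun _ => T) (fun s' q' w' => fo (h pre (app w' todo) (bxor s s') (Nat.mul q q') acc) ih) tm) p

/-- Normal form of `pre * todo`, added to `acc`. -/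
noncomputable def nf (fuel : Nat) : W → W → Bool → Nat → T → T :=
  Nat.rec (motive := fun _ => W → W → Bool → Nat → T → T)
    (fun pre todo s q acc => ins s q (rapp todo pre) acc)
    (fun _ ih pre todo s q acc => W.rec (motive := fun _ => T) (ins s q pre acc)
      (fun w _ => find R1 pre (fun p pre' => fold p ih pre' w s q acc) (ih (W.a pre) w s q acc))
      (fun w _ => find R2 pre (fun p pre' => fold p ih pre' w s q acc) (ih (W.b pre) w s q acc))
      (fun w _ => find R3 pre (fun p pre' => fold p ih pre' w s q acc) (ih (W.c pre) w s q acc))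
      (fun w _ => find R4 pre (fun p pre' => fold p ih pre' w s q acc) (ih (W.d pre) w s q acc))
      (fun w _ => find R5 pre (fun p pre' => fold p ih pre' w s q acc) (ih (W.f pre) w s q acc))
      todo) fuel

/-- The skew derivation of a word times `todo`, added to `acc`. -/
noncomputable def Dw (w : W) : S → W → Bool → Nat → T → T :=
  W.rec (motive := fun _ => S → W → Bool → Nat → T → T) (fun _ _ _ _ acc => acc)
    (fun w ih st todo s q acc => Sg.rec (motive := fun _ => T) (ih (nxa st) (W.a todo) s q acc)
      (fo (nf 200 w todo s q acc) (ih (nxa st) (W.a todo) s q))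
      (fo (nf 200 w todo (bnot s) q acc) (ih (nxa st) (W.a todo) s q)) (ema st))
    (fun w ih st todo s q acc => Sg.rec (motive := fun _ => T) (ih (nxb st) (W.b todo) s q acc)
      (fo (nf 200 w todo s q acc) (ih (nxb st) (W.b todo) s q))
      (fo (nf 200 w todo (bnot s) q acc) (ih (nxb st) (W.b todo) s q)) (emb st))
    (fun w ih st todo s q acc => Sg.rec (motive := fun _ => T) (ih (nxc st) (W.c todo) s q acc)
      (fo (nf 200 w todo s q acc) (ih (nxc st) (W.c todo) s q))
      (fo (nf 200 w todo (bnot s) q acc) (ih (nxc st) (W.c todo) s q)) (emc st))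
    (fun w ih st todo s q acc => Sg.rec (motive := fun _ => T) (ih (nxd st) (W.d todo) s q acc)
      (fo (nf 200 w todo s q acc) (ih (nxd st) (W.d todo) s q))
      (fo (nf 200 w todo (bnot s) q acc) (ih (nxd st) (W.d todo) s q)) (emd st))
    (fun w ih st todo s q acc => Sg.rec (motive := fun _ => T) (ih (nxf st) (W.f todo) s q acc)
      (fo (nf 200 w todo s q acc) (ih (nxf st) (W.f todo) s q))
      (fo (nf 200 w todo (bnot s) q acc) (ih (nxf st) (W.f todo) s q)) (emf st))
    w

/-- The skew derivation of a polynomial, added to `acc`. -/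
noncomputable def DP (st : S) (sg : Bool) (p : List Tm) : T → T :=
  List.rec (motive := fun _ => T → T) (fun acc => acc)
    (fun tm _ ih acc => Tm.rec (motive := fun _ => T) (fun s q w => fo (Dw w st W.e (bxor sg s) q acc) ih) tm) p

noncomputable def isz (t : T) : Bool :=
  T.rec (motive := fun _ => Bool) true (fun p m _ _ _ _ _ a b c d f => band (Nat.beq p m) (band a (band b (band c (band d f))))) t

noncomputable def catT (p q : List Tm) : List Tm := List.rec (motive := fun _ => List Tm) q (fun t _ ih => t :: ih) p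
noncomputable def consa (p : List Tm) : List Tm := List.rec (motive := fun _ => List Tm) [] (fun tm _ ih => Tm.rec (motive := fun _ => List Tm) (fun s q w => Tm.t s q (W.a w) :: ih) tm) p
noncomputable def consb (p : List Tm) : List Tm := List.rec (motive := fun _ => List Tm) [] (fun tm _ ih => Tm.rec (motive := fun _ => List Tm) (fun s q w => Tm.t s q (W.b w) :: ih) tm) p
noncomputable def consc (p : List Tm) : List Tm := List.rec (motive := fun _ => List Tm) [] (fun tm _ ih => Tm.rec (motive := fun _ => List Tm) (fun s q w => Tm.t s q (W.c w) :: ih) tm) p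
noncomputable def consd (p : List Tm) : List Tm := List.rec (motive := fun _ => List Tm) [] (fun tm _ ih => Tm.rec (motive := fun _ => List Tm) (fun s q w => Tm.t s q (W.d w) :: ih) tm) p
noncomputable def consf (p : List Tm) : List Tm := List.rec (motive := fun _ => List Tm) [] (fun tm _ ih => Tm.rec (motive := fun _ => List Tm) (fun s q w => Tm.t s q (W.f w) :: ih) tm) p
noncomputable def tml (p m : Nat) (r : List Tm) : List Tm :=
  Bool.rec (motive := fun _ => List Tm) (Bool.rec (motive := fun _ => List Tm) (Tm.t false (Nat.sub p m) W.e :: r) (Tm.t true (Nat.sub m p) W.e :: r) (Nat.ble p m)) r (Nat.beq p m)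
/-- The list of terms of a tree. -/
noncomputable def toL (t : T) : List Tm :=
  T.rec (motive := fun _ => List Tm) [] (fun p m _ _ _ _ _ a b c d f => tml p m (catT (consa a) (catT (consb b) (catT (consc c) (catT (consd d) (consf f)))))) t

noncomputable def root0 (t : T) : Bool := T.rec (motive := fun _ => Bool) true (fun p m _ _ _ _ _ _ _ _ _ _ => Nat.beq p m) t

/-- Test whether all five star derivations of a polynomial satisfy a test. -/
noncomputable def all5 (g : T → Bool) (p : List Tm) : Bool :=
  band (g (DP S.s16 false p T.z)) (band (g (DP S.s26 false p T.z)) (band (g (DP S.s36 false p T.z)) (band (g (DP S.s46 false p T.z)) (g (DP S.s56 false p T.z)))))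

/-- Test whether a tree lies in the radical. -/
noncomputable def radT (fuel : Nat) : T → Bool :=
  Nat.rec (motive := fun _ => T → Bool) isz (fun _ ih t => bor (isz t) (band (root0 t) (all5 ih (toL t)))) fuel
noncomputable def DPL (st : S) (sg : Bool) (l : List (List Tm)) : T → T :=
  List.rec (motive := fun _ => T → T) (fun acc => acc) (fun p _ ih acc => fo (DP st sg p acc) ih) l

noncomputable def revP (p : List Tm) : List Tm :=
  List.rec (motive := fun _ => List Tm) [] (fun tm _ ih => Tm.rec (motive := fun _ => List Tm) (fun s q w => Tm.t s q (rapp w W.e) :: ih) tm) p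

noncomputable def isE (w : W) : Bool := W.rec (motive := fun _ => Bool) true (fun _ _ => false) (fun _ _ => false) (fun _ _ => false) (fun _ _ => false) (fun _ _ => false) w

/-- Test whether two words have the same length. -/
noncomputable def eqlen (v : W) : W → Bool :=
  W.rec (motive := fun _ => W → Bool) isE
    (fun _ ih w => W.rec (motive := fun _ => Bool) false (fun w _ => ih w) (fun w _ => ih w) (fun w _ => ih w) (fun w _ => ih w) (fun w _ => ih w) w)
    (fun _ ih w => W.rec (motive := fun _ => Bool) false (fun w _ => ih w) (fun w _ => ih w) (fun w _ => ih w) (fun w _ => ih w) (fun w _ => ih w) w)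
    (fun _ ih w => W.rec (motive := fun _ => Bool) false (fun w _ => ih w) (fun w _ => ih w) (fun w _ => ih w) (fun w _ => ih w) (fun w _ => ih w) w)
    (fun _ ih w => W.rec (motive := fun _ => Bool) false (fun w _ => ih w) (fun w _ => ih w) (fun w _ => ih w) (fun w _ => ih w) (fun w _ => ih w) w)
    (fun _ ih w => W.rec (motive := fun _ => Bool) false (fun w _ => ih w) (fun w _ => ih w) (fun w _ => ih w) (fun w _ => ih w) (fun w _ => ih w) w)
    v

noncomputable def hom (u : W) (p : List Tm) : Bool :=
  List.rec (motive := fun _ => Bool) true (fun tm _ ih => Tm.rec (motive := fun _ => Bool) (fun _ _ w => band (eqlen u w) ih) tm) p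

noncomputable def chk1 (st : S) (u : W) (p : List Tm) : Bool :=
  isz (DP st true (revP p) (Dw u st W.e false 1 T.z))

/-- The test for one rule; `u` is the word with its last letter outermost. -/
noncomputable def chk (u : W) (p : List Tm) : Bool :=
  band (hom u p) (band (chk1 S.s16 u p) (band (chk1 S.s26 u p) (band (chk1 S.s36 u p) (band (chk1 S.s46 u p) (chk1 S.s56 u p)))))

/-- The test for all rules of a table. -/
noncomputable def chkR (r : R) : W → Bool :=
  R.rec (motive := fun _ => W → Bool) (fun _ => true) (fun p g => chk (rapp g W.e) p)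
    (fun _ _ _ _ _ i1 i2 i3 i4 i5 g => band (i1 (W.a g)) (band (i2 (W.b g)) (band (i3 (W.c g)) (band (i4 (W.d g)) (i5 (W.f g)))))) r

/-- Evaluate the pairing of a word with a tree. -/
noncomputable def pr (w : W) : T → T :=
  W.rec (motive := fun _ => T → T) (fun t => t)
    (fun _ ih t => fo (DP S.s16 false (toL t) T.z) ih)
    (fun _ ih t => fo (DP S.s26 false (toL t) T.z) ih)
    (fun _ ih t => fo (DP S.s36 false (toL t) T.z) ih)
    (fun _ ih t => fo (DP S.s46 false (toL t) T.z) ih)
    (fun _ ih t => fo (DP S.s56 false (toL t) T.z) ih)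
    w

/-- Insert the terms of a list. -/
noncomputable def insL (p : List Tm) : T → T :=
  List.rec (motive := fun _ => T → T) (fun acc => acc)
    (fun tm _ ih acc => Tm.rec (motive := fun _ => T) (fun s q w => fo (ins s q w acc) ih) tm) p

noncomputable def insLL (l : List (List Tm)) : T → T :=
  List.rec (motive := fun _ => T → T) (fun acc => acc) (fun p _ ih acc => fo (insL p acc) ih) l

/-- Add a multiple of the constant term of `r` to `acc`. -/
noncomputable def addr (s : Bool) (q : Nat) (r acc : T) : T :=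
  T.rec (motive := fun _ => T) acc (fun p m _ _ _ _ _ _ _ _ _ _ => ins s (Nat.mul q p) W.e (ins (bnot s) (Nat.mul q m) W.e acc)) r

/-- Evaluate a functional which is supported on words with first letter 5. -/
noncomputable def ph (c : T) (p : List Tm) : T → T :=
  List.rec (motive := fun _ => T → T) (fun acc => acc)
    (fun tm _ ih acc => Tm.rec (motive := fun _ => T) (fun s q w => fo
      (W.rec (motive := fun _ => T) acc (fun _ _ => acc) (fun _ _ => acc) (fun _ _ => acc) (fun _ _ => acc)
        (fun w _ => addr s q (pr w c) acc) w) ih) tm) p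

noncomputable def nzroot (t : T) : Bool := T.rec (motive := fun _ => Bool) false (fun p m _ _ _ _ _ _ _ _ _ _ => bnot (Nat.beq p m)) t



end H387FK
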