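import Pool.Agent.helper387_fk.Basic

/-!
The braided derivations and the canonical form on the Fomin-Kirillov algebra.
-/

namespace H387FK

attribute [local irreducible] instRing instAlg

variable {n : ℕ}

theorem kap_smul_disj {a b i j k l : Fin n} (hik : i ≠ k) (hil : i ≠ l) (hjk : j ≠ k) (hjl : j ≠ l)
    (v : FK n) : kap a b k l • (x (Equiv.swap a b i) (Equiv.swap a b j) * v)
      = kap a b k l • (x i j * v) := by
  by_cases h : kap a b k l = 0
  · simp [h]
  · rcases kap_ne h with ⟨rfl, rfl⟩ | ⟨rfl, rfl⟩
    · rw [Equiv.swap_apply_of_ne_of_ne hik hil, Equiv.swap_apply_of_ne_of_ne hjk hjl]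
    · rw [Equiv.swap_apply_of_ne_of_ne hil hik, Equiv.swap_apply_of_ne_of_ne hjl hjk]

theorem kap_smul_tri {a b i j k : Fin n} (hij : i ≠ j) (hik : i ≠ k) (v : FK n) :
    kap a b j k • (x (Equiv.swap a b i) (Equiv.swap a b j) * v) = - (kap a b j k • (x k i * v)) := by
  by_cases h : kap a b j k = 0
  · simp [h]
  · rcases kap_ne h with ⟨rfl, rfl⟩ | ⟨rfl, rfl⟩
    · rw [Equiv.swap_apply_of_ne_of_ne hij hik, Equiv.swap_apply_left, x_anti i k]
      simp
    · rw [Equiv.swap_apply_of_ne_of_ne hik hij, Equiv.swap_apply_right, x_anti i k]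
      simp

/-- The operator on pairs which encodes the twisted Leibniz rule. -/
noncomputable def dgen (a b i j : Fin n) : Module.End ℚ (FK n × FK n) :=
  LinearMap.prod
    ((LinearMap.mulLeft ℚ (x (Equiv.swap a b i) (Equiv.swap a b j))).comp
        (LinearMap.fst ℚ (FK n) (FK n)) + kap a b i j • LinearMap.snd ℚ (FK n) (FK n))
    ((LinearMap.mulLeft ℚ (x i j)).comp (LinearMap.snd ℚ (FK n) (FK n)))

theorem dgen_apply (a b i j : Fin n) (u v : FK n) :
    dgen a b i j (u, v) =
      (x (Equiv.swap a b i) (Equiv.swap a b j) * u + kap a b i j • v, x i j * v) := rfl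

theorem dgen_isRep (a b : Fin n) : IsRep (dgen a b) where
  anti i j := by
    refine LinearMap.ext ?_
    rintro ⟨u, v⟩
    rw [LinearMap.neg_apply, dgen_apply, dgen_apply, x_anti i j, kap_anti a b i j,
      x_anti (Equiv.swap a b i) (Equiv.swap a b j)]
    simp only [neg_mul, neg_smul, Prod.neg_mk, neg_add_rev]
    rw [add_comm]
  sq i j h := by
    refine LinearMap.ext ?_
    rintro ⟨u, v⟩
    rw [Module.End.mul_apply, dgen_apply, dgen_apply]
    have h1 := (x_isRep n).sq (Equiv.swap a b i) (Equiv.swap a b j) (by simpa using h)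
    have h2 := (x_isRep n).sq i j h
    have e1 : x (Equiv.swap a b i) (Equiv.swap a b j) *
        (x (Equiv.swap a b i) (Equiv.swap a b j) * u + kap a b i j • v)
        + kap a b i j • (x i j * v) = 0 := by
      rw [mul_add, ← mul_assoc, h1, zero_mul, zero_add, mul_smul_comm, kap_smul_x]
      simp
    have e2 : x i j * (x i j * v) = 0 := by rw [← mul_assoc, h2, zero_mul]
    rw [e1, e2]
    rfl
  comm i j k l h1 h2 h3 h4 h5 h6 := by
    refine LinearMap.ext ?_
    rintro ⟨u, v⟩
    rw [Module.End.mul_apply, Module.End.mul_apply, dgen_apply, dgen_apply, dgen_apply, dgen_apply]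
    have hc := (x_isRep n).comm (Equiv.swap a b i) (Equiv.swap a b j) (Equiv.swap a b k)
      (Equiv.swap a b l) (by simpa using h1) (by simpa using h2) (by simpa using h3)
      (by simpa using h4) (by simpa using h5) (by simpa using h6)
    have hc' := (x_isRep n).comm i j k l h1 h2 h3 h4 h5 h6
    refine Prod.ext ?_ ?_
    · simp only [mul_add, mul_smul_comm]
      rw [kap_smul_disj h2 h3 h4 h5, kap_smul_disj h2.symm h4.symm h3.symm h5.symm, ← mul_assoc, hc,
        mul_assoc]
      abel
    · show x i j * (x k l * v) = x k l * (x i j * v)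
      rw [← mul_assoc, hc', mul_assoc]
  tri i j k h1 h2 h3 := by
    refine LinearMap.ext ?_
    rintro ⟨u, v⟩
    simp only [LinearMap.add_apply, Module.End.mul_apply, dgen_apply]
    have ht := (x_isRep n).tri (Equiv.swap a b i) (Equiv.swap a b j) (Equiv.swap a b k)
      (by simpa using h1) (by simpa using h2) (by simpa using h3)
    have ht' := (x_isRep n).tri i j k h1 h2 h3
    have ht1 := congrArg (fun z => z * u) ht
    have ht2 := congrArg (fun z => z * v) ht'
    simp only [add_mul, zero_mul] at ht1 ht2
    refine Prod.ext ?_ ?_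
    · simp only [Prod.mk_add_mk, mul_add, mul_smul_comm]
      rw [kap_smul_tri h1 h3, kap_smul_tri h2 h1.symm, kap_smul_tri h3.symm h2.symm]
      simp only [← mul_assoc]
      show _ = (0 : FK n)
      rw [← ht1]
      abel
    · simp only [Prod.mk_add_mk, ← mul_assoc]
      exact ht2

/-- The twisted derivation `Δ_ab`. -/
noncomputable def dl (a b : Fin n) : FK n →ₗ[ℚ] FK n :=
  (LinearMap.fst ℚ (FK n) (FK n)).comp
    ((LinearMap.applyₗ (R := ℚ) ((0, 1) : FK n × FK n)).comp (lift (dgen a b) (dgen_isRep a b)).toLinearMap)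

theorem dl_def (a b : Fin n) (u : FK n) : dl a b u = (lift (dgen a b) (dgen_isRep a b) u (0, 1)).1 := rfl

theorem dmat_snd (a b : Fin n) (u : FK n) : (lift (dgen a b) (dgen_isRep a b) u (0, 1)).2 = u := by
  refine ind_left (p := fun u => (lift (dgen a b) (dgen_isRep a b) u (0, 1)).2 = u) ?_ ?_ ?_ ?_ u
  · simp
  · intro u v hu hv; simp only [map_add, LinearMap.add_apply, Prod.snd_add, hu, hv]
  · intro c u hu; simp only [map_smul, LinearMap.smul_apply, Prod.smul_snd, hu]
  · intro i j u hu
    rw [map_mul, lift_x, Module.End.mul_apply]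
    show x i j * (lift (dgen a b) (dgen_isRep a b) u (0, 1)).2 = _
    rw [hu]

theorem dl_one (a b : Fin n) : dl a b (1 : FK n) = 0 := by
  rw [dl_def, map_one]
  rfl

theorem dl_x_mul (a b i j : Fin n) (u : FK n) : dl a b (x i j * u) =
    x (Equiv.swap a b i) (Equiv.swap a b j) * dl a b u + kap a b i j • u := by
  rw [dl_def, map_mul, lift_x, Module.End.mul_apply]
  show x (Equiv.swap a b i) (Equiv.swap a b j) * (lift (dgen a b) (dgen_isRep a b) u (0, 1)).1
    + kap a b i j • (lift (dgen a b) (dgen_isRep a b) u (0, 1)).2 = _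
  rw [dmat_snd]
  rfl

theorem dl_x (a b i j : Fin n) : dl a b (x i j : FK n) = kap a b i j • 1 := by
  have := dl_x_mul a b i j (1 : FK n)
  rwa [mul_one, dl_one, mul_zero, zero_add] at this

theorem dl_mul (a b : Fin n) (u v : FK n) :
    dl a b (u * v) = dl a b u * v + act (Equiv.swap a b) u * dl a b v := by
  refine ind_left (p := fun u => dl a b (u * v) = dl a b u * v + act (Equiv.swap a b) u * dl a b v)
    ?_ ?_ ?_ ?_ u
  · simp [dl_one]
  · intro u w hu hw
    simp only [add_mul, map_add, hu, hw]
    abel
  · intro c u hu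
    simp only [smul_mul_assoc, map_smul, hu, smul_add]
  · intro i j u hu
    rw [mul_assoc, dl_x_mul, hu, dl_x_mul, map_mul, act_x]
    simp only [mul_add, add_mul, mul_assoc, smul_mul_assoc]
    abel

theorem dl_mul_x (a b i j : Fin n) (u : FK n) :
    dl a b (u * x i j) = dl a b u * x i j + kap a b i j • act (Equiv.swap a b) u := by
  rw [dl_mul, dl_x, mul_smul_comm, mul_one]

theorem dl_act (w : Equiv.Perm (Fin n)) (a b : Fin n) (u : FK n) :
    dl (w a) (w b) (act w u) = act w (dl a b u) := by
  refine ind_left (p := fun u => dl (w a) (w b) (act w u) = act w (dl a b u)) ?_ ?_ ?_ ?_ u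
  · simp [dl_one]
  · intro u v hu hv; simp only [map_add, hu, hv]
  · intro c u hu; simp only [map_smul, hu]
  · intro i j u hu
    rw [map_mul, act_x, dl_x_mul, hu, dl_x_mul, kap_perm, map_add, map_mul, act_x, map_smul,
      Equiv.swap_apply_apply, Equiv.Perm.mul_apply, Equiv.Perm.mul_apply, Equiv.Perm.mul_apply,
      Equiv.Perm.mul_apply]
    simp

theorem dl_isRep : IsRep (dl : Fin n → Fin n → Module.End ℚ (FK n)) where
  anti a b := by
    refine LinearMap.ext ?_
    intro u
    rw [LinearMap.neg_apply]
    refine ind_left (p := fun u => dl a b u = - dl b a u) ?_ ?_ ?_ ?_ u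
    · simp [dl_one]
    · intro u v hu hv; simp only [map_add, hu, hv]; abel
    · intro c u hu; simp only [map_smul, hu, smul_neg]
    · intro i j u hu
      rw [dl_x_mul, dl_x_mul, hu, kap_anti' a b, Equiv.swap_comm a b]
      simp only [mul_neg, neg_smul, neg_add_rev]
      rw [add_comm]
  sq a b hab := by
    refine LinearMap.ext ?_
    intro u
    rw [Module.End.mul_apply, LinearMap.zero_apply]
    refine ind_left (p := fun u => dl a b (dl a b u) = 0) ?_ ?_ ?_ ?_ u
    · simp [dl_one]
    · intro u v hu hv; simp only [map_add, hu, hv, add_zero]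
    · intro c u hu; simp only [map_smul, hu, smul_zero]
    · intro i j u hu
      rw [dl_x_mul, map_add, map_smul, dl_x_mul, hu, kap_swap]
      simp
  comm a b c d h1 h2 h3 h4 h5 h6 := by
    refine LinearMap.ext ?_
    intro u
    rw [Module.End.mul_apply, Module.End.mul_apply]
    refine ind_left (p := fun u => dl a b (dl c d u) = dl c d (dl a b u)) ?_ ?_ ?_ ?_ u
    · simp [dl_one]
    · intro u v hu hv; simp only [map_add, hu, hv]
    · intro c u hu; simp only [map_smul, hu]
    · intro i j u hu
      rw [dl_x_mul, dl_x_mul, map_add, map_add, map_smul, map_smul, dl_x_mul, dl_x_mul, hu]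
      have e1 : kap a b (Equiv.swap c d i) (Equiv.swap c d j) = kap a b i j := by
        have := kap_perm (Equiv.swap c d) a b i j
        rwa [Equiv.swap_apply_of_ne_of_ne h2 h3, Equiv.swap_apply_of_ne_of_ne h4 h5] at this
      have e2 : kap c d (Equiv.swap a b i) (Equiv.swap a b j) = kap c d i j := by
        have := kap_perm (Equiv.swap a b) c d i j
        rwa [Equiv.swap_apply_of_ne_of_ne h2.symm h4.symm,
          Equiv.swap_apply_of_ne_of_ne h3.symm h5.symm] at this
      have e3 : ∀ i, Equiv.swap a b (Equiv.swap c d i) = Equiv.swap c d (Equiv.swap a b i) := by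
        intro i
        simp only [Equiv.swap_apply_def]
        split_ifs <;> simp_all
      rw [e1, e2, e3, e3]
      abel
  tri a b c hab hbc hac := by
    refine LinearMap.ext ?_
    intro u
    simp only [LinearMap.add_apply, Module.End.mul_apply, LinearMap.zero_apply]
    refine ind_left (p := fun u => dl a b (dl b c u) + dl b c (dl c a u) + dl c a (dl a b u) = 0)
      ?_ ?_ ?_ ?_ u
    · simp [dl_one]
    · intro u v hu hv
      simp only [map_add]
      calc _ = (dl a b (dl b c u) + dl b c (dl c a u) + dl c a (dl a b u)) +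
            (dl a b (dl b c v) + dl b c (dl c a v) + dl c a (dl a b v)) := by abel
        _ = 0 := by rw [hu, hv, add_zero]
    · intro c' u hu; simp only [map_smul, ← smul_add, hu, smul_zero]
    · intro i j u hu
      have k1 : ∀ i j, kap a b (Equiv.swap b c i) (Equiv.swap b c j) = - kap c a i j := by
        intro i j
        have := kap_perm (Equiv.swap b c) a c i j
        rw [Equiv.swap_apply_of_ne_of_ne hab hac, Equiv.swap_apply_right] at this
        rw [this, kap_anti']
      have k2 : ∀ i j, kap b c (Equiv.swap c a i) (Equiv.swap c a j) = - kap a b i j := by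
        intro i j
        have := kap_perm (Equiv.swap c a) b a i j
        rw [Equiv.swap_apply_of_ne_of_ne hbc hab.symm, Equiv.swap_apply_right] at this
        rw [this, kap_anti']
      have k3 : ∀ i j, kap c a (Equiv.swap a b i) (Equiv.swap a b j) = - kap b c i j := by
        intro i j
        have := kap_perm (Equiv.swap a b) c b i j
        rw [Equiv.swap_apply_of_ne_of_ne hac.symm hbc.symm, Equiv.swap_apply_right] at this
        rw [this, kap_anti']
      have s2 : ∀ i, Equiv.swap b c (Equiv.swap c a i) = Equiv.swap a b (Equiv.swap b c i) := by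
        intro i
        simp only [Equiv.swap_apply_def]
        split_ifs <;> simp_all
      have s3 : ∀ i, Equiv.swap c a (Equiv.swap a b i) = Equiv.swap a b (Equiv.swap b c i) := by
        intro i
        simp only [Equiv.swap_apply_def]
        split_ifs <;> simp_all
      simp only [dl_x_mul, map_add, map_smul, k1, k2, k3, s2, s3]
      have h4 := congrArg (fun z => x (Equiv.swap a b (Equiv.swap b c i))
        (Equiv.swap a b (Equiv.swap b c j)) * z) hu
      simp only [mul_add, mul_zero] at h4
      simp only [neg_smul]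
      rw [← h4]
      abel

/-- The operators `Δ_P`. -/
noncomputable def Th : FK n →ₐ[ℚ] Module.End ℚ (FK n) := lift dl dl_isRep

@[simp] theorem Th_x (a b : Fin n) : Th (x a b : FK n) = dl a b := lift_x _ _ _ _

theorem Th_act (w : Equiv.Perm (Fin n)) (u v : FK n) : Th (act w u) (act w v) = act w (Th u v) := by
  revert v
  refine ind_left (p := fun u => ∀ v, Th (act w u) (act w v) = act w (Th u v)) ?_ ?_ ?_ ?_ u
  · intro v; simp
  · intro u u' hu hv v; simp only [map_add, LinearMap.add_apply, hu, hv]
  · intro c u hu v; simp only [map_smul, LinearMap.smul_apply, hu]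
  · intro i j u hu v
    rw [map_mul, act_x, map_mul, map_mul, Module.End.mul_apply, Module.End.mul_apply, hu, Th_x, Th_x,
      dl_act]

/-- The canonical form. -/
noncomputable def B : FK n →ₗ[ℚ] FK n →ₗ[ℚ] ℚ :=
  LinearMap.mk₂ ℚ (fun u v => eps (Th u v))
    (by intro u u' v; simp) (by intro c u v; simp) (by intro u v v'; simp) (by intro c u v; simp)

theorem B_def (u v : FK n) : B u v = eps (Th u v) := rfl

theorem B_one_left (v : FK n) : B 1 v = eps v := by simp [B_def]

theorem B_mul_x (a b : Fin n) (u v : FK n) : B (u * x a b) v = B u (dl a b v) := by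
  rw [B_def, B_def, map_mul, Module.End.mul_apply, Th_x]

theorem B_act (w : Equiv.Perm (Fin n)) (u v : FK n) : B (act w u) (act w v) = B u v := by
  rw [B_def, B_def, Th_act, eps_act]

theorem act_swap_swap (a b : Fin n) (u : FK n) :
    act (Equiv.swap a b) (act (Equiv.swap a b) u) = u := by
  rw [act_act, Equiv.swap_mul_self]
  refine ind_left (p := fun u => act 1 u = u) ?_ ?_ ?_ ?_ u
  · simp
  · intro u v hu hv; simp only [map_add, hu, hv]
  · intro c u hu; simp only [map_smul, hu]
  · intro i j u hu; simp only [map_mul, hu, act_x, Equiv.Perm.one_apply]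

theorem B_mul_x_right (a b : Fin n) (u v : FK n) : B u (v * x a b) = B (dl a b u) v := by
  revert v
  refine ind_right (p := fun u => ∀ v, B u (v * x a b) = B (dl a b u) v) ?_ ?_ ?_ ?_ u
  · intro v
    rw [B_one_left, dl_one, map_mul, eps_x]
    simp
  · intro u u' hu hv v; simp only [map_add, LinearMap.add_apply, hu, hv]
  · intro c u hu v; simp only [map_smul, LinearMap.smul_apply, hu]
  · intro i j u hu v
    rw [B_mul_x, dl_mul_x, map_add, map_smul, hu, dl_mul_x, map_add, LinearMap.add_apply, B_mul_x,
      map_smul, LinearMap.smul_apply]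
    congr 1
    rw [kap_symm i j a b]
    by_cases h : kap a b i j = 0
    · simp [h]
    · have hs : Equiv.swap i j = Equiv.swap a b := by
        rcases kap_ne h with ⟨rfl, rfl⟩ | ⟨rfl, rfl⟩
        · rfl
        · exact Equiv.swap_comm _ _
      rw [hs]
      congr 1
      have := B_act (Equiv.swap a b) (act (Equiv.swap a b) u) v
      rw [act_swap_swap] at this
      exact this

theorem B_symm (u v : FK n) : B u v = B v u := by
  revert v
  refine ind_right (p := fun u => ∀ v, B u v = B v u) ?_ ?_ ?_ ?_ u
  · intro v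
    rw [B_one_left]
    refine ind_right (p := fun v => eps v = B v 1) ?_ ?_ ?_ ?_ v
    · simp [B_def]
    · intro u v hu hv; simp only [map_add, LinearMap.add_apply, hu, hv]
    · intro c u hu; simp only [map_smul, LinearMap.smul_apply, hu]
    · intro i j u hu
      rw [B_mul_x, dl_one, map_mul, eps_x]
      simp
  · intro u u' hu hv v; simp only [map_add, LinearMap.add_apply, hu, hv]
  · intro c u hu v; simp only [map_smul, LinearMap.smul_apply, hu]
  · intro i j u hu v
    rw [B_mul_x, hu, B_mul_x_right]

end H387FK
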