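import Pool.Agent.helper387_fk.Engine

/-!
Rewriting of polynomials in the generators of a graph with at most six edges on six points, and
their skew derivations.
-/

namespace H387G

open H387FK (S Sg bnot bxor band bor)

/-- The letters. -/
inductive L : Type
  | a | b | c | d | f | g

/-- Words; the head is the outermost letter. -/
inductive W : Type
  | e | a (w : W) | b (w : W) | c (w : W) | d (w : W) | f (w : W) | g (w : W)

/-- A term: sign, multiplicity and word. -/
inductive Tm : Type
  | t (s : Bool) (q : Nat) (w : W)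

/-- A table of rewriting rules. -/
inductive R : Type
  | nil | hit (p : List Tm) | br (r1 r2 r3 r4 r5 r6 : R)

/-- Polynomials as trees branching over the last letter. -/
inductive T : Type
  | z | n (p m : Nat) (a b c d f g : T)

/-- The data for a graph: the pair of vertices of a letter, the transitions, the removal tests and
the table of rules. -/
structure GD : Type where
  st : L → S
  nx : L → S → S
  em : L → S → Sg
  tab : L → R

/-- Evaluate the head of a tree before it is passed on. -/
noncomputable def fo (t : T) (k : T → T) : T :=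
  T.rec (motive := fun _ => T) (k T.z) (fun p m a b c d f g _ _ _ _ _ _ => k (T.n p m a b c d f g)) t

noncomputable def lf (s : Bool) (q : Nat) : T :=
  Bool.rec (motive := fun _ => T) (T.n q 0 T.z T.z T.z T.z T.z T.z) (T.n 0 q T.z T.z T.z T.z T.z T.z) s
noncomputable def bump (s : Bool) (q p m : Nat) (a b c d f g : T) : T :=
  Bool.rec (motive := fun _ => T) (T.n (Nat.add p q) m a b c d f g) (T.n p (Nat.add m q) a b c d f g) s

/-- Insert a term into a tree. -/
noncomputable def ins (s : Bool) (q : Nat) (w : W) : T → T :=
  W.rec (motive := fun _ => T → T)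
    (fun t => T.rec (motive := fun _ => T) (lf s q) (fun p m a b c d f g _ _ _ _ _ _ => bump s q p m a b c d f g) t)
    (fun _ ih t => T.rec (motive := fun _ => T) (fo (ih T.z) (fun r => T.n 0 0 r T.z T.z T.z T.z T.z))
      (fun p m a b c d f g _ _ _ _ _ _ => fo (ih a) (fun r => T.n p m r b c d f g)) t)
    (fun _ ih t => T.rec (motive := fun _ => T) (fo (ih T.z) (fun r => T.n 0 0 T.z r T.z T.z T.z T.z))
      (fun p m a b c d f g _ _ _ _ _ _ => fo (ih b) (fun r => T.n p m a r c d f g)) t)
    (fun _ ih t => T.rec (motive := fun _ => T) (fo (ih T.z) (fun r => T.n 0 0 T.z T.z r T.z T.z T.z))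
      (fun p m a b c d f g _ _ _ _ _ _ => fo (ih c) (fun r => T.n p m a b r d f g)) t)
    (fun _ ih t => T.rec (motive := fun _ => T) (fo (ih T.z) (fun r => T.n 0 0 T.z T.z T.z r T.z T.z))
      (fun p m a b c d f g _ _ _ _ _ _ => fo (ih d) (fun r => T.n p m a b c r f g)) t)
    (fun _ ih t => T.rec (motive := fun _ => T) (fo (ih T.z) (fun r => T.n 0 0 T.z T.z T.z T.z r T.z))
      (fun p m a b c d f g _ _ _ _ _ _ => fo (ih f) (fun r => T.n p m a b c d r g)) t)
    (fun _ ih t => T.rec (motive := fun _ => T) (fo (ih T.z) (fun r => T.n 0 0 T.z T.z T.z T.z T.z r))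
      (fun p m a b c d f g _ _ _ _ _ _ => fo (ih g) (fun r => T.n p m a b c d f r)) t)
    w

/-- `app v w`: put `v` in front of `w`. -/
noncomputable def app (v w : W) : W :=
  W.rec (motive := fun _ => W) w (fun _ ih => W.a ih) (fun _ ih => W.b ih) (fun _ ih => W.c ih) (fun _ ih => W.d ih) (fun _ ih => W.f ih) (fun _ ih => W.g ih) v

/-- `rapp v w`: put the reverse of `v` in front of `w`. -/
noncomputable def rapp (v : W) : W → W :=
  W.rec (motive := fun _ => W → W) (fun w => w) (fun _ ih w => ih (W.a w)) (fun _ ih w => ih (W.b w)) (fun _ ih w => ih (W.c w)) (fun _ ih w => ih (W.d w)) (fun _ ih w => ih (W.f w)) (fun _ ih w => ih (W.g w)) v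

/-- Look for a rule at the head of a word. -/
noncomputable def find (r : R) : W → (List Tm → W → T) → T → T :=
  R.rec (motive := fun _ => W → (List Tm → W → T) → T → T)
    (fun _ _ x => x)
    (fun p w g _ => g p w)
    (fun _ _ _ _ _ _ i1 i2 i3 i4 i5 i6 w g x => W.rec (motive := fun _ => T) x
      (fun w _ => i1 w g x) (fun w _ => i2 w g x) (fun w _ => i3 w g x) (fun w _ => i4 w g x)
      (fun w _ => i5 w g x) (fun w _ => i6 w g x) w) r

/-- Replace by the terms of a rule. -/
noncomputable def fold (p : List Tm) (h : W → W → Bool → Nat → T → T) (pre todo : W) (s : Bool) (q : Nat) : T → T :=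
  List.rec (motive := fun _ => T → T) (fun acc => acc)
    (fun tm _ ih acc => Tm.rec (motive := fun _ => T) (fun s' q' w' => fo (h pre (app w' todo) (bxor s s') (Nat.mul q q') acc) ih) tm) p

/-- Normal form of `pre * todo`, added to `acc`. -/
noncomputable def nf (D : GD) (fuel : Nat) : W → W → Bool → Nat → T → T :=
  Nat.rec (motive := fun _ => W → W → Bool → Nat → T → T)
    (fun pre todo s q acc => ins s q (rapp todo pre) acc)
    (fun _ ih pre todo s q acc => W.rec (motive := fun _ => T) (ins s q pre acc)
      (fun w _ => find (D.tab L.a) pre (fun p pre' => fold p ih pre' w s q acc) (ih (W.a pre) w s q acc))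
      (fun w _ => find (D.tab L.b) pre (fun p pre' => fold p ih pre' w s q acc) (ih (W.b pre) w s q acc))
      (fun w _ => find (D.tab L.c) pre (fun p pre' => fold p ih pre' w s q acc) (ih (W.c pre) w s q acc))
      (fun w _ => find (D.tab L.d) pre (fun p pre' => fold p ih pre' w s q acc) (ih (W.d pre) w s q acc))
      (fun w _ => find (D.tab L.f) pre (fun p pre' => fold p ih pre' w s q acc) (ih (W.f pre) w s q acc))
      (fun w _ => find (D.tab L.g) pre (fun p pre' => fold p ih pre' w s q acc) (ih (W.g pre) w s q acc))
      todo) fuel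

/-- The skew derivation of a word times `todo`, added to `acc`. -/
noncomputable def Dw (D : GD) (w : W) : S → W → Bool → Nat → T → T :=
  W.rec (motive := fun _ => S → W → Bool → Nat → T → T) (fun _ _ _ _ acc => acc)
    (fun w ih st todo s q acc => Sg.rec (motive := fun _ => T) (ih (D.nx L.a st) (W.a todo) s q acc)
      (fo (nf D 200 w todo s q acc) (ih (D.nx L.a st) (W.a todo) s q))
      (fo (nf D 200 w todo (bnot s) q acc) (ih (D.nx L.a st) (W.a todo) s q)) (D.em L.a st))
    (fun w ih st todo s q acc => Sg.rec (motive := fun _ => T) (ih (D.nx L.b st) (W.b todo) s q acc)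
      (fo (nf D 200 w todo s q acc) (ih (D.nx L.b st) (W.b todo) s q))
      (fo (nf D 200 w todo (bnot s) q acc) (ih (D.nx L.b st) (W.b todo) s q)) (D.em L.b st))
    (fun w ih st todo s q acc => Sg.rec (motive := fun _ => T) (ih (D.nx L.c st) (W.c todo) s q acc)
      (fo (nf D 200 w todo s q acc) (ih (D.nx L.c st) (W.c todo) s q))
      (fo (nf D 200 w todo (bnot s) q acc) (ih (D.nx L.c st) (W.c todo) s q)) (D.em L.c st))
    (fun w ih st todo s q acc => Sg.rec (motive := fun _ => T) (ih (D.nx L.d st) (W.d todo) s q acc)
      (fo (nf D 200 w todo s q acc) (ih (D.nx L.d st) (W.d todo) s q))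
      (fo (nf D 200 w todo (bnot s) q acc) (ih (D.nx L.d st) (W.d todo) s q)) (D.em L.d st))
    (fun w ih st todo s q acc => Sg.rec (motive := fun _ => T) (ih (D.nx L.f st) (W.f todo) s q acc)
      (fo (nf D 200 w todo s q acc) (ih (D.nx L.f st) (W.f todo) s q))
      (fo (nf D 200 w todo (bnot s) q acc) (ih (D.nx L.f st) (W.f todo) s q)) (D.em L.f st))
    (fun w ih st todo s q acc => Sg.rec (motive := fun _ => T) (ih (D.nx L.g st) (W.g todo) s q acc)
      (fo (nf D 200 w todo s q acc) (ih (D.nx L.g st) (W.g todo) s q))
      (fo (nf D 200 w todo (bnot s) q acc) (ih (D.nx L.g st) (W.g todo) s q)) (D.em L.g st))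
    w

/-- The skew derivation of a polynomial, added to `acc`. -/
noncomputable def DP (D : GD) (st : S) (sg : Bool) (p : List Tm) : T → T :=
  List.rec (motive := fun _ => T → T) (fun acc => acc)
    (fun tm _ ih acc => Tm.rec (motive := fun _ => T) (fun s q w => fo (Dw D w st W.e (bxor sg s) q acc) ih) tm) p

noncomputable def isz (t : T) : Bool :=
  T.rec (motive := fun _ => Bool) true (fun p m _ _ _ _ _ _ a b c d f g => band (Nat.beq p m) (band a (band b (band c (band d (band f g)))))) t

noncomputable def revP (p : List Tm) : List Tm :=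
  List.rec (motive := fun _ => List Tm) [] (fun tm _ ih => Tm.rec (motive := fun _ => List Tm) (fun s q w => Tm.t s q (rapp w W.e) :: ih) tm) p

noncomputable def isE (w : W) : Bool := W.rec (motive := fun _ => Bool) true (fun _ _ => false) (fun _ _ => false) (fun _ _ => false) (fun _ _ => false) (fun _ _ => false) (fun _ _ => false) w

/-- Test whether two words have the same length. -/
noncomputable def eqlen (v : W) : W → Bool :=
  W.rec (motive := fun _ => W → Bool) isE
    (fun _ ih w => W.rec (motive := fun _ => Bool) false (fun w _ => ih w) (fun w _ => ih w) (fun w _ => ih w) (fun w _ => ih w) (fun w _ => ih w) (fun w _ => ih w) w)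
    (fun _ ih w => W.rec (motive := fun _ => Bool) false (fun w _ => ih w) (fun w _ => ih w) (fun w _ => ih w) (fun w _ => ih w) (fun w _ => ih w) (fun w _ => ih w) w)
    (fun _ ih w => W.rec (motive := fun _ => Bool) false (fun w _ => ih w) (fun w _ => ih w) (fun w _ => ih w) (fun w _ => ih w) (fun w _ => ih w) (fun w _ => ih w) w)
    (fun _ ih w => W.rec (motive := fun _ => Bool) false (fun w _ => ih w) (fun w _ => ih w) (fun w _ => ih w) (fun w _ => ih w) (fun w _ => ih w) (fun w _ => ih w) w)
    (fun _ ih w => W.rec (motive := fun _ => Bool) false (fun w _ => ih w) (fun w _ => ih w) (fun w _ => ih w) (fun w _ => ih w) (fun w _ => ih w) (fun w _ => ih w) w)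
    (fun _ ih w => W.rec (motive := fun _ => Bool) false (fun w _ => ih w) (fun w _ => ih w) (fun w _ => ih w) (fun w _ => ih w) (fun w _ => ih w) (fun w _ => ih w) w)
    v

noncomputable def hom (u : W) (p : List Tm) : Bool :=
  List.rec (motive := fun _ => Bool) true (fun tm _ ih => Tm.rec (motive := fun _ => Bool) (fun _ _ w => band (eqlen u w) ih) tm) p

/-- A test for all pairs of vertices. -/
noncomputable def all15 (h : S → Bool) : Bool :=
  band (h S.s12) (band (h S.s13) (band (h S.s14) (band (h S.s15) (band (h S.s16) (band (h S.s23) (band (h S.s24) (band (h S.s25) (band (h S.s26) (band (h S.s34) (band (h S.s35) (band (h S.s36) (band (h S.s45) (band (h S.s46) (h S.s56))))))))))))))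

noncomputable def chk1 (D : GD) (u : W) (p : List Tm) (st : S) : Bool :=
  isz (DP D st true (revP p) (Dw D u st W.e false 1 T.z))

/-- The test for one rule; `u` is the word with its last letter outermost. -/
noncomputable def chk (D : GD) (u : W) (p : List Tm) : Bool :=
  band (hom u p) (all15 (chk1 D u p))

/-- The test for all rules of a table. -/
noncomputable def chkR (D : GD) (r : R) : W → Bool :=
  R.rec (motive := fun _ => W → Bool) (fun _ => true) (fun p g => chk D (rapp g W.e) p)
    (fun _ _ _ _ _ _ i1 i2 i3 i4 i5 i6 g => band (i1 (W.a g)) (band (i2 (W.b g)) (band (i3 (W.c g)) (band (i4 (W.d g)) (band (i5 (W.f g)) (i6 (W.g g))))))) r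

/-- Test whether the skew derivations of a polynomial vanish. -/
noncomputable def chkQ (D : GD) (p : List Tm) : Bool :=
  all15 (fun st => isz (DP D st false (revP p) T.z))

/-- Evaluate the pairing of a word with a polynomial in star words. -/
noncomputable def pr (D : GD) (w : W) : H387FK.T → H387FK.T :=
  W.rec (motive := fun _ => H387FK.T → H387FK.T) (fun t => t)
    (fun _ ih t => H387FK.fo (H387FK.DP (D.st L.a) false (H387FK.toL t) H387FK.T.z) ih)
    (fun _ ih t => H387FK.fo (H387FK.DP (D.st L.b) false (H387FK.toL t) H387FK.T.z) ih)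
    (fun _ ih t => H387FK.fo (H387FK.DP (D.st L.c) false (H387FK.toL t) H387FK.T.z) ih)
    (fun _ ih t => H387FK.fo (H387FK.DP (D.st L.d) false (H387FK.toL t) H387FK.T.z) ih)
    (fun _ ih t => H387FK.fo (H387FK.DP (D.st L.f) false (H387FK.toL t) H387FK.T.z) ih)
    (fun _ ih t => H387FK.fo (H387FK.DP (D.st L.g) false (H387FK.toL t) H387FK.T.z) ih)
    w

/-- Evaluate a functional which is given by star polynomials. -/
noncomputable def ph (D : GD) (cc : L → H387FK.T) (p : List Tm) : H387FK.T → H387FK.T :=
  List.rec (motive := fun _ => H387FK.T → H387FK.T) (fun acc => acc)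
    (fun tm _ ih acc => Tm.rec (motive := fun _ => H387FK.T) (fun s q w => H387FK.fo
      (W.rec (motive := fun _ => H387FK.T) acc
        (fun w _ => H387FK.addr s q (pr D w (cc L.a)) acc)
        (fun w _ => H387FK.addr s q (pr D w (cc L.b)) acc)
        (fun w _ => H387FK.addr s q (pr D w (cc L.c)) acc)
        (fun w _ => H387FK.addr s q (pr D w (cc L.d)) acc)
        (fun w _ => H387FK.addr s q (pr D w (cc L.f)) acc)
        (fun w _ => H387FK.addr s q (pr D w (cc L.g)) acc)
        w) ih) tm) p

end H387G
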