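import Pool.Agent.helper387_fk.GEngine

/-!
Rules and an element of degree 14 for the graph with edges 15, 12, 46, 26, 36, 13.
-/

namespace H387G.M4

open H387FK (S Sg)
open W Tm R

noncomputable def nxa (s : S) : S :=
S.rec (motive := fun _ => S) S.s52 S.s53 S.s54 S.s51 S.s56 S.s25 S.s23 S.s24 S.s21 S.s26 S.s35 S.s32
  S.s34 S.s31 S.s36 S.s45 S.s42 S.s43 S.s41 S.s46 S.s15 S.s12 S.s13 S.s14 S.s16 S.s65 S.s62 S.s63
  S.s64 S.s61 s

noncomputable def ema (s : S) : Sg :=
S.rec (motive := fun _ => Sg) Sg.no Sg.no Sg.no Sg.po Sg.no Sg.no Sg.no Sg.no Sg.no Sg.no Sg.no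
  Sg.no Sg.no Sg.no Sg.no Sg.no Sg.no Sg.no Sg.no Sg.no Sg.ne Sg.no Sg.no Sg.no Sg.no Sg.no Sg.no
  Sg.no Sg.no Sg.no s

noncomputable def nxb (s : S) : S :=
S.rec (motive := fun _ => S) S.s21 S.s23 S.s24 S.s25 S.s26 S.s12 S.s13 S.s14 S.s15 S.s16 S.s32 S.s31
  S.s34 S.s35 S.s36 S.s42 S.s41 S.s43 S.s45 S.s46 S.s52 S.s51 S.s53 S.s54 S.s56 S.s62 S.s61 S.s63
  S.s64 S.s65 s

noncomputable def emb (s : S) : Sg :=
S.rec (motive := fun _ => Sg) Sg.po Sg.no Sg.no Sg.no Sg.no Sg.ne Sg.no Sg.no Sg.no Sg.no Sg.no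
  Sg.no Sg.no Sg.no Sg.no Sg.no Sg.no Sg.no Sg.no Sg.no Sg.no Sg.no Sg.no Sg.no Sg.no Sg.no Sg.no
  Sg.no Sg.no Sg.no s

noncomputable def nxc (s : S) : S :=
S.rec (motive := fun _ => S) S.s12 S.s13 S.s16 S.s15 S.s14 S.s21 S.s23 S.s26 S.s25 S.s24 S.s31 S.s32
  S.s36 S.s35 S.s34 S.s61 S.s62 S.s63 S.s65 S.s64 S.s51 S.s52 S.s53 S.s56 S.s54 S.s41 S.s42 S.s43
  S.s46 S.s45 s

noncomputable def emc (s : S) : Sg :=
S.rec (motive := fun _ => Sg) Sg.no Sg.no Sg.no Sg.no Sg.no Sg.no Sg.no Sg.no Sg.no Sg.no Sg.no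
  Sg.no Sg.no Sg.no Sg.no Sg.no Sg.no Sg.no Sg.no Sg.po Sg.no Sg.no Sg.no Sg.no Sg.no Sg.no Sg.no
  Sg.no Sg.ne Sg.no s

noncomputable def nxd (s : S) : S :=
S.rec (motive := fun _ => S) S.s16 S.s13 S.s14 S.s15 S.s12 S.s61 S.s63 S.s64 S.s65 S.s62 S.s31 S.s36
  S.s34 S.s35 S.s32 S.s41 S.s46 S.s43 S.s45 S.s42 S.s51 S.s56 S.s53 S.s54 S.s52 S.s21 S.s26 S.s23
  S.s24 S.s25 s

noncomputable def emd (s : S) : Sg :=
S.rec (motive := fun _ => Sg) Sg.no Sg.no Sg.no Sg.no Sg.no Sg.no Sg.no Sg.no Sg.no Sg.po Sg.no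
  Sg.no Sg.no Sg.no Sg.no Sg.no Sg.no Sg.no Sg.no Sg.no Sg.no Sg.no Sg.no Sg.no Sg.no Sg.no Sg.ne
  Sg.no Sg.no Sg.no s

noncomputable def nxf (s : S) : S :=
S.rec (motive := fun _ => S) S.s12 S.s16 S.s14 S.s15 S.s13 S.s21 S.s26 S.s24 S.s25 S.s23 S.s61 S.s62
  S.s64 S.s65 S.s63 S.s41 S.s42 S.s46 S.s45 S.s43 S.s51 S.s52 S.s56 S.s54 S.s53 S.s31 S.s32 S.s36
  S.s34 S.s35 s

noncomputable def emf (s : S) : Sg :=
S.rec (motive := fun _ => Sg) Sg.no Sg.no Sg.no Sg.no Sg.no Sg.no Sg.no Sg.no Sg.no Sg.no Sg.no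
  Sg.no Sg.no Sg.no Sg.po Sg.no Sg.no Sg.no Sg.no Sg.no Sg.no Sg.no Sg.no Sg.no Sg.no Sg.no Sg.no
  Sg.ne Sg.no Sg.no s

noncomputable def nxg (s : S) : S :=
S.rec (motive := fun _ => S) S.s32 S.s31 S.s34 S.s35 S.s36 S.s23 S.s21 S.s24 S.s25 S.s26 S.s13 S.s12
  S.s14 S.s15 S.s16 S.s43 S.s42 S.s41 S.s45 S.s46 S.s53 S.s52 S.s51 S.s54 S.s56 S.s63 S.s62 S.s61
  S.s64 S.s65 s

noncomputable def emg (s : S) : Sg :=
S.rec (motive := fun _ => Sg) Sg.no Sg.po Sg.no Sg.no Sg.no Sg.no Sg.no Sg.no Sg.no Sg.no Sg.ne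
  Sg.no Sg.no Sg.no Sg.no Sg.no Sg.no Sg.no Sg.no Sg.no Sg.no Sg.no Sg.no Sg.no Sg.no Sg.no Sg.no
  Sg.no Sg.no Sg.no s

def Ra : R := (br (hit []) (br nil nil nil (br nil nil (br (br nil (br nil nil nil (hit [t false 1
  (c (d (b (a (c (d (b e)))))))]) nil nil) nil nil nil nil) nil nil nil nil nil) nil nil nil) nil
  nil) (hit [t false 1 (a (c e))]) (hit [t false 1 (a (d e))]) (hit [t false 1 (a (f e))]) (br (br
  nil (br (br nil nil nil nil nil (hit [t false 1 (b (g (a (b (a (g e))))))])) nil nil (br nil nil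
  (br nil nil nil nil (br (br nil nil nil nil nil (hit [t false 1 (b (d (b (a (c (f (d (b (g
  e))))))))), t false 1 (b (d (c (g (a (b (a (f (g e))))))))), t false 1 (b (f (d (c (g (a (b (f (g
  e))))))))), t true 1 (c (g (a (f (c (d (b (a (g e))))))))), t false 1 (d (b (a (c (f (d (b (c (g
  e))))))))), t false 1 (d (c (g (a (b (a (f (c (g e))))))))), t true 1 (f (c (g (a (f (c (d (b (g
  e))))))))), t false 1 (f (d (c (g (a (b (f (c (g e)))))))))])) (br (br nil nil nil nil nil (hit [t
  true 1 (b (a (d (b (a (c (f (d (b (g e)))))))))), t true 1 (b (a (f (c (d (c (g (a (b (f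
  e)))))))))), t true 1 (b (a (f (d (b (c (d (g (a (b e)))))))))), t true 1 (b (a (f (d (c (g (a (b
  (f (g e)))))))))), t false 1 (b (c (f (c (d (b (a (c (g (f e)))))))))), t false 1 (b (d (c (g (a
  (b (a (f (d (g e)))))))))), t false 1 (b (f (c (d (b (a (c (g (a (f e)))))))))), t true 1 (b (f (c
  (d (c (g (a (b (f (d e)))))))))), t false 1 (b (f (d (b (a (c (g (a (f (g e)))))))))), t true 1 (b
  (f (d (b (c (d (g (a (b (d e)))))))))), t true 1 (c (g (a (b (f (c (d (b (a (g e)))))))))), t
  false 1 (d (b (a (c (f (d (b (c (d (g e)))))))))), t false 1 (d (c (g (a (b (a (f (c (d (g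
  e)))))))))), t true 1 (f (c (g (a (b (f (c (d (b (g e)))))))))), t false 1 (f (d (c (g (a (b (f (c
  (d (g e))))))))))])) nil nil nil nil (hit [t true 1 (b (c (f (c (d (b (a (c (g e))))))))), t false
  1 (b (d (c (g (b (a (f (d (g e))))))))), t true 1 (b (f (c (d (b (a (c (g (a e))))))))), t false 1
  (b (f (d (b (c (g (a (f (g e))))))))), t true 1 (c (g (b (f (c (d (b (a (g e))))))))), t false 1
  (d (b (a (c (f (c (d (c (g e))))))))), t false 1 (d (c (g (b (a (f (c (d (g e))))))))), t true 1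
  (f (d (c (g (a (f (c (d (g e)))))))))])) nil nil nil (hit [t true 1 (b (d (b (a (c (f (d (g
  e)))))))), t false 1 (b (d (c (g (b (a (f (g e)))))))), t true 1 (b (f (d (c (g (a (f (g
  e)))))))), t true 1 (c (g (f (c (d (b (a (g e)))))))), t true 1 (d (b (a (c (f (d (c (g e)))))))),
  t false 1 (d (c (g (b (a (f (c (g e)))))))), t false 1 (f (c (g (a (f (c (d (g e)))))))), t true 1
  (f (d (c (g (a (f (c (g e))))))))])) nil) nil nil nil) nil nil) nil nil nil nil) (br nil nil nil
  (br nil nil (br nil nil nil nil (br (br nil nil nil nil nil (hit [t true 1 (b (d (b (a (c (f (d (b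
  e)))))))), t true 1 (b (d (c (g (a (b (a (f e)))))))), t true 1 (b (f (d (c (g (a (b (f e)))))))),
  t false 1 (c (g (a (f (c (d (b (a e)))))))), t true 1 (d (b (a (c (f (d (b (c e)))))))), t true 1
  (d (c (g (a (b (a (f (c e)))))))), t false 1 (f (c (g (a (f (c (d (b e)))))))), t true 1 (f (d (c
  (g (a (b (f (c e)))))))), t true 1 (f (g (a (f (c (d (b (g e))))))))])) (br (br nil nil nil nil
  nil (hit [t false 1 (b (a (d (b (a (c (f (d (b e))))))))), t true 1 (b (d (c (g (a (b (a (f (d
  e))))))))), t true 1 (b (f (d (c (g (a (b (f (d e))))))))), t false 1 (c (g (a (b (f (c (d (b (a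
  e))))))))), t true 1 (d (b (a (c (f (d (b (c (d e))))))))), t true 1 (d (c (g (a (b (a (f (c (d
  e))))))))), t false 1 (f (c (g (a (b (f (c (d (b e))))))))), t true 1 (f (d (c (g (a (b (f (c (d
  e))))))))), t true 1 (f (g (a (b (f (c (d (b (g e)))))))))])) nil nil nil nil nil) nil nil nil
  nil) nil) nil nil nil) nil nil) (br (br nil (br nil nil nil (br nil nil (br nil nil nil nil (br
  nil (br (br nil nil nil nil nil (hit [t true 1 (a (b (a (f (c (d (c (g (a (b (f e))))))))))), t
  true 1 (a (b (a (f (d (b (c (d (g (a (b e))))))))))), t false 1 (a (b (c (f (c (d (b (a (c (g (f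
  e))))))))))), t false 1 (a (b (f (c (d (b (a (c (g (a (f e))))))))))), t true 1 (a (b (f (c (d (c
  (g (a (b (f (d e))))))))))), t true 1 (a (b (f (d (b (c (d (g (a (b (d e))))))))))), t false 1 (a
  (d (b (a (c (f (d (b (c (d (g e))))))))))), t true 1 (a (f (c (g (a (b (f (c (d (b (g
  e))))))))))), t false 1 (a (f (d (c (g (a (b (f (c (d (g e))))))))))), t true 1 (b (a (d (b (a (c
  (f (d (b (c (g e))))))))))), t false 1 (b (a (f (c (g (a (f (c (d (b (g e))))))))))), t true 1 (b
  (a (f (d (c (g (a (b (f (c (g e))))))))))), t false 1 (b (d (c (g (a (b (a (f (d (c (g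
  e))))))))))), t false 1 (b (f (d (b (a (c (g (a (f (c (g e))))))))))), t true 1 (c (g (a (b (f (c
  (d (b (a (c (g e))))))))))), t false 1 (d (c (g (a (b (a (f (c (d (c (g e))))))))))), t true 1 (f
  (d (b (a (c (g (a (f (c (d (g e)))))))))))])) nil nil nil nil (hit [t false 1 (b (d (c (g (b (a (f
  (d (c (g e)))))))))), t false 1 (b (f (d (b (c (g (a (f (c (g e)))))))))), t true 1 (c (g (b (f (c
  (d (b (a (c (g e)))))))))), t false 1 (d (c (g (b (a (f (c (d (c (g e)))))))))), t true 1 (f (d (b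
  (c (g (a (f (c (d (g e))))))))))])) nil nil nil nil) nil) nil nil nil) nil nil) nil nil nil nil)
  nil nil (br (br nil (br (br nil nil nil nil nil (hit [t false 1 (b (g (a (b (a (d (c (g
  e))))))))])) nil nil nil nil nil) nil nil nil nil) nil (br nil nil nil nil (br (br nil (br (br nil
  nil nil nil nil (hit [t true 1 (a (b (a (f (d (b (c (d (g (a e)))))))))), t true 1 (a (b (f (d (b
  (c (g (a (b (d e)))))))))), t true 1 (a (d (b (a (f (d (b (c (d (g e)))))))))), t true 1 (a (f (d
  (g (a (b (f (c (d (g e)))))))))), t false 1 (b (d (c (g (a (b (a (d (c (g e)))))))))), t true 1 (d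
  (g (a (b (a (f (c (d (c (g e)))))))))), t false 1 (f (d (b (a (g (a (f (c (d (g e))))))))))])) nil
  nil nil nil (hit [t false 1 (b (a (c (d (c (f (c (g (a e))))))))), t true 1 (b (a (d (c (f (c (g
  (b (a e))))))))), t true 1 (b (d (b (a (c (d (f (c (g e))))))))), t true 1 (b (d (b (a (c (f (c (g
  (b e))))))))), t true 1 (d (g (b (a (f (c (d (c (g e))))))))), t false 1 (f (d (b (g (a (f (c (d
  (g e)))))))))])) nil nil nil nil) nil nil nil nil nil) nil) nil (br (br nil (br (br nil nil nil
  nil nil (hit [t false 1 (a (b (a (f (d (b (c (g (a e))))))))), t false 1 (a (b (f (d (b (c (g (a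
  (b e))))))))), t false 1 (a (d (b (a (f (d (b (c (g e))))))))), t false 1 (a (f (d (g (a (b (f (c
  (g e))))))))), t false 1 (b (d (g (a (b (a (d (c (g e))))))))), t true 1 (d (g (a (b (a (f (d (c
  (g e))))))))), t true 1 (f (d (b (a (g (a (f (c (g e)))))))))])) nil nil nil nil (hit [t true 1 (b
  (a (d (f (c (g (b (a e)))))))), t true 1 (b (d (b (a (f (c (g (b e)))))))), t true 1 (d (g (b (a
  (f (d (c (g e)))))))), t true 1 (f (d (b (g (a (f (c (g e))))))))])) nil nil nil nil) nil nil nil
  nil nil) nil) (br (br nil (br (br nil nil nil nil nil (hit [t true 1 (b (a (f (d (b (c (g (a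
  e)))))))), t false 1 (b (d (c (g (a (b (a (g e)))))))), t true 1 (b (f (d (b (c (g (a (b
  e)))))))), t true 1 (d (b (a (f (d (b (c (g e)))))))), t true 1 (d (g (a (b (a (f (c (g e)))))))),
  t true 1 (f (d (g (a (b (f (c (g e))))))))])) nil nil nil nil (hit [t true 1 (b (a (d (c (g (b (a
  e))))))), t false 1 (b (a (f (d (c (g (a e))))))), t true 1 (b (d (b (a (c (g (b e))))))), t false
  1 (d (b (a (f (d (c (g e))))))), t true 1 (d (g (b (a (f (c (g e))))))), t false 1 (f (d (g (a (f
  (c (g e)))))))])) nil nil nil (hit [t true 1 (f (g (a (f (c (g e))))))])) (br (br nil nil nil nil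
  nil (hit [t true 1 (b (d (c (g (a (b (a e))))))), t true 1 (b (f (d (c (g (a (b e))))))), t false
  1 (d (b (a (f (d (b (c e))))))), t false 1 (d (g (a (b (a (f (c e))))))), t false 1 (f (d (g (a (b
  (f (c e))))))), t true 1 (f (g (a (b (f (c (g e)))))))])) nil nil nil nil nil) nil nil nil nil)
  nil) (br (br nil (br (br nil nil nil nil nil (hit [t false 1 (b (g (a (b (a (d (g e)))))))])) nil
  nil nil nil nil) nil nil nil nil) nil (br nil nil nil nil (br (br nil (br (br nil nil nil nil nil
  (hit [t true 1 (b (a (f (d (b (c (d (g (a e))))))))), t false 1 (b (d (c (g (a (b (a (d (g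
  e))))))))), t true 1 (b (f (d (b (c (g (a (b (d e))))))))), t true 1 (d (b (a (f (d (b (c (d (g
  e))))))))), t true 1 (d (g (a (b (a (f (c (d (g e))))))))), t true 1 (f (d (g (a (b (f (c (d (g
  e)))))))))])) nil nil nil nil (hit [t false 1 (b (a (c (d (c (f (g (a e)))))))), t true 1 (b (a (d
  (c (f (g (b (a e)))))))), t true 1 (b (a (f (c (d (c (g (a e)))))))), t true 1 (b (d (b (a (c (d
  (f (g e)))))))), t true 1 (b (d (b (a (c (f (g (b e)))))))), t true 1 (d (b (a (f (c (d (c (g
  e)))))))), t true 1 (d (g (b (a (f (c (d (g e)))))))), t false 1 (f (d (g (a (f (c (d (g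
  e))))))))])) nil nil nil (hit [t true 1 (f (g (a (f (c (d (g e)))))))])) (br (br nil nil nil nil
  nil (hit [t true 1 (b (d (c (g (a (b (a (d e)))))))), t true 1 (b (f (d (c (g (a (b (d e)))))))),
  t false 1 (d (b (a (f (d (b (c (d e)))))))), t false 1 (d (g (a (b (a (f (c (d e)))))))), t false
  1 (f (d (g (a (b (f (c (d e)))))))), t true 1 (f (g (a (b (f (c (d (g e))))))))])) nil nil nil nil
  nil) nil nil nil nil) nil) nil (br (br nil (br (br nil nil nil nil nil (hit [t false 1 (a (b (a (f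
  (d (b (g (a e)))))))), t false 1 (a (b (f (d (b (g (a (b e)))))))), t false 1 (a (d (b (a (f (d (b
  (g e)))))))), t false 1 (a (f (d (g (a (b (f (g e)))))))), t false 1 (b (d (g (a (b (a (d (g
  e)))))))), t true 1 (d (g (a (b (a (f (d (g e)))))))), t true 1 (f (d (b (a (g (a (f (g
  e))))))))])) nil nil nil nil (hit [t true 1 (b (a (d (f (g (b (a e))))))), t true 1 (b (d (b (a (f
  (g (b e))))))), t true 1 (d (g (b (a (f (d (g e))))))), t true 1 (f (d (b (g (a (f (g e)))))))]))
  nil nil nil nil) nil nil nil nil nil) nil) (br (br nil (br (br nil nil nil nil nil (hit [t true 1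
  (b (a (f (d (b (g (a e))))))), t false 1 (b (d (g (a (b (a (g e))))))), t true 1 (b (f (d (b (g (a
  (b e))))))), t true 1 (d (b (a (f (d (b (g e))))))), t true 1 (d (g (a (b (a (f (g e))))))), t
  true 1 (f (d (g (a (b (f (g e)))))))])) nil nil nil nil (hit [t true 1 (b (a (d (g (b (a e)))))),
  t false 1 (b (a (f (d (g (a e)))))), t true 1 (b (d (b (a (g (b e)))))), t false 1 (d (b (a (f (d
  (g e)))))), t true 1 (d (g (b (a (f (g e)))))), t false 1 (f (d (g (a (f (g e))))))])) nil nil nil
  (hit [t true 1 (f (g (a (f (g e)))))])) (br (br nil nil nil nil nil (hit [t true 1 (b (d (g (a (b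
  (a e)))))), t true 1 (b (f (d (g (a (b e)))))), t false 1 (d (b (a (f (d (b e)))))), t false 1 (d
  (g (a (b (a (f e)))))), t false 1 (f (d (g (a (b (f e)))))), t true 1 (f (g (a (b (f (g e))))))]))
  nil nil nil nil nil) nil nil nil nil) nil))

def Rb : R := (br (br nil (hit [t true 1 (a (b (a e)))]) nil nil nil (br nil nil (br nil nil nil nil
  (br nil nil nil (br nil (br (br nil nil nil nil nil (hit [t false 1 (a (b (d (f (g (a (b (d (c
  e))))))))), t false 1 (f (g (a (b (d (f (c (g (a e)))))))))])) nil nil nil nil nil) nil nil nil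
  nil) nil nil) nil) nil (br nil nil nil (br nil (br (br nil nil nil nil nil (hit [t false 1 (a (b
  (d (f (g (a (b (d e)))))))), t false 1 (f (g (a (b (d (f (g (a e))))))))])) nil nil nil nil nil)
  nil nil nil nil) nil nil) nil)) (hit []) (hit [t false 1 (b (c e))]) (br (br nil (br (br nil nil
  nil nil nil (hit [t false 1 (b (a (d (b (f (d e)))))), t true 1 (d (f (g (a (b (d e)))))), t false
  1 (f (g (a (b (a (d e))))))])) nil nil nil nil nil) nil nil nil nil) (br (br nil nil nil nil nil
  (hit [t false 1 (d (g (a (b (d e)))))])) nil nil nil nil nil) (br nil (br nil nil nil (hit [t true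
  1 (c (d (b (c (d e)))))]) nil nil) nil nil nil nil) nil (br (br nil (br nil nil nil nil nil (hit
  [t false 1 (a (d (b (f (g (a e)))))), t true 1 (a (g (b (a (f (d e)))))), t false 1 (b (a (d (b (f
  (g e)))))), t true 1 (b (a (g (b (f (d e)))))), t false 1 (d (b (f (g (a (b e)))))), t false 1 (f
  (g (a (b (a (g e)))))), t true 1 (g (a (b (a (g (f e))))))])) nil nil nil nil) (br (br nil nil nil
  nil nil (hit [t true 1 (a (b (f (d (b (a e)))))), t true 1 (b (g (a (b (f (d e)))))), t false 1 (d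
  (b (g (a (b (d e))))))])) nil nil nil nil (hit [t false 1 (b (d (b (f (g e))))), t true 1 (b (g (b
  (f (d e))))), t false 1 (d (b (f (g (b e)))))])) (br nil (br nil nil nil (br nil nil (br nil nil
  nil nil (hit [t false 1 (c (f (c (d (b (c (f (d e))))))))]) nil) nil nil nil) nil nil) nil (br nil
  (br (br nil nil nil nil nil (hit [t true 1 (a (b (d (c (f (d (b (a e)))))))), t true 1 (b (g (a (b
  (d (c (f (d e)))))))), t true 1 (c (d (b (g (a (b (d (c e)))))))), t true 1 (d (b (g (a (b (d (c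
  (f e))))))))])) nil nil nil nil nil) nil nil nil nil) nil nil) (br nil (br (br nil nil nil nil nil
  (hit [t true 1 (a (b (d (f (d (b (a e))))))), t true 1 (b (g (a (b (d (f (d e))))))), t true 1 (d
  (b (g (a (b (d (f e)))))))])) nil nil nil nil nil) nil nil nil nil) nil nil) nil) (hit [t false 1
  (b (f e))]) (br nil nil (br nil nil nil (br nil nil nil nil (br nil nil nil (br nil (br (br nil
  nil nil nil nil (hit [t true 1 (a (g (a (b (d (f (d (c (g e))))))))), t true 1 (b (a (d (b (g (a
  (f (c (g e))))))))), t false 1 (b (a (d (f (d (b (a (c (g e))))))))), t true 1 (b (a (g (a (b (d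
  (f (d (c e))))))))), t false 1 (d (b (a (g (a (b (f (d (c e))))))))), t true 1 (f (d (b (a (g (b
  (f (d (c e)))))))))])) nil nil nil nil nil) nil nil nil nil) nil nil) nil) (br (br nil nil nil nil
  nil (hit [t true 1 (a (g (a (b (d (c e)))))), t true 1 (d (g (a (f (c (g e)))))), t false 1 (g (a
  (b (d (f (c e))))))])) (br (br nil nil nil nil nil (hit [t true 1 (a (b (g (a (b (d (c e))))))), t
  true 1 (g (a (b (d (f (c (g e)))))))])) nil nil nil nil nil) (br nil nil nil (br nil (br (br nil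
  nil nil nil nil (hit [t true 1 (a (b (d (c (g (a (b (d (c e))))))))), t false 1 (c (g (a (b (d (c
  (f (c (g e))))))))), t true 1 (d (c (g (a (b (d (c (f (c e)))))))))])) nil nil nil nil nil) nil
  nil nil nil) nil nil) (br nil (br (br nil nil nil nil nil (hit [t true 1 (a (b (d (g (a (b (d (c
  e))))))))])) nil nil nil nil nil) nil nil nil nil) nil nil) nil) (br nil nil nil nil (br nil nil
  nil (br nil (br (br nil nil nil nil nil (hit [t true 1 (a (g (a (b (d (f (d (g e)))))))), t true 1
  (b (a (d (b (g (a (f (g e)))))))), t false 1 (b (a (d (f (d (b (a (g e)))))))), t true 1 (b (a (g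
  (a (b (d (f (d e)))))))), t false 1 (d (b (a (g (a (b (f (d e)))))))), t true 1 (f (d (b (a (g (b
  (f (d e))))))))])) nil nil nil nil nil) nil nil nil nil) nil nil) nil) (br (br nil nil nil nil nil
  (hit [t true 1 (a (g (a (b (d e))))), t true 1 (d (g (a (f (g e))))), t false 1 (g (a (b (d (f
  e)))))])) (br (br nil nil nil nil nil (hit [t true 1 (a (b (g (a (b (d e)))))), t true 1 (g (a (b
  (d (f (g e))))))])) nil nil nil nil nil) (br nil nil nil (br nil (br (br nil nil nil nil nil (hit
  [t true 1 (a (b (d (c (g (a (b (d e)))))))), t false 1 (b (d (c (g (a (b (d (c e)))))))), t false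
  1 (c (g (a (b (d (c (f (g e)))))))), t true 1 (d (c (g (a (b (d (c (f e))))))))])) nil nil nil nil
  nil) nil nil nil nil) nil nil) (br nil (br (br nil nil nil nil nil (hit [t true 1 (a (b (d (g (a
  (b (d e)))))))])) nil nil nil nil nil) nil nil nil nil) nil nil) nil))

def Rc : R := (br (br nil (br (br nil nil nil nil nil (hit [t false 1 (c (g (a (b (a e)))))])) nil
  nil (br nil nil (br nil nil nil nil (br (br nil nil nil nil nil (hit [t false 1 (b (g (a (f (c (d
  (b (a e)))))))), t true 1 (d (b (c (d (g (a (b (a e)))))))), t true 1 (f (c (d (b (a (c (d (b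
  e))))))))])) nil nil nil nil (hit [t false 1 (b (g (f (c (d (b (a e))))))), t true 1 (d (b (c (d
  (g (b (a e))))))), t false 1 (f (c (d (b (a (c (d e)))))))])) nil) nil nil nil) nil (hit [t false
  1 (c (g (b (a e))))])) nil nil nil (hit [t false 1 (c (g (a e)))])) (br (br nil nil nil nil nil
  (hit [t false 1 (c (g (a (b e))))])) nil nil (br nil nil (br (br nil (br nil nil nil (hit [t true
  1 (b (d (b (a (c (d (b e)))))))]) nil nil) nil nil nil nil) nil nil nil (br (br nil nil nil nil
  nil (hit [t false 1 (b (g (a (f (c (d (b e))))))), t true 1 (d (b (c (d (g (a (b e))))))), t true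
  1 (f (d (b (a (c (d (b e)))))))])) nil nil nil nil (hit [t false 1 (b (g (f (c (d (b e)))))), t
  true 1 (d (b (c (d (g (b e)))))), t false 1 (f (c (d (b (c (d e))))))])) nil) nil (br nil nil (br
  (br nil (br nil nil nil (br nil nil (br nil nil nil nil (hit [t true 1 (b (f (c (d (b (a (c (f (d
  (b e)))))))))), t false 1 (c (d (b (a (f (c (d (b (c (f e)))))))))), t true 1 (d (b (a (f (c (d (b
  (a (c (f e))))))))))]) nil) nil nil nil) nil nil) nil nil nil nil) nil nil nil nil nil) nil nil
  nil) nil) nil (hit [t false 1 (c (g (b e)))])) (hit []) (br nil (br (br nil nil nil nil nil (br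
  nil nil (br nil nil nil (br nil nil nil nil (br nil nil nil (br nil (br (br nil nil nil nil nil
  (hit [t true 1 (f (g (a (b (d (f (d (c (g (a (b (d e))))))))))))])) nil nil nil nil nil) nil nil
  nil nil) nil nil) nil) nil nil) nil nil nil)) nil nil nil nil nil) (br (br nil (br nil nil nil
  (hit [t true 1 (b (d (b (a (c (d e))))))]) nil nil) nil nil nil nil) (br nil nil nil (hit [t true
  1 (b (d (b (c (d e)))))]) nil nil) nil nil (br (br nil nil nil nil nil (hit [t false 1 (b (g (a (f
  (c (d e)))))), t true 1 (d (b (c (d (g (a e)))))), t true 1 (f (d (b (a (c (d e))))))])) nil nil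
  nil nil (hit [t false 1 (b (g (f (c (d e))))), t true 1 (d (b (c (d (g e))))), t true 1 (f (d (b
  (c (d e)))))])) nil) nil (br nil (br (br nil nil nil nil nil (br nil nil (br nil nil nil (br nil
  nil nil nil (br nil nil nil (br nil (br (br nil nil nil nil nil (hit [t true 1 (a (b (d (f (g (a
  (b (d (f (d (c (g (f e))))))))))))), t true 1 (b (d (f (g (a (b (d (f (d (c (g (a (f
  e))))))))))))), t true 1 (d (f (g (a (b (d (f (d (c (g (a (b (f e))))))))))))), t true 1 (f (g (a
  (b (d (f (d (c (g (a (b (f (d e)))))))))))))])) nil nil nil nil nil) nil nil nil nil) nil nil)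
  nil) nil nil) nil nil nil)) nil nil nil nil (br nil nil (br nil nil nil (br nil nil nil nil (br
  nil nil (br nil nil nil (br nil (br (br nil nil nil nil nil (hit [t false 1 (a (b (d (c (g (a (b
  (d (f (d (c (g (f e))))))))))))), t true 1 (b (d (c (g (a (b (d (c (f (d (c (g (f e))))))))))))),
  t true 1 (c (g (a (b (d (c (f (d (c (g (b (f (d e))))))))))))), t true 1 (d (c (g (a (b (d (c (f
  (d (c (g (b (f e)))))))))))))])) nil nil nil nil nil) nil nil nil nil) nil nil) nil nil nil) nil)
  nil nil) nil nil nil)) (br (br nil (br nil nil nil (br nil nil (br nil nil nil nil (hit [t true 1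
  (b (f (c (d (b (a (c (f (d e))))))))), t false 1 (c (d (b (a (f (c (d (c (f e))))))))), t false 1
  (d (b (f (c (d (b (a (c (f e)))))))))]) nil) nil nil nil) nil nil) nil nil nil nil) (br nil nil
  nil (br nil nil (br nil nil nil nil (hit [t true 1 (b (f (c (d (b (c (f (d e)))))))), t false 1 (c
  (d (b (f (c (d (c (f e)))))))), t false 1 (d (b (f (c (d (b (c (f e))))))))]) nil) nil nil nil)
  nil nil) nil nil nil nil) nil nil nil) nil) (br (br nil nil nil nil nil (br nil nil (br nil nil
  nil (br nil nil (br nil nil nil nil (br nil nil nil (br nil (br (br nil nil nil nil nil (hit [t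
  true 1 (a (b (d (b (f (d (c (g (a (b (d (f e)))))))))))), t true 1 (a (b (d (f (d (c (g (a (b (d
  (f (c e)))))))))))), t true 1 (a (b (d (f (d (g (a (b (d (f (c (d e)))))))))))), t true 1 (a (b (d
  (f (g (a (b (f (c (d (g (f e)))))))))))), t false 1 (b (d (g (a (b (d (f (c (d (g (a (f
  e)))))))))))), t true 1 (d (g (a (b (d (f (c (d (c (g (a (f e))))))))))))])) nil nil nil nil nil)
  nil nil nil nil) nil nil) nil) nil (br nil nil nil (br nil (br (br nil nil nil nil nil (hit [t
  false 1 (a (b (d (b (f (d (c (g (a (b (f e))))))))))), t false 1 (a (b (d (f (d (c (g (a (b (f (c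
  e))))))))))), t false 1 (a (b (d (f (g (a (b (f (c (g (f e))))))))))), t true 1 (b (d (g (a (b (d
  (f (c (g (a (f e))))))))))), t true 1 (d (g (a (b (d (f (d (c (g (a (f e)))))))))))])) nil nil nil
  nil nil) nil nil nil nil) nil nil) nil) (br nil nil nil (br nil (br (br nil nil nil nil nil (hit
  [t true 1 (a (b (d (f (g (a (f (c (g (f e)))))))))), t false 1 (b (g (a (b (d (f (c (g (a (f
  e))))))))))])) nil nil nil nil nil) nil nil nil nil) nil nil) nil) (br nil nil (br nil nil nil nil
  (br nil nil nil (br nil (br (br nil nil nil nil nil (hit [t false 1 (a (b (d (b (f (d (c (g (a (b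
  (d e))))))))))), t true 1 (a (b (d (f (d (g (a (b (f (c (d e))))))))))), t false 1 (a (b (d (f (g
  (a (b (f (c (d (g e))))))))))), t true 1 (a (b (d (f (g (a (f (c (d (g (f e))))))))))), t true 1
  (b (d (g (a (b (d (f (c (d (g (a e))))))))))), t false 1 (b (g (a (b (d (f (c (d (g (a (f
  e))))))))))), t false 1 (d (g (a (b (d (f (c (d (c (g (a e)))))))))))])) nil nil nil nil nil) nil
  nil nil nil) nil nil) nil) nil nil nil) nil nil)) (br (br nil nil nil nil nil (br nil nil (br nil
  nil nil (br nil nil nil nil (br nil nil nil (br nil (br (br nil nil nil nil nil (hit [t true 1 (a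
  (b (d (f (g (a (b (d (f (c (g (f e)))))))))))), t true 1 (b (d (f (g (a (b (d (f (c (g (a (f
  e)))))))))))), t true 1 (d (g (a (b (d (f (d (c (g (a (b (f e))))))))))))])) nil nil nil nil nil)
  nil nil nil nil) nil nil) nil) nil nil) nil nil nil)) nil nil (br nil nil (br (br nil (br nil nil
  nil (br nil nil (br nil nil nil nil (hit [t false 1 (b (d (f (c (d (b (a (c (d (b e)))))))))), t
  false 1 (d (f (c (d (b (a (c (d (b (f e))))))))))]) nil) nil (hit [t false 1 (b (d (f (d (b (a (c
  (d (b e))))))))), t false 1 (d (f (d (b (a (c (d (b (f e)))))))))]) nil) nil nil) nil nil nil nil)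
  nil nil nil nil nil) nil nil nil) nil (br nil nil (br nil nil nil (br nil nil nil nil (br nil nil
  (br nil nil nil (br nil (br (br nil nil nil nil nil (hit [t false 1 (a (b (d (c (g (a (b (d (f (c
  (g (f e)))))))))))), t true 1 (b (d (c (g (a (b (d (c (f (c (g (f e)))))))))))), t true 1 (d (g (a
  (b (d (c (f (d (c (g (b (f e))))))))))))])) nil nil nil nil nil) nil nil nil nil) nil nil) nil nil
  nil) nil) nil nil) nil nil nil)) (br (br nil (br nil nil nil (br nil nil (br nil nil nil nil (hit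
  [t false 1 (d (f (c (d (b (a (c (f e))))))))]) nil) nil nil nil) nil nil) nil nil nil nil) (br nil
  nil nil (br nil nil (br nil nil nil nil (hit [t false 1 (d (f (c (d (b (c (f e)))))))]) nil) nil
  nil nil) nil nil) nil (br nil nil (br nil nil nil nil (hit [t false 1 (d (f (c (d (c (f e))))))])
  nil) nil nil nil) nil nil) (br nil (br (br nil nil nil nil nil (br nil nil (br nil nil nil (br nil
  nil nil nil (br nil nil nil (br nil (br (br nil nil nil nil nil (hit [t false 1 (a (b (d (f (d (g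
  (a (b (d (f (c (d (g e))))))))))))), t true 1 (a (b (d (f (g (a (b (d (f (c (d (g (f
  e))))))))))))), t false 1 (b (d (f (d (g (a (b (d (f (c (d (g (a e))))))))))))), t true 1 (b (d (f
  (g (a (b (d (f (c (d (g (a (f e))))))))))))), t true 1 (d (g (a (b (d (f (d (c (g (a (b (d (f
  e))))))))))))), t true 1 (f (d (g (a (b (d (f (d (c (g (a (b (d e)))))))))))))])) nil nil nil nil
  nil) nil nil nil nil) nil nil) nil) nil nil) nil nil nil)) nil nil nil nil nil) (br (br nil (br
  nil nil nil (br nil nil (br nil nil nil nil (hit [t false 1 (b (d (f (c (d (b (a (c (d e))))))))),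
  t false 1 (d (f (c (d (b (a (c (d (f e)))))))))]) nil) nil (hit [t false 1 (b (d (f (d (b (a (c (d
  e)))))))), t false 1 (d (f (d (b (a (c (d (f e))))))))]) nil) nil nil) nil nil nil nil) (br nil
  nil nil (br nil nil (br nil nil nil nil (hit [t false 1 (b (d (f (c (d (b (c (d e)))))))), t false
  1 (d (f (c (d (b (c (d (f e))))))))]) nil) nil (hit [t false 1 (b (d (f (d (b (c (d e))))))), t
  false 1 (d (f (d (b (c (d (f e)))))))]) nil) nil nil) nil nil nil nil) nil nil nil) nil (br nil
  nil (br nil nil nil (br nil nil (br nil nil nil nil (br nil nil nil (br nil (br (br nil nil nil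
  nil nil (hit [t false 1 (a (b (d (g (a (b (f (c (d (g (f e))))))))))), t false 1 (b (d (g (a (b (d
  (f (c (d (g (f e))))))))))), t true 1 (d (g (a (b (d (f (c (d (c (g (f e)))))))))))])) nil nil nil
  nil nil) nil nil nil nil) nil nil) nil) nil (br nil nil (br nil nil nil (br nil (br (br nil nil
  nil nil nil (hit [t true 1 (a (b (d (c (g (a (b (f (c (g (f e))))))))))), t true 1 (b (d (g (a (b
  (d (c (f (c (g (f e))))))))))), t true 1 (d (g (a (b (d (c (f (d (c (g (f e)))))))))))])) nil nil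
  nil nil nil) nil nil nil nil) nil nil) (br nil (br (br nil nil nil nil nil (hit [t true 1 (a (b (d
  (g (a (b (f (c (g (f e)))))))))), t true 1 (b (d (g (a (b (d (f (c (g (f e)))))))))), t true 1 (d
  (g (a (b (d (f (d (c (g (f e))))))))))])) nil nil nil nil nil) nil nil nil nil) nil nil) nil) (br
  (br nil nil nil nil nil (hit [t false 1 (a (g (a (f (c (g (f e)))))))])) (br (br nil nil nil nil
  nil (hit [t false 1 (a (b (g (a (f (c (g (f e)))))))), t false 1 (b (g (a (b (f (c (g (f
  e))))))))])) nil nil nil nil nil) (br nil nil nil (br nil (br (br nil nil nil nil nil (hit [t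
  false 1 (a (b (d (c (g (a (f (c (g (f e)))))))))), t false 1 (b (g (a (b (d (c (f (c (g (f
  e))))))))))])) nil nil nil nil nil) nil nil nil nil) nil nil) (br nil (br (br nil nil nil nil nil
  (hit [t false 1 (a (b (d (g (a (f (c (g (f e))))))))), t false 1 (b (g (a (b (d (f (c (g (f
  e)))))))))])) nil nil nil nil nil) nil nil nil nil) nil nil) nil) (br nil nil (br nil nil nil nil
  (br (br nil nil nil nil nil (hit [t false 1 (a (g (a (f (c (d (g (f e)))))))), t true 1 (b (a (g
  (a (f (c (d (g e)))))))), t false 1 (d (b (a (g (a (f (c (d e)))))))), t true 1 (f (d (b (a (g (f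
  (c (d e))))))))])) (br (br nil nil nil nil nil (hit [t false 1 (a (b (d (g (a (b (f (c (d
  e))))))))), t true 1 (a (b (g (a (b (f (c (d (g e))))))))), t false 1 (a (b (g (a (f (c (d (g (f
  e))))))))), t false 1 (b (d (g (a (b (d (f (c (d e))))))))), t false 1 (b (g (a (b (f (c (d (g (f
  e))))))))), t true 1 (d (g (a (b (d (f (c (d (c e)))))))))])) nil nil nil nil nil) nil (br nil (br
  (br nil nil nil nil nil (hit [t true 1 (a (b (d (g (a (b (f (c (d (g e)))))))))), t false 1 (a (b
  (d (g (a (f (c (d (g (f e)))))))))), t true 1 (b (d (g (a (b (d (f (c (d (g e)))))))))), t false 1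
  (b (g (a (b (d (f (c (d (g (f e)))))))))), t false 1 (d (g (a (b (d (f (c (d (c (g e))))))))))]))
  nil nil nil nil nil) nil nil nil nil) nil nil) nil) nil nil nil) nil nil)) (hit [t false 1 (c (g
  e))]))

def Rd : R := (br (br nil (br nil nil nil (hit [t false 1 (b (d (b (a e))))]) nil (hit [t true 1 (b
  (a (d (f e)))), t false 1 (d (f (g (a e)))), t false 1 (f (g (b (a e))))])) nil nil nil (hit [t
  false 1 (d (g (a e)))])) (br (br nil nil nil nil nil (br nil nil nil (br nil nil nil nil (br nil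
  nil nil (br nil (br (br nil nil nil nil nil (hit [t false 1 (f (g (a (b (d (f (d (g (a (b
  e))))))))))])) nil nil nil nil nil) nil nil nil nil) nil nil) nil) nil nil)) nil nil (hit [t false
  1 (b (d (b e)))]) nil (hit [t true 1 (b (d (f e))), t false 1 (d (f (g e))), t false 1 (f (g (b
  e)))])) (br nil nil nil (hit [t true 1 (c (d (c e)))]) nil nil) (hit []) (br (br nil nil nil nil
  nil (hit [t true 1 (b (g (a (f e)))), t false 1 (d (b (g (a e)))), t false 1 (f (d (b (a e))))]))
  nil (br nil nil nil (br nil nil (br nil nil nil nil (hit [t false 1 (c (f (c (d (c (f e))))))])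
  nil) nil nil nil) nil nil) (br nil nil (br (br nil (br nil nil nil (br nil nil nil nil (hit [t
  false 1 (c (f (d (b (a (c (d (f e)))))))), t true 1 (d (b (c (d (f (d (b (a e))))))))]) nil) nil
  nil) nil nil nil nil) (br nil nil nil (br nil nil nil nil (hit [t false 1 (c (f (d (b (c (d (f
  e))))))), t true 1 (d (b (c (d (f (d (b e)))))))]) nil) nil nil) nil nil nil nil) nil nil nil) nil
  (hit [t true 1 (b (g (f e))), t false 1 (d (b (g e))), t false 1 (f (d (b e)))])) (hit [t false 1
  (d (g e))]))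

def Rf : R := (br (br nil (br nil nil nil (br nil nil (br nil nil nil nil (hit [t true 1 (c (d (b (a
  (f (c e)))))), t true 1 (d (f (c (d (b (a e))))))]) nil) nil (hit [t true 1 (d (f (d (b (a
  e)))))]) nil) nil nil) nil nil nil (br nil nil nil (br nil nil nil nil (br nil nil nil (br nil (br
  (br nil nil nil nil nil (hit [t true 1 (a (b (d (b (f (d (g (a (b e))))))))), t false 1 (a (b (d
  (f (d (g (a (b (f e))))))))), t true 1 (a (b (d (f (g (a (b (f (g e))))))))), t false 1 (b (d (g
  (a (b (d (f (g (a e))))))))), t false 1 (d (g (a (b (d (f (d (g (a e)))))))))])) nil nil nil nil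
  nil) nil nil nil nil) nil nil) nil) (br nil nil nil (br nil (br (br nil nil nil nil nil (hit [t
  false 1 (a (b (d (f (g (a (f (g e)))))))), t true 1 (b (g (a (b (d (f (g (a e))))))))])) nil nil
  nil nil nil) nil nil nil nil) nil nil) nil)) (br (br nil nil nil nil nil (br nil nil nil (br nil
  nil nil nil (br nil nil nil (br nil (br (br nil nil nil nil nil (hit [t false 1 (a (b (d (f (g (a
  (b (d (f (g e)))))))))), t false 1 (b (d (f (g (a (b (d (f (g (a e)))))))))), t false 1 (d (g (a
  (b (d (f (d (g (a (b e))))))))))])) nil nil nil nil nil) nil nil nil nil) nil nil) nil) nil nil))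
  nil nil (br nil nil (br nil nil nil nil (hit [t true 1 (c (d (b (f (c e))))), t true 1 (d (f (c (d
  (b e)))))]) nil) nil (hit [t true 1 (d (f (d (b e))))]) nil) nil (br nil nil nil (br nil nil nil
  nil (br nil nil (br nil nil nil (br nil (br (br nil nil nil nil nil (hit [t true 1 (a (b (c (d (b
  (c (f (d (b (a e)))))))))), t true 1 (a (b (d (c (g (a (b (d (f (g e)))))))))), t false 1 (b (d (c
  (g (a (b (d (c (f (g e)))))))))), t true 1 (c (d (b (g (a (b (d (c (f (d e)))))))))), t false 1 (d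
  (g (a (b (d (c (f (d (g (b e))))))))))])) nil nil nil nil nil) nil nil nil nil) nil nil) nil nil
  nil) nil) nil nil)) (br (br nil (br nil nil nil (br nil nil nil nil (hit [t true 1 (c (f (d (b (a
  (c e)))))), t true 1 (d (c (f (d (b (a e))))))]) nil) nil nil) nil nil nil nil) (br nil nil nil
  (br nil nil nil nil (hit [t true 1 (c (f (d (b (c e))))), t true 1 (d (c (f (d (b e)))))]) nil)
  nil nil) nil (br nil nil nil nil (hit [t true 1 (c (f (d (c e)))), t true 1 (d (c (f (d e))))])
  nil) (hit [t true 1 (c (f (c e)))]) nil) (br nil nil (br nil nil nil nil (hit [t true 1 (c (d (f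
  (c e)))), t true 1 (d (f (c (d e))))]) nil) nil (hit [t true 1 (d (f (d e)))]) nil) (hit []) (br
  nil nil nil (br nil nil nil nil (br nil nil (br nil nil nil (br nil (br (br nil nil nil nil nil
  (hit [t false 1 (a (b (c (d (c (g (a (b (f e))))))))), t false 1 (a (b (d (b (c (d (g (a (b
  e))))))))), t false 1 (a (b (d (c (g (a (b (f (g e))))))))), t false 1 (b (c (d (g (a (b (d (c (f
  e))))))))), t false 1 (b (d (g (a (b (d (c (f (g e))))))))), t false 1 (c (d (g (a (b (d (c (f (d
  e))))))))), t true 1 (d (b (c (d (g (a (b (d (c e))))))))), t false 1 (d (g (a (b (d (c (f (d (g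
  e)))))))))])) nil nil nil nil nil) nil nil nil nil) nil nil) (br nil (br (br nil nil nil nil nil
  (hit [t false 1 (a (b (d (g (a (b (f (g e)))))))), t false 1 (b (d (g (a (b (d (f (g e)))))))), t
  false 1 (d (g (a (b (d (f (d (g e))))))))])) nil nil nil nil nil) nil nil nil nil) nil nil) nil)
  (br (br nil nil nil nil nil (hit [t true 1 (a (g (a (f (g e)))))])) (br (br nil nil nil nil nil
  (hit [t true 1 (a (b (g (a (f (g e)))))), t true 1 (b (g (a (b (f (g e))))))])) nil nil nil nil
  nil) (br nil (br nil nil nil (br nil nil (br nil nil nil nil (br nil (br (br nil nil nil nil nil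
  (hit [t true 1 (a (b (d (c (g (a (b (d (f (d (g e))))))))))), t false 1 (a (c (d (b (c (f (d (b (a
  (c (d e))))))))))), t true 1 (a (c (d (g (a (b (d (f (c (g (f e))))))))))), t false 1 (a (c (g (a
  (b (d (f (c (d (b (g e))))))))))), t true 1 (a (d (b (c (f (d (b (a (c (d (f e))))))))))), t true
  1 (a (g (a (b (d (f (c (d (b (g (f e))))))))))), t false 1 (b (a (c (d (g (a (b (f (c (g (f
  e))))))))))), t true 1 (b (a (c (d (g (a (f (c (d (b (g e))))))))))), t false 1 (b (a (d (g (a (f
  (c (d (b (g (f e))))))))))), t false 1 (b (d (c (g (a (b (d (c (f (d (g e))))))))))), t false 1 (c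
  (d (b (a (c (g (a (b (f (c (d e))))))))))), t true 1 (c (d (b (c (g (a (b (f (c (d (c
  e))))))))))), t false 1 (c (g (a (b (f (c (d (b (c (f (g e))))))))))), t false 1 (d (b (a (c (g (a
  (b (d (f (c (d e))))))))))), t false 1 (d (b (c (g (a (b (f (c (d (c (f e))))))))))), t false 1 (d
  (c (f (d (b (a (g (b (f (c (d e))))))))))), t false 1 (d (c (g (a (b (d (c (f (d (g (b
  e))))))))))), t true 1 (f (d (b (a (c (d (f (g (f (c (d e)))))))))))])) nil nil nil nil (hit [t
  false 1 (b (d (c (f (c (d (g (b (f (d e)))))))))), t true 1 (c (d (b (c (g (b (f (c (d (c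
  e)))))))))), t false 1 (c (g (b (f (c (d (b (c (f (g e)))))))))), t false 1 (d (b (c (g (b (f (c
  (d (c (f e)))))))))), t true 1 (d (c (f (c (d (b (g (b (f (d e)))))))))), t false 1 (d (c (f (d (b
  (g (b (f (c (d e)))))))))), t true 1 (f (d (b (c (d (f (g (f (c (d e))))))))))])) nil (br nil (br
  (br nil nil nil nil nil (hit [t false 1 (a (g (a (b (d (c (f (c (d (b (c (f e)))))))))))), t true
  1 (a (g (a (b (d (f (c (d (b (c (g (f e)))))))))))), t false 1 (b (a (d (b (c (d (g (a (f (c (d (b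
  e)))))))))))), t false 1 (b (a (d (b (g (a (f (c (d (b (g (f e)))))))))))), t false 1 (b (a (d (c
  (f (d (b (a (c (d (b (f e)))))))))))), t true 1 (b (a (d (f (d (b (a (c (d (b (g (f e)))))))))))),
  t false 1 (b (a (g (a (b (d (c (f (c (d (c (f e)))))))))))), t true 1 (d (b (a (c (g (a (b (f (c
  (d (c (f e)))))))))))), t false 1 (f (d (b (a (c (g (b (f (c (d (c (f e)))))))))))), t false 1 (g
  (a (b (d (c (f (c (d (b (c (f (g e)))))))))))), t false 1 (g (a (b (d (c (f (d (c (g (b (f (d
  e))))))))))))])) nil nil nil nil nil) nil nil nil nil) nil nil) nil) nil nil nil) nil nil) nil (br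
  nil (br (br nil nil nil nil nil (hit [t true 1 (a (b (d (c (g (a (f (g e)))))))), t true 1 (b (g
  (a (b (d (c (f (g e))))))))])) nil nil nil nil nil) nil nil nil nil) nil nil) (br nil (br (br nil
  nil nil nil nil (hit [t true 1 (a (b (d (g (a (f (g e))))))), t true 1 (b (g (a (b (d (f (g
  e)))))))])) nil nil nil nil nil) nil nil nil nil) nil nil) nil))

def Rg : R := (br (br nil (br nil nil nil nil nil (hit [t true 1 (a (g (b (a e)))), t true 1 (b (a
  (g (b e))))])) nil nil nil (hit [t true 1 (a (g (a e)))])) (br (br nil nil nil nil nil (hit [t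
  true 1 (a (b (g (a e)))), t true 1 (b (g (a (b e))))])) nil nil (br nil nil (br nil nil nil nil
  (br nil (br nil nil nil nil nil (hit [t false 1 (b (c (f (c (d (b (c e))))))), t true 1 (b (d (c
  (g (b (f (d e))))))), t true 1 (b (f (c (d (b (c (g e))))))), t true 1 (b (f (d (b (c (g (f
  e))))))), t false 1 (c (g (b (f (c (d (b e))))))), t true 1 (d (b (c (f (c (d (c e))))))), t true
  1 (d (c (g (b (f (c (d e))))))), t false 1 (f (d (c (g (f (c (d e)))))))])) nil nil nil (hit [t
  false 1 (b (d (b (c (f (d e)))))), t true 1 (b (d (c (g (b (f e)))))), t false 1 (b (f (d (c (g (f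
  e)))))), t false 1 (c (g (f (c (d (b e)))))), t false 1 (d (b (c (f (d (c e)))))), t true 1 (d (c
  (g (b (f (c e)))))), t true 1 (f (c (g (f (c (d e)))))), t false 1 (f (d (c (g (f (c e))))))]))
  nil) nil nil nil) nil (hit [t true 1 (b (g (b e)))])) (br nil (br nil nil nil (br nil nil (br nil
  nil nil nil (br nil (br (br nil nil nil nil nil (hit [t false 1 (a (b (a (d (c (g (a (b (f
  e))))))))), t true 1 (a (b (d (b (a (c (g (a (f e))))))))), t false 1 (a (b (d (c (g (a (b (f (d
  e))))))))), t false 1 (a (b (f (d (b (a (c (g (f e))))))))), t true 1 (a (c (g (a (b (f (c (d (b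
  e))))))))), t false 1 (a (d (c (g (a (b (f (c (d e))))))))), t false 1 (a (g (a (b (f (c (d (b (g
  e))))))))), t false 1 (b (a (c (g (a (f (c (d (b e))))))))), t true 1 (b (a (d (c (g (a (b (f (c
  e))))))))), t true 1 (b (a (g (a (f (c (d (b (g e))))))))), t false 1 (b (d (b (a (c (g (a (f (c
  e))))))))), t true 1 (b (d (c (g (a (b (f (d (c e))))))))), t true 1 (b (f (d (b (a (c (g (f (c
  e))))))))), t false 1 (c (g (a (b (f (c (d (b (c e))))))))), t true 1 (d (b (a (c (g (a (f (c (d
  e))))))))), t true 1 (d (c (g (a (b (f (c (d (c e))))))))), t false 1 (f (d (b (a (c (g (f (c (d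
  e)))))))))])) nil nil nil nil (hit [t true 1 (b (d (c (g (b (f (d (c e)))))))), t true 1 (b (f (d
  (b (c (g (f (c e)))))))), t false 1 (c (g (b (f (c (d (b (c e)))))))), t true 1 (d (c (g (b (f (c
  (d (c e)))))))), t false 1 (f (d (b (c (g (f (c (d e))))))))])) nil nil nil nil) nil) nil nil nil)
  nil nil) nil (br nil (br (br nil nil nil nil nil (hit [t true 1 (a (b (d (c (g (a e)))))), t true
  1 (b (g (a (b (d (c e))))))])) nil nil nil nil nil) (br nil nil nil nil (br nil (br (br nil nil
  nil nil nil (hit [t false 1 (a (b (d (c (g (a (b (d e)))))))), t true 1 (a (d (g (a (b (f (c (d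
  e)))))))), t false 1 (a (g (a (b (f (c (d (g e)))))))), t true 1 (b (a (g (a (f (c (d (g
  e)))))))), t true 1 (b (d (c (g (a (b (d (c e)))))))), t false 1 (d (b (a (g (a (f (c (d
  e)))))))), t false 1 (d (g (a (b (f (c (d (c e)))))))), t true 1 (f (d (b (a (g (f (c (d
  e))))))))])) nil nil nil nil (hit [t false 1 (b (c (d (c (f (c (g e))))))), t false 1 (b (d (b (c
  (d (f (c e))))))), t true 1 (b (d (c (f (c (g (b e))))))), t false 1 (d (g (b (f (c (d (c
  e))))))), t true 1 (f (d (b (g (f (c (d e)))))))])) nil nil nil nil) nil) nil (br nil (br (br nil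
  nil nil nil nil (hit [t true 1 (a (b (d (c (g (a (b e))))))), t false 1 (a (d (g (a (b (f (c
  e))))))), t true 1 (a (g (a (b (f (c (g e))))))), t false 1 (b (a (g (a (f (c (g e))))))), t true
  1 (b (d (g (a (b (d (c e))))))), t true 1 (d (b (a (g (a (f (c e))))))), t false 1 (d (g (a (b (f
  (d (c e))))))), t false 1 (f (d (b (a (g (f (c e)))))))])) nil nil nil nil (hit [t true 1 (b (d (f
  (c (g (b e)))))), t false 1 (d (g (b (f (d (c e)))))), t false 1 (f (d (b (g (f (c e))))))])) nil
  nil nil nil) nil) (br (br nil nil nil nil nil (br nil (br nil nil nil (br nil nil (br nil nil nil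
  nil (br nil nil nil (br nil (br (br nil nil nil nil nil (hit [t false 1 (a (b (d (f (c (d (b (g (a
  (f (c (g (f e))))))))))))), t false 1 (a (d (b (a (c (d (f (d (b (c (d (g (a e))))))))))))), t
  true 1 (b (a (d (b (a (c (d (f (d (b (c (g (a e))))))))))))), t false 1 (b (d (c (g (a (b (a (d (f
  (d (c (g (a e))))))))))))), t false 1 (b (f (d (c (g (a (b (d (f (d (c (g (a e))))))))))))), t
  true 1 (c (d (b (g (a (b (d (f (c (g (a (f (g e))))))))))))), t true 1 (c (g (a (b (d (f (c (d (b
  (a (c (g (a e))))))))))))), t true 1 (d (b (a (c (d (f (d (b (c (d (f (g (a e))))))))))))), t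
  false 1 (d (c (g (a (b (a (d (f (c (d (c (g (a e))))))))))))), t false 1 (f (c (d (b (g (a (b (d
  (f (c (g (a (f e))))))))))))), t true 1 (f (c (g (a (b (d (f (c (d (b (c (g (a e))))))))))))), t
  false 1 (f (d (c (g (a (b (d (f (c (d (c (g (a e))))))))))))), t false 1 (f (g (a (b (d (f (c (d
  (b (g (a (f (c e)))))))))))))])) nil nil nil nil nil) nil nil nil nil) nil nil) nil) nil nil nil)
  nil nil) nil nil nil nil)) (br nil nil nil nil nil (hit [t true 1 (b (d (c (g (b e))))), t false 1
  (b (f (d (c (g e))))), t true 1 (d (b (f (d (c e))))), t false 1 (d (g (b (f (c e))))), t true 1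
  (f (d (g (f (c e)))))])) nil nil nil (hit [t false 1 (f (g (f (c e))))])) nil) (br nil (br (br nil
  nil nil nil nil (hit [t true 1 (a (b (d (g (a e))))), t true 1 (b (g (a (b (d e)))))])) nil nil
  nil nil nil) (br nil nil nil nil (br nil (br nil nil nil nil nil (hit [t false 1 (b (c (d (c (f (g
  e)))))), t false 1 (b (d (b (c (d (f e)))))), t true 1 (b (d (c (f (g (b e)))))), t true 1 (b (f
  (c (d (c (g e)))))), t false 1 (d (b (f (c (d (c e)))))), t false 1 (d (g (b (f (c (d e)))))), t
  true 1 (f (d (g (f (c (d e))))))])) nil nil nil (hit [t false 1 (f (g (f (c (d e)))))])) nil) nil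
  (br nil (br (br nil nil nil nil nil (hit [t true 1 (a (b (d (g (a (b e)))))), t false 1 (a (d (g
  (a (b (f e)))))), t true 1 (a (g (a (b (f (g e)))))), t false 1 (b (a (g (a (f (g e)))))), t true
  1 (b (d (g (a (b (d e)))))), t true 1 (d (b (a (g (a (f e)))))), t false 1 (d (g (a (b (f (d
  e)))))), t false 1 (f (d (b (a (g (f e))))))])) nil nil nil nil (hit [t true 1 (b (d (f (g (b
  e))))), t false 1 (d (g (b (f (d e))))), t false 1 (f (d (b (g (f e)))))])) nil nil nil nil) nil)
  (br (br nil nil nil nil nil (br nil (br nil nil nil (br nil nil (br nil nil nil nil (br nil nil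
  nil (br nil (br (br nil nil nil nil nil (hit [t true 1 (b (a (d (b (a (c (d (f (d (b (g (a
  e)))))))))))), t false 1 (b (d (c (g (a (b (a (d (f (d (g (a e)))))))))))), t false 1 (b (f (d (c
  (g (a (b (d (f (d (g (a e)))))))))))), t true 1 (c (d (g (a (b (d (f (c (g (a (f (g e)))))))))))),
  t true 1 (c (g (a (b (d (f (c (d (b (a (g (a e)))))))))))), t true 1 (d (b (a (c (f (d (b (c (d (f
  (g (a e)))))))))))), t false 1 (d (c (g (a (b (a (d (f (c (d (g (a e)))))))))))), t false 1 (f (c
  (d (g (a (b (d (f (c (g (a (f e)))))))))))), t true 1 (f (c (g (a (b (d (f (c (d (b (g (a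
  e)))))))))))), t false 1 (f (d (c (g (a (b (d (f (c (d (g (a e)))))))))))), t false 1 (f (g (a (b
  (d (f (c (d (b (g (a (f e))))))))))))])) nil nil nil nil nil) nil nil nil nil) nil nil) nil) nil
  nil nil) nil nil) nil (br nil nil (br nil nil nil nil (br nil nil nil (br nil (br (br nil nil nil
  nil nil (hit [t true 1 (b (d (c (g (a (b (a (d (f (g (a e))))))))))), t true 1 (b (f (d (c (g (a
  (b (d (f (g (a e))))))))))), t true 1 (c (g (a (b (d (f (c (g (a (f (g e))))))))))), t false 1 (d
  (b (a (f (d (b (c (d (f (g (a e))))))))))), t true 1 (d (c (g (a (b (a (d (f (c (g (a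
  e))))))))))), t true 1 (d (g (a (b (a (d (f (c (d (g (a e))))))))))), t false 1 (f (c (g (a (b (d
  (f (c (g (a (f e))))))))))), t true 1 (f (d (c (g (a (b (d (f (c (g (a e))))))))))), t true 1 (f
  (d (g (a (b (d (f (c (d (g (a e))))))))))), t false 1 (f (g (a (b (d (f (c (d (g (a (f
  e)))))))))))])) nil nil nil nil nil) nil nil nil nil) nil nil) nil) nil nil nil) nil nil)) (br nil
  nil nil nil nil (hit [t true 1 (b (d (g (b e)))), t false 1 (b (f (d (g e)))), t true 1 (d (b (f
  (d e)))), t false 1 (d (g (b (f e)))), t true 1 (f (d (g (f e))))])) (br nil nil nil (br nil nil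
  (br nil nil nil nil (br nil (br (br nil nil nil nil nil (hit [t false 1 (a (b (f (d (b (a (c (d (f
  e))))))))), t false 1 (a (c (d (b (f (d (b (a (c e))))))))), t true 1 (a (c (g (a (b (d (f (c (g
  e))))))))), t false 1 (a (d (b (f (d (b (a (c (d e))))))))), t true 1 (a (g (a (b (d (f (c (d (g
  e))))))))), t false 1 (b (a (c (d (g (a (f (c (g e))))))))), t true 1 (b (a (c (g (a (b (d (f (c
  e))))))))), t false 1 (b (a (d (g (a (f (c (d (g e))))))))), t true 1 (b (a (g (a (b (d (f (c (d
  e))))))))), t true 1 (b (g (a (b (f (c (d (c (f e))))))))), t false 1 (c (d (b (a (g (a (b (f (c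
  e))))))))), t false 1 (c (d (b (g (a (b (f (d (c e))))))))), t true 1 (c (f (d (b (a (g (b (f (c
  e))))))))), t false 1 (d (b (a (g (a (b (f (c (d e))))))))), t false 1 (d (b (c (g (a (b (d (c (f
  e))))))))), t true 1 (d (b (g (a (b (f (c (d (c e))))))))), t true 1 (f (d (b (a (g (b (f (c (d
  e))))))))), t true 1 (g (a (b (d (c (f (d (g (b e)))))))))])) nil nil nil nil (hit [t true 1 (b (d
  (c (f (c (d (g (b e)))))))), t true 1 (b (g (b (f (c (d (c (f e)))))))), t false 1 (c (d (b (g (b
  (f (d (c e)))))))), t false 1 (c (f (c (d (b (g (b (f e)))))))), t true 1 (c (f (d (b (g (b (f (c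
  e)))))))), t false 1 (d (b (c (d (f (c (g (f e)))))))), t true 1 (d (b (g (b (f (c (d (c
  e)))))))), t false 1 (d (c (f (c (d (b (g (b e)))))))), t false 1 (f (c (d (b (g (b (f (d
  e)))))))), t true 1 (f (d (b (g (b (f (c (d e))))))))])) nil (br nil (br (br nil nil nil nil nil
  (hit [t false 1 (a (b (d (f (d (b (a (c (d (f e)))))))))), t true 1 (a (g (a (b (d (f (c (d (c (g
  e)))))))))), t false 1 (b (a (d (b (g (a (f (c (d (g e)))))))))), t true 1 (b (a (d (f (d (b (a (c
  (d (g e)))))))))), t true 1 (b (a (g (a (b (d (f (c (d (c e)))))))))), t true 1 (b (g (a (b (d (f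
  (c (d (c (f e)))))))))), t false 1 (d (b (a (g (a (b (f (c (d (c e)))))))))), t false 1 (d (b (c
  (g (a (b (d (c (f (c e)))))))))), t true 1 (f (d (b (a (g (b (f (c (d (c e)))))))))), t true 1 (g
  (a (b (d (c (f (d (c (g (b e))))))))))])) nil nil nil nil nil) nil nil nil nil) nil nil) nil) nil
  nil nil) nil nil) nil nil (hit [t false 1 (f (g (f e)))])) (hit []))

/-- The data of the graph. -/
noncomputable def D : GD where
  st := fun k => L.rec (motive := fun _ => S) S.s15 S.s12 S.s46 S.s26 S.s36 S.s13 k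
  nx := fun k => L.rec (motive := fun _ => S → S) nxa nxb nxc nxd nxf nxg k
  em := fun k => L.rec (motive := fun _ => S → Sg) ema emb emc emd emf emg k
  tab := fun k => L.rec (motive := fun _ => R) Ra Rb Rc Rd Rf Rg k

/-- The element of degree 14. -/
def Q : List Tm := [t true 1 (a (b (c (d (f (d (c (g (a (b (d (f (d (g e)))))))))))))), t false 1 (a
  (b (d (f (c (g (a (b (d (f (d (c (g (f e)))))))))))))), t true 1 (a (b (d (f (d (c (g (a (b (d (f
  (d (c (g e)))))))))))))), t true 1 (a (d (b (c (d (f (d (c (g (a (b (d (f (g e)))))))))))))), t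
  false 1 (b (a (d (b (c (d (f (c (d (c (g (a (b (f e)))))))))))))), t false 1 (b (a (d (b (c (d (f
  (d (b (c (d (g (a (b e)))))))))))))), t false 1 (b (a (d (b (c (d (f (d (c (g (a (b (f (g
  e)))))))))))))), t true 1 (b (c (d (f (d (c (g (a (b (d (f (d (g (a e)))))))))))))), t true 1 (b
  (d (c (g (a (b (d (f (d (c (g (a (f (g e)))))))))))))), t false 1 (b (d (f (c (g (a (b (d (f (d (c
  (g (a (f e)))))))))))))), t true 1 (b (d (f (d (c (g (a (b (d (f (d (c (g (a e)))))))))))))), t
  true 1 (c (d (f (d (c (g (a (b (d (f (d (g (a (b e)))))))))))))), t false 1 (c (g (a (b (d (f (c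
  (d (b (c (g (a (f (g e)))))))))))))), t true 1 (c (g (a (b (d (f (d (c (g (a (b (d (f (d
  e)))))))))))))), t true 1 (d (b (c (d (f (d (c (g (a (b (d (f (g (a e)))))))))))))), t true 1 (d
  (c (g (a (b (d (f (c (d (c (g (a (f (g e)))))))))))))), t true 1 (d (c (g (a (b (d (f (d (c (g (a
  (b (d (f e)))))))))))))), t false 1 (d (f (c (g (a (b (d (f (d (c (g (a (b (f e)))))))))))))), t
  true 1 (d (f (d (c (g (a (b (d (f (d (c (g (a (b e)))))))))))))), t false 1 (f (c (g (a (b (d (f
  (d (c (g (a (b (f (d e)))))))))))))), t true 1 (f (d (c (g (a (b (d (f (d (c (g (a (b (d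
  e)))))))))))))), t false 1 (g (a (b (d (f (c (d (b (c (g (a (f (c (g e)))))))))))))), t true 1 (g
  (a (b (d (f (d (c (g (a (b (d (f (d (c e))))))))))))))]

end H387G.M4
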