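import Pool.Agent.helper387_fk.Sound2
import Pool.Agent.helper387_fk.GEngine

/-!
Soundness of the rewriting of polynomials in the generators of a graph modulo the radical of the
canonical form of the Fomin-Kirillov algebra on six points.
-/

namespace H387G

open H387FK

attribute [local irreducible] H387FK.instRing H387FK.instAlg

/-- The first vertex of a letter. -/
def GD.v1 (D : GD) (k : L) : Fin 6 := (sf (D.st k)).1

/-- The second vertex of a letter. -/
def GD.v2 (D : GD) (k : L) : Fin 6 := (sf (D.st k)).2

/-- The generator of a letter. -/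
noncomputable def y (D : GD) (k : L) : FK 6 := x (D.v1 k) (D.v2 k)

/-- The laws for the data of a graph. -/
structure Law (D : GD) : Prop where
  nx1 : ∀ k s, (sf (D.nx k s)).1 = Equiv.swap (D.v1 k) (D.v2 k) (sf s).1
  nx2 : ∀ k s, (sf (D.nx k s)).2 = Equiv.swap (D.v1 k) (D.v2 k) (sf s).2
  em : ∀ k s, kap (D.v1 k) (D.v2 k) (sf s).1 (sf s).2 = sgv (D.em k s)

/-- The product of a word whose last letter is the head of the list. -/
noncomputable def ev (D : GD) : List L → FK 6
  | [] => 1
  | k :: w => ev D w * y D k

/-- The product of a word whose first letter is the head of the list. -/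
noncomputable def evf (D : GD) : List L → FK 6
  | [] => 1
  | k :: w => y D k * evf D w

/-- The skew derivation `D_ij` of a word. -/
noncomputable def Dform (D : GD) : Fin 6 → Fin 6 → List L → FK 6
  | _, _, [] => 0
  | i, j, k :: w => kap (D.v1 k) (D.v2 k) i j • ev D w +
      Dform D (Equiv.swap (D.v1 k) (D.v2 k) i) (Equiv.swap (D.v1 k) (D.v2 k) j) w * y D k

theorem B_Dform (D : GD) (w : List L) (i j : Fin 6) (u : FK 6) :
    B (x i j * u) (ev D w) = B u (Dform D i j w) := by
  induction w generalizing i j u with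
  | nil =>
    rw [ev, B_symm, B_one_left, map_mul, eps_x, zero_mul, Dform, map_zero]
  | cons k w ih =>
    rw [ev, y, B_mul_x_right, dl_x_mul, map_add, LinearMap.add_apply, ih, Dform, map_add, map_smul,
      map_smul, LinearMap.smul_apply, y, B_mul_x_right, add_comm]

theorem Eqr.mul_evf {D : GD} {u v : FK 6} (h : Eqr u v) (w : List L) :
    Eqr (u * evf D w) (v * evf D w) := by
  induction w generalizing u v with
  | nil => simpa [evf] using h
  | cons k w ih =>
    rw [evf, ← mul_assoc, ← mul_assoc]
    exact ih (h.mul_x _ _)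

theorem Eqr.ev_mul {D : GD} {u v : FK 6} (h : Eqr u v) (w : List L) :
    Eqr (ev D w * u) (ev D w * v) := by
  induction w generalizing u v with
  | nil => simpa [ev] using h
  | cons k w ih =>
    rw [ev, mul_assoc, mul_assoc]
    exact ih (h.x_mul _ _)

theorem ev_append (D : GD) (u v : List L) : ev D (u ++ v) = ev D v * ev D u := by
  induction u with
  | nil => simp [ev]
  | cons k u ih => rw [List.cons_append, ev, ih, ev, mul_assoc]

theorem evf_append (D : GD) (u v : List L) : evf D (u ++ v) = evf D u * evf D v := by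
  induction u with
  | nil => simp [evf]
  | cons k u ih => rw [List.cons_append, evf, ih, evf, mul_assoc]

theorem ev_reverse (D : GD) (w : List L) : ev D w.reverse = evf D w := by
  induction w with
  | nil => rfl
  | cons k w ih => rw [List.reverse_cons, ev_append, ih, evf]; simp [ev]

/-- The criterion. -/
theorem rad_of_D {z : FK 6} (h1 : eps z = 0)
    (hD : ∀ i j : Fin 6, i < j → ∃ z', Rad z' ∧ ∀ u, B (x i j * u) z = B u z') : Rad z := by
  intro u
  refine ind_left (p := fun u => B u z = 0) ?_ ?_ ?_ ?_ u
  · rw [B_one_left, h1]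
  · intro u v hu hv; rw [map_add, LinearMap.add_apply, hu, hv, add_zero]
  · intro c u hu; rw [map_smul, LinearMap.smul_apply, hu, smul_zero]
  · intro i j u _
    rcases lt_trichotomy i j with h | h | h
    · obtain ⟨z', hz', e⟩ := hD i j h
      rw [e, hz']
    · subst h
      rw [x_self, zero_mul, map_zero, LinearMap.zero_apply]
    · obtain ⟨z', hz', e⟩ := hD j i h
      rw [x_anti, neg_mul, map_neg, LinearMap.neg_apply, e, hz', neg_zero]

/-- Append a letter. -/
def cn : L → W → W
  | .a => W.a
  | .b => W.b
  | .c => W.c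
  | .d => W.d
  | .f => W.f
  | .g => W.g

/-- The list of letters of a word. -/
def wl : W → List L
  | .e => []
  | .a w => .a :: wl w
  | .b w => .b :: wl w
  | .c w => .c :: wl w
  | .d w => .d :: wl w
  | .f w => .f :: wl w
  | .g w => .g :: wl w

theorem wl_cn (k : L) (w : W) : wl (cn k w) = k :: wl w := by cases k <;> rfl

theorem W_ind {p : W → Prop} (h0 : p W.e) (h1 : ∀ k w, p w → p (cn k w)) : ∀ w, p w := by
  intro w
  induction w with
  | e => exact h0
  | a w ih => exact h1 .a w ih
  | b w ih => exact h1 .b w ih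
  | c w ih => exact h1 .c w ih
  | d w ih => exact h1 .d w ih
  | f w ih => exact h1 .f w ih
  | g w ih => exact h1 .g w ih

/-- The value of a tree. -/
noncomputable def evT (D : GD) : T → FK 6
  | .z => 0
  | .n p m a b c d f g => ((p : ℚ) - (m : ℚ)) • 1 +
      (evT D a * y D .a + evT D b * y D .b + evT D c * y D .c + evT D d * y D .d +
        evT D f * y D .f + evT D g * y D .g)

/-- The value of a list of terms whose words have the last letter outermost. -/
noncomputable def evL (D : GD) : List Tm → FK 6
  | [] => 0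
  | .t s q w :: r => vl s q • ev D (wl w) + evL D r

/-- The value of a list of terms whose words have the first letter outermost. -/
noncomputable def evLf (D : GD) : List Tm → FK 6
  | [] => 0
  | .t s q w :: r => vl s q • evf D (wl w) + evLf D r

/-- The skew derivation of a list of terms. -/
noncomputable def DformL (D : GD) (i j : Fin 6) : List Tm → FK 6
  | [] => 0
  | .t s q w :: r => vl s q • Dform D i j (wl w) + DformL D i j r

theorem B_DformL (D : GD) (i j : Fin 6) (p : List Tm) (u : FK 6) :
    B (x i j * u) (evL D p) = B u (DformL D i j p) := by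
  induction p with
  | nil => rw [evL, DformL, map_zero, map_zero]
  | cons tm p ih =>
    obtain ⟨s, q, w⟩ := tm
    rw [evL, DformL, map_add, map_add, map_smul, map_smul, B_Dform, ih]

theorem fo_eq (t : T) (k : T → T) : fo t k = k t := by cases t <;> rfl

theorem ins_eq (D : GD) (s : Bool) (q : ℕ) (w : W) (t : T) :
    evT D (ins s q w t) = evT D t + vl s q • ev D (wl w) := by
  revert t
  refine W_ind (p := fun w => ∀ t, evT D (ins s q w t) = evT D t + vl s q • ev D (wl w)) ?_ ?_ w
  · intro t
    cases t with
    | z =>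
      cases s
      · show evT D (T.n q 0 T.z T.z T.z T.z T.z T.z) = _
        simp [evT, vl, wl, ev]
      · show evT D (T.n 0 q T.z T.z T.z T.z T.z T.z) = _
        simp [evT, vl, wl, ev]
    | n p m a b c d f g =>
      cases s
      · show evT D (T.n (Nat.add p q) m a b c d f g) = _
        simp only [evT, vl, wl, ev, Nat.add_eq, Nat.cast_add]
        module
      · show evT D (T.n p (Nat.add m q) a b c d f g) = _
        simp only [evT, vl, wl, ev, Nat.add_eq, Nat.cast_add]
        module
  · intro k w ih t
    cases k with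
    | a =>
      cases t with
      | z =>
        show evT D (fo (ins s q w T.z) (fun r => T.n 0 0 r T.z T.z T.z T.z T.z)) = _
        rw [fo_eq]
        simp only [evT, ih, wl_cn, ev, Nat.cast_zero, sub_zero, zero_smul, zero_mul, add_zero,
          zero_add, smul_mul_assoc]
      | n p m a b c d f g =>
        show evT D (fo (ins s q w a) (fun r => T.n p m r b c d f g)) = _
        rw [fo_eq]
        simp only [evT, ih, wl_cn, ev, add_mul, smul_mul_assoc]
        abel
    | b =>
      cases t with
      | z =>
        show evT D (fo (ins s q w T.z) (fun r => T.n 0 0 T.z r T.z T.z T.z T.z)) = _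
        rw [fo_eq]
        simp only [evT, ih, wl_cn, ev, Nat.cast_zero, sub_zero, zero_smul, zero_mul, add_zero,
          zero_add, smul_mul_assoc]
      | n p m a b c d f g =>
        show evT D (fo (ins s q w b) (fun r => T.n p m a r c d f g)) = _
        rw [fo_eq]
        simp only [evT, ih, wl_cn, ev, add_mul, smul_mul_assoc]
        abel
    | c =>
      cases t with
      | z =>
        show evT D (fo (ins s q w T.z) (fun r => T.n 0 0 T.z T.z r T.z T.z T.z)) = _
        rw [fo_eq]
        simp only [evT, ih, wl_cn, ev, Nat.cast_zero, sub_zero, zero_smul, zero_mul, add_zero,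
          zero_add, smul_mul_assoc]
      | n p m a b c d f g =>
        show evT D (fo (ins s q w c) (fun r => T.n p m a b r d f g)) = _
        rw [fo_eq]
        simp only [evT, ih, wl_cn, ev, add_mul, smul_mul_assoc]
        abel
    | d =>
      cases t with
      | z =>
        show evT D (fo (ins s q w T.z) (fun r => T.n 0 0 T.z T.z T.z r T.z T.z)) = _
        rw [fo_eq]
        simp only [evT, ih, wl_cn, ev, Nat.cast_zero, sub_zero, zero_smul, zero_mul, add_zero,
          zero_add, smul_mul_assoc]
      | n p m a b c d f g =>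
        show evT D (fo (ins s q w d) (fun r => T.n p m a b c r f g)) = _
        rw [fo_eq]
        simp only [evT, ih, wl_cn, ev, add_mul, smul_mul_assoc]
        abel
    | f =>
      cases t with
      | z =>
        show evT D (fo (ins s q w T.z) (fun r => T.n 0 0 T.z T.z T.z T.z r T.z)) = _
        rw [fo_eq]
        simp only [evT, ih, wl_cn, ev, Nat.cast_zero, sub_zero, zero_smul, zero_mul, add_zero,
          zero_add, smul_mul_assoc]
      | n p m a b c d f g =>
        show evT D (fo (ins s q w f) (fun r => T.n p m a b c d r g)) = _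
        rw [fo_eq]
        simp only [evT, ih, wl_cn, ev, add_mul, smul_mul_assoc]
        abel
    | g =>
      cases t with
      | z =>
        show evT D (fo (ins s q w T.z) (fun r => T.n 0 0 T.z T.z T.z T.z T.z r)) = _
        rw [fo_eq]
        simp only [evT, ih, wl_cn, ev, Nat.cast_zero, sub_zero, zero_smul, zero_mul, add_zero,
          zero_add, smul_mul_assoc]
      | n p m a b c d f g =>
        show evT D (fo (ins s q w g) (fun r => T.n p m a b c d f r)) = _
        rw [fo_eq]
        simp only [evT, ih, wl_cn, ev, add_mul, smul_mul_assoc]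
        abel

theorem wl_app (v w : W) : wl (app v w) = wl v ++ wl w := by
  refine W_ind (p := fun v => wl (app v w) = wl v ++ wl w) ?_ ?_ v
  · rfl
  · intro k v ih
    cases k <;> exact congrArg _ ih

theorem wl_rapp (v w : W) : wl (rapp v w) = (wl v).reverse ++ wl w := by
  revert w
  refine W_ind (p := fun v => ∀ w, wl (rapp v w) = (wl v).reverse ++ wl w) ?_ ?_ v
  · intro w; rfl
  · intro k v ih w
    have h : rapp (cn k v) w = rapp v (cn k w) := by cases k <;> rfl
    rw [h, ih, wl_cn, wl_cn, List.reverse_cons, List.append_assoc, List.singleton_append]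

/-- `mem r u p`: the table has the rule `u ↦ p`. -/
def mem : R → List L → List Tm → Prop
  | .nil, _, _ => False
  | .hit q, u, p => u = [] ∧ p = q
  | .br _ _ _ _ _ _, [], _ => False
  | .br r1 _ _ _ _ _, .a :: u, p => mem r1 u p
  | .br _ r2 _ _ _ _, .b :: u, p => mem r2 u p
  | .br _ _ r3 _ _ _, .c :: u, p => mem r3 u p
  | .br _ _ _ r4 _ _, .d :: u, p => mem r4 u p
  | .br _ _ _ _ r5 _, .f :: u, p => mem r5 u p
  | .br _ _ _ _ _ r6, .g :: u, p => mem r6 u p

theorem find_spec (r : R) (w : W) :
    (∃ u w' p, wl w = u ++ wl w' ∧ mem r u p ∧ ∀ g x, find r w g x = g p w') ∨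
      (∀ g x, find r w g x = x) := by
  induction r generalizing w with
  | nil => exact Or.inr fun _ _ => rfl
  | hit p => exact Or.inl ⟨[], w, p, rfl, ⟨rfl, rfl⟩, fun _ _ => rfl⟩
  | br r1 r2 r3 r4 r5 r6 i1 i2 i3 i4 i5 i6 =>
    cases w with
    | e => exact Or.inr fun _ _ => rfl
    | a w =>
      rcases i1 w with ⟨u, w', p, h1, h2, h3⟩ | h
      · exact Or.inl ⟨.a :: u, w', p, congrArg _ h1, h2, h3⟩
      · exact Or.inr h
    | b w =>
      rcases i2 w with ⟨u, w', p, h1, h2, h3⟩ | h
      · exact Or.inl ⟨.b :: u, w', p, congrArg _ h1, h2, h3⟩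
      · exact Or.inr h
    | c w =>
      rcases i3 w with ⟨u, w', p, h1, h2, h3⟩ | h
      · exact Or.inl ⟨.c :: u, w', p, congrArg _ h1, h2, h3⟩
      · exact Or.inr h
    | d w =>
      rcases i4 w with ⟨u, w', p, h1, h2, h3⟩ | h
      · exact Or.inl ⟨.d :: u, w', p, congrArg _ h1, h2, h3⟩
      · exact Or.inr h
    | f w =>
      rcases i5 w with ⟨u, w', p, h1, h2, h3⟩ | h
      · exact Or.inl ⟨.f :: u, w', p, congrArg _ h1, h2, h3⟩
      · exact Or.inr h
    | g w =>
      rcases i6 w with ⟨u, w', p, h1, h2, h3⟩ | h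
      · exact Or.inl ⟨.g :: u, w', p, congrArg _ h1, h2, h3⟩
      · exact Or.inr h

/-- All rules of length at most `N` are valid modulo the radical. -/
def Val (D : GD) (N : ℕ) : Prop :=
  ∀ k u p, mem (D.tab k) u p → u.length + 1 ≤ N → Eqr (ev D (k :: u)) (evLf D p)

/-- All words in the list of terms have length `m`. -/
def Len (m : ℕ) : List Tm → Prop
  | [] => True
  | .t _ _ w :: r => (wl w).length = m ∧ Len m r

/-- All rules are homogeneous. -/
def Hom (D : GD) : Prop := ∀ k u p, mem (D.tab k) u p → Len (u.length + 1) p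

theorem fold_sound {D : GD} {N : ℕ} {h : W → W → Bool → ℕ → T → T}
    (hh : ∀ pre todo s q acc, (wl pre).length + (wl todo).length ≤ N →
      Eqr (evT D (h pre todo s q acc))
        (evT D acc + vl s q • (ev D (wl pre) * evf D (wl todo))))
    (pre todo : W) (s : Bool) (q : ℕ) (m : ℕ) (p : List Tm) (hp : Len m p)
    (hm : (wl pre).length + m + (wl todo).length ≤ N) (acc : T) :
    Eqr (evT D (fold p h pre todo s q acc))
      (evT D acc + vl s q • (ev D (wl pre) * evLf D p * evf D (wl todo))) := by
  induction p generalizing acc with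
  | nil =>
    show Eqr (evT D acc) _
    rw [evLf, mul_zero, zero_mul, smul_zero, add_zero]
    exact Eqr.refl _
  | cons tm p ih =>
    obtain ⟨s', q', w'⟩ := tm
    show Eqr (evT D (fo (h pre (app w' todo) (bxor s s') (Nat.mul q q') acc)
      (fun acc => fold p h pre todo s q acc))) _
    rw [fo_eq]
    have h1 := ih hp.2 (h pre (app w' todo) (bxor s s') (Nat.mul q q') acc)
    refine h1.trans ?_
    have h2 := hh pre (app w' todo) (bxor s s') (Nat.mul q q') acc (by
      rw [wl_app, List.length_append, hp.1]; omega)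
    refine (h2.add (Eqr.refl _)).trans (Eqr.of_eq ?_)
    rw [vl_bxor, wl_app, evf_append, evLf]
    simp only [mul_add, add_mul, mul_smul_comm, smul_mul_assoc, mul_assoc, smul_add, smul_smul]
    abel

theorem nf_succ (D : GD) (fuel : ℕ) (pre : W) (k : L) (w : W) (s : Bool) (q : ℕ) (acc : T) :
    nf D (fuel + 1) pre (cn k w) s q acc =
      find (D.tab k) pre (fun p pre' => fold p (nf D fuel) pre' w s q acc)
        (nf D fuel (cn k pre) w s q acc) := by
  cases k <;> rfl

theorem nf_sound {D : GD} {N : ℕ} (hV : Val D N) (hH : Hom D) (fuel : ℕ) :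
    ∀ pre todo s q acc, (wl pre).length + (wl todo).length ≤ N →
      Eqr (evT D (nf D fuel pre todo s q acc))
        (evT D acc + vl s q • (ev D (wl pre) * evf D (wl todo))) := by
  induction fuel with
  | zero =>
    intro pre todo s q acc _
    show Eqr (evT D (ins s q (rapp todo pre) acc)) _
    rw [ins_eq, wl_rapp, ev_append, ev_reverse]
    exact Eqr.refl _
  | succ fuel ih =>
    intro pre todo s q acc hN
    revert hN
    refine W_ind (p := fun todo => (wl pre).length + (wl todo).length ≤ N →
      Eqr (evT D (nf D (fuel + 1) pre todo s q acc))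
        (evT D acc + vl s q • (ev D (wl pre) * evf D (wl todo)))) ?_ ?_ todo
    · intro _
      show Eqr (evT D (ins s q pre acc)) _
      rw [ins_eq, wl, evf, mul_one]
      exact Eqr.refl _
    · intro k w _ hN
      rw [wl_cn, List.length_cons] at hN
      rw [nf_succ]
      rcases find_spec (D.tab k) pre with ⟨u, w', p, h1, h2, h3⟩ | h3
      · rw [h3]
        have hlen : (wl pre).length = u.length + (wl w').length := by
          rw [h1, List.length_append]
        refine (fold_sound ih w' w s q (u.length + 1) p (hH k u p h2) (by omega) acc).trans ?_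
        refine (Eqr.refl _).add (Eqr.smul _ ?_)
        have hv := hV k u p h2 (by omega)
        refine (Eqr.mul_evf (Eqr.ev_mul hv.symm (wl w')) (wl w)).trans (Eqr.of_eq ?_)
        rw [h1, ev_append, wl_cn, ev, evf]
        simp only [mul_assoc]
      · rw [h3]
        refine (ih (cn k pre) w s q acc (by rw [wl_cn, List.length_cons]; omega)).trans
          (Eqr.of_eq ?_)
        rw [wl_cn, wl_cn, ev, evf, mul_assoc]

theorem Dw_cn (D : GD) (k : L) (w : W) (st : S) (todo : W) (s : Bool) (q : ℕ) (acc : T) :
    Dw D (cn k w) st todo s q acc = Sg.rec (motive := fun _ => T)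
      (Dw D w (D.nx k st) (cn k todo) s q acc)
      (fo (nf D 200 w todo s q acc) (Dw D w (D.nx k st) (cn k todo) s q))
      (fo (nf D 200 w todo (bnot s) q acc) (Dw D w (D.nx k st) (cn k todo) s q)) (D.em k st) := by
  cases k <;> rfl

theorem Dw_sound {D : GD} (hL : Law D) {N : ℕ} (hV : Val D N) (hH : Hom D) (w : W) :
    ∀ st todo s q acc, (wl w).length + (wl todo).length ≤ N + 1 →
      Eqr (evT D (Dw D w st todo s q acc))
        (evT D acc + vl s q • (Dform D (sf st).1 (sf st).2 (wl w) * evf D (wl todo))) := by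
  refine W_ind (p := fun w => ∀ st todo s q acc, (wl w).length + (wl todo).length ≤ N + 1 →
      Eqr (evT D (Dw D w st todo s q acc))
        (evT D acc + vl s q • (Dform D (sf st).1 (sf st).2 (wl w) * evf D (wl todo)))) ?_ ?_ w
  · intro st todo s q acc _
    show Eqr (evT D acc) _
    rw [wl, Dform, zero_mul, smul_zero, add_zero]
    exact Eqr.refl _
  · intro k w ih st todo s q acc hN
    rw [wl_cn, List.length_cons] at hN
    rw [Dw_cn, wl_cn, Dform, hL.em]
    have ih' := ih (D.nx k st) (cn k todo) s q
    rw [hL.nx1, hL.nx2] at ih'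
    have hlen : (wl w).length + (wl (cn k todo)).length ≤ N + 1 := by
      rw [wl_cn, List.length_cons]; omega
    cases hem : D.em k st with
    | no =>
      refine (ih' acc hlen).trans (Eqr.of_eq ?_)
      rw [wl_cn, evf]
      simp only [sgv, zero_smul, zero_add, mul_assoc]
    | po =>
      show Eqr (evT D (fo (nf D 200 w todo s q acc) (Dw D w (D.nx k st) (cn k todo) s q))) _
      rw [fo_eq]
      refine (ih' _ hlen).trans ?_
      refine ((nf_sound hV hH 200 w todo s q acc (by omega)).add (Eqr.refl _)).trans
        (Eqr.of_eq ?_)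
      rw [wl_cn, evf]
      simp only [sgv, one_smul, add_mul, smul_add, mul_assoc]
      abel
    | ne =>
      show Eqr (evT D (fo (nf D 200 w todo (bnot s) q acc)
        (Dw D w (D.nx k st) (cn k todo) s q))) _
      rw [fo_eq]
      refine (ih' _ hlen).trans ?_
      refine ((nf_sound hV hH 200 w todo (bnot s) q acc (by omega)).add (Eqr.refl _)).trans
        (Eqr.of_eq ?_)
      rw [wl_cn, evf, vl_bnot]
      simp only [sgv, neg_smul, one_smul, neg_mul, add_mul, smul_add, smul_neg, mul_assoc]
      abel

/-- All words in the list of terms have length at most `m`. -/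
def LenLe (m : ℕ) : List Tm → Prop
  | [] => True
  | .t _ _ w :: r => (wl w).length ≤ m ∧ LenLe m r

theorem DP_sound {D : GD} (hL : Law D) {N : ℕ} (hV : Val D N) (hH : Hom D) (st : S) (sg : Bool)
    (p : List Tm) (hp : LenLe (N + 1) p) (acc : T) :
    Eqr (evT D (DP D st sg p acc)) (evT D acc + vl sg 1 • DformL D (sf st).1 (sf st).2 p) := by
  induction p generalizing acc with
  | nil =>
    show Eqr (evT D acc) _
    rw [DformL, smul_zero, add_zero]
    exact Eqr.refl _
  | cons tm p ih =>
    obtain ⟨s, q, w⟩ := tm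
    show Eqr (evT D (fo (Dw D w st W.e (bxor sg s) q acc) (fun acc => DP D st sg p acc))) _
    rw [fo_eq]
    refine (ih hp.2 _).trans ?_
    have h2 := Dw_sound hL hV hH w st W.e (bxor sg s) q acc
      (by have := hp.1; simp only [wl, List.length_nil]; omega)
    refine (h2.add (Eqr.refl _)).trans (Eqr.of_eq ?_)
    have h3 : vl (bxor sg s) q = vl sg 1 * vl s q := by
      have := vl_bxor sg s 1 q
      rwa [Nat.mul_eq, one_mul] at this
    rw [h3, DformL, wl, evf, mul_one, smul_add, smul_smul]
    abel

theorem isz_sound (D : GD) (t : T) (h : isz t = true) : evT D t = 0 := by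
  induction t with
  | z => rfl
  | n p m a b c d f g iha ihb ihc ihd ihf ihg =>
    obtain ⟨h0, h⟩ := band_eq (s := Nat.beq p m) h
    obtain ⟨h1, h⟩ := band_eq (s := isz a) h
    obtain ⟨h2, h⟩ := band_eq (s := isz b) h
    obtain ⟨h3, h⟩ := band_eq (s := isz c) h
    obtain ⟨h4, h⟩ := band_eq (s := isz d) h
    obtain ⟨h5, h6⟩ := band_eq (s := isz f) h
    rw [evT, iha h1, ihb h2, ihc h3, ihd h4, ihf h5, ihg h6, Nat.eq_of_beq_eq_true h0]
    simp

theorem eps_y (D : GD) (k : L) : eps (y D k) = 0 := eps_x _ _

theorem LenLe_exists (p : List Tm) : ∃ N, LenLe (N + 1) p := by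
  have mono : ∀ (p : List Tm) (m n : ℕ), m ≤ n → LenLe m p → LenLe n p := by
    intro p
    induction p with
    | nil => intro m n _ _; trivial
    | cons tm p ih =>
      obtain ⟨s, q, w⟩ := tm
      intro m n hmn h
      exact ⟨h.1.trans hmn, ih m n hmn h.2⟩
  induction p with
  | nil => exact ⟨0, trivial⟩
  | cons tm p ih =>
    obtain ⟨s, q, w⟩ := tm
    obtain ⟨N, hN⟩ := ih
    refine ⟨max N (wl w).length, ?_, mono p _ _ ?_ hN⟩
    · exact (le_max_right _ _).trans (Nat.le_succ _)
    · exact Nat.succ_le_succ (le_max_left _ _)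

theorem evL_revP (D : GD) (p : List Tm) : evL D (revP p) = evLf D p := by
  induction p with
  | nil => rfl
  | cons tm p ih =>
    obtain ⟨s, q, w⟩ := tm
    show evL D (Tm.t s q (rapp w W.e) :: revP p) = _
    rw [evL, ih, evLf, wl_rapp, wl, List.append_nil, ev_reverse]

theorem wlength_ind {p : W → W → Prop} (h0 : p W.e W.e)
    (h1 : ∀ k k' w w', p w w' → p (cn k w) (cn k' w')) (h2 : ∀ k w, p W.e (cn k w))
    (h3 : ∀ k w, p (cn k w) W.e) : ∀ w w', p w w' := by
  intro w
  refine W_ind (p := fun w => ∀ w', p w w') ?_ ?_ w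
  · intro w'
    exact W_ind (p := fun w' => p W.e w') h0 (fun k w _ => h2 k w) w'
  · intro k w ih w'
    exact W_ind (p := fun w' => p (cn k w) w') (h3 k w) (fun k' w' _ => h1 k k' w w' (ih w')) w'

theorem eqlen_sound (v w : W) : eqlen v w = true → (wl v).length = (wl w).length := by
  refine wlength_ind (p := fun v w => eqlen v w = true → (wl v).length = (wl w).length)
    ?_ ?_ ?_ ?_ v w
  · intro _; rfl
  · intro k k' w w' ih h
    rw [wl_cn, wl_cn, List.length_cons, List.length_cons]
    refine congrArg _ (ih ?_)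
    rw [← h]
    cases k <;> cases k' <;> rfl
  · intro k w h
    cases k <;> exact absurd h (by intro h; exact Bool.noConfusion h)
  · intro k w h
    cases k <;> exact absurd h (by intro h; exact Bool.noConfusion h)

theorem hom_sound (u : W) (p : List Tm) (h : hom u p = true) : Len (wl u).length p := by
  induction p with
  | nil => trivial
  | cons tm p ih =>
    obtain ⟨s, q, w⟩ := tm
    obtain ⟨h1, h2⟩ := band_eq (s := eqlen u w) h
    exact ⟨(eqlen_sound u w h1).symm, ih h2⟩

theorem LenLe_revP {m : ℕ} {p : List Tm} (h : Len m p) : LenLe m (revP p) := by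
  induction p with
  | nil => trivial
  | cons tm p ih =>
    obtain ⟨s, q, w⟩ := tm
    refine ⟨?_, ih h.2⟩
    rw [wl_rapp, wl, List.append_nil, List.length_reverse, h.1]

theorem eps_ev_cons (D : GD) (k : L) (w : List L) : eps (ev D (k :: w)) = 0 := by
  rw [ev, map_mul, eps_y, mul_zero]

theorem eps_evf_cons (D : GD) (k : L) (w : List L) : eps (evf D (k :: w)) = 0 := by
  rw [evf, map_mul, eps_y, zero_mul]

theorem eps_evLf (D : GD) {m : ℕ} {p : List Tm} (h : Len (m + 1) p) : eps (evLf D p) = 0 := by
  induction p with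
  | nil => exact map_zero _
  | cons tm p ih =>
    obtain ⟨s, q, w⟩ := tm
    have h1 := h.1
    rw [evLf, map_add, ih h.2, map_smul, add_zero]
    cases hw : wl w with
    | nil => rw [hw] at h1; exact absurd h1 (by simp)
    | cons k w => rw [eps_evf_cons, smul_zero]

/-- The states of the test. -/
def isPos : S → Prop := fun s => (sf s).1 < (sf s).2

theorem all15_sound {h : S → Bool} (ha : all15 h = true) (s : S) (hs : (sf s).1 < (sf s).2) :
    h s = true := by
  obtain ⟨h1, ha⟩ := band_eq ha
  obtain ⟨h2, ha⟩ := band_eq ha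
  obtain ⟨h3, ha⟩ := band_eq ha
  obtain ⟨h4, ha⟩ := band_eq ha
  obtain ⟨h5, ha⟩ := band_eq ha
  obtain ⟨h6, ha⟩ := band_eq ha
  obtain ⟨h7, ha⟩ := band_eq ha
  obtain ⟨h8, ha⟩ := band_eq ha
  obtain ⟨h9, ha⟩ := band_eq ha
  obtain ⟨h10, ha⟩ := band_eq ha
  obtain ⟨h11, ha⟩ := band_eq ha
  obtain ⟨h12, ha⟩ := band_eq ha
  obtain ⟨h13, ha⟩ := band_eq ha
  obtain ⟨h14, ha⟩ := band_eq ha
  cases s
  · exact h1
  · exact h2
  · exact h3
  · exact h4
  · exact h5
  · exact absurd hs (by decide)
  · exact h6
  · exact h7
  · exact h8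
  · exact h9
  · exact absurd hs (by decide)
  · exact absurd hs (by decide)
  · exact h10
  · exact h11
  · exact h12
  · exact absurd hs (by decide)
  · exact absurd hs (by decide)
  · exact absurd hs (by decide)
  · exact h13
  · exact h14
  · exact absurd hs (by decide)
  · exact absurd hs (by decide)
  · exact absurd hs (by decide)
  · exact absurd hs (by decide)
  · exact ha
  · exact absurd hs (by decide)
  · exact absurd hs (by decide)
  · exact absurd hs (by decide)
  · exact absurd hs (by decide)
  · exact absurd hs (by decide)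

theorem exists_state (i j : Fin 6) (h : i < j) : ∃ s : S, sf s = (i, j) := by
  revert i j
  intro i j
  fin_cases i <;> fin_cases j <;> intro h
  · exact absurd h (by decide)
  · exact ⟨.s12, rfl⟩
  · exact ⟨.s13, rfl⟩
  · exact ⟨.s14, rfl⟩
  · exact ⟨.s15, rfl⟩
  · exact ⟨.s16, rfl⟩
  · exact absurd h (by decide)
  · exact absurd h (by decide)
  · exact ⟨.s23, rfl⟩
  · exact ⟨.s24, rfl⟩
  · exact ⟨.s25, rfl⟩
  · exact ⟨.s26, rfl⟩
  · exact absurd h (by decide)
  · exact absurd h (by decide)
  · exact absurd h (by decide)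
  · exact ⟨.s34, rfl⟩
  · exact ⟨.s35, rfl⟩
  · exact ⟨.s36, rfl⟩
  · exact absurd h (by decide)
  · exact absurd h (by decide)
  · exact absurd h (by decide)
  · exact absurd h (by decide)
  · exact ⟨.s45, rfl⟩
  · exact ⟨.s46, rfl⟩
  · exact absurd h (by decide)
  · exact absurd h (by decide)
  · exact absurd h (by decide)
  · exact absurd h (by decide)
  · exact absurd h (by decide)
  · exact ⟨.s56, rfl⟩
  · exact absurd h (by decide)
  · exact absurd h (by decide)
  · exact absurd h (by decide)
  · exact absurd h (by decide)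
  · exact absurd h (by decide)
  · exact absurd h (by decide)

theorem chk1_sound {D : GD} (hL : Law D) {N : ℕ} (hV : Val D N) (hH : Hom D) (st : S) (u : W)
    (p : List Tm) (hu : (wl u).length = N + 1) (hp : Len (N + 1) p)
    (h : chk1 D u p st = true) :
    Rad (Dform D (sf st).1 (sf st).2 (wl u) - DformL D (sf st).1 (sf st).2 (revP p)) := by
  have h0 := isz_sound D _ h
  have h1 := Dw_sound hL hV hH u st W.e false 1 T.z (by rw [wl, List.length_nil]; omega)
  have h2 := DP_sound hL hV hH st true (revP p) (LenLe_revP hp) (Dw D u st W.e false 1 T.z)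
  have h3 := h2.trans (h1.add (Eqr.refl _))
  rw [h0] at h3
  have h4 := h3.symm.rad Rad.zero
  have e : Dform D (sf st).1 (sf st).2 (wl u) - DformL D (sf st).1 (sf st).2 (revP p) =
      evT D T.z + vl false 1 • (Dform D (sf st).1 (sf st).2 (wl u) * evf D (wl W.e)) +
        vl true 1 • DformL D (sf st).1 (sf st).2 (revP p) := by
    simp only [evT, vl, wl, evf, Nat.cast_one, one_smul, mul_one, zero_add, neg_smul,
      sub_eq_add_neg]
  rw [e]
  exact h4

theorem chk_sound {D : GD} (hL : Law D) {N : ℕ} (hV : Val D N) (hH : Hom D) (u : W)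
    (p : List Tm) (hu : (wl u).length = N + 1) (h : chk D u p = true) :
    Eqr (ev D (wl u)) (evLf D p) := by
  obtain ⟨h0, h⟩ := band_eq h
  have hp := hom_sound u p h0
  rw [hu] at hp
  unfold Eqr
  rw [← evL_revP]
  refine rad_of_D ?_ ?_
  · rw [map_sub, evL_revP, eps_evLf D hp, sub_zero]
    cases hw : wl u with
    | nil => rw [hw] at hu; exact absurd hu (by simp)
    | cons k w => exact eps_ev_cons _ _ _
  · intro i j hij
    obtain ⟨s, hs⟩ := exists_state i j hij
    have h1 := all15_sound h s (by rw [hs]; exact hij)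
    refine ⟨_, chk1_sound hL hV hH s u p hu hp h1, ?_⟩
    intro v
    rw [hs, map_sub, map_sub, B_Dform, B_DformL]

theorem chkR_sound {D : GD} (r : R) (g : W) (h : chkR D r g = true) (u : List L) (p : List Tm)
    (hm : mem r u p) : ∃ v : W, wl v = (wl g).reverse ++ u ∧ chk D v p = true := by
  induction r generalizing g u with
  | nil => exact absurd hm (by simp [mem])
  | hit q =>
    obtain ⟨rfl, rfl⟩ := hm
    refine ⟨rapp g W.e, ?_, h⟩
    rw [wl_rapp, wl]
  | br r1 r2 r3 r4 r5 r6 i1 i2 i3 i4 i5 i6 =>
    obtain ⟨h1, h⟩ := band_eq (s := chkR D r1 (W.a g)) h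
    obtain ⟨h2, h⟩ := band_eq (s := chkR D r2 (W.b g)) h
    obtain ⟨h3, h⟩ := band_eq (s := chkR D r3 (W.c g)) h
    obtain ⟨h4, h⟩ := band_eq (s := chkR D r4 (W.d g)) h
    obtain ⟨h5, h6⟩ := band_eq (s := chkR D r5 (W.f g)) h
    cases u with
    | nil => exact absurd hm (by simp [mem])
    | cons k u =>
      cases k with
      | a =>
        obtain ⟨v, hv, hc⟩ := i1 (W.a g) h1 u hm
        exact ⟨v, by rw [hv, wl, List.reverse_cons, List.append_assoc, List.singleton_append], hc⟩
      | b =>
        obtain ⟨v, hv, hc⟩ := i2 (W.b g) h2 u hm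
        exact ⟨v, by rw [hv, wl, List.reverse_cons, List.append_assoc, List.singleton_append], hc⟩
      | c =>
        obtain ⟨v, hv, hc⟩ := i3 (W.c g) h3 u hm
        exact ⟨v, by rw [hv, wl, List.reverse_cons, List.append_assoc, List.singleton_append], hc⟩
      | d =>
        obtain ⟨v, hv, hc⟩ := i4 (W.d g) h4 u hm
        exact ⟨v, by rw [hv, wl, List.reverse_cons, List.append_assoc, List.singleton_append], hc⟩
      | f =>
        obtain ⟨v, hv, hc⟩ := i5 (W.f g) h5 u hm
        exact ⟨v, by rw [hv, wl, List.reverse_cons, List.append_assoc, List.singleton_append], hc⟩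
      | g =>
        obtain ⟨v, hv, hc⟩ := i6 (W.g g) h6 u hm
        exact ⟨v, by rw [hv, wl, List.reverse_cons, List.append_assoc, List.singleton_append], hc⟩

/-- The table has passed the test. -/
def Chk (D : GD) : Prop := ∀ k, chkR D (D.tab k) (cn k W.e) = true

theorem Chk.hom {D : GD} (hC : Chk D) : Hom D := by
  intro k u p hm
  obtain ⟨v, hv, hc⟩ := chkR_sound _ _ (hC k) u p hm
  obtain ⟨h0, _⟩ := band_eq hc
  have := hom_sound v p h0
  rwa [hv, wl_cn, wl, List.reverse_cons, List.reverse_nil, List.nil_append, List.singleton_append,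
    List.length_cons] at this

theorem Chk.val {D : GD} (hL : Law D) (hC : Chk D) : ∀ N, Val D N := by
  intro N
  induction N with
  | zero => intro k u p _ h; omega
  | succ N ih =>
    intro k u p hm hN
    rcases Nat.lt_or_ge N (u.length + 1) with hlt | hle
    · obtain ⟨v, hv, hc⟩ := chkR_sound _ _ (hC k) u p hm
      have hv' : wl v = k :: u := by
        rw [hv, wl_cn, wl, List.reverse_cons, List.reverse_nil, List.nil_append,
          List.singleton_append]
      have := chk_sound hL ih hC.hom v p (by rw [hv', List.length_cons]; omega) hc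
      rwa [hv'] at this
    · exact ih k u p hm hle

theorem DP_sound' {D : GD} (hL : Law D) (hC : Chk D) (st : S) (sg : Bool) (p : List Tm)
    (acc : T) :
    Eqr (evT D (DP D st sg p acc)) (evT D acc + vl sg 1 • DformL D (sf st).1 (sf st).2 p) := by
  obtain ⟨N, hN⟩ := LenLe_exists p
  exact DP_sound hL (hC.val hL N) hC.hom st sg p hN acc

/-- A polynomial which passes the test lies in the radical. -/
theorem chkQ_sound {D : GD} (hL : Law D) (hC : Chk D) {m : ℕ} (p : List Tm) (hp : Len (m + 1) p)
    (h : chkQ D p = true) : Rad (evLf D p) := by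
  rw [← evL_revP]
  refine rad_of_D ?_ ?_
  · rw [evL_revP, eps_evLf D hp]
  · intro i j hij
    obtain ⟨s, hs⟩ := exists_state i j hij
    have h1 := all15_sound h s (by rw [hs]; exact hij)
    refine ⟨DformL D (sf s).1 (sf s).2 (revP p), ?_, ?_⟩
    · have h2 := DP_sound' hL hC s false (revP p) T.z
      rw [isz_sound D _ h1] at h2
      have h3 := h2.symm.rad Rad.zero
      simpa [evT, vl] using h3
    · intro u
      rw [hs]
      exact B_DformL _ _ _ _ _

theorem pr_cn (D : GD) (k : L) (w : W) (t : H387FK.T) :
    pr D (cn k w) t = H387FK.fo (H387FK.DP (D.st k) false (toL t) H387FK.T.z) (pr D w) := by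
  cases k <;> rfl

theorem pr_sound (hC : H387FK.Chk) (D : GD) (w : W) (t : H387FK.T) :
    eps (H387FK.evT (pr D w t)) = B (evf D (wl w)) (H387FK.evT t) := by
  revert t
  refine W_ind (p := fun w => ∀ t, eps (H387FK.evT (pr D w t)) =
    B (evf D (wl w)) (H387FK.evT t)) ?_ ?_ w
  · intro t
    show eps (H387FK.evT t) = B 1 (H387FK.evT t)
    rw [B_one_left]
  · intro k w ih t
    rw [pr_cn, H387FK.fo_eq, ih, wl_cn, evf, y]
    have h := H387FK.DP_sound' hC.val hC.hom (D.st k) false (toL t) H387FK.T.z
    rw [h.B_eq, ← evL_toL t, GD.v1, GD.v2, H387FK.B_DformL]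
    simp [H387FK.evT, vl]

/-- The functional which is given by star polynomials. -/
noncomputable def phW (D : GD) (z : L → FK 6) : List L → ℚ
  | [] => 0
  | k :: w => B (evf D w) (z k)

noncomputable def phL (D : GD) (z : L → FK 6) : List Tm → ℚ
  | [] => 0
  | .t s q w :: r => vl s q * phW D z (wl w) + phL D z r

theorem ph_sound (hC : H387FK.Chk) (D : GD) (cc : L → H387FK.T) (p : List Tm)
    (acc : H387FK.T) :
    eps (H387FK.evT (ph D cc p acc)) =
      eps (H387FK.evT acc) + phL D (fun k => H387FK.evT (cc k)) p := by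
  induction p generalizing acc with
  | nil => show eps (H387FK.evT acc) = _ + 0; rw [add_zero]
  | cons tm p ih =>
    obtain ⟨s, q, w⟩ := tm
    rw [phL, ← add_assoc]
    cases w with
    | e =>
      show eps (H387FK.evT (H387FK.fo acc (fun acc => ph D cc p acc))) = _
      rw [H387FK.fo_eq, ih, wl, phW, mul_zero, add_zero]
    | a w =>
      show eps (H387FK.evT (H387FK.fo (addr s q (pr D w (cc L.a)) acc)
        (fun acc => ph D cc p acc))) = _
      rw [H387FK.fo_eq, ih, addr_sound, pr_sound hC, wl, phW]
    | b w =>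
      show eps (H387FK.evT (H387FK.fo (addr s q (pr D w (cc L.b)) acc)
        (fun acc => ph D cc p acc))) = _
      rw [H387FK.fo_eq, ih, addr_sound, pr_sound hC, wl, phW]
    | c w =>
      show eps (H387FK.evT (H387FK.fo (addr s q (pr D w (cc L.c)) acc)
        (fun acc => ph D cc p acc))) = _
      rw [H387FK.fo_eq, ih, addr_sound, pr_sound hC, wl, phW]
    | d w =>
      show eps (H387FK.evT (H387FK.fo (addr s q (pr D w (cc L.d)) acc)
        (fun acc => ph D cc p acc))) = _
      rw [H387FK.fo_eq, ih, addr_sound, pr_sound hC, wl, phW]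
    | f w =>
      show eps (H387FK.evT (H387FK.fo (addr s q (pr D w (cc L.f)) acc)
        (fun acc => ph D cc p acc))) = _
      rw [H387FK.fo_eq, ih, addr_sound, pr_sound hC, wl, phW]
    | g w =>
      show eps (H387FK.evT (H387FK.fo (addr s q (pr D w (cc L.g)) acc)
        (fun acc => ph D cc p acc))) = _
      rw [H387FK.fo_eq, ih, addr_sound, pr_sound hC, wl, phW]

end H387G
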