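import Pool.Agent.helper387_fk.Power
import Pool.Agent.helper387_fk.Table

/-!
The powers of the element of degree 14 are linearly independent.
-/

namespace H387FK

attribute [local irreducible] instRing instAlg

/-- The length of a word. -/
def wlen : W → Nat
  | .e => 0
  | .a w => wlen w + 1
  | .b w => wlen w + 1
  | .c w => wlen w + 1
  | .d w => wlen w + 1
  | .f w => wlen w + 1

/-- All words of a list have length `m`. -/
def lenL (m : Nat) : List Tm → Bool
  | [] => true
  | .t _ _ w :: r => and (Nat.beq (wlen w) m) (lenL m r)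

/-- All words of a list of lists have length `m`. -/
def lenLL (m : Nat) : List (List Tm) → Bool
  | [] => true
  | p :: r => and (lenL m p) (lenLL m r)

theorem len12 : lenLL 13 c12 = true := by decide +kernel
theorem len13 : lenLL 13 c13 = true := by decide +kernel
theorem len14 : lenLL 13 c14 = true := by decide +kernel
theorem len15 : lenLL 13 c15 = true := by decide +kernel
theorem len23 : lenLL 13 c23 = true := by decide +kernel
theorem len24 : lenLL 13 c24 = true := by decide +kernel
theorem len25 : lenLL 13 c25 = true := by decide +kernel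
theorem len34 : lenLL 13 c34 = true := by decide +kernel
theorem len35 : lenLL 13 c35 = true := by decide +kernel
theorem len45 : lenLL 13 c45 = true := by decide +kernel
theorem len56 : lenLL 13 c56 = true := by decide +kernel

/-- The transposition of a letter. -/
def sw (k i : Fin 6) : Fin 6 := if i = k then 5 else if i = 5 then k else i

/-- The action of the product of the transpositions of the letters of a word. -/
def apw : W → Fin 6 → Fin 6
  | .e, i => i
  | .a w, i => sw 0 (apw w i)
  | .b w, i => sw 1 (apw w i)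
  | .c w, i => sw 2 (apw w i)
  | .d w, i => sw 3 (apw w i)
  | .f w, i => sw 4 (apw w i)

/-- The product of the transpositions is trivial for all words of a list. -/
def allE : List Tm → Bool
  | [] => true
  | .t _ _ w :: r => and (decide (∀ i : Fin 6, apw w i = i)) (allE r)

theorem allE_Pw : allE Pw = true := by decide +kernel

theorem ev_wl_mem (w : W) : ev (wl w) ∈ deg 6 (wlen w) := by
  induction w with
  | e => exact one_mem_deg
  | a w ih => exact mul_x_mem_deg _ _ ih
  | b w ih => exact mul_x_mem_deg _ _ ih
  | c w ih => exact mul_x_mem_deg _ _ ih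
  | d w ih => exact mul_x_mem_deg _ _ ih
  | f w ih => exact mul_x_mem_deg _ _ ih

theorem evL_mem {m : Nat} (p : List Tm) (h : lenL m p = true) : evL p ∈ deg 6 m := by
  induction p with
  | nil => exact Submodule.zero_mem _
  | cons tm p ih =>
    obtain ⟨s, q, w⟩ := tm
    rw [lenL, Bool.and_eq_true] at h
    refine Submodule.add_mem _ (Submodule.smul_mem _ _ ?_) (ih h.2)
    have e := Nat.eq_of_beq_eq_true h.1
    rw [← e]
    exact ev_wl_mem w

theorem evLL_mem {m : Nat} (p : List (List Tm)) (h : lenLL m p = true) : evLL p ∈ deg 6 m := by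
  induction p with
  | nil => exact Submodule.zero_mem _
  | cons q p ih =>
    rw [lenLL, Bool.and_eq_true] at h
    exact Submodule.add_mem _ (evL_mem q h.1) (ih h.2)

theorem ite_p {α : Type} (p : α → Prop) {c : Prop} [Decidable c] {a b : α} (ha : p a) (hb : p b) :
    p (if c then a else b) := by
  split_ifs
  · exact ha
  · exact hb

theorem cD_cases (p : List (List Tm) → Prop) (h12 : p c12) (h13 : p c13) (h14 : p c14)
    (h15 : p c15) (h23 : p c23) (h24 : p c24) (h25 : p c25) (h34 : p c34) (h35 : p c35)
    (h45 : p c45) (h56 : p c56) (h0 : p []) (i j : Fin 6) : p (cD i j) :=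
  ite_p p h12 (ite_p p h13 (ite_p p h14 (ite_p p h15 (ite_p p h23 (ite_p p h24 (ite_p p h25
    (ite_p p h34 (ite_p p h35 (ite_p p h45 (ite_p p h56 h0))))))))))

theorem len_cD (i j : Fin 6) : lenLL 13 (cD i j) = true :=
  cD_cases (fun q => lenLL 13 q = true) len12 len13 len14 len15 len23 len24 len25 len34 len35
    len45 len56 rfl i j

theorem cE_mem (i j : Fin 6) : cE i j ∈ deg 6 13 := by
  unfold cE
  split_ifs
  · exact evLL_mem _ (len_cD i j)
  · exact Submodule.neg_mem _ (evLL_mem _ (len_cD j i))

theorem evf_wl_mem (w : W) : evf (wl w) ∈ deg 6 (wlen w) := by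
  induction w with
  | e => exact one_mem_deg
  | a w ih => exact x_mul_mem_deg _ _ ih
  | b w ih => exact x_mul_mem_deg _ _ ih
  | c w ih => exact x_mul_mem_deg _ _ ih
  | d w ih => exact x_mul_mem_deg _ _ ih
  | f w ih => exact x_mul_mem_deg _ _ ih

theorem evLf_mem' {m : Nat} (p : List Tm) (h : lenL m p = true) : evLf p ∈ deg 6 m := by
  induction p with
  | nil => exact Submodule.zero_mem _
  | cons tm p ih =>
    obtain ⟨s, q, w⟩ := tm
    rw [lenL, Bool.and_eq_true] at h
    refine Submodule.add_mem _ (Submodule.smul_mem _ _ ?_) (ih h.2)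
    have e := Nat.eq_of_beq_eq_true h.1
    rw [← e]
    exact evf_wl_mem w

theorem lenPw : lenL 14 Pw = true := by decide +kernel

/-- The product of the transpositions of the letters of a word. -/
def gdeg : W → Equiv.Perm (Fin 6)
  | .e => 1
  | .a w => Equiv.swap 0 5 * gdeg w
  | .b w => Equiv.swap 1 5 * gdeg w
  | .c w => Equiv.swap 2 5 * gdeg w
  | .d w => Equiv.swap 3 5 * gdeg w
  | .f w => Equiv.swap 4 5 * gdeg w

theorem sw_eq (k i : Fin 6) : sw k i = Equiv.swap k 5 i := rfl

theorem gdeg_apply (w : W) (i : Fin 6) : gdeg w i = apw w i := by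
  induction w with
  | e => rfl
  | a w ih => rw [gdeg, Equiv.Perm.mul_apply, ih, apw, sw_eq]
  | b w ih => rw [gdeg, Equiv.Perm.mul_apply, ih, apw, sw_eq]
  | c w ih => rw [gdeg, Equiv.Perm.mul_apply, ih, apw, sw_eq]
  | d w ih => rw [gdeg, Equiv.Perm.mul_apply, ih, apw, sw_eq]
  | f w ih => rw [gdeg, Equiv.Perm.mul_apply, ih, apw, sw_eq]

theorem gp_step {k : Fin 6} {g h : Equiv.Perm (Fin 6)} {u : FK 6}
    (hu : gp (Equiv.swap k 5 * g) u = if Equiv.swap k 5 * g = h then u else 0) :
    gp g (x k 5 * u) = if g = Equiv.swap k 5 * h then x k 5 * u else 0 := by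
  rw [gp_x_mul, hu]
  by_cases e : Equiv.swap k 5 * g = h
  · have e' : g = Equiv.swap k 5 * h := by
      rw [← e, ← mul_assoc, Equiv.swap_mul_self, one_mul]
    rw [if_pos e, if_pos e']
  · have e' : ¬ g = Equiv.swap k 5 * h := by
      intro e'
      apply e
      rw [e', ← mul_assoc, Equiv.swap_mul_self, one_mul]
    rw [if_neg e, if_neg e', mul_zero]

theorem gp_evf (w : W) : ∀ g, gp g (evf (wl w)) = if g = gdeg w then evf (wl w) else 0 := by
  induction w with
  | e => exact gp_one
  | a w ih => exact fun g => gp_step (ih _)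
  | b w ih => exact fun g => gp_step (ih _)
  | c w ih => exact fun g => gp_step (ih _)
  | d w ih => exact fun g => gp_step (ih _)
  | f w ih => exact fun g => gp_step (ih _)

theorem isE_evLf (p : List Tm) (h : allE p = true) : IsE (evLf p) := by
  intro g
  induction p with
  | nil =>
    show gp g 0 = if g = 1 then 0 else 0
    rw [map_zero, ite_self]
  | cons tm p ih =>
    obtain ⟨s, q, w⟩ := tm
    rw [allE, Bool.and_eq_true] at h
    have h1 := of_decide_eq_true h.1
    have h2 : gdeg w = 1 := Equiv.ext fun i => by rw [gdeg_apply, h1]; rfl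
    rw [evLf, map_add, map_smul, ih h.2, gp_evf, h2]
    split_ifs
    · rfl
    · rw [smul_zero, zero_add]

theorem Phi_Pel : Phi mixed_CC Pel ≠ 0 := by
  have h1 := Phi_evLf Pw
  have h2 := nzroot_sound _ phP
  rw [ph_sound chk_all, evT_insLL, evT_z, phiL_zero_add, ← h1] at h2
  exact h2

theorem dat6 : Dat 13 (Phi mixed_CC) Pel where
  one := Phi_one mixed_CC
  co i j := by
    refine ⟨cE i j, cE_mem i j, ?_⟩
    refine LinearMap.ext fun u => ?_
    rw [fL_apply, Phi_x_mul]
    rfl
  P_deg := evLf_mem' Pw lenPw
  P_rad := rad_Pel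
  P_ne := Phi_Pel
  P_e := isE_evLf Pw allE_Pw

theorem Pel_pow_li : LinearIndependent ℚ (fun m : ℕ => Pel ^ m) := dat6.linearIndependent

end H387FK
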