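import Pool.Agent.helper387_fk.Emb

/-!
The subalgebra `E_G` of the Fomin-Kirillov algebra is infinite-dimensional for every graph `G` with a
vertex of degree at least five.
-/

namespace H387FK.OldDegreeFive

open H387FK

attribute [local irreducible] H387FK.instRing H387FK.instAlg

/-- If a finite simple graph `G` has a vertex of degree at least five, then the subalgebra of the
Fomin-Kirillov algebra over `ℚ` generated by its edges is infinite-dimensional. -/
theorem result (n : ℕ) (G : SimpleGraph (Fin n)) (v : Fin n)
    (hv : 5 ≤ (G.neighborSet v).ncard) : ¬ Module.Finite ℚ (EG G) := by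
  classical
  have hc : Fintype.card (Fin 5) ≤ Fintype.card (G.neighborSet v) := by
    rwa [Fintype.card_fin, ← Nat.card_eq_fintype_card, Nat.card_coe_set_eq]
  obtain ⟨g⟩ := Function.Embedding.nonempty_of_card_le hc
  let F : Fin 6 → Fin n := fun i => if h : i.val < 5 then (g ⟨i.val, h⟩).1 else v
  have hF5 : F 5 = v := rfl
  have hFadj : ∀ k : Fin 6, k ≠ 5 → G.Adj v (F k) := by
    intro k hk
    have h : k.val < 5 := by
      have := k.isLt
      have hk' : k.val ≠ 5 := fun e => hk (Fin.ext e)
      omega
    have e : F k = (g ⟨k.val, h⟩).1 := dif_pos h
    rw [e]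
    exact (g ⟨k.val, h⟩).2
  have hFinj : Function.Injective F := by
    intro a b hab
    by_cases ha : a = 5
    · by_cases hb : b = 5
      · rw [ha, hb]
      · exfalso
        have := hFadj b hb
        rw [← hab, ha, hF5] at this
        exact G.loopless.irrefl v this
    · by_cases hb : b = 5
      · exfalso
        have := hFadj a ha
        rw [hab, hb, hF5] at this
        exact G.loopless.irrefl v this
      · have ha' : a.val < 5 := by
          have := a.isLt
          have hk' : a.val ≠ 5 := fun e => ha (Fin.ext e)
          omega
        have hb' : b.val < 5 := by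
          have := b.isLt
          have hk' : b.val ≠ 5 := fun e => hb (Fin.ext e)
          omega
        have e1 : F a = (g ⟨a.val, ha'⟩).1 := dif_pos ha'
        have e2 : F b = (g ⟨b.val, hb'⟩).1 := dif_pos hb'
        rw [e1, e2] at hab
        have := g.injective (Subtype.ext hab)
        exact Fin.ext (Fin.mk.inj_iff.mp this)
  refine not_finite_of_star G ⟨F, hFinj⟩ ?_
  intro k hk
  exact (hFadj k hk).symm

end H387FK.OldDegreeFive
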