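import Pool.Agent.helper387_fk.EX1
import Pool.Agent.helper387_fk.EX2
import Pool.Agent.helper387_fk.GM2
import Pool.Agent.helper387_fk.GT3Data

/-!
The element of degree 14 of the subalgebra of a spider with five edges is invariant under `S_6`.
-/

namespace H387E

open H387FK H387G
open H387C (L v1 v2 evw evp sv)

attribute [local irreducible] H387FK.instRing H387FK.instAlg

deriving instance DecidableEq for H387C.L

/-- The letter of a pair. -/
def mkL (i j : Fin 6) : H387C.L :=
  match i.val, j.val with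
  | 0, 1 => .a12 | 0, 2 => .a13 | 0, 3 => .a14 | 0, 4 => .a15 | 0, 5 => .a16
  | 1, 2 => .a23 | 1, 3 => .a24 | 1, 4 => .a25 | 1, 5 => .a26
  | 2, 3 => .a34 | 2, 4 => .a35 | 2, 5 => .a36 | 3, 4 => .a45 | 3, 5 => .a46
  | _, _ => .a56

theorem mkL_spec : ∀ i j : Fin 6, i < j → v1 (mkL i j) = i ∧ v2 (mkL i j) = j := by decide

/-- The image of a letter under a permutation, with a sign. -/
def al (w : Fin 6 → Fin 6) (l : H387C.L) : Bool × H387C.L :=
  if w (v1 l) < w (v2 l) then (false, mkL (w (v1 l)) (w (v2 l)))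
  else (true, mkL (w (v2 l)) (w (v1 l)))

theorem al_spec (σ : Equiv.Perm (Fin 6)) (l : H387C.L) :
    (x (σ (v1 l)) (σ (v2 l)) : FK 6) = sv (al σ l).1 • x (v1 (al σ l).2) (v2 (al σ l).2) := by
  unfold al
  by_cases h : σ (v1 l) < σ (v2 l)
  · rw [if_pos h]
    obtain ⟨h1, h2⟩ := mkL_spec _ _ h
    simp only [h1, h2]
    simp [sv]
  · rw [if_neg h]
    have h3 : σ (v2 l) < σ (v1 l) := by
      refine lt_of_le_of_ne (not_lt.mp h) ?_
      intro e
      exact (ne_of_lt (H387C.v1_lt_v2 l)) (σ.injective e).symm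
    obtain ⟨h1, h2⟩ := mkL_spec _ _ h3
    simp only [h1, h2]
    rw [x_anti]
    simp [sv]

/-- The image of a word under a permutation, with a sign. -/
def mapW (w : Fin 6 → Fin 6) : List H387C.L → Bool × List H387C.L
  | [] => (false, [])
  | l :: u => (xor (al w l).1 (mapW w u).1, (al w l).2 :: (mapW w u).2)

theorem sv_xor (s t : Bool) : sv (xor s t) = sv s * sv t := by
  cases s <;> cases t <;> simp [sv]

theorem act_evw (σ : Equiv.Perm (Fin 6)) (u : List H387C.L) :
    act σ (evw u) = sv (mapW σ u).1 • evw (mapW σ u).2 := by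
  induction u with
  | nil => simp [evw, mapW, sv]
  | cons l u ih =>
    rw [evw, map_mul, act_x, ih, al_spec, mapW, evw, sv_xor]
    simp only [smul_mul_assoc, mul_smul_comm, smul_smul]
    rw [mul_comm (sv _) (sv _)]

/-- The image of a polynomial under a permutation. -/
def mapP (w : Fin 6 → Fin 6) (p : List (Bool × List H387C.L)) : List (Bool × List H387C.L) :=
  p.map fun t => (xor t.1 (mapW w t.2).1, (mapW w t.2).2)

theorem act_evp (σ : Equiv.Perm (Fin 6)) (p : List (Bool × List H387C.L)) :
    act σ (evp p) = evp (mapP σ p) := by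
  induction p with
  | nil => simp [evp, mapP]
  | cons t p ih =>
    obtain ⟨s, u⟩ := t
    have h : mapP σ ((s, u) :: p) = (xor s (mapW σ u).1, (mapW σ u).2) :: mapP σ p := rfl
    rw [h, evp, evp, map_add, map_smul, act_evw, ih, smul_smul, sv_xor]

/-- The negative of a polynomial. -/
def negP (p : List (Bool × List H387C.L)) : List (Bool × List H387C.L) :=
  p.map fun t => (!t.1, t.2)

theorem evp_negP (p : List (Bool × List H387C.L)) : evp (negP p) = - evp p := by
  induction p with
  | nil => simp [evp, negP]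
  | cons t p ih =>
    obtain ⟨s, u⟩ := t
    have h : negP ((s, u) :: p) = (!s, u) :: negP p := rfl
    rw [h, evp, evp, ih, neg_add]
    congr 1
    cases s <;> simp [sv]

theorem evp_append (p q : List (Bool × List H387C.L)) : evp (p ++ q) = evp p + evp q := by
  induction p with
  | nil => simp [evp]
  | cons t p ih =>
    obtain ⟨s, u⟩ := t
    rw [List.cons_append, evp, evp, ih, add_assoc]

theorem eq_of_sub {p q : List (Bool × List H387C.L)} (h : evp (p ++ negP q) = 0) : evp p = evp q := by
  rw [evp_append, evp_negP] at h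
  exact add_neg_eq_zero.mp h

/-- The letters of the spider. -/
noncomputable def tc2 (k : H387G.L) : H387C.L :=
  H387G.L.rec (motive := fun _ => H387C.L) .a36 .a46 .a26 .a16 .a15 .a15 k

/-- The letters of the double star. -/
noncomputable def tc3 (k : H387G.L) : H387C.L :=
  H387G.L.rec (motive := fun _ => H387C.L) .a26 .a46 .a16 .a13 .a15 .a15 k

/-- The polynomial of degree 14 for the spider. -/
noncomputable def P0 : List (Bool × List H387C.L) := cp tc2 false H387G.M2.Q

/-- The polynomial of degree 14 for the double star. -/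
noncomputable def Q0 : List (Bool × List H387C.L) := cp tc3 false H387G.T3.Q

/-- The flip of the double star. -/
def flip : Equiv.Perm (Fin 6) :=
  ⟨![5, 2, 1, 4, 3, 0], ![5, 2, 1, 4, 3, 0], by decide, by decide⟩

theorem eq_t0 : cp X1.tc false X1.t0 = mapP (Equiv.swap 2 3 : Equiv.Perm (Fin 6)) P0 ++ negP P0 := by
  decide +kernel

theorem eq_t1 : cp X1.tc false X1.t1 = mapP (Equiv.swap 1 3 : Equiv.Perm (Fin 6)) P0 ++ negP P0 := by
  decide +kernel

theorem eq_t2 : cp X1.tc false X1.t2 = Q0 ++ negP P0 := by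
  decide +kernel

theorem eq_t3 : cp X1.tc false X1.t3 = mapP flip Q0 ++ negP Q0 := by
  decide +kernel

theorem eq_t4 : cp X2.tc false X2.t0 = mapP (Equiv.swap 0 2 : Equiv.Perm (Fin 6)) P0 ++ negP P0 := by
  decide +kernel

/-- The element of degree 14. -/
noncomputable def P : FK 6 := evp P0

theorem P_eq : P = evLf H387G.M2.D H387G.M2.Q := by
  have ht : Tr H387G.M2.D tc2 := by
    intro k
    cases k <;> exact ⟨rfl, rfl⟩
  have hq : q1 H387G.M2.Q = true := by decide +kernel
  unfold P P0
  rw [evp_cp ht false _ hq]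
  simp [sv]

theorem act_t0 : act (Equiv.swap 2 3) P = P := by
  have h := X1.evp_t0
  rw [eq_t0] at h
  exact (act_evp _ _).trans (eq_of_sub h)

theorem act_t1 : act (Equiv.swap 1 3) P = P := by
  have h := X1.evp_t1
  rw [eq_t1] at h
  exact (act_evp _ _).trans (eq_of_sub h)

theorem act_t4 : act (Equiv.swap 0 2) P = P := by
  have h := X2.evp_t0
  rw [eq_t4] at h
  exact (act_evp _ _).trans (eq_of_sub h)

theorem Q_eq_P : evp Q0 = P := by
  have h := X1.evp_t2
  rw [eq_t2] at h
  exact eq_of_sub h

theorem act_flip : act flip P = P := by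
  have h := X1.evp_t3
  rw [eq_t3] at h
  have h2 := (act_evp flip Q0).trans (eq_of_sub h)
  rwa [Q_eq_P] at h2

/-- The permutations which fix the element of degree 14. -/
noncomputable def Stab : Subgroup (Equiv.Perm (Fin 6)) where
  carrier := {σ | act σ P = P}
  mul_mem' := by
    intro a b ha hb
    have ha' : act a P = P := ha
    have hb' : act b P = P := hb
    show act (a * b) P = P
    rw [← act_act, hb', ha']
  one_mem' := act_one P
  inv_mem' := by
    intro a ha
    have ha' : act a P = P := ha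
    show act a⁻¹ P = P
    have h1 : act a⁻¹ (act a P) = P := by rw [act_act, inv_mul_cancel, act_one]
    rwa [ha'] at h1

theorem s23 : Equiv.swap 2 3 ∈ Stab := act_t0
theorem s13 : Equiv.swap 1 3 ∈ Stab := act_t1
theorem s02 : Equiv.swap 0 2 ∈ Stab := act_t4
theorem sfl : flip ∈ Stab := act_flip

theorem swap_mem (i : Fin 5) : Equiv.swap i.castSucc i.succ ∈ Stab := by
  have h01 : (Equiv.swap 0 1 : Equiv.Perm (Fin 6)) = Equiv.swap 1 3 * Equiv.swap 2 3 *
      Equiv.swap 0 2 * Equiv.swap 2 3 * Equiv.swap 1 3 := by decide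
  have h12 : (Equiv.swap 1 2 : Equiv.Perm (Fin 6)) = Equiv.swap 2 3 * Equiv.swap 1 3 *
      Equiv.swap 2 3 := by decide
  have h34 : (Equiv.swap 3 4 : Equiv.Perm (Fin 6)) = Equiv.swap 2 3 * flip * Equiv.swap 1 3 *
      flip * Equiv.swap 2 3 := by decide
  have h45 : (Equiv.swap 4 5 : Equiv.Perm (Fin 6)) = flip * Equiv.swap 2 3 * Equiv.swap 0 2 *
      Equiv.swap 2 3 * flip := by decide
  have m := fun {a b : Equiv.Perm (Fin 6)} (ha : a ∈ Stab) (hb : b ∈ Stab) => Stab.mul_mem ha hb
  fin_cases i
  · show (Equiv.swap 0 1 : Equiv.Perm (Fin 6)) ∈ Stab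
    rw [h01]
    exact m (m (m (m s13 s23) s02) s23) s13
  · show (Equiv.swap 1 2 : Equiv.Perm (Fin 6)) ∈ Stab
    rw [h12]
    exact m (m s23 s13) s23
  · exact s23
  · show (Equiv.swap 3 4 : Equiv.Perm (Fin 6)) ∈ Stab
    rw [h34]
    exact m (m (m (m s23 sfl) s13) sfl) s23
  · show (Equiv.swap 4 5 : Equiv.Perm (Fin 6)) ∈ Stab
    rw [h45]
    exact m (m (m (m sfl s23) s02) s23) sfl

/-- The element of degree 14 is invariant under all permutations of the six points. -/
theorem act_P (σ : Equiv.Perm (Fin 6)) : act σ P = P := by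
  have h : σ ∈ Submonoid.closure (Set.range fun i : Fin 5 => Equiv.swap i.castSucc i.succ) := by
    rw [Equiv.Perm.mclosure_swap_castSucc_succ]
    trivial
  have h2 : Submonoid.closure (Set.range fun i : Fin 5 => Equiv.swap i.castSucc i.succ) ≤
      Stab.toSubmonoid := by
    rw [Submonoid.closure_le]
    rintro _ ⟨i, rfl⟩
    exact swap_mem i
  exact h2 h

end H387E
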