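import Pool.Agent.helper387_fk.Cert

/-!
Evaluation of the canonical form on words, and a test that two functionals agree on all words in the
generators of a set of edges.
-/

namespace H387P

open H387FK

attribute [local irreducible] H387FK.instRing H387FK.instAlg

/-- Words in the generators, given by ordered pairs. -/
abbrev OW : Type := List (Fin 6 × Fin 6)

/-- Polynomials with coefficients `1` and `-1` (`true` stands for `-1`). -/
abbrev OP : Type := List (Bool × OW)

/-- The value of a word. -/
noncomputable def evo : OW → FK 6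
  | [] => 1
  | l :: w => x l.1 l.2 * evo w

theorem evo_append (u v : OW) : evo (u ++ v) = evo u * evo v := by
  induction u with
  | nil => simp [evo]
  | cons l u ih => simp only [List.cons_append, evo, ih, mul_assoc]

/-- The value of a polynomial. -/
noncomputable def evop : OP → FK 6
  | [] => 0
  | t :: p => H387C.sv t.1 • evo t.2 + evop p

theorem evop_append (p q : OP) : evop (p ++ q) = evop p + evop q := by
  induction p with
  | nil => simp [evop]
  | cons t p ih => simp only [List.cons_append, evop, ih, add_assoc]

/-- The transposition. -/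
def sw (a b i : Fin 6) : Fin 6 := if i = a then b else if i = b then a else i

theorem sw_eq (a b i : Fin 6) : sw a b i = Equiv.swap a b i := by
  rw [Equiv.swap_apply_def]
  rfl

/-- The braided derivation of a word. -/
def dlw (a b : Fin 6) : OW → OP
  | [] => []
  | l :: w => (if l.1 = a ∧ l.2 = b then [(false, w)] else if l.1 = b ∧ l.2 = a then [(true, w)] else [])
      ++ (dlw a b w).map fun t => (t.1, (sw a b l.1, sw a b l.2) :: t.2)

theorem evop_map_cons (l : Fin 6 × Fin 6) (p : OP) :
    evop (p.map fun t => (t.1, l :: t.2)) = x l.1 l.2 * evop p := by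
  induction p with
  | nil => simp [evop]
  | cons t p ih =>
    simp only [List.map_cons, evop, evo, ih, mul_add, mul_smul_comm]

theorem evop_dlw (a b : Fin 6) (hab : a ≠ b) (w : OW) : evop (dlw a b w) = dl a b (evo w) := by
  induction w with
  | nil => simp [dlw, evop, evo, dl_one]
  | cons l w ih =>
    obtain ⟨i, j⟩ := l
    simp only [dlw, evo]
    rw [evop_append, evop_map_cons (sw a b i, sw a b j), ih, dl_x_mul, add_comm]
    simp only [sw_eq]
    congr 1
    by_cases h1 : i = a ∧ j = b
    · rw [if_pos h1, h1.1, h1.2, kap_self hab]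
      simp [evop, H387C.sv]
    · rw [if_neg h1]
      by_cases h2 : i = b ∧ j = a
      · rw [if_pos h2, h2.1, h2.2, kap_anti, kap_self hab]
        simp [evop, H387C.sv]
      · rw [if_neg h2]
        have : kap a b i j = 0 := by
          by_contra hc
          rcases kap_ne hc with h | h
          · exact h1 h
          · exact h2 h
        rw [this]
        simp [evop]

/-- Change the signs of a polynomial. -/
def sgn (s : Bool) (p : OP) : OP := p.map fun t => (xor s t.1, t.2)

theorem evop_sgn (s : Bool) (p : OP) : evop (sgn s p) = H387C.sv s • evop p := by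
  induction p with
  | nil => simp [sgn, evop]
  | cons t p ih =>
    obtain ⟨s', w⟩ := t
    have : sgn s ((s', w) :: p) = (xor s s', w) :: sgn s p := rfl
    rw [this]
    simp only [evop, ih, smul_add, smul_smul]
    congr 2
    cases s <;> cases s' <;> simp [H387C.sv]

/-- The braided derivation of a polynomial. -/
def dlp (a b : Fin 6) : OP → OP
  | [] => []
  | t :: p => sgn t.1 (dlw a b t.2) ++ dlp a b p

theorem evop_dlp (a b : Fin 6) (hab : a ≠ b) (p : OP) : evop (dlp a b p) = dl a b (evop p) := by
  induction p with
  | nil => simp [dlp, evop]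
  | cons t p ih =>
    simp only [dlp, evop]
    rw [evop_append, evop_sgn, evop_dlw a b hab, ih, map_add, map_smul]

/-- The constant term of a polynomial. -/
def epsp : OP → Int
  | [] => 0
  | (s, []) :: p => (if s then -1 else 1) + epsp p
  | (_, _ :: _) :: p => epsp p

theorem eps_evop (p : OP) : eps (evop p) = (epsp p : ℚ) := by
  induction p with
  | nil => simp [evop, epsp]
  | cons t p ih =>
    obtain ⟨s, w⟩ := t
    cases w with
    | nil =>
      simp only [evop, epsp, map_add, map_smul, ih, evo, map_one]
      cases s <;> simp [H387C.sv]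
    | cons l w =>
      simp only [evop, epsp, map_add, map_smul, ih, evo, map_mul, eps_x]
      simp

/-- The test: `p` and `q` (after a generator `e₀` on the left) define the same functional. -/
def chk (e₀ : Fin 6 × Fin 6) (E' E : List (Fin 6 × Fin 6)) : ℕ → OP → OP → Bool
  | 0, p, q => p.isEmpty && q.isEmpty
  | k + 1, p, q => (p.isEmpty && q.isEmpty) ||
      ((epsp p == epsp (dlp e₀.1 e₀.2 q)) && (E'.all fun e => epsp (dlp e.1 e.2 q) == 0) &&
        E.all fun l => chk e₀ E' E k (dlp l.1 l.2 p) (dlp l.1 l.2 q))

theorem chk_sound (e₀ : Fin 6 × Fin 6) (E' E : List (Fin 6 × Fin 6)) (h0 : e₀.1 ≠ e₀.2)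
    (hE' : ∀ e ∈ E', e.1 ≠ e.2) (hE : ∀ e ∈ E, e.1 ≠ e.2) (k : ℕ) :
    ∀ p q, chk e₀ E' E k p q = true → ∀ v : OW, (∀ l ∈ v, l ∈ E) →
      B (evop p) (evo v) = B (evop q) (x e₀.1 e₀.2 * evo v) ∧
        ∀ e ∈ E', B (evop q) (x e.1 e.2 * evo v) = 0 := by
  have hz : ∀ p q : OP, (p.isEmpty && q.isEmpty) = true → ∀ v : OW,
      B (evop p) (evo v) = B (evop q) (x e₀.1 e₀.2 * evo v) ∧
        ∀ e ∈ E', B (evop q) (x e.1 e.2 * evo v) = 0 := by
    intro p q h v
    rw [Bool.and_eq_true, List.isEmpty_iff, List.isEmpty_iff] at h
    rw [h.1, h.2]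
    simp [evop]
  induction k with
  | zero =>
    intro p q h v _
    exact hz p q h v
  | succ k ih =>
    intro p q h v hv
    simp only [chk] at h
    rw [Bool.or_eq_true] at h
    rcases h with h | h
    · exact hz p q h v
    · rw [Bool.and_eq_true, Bool.and_eq_true, List.all_eq_true, List.all_eq_true] at h
      obtain ⟨⟨h1, h2⟩, h3⟩ := h
      rcases List.eq_nil_or_concat v with rfl | ⟨v', l, rfl⟩
      · constructor
        · have e1 : epsp p = epsp (dlp e₀.1 e₀.2 q) := by simpa using h1
          simp only [evo, mul_one]
          have : x e₀.1 e₀.2 = (1 : FK 6) * x e₀.1 e₀.2 := (one_mul _).symm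
          rw [this, B_mul_x_right, ← evop_dlp _ _ h0, B_symm, B_one_left, B_symm, B_one_left, eps_evop,
            eps_evop, e1]
        · intro e he
          have e1 : epsp (dlp e.1 e.2 q) = 0 := by simpa using h2 e he
          simp only [evo, mul_one]
          have : x e.1 e.2 = (1 : FK 6) * x e.1 e.2 := (one_mul _).symm
          rw [this, B_mul_x_right, ← evop_dlp _ _ (hE' e he), B_symm, B_one_left, eps_evop, e1]
          simp
      · rw [List.concat_eq_append] at hv ⊢
        have hl : l ∈ E := hv l (by simp)
        have hv' : ∀ m ∈ v', m ∈ E := fun m hm => hv m (by simp [hm])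
        have h4 := ih _ _ (h3 l hl) v' hv'
        have e1 : evo (v' ++ [l]) = evo v' * x l.1 l.2 := by
          rw [evo_append]
          simp [evo]
        rw [e1, B_mul_x_right, ← evop_dlp _ _ (hE l hl), h4.1, ← mul_assoc, B_mul_x_right,
          ← evop_dlp _ _ (hE l hl)]
        refine ⟨rfl, ?_⟩
        intro e he
        rw [← mul_assoc, B_mul_x_right, ← evop_dlp _ _ (hE l hl)]
        exact h4.2 e he

end H387P
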