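import Pool.Agent.helper387_fk.Copr

/-!
The grading of the Fomin-Kirillov algebra by the symmetric group, and the theorem that the powers of a
suitable element of the radical are linearly independent.
-/

namespace H387FK

attribute [local irreducible] instRing instAlg

variable {n : ℕ}

/-- The action of a generator on functions from the symmetric group to the algebra. -/
noncomputable def ggen (i j : Fin n) : Module.End ℚ (Equiv.Perm (Fin n) → FK n) :=
  LinearMap.pi fun g => (LinearMap.mulLeft ℚ (x i j)).comp (LinearMap.proj (Equiv.swap i j * g))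

theorem ggen_apply (i j : Fin n) (F : Equiv.Perm (Fin n) → FK n) (g : Equiv.Perm (Fin n)) :
    ggen i j F g = x i j * F (Equiv.swap i j * g) := rfl

theorem swap_swap_comm {i j k l : Fin n} (h1 : i ≠ k) (h2 : i ≠ l) (h3 : j ≠ k) (h4 : j ≠ l) :
    Equiv.swap i j * Equiv.swap k l = Equiv.swap k l * Equiv.swap i j := by
  ext m
  simp only [Equiv.Perm.mul_apply, Equiv.swap_apply_def]
  split_ifs <;> simp_all

theorem ggen_isRep : IsRep (ggen : Fin n → Fin n → Module.End ℚ (Equiv.Perm (Fin n) → FK n)) where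
  anti i j := by
    refine LinearMap.ext fun F => funext fun g => ?_
    rw [LinearMap.neg_apply, Pi.neg_apply, ggen_apply, ggen_apply, x_anti i j,
      Equiv.swap_comm i j, neg_mul]
  sq i j h := by
    refine LinearMap.ext fun F => funext fun g => ?_
    rw [Module.End.mul_apply, ggen_apply, ggen_apply, ← mul_assoc, (x_isRep n).sq i j h, zero_mul]
    rfl
  comm i j k l h1 h2 h3 h4 h5 h6 := by
    refine LinearMap.ext fun F => funext fun g => ?_
    rw [Module.End.mul_apply, Module.End.mul_apply, ggen_apply, ggen_apply, ggen_apply, ggen_apply,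
      ← mul_assoc, ← mul_assoc, ← mul_assoc, ← mul_assoc,
      (x_isRep n).comm i j k l h1 h2 h3 h4 h5 h6, swap_swap_comm h2 h3 h4 h5]
  tri i j k h1 h2 h3 := by
    refine LinearMap.ext fun F => funext fun g => ?_
    have s1 : Equiv.swap k i * Equiv.swap j k = Equiv.swap j k * Equiv.swap i j := by
      have := swap_tri h3.symm h1 h2.symm
      rw [Equiv.swap_comm k i, Equiv.swap_comm j k, Equiv.swap_comm i j]
      exact swap_tri h3 h2.symm h1
    have s2 : Equiv.swap i j * Equiv.swap k i = Equiv.swap j k * Equiv.swap i j := by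
      rw [Equiv.swap_comm k i, Equiv.swap_comm j k, Equiv.swap_comm i j]
      exact (swap_tri h1.symm h3 h2).trans (swap_tri h3 h2.symm h1)
    simp only [LinearMap.add_apply, Module.End.mul_apply, Pi.add_apply, ggen_apply, ← mul_assoc]
    rw [s1, s2, ← add_mul, ← add_mul, (x_isRep n).tri i j k h1 h2 h3, zero_mul]
    rfl

/-- The component of an element in a degree of the grading by the symmetric group. -/
noncomputable def gp (g : Equiv.Perm (Fin n)) : FK n →ₗ[ℚ] FK n :=
  (LinearMap.proj g).comp ((LinearMap.applyₗ (R := ℚ)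
    (Pi.single (1 : Equiv.Perm (Fin n)) (1 : FK n) : Equiv.Perm (Fin n) → FK n)).comp
    (lift ggen ggen_isRep).toLinearMap)

theorem gp_def (g : Equiv.Perm (Fin n)) (u : FK n) :
    gp g u = lift ggen ggen_isRep u (Pi.single (1 : Equiv.Perm (Fin n)) (1 : FK n)) g := rfl

theorem gp_one (g : Equiv.Perm (Fin n)) : gp g (1 : FK n) = if g = 1 then 1 else 0 := by
  rw [gp_def, map_one, Module.End.one_apply, Pi.single_apply]

theorem gp_x_mul (g : Equiv.Perm (Fin n)) (i j : Fin n) (u : FK n) :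
    gp g (x i j * u) = x i j * gp (Equiv.swap i j * g) u := by
  rw [gp_def, map_mul, lift_x, Module.End.mul_apply, ggen_apply, ← gp_def]

theorem swap_conj (a b i j : Fin n) (g : Equiv.Perm (Fin n)) :
    Equiv.swap (Equiv.swap a b i) (Equiv.swap a b j) * (Equiv.swap a b * g) =
      Equiv.swap a b * (Equiv.swap i j * g) := by
  rw [Equiv.swap_apply_apply]
  simp [mul_assoc]

theorem kap_smul_swap (a b i j : Fin n) (f : Equiv.Perm (Fin n) → FK n) :
    kap a b i j • f (Equiv.swap a b) = kap a b i j • f (Equiv.swap i j) := by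
  by_cases h : kap a b i j = 0
  · rw [h, zero_smul, zero_smul]
  · rcases kap_ne h with ⟨rfl, rfl⟩ | ⟨rfl, rfl⟩
    · rfl
    · rw [Equiv.swap_comm i j]

theorem dl_gp (a b : Fin n) (u : FK n) : ∀ g : Equiv.Perm (Fin n),
    dl a b (gp g u) = gp (Equiv.swap a b * g) (dl a b u) := by
  refine ind_left (p := fun u => ∀ g : Equiv.Perm (Fin n),
    dl a b (gp g u) = gp (Equiv.swap a b * g) (dl a b u)) ?_ ?_ ?_ ?_ u
  · intro g
    rw [gp_one, dl_one, map_zero]
    split_ifs
    · exact dl_one a b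
    · exact map_zero _
  · intro u v hu hv g; simp only [map_add, hu, hv]
  · intro c u hu g; simp only [map_smul, hu]
  · intro i j u hu g
    rw [gp_x_mul, dl_x_mul, hu, dl_x_mul, map_add, map_smul, gp_x_mul, swap_conj,
      kap_smul_swap a b i j (fun h => gp (h * g) u)]

theorem eps_gp (u : FK n) : ∀ g : Equiv.Perm (Fin n),
    eps (gp g u) = if g = 1 then eps u else 0 := by
  refine ind_left (p := fun u => ∀ g : Equiv.Perm (Fin n),
    eps (gp g u) = if g = 1 then eps u else 0) ?_ ?_ ?_ ?_ u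
  · intro g
    rw [gp_one]
    split_ifs
    · rfl
    · exact map_zero _
  · intro u v hu hv g
    rw [map_add, map_add, hu, hv, map_add]
    split_ifs
    · rfl
    · rw [add_zero]
  · intro c u hu g
    rw [map_smul, map_smul, hu, map_smul]
    split_ifs
    · rfl
    · rw [smul_zero]
  · intro i j u hu g
    rw [gp_x_mul, map_mul, eps_x, map_mul, eps_x, zero_mul, zero_mul, ite_self]

theorem Rad.gp {s : FK n} (hs : Rad s) (g : Equiv.Perm (Fin n)) : Rad (gp g s) := by
  have key : ∀ v : FK n, ∀ g, ∀ s : FK n, Rad s → B v (H387FK.gp g s) = 0 := by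
    intro v
    refine ind_right (p := fun v => ∀ g, ∀ s : FK n, Rad s → B v (H387FK.gp g s) = 0)
      ?_ ?_ ?_ ?_ v
    · intro g s hs
      rw [B_one_left, eps_gp]
      split_ifs
      · rw [← B_one_left, hs]
      · rfl
    · intro u v hu hv g s hs
      rw [map_add, LinearMap.add_apply, hu g s hs, hv g s hs, add_zero]
    · intro r u hu g s hs
      rw [map_smul, LinearMap.smul_apply, hu g s hs, smul_zero]
    · intro a b u hu g s hs
      rw [B_mul_x, dl_gp]
      exact hu _ _ (hs.dl a b)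
  exact fun v => key v g s hs

theorem gp_deg (d : ℕ) : ∀ (g : Equiv.Perm (Fin n)) (u : FK n), u ∈ deg n d →
    gp g u ∈ deg n d := by
  induction d with
  | zero =>
    intro g u hu
    obtain ⟨c, rfl⟩ := mem_deg_zero hu
    rw [map_smul, gp_one]
    refine Submodule.smul_mem _ _ ?_
    split_ifs
    · simpa using smul_one_mem_deg (n := n) 1
    · exact Submodule.zero_mem _
  | succ d ih =>
    intro g u hu
    have key : deg n (d + 1) ≤ (deg n (d + 1)).comap (gp g) := by
      refine deg_succ_le ?_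
      intro i j v hv
      rw [Submodule.mem_comap, gp_x_mul]
      exact x_mul_mem_deg _ _ (ih _ v hv)
    exact key hu

/-- Elements of trivial degree in the grading by the symmetric group. -/
def IsE (P : FK n) : Prop := ∀ g : Equiv.Perm (Fin n), gp g P = if g = 1 then P else 0

theorem IsE.gp_mul {P : FK n} (hP : IsE P) (v : FK n) : ∀ g, gp g (v * P) = gp g v * P := by
  refine ind_left (p := fun v => ∀ g, gp g (v * P) = gp g v * P) ?_ ?_ ?_ ?_ v
  · intro g
    rw [one_mul, hP, gp_one]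
    split_ifs
    · rw [one_mul]
    · rw [zero_mul]
  · intro u v hu hv g; simp only [map_add, add_mul, hu, hv]
  · intro c u hu g; simp only [smul_mul_assoc, map_smul, hu]
  · intro i j u hu g
    rw [mul_assoc, gp_x_mul, hu, gp_x_mul, mul_assoc]

theorem IsE.gp_mul_pow {P : FK n} (hP : IsE P) (v : FK n) (k : ℕ) (g : Equiv.Perm (Fin n)) :
    gp g (v * P ^ k) = gp g v * P ^ k := by
  induction k with
  | zero => rw [pow_zero, mul_one, mul_one]
  | succ k ih => rw [pow_succ, ← mul_assoc, hP.gp_mul, ih, mul_assoc]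

/-- Right multiplication inside a functional. -/
noncomputable def fR (φ : FK n →ₗ[ℚ] ℚ) (P : FK n) : FK n →ₗ[ℚ] ℚ :=
  φ.comp (LinearMap.mulRight ℚ P)

theorem fR_apply (φ : FK n →ₗ[ℚ] ℚ) (P u : FK n) : fR φ P u = φ (u * P) := rfl

/-- The data: a functional `Φ` whose compositions with left multiplications by generators are given by
the form, and an element `P` of the radical on which it does not vanish. -/
structure Dat (M : ℕ) (Φ : FK n →ₗ[ℚ] ℚ) (P : FK n) : Prop where
  one : Φ 1 = 0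
  co : ∀ i j, ∃ c ∈ deg n M, fL Φ i j = B c
  P_deg : P ∈ deg n (M + 1)
  P_rad : Rad P
  P_ne : Φ P ≠ 0
  P_e : IsE P

/-- Functionals which vanish on the left ideal of low degree elements of the radical. -/
def Good (M : ℕ) (P : FK n) (f : FK n →ₗ[ℚ] ℚ) : Prop :=
  ∀ u : FK n, ∀ j, 0 < j → j ≤ M → ∀ s ∈ deg n j, Rad s → ∀ k, f (u * s * P ^ k) = 0

variable {M : ℕ} {P : FK n} {f : FK n →ₗ[ℚ] ℚ}

theorem Good.fL (h : Good M P f) (i j : Fin n) : Good M P (fL f i j) := by
  intro u a ha haM s hs hr k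
  rw [fL_apply, ← mul_assoc, ← mul_assoc]
  exact h _ a ha haM s hs hr k

theorem Good.fR (h : Good M P f) : Good M P (fR f P) := by
  intro u a ha haM s hs hr k
  rw [fR_apply, mul_assoc, ← pow_succ]
  exact h _ a ha haM s hs hr _

theorem Good.of_one (h : Good M P f) {j : ℕ} (hj : 0 < j) (hjM : j ≤ M) {s : FK n}
    (hs : s ∈ deg n j) (hr : Rad s) : f s = 0 := by
  have := h 1 j hj hjM s hs hr 0
  rwa [one_mul, pow_zero, mul_one] at this

theorem one_mem_deg : (1 : FK n) ∈ deg n 0 := by simpa using smul_one_mem_deg (n := n) 1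

theorem Good.K1 {j : ℕ} (hj : 0 < j) (hjM : j ≤ M) {s : FK n} (hs : s ∈ deg n j) (hr : Rad s)
    (u : FK n) : ∀ f : FK n →ₗ[ℚ] ℚ, Good M P f → ∀ d, ∀ c ∈ deg n d,
      f (K (B c) (u * s)) = 0 := by
  refine ind_left (p := fun u => ∀ f : FK n →ₗ[ℚ] ℚ, Good M P f → ∀ d, ∀ c ∈ deg n d,
      f (K (B c) (u * s)) = 0) ?_ ?_ ?_ ?_ u
  · intro f hf d c hc
    rw [one_mul]
    rcases lt_trichotomy d j with h | h | h
    · obtain ⟨m, rfl⟩ : ∃ m, j = d + m := ⟨j - d, by omega⟩
      exact hf.of_one (by omega) (by omega) (K_deg m s d _ hs (HomD_B hc)) (hr.K_B c)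
    · subst h
      rw [K_deg_eq hs (HomD_B hc), hr c, zero_smul, map_zero]
    · rw [K_deg_lt j s hs d h _ (HomD_B hc), map_zero]
  · intro u v hu hv f hf d c hc
    rw [add_mul, map_add, map_add, hu f hf d c hc, hv f hf d c hc, add_zero]
  · intro r u hu f hf d c hc
    rw [smul_mul_assoc, map_smul, map_smul, hu f hf d c hc, smul_zero]
  · intro i k u hu f hf d c hc
    rw [mul_assoc, K_x_mul, map_add, fA_B]
    have h2 := hu _ (hf.fL i k) d _ (act_deg (Equiv.swap i k)⁻¹ d hc)
    rw [fL_apply] at h2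
    rw [h2, add_zero]
    rcases Nat.eq_zero_or_pos d with rfl | hd
    · rw [fL_B_deg_zero hc, K_zero, map_zero]
    · obtain ⟨d', rfl⟩ : ∃ d', d = d' + 1 := ⟨d - 1, by omega⟩
      obtain ⟨c', hc', e⟩ := exists_adj d' c hc i k
      rw [e]
      exact hu f hf d' c' hc'

theorem K_B_one (u : FK n) : K (B 1) u = u := by
  refine ind_left (p := fun u => K (B 1) u = u) ?_ ?_ ?_ ?_ u
  · rw [K_one, B_one_left, map_one, one_smul]
  · intro u v hu hv; rw [map_add, hu, hv]
  · intro c u hu; rw [map_smul, hu]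
  · intro i j u hu
    rw [K_x_mul, fL_B_deg_zero one_mem_deg, K_zero, zero_add, fA_B, map_one, hu]

theorem Good.K2 (hd : P ∈ deg n (M + 1)) (hr : Rad P) (u : FK n) : ∀ f : FK n →ₗ[ℚ] ℚ,
    Good M P f → ∀ d, d ≤ M → ∀ c ∈ deg n d, f (K (B c) (u * P)) = f (K (B c) u * P) := by
  refine ind_left (p := fun u => ∀ f : FK n →ₗ[ℚ] ℚ,
    Good M P f → ∀ d, d ≤ M → ∀ c ∈ deg n d, f (K (B c) (u * P)) = f (K (B c) u * P))
    ?_ ?_ ?_ ?_ u
  · intro f hf d hdM c hc
    rw [one_mul, K_one]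
    rcases Nat.eq_zero_or_pos d with rfl | hd0
    · obtain ⟨r, rfl⟩ := mem_deg_zero hc
      rw [map_smul, K_smul, K_B_one, LinearMap.smul_apply, B_one_left, map_one, smul_eq_mul,
        mul_one, smul_mul_assoc, one_mul]
    · obtain ⟨m, hm⟩ : ∃ m, M + 1 = d + m := ⟨M + 1 - d, by omega⟩
      have h1 : B c 1 = 0 := HomD_B hc 0 (by omega) 1 one_mem_deg
      rw [h1, zero_smul, zero_mul, map_zero]
      exact hf.of_one (by omega) (by omega) (K_deg m P d _ (by rwa [← hm]) (HomD_B hc)) (hr.K_B c)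
  · intro u v hu hv f hf d hdM c hc
    rw [add_mul, map_add, map_add, hu f hf d hdM c hc, hv f hf d hdM c hc, map_add, add_mul,
      map_add]
  · intro r u hu f hf d hdM c hc
    rw [smul_mul_assoc, map_smul, map_smul, hu f hf d hdM c hc, map_smul, smul_mul_assoc, map_smul]
  · intro i k u hu f hf d hdM c hc
    rw [mul_assoc, K_x_mul, map_add, K_x_mul, add_mul, map_add, fA_B]
    have h2 := hu _ (hf.fL i k) d hdM _ (act_deg (Equiv.swap i k)⁻¹ d hc)
    rw [fL_apply, fL_apply] at h2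
    rw [h2, ← mul_assoc]
    congr 1
    rcases Nat.eq_zero_or_pos d with rfl | hd
    · rw [fL_B_deg_zero hc, K_zero, K_zero, zero_mul]
    · obtain ⟨d', rfl⟩ : ∃ d', d = d' + 1 := ⟨d - 1, by omega⟩
      obtain ⟨c', hc', e⟩ := exists_adj d' c hc i k
      rw [e]
      exact hu f hf d' (by omega) c' hc'

section
variable {Φ : FK n →ₗ[ℚ] ℚ}

theorem Dat.co_w (h : Dat M Φ P) (w : Equiv.Perm (Fin n)) (i j : Fin n) :
    ∃ c ∈ deg n M, fL (fA Φ w) i j = B c := by
  obtain ⟨c, hc, e⟩ := h.co (w i) (w j)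
  refine ⟨act w⁻¹ c, act_deg _ _ hc, ?_⟩
  rw [← fA_B, ← e]
  refine LinearMap.ext fun u => ?_
  rw [fL_apply, fA_apply, fA_apply, fL_apply, map_mul, act_x]

theorem Dat.one_w (h : Dat M Φ P) (w : Equiv.Perm (Fin n)) : fA Φ w 1 = 0 := by
  rw [fA_apply, map_one, h.one]

theorem Dat.hom (h : Dat M Φ P) (w : Equiv.Perm (Fin n)) : HomD (M + 1) (fA Φ w) := by
  intro e he u hu
  rcases Nat.eq_zero_or_pos e with rfl | he0
  · obtain ⟨r, rfl⟩ := mem_deg_zero hu
    rw [map_smul, h.one_w, smul_zero]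
  · obtain ⟨e', rfl⟩ : ∃ e', e = e' + 1 := ⟨e - 1, by omega⟩
    have key : deg n (e' + 1) ≤ LinearMap.ker (fA Φ w) := by
      refine deg_succ_le ?_
      intro i j v hv
      obtain ⟨c, hc, e⟩ := h.co_w w i j
      rw [LinearMap.mem_ker, ← fL_apply, e]
      exact HomD_B hc e' (by omega) v hv
    exact LinearMap.mem_ker.mp (key hu)

theorem Dat.A (h : Dat M Φ P) {j : ℕ} (hj : 0 < j) (hjM : j ≤ M) {s : FK n} (hs : s ∈ deg n j)
    (hr : Rad s) (u : FK n) : ∀ f : FK n →ₗ[ℚ] ℚ, Good M P f → ∀ w,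
      f (K (fA Φ w) (u * s)) = 0 := by
  refine ind_left (p := fun u => ∀ f : FK n →ₗ[ℚ] ℚ, Good M P f → ∀ w,
      f (K (fA Φ w) (u * s)) = 0) ?_ ?_ ?_ ?_ u
  · intro f hf w
    rw [one_mul, K_deg_lt j s hs (M + 1) (by omega) _ (h.hom w), map_zero]
  · intro u v hu hv f hf w
    rw [add_mul, map_add, map_add, hu f hf w, hv f hf w, add_zero]
  · intro r u hu f hf w
    rw [smul_mul_assoc, map_smul, map_smul, hu f hf w, smul_zero]
  · intro i k u hu f hf w
    rw [mul_assoc, K_x_mul, map_add, fA_fA]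
    have h2 := hu _ (hf.fL i k) (w * Equiv.swap i k)
    rw [fL_apply] at h2
    obtain ⟨c, hc, e⟩ := h.co_w w i k
    rw [h2, add_zero, e]
    exact Good.K1 hj hjM hs hr u f hf M c hc

/-- The remainder term. -/
noncomputable def Rt (Φ : FK n →ₗ[ℚ] ℚ) (P : FK n) (w : Equiv.Perm (Fin n))
    (f : FK n →ₗ[ℚ] ℚ) (u : FK n) : ℚ :=
  ∑ g : Equiv.Perm (Fin n), Φ (act (w * g) P) * f (gp g u)

theorem Rt_x_mul (w : Equiv.Perm (Fin n)) (f : FK n →ₗ[ℚ] ℚ) (i j : Fin n) (u : FK n) :
    Rt Φ P w f (x i j * u) = Rt Φ P (w * Equiv.swap i j) (fL f i j) u := by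
  unfold Rt
  refine Fintype.sum_equiv (Equiv.mulLeft (Equiv.swap i j)) _ _ fun g => ?_
  rw [Equiv.coe_mulLeft, gp_x_mul, fL_apply]
  congr 3
  rw [mul_assoc, ← mul_assoc (Equiv.swap i j), Equiv.swap_mul_self, one_mul]

theorem Rt_isE (w : Equiv.Perm (Fin n)) (f : FK n →ₗ[ℚ] ℚ) {u : FK n} (hu : IsE u) :
    Rt Φ P w f u = Φ (act w P) * f u := by
  unfold Rt
  rw [Finset.sum_eq_single 1]
  · rw [mul_one, hu, if_pos rfl]
  · intro g _ hg
    rw [hu, if_neg hg, map_zero, mul_zero]
  · intro h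
    exact absurd (Finset.mem_univ _) h

theorem isE_one : IsE (1 : FK n) := gp_one

theorem IsE.pow (hP : IsE P) (k : ℕ) : IsE (P ^ k) := by
  intro g
  have := hP.gp_mul_pow 1 k g
  rw [one_mul, gp_one] at this
  rw [this]
  split_ifs
  · rw [one_mul]
  · rw [zero_mul]

theorem Dat.BB (h : Dat M Φ P) (u : FK n) : ∀ f : FK n →ₗ[ℚ] ℚ, Good M P f → ∀ w,
    f (K (fA Φ w) (u * P)) = f (K (fA Φ w) u * P) + Rt Φ P w f u := by
  refine ind_left (p := fun u => ∀ f : FK n →ₗ[ℚ] ℚ, Good M P f → ∀ w,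
    f (K (fA Φ w) (u * P)) = f (K (fA Φ w) u * P) + Rt Φ P w f u) ?_ ?_ ?_ ?_ u
  · intro f hf w
    rw [one_mul, K_deg_eq h.P_deg (h.hom w), K_one, h.one_w, zero_smul, zero_mul, map_zero,
      zero_add, Rt_isE w f isE_one, map_smul, smul_eq_mul, fA_apply]
  · intro u v hu hv f hf w
    have e : Rt Φ P w f (u + v) = Rt Φ P w f u + Rt Φ P w f v := by
      unfold Rt
      rw [← Finset.sum_add_distrib]
      refine Finset.sum_congr rfl fun g _ => ?_
      rw [map_add, map_add, mul_add]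
    rw [add_mul, map_add, map_add, hu f hf w, hv f hf w, map_add, add_mul, map_add, e]
    ring
  · intro r u hu f hf w
    have e : Rt Φ P w f (r • u) = r • Rt Φ P w f u := by
      unfold Rt
      rw [Finset.smul_sum]
      refine Finset.sum_congr rfl fun g _ => ?_
      rw [map_smul, map_smul, smul_eq_mul, smul_eq_mul]
      ring
    rw [smul_mul_assoc, map_smul, map_smul, hu f hf w, map_smul, smul_mul_assoc, map_smul, e,
      smul_add]
  · intro i k u hu f hf w
    rw [mul_assoc, K_x_mul, map_add, K_x_mul, add_mul, map_add, fA_fA, Rt_x_mul]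
    have h2 := hu _ (hf.fL i k) (w * Equiv.swap i k)
    rw [fL_apply, fL_apply] at h2
    obtain ⟨c, hc, e⟩ := h.co_w w i k
    rw [h2, e, Good.K2 h.P_deg h.P_rad u f hf M le_rfl c hc, ← mul_assoc]
    ring

theorem Good.gp_eq_zero (hP : IsE P) {j : ℕ} (hj : 0 < j) (hjM : j ≤ M) {s : FK n}
    (hs : s ∈ deg n j) (hr : Rad s) (k : ℕ) (u : FK n) : ∀ f : FK n →ₗ[ℚ] ℚ, Good M P f → ∀ g,
      f (gp g (u * s * P ^ k)) = 0 := by
  refine ind_left (p := fun u => ∀ f : FK n →ₗ[ℚ] ℚ, Good M P f → ∀ g,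
      f (gp g (u * s * P ^ k)) = 0) ?_ ?_ ?_ ?_ u
  · intro f hf g
    have := hf 1 j hj hjM _ (gp_deg j g s hs) (hr.gp g) k
    rw [one_mul] at this ⊢
    rw [hP.gp_mul_pow]
    exact this
  · intro u v hu hv f hf g
    rw [add_mul, add_mul, map_add, map_add, hu f hf g, hv f hf g, add_zero]
  · intro r u hu f hf g
    rw [smul_mul_assoc, smul_mul_assoc, map_smul, map_smul, hu f hf g, smul_zero]
  · intro i k' u hu f hf g
    have := hu _ (hf.fL i k') (Equiv.swap i k' * g)
    rw [fL_apply] at this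
    rw [mul_assoc, mul_assoc, gp_x_mul, ← mul_assoc u, this]

theorem Dat.good_K (h : Dat M Φ P) (hf : Good M P f) : Good M P (f.comp (K Φ)) := by
  intro u j hj hjM s hs hr k
  show f (K Φ (u * s * P ^ k)) = 0
  have hw : fA Φ 1 = Φ := by
    refine LinearMap.ext fun u => ?_
    rw [fA_apply, act_one]
  induction k generalizing f with
  | zero =>
    have := h.A hj hjM hs hr u f hf 1
    rw [hw] at this
    rw [pow_zero, mul_one]
    exact this
  | succ k ih =>
    have e := h.BB (u * s * P ^ k) f hf 1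
    rw [hw] at e
    rw [pow_succ, ← mul_assoc, e]
    have h1 := ih hf.fR
    rw [fR_apply] at h1
    rw [h1, zero_add]
    unfold Rt
    refine Finset.sum_eq_zero fun g _ => ?_
    rw [Good.gp_eq_zero h.P_e hj hjM hs hr k u f hf g, mul_zero]

theorem Dat.K_pow (h : Dat M Φ P) (k : ℕ) : ∀ f : FK n →ₗ[ℚ] ℚ, Good M P f →
    f (K Φ (P ^ (k + 1))) = (k + 1) * Φ P * f (P ^ k) := by
  have hw : fA Φ 1 = Φ := by
    refine LinearMap.ext fun u => ?_
    rw [fA_apply, act_one]
  induction k with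
  | zero =>
    intro f hf
    have e := h.BB 1 f hf 1
    rw [hw, one_mul, K_one, h.one, zero_smul, zero_mul, map_zero, zero_add,
      Rt_isE 1 f isE_one, act_one] at e
    rw [zero_add, pow_one, e, pow_zero]
    push_cast
    ring
  | succ k ih =>
    intro f hf
    have e := h.BB (P ^ (k + 1)) f hf 1
    rw [hw, Rt_isE 1 f (h.P_e.pow _), act_one] at e
    have h1 := ih _ hf.fR
    rw [fR_apply, fR_apply, ← pow_succ] at h1
    rw [pow_succ _ (k + 1), e, h1]
    push_cast
    ring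

/-- The functionals dual to the powers. -/
noncomputable def Lam (Φ : FK n →ₗ[ℚ] ℚ) : ℕ → (FK n →ₗ[ℚ] ℚ)
  | 0 => B 1
  | m + 1 => (Lam Φ m).comp (K Φ)

theorem Dat.good_Lam (h : Dat M Φ P) (m : ℕ) : Good M P (Lam Φ m) := by
  induction m with
  | zero =>
    intro u j hj hjM s hs hr k
    show B 1 (u * s * P ^ k) = 0
    obtain ⟨j', rfl⟩ : ∃ j', j = j' + 1 := ⟨j - 1, by omega⟩
    rw [B_one_left, map_mul, map_mul, eps_deg_succ j' hs, mul_zero, zero_mul]
  | succ m ih => exact h.good_K ih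

theorem Dat.Lam_pow (h : Dat M Φ P) (m : ℕ) : Lam Φ m (P ^ m) ≠ 0 := by
  induction m with
  | zero =>
    show B 1 (P ^ 0) ≠ 0
    rw [B_one_left, pow_zero, map_one]
    exact one_ne_zero
  | succ m ih =>
    show Lam Φ m (K Φ (P ^ (m + 1))) ≠ 0
    rw [h.K_pow m _ (h.good_Lam m)]
    refine mul_ne_zero (mul_ne_zero ?_ h.P_ne) ih
    positivity

theorem Dat.hom_Lam (h : Dat M Φ P) (m : ℕ) : HomD ((M + 1) * m) (Lam Φ m) := by
  have hw : fA Φ 1 = Φ := by
    refine LinearMap.ext fun u => ?_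
    rw [fA_apply, act_one]
  have hΦ : HomD (M + 1) Φ := hw ▸ h.hom 1
  induction m with
  | zero =>
    rw [mul_zero]
    exact HomD_B one_mem_deg
  | succ m ih =>
    intro e he u hu
    show Lam Φ m (K Φ u) = 0
    rcases Nat.lt_or_ge e (M + 1) with h1 | h1
    · rw [K_deg_lt e u hu (M + 1) h1 Φ hΦ, map_zero]
    · obtain ⟨e', rfl⟩ : ∃ e', e = (M + 1) + e' := ⟨e - (M + 1), by omega⟩
      refine ih e' ?_ _ (K_deg e' u (M + 1) Φ hu hΦ)
      intro h2
      apply he
      rw [h2]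
      ring

theorem mul_mem_deg {a b : ℕ} {u v : FK n} (hu : u ∈ deg n a) (hv : v ∈ deg n b) :
    u * v ∈ deg n (a + b) := by
  unfold deg at *
  rw [pow_add]
  exact Submodule.mul_mem_mul hu hv

theorem pow_mem_deg {a : ℕ} {u : FK n} (hu : u ∈ deg n a) (m : ℕ) : u ^ m ∈ deg n (a * m) := by
  induction m with
  | zero => rw [pow_zero, mul_zero]; exact one_mem_deg
  | succ m ih => rw [pow_succ, Nat.mul_succ]; exact mul_mem_deg ih hu

theorem Dat.Lam_pow_ne (h : Dat M Φ P) {m k : ℕ} (hmk : k ≠ m) : Lam Φ m (P ^ k) = 0 := by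
  refine h.hom_Lam m ((M + 1) * k) ?_ _ (pow_mem_deg h.P_deg k)
  intro e
  exact hmk (Nat.eq_of_mul_eq_mul_left (by omega) e)

/-- The powers of `P` are linearly independent. -/
theorem Dat.linearIndependent (h : Dat M Φ P) : LinearIndependent ℚ (fun m : ℕ => P ^ m) := by
  rw [linearIndependent_iff']
  intro s g hg i hi
  have h1 := congrArg (Lam Φ i) hg
  rw [map_sum, map_zero, Finset.sum_eq_single i] at h1
  · rw [map_smul, smul_eq_mul] at h1
    exact (mul_eq_zero.mp h1).resolve_right (h.Lam_pow i)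
  · intro j _ hji
    rw [map_smul, h.Lam_pow_ne hji, smul_zero]
  · intro hi'
    exact absurd hi hi'

end

end H387FK
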