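import Pool.Agent.helper387_fk.Star
import Pool.Agent.helper387_fk.Engine

/-!
Soundness of the rewriting of star polynomials modulo the radical of the canonical form.
-/

namespace H387FK

attribute [local irreducible] instRing instAlg

/-- Append a letter. -/
def cn : L → W → W
  | .l1 => W.a
  | .l2 => W.b
  | .l3 => W.c
  | .l4 => W.d
  | .l5 => W.f

/-- The list of letters of a word. -/
def wl : W → List L
  | .e => []
  | .a w => .l1 :: wl w
  | .b w => .l2 :: wl w
  | .c w => .l3 :: wl w
  | .d w => .l4 :: wl w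
  | .f w => .l5 :: wl w

theorem wl_cn (k : L) (w : W) : wl (cn k w) = k :: wl w := by cases k <;> rfl

theorem W_ind {p : W → Prop} (h0 : p W.e) (h1 : ∀ k w, p w → p (cn k w)) : ∀ w, p w := by
  intro w
  induction w with
  | e => exact h0
  | a w ih => exact h1 .l1 w ih
  | b w ih => exact h1 .l2 w ih
  | c w ih => exact h1 .l3 w ih
  | d w ih => exact h1 .l4 w ih
  | f w ih => exact h1 .l5 w ih

/-- The pair of vertices of a state. -/
def sf : S → Fin 6 × Fin 6
  | .s12 => (0, 1) | .s13 => (0, 2) | .s14 => (0, 3) | .s15 => (0, 4) | .s16 => (0, 5)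
  | .s21 => (1, 0) | .s23 => (1, 2) | .s24 => (1, 3) | .s25 => (1, 4) | .s26 => (1, 5)
  | .s31 => (2, 0) | .s32 => (2, 1) | .s34 => (2, 3) | .s35 => (2, 4) | .s36 => (2, 5)
  | .s41 => (3, 0) | .s42 => (3, 1) | .s43 => (3, 2) | .s45 => (3, 4) | .s46 => (3, 5)
  | .s51 => (4, 0) | .s52 => (4, 1) | .s53 => (4, 2) | .s54 => (4, 3) | .s56 => (4, 5)
  | .s61 => (5, 0) | .s62 => (5, 1) | .s63 => (5, 2) | .s64 => (5, 3) | .s65 => (5, 4)

noncomputable def nxk : L → S → S
  | .l1 => nxa
  | .l2 => nxb
  | .l3 => nxc
  | .l4 => nxd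
  | .l5 => nxf

noncomputable def emk : L → S → Sg
  | .l1 => ema
  | .l2 => emb
  | .l3 => emc
  | .l4 => emd
  | .l5 => emf

theorem nxk_fst (k : L) (s : S) : (sf (nxk k s)).1 = Equiv.swap (vx k) 5 (sf s).1 := by
  cases k <;> cases s <;> rfl

theorem nxk_snd (k : L) (s : S) : (sf (nxk k s)).2 = Equiv.swap (vx k) 5 (sf s).2 := by
  cases k <;> cases s <;> rfl

def sgv : Sg → ℚ
  | .no => 0
  | .po => 1
  | .ne => -1

theorem emk_eq (k : L) (s : S) : kap (vx k) 5 (sf s).1 (sf s).2 = sgv (emk k s) := by
  cases k <;> cases s <;> exact (by unfold kap; simp [vx, sf]; rfl)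

/-- The value of a sign and a multiplicity. -/
def vl : Bool → ℕ → ℚ
  | false, q => q
  | true, q => -q

theorem vl_bnot (s : Bool) (q : ℕ) : vl (bnot s) q = - vl s q := by
  cases s
  · rfl
  · show (q : ℚ) = - (-(q : ℚ)); rw [neg_neg]

theorem vl_bxor (s s' : Bool) (q q' : ℕ) : vl (bxor s s') (Nat.mul q q') = vl s q * vl s' q' := by
  cases s <;> cases s' <;> simp [bxor, bnot, vl]

/-- The value of a tree. -/
noncomputable def evT : T → FK 6
  | .z => 0
  | .n p m a b c d f => ((p : ℚ) - (m : ℚ)) • 1 +
      (evT a * y .l1 + evT b * y .l2 + evT c * y .l3 + evT d * y .l4 + evT f * y .l5)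

/-- The value of a list of terms whose words have the last letter outermost. -/
noncomputable def evL : List Tm → FK 6
  | [] => 0
  | .t s q w :: r => vl s q • ev (wl w) + evL r

/-- The value of a list of terms whose words have the first letter outermost. -/
noncomputable def evLf : List Tm → FK 6
  | [] => 0
  | .t s q w :: r => vl s q • evf (wl w) + evLf r

/-- The skew derivation of a list of terms. -/
noncomputable def DformL (i j : Fin 6) : List Tm → FK 6
  | [] => 0
  | .t s q w :: r => vl s q • Dform i j (wl w) + DformL i j r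

theorem B_DformL (i j : Fin 6) (p : List Tm) (u : FK 6) :
    B (x i j * u) (evL p) = B u (DformL i j p) := by
  induction p with
  | nil => rw [evL, DformL, map_zero, map_zero]
  | cons tm p ih =>
    obtain ⟨s, q, w⟩ := tm
    rw [evL, DformL, map_add, map_add, map_smul, map_smul, B_Dform, ih]

theorem InU.evL (p : List Tm) : InU (evL p) := by
  induction p with
  | nil => exact InU.zero
  | cons tm p ih =>
    obtain ⟨s, q, w⟩ := tm
    exact ((InU.ev _).smul _).add ih

theorem InU.evT (t : T) : InU (evT t) := by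
  induction t with
  | z => exact InU.zero
  | n p m a b c d f iha ihb ihc ihd ihf =>
    exact ((InU.ev []).smul _).add (((((iha.mul_y _).add (ihb.mul_y _)).add (ihc.mul_y _)).add
      (ihd.mul_y _)).add (ihf.mul_y _))

theorem InU.DformL (i j : Fin 6) (p : List Tm) : InU (DformL i j p) := by
  induction p with
  | nil => exact InU.zero
  | cons tm p ih =>
    obtain ⟨s, q, w⟩ := tm
    exact ((InU.Dform _ _ _).smul _).add ih

theorem fo_eq (t : T) (k : T → T) : fo t k = k t := by cases t <;> rfl

theorem ins_eq (s : Bool) (q : ℕ) (w : W) (t : T) :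
    evT (ins s q w t) = evT t + vl s q • ev (wl w) := by
  revert t
  refine W_ind (p := fun w => ∀ t, evT (ins s q w t) = evT t + vl s q • ev (wl w)) ?_ ?_ w
  · intro t
    cases t with
    | z =>
      cases s
      · show evT (T.n q 0 T.z T.z T.z T.z T.z) = _
        simp [evT, vl, wl, ev]
      · show evT (T.n 0 q T.z T.z T.z T.z T.z) = _
        simp [evT, vl, wl, ev]
    | n p m a b c d f =>
      cases s
      · show evT (T.n (Nat.add p q) m a b c d f) = _
        simp only [evT, vl, wl, ev, Nat.add_eq, Nat.cast_add]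
        module
      · show evT (T.n p (Nat.add m q) a b c d f) = _
        simp only [evT, vl, wl, ev, Nat.add_eq, Nat.cast_add]
        module
  · intro k w ih t
    cases k with
    | l1 =>
      cases t with
      | z =>
        show evT (fo (ins s q w T.z) (fun r => T.n 0 0 r T.z T.z T.z T.z)) = _
        rw [fo_eq]
        simp only [evT, ih, wl_cn, ev, Nat.cast_zero, sub_zero, zero_smul, zero_mul, add_zero,
          zero_add, smul_mul_assoc]
      | n p m a b c d f =>
        show evT (fo (ins s q w a) (fun r => T.n p m r b c d f)) = _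
        rw [fo_eq]
        simp only [evT, ih, wl_cn, ev, add_mul, smul_mul_assoc]
        abel
    | l2 =>
      cases t with
      | z =>
        show evT (fo (ins s q w T.z) (fun r => T.n 0 0 T.z r T.z T.z T.z)) = _
        rw [fo_eq]
        simp only [evT, ih, wl_cn, ev, Nat.cast_zero, sub_zero, zero_smul, zero_mul, add_zero,
          zero_add, smul_mul_assoc]
      | n p m a b c d f =>
        show evT (fo (ins s q w b) (fun r => T.n p m a r c d f)) = _
        rw [fo_eq]
        simp only [evT, ih, wl_cn, ev, add_mul, smul_mul_assoc]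
        abel
    | l3 =>
      cases t with
      | z =>
        show evT (fo (ins s q w T.z) (fun r => T.n 0 0 T.z T.z r T.z T.z)) = _
        rw [fo_eq]
        simp only [evT, ih, wl_cn, ev, Nat.cast_zero, sub_zero, zero_smul, zero_mul, add_zero,
          zero_add, smul_mul_assoc]
      | n p m a b c d f =>
        show evT (fo (ins s q w c) (fun r => T.n p m a b r d f)) = _
        rw [fo_eq]
        simp only [evT, ih, wl_cn, ev, add_mul, smul_mul_assoc]
        abel
    | l4 =>
      cases t with
      | z =>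
        show evT (fo (ins s q w T.z) (fun r => T.n 0 0 T.z T.z T.z r T.z)) = _
        rw [fo_eq]
        simp only [evT, ih, wl_cn, ev, Nat.cast_zero, sub_zero, zero_smul, zero_mul, add_zero,
          zero_add, smul_mul_assoc]
      | n p m a b c d f =>
        show evT (fo (ins s q w d) (fun r => T.n p m a b c r f)) = _
        rw [fo_eq]
        simp only [evT, ih, wl_cn, ev, add_mul, smul_mul_assoc]
        abel
    | l5 =>
      cases t with
      | z =>
        show evT (fo (ins s q w T.z) (fun r => T.n 0 0 T.z T.z T.z T.z r)) = _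
        rw [fo_eq]
        simp only [evT, ih, wl_cn, ev, Nat.cast_zero, sub_zero, zero_smul, zero_mul, add_zero,
          zero_add, smul_mul_assoc]
      | n p m a b c d f =>
        show evT (fo (ins s q w f) (fun r => T.n p m a b c d r)) = _
        rw [fo_eq]
        simp only [evT, ih, wl_cn, ev, add_mul, smul_mul_assoc]
        abel

theorem wl_app (v w : W) : wl (app v w) = wl v ++ wl w := by
  refine W_ind (p := fun v => wl (app v w) = wl v ++ wl w) ?_ ?_ v
  · rfl
  · intro k v ih
    cases k <;> exact congrArg _ ih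

theorem wl_rapp (v w : W) : wl (rapp v w) = (wl v).reverse ++ wl w := by
  revert w
  refine W_ind (p := fun v => ∀ w, wl (rapp v w) = (wl v).reverse ++ wl w) ?_ ?_ v
  · intro w; rfl
  · intro k v ih w
    have h : rapp (cn k v) w = rapp v (cn k w) := by cases k <;> rfl
    rw [h, ih, wl_cn, wl_cn, List.reverse_cons, List.append_assoc, List.singleton_append]

/-- `mem r u p`: the table has the rule `u ↦ p`. -/
def mem : R → List L → List Tm → Prop
  | .nil, _, _ => False
  | .hit q, u, p => u = [] ∧ p = q
  | .br _ _ _ _ _, [], _ => False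
  | .br r1 _ _ _ _, .l1 :: u, p => mem r1 u p
  | .br _ r2 _ _ _, .l2 :: u, p => mem r2 u p
  | .br _ _ r3 _ _, .l3 :: u, p => mem r3 u p
  | .br _ _ _ r4 _, .l4 :: u, p => mem r4 u p
  | .br _ _ _ _ r5, .l5 :: u, p => mem r5 u p

theorem find_spec (r : R) (w : W) :
    (∃ u w' p, wl w = u ++ wl w' ∧ mem r u p ∧ ∀ g x, find r w g x = g p w') ∨
      (∀ g x, find r w g x = x) := by
  induction r generalizing w with
  | nil => exact Or.inr fun _ _ => rfl
  | hit p => exact Or.inl ⟨[], w, p, rfl, ⟨rfl, rfl⟩, fun _ _ => rfl⟩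
  | br r1 r2 r3 r4 r5 i1 i2 i3 i4 i5 =>
    cases w with
    | e => exact Or.inr fun _ _ => rfl
    | a w =>
      rcases i1 w with ⟨u, w', p, h1, h2, h3⟩ | h
      · exact Or.inl ⟨.l1 :: u, w', p, congrArg _ h1, h2, h3⟩
      · exact Or.inr h
    | b w =>
      rcases i2 w with ⟨u, w', p, h1, h2, h3⟩ | h
      · exact Or.inl ⟨.l2 :: u, w', p, congrArg _ h1, h2, h3⟩
      · exact Or.inr h
    | c w =>
      rcases i3 w with ⟨u, w', p, h1, h2, h3⟩ | h
      · exact Or.inl ⟨.l3 :: u, w', p, congrArg _ h1, h2, h3⟩
      · exact Or.inr h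
    | d w =>
      rcases i4 w with ⟨u, w', p, h1, h2, h3⟩ | h
      · exact Or.inl ⟨.l4 :: u, w', p, congrArg _ h1, h2, h3⟩
      · exact Or.inr h
    | f w =>
      rcases i5 w with ⟨u, w', p, h1, h2, h3⟩ | h
      · exact Or.inl ⟨.l5 :: u, w', p, congrArg _ h1, h2, h3⟩
      · exact Or.inr h

/-- The rules for words with a given last letter. -/
def Rk : L → R
  | .l1 => R1
  | .l2 => R2
  | .l3 => R3
  | .l4 => R4
  | .l5 => R5

/-- All rules of length at most `N` are valid modulo the radical. -/
def Val (N : ℕ) : Prop :=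
  ∀ k u p, mem (Rk k) u p → u.length + 1 ≤ N → Eqr (ev (k :: u)) (evLf p)

/-- All words in the list of terms have length `m`. -/
def Len (m : ℕ) : List Tm → Prop
  | [] => True
  | .t _ _ w :: r => (wl w).length = m ∧ Len m r

/-- All rules are homogeneous. -/
def Hom : Prop := ∀ k u p, mem (Rk k) u p → Len (u.length + 1) p

theorem fold_sound {N : ℕ} {h : W → W → Bool → ℕ → T → T}
    (hh : ∀ pre todo s q acc, (wl pre).length + (wl todo).length ≤ N →
      Eqr (evT (h pre todo s q acc)) (evT acc + vl s q • (ev (wl pre) * evf (wl todo))))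
    (pre todo : W) (s : Bool) (q : ℕ) (m : ℕ) (p : List Tm) (hp : Len m p)
    (hm : (wl pre).length + m + (wl todo).length ≤ N) (acc : T) :
    Eqr (evT (fold p h pre todo s q acc))
      (evT acc + vl s q • (ev (wl pre) * evLf p * evf (wl todo))) := by
  induction p generalizing acc with
  | nil =>
    show Eqr (evT acc) _
    rw [evLf, mul_zero, zero_mul, smul_zero, add_zero]
    exact Eqr.refl _
  | cons tm p ih =>
    obtain ⟨s', q', w'⟩ := tm
    show Eqr (evT (fo (h pre (app w' todo) (bxor s s') (Nat.mul q q') acc)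
      (fun acc => fold p h pre todo s q acc))) _
    rw [fo_eq]
    have h1 := ih hp.2 (h pre (app w' todo) (bxor s s') (Nat.mul q q') acc)
    refine h1.trans ?_
    have h2 := hh pre (app w' todo) (bxor s s') (Nat.mul q q') acc (by
      rw [wl_app, List.length_append, hp.1]; omega)
    refine (h2.add (Eqr.refl _)).trans (Eqr.of_eq ?_)
    rw [vl_bxor, wl_app, evf_append, evLf]
    simp only [mul_add, add_mul, mul_smul_comm, smul_mul_assoc, mul_assoc, smul_add, smul_smul]
    abel

theorem nf_succ (fuel : ℕ) (pre : W) (k : L) (w : W) (s : Bool) (q : ℕ) (acc : T) :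
    nf (fuel + 1) pre (cn k w) s q acc =
      find (Rk k) pre (fun p pre' => fold p (nf fuel) pre' w s q acc)
        (nf fuel (cn k pre) w s q acc) := by
  cases k <;> rfl

theorem nf_sound {N : ℕ} (hV : Val N) (hH : Hom) (fuel : ℕ) :
    ∀ pre todo s q acc, (wl pre).length + (wl todo).length ≤ N →
      Eqr (evT (nf fuel pre todo s q acc)) (evT acc + vl s q • (ev (wl pre) * evf (wl todo))) := by
  induction fuel with
  | zero =>
    intro pre todo s q acc _
    show Eqr (evT (ins s q (rapp todo pre) acc)) _
    rw [ins_eq, wl_rapp, ev_append, ev_reverse]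
    exact Eqr.refl _
  | succ fuel ih =>
    intro pre todo s q acc hN
    revert hN
    refine W_ind (p := fun todo => (wl pre).length + (wl todo).length ≤ N →
      Eqr (evT (nf (fuel + 1) pre todo s q acc))
        (evT acc + vl s q • (ev (wl pre) * evf (wl todo)))) ?_ ?_ todo
    · intro _
      show Eqr (evT (ins s q pre acc)) _
      rw [ins_eq, wl, evf, mul_one]
      exact Eqr.refl _
    · intro k w _ hN
      rw [wl_cn, List.length_cons] at hN
      rw [nf_succ]
      rcases find_spec (Rk k) pre with ⟨u, w', p, h1, h2, h3⟩ | h3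
      · rw [h3]
        have hlen : (wl pre).length = u.length + (wl w').length := by
          rw [h1, List.length_append]
        refine (fold_sound ih w' w s q (u.length + 1) p (hH k u p h2) (by omega) acc).trans ?_
        refine (Eqr.refl _).add (Eqr.smul _ ?_)
        have hv := hV k u p h2 (by omega)
        refine ((hv.symm.ev_mul (wl w')).mul_evf (wl w)).trans (Eqr.of_eq ?_)
        rw [h1, ev_append, wl_cn, ev, evf]
        simp only [mul_assoc]
      · rw [h3]
        refine (ih (cn k pre) w s q acc (by rw [wl_cn, List.length_cons]; omega)).trans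
          (Eqr.of_eq ?_)
        rw [wl_cn, wl_cn, ev, evf, mul_assoc]

theorem Dw_cn (k : L) (w : W) (st : S) (todo : W) (s : Bool) (q : ℕ) (acc : T) :
    Dw (cn k w) st todo s q acc = Sg.rec (motive := fun _ => T)
      (Dw w (nxk k st) (cn k todo) s q acc)
      (fo (nf 200 w todo s q acc) (Dw w (nxk k st) (cn k todo) s q))
      (fo (nf 200 w todo (bnot s) q acc) (Dw w (nxk k st) (cn k todo) s q)) (emk k st) := by
  cases k <;> rfl

theorem Dw_sound {N : ℕ} (hV : Val N) (hH : Hom) (w : W) :
    ∀ st todo s q acc, (wl w).length + (wl todo).length ≤ N + 1 →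
      Eqr (evT (Dw w st todo s q acc))
        (evT acc + vl s q • (Dform (sf st).1 (sf st).2 (wl w) * evf (wl todo))) := by
  refine W_ind (p := fun w => ∀ st todo s q acc, (wl w).length + (wl todo).length ≤ N + 1 →
      Eqr (evT (Dw w st todo s q acc))
        (evT acc + vl s q • (Dform (sf st).1 (sf st).2 (wl w) * evf (wl todo)))) ?_ ?_ w
  · intro st todo s q acc _
    show Eqr (evT acc) _
    rw [wl, Dform, zero_mul, smul_zero, add_zero]
    exact Eqr.refl _
  · intro k w ih st todo s q acc hN
    rw [wl_cn, List.length_cons] at hN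
    rw [Dw_cn, wl_cn, Dform, emk_eq]
    have ih' := ih (nxk k st) (cn k todo) s q
    rw [nxk_fst, nxk_snd] at ih'
    have hlen : (wl w).length + (wl (cn k todo)).length ≤ N + 1 := by
      rw [wl_cn, List.length_cons]; omega
    cases hem : emk k st with
    | no =>
      refine (ih' acc hlen).trans (Eqr.of_eq ?_)
      rw [wl_cn, evf]
      simp only [sgv, zero_smul, zero_add, mul_assoc]
    | po =>
      show Eqr (evT (fo (nf 200 w todo s q acc) (Dw w (nxk k st) (cn k todo) s q))) _
      rw [fo_eq]
      refine (ih' _ hlen).trans ?_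
      refine ((nf_sound hV hH 200 w todo s q acc (by omega)).add (Eqr.refl _)).trans
        (Eqr.of_eq ?_)
      rw [wl_cn, evf]
      simp only [sgv, one_smul, add_mul, smul_add, mul_assoc]
      abel
    | ne =>
      show Eqr (evT (fo (nf 200 w todo (bnot s) q acc) (Dw w (nxk k st) (cn k todo) s q))) _
      rw [fo_eq]
      refine (ih' _ hlen).trans ?_
      refine ((nf_sound hV hH 200 w todo (bnot s) q acc (by omega)).add (Eqr.refl _)).trans
        (Eqr.of_eq ?_)
      rw [wl_cn, evf, vl_bnot]
      simp only [sgv, neg_smul, one_smul, neg_mul, add_mul, smul_add, smul_neg, mul_assoc]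
      abel

/-- All words in the list of terms have length at most `m`. -/
def LenLe (m : ℕ) : List Tm → Prop
  | [] => True
  | .t _ _ w :: r => (wl w).length ≤ m ∧ LenLe m r

theorem DP_sound {N : ℕ} (hV : Val N) (hH : Hom) (st : S) (sg : Bool) (p : List Tm)
    (hp : LenLe (N + 1) p) (acc : T) :
    Eqr (evT (DP st sg p acc)) (evT acc + vl sg 1 • DformL (sf st).1 (sf st).2 p) := by
  induction p generalizing acc with
  | nil =>
    show Eqr (evT acc) _
    rw [DformL, smul_zero, add_zero]
    exact Eqr.refl _
  | cons tm p ih =>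
    obtain ⟨s, q, w⟩ := tm
    show Eqr (evT (fo (Dw w st W.e (bxor sg s) q acc) (fun acc => DP st sg p acc))) _
    rw [fo_eq]
    refine (ih hp.2 _).trans ?_
    have h2 := Dw_sound hV hH w st W.e (bxor sg s) q acc (by have := hp.1; simp only [wl, List.length_nil]; omega)
    refine (h2.add (Eqr.refl _)).trans (Eqr.of_eq ?_)
    have h3 : vl (bxor sg s) q = vl sg 1 * vl s q := by
      have := vl_bxor sg s 1 q
      rwa [Nat.mul_eq, one_mul] at this
    rw [h3, DformL, wl, evf, mul_one, smul_add, smul_smul]
    abel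

theorem band_eq {s t : Bool} (h : band s t = true) : s = true ∧ t = true := by
  cases s <;> cases t <;> first | exact ⟨rfl, rfl⟩ | exact absurd h (by decide)

theorem bor_eq {s t : Bool} (h : bor s t = true) : s = true ∨ t = true := by
  cases s
  · exact Or.inr h
  · exact Or.inl rfl

theorem isz_sound (t : T) (h : isz t = true) : evT t = 0 := by
  induction t with
  | z => rfl
  | n p m a b c d f iha ihb ihc ihd ihf =>
    obtain ⟨h0, h⟩ := band_eq (s := Nat.beq p m) h
    obtain ⟨h1, h⟩ := band_eq (s := isz a) h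
    obtain ⟨h2, h⟩ := band_eq (s := isz b) h
    obtain ⟨h3, h⟩ := band_eq (s := isz c) h
    obtain ⟨h4, h5⟩ := band_eq (s := isz d) h
    rw [evT, iha h1, ihb h2, ihc h3, ihd h4, ihf h5, Nat.eq_of_beq_eq_true h0]
    simp

theorem evL_catT (p q : List Tm) : evL (catT p q) = evL p + evL q := by
  induction p with
  | nil => show evL q = 0 + evL q; rw [zero_add]
  | cons tm p ih =>
    obtain ⟨s, k, w⟩ := tm
    show evL (Tm.t s k w :: catT p q) = _
    rw [evL, ih, evL, add_assoc]

theorem evL_consa (p : List Tm) : evL (consa p) = evL p * y .l1 := by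
  induction p with
  | nil => show (0 : FK 6) = 0 * _; rw [zero_mul]
  | cons tm p ih =>
    obtain ⟨s, k, w⟩ := tm
    show evL (Tm.t s k (W.a w) :: consa p) = _
    rw [evL, ih, evL, add_mul, smul_mul_assoc]; rfl

theorem evL_consb (p : List Tm) : evL (consb p) = evL p * y .l2 := by
  induction p with
  | nil => show (0 : FK 6) = 0 * _; rw [zero_mul]
  | cons tm p ih =>
    obtain ⟨s, k, w⟩ := tm
    show evL (Tm.t s k (W.b w) :: consb p) = _
    rw [evL, ih, evL, add_mul, smul_mul_assoc]; rfl

theorem evL_consc (p : List Tm) : evL (consc p) = evL p * y .l3 := by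
  induction p with
  | nil => show (0 : FK 6) = 0 * _; rw [zero_mul]
  | cons tm p ih =>
    obtain ⟨s, k, w⟩ := tm
    show evL (Tm.t s k (W.c w) :: consc p) = _
    rw [evL, ih, evL, add_mul, smul_mul_assoc]; rfl

theorem evL_consd (p : List Tm) : evL (consd p) = evL p * y .l4 := by
  induction p with
  | nil => show (0 : FK 6) = 0 * _; rw [zero_mul]
  | cons tm p ih =>
    obtain ⟨s, k, w⟩ := tm
    show evL (Tm.t s k (W.d w) :: consd p) = _
    rw [evL, ih, evL, add_mul, smul_mul_assoc]; rfl

theorem evL_consf (p : List Tm) : evL (consf p) = evL p * y .l5 := by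
  induction p with
  | nil => show (0 : FK 6) = 0 * _; rw [zero_mul]
  | cons tm p ih =>
    obtain ⟨s, k, w⟩ := tm
    show evL (Tm.t s k (W.f w) :: consf p) = _
    rw [evL, ih, evL, add_mul, smul_mul_assoc]; rfl

theorem evL_tml (p m : ℕ) (r : List Tm) : evL (tml p m r) = ((p : ℚ) - (m : ℚ)) • 1 + evL r := by
  unfold tml
  cases h : Nat.beq p m with
  | true =>
    rw [Nat.eq_of_beq_eq_true h]
    show evL r = _
    simp
  | false =>
    cases h2 : Nat.ble p m with
    | true =>
      show evL (Tm.t true (Nat.sub m p) W.e :: r) = _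
      have hle : p ≤ m := Nat.le_of_ble_eq_true h2
      rw [evL]
      simp only [vl, wl, ev, Nat.sub_eq, Nat.cast_sub hle, neg_sub]
    | false =>
      show evL (Tm.t false (Nat.sub p m) W.e :: r) = _
      have hle : m ≤ p := by
        by_contra hc
        rw [Nat.ble_eq_true_of_le (by omega)] at h2
        exact absurd h2 (by decide)
      rw [evL]
      simp only [vl, wl, ev, Nat.sub_eq, Nat.cast_sub hle]

theorem evL_toL (t : T) : evL (toL t) = evT t := by
  induction t with
  | z => rfl
  | n p m a b c d f iha ihb ihc ihd ihf =>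
    show evL (tml p m (catT (consa (toL a)) (catT (consb (toL b)) (catT (consc (toL c))
      (catT (consd (toL d)) (consf (toL f))))))) = _
    rw [evL_tml, evL_catT, evL_catT, evL_catT, evL_catT, evL_consa, evL_consb, evL_consc, evL_consd,
      evL_consf, iha, ihb, ihc, ihd, ihf, evT]
    simp only [add_assoc]

theorem eps_y (k : L) : eps (y k) = 0 := eps_x _ _

theorem eps_evT_n (p m : ℕ) (a b c d f : T) :
    eps (evT (T.n p m a b c d f)) = (p : ℚ) - (m : ℚ) := by
  rw [evT]
  simp only [map_add, map_mul, eps_y, mul_zero, add_zero, map_smul, map_one, smul_eq_mul, mul_one]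

theorem root0_sound (t : T) (h : root0 t = true) : eps (evT t) = 0 := by
  cases t with
  | z => exact map_zero _
  | n p m a b c d f =>
    rw [eps_evT_n, Nat.eq_of_beq_eq_true (n := p) (m := m) h, sub_self]

/-- The state of the star derivation for a letter. -/
def stk : L → S
  | .l1 => .s16
  | .l2 => .s26
  | .l3 => .s36
  | .l4 => .s46
  | .l5 => .s56

theorem sf_stk (k : L) : sf (stk k) = (vx k, 5) := by cases k <;> rfl

theorem LenLe_exists (p : List Tm) : ∃ N, LenLe (N + 1) p := by
  have mono : ∀ (p : List Tm) (m n : ℕ), m ≤ n → LenLe m p → LenLe n p := by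
    intro p
    induction p with
    | nil => intro m n _ _; trivial
    | cons tm p ih =>
      obtain ⟨s, q, w⟩ := tm
      intro m n hmn h
      exact ⟨h.1.trans hmn, ih m n hmn h.2⟩
  induction p with
  | nil => exact ⟨0, trivial⟩
  | cons tm p ih =>
    obtain ⟨s, q, w⟩ := tm
    obtain ⟨N, hN⟩ := ih
    refine ⟨max N (wl w).length, ?_, mono p _ _ ?_ hN⟩
    · exact (le_max_right _ _).trans (Nat.le_succ _)
    · exact Nat.succ_le_succ (le_max_left _ _)

theorem DP_sound' (hV : ∀ N, Val N) (hH : Hom) (st : S) (sg : Bool) (p : List Tm) (acc : T) :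
    Eqr (evT (DP st sg p acc)) (evT acc + vl sg 1 • DformL (sf st).1 (sf st).2 p) := by
  obtain ⟨N, hN⟩ := LenLe_exists p
  exact DP_sound (hV N) hH st sg p hN acc

theorem all5_sound {g : T → Bool} {p : List Tm} (h : all5 g p = true) (k : L) :
    g (DP (stk k) false p T.z) = true := by
  obtain ⟨h1, h⟩ := band_eq h
  obtain ⟨h2, h⟩ := band_eq h
  obtain ⟨h3, h⟩ := band_eq h
  obtain ⟨h4, h5⟩ := band_eq h
  cases k
  · exact h1
  · exact h2
  · exact h3
  · exact h4
  · exact h5

theorem rad_of_all5 (hV : ∀ N, Val N) (hH : Hom) {g : T → Bool}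
    (hg : ∀ t, g t = true → Rad (evT t)) {p : List Tm} (h0 : eps (evL p) = 0)
    (h : all5 g p = true) : Rad (evL p) := by
  refine rad_of_D (InU.evL p) h0 ?_
  intro k
  refine ⟨DformL (vx k) 5 p, ?_, ?_⟩
  · have h1 := DP_sound' hV hH (stk k) false p T.z
    rw [sf_stk] at h1
    have h2 := hg _ (all5_sound h k)
    refine Eqr.rad ?_ h2
    refine (h1.trans (Eqr.of_eq ?_)).symm
    simp [evT, vl]
  · intro u
    exact B_DformL _ _ _ _

theorem radT_sound (hV : ∀ N, Val N) (hH : Hom) (fuel : ℕ) :
    ∀ t, radT fuel t = true → Rad (evT t) := by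
  induction fuel with
  | zero =>
    intro t h
    rw [isz_sound t h]
    exact Rad.zero
  | succ fuel ih =>
    intro t h
    rcases bor_eq (s := isz t) h with h | h
    · rw [isz_sound t h]
      exact Rad.zero
    · obtain ⟨h1, h2⟩ := band_eq (s := root0 t) h
      rw [← evL_toL]
      exact rad_of_all5 hV hH ih (by rw [evL_toL]; exact root0_sound t h1) h2

end H387FK
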