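import Pool.Agent.helper387_fk.Sound

/-!
Soundness of the test for the table of rules, and of the evaluation of the pairing.
-/

namespace H387FK

attribute [local irreducible] instRing instAlg

theorem evL_revP (p : List Tm) : evL (revP p) = evLf p := by
  induction p with
  | nil => rfl
  | cons tm p ih =>
    obtain ⟨s, q, w⟩ := tm
    show evL (Tm.t s q (rapp w W.e) :: revP p) = _
    rw [evL, ih, evLf, wl_rapp, wl, List.append_nil, ev_reverse]

theorem wlength_ind {p : W → W → Prop} (h0 : p W.e W.e)
    (h1 : ∀ k k' w w', p w w' → p (cn k w) (cn k' w')) (h2 : ∀ k w, p W.e (cn k w))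
    (h3 : ∀ k w, p (cn k w) W.e) : ∀ w w', p w w' := by
  intro w
  refine W_ind (p := fun w => ∀ w', p w w') ?_ ?_ w
  · intro w'
    exact W_ind (p := fun w' => p W.e w') h0 (fun k w _ => h2 k w) w'
  · intro k w ih w'
    exact W_ind (p := fun w' => p (cn k w) w') (h3 k w) (fun k' w' _ => h1 k k' w w' (ih w')) w'

theorem eqlen_sound (v w : W) : eqlen v w = true → (wl v).length = (wl w).length := by
  refine wlength_ind (p := fun v w => eqlen v w = true → (wl v).length = (wl w).length)
    ?_ ?_ ?_ ?_ v w
  · intro _; rfl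
  · intro k k' w w' ih h
    rw [wl_cn, wl_cn, List.length_cons, List.length_cons]
    refine congrArg _ (ih ?_)
    rw [← h]
    cases k <;> cases k' <;> rfl
  · intro k w h
    cases k <;> exact absurd h (by intro h; exact Bool.noConfusion h)
  · intro k w h
    cases k <;> exact absurd h (by intro h; exact Bool.noConfusion h)

theorem hom_sound (u : W) (p : List Tm) (h : hom u p = true) : Len (wl u).length p := by
  induction p with
  | nil => trivial
  | cons tm p ih =>
    obtain ⟨s, q, w⟩ := tm
    obtain ⟨h1, h2⟩ := band_eq (s := eqlen u w) h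
    exact ⟨(eqlen_sound u w h1).symm, ih h2⟩

theorem LenLe_revP {m : ℕ} {p : List Tm} (h : Len m p) : LenLe m (revP p) := by
  induction p with
  | nil => trivial
  | cons tm p ih =>
    obtain ⟨s, q, w⟩ := tm
    refine ⟨?_, ih h.2⟩
    rw [wl_rapp, wl, List.append_nil, List.length_reverse, h.1]

theorem eps_ev_cons (k : L) (w : List L) : eps (ev (k :: w)) = 0 := by
  rw [ev, map_mul, eps_y, mul_zero]

theorem eps_evf_cons (k : L) (w : List L) : eps (evf (k :: w)) = 0 := by
  rw [evf, map_mul, eps_y, zero_mul]

theorem eps_evLf {m : ℕ} {p : List Tm} (h : Len (m + 1) p) : eps (evLf p) = 0 := by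
  induction p with
  | nil => exact map_zero _
  | cons tm p ih =>
    obtain ⟨s, q, w⟩ := tm
    have h1 := h.1
    rw [evLf, map_add, ih h.2, map_smul, add_zero]
    cases hw : wl w with
    | nil => rw [hw] at h1; exact absurd h1 (by simp)
    | cons k w => rw [eps_evf_cons, smul_zero]

theorem chk1_sound {N : ℕ} (hV : Val N) (hH : Hom) (st : S) (u : W) (p : List Tm)
    (hu : (wl u).length = N + 1) (hp : Len (N + 1) p) (h : chk1 st u p = true) :
    Rad (Dform (sf st).1 (sf st).2 (wl u) - DformL (sf st).1 (sf st).2 (revP p)) := by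
  have h0 := isz_sound _ h
  have h1 := Dw_sound hV hH u st W.e false 1 T.z (by rw [wl, List.length_nil]; omega)
  have h2 := DP_sound hV hH st true (revP p) (LenLe_revP hp) (Dw u st W.e false 1 T.z)
  have h3 := h2.trans (h1.add (Eqr.refl _))
  rw [h0] at h3
  have h4 := h3.symm.rad Rad.zero
  have e : Dform (sf st).1 (sf st).2 (wl u) - DformL (sf st).1 (sf st).2 (revP p) =
      evT T.z + vl false 1 • (Dform (sf st).1 (sf st).2 (wl u) * evf (wl W.e)) +
        vl true 1 • DformL (sf st).1 (sf st).2 (revP p) := by
    simp only [evT, vl, wl, evf, Nat.cast_one, one_smul, mul_one, zero_add, neg_smul, sub_eq_add_neg]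
  rw [e]
  exact h4

theorem chk_sound {N : ℕ} (hV : Val N) (hH : Hom) (u : W) (p : List Tm)
    (hu : (wl u).length = N + 1) (h : chk u p = true) : Eqr (ev (wl u)) (evLf p) := by
  obtain ⟨h0, h⟩ := band_eq h
  have hp := hom_sound u p h0
  rw [hu] at hp
  obtain ⟨h1, h⟩ := band_eq h
  obtain ⟨h2, h⟩ := band_eq h
  obtain ⟨h3, h⟩ := band_eq h
  obtain ⟨h4, h5⟩ := band_eq h
  have hk : ∀ k, chk1 (stk k) u p = true := by
    intro k
    cases k
    · exact h1
    · exact h2
    · exact h3
    · exact h4
    · exact h5
  unfold Eqr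
  rw [← evL_revP]
  refine rad_of_D ?_ ?_ ?_
  · intro i j hi hj
    rw [map_sub, InU.ev _ i j hi hj, InU.evL _ i j hi hj, sub_zero]
  · rw [map_sub, evL_revP, eps_evLf hp, sub_zero]
    cases hw : wl u with
    | nil => rw [hw] at hu; exact absurd hu (by simp)
    | cons k w => exact eps_ev_cons _ _
  · intro k
    refine ⟨_, chk1_sound hV hH (stk k) u p hu hp (hk k), ?_⟩
    intro v
    rw [sf_stk, map_sub, map_sub, y, B_Dform, B_DformL]

theorem chkR_sound (r : R) (g : W) (h : chkR r g = true) (u : List L) (p : List Tm)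
    (hm : mem r u p) : ∃ v : W, wl v = (wl g).reverse ++ u ∧ chk v p = true := by
  induction r generalizing g u with
  | nil => exact absurd hm (by simp [mem])
  | hit q =>
    obtain ⟨rfl, rfl⟩ := hm
    refine ⟨rapp g W.e, ?_, h⟩
    rw [wl_rapp, wl]
  | br r1 r2 r3 r4 r5 i1 i2 i3 i4 i5 =>
    obtain ⟨h1, h⟩ := band_eq (s := chkR r1 (W.a g)) h
    obtain ⟨h2, h⟩ := band_eq (s := chkR r2 (W.b g)) h
    obtain ⟨h3, h⟩ := band_eq (s := chkR r3 (W.c g)) h
    obtain ⟨h4, h5⟩ := band_eq (s := chkR r4 (W.d g)) h
    cases u with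
    | nil => exact absurd hm (by simp [mem])
    | cons k u =>
      cases k with
      | l1 =>
        obtain ⟨v, hv, hc⟩ := i1 (W.a g) h1 u hm
        exact ⟨v, by rw [hv, wl, List.reverse_cons, List.append_assoc, List.singleton_append], hc⟩
      | l2 =>
        obtain ⟨v, hv, hc⟩ := i2 (W.b g) h2 u hm
        exact ⟨v, by rw [hv, wl, List.reverse_cons, List.append_assoc, List.singleton_append], hc⟩
      | l3 =>
        obtain ⟨v, hv, hc⟩ := i3 (W.c g) h3 u hm
        exact ⟨v, by rw [hv, wl, List.reverse_cons, List.append_assoc, List.singleton_append], hc⟩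
      | l4 =>
        obtain ⟨v, hv, hc⟩ := i4 (W.d g) h4 u hm
        exact ⟨v, by rw [hv, wl, List.reverse_cons, List.append_assoc, List.singleton_append], hc⟩
      | l5 =>
        obtain ⟨v, hv, hc⟩ := i5 (W.f g) h5 u hm
        exact ⟨v, by rw [hv, wl, List.reverse_cons, List.append_assoc, List.singleton_append], hc⟩

/-- The table has passed the test. -/
def Chk : Prop := ∀ k, chkR (Rk k) (cn k W.e) = true

theorem Chk.hom (hC : Chk) : Hom := by
  intro k u p hm
  obtain ⟨v, hv, hc⟩ := chkR_sound _ _ (hC k) u p hm
  obtain ⟨h0, _⟩ := band_eq hc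
  have := hom_sound v p h0
  rwa [hv, wl_cn, wl, List.reverse_cons, List.reverse_nil, List.nil_append, List.singleton_append,
    List.length_cons] at this

theorem Chk.val (hC : Chk) : ∀ N, Val N := by
  intro N
  induction N with
  | zero => intro k u p _ h; omega
  | succ N ih =>
    intro k u p hm hN
    rcases Nat.lt_or_ge N (u.length + 1) with hlt | hle
    · obtain ⟨v, hv, hc⟩ := chkR_sound _ _ (hC k) u p hm
      have hv' : wl v = k :: u := by
        rw [hv, wl_cn, wl, List.reverse_cons, List.reverse_nil, List.nil_append,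
          List.singleton_append]
      have := chk_sound ih hC.hom v p (by rw [hv', List.length_cons]; omega) hc
      rwa [hv'] at this
    · exact ih k u p hm hle

/-- The value of a list of lists of terms. -/
noncomputable def evLL : List (List Tm) → FK 6
  | [] => 0
  | p :: r => evL p + evLL r

noncomputable def DformLL (i j : Fin 6) : List (List Tm) → FK 6
  | [] => 0
  | p :: r => DformL i j p + DformLL i j r

theorem B_DformLL (i j : Fin 6) (p : List (List Tm)) (u : FK 6) :
    B (x i j * u) (evLL p) = B u (DformLL i j p) := by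
  induction p with
  | nil => rw [evLL, DformLL, map_zero, map_zero]
  | cons p r ih => rw [evLL, DformLL, map_add, map_add, B_DformL, ih]

theorem InU.evLL (p : List (List Tm)) : InU (evLL p) := by
  induction p with
  | nil => exact InU.zero
  | cons p r ih => exact (InU.evL p).add ih

theorem DPL_sound (hC : Chk) (st : S) (sg : Bool) (p : List (List Tm)) (acc : T) :
    Eqr (evT (DPL st sg p acc)) (evT acc + vl sg 1 • DformLL (sf st).1 (sf st).2 p) := by
  induction p generalizing acc with
  | nil =>
    show Eqr (evT acc) _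
    rw [DformLL, smul_zero, add_zero]
    exact Eqr.refl _
  | cons p r ih =>
    show Eqr (evT (fo (DP st sg p acc) (fun acc => DPL st sg r acc))) _
    rw [fo_eq]
    refine (ih _).trans ?_
    refine ((DP_sound' hC.val hC.hom st sg p acc).add (Eqr.refl _)).trans (Eqr.of_eq ?_)
    rw [DformLL, smul_add, add_assoc]

theorem evT_insL (p : List Tm) (acc : T) : evT (insL p acc) = evT acc + evL p := by
  induction p generalizing acc with
  | nil => show evT acc = _ + 0; rw [add_zero]
  | cons tm p ih =>
    obtain ⟨s, q, w⟩ := tm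
    show evT (fo (ins s q w acc) (fun acc => insL p acc)) = _
    rw [fo_eq, ih, ins_eq, evL, add_assoc]

theorem evT_insLL (p : List (List Tm)) (acc : T) : evT (insLL p acc) = evT acc + evLL p := by
  induction p generalizing acc with
  | nil => show evT acc = _ + 0; rw [add_zero]
  | cons p r ih =>
    show evT (fo (insL p acc) (fun acc => insLL r acc)) = _
    rw [fo_eq, ih, evT_insL, evLL, add_assoc]

theorem pr_cn (k : L) (w : W) (t : T) :
    pr (cn k w) t = fo (DP (stk k) false (toL t) T.z) (pr w) := by cases k <;> rfl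

theorem pr_sound (hC : Chk) (w : W) (t : T) :
    eps (evT (pr w t)) = B (evf (wl w)) (evT t) := by
  revert t
  refine W_ind (p := fun w => ∀ t, eps (evT (pr w t)) = B (evf (wl w)) (evT t)) ?_ ?_ w
  · intro t
    show eps (evT t) = B 1 (evT t)
    rw [B_one_left]
  · intro k w ih t
    rw [pr_cn, fo_eq, ih, wl_cn, evf, y]
    have h := DP_sound' hC.val hC.hom (stk k) false (toL t) T.z
    rw [h.B_eq, sf_stk, ← evL_toL t, B_DformL]
    simp [evT, vl]

theorem addr_sound (s : Bool) (q : ℕ) (r acc : T) :
    eps (evT (addr s q r acc)) = eps (evT acc) + vl s q * eps (evT r) := by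
  cases r with
  | z =>
    show eps (evT acc) = _ + _ * eps 0
    rw [map_zero, mul_zero, add_zero]
  | n p m a b c d f =>
    show eps (evT (ins s (Nat.mul q p) W.e (ins (bnot s) (Nat.mul q m) W.e acc))) = _
    rw [ins_eq, ins_eq, eps_evT_n, wl, ev]
    simp only [map_add, map_smul, map_one, smul_eq_mul, mul_one]
    cases s <;> simp only [vl, bnot, Nat.mul_eq, Nat.cast_mul] <;> ring

/-- The functional which is supported on words with first letter 5 and given there by a star
polynomial. -/
noncomputable def phiW (z : FK 6) : W → ℚ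
  | .f w => B (evf (wl w)) z
  | .e => 0
  | .a _ => 0
  | .b _ => 0
  | .c _ => 0
  | .d _ => 0

noncomputable def phiL (z : FK 6) : List Tm → ℚ
  | [] => 0
  | .t s q w :: r => vl s q * phiW z w + phiL z r

theorem ph_sound (hC : Chk) (c : T) (p : List Tm) (acc : T) :
    eps (evT (ph c p acc)) = eps (evT acc) + phiL (evT c) p := by
  induction p generalizing acc with
  | nil => show eps (evT acc) = _ + 0; rw [add_zero]
  | cons tm p ih =>
    obtain ⟨s, q, w⟩ := tm
    rw [phiL, ← add_assoc]
    cases w with
    | e =>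
      show eps (evT (fo acc (fun acc => ph c p acc))) = _
      rw [fo_eq, ih, phiW, mul_zero, add_zero]
    | a w =>
      show eps (evT (fo acc (fun acc => ph c p acc))) = _
      rw [fo_eq, ih, phiW, mul_zero, add_zero]
    | b w =>
      show eps (evT (fo acc (fun acc => ph c p acc))) = _
      rw [fo_eq, ih, phiW, mul_zero, add_zero]
    | c w =>
      show eps (evT (fo acc (fun acc => ph c p acc))) = _
      rw [fo_eq, ih, phiW, mul_zero, add_zero]
    | d w =>
      show eps (evT (fo acc (fun acc => ph c p acc))) = _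
      rw [fo_eq, ih, phiW, mul_zero, add_zero]
    | f w =>
      show eps (evT (fo (addr s q (pr w c) acc) (fun acc => ph c p acc))) = _
      rw [fo_eq, ih, addr_sound, pr_sound hC, phiW]

theorem nzroot_sound (t : T) (h : nzroot t = true) : eps (evT t) ≠ 0 := by
  cases t with
  | z => exact absurd h (by intro h; exact Bool.noConfusion h)
  | n p m a b c d f =>
    rw [eps_evT_n]
    intro hc
    have hpm : p = m := by
      have : (p : ℚ) = m := by linarith
      exact_mod_cast this
    subst hpm
    have h' : bnot (Nat.beq p p) = true := h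
    rw [Nat.beq_refl] at h'
    exact absurd h' (by intro h; exact Bool.noConfusion h)

end H387FK
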