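import Pool.Agent.helper387_fk.Cert

/-!
The relation of degree seven and its certificate (generated by a program, checked by the kernel).
-/

namespace H387C.Th

open H387C

/-- The relation. -/
def rel : List (Bool × List L) := [
  (true, [.a14, .a15, .a16, .a34, .a14, .a23, .a34]),
  (true, [.a14, .a23, .a25, .a26, .a15, .a34, .a23]),
  (true, [.a14, .a23, .a26, .a15, .a16, .a34, .a23]),
  (false, [.a14, .a25, .a26, .a15, .a34, .a14, .a23]),
  (false, [.a14, .a26, .a15, .a16, .a34, .a14, .a23]),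
  (true, [.a15, .a16, .a14, .a23, .a25, .a15, .a34]),
  (true, [.a16, .a14, .a23, .a25, .a26, .a15, .a34]),
  (true, [.a16, .a14, .a23, .a26, .a15, .a16, .a34]),
  (false, [.a15, .a16, .a14, .a25, .a15, .a34, .a14]),
  (false, [.a16, .a14, .a25, .a26, .a15, .a34, .a14]),
  (false, [.a16, .a14, .a26, .a15, .a16, .a34, .a14]),
  (true, [.a15, .a16, .a34, .a14, .a23, .a25, .a34]),
  (true, [.a16, .a34, .a14, .a23, .a25, .a26, .a34]),
  (true, [.a23, .a25, .a26, .a15, .a34, .a23, .a25]),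
  (true, [.a23, .a26, .a15, .a16, .a34, .a23, .a25]),
  (true, [.a23, .a26, .a16, .a34, .a23, .a25, .a26]),
  (false, [.a25, .a26, .a15, .a14, .a23, .a25, .a15]),
  (false, [.a26, .a15, .a16, .a14, .a23, .a25, .a15]),
  (false, [.a26, .a16, .a14, .a23, .a25, .a26, .a15]),
  (false, [.a26, .a16, .a14, .a23, .a26, .a15, .a16]),
  (false, [.a25, .a26, .a15, .a34, .a14, .a23, .a25]),
  (false, [.a26, .a15, .a16, .a34, .a14, .a23, .a25]),
  (false, [.a26, .a16, .a34, .a14, .a23, .a25, .a26]),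
  (true, [.a34, .a14, .a23, .a25, .a26, .a34, .a23])]

def cert0 : List It := [
  .sq false [] .a12 [.a24, .a13, .a25, .a26, .a23],
  .sq false [] .a15 [.a56, .a45, .a12, .a14, .a13],
  .sq false [] .a15 [.a56, .a45, .a13, .a23, .a34],
  .sq true [] .a15 [.a56, .a45, .a24, .a12, .a13],
  .sq true [] .a15 [.a56, .a45, .a24, .a13, .a23],
  .cm false [] .a15 .a23 [.a12, .a26, .a34, .a23, .a25],
  .cm true [] .a15 .a23 [.a26, .a16, .a34, .a23, .a25],
  .cm true [] .a15 .a24 [.a16, .a12, .a15, .a12, .a13],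
  .cm true [] .a15 .a24 [.a16, .a12, .a15, .a13, .a23],
  .cm false [] .a15 .a26 [.a16, .a14, .a23, .a25, .a15],
  .cm false [] .a15 .a26 [.a16, .a34, .a14, .a23, .a25],
  .cm false [] .a16 .a23 [.a12, .a34, .a23, .a25, .a26],
  .cm true [] .a16 .a24 [.a12, .a15, .a16, .a12, .a13],
  .cm true [] .a16 .a24 [.a12, .a15, .a16, .a13, .a23],
  .cm true [] .a16 .a45 [.a14, .a16, .a12, .a14, .a13],
  .cm true [] .a16 .a45 [.a14, .a16, .a13, .a23, .a34],
  .cm false [] .a16 .a45 [.a14, .a16, .a24, .a12, .a13],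
  .cm false [] .a16 .a45 [.a14, .a16, .a24, .a13, .a23],
  .t2 false [] .a12 .a23 .a13 [.a25, .a26, .a34, .a23, .a25],
  .t2 false [] .a12 .a23 .a13 [.a26, .a34, .a23, .a25, .a26],
  .t1 true [] .a12 .a24 .a14 [.a14, .a13, .a25, .a26, .a23],
  .t2 false [] .a12 .a24 .a14 [.a15, .a16, .a12, .a12, .a13],
  .t2 false [] .a12 .a24 .a14 [.a15, .a16, .a12, .a13, .a23],
  .t1 false [] .a12 .a25 .a15 [.a26, .a14, .a23, .a25, .a15],
  .t1 false [] .a12 .a25 .a15 [.a26, .a34, .a14, .a23, .a25],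
  .t1 false [] .a12 .a26 .a16 [.a14, .a23, .a25, .a26, .a15],
  .t1 false [] .a12 .a26 .a16 [.a14, .a23, .a26, .a15, .a16],
  .t1 false [] .a12 .a26 .a16 [.a34, .a14, .a23, .a25, .a26],
  .t1 true [] .a13 .a34 .a14 [.a23, .a25, .a26, .a34, .a23],
  .t2 false [] .a14 .a45 .a15 [.a16, .a14, .a12, .a14, .a13],
  .t2 false [] .a14 .a45 .a15 [.a16, .a14, .a13, .a23, .a34],
  .t2 true [] .a14 .a45 .a15 [.a16, .a14, .a24, .a12, .a13],
  .t2 true [] .a14 .a45 .a15 [.a16, .a14, .a24, .a13, .a23],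
  .t1 true [] .a15 .a56 .a16 [.a16, .a45, .a12, .a14, .a13],
  .t1 true [] .a15 .a56 .a16 [.a16, .a45, .a13, .a23, .a34],
  .t1 false [] .a15 .a56 .a16 [.a16, .a45, .a24, .a12, .a13],
  .t1 false [] .a15 .a56 .a16 [.a16, .a45, .a24, .a13, .a23],
  .cm false [.a12] .a13 .a25 [.a26, .a34, .a23, .a25],
  .cm false [.a12] .a13 .a26 [.a34, .a23, .a25, .a26],
  .cm true [.a12] .a14 .a25 [.a26, .a13, .a23, .a25]]

def cert1 : List It := [
  .cm false [.a12] .a14 .a25 [.a26, .a23, .a25, .a15],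
  .cm true [.a12] .a14 .a26 [.a13, .a23, .a25, .a26],
  .cm false [.a12] .a14 .a26 [.a23, .a25, .a26, .a15],
  .cm false [.a12] .a14 .a26 [.a23, .a26, .a15, .a16],
  .t1 true [.a12] .a12 .a24 .a14 [.a13, .a25, .a26, .a23],
  .sq false [.a12, .a14] .a12 [.a15, .a16, .a13],
  .cm true [.a12, .a14] .a15 .a26 [.a23, .a12, .a26],
  .cm false [.a12, .a14] .a15 .a26 [.a23, .a26, .a16],
  .cm false [.a12, .a14] .a16 .a25 [.a26, .a13, .a25],
  .t1 true [.a12, .a14] .a12 .a25 .a15 [.a26, .a23, .a12],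
  .t2 true [.a12, .a14] .a12 .a25 .a15 [.a16, .a13, .a25],
  .t2 true [.a12, .a14] .a12 .a26 .a16 [.a13, .a25, .a26],
  .cm true [.a12, .a14, .a12] .a13 .a25 [.a26, .a23],
  .cm true [.a12, .a14, .a12] .a16 .a25 [.a26, .a13],
  .t2 false [.a12, .a14, .a12] .a12 .a25 .a15 [.a16, .a13],
  .cm true [.a12, .a14, .a12, .a15] .a16 .a25 [.a13],
  .cm true [.a12, .a14, .a12, .a15, .a16] .a13 .a25 [],
  .cm true [.a12, .a14, .a12, .a16] .a13 .a25 [.a26],
  .cm true [.a12, .a14, .a12, .a16, .a25] .a13 .a26 [],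
  .cm true [.a12, .a14, .a12, .a25] .a13 .a26 [.a23],
  .t2 false [.a12, .a14, .a12, .a25] .a12 .a26 .a16 [.a13],
  .t2 false [.a12, .a14, .a12, .a25, .a26] .a12 .a23 .a13 [],
  .cm false [.a12, .a14, .a15] .a16 .a25 [.a13, .a25],
  .t1 true [.a12, .a14, .a15] .a12 .a26 .a16 [.a23, .a12],
  .cm false [.a12, .a14, .a15, .a16] .a13 .a25 [.a25],
  .t2 true [.a12, .a14, .a15, .a16, .a12] .a12 .a23 .a13 [],
  .sq true [.a12, .a14, .a15, .a16, .a13] .a25 [],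
  .cm true [.a12, .a14, .a15, .a26] .a16 .a23 [.a12],
  .t1 false [.a12, .a14, .a15, .a26, .a23] .a12 .a26 .a16 [],
  .cm false [.a12, .a14, .a16] .a13 .a25 [.a26, .a25],
  .cm false [.a12, .a14, .a16] .a13 .a26 [.a25, .a26],
  .sq true [.a12, .a14, .a16, .a13] .a25 [.a56],
  .t1 false [.a12, .a14, .a16, .a13] .a25 .a56 .a26 [.a26],
  .t1 false [.a12, .a14, .a16, .a13, .a25] .a25 .a56 .a26 [],
  .sq false [.a12, .a14, .a16, .a13, .a56] .a26 [],
  .cm false [.a12, .a14, .a16, .a25] .a13 .a26 [.a25],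
  .cm true [.a12, .a14, .a25] .a15 .a26 [.a23, .a12],
  .t2 true [.a12, .a14, .a25] .a12 .a26 .a16 [.a13, .a25],
  .cm true [.a12, .a14, .a25, .a26] .a15 .a23 [.a12],
  .t2 true [.a12, .a14, .a25, .a26] .a12 .a23 .a13 [.a25]]

def cert2 : List It := [
  .t1 false [.a12, .a14, .a25, .a26, .a23] .a12 .a25 .a15 [],
  .cm true [.a12, .a14, .a26] .a15 .a23 [.a12, .a26],
  .cm false [.a12, .a14, .a26] .a15 .a23 [.a26, .a16],
  .t2 true [.a12, .a14, .a26] .a12 .a23 .a13 [.a25, .a26],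
  .cm false [.a12, .a14, .a26, .a23] .a15 .a26 [.a16],
  .t1 false [.a12, .a14, .a26, .a23] .a12 .a25 .a15 [.a26],
  .cm false [.a12, .a14, .a26, .a23, .a25] .a15 .a26 [],
  .cm false [.a12, .a25] .a13 .a26 [.a34, .a23, .a25],
  .cm true [.a12, .a25] .a14 .a26 [.a13, .a23, .a25],
  .cm false [.a12, .a25] .a14 .a26 [.a23, .a25, .a15],
  .t1 false [.a12, .a25, .a26] .a13 .a34 .a14 [.a23, .a25],
  .t1 false [.a12, .a26] .a13 .a34 .a14 [.a23, .a25, .a26],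
  .sq true [.a13] .a23 [.a24, .a25, .a26, .a23],
  .t2 false [.a13] .a23 .a34 .a24 [.a25, .a26, .a34, .a23],
  .cm false [.a13, .a23] .a25 .a34 [.a26, .a23, .a25],
  .cm false [.a13, .a23] .a26 .a34 [.a23, .a25, .a26],
  .t2 true [.a13, .a23] .a23 .a34 .a24 [.a25, .a26, .a23],
  .cm false [.a13, .a23, .a24] .a25 .a34 [.a26, .a23],
  .cm false [.a13, .a23, .a24, .a25] .a26 .a34 [.a23],
  .cm false [.a13, .a23, .a25] .a26 .a34 [.a23, .a25],
  .sq true [.a13, .a23, .a34] .a25 [.a56, .a35],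
  .cm false [.a13, .a23, .a34] .a26 .a35 [.a23, .a26],
  .t2 true [.a13, .a23, .a34] .a23 .a35 .a25 [.a26, .a23],
  .t1 false [.a13, .a23, .a34] .a25 .a56 .a26 [.a26, .a35],
  .cm false [.a13, .a23, .a34, .a25] .a26 .a35 [.a23],
  .t1 false [.a13, .a23, .a34, .a25] .a25 .a56 .a26 [.a35],
  .t2 true [.a13, .a23, .a34, .a25, .a26] .a23 .a35 .a25 [],
  .t2 true [.a13, .a23, .a34, .a26] .a23 .a35 .a25 [.a26],
  .cm false [.a13, .a23, .a34, .a26, .a25] .a26 .a35 [],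
  .sq false [.a13, .a23, .a34, .a35] .a23 [.a36],
  .t1 true [.a13, .a23, .a34, .a35] .a23 .a36 .a26 [.a26],
  .t1 true [.a13, .a23, .a34, .a35, .a23] .a23 .a36 .a26 [],
  .sq true [.a13, .a23, .a34, .a35, .a36] .a26 [],
  .sq false [.a13, .a23, .a34, .a56] .a26 [.a35],
  .cm true [.a13, .a24] .a25 .a34 [.a26, .a34, .a23],
  .cm true [.a13, .a24, .a25] .a26 .a34 [.a34, .a23],
  .sq false [.a13, .a24, .a25, .a26] .a34 [.a23],
  .cm false [.a14] .a15 .a23 [.a12, .a26, .a34, .a23],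
  .cm true [.a14] .a15 .a23 [.a26, .a16, .a34, .a23],
  .cm true [.a14] .a15 .a24 [.a16, .a12, .a12, .a13]]

def cert3 : List It := [
  .cm true [.a14] .a15 .a24 [.a16, .a12, .a13, .a23],
  .cm false [.a14] .a15 .a26 [.a16, .a34, .a14, .a23],
  .t2 false [.a14] .a12 .a23 .a13 [.a25, .a26, .a34, .a23],
  .t1 false [.a14] .a12 .a25 .a15 [.a26, .a34, .a14, .a23],
  .cm false [.a14, .a12] .a13 .a25 [.a26, .a34, .a23],
  .cm true [.a14, .a12] .a14 .a25 [.a26, .a13, .a23],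
  .cm true [.a14, .a12, .a14] .a13 .a25 [.a26, .a23],
  .cm true [.a14, .a12, .a14, .a25] .a13 .a26 [.a23],
  .cm false [.a14, .a12, .a25] .a13 .a26 [.a34, .a23],
  .cm true [.a14, .a12, .a25] .a14 .a26 [.a13, .a23],
  .t1 false [.a14, .a12, .a25, .a26] .a13 .a34 .a14 [.a23],
  .cm false [.a14, .a15] .a16 .a23 [.a12, .a34, .a23],
  .cm true [.a14, .a15] .a16 .a24 [.a12, .a12, .a13],
  .cm true [.a14, .a15] .a16 .a24 [.a12, .a13, .a23],
  .t1 false [.a14, .a15] .a12 .a26 .a16 [.a34, .a14, .a23],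
  .sq false [.a14, .a15, .a16] .a12 [.a24, .a13],
  .t2 true [.a14, .a15, .a16] .a12 .a23 .a13 [.a34, .a23],
  .t1 true [.a14, .a15, .a16] .a12 .a24 .a14 [.a14, .a13],
  .t2 false [.a14, .a15, .a16] .a12 .a24 .a14 [.a12, .a13],
  .t2 false [.a14, .a15, .a16] .a12 .a24 .a14 [.a13, .a23],
  .t1 true [.a14, .a15, .a16] .a13 .a34 .a14 [.a23, .a34],
  .t1 true [.a14, .a15, .a16, .a12] .a12 .a24 .a14 [.a13],
  .t1 true [.a14, .a15, .a16, .a12] .a13 .a34 .a14 [.a23],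
  .sq true [.a14, .a15, .a16, .a13] .a23 [.a24],
  .t2 false [.a14, .a15, .a16, .a13] .a23 .a34 .a24 [.a34],
  .t2 true [.a14, .a15, .a16, .a13, .a23] .a23 .a34 .a24 [],
  .sq false [.a14, .a15, .a16, .a13, .a24] .a34 [],
  .sq true [.a14, .a15, .a16, .a24] .a14 [.a13],
  .t1 true [.a14, .a15, .a23] .a12 .a26 .a16 [.a34, .a23],
  .cm true [.a14, .a23] .a15 .a26 [.a16, .a34, .a23],
  .t1 true [.a14, .a23] .a12 .a25 .a15 [.a26, .a34, .a23],
  .cm true [.a14, .a23, .a25] .a15 .a26 [.a34, .a23],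
  .cm false [.a14, .a25] .a15 .a26 [.a34, .a14, .a23],
  .cm false [.a15] .a16 .a23 [.a12, .a34, .a23, .a25],
  .cm true [.a15] .a16 .a24 [.a12, .a15, .a12, .a13],
  .cm true [.a15] .a16 .a24 [.a12, .a15, .a13, .a23],
  .cm true [.a15] .a16 .a45 [.a14, .a12, .a14, .a13],
  .cm true [.a15] .a16 .a45 [.a14, .a13, .a23, .a34],
  .cm false [.a15] .a16 .a45 [.a14, .a24, .a12, .a13],
  .cm false [.a15] .a16 .a45 [.a14, .a24, .a13, .a23]]

def cert4 : List It := [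
  .t1 false [.a15] .a12 .a26 .a16 [.a14, .a23, .a25, .a15],
  .t1 false [.a15] .a12 .a26 .a16 [.a34, .a14, .a23, .a25],
  .t1 true [.a15] .a15 .a56 .a16 [.a45, .a12, .a14, .a13],
  .t1 true [.a15] .a15 .a56 .a16 [.a45, .a13, .a23, .a34],
  .t1 false [.a15] .a15 .a56 .a16 [.a45, .a24, .a12, .a13],
  .t1 false [.a15] .a15 .a56 .a16 [.a45, .a24, .a13, .a23],
  .sq false [.a15, .a16] .a12 [.a24, .a13, .a25],
  .t2 true [.a15, .a16] .a12 .a23 .a13 [.a34, .a23, .a25],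
  .t1 true [.a15, .a16] .a12 .a24 .a14 [.a14, .a13, .a25],
  .t2 false [.a15, .a16] .a12 .a24 .a14 [.a15, .a12, .a13],
  .t2 false [.a15, .a16] .a12 .a24 .a14 [.a15, .a13, .a23],
  .t1 true [.a15, .a16] .a13 .a34 .a14 [.a23, .a25, .a34],
  .t2 false [.a15, .a16] .a14 .a45 .a15 [.a12, .a14, .a13],
  .t2 false [.a15, .a16] .a14 .a45 .a15 [.a13, .a23, .a34],
  .t2 true [.a15, .a16] .a14 .a45 .a15 [.a24, .a12, .a13],
  .t2 true [.a15, .a16] .a14 .a45 .a15 [.a24, .a13, .a23],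
  .t1 true [.a15, .a16, .a12] .a12 .a24 .a14 [.a13, .a25],
  .t1 true [.a15, .a16, .a12] .a13 .a34 .a14 [.a23, .a25],
  .cm false [.a15, .a16, .a12, .a14] .a15 .a23 [.a12],
  .t2 false [.a15, .a16, .a12, .a14] .a12 .a23 .a13 [.a25],
  .t2 true [.a15, .a16, .a12, .a14, .a15] .a12 .a23 .a13 [],
  .t1 true [.a15, .a16, .a12, .a14, .a23] .a12 .a25 .a15 [],
  .sq true [.a15, .a16, .a13] .a23 [.a24, .a25],
  .t2 false [.a15, .a16, .a13] .a23 .a34 .a24 [.a25, .a34],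
  .t2 true [.a15, .a16, .a13, .a23] .a23 .a34 .a24 [.a25],
  .cm false [.a15, .a16, .a13, .a23, .a24] .a25 .a34 [],
  .cm true [.a15, .a16, .a13, .a24] .a25 .a34 [.a34],
  .sq false [.a15, .a16, .a13, .a24, .a25] .a34 [],
  .cm false [.a15, .a16, .a14] .a15 .a23 [.a12, .a34],
  .cm true [.a15, .a16, .a14] .a15 .a24 [.a12, .a13],
  .cm true [.a15, .a16, .a14] .a15 .a24 [.a13, .a23],
  .t2 false [.a15, .a16, .a14] .a12 .a23 .a13 [.a25, .a34],
  .t1 false [.a15, .a16, .a14] .a12 .a25 .a15 [.a34, .a14],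
  .cm false [.a15, .a16, .a14, .a12] .a13 .a25 [.a34],
  .cm true [.a15, .a16, .a14, .a12] .a14 .a25 [.a13],
  .cm true [.a15, .a16, .a14, .a12, .a14] .a13 .a25 [],
  .t1 false [.a15, .a16, .a14, .a12, .a25] .a13 .a34 .a14 [],
  .t2 true [.a15, .a16, .a14, .a15] .a12 .a23 .a13 [.a34],
  .t1 true [.a15, .a16, .a14, .a15, .a12] .a13 .a34 .a14 [],
  .t1 true [.a15, .a16, .a14, .a23] .a12 .a25 .a15 [.a34]]

def cert5 : List It := [
  .sq true [.a15, .a16, .a24] .a14 [.a13, .a25],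
  .t1 true [.a15, .a23] .a12 .a26 .a16 [.a34, .a23, .a25],
  .sq false [.a16] .a12 [.a24, .a13, .a25, .a26],
  .t2 true [.a16] .a12 .a23 .a13 [.a34, .a23, .a25, .a26],
  .t1 true [.a16] .a12 .a24 .a14 [.a14, .a13, .a25, .a26],
  .t2 false [.a16] .a12 .a24 .a14 [.a15, .a16, .a12, .a13],
  .t2 false [.a16] .a12 .a24 .a14 [.a15, .a16, .a13, .a23],
  .t1 true [.a16] .a13 .a34 .a14 [.a23, .a25, .a26, .a34],
  .t2 false [.a16] .a14 .a45 .a15 [.a16, .a12, .a14, .a13],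
  .t2 false [.a16] .a14 .a45 .a15 [.a16, .a13, .a23, .a34],
  .t2 true [.a16] .a14 .a45 .a15 [.a16, .a24, .a12, .a13],
  .t2 true [.a16] .a14 .a45 .a15 [.a16, .a24, .a13, .a23],
  .t1 true [.a16, .a12] .a12 .a24 .a14 [.a13, .a25, .a26],
  .t1 true [.a16, .a12] .a13 .a34 .a14 [.a23, .a25, .a26],
  .cm false [.a16, .a12, .a14] .a15 .a23 [.a12, .a26],
  .cm true [.a16, .a12, .a14] .a15 .a23 [.a26, .a16],
  .t2 false [.a16, .a12, .a14] .a12 .a23 .a13 [.a25, .a26],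
  .cm false [.a16, .a12, .a14, .a15] .a16 .a23 [.a12],
  .t2 true [.a16, .a12, .a14, .a15, .a16] .a12 .a23 .a13 [],
  .t1 true [.a16, .a12, .a14, .a15, .a23] .a12 .a26 .a16 [],
  .cm true [.a16, .a12, .a14, .a23] .a15 .a26 [.a16],
  .t1 true [.a16, .a12, .a14, .a23] .a12 .a25 .a15 [.a26],
  .cm true [.a16, .a12, .a14, .a23, .a25] .a15 .a26 [],
  .sq true [.a16, .a13] .a23 [.a24, .a25, .a26],
  .t2 false [.a16, .a13] .a23 .a34 .a24 [.a25, .a26, .a34],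
  .t2 true [.a16, .a13, .a23] .a23 .a34 .a24 [.a25, .a26],
  .cm false [.a16, .a13, .a23, .a24] .a25 .a34 [.a26],
  .cm false [.a16, .a13, .a23, .a24, .a25] .a26 .a34 [],
  .cm true [.a16, .a13, .a24] .a25 .a34 [.a26, .a34],
  .cm true [.a16, .a13, .a24, .a25] .a26 .a34 [.a34],
  .sq false [.a16, .a13, .a24, .a25, .a26] .a34 [],
  .cm false [.a16, .a14] .a15 .a23 [.a12, .a26, .a34],
  .cm true [.a16, .a14] .a15 .a23 [.a26, .a16, .a34],
  .cm true [.a16, .a14] .a15 .a24 [.a16, .a12, .a13],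
  .cm true [.a16, .a14] .a15 .a24 [.a16, .a13, .a23],
  .cm false [.a16, .a14] .a15 .a26 [.a16, .a34, .a14],
  .t2 false [.a16, .a14] .a12 .a23 .a13 [.a25, .a26, .a34],
  .t1 false [.a16, .a14] .a12 .a25 .a15 [.a26, .a34, .a14],
  .cm false [.a16, .a14, .a12] .a13 .a25 [.a26, .a34],
  .cm true [.a16, .a14, .a12] .a14 .a25 [.a26, .a13]]

def cert6 : List It := [
  .cm true [.a16, .a14, .a12, .a14] .a13 .a25 [.a26],
  .cm true [.a16, .a14, .a12, .a14, .a25] .a13 .a26 [],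
  .cm false [.a16, .a14, .a12, .a25] .a13 .a26 [.a34],
  .cm true [.a16, .a14, .a12, .a25] .a14 .a26 [.a13],
  .t1 false [.a16, .a14, .a12, .a25, .a26] .a13 .a34 .a14 [],
  .cm false [.a16, .a14, .a15] .a16 .a23 [.a12, .a34],
  .cm true [.a16, .a14, .a15] .a16 .a24 [.a12, .a13],
  .cm true [.a16, .a14, .a15] .a16 .a24 [.a13, .a23],
  .t1 false [.a16, .a14, .a15] .a12 .a26 .a16 [.a34, .a14],
  .t2 true [.a16, .a14, .a15, .a16] .a12 .a23 .a13 [.a34],
  .t1 true [.a16, .a14, .a15, .a16, .a12] .a13 .a34 .a14 [],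
  .t1 true [.a16, .a14, .a15, .a23] .a12 .a26 .a16 [.a34],
  .cm true [.a16, .a14, .a23] .a15 .a26 [.a16, .a34],
  .t1 true [.a16, .a14, .a23] .a12 .a25 .a15 [.a26, .a34],
  .cm true [.a16, .a14, .a23, .a25] .a15 .a26 [.a34],
  .cm false [.a16, .a14, .a25] .a15 .a26 [.a34, .a14],
  .cm true [.a16, .a15] .a16 .a45 [.a12, .a14, .a13],
  .cm true [.a16, .a15] .a16 .a45 [.a13, .a23, .a34],
  .cm false [.a16, .a15] .a16 .a45 [.a24, .a12, .a13],
  .cm false [.a16, .a15] .a16 .a45 [.a24, .a13, .a23],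
  .sq true [.a16, .a24] .a14 [.a13, .a25, .a26],
  .cm true [.a23] .a15 .a26 [.a16, .a34, .a23, .a25],
  .t1 true [.a23] .a12 .a25 .a15 [.a26, .a34, .a23, .a25],
  .t1 true [.a23] .a12 .a26 .a16 [.a34, .a23, .a25, .a26],
  .cm true [.a23, .a25] .a15 .a26 [.a34, .a23, .a25],
  .sq true [.a24] .a14 [.a13, .a25, .a26, .a23],
  .sq false [.a24] .a15 [.a56, .a25, .a12, .a13],
  .sq false [.a24] .a15 [.a56, .a25, .a13, .a23],
  .cm true [.a24] .a16 .a25 [.a12, .a16, .a12, .a13],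
  .cm true [.a24] .a16 .a25 [.a12, .a16, .a13, .a23],
  .t2 false [.a24] .a12 .a25 .a15 [.a16, .a12, .a12, .a13],
  .t2 false [.a24] .a12 .a25 .a15 [.a16, .a12, .a13, .a23],
  .t1 true [.a24] .a15 .a56 .a16 [.a16, .a25, .a12, .a13],
  .t1 true [.a24] .a15 .a56 .a16 [.a16, .a25, .a13, .a23],
  .cm true [.a24, .a15] .a16 .a25 [.a12, .a12, .a13],
  .cm true [.a24, .a15] .a16 .a25 [.a12, .a13, .a23],
  .t1 true [.a24, .a15] .a15 .a56 .a16 [.a25, .a12, .a13],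
  .t1 true [.a24, .a15] .a15 .a56 .a16 [.a25, .a13, .a23],
  .t2 false [.a24, .a15, .a16] .a12 .a25 .a15 [.a12, .a13],
  .t2 false [.a24, .a15, .a16] .a12 .a25 .a15 [.a13, .a23]]

def cert7 : List It := [
  .t2 false [.a24, .a16] .a12 .a25 .a15 [.a16, .a12, .a13],
  .t2 false [.a24, .a16] .a12 .a25 .a15 [.a16, .a13, .a23],
  .cm true [.a24, .a16, .a15] .a16 .a25 [.a12, .a13],
  .cm true [.a24, .a16, .a15] .a16 .a25 [.a13, .a23],
  .sq true [.a24, .a25] .a12 [.a26, .a12, .a13],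
  .sq true [.a24, .a25] .a12 [.a26, .a13, .a23],
  .t1 false [.a24, .a25] .a12 .a26 .a16 [.a16, .a12, .a13],
  .t1 false [.a24, .a25] .a12 .a26 .a16 [.a16, .a13, .a23],
  .t1 false [.a24, .a25, .a12] .a12 .a26 .a16 [.a12, .a13],
  .t1 false [.a24, .a25, .a12] .a12 .a26 .a16 [.a13, .a23],
  .sq false [.a24, .a25, .a26] .a16 [.a12, .a13],
  .sq false [.a24, .a25, .a26] .a16 [.a13, .a23],
  .sq true [.a24, .a56] .a16 [.a25, .a12, .a13],
  .sq true [.a24, .a56] .a16 [.a25, .a13, .a23],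
  .cm false [.a25] .a15 .a26 [.a14, .a23, .a25, .a15],
  .cm false [.a25] .a15 .a26 [.a34, .a14, .a23, .a25],
  .sq true [.a45] .a14 [.a46, .a12, .a14, .a13],
  .sq true [.a45] .a14 [.a46, .a13, .a23, .a34],
  .sq false [.a45] .a14 [.a46, .a24, .a12, .a13],
  .sq false [.a45] .a14 [.a46, .a24, .a13, .a23],
  .t1 false [.a45] .a14 .a46 .a16 [.a16, .a12, .a14, .a13],
  .t1 false [.a45] .a14 .a46 .a16 [.a16, .a13, .a23, .a34],
  .t1 true [.a45] .a14 .a46 .a16 [.a16, .a24, .a12, .a13],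
  .t1 true [.a45] .a14 .a46 .a16 [.a16, .a24, .a13, .a23],
  .t1 false [.a45, .a14] .a14 .a46 .a16 [.a12, .a14, .a13],
  .t1 false [.a45, .a14] .a14 .a46 .a16 [.a13, .a23, .a34],
  .t1 true [.a45, .a14] .a14 .a46 .a16 [.a24, .a12, .a13],
  .t1 true [.a45, .a14] .a14 .a46 .a16 [.a24, .a13, .a23],
  .sq false [.a45, .a46] .a16 [.a12, .a14, .a13],
  .sq false [.a45, .a46] .a16 [.a13, .a23, .a34],
  .sq true [.a45, .a46] .a16 [.a24, .a12, .a13],
  .sq true [.a45, .a46] .a16 [.a24, .a13, .a23],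
  .sq true [.a56] .a16 [.a45, .a12, .a14, .a13],
  .sq true [.a56] .a16 [.a45, .a13, .a23, .a34],
  .sq false [.a56] .a16 [.a45, .a24, .a12, .a13],
  .sq false [.a56] .a16 [.a45, .a24, .a13, .a23]]

/-- The certificate. -/
def cert : List It := cert0 ++ cert1 ++ cert2 ++ cert3 ++ cert4 ++ cert5 ++ cert6 ++ cert7

theorem ok : cert.all okI = true := by decide +kernel

theorem zero : isz (run cert (insP rel BT.z)) = true := by decide +kernel

theorem rel_eq : evp rel = 0 := cert_sound rel cert ok zero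

end H387C.Th
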