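import Pool.Agent.helper387_fk.Pairing
import Pool.Agent.helper387_fk.ThCert

/-!
The two functionals for the theta graph, their test, and their degrees.
-/

namespace H387P

open H387FK

attribute [local irreducible] H387FK.instRing H387FK.instAlg

/-- Evaluate the form: `B p u`, where the word `u` is given in reverse order. -/
def pr : OW → OP → Int
  | [], p => epsp p
  | l :: u, p => pr u (dlp l.1 l.2 p)

theorem pr_eq (u : OW) (hu : ∀ l ∈ u, l.1 ≠ l.2) : ∀ p : OP,
    B (evop p) (evo u.reverse) = (pr u p : ℚ) := by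
  induction u with
  | nil =>
    intro p
    simp only [List.reverse_nil, evo, pr]
    rw [B_symm, B_one_left, eps_evop]
  | cons l u ih =>
    intro p
    have e1 : evo (l :: u).reverse = evo u.reverse * x l.1 l.2 := by
      rw [List.reverse_cons, evo_append]
      simp [evo]
    rw [e1, B_mul_x_right, ← evop_dlp _ _ (hu l (by simp)), ih (fun m hm => hu m (by simp [hm]))]
    rfl

/-- The product of the transpositions of a word. -/
def sdo : OW → Equiv.Perm (Fin 6)
  | [] => 1
  | l :: w => Equiv.swap l.1 l.2 * sdo w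

theorem sdo_append (u v : OW) : sdo (u ++ v) = sdo u * sdo v := by
  induction u with
  | nil => simp [sdo]
  | cons l u ih => simp only [List.cons_append, sdo, ih, mul_assoc]

theorem dlw_deg (a b : Fin 6) (w : OW) : ∀ t ∈ dlw a b w,
    t.2.length + 1 = w.length ∧ sdo t.2 = Equiv.swap a b * sdo w := by
  induction w with
  | nil => intro t ht; simp [dlw] at ht
  | cons l w ih =>
    intro t ht
    obtain ⟨i, j⟩ := l
    rw [dlw, List.mem_append] at ht
    rcases ht with ht | ht
    · by_cases h1 : i = a ∧ j = b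
      · rw [if_pos h1] at ht
        rw [List.mem_singleton] at ht
        subst ht
        obtain ⟨rfl, rfl⟩ := h1
        refine ⟨rfl, ?_⟩
        simp only [sdo]
        rw [← mul_assoc, Equiv.swap_mul_self, one_mul]
      · rw [if_neg h1] at ht
        by_cases h2 : i = b ∧ j = a
        · rw [if_pos h2] at ht
          rw [List.mem_singleton] at ht
          subst ht
          obtain ⟨rfl, rfl⟩ := h2
          refine ⟨rfl, ?_⟩
          simp only [sdo]
          rw [Equiv.swap_comm i j, ← mul_assoc, Equiv.swap_mul_self, one_mul]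
        · rw [if_neg h2] at ht
          simp at ht
    · rw [List.mem_map] at ht
      obtain ⟨t', ht', rfl⟩ := ht
      have := ih t' ht'
      refine ⟨by simp only [List.length_cons]; omega, ?_⟩
      simp only [sdo, sw_eq]
      rw [this.2, Equiv.swap_apply_apply]
      rw [Equiv.swap_inv]
      simp only [mul_assoc]
      rw [← mul_assoc (Equiv.swap a b) (Equiv.swap a b) (sdo w), Equiv.swap_mul_self, one_mul]

theorem dlp_deg (a b : Fin 6) (p : OP) : ∀ t ∈ dlp a b p, ∃ t' ∈ p,
    t.2.length + 1 = t'.2.length ∧ sdo t.2 = Equiv.swap a b * sdo t'.2 := by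
  induction p with
  | nil => intro t ht; simp [dlp] at ht
  | cons t0 p ih =>
    intro t ht
    rw [dlp, List.mem_append] at ht
    rcases ht with ht | ht
    · rw [sgn, List.mem_map] at ht
      obtain ⟨t', ht', rfl⟩ := ht
      exact ⟨t0, by simp, dlw_deg a b t0.2 t' ht'⟩
    · obtain ⟨t', ht', h⟩ := ih t ht
      exact ⟨t', by simp [ht'], h⟩

theorem epsp_ne {p : OP} (h : epsp p ≠ 0) : ∃ t ∈ p, t.2 = [] := by
  induction p with
  | nil => simp [epsp] at h
  | cons t p ih =>
    obtain ⟨s, w⟩ := t
    cases w with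
    | nil => exact ⟨(s, []), by simp, rfl⟩
    | cons l w =>
      rw [epsp] at h
      obtain ⟨t', ht', h'⟩ := ih h
      exact ⟨t', by simp [ht'], h'⟩

theorem pr_ne (u : OW) : ∀ (p : OP) (m k : ℕ) (g : Equiv.Perm (Fin 6)),
    (∀ t ∈ p, t.2.length + k = m ∧ sdo t.2 = g) → pr u p ≠ 0 →
      u.length + k = m ∧ sdo u.reverse * g = 1 := by
  induction u with
  | nil =>
    intro p m k g hp h
    obtain ⟨t, ht, h0⟩ := epsp_ne h
    have := hp t ht
    rw [h0] at this
    refine ⟨this.1, ?_⟩
    rw [← this.2]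
    simp [sdo]
  | cons l u ih =>
    intro p m k g hp h
    have h1 := ih (dlp l.1 l.2 p) m (k + 1) (Equiv.swap l.1 l.2 * g) ?_ h
    · refine ⟨by simp only [List.length_cons]; omega, ?_⟩
      rw [List.reverse_cons, sdo_append, ← h1.2]
      simp only [sdo, mul_one, mul_assoc]
    · intro t ht
      obtain ⟨t', ht', h2⟩ := dlp_deg l.1 l.2 p t ht
      have h3 := hp t' ht'
      refine ⟨by omega, ?_⟩
      rw [h2.2, h3.2]

/-- The polynomial for the first functional. -/
def c : OP := [
  (false, [(0, 3), (0, 4), (1, 2), (1, 5), (2, 3), (0, 3)]),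
  (false, [(0, 3), (0, 4), (1, 5), (2, 3), (0, 3), (0, 5)]),
  (false, [(0, 3), (1, 4), (0, 4), (1, 2), (1, 5), (2, 3)]),
  (false, [(0, 4), (0, 3), (1, 4), (0, 4), (1, 2), (1, 5)])]

/-- The polynomial for the second functional. -/
def c' : OP := [(false, [(0, 3), (1, 4), (0, 4), (1, 2), (1, 5), (1, 4)])]

/-- The edges of the graph. -/
def TH : List (Fin 6 × Fin 6) := [(0, 3), (0, 4), (0, 5), (1, 2), (1, 4), (1, 5), (2, 3)]

/-- The edges of the graph other than `25`. -/
def TH' : List (Fin 6 × Fin 6) := [(0, 3), (0, 4), (0, 5), (1, 2), (1, 5), (2, 3)]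

/-- The second functional, for each last letter. -/
def q (l : Fin 6 × Fin 6) : OP := if l = (0, 4) then c' else []

theorem chk_all : (TH.all fun l => chk (1, 4) TH' TH 7 (dlp l.1 l.2 c) (q l)) = true := by
  decide +kernel

theorem TH_ne : ∀ e ∈ TH, e.1 ≠ e.2 := by decide
theorem TH'_ne : ∀ e ∈ TH', e.1 ≠ e.2 := by decide

theorem key (l : Fin 6 × Fin 6) (hl : l ∈ TH) (v : OW) (hv : ∀ m ∈ v, m ∈ TH) :
    B (evop c) (evo v * x l.1 l.2) = B (evop (q l)) (x 1 4 * evo v) ∧
      ∀ e ∈ TH', B (evop (q l)) (x e.1 e.2 * evo v) = 0 := by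
  have h := List.all_eq_true.mp chk_all l hl
  have := chk_sound (1, 4) TH' TH (by decide) TH'_ne TH_ne 7 _ _ h v hv
  rw [B_mul_x_right, ← evop_dlp _ _ (TH_ne l hl)]
  exact this

/-- The value of the functional on a word. -/
def Fo : OW → Int
  | [] => 0
  | e :: u => if e = (1, 4) then pr u.reverse c else 0

/-- The six-cycle. -/
def sigma : Equiv.Perm (Fin 6) :=
  ⟨![2, 0, 5, 1, 3, 4], ![1, 3, 0, 4, 5, 2], by decide, by decide⟩

theorem c_deg : ∀ t ∈ c, t.2.length + 0 = 6 ∧
    sdo t.2 = (sigma⁻¹ * Equiv.swap 1 4) := by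
  decide +kernel

theorem Fo_ne {w : OW} (h : Fo w ≠ 0) : w.length = 7 ∧ sdo w = sigma := by
  cases w with
  | nil => simp [Fo] at h
  | cons e u =>
    rw [Fo] at h
    by_cases he : e = (1, 4)
    · rw [if_pos he] at h
      have := pr_ne u.reverse c 6 0 _ c_deg h
      rw [List.reverse_reverse, List.length_reverse] at this
      refine ⟨by simp only [List.length_cons]; omega, ?_⟩
      rw [he]
      have h2 : sdo u = Equiv.swap 1 4 * sigma := by
        have h3 := this.2
        rw [mul_eq_one_iff_eq_inv] at h3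
        rw [h3, mul_inv_rev, inv_inv, Equiv.swap_inv]
      simp only [sdo]
      rw [h2, ← mul_assoc, Equiv.swap_mul_self, one_mul]
    · rw [if_neg he] at h
      exact absurd rfl h

end H387P
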