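/-!
A table of rewriting rules for star words in the Fomin-Kirillov algebra on six points.
-/

namespace H387FK

/-- Star words; the head is the outermost letter. -/
inductive W : Type
  | e | a (w : W) | b (w : W) | c (w : W) | d (w : W) | f (w : W)

/-- A term: sign, multiplicity and word. -/
inductive Tm : Type
  | t (s : Bool) (q : Nat) (w : W)

/-- A table of rewriting rules. -/
inductive R : Type
  | nil | hit (p : List Tm) | br (r1 r2 r3 r4 r5 : R)


open W Tm R

def R11 : R := (hit [])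

def R12 : R := (br (br nil nil nil (br nil (br nil nil nil nil (br (br nil nil (br (br nil nil nil
  nil (hit [t true 1 (a (c (a (b (d (f (a (b (a (f e)))))))))), t true 1 (a (c (d (f (a (b (d (b (a
  (f e)))))))))), t false 1 (a (c (f (a (b (d (a (f (b (a e)))))))))), t false 1 (b (a (c (a (d (f
  (a (b (a (f e)))))))))), t false 1 (b (a (c (d (f (a (d (b (a (f e)))))))))), t true 1 (b (a (c (f
  (a (d (a (f (b (a e)))))))))), t true 1 (b (d (a (c (a (f (a (b (a (f e)))))))))), t true 1 (b (d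
  (b (c (f (a (c (a (f (b e)))))))))), t true 1 (b (d (c (f (a (c (a (f (b (a e)))))))))), t false 1
  (b (f (a (c (a (f (d (a (b (a e)))))))))), t false 1 (c (b (d (b (f (a (c (a (f (b e)))))))))), t
  false 1 (c (d (b (f (a (c (a (f (d (b e)))))))))), t false 1 (c (d (f (a (c (a (b (d (b (f
  e)))))))))), t true 1 (c (d (f (a (c (a (f (b (d (b e)))))))))), t true 1 (c (f (a (b (d (b (c (a
  (f (b e)))))))))), t true 1 (d (a (c (f (a (b (d (a (f (b e)))))))))), t false 1 (d (b (a (c (f (a
  (d (a (f (b e)))))))))), t true 1 (d (b (f (a (c (a (f (d (a (b e)))))))))), t true 1 (d (f (a (c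
  (a (b (d (a (b (f e)))))))))), t false 1 (d (f (a (c (a (f (b (d (a (b e)))))))))), t false 1 (f
  (a (b (d (b (c (a (f (a (b e)))))))))), t false 1 (f (a (c (a (b (d (a (b (f (a e))))))))))])) nil
  nil nil nil) nil nil) nil nil nil nil)) nil nil nil) (br nil nil (br (br nil (br nil nil nil (br
  nil nil (br nil nil nil nil (hit [t false 1 (a (b (a (f (a (b (c (d (a (f e)))))))))), t true 1 (a
  (b (c (d (a (f (b (c (b (f e)))))))))), t false 1 (a (b (c (d (f (b (c (b (f (a e)))))))))), t
  true 1 (a (b (c (f (b (c (b (f (d (a e)))))))))), t true 1 (a (b (d (a (f (b (c (d (b (f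
  e)))))))))), t true 1 (a (b (d (a (f (c (d (b (c (f e)))))))))), t false 1 (a (b (d (f (b (c (d (b
  (f (a e)))))))))), t false 1 (a (b (d (f (c (d (b (c (f (a e)))))))))), t true 1 (a (b (f (a (b (c
  (d (a (f (b e)))))))))), t true 1 (a (b (f (a (c (d (a (f (b (c e)))))))))), t true 1 (a (b (f (c
  (d (b (c (f (b (a e)))))))))), t false 1 (a (c (a (b (f (a (d (a (f (b e)))))))))), t true 1 (a (c
  (b (a (f (a (b (d (a (f e)))))))))), t false 1 (a (c (b (d (a (f (b (d (b (f e)))))))))), t true 1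
  (a (c (b (d (f (b (d (b (f (a e)))))))))), t false 1 (a (c (b (f (a (b (d (a (f (b e)))))))))), t
  true 1 (a (c (f (a (b (a (f (d (a (b e)))))))))), t false 1 (a (d (a (b (f (c (d (c (f (b
  e)))))))))), t true 1 (a (d (b (f (c (d (c (f (b (a e)))))))))), t false 1 (a (f (a (b (a (f (c (d
  (a (b e)))))))))), t false 1 (a (f (a (b (c (d (a (f (c (b e)))))))))), t true 1 (a (f (b (c (d (b
  (f (c (b (a e)))))))))), t false 1 (b (a (c (a (b (f (a (d (a (f e)))))))))), t true 1 (b (a (c (a
  (f (a (d (a (f (b e)))))))))), t true 1 (b (a (c (f (a (b (a (f (d (a e)))))))))), t false 1 (b (a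
  (d (a (b (f (c (d (c (f e)))))))))), t true 1 (b (a (d (a (f (c (d (c (f (b e)))))))))), t false 1
  (b (a (f (a (b (a (f (c (d (a e)))))))))), t false 1 (b (a (f (a (b (c (d (a (f (c e)))))))))), t
  true 1 (b (a (f (a (c (d (a (f (c (b e)))))))))), t true 1 (b (c (d (a (b (f (b (c (b (f
  e)))))))))), t false 1 (b (c (d (b (f (b (a (c (b (f e)))))))))), t true 1 (b (c (d (f (b (a (c (b
  (f (a e)))))))))), t true 1 (b (c (f (a (c (a (f (d (a (b e)))))))))), t false 1 (b (c (f (b (a (c
  (b (f (d (a e)))))))))), t true 1 (b (d (a (b (f (c (d (b (c (f e)))))))))), t true 1 (b (d (a (f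
  (b (c (d (b (f (c e)))))))))), t false 1 (b (d (b (f (c (d (b (a (c (f e)))))))))), t false 1 (b
  (d (f (b (c (d (b (f (a (c e)))))))))), t false 1 (b (d (f (c (d (a (c (f (a (b e)))))))))), t
  true 1 (b (d (f (c (d (b (a (c (f (a e)))))))))), t true 1 (b (f (a (b (c (d (a (f (b (c
  e)))))))))), t false 1 (b (f (a (c (a (f (b (a (d (a e)))))))))), t false 1 (b (f (c (d (b (a (c
  (f (b (a e)))))))))), t false 1 (c (a (b (f (a (d (a (f (b (c e)))))))))), t true 1 (c (b (a (f (a
  (b (d (a (f (c e)))))))))), t false 1 (c (b (d (a (f (b (d (b (f (c e)))))))))), t true 1 (c (b (d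
  (f (b (d (b (f (a (c e)))))))))), t false 1 (c (b (f (a (b (d (a (f (b (c e)))))))))), t true 1 (c
  (b (f (a (c (a (f (b (d (a e)))))))))), t true 1 (c (d (a (b (c (f (b (c (b (f e)))))))))), t true
  1 (c (d (b (a (c (f (a (b (a (f e)))))))))), t false 1 (c (d (b (a (f (a (b (a (f (c e)))))))))),
  t false 1 (c (d (b (c (f (b (a (c (b (f e)))))))))), t true 1 (c (d (c (f (b (a (c (a (b (f
  e)))))))))), t false 1 (c (d (f (b (a (c (a (b (f (a e)))))))))), t true 1 (c (f (a (b (a (f (d (a
  (b (c e)))))))))), t true 1 (c (f (b (a (c (a (b (f (d (a e)))))))))), t true 1 (d (a (b (c (f (b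
  (c (b (f (d e)))))))))), t true 1 (d (a (b (f (c (d (b (c (f (b e)))))))))), t true 1 (d (a (f (b
  (c (d (b (f (c (b e)))))))))), t true 1 (d (b (a (c (f (a (b (a (f (d e)))))))))), t false 1 (d (b
  (a (f (a (b (a (f (c (d e)))))))))), t false 1 (d (b (c (f (b (a (c (b (f (d e)))))))))), t false
  1 (d (b (f (a (c (a (f (b (a (d e)))))))))), t false 1 (d (b (f (c (d (a (c (f (b (a e)))))))))),
  t false 1 (d (b (f (c (d (b (a (c (f (b e)))))))))), t true 1 (d (c (b (f (a (c (a (f (b (d
  e)))))))))), t true 1 (d (c (f (b (a (c (a (b (f (d e)))))))))), t false 1 (d (f (b (a (c (a (b (f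
  (a (d e)))))))))), t false 1 (d (f (b (c (d (b (f (a (c (b e)))))))))), t true 1 (d (f (c (d (b (a
  (c (f (a (b e)))))))))), t true 1 (f (a (b (a (c (d (a (b (c (f e)))))))))), t false 1 (f (a (b (a
  (f (c (d (a (b (c e)))))))))), t false 1 (f (a (b (c (d (a (b (c (b (f e)))))))))), t true 1 (f (a
  (b (c (d (a (f (b (c (b e)))))))))), t true 1 (f (a (c (a (b (a (d (a (b (f e)))))))))), t false 1
  (f (a (c (a (f (b (a (d (a (b e)))))))))), t true 1 (f (b (a (c (a (b (a (d (a (f e)))))))))), t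
  false 1 (f (b (a (c (a (b (f (a (d (a e)))))))))), t true 1 (f (b (c (d (b (a (c (b (a (f
  e)))))))))), t false 1 (f (b (c (d (b (f (a (c (b (a e)))))))))), t false 1 (f (c (d (b (a (c (a
  (b (a (f e))))))))))])) nil nil) nil) nil (br nil nil (br nil nil nil nil (hit [t false 1 (a (b (a
  (f (b (c (d (b (f e))))))))), t true 1 (a (b (f (b (c (d (b (f (a e))))))))), t true 1 (a (c (b (a
  (f (b (d (b (f e))))))))), t false 1 (a (c (b (f (b (d (b (f (a e))))))))), t true 1 (a (c (f (a
  (b (a (f (d (b e))))))))), t false 1 (a (d (b (f (c (d (c (f (a e))))))))), t true 1 (a (d (f (c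
  (d (c (f (b (a e))))))))), t false 1 (a (f (a (b (a (f (c (d (b e))))))))), t false 1 (a (f (b (c
  (d (b (f (c (a e))))))))), t false 1 (b (a (d (b (f (c (d (c (f e))))))))), t true 1 (b (a (d (f
  (c (d (c (f (b e))))))))), t false 1 (b (a (f (b (c (d (b (f (c e))))))))), t true 1 (b (c (f (a
  (c (a (f (d (b e))))))))), t true 1 (b (d (b (f (c (d (a (c (f e))))))))), t false 1 (b (d (f (c
  (d (a (c (f (b e))))))))), t true 1 (b (f (b (c (d (b (f (a (c e))))))))), t true 1 (b (f (c (d (a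
  (c (f (a (b e))))))))), t true 1 (c (b (a (f (b (d (b (f (c e))))))))), t false 1 (c (b (f (b (d
  (b (f (a (c e))))))))), t true 1 (c (d (a (c (f (a (b (a (f e))))))))), t false 1 (c (d (a (f (a
  (b (a (f (c e))))))))), t true 1 (c (f (a (b (a (f (d (b (c e))))))))), t true 1 (d (a (c (f (a (b
  (a (f (d e))))))))), t false 1 (d (a (f (a (b (a (f (c (d e))))))))), t true 1 (d (b (c (f (a (c
  (a (f (d e))))))))), t true 1 (d (b (f (c (d (a (c (f (a e))))))))), t false 1 (d (f (a (c (a (f
  (b (a (d e))))))))), t false 1 (d (f (c (d (a (c (f (b (a e))))))))), t true 1 (f (a (b (a (c (d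
  (b (c (f e))))))))), t false 1 (f (a (b (a (f (c (d (b (c e))))))))), t true 1 (f (a (c (a (b (a
  (d (b (f e))))))))), t false 1 (f (a (c (a (f (b (a (d (b e))))))))), t false 1 (f (b (c (d (b (a
  (c (a (f e))))))))), t true 1 (f (b (c (d (b (f (a (c (a e))))))))), t false 1 (f (c (d (a (c (a
  (b (a (f e)))))))))])) nil nil) nil) (br (br nil nil nil (br nil nil (br nil nil nil nil (hit [t
  false 1 (a (b (a (f (b (a (c (d (b (f e)))))))))), t true 1 (a (b (c (b (a (f (b (d (b (f
  e)))))))))), t false 1 (a (b (c (b (f (b (d (b (f (a e)))))))))), t true 1 (a (b (c (f (a (b (a (f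
  (d (b e)))))))))), t true 1 (a (b (d (b (a (f (c (d (c (f e)))))))))), t false 1 (a (b (d (b (f (c
  (d (c (f (a e)))))))))), t false 1 (a (b (f (a (b (a (f (c (d (b e)))))))))), t true 1 (a (b (f (b
  (a (c (d (b (f (c e)))))))))), t false 1 (a (b (f (b (c (d (b (f (c (a e)))))))))), t true 1 (a (c
  (d (a (f (a (b (c (a (f e)))))))))), t false 1 (a (c (d (b (a (f (a (c (a (f e)))))))))), t false
  1 (a (c (d (f (a (b (c (a (f (b e)))))))))), t true 1 (a (c (f (a (b (c (a (f (d (b e)))))))))), t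
  true 1 (a (c (f (b (c (a (b (f (d (b e)))))))))), t false 1 (a (c (f (b (c (b (f (d (b (a
  e)))))))))), t true 1 (a (d (a (f (c (d (a (b (c (f e)))))))))), t false 1 (a (d (b (a (f (c (d (a
  (c (f e)))))))))), t false 1 (a (d (b (f (a (c (d (a (f (c e)))))))))), t true 1 (a (d (f (a (c (d
  (a (f (b (c e)))))))))), t false 1 (a (d (f (c (d (a (b (c (f (b e)))))))))), t true 1 (a (d (f (c
  (d (b (c (f (b (a e)))))))))), t false 1 (a (f (b (a (c (d (b (f (a (c e)))))))))), t false 1 (a
  (f (b (c (a (b (f (a (d (b e)))))))))), t true 1 (a (f (c (d (a (b (c (f (a (b e)))))))))), t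
  false 1 (b (a (c (d (b (f (a (c (a (f e)))))))))), t true 1 (b (a (c (d (f (a (c (a (f (b
  e)))))))))), t false 1 (b (a (c (f (a (c (a (f (d (b e)))))))))), t false 1 (b (a (d (b (f (a (c
  (d (a (f e)))))))))), t false 1 (b (a (d (b (f (c (d (a (c (f e)))))))))), t true 1 (b (a (d (f (a
  (c (d (a (f (b e)))))))))), t true 1 (b (a (d (f (c (d (a (c (f (b e)))))))))), t false 1 (b (a (f
  (b (a (c (d (b (f (a e)))))))))), t false 1 (b (a (f (b (c (d (b (f (a (c e)))))))))), t false 1
  (b (a (f (c (d (a (c (f (a (b e)))))))))), t false 1 (b (c (a (b (f (b (a (d (b (f e)))))))))), t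
  true 1 (b (c (a (d (b (f (a (d (a (f e)))))))))), t false 1 (b (c (a (d (f (a (d (a (f (b
  e)))))))))), t true 1 (b (c (a (f (b (a (d (b (f (a e)))))))))), t true 1 (b (c (b (a (f (b (d (b
  (f (a e)))))))))), t false 1 (b (d (a (f (c (d (c (f (a (b e)))))))))), t true 1 (b (d (b (a (f (c
  (d (c (f (a e)))))))))), t false 1 (b (f (a (b (a (f (c (d (b (a e)))))))))), t false 1 (b (f (a
  (c (d (a (f (c (a (b e)))))))))), t true 1 (b (f (b (a (c (d (b (f (c (a e)))))))))), t false 1 (c
  (a (b (f (b (a (d (b (f (c e)))))))))), t true 1 (c (a (d (b (f (a (d (a (f (c e)))))))))), t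
  false 1 (c (a (d (f (a (d (a (f (b (c e)))))))))), t true 1 (c (a (f (b (a (d (b (f (a (c
  e)))))))))), t false 1 (c (a (f (b (c (b (f (a (d (b e)))))))))), t true 1 (c (b (a (f (b (d (b (f
  (a (c e)))))))))), t true 2 (c (d (a (b (c (f (a (b (a (f e)))))))))), t false 1 (c (d (a (b (f (a
  (b (a (f (c e)))))))))), t true 1 (c (d (a (c (f (a (b (c (a (f e)))))))))), t false 1 (c (d (b (a
  (c (f (a (c (a (f e)))))))))), t false 1 (c (d (f (a (b (c (a (f (b (a e)))))))))), t true 1 (c (f
  (a (b (a (f (d (b (a (c e)))))))))), t true 1 (c (f (b (c (a (b (f (d (b (a e)))))))))), t true 1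
  (d (a (b (c (f (a (b (a (f (d e)))))))))), t false 1 (d (a (b (f (a (b (a (f (c (d e)))))))))), t
  true 1 (d (a (c (f (a (b (c (a (f (d e)))))))))), t true 1 (d (a (c (f (b (c (a (b (f (d
  e)))))))))), t false 1 (d (a (f (b (c (a (b (f (a (d e)))))))))), t true 1 (d (a (f (c (d (a (b (c
  (f (a e)))))))))), t true 1 (d (a (f (c (d (b (c (f (a (b e)))))))))), t false 1 (d (b (a (c (f (a
  (c (a (f (d e)))))))))), t false 1 (d (b (a (f (c (d (a (c (f (a e)))))))))), t false 1 (d (b (f
  (a (c (d (a (f (c (a e)))))))))), t false 1 (d (c (a (f (b (c (b (f (a (d e)))))))))), t false 1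
  (d (f (a (b (c (a (f (b (a (d e)))))))))), t true 1 (d (f (a (c (d (a (f (b (c (a e)))))))))), t
  false 1 (d (f (c (d (a (b (c (f (b (a e)))))))))), t true 1 (f (a (b (a (c (d (b (a (c (f
  e)))))))))), t false 1 (f (a (b (a (f (c (d (b (a (c e)))))))))), t true 1 (f (a (b (c (a (b (a (d
  (b (f e)))))))))), t false 1 (f (a (b (c (a (f (b (a (d (b e)))))))))), t false 1 (f (a (c (d (a
  (b (c (a (b (f e)))))))))), t true 1 (f (a (c (d (a (f (b (c (a (b e)))))))))), t true 1 (f (b (a
  (c (d (b (a (c (a (f e)))))))))), t false 1 (f (b (a (c (d (b (f (a (c (a e)))))))))), t true 1 (f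
  (b (c (a (b (a (d (b (a (f e)))))))))), t false 1 (f (b (c (a (b (f (a (d (b (a e)))))))))), t
  false 1 (f (c (d (a (b (c (a (b (a (f e))))))))))])) nil nil) nil) nil nil (br nil nil (br nil nil
  nil nil (hit [t false 1 (a (b (a (f (a (c (d (a (f e))))))))), t true 1 (a (b (d (a (f (c (d (c (f
  e))))))))), t false 1 (a (b (d (f (c (d (c (f (a e))))))))), t true 1 (a (b (f (a (c (d (a (f (c
  e))))))))), t false 1 (a (c (f (b (c (b (f (d (a e))))))))), t false 1 (a (d (a (f (c (d (b (c (f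
  e))))))))), t true 1 (a (d (f (c (d (b (c (f (a e))))))))), t false 1 (a (f (a (c (d (a (f (b (c
  e))))))))), t false 1 (a (f (c (d (b (c (f (b (a e))))))))), t false 1 (b (a (f (a (c (d (a (f (b
  e))))))))), t false 1 (b (c (a (b (f (a (d (a (f e))))))))), t true 1 (b (c (a (f (a (d (a (f (b
  e))))))))), t true 1 (b (d (a (f (c (d (c (f (b e))))))))), t false 1 (b (d (f (c (d (c (f (a (b
  e))))))))), t false 1 (b (f (a (b (a (f (c (d (a e))))))))), t true 1 (b (f (a (c (d (a (f (c (b
  e))))))))), t false 1 (c (a (b (f (a (d (a (f (c e))))))))), t true 1 (c (a (f (a (d (a (f (b (c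
  e))))))))), t true 1 (c (d (b (c (f (a (b (a (f e))))))))), t false 1 (c (d (b (f (a (b (a (f (c
  e))))))))), t true 1 (c (f (a (b (a (f (d (a (c e))))))))), t true 1 (c (f (b (c (a (b (f (d (a
  e))))))))), t false 1 (d (a (c (f (b (c (b (f (d e))))))))), t false 1 (d (a (f (c (d (b (c (f (b
  e))))))))), t false 1 (d (b (f (a (b (a (f (c (d e))))))))), t true 1 (d (c (f (b (c (a (b (f (d
  e))))))))), t false 1 (d (f (b (c (a (b (f (a (d e))))))))), t true 1 (d (f (c (d (b (c (f (a (b
  e))))))))), t true 1 (f (a (b (a (c (d (a (c (f e))))))))), t false 1 (f (a (b (a (f (c (d (a (c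
  e))))))))), t true 1 (f (a (c (d (a (b (c (b (f e))))))))), t false 1 (f (a (c (d (a (f (b (c (b
  e))))))))), t true 1 (f (b (c (a (b (a (d (a (f e))))))))), t false 1 (f (b (c (a (b (f (a (d (a
  e))))))))), t false 1 (f (c (d (b (c (a (b (a (f e)))))))))])) nil nil) nil) nil nil nil) nil
  nil)) nil nil (br nil (br nil nil nil nil (br (br nil nil (br (br nil nil nil nil (hit [t false 1
  (a (c (f (a (b (d (b (a (f e))))))))), t true 1 (b (a (c (f (a (d (b (a (f e))))))))), t false 1
  (b (d (a (c (f (a (b (a (f e))))))))), t false 1 (b (d (b (c (f (a (c (a (f e))))))))), t true 1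
  (b (d (f (a (c (a (f (b (a e))))))))), t false 1 (b (f (a (c (a (f (d (b (a e))))))))), t true 1
  (c (b (d (b (f (a (c (a (f e))))))))), t false 1 (c (b (d (f (a (c (a (f (b e))))))))), t true 1
  (c (b (f (a (c (a (f (d (b e))))))))), t true 1 (c (d (b (f (a (c (a (f (d e))))))))), t false 1
  (c (d (f (a (c (a (f (b (d e))))))))), t false 1 (c (f (a (b (d (b (c (a (f e))))))))), t true 1
  (c (f (a (c (a (b (d (b (f e))))))))), t false 1 (c (f (a (c (a (f (b (d (b e))))))))), t false 1
  (d (a (c (f (a (b (d (a (f e))))))))), t true 1 (d (b (a (c (f (a (d (a (f e))))))))), t false 1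
  (d (b (f (a (c (a (f (d (a e))))))))), t true 1 (d (f (a (c (a (f (b (d (a e))))))))), t true 1 (f
  (a (b (d (b (c (a (f (a e))))))))), t false 1 (f (a (c (a (b (d (b (f (a e)))))))))])) nil nil nil
  nil) nil nil) nil nil nil nil)) nil nil nil) nil)

def R13 : R := (br (br nil (br (br nil nil (hit [t false 1 (b (c (a (b (a (c e))))))]) nil nil) nil
  nil (br (br nil nil (br (br nil nil nil (hit [t true 1 (a (b (c (d (a (b (a (d (c e))))))))), t
  true 1 (a (c (a (b (d (a (c (a (d e))))))))), t true 1 (a (c (b (d (a (b (c (a (d e))))))))), t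
  false 1 (a (c (d (a (b (a (d (c (a e))))))))), t false 1 (d (a (b (c (a (d (b (a (c e)))))))))])
  nil) (br (br nil nil nil (hit [t true 1 (a (b (c (a (b (d (a (c (a (d e)))))))))), t true 1 (a (b
  (c (b (d (a (b (c (a (d e)))))))))), t false 1 (a (b (c (d (a (b (a (d (c (a e))))))))))]) nil)
  nil nil nil nil) nil nil nil) nil nil) (br (br nil nil (br (br nil nil nil (hit [t true 1 (a (b (c
  (d (a (b (a (c (d (c e)))))))))), t false 1 (a (c (d (a (b (a (c (a (d (c e)))))))))), t true 1 (b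
  (d (a (b (a (c (a (b (a (c e)))))))))), t true 1 (d (a (b (a (c (a (d (b (a (c e))))))))))]) nil)
  nil nil nil nil) nil nil) nil nil nil nil) nil nil nil) (br (br nil nil (br (br nil nil nil nil
  (hit [t true 1 (a (b (c (f (a (b (a (f (c e))))))))), t true 1 (a (c (a (b (f (a (c (a (f
  e))))))))), t true 1 (a (c (b (f (a (b (c (a (f e))))))))), t false 1 (a (c (f (a (b (a (f (c (a
  e))))))))), t false 1 (f (a (b (c (a (f (b (a (c e)))))))))])) (br (br nil nil nil nil (hit [t
  true 1 (a (b (c (a (b (f (a (c (a (f e)))))))))), t true 1 (a (b (c (b (f (a (b (c (a (f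
  e)))))))))), t false 1 (a (b (c (f (a (b (a (f (c (a e))))))))))])) nil nil nil nil) nil nil nil)
  nil nil) (br (br nil nil (br (br nil nil nil nil (hit [t true 1 (a (b (c (f (a (b (a (c (f (c
  e)))))))))), t false 1 (a (c (f (a (b (a (c (a (f (c e)))))))))), t true 1 (b (f (a (b (a (c (a (b
  (a (c e)))))))))), t true 1 (f (a (b (a (c (a (f (b (a (c e))))))))))])) nil nil nil nil) nil nil)
  nil nil nil nil) nil (br (br nil nil (br (br nil nil nil nil (hit [t true 1 (a (b (c (d (f (a (b
  (a (d (c e)))))))))), t true 1 (a (b (c (f (a (b (a (d (f (c e)))))))))), t true 1 (a (c (a (b (d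
  (f (a (c (a (d e)))))))))), t true 1 (a (c (a (b (f (a (c (a (d (f e)))))))))), t true 1 (a (c (b
  (d (f (a (b (c (a (d e)))))))))), t true 1 (a (c (b (f (a (b (c (a (d (f e)))))))))), t false 1 (a
  (c (d (f (a (b (a (d (c (a e)))))))))), t false 1 (a (c (f (a (b (a (d (f (c (a e)))))))))), t
  false 1 (d (f (a (b (c (a (d (b (a (c e)))))))))), t true 1 (d (f (a (c (a (d (b (a (c (a
  e)))))))))), t false 1 (f (a (b (c (a (d (f (b (a (c e))))))))))])) nil nil nil nil) nil nil) nil
  nil nil nil) nil)) nil (br nil (br (br nil nil (br (br nil (br nil nil nil (hit [t true 1 (a (d (b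
  (a (c (a (b (d (a (c e)))))))))), t true 1 (b (a (d (b (c (a (b (d (a (c e)))))))))), t true 1 (d
  (a (b (a (d (c (a (b (a (c e))))))))))]) nil) nil nil nil) (br nil nil nil (hit [t true 1 (b (d (b
  (c (a (b (d (a (c e)))))))))]) nil) nil nil nil) nil nil) nil nil nil nil) nil nil nil) (br nil
  (br (br nil nil (br (br nil (br nil nil nil nil (hit [t true 1 (a (f (b (a (c (a (b (f (a (c
  e)))))))))), t true 1 (b (a (f (b (c (a (b (f (a (c e)))))))))), t true 1 (f (a (b (a (f (c (a (b
  (a (c e))))))))))])) nil nil nil) (br nil nil nil nil (hit [t true 1 (b (f (b (c (a (b (f (a (c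
  e)))))))))])) nil nil nil) nil nil) nil nil nil nil) nil nil nil)) (br nil nil nil (br (br nil (br
  (br nil nil (br (br nil nil nil (hit [t false 1 (a (c (b (d (a (b (a (c (a (d e)))))))))), t true
  1 (b (d (a (b (a (c (a (b (a (d e)))))))))), t true 1 (c (b (d (a (b (a (c (b (a (d e)))))))))), t
  false 1 (d (a (b (a (c (a (b (a (d (b e)))))))))), t false 1 (d (a (b (c (a (b (a (d (b (c
  e))))))))))]) nil) nil nil nil nil) nil nil) nil nil nil nil) nil nil nil) nil nil nil nil) (br
  (br nil (br (br nil nil (br (br nil nil nil nil (hit [t false 1 (a (c (b (f (a (b (a (c (a (f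
  e)))))))))), t true 1 (b (f (a (b (a (c (a (b (a (f e)))))))))), t true 1 (c (b (f (a (b (a (c (b
  (a (f e)))))))))), t false 1 (f (a (b (a (c (a (b (a (f (b e)))))))))), t false 1 (f (a (b (c (a
  (b (a (f (b (c e))))))))))])) nil nil nil nil) nil nil) nil nil nil nil) nil nil nil) nil nil nil
  nil)) nil nil nil)

def R14 : R := (br (br nil (br (br nil nil (br (br nil nil nil (hit [t false 1 (b (d (a (c (a (b (a
  (d e)))))))), t true 1 (c (b (d (a (c (a (b (d e))))))))]) nil) nil nil nil nil) (hit [t false 1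
  (b (d (a (b (a (d e))))))]) nil) nil (br (br nil nil nil (hit [t false 1 (b (d (a (c (b (a (d
  e))))))), t false 1 (c (b (d (a (c (a (d e)))))))]) nil) (br (br nil nil nil (hit [t false 1 (a (d
  (a (b (c (b (a (d e)))))))), t true 1 (b (a (d (a (c (b (a (d e)))))))), t false 1 (b (c (a (d (a
  (b (a (d e)))))))), t false 1 (c (a (d (a (b (c (a (d e)))))))), t true 1 (c (b (a (d (a (c (a (d
  e))))))))]) nil) nil nil nil nil) nil nil nil) nil (br (br nil nil nil (br (br nil nil nil nil
  (hit [t true 1 (a (b (d (f (a (b (a (f (d e))))))))), t true 1 (a (d (a (b (f (a (d (a (f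
  e))))))))), t true 1 (a (d (b (f (a (b (d (a (f e))))))))), t false 1 (a (d (f (a (b (a (f (d (a
  e))))))))), t false 1 (f (a (b (d (a (f (b (a (d e)))))))))])) (br (br nil nil nil nil (hit [t
  true 1 (a (b (d (a (b (f (a (d (a (f e)))))))))), t true 1 (a (b (d (b (f (a (b (d (a (f
  e)))))))))), t false 1 (a (b (d (f (a (b (a (f (d (a e))))))))))])) nil nil nil nil) (br (br nil
  nil nil nil (hit [t true 1 (a (c (b (d (f (a (b (a (f (d e)))))))))), t true 1 (a (c (d (a (b (f
  (a (d (a (f e)))))))))), t true 1 (a (c (d (b (f (a (b (d (a (f e)))))))))), t false 1 (a (c (d (f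
  (a (b (a (f (d (a e)))))))))), t true 1 (c (b (d (f (a (c (b (a (f (d e)))))))))), t true 1 (c (d
  (a (c (b (f (a (d (a (f e)))))))))), t true 1 (c (d (b (f (a (c (b (d (a (f e)))))))))), t true 1
  (c (d (c (b (f (a (c (d (a (f e)))))))))), t false 1 (c (d (f (a (c (b (a (f (d (a e)))))))))), t
  false 1 (f (a (c (b (d (a (f (b (a (d e))))))))))])) nil nil nil nil) nil nil) nil) (br (br nil
  nil nil (br (br nil nil nil nil (hit [t true 1 (a (b (d (f (a (b (a (d (f (d e)))))))))), t false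
  1 (a (d (f (a (b (a (d (a (f (d e)))))))))), t true 1 (b (f (a (b (a (d (a (b (a (d e)))))))))), t
  true 1 (f (a (b (a (d (a (f (b (a (d e))))))))))])) nil nil nil nil) nil) nil nil nil nil) (br (br
  nil nil nil (br (br nil nil nil nil (hit [t true 1 (a (b (d (c (f (a (b (a (c (d e)))))))))), t
  true 1 (a (b (d (f (a (b (a (c (f (d e)))))))))), t true 1 (a (d (a (b (c (f (a (d (a (c
  e)))))))))), t true 1 (a (d (a (b (f (a (d (a (c (f e)))))))))), t true 1 (a (d (b (c (f (a (b (d
  (a (c e)))))))))), t true 1 (a (d (b (f (a (b (d (a (c (f e)))))))))), t false 1 (a (d (c (f (a (b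
  (a (c (d (a e)))))))))), t false 1 (a (d (f (a (b (a (c (f (d (a e)))))))))), t true 1 (c (f (a (c
  (b (d (a (c (a (d e)))))))))), t false 1 (f (a (b (d (a (c (f (b (a (d e))))))))))])) nil nil nil
  nil) nil) nil nil nil nil) nil nil)) (br (br nil (br (br nil nil nil (hit [t true 1 (b (c (d (a (b
  (a (c (d e)))))))), t false 1 (c (d (a (b (a (c (a (d e))))))))]) nil) nil nil nil nil) nil (hit
  [t false 1 (c (d (a (c (a (d e))))))]) nil) (br (br nil nil nil (hit [t false 1 (b (c (d (a (b (a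
  (d e))))))), t false 1 (c (d (a (b (c (a (d e)))))))]) nil) nil nil nil nil) nil nil nil) nil (br
  nil (br (br nil nil nil (br (br nil (br nil nil nil nil (hit [t true 1 (a (f (b (a (d (a (b (f (a
  (d e)))))))))), t true 1 (b (a (f (b (d (a (b (f (a (d e)))))))))), t true 1 (f (a (b (a (f (d (a
  (b (a (d e))))))))))])) nil nil nil) (br nil nil nil nil (hit [t true 1 (b (f (b (d (a (b (f (a (d
  e)))))))))])) (br nil (br nil nil nil nil (hit [t true 1 (b (c (f (b (d (a (b (f (a (d
  e)))))))))), t true 1 (c (f (b (c (d (a (b (f (a (d e)))))))))), t false 1 (f (b (c (b (f (d (a (b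
  (a (d e))))))))))])) nil nil nil) nil nil) nil) nil nil nil nil) nil nil nil)) (br (br nil nil (br
  (br nil nil nil (hit [t true 1 (b (d (a (c (a (b (a e))))))), t false 1 (c (b (d (a (c (a (b
  e))))))), t false 1 (c (d (a (c (a (b (d e)))))))]) nil) nil nil nil nil) nil nil) nil nil nil (br
  (br nil (br (br nil nil nil (br (br nil nil nil nil (hit [t false 1 (a (d (b (f (a (b (a (d (a (f
  e)))))))))), t true 1 (b (f (a (b (a (d (a (b (a (f e)))))))))), t true 1 (d (b (f (a (b (a (d (b
  (a (f e)))))))))), t false 1 (f (a (b (a (d (a (b (a (f (b e)))))))))), t false 1 (f (a (b (d (a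
  (b (a (f (b (d e))))))))))])) nil nil nil nil) nil) nil nil nil nil) nil nil nil) nil nil nil
  nil)) (br (br nil (br (br nil nil (br (br nil nil nil (hit [t false 1 (b (d (a (c (a (b (a (c (d
  e))))))))), t true 1 (c (a (b (d (a (c (a (b (d e))))))))), t false 1 (d (a (b (c (a (b (d (a (c
  e)))))))))]) nil) nil nil (hit [t false 1 (b (c (d (a (b (a (d (c e)))))))), t false 1 (b (d (c (a
  (b (a (c (d e)))))))), t false 1 (c (b (d (a (b (c (a (d e)))))))), t true 1 (c (d (a (b (a (d (c
  (a e)))))))), t false 1 (d (b (c (a (b (d (a (c e))))))))]) nil) (hit [t false 1 (b (c (d (a (b (a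
  (c e))))))), t false 1 (b (d (a (b (a (c (d e))))))), t true 1 (c (d (a (b (a (c (a e)))))))])
  nil) nil nil nil (br (br nil nil nil (br (br nil nil nil nil (hit [t true 1 (a (b (c (d (f (a (b
  (a (f (c e)))))))))), t true 1 (a (b (d (f (a (b (a (f (c (d e)))))))))), t true 1 (a (c (d (a (b
  (f (a (c (a (f e)))))))))), t true 1 (a (c (d (b (f (a (b (c (a (f e)))))))))), t false 1 (a (c (d
  (f (a (b (a (f (c (a e)))))))))), t true 1 (a (d (a (b (f (a (c (d (a (f e)))))))))), t true 1 (a
  (d (b (f (a (b (c (d (a (f e)))))))))), t false 1 (a (d (f (a (b (a (f (c (d (a e)))))))))), t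
  false 1 (f (a (b (c (d (a (f (b (a (c e)))))))))), t false 1 (f (a (b (d (a (f (b (a (c (d
  e)))))))))), t true 1 (f (a (c (d (a (f (b (a (c (a e))))))))))])) nil nil nil nil) nil) nil nil
  nil nil)) nil nil nil) nil nil nil nil) nil nil)

def R15 : R := (br (br nil (br (br nil nil (br (br nil nil nil nil (hit [t false 1 (b (f (a (c (a (b
  (a (f e)))))))), t true 1 (c (b (f (a (c (a (b (f e))))))))])) nil nil nil nil) (br (br nil nil
  (br (br nil nil nil nil (hit [t false 1 (b (f (a (c (a (d (a (b (a (f e)))))))))), t false 1 (c (d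
  (b (f (a (c (a (d (b (f e)))))))))), t true 1 (d (b (f (a (c (a (d (a (b (f e))))))))))])) nil nil
  nil nil) nil (hit [t false 1 (b (f (a (d (a (b (a (f e)))))))), t true 1 (d (b (f (a (d (a (b (f
  e))))))))])) nil nil nil nil) (hit [t false 1 (b (f (a (b (a (f e))))))])) nil (br (br nil nil nil
  nil (hit [t false 1 (b (f (a (c (b (a (f e))))))), t false 1 (c (b (f (a (c (a (f e)))))))])) (br
  (br nil nil nil nil (hit [t false 1 (a (f (a (b (c (b (a (f e)))))))), t true 1 (b (a (f (a (c (b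
  (a (f e)))))))), t false 1 (b (c (a (f (a (b (a (f e)))))))), t false 1 (c (a (f (a (b (c (a (f
  e)))))))), t true 1 (c (b (a (f (a (c (a (f e))))))))])) nil nil (br (br nil nil nil nil (hit [t
  true 1 (b (c (b (d (f (a (d (a (f e))))))))), t false 1 (b (c (d (f (a (d (b (a (f e))))))))), t
  true 1 (b (d (f (a (d (c (b (a (f e))))))))), t true 1 (c (b (d (f (a (d (c (a (f e))))))))), t
  false 1 (c (d (f (a (d (b (c (a (f e))))))))), t false 1 (d (b (c (b (f (a (d (a (f e))))))))), t
  true 1 (d (f (a (b (c (b (d (a (f e))))))))), t false 1 (d (f (a (d (b (c (b (a (f e))))))))), t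
  false 1 (f (a (b (c (b (d (a (f (a e)))))))))])) (br (br nil nil nil nil (hit [t true 1 (a (d (f
  (a (b (d (c (b (a (f e)))))))))), t false 1 (a (f (a (b (d (a (f (c (b (a e)))))))))), t false 1
  (b (a (d (f (a (d (c (b (a (f e)))))))))), t true 1 (b (a (f (a (d (a (f (c (b (a e)))))))))), t
  true 1 (c (a (d (f (a (b (d (c (a (f e)))))))))), t false 1 (c (a (f (a (b (d (a (f (c (a
  e)))))))))), t false 1 (c (b (a (d (f (a (d (c (a (f e)))))))))), t true 1 (c (b (a (f (a (d (a (f
  (c (a e)))))))))), t false 1 (c (d (f (a (b (d (b (c (a (f e)))))))))), t true 1 (c (f (a (b (d (a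
  (f (b (c (a e)))))))))), t true 1 (c (f (a (b (d (b (c (a (f (b e)))))))))), t true 1 (d (a (f (a
  (b (d (a (f (c (b e)))))))))), t false 1 (d (b (a (f (a (d (a (f (c (b e)))))))))), t true 1 (d (c
  (a (f (a (b (d (a (f (c e)))))))))), t false 1 (d (c (b (a (f (a (d (a (f (c e)))))))))), t false
  1 (d (c (f (a (b (d (a (f (b (c e)))))))))), t true 1 (d (f (a (b (d (a (b (c (b (f e)))))))))), t
  false 1 (d (f (a (b (d (a (f (b (c (b e)))))))))), t false 1 (d (f (a (b (d (b (c (b (a (f
  e)))))))))), t false 1 (f (a (b (d (a (b (c (b (f (a e)))))))))), t true 1 (f (a (b (d (a (f (b (c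
  (b (a e)))))))))), t false 1 (f (a (b (d (b (c (a (f (a (b e))))))))))])) nil nil nil (hit [t
  false 1 (a (f (a (b (d (a (c (b (a e))))))))), t false 1 (a (f (b (d (a (b (c (b (a e))))))))), t
  true 1 (b (a (f (a (d (a (c (b (a e))))))))), t false 1 (c (a (f (a (b (d (a (c (a e))))))))), t
  false 1 (c (a (f (b (d (a (b (c (a e))))))))), t false 1 (c (a (f (b (d (b (c (a (b e))))))))), t
  true 1 (c (b (a (f (a (d (a (c (a e))))))))), t true 1 (d (a (f (a (b (d (a (c (b e))))))))), t
  true 1 (d (a (f (b (d (a (b (c (b e))))))))), t false 1 (d (a (f (b (d (b (c (b (a e))))))))), t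
  false 1 (d (b (a (f (a (d (a (c (b e))))))))), t true 1 (d (c (a (f (a (b (d (a (c e))))))))), t
  true 1 (d (c (a (f (b (d (a (b (c e))))))))), t false 1 (d (c (b (a (f (a (d (a (c e))))))))), t
  true 1 (d (f (a (b (d (a (c (b (f e))))))))), t true 1 (d (f (b (d (a (b (c (b (f e))))))))), t
  false 1 (d (f (b (d (b (c (b (a (f e))))))))), t false 1 (f (a (b (d (a (c (b (f (a e))))))))), t
  false 1 (f (b (d (a (b (c (b (f (a e))))))))), t false 1 (f (b (d (b (c (a (f (a (b e)))))))))]))
  (br nil (br nil nil nil nil (hit [t false 1 (a (f (a (b (c (d (a (c (b (a e)))))))))), t true 1 (a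
  (f (b (a (c (d (a (b (c (a e)))))))))), t true 1 (a (f (b (a (c (d (b (c (a (b e)))))))))), t
  false 1 (a (f (b (c (d (a (b (c (b (a e)))))))))), t true 1 (b (a (c (d (c (f (a (b (a (c
  e)))))))))), t true 1 (b (a (c (d (f (a (b (a (c (f e)))))))))), t false 1 (b (a (f (a (b (c (d (a
  (c (a e)))))))))), t true 1 (b (a (f (a (c (d (a (c (b (a e)))))))))), t false 1 (c (a (f (b (a (d
  (a (b (c (a e)))))))))), t false 1 (c (a (f (b (a (d (b (c (a (b e)))))))))), t true 1 (c (b (a (f
  (a (b (d (a (c (a e)))))))))), t false 1 (c (d (a (f (a (b (a (c (a (b e)))))))))), t false 1 (c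
  (d (b (a (f (a (b (a (c (a e)))))))))), t false 1 (c (d (c (b (a (f (a (b (a (c e)))))))))), t
  false 1 (c (d (f (a (b (a (c (a (b (f e)))))))))), t true 1 (d (a (f (a (b (c (d (a (c (b
  e)))))))))), t false 1 (d (a (f (b (a (c (d (a (b (c e)))))))))), t true 1 (d (a (f (b (c (d (a (b
  (c (b e)))))))))), t false 1 (d (a (f (b (c (d (b (c (b (a e)))))))))), t true 1 (d (b (a (f (a (b
  (c (d (a (c e)))))))))), t false 1 (d (b (a (f (a (c (d (a (c (b e)))))))))), t true 1 (d (c (a (f
  (b (a (d (a (b (c e)))))))))), t false 1 (d (c (b (a (f (a (b (d (a (c e)))))))))), t true 1 (d (f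
  (a (b (c (d (a (c (b (f e)))))))))), t false 1 (d (f (b (a (c (d (a (b (c (f e)))))))))), t true 1
  (d (f (b (c (d (a (b (c (b (f e)))))))))), t false 1 (d (f (b (c (d (b (c (b (a (f e)))))))))), t
  false 1 (f (a (b (c (d (a (c (b (f (a e)))))))))), t true 1 (f (b (a (c (d (a (b (c (f (a
  e)))))))))), t true 1 (f (b (a (c (d (b (c (f (a (b e)))))))))), t false 1 (f (b (c (d (a (b (c (b
  (f (a e)))))))))), t false 1 (f (b (c (d (b (c (a (f (a (b e))))))))))])) nil nil nil) nil nil)
  nil) nil (br (br nil nil nil nil (hit [t false 1 (b (f (a (d (c (b (a (f e)))))))), t false 1 (c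
  (b (f (a (d (c (a (f e)))))))), t false 1 (d (c (b (f (a (d (a (f e))))))))])) (br (br nil nil nil
  nil (hit [t false 1 (a (f (a (b (d (c (b (a (f e))))))))), t true 1 (b (a (f (a (d (c (b (a (f
  e))))))))), t false 1 (b (d (c (a (f (a (b (a (f e))))))))), t false 1 (c (a (f (a (b (d (c (a (f
  e))))))))), t true 1 (c (b (a (f (a (d (c (a (f e))))))))), t false 1 (d (c (a (f (a (b (d (a (f
  e))))))))), t true 1 (d (c (b (a (f (a (d (a (f e)))))))))])) nil (br nil (br nil nil nil nil (hit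
  [t false 1 (a (f (a (b (c (a (d (c (b (a e)))))))))), t true 1 (a (f (b (a (c (a (b (d (c (a
  e)))))))))), t false 1 (a (f (b (c (a (b (d (c (b (a e)))))))))), t false 1 (b (a (f (a (b (c (a
  (d (c (a e)))))))))), t true 1 (b (a (f (a (c (a (d (c (b (a e)))))))))), t true 1 (b (c (a (f (b
  (a (c (b (d (c e)))))))))), t false 1 (b (c (a (f (b (c (b (d (c (a e)))))))))), t true 1 (b (c (d
  (a (f (b (a (c (b (d e)))))))))), t true 1 (b (c (d (c (a (f (a (b (a (d e)))))))))), t true 1 (b
  (c (f (b (a (c (b (d (c (f e)))))))))), t false 1 (b (c (f (b (c (b (d (c (a (f e)))))))))), t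
  true 1 (c (a (f (a (b (c (a (d (c (b e)))))))))), t false 1 (c (a (f (b (a (c (a (b (d (c
  e)))))))))), t true 1 (c (a (f (b (c (a (b (d (c (b e)))))))))), t false 1 (c (a (f (b (c (b (d (c
  (b (a e)))))))))), t true 1 (c (b (a (f (a (b (a (d (c (a e)))))))))), t true 1 (c (b (a (f (a (b
  (c (a (d (c e)))))))))), t false 1 (c (b (a (f (a (c (a (d (c (b e)))))))))), t false 1 (c (d (a
  (f (b (a (c (a (b (d e)))))))))), t true 1 (c (d (b (a (f (a (b (c (a (d e)))))))))), t false 1 (c
  (d (c (b (a (f (a (b (a (d e)))))))))), t true 1 (c (f (a (b (c (a (d (c (b (f e)))))))))), t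
  false 1 (c (f (b (a (c (a (b (d (c (f e)))))))))), t true 1 (c (f (b (c (a (b (d (c (b (f
  e)))))))))), t false 1 (c (f (b (c (b (d (c (b (a (f e)))))))))), t true 1 (d (a (f (b (a (c (a (b
  (d (a e)))))))))), t false 1 (d (a (f (b (c (b (d (a (c (b e)))))))))), t false 1 (d (b (a (f (a
  (b (c (a (d (a e)))))))))), t true 1 (d (c (b (a (f (a (b (a (d (a e)))))))))), t false 1 (f (a (b
  (c (a (d (c (b (f (a e)))))))))), t true 1 (f (b (a (c (a (b (d (c (f (a e)))))))))), t false 1 (f
  (b (c (a (b (d (c (b (f (a e)))))))))), t false 1 (f (b (c (b (d (a (f (a (c (b e))))))))))])) nil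
  nil nil) nil nil) nil nil nil) nil) (br (br nil (br nil nil (br nil (br nil nil nil nil (hit [t
  false 1 (a (d (a (c (f (a (b (c (a (f e)))))))))), t true 1 (a (d (b (a (c (f (a (c (a (f
  e)))))))))), t true 1 (a (d (c (f (a (b (c (b (a (f e)))))))))), t false 1 (a (f (a (b (c (a (f (d
  (b (a e)))))))))), t false 1 (b (a (d (a (c (f (a (b (a (f e)))))))))), t true 1 (b (a (d (b (c (f
  (a (c (a (f e)))))))))), t false 1 (b (a (d (c (f (a (c (b (a (f e)))))))))), t true 1 (b (a (f (a
  (c (a (f (d (b (a e)))))))))), t true 1 (b (c (a (d (a (f (a (b (a (f e)))))))))), t true 1 (c (a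
  (d (a (f (a (b (c (a (f e)))))))))), t false 1 (c (a (d (b (a (f (a (c (a (f e)))))))))), t true 1
  (c (a (f (a (b (c (a (f (d (b e)))))))))), t false 1 (c (b (a (d (b (f (a (c (a (f e)))))))))), t
  false 1 (c (b (a (f (a (c (a (f (d (b e)))))))))), t true 1 (c (d (a (f (a (b (c (a (f (d
  e)))))))))), t false 1 (c (d (b (a (f (a (c (a (f (d e)))))))))), t false 1 (c (d (f (a (b (c (a
  (f (b (d e)))))))))), t true 1 (c (f (a (b (c (a (b (d (b (f e)))))))))), t false 1 (c (f (a (b (c
  (a (f (b (d (b e)))))))))), t true 1 (c (f (b (a (d (b (a (c (a (f e)))))))))), t false 1 (c (f (b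
  (c (b (a (d (b (a (f e)))))))))), t false 1 (d (a (f (a (b (c (a (f (d (a e)))))))))), t true 1 (d
  (b (a (f (a (c (a (f (d (a e)))))))))), t false 1 (d (c (f (b (c (b (a (d (a (f e)))))))))), t
  true 1 (d (f (a (b (c (a (f (b (d (a e)))))))))), t true 1 (d (f (a (b (c (b (d (a (f (b
  e)))))))))), t false 1 (f (a (b (c (a (b (d (b (f (a e)))))))))), t true 1 (f (a (b (c (a (f (b (d
  (b (a e)))))))))), t false 1 (f (a (b (c (b (d (a (f (a (b e)))))))))), t false 1 (f (b (a (d (b
  (a (c (a (f (a e))))))))))])) nil nil nil) nil nil) nil nil (hit [t false 1 (b (f (a (d (b (a (f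
  e))))))), t false 1 (d (b (f (a (d (a (f e)))))))])) (br (br nil nil nil nil (hit [t false 1 (a (f
  (a (b (d (b (a (f e)))))))), t true 1 (b (a (f (a (d (b (a (f e)))))))), t false 1 (b (d (a (f (a
  (b (a (f e)))))))), t false 1 (d (a (f (a (b (d (a (f e)))))))), t true 1 (d (b (a (f (a (d (a (f
  e))))))))])) nil (br (br nil nil nil nil (hit [t true 1 (b (c (f (a (c (d (b (a (f e))))))))), t
  true 1 (b (d (b (c (f (a (c (a (f e))))))))), t false 1 (b (d (c (f (a (c (b (a (f e))))))))), t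
  false 1 (c (b (d (b (f (a (c (a (f e))))))))), t true 1 (c (f (a (b (d (b (c (a (f e))))))))), t
  false 1 (c (f (a (c (b (d (b (a (f e))))))))), t true 1 (d (b (c (f (a (c (d (a (f e))))))))), t
  false 1 (d (c (f (a (c (b (d (a (f e))))))))), t false 1 (f (a (b (d (b (c (a (f (a e)))))))))]))
  (br (br nil nil nil nil (hit [t true 1 (a (c (f (a (b (c (d (b (a (f e)))))))))), t false 1 (a (f
  (a (b (c (a (f (d (b (a e)))))))))), t false 1 (b (a (c (f (a (c (d (b (a (f e)))))))))), t true 1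
  (b (a (f (a (c (a (f (d (b (a e)))))))))), t true 1 (c (a (f (a (b (c (a (f (d (b e)))))))))), t
  false 1 (c (b (a (f (a (c (a (f (d (b e)))))))))), t true 1 (c (d (a (f (a (b (c (a (f (d
  e)))))))))), t false 1 (c (d (b (a (f (a (c (a (f (d e)))))))))), t false 1 (c (d (f (a (b (c (a
  (f (b (d e)))))))))), t true 1 (c (f (a (b (c (a (b (d (b (f e)))))))))), t false 1 (c (f (a (b (c
  (a (f (b (d (b e)))))))))), t false 1 (c (f (a (b (c (b (d (b (a (f e)))))))))), t true 1 (d (a (c
  (f (a (b (c (d (a (f e)))))))))), t false 1 (d (a (f (a (b (c (a (f (d (a e)))))))))), t false 1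
  (d (b (a (c (f (a (c (d (a (f e)))))))))), t true 1 (d (b (a (f (a (c (a (f (d (a e)))))))))), t
  false 1 (d (c (f (a (b (c (b (d (a (f e)))))))))), t true 1 (d (f (a (b (c (a (f (b (d (a
  e)))))))))), t true 1 (d (f (a (b (c (b (d (a (f (b e)))))))))), t false 1 (f (a (b (c (a (b (d (b
  (f (a e)))))))))), t true 1 (f (a (b (c (a (f (b (d (b (a e)))))))))), t false 1 (f (a (b (c (b (d
  (a (f (a (b e))))))))))])) nil nil nil (hit [t false 1 (a (f (a (b (c (a (d (b (a e))))))))), t
  false 1 (a (f (b (c (a (b (d (b (a e))))))))), t true 1 (b (a (f (a (c (a (d (b (a e))))))))), t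
  true 1 (c (a (f (a (b (c (a (d (b e))))))))), t true 1 (c (a (f (b (c (a (b (d (b e))))))))), t
  false 1 (c (a (f (b (c (b (d (b (a e))))))))), t false 1 (c (b (a (f (a (c (a (d (b e))))))))), t
  true 1 (c (d (a (f (a (b (c (a (d e))))))))), t true 1 (c (d (a (f (b (c (a (b (d e))))))))), t
  false 1 (c (d (b (a (f (a (c (a (d e))))))))), t true 1 (c (f (a (b (c (a (d (b (f e))))))))), t
  true 1 (c (f (b (c (a (b (d (b (f e))))))))), t false 1 (c (f (b (c (b (d (b (a (f e))))))))), t
  false 1 (d (a (f (a (b (c (a (d (a e))))))))), t false 1 (d (a (f (b (c (a (b (d (a e))))))))), t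
  false 1 (d (a (f (b (c (b (d (a (b e))))))))), t true 1 (d (b (a (f (a (c (a (d (a e))))))))), t
  false 1 (f (a (b (c (a (d (b (f (a e))))))))), t false 1 (f (b (c (a (b (d (b (f (a e))))))))), t
  false 1 (f (b (c (b (d (a (f (a (b e)))))))))])) nil nil nil) nil nil) (br (br nil nil nil nil
  (hit [t false 1 (b (f (a (c (d (b (a (f e)))))))), t false 1 (c (d (b (f (a (c (a (f e)))))))), t
  false 1 (d (b (f (a (c (d (a (f e))))))))])) (br (br nil nil nil nil (hit [t false 1 (a (f (a (b
  (c (d (b (a (f e))))))))), t true 1 (b (a (f (a (c (d (b (a (f e))))))))), t false 1 (b (c (d (a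
  (f (a (b (a (f e))))))))), t false 1 (c (d (a (f (a (b (c (a (f e))))))))), t true 1 (c (d (b (a
  (f (a (c (a (f e))))))))), t false 1 (d (a (f (a (b (c (d (a (f e))))))))), t true 1 (d (b (a (f
  (a (c (d (a (f e)))))))))])) nil nil nil nil) nil nil nil) nil nil) nil) (br (br nil (br (br nil
  nil nil nil (hit [t true 1 (b (c (f (a (b (a (c (f e)))))))), t false 1 (c (f (a (b (a (c (a (f
  e))))))))])) nil nil (br (br nil nil nil nil (hit [t true 1 (b (c (f (a (d (b (a (c (f e))))))))),
  t false 1 (c (f (a (d (b (a (c (a (f e))))))))), t true 1 (d (b (c (f (a (d (a (c (f e)))))))))]))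
  (br nil nil nil nil (hit [t true 1 (a (c (f (a (b (d (b (a (f e))))))))), t false 1 (b (a (c (f (a
  (d (b (a (f e))))))))), t true 1 (b (d (a (c (f (a (b (a (f e))))))))), t true 1 (c (f (a (b (d (b
  (c (a (f e))))))))), t false 1 (c (f (b (d (b (a (c (a (f e))))))))), t true 1 (d (a (c (f (a (b
  (d (a (f e))))))))), t false 1 (d (b (a (c (f (a (d (a (f e))))))))), t false 1 (f (a (b (d (b (c
  (a (f (a e)))))))))])) (br nil (br nil nil nil nil (hit [t true 1 (a (b (f (a (b (c (d (b (a (f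
  e)))))))))), t true 1 (a (b (f (a (c (d (b (c (a (f e)))))))))), t false 1 (a (c (a (b (f (a (d (b
  (a (f e)))))))))), t false 1 (a (c (b (f (a (b (d (b (a (f e)))))))))), t true 1 (b (a (c (a (f (a
  (d (b (a (f e)))))))))), t true 1 (b (f (a (b (c (d (b (c (a (f e)))))))))), t true 1 (b (f (b (c
  (d (a (c (a (b (f e)))))))))), t false 1 (b (f (b (c (d (b (a (c (a (f e)))))))))), t false 1 (c
  (a (b (f (a (d (b (c (a (f e)))))))))), t false 1 (c (b (f (a (b (d (b (c (a (f e)))))))))), t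
  false 1 (c (b (f (b (d (a (c (a (b (f e)))))))))), t true 1 (c (b (f (b (d (b (a (c (a (f
  e)))))))))), t true 1 (c (d (a (b (f (a (b (c (a (f e)))))))))), t true 1 (c (d (a (b (f (b (c (a
  (b (f e)))))))))), t true 1 (d (a (b (f (a (b (c (d (a (f e)))))))))), t true 1 (d (a (b (f (b (c
  (d (a (b (f e)))))))))), t false 1 (d (a (c (a (b (f (a (d (a (f e)))))))))), t false 1 (d (a (c
  (b (f (a (b (d (a (f e)))))))))), t false 1 (d (a (c (b (f (b (d (a (b (f e)))))))))), t true 1 (d
  (b (a (c (a (f (a (d (a (f e)))))))))), t false 1 (f (a (b (c (d (b (c (a (f (a e)))))))))), t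
  false 1 (f (b (c (d (a (c (a (b (f (a e)))))))))), t false 1 (f (b (c (d (a (c (b (f (a (b
  e))))))))))])) nil nil nil) nil nil) nil) nil (br (br nil (br (br nil nil nil nil (hit [t false 1
  (b (d (c (f (a (b (a (d (c (f e)))))))))), t false 1 (c (f (a (b (a (d (a (c (a (f e)))))))))), t
  true 1 (d (c (f (a (b (a (d (a (c (f e))))))))))])) nil nil nil nil) nil nil nil) nil nil nil nil)
  (hit [t false 1 (c (f (a (c (a (f e))))))])) (br (br nil nil nil (br (br nil nil nil nil (hit [t
  false 1 (b (c (f (a (d (a (b (a (f e))))))))), t false 1 (c (f (a (d (a (b (c (a (f e))))))))), t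
  true 1 (d (b (c (f (a (d (a (b (f e))))))))), t true 1 (d (c (f (a (d (a (b (c (f e)))))))))]))
  nil nil nil nil) (hit [t false 1 (b (c (f (a (b (a (f e))))))), t false 1 (c (f (a (b (c (a (f
  e)))))))])) nil nil (br (br nil nil nil nil (hit [t false 1 (b (c (f (a (d (b (a (f e)))))))), t
  false 1 (c (f (a (d (b (c (a (f e)))))))), t false 1 (d (b (c (f (a (d (a (f e))))))))])) (br nil
  nil (br (br nil nil nil nil (hit [t false 1 (a (f (a (c (b (d (b (c (a (f e)))))))))), t true 1 (b
  (c (a (f (a (c (d (b (a (f e)))))))))), t true 1 (b (d (b (c (a (f (a (c (a (f e)))))))))), t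
  false 1 (b (d (c (a (f (a (c (b (a (f e)))))))))), t true 1 (c (a (f (a (b (d (b (c (a (f
  e)))))))))), t false 1 (c (a (f (a (c (b (d (b (a (f e)))))))))), t false 1 (c (b (d (b (a (f (a
  (c (a (f e)))))))))), t true 1 (d (b (c (a (f (a (c (d (a (f e)))))))))), t false 1 (d (c (a (f (a
  (c (b (d (a (f e))))))))))])) nil nil nil nil) nil nil) (br (br nil nil nil nil (hit [t false 1 (a
  (f (a (c (d (b (c (a (f e))))))))), t false 1 (b (a (f (a (c (d (b (a (f e))))))))), t true 1 (b
  (c (a (f (a (d (b (a (f e))))))))), t true 1 (c (a (f (a (d (b (c (a (f e))))))))), t false 1 (c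
  (d (b (a (f (a (c (a (f e))))))))), t false 1 (d (b (a (f (a (c (d (a (f e))))))))), t true 1 (d
  (b (c (a (f (a (d (a (f e)))))))))])) nil nil nil nil) nil nil) nil) nil (br (br nil (br nil nil
  (br nil (br nil nil nil nil (hit [t true 1 (a (d (a (b (f (a (c (b (a (f e)))))))))), t true 1 (a
  (d (b (f (a (b (c (b (a (f e)))))))))), t false 1 (a (d (c (a (b (f (a (b (a (f e)))))))))), t
  false 1 (b (a (d (a (f (a (c (b (a (f e)))))))))), t true 1 (b (a (d (c (a (f (a (b (a (f
  e)))))))))), t true 1 (b (c (a (f (a (b (a (f (d (c e)))))))))), t true 1 (b (d (c (a (f (a (b (a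
  (f (d e)))))))))), t false 1 (b (d (f (a (b (a (f (c (b (d e)))))))))), t true 1 (b (f (a (b (a (c
  (b (d (c (f e)))))))))), t false 1 (b (f (a (b (a (f (c (b (d (c e)))))))))), t true 1 (b (f (b (c
  (a (d (c (a (b (f e)))))))))), t false 1 (b (f (b (c (b (a (d (c (a (f e)))))))))), t true 1 (c (a
  (d (a (b (f (a (c (a (f e)))))))))), t true 1 (c (a (d (b (f (a (b (c (a (f e)))))))))), t true 1
  (c (a (d (b (f (b (c (a (b (f e)))))))))), t false 1 (c (a (f (a (b (a (f (d (c (a e)))))))))), t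
  false 1 (c (b (a (d (a (f (a (c (a (f e)))))))))), t false 1 (c (b (f (b (a (d (c (a (b (f
  e)))))))))), t true 1 (d (b (f (b (c (a (d (a (b (f e)))))))))), t false 1 (d (b (f (b (c (b (a (d
  (a (f e)))))))))), t false 1 (d (c (a (f (a (b (a (f (d (a e)))))))))), t false 1 (d (c (b (f (b
  (a (d (a (b (f e)))))))))), t true 1 (d (f (a (b (a (f (c (b (d (a e)))))))))), t true 1 (d (f (a
  (b (c (b (d (a (f (c e)))))))))), t false 1 (f (a (b (a (c (b (d (c (f (a e)))))))))), t true 1 (f
  (a (b (a (f (c (b (d (c (a e)))))))))), t false 1 (f (a (b (c (b (d (a (f (a (c e)))))))))), t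
  false 1 (f (b (c (a (d (c (a (b (f (a e)))))))))), t false 1 (f (b (c (a (d (c (b (f (a (b
  e))))))))))])) nil nil nil) nil nil) nil nil (hit [t false 1 (c (f (a (d (c (a (f e))))))), t
  false 1 (d (c (f (a (d (a (f e)))))))])) (br (br nil nil nil nil (hit [t false 1 (b (d (c (f (a (b
  (a (f e)))))))), t false 1 (c (f (a (b (d (c (a (f e)))))))), t false 1 (d (c (f (a (b (d (a (f
  e))))))))])) nil (br (br nil nil nil nil (hit [t false 1 (a (f (a (c (b (d (c (a (f e))))))))), t
  false 1 (b (d (a (f (a (c (b (a (f e))))))))), t true 1 (b (d (c (a (f (a (b (a (f e))))))))), t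
  true 1 (c (a (f (a (b (d (c (a (f e))))))))), t false 1 (c (b (d (a (f (a (c (a (f e))))))))), t
  false 1 (d (a (f (a (c (b (d (a (f e))))))))), t true 1 (d (c (a (f (a (b (d (a (f e)))))))))]))
  (br (br nil nil nil nil (hit [t false 1 (a (b (f (a (c (b (d (c (a (f e)))))))))), t true 1 (b (c
  (a (f (a (b (a (f (d (c e)))))))))), t true 1 (b (d (c (a (f (a (b (a (f (d e)))))))))), t false 1
  (b (d (f (a (b (a (f (c (b (d e)))))))))), t true 1 (b (f (a (b (a (c (b (d (c (f e)))))))))), t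
  false 1 (b (f (a (b (a (f (c (b (d (c e)))))))))), t false 1 (b (f (a (b (c (b (d (c (a (f
  e)))))))))), t true 1 (c (a (b (f (a (b (d (c (a (f e)))))))))), t false 1 (c (a (f (a (b (a (f (d
  (c (a e)))))))))), t false 1 (d (a (b (f (a (c (b (d (a (f e)))))))))), t false 1 (d (b (f (a (b
  (c (b (d (a (f e)))))))))), t true 1 (d (c (a (b (f (a (b (d (a (f e)))))))))), t false 1 (d (c (a
  (f (a (b (a (f (d (a e)))))))))), t true 1 (d (f (a (b (a (f (c (b (d (a e)))))))))), t true 1 (d
  (f (a (b (c (b (d (a (f (c e)))))))))), t false 1 (f (a (b (a (c (b (d (c (f (a e)))))))))), t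
  true 1 (f (a (b (a (f (c (b (d (c (a e)))))))))), t false 1 (f (a (b (c (b (d (a (f (a (c
  e))))))))))])) nil nil nil (hit [t false 1 (a (f (b (a (c (b (d (c (a e))))))))), t true 1 (b (a
  (f (b (a (c (b (d (c e))))))))), t false 1 (b (a (f (b (c (b (d (c (a e))))))))), t true 1 (b (c
  (a (f (a (b (a (d (c e))))))))), t true 1 (b (d (a (f (b (a (c (b (d e))))))))), t true 1 (b (d (c
  (a (f (a (b (a (d e))))))))), t true 1 (b (f (b (a (c (b (d (c (f e))))))))), t false 1 (b (f (b
  (c (b (d (c (a (f e))))))))), t false 1 (c (a (f (a (b (a (d (c (a e))))))))), t false 1 (d (a (f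
  (b (a (c (b (d (a e))))))))), t false 1 (d (a (f (b (c (b (d (a (c e))))))))), t false 1 (d (c (a
  (f (a (b (a (d (a e))))))))), t false 1 (f (b (a (c (b (d (c (f (a e))))))))), t false 1 (f (b (c
  (b (d (a (f (a (c e)))))))))])) nil nil nil) nil nil) (br (br nil nil nil nil (hit [t false 1 (a
  (f (a (c (d (c (a (f e)))))))), t true 1 (c (a (f (a (d (c (a (f e)))))))), t false 1 (c (d (a (f
  (a (c (a (f e)))))))), t false 1 (d (a (f (a (c (d (a (f e)))))))), t true 1 (d (c (a (f (a (d (a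
  (f e))))))))])) (br (br nil nil nil nil (hit [t false 1 (a (b (f (a (c (d (c (a (f e))))))))), t
  false 1 (b (c (d (f (a (b (a (f (c e))))))))), t true 1 (b (c (f (a (b (a (f (d (c e))))))))), t
  true 1 (b (d (c (f (a (b (a (f (d e))))))))), t false 1 (b (d (f (a (b (a (f (c (d e))))))))), t
  true 1 (b (f (a (b (a (c (d (c (f e))))))))), t false 1 (b (f (a (b (a (f (c (d (c e))))))))), t
  false 1 (b (f (a (b (c (d (c (a (f e))))))))), t true 1 (c (a (b (f (a (d (c (a (f e))))))))), t
  true 1 (c (b (f (a (b (d (c (a (f e))))))))), t false 1 (c (d (a (b (f (a (c (a (f e))))))))), t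
  false 1 (c (d (b (f (a (b (c (a (f e))))))))), t true 1 (c (d (f (a (b (a (f (c (a e))))))))), t
  false 1 (c (f (a (b (a (f (d (c (a e))))))))), t false 1 (d (a (b (f (a (c (d (a (f e))))))))), t
  false 1 (d (b (f (a (b (c (d (a (f e))))))))), t true 1 (d (c (a (b (f (a (d (a (f e))))))))), t
  true 1 (d (c (b (f (a (b (d (a (f e))))))))), t false 1 (d (c (f (a (b (a (f (d (a e))))))))), t
  true 1 (d (f (a (b (a (f (c (d (a e))))))))), t false 1 (f (a (b (a (c (d (c (f (a e))))))))), t
  true 1 (f (a (b (a (f (c (d (c (a e)))))))))])) nil nil nil nil) nil nil nil) nil nil) nil) (br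
  (br nil (br (br nil nil nil nil (hit [t true 1 (b (d (f (a (b (a (d (f e)))))))), t false 1 (d (f
  (a (b (a (d (a (f e))))))))])) nil (br (br nil nil nil nil (hit [t true 1 (b (d (f (a (c (b (a (d
  (f e))))))))), t true 1 (c (b (d (f (a (c (a (d (f e))))))))), t false 1 (d (f (a (c (b (a (d (a
  (f e)))))))))])) (br nil nil nil nil (hit [t true 1 (a (d (f (a (b (c (b (a (f e))))))))), t false
  1 (b (a (d (f (a (c (b (a (f e))))))))), t true 1 (b (c (a (d (f (a (b (a (f e))))))))), t true 1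
  (c (a (d (f (a (b (c (a (f e))))))))), t false 1 (c (b (a (d (f (a (c (a (f e))))))))), t true 1
  (d (f (a (b (c (b (d (a (f e))))))))), t false 1 (d (f (b (c (b (a (d (a (f e))))))))), t false 1
  (f (a (b (c (b (d (a (f (a e)))))))))])) nil nil nil) nil nil) (br (br nil (br (br nil nil nil nil
  (hit [t false 1 (b (c (d (f (a (b (a (c (d (f e)))))))))), t true 1 (c (d (f (a (b (a (c (a (d (f
  e)))))))))), t false 1 (d (f (a (b (a (c (a (d (a (f e))))))))))])) nil nil nil nil) nil nil (hit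
  [t true 1 (c (d (f (a (c (a (d (f e)))))))), t false 1 (d (f (a (c (a (d (a (f e))))))))])) (br
  (br nil nil nil nil (hit [t true 1 (b (c (d (f (a (b (a (d (f e))))))))), t true 1 (c (d (f (a (b
  (c (a (d (f e))))))))), t false 1 (d (f (a (b (c (a (d (a (f e)))))))))])) nil nil nil nil) nil
  nil nil) nil (hit [t false 1 (d (f (a (d (a (f e))))))])) (br (br nil nil (br (br nil nil nil nil
  (hit [t false 1 (b (d (f (a (c (a (b (a (f e))))))))), t true 1 (c (b (d (f (a (c (a (b (f
  e))))))))), t true 1 (c (d (f (a (c (a (b (d (f e))))))))), t false 1 (d (f (a (c (a (b (d (a (f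
  e)))))))))])) nil nil nil nil) nil (hit [t false 1 (b (d (f (a (b (a (f e))))))), t false 1 (d (f
  (a (b (d (a (f e)))))))])) nil (br (br nil nil nil nil (hit [t false 1 (b (d (f (a (c (b (a (f
  e)))))))), t false 1 (c (b (d (f (a (c (a (f e)))))))), t false 1 (d (f (a (c (b (d (a (f
  e))))))))])) (br nil nil nil (br nil (br nil nil nil nil (hit [t false 1 (a (f (a (b (d (a (c (b
  (a (d e)))))))))), t false 1 (a (f (b (a (d (b (c (b (d (a e)))))))))), t false 1 (a (f (b (d (a
  (b (c (b (a (d e)))))))))), t true 1 (b (a (f (a (d (a (c (b (a (d e)))))))))), t true 1 (b (a (f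
  (b (a (d (b (c (b (d e)))))))))), t false 1 (b (a (f (b (d (b (c (b (d (a e)))))))))), t true 1 (b
  (c (d (a (f (b (a (d (b (c e)))))))))), t true 1 (b (d (a (f (a (b (a (c (b (d e)))))))))), t true
  1 (b (d (a (f (b (a (d (b (c (b e)))))))))), t true 1 (b (f (b (a (d (b (c (b (d (f e)))))))))), t
  false 1 (b (f (b (d (b (c (b (d (a (f e)))))))))), t false 1 (c (a (f (a (b (d (a (c (a (d
  e)))))))))), t false 1 (c (a (f (b (d (a (b (c (a (d e)))))))))), t false 1 (c (a (f (b (d (b (c
  (a (b (d e)))))))))), t true 1 (c (b (a (f (a (d (a (c (a (d e)))))))))), t true 1 (c (d (a (f (b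
  (c (a (d (b (c e)))))))))), t true 1 (d (a (b (c (b (f (a (d (a (c e)))))))))), t true 1 (d (a (b
  (f (a (d (a (c (b (f e)))))))))), t false 1 (d (a (f (b (a (d (a (b (c (b e)))))))))), t false 1
  (d (a (f (b (c (a (d (a (b (c e)))))))))), t false 1 (d (a (f (b (d (a (b (c (b (d e)))))))))), t
  true 1 (d (b (a (f (a (b (d (a (c (b e)))))))))), t true 1 (d (b (a (f (b (d (a (b (c (b
  e)))))))))), t false 1 (d (b (a (f (b (d (b (c (b (a e)))))))))), t true 1 (d (b (c (a (f (a (b (d
  (a (c e)))))))))), t true 1 (d (b (c (a (f (b (d (a (b (c e)))))))))), t false 1 (d (b (c (b (a (f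
  (a (d (a (c e)))))))))), t true 1 (d (b (f (a (b (d (a (c (b (f e)))))))))), t true 1 (d (b (f (b
  (d (a (b (c (b (f e)))))))))), t false 1 (d (b (f (b (d (b (c (b (a (f e)))))))))), t false 1 (f
  (a (b (d (a (c (b (f (a (d e)))))))))), t false 1 (f (b (a (d (b (c (b (d (f (a e)))))))))), t
  true 1 (f (b (c (b (d (a (f (a (d (c e)))))))))), t false 1 (f (b (d (a (b (c (b (f (a (d
  e)))))))))), t false 1 (f (b (d (b (c (a (f (a (b (d e))))))))))])) nil nil nil) nil) nil nil nil)
  nil nil) (br (br nil (br (br nil nil (br nil nil nil nil (hit [t true 1 (b (c (d (f (a (b (a (d (c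
  (f e)))))))))), t false 1 (b (c (f (a (b (a (d (c (f (c e)))))))))), t true 1 (b (d (f (c (a (b (a
  (c (d (f e)))))))))), t true 1 (c (b (d (f (a (b (c (a (d (f e)))))))))), t false 1 (c (d (f (a (b
  (a (d (c (a (f e)))))))))), t true 1 (c (f (a (b (a (d (a (f (c (a e)))))))))), t true 1 (c (f (a
  (b (a (d (c (a (f (c e)))))))))), t true 1 (d (f (b (c (a (b (d (a (c (f e)))))))))), t false 1 (d
  (f (c (a (b (a (c (d (a (f e)))))))))), t false 1 (f (b (c (a (b (d (a (c (f (a e)))))))))), t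
  false 1 (f (b (c (a (b (d (c (f (a (c e))))))))))])) nil (hit [t true 1 (b (c (d (f (a (b (a (c (f
  e))))))))), t true 1 (b (d (f (a (b (a (c (d (f e))))))))), t false 1 (c (d (f (a (b (a (c (a (f
  e))))))))), t false 1 (d (f (a (b (a (c (d (a (f e)))))))))])) nil nil nil nil) nil nil (hit [t
  false 1 (c (d (f (a (c (a (f e))))))), t false 1 (d (f (a (c (d (a (f e)))))))])) (br (br nil nil
  nil nil (hit [t false 1 (b (c (d (f (a (b (a (f e)))))))), t false 1 (c (d (f (a (b (c (a (f
  e)))))))), t false 1 (d (f (a (b (c (d (a (f e))))))))])) nil nil nil nil) nil nil nil) nil nil)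
  nil) (br (br nil nil (br (br nil nil nil (br (br nil nil nil nil (hit [t true 1 (b (f (a (d (a (c
  (a (b (a e))))))))), t false 1 (c (b (f (a (d (a (c (a (b e))))))))), t false 1 (c (f (a (d (a (c
  (a (b (f e))))))))), t true 1 (d (c (b (f (a (d (a (c (b e))))))))), t true 1 (d (c (f (a (d (a (c
  (b (f e)))))))))])) nil nil nil nil) (hit [t true 1 (b (f (a (c (a (b (a e))))))), t false 1 (c (b
  (f (a (c (a (b e))))))), t false 1 (c (f (a (c (a (b (f e)))))))])) (br nil nil nil (br (br nil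
  nil nil nil (hit [t true 1 (b (c (b (d (f (a (d (a (b e))))))))), t true 1 (b (c (d (f (a (d (a (b
  (a e))))))))), t true 1 (b (c (f (a (d (a (b (a (f e))))))))), t false 1 (b (d (f (a (d (c (a (b
  (a e))))))))), t true 1 (c (b (d (f (a (d (c (a (b e))))))))), t true 1 (c (d (f (a (b (c (a (b (d
  e))))))))), t false 1 (c (d (f (a (d (b (c (a (b e))))))))), t true 1 (c (f (a (b (c (a (b (d (f
  e))))))))), t false 1 (c (f (a (d (b (c (a (b (f e))))))))), t false 1 (d (b (c (b (f (a (d (a (b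
  e))))))))), t false 1 (d (b (c (f (a (d (a (b (f e))))))))), t false 1 (d (f (a (b (c (a (b (d (a
  e))))))))), t true 1 (d (f (a (d (b (c (a (b (a e))))))))), t false 1 (f (a (b (c (a (b (d (f (a
  e)))))))))])) nil nil nil nil) nil) nil (br (br nil nil nil nil (hit [t true 1 (b (f (a (d (c (a
  (b (a e)))))))), t false 1 (c (b (f (a (d (c (a (b e)))))))), t false 1 (c (f (a (d (c (a (b (f
  e)))))))), t false 1 (d (c (b (f (a (d (a (b e)))))))), t false 1 (d (c (f (a (d (a (b (f
  e))))))))])) nil nil nil nil) nil) (br (br nil (br nil nil (br (br nil nil nil nil (hit [t false 1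
  (b (c (f (a (c (a (d (a (b (a e)))))))))), t false 1 (b (d (b (c (f (a (c (a (d (b e)))))))))), t
  false 1 (b (d (c (f (a (b (a (d (b (c e)))))))))), t true 1 (b (d (c (f (a (c (b (a (d (b
  e)))))))))), t false 1 (b (d (f (a (b (a (d (b (c (f e)))))))))), t true 1 (b (d (f (a (c (b (a (d
  (b (f e)))))))))), t true 1 (c (b (d (b (f (a (c (a (d (b e)))))))))), t true 1 (c (b (d (f (a (c
  (a (d (b (f e)))))))))), t false 1 (c (f (a (b (a (d (a (b (c (a e)))))))))), t true 1 (c (f (a (c
  (b (a (d (a (b (a e)))))))))), t true 1 (d (b (c (f (a (c (a (d (a (b e)))))))))), t true 1 (d (c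
  (f (a (b (a (d (a (b (c e)))))))))), t false 1 (d (c (f (a (c (b (a (d (a (b e)))))))))), t true 1
  (d (f (a (b (a (d (a (b (c (f e)))))))))), t false 1 (d (f (a (c (b (a (d (a (b (f e)))))))))), t
  false 1 (f (a (b (a (d (a (b (c (f (a e))))))))))])) nil nil nil nil) nil nil) (br (br nil nil nil
  nil (hit [t true 1 (b (f (a (c (a (d (a (b (a e))))))))), t true 1 (c (d (b (f (a (c (a (d (b
  e))))))))), t true 1 (c (d (f (a (c (a (d (b (f e))))))))), t false 1 (d (b (f (a (c (a (d (a (b
  e))))))))), t false 1 (d (f (a (c (a (d (a (b (f e)))))))))])) nil nil nil nil) nil (hit [t true 1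
  (b (f (a (d (a (b (a e))))))), t false 1 (d (b (f (a (d (a (b e))))))), t false 1 (d (f (a (d (a
  (b (f e)))))))])) (br nil nil (br (br nil nil nil nil (hit [t false 1 (b (c (f (a (c (d (a (b (a
  e))))))))), t true 1 (b (d (b (c (f (a (c (a (b e))))))))), t true 1 (b (d (c (f (a (c (a (b (a
  e))))))))), t true 1 (b (d (f (a (c (a (b (a (f e))))))))), t false 1 (c (b (d (b (f (a (c (a (b
  e))))))))), t false 1 (c (b (d (f (a (c (a (b (f e))))))))), t false 1 (c (f (a (b (d (a (b (c (a
  e))))))))), t true 1 (c (f (a (c (b (d (a (b (a e))))))))), t true 1 (d (b (c (f (a (c (d (a (b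
  e))))))))), t true 1 (d (c (f (a (b (d (a (b (c e))))))))), t false 1 (d (c (f (a (c (b (d (a (b
  e))))))))), t true 1 (d (f (a (b (d (a (b (c (f e))))))))), t false 1 (d (f (a (c (b (d (a (b (f
  e))))))))), t false 1 (f (a (b (d (a (b (c (f (a e)))))))))])) nil nil nil nil) nil nil) (br (br
  nil nil nil nil (hit [t true 1 (b (f (a (c (d (a (b (a e)))))))), t false 1 (c (d (b (f (a (c (a
  (b e)))))))), t false 1 (c (d (f (a (c (a (b (f e)))))))), t false 1 (d (b (f (a (c (d (a (b
  e)))))))), t false 1 (d (f (a (c (d (a (b (f e))))))))])) nil nil nil nil) nil nil) nil) nil (br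
  (br nil nil nil (br (br nil nil (br (br nil nil nil nil (hit [t false 1 (b (c (d (c (f (a (b (a (d
  (c e)))))))))), t false 1 (b (c (d (f (a (b (a (d (c (f e)))))))))), t false 1 (b (f (a (b (c (a
  (d (a (c (a e)))))))))), t true 1 (b (f (a (c (a (d (a (c (b (a e)))))))))), t true 1 (c (b (f (a
  (b (a (d (a (c (a e)))))))))), t false 1 (c (d (b (f (a (b (c (a (d (c e)))))))))), t true 1 (c (d
  (b (f (a (c (a (d (c (b e)))))))))), t true 1 (c (d (c (b (f (a (b (a (d (c e)))))))))), t false 1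
  (c (d (f (a (b (c (a (d (c (f e)))))))))), t true 1 (c (d (f (a (c (a (d (c (b (f e)))))))))), t
  true 1 (d (b (f (a (b (c (a (d (a (c e)))))))))), t false 1 (d (b (f (a (c (a (d (a (c (b
  e)))))))))), t false 1 (d (c (b (f (a (b (a (d (a (c e)))))))))), t true 1 (d (f (a (b (c (a (d (a
  (c (f e)))))))))), t false 1 (d (f (a (c (a (d (a (c (b (f e)))))))))), t false 1 (f (a (b (c (a
  (d (a (c (f (a e))))))))))])) nil nil nil nil) nil (hit [t true 1 (b (f (a (d (a (c (b (a
  e)))))))), t true 1 (c (b (f (a (d (a (c (a e)))))))), t false 1 (d (b (f (a (d (a (c (b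
  e)))))))), t false 1 (d (c (b (f (a (d (a (c e)))))))), t false 1 (d (f (a (d (a (c (b (f
  e))))))))])) nil (br (br nil nil nil nil (hit [t true 1 (b (c (d (c (f (a (b (a (c e))))))))), t
  true 1 (b (c (d (f (a (b (a (c (f e))))))))), t false 1 (b (f (a (b (c (d (a (c (a e))))))))), t
  true 1 (b (f (a (c (d (a (c (b (a e))))))))), t true 1 (c (b (f (a (b (d (a (c (a e))))))))), t
  false 1 (c (d (b (f (a (b (a (c (a e))))))))), t false 1 (c (d (c (b (f (a (b (a (c e))))))))), t
  false 1 (c (d (f (a (b (a (c (a (f e))))))))), t true 1 (d (b (f (a (b (c (d (a (c e))))))))), t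
  false 1 (d (b (f (a (c (d (a (c (b e))))))))), t false 1 (d (c (b (f (a (b (d (a (c e))))))))), t
  true 1 (d (f (a (b (c (d (a (c (f e))))))))), t false 1 (d (f (a (c (d (a (c (b (f e))))))))), t
  false 1 (f (a (b (c (d (a (c (f (a e)))))))))])) nil nil nil nil) nil nil) nil) nil nil (br (br
  nil nil (br (br nil nil nil nil (hit [t true 1 (b (c (d (c (f (a (b (a (d e))))))))), t true 1 (b
  (c (f (a (b (a (d (c (f e))))))))), t false 1 (b (f (a (b (c (a (d (c (a e))))))))), t true 1 (b
  (f (a (c (a (d (c (b (a e))))))))), t true 1 (c (b (f (a (b (a (d (c (a e))))))))), t true 1 (c (b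
  (f (a (b (c (a (d (c e))))))))), t false 1 (c (b (f (a (c (a (d (c (b e))))))))), t true 1 (c (d
  (b (f (a (b (c (a (d e))))))))), t false 1 (c (d (c (b (f (a (b (a (d e))))))))), t true 1 (c (f
  (a (b (c (a (d (c (f e))))))))), t false 1 (c (f (a (c (a (d (c (b (f e))))))))), t false 1 (d (b
  (f (a (b (c (a (d (a e))))))))), t true 1 (d (c (b (f (a (b (a (d (a e))))))))), t false 1 (f (a
  (b (c (a (d (c (f (a e)))))))))])) nil nil nil nil) nil nil) nil nil nil nil) nil) (br (br nil (br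
  nil nil (br (br nil nil nil nil (hit [t true 1 (b (c (f (a (b (a (d (b (c e))))))))), t false 1 (b
  (c (f (a (c (a (d (b (a e))))))))), t false 1 (b (c (f (a (c (b (a (d (b e))))))))), t true 1 (b
  (d (b (c (f (a (c (a (d e))))))))), t false 1 (b (d (c (f (a (c (b (a (d e))))))))), t true 1 (b
  (f (a (b (a (d (b (c (f e))))))))), t false 1 (b (f (a (c (b (a (d (b (f e))))))))), t false 1 (c
  (b (d (b (f (a (c (a (d e))))))))), t false 1 (c (b (f (a (c (a (d (b (f e))))))))), t false 1 (c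
  (f (a (b (a (d (b (c (a e))))))))), t true 1 (c (f (a (c (b (a (d (b (a e))))))))), t false 1 (d
  (b (c (f (a (c (a (d (a e))))))))), t true 1 (d (c (f (a (c (b (a (d (a e))))))))), t false 1 (f
  (a (b (a (d (b (c (f (a e)))))))))])) nil nil nil nil) nil nil) (br (br nil nil nil nil (hit [t
  true 1 (b (f (a (c (a (d (b (a e)))))))), t false 1 (c (b (f (a (c (a (d (b e)))))))), t false 1
  (c (d (b (f (a (c (a (d e)))))))), t false 1 (c (f (a (c (a (d (b (f e)))))))), t true 1 (d (b (f
  (a (c (a (d (a e))))))))])) nil nil nil nil) nil nil) nil (br (br nil (br (br nil nil (br nil nil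
  nil nil (hit [t true 1 (a (f (b (a (c (b (d (b (c (a e)))))))))), t true 1 (a (f (c (a (b (a (c (d
  (b (a e)))))))))), t false 1 (b (a (f (b (a (c (b (d (b (c e)))))))))), t true 1 (b (a (f (b (c (b
  (d (b (c (a e)))))))))), t false 1 (b (a (f (c (a (b (a (c (d (b e)))))))))), t false 1 (b (c (a
  (f (a (b (a (d (b (c e)))))))))), t true 1 (b (c (a (f (a (c (a (d (b (a e)))))))))), t true 1 (b
  (c (a (f (a (c (b (a (d (b e)))))))))), t false 1 (b (d (a (f (c (a (b (a (c (d e)))))))))), t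
  false 1 (b (d (b (c (a (f (a (c (a (d e)))))))))), t true 1 (b (d (c (a (f (a (c (b (a (d
  e)))))))))), t false 1 (b (f (b (a (c (b (d (b (c (f e)))))))))), t true 1 (b (f (b (c (b (d (b (c
  (a (f e)))))))))), t false 1 (b (f (c (a (b (a (c (d (b (f e)))))))))), t true 1 (c (a (f (a (b (a
  (d (b (c (a e)))))))))), t false 1 (c (a (f (a (c (b (a (d (b (a e)))))))))), t false 1 (c (b (a
  (f (a (b (c (a (d (b e)))))))))), t false 1 (c (b (a (f (b (c (a (b (d (b e)))))))))), t true 1 (c
  (b (a (f (b (c (b (d (b (a e)))))))))), t false 1 (c (b (d (a (f (a (b (c (a (d e)))))))))), t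
  false 1 (c (b (d (a (f (b (c (a (b (d e)))))))))), t true 1 (c (b (d (b (a (f (a (c (a (d
  e)))))))))), t false 1 (c (b (f (a (b (c (a (d (b (f e)))))))))), t false 1 (c (b (f (b (c (a (b
  (d (b (f e)))))))))), t true 1 (c (b (f (b (c (b (d (b (a (f e)))))))))), t true 1 (d (a (f (b (c
  (b (d (a (b (c e)))))))))), t true 1 (d (a (f (c (a (b (a (c (d (a e)))))))))), t true 1 (d (b (c
  (a (f (a (c (a (d (a e)))))))))), t false 1 (d (c (a (f (a (c (b (a (d (a e)))))))))), t true 1 (f
  (b (a (c (b (d (b (c (f (a e)))))))))), t true 1 (f (b (c (b (d (a (f (a (b (c e)))))))))), t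
  false 1 (f (b (c (b (d (b (c (a (f (a e))))))))))])) nil nil) nil nil nil nil) nil nil nil) nil
  nil nil nil) nil nil) nil) (br (br nil (br (br nil nil (br (br nil nil nil nil (hit [t false 1 (b
  (f (a (c (a (b (a (c (f e))))))))), t true 1 (c (a (b (f (a (c (a (b (f e))))))))), t false 1 (f
  (a (b (c (a (b (f (a (c e)))))))))])) nil nil nil (hit [t false 1 (b (c (f (a (b (a (f (c
  e)))))))), t false 1 (b (f (c (a (b (a (c (f e)))))))), t false 1 (c (b (f (a (b (c (a (f
  e)))))))), t true 1 (c (f (a (b (a (f (c (a e)))))))), t false 1 (f (b (c (a (b (f (a (c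
  e))))))))])) (br (br nil nil nil nil (hit [t false 1 (b (c (f (a (d (a (b (a (c e))))))))), t
  false 1 (b (f (a (d (a (b (a (c (f e))))))))), t true 1 (c (f (a (d (a (b (a (c (a e))))))))), t
  true 1 (d (b (c (f (a (d (a (b (c e))))))))), t true 1 (d (b (f (a (d (a (b (c (f e)))))))))]))
  nil nil nil nil) (hit [t false 1 (b (c (f (a (b (a (c e))))))), t false 1 (b (f (a (b (a (c (f
  e))))))), t true 1 (c (f (a (b (a (c (a e)))))))])) nil nil (br (br nil nil nil nil (hit [t false
  1 (b (c (f (a (d (b (a (c e)))))))), t false 1 (b (f (a (d (b (a (c (f e)))))))), t true 1 (c (f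
  (a (d (b (a (c (a e)))))))), t false 1 (d (b (c (f (a (d (a (c e)))))))), t false 1 (d (b (f (a (d
  (a (c (f e))))))))])) nil nil nil nil) nil) nil (br (br nil (br (br nil nil nil nil (hit [t true 1
  (b (d (c (f (a (b (a (d (c e))))))))), t true 1 (b (d (f (a (b (a (d (c (f e))))))))), t true 1 (c
  (f (a (b (a (d (a (c (a e))))))))), t false 1 (d (c (f (a (b (a (d (a (c e))))))))), t false 1 (d
  (f (a (b (a (d (a (c (f e)))))))))])) nil nil nil nil) nil nil (hit [t true 1 (c (f (a (d (a (c (a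
  e))))))), t false 1 (d (c (f (a (d (a (c e))))))), t false 1 (d (f (a (d (a (c (f e)))))))])) (br
  (br nil nil nil nil (hit [t false 1 (b (d (c (f (a (b (a (c e)))))))), t false 1 (b (d (f (a (b (a
  (c (f e)))))))), t true 1 (c (f (a (b (d (a (c (a e)))))))), t false 1 (d (c (f (a (b (d (a (c
  e)))))))), t false 1 (d (f (a (b (d (a (c (f e))))))))])) nil nil nil nil) nil nil nil) nil) (br
  (br nil nil nil (br (br nil nil nil nil (hit [t true 1 (b (c (f (a (d (a (b (a e)))))))), t true 1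
  (c (f (a (d (a (b (c (a e)))))))), t false 1 (d (b (c (f (a (d (a (b e)))))))), t false 1 (d (c (f
  (a (d (a (b (c e)))))))), t false 1 (d (f (a (d (a (b (c (f e))))))))])) nil nil nil nil) nil) nil
  nil nil nil) nil (br (br nil (br (br nil nil nil (br (br nil nil nil nil (hit [t false 1 (b (c (f
  (a (d (a (b (a (d (c e)))))))))), t false 1 (b (f (a (d (a (b (a (d (c (f e)))))))))), t false 1
  (c (f (a (b (d (a (b (c (a (d e)))))))))), t true 1 (c (f (a (d (a (b (a (d (c (a e)))))))))), t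
  true 1 (d (a (b (c (f (a (d (a (b (c e)))))))))), t true 1 (d (a (b (f (a (d (a (b (c (f
  e)))))))))), t false 1 (f (a (b (d (a (b (c (f (a (d e))))))))))])) nil nil nil nil) (hit [t false
  1 (b (c (f (a (b (a (d (c e)))))))), t false 1 (b (d (c (f (a (b (a (d e)))))))), t false 1 (b (f
  (a (b (a (d (c (f e)))))))), t true 1 (c (f (a (b (a (d (c (a e)))))))), t true 1 (d (c (f (a (b
  (a (d (a e))))))))])) nil nil nil nil) nil nil nil) nil nil nil nil) nil) (br (br nil (br (br nil
  nil (br (br nil nil nil nil (hit [t false 1 (b (d (f (a (c (a (b (a (d e))))))))), t false 1 (b (f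
  (a (c (a (b (a (d (f e))))))))), t true 1 (c (b (d (f (a (c (a (b (d e))))))))), t true 1 (c (b (f
  (a (c (a (b (d (f e))))))))), t true 1 (d (f (a (c (a (b (a (d (a e)))))))))])) nil nil nil nil)
  (br (br nil nil (br nil nil nil nil (hit [t true 1 (a (f (c (a (b (d (a (b (a (d e)))))))))), t
  false 1 (b (a (f (c (a (d (a (b (a (d e)))))))))), t false 1 (b (c (a (d (a (b (a (d (f (c
  e)))))))))), t false 1 (b (c (a (f (c (d (a (b (a (d e)))))))))), t false 1 (b (d (a (b (a (c (b
  (f (c (d e)))))))))), t true 1 (b (d (a (b (a (d (c (b (f (c e)))))))))), t true 1 (b (d (b (c (b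
  (a (f (c (a (d e)))))))))), t true 1 (b (d (c (a (f (c (a (b (a (d e)))))))))), t false 1 (b (f (c
  (a (d (a (b (a (d (f e)))))))))), t true 1 (c (a (d (a (b (a (d (f (c (a e)))))))))), t true 1 (c
  (a (f (b (d (b (c (a (b (d e)))))))))), t true 1 (c (a (f (c (b (d (a (b (a (d e)))))))))), t true
  1 (d (a (b (a (c (b (f (c (d (a e)))))))))), t false 1 (d (a (b (a (d (c (b (f (c (a e)))))))))),
  t false 1 (d (b (a (f (a (b (d (a (c (b e)))))))))), t false 1 (d (b (a (f (b (d (a (b (c (b
  e)))))))))), t true 1 (d (b (a (f (b (d (b (c (b (a e)))))))))), t false 1 (d (b (c (a (f (a (b (d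
  (a (c e)))))))))), t false 1 (d (b (c (a (f (b (d (a (b (c e)))))))))), t true 1 (d (b (c (b (a (f
  (a (d (a (c e)))))))))), t false 1 (d (b (c (b (a (f (c (a (d (a e)))))))))), t false 1 (d (b (f
  (a (b (d (a (c (b (f e)))))))))), t false 1 (d (b (f (b (d (a (b (c (b (f e)))))))))), t true 1 (d
  (b (f (b (d (b (c (b (a (f e)))))))))), t false 1 (d (c (a (f (c (a (b (a (d (a e)))))))))), t
  true 1 (f (b (d (b (c (a (f (a (b (d e))))))))))])) nil (hit [t false 1 (b (f (a (d (a (b (a (d (f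
  e))))))))), t true 1 (d (a (b (f (a (d (a (b (f e))))))))), t false 1 (f (a (b (d (a (b (f (a (d
  e)))))))))])) nil (br (br nil nil nil nil (hit [t false 1 (b (c (f (a (c (d (a (b (a (d
  e)))))))))), t true 1 (b (d (b (c (f (a (c (a (b (d e)))))))))), t true 1 (b (d (c (f (a (c (a (b
  (a (d e)))))))))), t false 1 (b (f (a (c (d (a (b (a (d (f e)))))))))), t false 1 (c (b (d (b (f
  (a (c (a (b (d e)))))))))), t true 1 (c (d (b (f (a (c (a (b (d (f e)))))))))), t false 1 (c (f (a
  (b (d (a (b (c (a (d e)))))))))), t true 1 (c (f (a (c (b (d (a (b (a (d e)))))))))), t true 1 (d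
  (a (b (c (f (a (d (a (b (c e)))))))))), t true 1 (d (a (b (f (a (d (a (b (c (f e)))))))))), t true
  1 (d (b (c (f (a (b (d (a (b (c e)))))))))), t false 1 (d (b (c (f (a (c (a (b (d (a e)))))))))),
  t false 1 (d (b (c (f (a (c (b (d (a (b e)))))))))), t true 1 (d (b (f (a (b (d (a (b (c (f
  e)))))))))), t false 1 (d (b (f (a (c (a (b (d (a (f e)))))))))), t false 1 (d (b (f (a (c (b (d
  (a (b (f e)))))))))), t false 1 (d (c (f (a (c (a (b (a (d (a e)))))))))), t false 1 (f (a (b (d
  (a (b (c (f (a (d e))))))))))])) nil nil nil (hit [t false 1 (b (c (d (a (b (a (d (f (c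
  e))))))))), t false 1 (b (c (f (c (d (a (b (a (d e))))))))), t false 1 (b (d (a (b (a (c (f (c (d
  e))))))))), t true 1 (b (d (a (b (a (d (c (f (c e))))))))), t false 1 (b (d (c (f (a (b (a (c (d
  e))))))))), t true 1 (b (d (c (f (c (a (b (a (d e))))))))), t false 1 (b (d (f (a (b (a (c (f (d
  e))))))))), t false 1 (b (f (c (d (a (b (a (d (f e))))))))), t true 1 (c (d (a (b (a (d (f (c (a
  e))))))))), t false 1 (c (f (b (d (a (b (c (a (d e))))))))), t true 1 (c (f (c (b (d (a (b (a (d
  e))))))))), t true 1 (d (a (b (a (c (f (c (d (a e))))))))), t false 1 (d (a (b (a (d (c (f (c (a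
  e))))))))), t false 1 (d (b (c (f (a (b (d (a (c e))))))))), t false 1 (d (b (f (a (b (d (a (c (f
  e))))))))), t true 1 (d (c (f (a (b (a (c (d (a e))))))))), t false 1 (d (c (f (c (a (b (a (d (a
  e))))))))), t true 1 (d (f (a (b (a (c (f (d (a e))))))))), t false 1 (f (b (d (a (b (c (f (a (d
  e)))))))))])) nil (hit [t false 1 (b (d (f (a (b (a (f (d e)))))))), t false 1 (b (f (d (a (b (a
  (d (f e)))))))), t false 1 (d (b (f (a (b (d (a (f e)))))))), t true 1 (d (f (a (b (a (f (d (a
  e)))))))), t false 1 (f (b (d (a (b (f (a (d e))))))))])) (hit [t false 1 (b (d (f (a (b (a (d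
  e))))))), t false 1 (b (f (a (b (a (d (f e))))))), t true 1 (d (f (a (b (a (d (a e)))))))])) nil
  (br (br nil nil nil nil (hit [t false 1 (b (d (f (a (c (b (a (d e)))))))), t false 1 (b (f (a (c
  (b (a (d (f e)))))))), t false 1 (c (b (d (f (a (c (a (d e)))))))), t false 1 (c (b (f (a (c (a (d
  (f e)))))))), t true 1 (d (f (a (c (b (a (d (a e))))))))])) nil nil nil nil) nil nil) (br (br nil
  (br (br nil nil nil (br nil nil nil nil (hit [t true 1 (b (c (d (f (a (b (a (f (c (d e)))))))))),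
  t true 1 (b (c (f (d (a (b (a (c (d (f e)))))))))), t true 1 (b (f (c (d (a (b (a (c (f (d
  e)))))))))), t true 1 (c (d (b (f (a (b (c (a (f (d e)))))))))), t false 1 (c (d (f (a (b (a (f (c
  (a (d e)))))))))), t false 1 (c (f (d (a (b (a (c (a (d (f e)))))))))), t true 1 (d (b (c (f (a (b
  (c (d (a (f e)))))))))), t false 1 (d (b (f (a (b (c (a (f (d (a e)))))))))), t true 1 (d (f (a (b
  (a (f (c (a (d (a e)))))))))), t true 1 (f (b (c (d (a (b (f (a (c (d e)))))))))), t false 1 (f (c
  (d (a (b (a (c (f (a (d e))))))))))])) (hit [t true 1 (b (c (d (f (a (b (a (c (d e))))))))), t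
  true 1 (b (c (f (a (b (a (c (d (f e))))))))), t false 1 (c (d (f (a (b (a (c (a (d e))))))))), t
  false 1 (c (f (a (b (a (c (a (d (f e))))))))), t true 1 (d (f (a (b (a (c (a (d (a e)))))))))]))
  nil nil nil nil) nil (br (br nil (br nil nil nil nil (hit [t true 1 (a (c (d (a (b (c (f (b (a (d
  e)))))))))), t false 1 (a (d (a (b (c (a (d (f (b (a e)))))))))), t false 1 (b (a (c (d (a (c (f
  (b (a (d e)))))))))), t true 1 (b (a (d (a (c (a (d (f (b (a e)))))))))), t true 1 (c (a (d (a (b
  (c (a (d (f (b e)))))))))), t false 1 (c (b (a (d (a (c (a (d (f (b e)))))))))), t true 1 (c (d (a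
  (b (c (a (b (f (b (d e)))))))))), t false 1 (c (d (a (b (c (a (d (b (f (b e)))))))))), t false 1
  (c (d (a (b (c (b (f (b (a (d e)))))))))), t false 1 (c (f (b (a (d (a (c (a (d (f e)))))))))), t
  false 1 (d (a (b (c (a (b (f (b (d (a e)))))))))), t true 1 (d (a (b (c (a (d (b (f (b (a
  e)))))))))), t false 1 (d (a (b (c (b (f (a (d (a (b e)))))))))), t true 1 (d (a (b (c (b (f (b (a
  (d (a e)))))))))), t true 1 (d (a (c (f (a (d (a (b (c (f e)))))))))), t false 1 (f (b (a (c (d (a
  (c (f (a (d e))))))))))])) nil nil (hit [t false 1 (c (f (a (d (a (c (a (d (f e))))))))), t true 1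
  (d (a (c (f (a (d (a (c (f e))))))))), t false 1 (f (a (c (d (a (c (f (a (d e)))))))))])) (br (br
  nil nil nil nil (hit [t true 1 (b (c (d (f (a (b (a (c (f (d e)))))))))), t true 1 (b (d (c (f (a
  (b (a (c (d (f e)))))))))), t false 1 (c (d (f (a (b (a (c (a (f (d e)))))))))), t false 1 (c (f
  (a (b (d (a (c (a (d (f e)))))))))), t true 1 (d (a (b (c (f (a (d (a (c (f e)))))))))), t true 1
  (d (b (c (f (a (b (d (a (c (f e)))))))))), t false 1 (d (c (f (a (b (a (c (d (a (f e)))))))))), t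
  true 1 (d (f (a (b (a (c (a (f (d (a e)))))))))), t false 1 (f (a (b (c (d (a (c (f (a (d
  e))))))))))])) nil nil nil (hit [t false 1 (b (c (d (a (c (f (b (a (d e))))))))), t true 1 (b (d
  (a (c (a (d (f (b (a e))))))))), t false 1 (c (b (d (a (c (a (d (f (b e))))))))), t false 1 (c (d
  (a (b (f (b (c (a (d e))))))))), t false 1 (c (d (a (c (a (b (f (b (d e))))))))), t true 1 (c (d
  (a (c (a (d (b (f (b e))))))))), t true 1 (c (d (a (c (b (f (b (a (d e))))))))), t false 1 (c (d
  (b (f (a (c (a (b (d e))))))))), t true 1 (c (d (b (f (b (a (c (a (d e))))))))), t false 1 (c (d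
  (f (a (c (a (b (f (d e))))))))), t false 1 (c (f (b (d (a (c (a (d (f e))))))))), t true 1 (d (a
  (b (f (b (c (a (d (a e))))))))), t true 1 (d (a (c (a (b (f (b (d (a e))))))))), t false 1 (d (a
  (c (a (d (b (f (b (a e))))))))), t false 1 (d (a (c (b (f (b (a (d (a e))))))))), t true 1 (d (b
  (f (a (c (a (b (d (a e))))))))), t false 1 (d (b (f (b (a (c (a (d (a e))))))))), t false 1 (d (c
  (b (f (a (c (d (a (b e))))))))), t false 1 (d (c (f (a (c (d (a (b (f e))))))))), t true 1 (d (f
  (a (c (a (b (f (d (a e))))))))), t false 1 (f (b (c (d (a (c (f (a (d e)))))))))])) nil nil nil)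
  (hit [t false 1 (c (d (f (a (c (a (d e))))))), t false 1 (c (f (a (c (a (d (f e))))))), t true 1
  (d (f (a (c (a (d (a e)))))))])) (br (br nil nil nil (br (br nil nil nil nil (hit [t false 1 (b (c
  (f (a (d (a (b (a (d (f e)))))))))), t false 1 (c (f (a (d (a (b (c (a (d (f e)))))))))), t true 1
  (d (a (b (c (f (a (d (a (b (f e)))))))))), t true 1 (d (a (c (f (a (d (a (b (c (f e)))))))))), t
  false 1 (f (a (b (c (d (a (b (f (a (d e)))))))))), t false 1 (f (a (c (d (a (b (c (f (a (d
  e))))))))))])) nil nil nil nil) (hit [t false 1 (b (c (d (f (a (b (a (d e)))))))), t false 1 (b (c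
  (f (a (b (a (d (f e)))))))), t false 1 (c (d (f (a (b (c (a (d e)))))))), t false 1 (c (f (a (b (c
  (a (d (f e)))))))), t true 1 (d (f (a (b (c (a (d (a e))))))))])) nil nil nil nil) nil nil nil)
  nil nil) (br (br nil nil (br (br nil nil nil (br nil nil nil nil (hit [t false 1 (b (d (c (f (a (c
  (b (a (f e))))))))), t true 1 (b (d (f (a (c (a (f (b (a e))))))))), t false 1 (c (b (d (f (a (c
  (a (f (b e))))))))), t false 1 (c (d (f (a (c (a (f (b (d e))))))))), t false 1 (c (f (b (d (a (c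
  (a (b (f e))))))))), t false 1 (c (f (d (a (c (a (b (d (f e))))))))), t false 1 (d (c (f (a (c (b
  (d (a (f e))))))))), t true 1 (d (f (a (c (a (f (b (d (a e))))))))), t true 1 (f (b (d (a (c (a (b
  (f (a e))))))))), t false 1 (f (c (b (d (a (c (f (a (b e))))))))), t false 1 (f (c (d (a (c (f (a
  (b (d e)))))))))])) (hit [t true 1 (b (d (f (a (c (a (b (a e)))))))), t false 1 (c (b (d (f (a (c
  (a (b e)))))))), t false 1 (c (d (f (a (c (a (b (d e)))))))), t false 1 (c (f (a (c (a (b (d (f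
  e)))))))), t true 1 (d (f (a (c (a (b (d (a e))))))))])) nil nil nil nil) nil nil) nil nil nil
  nil) (br (br nil (br (br nil nil (br (br nil nil nil nil (hit [t false 1 (b (d (f (a (c (a (b (a
  (c (d e)))))))))), t false 1 (b (f (a (c (a (b (a (c (d (f e)))))))))), t true 1 (c (a (b (d (f (a
  (c (a (b (d e)))))))))), t true 1 (c (a (b (f (a (c (a (b (d (f e)))))))))), t false 1 (d (f (a (b
  (c (a (b (d (a (c e)))))))))), t true 1 (d (f (a (c (a (b (a (c (d (a e)))))))))), t false 1 (f (a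
  (b (c (a (b (d (f (a (c e))))))))))])) nil nil nil (hit [t false 1 (b (c (d (f (a (b (a (d (c
  e))))))))), t false 1 (b (c (f (a (b (a (d (f (c e))))))))), t false 1 (b (d (f (c (a (b (a (c (d
  e))))))))), t false 1 (b (f (c (a (b (a (c (d (f e))))))))), t false 1 (c (b (d (f (a (b (c (a (d
  e))))))))), t false 1 (c (b (f (a (b (c (a (d (f e))))))))), t true 1 (c (d (f (a (b (a (d (c (a
  e))))))))), t true 1 (c (f (a (b (a (d (f (c (a e))))))))), t false 1 (d (f (b (c (a (b (d (a (c
  e))))))))), t true 1 (d (f (c (a (b (a (c (d (a e))))))))), t false 1 (f (b (c (a (b (d (f (a (c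
  e)))))))))])) (br nil nil nil nil (hit [t false 1 (b (c (d (f (a (b (a (f (c e))))))))), t false 1
  (b (d (f (a (b (a (f (c (d e))))))))), t false 1 (b (f (c (d (a (b (a (c (f e))))))))), t false 1
  (b (f (d (a (b (a (c (d (f e))))))))), t false 1 (c (d (b (f (a (b (c (a (f e))))))))), t true 1
  (c (d (f (a (b (a (f (c (a e))))))))), t false 1 (d (b (f (a (b (c (d (a (f e))))))))), t true 1
  (d (f (a (b (a (f (c (d (a e))))))))), t false 1 (f (b (c (d (a (b (f (a (c e))))))))), t false 1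
  (f (b (d (a (b (f (a (c (d e))))))))), t true 1 (f (c (d (a (b (a (c (f (a e)))))))))])) (hit [t
  false 1 (b (c (d (f (a (b (a (c e)))))))), t false 1 (b (d (f (a (b (a (c (d e)))))))), t false 1
  (b (f (a (b (a (c (d (f e)))))))), t true 1 (c (d (f (a (b (a (c (a e)))))))), t true 1 (d (f (a
  (b (a (c (d (a e))))))))])) nil nil nil nil) nil nil nil) nil nil nil nil) nil nil) nil)

def R1 : R := R.br R11 R12 R13 R14 R15

def R21 : R := (br nil (hit [t true 1 (a (b (a e)))]) (br (br nil nil nil nil (br nil (br nil nil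
  nil (br nil nil (br nil (br nil nil nil nil (hit [t false 1 (a (b (a (c (d (f (b (c (b (f
  e)))))))))), t true 1 (a (b (c (d (f (b (c (a (b (f e)))))))))), t false 1 (a (b (f (b (c (d (a (b
  (f (a e)))))))))), t true 1 (a (c (b (f (b (d (a (b (f (a e)))))))))), t true 1 (a (c (d (c (f (a
  (b (a (f (c e)))))))))), t true 1 (a (d (c (f (a (b (a (f (d (c e)))))))))), t true 1 (a (d (f (a
  (b (a (c (d (c (f e)))))))))), t false 1 (a (d (f (a (b (a (f (c (d (c e)))))))))), t true 1 (a (d
  (f (b (c (d (c (a (b (f e)))))))))), t false 1 (a (f (b (c (d (b (f (c (a (b e)))))))))), t true 1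
  (b (a (d (f (b (c (d (c (b (f e)))))))))), t false 1 (b (a (f (b (c (d (b (f (c (b e)))))))))), t
  false 1 (b (d (f (b (c (d (a (c (b (f e)))))))))), t true 1 (b (f (b (c (d (b (f (a (c (b
  e)))))))))), t true 1 (c (a (b (a (d (f (b (c (b (f e)))))))))), t false 1 (c (b (a (d (f (b (d (c
  (b (f e)))))))))), t true 1 (c (b (a (f (b (d (b (f (c (b e)))))))))), t true 1 (c (b (d (f (b (d
  (a (c (b (f e)))))))))), t false 1 (c (b (f (b (d (b (f (a (c (b e)))))))))), t false 1 (c (d (a
  (b (a (f (b (c (b (f e)))))))))), t false 1 (c (d (a (f (a (b (a (f (c (b e)))))))))), t false 1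
  (c (d (c (a (f (a (b (a (f (c e)))))))))), t true 1 (c (f (a (b (a (f (d (b (c (b e)))))))))), t
  false 1 (d (a (b (f (b (c (d (b (f (a e)))))))))), t true 1 (d (a (c (b (f (b (d (b (f (a
  e)))))))))), t true 1 (d (a (f (b (c (d (b (f (c (a e)))))))))), t true 1 (d (b (a (f (b (c (d (b
  (f (c e)))))))))), t false 1 (d (b (f (b (c (d (b (f (a (c e)))))))))), t false 1 (d (c (b (a (f
  (b (d (b (f (c e)))))))))), t true 1 (d (c (b (f (b (d (b (f (a (c e)))))))))), t false 1 (d (c (f
  (a (b (a (f (d (b (c e)))))))))), t false 1 (d (f (a (b (a (c (d (b (c (f e)))))))))), t true 1 (d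
  (f (a (b (a (f (c (d (b (c e)))))))))), t false 1 (d (f (b (c (d (a (c (a (b (f e)))))))))), t
  true 1 (d (f (b (c (d (b (a (c (a (f e)))))))))), t false 1 (d (f (b (c (d (b (f (a (c (a
  e)))))))))), t true 1 (f (a (b (a (c (d (b (c (f (b e)))))))))), t false 1 (f (a (b (a (f (c (d (b
  (c (b e)))))))))), t true 1 (f (b (c (d (a (c (a (b (f (b e)))))))))), t false 1 (f (b (c (d (b (a
  (c (a (f (b e))))))))))])) nil nil nil) nil nil) nil) nil nil nil)) nil nil nil nil) (br nil (br
  (br nil nil (br (br nil (br nil nil nil (hit [t false 1 (a (c (a (b (d (a (b (a (d e))))))))), t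
  true 1 (b (a (c (a (d (a (b (a (d e))))))))), t true 1 (c (a (b (d (b (c (a (b (d e))))))))), t
  false 1 (c (b (d (b (a (c (a (b (d e)))))))))]) nil) nil nil nil) (br (br nil nil nil (hit [t
  false 1 (c (d (a (b (c (a (b (d (b e)))))))))]) nil) nil nil (hit [t true 1 (b (c (a (d (a (b (a
  (d e)))))))), t false 1 (c (a (d (b (c (a (b (d e))))))))]) nil) nil nil nil) nil nil) nil (br (br
  nil (br (br nil nil nil (hit [t true 1 (b (a (c (d (a (b (a (c (d e))))))))), t false 1 (c (d (a
  (b (a (c (a (b (d e))))))))), t true 1 (d (a (b (a (c (a (b (d (a e)))))))))]) nil) nil nil (hit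
  [t true 1 (b (a (c (d (a (b (a (d e)))))))), t false 1 (c (d (b (a (c (a (b (d e)))))))), t true 1
  (d (b (a (c (a (b (d (a e))))))))]) nil) nil nil nil) (br (br nil nil nil (hit [t false 1 (c (d (a
  (b (c (a (b (d e)))))))), t true 1 (d (a (b (c (a (b (d (a e))))))))]) nil) nil nil (hit [t true 1
  (b (c (d (a (b (a (d e))))))), t false 1 (c (d (b (c (a (b (d e))))))), t true 1 (d (b (c (a (b (d
  (a e)))))))]) nil) nil nil nil) nil nil) (br (br nil (br (br nil nil (br nil (br nil nil nil (hit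
  [t true 1 (a (d (a (b (c (a (b (a (c (d e)))))))))), t false 1 (b (a (d (a (c (a (b (a (c (d
  e)))))))))), t false 1 (c (b (a (d (a (b (c (a (b (d e)))))))))), t false 1 (d (a (b (c (a (b (a
  (c (d (a e)))))))))), t true 1 (d (b (a (c (b (a (d (a (b (c e))))))))))]) nil) nil nil nil) nil
  nil) nil nil nil nil) nil nil nil) nil nil nil nil) nil nil) (br nil (br (br nil nil (br (br nil
  (br nil nil nil nil (hit [t false 1 (a (c (a (b (f (a (b (a (f e))))))))), t true 1 (b (a (c (a (f
  (a (b (a (f e))))))))), t true 1 (c (a (b (f (b (c (a (b (f e))))))))), t false 1 (c (b (f (b (a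
  (c (a (b (f e)))))))))])) nil nil nil) (br (br nil nil nil nil (hit [t false 1 (c (f (a (b (c (a
  (b (f (b e)))))))))])) nil nil nil (hit [t true 1 (b (c (a (f (a (b (a (f e)))))))), t false 1 (c
  (a (f (b (c (a (b (f e))))))))])) nil (br (br nil (br nil nil nil nil (hit [t false 1 (a (d (c (a
  (b (f (a (b (a (f e)))))))))), t true 1 (b (a (d (c (a (f (a (b (a (f e)))))))))), t true 1 (c (a
  (b (f (b (d (c (a (b (f e)))))))))), t false 1 (c (b (f (b (a (d (c (a (b (f e)))))))))), t true 1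
  (d (c (a (b (f (b (d (a (b (f e)))))))))), t false 1 (d (c (b (f (b (a (d (a (b (f e))))))))))]))
  nil nil nil) (br nil nil nil nil (hit [t true 1 (b (d (c (a (f (a (b (a (f e))))))))), t false 1
  (c (a (f (b (d (c (a (b (f e))))))))), t false 1 (d (c (a (f (b (d (a (b (f e)))))))))])) (br nil
  (br nil nil nil nil (hit [t false 1 (b (a (c (d (c (f (a (b (a (f e)))))))))), t true 1 (b (a (c
  (d (f (a (b (a (f (c e)))))))))), t false 1 (b (a (c (f (a (b (a (f (d (c e)))))))))), t false 1
  (b (a (d (c (f (a (b (a (f (d e)))))))))), t true 1 (b (a (d (f (a (b (a (f (c (d e)))))))))), t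
  false 1 (b (a (f (a (b (a (c (d (c (f e)))))))))), t true 1 (b (a (f (a (b (a (f (c (d (c
  e)))))))))), t false 1 (b (a (f (b (c (d (c (a (b (f e)))))))))), t true 1 (b (c (d (c (a (f (a (b
  (a (f e)))))))))), t true 1 (c (b (a (f (b (d (c (a (b (f e)))))))))), t false 1 (c (d (b (a (f (b
  (c (a (b (f e)))))))))), t false 1 (c (d (f (a (b (a (f (c (a (b e)))))))))), t true 1 (c (f (a (b
  (a (f (d (c (a (b e)))))))))), t false 1 (d (b (a (f (b (c (d (a (b (f e)))))))))), t true 1 (d (c
  (b (a (f (b (d (a (b (f e)))))))))), t true 1 (d (c (f (a (b (a (f (d (a (b e)))))))))), t false 1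
  (d (f (a (b (a (f (c (d (a (b e)))))))))), t true 1 (f (a (b (a (c (d (c (f (a (b e)))))))))), t
  false 1 (f (a (b (a (f (c (d (c (a (b e))))))))))])) nil nil nil) nil nil) nil) (br (br nil (br
  nil nil nil nil (hit [t false 1 (a (d (a (b (f (a (b (a (f e))))))))), t true 1 (b (a (d (a (f (a
  (b (a (f e))))))))), t true 1 (d (a (b (f (b (d (a (b (f e))))))))), t false 1 (d (b (f (b (a (d
  (a (b (f e)))))))))])) (br nil (br nil nil nil nil (hit [t false 1 (a (d (a (b (c (f (a (b (a (f
  e)))))))))), t true 1 (a (d (a (c (f (b (c (a (b (f e)))))))))), t true 1 (b (c (a (d (a (f (a (b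
  (a (f e)))))))))), t false 1 (c (a (d (a (f (b (c (a (b (f e)))))))))), t true 1 (d (a (b (c (f (b
  (d (a (b (f e)))))))))), t true 1 (d (a (c (f (b (c (d (a (b (f e)))))))))), t false 1 (d (b (c (f
  (b (a (d (a (b (f e)))))))))), t true 1 (d (c (f (a (d (a (b (c (b (f e)))))))))), t false 1 (d (c
  (f (b (c (a (d (a (b (f e)))))))))), t false 1 (d (f (a (d (a (b (c (b (f (b e))))))))))])) nil
  nil nil) nil nil) (br nil nil nil nil (hit [t true 1 (b (d (a (f (a (b (a (f e)))))))), t false 1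
  (d (a (f (b (d (a (b (f e))))))))])) (br nil (br nil nil nil nil (hit [t true 1 (b (c (d (a (f (a
  (b (a (f e))))))))), t false 1 (c (d (a (f (b (c (a (b (f e))))))))), t false 1 (d (a (f (b (c (d
  (a (b (f e)))))))))])) nil nil nil) nil nil) nil) nil (br (br nil (br (br nil nil nil nil (hit [t
  true 1 (b (a (c (f (a (b (a (c (f e))))))))), t false 1 (c (f (a (b (a (c (a (b (f e))))))))), t
  true 1 (f (a (b (a (c (a (b (f (a e)))))))))])) nil nil nil (hit [t true 1 (b (a (c (f (a (b (a (f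
  e)))))))), t false 1 (c (f (b (a (c (a (b (f e)))))))), t true 1 (f (b (a (c (a (b (f (a
  e))))))))])) nil (br (br nil (br nil nil nil nil (hit [t false 1 (a (d (a (b (c (f (a (b (a (f
  e)))))))))), t true 1 (b (a (d (a (c (f (a (b (a (f e)))))))))), t false 1 (c (f (b (a (d (a (c (a
  (b (f e)))))))))), t true 1 (d (a (b (c (f (b (d (a (b (f e)))))))))), t false 1 (d (b (c (f (b (a
  (d (a (b (f e)))))))))), t true 1 (d (c (f (a (d (a (b (c (b (f e)))))))))), t false 1 (d (f (a (d
  (a (b (c (b (f (b e)))))))))), t true 1 (f (b (a (d (a (c (a (b (f (a e))))))))))])) nil nil nil)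
  (br nil nil nil nil (hit [t true 1 (b (d (a (c (f (a (b (a (f e))))))))), t false 1 (c (f (b (d (a
  (c (a (b (f e))))))))), t false 1 (d (a (c (f (b (d (a (b (f e))))))))), t true 1 (f (b (d (a (c
  (a (b (f (a e)))))))))])) nil nil nil) nil) (br (br nil nil nil nil (hit [t false 1 (c (f (a (b (c
  (a (b (f e)))))))), t true 1 (f (a (b (c (a (b (f (a e))))))))])) nil nil nil (hit [t true 1 (b (c
  (f (a (b (a (f e))))))), t false 1 (c (f (b (c (a (b (f e))))))), t true 1 (f (b (c (a (b (f (a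
  e)))))))])) nil (br (br nil (br nil nil nil nil (hit [t true 1 (b (a (d (c (f (a (b (a (f
  e))))))))), t false 1 (c (f (b (a (d (c (a (b (f e))))))))), t false 1 (d (c (f (b (a (d (a (b (f
  e))))))))), t true 1 (f (b (a (d (c (a (b (f (a e)))))))))])) nil nil nil) (br nil nil nil nil
  (hit [t true 1 (b (d (c (f (a (b (a (f e)))))))), t false 1 (c (f (b (d (c (a (b (f e)))))))), t
  false 1 (d (c (f (b (d (a (b (f e)))))))), t true 1 (f (b (d (c (a (b (f (a e))))))))])) (br nil
  (br nil nil nil nil (hit [t true 1 (b (c (d (f (a (b (a (f (c e))))))))), t false 1 (b (c (f (a (b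
  (a (f (d (c e))))))))), t false 1 (b (d (c (f (a (b (a (f (d e))))))))), t true 1 (b (d (f (a (b
  (a (f (c (d e))))))))), t false 1 (b (f (a (b (a (c (d (c (f e))))))))), t true 1 (b (f (a (b (a
  (f (c (d (c e))))))))), t false 1 (b (f (b (c (d (c (a (b (f e))))))))), t true 1 (c (b (f (b (d
  (c (a (b (f e))))))))), t false 1 (c (d (b (f (b (c (a (b (f e))))))))), t false 1 (c (d (f (a (b
  (a (f (c (a e))))))))), t true 1 (c (f (a (b (a (f (d (c (a e))))))))), t false 1 (d (b (f (b (c
  (d (a (b (f e))))))))), t true 1 (d (c (b (f (b (d (a (b (f e))))))))), t true 1 (d (c (f (a (b (a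
  (f (d (a e))))))))), t false 1 (d (f (a (b (a (f (c (d (a e))))))))), t true 1 (f (a (b (a (c (d
  (c (f (a e))))))))), t false 1 (f (a (b (a (f (c (d (c (a e))))))))), t true 1 (f (b (c (d (c (a
  (b (f (a e)))))))))])) nil nil nil) nil nil) nil) (br (br nil (br (br nil nil nil nil (hit [t true
  1 (b (a (d (f (a (b (a (d (f e))))))))), t false 1 (d (f (a (b (a (d (a (b (f e))))))))), t true 1
  (f (a (b (a (d (a (b (f (a e)))))))))])) nil nil nil (hit [t true 1 (b (a (d (f (a (b (a (f
  e)))))))), t false 1 (d (f (b (a (d (a (b (f e)))))))), t true 1 (f (b (a (d (a (b (f (a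
  e))))))))])) (br nil (br (br nil nil nil nil (hit [t true 1 (b (c (a (d (f (a (b (a (d (f
  e)))))))))), t true 1 (c (d (f (a (b (c (a (d (b (f e)))))))))), t false 1 (c (f (a (b (c (a (d (b
  (f (b e)))))))))), t false 1 (d (f (a (b (c (a (d (a (b (f e)))))))))), t true 1 (f (a (b (c (a (d
  (a (b (f (a e))))))))))])) nil nil nil (hit [t true 1 (b (c (a (d (f (a (b (a (f e))))))))), t
  false 1 (c (a (d (f (b (c (a (b (f e))))))))), t false 1 (d (f (b (c (a (d (a (b (f e))))))))), t
  true 1 (f (b (c (a (d (a (b (f (a e)))))))))])) nil nil nil) nil nil) (br (br nil nil (br (br nil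
  nil nil nil (hit [t true 1 (c (d (f (a (c (a (b (d (b (f e)))))))))), t false 1 (c (f (a (c (a (b
  (d (b (f (b e)))))))))), t false 1 (d (f (a (c (a (b (d (a (b (f e)))))))))), t true 1 (f (a (c (a
  (b (d (a (b (f (a e))))))))))])) nil nil nil nil) nil (hit [t false 1 (d (f (a (b (d (a (b (f
  e)))))))), t true 1 (f (a (b (d (a (b (f (a e))))))))])) nil (br (br nil (br nil nil nil nil (hit
  [t false 1 (b (a (c (d (f (a (b (a (d (f e)))))))))), t true 1 (c (d (f (b (a (c (a (b (d (f
  e)))))))))), t false 1 (d (f (b (a (c (a (b (d (a (f e)))))))))), t false 1 (d (f (b (a (c (b (d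
  (a (b (f e)))))))))), t true 1 (f (b (a (c (a (b (d (a (f (a e)))))))))), t true 1 (f (b (a (c (b
  (d (a (b (f (a e))))))))))])) nil nil nil) (br nil nil nil nil (hit [t false 1 (b (c (d (f (a (b
  (a (d (f e))))))))), t true 1 (c (d (f (b (c (a (b (d (f e))))))))), t false 1 (d (f (b (c (a (b
  (d (a (f e))))))))), t false 1 (d (f (b (c (b (d (a (b (f e))))))))), t true 1 (f (b (c (a (b (d
  (a (f (a e))))))))), t true 1 (f (b (c (b (d (a (b (f (a e)))))))))])) nil nil nil) nil (hit [t
  true 1 (b (d (f (a (b (a (f e))))))), t false 1 (d (f (b (d (a (b (f e))))))), t true 1 (f (b (d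
  (a (b (f (a e)))))))])) (br (br nil (br nil nil nil nil (hit [t true 1 (b (a (c (d (f (a (b (a (f
  e))))))))), t false 1 (c (d (f (b (a (c (a (b (f e))))))))), t false 1 (d (f (b (a (c (d (a (b (f
  e))))))))), t true 1 (f (b (a (c (d (a (b (f (a e)))))))))])) nil nil nil) (br nil nil nil nil
  (hit [t true 1 (b (c (d (f (a (b (a (f e)))))))), t false 1 (c (d (f (b (c (a (b (f e)))))))), t
  false 1 (d (f (b (c (d (a (b (f e)))))))), t true 1 (f (b (c (d (a (b (f (a e))))))))])) nil nil
  nil) nil nil) nil) (br (br nil (br (br nil nil (br nil (br nil nil nil nil (hit [t true 1 (a (f (a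
  (b (c (a (b (a (c (f e)))))))))), t false 1 (b (a (f (a (c (a (b (a (c (f e)))))))))), t false 1
  (c (b (a (f (a (b (c (a (b (f e)))))))))), t false 1 (f (a (b (c (a (b (a (c (f (a e)))))))))), t
  true 1 (f (b (a (c (b (a (f (a (b (c e))))))))))])) nil nil nil) nil nil) nil nil nil nil) nil nil
  nil) (br (br nil nil nil (br nil (br (br nil nil nil nil (hit [t true 1 (c (f (a (b (d (a (b (c (a
  (b e)))))))))), t false 1 (d (c (f (a (b (d (a (b (c (b e)))))))))), t false 1 (d (f (a (b (d (a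
  (b (c (f (b e))))))))))])) nil nil nil (hit [t true 1 (b (d (a (c (f (a (b (a (c e))))))))), t
  true 1 (b (d (a (f (a (b (a (c (f e))))))))), t true 1 (c (f (b (d (a (b (c (a (b e))))))))), t
  false 1 (d (a (c (f (b (d (a (b (c e))))))))), t false 1 (d (a (f (b (d (a (b (c (f e)))))))))]))
  nil nil nil) nil) nil nil (br (br nil (br (br nil nil nil nil (hit [t true 1 (b (a (d (c (f (a (b
  (a (d (c e)))))))))), t true 1 (b (a (d (f (a (b (a (d (c (f e)))))))))), t true 1 (c (f (a (b (a
  (d (a (b (c (a e)))))))))), t true 1 (c (f (a (b (a (d (b (c (a (b e)))))))))), t false 1 (d (c (f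
  (a (b (a (d (a (b (c e)))))))))), t false 1 (d (f (a (b (a (d (a (b (c (f e)))))))))), t true 1 (f
  (a (b (a (d (a (b (c (f (a e))))))))))])) nil nil nil (hit [t true 1 (b (a (d (c (f (a (b (a (c
  e))))))))), t true 1 (b (a (d (f (a (b (a (c (f e))))))))), t true 1 (c (f (b (a (d (a (b (c (a
  e))))))))), t true 1 (c (f (b (a (d (b (c (a (b e))))))))), t false 1 (d (c (f (b (a (d (a (b (c
  e))))))))), t false 1 (d (f (b (a (d (a (b (c (f e))))))))), t true 1 (f (b (a (d (a (b (c (f (a
  e)))))))))])) nil nil nil) (br (br nil nil nil nil (hit [t true 1 (c (f (a (b (d (a (b (c (a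
  e))))))))), t true 1 (c (f (a (b (d (b (c (a (b e))))))))), t false 1 (d (c (f (a (b (d (a (b (c
  e))))))))), t false 1 (d (f (a (b (d (a (b (c (f e))))))))), t true 1 (f (a (b (d (a (b (c (f (a
  e)))))))))])) nil nil nil (hit [t true 1 (b (d (c (f (a (b (a (c e)))))))), t true 1 (b (d (f (a
  (b (a (c (f e)))))))), t true 1 (c (f (b (d (a (b (c (a e)))))))), t true 1 (c (f (b (d (b (c (a
  (b e)))))))), t false 1 (d (c (f (b (d (a (b (c e)))))))), t false 1 (d (f (b (d (a (b (c (f
  e)))))))), t true 1 (f (b (d (a (b (c (f (a e))))))))])) nil nil nil) nil) nil nil nil) (br (br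
  nil (br (br nil nil nil (br nil (br nil nil nil nil (hit [t true 1 (a (f (a (b (d (a (b (a (d (f
  e)))))))))), t false 1 (b (a (f (a (d (a (b (a (d (f e)))))))))), t false 1 (d (b (a (f (a (b (d
  (a (b (f e)))))))))), t false 1 (f (a (b (d (a (b (a (d (f (a e)))))))))), t true 1 (f (b (a (d (b
  (a (f (a (b (d e))))))))))])) nil nil nil) nil) nil nil nil nil) nil nil nil) (br (br nil nil (br
  nil (br (br nil nil nil nil (hit [t false 1 (c (d (f (a (b (c (a (b (d (b e)))))))))), t false 1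
  (c (f (a (b (c (a (b (d (f (b e)))))))))), t true 1 (d (f (a (b (c (a (b (d (a (b e))))))))))]))
  nil nil nil (hit [t true 1 (b (c (a (d (f (a (b (a (d e))))))))), t true 1 (b (c (a (f (a (b (a (d
  (f e))))))))), t false 1 (c (a (d (f (b (c (a (b (d e))))))))), t false 1 (c (a (f (b (c (a (b (d
  (f e))))))))), t true 1 (d (f (b (c (a (b (d (a (b e)))))))))])) nil nil nil) nil nil) nil (br (br
  nil (br (br nil nil nil nil (hit [t true 1 (b (a (c (d (f (a (b (a (c (d e)))))))))), t true 1 (b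
  (a (c (f (a (b (a (c (d (f e)))))))))), t false 1 (c (d (f (a (b (a (c (a (b (d e)))))))))), t
  false 1 (c (f (a (b (a (c (a (b (d (f e)))))))))), t true 1 (d (f (a (b (a (c (a (b (d (a
  e)))))))))), t true 1 (d (f (a (b (a (c (b (d (a (b e)))))))))), t true 1 (f (a (b (a (c (a (b (d
  (f (a e))))))))))])) nil nil nil (hit [t true 1 (b (a (c (d (f (a (b (a (d e))))))))), t true 1 (b
  (a (c (f (a (b (a (d (f e))))))))), t false 1 (c (d (f (b (a (c (a (b (d e))))))))), t false 1 (c
  (f (b (a (c (a (b (d (f e))))))))), t true 1 (d (f (b (a (c (a (b (d (a e))))))))), t true 1 (d (f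
  (b (a (c (b (d (a (b e))))))))), t true 1 (f (b (a (c (a (b (d (f (a e)))))))))])) nil nil nil)
  (br (br nil nil nil nil (hit [t false 1 (c (d (f (a (b (c (a (b (d e))))))))), t false 1 (c (f (a
  (b (c (a (b (d (f e))))))))), t true 1 (d (f (a (b (c (a (b (d (a e))))))))), t true 1 (d (f (a (b
  (c (b (d (a (b e))))))))), t true 1 (f (a (b (c (a (b (d (f (a e)))))))))])) nil nil (br nil (br
  nil nil nil nil (hit [t false 1 (b (c (d (f (a (b (a (c (f (d e)))))))))), t false 1 (b (d (c (f
  (a (b (a (c (d (f e)))))))))), t true 1 (c (d (f (a (b (a (c (a (f (d e)))))))))), t false 1 (c (f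
  (b (d (a (b (c (a (d (f e)))))))))), t false 1 (c (f (b (d (b (c (a (b (d (f e)))))))))), t true 1
  (d (b (c (f (b (d (a (b (c (f e)))))))))), t true 1 (d (c (f (a (b (a (c (d (a (f e)))))))))), t
  false 1 (d (f (a (b (a (c (a (f (d (a e)))))))))), t false 1 (f (b (c (d (a (b (c (f (a (d
  e)))))))))), t false 1 (f (b (c (d (b (c (f (a (b (d e)))))))))), t true 1 (f (b (d (a (b (c (a (d
  (f (a e)))))))))), t true 1 (f (b (d (b (c (a (b (d (f (a e))))))))))])) nil nil nil) (hit [t true
  1 (b (c (d (f (a (b (a (d e)))))))), t true 1 (b (c (f (a (b (a (d (f e)))))))), t false 1 (c (d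
  (f (b (c (a (b (d e)))))))), t false 1 (c (f (b (c (a (b (d (f e)))))))), t true 1 (d (f (b (c (a
  (b (d (a e)))))))), t true 1 (d (f (b (c (b (d (a (b e)))))))), t true 1 (f (b (c (a (b (d (f (a
  e))))))))])) nil nil nil) nil nil) nil nil nil) nil))

def R22 : R := (hit [])

def R23 : R := (br (br nil (br (br nil nil (hit [t false 1 (a (c (a (b (a (c e))))))]) nil nil) nil
  nil (br (br nil nil (br (br nil nil nil (hit [t true 1 (a (d (a (c (a (d (b (a (c e))))))))), t
  true 1 (c (a (d (a (c (a (d (b (a e)))))))))]) nil) (br (br nil nil nil (hit [t true 1 (a (b (d (a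
  (c (a (d (b (a (c e)))))))))), t true 1 (b (c (d (a (b (a (d (c (b (a e)))))))))), t true 1 (b (d
  (a (b (c (a (d (b (a (c e)))))))))), t true 1 (c (a (b (d (a (c (a (d (b (a e)))))))))), t true 1
  (c (b (d (a (b (c (a (d (b (a e)))))))))), t false 1 (c (d (a (b (a (d (c (a (b (a e)))))))))), t
  false 1 (d (a (b (a (d (c (a (b (a (c e))))))))))]) nil) nil nil nil nil) nil nil nil) nil nil)
  nil nil nil nil) (br (br nil nil (br (br nil nil nil nil (hit [t true 1 (a (f (a (c (a (f (b (a (c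
  e))))))))), t true 1 (c (a (f (a (c (a (f (b (a e)))))))))])) (br (br nil nil nil nil (hit [t true
  1 (a (b (f (a (c (a (f (b (a (c e)))))))))), t true 1 (b (c (f (a (b (a (f (c (b (a e)))))))))), t
  true 1 (b (f (a (b (c (a (f (b (a (c e)))))))))), t true 1 (c (a (b (f (a (c (a (f (b (a
  e)))))))))), t true 1 (c (b (f (a (b (c (a (f (b (a e)))))))))), t false 1 (c (f (a (b (a (f (c (a
  (b (a e)))))))))), t false 1 (f (a (b (a (f (c (a (b (a (c e))))))))))])) nil nil nil nil) nil nil
  nil) nil nil) nil nil nil nil)) nil (br (br nil (br (br nil nil (br nil (br nil nil nil (hit [t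
  false 1 (a (d (a (b (a (c (a (b (a (d e)))))))))), t false 1 (b (c (a (d (a (b (a (c (b (d
  e)))))))))), t true 1 (c (a (d (a (b (a (c (a (b (d e)))))))))), t true 1 (d (a (b (a (c (a (b (a
  (d (a e)))))))))), t false 1 (d (b (a (c (a (b (a (d (a (c e))))))))))]) nil) nil nil nil) nil
  nil) nil nil nil nil) nil nil nil) (br (br nil nil (br (br nil (br nil nil nil (hit [t true 1 (a
  (c (a (b (d (b (a (c (b (d e)))))))))), t false 1 (b (a (c (a (d (b (a (c (b (d e)))))))))), t
  false 1 (c (a (b (d (b (a (c (a (b (d e))))))))))]) nil) nil nil nil) (br (br nil nil nil (hit [t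
  false 1 (b (c (d (a (b (a (c (b (d (c e)))))))))), t false 1 (c (a (b (d (a (c (a (b (d (b
  e)))))))))), t false 1 (c (b (d (a (b (c (a (b (d (b e)))))))))), t true 1 (c (d (a (b (a (c (a (b
  (d (c e)))))))))), t false 1 (d (a (b (a (c (a (b (d (a (c e))))))))))]) nil) nil nil (hit [t
  false 1 (b (c (a (d (b (a (c (b (d e))))))))), t true 1 (c (a (d (b (a (c (a (b (d e))))))))), t
  false 1 (d (b (a (c (a (b (d (a (c e)))))))))]) nil) nil nil nil) nil nil) nil nil nil nil) nil
  nil nil) (br (br nil (br (br nil nil (br nil (br nil nil nil nil (hit [t false 1 (a (f (a (b (a (c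
  (a (b (a (f e)))))))))), t false 1 (b (c (a (f (a (b (a (c (b (f e)))))))))), t true 1 (c (a (f (a
  (b (a (c (a (b (f e)))))))))), t true 1 (f (a (b (a (c (a (b (a (f (a e)))))))))), t false 1 (f (b
  (a (c (a (b (a (f (a (c e))))))))))])) nil nil nil) nil nil) nil nil nil nil) nil nil nil) (br (br
  nil nil (br (br nil (br nil nil nil nil (hit [t true 1 (a (c (a (b (f (b (a (c (b (f e)))))))))),
  t false 1 (b (a (c (a (f (b (a (c (b (f e)))))))))), t false 1 (c (a (b (f (b (a (c (a (b (f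
  e))))))))))])) nil nil nil) (br (br nil nil nil nil (hit [t false 1 (b (c (f (a (b (a (c (b (f (c
  e)))))))))), t false 1 (c (a (b (f (a (c (a (b (f (b e)))))))))), t false 1 (c (b (f (a (b (c (a
  (b (f (b e)))))))))), t true 1 (c (f (a (b (a (c (a (b (f (c e)))))))))), t false 1 (f (a (b (a (c
  (a (b (f (a (c e))))))))))])) nil nil nil (hit [t false 1 (b (c (a (f (b (a (c (b (f e))))))))), t
  true 1 (c (a (f (b (a (c (a (b (f e))))))))), t false 1 (f (b (a (c (a (b (f (a (c e)))))))))]))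
  nil nil nil) nil nil) nil nil nil nil) nil (br nil (br (br nil nil (br nil (br nil nil nil nil
  (hit [t false 1 (b (c (a (d (f (b (a (c (b (d e)))))))))), t false 1 (b (c (a (f (b (a (c (b (d (f
  e)))))))))), t true 1 (c (a (d (f (b (a (c (a (b (d e)))))))))), t true 1 (c (a (f (b (a (c (a (b
  (d (f e)))))))))), t false 1 (d (f (b (a (c (a (b (d (a (c e)))))))))), t true 1 (d (f (b (c (a (b
  (d (a (c (b e)))))))))), t false 1 (f (b (a (c (a (b (d (f (a (c e))))))))))])) nil nil nil) nil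
  nil) nil nil nil nil) nil nil nil) nil)) nil nil nil nil)

def R24 : R := (br (br nil (br (br nil nil (br nil (br nil nil nil (hit [t false 1 (a (b (c (a (b (a
  (d (a e)))))))), t false 1 (a (c (a (b (a (d (a (c e)))))))), t false 1 (a (d (b (c (a (b (a (d
  e)))))))), t true 1 (b (c (a (b (a (d (a (b e)))))))), t true 1 (c (a (b (a (d (a (c (b e)))))))),
  t false 1 (c (a (d (a (b (c (b (d e))))))))]) nil) nil nil nil) (hit [t false 1 (a (d (a (b (a (d
  e))))))]) nil) nil (br (br nil (br (br nil nil nil (hit [t true 1 (a (b (c (d (a (b (a (c (d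
  e))))))))), t false 1 (c (d (a (b (a (c (b (a (d e))))))))), t true 1 (d (a (b (a (c (a (d (b (a
  e)))))))))]) nil) nil nil (hit [t true 1 (a (b (d (b (c (a (b (a e)))))))), t false 1 (b (d (b (a
  (c (a (b (a e)))))))), t true 1 (c (a (b (d (b (c (b (a e)))))))), t false 1 (c (b (d (b (a (c (b
  (a e)))))))), t false 1 (c (d (b (a (c (b (a (d e)))))))), t true 1 (d (a (c (a (b (d (b (a
  e))))))))]) nil) nil (hit [t false 1 (a (c (d (a (b (a (d e))))))), t false 1 (c (d (a (c (b (a (d
  e))))))), t true 1 (d (a (c (a (d (b (a e)))))))]) nil) (br (br nil nil nil (hit [t false 1 (a (b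
  (c (d (a (b (a (d e)))))))), t false 1 (c (d (a (b (c (b (a (d e)))))))), t true 1 (d (a (b (c (a
  (d (b (a e))))))))]) nil) nil nil nil nil) nil nil nil) nil nil) nil nil (br (br nil (br (br nil
  nil nil (br nil (br nil nil nil nil (hit [t false 1 (a (f (a (b (a (d (a (b (a (f e)))))))))), t
  false 1 (b (d (a (f (a (b (a (d (b (f e)))))))))), t true 1 (d (a (f (a (b (a (d (a (b (f
  e)))))))))), t true 1 (f (a (b (a (d (a (b (a (f (a e)))))))))), t false 1 (f (b (a (d (a (b (a (f
  (a (d e))))))))))])) nil nil nil) nil) nil nil nil nil) nil nil nil) (br (br nil nil nil (br (br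
  nil (br nil nil nil nil (hit [t true 1 (a (d (a (b (f (b (a (d (b (f e)))))))))), t false 1 (b (a
  (d (a (f (b (a (d (b (f e)))))))))), t false 1 (d (a (b (f (b (a (d (a (b (f e))))))))))])) nil
  nil nil) (br (br nil nil nil nil (hit [t false 1 (b (d (f (a (b (a (d (b (f (d e)))))))))), t
  false 1 (d (a (b (f (a (d (a (b (f (b e)))))))))), t false 1 (d (b (f (a (b (d (a (b (f (b
  e)))))))))), t true 1 (d (f (a (b (a (d (a (b (f (d e)))))))))), t false 1 (f (a (b (a (d (a (b (f
  (a (d e))))))))))])) nil nil nil (hit [t false 1 (b (d (a (f (b (a (d (b (f e))))))))), t true 1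
  (d (a (f (b (a (d (a (b (f e))))))))), t false 1 (f (b (a (d (a (b (f (a (d e)))))))))])) (br nil
  (br nil nil nil nil (hit [t false 1 (b (c (d (a (f (b (a (d (b (f e)))))))))), t false 1 (c (d (a
  (f (b (c (a (d (b (f e)))))))))), t true 1 (d (a (f (b (c (a (d (a (b (f e)))))))))), t false 1 (f
  (b (c (a (d (a (b (f (a (d e))))))))))])) nil nil nil) nil nil) nil) nil (br (br nil nil nil (br
  nil (br nil nil nil nil (hit [t false 1 (b (d (a (c (f (b (a (d (b (f e)))))))))), t false 1 (c (f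
  (b (d (a (c (a (d (b (f e)))))))))), t true 1 (d (a (c (f (b (a (d (a (b (f e)))))))))), t false 1
  (f (b (a (c (d (a (b (f (a (d e)))))))))), t false 1 (f (b (c (d (a (c (b (f (a (d e)))))))))), t
  true 1 (f (b (d (a (c (a (d (b (f (a e))))))))))])) nil nil nil) nil) nil nil nil nil) nil nil)
  (br nil (br (br nil nil nil (br nil (br nil nil nil nil (hit [t false 1 (b (d (a (c (f (b (a (d (b
  (c e)))))))))), t false 1 (b (d (a (f (b (a (d (b (c (f e)))))))))), t false 1 (c (f (b (a (d (a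
  (b (c (a (d e)))))))))), t true 1 (c (f (b (d (a (b (c (a (d (b e)))))))))), t true 1 (d (a (c (f
  (b (a (d (a (b (c e)))))))))), t true 1 (d (a (f (b (a (d (a (b (c (f e)))))))))), t false 1 (f (b
  (a (d (a (b (c (f (a (d e))))))))))])) nil nil nil) nil) nil nil nil nil) nil nil nil) nil nil))
  (br (br nil nil (br (br nil (br nil nil nil (hit [t true 1 (a (b (d (b (c (a (b (d e)))))))), t
  true 1 (a (c (b (d (a (b (a (d e)))))))), t false 1 (b (d (b (a (c (a (b (d e)))))))), t true 1 (c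
  (a (b (d (b (c (b (d e)))))))), t false 1 (c (b (d (b (a (c (b (d e))))))))]) nil) nil nil nil)
  (br nil nil nil (hit [t false 1 (a (d (b (c (a (b (d e))))))), t false 1 (c (a (d (b (c (b (d
  e)))))))]) nil) nil nil nil) nil nil) nil (br (br nil (br (br nil nil nil (hit [t true 1 (a (c (d
  (a (b (a (c (d e)))))))), t false 1 (c (d (a (b (a (c (b (d e))))))))]) nil) nil nil (hit [t true
  1 (a (c (d (a (b (a (d e))))))), t false 1 (c (d (b (a (c (b (d e)))))))]) nil) nil nil (br nil
  (br nil nil nil (br nil (br nil nil nil nil (hit [t true 1 (b (c (d (f (b (a (c (b (f (d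
  e)))))))))), t true 1 (b (d (a (c (f (b (a (d (b (f e)))))))))), t true 1 (b (d (b (a (c (f (b (d
  (b (f e)))))))))), t true 1 (b (d (c (f (b (a (c (d (b (f e)))))))))), t false 1 (b (d (f (b (a (c
  (b (f (d (b e)))))))))), t false 1 (c (d (f (b (a (c (a (b (f (d e)))))))))), t false 1 (d (a (c
  (f (b (a (d (a (b (f e)))))))))), t false 1 (d (b (a (c (f (b (d (a (b (f e)))))))))), t false 1
  (d (c (f (b (a (c (d (a (b (f e)))))))))), t true 1 (d (f (b (a (c (a (b (f (d (a e)))))))))), t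
  true 1 (d (f (b (a (c (b (f (d (a (b e)))))))))), t true 1 (f (b (a (c (d (a (b (f (a (d
  e)))))))))), t false 1 (f (b (c (d (b (f (a (c (b (d e))))))))))])) nil nil nil) nil) nil nil
  nil)) (br (br nil nil nil (hit [t true 1 (a (b (c (a (b (d (a e))))))), t true 1 (a (b (c (b (d (a
  (b e))))))), t false 1 (c (d (a (b (c (b (d e)))))))]) nil) nil nil (hit [t false 1 (c (d (b (c (b
  (d e))))))]) nil) nil nil nil) nil nil) (br (br nil (br (br nil nil (br (br nil (br nil nil nil
  (hit [t true 1 (a (b (d (b (c (a (b (a (c (d e)))))))))), t false 1 (b (d (b (a (c (a (b (a (c (d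
  e)))))))))), t false 1 (c (a (b (d (b (a (c (b (a (d e)))))))))), t true 1 (d (a (b (c (a (b (d (b
  (a (c e)))))))))), t false 1 (d (a (c (a (b (a (c (d (b (a e))))))))))]) nil) nil nil nil) (br nil
  nil nil (hit [t false 1 (a (b (d (b (c (a (b (a (c e))))))))), t false 1 (a (d (b (c (a (b (a (c
  (d e))))))))), t true 1 (b (d (b (a (c (a (b (a (c e))))))))), t true 1 (c (a (b (d (b (a (c (b (a
  e))))))))), t true 1 (c (a (d (b (a (c (b (a (d e))))))))), t false 1 (d (a (c (a (b (d (b (a (c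
  e)))))))))]) nil) nil (hit [t false 1 (a (d (c (a (b (a (c (d e)))))))), t true 1 (c (a (d (a (c
  (b (a (d e)))))))), t true 1 (c (a (d (b (a (c (b (d e)))))))), t false 1 (d (a (c (a (d (b (a (c
  e))))))))]) nil) (hit [t false 1 (a (c (d (a (b (a (c e))))))), t false 1 (a (d (a (b (a (c (d
  e))))))), t true 1 (c (d (a (b (a (c (b e)))))))]) nil) nil nil nil nil) nil nil (br nil (br (br
  nil nil nil (br nil (br nil nil nil nil (hit [t false 1 (b (c (d (a (f (b (a (c (b (f e)))))))))),
  t false 1 (b (d (a (f (b (a (c (d (b (f e)))))))))), t true 1 (c (d (a (f (b (a (c (a (b (f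
  e)))))))))), t true 1 (d (a (f (b (a (c (d (a (b (f e)))))))))), t false 1 (f (b (a (c (d (a (b (f
  (a (c e)))))))))), t false 1 (f (b (a (d (a (b (f (a (c (d e)))))))))), t true 1 (f (b (c (d (a (b
  (f (a (c (b e))))))))))])) nil nil nil) nil) nil nil nil nil) nil nil nil)) nil nil nil nil) nil
  (br nil (br nil nil (br nil (br (br nil nil nil (br (br nil nil nil nil (hit [t true 1 (a (c (f (a
  (d (a (b (c (b (f e)))))))))), t false 1 (a (f (a (d (a (b (c (b (f (b e)))))))))), t true 1 (c (f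
  (a (c (d (a (b (c (b (f e)))))))))), t false 1 (f (a (c (d (a (b (c (b (f (d e))))))))))])) nil
  nil nil nil) nil) nil nil nil nil) nil nil nil) nil nil) (br (br nil (br (br nil nil nil (br nil
  nil (br nil nil nil nil (hit [t true 1 (a (f (c (a (d (a (b (a (c (f e)))))))))), t true 1 (c (a
  (f (c (d (a (b (a (c (f e)))))))))), t false 1 (c (f (c (d (a (b (a (c (f (b e)))))))))), t true 1
  (f (a (c (a (f (d (a (b (a (c e)))))))))), t false 1 (f (c (a (d (a (b (a (c (f (d e))))))))))]))
  nil nil) nil) nil nil nil nil) nil nil nil) nil nil nil nil) nil nil))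

def R25 : R := (br (br nil (br (br nil nil (br nil (br nil nil nil nil (hit [t false 1 (a (b (c (a
  (b (a (f (a e)))))))), t false 1 (a (c (a (b (a (f (a (c e)))))))), t false 1 (a (f (b (c (a (b (a
  (f e)))))))), t true 1 (b (c (a (b (a (f (a (b e)))))))), t true 1 (c (a (b (a (f (a (c (b
  e)))))))), t false 1 (c (a (f (a (b (c (b (f e))))))))])) nil nil nil) (br nil nil (br nil (br nil
  nil nil nil (hit [t false 1 (a (b (c (d (a (b (a (f (a e))))))))), t false 1 (a (c (d (a (b (a (f
  (a (c e))))))))), t false 1 (a (d (a (b (a (f (a (c (d e))))))))), t false 1 (a (f (b (c (d (a (b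
  (a (f e))))))))), t true 1 (b (c (d (a (b (a (f (a (b e))))))))), t true 1 (c (d (a (b (a (f (a (c
  (b e))))))))), t false 1 (c (d (a (f (a (b (c (b (f e))))))))), t true 1 (d (a (b (a (f (a (c (d
  (b e))))))))), t false 1 (d (a (f (a (b (c (d (b (f e)))))))))])) nil nil nil) nil nil) (hit [t
  false 1 (a (f (a (b (a (f e))))))])) nil (br (br nil (br (br nil nil nil nil (hit [t true 1 (a (b
  (c (f (a (b (a (c (f e))))))))), t false 1 (c (f (a (b (a (c (b (a (f e))))))))), t true 1 (f (a
  (b (a (c (a (f (b (a e)))))))))])) nil nil nil (hit [t true 1 (a (b (f (b (c (a (b (a e)))))))), t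
  false 1 (b (f (b (a (c (a (b (a e)))))))), t true 1 (c (a (b (f (b (c (b (a e)))))))), t false 1
  (c (b (f (b (a (c (b (a e)))))))), t false 1 (c (f (b (a (c (b (a (f e)))))))), t true 1 (f (a (c
  (a (b (f (b (a e))))))))])) nil nil (hit [t false 1 (a (c (f (a (b (a (f e))))))), t false 1 (c (f
  (a (c (b (a (f e))))))), t true 1 (f (a (c (a (f (b (a e)))))))])) (br (br nil nil nil nil (hit [t
  false 1 (a (b (c (f (a (b (a (f e)))))))), t false 1 (c (f (a (b (c (b (a (f e)))))))), t true 1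
  (f (a (b (c (a (f (b (a e))))))))])) nil nil (br nil (br (br nil nil nil nil (hit [t false 1 (a (b
  (d (b (c (f (a (b (a (f e)))))))))), t false 1 (c (f (a (b (d (b (c (b (a (f e)))))))))), t true 1
  (d (c (f (a (b (d (b (c (a (f e)))))))))), t false 1 (d (f (a (b (d (b (c (a (f (a e)))))))))), t
  true 1 (f (a (b (d (b (c (a (f (b (a e))))))))))])) nil nil nil (hit [t false 1 (a (f (b (d (b (c
  (a (b (a e))))))))), t false 1 (c (a (f (b (d (b (c (b (a e))))))))), t false 1 (c (f (b (d (b (c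
  (b (a (f e))))))))), t true 1 (d (c (a (f (b (d (b (c (a e))))))))), t true 1 (d (c (f (b (d (b (c
  (a (f e)))))))))])) nil nil nil) nil) nil nil nil) (br (br nil (br (br nil nil nil nil (hit [t
  true 1 (a (b (d (f (a (b (a (d (f e))))))))), t false 1 (d (f (a (b (a (d (b (a (f e))))))))), t
  true 1 (f (a (b (a (d (a (f (b (a e)))))))))])) nil nil nil (hit [t true 1 (a (b (f (b (d (a (b (a
  e)))))))), t false 1 (b (f (b (a (d (a (b (a e)))))))), t true 1 (d (a (b (f (b (d (b (a
  e)))))))), t false 1 (d (b (f (b (a (d (b (a e)))))))), t false 1 (d (f (b (a (d (b (a (f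
  e)))))))), t true 1 (f (a (d (a (b (f (b (a e))))))))])) (br nil (br nil nil nil nil (hit [t true
  1 (a (b (c (f (b (d (a (b (a e))))))))), t true 1 (a (c (f (b (c (d (a (b (a e))))))))), t true 1
  (a (d (a (c (f (b (c (b (a e))))))))), t false 1 (a (d (c (f (b (c (a (b (a e))))))))), t false 1
  (a (d (f (b (c (a (b (a (f e))))))))), t false 1 (b (c (f (b (a (d (a (b (a e))))))))), t false 1
  (c (a (d (a (b (c (b (f (a e))))))))), t false 1 (c (a (d (a (f (a (b (c (b e))))))))), t true 1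
  (c (a (d (b (a (f (a (c (b e))))))))), t false 1 (c (a (d (b (c (a (f (a (b e))))))))), t true 1
  (c (a (d (b (c (b (a (f (a e))))))))), t false 1 (c (a (d (c (a (f (a (b (c e))))))))), t true 1
  (c (a (d (c (b (a (f (a (c e))))))))), t false 1 (c (a (d (f (a (b (c (b (f e))))))))), t true 1
  (c (f (a (d (a (b (c (b (a e))))))))), t false 1 (c (f (b (c (a (d (a (b (a e))))))))), t true 1
  (d (a (b (c (f (b (d (b (a e))))))))), t true 1 (d (a (c (f (b (c (d (b (a e))))))))), t false 1
  (d (b (c (f (b (a (d (b (a e))))))))), t false 1 (d (c (f (b (c (a (d (b (a e))))))))), t false 1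
  (d (f (b (c (a (d (b (a (f e))))))))), t true 1 (f (a (d (a (b (c (f (b (a e)))))))))])) nil nil
  nil) nil (hit [t false 1 (a (d (f (a (b (a (f e))))))), t false 1 (d (f (a (d (b (a (f e))))))), t
  true 1 (f (a (d (a (f (b (a e)))))))])) (br (br nil nil nil nil (hit [t false 1 (a (b (d (f (a (b
  (a (f e)))))))), t false 1 (d (f (a (b (d (b (a (f e)))))))), t true 1 (f (a (b (d (a (f (b (a
  e))))))))])) nil (br (br nil nil nil nil (hit [t false 1 (a (c (b (d (f (a (b (a (f e))))))))), t
  false 1 (c (b (d (f (a (c (b (a (f e))))))))), t false 1 (d (f (a (c (b (d (b (a (f e))))))))), t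
  true 1 (f (a (c (b (d (a (f (b (a e)))))))))])) (br nil nil nil nil (hit [t false 1 (a (f (b (c (b
  (d (a (b (a e))))))))), t true 1 (c (d (a (f (b (c (b (d (a e))))))))), t true 1 (c (d (f (b (c (b
  (d (a (f e))))))))), t false 1 (d (a (f (b (c (b (d (b (a e))))))))), t false 1 (d (f (b (c (b (d
  (b (a (f e)))))))))])) nil nil nil) nil nil) (br (br nil (br (br nil nil nil nil (hit [t true 1 (a
  (b (c (d (f (a (b (a (c (f e)))))))))), t true 1 (a (b (d (f (a (b (a (c (d (f e)))))))))), t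
  false 1 (c (d (f (a (b (a (c (b (a (f e)))))))))), t false 1 (d (f (a (b (a (c (d (b (a (f
  e)))))))))), t true 1 (f (a (b (a (c (d (a (f (b (a e))))))))))])) nil nil nil nil) nil nil (hit
  [t false 1 (a (c (d (f (a (b (a (f e)))))))), t false 1 (c (d (f (a (c (b (a (f e)))))))), t false
  1 (d (f (a (c (d (b (a (f e)))))))), t true 1 (f (a (c (d (a (f (b (a e))))))))])) (br (br nil nil
  nil nil (hit [t false 1 (a (b (c (d (f (a (b (a (f e))))))))), t false 1 (c (d (f (a (b (c (b (a
  (f e))))))))), t false 1 (d (f (a (b (c (d (b (a (f e))))))))), t true 1 (f (a (b (c (d (a (f (b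
  (a e)))))))))])) nil nil nil nil) nil nil nil) nil nil) nil) (br nil (br nil nil nil (br (br nil
  (br nil nil nil nil (hit [t false 1 (a (b (f (b (d (b (c (a (b e))))))))), t true 1 (b (f (a (d (b
  (a (c (a (b e))))))))), t true 1 (b (f (b (a (d (b (c (a (b e))))))))), t false 1 (c (a (b (f (b
  (d (b (c (b e))))))))), t true 1 (c (b (f (a (d (a (c (b (a e))))))))), t true 1 (c (b (f (a (d (b
  (a (c (b e))))))))), t true 1 (c (b (f (b (a (d (b (c (b e))))))))), t true 1 (d (a (b (f (b (d (b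
  (c (a e))))))))), t true 1 (d (b (f (a (d (a (c (a (b e))))))))), t false 1 (d (b (f (a (d (b (a
  (c (a e))))))))), t false 1 (d (b (f (b (a (d (b (c (a e))))))))), t true 1 (d (c (a (b (f (b (d
  (b (c e))))))))), t false 1 (d (c (b (f (a (d (b (a (c e))))))))), t false 1 (d (c (b (f (b (a (d
  (b (c e))))))))), t true 1 (d (f (a (d (a (c (a (b (f e))))))))), t false 1 (d (f (a (d (b (a (c
  (a (f e))))))))), t false 1 (d (f (b (a (d (b (c (a (f e))))))))), t false 1 (f (a (d (a (c (a (b
  (f (b e))))))))), t true 1 (f (a (d (a (c (b (f (b (a e))))))))), t true 1 (f (a (d (b (a (c (a (f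
  (b e)))))))))])) nil nil nil) (br nil nil (br nil (br nil nil nil nil (hit [t true 1 (a (c (d (c
  (f (a (b (a (d (c e)))))))))), t true 1 (a (c (d (f (a (b (a (d (c (f e)))))))))), t false 1 (a (f
  (b (a (c (b (d (b (c (b e)))))))))), t true 1 (a (f (b (c (b (d (b (c (a (b e)))))))))), t false 1
  (c (a (f (a (b (a (d (b (c (b e)))))))))), t false 1 (c (d (a (f (b (a (c (b (d (c e)))))))))), t
  true 1 (c (d (a (f (b (c (b (d (c (a e)))))))))), t false 1 (c (d (c (a (f (a (b (a (d (c
  e)))))))))), t false 1 (c (d (f (b (a (c (b (d (c (f e)))))))))), t true 1 (c (d (f (b (c (b (d (c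
  (a (f e)))))))))), t true 1 (d (a (f (b (a (c (b (d (b (c e)))))))))), t false 1 (d (a (f (b (c (b
  (d (b (c (a e)))))))))), t true 1 (d (c (a (f (a (b (a (d (b (c e)))))))))), t true 1 (d (f (b (a
  (c (b (d (b (c (f e)))))))))), t false 1 (d (f (b (c (b (d (b (c (a (f e)))))))))), t false 1 (f
  (b (a (c (b (d (b (c (f (b e))))))))))])) nil nil nil) nil (hit [t true 1 (a (f (b (d (b (c (a (b
  e)))))))), t true 1 (c (a (f (b (d (b (c (b e)))))))), t false 1 (d (a (f (b (d (b (c (a
  e)))))))), t false 1 (d (c (a (f (b (d (b (c e)))))))), t false 1 (d (f (b (d (b (c (a (f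
  e))))))))])) (br nil (br nil nil nil nil (hit [t false 1 (a (c (d (c (f (a (b (a (c e))))))))), t
  false 1 (a (c (d (f (a (b (a (c (f e))))))))), t false 1 (a (f (b (a (c (d (b (c (b e))))))))), t
  true 1 (a (f (b (c (d (b (c (a (b e))))))))), t true 1 (c (a (f (b (a (d (b (c (b e))))))))), t
  true 1 (c (d (a (f (a (b (a (c (b e))))))))), t true 1 (c (d (c (a (f (a (b (a (c e))))))))), t
  true 1 (c (d (f (a (b (a (c (b (f e))))))))), t true 1 (d (a (f (b (a (c (d (b (c e))))))))), t
  false 1 (d (a (f (b (c (d (b (c (a e))))))))), t false 1 (d (c (a (f (b (a (d (b (c e))))))))), t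
  true 1 (d (f (b (a (c (d (b (c (f e))))))))), t false 1 (d (f (b (c (d (b (c (a (f e))))))))), t
  false 1 (f (b (a (c (d (b (c (f (b e)))))))))])) nil nil nil) nil nil) nil) nil (br nil (br nil
  nil (br nil (br nil nil nil nil (hit [t false 1 (a (c (d (c (f (a (b (a (d e))))))))), t false 1
  (a (c (f (a (b (a (d (c (f e))))))))), t false 1 (a (f (b (a (c (b (d (c (b e))))))))), t true 1
  (a (f (b (c (b (d (c (a (b e))))))))), t false 1 (c (a (f (a (b (a (d (c (b e))))))))), t true 1
  (c (a (f (b (a (c (b (d (c e))))))))), t false 1 (c (a (f (b (c (b (d (c (a e))))))))), t true 1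
  (c (d (a (f (b (a (c (b (d e))))))))), t true 1 (c (d (c (a (f (a (b (a (d e))))))))), t true 1 (c
  (f (b (a (c (b (d (c (f e))))))))), t false 1 (c (f (b (c (b (d (c (a (f e))))))))), t false 1 (d
  (a (f (b (a (c (b (d (b e))))))))), t false 1 (d (c (a (f (a (b (a (d (b e))))))))), t false 1 (f
  (b (a (c (b (d (c (f (b e)))))))))])) nil nil nil) nil nil) nil nil nil) nil) (br nil (br nil nil
  (br (br nil (br nil nil nil nil (hit [t false 1 (a (b (f (b (c (b (d (a (b e))))))))), t true 1 (b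
  (f (a (c (b (a (d (a (b e))))))))), t true 1 (b (f (b (a (c (b (d (a (b e))))))))), t true 1 (c (a
  (b (f (b (c (b (d (a e))))))))), t true 1 (c (b (f (a (c (a (d (a (b e))))))))), t false 1 (c (b
  (f (a (c (b (a (d (a e))))))))), t false 1 (c (b (f (b (a (c (b (d (a e))))))))), t true 1 (c (d
  (a (b (f (b (c (b (d e))))))))), t false 1 (c (d (b (f (a (c (b (a (d e))))))))), t false 1 (c (d
  (b (f (b (a (c (b (d e))))))))), t true 1 (c (f (a (c (a (d (a (b (f e))))))))), t false 1 (c (f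
  (a (c (b (a (d (a (f e))))))))), t false 1 (c (f (b (a (c (b (d (a (f e))))))))), t false 1 (d (a
  (b (f (b (c (b (d (b e))))))))), t true 1 (d (b (f (a (c (a (d (b (a e))))))))), t true 1 (d (b (f
  (a (c (b (a (d (b e))))))))), t true 1 (d (b (f (b (a (c (b (d (b e))))))))), t false 1 (f (a (c
  (a (d (a (b (f (b e))))))))), t true 1 (f (a (c (a (d (b (f (b (a e))))))))), t true 1 (f (a (c (b
  (a (d (a (f (b e)))))))))])) nil nil nil) (br nil nil nil (br nil (br nil nil nil nil (hit [t
  false 1 (a (c (d (c (f (a (b (a (c (d e)))))))))), t false 1 (a (c (d (f (a (b (a (c (f (d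
  e)))))))))), t false 1 (a (f (b (a (c (d (b (c (b (d e)))))))))), t true 1 (a (f (b (c (d (b (c (a
  (b (d e)))))))))), t false 1 (a (f (b (d (b (c (a (b (d (a e)))))))))), t true 1 (c (a (f (b (a (d
  (b (c (b (d e)))))))))), t false 1 (c (a (f (b (d (b (c (b (d (a e)))))))))), t true 1 (c (d (a (f
  (a (b (a (c (b (d e)))))))))), t true 1 (c (d (c (a (f (a (b (a (c (d e)))))))))), t true 1 (c (d
  (f (a (b (a (c (b (f (d e)))))))))), t false 1 (c (f (b (d (b (c (b (d (a (f e)))))))))), t true 1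
  (d (a (c (f (b (a (d (b (c (f e)))))))))), t false 1 (d (a (f (a (b (a (c (b (d (b e)))))))))), t
  true 1 (d (b (a (c (f (b (d (b (c (f e)))))))))), t false 1 (d (c (a (f (a (b (a (c (d (b
  e)))))))))), t true 1 (d (c (a (f (b (a (c (d (b (c e)))))))))), t false 1 (d (c (a (f (b (c (d (b
  (c (a e)))))))))), t true 1 (d (c (f (b (a (c (d (b (c (f e)))))))))), t false 1 (d (c (f (b (c (d
  (b (c (a (f e)))))))))), t false 1 (d (f (a (b (a (c (b (f (d (b e)))))))))), t false 1 (f (b (a
  (c (d (b (c (f (b (d e))))))))))])) nil nil nil) (hit [t true 1 (a (f (b (c (b (d (a (b e)))))))),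
  t false 1 (c (a (f (b (c (b (d (a e)))))))), t false 1 (c (d (a (f (b (c (b (d e)))))))), t false
  1 (c (f (b (c (b (d (a (f e)))))))), t true 1 (d (a (f (b (c (b (d (b e))))))))])) nil nil nil)
  nil nil) (br (br nil (br (br nil nil (br nil nil nil nil (hit [t true 1 (a (b (f (a (b (c (a (d (a
  (c e)))))))))), t false 1 (a (b (f (a (c (a (d (a (c (b e)))))))))), t false 1 (a (b (f (c (a (b
  (a (c (d (a e)))))))))), t false 1 (a (c (b (f (a (b (a (d (a (c e)))))))))), t false 1 (a (c (b
  (f (b (c (a (b (d (a e)))))))))), t false 1 (a (c (b (f (b (c (b (d (a (b e)))))))))), t true 1 (a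
  (d (a (c (b (f (b (c (b (d e)))))))))), t false 1 (a (d (b (f (c (a (b (a (c (d e)))))))))), t
  false 1 (a (d (c (b (f (b (c (a (b (d e)))))))))), t true 1 (a (f (a (b (c (a (d (a (c (f
  e)))))))))), t false 1 (a (f (a (c (a (d (a (c (b (f e)))))))))), t false 1 (a (f (c (a (b (a (c
  (d (a (f e)))))))))), t false 1 (b (f (a (b (c (a (d (a (c (b e)))))))))), t true 1 (b (f (c (a (b
  (a (c (d (a (b e)))))))))), t false 1 (c (a (b (f (a (c (a (d (a (b e)))))))))), t true 1 (c (a (b
  (f (a (c (b (a (d (a e)))))))))), t true 1 (c (a (b (f (b (a (c (b (d (a e)))))))))), t false 1 (c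
  (a (d (a (b (f (b (c (b (d e)))))))))), t true 1 (c (a (d (b (f (a (c (b (a (d e)))))))))), t true
  1 (c (a (d (b (f (b (a (c (b (d e)))))))))), t false 1 (c (a (f (a (c (a (d (a (b (f e)))))))))),
  t true 1 (c (a (f (a (c (b (a (d (a (f e)))))))))), t true 1 (c (a (f (b (a (c (b (d (a (f
  e)))))))))), t true 1 (c (b (f (a (b (a (d (a (c (b e)))))))))), t true 1 (c (b (f (b (c (a (b (d
  (a (b e)))))))))), t false 1 (d (a (c (b (f (b (c (b (d (b e)))))))))), t false 1 (d (b (f (a (c
  (a (d (b (a (c e)))))))))), t true 1 (d (b (f (c (a (b (a (c (d (b e)))))))))), t true 1 (d (c (b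
  (f (b (c (a (b (d (b e)))))))))), t false 1 (f (a (b (c (a (d (a (c (f (b e)))))))))), t true 1 (f
  (a (c (a (d (a (c (b (f (b e)))))))))), t false 1 (f (a (c (a (d (b (f (b (a (c e))))))))))])) nil
  nil) nil nil nil nil) nil nil nil) nil nil nil nil) nil nil) nil) (br (br nil nil (br (br nil (br
  nil nil nil nil (hit [t true 1 (a (b (f (b (c (a (b (f e)))))))), t true 1 (a (c (b (f (a (b (a (f
  e)))))))), t false 1 (b (f (b (a (c (a (b (f e)))))))), t true 1 (c (a (b (f (b (c (b (f
  e)))))))), t false 1 (c (b (f (b (a (c (b (f e))))))))])) nil (br (br nil (br nil nil nil nil (hit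
  [t false 1 (a (b (c (a (d (f (b (d (b (f e)))))))))), t false 1 (a (b (c (b (d (f (a (b (a (f
  e)))))))))), t true 1 (a (b (c (d (f (b (d (a (b (f e)))))))))), t false 1 (a (b (d (f (b (d (c (a
  (b (f e)))))))))), t true 1 (a (d (b (c (b (f (a (b (a (f e)))))))))), t false 1 (b (c (a (b (d (f
  (b (d (b (f e)))))))))), t true 1 (b (c (b (d (f (b (a (d (b (f e)))))))))), t false 1 (b (c (d (f
  (b (a (d (a (b (f e)))))))))), t true 1 (b (d (f (b (a (d (c (a (b (f e)))))))))), t false 1 (c (a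
  (b (d (f (b (d (c (b (f e)))))))))), t true 1 (c (b (d (f (b (a (d (c (b (f e)))))))))), t true 1
  (c (d (f (a (d (a (b (c (b (f e)))))))))), t false 1 (c (d (f (b (a (d (a (c (b (f e)))))))))), t
  true 1 (d (a (b (c (a (f (b (d (b (f e)))))))))), t true 1 (d (b (c (a (b (f (b (d (b (f
  e)))))))))), t false 1 (d (b (c (b (f (b (a (d (b (f e)))))))))), t false 1 (d (f (a (b (c (a (b
  (d (b (f e)))))))))), t true 1 (d (f (a (d (a (b (c (a (b (f e)))))))))), t false 1 (d (f (b (a (d
  (a (c (a (b (f e)))))))))), t true 1 (f (a (b (c (a (b (d (b (f (b e)))))))))), t false 1 (f (a (d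
  (a (b (c (a (b (f (b e))))))))))])) nil nil nil) (br nil nil nil nil (hit [t true 1 (a (b (d (f (b
  (c (a (b (f e))))))))), t true 1 (a (c (a (d (f (b (d (b (f e))))))))), t true 1 (a (c (b (d (f (a
  (b (a (f e))))))))), t false 1 (a (c (d (f (b (d (a (b (f e))))))))), t true 1 (a (d (f (b (d (c
  (a (b (f e))))))))), t false 1 (b (d (f (b (a (c (a (b (f e))))))))), t true 1 (c (a (b (d (f (b
  (c (b (f e))))))))), t true 1 (c (a (d (f (b (d (c (b (f e))))))))), t false 1 (c (b (d (f (b (a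
  (c (b (f e))))))))), t false 1 (c (d (f (b (d (a (c (b (f e))))))))), t false 1 (d (a (c (a (f (b
  (d (b (f e))))))))), t true 1 (d (f (a (c (a (b (d (b (f e))))))))), t false 1 (d (f (b (d (a (c
  (a (b (f e))))))))), t false 1 (f (a (c (a (b (d (b (f (b e)))))))))])) nil nil nil) nil) (br nil
  nil nil nil (hit [t false 1 (a (f (b (c (a (b (f e))))))), t false 1 (c (a (f (b (c (b (f
  e)))))))])) nil (br (br nil (br nil nil nil nil (hit [t true 1 (a (b (f (b (d (c (a (b (f
  e))))))))), t true 1 (a (d (c (b (f (a (b (a (f e))))))))), t false 1 (b (f (b (a (d (c (a (b (f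
  e))))))))), t true 1 (c (a (b (f (b (d (c (b (f e))))))))), t false 1 (c (b (f (b (a (d (c (b (f
  e))))))))), t true 1 (d (c (a (b (f (b (d (b (f e))))))))), t false 1 (d (c (b (f (b (a (d (b (f
  e)))))))))])) nil nil nil) (br nil nil nil nil (hit [t false 1 (a (f (b (d (c (a (b (f e)))))))),
  t false 1 (c (a (f (b (d (c (b (f e)))))))), t false 1 (d (c (a (f (b (d (b (f e))))))))])) (br
  nil (br nil nil nil nil (hit [t false 1 (a (c (d (c (f (a (b (a (f e))))))))), t true 1 (a (c (d
  (f (a (b (a (f (c e))))))))), t false 1 (a (c (f (a (b (a (f (d (c e))))))))), t false 1 (a (d (c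
  (f (a (b (a (f (d e))))))))), t true 1 (a (d (f (a (b (a (f (c (d e))))))))), t false 1 (a (f (a
  (b (a (c (d (c (f e))))))))), t true 1 (a (f (a (b (a (f (c (d (c e))))))))), t false 1 (a (f (b
  (c (d (c (a (b (f e))))))))), t false 1 (b (a (f (b (c (d (c (b (f e))))))))), t true 1 (c (b (a
  (f (b (d (c (b (f e))))))))), t false 1 (c (d (b (a (f (b (c (b (f e))))))))), t true 1 (c (d (c
  (a (f (a (b (a (f e))))))))), t false 1 (c (d (f (a (b (a (f (c (b e))))))))), t true 1 (c (f (a
  (b (a (f (d (c (b e))))))))), t false 1 (d (b (a (f (b (c (d (b (f e))))))))), t true 1 (d (c (b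
  (a (f (b (d (b (f e))))))))), t true 1 (d (c (f (a (b (a (f (d (b e))))))))), t false 1 (d (f (a
  (b (a (f (c (d (b e))))))))), t true 1 (f (a (b (a (c (d (c (f (b e))))))))), t false 1 (f (a (b
  (a (f (c (d (c (b e)))))))))])) nil nil nil) nil nil) nil) (br (br nil (br nil nil nil nil (hit [t
  true 1 (a (b (f (b (d (a (b (f e)))))))), t true 1 (a (d (b (f (a (b (a (f e)))))))), t false 1 (b
  (f (b (a (d (a (b (f e)))))))), t true 1 (d (a (b (f (b (d (b (f e)))))))), t false 1 (d (b (f (b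
  (a (d (b (f e))))))))])) (br nil (br nil nil nil nil (hit [t true 1 (a (b (c (f (b (d (a (b (f
  e))))))))), t true 1 (a (c (f (b (c (d (a (b (f e))))))))), t true 1 (a (d (a (c (f (b (c (b (f
  e))))))))), t true 1 (a (d (b (c (f (a (b (a (f e))))))))), t false 1 (a (d (c (f (b (c (a (b (f
  e))))))))), t false 1 (b (c (f (b (a (d (a (b (f e))))))))), t false 1 (c (a (d (a (f (b (c (b (f
  e))))))))), t true 1 (c (f (a (d (a (b (c (b (f e))))))))), t false 1 (c (f (b (c (a (d (a (b (f
  e))))))))), t true 1 (d (a (b (c (f (b (d (b (f e))))))))), t true 1 (d (a (c (f (b (c (d (b (f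
  e))))))))), t false 1 (d (b (c (f (b (a (d (b (f e))))))))), t false 1 (d (c (f (b (c (a (d (b (f
  e))))))))), t false 1 (f (a (d (a (b (c (b (f (b e)))))))))])) nil nil nil) nil nil) (br nil nil
  nil nil (hit [t false 1 (a (f (b (d (a (b (f e))))))), t false 1 (d (a (f (b (d (b (f e)))))))]))
  (br (br nil (br nil nil nil nil (hit [t true 1 (a (b (f (b (c (d (a (b (f e))))))))), t true 1 (a
  (c (d (b (f (a (b (a (f e))))))))), t false 1 (b (f (b (a (c (d (a (b (f e))))))))), t true 1 (c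
  (d (a (b (f (b (c (b (f e))))))))), t false 1 (c (d (b (f (b (a (c (b (f e))))))))), t true 1 (d
  (a (b (f (b (c (d (b (f e))))))))), t false 1 (d (b (f (b (a (c (d (b (f e)))))))))])) nil nil
  nil) (br nil nil nil nil (hit [t false 1 (a (f (b (c (d (a (b (f e)))))))), t false 1 (c (d (a (f
  (b (c (b (f e)))))))), t false 1 (d (a (f (b (c (d (b (f e))))))))])) nil nil nil) nil nil) nil)
  nil (br (br nil (br (br nil nil nil nil (hit [t true 1 (a (c (f (a (b (a (c (f e)))))))), t false
  1 (c (f (a (b (a (c (b (f e))))))))])) nil nil nil (hit [t true 1 (a (c (f (a (b (a (f e))))))), t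
  false 1 (c (f (b (a (c (b (f e)))))))])) nil (br (br nil (br nil nil nil nil (hit [t true 1 (a (b
  (c (f (b (d (a (b (f e))))))))), t true 1 (a (d (b (c (f (a (b (a (f e))))))))), t false 1 (b (c
  (f (b (a (d (a (b (f e))))))))), t true 1 (c (f (a (d (a (b (c (b (f e))))))))), t false 1 (c (f
  (b (a (d (a (c (b (f e))))))))), t true 1 (d (a (b (c (f (b (d (b (f e))))))))), t false 1 (d (b
  (c (f (b (a (d (b (f e))))))))), t false 1 (f (a (d (a (b (c (b (f (b e)))))))))])) (br nil (br
  nil nil nil nil (hit [t true 1 (a (c (b (f (b (c (d (a (b (f e)))))))))), t true 1 (a (d (a (c (b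
  (f (b (c (b (f e)))))))))), t false 1 (a (d (c (b (f (b (c (a (b (f e)))))))))), t false 1 (b (f
  (b (c (a (d (a (c (b (f e)))))))))), t false 1 (c (a (d (a (b (f (b (c (b (f e)))))))))), t true 1
  (c (b (f (b (a (d (a (c (b (f e)))))))))), t false 1 (c (b (f (b (c (a (d (a (b (f e)))))))))), t
  true 1 (d (a (c (b (f (b (c (d (b (f e)))))))))), t false 1 (d (c (b (f (b (c (a (d (b (f
  e))))))))))])) nil nil nil) nil nil) (br nil nil nil nil (hit [t false 1 (a (c (f (b (d (a (b (f
  e)))))))), t false 1 (c (f (b (d (a (c (b (f e)))))))), t false 1 (d (a (c (f (b (d (b (f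
  e))))))))])) (br nil (br nil nil nil nil (hit [t false 1 (a (b (f (b (c (d (a (b (f e))))))))), t
  true 1 (a (c (b (f (b (d (a (b (f e))))))))), t false 1 (b (f (b (c (d (a (c (b (f e))))))))), t
  true 1 (c (b (f (b (d (a (c (b (f e))))))))), t false 1 (c (d (a (b (f (b (c (b (f e))))))))), t
  false 1 (d (a (b (f (b (c (d (b (f e))))))))), t true 1 (d (a (c (b (f (b (d (b (f e)))))))))]))
  nil nil nil) nil nil) nil) (br (br nil nil nil (br nil (br nil nil nil nil (hit [t true 1 (a (c (f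
  (b (d (a (b (c (f e))))))))), t false 1 (c (f (b (d (a (b (c (b (f e))))))))), t true 1 (d (a (c
  (f (b (d (b (c (f e)))))))))])) nil nil nil) (hit [t true 1 (a (b (c (a (b (f (a e))))))), t true
  1 (a (b (c (b (f (a (b e))))))), t false 1 (c (f (a (b (c (b (f e)))))))])) nil nil (br (br nil
  (br (br nil nil nil nil (hit [t false 1 (a (d (c (f (a (b (a (d (c (f e)))))))))), t false 1 (c (f
  (a (b (a (d (b (c (b (f e)))))))))), t true 1 (d (c (f (a (b (a (d (b (c (f e))))))))))])) nil nil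
  nil nil) nil nil nil) (br (br nil nil nil nil (hit [t true 1 (a (b (d (a (b (c (a (f (a
  e))))))))), t true 1 (a (b (d (b (c (a (b (f (a e))))))))), t true 1 (a (b (d (b (c (b (f (a (b
  e))))))))), t false 1 (c (f (a (b (d (b (c (b (f e))))))))), t true 1 (d (c (f (a (b (d (b (c (f
  e)))))))))])) nil nil nil nil) nil nil nil) (hit [t false 1 (c (f (b (c (b (f e))))))])) nil (br
  (br nil (br nil nil nil nil (hit [t true 1 (a (d (c (f (a (b (a (f e)))))))), t false 1 (c (f (b
  (a (d (c (b (f e)))))))), t false 1 (d (c (f (b (a (d (b (f e))))))))])) (br (br nil nil nil nil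
  (hit [t true 1 (a (b (f (a (b (c (a (d (c e))))))))), t false 1 (a (b (f (a (c (a (d (c (b
  e))))))))), t false 1 (a (c (b (f (a (b (a (d (c e))))))))), t true 1 (a (d (b (f (a (b (c (a (d
  e))))))))), t false 1 (a (d (c (b (f (a (b (a (d e))))))))), t true 1 (a (f (a (b (c (a (d (c (f
  e))))))))), t false 1 (a (f (a (c (a (d (c (b (f e))))))))), t false 1 (b (f (a (b (c (a (d (c (b
  e))))))))), t true 1 (c (b (f (a (b (a (d (c (b e))))))))), t false 1 (d (b (f (a (b (c (a (d (b
  e))))))))), t false 1 (d (b (f (a (c (a (d (b (c e))))))))), t true 1 (d (c (b (f (a (b (a (d (b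
  e))))))))), t false 1 (f (a (b (c (a (d (c (f (b e))))))))), t false 1 (f (a (c (a (d (b (f (b (c
  e)))))))))])) (br nil nil nil nil (hit [t false 1 (a (d (b (f (b (c (a (b (f e))))))))), t false 1
  (a (d (c (b (f (a (b (a (f e))))))))), t false 1 (b (f (b (c (a (d (c (b (f e))))))))), t false 1
  (c (a (d (b (f (b (c (b (f e))))))))), t true 1 (c (b (f (b (a (d (c (b (f e))))))))), t false 1
  (d (b (f (b (c (a (d (b (f e))))))))), t true 1 (d (c (b (f (b (a (d (b (f e)))))))))])) nil nil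
  nil) nil nil) (br (br nil nil nil nil (hit [t true 1 (a (b (d (c (a (b (f (a e)))))))), t true 1
  (a (b (d (c (b (f (a (b e)))))))), t false 1 (c (f (a (b (d (c (b (f e)))))))), t false 1 (d (c (f
  (a (b (d (b (f e))))))))])) nil nil nil (hit [t false 1 (c (f (b (d (c (b (f e))))))), t false 1
  (d (c (f (b (d (b (f e)))))))])) (br nil (br nil nil nil nil (hit [t false 1 (b (f (b (c (d (c (b
  (f e)))))))), t true 1 (c (b (f (b (d (c (b (f e)))))))), t false 1 (c (d (b (f (b (c (b (f
  e)))))))), t false 1 (d (b (f (b (c (d (b (f e)))))))), t true 1 (d (c (b (f (b (d (b (f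
  e))))))))])) nil nil nil) nil nil) nil) (br (br nil (br (br nil nil nil nil (hit [t true 1 (a (d
  (f (a (b (a (d (f e)))))))), t false 1 (d (f (a (b (a (d (b (f e))))))))])) nil (br (br nil nil
  nil nil (hit [t true 1 (a (c (d (f (a (b (a (d (f e))))))))), t true 1 (c (d (f (a (c (b (a (d (f
  e))))))))), t false 1 (d (f (a (c (a (d (b (a (f e))))))))), t false 1 (d (f (a (c (b (a (d (b (f
  e))))))))), t true 1 (f (a (c (a (d (a (f (b (a e))))))))), t true 1 (f (a (c (a (d (b (a (f (b
  e)))))))))])) (br (br nil nil nil nil (hit [t true 1 (a (b (c (d (f (a (b (a (d (f e)))))))))), t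
  true 1 (c (d (f (a (b (c (b (a (d (f e)))))))))), t false 1 (d (f (a (b (c (a (d (b (a (f
  e)))))))))), t false 1 (d (f (a (b (c (b (a (d (b (f e)))))))))), t true 1 (f (a (b (c (a (d (a (f
  (b (a e)))))))))), t true 1 (f (a (b (c (a (d (b (a (f (b e))))))))))])) nil nil nil nil) nil nil
  nil) nil (hit [t true 1 (a (d (f (a (b (a (f e))))))), t false 1 (d (f (b (a (d (b (f e)))))))]))
  (br (br nil (br nil nil nil nil (hit [t true 1 (a (b (d (f (b (c (a (b (f e))))))))), t true 1 (a
  (c (b (d (f (a (b (a (f e))))))))), t false 1 (b (d (f (b (a (c (a (b (f e))))))))), t true 1 (c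
  (a (b (d (f (b (c (b (f e))))))))), t false 1 (c (b (d (f (b (a (c (b (f e))))))))), t true 1 (d
  (f (a (c (a (b (d (b (f e))))))))), t false 1 (d (f (b (a (c (a (d (b (f e))))))))), t false 1 (f
  (a (c (a (b (d (b (f (b e)))))))))])) nil nil nil) (br nil nil nil nil (hit [t false 1 (a (d (f (b
  (c (a (b (f e)))))))), t false 1 (c (a (d (f (b (c (b (f e)))))))), t false 1 (d (f (b (c (a (d (b
  (f e))))))))])) nil nil nil) nil nil) (br (br nil nil (br nil (br nil nil nil nil (hit [t true 1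
  (a (d (f (b (c (a (b (d (f e))))))))), t true 1 (c (a (d (f (b (c (b (d (f e))))))))), t false 1
  (d (f (b (c (a (b (d (b (f e)))))))))])) nil nil nil) nil (hit [t true 1 (a (b (d (a (b (f (a
  e))))))), t true 1 (a (b (d (b (f (a (b e))))))), t false 1 (d (f (a (b (d (b (f e)))))))])) nil
  (br (br nil (br (br nil nil nil nil (hit [t false 1 (a (c (d (f (a (b (a (c (d (f e)))))))))), t
  true 1 (c (d (f (a (b (a (c (b (d (f e)))))))))), t false 1 (d (f (a (b (a (c (b (d (b (f
  e))))))))))])) nil nil nil (hit [t false 1 (a (c (d (f (a (b (a (d (f e))))))))), t true 1 (c (d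
  (f (b (a (c (b (d (f e))))))))), t false 1 (d (f (b (a (c (b (d (b (f e)))))))))])) nil nil nil)
  (br (br nil nil nil nil (hit [t true 1 (a (b (c (a (b (d (a (f (a e))))))))), t true 1 (a (b (c (b
  (d (a (b (f (a e))))))))), t true 1 (a (b (c (b (d (b (f (a (b e))))))))), t true 1 (c (d (f (a (b
  (c (b (d (f e))))))))), t false 1 (d (f (a (b (c (b (d (b (f e)))))))))])) nil nil nil nil) nil
  nil nil) nil (hit [t false 1 (d (f (b (d (b (f e))))))])) (br (br nil (br (br nil nil (br nil nil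
  nil nil (hit [t true 1 (a (d (f (c (a (b (a (c (d (f e)))))))))), t false 1 (c (a (d (f (a (c (b
  (a (d (f e)))))))))), t false 1 (c (a (d (f (b (a (c (b (d (f e)))))))))), t true 1 (d (f (a (c (a
  (d (b (a (c (f e)))))))))), t false 1 (d (f (c (a (b (a (c (d (b (f e)))))))))), t false 1 (f (a
  (c (a (d (a (c (f (b (a e)))))))))), t false 1 (f (a (c (a (d (b (a (c (f (b e)))))))))), t false
  1 (f (a (c (a (d (c (f (b (a (c e))))))))))])) nil (hit [t true 1 (a (c (d (f (a (b (a (c (f
  e))))))))), t true 1 (a (d (f (a (b (a (c (d (f e))))))))), t false 1 (c (d (f (a (b (a (c (b (f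
  e))))))))), t false 1 (d (f (a (b (a (c (d (b (f e)))))))))])) nil nil nil (hit [t true 1 (a (c (d
  (f (a (b (a (f e)))))))), t false 1 (c (d (f (b (a (c (b (f e)))))))), t false 1 (d (f (b (a (c (d
  (b (f e))))))))])) nil nil nil) (br (br nil nil nil nil (hit [t true 1 (a (b (c (d (a (b (f (a
  e)))))))), t true 1 (a (b (c (d (b (f (a (b e)))))))), t false 1 (c (d (f (a (b (c (b (f
  e)))))))), t false 1 (d (f (a (b (c (d (b (f e))))))))])) nil nil nil (hit [t false 1 (c (d (f (b
  (c (b (f e))))))), t false 1 (d (f (b (c (d (b (f e)))))))])) nil nil nil) nil nil) nil) (br (br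
  nil (br (br nil nil (br nil (br nil nil nil nil (hit [t false 1 (a (b (f (b (c (a (b (a (c
  e))))))))), t false 1 (a (f (b (c (a (b (a (c (f e))))))))), t true 1 (b (f (b (a (c (a (b (a (c
  e))))))))), t true 1 (c (a (b (f (b (a (c (b (a e))))))))), t true 1 (c (a (f (b (a (c (b (a (f
  e))))))))), t false 1 (f (a (c (a (b (f (b (a (c e)))))))))])) nil nil (hit [t false 1 (a (f (c (a
  (b (a (c (f e)))))))), t true 1 (c (a (f (a (c (b (a (f e)))))))), t true 1 (c (a (f (b (a (c (b
  (f e)))))))), t false 1 (f (a (c (a (f (b (a (c e))))))))])) (br nil (br nil nil nil nil (hit [t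
  false 1 (a (b (d (a (b (a (c (f (a e))))))))), t false 1 (a (c (f (b (d (a (b (a (c e))))))))), t
  false 1 (a (d (a (b (a (c (f (a (d e))))))))), t false 1 (a (f (b (d (a (b (a (c (f e))))))))), t
  true 1 (b (d (a (b (a (c (f (a (b e))))))))), t true 1 (c (f (b (d (a (b (a (c (b e))))))))), t
  true 1 (d (a (b (a (c (f (a (d (b e))))))))), t false 1 (d (a (c (f (a (b (d (b (c e))))))))), t
  false 1 (d (a (f (a (b (d (b (c (f e)))))))))])) nil nil nil) (hit [t false 1 (a (c (f (a (b (a (c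
  e))))))), t false 1 (a (f (a (b (a (c (f e))))))), t true 1 (c (f (a (b (a (c (b e)))))))])) nil
  nil (br (br nil (br (br nil nil nil nil (hit [t true 1 (a (b (d (c (f (a (b (a (d (c e)))))))))),
  t true 1 (a (b (d (f (a (b (a (d (c (f e)))))))))), t true 1 (c (f (a (b (a (d (a (c (b (a
  e)))))))))), t true 1 (c (f (a (b (a (d (b (a (c (b e)))))))))), t false 1 (d (c (f (a (b (a (d (b
  (a (c e)))))))))), t false 1 (d (f (a (b (a (d (b (a (c (f e)))))))))), t true 1 (f (a (b (a (d (a
  (c (f (b (a e))))))))))])) nil nil nil (hit [t true 1 (a (b (c (f (b (d (a (b (a e))))))))), t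
  false 1 (b (c (f (b (a (d (a (b (a e))))))))), t true 1 (c (f (a (d (a (b (c (b (a e))))))))), t
  true 1 (c (f (b (a (d (b (a (c (b e))))))))), t true 1 (d (a (b (c (f (b (d (b (a e))))))))), t
  false 1 (d (b (c (f (b (a (d (b (a e))))))))), t false 1 (d (c (f (b (a (d (b (a (c e))))))))), t
  false 1 (d (f (b (a (d (b (a (c (f e))))))))), t true 1 (f (a (d (a (b (c (f (b (a e)))))))))]))
  nil nil (hit [t false 1 (a (d (c (f (a (b (a (c e)))))))), t false 1 (a (d (f (a (b (a (c (f
  e)))))))), t true 1 (c (f (a (d (a (c (b (a e)))))))), t true 1 (c (f (a (d (b (a (c (b e)))))))),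
  t false 1 (d (c (f (a (d (b (a (c e)))))))), t false 1 (d (f (a (d (b (a (c (f e)))))))), t true 1
  (f (a (d (a (c (f (b (a e))))))))])) (br (br nil nil nil nil (hit [t false 1 (a (b (d (c (f (a (b
  (a (c e))))))))), t false 1 (a (b (d (f (a (b (a (c (f e))))))))), t true 1 (c (f (a (b (d (a (c
  (b (a e))))))))), t true 1 (c (f (a (b (d (b (a (c (b e))))))))), t false 1 (d (c (f (a (b (d (b
  (a (c e))))))))), t false 1 (d (f (a (b (d (b (a (c (f e))))))))), t true 1 (f (a (b (d (a (c (f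
  (b (a e)))))))))])) nil nil nil nil) nil nil nil) nil) nil nil nil) (br (br nil nil nil (br nil
  (br nil nil nil nil (hit [t false 1 (a (c (f (b (d (a (b (c e)))))))), t false 1 (a (f (b (d (a (b
  (c (f e)))))))), t true 1 (c (f (b (d (a (b (c (b e)))))))), t false 1 (d (a (c (f (b (d (b (c
  e)))))))), t false 1 (d (a (f (b (d (b (c (f e))))))))])) nil nil nil) nil) nil nil (br (br nil
  (br (br nil nil nil nil (hit [t true 1 (a (d (c (f (a (b (a (d (c e))))))))), t true 1 (a (d (f (a
  (b (a (d (c (f e))))))))), t true 1 (c (f (a (b (a (d (b (c (b e))))))))), t false 1 (d (c (f (a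
  (b (a (d (b (c e))))))))), t false 1 (d (f (a (b (a (d (b (c (f e)))))))))])) nil nil nil (hit [t
  true 1 (a (d (c (f (a (b (a (c e)))))))), t true 1 (a (d (f (a (b (a (c (f e)))))))), t true 1 (c
  (f (b (a (d (b (c (b e)))))))), t false 1 (d (c (f (b (a (d (b (c e)))))))), t false 1 (d (f (b (a
  (d (b (c (f e))))))))])) nil nil nil) (br (br nil nil nil nil (hit [t true 1 (a (b (d (a (b (c (f
  (a e)))))))), t true 1 (a (b (d (b (c (f (a (b e)))))))), t true 1 (c (f (a (b (d (b (c (b
  e)))))))), t false 1 (d (c (f (a (b (d (b (c e)))))))), t false 1 (d (f (a (b (d (b (c (f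
  e))))))))])) nil nil nil (hit [t true 1 (c (f (b (d (b (c (b e))))))), t false 1 (d (c (f (b (d (b
  (c e))))))), t false 1 (d (f (b (d (b (c (f e)))))))])) nil nil nil) nil) nil (br (br nil (br (br
  nil nil nil (br nil (br nil nil nil nil (hit [t false 1 (a (b (c (f (b (d (a (b (a (d e)))))))))),
  t false 1 (a (c (f (b (d (a (b (a (d (c e)))))))))), t false 1 (a (f (b (d (a (b (a (d (c (f
  e)))))))))), t true 1 (b (c (f (b (a (d (a (b (a (d e)))))))))), t false 1 (c (f (a (d (a (b (c (b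
  (a (d e)))))))))), t true 1 (c (f (b (d (a (b (a (d (c (b e)))))))))), t true 1 (d (a (b (c (f (b
  (a (d (b (a e)))))))))), t true 1 (d (a (c (f (b (a (d (b (a (c e)))))))))), t true 1 (d (a (f (b
  (a (d (b (a (c (f e)))))))))), t false 1 (f (a (d (a (b (c (f (b (a (d e))))))))))])) nil nil nil)
  (hit [t false 1 (a (c (f (a (b (a (d (c e)))))))), t false 1 (a (d (c (f (a (b (a (d e)))))))), t
  false 1 (a (f (a (b (a (d (c (f e)))))))), t true 1 (c (f (a (b (a (d (c (b e)))))))), t true 1 (d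
  (c (f (a (b (a (d (b e))))))))])) nil nil nil nil) nil nil nil) nil nil nil nil) nil) (br (br nil
  (br (br nil nil (br nil (br nil nil nil nil (hit [t false 1 (a (b (c (a (b (a (d (f (a e))))))))),
  t false 1 (a (c (a (b (a (d (f (a (c e))))))))), t false 1 (a (d (f (b (c (a (b (a (d e))))))))),
  t false 1 (a (f (b (c (a (b (a (d (f e))))))))), t true 1 (b (c (a (b (a (d (f (a (b e))))))))), t
  true 1 (c (a (b (a (d (f (a (c (b e))))))))), t false 1 (c (a (d (f (a (b (c (b (d e))))))))), t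
  false 1 (c (a (f (a (b (c (b (d (f e))))))))), t true 1 (d (f (b (c (a (b (a (d (b e)))))))))]))
  nil nil nil) (br (br nil nil (br nil nil nil nil (hit [t true 1 (a (c (d (a (b (a (c (f (c (d
  e)))))))))), t false 1 (a (c (d (a (b (a (d (c (f (c e)))))))))), t true 1 (a (c (d (c (f (a (b (a
  (c (d e)))))))))), t false 1 (a (c (d (c (f (c (a (b (a (d e)))))))))), t true 1 (a (c (f (c (d (a
  (b (a (d (f e)))))))))), t false 1 (a (d (b (c (b (d (f (c (a (b e)))))))))), t false 1 (a (d (c
  (f (a (b (a (c (d (f e)))))))))), t false 1 (b (a (d (b (c (b (d (f (c (b e)))))))))), t true 1 (b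
  (d (b (c (b (d (a (f (c (b e)))))))))), t true 1 (c (a (d (a (b (a (d (f (c (b e)))))))))), t true
  1 (c (a (d (b (c (b (d (f (c (a e)))))))))), t true 1 (c (b (a (d (b (c (b (d (f (c e)))))))))), t
  false 1 (c (b (d (b (c (b (d (a (f (c e)))))))))), t false 1 (c (d (a (b (a (c (b (f (c (d
  e)))))))))), t true 1 (c (d (a (b (a (d (c (b (f (c e)))))))))), t true 1 (c (d (b (c (b (a (f (c
  (a (d e)))))))))), t false 1 (c (d (b (c (b (d (a (f (c (a e)))))))))), t false 1 (c (d (c (a (f
  (a (b (a (c (d e)))))))))), t true 1 (c (d (c (a (f (c (a (b (a (d e)))))))))), t true 1 (c (f (a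
  (d (a (c (b (a (d (f e)))))))))), t false 1 (c (f (c (a (d (a (b (a (d (f e)))))))))), t true 1 (d
  (a (b (a (c (b (f (c (d (b e)))))))))), t false 1 (d (a (b (a (d (c (b (f (c (b e)))))))))), t
  false 1 (d (a (c (f (a (d (b (a (c (f e)))))))))), t false 1 (d (a (c (f (b (a (d (b (c (f
  e)))))))))), t false 1 (d (b (c (b (a (f (c (a (d (b e)))))))))), t true 1 (d (b (c (b (d (a (f (c
  (a (b e)))))))))), t true 1 (d (c (a (f (a (b (a (c (d (b e)))))))))), t false 1 (d (c (a (f (b (a
  (c (d (b (c e)))))))))), t true 1 (d (c (a (f (b (c (d (b (c (a e)))))))))), t false 1 (d (c (a (f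
  (c (a (b (a (d (b e)))))))))), t true 1 (d (c (f (a (b (a (c (d (b (f e)))))))))), t false 1 (d (c
  (f (b (a (c (d (b (c (f e)))))))))), t true 1 (d (c (f (b (c (d (b (c (a (f e)))))))))), t true 1
  (f (a (c (d (a (c (f (b (a (d e)))))))))), t false 1 (f (a (d (a (c (a (d (f (b (a e)))))))))), t
  false 1 (f (a (d (a (c (b (a (d (f (b e))))))))))])) nil nil) (br nil nil nil nil (hit [t false 1
  (a (b (f (b (d (a (b (a (d e))))))))), t false 1 (a (f (b (d (a (b (a (d (f e))))))))), t true 1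
  (b (f (b (a (d (a (b (a (d e))))))))), t true 1 (d (a (b (f (b (a (d (b (a e))))))))), t true 1 (d
  (a (f (b (a (d (b (a (f e))))))))), t false 1 (f (a (d (a (b (f (b (a (d e)))))))))])) (br nil (br
  nil nil nil nil (hit [t false 1 (a (b (c (d (a (b (a (d (f (a e)))))))))), t false 1 (a (b (c (f
  (b (d (a (b (a (d e)))))))))), t true 1 (a (b (d (a (b (a (d (c (f (a e)))))))))), t false 1 (a (c
  (d (a (b (a (d (f (a (c e)))))))))), t false 1 (a (c (f (b (c (d (a (b (a (d e)))))))))), t false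
  1 (a (d (a (b (a (c (f (a (c (d e)))))))))), t true 1 (a (d (a (b (a (d (c (f (a (c e)))))))))), t
  false 1 (a (d (a (c (f (a (b (c (b (d e)))))))))), t true 1 (a (d (c (f (b (c (a (b (a (d
  e)))))))))), t false 1 (a (f (b (c (d (a (b (a (d (f e)))))))))), t true 1 (b (c (d (a (b (a (d (f
  (a (b e)))))))))), t true 1 (b (c (f (b (a (d (a (b (a (d e)))))))))), t false 1 (b (d (a (b (a (d
  (c (f (a (b e)))))))))), t true 1 (c (a (d (a (f (a (b (c (b (d e)))))))))), t true 1 (c (d (a (b
  (a (d (f (a (c (b e)))))))))), t false 1 (c (d (a (f (a (b (c (b (d (f e)))))))))), t false 1 (c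
  (f (a (d (a (b (c (b (a (d e)))))))))), t true 1 (c (f (b (c (a (d (a (b (a (d e)))))))))), t true
  1 (d (a (b (a (c (f (a (c (d (b e)))))))))), t false 1 (d (a (b (a (d (c (f (a (c (b e)))))))))),
  t true 1 (d (a (b (c (f (b (a (d (b (a e)))))))))), t true 1 (d (a (c (f (a (b (c (b (d (b
  e)))))))))), t true 1 (d (a (c (f (b (a (d (b (a (c e)))))))))), t true 1 (d (a (f (a (b (c (b (d
  (b (f e)))))))))), t true 1 (d (a (f (b (a (d (b (a (c (f e)))))))))), t false 1 (d (c (f (b (c (a
  (b (a (d (b e)))))))))), t false 1 (f (a (d (a (b (c (f (b (a (d e))))))))))])) nil nil (hit [t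
  false 1 (a (c (d (a (b (a (d (f (c e))))))))), t false 1 (a (c (f (c (d (a (b (a (d e))))))))), t
  false 1 (a (d (a (b (a (c (f (c (d e))))))))), t true 1 (a (d (a (b (a (d (c (f (c e))))))))), t
  true 1 (a (d (c (f (c (a (b (a (d e))))))))), t false 1 (a (f (c (d (a (b (a (d (f e))))))))), t
  true 1 (c (d (a (b (a (d (f (c (b e))))))))), t false 1 (c (f (a (d (a (c (b (a (d e))))))))), t
  true 1 (c (f (c (a (d (a (b (a (d e))))))))), t true 1 (d (a (b (a (c (f (c (d (b e))))))))), t
  false 1 (d (a (b (a (d (c (f (c (b e))))))))), t true 1 (d (a (c (f (a (d (b (a (c e))))))))), t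
  true 1 (d (a (c (f (b (a (d (b (c e))))))))), t true 1 (d (a (f (a (d (b (a (c (f e))))))))), t
  true 1 (d (a (f (b (a (d (b (c (f e))))))))), t false 1 (d (c (f (c (a (b (a (d (b e))))))))), t
  false 1 (f (a (d (a (c (f (b (a (d e)))))))))])) nil (hit [t false 1 (a (f (d (a (b (a (d (f
  e)))))))), t true 1 (d (a (f (a (d (b (a (f e)))))))), t true 1 (d (a (f (b (a (d (b (f e)))))))),
  t false 1 (f (a (d (a (f (b (a (d e))))))))])) (hit [t false 1 (a (d (f (a (b (a (d e))))))), t
  false 1 (a (f (a (b (a (d (f e))))))), t true 1 (d (f (a (b (a (d (b e)))))))])) nil (br (br nil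
  (br nil nil nil nil (hit [t true 1 (a (b (d (f (b (c (a (b (a e))))))))), t false 1 (b (d (f (b (a
  (c (a (b (a e))))))))), t true 1 (c (a (b (d (f (b (c (b (a e))))))))), t false 1 (c (b (d (f (b
  (a (c (b (a e))))))))), t false 1 (c (d (f (b (a (c (b (a (d e))))))))), t false 1 (c (f (b (a (c
  (b (a (d (f e))))))))), t true 1 (d (f (a (c (a (b (d (b (a e))))))))), t true 1 (d (f (b (a (c (b
  (a (d (b e))))))))), t true 1 (f (a (c (a (b (d (f (b (a e)))))))))])) nil nil (hit [t false 1 (a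
  (c (d (f (a (b (a (d e)))))))), t false 1 (a (c (f (a (b (a (d (f e)))))))), t false 1 (c (d (f (a
  (c (b (a (d e)))))))), t false 1 (c (f (a (c (b (a (d (f e)))))))), t true 1 (d (f (a (c (a (d (b
  (a e)))))))), t true 1 (d (f (a (c (b (a (d (b e)))))))), t true 1 (f (a (c (a (d (f (b (a
  e))))))))])) (br (br nil nil nil nil (hit [t false 1 (a (b (c (d (f (a (b (a (d e))))))))), t
  false 1 (a (b (c (f (a (b (a (d (f e))))))))), t false 1 (c (d (f (a (b (c (b (a (d e))))))))), t
  false 1 (c (f (a (b (c (b (a (d (f e))))))))), t true 1 (d (f (a (b (c (a (d (b (a e))))))))), t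
  true 1 (d (f (a (b (c (b (a (d (b e))))))))), t true 1 (f (a (b (c (a (d (f (b (a e)))))))))]))
  nil nil nil nil) nil nil nil) nil nil) nil nil nil) (br (br nil nil (br nil (br nil nil nil nil
  (hit [t false 1 (a (d (f (b (c (a (b (d e)))))))), t false 1 (a (f (b (c (a (b (d (f e)))))))), t
  false 1 (c (a (d (f (b (c (b (d e)))))))), t false 1 (c (a (f (b (c (b (d (f e)))))))), t true 1
  (d (f (b (c (a (b (d (b e))))))))])) nil nil nil) nil nil) nil (br (br nil (br (br nil nil nil nil
  (hit [t true 1 (a (c (d (f (a (b (a (c (d e))))))))), t true 1 (a (c (f (a (b (a (c (d (f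
  e))))))))), t false 1 (c (d (f (a (b (a (c (b (d e))))))))), t false 1 (c (f (a (b (a (c (b (d (f
  e))))))))), t true 1 (d (f (a (b (a (c (b (d (b e)))))))))])) nil nil nil (hit [t true 1 (a (c (d
  (f (a (b (a (d e)))))))), t true 1 (a (c (f (a (b (a (d (f e)))))))), t false 1 (c (d (f (b (a (c
  (b (d e)))))))), t false 1 (c (f (b (a (c (b (d (f e)))))))), t true 1 (d (f (b (a (c (b (d (b
  e))))))))])) nil nil nil) (br (br nil nil nil nil (hit [t true 1 (a (b (c (a (b (d (f (a
  e)))))))), t true 1 (a (b (c (b (d (f (a (b e)))))))), t false 1 (c (d (f (a (b (c (b (d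
  e)))))))), t false 1 (c (f (a (b (c (b (d (f e)))))))), t true 1 (d (f (a (b (c (b (d (b
  e))))))))])) nil nil (br (br nil (br nil nil nil nil (hit [t false 1 (a (c (d (f (a (b (a (c (f (d
  e)))))))))), t false 1 (a (d (c (f (a (b (a (c (d (f e)))))))))), t true 1 (c (d (f (a (b (a (c (b
  (f (d e)))))))))), t false 1 (c (f (b (a (d (b (c (b (d (f e)))))))))), t true 1 (d (a (c (f (b (a
  (d (b (c (f e)))))))))), t true 1 (d (b (a (c (f (b (d (b (c (f e)))))))))), t true 1 (d (c (f (a
  (b (a (c (d (b (f e)))))))))), t false 1 (d (f (a (b (a (c (b (f (d (b e)))))))))), t false 1 (f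
  (b (a (c (d (b (c (f (b (d e))))))))))])) nil nil (hit [t false 1 (a (c (d (b (c (f (a (b (d
  e))))))))), t true 1 (a (d (b (c (a (b (d (f (a e))))))))), t true 1 (a (d (b (c (b (d (f (a (b
  e))))))))), t false 1 (c (d (a (b (c (b (f (a (d e))))))))), t false 1 (c (d (f (a (b (c (b (f (d
  e))))))))), t false 1 (c (f (a (d (b (c (b (d (f e))))))))), t true 1 (d (a (b (c (a (d (b (f (a
  e))))))))), t true 1 (d (a (b (c (b (f (a (d (b e))))))))), t false 1 (d (c (f (a (b (c (d (b (f
  e))))))))), t true 1 (d (f (a (b (c (b (f (d (b e))))))))), t false 1 (f (a (c (d (b (c (f (b (d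
  e)))))))))])) nil nil nil nil) (hit [t false 1 (c (d (f (b (c (b (d e))))))), t false 1 (c (f (b
  (c (b (d (f e))))))), t true 1 (d (f (b (c (b (d (b e)))))))])) nil nil nil) nil nil) (br (br nil
  (br (br nil nil (br nil (br nil nil nil nil (hit [t false 1 (a (b (d (f (b (c (a (b (a (c
  e)))))))))), t false 1 (a (d (f (b (c (a (b (a (c (d e)))))))))), t false 1 (a (f (b (c (a (b (a
  (c (d (f e)))))))))), t true 1 (b (d (f (b (a (c (a (b (a (c e)))))))))), t true 1 (c (a (b (d (f
  (b (a (c (b (a e)))))))))), t true 1 (c (a (d (f (b (a (c (b (a (d e)))))))))), t true 1 (c (a (f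
  (b (a (c (b (a (d (f e)))))))))), t false 1 (d (f (a (c (a (b (d (b (a (c e)))))))))), t true 1 (d
  (f (b (c (a (b (a (c (d (b e)))))))))), t false 1 (f (a (c (a (b (d (f (b (a (c e))))))))))])) nil
  nil (hit [t false 1 (a (d (f (c (a (b (a (c (d e))))))))), t false 1 (a (f (c (a (b (a (c (d (f
  e))))))))), t true 1 (c (a (d (f (a (c (b (a (d e))))))))), t true 1 (c (a (d (f (b (a (c (b (d
  e))))))))), t true 1 (c (a (f (a (c (b (a (d (f e))))))))), t true 1 (c (a (f (b (a (c (b (d (f
  e))))))))), t false 1 (d (f (a (c (a (d (b (a (c e))))))))), t true 1 (d (f (c (a (b (a (c (d (b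
  e))))))))), t false 1 (f (a (c (a (d (f (b (a (c e)))))))))])) (br nil nil nil nil (hit [t false 1
  (a (f (c (d (a (b (a (c (f e))))))))), t false 1 (a (f (d (a (b (a (c (d (f e))))))))), t true 1
  (c (d (a (f (a (c (b (a (f e))))))))), t true 1 (c (d (a (f (b (a (c (b (f e))))))))), t true 1 (d
  (a (f (a (c (d (b (a (f e))))))))), t true 1 (d (a (f (b (a (c (d (b (f e))))))))), t false 1 (f
  (a (c (d (a (f (b (a (c e))))))))), t false 1 (f (a (d (a (f (b (a (c (d e))))))))), t true 1 (f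
  (c (d (a (b (a (c (f (b e)))))))))])) (hit [t false 1 (a (c (d (f (a (b (a (c e)))))))), t false 1
  (a (d (f (a (b (a (c (d e)))))))), t false 1 (a (f (a (b (a (c (d (f e)))))))), t true 1 (c (d (f
  (a (b (a (c (b e)))))))), t true 1 (d (f (a (b (a (c (d (b e))))))))])) nil nil nil nil) nil nil
  nil) nil nil nil nil) nil nil) nil)

def R2 : R := R.br R21 R22 R23 R24 R25

def R31 : R := (br nil (br nil nil (hit [t true 1 (a (c (b (a e)))), t true 1 (b (a (c (b e))))])
  nil (br nil nil (br (br nil (br nil nil nil (br nil nil (br nil nil nil nil (hit [t true 1 (c (d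
  (b (a (f (a (c (b (a (f e)))))))))), t true 1 (c (d (b (a (f (b (a (c (b (f e)))))))))), t false 1
  (d (b (a (f (c (d (b (a (c (f e))))))))))])) nil nil) nil) nil (br nil nil (br nil nil nil nil
  (hit [t false 1 (a (f (c (d (a (b (a (c (f e))))))))), t true 1 (c (d (a (f (a (c (b (a (f
  e))))))))), t true 1 (c (d (a (f (b (a (c (b (f e))))))))), t false 1 (d (a (f (c (d (b (a (c (f
  e))))))))), t true 1 (f (c (d (a (b (a (c (f (b e)))))))))])) nil nil) nil) (br (br nil nil nil
  (br nil nil (br nil nil nil nil (hit [t false 1 (a (b (f (c (d (a (b (a (c (f e)))))))))), t true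
  1 (c (d (a (b (f (a (c (b (a (f e)))))))))), t true 1 (c (d (a (b (f (b (a (c (b (f e)))))))))), t
  false 1 (d (a (b (f (c (d (b (a (c (f e)))))))))), t true 1 (f (c (d (a (b (a (c (f (b (a
  e))))))))))])) nil nil) nil) nil nil (br (br nil nil (br nil nil nil nil (hit [t false 1 (a (d (b
  (f (c (a (b (a (c (f e)))))))))), t true 1 (c (a (d (b (f (a (c (b (a (f e)))))))))), t true 1 (c
  (a (d (b (f (b (a (c (b (f e)))))))))), t false 1 (d (b (f (c (a (d (b (a (c (f e)))))))))), t
  true 1 (f (c (a (d (b (a (c (f (b (a e))))))))))])) nil nil) (br nil nil (br nil nil nil nil (hit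
  [t true 1 (b (d (b (a (c (f (a (b (a (f e)))))))))), t false 1 (b (d (b (c (f (a (c (b (a (f
  e)))))))))), t false 1 (b (d (b (c (f (b (a (c (b (f e)))))))))), t true 1 (c (b (d (b (f (a (c (b
  (a (f e)))))))))), t true 1 (c (b (d (b (f (b (a (c (b (f e)))))))))), t false 1 (d (a (c (f (a (b
  (d (b (a (f e)))))))))), t true 1 (d (b (a (c (f (a (d (b (a (f e)))))))))), t true 1 (d (b (c (f
  (c (d (b (a (c (f e)))))))))), t false 1 (d (c (f (a (b (d (b (c (a (f e)))))))))), t false 1 (d
  (c (f (c (b (d (b (a (c (f e)))))))))), t true 1 (d (f (a (b (d (b (c (a (f (a e)))))))))), t true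
  1 (f (c (b (d (b (a (c (f (b (a e))))))))))])) nil nil) (br nil nil nil nil (hit [t true 1 (c (d
  (b (f (a (c (b (a (f e))))))))), t true 1 (c (d (b (f (b (a (c (b (f e))))))))), t false 1 (d (b
  (f (c (d (b (a (c (f e))))))))), t true 1 (f (c (d (b (a (c (f (b (a e)))))))))])) nil nil) nil)
  nil (br (br nil nil (br nil (br nil nil nil nil (hit [t false 1 (a (d (f (b (c (a (b (a (c (f
  e)))))))))), t true 1 (c (a (d (f (b (a (c (b (a (f e)))))))))), t false 1 (d (f (b (c (a (d (b (a
  (c (f e)))))))))), t true 1 (f (b (c (a (d (a (c (f (b (a e)))))))))), t true 1 (f (b (c (a (d (b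
  (a (c (f (b e))))))))))])) nil nil (hit [t false 1 (a (d (f (c (a (b (a (c (f e))))))))), t true 1
  (c (a (d (f (a (c (b (a (f e))))))))), t true 1 (c (a (d (f (b (a (c (b (f e))))))))), t false 1
  (d (f (c (a (d (b (a (c (f e))))))))), t true 1 (f (c (a (d (a (c (f (b (a e))))))))), t true 1 (f
  (c (a (d (b (a (c (f (b e)))))))))])) nil nil) (br (br nil nil (br nil nil nil nil (hit [t false 1
  (a (b (d (f (c (a (b (a (c (f e)))))))))), t true 1 (c (a (b (d (f (a (c (b (a (f e)))))))))), t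
  true 1 (c (a (b (d (f (b (a (c (b (f e)))))))))), t false 1 (d (f (c (a (b (d (b (a (c (f
  e)))))))))), t true 1 (f (c (a (b (d (a (c (f (b (a e)))))))))), t true 1 (f (c (a (b (d (b (a (c
  (f (b e))))))))))])) nil nil) nil (br nil nil nil nil (hit [t true 1 (c (b (d (f (a (c (b (a (f
  e))))))))), t true 1 (c (b (d (f (b (a (c (b (f e))))))))), t false 1 (d (f (c (b (d (b (a (c (f
  e))))))))), t true 1 (f (c (b (d (a (c (f (b (a e))))))))), t true 1 (f (c (b (d (b (a (c (f (b
  e)))))))))])) nil nil) (br nil (br (br nil nil nil nil (hit [t false 1 (a (b (c (d (f (a (b (a (c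
  (f e)))))))))), t true 1 (c (d (f (a (b (a (c (b (a (f e)))))))))), t false 1 (d (f (a (b (c (d (b
  (a (c (f e)))))))))), t true 1 (f (a (b (c (d (a (c (f (b (a e)))))))))), t true 1 (f (a (b (c (d
  (b (a (c (f (b e))))))))))])) nil nil nil nil) nil nil (hit [t true 1 (c (d (f (a (c (b (a (f
  e)))))))), t true 1 (c (d (f (b (a (c (b (f e)))))))), t false 1 (d (f (c (d (b (a (c (f
  e)))))))), t true 1 (f (c (d (a (c (f (b (a e)))))))), t true 1 (f (c (d (b (a (c (f (b
  e))))))))])) nil nil) nil) nil nil)) (hit [t true 1 (a (c (a e)))]) (br (br nil nil nil nil (br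
  nil (br (br nil nil (br nil (br nil nil nil nil (hit [t true 1 (a (c (d (a (b (f (b (c (b (f
  e)))))))))), t false 1 (a (c (d (b (f (b (a (c (b (f e)))))))))), t true 1 (a (c (d (f (b (a (c (b
  (f (a e)))))))))), t true 1 (a (c (f (b (c (b (f (d (a (c e)))))))))), t false 1 (b (a (c (d (a (f
  (b (c (b (f e)))))))))), t true 1 (b (a (c (d (f (b (c (b (f (a e)))))))))), t false 1 (b (a (c (f
  (b (c (b (f (d (a e)))))))))), t false 1 (b (c (d (a (c (f (b (c (b (f e)))))))))), t false 1 (b
  (c (d (b (c (f (a (b (a (f e)))))))))), t true 1 (b (c (d (c (f (b (c (a (b (f e)))))))))), t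
  false 1 (b (c (d (f (b (c (a (b (f (a e)))))))))), t true 1 (b (c (f (a (b (a (f (d (a (c
  e)))))))))), t true 1 (b (c (f (b (c (a (b (f (d (a e)))))))))), t false 1 (b (d (a (c (f (b (c (b
  (f (d e)))))))))), t false 1 (b (d (b (c (f (a (b (a (f (d e)))))))))), t true 1 (b (d (c (f (b (c
  (a (b (f (d e)))))))))), t false 1 (b (d (f (b (c (a (b (f (a (d e)))))))))), t true 1 (b (f (a (b
  (a (c (d (a (c (f e)))))))))), t true 1 (b (f (a (c (d (a (b (c (b (f e)))))))))), t true 1 (b (f
  (b (c (a (b (a (d (a (f e)))))))))), t false 1 (b (f (b (c (a (b (f (a (d (a e)))))))))), t true 1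
  (c (d (a (c (b (f (b (c (b (f e)))))))))), t true 1 (c (d (b (c (f (a (b (a (f (c e)))))))))), t
  false 1 (c (d (c (b (f (b (c (a (b (f e)))))))))), t false 1 (c (d (c (f (a (b (a (f (c (a
  e)))))))))), t true 1 (c (d (f (b (c (a (b (f (a (c e)))))))))), t false 1 (c (f (b (c (a (b (f (d
  (a (c e)))))))))), t true 1 (d (a (c (f (b (c (b (f (d (c e)))))))))), t true 1 (d (b (c (f (a (b
  (a (f (d (c e)))))))))), t true 1 (d (b (f (a (b (a (c (d (c (f e)))))))))), t false 1 (d (c (f (b
  (c (a (b (f (d (c e)))))))))), t false 1 (d (f (a (b (a (c (d (c (f (a e)))))))))), t true 1 (d (f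
  (b (c (a (b (f (a (d (c e)))))))))), t false 1 (f (a (b (a (c (d (a (c (f (c e)))))))))), t true 1
  (f (a (b (a (c (d (c (f (c (a e)))))))))), t false 1 (f (a (c (d (a (b (c (b (f (c e)))))))))), t
  false 1 (f (b (c (a (b (a (d (a (f (c e))))))))))])) nil nil nil) nil nil) nil nil nil nil) nil
  nil nil)) (br nil nil (br (br nil (br (br nil nil nil (hit [t false 1 (b (d (a (b (a (c (b (d (c
  e)))))))))]) nil) nil nil (hit [t false 1 (b (a (d (b (a (c (b (d e)))))))), t false 1 (b (d (a (b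
  (a (d (c (b e))))))))]) nil) nil nil nil) (br (br nil nil nil (hit [t false 1 (b (d (a (b (a (c (b
  (d e)))))))), t true 1 (d (a (b (a (c (b (d (a e))))))))]) nil) nil nil (hit [t false 1 (b (d (b
  (a (c (b (d e))))))), t true 1 (d (b (a (c (b (d (a e)))))))]) nil) nil nil nil) nil nil) nil nil
  nil) (br nil (br nil nil (br (br nil (br (br nil nil nil nil (hit [t false 1 (b (f (a (b (a (c (b
  (f (c e)))))))))])) nil nil nil (hit [t false 1 (b (a (f (b (a (c (b (f e)))))))), t false 1 (b (f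
  (a (b (a (f (c (b e))))))))])) nil (br nil (br nil nil nil nil (hit [t false 1 (b (d (a (f (b (a
  (c (b (f e))))))))), t false 1 (d (a (f (b (d (a (c (b (f e))))))))), t true 1 (f (b (d (a (b (f
  (a (c (b e)))))))))])) (br nil (br nil nil nil nil (hit [t false 1 (b (c (d (a (f (b (a (c (b (f
  e)))))))))), t true 1 (c (d (a (f (b (a (c (a (b (f e)))))))))), t false 1 (d (a (f (b (c (d (a (c
  (b (f e)))))))))), t true 1 (f (b (c (d (a (b (f (a (c (b e))))))))))])) nil nil nil) nil nil)
  nil) (br (br nil nil nil (br (br nil nil nil nil (hit [t false 1 (b (f (a (d (a (b (a (c (b (f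
  e)))))))))), t true 1 (d (b (f (a (d (a (b (c (b (f e)))))))))), t false 1 (d (f (a (d (a (b (c (b
  (f (c e)))))))))), t true 1 (f (a (d (a (b (a (c (b (f (a e))))))))))])) nil (br nil nil nil nil
  (hit [t false 1 (b (c (d (a (b (a (c (b (f (b e)))))))))), t false 1 (b (d (a (b (a (c (b (f (b (d
  e)))))))))), t false 1 (b (f (c (d (a (b (a (c (b (f e)))))))))), t true 1 (c (d (a (b (a (c (a (b
  (f (b e)))))))))), t true 1 (c (d (a (b (c (a (b (f (b (c e)))))))))), t true 1 (c (d (a (b (f (a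
  (c (a (b (f e)))))))))), t true 1 (d (a (b (a (c (b (f (b (d (a e)))))))))), t true 1 (d (a (b (c
  (b (f (b (d (a (c e)))))))))), t false 1 (d (a (b (f (b (c (d (a (c (f e)))))))))), t true 1 (f (c
  (d (a (b (a (c (b (f (a e))))))))))])) nil nil) (hit [t false 1 (b (f (a (b (a (c (b (f e)))))))),
  t true 1 (f (a (b (a (c (b (f (a e))))))))])) nil nil nil (hit [t false 1 (b (f (b (a (c (b (f
  e))))))), t true 1 (f (b (a (c (b (f (a e)))))))])) nil (br (br nil (br (br nil nil nil nil (hit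
  [t true 1 (b (d (f (a (b (a (d (c (b (f e)))))))))), t false 1 (b (f (a (b (a (d (b (f (c (b
  e)))))))))), t false 1 (b (f (a (b (a (d (c (b (f (c e)))))))))), t false 1 (d (f (a (b (a (d (a
  (c (b (f e)))))))))), t true 1 (f (a (b (a (d (a (c (b (f (a e)))))))))), t true 1 (f (a (b (a (d
  (b (f (a (c (b e))))))))))])) nil nil nil (hit [t false 1 (b (a (d (f (b (a (c (b (f e))))))))), t
  false 1 (d (f (b (a (d (a (c (b (f e))))))))), t true 1 (f (b (a (d (a (c (b (f (a e))))))))), t
  true 1 (f (b (a (d (b (f (a (c (b e)))))))))])) (br nil (br nil nil nil nil (hit [t false 1 (b (c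
  (a (d (f (b (a (c (b (f e)))))))))), t true 1 (c (a (d (f (b (a (c (a (b (f e)))))))))), t false 1
  (d (f (b (c (a (d (a (c (b (f e)))))))))), t true 1 (f (b (c (a (d (a (c (b (f (a e)))))))))), t
  true 1 (f (b (c (a (d (b (f (a (c (b e))))))))))])) nil nil nil) nil nil) (br nil nil nil nil (hit
  [t false 1 (b (d (f (b (a (c (b (f e)))))))), t false 1 (d (f (b (d (a (c (b (f e)))))))), t true
  1 (f (b (d (a (c (b (f (a e)))))))), t true 1 (f (b (d (b (f (a (c (b e))))))))])) (br nil (br (br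
  nil nil nil nil (hit [t false 1 (b (c (d (f (a (b (a (c (b (f e)))))))))), t true 1 (c (d (f (a (b
  (a (c (a (b (f e)))))))))), t false 1 (d (f (a (b (c (d (a (c (b (f e)))))))))), t true 1 (f (a (b
  (c (d (a (c (b (f (a e)))))))))), t true 1 (f (a (b (c (d (b (f (a (c (b e))))))))))])) nil nil
  nil (hit [t false 1 (b (c (d (f (b (a (c (b (f e))))))))), t true 1 (c (d (f (b (a (c (a (b (f
  e))))))))), t false 1 (d (f (b (c (d (a (c (b (f e))))))))), t true 1 (f (b (c (d (a (c (b (f (a
  e))))))))), t true 1 (f (b (c (d (b (f (a (c (b e)))))))))])) nil nil nil) nil nil) nil) nil nil)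
  (br (br nil (br (br nil nil nil (br nil nil (br nil nil nil nil (hit [t false 1 (a (b (a (c (d (f
  (a (c (a (f e)))))))))), t true 1 (a (b (a (d (f (c (d (a (c (f e)))))))))), t false 1 (b (a (c (d
  (f (a (c (b (a (f e)))))))))), t false 1 (b (a (c (d (f (b (a (c (b (f e)))))))))), t true 1 (b (a
  (d (f (c (d (b (a (c (f e)))))))))), t false 1 (b (c (d (f (c (a (b (a (c (f e)))))))))), t true 1
  (b (d (f (a (b (a (c (d (c (f e)))))))))), t false 1 (b (d (f (c (d (a (b (a (c (f e)))))))))), t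
  false 1 (b (f (a (b (a (c (d (c (f (c e)))))))))), t true 1 (c (d (a (b (a (f (a (c (a (f
  e)))))))))), t false 1 (d (a (b (a (f (c (d (a (c (f e))))))))))])) nil nil) nil) nil nil (br nil
  (br nil nil (br nil nil nil nil (hit [t false 1 (a (c (f (a (b (d (b (a (f (c e)))))))))), t true
  1 (b (a (c (f (a (d (b (a (f (c e)))))))))), t true 1 (b (c (a (f (c (d (b (a (c (f e)))))))))), t
  false 1 (b (d (a (c (f (a (b (a (f (c e)))))))))), t false 1 (b (d (b (c (a (f (a (c (a (f
  e)))))))))), t true 1 (b (d (c (a (f (a (c (b (a (f e)))))))))), t true 1 (b (d (c (a (f (b (a (c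
  (b (f e)))))))))), t false 1 (c (a (b (d (b (f (a (c (a (f e)))))))))), t false 1 (c (a (f (a (b
  (d (b (c (a (f e)))))))))), t false 1 (c (a (f (c (b (d (b (a (c (f e)))))))))), t true 1 (c (b (a
  (f (a (d (b (c (a (f e)))))))))), t false 1 (c (b (d (a (f (a (b (c (a (f e)))))))))), t true 2 (c
  (b (d (b (a (f (a (c (a (f e)))))))))), t false 1 (c (d (a (f (a (b (d (c (a (f e)))))))))), t
  true 1 (c (d (b (a (f (a (d (c (a (f e)))))))))), t true 1 (c (f (a (b (d (b (a (f (c (a
  e)))))))))), t false 1 (d (a (c (f (a (b (d (a (f (c e)))))))))), t true 1 (d (b (a (c (f (a (d (a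
  (f (c e)))))))))), t true 1 (d (b (c (a (f (c (d (a (c (f e)))))))))), t false 1 (d (c (a (f (c (b
  (d (a (c (f e)))))))))), t true 1 (f (a (b (d (b (c (a (f (a (c e))))))))))])) nil nil) (br nil
  nil nil nil (hit [t false 1 (b (a (f (c (d (b (a (c (f e))))))))), t true 1 (c (d (b (a (f (a (c
  (a (f e))))))))), t false 1 (d (b (a (f (c (d (a (c (f e)))))))))])) nil nil) nil) nil (br nil nil
  (br (br nil (br nil nil nil nil (hit [t false 1 (a (c (d (a (b (a (c (f (b (a e)))))))))), t false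
  1 (a (c (d (a (b (c (f (b (a (c e)))))))))), t true 1 (b (a (c (d (a (b (a (c (f (b e)))))))))), t
  true 1 (b (a (c (d (a (c (f (b (a (c e)))))))))), t false 1 (c (d (a (b (a (c (a (b (f (b
  e)))))))))), t true 1 (c (d (a (b (a (c (b (f (b (a e)))))))))), t false 1 (c (d (a (b (c (a (b (f
  (b (c e)))))))))), t true 1 (c (d (a (b (c (b (f (b (a (c e)))))))))), t true 1 (d (a (b (f (b (c
  (d (a (c (f e)))))))))), t true 1 (d (b (f (a (c (d (a (b (c (f e)))))))))), t false 1 (d (b (f (b
  (a (c (d (a (c (f e)))))))))), t false 1 (d (f (a (c (d (a (b (c (f (c e))))))))))])) nil nil (hit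
  [t false 1 (d (f (a (c (d (a (c (f (c e)))))))))])) (br (br nil nil nil nil (hit [t false 1 (b (c
  (d (f (a (b (a (c (f (c e)))))))))), t true 1 (c (d (f (a (b (a (c (a (f (c e)))))))))), t false 1
  (d (f (a (b (c (d (a (c (f (c e))))))))))])) nil nil nil (hit [t true 1 (b (c (d (a (b (a (c (f (b
  e))))))))), t true 1 (b (c (d (a (c (f (b (a (c e))))))))), t false 1 (c (d (a (b (a (c (a (f (b
  e))))))))), t true 1 (c (d (a (b (f (a (c (a (b e))))))))), t false 1 (c (d (a (b (f (b (a (c (a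
  e))))))))), t true 1 (c (d (a (c (a (b (f (b (c e))))))))), t false 1 (c (d (a (c (b (f (b (a (c
  e))))))))), t true 1 (c (d (a (f (a (c (a (b (f e))))))))), t false 1 (d (a (f (b (c (d (a (c (f
  e)))))))))])) nil nil (hit [t true 1 (c (d (a (f (a (c (a (f e)))))))), t false 1 (d (a (f (c (d
  (a (c (f e))))))))])) nil nil) nil) (br (br nil nil nil (br nil nil (br (br nil nil nil nil (hit
  [t false 1 (b (f (a (c (d (a (b (a (c (f e)))))))))), t true 1 (c (d (a (b (f (a (c (a (b (f
  e)))))))))), t true 1 (d (b (f (a (c (d (a (b (c (f e)))))))))), t false 1 (d (f (a (c (d (a (b (c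
  (f (c e)))))))))), t true 1 (f (a (c (d (a (b (a (c (f (a e))))))))))])) nil nil nil (hit [t false
  1 (b (f (c (d (a (b (a (c (f e))))))))), t true 1 (c (d (a (b (f (a (c (a (f e))))))))), t false 1
  (d (a (b (f (c (d (a (c (f e))))))))), t true 1 (f (c (d (a (b (a (c (f (a e)))))))))])) nil nil)
  nil) nil nil (br (br nil nil (br nil nil nil nil (hit [t false 1 (b (f (c (a (d (b (a (c (f
  e))))))))), t true 1 (c (a (d (b (f (a (c (a (f e))))))))), t false 1 (d (b (f (c (a (d (a (c (f
  e))))))))), t true 1 (f (c (a (d (b (a (c (f (a e)))))))))])) nil nil) (br (br nil nil (br nil nil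
  nil nil (hit [t false 1 (a (c (f (a (b (d (b (a (f (c e)))))))))), t false 1 (a (f (c (a (b (d (b
  (a (c (f e)))))))))), t true 1 (b (a (c (f (a (d (b (a (f (c e)))))))))), t true 1 (b (a (f (c (a
  (d (b (a (c (f e)))))))))), t true 1 (b (c (a (f (c (d (b (a (c (f e)))))))))), t false 1 (b (d (a
  (c (f (a (b (a (f (c e)))))))))), t false 1 (b (d (a (f (c (a (b (a (c (f e)))))))))), t false 1
  (b (d (b (c (a (f (a (c (a (f e)))))))))), t true 1 (b (d (c (a (f (a (c (b (a (f e)))))))))), t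
  true 1 (b (d (c (a (f (b (a (c (b (f e)))))))))), t false 1 (c (a (f (a (b (d (b (c (a (f
  e)))))))))), t false 1 (c (a (f (c (b (d (b (a (c (f e)))))))))), t true 1 (c (b (a (f (a (d (b (c
  (a (f e)))))))))), t false 1 (c (b (d (a (f (a (b (c (a (f e)))))))))), t true 1 (c (b (d (b (a (f
  (a (c (a (f e)))))))))), t false 1 (c (d (a (f (a (b (d (c (a (f e)))))))))), t true 1 (c (d (b (a
  (f (a (d (c (a (f e)))))))))), t true 1 (c (f (a (b (d (b (a (f (c (a e)))))))))), t false 1 (d (a
  (c (f (a (b (d (a (f (c e)))))))))), t false 1 (d (a (f (c (a (b (d (a (c (f e)))))))))), t true 1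
  (d (b (a (c (f (a (d (a (f (c e)))))))))), t true 1 (d (b (a (f (c (a (d (a (c (f e)))))))))), t
  true 1 (d (b (c (a (f (c (d (a (c (f e)))))))))), t false 1 (d (c (a (f (c (b (d (a (c (f
  e)))))))))), t true 1 (f (a (b (d (b (c (a (f (a (c e)))))))))), t true 1 (f (c (a (b (d (b (a (c
  (f (a e))))))))))])) nil nil) nil (br nil nil nil nil (hit [t false 1 (a (c (f (a (b (d (b (a (f
  e))))))))), t true 1 (b (a (c (f (a (d (b (a (f e))))))))), t true 1 (b (c (f (c (d (b (a (c (f
  e))))))))), t false 1 (b (d (a (c (f (a (b (a (f e))))))))), t false 1 (b (d (b (c (f (a (c (a (f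
  e))))))))), t true 1 (b (d (c (f (a (c (b (a (f e))))))))), t true 1 (b (d (c (f (b (a (c (b (f
  e))))))))), t true 1 (c (b (d (b (f (a (c (a (f e))))))))), t false 1 (c (f (a (b (d (b (c (a (f
  e))))))))), t false 1 (c (f (c (b (d (b (a (c (f e))))))))), t false 1 (d (a (c (f (a (b (d (a (f
  e))))))))), t true 1 (d (b (a (c (f (a (d (a (f e))))))))), t true 1 (d (b (c (f (c (d (a (c (f
  e))))))))), t false 1 (d (c (f (c (b (d (a (c (f e))))))))), t true 1 (f (a (b (d (b (c (a (f (a
  e))))))))), t true 1 (f (c (b (d (b (a (c (f (a e)))))))))])) nil nil) (br (br nil nil nil nil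
  (hit [t false 1 (b (f (a (c (d (b (a (c (f e))))))))), t false 1 (d (b (f (a (c (d (a (c (f
  e))))))))), t true 1 (f (a (c (d (b (a (c (f (a e)))))))))])) nil nil nil (hit [t false 1 (b (f (c
  (d (b (a (c (f e)))))))), t true 1 (c (d (b (f (a (c (a (f e)))))))), t false 1 (d (b (f (c (d (a
  (c (f e)))))))), t true 1 (f (c (d (b (a (c (f (a e))))))))])) nil nil) nil) nil (br (br nil nil
  (br (br nil (br nil nil nil nil (hit [t false 1 (a (c (a (b (d (a (c (f (b (a e)))))))))), t false
  1 (a (c (a (b (d (b (a (c (f (b e)))))))))), t false 1 (a (c (a (b (d (c (f (b (a (c e)))))))))),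
  t true 1 (b (a (c (a (d (a (c (f (b (a e)))))))))), t true 1 (b (a (c (a (d (b (a (c (f (b
  e)))))))))), t true 1 (b (a (c (a (d (c (f (b (a (c e)))))))))), t false 1 (c (a (b (d (a (b (f (b
  (c (a e)))))))))), t false 1 (c (a (b (d (a (c (a (b (f (b e)))))))))), t true 1 (c (a (b (d (a (c
  (b (f (b (a e)))))))))), t true 1 (c (a (b (d (b (a (c (a (f (b e)))))))))), t false 1 (c (a (b (d
  (b (f (a (c (a (b e)))))))))), t true 1 (c (a (b (d (b (f (b (a (c (a e)))))))))), t false 1 (c (a
  (b (d (c (a (b (f (b (c e)))))))))), t true 1 (c (a (b (d (c (b (f (b (a (c e)))))))))), t true 1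
  (c (a (d (f (a (c (a (b (d (f e)))))))))), t false 1 (d (f (b (a (c (a (d (a (c (f e)))))))))), t
  true 1 (f (b (a (c (a (d (a (c (f (a e))))))))))])) nil nil (hit [t true 1 (c (a (d (f (a (c (a (d
  (f e))))))))), t false 1 (d (f (a (c (a (d (a (c (f e))))))))), t true 1 (f (a (c (a (d (a (c (f
  (a e)))))))))])) (br (br nil nil nil nil (hit [t true 1 (b (c (d (f (a (b (a (d (c (f e)))))))))),
  t false 1 (b (c (f (a (b (a (d (c (f (c e)))))))))), t true 1 (c (a (b (d (f (a (c (a (d (f
  e)))))))))), t true 1 (c (b (d (f (a (b (c (a (d (f e)))))))))), t false 1 (c (d (f (a (b (a (d (c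
  (a (f e)))))))))), t true 1 (c (f (a (b (a (d (a (f (c (a e)))))))))), t true 1 (c (f (a (b (a (d
  (c (a (f (c e)))))))))), t false 1 (d (f (a (b (c (a (d (a (c (f e)))))))))), t true 1 (f (a (b (c
  (a (d (a (c (f (a e))))))))))])) nil nil nil (hit [t true 1 (b (c (a (d (a (c (f (b (a e))))))))),
  t true 1 (b (c (a (d (b (a (c (f (b e))))))))), t true 1 (b (c (a (d (c (f (b (a (c e))))))))), t
  true 1 (c (a (d (a (b (f (b (c (a e))))))))), t true 1 (c (a (d (a (c (a (b (f (b e))))))))), t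
  false 1 (c (a (d (a (c (b (f (b (a e))))))))), t false 1 (c (a (d (b (a (c (a (f (b e))))))))), t
  true 1 (c (a (d (b (f (a (c (a (b e))))))))), t false 1 (c (a (d (b (f (b (a (c (a e))))))))), t
  true 1 (c (a (d (c (a (b (f (b (c e))))))))), t false 1 (c (a (d (c (b (f (b (a (c e))))))))), t
  true 1 (c (a (d (f (a (c (a (b (f e))))))))), t false 1 (d (f (b (c (a (d (a (c (f e))))))))), t
  true 1 (f (b (c (a (d (a (c (f (a e)))))))))])) nil nil (hit [t true 1 (c (a (d (f (a (c (a (f
  e)))))))), t false 1 (d (f (c (a (d (a (c (f e)))))))), t true 1 (f (c (a (d (a (c (f (a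
  e))))))))])) nil nil) (br (br nil nil (br (br nil nil nil nil (hit [t false 1 (b (d (f (a (c (a (b
  (a (c (f e)))))))))), t true 1 (c (a (b (d (f (a (c (a (b (f e)))))))))), t true 1 (c (a (d (f (a
  (c (a (b (d (f e)))))))))), t false 1 (d (f (a (c (a (b (d (a (c (f e)))))))))), t true 1 (f (a (c
  (a (b (d (a (c (f (a e))))))))))])) nil nil nil (hit [t false 1 (b (d (f (c (a (b (a (c (f
  e))))))))), t true 1 (c (a (b (d (f (a (c (a (f e))))))))), t false 1 (d (f (c (a (b (d (a (c (f
  e))))))))), t true 1 (f (c (a (b (d (a (c (f (a e)))))))))])) nil nil) nil (br (br nil (br nil nil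
  nil nil (hit [t true 1 (b (a (d (f (b (a (c (b (d (f e)))))))))), t true 1 (b (d (f (a (b (a (d (c
  (b (f e)))))))))), t false 1 (b (f (a (b (a (d (b (f (c (b e)))))))))), t false 1 (b (f (a (b (a
  (d (c (b (f (c e)))))))))), t false 1 (d (f (b (a (c (b (d (a (c (f e)))))))))), t true 1 (f (b (a
  (c (b (d (a (c (f (a e))))))))))])) nil nil (hit [t true 1 (b (d (f (a (b (a (c (b (f e))))))))),
  t false 1 (d (f (a (c (b (d (a (c (f e))))))))), t true 1 (f (a (c (b (d (a (c (f (a e)))))))))]))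
  (br nil nil nil nil (hit [t true 1 (b (d (f (b (a (c (b (d (f e))))))))), t false 1 (d (f (b (a (c
  (b (d (a (f e))))))))), t false 1 (d (f (b (c (b (d (a (c (f e))))))))), t true 1 (f (b (a (c (b
  (d (a (f (a e))))))))), t true 1 (f (b (c (b (d (a (c (f (a e)))))))))])) nil nil (hit [t true 1
  (b (d (f (a (c (b (a (f e)))))))), t true 1 (b (d (f (b (a (c (b (f e)))))))), t true 1 (c (b (d
  (f (a (c (a (f e)))))))), t false 1 (d (f (c (b (d (a (c (f e)))))))), t true 1 (f (c (b (d (a (c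
  (f (a e))))))))])) nil nil) (br (br nil (br (br nil nil nil nil (hit [t true 1 (b (d (f (a (b (a
  (c (d (c (f e)))))))))), t false 1 (b (f (a (b (a (c (d (c (f (c e)))))))))), t false 1 (d (f (a
  (b (a (c (d (a (c (f e)))))))))), t true 1 (f (a (b (a (c (d (a (c (f (a e))))))))))])) nil nil
  nil (hit [t true 1 (b (a (c (d (a (c (f (b (a e))))))))), t true 1 (b (a (c (d (b (a (c (f (b
  e))))))))), t true 1 (b (a (c (d (c (f (b (a (c e))))))))), t false 1 (d (f (b (a (c (d (a (c (f
  e))))))))), t true 1 (f (b (a (c (d (a (c (f (a e)))))))))])) nil nil (hit [t false 1 (d (f (a (c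
  (d (a (c (f e)))))))), t true 1 (f (a (c (d (a (c (f (a e))))))))])) (br (br nil nil nil nil (hit
  [t false 1 (b (c (d (f (a (b (a (c (f e))))))))), t true 1 (c (d (f (a (b (a (c (a (f e))))))))),
  t false 1 (d (f (a (b (c (d (a (c (f e))))))))), t true 1 (f (a (b (c (d (a (c (f (a e)))))))))]))
  nil nil nil (hit [t true 1 (b (c (d (a (c (f (b (a e)))))))), t true 1 (b (c (d (b (a (c (f (b
  e)))))))), t true 1 (b (c (d (c (f (b (a (c e)))))))), t true 1 (c (d (a (b (f (b (c (a e)))))))),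
  t true 1 (c (d (a (c (a (b (f (b e)))))))), t false 1 (c (d (a (c (b (f (b (a e)))))))), t false 1
  (c (d (b (a (c (a (f (b e)))))))), t true 1 (c (d (b (f (a (c (a (b e)))))))), t false 1 (c (d (b
  (f (b (a (c (a e)))))))), t true 1 (c (d (c (a (b (f (b (c e)))))))), t false 1 (c (d (c (b (f (b
  (a (c e)))))))), t true 1 (c (d (f (a (c (a (b (f e)))))))), t false 1 (d (f (b (c (d (a (c (f
  e)))))))), t true 1 (f (b (c (d (a (c (f (a e))))))))])) nil nil (hit [t true 1 (c (d (f (a (c (a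
  (f e))))))), t false 1 (d (f (c (d (a (c (f e))))))), t true 1 (f (c (d (a (c (f (a e)))))))]))
  nil nil) nil) (br (br nil nil (br (br nil nil nil (br nil nil (br nil nil nil nil (hit [t true 1
  (a (f (a (c (d (a (c (a (d (f e)))))))))), t false 1 (c (a (f (a (d (a (c (a (d (f e)))))))))), t
  false 1 (d (c (a (f (a (c (d (a (c (f e)))))))))), t false 1 (f (a (c (d (a (c (a (d (f (a
  e)))))))))), t true 1 (f (c (a (d (c (a (f (a (c (d e))))))))))])) nil nil) nil) nil nil nil nil)
  nil nil) (br nil nil (br (br nil (br (br nil nil nil nil (hit [t false 1 (b (d (f (a (b (a (c (b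
  (d (c e)))))))))), t false 1 (b (f (a (b (a (c (b (d (f (c e)))))))))), t true 1 (d (f (a (b (a (c
  (b (d (a (c e))))))))))])) nil nil nil (hit [t false 1 (b (a (d (f (b (a (c (b (d e))))))))), t
  false 1 (b (a (f (b (a (c (b (d (f e))))))))), t false 1 (b (d (f (a (b (a (d (c (b e))))))))), t
  false 1 (b (f (a (b (a (d (f (c (b e))))))))), t true 1 (d (f (b (a (c (b (d (a (c e)))))))))]))
  nil nil nil) (br (br nil nil nil nil (hit [t false 1 (b (d (f (a (b (a (c (b (d e))))))))), t
  false 1 (b (f (a (b (a (c (b (d (f e))))))))), t true 1 (d (f (a (b (a (c (b (d (a e))))))))), t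
  true 1 (d (f (a (b (c (b (d (a (c e))))))))), t true 1 (f (a (b (a (c (b (d (f (a e)))))))))]))
  nil nil nil (hit [t false 1 (b (d (f (b (a (c (b (d e)))))))), t false 1 (b (f (b (a (c (b (d (f
  e)))))))), t true 1 (d (f (b (a (c (b (d (a e)))))))), t true 1 (d (f (b (c (b (d (a (c e)))))))),
  t true 1 (f (b (a (c (b (d (f (a e))))))))])) nil nil nil) nil nil) nil nil nil) nil))

def R32 : R := (br (br nil nil (hit [t true 1 (a (b (c (a e)))), t true 1 (b (c (a (b e))))]) nil
  (br nil nil (br (br nil (br nil nil nil (br nil nil (br nil nil nil nil (hit [t true 1 (b (a (f (c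
  (d (a (b (a (c (f e)))))))))), t true 1 (c (d (b (a (f (a (b (c (a (f e)))))))))), t true 1 (c (d
  (b (a (f (b (c (a (b (f e)))))))))), t false 1 (d (b (a (f (c (d (a (b (c (f e)))))))))), t false
  1 (f (c (d (a (b (a (c (f (a (b e))))))))))])) nil nil) nil) nil (br nil (br nil nil (br nil nil
  nil nil (hit [t true 1 (b (d (a (f (c (a (b (a (c (f e)))))))))), t true 1 (c (b (d (a (f (a (b (c
  (a (f e)))))))))), t true 1 (c (b (d (a (f (b (c (a (b (f e)))))))))), t false 1 (d (a (f (c (b (d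
  (a (b (c (f e)))))))))), t true 1 (f (c (b (d (a (b (c (f (a (b e))))))))))])) nil nil) (br nil
  nil nil nil (hit [t true 1 (c (d (a (f (a (b (c (a (f e))))))))), t true 1 (c (d (a (f (b (c (a (b
  (f e))))))))), t false 1 (d (a (f (c (d (a (b (c (f e))))))))), t true 1 (f (c (d (a (b (c (f (a
  (b e)))))))))])) nil nil) nil) (br (br nil nil nil (br nil nil (br nil nil nil nil (hit [t true 1
  (c (d (a (b (f (a (b (c (a (f e)))))))))), t true 1 (c (d (a (b (f (b (c (a (b (f e)))))))))), t
  false 1 (d (a (b (f (c (d (a (b (c (f e))))))))))])) nil nil) nil) nil nil (br nil nil (br (br nil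
  nil nil nil (hit [t true 1 (b (f (a (c (d (a (b (a (c (f e)))))))))), t true 1 (c (d (b (f (a (b
  (c (a (b (f e)))))))))), t false 1 (d (b (f (a (c (d (a (b (c (f e)))))))))), t false 1 (f (a (c
  (d (a (b (a (c (f (a e))))))))))])) nil nil nil (hit [t true 1 (b (f (c (d (a (b (a (c (f
  e))))))))), t true 1 (c (d (b (f (a (b (c (a (f e))))))))), t true 1 (c (d (b (f (b (c (a (b (f
  e))))))))), t false 1 (d (b (f (c (d (a (b (c (f e))))))))), t false 1 (f (c (d (a (b (a (c (f (a
  e)))))))))])) nil nil) nil) nil (br nil (br nil nil (br (br nil nil nil nil (hit [t true 1 (b (d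
  (f (a (c (a (b (a (c (f e)))))))))), t true 1 (c (b (d (f (a (b (c (a (b (f e)))))))))), t false 1
  (d (f (a (c (b (d (a (b (c (f e)))))))))), t true 1 (f (a (c (b (d (a (b (c (f (a e)))))))))), t
  true 1 (f (a (c (b (d (b (c (f (a (b e))))))))))])) nil nil nil (hit [t true 1 (b (d (f (c (a (b
  (a (c (f e))))))))), t true 1 (c (b (d (f (a (b (c (a (f e))))))))), t true 1 (c (b (d (f (b (c (a
  (b (f e))))))))), t false 1 (d (f (c (b (d (a (b (c (f e))))))))), t true 1 (f (c (b (d (a (b (c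
  (f (a e))))))))), t true 1 (f (c (b (d (b (c (f (a (b e)))))))))])) nil nil) (br (br nil (br nil
  nil nil nil (hit [t true 1 (b (a (c (d (f (a (b (a (c (f e)))))))))), t false 1 (c (d (f (a (b (a
  (c (a (b (f e)))))))))), t false 1 (d (f (b (a (c (d (a (b (c (f e)))))))))), t true 1 (f (b (a (c
  (d (a (b (c (f (a e)))))))))), t true 1 (f (b (a (c (d (b (c (f (a (b e))))))))))])) nil nil (hit
  [t true 1 (c (d (f (a (b (c (a (b (f e))))))))), t false 1 (d (f (a (c (d (a (b (c (f e))))))))),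
  t true 1 (f (a (c (d (a (b (c (f (a e))))))))), t true 1 (f (a (c (d (b (c (f (a (b e)))))))))]))
  nil nil nil (hit [t true 1 (c (d (f (a (b (c (a (f e)))))))), t true 1 (c (d (f (b (c (a (b (f
  e)))))))), t false 1 (d (f (c (d (a (b (c (f e)))))))), t true 1 (f (c (d (a (b (c (f (a
  e)))))))), t true 1 (f (c (d (b (c (f (a (b e))))))))])) nil nil) nil) nil nil)) nil (hit [t true
  1 (b (c (b e)))]) (br (br nil (br nil nil nil nil (br (br nil nil (br (br nil nil nil nil (hit [t
  false 1 (a (b (c (d (f (a (c (a (f (b e)))))))))), t true 1 (a (b (c (f (a (c (a (f (d (b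
  e)))))))))), t true 1 (a (c (d (b (c (f (a (c (a (f e)))))))))), t false 1 (a (c (d (f (a (c (a (f
  (b (a e)))))))))), t true 1 (a (d (b (c (f (a (c (a (f (d e)))))))))), t false 1 (a (d (f (a (c (a
  (f (b (a (d e)))))))))), t true 1 (a (f (a (b (a (c (d (b (c (f e)))))))))), t false 1 (a (f (a (b
  (c (d (b (c (a (f e)))))))))), t true 1 (a (f (a (c (a (b (a (d (b (f e)))))))))), t false 1 (a (f
  (a (c (a (f (b (a (d (b e)))))))))), t true 1 (b (a (f (a (c (d (b (c (a (f e)))))))))), t false 1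
  (b (c (d (f (a (b (c (a (f (b e)))))))))), t false 1 (b (c (f (a (c (a (f (d (b (c e)))))))))), t
  false 1 (c (d (b (c (a (f (a (c (a (f e)))))))))), t true 1 (c (d (f (a (c (a (f (b (a (c
  e)))))))))), t true 1 (d (a (f (a (b (a (c (d (c (f e)))))))))), t false 1 (d (a (f (a (b (c (d (c
  (a (f e)))))))))), t true 1 (d (b (a (f (a (c (d (c (a (f e)))))))))), t false 1 (d (b (c (f (a (c
  (a (f (d (c e)))))))))), t false 1 (d (f (a (b (a (c (d (c (f (b e)))))))))), t true 1 (d (f (a (c
  (a (f (b (a (d (c e)))))))))), t false 1 (f (a (b (a (c (d (b (c (f (c e)))))))))), t true 1 (f (a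
  (b (a (c (d (c (f (c (b e)))))))))), t true 1 (f (a (b (c (d (b (a (f (c (a e)))))))))), t true 1
  (f (a (b (c (d (b (c (a (f (c e)))))))))), t false 1 (f (a (c (a (b (a (d (b (f (c e))))))))))]))
  nil nil nil nil) nil nil) nil nil nil nil)) (br (br nil (br (br nil nil nil (hit [t false 1 (a (d
  (a (b (a (c (a (d (c e)))))))))]) nil) nil nil nil nil) nil (hit [t false 1 (a (d (a (b (c (a (d
  e))))))), t true 1 (d (a (b (c (a (d (b e)))))))]) nil) (br (br nil nil nil (hit [t false 1 (a (b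
  (d (a (b (c (a (d e)))))))), t true 1 (a (d (a (b (a (d (c (a e))))))))]) nil) nil nil nil nil)
  nil nil nil) nil nil) (br (br nil nil (br (br nil nil nil (hit [t true 1 (a (b (d (a (b (a (c (a
  e)))))))), t true 1 (a (c (b (d (a (b (a (c e)))))))), t true 1 (a (d (a (b (a (c (a (d e)))))))),
  t false 1 (b (d (a (b (a (c (a (b e)))))))), t false 1 (c (b (d (a (b (a (c (b e)))))))), t false
  1 (d (a (b (a (c (a (d (b e))))))))]) nil) nil nil nil nil) nil nil) nil nil nil (br (br nil nil
  (br (br nil nil nil nil (hit [t false 1 (a (b (d (f (a (c (a (f (b e))))))))), t true 1 (a (b (f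
  (a (c (a (f (d (b e))))))))), t true 1 (a (d (b (f (a (c (a (f (d e))))))))), t false 1 (a (d (f
  (a (c (a (f (b (d e))))))))), t false 1 (a (f (a (b (d (b (c (a (f e))))))))), t true 1 (a (f (a
  (c (a (b (d (b (f e))))))))), t false 1 (a (f (a (c (a (f (b (d (b e))))))))), t true 1 (b (a (f
  (a (d (b (c (a (f e))))))))), t false 1 (b (d (f (a (b (c (a (f (b e))))))))), t false 1 (b (f (a
  (c (a (f (d (b (c e))))))))), t false 1 (d (a (f (a (b (d (c (a (f e))))))))), t true 1 (d (b (a
  (f (a (d (c (a (f e))))))))), t false 1 (d (b (f (a (c (a (f (d (c e))))))))), t true 1 (d (f (a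
  (c (a (f (b (d (c e))))))))), t true 1 (f (a (b (d (b (a (f (c (a e))))))))), t true 1 (f (a (b (d
  (b (c (a (f (c e))))))))), t false 1 (f (a (c (a (b (d (b (f (c e)))))))))])) nil nil nil nil) nil
  nil) nil nil nil nil)) nil nil nil) (br (br nil nil (br (br nil (br (br nil nil nil nil (hit [t
  false 1 (a (f (a (b (a (c (a (f (c e)))))))))])) nil nil nil nil) nil nil (hit [t false 1 (a (f (a
  (b (c (a (f e))))))), t true 1 (f (a (b (c (a (f (b e)))))))])) (br (br nil nil nil nil (hit [t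
  false 1 (a (b (f (a (b (c (a (f e)))))))), t true 1 (a (f (a (b (a (f (c (a e))))))))])) nil nil
  (br (br nil nil nil nil (hit [t false 1 (a (d (b (f (a (b (c (a (f e))))))))), t true 1 (a (d (f
  (a (b (a (f (c (a e))))))))), t false 1 (d (b (f (a (d (b (c (a (f e))))))))), t true 1 (d (f (a
  (d (b (a (f (c (a e))))))))), t false 1 (f (a (d (a (f (b (a (c (a e)))))))))])) (br (br nil nil
  nil nil (hit [t false 1 (a (b (d (a (b (f (a (c (a (f e)))))))))), t false 1 (a (b (d (b (f (a (b
  (c (a (f e)))))))))), t true 1 (a (b (d (f (a (b (a (f (c (a e)))))))))), t false 1 (d (f (a (b (d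
  (b (c (a (f (c e)))))))))), t false 1 (f (a (b (d (a (f (b (a (c (a e))))))))))])) nil nil nil
  nil) (br (br nil nil nil nil (hit [t false 1 (a (c (d (b (f (a (b (c (a (f e)))))))))), t true 1
  (a (c (d (f (a (b (a (f (c (a e)))))))))), t true 1 (c (d (a (b (f (a (c (b (a (f e)))))))))), t
  true 1 (c (d (a (c (b (f (a (c (a (f e)))))))))), t true 1 (c (d (b (f (a (b (c (b (a (f
  e)))))))))), t false 1 (c (d (f (a (b (a (f (c (b (a e)))))))))), t false 1 (d (b (f (a (c (d (b
  (c (a (f e)))))))))), t true 1 (d (f (a (c (d (b (a (f (c (a e)))))))))), t false 1 (f (a (c (d (a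
  (f (b (a (c (a e))))))))))])) nil nil nil nil) nil nil) nil) nil (br (br nil nil nil nil (hit [t
  false 1 (a (d (f (a (b (c (a (f e)))))))), t false 1 (d (f (a (d (b (c (a (f e)))))))), t true 1
  (f (a (d (a (f (b (c (a e)))))))), t true 1 (f (a (d (b (c (a (f (b e))))))))])) (br (br nil nil
  nil nil (hit [t false 1 (a (b (d (f (a (b (c (a (f e))))))))), t false 1 (d (f (a (b (d (b (c (a
  (f e))))))))), t true 1 (f (a (b (d (a (f (b (c (a e))))))))), t true 1 (f (a (b (d (b (c (a (f (b
  e)))))))))])) nil nil nil nil) (br (br nil nil nil nil (hit [t false 1 (a (c (d (f (a (b (c (a (f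
  e))))))))), t true 1 (c (d (f (a (b (c (b (a (f e))))))))), t false 1 (d (f (a (c (d (b (c (a (f
  e))))))))), t true 1 (f (a (c (d (a (f (b (c (a e))))))))), t true 1 (f (a (c (d (b (c (a (f (b
  e)))))))))])) (br (br nil nil nil nil (hit [t false 1 (a (b (c (d (f (a (b (c (a (f e)))))))))), t
  false 1 (d (f (a (b (c (d (b (c (a (f e)))))))))), t true 1 (f (a (b (c (d (a (f (b (c (a
  e)))))))))), t true 1 (f (a (b (c (d (b (c (a (f (b e))))))))))])) nil nil nil nil) nil nil nil)
  nil nil) nil) nil nil) (br (br nil nil (br (br nil nil nil nil (hit [t true 1 (a (b (f (a (b (a (c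
  (a e)))))))), t true 1 (a (c (b (f (a (b (a (c e)))))))), t true 1 (a (f (a (b (a (c (a (f
  e)))))))), t false 1 (b (f (a (b (a (c (a (b e)))))))), t false 1 (c (b (f (a (b (a (c (b
  e)))))))), t false 1 (f (a (b (a (c (a (f (b e))))))))])) nil nil nil nil) nil nil) nil nil nil
  nil) (br (br nil (br nil nil nil (br nil nil (br nil nil nil nil (hit [t true 1 (a (f (c (d (a (b
  (a (c (f e))))))))), t true 1 (c (d (b (a (f (b (c (b (f e))))))))), t false 1 (d (b (a (f (c (d
  (b (c (f e))))))))), t false 1 (f (c (d (a (b (a (c (f (b e)))))))))])) nil nil) nil) nil (br (br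
  nil (br nil nil (br nil nil nil nil (hit [t true 1 (a (b (f (c (b (d (a (b (c (f e)))))))))), t
  true 1 (a (c (b (f (c (d (a (b (c (f e)))))))))), t false 1 (a (d (a (c (b (f (b (c (b (f
  e)))))))))), t true 1 (a (d (b (f (c (a (b (a (c (f e)))))))))), t true 1 (a (d (c (b (f (a (b (c
  (a (f e)))))))))), t true 1 (a (d (c (b (f (b (c (a (b (f e)))))))))), t false 1 (b (f (c (b (a (d
  (a (b (c (f e)))))))))), t true 1 (c (b (a (d (a (f (b (c (b (f e)))))))))), t false 1 (c (b (f (a
  (d (a (b (c (b (f e)))))))))), t false 1 (c (b (f (c (a (d (a (b (c (f e)))))))))), t true 1 (d (a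
  (b (f (c (b (d (b (c (f e)))))))))), t true 1 (d (a (c (b (f (c (d (b (c (f e)))))))))), t false 1
  (d (b (f (c (b (a (d (b (c (f e)))))))))), t false 1 (d (c (b (f (c (a (d (b (c (f e)))))))))), t
  true 1 (f (a (d (a (b (c (b (f (b (c e)))))))))), t true 1 (f (c (b (a (d (a (b (c (f (b
  e))))))))))])) nil nil) (br nil nil nil nil (hit [t true 1 (a (c (f (c (d (a (b (c (f e))))))))),
  t false 1 (a (d (a (c (f (b (c (b (f e))))))))), t true 1 (a (d (c (f (a (b (c (a (f e))))))))), t
  true 1 (a (d (c (f (b (c (a (b (f e))))))))), t true 1 (c (a (d (a (f (b (c (b (f e))))))))), t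
  false 1 (c (f (a (d (a (b (c (b (f e))))))))), t false 1 (c (f (c (a (d (a (b (c (f e))))))))), t
  true 1 (d (a (c (f (c (d (b (c (f e))))))))), t false 1 (d (c (f (c (a (d (b (c (f e))))))))), t
  true 1 (f (a (d (a (b (c (b (f (b e))))))))), t true 1 (f (c (a (d (a (b (c (f (b e)))))))))]))
  nil nil) (br nil nil (br nil nil nil nil (hit [t false 1 (a (f (c (b (d (a (b (c (f e))))))))), t
  true 1 (c (b (d (a (f (b (c (b (f e))))))))), t false 1 (d (a (f (c (b (d (b (c (f e))))))))), t
  true 1 (f (c (b (d (a (b (c (f (b e)))))))))])) nil nil) (br nil nil nil nil (hit [t false 1 (a (f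
  (c (d (a (b (c (f e)))))))), t true 1 (c (d (a (f (b (c (b (f e)))))))), t false 1 (d (a (f (c (d
  (b (c (f e)))))))), t true 1 (f (c (d (a (b (c (f (b e))))))))])) nil nil) nil) (br (br nil nil
  nil (br (br nil nil (br nil nil nil nil (hit [t true 1 (a (c (b (f (c (d (a (b (c (f e)))))))))),
  t false 1 (a (d (a (c (b (f (b (c (b (f e)))))))))), t true 1 (a (d (c (b (f (a (b (c (a (f
  e)))))))))), t true 1 (a (d (c (b (f (b (c (a (b (f e)))))))))), t true 1 (c (a (d (a (b (f (b (c
  (b (f e)))))))))), t false 1 (c (b (f (a (d (a (b (c (b (f e)))))))))), t false 1 (c (b (f (c (a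
  (d (a (b (c (f e)))))))))), t true 1 (d (a (c (b (f (c (d (b (c (f e)))))))))), t false 1 (d (c (b
  (f (c (a (d (b (c (f e)))))))))), t true 1 (f (a (d (a (b (c (b (f (b (c e))))))))))])) nil nil)
  nil (br nil nil nil nil (hit [t false 1 (a (b (f (c (d (a (b (c (f e))))))))), t true 1 (c (d (a
  (b (f (b (c (b (f e))))))))), t false 1 (d (a (b (f (c (d (b (c (f e)))))))))])) nil nil) nil) nil
  nil (br nil nil (br (br nil (br nil nil nil nil (hit [t true 1 (a (c (d (f (a (b (a (c (f (c
  e)))))))))), t false 1 (c (d (f (a (b (a (c (b (f (c e)))))))))), t false 1 (d (f (b (a (c (d (b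
  (c (f (c e))))))))))])) nil nil (hit [t false 1 (a (c (d (a (b (a (c (f (a e))))))))), t true 1 (a
  (c (d (b (c (f (a (b (c e))))))))), t true 1 (c (d (b (f (a (b (c (b (f e))))))))), t false 1 (d
  (b (f (a (c (d (b (c (f e)))))))))])) (br (br nil nil nil nil (hit [t true 1 (a (b (c (d (a (b (c
  (f (a (c e)))))))))), t true 1 (a (b (c (d (b (c (f (a (b (c e)))))))))), t false 1 (d (f (a (b (c
  (d (b (c (f (c e))))))))))])) nil nil nil (hit [t false 1 (d (f (b (c (d (b (c (f (c e)))))))))]))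
  nil nil (hit [t true 1 (c (d (b (f (b (c (b (f e)))))))), t false 1 (d (b (f (c (d (b (c (f
  e))))))))])) nil nil) nil) nil (br (br nil (br nil nil (br nil (br nil nil nil nil (hit [t true 1
  (a (c (a (b (a (c (d (a (f (a e)))))))))), t true 1 (a (d (f (b (c (a (b (a (c (f e)))))))))), t
  true 1 (b (c (b (a (d (a (b (c (f (a e)))))))))), t true 1 (b (c (b (a (d (b (c (f (a (b
  e)))))))))), t true 1 (b (c (b (a (d (c (f (a (b (c e)))))))))), t true 1 (c (b (a (d (f (a (b (c
  (b (f e)))))))))), t true 1 (c (b (d (f (a (b (c (b (d (f e)))))))))), t false 1 (d (f (b (c (b (a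
  (d (b (c (f e)))))))))), t true 1 (f (b (c (b (a (d (b (c (f (b e))))))))))])) nil nil (hit [t
  true 1 (a (d (f (c (a (b (a (c (f e))))))))), t true 1 (c (b (a (d (f (b (c (b (f e))))))))), t
  false 1 (d (f (c (b (a (d (b (c (f e))))))))), t true 1 (f (c (b (a (d (b (c (f (b e)))))))))]))
  nil nil) (br (br nil nil nil nil (hit [t true 1 (a (d (f (a (b (c (a (d (f e))))))))), t false 1
  (d (f (a (b (c (a (d (b (f e))))))))), t false 1 (d (f (a (c (a (d (b (c (f e))))))))), t true 1
  (f (a (b (c (a (d (b (f (b e))))))))), t true 1 (f (a (c (a (d (b (c (f (b e)))))))))])) (br (br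
  nil nil nil nil (hit [t true 1 (a (b (d (f (a (b (c (a (d (f e)))))))))), t false 1 (a (d (f (a (b
  (a (d (c (a (f e)))))))))), t true 1 (a (f (a (b (a (d (a (f (c (a e)))))))))), t true 1 (a (f (a
  (b (a (d (c (a (f (c e)))))))))), t false 1 (d (f (a (b (c (a (d (b (c (f e)))))))))), t true 1 (f
  (a (b (c (a (d (b (c (f (b e))))))))))])) nil nil nil nil) nil nil (hit [t true 1 (a (d (f (a (b
  (c (a (f e)))))))), t true 1 (a (d (f (b (c (a (b (f e)))))))), t true 1 (c (a (d (f (b (c (b (f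
  e)))))))), t false 1 (d (f (c (a (d (b (c (f e)))))))), t true 1 (f (c (a (d (b (c (f (b
  e))))))))])) nil nil) (br nil nil (br (br nil (br nil nil nil nil (hit [t false 1 (a (c (d (f (a
  (b (a (d (c (f e)))))))))), t true 1 (a (c (f (a (b (a (d (c (f (c e)))))))))), t true 1 (c (a (d
  (f (b (a (c (b (d (f e)))))))))), t true 1 (c (b (a (d (f (b (c (b (d (f e)))))))))), t true 1 (c
  (d (f (a (b (a (d (c (b (f e)))))))))), t false 1 (c (f (a (b (a (d (b (f (c (b e)))))))))), t
  false 1 (c (f (a (b (a (d (c (b (f (c e)))))))))), t false 1 (d (f (b (a (c (b (d (b (c (f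
  e)))))))))), t true 1 (f (b (a (c (b (d (b (c (f (b e))))))))))])) nil nil (hit [t true 1 (a (c (b
  (d (a (b (c (f (a e))))))))), t true 1 (a (c (b (d (b (c (f (a (b e))))))))), t true 1 (a (c (b (d
  (c (f (a (b (c e))))))))), t true 1 (c (b (d (f (a (b (c (b (f e))))))))), t false 1 (d (f (a (c
  (b (d (b (c (f e))))))))), t true 1 (f (a (c (b (d (b (c (f (b e)))))))))])) (br (br nil nil nil
  nil (hit [t true 1 (a (b (c (b (d (a (b (c (f (a e)))))))))), t true 1 (a (b (c (b (d (b (c (f (a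
  (b e)))))))))), t true 1 (a (b (c (b (d (c (f (a (b (c e)))))))))), t true 1 (a (c (a (b (a (c (d
  (a (f (a e)))))))))), t true 1 (c (b (d (f (a (b (c (b (d (f e)))))))))), t false 1 (d (f (a (b (c
  (b (d (b (c (f e)))))))))), t true 1 (f (a (b (c (b (d (b (c (f (b e))))))))))])) nil nil nil (hit
  [t true 1 (c (b (d (f (b (c (b (d (f e))))))))), t false 1 (d (f (b (c (b (d (b (c (f e))))))))),
  t true 1 (f (b (c (b (d (b (c (f (b e)))))))))])) nil nil (hit [t true 1 (c (b (d (f (b (c (b (f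
  e)))))))), t false 1 (d (f (c (b (d (b (c (f e)))))))), t true 1 (f (c (b (d (b (c (f (b
  e))))))))])) nil nil) (br (br nil (br (br nil nil nil nil (hit [t true 1 (a (d (f (a (b (a (c (d
  (c (f e)))))))))), t false 1 (a (f (a (b (a (c (d (c (f (c e)))))))))), t false 1 (d (f (a (b (a
  (c (d (b (c (f e)))))))))), t true 1 (f (a (b (a (c (d (b (c (f (b e))))))))))])) nil nil nil (hit
  [t true 1 (a (c (d (f (a (b (a (c (f e))))))))), t false 1 (c (d (f (a (b (a (c (b (f e))))))))),
  t false 1 (d (f (b (a (c (d (b (c (f e))))))))), t true 1 (f (b (a (c (d (b (c (f (b e)))))))))]))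
  nil nil (hit [t true 1 (a (c (d (a (b (c (f (a e)))))))), t true 1 (a (c (d (b (c (f (a (b
  e)))))))), t true 1 (a (c (d (c (f (a (b (c e)))))))), t true 1 (c (d (f (a (b (c (b (f e)))))))),
  t false 1 (d (f (a (c (d (b (c (f e)))))))), t true 1 (f (a (c (d (b (c (f (b e))))))))])) (br (br
  nil nil nil nil (hit [t true 1 (a (b (c (d (a (b (c (f (a e))))))))), t true 1 (a (b (c (d (b (c
  (f (a (b e))))))))), t true 1 (a (b (c (d (c (f (a (b (c e))))))))), t false 1 (d (f (a (b (c (d
  (b (c (f e))))))))), t true 1 (f (a (b (c (d (b (c (f (b e)))))))))])) nil nil nil (hit [t false 1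
  (d (f (b (c (d (b (c (f e)))))))), t true 1 (f (b (c (d (b (c (f (b e))))))))])) nil nil (hit [t
  true 1 (c (d (f (b (c (b (f e))))))), t false 1 (d (f (c (d (b (c (f e))))))), t true 1 (f (c (d
  (b (c (f (b e)))))))])) nil nil) nil) (br (br nil nil (br (br nil (br (br nil nil nil nil (hit [t
  false 1 (a (d (f (a (b (a (c (a (d (c e)))))))))), t false 1 (a (f (a (b (a (c (a (d (f (c
  e)))))))))), t true 1 (d (f (a (b (a (c (a (d (b (c e))))))))))])) nil nil nil nil) nil nil (hit
  [t false 1 (a (d (f (a (b (c (a (d e)))))))), t false 1 (a (f (a (b (c (a (d (f e)))))))), t true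
  1 (d (f (a (b (c (a (d (b e)))))))), t true 1 (d (f (a (c (a (d (b (c e)))))))), t true 1 (f (a (b
  (c (a (d (f (b e))))))))])) (br (br nil nil nil nil (hit [t false 1 (a (b (d (f (a (b (c (a (d
  e))))))))), t false 1 (a (b (f (a (b (c (a (d (f e))))))))), t true 1 (a (d (f (a (b (a (d (c (a
  e))))))))), t true 1 (a (f (a (b (a (d (f (c (a e))))))))), t true 1 (d (f (a (b (c (a (d (b (c
  e)))))))))])) nil nil nil nil) nil nil nil) nil nil) (br (br nil nil (br (br nil nil nil nil (hit
  [t true 1 (a (b (d (f (a (b (a (c (a e))))))))), t true 1 (a (c (b (d (f (a (b (a (c e))))))))), t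
  true 1 (a (d (f (a (b (a (c (a (d e))))))))), t true 1 (a (f (a (b (a (c (a (d (f e))))))))), t
  false 1 (b (d (f (a (b (a (c (a (b e))))))))), t false 1 (c (b (d (f (a (b (a (c (b e))))))))), t
  false 1 (d (f (a (b (a (c (a (d (b e))))))))), t true 1 (d (f (a (c (a (b (d (b (c e))))))))), t
  false 1 (f (a (b (a (c (a (d (f (b e)))))))))])) nil nil nil nil) nil nil) nil nil nil nil) nil
  nil nil) nil))

def R33 : R := (hit [])

def R34 : R := (br (br nil (br (br nil nil (br (br nil (br nil nil nil (hit [t false 1 (a (c (d (b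
  (a (c (a (b (a e))))))))), t false 1 (a (d (b (a (c (a (b (a (d e))))))))), t false 1 (b (a (c (d
  (b (c (a (b (a e))))))))), t false 1 (b (a (d (b (c (a (b (a (d e))))))))), t true 1 (c (d (b (a
  (c (a (b (a (c e))))))))), t false 1 (d (a (b (a (c (d (c (a (b e)))))))))]) nil) nil (hit [t
  false 1 (a (b (c (d (a (c (a (b e)))))))), t false 1 (a (c (d (a (c (a (b (a e)))))))), t false 1
  (a (d (a (c (a (b (a (d e)))))))), t false 1 (b (c (d (a (b (c (a (b e)))))))), t true 1 (c (d (a
  (c (a (b (a (c e)))))))), t false 1 (d (a (b (a (c (d (c (b e))))))))]) nil) (br (br nil nil nil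
  (hit [t false 1 (a (b (c (d (a (c (a (b (a e))))))))), t false 1 (a (b (d (a (c (a (b (a (d
  e))))))))), t false 1 (b (c (d (a (b (c (a (b (a e))))))))), t false 1 (b (d (a (b (c (a (b (a (d
  e))))))))), t true 1 (c (d (a (b (c (a (b (a (c e))))))))), t false 1 (d (a (b (a (c (d (c (b (a
  e)))))))))]) nil) nil nil (hit [t true 1 (a (c (d (b (a (c (b (a e)))))))), t true 1 (b (a (c (d
  (b (c (b (a e)))))))), t false 1 (b (c (d (b (c (a (b (a e)))))))), t false 1 (b (d (b (c (a (b (a
  (d e)))))))), t true 1 (c (d (b (c (a (b (a (c e)))))))), t false 1 (d (a (b (a (c (d (c (a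
  e))))))))]) nil) nil nil nil) nil nil) nil (br (br nil (br nil nil nil (hit [t true 1 (a (b (a (c
  (a (d (a (b e)))))))), t false 1 (a (b (a (c (b (a (d (a e)))))))), t false 1 (a (d (b (a (c (b (a
  (d e)))))))), t false 1 (b (a (c (a (d (a (b (c e)))))))), t true 1 (b (a (c (b (a (d (a (c
  e)))))))), t false 1 (b (a (d (a (b (c (b (d e))))))))]) nil) nil (hit [t false 1 (a (d (a (c (b
  (a (d e))))))), t true 1 (d (a (b (a (d (c (b e)))))))]) nil) (br (br nil nil nil (hit [t false 1
  (a (b (d (a (c (b (a (d e)))))))), t false 1 (b (d (a (b (c (b (a (d e)))))))), t true 1 (d (a (b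
  (a (d (c (b (a e))))))))]) nil) nil nil nil nil) nil nil nil) nil (br nil nil (br (br nil nil nil
  (br nil nil (br nil nil nil nil (hit [t false 1 (a (f (c (d (a (b (a (d (c (f e)))))))))), t false
  1 (c (d (a (f (c (b (a (d (c (f e)))))))))), t true 1 (d (a (f (c (a (d (b (a (c (f e)))))))))), t
  true 1 (d (a (f (c (b (a (d (b (c (f e)))))))))), t false 1 (f (c (a (d (a (c (f (b (a (d
  e)))))))))), t true 1 (f (c (d (a (b (a (d (c (f (b e))))))))))])) nil nil) nil) nil nil nil nil)
  nil nil)) (br (br nil nil nil (hit [t false 1 (a (d (a (c (a (d e))))))]) nil) (br (br nil nil nil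
  (hit [t false 1 (a (b (d (a (c (a (d e))))))), t false 1 (b (d (a (b (c (a (d e))))))), t true 1
  (d (a (b (a (d (c (a e)))))))]) nil) nil nil nil nil) nil nil (br (br nil nil nil (br nil nil (br
  (br nil nil nil nil (hit [t true 1 (a (c (f (a (d (a (f (c (a (d e)))))))))), t true 1 (c (d (f (a
  (c (a (f (d (c (a e)))))))))), t true 1 (c (f (a (c (d (a (f (c (a (d e)))))))))), t true 1 (d (a
  (c (f (a (d (a (f (c (a e)))))))))), t true 1 (d (c (f (a (c (d (a (f (c (a e)))))))))), t false 1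
  (d (f (a (c (a (f (d (a (c (a e)))))))))), t false 1 (f (a (c (a (f (d (a (c (a (d e))))))))))]))
  nil nil nil nil) nil nil) nil) nil nil nil nil)) nil (br nil (br nil nil (br (br nil nil nil (br
  nil (br nil nil nil nil (hit [t false 1 (b (d (a (f (b (a (d (c (b (f e)))))))))), t true 1 (d (a
  (f (b (a (d (a (c (b (f e)))))))))), t false 1 (f (b (a (d (a (c (b (f (a (d e)))))))))), t true 1
  (f (b (d (a (b (f (a (d (c (b e))))))))))])) nil nil nil) nil) nil nil nil nil) nil nil) (br (br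
  nil nil nil (br nil nil (br (br nil nil nil nil (hit [t false 1 (c (d (f (a (c (a (d (c (f (d
  e)))))))))), t false 1 (d (a (c (f (a (d (a (c (f (c e)))))))))), t false 1 (d (c (f (a (c (d (a
  (c (f (c e)))))))))), t true 1 (d (f (a (c (a (d (a (c (f (d e)))))))))), t false 1 (f (a (c (a (d
  (a (c (f (a (d e))))))))))])) (br nil nil nil nil (hit [t false 1 (b (c (a (d (a (c (f (b (a (d
  e)))))))))), t true 1 (b (c (d (a (b (a (d (c (f (b e)))))))))), t true 1 (b (c (d (a (c (f (b (a
  (d (c e)))))))))), t false 1 (c (d (a (f (b (c (a (d (c (f e)))))))))), t true 1 (d (a (f (b (c (a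
  (d (a (c (f e)))))))))), t false 1 (f (b (c (a (d (a (c (f (a (d e))))))))))])) nil nil (hit [t
  false 1 (c (d (a (f (c (a (d (c (f e))))))))), t true 1 (d (a (f (c (a (d (a (c (f e))))))))), t
  false 1 (f (c (a (d (a (c (f (a (d e)))))))))])) nil nil) nil) (br (br nil nil nil (br nil nil (br
  nil nil nil nil (hit [t false 1 (b (f (c (d (a (b (a (d (c (f e)))))))))), t false 1 (c (d (a (b
  (f (c (a (d (c (f e)))))))))), t true 1 (d (a (b (f (c (a (d (a (c (f e)))))))))), t false 1 (f (c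
  (a (b (d (a (c (f (a (d e)))))))))), t false 1 (f (c (b (d (a (b (c (f (a (d e)))))))))), t true 1
  (f (c (d (a (b (a (d (c (f (a e))))))))))])) nil nil) nil) nil nil nil nil) nil nil nil) nil nil))
  (br (br nil nil (br (br nil (br nil nil nil (hit [t false 1 (a (d (b (a (c (a (b (d e)))))))), t
  false 1 (b (a (d (b (c (a (b (d e)))))))), t false 1 (d (a (b (a (d (c (a (b e))))))))]) nil) nil
  (hit [t false 1 (a (b (d (a (c (a (b e))))))), t false 1 (a (d (a (c (a (b (d e))))))), t false 1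
  (b (d (a (b (c (a (b e)))))))]) nil) (br (br nil nil nil (hit [t false 1 (a (b (d (a (c (a (b (d
  e)))))))), t false 1 (b (d (a (b (c (a (b (d e))))))))]) nil) nil nil (hit [t false 1 (b (d (b (c
  (a (b (d e))))))), t false 1 (d (a (b (a (d (c (a e)))))))]) nil) nil nil nil) nil (br nil nil (br
  (br nil nil nil (br nil nil (br nil nil nil nil (hit [t false 1 (c (d (a (f (c (a (b (d (c (f
  e)))))))))), t true 1 (d (a (f (c (a (b (d (a (c (f e)))))))))), t true 1 (d (a (f (c (b (d (a (b
  (c (f e)))))))))), t false 1 (f (c (a (b (d (a (c (f (a (b e)))))))))), t false 1 (f (c (a (d (a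
  (c (f (a (b (d e)))))))))), t false 1 (f (c (b (d (a (b (c (f (a (b e))))))))))])) nil nil) nil)
  nil nil nil nil) nil nil)) nil (br (br nil (br nil nil nil (hit [t false 1 (a (d (b (a (c (b (d
  e))))))), t false 1 (b (a (d (b (c (b (d e))))))), t false 1 (d (a (b (a (d (c (b e)))))))]) nil)
  nil nil nil) (br (br nil nil nil (hit [t true 1 (a (b (a (c (b (d (a e))))))), t true 1 (a (b (c
  (b (d (a (c e))))))), t false 1 (b (d (a (b (c (b (d e)))))))]) nil) nil nil (hit [t false 1 (b (d
  (b (c (b (d e))))))]) nil) nil nil (br nil (br nil nil nil (br nil nil (br nil (br nil nil nil nil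
  (hit [t true 1 (b (c (f (b (d (b (f (c (b (d e)))))))))), t true 1 (c (d (f (b (c (b (f (d (c (b
  e)))))))))), t true 1 (c (f (b (c (d (b (f (c (b (d e)))))))))), t true 1 (d (b (c (f (b (d (b (f
  (c (b e)))))))))), t true 1 (d (c (f (b (c (d (b (f (c (b e)))))))))), t false 1 (d (f (b (c (b (f
  (d (b (c (b e)))))))))), t false 1 (f (b (c (b (f (d (b (c (b (d e))))))))))])) nil nil nil) nil
  nil) nil) nil nil nil)) nil (br (br nil nil (br nil (br nil nil nil (br (br nil nil nil nil (hit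
  [t false 1 (a (d (b (f (a (b (d (c (a (f e)))))))))), t true 1 (a (d (f (a (b (a (f (d (c (a
  e)))))))))), t true 1 (d (a (f (a (d (b (a (f (c (a e)))))))))), t true 1 (d (b (f (a (b (d (b (c
  (a (f e)))))))))), t false 1 (d (f (a (b (a (f (d (b (c (a e)))))))))), t false 1 (f (a (b (d (b
  (c (a (f (b (d e)))))))))), t false 1 (f (a (d (a (f (b (a (d (c (a e))))))))))])) nil nil nil
  nil) nil) nil nil nil) nil nil) nil (br (br nil (br nil nil nil (br nil nil (br nil nil nil nil
  (hit [t true 1 (a (f (c (d (a (b (a (d (c (f e)))))))))), t false 1 (c (d (b (a (f (c (b (d (c (f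
  e)))))))))), t true 1 (d (b (a (f (c (b (d (b (c (f e)))))))))), t false 1 (f (c (a (d (b (a (c (f
  (b (d e)))))))))), t false 1 (f (c (b (a (d (b (c (f (b (d e)))))))))), t false 1 (f (c (d (a (b
  (a (d (c (f (b e))))))))))])) nil nil) nil) nil nil nil) (br (br nil nil nil (br nil nil (br nil
  nil nil nil (hit [t true 1 (a (b (f (c (b (d (a (b (c (f e)))))))))), t false 1 (a (f (b (c (a (b
  (f (d (a (c e)))))))))), t true 1 (a (f (c (a (b (a (c (f (d (a e)))))))))), t false 1 (c (a (b (f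
  (c (b (d (a (c (f e)))))))))), t false 1 (c (a (f (a (c (b (a (f (d (a e)))))))))), t false 1 (c
  (a (f (b (a (c (b (f (d (a e)))))))))), t false 1 (c (a (f (b (c (b (f (d (a (c e)))))))))), t
  false 1 (c (d (a (b (f (c (b (d (c (f e)))))))))), t true 1 (d (a (b (f (c (b (d (b (c (f
  e)))))))))), t false 1 (f (a (b (c (a (f (b (d (a (c e)))))))))), t true 1 (f (a (c (a (f (b (a (c
  (d (a e)))))))))), t false 1 (f (c (b (d (a (b (c (f (b (d e))))))))))])) nil nil) nil) nil nil
  (br nil nil (br (br nil nil nil nil (hit [t false 1 (a (c (b (d (b (c (f (a (b (d e)))))))))), t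
  false 1 (a (c (d (a (b (a (d (c (f (a e)))))))))), t true 1 (a (c (d (b (c (f (a (b (d (c
  e)))))))))), t false 1 (c (d (b (f (a (c (b (d (c (f e)))))))))), t true 1 (d (b (f (a (c (b (d (b
  (c (f e)))))))))), t false 1 (f (a (c (b (d (b (c (f (b (d e))))))))))])) (br nil nil nil nil (hit
  [t false 1 (c (d (f (b (c (b (d (c (f (d e)))))))))), t false 1 (d (b (c (f (b (d (b (c (f (c
  e)))))))))), t false 1 (d (c (f (b (c (d (b (c (f (c e)))))))))), t true 1 (d (f (b (c (b (d (b (c
  (f (d e)))))))))), t false 1 (f (b (c (b (d (b (c (f (b (d e))))))))))])) nil nil (hit [t false 1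
  (c (d (b (f (c (b (d (c (f e))))))))), t true 1 (d (b (f (c (b (d (b (c (f e))))))))), t false 1
  (f (c (b (d (b (c (f (b (d e)))))))))])) nil nil) nil) nil nil nil) nil nil)) (br (br nil (br (br
  nil nil (br (br nil (br nil nil nil (hit [t true 1 (a (c (d (b (a (c (a (b (a (d e)))))))))), t
  true 1 (b (a (c (d (b (c (a (b (a (d e)))))))))), t false 1 (c (d (b (a (c (a (b (a (c (d
  e)))))))))), t false 1 (d (a (b (a (c (a (b (d (c (a e)))))))))), t false 1 (d (a (b (a (c (b (d
  (c (a (b e))))))))))]) nil) nil nil nil) (br (br nil nil nil (hit [t true 1 (a (b (c (d (a (c (a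
  (b (a (d e)))))))))), t true 1 (b (c (d (a (b (c (a (b (a (d e)))))))))), t false 1 (c (d (a (b (c
  (a (b (a (c (d e)))))))))), t false 1 (d (a (b (a (c (a (d (c (b (a e)))))))))), t false 1 (d (a
  (b (a (c (b (a (d (c (b e))))))))))]) nil) nil nil nil nil) nil (hit [t true 1 (a (b (c (d (a (c
  (a (d e)))))))), t false 1 (a (c (d (a (c (b (a (d e)))))))), t false 1 (a (c (d (b (a (c (b (d
  e)))))))), t false 1 (b (a (c (d (b (c (b (d e)))))))), t true 1 (b (c (d (a (b (c (a (d
  e)))))))), t true 1 (b (c (d (b (c (a (b (d e)))))))), t false 1 (c (d (c (a (b (a (c (d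
  e))))))))]) nil) nil nil) nil nil nil nil) nil nil nil) nil nil nil nil) nil (br nil (br nil nil
  (br nil (br (br nil nil nil (br (br nil nil nil nil (hit [t true 1 (a (b (f (a (d (a (b (c (b (f
  e)))))))))), t false 1 (a (f (a (d (a (b (c (b (f (c e)))))))))), t true 1 (b (f (a (b (d (a (b (c
  (b (f e)))))))))), t false 1 (f (a (b (d (a (b (c (b (f (d e))))))))))])) nil nil nil nil) nil)
  nil nil nil nil) nil nil nil) nil nil) nil nil nil))

def R35 : R := (br (br nil (br (br nil nil (br (br nil (br nil nil nil nil (hit [t false 1 (a (c (f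
  (b (a (c (a (b (a e))))))))), t false 1 (a (f (b (a (c (a (b (a (f e))))))))), t false 1 (b (a (c
  (f (b (c (a (b (a e))))))))), t false 1 (b (a (f (b (c (a (b (a (f e))))))))), t true 1 (c (f (b
  (a (c (a (b (a (c e))))))))), t false 1 (f (a (b (a (c (f (c (a (b e)))))))))])) nil nil (hit [t
  false 1 (a (b (c (f (a (c (a (b e)))))))), t false 1 (a (c (f (a (c (a (b (a e)))))))), t false 1
  (a (f (a (c (a (b (a (f e)))))))), t false 1 (b (c (f (a (b (c (a (b e)))))))), t true 1 (c (f (a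
  (c (a (b (a (c e)))))))), t false 1 (f (a (b (a (c (f (c (b e))))))))])) (br (br nil nil nil nil
  (hit [t false 1 (a (b (c (f (a (c (a (b (a e))))))))), t false 1 (a (b (f (a (c (a (b (a (f
  e))))))))), t false 1 (b (c (f (a (b (c (a (b (a e))))))))), t false 1 (b (f (a (b (c (a (b (a (f
  e))))))))), t true 1 (c (f (a (b (c (a (b (a (c e))))))))), t false 1 (f (a (b (a (c (f (c (b (a
  e)))))))))])) nil nil nil (hit [t true 1 (a (c (f (b (a (c (b (a e)))))))), t true 1 (b (a (c (f
  (b (c (b (a e)))))))), t false 1 (b (c (f (b (c (a (b (a e)))))))), t false 1 (b (f (b (c (a (b (a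
  (f e)))))))), t true 1 (c (f (b (c (a (b (a (c e)))))))), t false 1 (f (a (b (a (c (f (c (a
  e))))))))])) nil nil nil) nil nil) nil (br (br nil (br nil nil nil nil (hit [t true 1 (a (b (a (c
  (a (f (a (b e)))))))), t false 1 (a (b (a (c (b (a (f (a e)))))))), t false 1 (a (f (b (a (c (b (a
  (f e)))))))), t false 1 (b (a (c (a (f (a (b (c e)))))))), t true 1 (b (a (c (b (a (f (a (c
  e)))))))), t false 1 (b (a (f (a (b (c (b (f e))))))))])) nil nil (hit [t false 1 (a (f (a (c (b
  (a (f e))))))), t true 1 (f (a (b (a (f (c (b e)))))))])) (br (br nil nil nil nil (hit [t false 1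
  (a (b (f (a (c (b (a (f e)))))))), t false 1 (b (f (a (b (c (b (a (f e)))))))), t true 1 (f (a (b
  (a (f (c (b (a e))))))))])) nil nil (br (br nil nil nil nil (hit [t false 1 (a (d (b (f (a (c (b
  (a (f e))))))))), t false 1 (b (f (a (d (b (c (b (a (f e))))))))), t false 1 (d (b (f (a (d (c (b
  (a (f e))))))))), t true 1 (f (a (d (b (a (f (c (b (a e)))))))))])) nil nil nil nil) nil) nil (br
  (br nil nil nil nil (hit [t false 1 (a (d (f (a (c (b (a (f e)))))))), t false 1 (d (f (a (d (c (b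
  (a (f e)))))))), t true 1 (f (a (d (a (f (c (b (a e)))))))), t true 1 (f (a (d (b (a (f (c (b
  e))))))))])) (br (br nil nil nil nil (hit [t false 1 (a (b (d (f (a (c (b (a (f e))))))))), t
  false 1 (b (d (f (a (b (c (b (a (f e))))))))), t false 1 (d (f (a (b (d (c (b (a (f e))))))))), t
  true 1 (f (a (b (d (a (f (c (b (a e))))))))), t true 1 (f (a (b (d (b (a (f (c (b e)))))))))]))
  nil nil nil nil) nil nil nil) nil) (br nil (br nil nil (br nil (br nil nil nil nil (hit [t true 1
  (a (b (d (b (f (a (c (a (d e))))))))), t true 1 (a (b (f (a (c (a (d (b (f e))))))))), t false 1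
  (a (f (a (b (c (a (d (b (c e))))))))), t false 1 (a (f (b (c (a (b (d (b (c e))))))))), t true 1
  (a (f (b (c (b (d (b (a (c e))))))))), t true 1 (b (a (f (a (b (c (a (d (b e))))))))), t true 1 (b
  (a (f (a (c (a (d (b (c e))))))))), t true 1 (b (a (f (b (c (a (b (d (b e))))))))), t false 1 (b
  (a (f (b (c (b (d (b (a e))))))))), t true 1 (b (d (a (f (a (b (c (a (d e))))))))), t true 1 (b (d
  (a (f (b (c (a (b (d e))))))))), t false 1 (b (d (b (a (f (a (c (a (d e))))))))), t true 1 (b (f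
  (a (b (c (a (d (b (f e))))))))), t true 1 (b (f (b (c (a (b (d (b (f e))))))))), t false 1 (b (f
  (b (c (b (d (b (a (f e))))))))), t false 1 (d (a (f (a (b (c (a (d (c e))))))))), t false 1 (d (a
  (f (b (c (a (b (d (c e))))))))), t true 1 (d (b (a (f (a (c (a (d (c e))))))))), t false 1 (f (a
  (b (c (a (d (b (f (c e))))))))), t false 1 (f (b (c (a (b (d (b (f (c e)))))))))])) nil nil nil)
  nil nil) nil nil nil) nil) (br (br nil (br nil nil nil (br nil (br nil nil nil nil (hit [t true 1
  (a (b (d (b (f (a (c (a (f e))))))))), t true 1 (a (f (a (b (d (b (c (a (f e))))))))), t false 1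
  (a (f (b (d (b (a (c (a (f e))))))))), t false 1 (b (a (f (a (d (b (c (a (f e))))))))), t true 1
  (b (d (a (f (a (b (c (a (f e))))))))), t false 1 (b (d (b (a (f (a (c (a (f e))))))))), t true 1
  (d (a (f (a (b (d (c (a (f e))))))))), t false 1 (d (b (a (f (a (d (c (a (f e))))))))), t false 1
  (f (a (b (d (b (a (f (c (a e))))))))), t false 1 (f (a (b (d (b (c (a (f (c e)))))))))])) (br nil
  (br nil nil nil nil (hit [t true 1 (a (b (c (d (b (f (a (c (a (f e)))))))))), t true 1 (a (f (a (b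
  (c (d (b (c (a (f e)))))))))), t false 1 (a (f (b (c (d (b (a (c (a (f e)))))))))), t false 1 (b
  (a (f (a (c (d (b (c (a (f e)))))))))), t true 1 (b (c (d (a (f (a (b (c (a (f e)))))))))), t
  false 1 (b (c (d (b (a (f (a (c (a (f e)))))))))), t true 1 (d (a (f (a (b (c (d (c (a (f
  e)))))))))), t false 1 (d (b (a (f (a (c (d (c (a (f e)))))))))), t false 1 (f (a (b (c (d (b (a
  (f (c (a e)))))))))), t false 1 (f (a (b (c (d (b (c (a (f (c e))))))))))])) nil nil nil) nil nil)
  nil) nil nil (hit [t false 1 (a (f (a (c (a (f e))))))])) (br (br nil nil nil nil (hit [t false 1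
  (a (b (f (a (c (a (f e))))))), t false 1 (b (f (a (b (c (a (f e))))))), t true 1 (f (a (b (a (f (c
  (a e)))))))])) nil nil (br (br nil nil (br nil nil nil nil (hit [t true 1 (a (c (f (c (d (b (a (c
  (a e))))))))), t true 1 (b (a (c (f (c (d (b (c (a e))))))))), t false 1 (b (c (f (c (a (d (b (c
  (a e))))))))), t false 1 (b (f (c (a (d (b (c (a (f e))))))))), t false 1 (c (f (c (a (d (b (a (c
  (a e))))))))), t true 1 (d (b (a (c (f (c (d (c (a e))))))))), t false 1 (d (b (c (f (c (a (d (c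
  (a e))))))))), t false 1 (d (b (f (c (a (d (c (a (f e))))))))), t true 1 (f (a (d (b (a (c (f (c
  (a e)))))))))])) nil (hit [t false 1 (a (d (b (f (a (c (a (f e)))))))), t false 1 (b (f (a (d (b
  (c (a (f e)))))))), t false 1 (d (b (f (a (d (c (a (f e)))))))), t true 1 (f (a (d (b (a (f (c (a
  e))))))))])) nil (br (br nil nil nil nil (hit [t false 1 (a (c (d (b (f (a (c (a (f e))))))))), t
  false 1 (b (f (a (c (d (b (c (a (f e))))))))), t false 1 (d (b (f (a (c (d (c (a (f e))))))))), t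
  true 1 (f (a (c (d (b (a (f (c (a e)))))))))])) nil nil nil nil) nil nil) nil) nil (br (br nil nil
  (br nil nil nil nil (hit [t true 1 (a (c (f (c (d (a (c (a e)))))))), t false 1 (c (f (c (a (d (a
  (c (a e)))))))), t true 1 (d (a (c (f (c (d (c (a e)))))))), t false 1 (d (c (f (c (a (d (c (a
  e)))))))), t false 1 (d (f (c (a (d (c (a (f e)))))))), t true 1 (f (a (d (a (c (f (c (a
  e))))))))])) nil (hit [t false 1 (a (d (f (a (c (a (f e))))))), t false 1 (d (f (a (d (c (a (f
  e))))))), t true 1 (f (a (d (a (f (c (a e)))))))])) (br (br nil nil (br nil nil nil nil (hit [t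
  true 1 (a (c (f (c (b (d (a (c (a e))))))))), t false 1 (b (d (a (c (f (b (c (b (a e))))))))), t
  true 1 (b (d (c (f (b (c (a (b (a e))))))))), t true 1 (b (d (f (b (c (a (b (a (f e))))))))), t
  false 1 (c (f (c (a (b (d (a (c (a e))))))))), t true 1 (d (a (c (f (c (b (d (c (a e))))))))), t
  false 1 (d (c (f (c (a (b (d (c (a e))))))))), t false 1 (d (f (c (a (b (d (c (a (f e))))))))), t
  true 1 (f (a (b (d (a (c (f (c (a e)))))))))])) nil (hit [t false 1 (a (b (d (f (a (c (a (f
  e)))))))), t false 1 (b (d (f (a (b (c (a (f e)))))))), t false 1 (d (f (a (b (d (c (a (f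
  e)))))))), t true 1 (f (a (b (d (a (f (c (a e))))))))])) nil nil nil nil) (br (br nil nil nil nil
  (hit [t false 1 (a (c (d (f (a (c (a (f e)))))))), t false 1 (d (f (a (c (d (c (a (f e)))))))), t
  true 1 (f (a (c (d (a (f (c (a e))))))))])) (br (br nil nil nil nil (hit [t false 1 (a (b (c (d (f
  (a (c (a (f e))))))))), t false 1 (b (c (d (f (a (b (c (a (f e))))))))), t false 1 (d (f (a (b (c
  (d (c (a (f e))))))))), t true 1 (f (a (b (c (d (a (f (c (a e)))))))))])) nil nil nil nil) nil nil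
  nil) nil nil) nil) (br nil (br nil nil (br nil (br nil nil nil nil (hit [t true 1 (a (f (b (c (b
  (d (a (c e)))))))), t false 1 (b (a (f (b (c (b (d (a e)))))))), t false 1 (b (d (a (f (b (c (b (d
  e)))))))), t false 1 (b (f (b (c (b (d (a (f e)))))))), t true 1 (d (a (f (b (c (b (d (c
  e))))))))])) nil nil nil) nil nil) nil nil nil) nil) (br (br nil nil (br (br nil (br nil nil nil
  nil (hit [t false 1 (a (f (b (a (c (a (b (f e)))))))), t false 1 (b (a (f (b (c (a (b (f
  e)))))))), t false 1 (f (a (b (a (f (c (a (b e))))))))])) nil (br nil (br nil nil nil nil (hit [t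
  false 1 (a (f (b (d (a (c (a (b (f e))))))))), t false 1 (b (d (a (f (b (c (a (b (f e))))))))), t
  false 1 (d (a (f (b (d (c (a (b (f e))))))))), t true 1 (f (b (d (a (b (f (c (a (b e)))))))))]))
  nil nil nil) (hit [t false 1 (a (b (f (a (c (a (b e))))))), t false 1 (a (f (a (c (a (b (f
  e))))))), t false 1 (b (f (a (b (c (a (b e)))))))])) (br (br nil nil nil nil (hit [t false 1 (a (b
  (f (a (c (a (b (f e)))))))), t false 1 (b (f (a (b (c (a (b (f e))))))))])) nil nil (br (br nil
  nil nil nil (hit [t false 1 (a (d (b (f (a (c (a (b (f e))))))))), t false 1 (b (f (a (d (b (c (a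
  (b (f e))))))))), t false 1 (d (b (f (a (d (c (a (b (f e))))))))), t false 1 (f (a (d (a (b (a (f
  (c (a e)))))))))])) nil nil nil nil) (hit [t false 1 (b (f (b (c (a (b (f e))))))), t false 1 (f
  (a (b (a (f (c (a e)))))))])) nil (br (br nil (br nil nil nil nil (hit [t false 1 (a (d (f (b (a
  (c (a (b (f e))))))))), t false 1 (b (a (d (f (b (c (a (b (f e))))))))), t false 1 (d (f (b (a (d
  (c (a (b (f e))))))))), t true 1 (f (b (a (d (a (b (f (c (a e))))))))), t true 1 (f (b (a (d (b (f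
  (c (a (b e)))))))))])) nil nil (hit [t false 1 (a (d (b (f (a (c (a (b e)))))))), t false 1 (a (d
  (f (a (c (a (b (f e)))))))), t false 1 (b (f (a (d (b (c (a (b e)))))))), t false 1 (d (b (f (a (d
  (c (a (b e)))))))), t false 1 (d (f (a (d (c (a (b (f e)))))))), t true 1 (f (a (d (a (b (f (c (a
  e))))))))])) (br (br nil nil nil nil (hit [t false 1 (a (b (d (f (a (c (a (b (f e))))))))), t
  false 1 (b (d (f (a (b (c (a (b (f e))))))))), t false 1 (d (f (a (b (d (c (a (b (f e))))))))), t
  true 1 (f (a (b (d (a (b (f (c (a e))))))))), t true 1 (f (a (b (d (b (f (c (a (b e)))))))))]))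
  nil nil nil (hit [t false 1 (b (d (f (b (c (a (b (f e)))))))), t false 1 (d (f (b (d (c (a (b (f
  e)))))))), t true 1 (f (b (d (a (b (f (c (a e)))))))), t true 1 (f (b (d (b (f (c (a (b
  e))))))))])) (br nil (br nil nil nil nil (hit [t false 1 (b (c (d (f (b (c (a (b (f e))))))))), t
  false 1 (d (f (b (c (d (c (a (b (f e))))))))), t true 1 (f (b (c (d (a (b (f (c (a e))))))))), t
  true 1 (f (b (c (d (b (f (c (a (b e)))))))))])) nil nil nil) nil nil) nil) nil nil) nil (br (br
  nil (br nil nil nil nil (hit [t false 1 (a (f (b (a (c (b (f e))))))), t false 1 (b (a (f (b (c (b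
  (f e))))))), t false 1 (f (a (b (a (f (c (b e)))))))])) nil (br nil (br nil nil nil nil (hit [t
  false 1 (a (f (b (d (a (c (b (f e)))))))), t false 1 (b (d (a (f (b (c (b (f e)))))))), t false 1
  (d (a (f (b (d (c (b (f e)))))))), t true 1 (f (b (d (a (b (f (c (b e))))))))])) (br nil (br nil
  nil nil nil (hit [t false 1 (a (f (b (c (d (a (c (b (f e))))))))), t false 1 (b (c (d (a (f (b (c
  (b (f e))))))))), t false 1 (d (a (f (b (c (d (c (b (f e))))))))), t true 1 (f (b (c (d (a (b (f
  (c (b e)))))))))])) nil nil nil) nil nil) nil) (br (br nil nil nil (br nil nil (br nil nil nil nil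
  (hit [t true 1 (a (b (a (c (b (f (b (d (a e))))))))), t true 1 (a (b (c (b (f (b (d (a (c
  e))))))))), t false 1 (a (b (f (b (c (d (a (c (f e))))))))), t false 1 (b (c (d (a (b (c (b (f (b
  e))))))))), t false 1 (b (d (a (b (c (b (f (b (d e))))))))), t false 1 (b (f (c (d (a (b (c (b (f
  e))))))))), t true 1 (c (d (a (b (c (b (f (b (c e))))))))), t true 1 (d (a (b (c (b (f (b (d (c
  e))))))))), t false 1 (d (a (b (f (b (c (d (c (f e)))))))))])) nil nil) (hit [t true 1 (a (b (a (c
  (b (f (a e))))))), t true 1 (a (b (c (b (f (a (c e))))))), t false 1 (b (f (a (b (c (b (f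
  e)))))))])) nil nil (br (br nil nil (br (br nil nil nil nil (hit [t true 1 (a (d (b (f (a (c (a (d
  (b (f e)))))))))), t false 1 (b (f (a (c (a (d (b (c (b (f e)))))))))), t false 1 (d (b (f (a (c
  (a (d (c (b (f e))))))))))])) nil nil nil nil) nil nil) nil (br (br nil nil nil nil (hit [t true 1
  (a (c (d (b (c (b (f (a (c e))))))))), t false 1 (b (a (c (d (b (c (b (f (a e))))))))), t false 1
  (b (c (d (b (c (b (f (a (b e))))))))), t false 1 (b (d (b (c (b (f (a (b (d e))))))))), t false 1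
  (b (f (a (c (d (b (c (b (f e))))))))), t true 1 (c (d (b (c (b (f (a (b (c e))))))))), t true 1 (d
  (a (b (a (c (d (c (f (a e))))))))), t true 1 (d (b (c (b (f (a (b (d (c e))))))))), t false 1 (d
  (b (f (a (b (c (d (c (f e)))))))))])) nil nil nil nil) nil nil) (hit [t false 1 (b (f (b (c (b (f
  e))))))])) nil (br (br nil (br nil nil nil nil (hit [t false 1 (a (d (f (b (a (c (b (f e)))))))),
  t false 1 (b (a (d (f (b (c (b (f e)))))))), t false 1 (d (f (b (a (d (c (b (f e)))))))), t true 1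
  (f (b (a (d (b (f (c (b e))))))))])) (br (br nil nil nil nil (hit [t true 1 (a (d (b (f (a (c (a
  (d (b e))))))))), t true 1 (a (d (f (a (c (a (d (b (f e))))))))), t false 1 (b (f (a (c (a (d (b
  (c (b e))))))))), t false 1 (d (b (f (a (c (a (d (c (b e))))))))), t false 1 (d (f (a (c (a (d (c
  (b (f e)))))))))])) (br (br nil nil nil nil (hit [t true 1 (a (b (d (f (a (c (a (d (b (f
  e)))))))))), t false 1 (a (b (f (a (c (a (d (b (f (b e)))))))))), t true 1 (b (d (f (a (b (c (a (d
  (b (f e)))))))))), t false 1 (b (f (a (b (c (a (d (b (f (b e)))))))))), t false 1 (d (f (a (b (a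
  (d (c (a (b (f e)))))))))), t false 1 (d (f (a (b (c (a (d (c (b (f e)))))))))), t true 1 (f (a (b
  (a (d (a (b (f (c (a e)))))))))), t true 1 (f (a (b (a (d (b (f (c (a (b e)))))))))), t true 1 (f
  (a (b (a (d (c (a (b (f (c e)))))))))), t true 1 (f (a (b (c (a (d (b (f (c (b e))))))))))])) nil
  nil nil (hit [t true 1 (a (d (f (b (a (c (a (b (f e))))))))), t false 1 (b (c (a (d (f (b (c (b (f
  e))))))))), t false 1 (d (f (b (c (a (d (c (b (f e))))))))), t true 1 (f (b (c (a (d (b (f (c (b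
  e)))))))))])) nil nil nil) nil nil) (br (br nil nil nil nil (hit [t true 1 (a (b (d (a (c (b (f (a
  e)))))))), t true 1 (a (b (d (b (f (a (c (b e)))))))), t true 1 (a (b (d (c (b (f (a (c e)))))))),
  t false 1 (b (d (f (a (b (c (b (f e)))))))), t false 1 (d (f (a (b (d (c (b (f e)))))))), t true 1
  (f (a (b (d (b (f (c (b e))))))))])) nil nil nil (hit [t false 1 (b (d (f (b (c (b (f e))))))), t
  false 1 (d (f (b (d (c (b (f e))))))), t true 1 (f (b (d (b (f (c (b e)))))))])) (br nil (br (br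
  nil nil nil nil (hit [t true 1 (a (b (c (d (a (c (b (f (a e))))))))), t true 1 (a (b (c (d (b (f
  (a (c (b e))))))))), t true 1 (a (b (c (d (c (b (f (a (c e))))))))), t false 1 (b (c (d (f (a (b
  (c (b (f e))))))))), t false 1 (d (f (a (b (c (d (c (b (f e))))))))), t true 1 (f (a (b (c (d (b
  (f (c (b e)))))))))])) nil nil nil (hit [t false 1 (b (c (d (f (b (c (b (f e)))))))), t false 1 (d
  (f (b (c (d (c (b (f e)))))))), t true 1 (f (b (c (d (b (f (c (b e))))))))])) nil nil nil) nil
  nil) nil) (br (br nil (br nil nil (br (br nil nil nil nil (hit [t true 1 (a (b (c (f (a (c (a (d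
  (b e))))))))), t true 1 (a (c (f (a (b (a (d (b (c e))))))))), t false 1 (a (c (f (a (c (b (a (d
  (b e))))))))), t true 1 (a (d (b (c (f (a (c (a (d e))))))))), t false 1 (a (d (c (f (a (c (b (a
  (d e))))))))), t true 1 (a (f (a (b (a (d (b (c (f e))))))))), t false 1 (a (f (a (c (b (a (d (b
  (f e))))))))), t false 1 (b (c (f (a (c (a (d (b (c e))))))))), t true 1 (c (f (a (c (b (a (d (b
  (c e))))))))), t false 1 (d (b (c (f (a (c (a (d (c e))))))))), t true 1 (d (c (f (a (b (a (d (c
  (b e))))))))), t true 1 (d (c (f (a (c (b (a (d (c e))))))))), t false 1 (f (a (b (a (d (b (c (f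
  (c e))))))))), t true 1 (f (a (b (a (d (c (f (c (b e)))))))))])) nil nil nil nil) nil nil) (br (br
  nil nil nil nil (hit [t false 1 (a (b (f (a (c (a (d (b e)))))))), t false 1 (a (d (b (f (a (c (a
  (d e)))))))), t false 1 (a (f (a (c (a (d (b (f e)))))))), t true 1 (b (f (a (c (a (d (b (c
  e)))))))), t true 1 (d (b (f (a (c (a (d (c e))))))))])) nil nil nil nil) nil nil) nil nil nil
  nil) nil) (br (br nil (br (br nil nil (br nil nil nil nil (hit [t true 1 (a (b (c (f (a (c (a (f
  e)))))))), t false 1 (a (c (f (a (c (b (a (f e)))))))), t false 1 (a (c (f (b (a (c (b (f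
  e)))))))), t false 1 (b (a (c (f (b (c (b (f e)))))))), t true 1 (b (c (f (a (b (c (a (f
  e)))))))), t true 1 (b (c (f (b (c (a (b (f e)))))))), t false 1 (c (f (c (a (b (a (c (f
  e))))))))])) (br nil nil (br nil nil nil nil (hit [t true 1 (a (b (a (d (f (c (d (c (f e))))))))),
  t true 1 (a (b (c (d (f (a (c (a (f e))))))))), t false 1 (a (b (d (f (c (d (a (c (f e))))))))), t
  false 1 (a (c (d (f (a (c (b (a (f e))))))))), t false 1 (a (c (d (f (b (a (c (b (f e))))))))), t
  true 1 (a (d (f (c (d (b (a (c (f e))))))))), t false 1 (b (a (c (d (f (b (c (b (f e))))))))), t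
  true 1 (b (a (d (f (c (d (b (c (f e))))))))), t true 1 (b (c (d (f (a (b (c (a (f e))))))))), t
  true 1 (b (c (d (f (b (c (a (b (f e))))))))), t false 1 (b (d (f (c (d (a (b (c (f e))))))))), t
  false 1 (c (d (f (c (a (b (a (c (f e))))))))), t false 1 (d (a (b (a (f (c (d (c (f e))))))))), t
  true 1 (d (f (a (b (a (c (d (c (f e))))))))), t false 1 (d (f (c (d (a (b (a (c (f e))))))))), t
  false 1 (f (a (b (a (c (d (c (f (c e)))))))))])) nil nil) nil) nil nil (br nil (br nil nil (br nil
  nil nil nil (hit [t false 1 (a (b (d (b (f (a (c (a (f e))))))))), t false 1 (a (f (a (b (d (b (c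
  (a (f e))))))))), t false 1 (a (f (c (b (d (b (a (c (f e))))))))), t true 1 (b (a (f (a (d (b (c
  (a (f e))))))))), t true 1 (b (c (a (f (c (d (b (c (f e))))))))), t false 1 (b (d (a (f (a (b (c
  (a (f e))))))))), t true 1 (b (d (b (a (f (a (c (a (f e))))))))), t true 1 (b (d (c (a (f (b (c (b
  (f e))))))))), t false 1 (c (a (f (c (b (d (b (c (f e))))))))), t false 1 (d (a (f (a (b (d (c (a
  (f e))))))))), t true 1 (d (b (a (f (a (d (c (a (f e))))))))), t true 1 (d (b (c (a (f (c (d (c (f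
  e))))))))), t false 1 (d (c (a (f (c (b (d (c (f e))))))))), t true 1 (f (a (b (d (b (a (f (c (a
  e))))))))), t true 1 (f (a (b (d (b (c (a (f (c e)))))))))])) nil nil) (br nil (br nil nil nil nil
  (hit [t false 1 (a (b (c (d (b (a (c (f (a e))))))))), t false 1 (a (b (c (d (b (c (f (a (c
  e))))))))), t true 1 (a (f (a (b (c (d (b (c (f e))))))))), t false 1 (a (f (b (c (d (b (a (c (f
  e))))))))), t false 1 (b (a (f (a (c (d (b (c (f e))))))))), t false 1 (b (c (d (a (b (c (f (a (b
  e))))))))), t false 1 (b (c (d (a (c (f (a (b (c e))))))))), t true 1 (b (c (d (b (a (c (f (a (c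
  e))))))))), t true 1 (d (a (f (a (b (c (d (c (f e))))))))), t false 1 (d (b (a (f (a (c (d (c (f
  e))))))))), t false 1 (f (a (b (c (d (b (c (f (c e)))))))))])) nil nil (hit [t false 1 (a (f (c (d
  (b (a (c (f e)))))))), t false 1 (b (a (f (c (d (b (c (f e)))))))), t false 1 (d (b (a (f (c (d (c
  (f e))))))))])) nil nil) nil) nil (br (br nil (br nil nil (br nil nil nil nil (hit [t true 1 (a (b
  (f (c (b (d (a (c (f e))))))))), t true 1 (a (c (b (f (c (d (a (c (f e))))))))), t false 1 (a (d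
  (a (b (f (b (c (b (f e))))))))), t true 1 (a (d (b (f (a (c (b (a (f e))))))))), t true 1 (a (d (b
  (f (b (a (c (b (f e))))))))), t true 1 (a (d (c (b (f (a (c (a (f e))))))))), t true 1 (b (a (d (a
  (f (b (c (b (f e))))))))), t false 1 (b (f (a (d (a (b (c (b (f e))))))))), t false 1 (b (f (c (b
  (a (d (a (c (f e))))))))), t false 1 (c (b (f (c (a (d (a (c (f e))))))))), t true 1 (d (a (b (f
  (c (b (d (c (f e))))))))), t true 1 (d (a (c (b (f (c (d (c (f e))))))))), t false 1 (d (b (f (c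
  (b (a (d (c (f e))))))))), t false 1 (d (c (b (f (c (a (d (c (f e))))))))), t true 1 (f (a (d (a
  (b (c (b (f (c e)))))))))])) nil nil) (br nil nil nil nil (hit [t true 1 (a (c (f (c (d (a (c (f
  e)))))))), t true 1 (a (d (c (f (a (c (a (f e)))))))), t false 1 (c (f (c (a (d (a (c (f
  e)))))))), t true 1 (d (a (c (f (c (d (c (f e)))))))), t false 1 (d (c (f (c (a (d (c (f
  e))))))))])) nil nil) (br nil nil (br nil nil nil nil (hit [t false 1 (a (f (c (b (d (a (c (f
  e)))))))), t true 1 (b (d (a (f (b (c (b (f e)))))))), t false 1 (d (a (f (c (b (d (c (f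
  e))))))))])) nil nil) (br (br nil (br nil nil nil nil (hit [t true 1 (a (b (f (b (c (d (a (c (f
  e))))))))), t false 1 (a (c (d (a (b (c (f (b (c e))))))))), t true 1 (a (c (d (b (a (c (f (b (a
  e))))))))), t true 1 (a (c (d (b (c (f (b (a (c e))))))))), t true 1 (b (a (c (d (a (b (c (f (b
  e))))))))), t true 1 (b (a (c (d (a (c (f (b (c e))))))))), t true 1 (b (f (a (c (d (a (b (c (f
  e))))))))), t false 1 (b (f (b (a (c (d (a (c (f e))))))))), t true 1 (d (a (b (f (b (c (d (c (f
  e))))))))), t false 1 (d (b (f (b (a (c (d (c (f e))))))))), t false 1 (f (a (c (d (a (b (c (f (c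
  e)))))))))])) nil nil nil) (br nil nil nil nil (hit [t false 1 (a (f (b (c (d (a (c (f e)))))))),
  t true 1 (b (c (d (a (b (c (f (b e)))))))), t true 1 (b (c (d (a (c (f (b (c e)))))))), t false 1
  (d (a (f (b (c (d (c (f e))))))))])) nil nil (hit [t false 1 (a (f (c (d (a (c (f e))))))), t
  false 1 (d (a (f (c (d (c (f e)))))))])) nil nil) nil) (br (br nil nil nil (br (br nil nil (br nil
  nil nil nil (hit [t true 1 (a (c (b (f (c (d (a (c (f e))))))))), t true 1 (a (d (c (b (f (a (c (a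
  (f e))))))))), t false 1 (b (f (a (d (a (b (c (b (f e))))))))), t false 1 (b (f (c (a (d (a (b (c
  (f e))))))))), t false 1 (c (b (f (c (a (d (a (c (f e))))))))), t true 1 (d (a (c (b (f (c (d (c
  (f e))))))))), t false 1 (d (c (b (f (c (a (d (c (f e))))))))), t true 1 (f (a (d (a (b (c (b (f
  (c e)))))))))])) nil nil) nil (br nil nil nil nil (hit [t false 1 (a (b (f (c (d (a (c (f
  e)))))))), t false 1 (b (f (c (d (a (b (c (f e)))))))), t false 1 (d (a (b (f (c (d (c (f
  e))))))))])) nil nil) nil) nil nil (br (br nil nil (br nil nil nil nil (hit [t true 1 (a (d (b (f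
  (a (c (a (f e)))))))), t false 1 (b (f (c (a (d (b (c (f e)))))))), t false 1 (d (b (f (c (a (d (c
  (f e))))))))])) nil nil) (br (br nil nil (br nil nil nil nil (hit [t false 1 (a (f (a (b (d (b (c
  (a (f e))))))))), t false 1 (a (f (c (a (b (d (b (c (f e))))))))), t true 1 (b (a (f (a (d (b (c
  (a (f e))))))))), t true 1 (b (a (f (c (a (d (b (c (f e))))))))), t true 1 (b (c (a (f (c (d (b (c
  (f e))))))))), t true 1 (b (d (a (f (b (c (a (b (f e))))))))), t true 1 (b (d (c (a (f (b (c (b (f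
  e))))))))), t false 1 (c (a (f (c (b (d (b (c (f e))))))))), t false 1 (d (a (f (a (b (d (c (a (f
  e))))))))), t false 1 (d (a (f (c (a (b (d (c (f e))))))))), t true 1 (d (b (a (f (a (d (c (a (f
  e))))))))), t true 1 (d (b (a (f (c (a (d (c (f e))))))))), t true 1 (d (b (c (a (f (c (d (c (f
  e))))))))), t false 1 (d (c (a (f (c (b (d (c (f e))))))))), t true 1 (f (a (b (d (b (a (f (c (a
  e))))))))), t true 1 (f (a (b (d (b (c (a (f (c e)))))))))])) nil nil) nil (br nil nil nil nil
  (hit [t true 1 (b (c (f (c (d (b (c (f e)))))))), t true 1 (b (d (c (f (b (c (b (f e)))))))), t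
  false 1 (c (f (c (b (d (b (c (f e)))))))), t true 1 (d (b (c (f (c (d (c (f e)))))))), t false 1
  (d (c (f (c (b (d (c (f e))))))))])) nil nil) (br (br nil nil nil nil (hit [t true 1 (a (c (d (b
  (a (c (f (a e)))))))), t true 1 (a (c (d (b (c (f (a (c e)))))))), t false 1 (b (f (a (c (d (b (c
  (f e)))))))), t false 1 (d (b (f (a (c (d (c (f e))))))))])) nil nil nil (hit [t false 1 (b (f (c
  (d (b (c (f e))))))), t false 1 (d (b (f (c (d (c (f e)))))))])) nil nil) nil) nil (br (br nil (br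
  nil nil (br nil (br (br nil nil nil nil (hit [t true 1 (a (b (d (f (a (c (b (a (d (f e)))))))))),
  t true 1 (b (d (f (a (b (c (b (a (d (f e)))))))))), t false 1 (d (f (a (b (a (d (c (b (a (f
  e)))))))))), t false 1 (d (f (a (b (c (b (a (d (c (f e)))))))))), t true 1 (f (a (b (a (d (a (f (c
  (b (a e)))))))))), t true 1 (f (a (b (a (d (b (a (f (c (b e)))))))))), t true 1 (f (a (b (a (d (c
  (b (a (f (c e))))))))))])) nil nil nil (hit [t true 1 (a (b (a (c (b (d (a (f (a e))))))))), t
  true 1 (a (d (f (b (a (c (b (a (f e))))))))), t true 1 (b (a (d (f (a (b (c (b (f e))))))))), t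
  false 1 (b (c (a (d (a (b (c (f (a e))))))))), t false 1 (b (c (a (d (b (c (f (a (b e))))))))), t
  false 1 (b (c (a (d (c (f (a (b (c e))))))))), t true 1 (b (c (b (a (d (a (c (f (a e))))))))), t
  true 1 (b (c (b (a (d (c (f (a (c e))))))))), t true 1 (b (d (f (a (b (c (b (d (f e))))))))), t
  false 1 (d (f (b (c (b (a (d (c (f e)))))))))])) nil nil (hit [t true 1 (a (d (f (a (c (b (a (f
  e)))))))), t true 1 (a (d (f (b (a (c (b (f e)))))))), t true 1 (b (a (d (f (b (c (b (f e)))))))),
  t false 1 (d (f (c (b (a (d (c (f e))))))))])) nil nil) (br (br nil (br nil nil nil nil (hit [t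
  false 1 (a (b (d (a (b (f (b (c (a e))))))))), t false 1 (a (b (d (a (c (a (b (f (b e))))))))), t
  true 1 (a (b (d (a (c (b (f (b (a e))))))))), t true 1 (a (b (d (b (a (c (a (f (b e))))))))), t
  false 1 (a (b (d (b (f (a (c (a (b e))))))))), t true 1 (a (b (d (b (f (b (a (c (a e))))))))), t
  false 1 (a (b (d (c (a (b (f (b (c e))))))))), t true 1 (a (b (d (c (b (f (b (a (c e))))))))), t
  false 1 (a (c (a (b (d (b (c (f (b e))))))))), t false 1 (a (c (a (b (d (c (f (b (c e))))))))), t
  true 1 (a (c (b (d (a (c (f (b (a e))))))))), t true 1 (a (c (b (d (b (a (c (f (b e))))))))), t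
  true 1 (a (c (b (d (c (f (b (a (c e))))))))), t true 1 (a (d (f (a (c (a (b (d (f e))))))))), t
  true 1 (b (a (c (a (d (b (c (f (b e))))))))), t true 1 (b (a (c (a (d (c (f (b (c e))))))))), t
  false 1 (d (f (b (a (c (a (d (c (f e)))))))))])) nil nil (hit [t true 1 (a (d (f (a (c (a (d (f
  e)))))))), t false 1 (d (f (a (c (a (d (c (f e))))))))])) (br (br nil nil nil nil (hit [t true 1
  (a (b (d (f (a (c (a (d (f e))))))))), t true 1 (b (d (f (a (b (c (a (d (f e))))))))), t false 1
  (d (f (a (b (a (d (c (a (f e))))))))), t false 1 (d (f (a (b (c (a (d (c (f e))))))))), t true 1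
  (f (a (b (a (d (a (f (c (a e))))))))), t true 1 (f (a (b (a (d (c (a (f (c e)))))))))])) nil nil
  nil (hit [t true 1 (a (d (a (b (f (b (c (a e)))))))), t true 1 (a (d (a (c (a (b (f (b e)))))))),
  t false 1 (a (d (a (c (b (f (b (a e)))))))), t false 1 (a (d (b (a (c (a (f (b e)))))))), t true 1
  (a (d (b (f (a (c (a (b e)))))))), t false 1 (a (d (b (f (b (a (c (a e)))))))), t true 1 (a (d (c
  (a (b (f (b (c e)))))))), t false 1 (a (d (c (b (f (b (a (c e)))))))), t true 1 (a (d (f (a (c (a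
  (b (f e)))))))), t true 1 (b (c (a (d (b (c (f (b e)))))))), t true 1 (b (c (a (d (c (f (b (c
  e)))))))), t false 1 (d (f (b (c (a (d (c (f e))))))))])) nil nil (hit [t true 1 (a (d (f (a (c (a
  (f e))))))), t false 1 (d (f (c (a (d (c (f e)))))))])) nil nil) (br (br nil nil (br (br nil (br
  nil nil nil nil (hit [t true 1 (a (d (f (b (a (c (a (b (d (f e)))))))))), t true 1 (b (a (d (f (b
  (c (a (b (d (f e)))))))))), t true 1 (d (f (a (b (a (d (c (a (b (f e)))))))))), t false 1 (d (f (b
  (a (c (a (b (d (c (f e)))))))))), t false 1 (f (a (b (a (d (a (b (f (c (a e)))))))))), t false 1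
  (f (a (b (a (d (b (f (c (a (b e)))))))))), t false 1 (f (a (b (a (d (c (a (b (f (c e))))))))))]))
  nil nil (hit [t true 1 (a (b (d (f (a (c (a (b (f e))))))))), t true 1 (a (d (f (a (c (a (b (d (f
  e))))))))), t true 1 (b (d (f (a (b (c (a (b (f e))))))))), t false 1 (d (f (a (c (a (b (d (c (f
  e)))))))))])) (br (br nil nil nil nil (hit [t true 1 (a (b (d (f (a (c (a (b (d (f e)))))))))), t
  true 1 (b (d (f (a (b (c (a (b (d (f e)))))))))), t false 1 (d (f (a (b (c (a (b (d (c (f
  e))))))))))])) nil nil nil (hit [t true 1 (b (d (f (b (c (a (b (d (f e))))))))), t true 1 (d (f (a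
  (b (a (d (c (a (f e))))))))), t false 1 (d (f (b (c (a (b (d (c (f e))))))))), t false 1 (f (a (b
  (a (d (a (f (c (a e))))))))), t false 1 (f (a (b (a (d (c (a (f (c e)))))))))])) nil nil (hit [t
  true 1 (a (b (d (f (a (c (a (f e)))))))), t true 1 (b (d (f (a (b (c (a (f e)))))))), t true 1 (b
  (d (f (b (c (a (b (f e)))))))), t false 1 (d (f (c (a (b (d (c (f e))))))))])) nil nil) nil (br
  (br nil (br nil nil nil nil (hit [t true 1 (a (d (f (b (a (c (b (d (f e))))))))), t true 1 (b (a
  (d (f (b (c (b (d (f e))))))))), t true 1 (d (f (a (b (a (d (c (b (f e))))))))), t false 1 (d (f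
  (b (a (c (b (d (c (f e))))))))), t false 1 (f (a (b (a (d (b (f (c (b e))))))))), t false 1 (f (a
  (b (a (d (c (b (f (c e)))))))))])) nil nil (hit [t true 1 (a (c (b (d (a (c (f (a e)))))))), t
  true 1 (a (c (b (d (c (f (a (c e)))))))), t true 1 (b (d (f (a (b (c (b (f e)))))))), t false 1 (d
  (f (a (c (b (d (c (f e))))))))])) (br (br nil nil nil nil (hit [t true 1 (a (b (a (c (b (d (a (f
  (a e))))))))), t true 1 (a (b (c (b (d (a (c (f (a e))))))))), t true 1 (a (b (c (b (d (c (f (a (c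
  e))))))))), t true 1 (b (d (f (a (b (c (b (d (f e))))))))), t false 1 (d (f (a (b (c (b (d (c (f
  e)))))))))])) nil nil nil (hit [t true 1 (b (d (f (b (c (b (d (f e)))))))), t false 1 (d (f (b (c
  (b (d (c (f e))))))))])) nil nil (hit [t true 1 (b (d (f (b (c (b (f e))))))), t false 1 (d (f (c
  (b (d (c (f e)))))))])) nil nil) (br (br nil (br nil nil nil nil (hit [t true 1 (a (c (d (a (c (f
  (b (a e)))))))), t true 1 (a (c (d (b (a (c (f (b e)))))))), t true 1 (a (c (d (c (f (b (a (c
  e)))))))), t true 1 (b (a (c (d (b (c (f (b e)))))))), t true 1 (b (a (c (d (c (f (b (c e)))))))),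
  t false 1 (d (f (b (a (c (d (c (f e))))))))])) nil nil (hit [t true 1 (a (c (d (a (c (f (a
  e))))))), t true 1 (a (c (d (c (f (a (c e))))))), t false 1 (d (f (a (c (d (c (f e)))))))])) (br
  (br nil nil nil nil (hit [t true 1 (a (b (c (d (a (c (f (a e)))))))), t true 1 (a (b (c (d (c (f
  (a (c e)))))))), t true 1 (b (c (d (a (b (c (f (a e)))))))), t true 1 (b (c (d (b (c (f (a (b
  e)))))))), t true 1 (b (c (d (c (f (a (b (c e)))))))), t false 1 (d (f (a (b (c (d (c (f
  e))))))))])) nil nil nil (hit [t true 1 (b (c (d (b (c (f (b e))))))), t true 1 (b (c (d (c (f (b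
  (c e))))))), t false 1 (d (f (b (c (d (c (f e)))))))])) nil nil (hit [t false 1 (d (f (c (d (c (f
  e))))))])) nil nil) nil) (br (br nil (br (br nil nil (br (br nil (br nil nil nil nil (hit [t false
  1 (a (c (d (f (b (a (c (a (b (a e)))))))))), t false 1 (a (d (f (b (a (c (a (b (a (d e)))))))))),
  t false 1 (a (f (b (a (c (a (b (a (d (f e)))))))))), t false 1 (b (a (c (d (f (b (c (a (b (a
  e)))))))))), t false 1 (b (a (d (f (b (c (a (b (a (d e)))))))))), t false 1 (b (a (f (b (c (a (b
  (a (d (f e)))))))))), t true 1 (c (d (f (b (a (c (a (b (a (c e)))))))))), t false 1 (d (f (a (b (a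
  (c (d (c (a (b e)))))))))), t true 1 (d (f (b (a (c (a (b (a (d (c e)))))))))), t false 1 (f (a (b
  (a (c (d (f (c (a (b e))))))))))])) nil nil (hit [t false 1 (a (b (c (d (f (a (c (a (b e))))))))),
  t false 1 (a (c (d (f (a (c (a (b (a e))))))))), t false 1 (a (d (f (a (c (a (b (a (d e))))))))),
  t false 1 (a (f (a (c (a (b (a (d (f e))))))))), t false 1 (b (c (d (f (a (b (c (a (b e))))))))),
  t true 1 (c (d (f (a (c (a (b (a (c e))))))))), t false 1 (d (f (a (b (a (c (d (c (b e))))))))), t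
  true 1 (d (f (a (c (a (b (a (d (c e))))))))), t false 1 (f (a (b (a (c (d (f (c (b e)))))))))]))
  (br (br nil nil nil nil (hit [t false 1 (a (b (c (d (f (a (c (a (b (a e)))))))))), t false 1 (a (b
  (d (f (a (c (a (b (a (d e)))))))))), t false 1 (a (b (f (a (c (a (b (a (d (f e)))))))))), t false
  1 (b (c (d (f (a (b (c (a (b (a e)))))))))), t false 1 (b (d (f (a (b (c (a (b (a (d e)))))))))),
  t false 1 (b (f (a (b (c (a (b (a (d (f e)))))))))), t true 1 (c (d (f (a (b (c (a (b (a (c
  e)))))))))), t false 1 (d (f (a (b (a (c (d (c (b (a e)))))))))), t true 1 (d (f (a (b (c (a (b (a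
  (d (c e)))))))))), t false 1 (f (a (b (a (c (d (f (c (b (a e))))))))))])) nil nil nil (hit [t true
  1 (a (c (d (f (b (a (c (b (a e))))))))), t true 1 (b (a (c (d (f (b (c (b (a e))))))))), t false 1
  (b (c (d (f (b (c (a (b (a e))))))))), t false 1 (b (d (f (b (c (a (b (a (d e))))))))), t false 1
  (b (f (b (c (a (b (a (d (f e))))))))), t true 1 (c (d (f (b (c (a (b (a (c e))))))))), t false 1
  (d (f (a (b (a (c (d (c (a e))))))))), t true 1 (d (f (b (c (a (b (a (d (c e))))))))), t false 1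
  (f (a (b (a (c (d (f (c (a e)))))))))])) nil nil nil) nil nil) nil (br (br nil (br nil nil nil nil
  (hit [t true 1 (a (b (a (c (a (d (f (a (b e))))))))), t false 1 (a (b (a (c (b (a (d (f (a
  e))))))))), t false 1 (a (d (f (b (a (c (b (a (d e))))))))), t false 1 (a (f (b (a (c (b (a (d (f
  e))))))))), t false 1 (b (a (c (a (d (f (a (b (c e))))))))), t true 1 (b (a (c (b (a (d (f (a (c
  e))))))))), t false 1 (b (a (d (f (a (b (c (b (d e))))))))), t false 1 (b (a (f (a (b (c (b (d (f
  e))))))))), t true 1 (d (f (b (a (c (b (a (d (c e)))))))))])) nil nil (hit [t false 1 (a (d (f (a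
  (c (b (a (d e)))))))), t false 1 (a (f (a (c (b (a (d (f e)))))))), t true 1 (d (f (a (b (a (d (c
  (b e)))))))), t true 1 (d (f (a (c (b (a (d (c e)))))))), t true 1 (f (a (b (a (d (f (c (b
  e))))))))])) (br (br nil nil nil nil (hit [t false 1 (a (b (d (f (a (c (b (a (d e))))))))), t
  false 1 (a (b (f (a (c (b (a (d (f e))))))))), t false 1 (b (d (f (a (b (c (b (a (d e))))))))), t
  false 1 (b (f (a (b (c (b (a (d (f e))))))))), t true 1 (d (f (a (b (a (d (c (b (a e))))))))), t
  true 1 (d (f (a (b (c (b (a (d (c e))))))))), t true 1 (f (a (b (a (d (f (c (b (a e)))))))))]))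
  nil nil nil nil) nil nil nil) nil nil) (br (br nil nil nil (br (br nil (br nil nil nil nil (hit [t
  true 1 (a (b (d (a (b (f (b (c (a (d e)))))))))), t true 1 (a (b (d (a (c (a (b (f (b (d
  e)))))))))), t false 1 (a (b (d (a (c (b (f (b (a (d e)))))))))), t true 1 (a (b (d (b (f (a (c (a
  (b (d e)))))))))), t false 1 (a (b (d (b (f (b (a (c (a (d e)))))))))), t true 1 (a (b (f (b (d (a
  (c (a (d (f e)))))))))), t false 1 (a (d (a (b (c (a (d (f (b (c e)))))))))), t false 1 (a (d (b
  (a (c (a (b (d (f (b e)))))))))), t true 1 (a (d (b (a (c (b (d (f (b (a e)))))))))), t false 1 (a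
  (d (b (c (a (b (d (f (b (c e)))))))))), t true 1 (a (d (b (c (b (d (f (b (a (c e)))))))))), t
  false 1 (a (d (b (f (a (c (a (b (d (f e)))))))))), t true 1 (b (a (d (a (b (c (a (d (f (b
  e)))))))))), t true 1 (b (a (d (a (c (a (d (f (b (c e)))))))))), t true 1 (b (d (a (b (c (a (b (f
  (b (d e)))))))))), t false 1 (b (d (a (b (c (b (f (b (a (d e)))))))))), t true 1 (b (f (a (d (a (b
  (c (a (d (f e)))))))))), t false 1 (b (f (b (a (d (a (c (a (d (f e)))))))))), t false 1 (d (a (b
  (a (d (c (a (b (f (b e)))))))))), t true 1 (d (a (b (a (d (c (b (f (b (a e)))))))))), t false 1 (d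
  (a (b (c (a (b (f (b (d (c e)))))))))), t true 1 (d (a (b (c (b (f (b (a (d (c e)))))))))), t
  false 1 (d (a (b (f (a (d (c (a (b (f e)))))))))), t false 1 (d (a (b (f (b (c (a (d (c (f
  e)))))))))), t true 1 (d (b (f (b (a (c (a (d (c (f e)))))))))), t true 1 (f (a (b (d (a (b (f (c
  (a (d e)))))))))), t false 1 (f (a (d (a (b (a (d (f (c (a e)))))))))), t false 1 (f (a (d (a (b
  (c (a (d (f (c e))))))))))])) nil nil nil) (br nil nil nil nil (hit [t false 1 (a (b (f (b (d (a
  (c (a (d e))))))))), t false 1 (a (d (a (b (f (b (c (a (d e))))))))), t false 1 (a (d (a (c (a (b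
  (f (b (d e))))))))), t true 1 (a (d (a (c (b (f (b (a (d e))))))))), t true 1 (a (d (b (f (b (a (c
  (a (d e))))))))), t false 1 (a (f (b (d (a (c (a (d (f e))))))))), t true 1 (b (d (a (b (c (a (d
  (f (b e))))))))), t true 1 (b (d (a (c (a (d (f (b (c e))))))))), t false 1 (b (f (a (d (a (b (c
  (a (d e))))))))), t true 1 (b (f (b (a (d (a (c (a (d e))))))))), t false 1 (d (a (b (a (d (c (a
  (f (b e))))))))), t true 1 (d (a (b (f (a (d (c (a (b e))))))))), t true 1 (d (a (b (f (b (c (a (d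
  (c e))))))))), t true 1 (d (a (c (a (b (f (b (d (c e))))))))), t false 1 (d (a (c (b (f (b (a (d
  (c e))))))))), t true 1 (d (a (f (a (d (c (a (b (f e))))))))), t true 1 (d (a (f (b (c (a (d (c (f
  e))))))))), t false 1 (d (b (f (b (a (c (a (d (c e))))))))), t false 1 (f (a (d (a (b (f (c (a (d
  e)))))))))])) (br nil nil nil nil (hit [t false 1 (a (c (f (c (d (a (c (a (d e))))))))), t false 1
  (a (f (c (d (a (c (a (d (f e))))))))), t true 1 (c (f (c (a (d (a (c (a (d e))))))))), t true 1 (d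
  (a (c (f (c (a (d (c (a e))))))))), t true 1 (d (a (f (c (a (d (c (a (f e))))))))), t false 1 (f
  (a (d (a (c (f (c (a (d e)))))))))])) nil (hit [t false 1 (a (f (d (a (c (a (d (f e)))))))), t
  true 1 (d (a (f (a (d (c (a (f e)))))))), t true 1 (d (a (f (c (a (d (c (f e)))))))), t false 1 (f
  (a (d (a (f (c (a (d e))))))))])) (hit [t false 1 (a (d (f (a (c (a (d e))))))), t false 1 (a (f
  (a (c (a (d (f e))))))), t true 1 (d (f (a (c (a (d (c e)))))))])) (br (br nil nil nil (br nil nil
  (br nil nil nil nil (hit [t false 1 (a (b (c (f (c (d (a (c (a (d e)))))))))), t false 1 (a (b (f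
  (c (d (a (c (a (d (f e)))))))))), t false 1 (b (c (f (c (d (a (b (c (a (d e)))))))))), t false 1
  (b (d (c (f (b (c (a (b (a (d e)))))))))), t false 1 (b (f (c (d (a (b (c (a (d (f e)))))))))), t
  true 1 (c (f (c (a (b (d (a (c (a (d e)))))))))), t true 1 (c (f (c (b (d (a (b (c (a (d
  e)))))))))), t true 1 (d (a (b (c (f (c (a (d (c (a e)))))))))), t true 1 (d (a (b (f (c (a (d (c
  (a (f e)))))))))), t true 1 (d (c (f (b (c (a (b (a (d (c e)))))))))), t false 1 (d (c (f (c (a (b
  (a (d (c (a e)))))))))), t false 1 (f (a (b (d (a (c (f (c (a (d e)))))))))), t false 1 (f (b (d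
  (a (b (c (f (c (a (d e)))))))))), t true 1 (f (c (d (a (b (a (d (f (c (a e))))))))))])) nil (hit
  [t false 1 (a (b (f (d (a (c (a (d (f e))))))))), t false 1 (b (f (d (a (b (c (a (d (f e))))))))),
  t true 1 (d (a (b (f (a (d (c (a (f e))))))))), t true 1 (d (a (b (f (c (a (d (c (f e))))))))), t
  false 1 (f (a (b (d (a (f (c (a (d e))))))))), t false 1 (f (b (d (a (b (f (c (a (d e))))))))), t
  true 1 (f (d (a (b (a (d (f (c (a e)))))))))])) (hit [t false 1 (a (b (d (f (a (c (a (d e)))))))),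
  t false 1 (a (b (f (a (c (a (d (f e)))))))), t false 1 (b (d (f (a (b (c (a (d e)))))))), t false
  1 (b (f (a (b (c (a (d (f e)))))))), t true 1 (d (f (a (b (a (d (c (a e)))))))), t true 1 (d (f (a
  (b (c (a (d (c e)))))))), t true 1 (f (a (b (a (d (f (c (a e))))))))])) nil nil nil nil) nil nil
  nil) nil nil) (br (br nil nil (br (br nil (br nil nil nil (br nil nil nil nil (hit [t false 1 (a
  (f (d (b (a (c (a (b (d (f e)))))))))), t false 1 (b (a (f (d (b (c (a (b (d (f e)))))))))), t
  true 1 (d (b (a (f (a (b (d (c (a (f e)))))))))), t true 1 (d (b (a (f (b (d (c (a (b (f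
  e)))))))))), t true 1 (d (b (a (f (c (a (b (d (c (f e)))))))))), t false 1 (f (a (d (b (a (f (c (a
  (b (d e)))))))))), t false 1 (f (b (a (d (b (f (c (a (b (d e)))))))))), t false 1 (f (d (a (b (a
  (d (f (c (a (b e))))))))))])) (hit [t false 1 (a (d (f (b (a (c (a (b (d e))))))))), t false 1 (a
  (f (b (a (c (a (b (d (f e))))))))), t false 1 (b (a (d (f (b (c (a (b (d e))))))))), t false 1 (b
  (a (f (b (c (a (b (d (f e))))))))), t false 1 (d (f (a (b (a (d (c (a (b e))))))))), t true 1 (d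
  (f (b (a (c (a (b (d (c e))))))))), t false 1 (f (a (b (a (d (f (c (a (b e)))))))))])) nil (br nil
  nil nil nil (hit [t false 1 (a (f (d (a (c (a (b (d (f e))))))))), t true 1 (d (a (f (a (b (d (c
  (a (f e))))))))), t true 1 (d (a (f (b (d (c (a (b (f e))))))))), t true 1 (d (a (f (c (a (b (d (c
  (f e))))))))), t false 1 (f (a (b (d (a (f (c (a (b e))))))))), t false 1 (f (a (d (a (f (c (a (b
  (d e))))))))), t false 1 (f (b (d (a (b (f (c (a (b e)))))))))])) (hit [t false 1 (a (b (d (f (a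
  (c (a (b e)))))))), t false 1 (a (d (f (a (c (a (b (d e)))))))), t false 1 (a (f (a (c (a (b (d (f
  e)))))))), t false 1 (b (d (f (a (b (c (a (b e)))))))), t true 1 (d (f (a (c (a (b (d (c
  e))))))))])) (br (br nil nil nil (br nil nil nil nil (hit [t false 1 (a (b (f (d (a (c (a (b (d (f
  e)))))))))), t false 1 (b (f (d (a (b (c (a (b (d (f e)))))))))), t true 1 (d (a (b (f (a (b (d (c
  (a (f e)))))))))), t true 1 (d (a (b (f (b (d (c (a (b (f e)))))))))), t true 1 (d (a (b (f (c (a
  (b (d (c (f e)))))))))), t false 1 (f (a (b (d (a (f (c (a (b (d e)))))))))), t false 1 (f (b (d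
  (a (b (f (c (a (b (d e))))))))))])) (hit [t false 1 (a (b (d (f (a (c (a (b (d e))))))))), t false
  1 (a (b (f (a (c (a (b (d (f e))))))))), t false 1 (b (d (f (a (b (c (a (b (d e))))))))), t false
  1 (b (f (a (b (c (a (b (d (f e))))))))), t true 1 (d (f (a (b (c (a (b (d (c e)))))))))])) nil nil
  (br (br nil nil nil nil (hit [t false 1 (a (d (b (f (a (c (a (b (d (f e)))))))))), t false 1 (b (f
  (a (d (b (c (a (b (d (f e)))))))))), t true 1 (d (b (f (a (b (d (c (a (b (f e)))))))))), t true 1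
  (d (b (f (a (c (a (b (d (c (f e)))))))))), t false 1 (f (a (b (d (b (f (c (a (b (d e)))))))))), t
  false 1 (f (a (d (a (b (a (d (f (c (a e))))))))))])) nil nil nil (hit [t false 1 (b (f (d (b (c (a
  (b (d (f e))))))))), t true 1 (d (b (f (a (b (d (c (a (f e))))))))), t true 1 (d (b (f (b (d (c (a
  (b (f e))))))))), t true 1 (d (b (f (c (a (b (d (c (f e))))))))), t false 1 (f (b (d (b (f (c (a
  (b (d e))))))))), t false 1 (f (d (a (b (a (d (f (c (a e)))))))))])) (hit [t false 1 (b (d (f (b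
  (c (a (b (d e)))))))), t false 1 (b (f (b (c (a (b (d (f e)))))))), t false 1 (d (f (a (b (a (d (c
  (a e)))))))), t true 1 (d (f (b (c (a (b (d (c e)))))))), t false 1 (f (a (b (a (d (f (c (a
  e))))))))])) nil nil nil) nil nil) nil (br (br nil (br nil nil nil (br nil nil nil nil (hit [t
  false 1 (a (f (d (b (a (c (b (d (f e))))))))), t false 1 (b (a (f (d (b (c (b (d (f e))))))))), t
  true 1 (d (b (a (f (b (d (c (b (f e))))))))), t true 1 (d (b (a (f (c (b (d (c (f e))))))))), t
  false 1 (f (a (d (b (a (f (c (b (d e))))))))), t false 1 (f (b (a (d (b (f (c (b (d e))))))))), t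
  false 1 (f (d (a (b (a (d (f (c (b e)))))))))])) (hit [t false 1 (a (d (f (b (a (c (b (d
  e)))))))), t false 1 (a (f (b (a (c (b (d (f e)))))))), t false 1 (b (a (d (f (b (c (b (d
  e)))))))), t false 1 (b (a (f (b (c (b (d (f e)))))))), t false 1 (d (f (a (b (a (d (c (b
  e)))))))), t true 1 (d (f (b (a (c (b (d (c e)))))))), t false 1 (f (a (b (a (d (f (c (b
  e))))))))])) nil nil nil) (br (br nil nil nil (br nil nil nil nil (hit [t true 1 (a (b (f (b (d (a
  (c (b (f e))))))))), t true 1 (a (b (f (c (b (d (a (c (f e))))))))), t false 1 (b (f (a (b (c (b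
  (d (a (f e))))))))), t false 1 (b (f (d (a (b (c (b (d (f e))))))))), t true 1 (d (a (b (f (b (d
  (c (b (f e))))))))), t true 1 (d (a (b (f (c (b (d (c (f e))))))))), t true 1 (f (a (b (a (f (c (b
  (d (a e))))))))), t true 1 (f (a (b (c (b (d (a (f (c e))))))))), t false 1 (f (b (d (a (b (f (c
  (b (d e)))))))))])) (hit [t true 1 (a (b (a (c (b (d (f (a e)))))))), t true 1 (a (b (c (b (d (f
  (a (c e)))))))), t false 1 (b (d (f (a (b (c (b (d e)))))))), t false 1 (b (f (a (b (c (b (d (f
  e)))))))), t true 1 (d (f (a (b (c (b (d (c e))))))))])) nil nil (br (br nil nil nil nil (hit [t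
  false 1 (a (b (d (b (f (a (c (b (d e))))))))), t true 1 (a (d (b (a (c (b (d (f (a e))))))))), t
  true 1 (a (d (b (c (b (d (f (a (c e))))))))), t false 1 (b (f (a (d (b (c (b (d (f e))))))))), t
  true 1 (d (b (f (a (b (d (c (b (f e))))))))), t true 1 (d (b (f (a (c (b (d (c (f e))))))))), t
  false 1 (f (a (b (d (b (f (c (b (d e)))))))))])) nil nil nil (hit [t false 1 (b (f (d (b (c (b (d
  (f e)))))))), t true 1 (d (b (f (b (d (c (b (f e)))))))), t true 1 (d (b (f (c (b (d (c (f
  e)))))))), t false 1 (f (b (d (b (f (c (b (d e))))))))])) (hit [t false 1 (b (d (f (b (c (b (d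
  e))))))), t false 1 (b (f (b (c (b (d (f e))))))), t true 1 (d (f (b (c (b (d (c e)))))))])) nil
  nil nil) nil nil) nil nil nil) nil)

def R3 : R := R.br R31 R32 R33 R34 R35

def R41 : R := (br nil (br (br nil nil (br nil nil nil (hit [t false 1 (a (b (a (c (d (c e)))))), t
  true 1 (a (b (c (d (c (a e)))))), t false 1 (a (c (d (c (b (a e)))))), t false 1 (b (a (c (d (c (b
  e)))))), t true 1 (b (c (d (c (a (b e)))))), t true 1 (c (a (b (a (d (c e)))))), t false 1 (c (d
  (a (b (a (c e)))))), t true 1 (c (d (c (a (b (a e)))))), t false 1 (d (a (b (a (c (d e))))))])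
  nil) nil nil) nil (br nil (br nil nil nil (hit [t false 1 (a (b (c (b (d (a e)))))), t false 1 (a
  (d (a (b (c (b e)))))), t true 1 (a (d (b (c (b (a e)))))), t true 1 (b (a (d (a (c (b e)))))), t
  false 1 (b (c (a (d (a (b e)))))), t true 1 (b (c (b (a (d (a e)))))), t false 1 (c (a (d (a (b (c
  e)))))), t true 1 (c (b (a (d (a (c e)))))), t false 1 (d (a (b (c (b (d e))))))]) nil) nil (hit
  [t true 1 (a (d (c (b (a e))))), t true 1 (b (a (d (c (b e))))), t true 1 (c (b (a (d (c e)))))])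
  nil) (hit [t true 1 (a (d (b (a e)))), t true 1 (b (a (d (b e))))]) (br nil nil (br nil (br nil
  nil nil (br nil nil (br nil nil nil nil (hit [t true 1 (a (d (a (c (f (b (c (b (f e))))))))), t
  true 1 (a (d (b (c (f (a (b (a (f e))))))))), t false 1 (a (d (c (f (b (c (a (b (f e))))))))), t
  true 1 (a (d (f (b (c (a (b (f (a e))))))))), t true 1 (a (f (b (c (a (b (f (d (a e))))))))), t
  true 1 (a (f (b (c (b (f (d (a (b e))))))))), t false 1 (c (a (d (a (f (b (c (b (f e))))))))), t
  true 1 (c (a (d (f (b (c (b (f (a e))))))))), t false 1 (c (d (a (f (b (c (b (f (d e))))))))), t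
  true 1 (c (d (f (b (c (b (f (a (d e))))))))), t true 1 (c (f (a (d (a (b (c (b (f e))))))))), t
  false 1 (c (f (b (c (b (a (d (a (f e))))))))), t true 1 (c (f (c (a (d (a (b (c (f e))))))))), t
  false 1 (c (f (c (b (a (d (a (c (f e))))))))), t true 1 (d (a (f (b (c (b (f (d (b e))))))))), t
  false 1 (d (f (b (c (b (f (a (d (b e))))))))), t true 1 (f (a (b (c (a (f (b (d (a e))))))))), t
  false 1 (f (a (d (a (b (c (b (f (b e))))))))), t true 1 (f (b (c (b (a (d (a (f (b e))))))))), t
  false 1 (f (c (a (d (a (b (c (f (b e))))))))), t true 1 (f (c (a (d (b (c (f (b (a e))))))))), t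
  true 1 (f (c (b (a (d (a (c (f (b e))))))))), t false 1 (f (c (d (a (b (c (f (b (d e)))))))))]))
  nil nil) nil) nil (br (br nil nil (br nil (br nil nil nil nil (hit [t false 1 (a (b (f (b (c (a (b
  (a (d (c e)))))))))), t false 1 (a (f (b (c (a (b (a (d (c (f e)))))))))), t true 1 (b (f (b (a (c
  (a (b (a (d (c e)))))))))), t false 1 (c (a (b (f (b (c (b (a (d (c e)))))))))), t false 1 (c (a
  (f (b (c (b (a (d (c (f e)))))))))), t true 1 (c (b (f (b (a (c (b (a (d (c e)))))))))), t false 1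
  (f (a (c (a (b (f (b (a (d (c e)))))))))), t true 1 (f (b (c (a (b (a (d (c (f (b e))))))))))]))
  nil nil nil) nil nil) nil (br nil (br (br nil nil nil nil (hit [t false 1 (a (b (c (f (a (b (a (d
  (c (f e)))))))))), t false 1 (c (f (a (b (c (b (a (d (c (f e)))))))))), t true 1 (f (a (b (c (a (d
  (c (f (b (a e)))))))))), t true 1 (f (a (b (c (b (a (d (c (f (b e))))))))))])) nil nil nil (hit [t
  false 1 (c (f (b (c (b (a (d (c (f e))))))))), t true 1 (f (b (c (a (d (c (f (b (a e))))))))), t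
  true 1 (f (b (c (b (a (d (c (f (b e)))))))))])) nil nil (hit [t false 1 (c (f (c (b (a (d (c (f
  e)))))))), t true 1 (f (c (a (d (c (f (b (a e)))))))), t true 1 (f (c (b (a (d (c (f (b
  e))))))))])) nil nil) nil) nil nil)) (br (br nil (br nil nil nil (hit [t false 1 (a (b (d (b (c (a
  e)))))), t false 1 (a (c (a (b (d (b e)))))), t true 1 (a (c (b (d (b (a e)))))), t true 1 (b (a
  (c (a (d (b e)))))), t false 1 (b (d (a (c (a (b e)))))), t true 1 (b (d (b (a (c (a e)))))), t
  false 1 (c (a (b (d (b (c e)))))), t true 1 (c (b (d (b (a (c e)))))), t false 1 (d (a (c (a (b (d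
  e))))))]) nil) nil nil nil) (br nil nil nil (hit [t true 1 (a (d (b (c (a e))))), t true 1 (b (c
  (a (d (b e))))), t true 1 (c (a (d (b (c e)))))]) nil) nil (hit [t true 1 (a (d (c (a e)))), t
  true 1 (c (a (d (c e))))]) (br nil (br nil nil nil (br (br nil (br nil nil nil nil (hit [t false 1
  (a (f (b (a (c (a (d (b (f e))))))))), t false 1 (b (a (f (b (c (a (d (b (f e))))))))), t false 1
  (f (a (b (a (f (c (a (d (b e))))))))), t true 1 (f (b (a (c (a (d (b (f (c e)))))))))])) nil nil
  nil) (br (br nil nil nil nil (hit [t false 1 (a (b (f (a (c (a (d (b (f e))))))))), t false 1 (b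
  (f (a (b (c (a (d (b (f e))))))))), t true 1 (f (a (b (a (d (b (f (c (a e))))))))), t true 1 (f (a
  (b (c (a (d (b (f (c e)))))))))])) nil nil nil (hit [t false 1 (b (f (b (c (a (d (b (f e)))))))),
  t true 1 (f (b (a (d (b (f (c (a e)))))))), t true 1 (f (b (c (a (d (b (f (c e))))))))])) (br nil
  (br nil nil nil nil (hit [t false 1 (b (c (f (b (c (a (d (b (f e))))))))), t true 1 (b (f (b (c (b
  (f (a (d (b e))))))))), t true 1 (f (b (c (a (d (b (f (c (a e)))))))))])) nil nil nil) nil nil)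
  nil) (br nil (br nil nil nil (br (br nil (br nil nil nil nil (hit [t false 1 (a (b (a (c (a (d (a
  (f (a (b e)))))))))), t true 1 (a (b (a (c (a (d (b (a (f (a e)))))))))), t true 1 (a (b (a (c (b
  (a (d (b (f (a e)))))))))), t true 1 (a (c (f (b (a (c (b (a (d (b e)))))))))), t true 1 (a (d (c
  (f (b (a (c (b (a (d e)))))))))), t true 1 (a (f (b (a (c (b (a (d (b (f e)))))))))), t true 1 (b
  (a (c (a (d (a (f (a (b (c e)))))))))), t false 1 (b (a (c (a (d (b (a (f (a (c e)))))))))), t
  false 1 (b (a (c (b (a (d (b (f (a (c e)))))))))), t true 1 (b (a (c (f (a (b (c (b (d (b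
  e)))))))))), t true 1 (b (a (c (f (b (a (d (b (a (c e)))))))))), t false 1 (b (a (c (f (b (c (a (d
  (b (a e)))))))))), t false 1 (b (a (d (a (c (f (a (b (c (d e)))))))))), t true 1 (b (a (d (b (a (c
  (f (a (c (d e)))))))))), t true 1 (b (a (d (c (f (a (b (c (b (d e)))))))))), t true 1 (b (a (f (a
  (b (c (b (d (b (f e)))))))))), t true 1 (b (a (f (b (a (d (b (a (c (f e)))))))))), t false 1 (b (a
  (f (b (c (a (d (b (a (f e)))))))))), t false 1 (c (f (b (a (c (b (a (d (b (c e)))))))))), t false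
  1 (d (c (f (b (a (c (b (a (d (c e)))))))))), t false 1 (f (a (b (a (c (f (c (a (d (b e)))))))))),
  t false 1 (f (b (a (c (b (a (d (b (f (c e))))))))))])) nil nil nil) (br (br nil nil nil nil (hit
  [t false 1 (a (b (c (f (a (b (a (d (b (c e)))))))))), t true 1 (a (b (c (f (a (c (b (a (d (b
  e)))))))))), t true 1 (a (b (d (c (f (a (c (b (a (d e)))))))))), t false 1 (a (b (f (a (b (a (d (b
  (c (f e)))))))))), t true 1 (a (b (f (a (c (b (a (d (b (f e)))))))))), t true 1 (b (c (f (a (b (c
  (b (a (d (b e)))))))))), t true 1 (b (d (c (f (a (b (c (b (a (d e)))))))))), t true 1 (b (f (a (b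
  (c (b (a (d (b (f e)))))))))), t false 1 (c (f (a (b (c (b (a (d (b (c e)))))))))), t false 1 (d
  (c (f (a (b (a (d (c (b (a e)))))))))), t false 1 (d (c (f (a (b (c (b (a (d (c e)))))))))), t
  true 1 (f (a (b (a (d (b (c (f (c (a e)))))))))), t false 1 (f (a (b (a (d (c (f (c (b (a
  e)))))))))), t false 1 (f (a (b (c (b (a (d (b (f (c e))))))))))])) nil nil nil (hit [t false 1 (a
  (b (a (c (b (d (b (f (a e))))))))), t false 1 (a (b (c (b (d (b (f (a (c e))))))))), t true 1 (a
  (c (f (a (b (c (d (b (c e))))))))), t false 1 (a (c (f (b (c (d (b (a (c e))))))))), t false 1 (b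
  (a (c (f (a (b (c (d (b e))))))))), t false 1 (b (a (c (f (a (c (d (b (c e))))))))), t true 1 (b
  (a (c (f (b (c (d (b (a e))))))))), t true 1 (b (c (f (a (b (c (b (d (b e))))))))), t true 1 (b (c
  (f (b (a (d (b (a (c e))))))))), t false 1 (b (c (f (b (c (a (d (b (a e))))))))), t false 1 (b (d
  (a (c (f (a (b (c (d e))))))))), t true 1 (b (d (b (a (c (f (a (c (d e))))))))), t true 1 (b (d (c
  (f (a (b (c (b (d e))))))))), t true 1 (b (f (a (b (c (b (d (b (f e))))))))), t true 1 (b (f (b (a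
  (d (b (a (c (f e))))))))), t false 1 (b (f (b (c (a (d (b (a (f e))))))))), t false 1 (c (f (a (b
  (c (b (d (b (c e))))))))), t true 1 (c (f (b (c (a (d (b (a (c e))))))))), t true 1 (d (a (c (f (a
  (b (c (d (c e))))))))), t false 1 (d (b (a (c (f (a (c (d (c e))))))))), t false 1 (d (c (f (a (b
  (c (b (d (c e))))))))), t false 1 (f (a (b (c (b (d (b (f (c e))))))))), t false 1 (f (b (a (d (b
  (a (c (f (c e))))))))), t true 1 (f (b (a (d (b (c (f (c (a e))))))))), t true 1 (f (b (c (a (d (b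
  (a (f (c e)))))))))])) nil nil nil) nil) nil nil nil) nil nil)) (hit [t true 1 (a (d (a e)))]) (br
  (br nil nil (br nil (br nil nil nil (br nil (br (br nil nil nil nil (hit [t false 1 (a (b (f (a (b
  (c (d (b (a (f e)))))))))), t false 1 (a (b (f (a (c (d (b (c (a (f e)))))))))), t true 1 (a (f (a
  (b (a (f (c (d (b (a e)))))))))), t false 1 (b (a (f (a (b (a (f (c (d (b e)))))))))), t false 1
  (b (c (d (a (f (a (b (a (f (c e)))))))))), t true 1 (b (c (f (a (b (a (f (d (b (c e)))))))))), t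
  false 1 (b (d (a (f (a (b (a (f (c (d e)))))))))), t true 1 (b (f (a (b (a (c (d (b (c (f
  e)))))))))), t false 1 (b (f (a (b (a (f (c (d (b (c e)))))))))), t false 1 (b (f (a (b (c (d (b
  (c (a (f e)))))))))), t false 1 (c (d (a (b (f (a (b (c (a (f e)))))))))), t true 1 (c (d (a (f (a
  (b (a (f (c (a e)))))))))), t true 1 (c (f (a (b (c (a (f (d (b (c e)))))))))), t false 1 (d (a (b
  (f (a (b (c (d (a (f e)))))))))), t true 1 (d (a (f (a (b (a (f (c (d (a e)))))))))), t false 1 (f
  (a (b (a (c (d (b (c (f (a e)))))))))), t true 1 (f (a (b (a (f (c (d (b (c (a e)))))))))), t true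
  1 (f (a (b (c (d (b (c (a (f (a e))))))))))])) nil nil nil nil) nil nil nil) nil) nil nil nil) nil
  nil) (br nil nil (br nil (br nil nil nil (br nil (br (br nil nil nil nil (hit [t false 1 (b (c (d
  (f (a (b (a (d (b (c e)))))))))), t false 1 (b (d (f (a (b (a (d (b (c (b e)))))))))), t false 1
  (b (f (a (b (a (d (b (c (b (f e)))))))))), t false 1 (c (d (f (a (b (c (a (d (b (c e)))))))))), t
  true 1 (d (f (a (b (a (d (a (b (c (b e)))))))))), t true 1 (d (f (a (b (c (a (d (a (b (c
  e)))))))))), t true 1 (d (f (a (b (d (a (b (c (b (d e)))))))))), t true 1 (f (a (b (a (d (b (c (b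
  (f (a e)))))))))), t false 1 (f (a (b (c (b (d (f (a (d (c e))))))))))])) nil (br nil nil nil nil
  (hit [t false 1 (b (d (f (c (b (a (d (b (c (b e)))))))))), t false 1 (b (f (c (b (a (d (b (c (b (f
  e)))))))))), t false 1 (c (a (b (d (f (a (c (a (b (d e)))))))))), t false 1 (c (a (b (f (a (c (a
  (b (d (f e)))))))))), t false 1 (c (b (d (f (a (b (c (a (b (d e)))))))))), t false 1 (c (b (d (f
  (c (a (d (b (c (b e)))))))))), t false 1 (c (b (f (a (b (c (a (b (d (f e)))))))))), t false 1 (c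
  (b (f (c (a (d (b (c (b (f e)))))))))), t true 1 (d (f (a (b (c (a (b (d (a (c e)))))))))), t
  false 1 (d (f (a (c (a (b (a (c (d (a e)))))))))), t true 1 (d (f (c (b (a (d (a (b (c (b
  e)))))))))), t true 1 (d (f (c (b (d (a (b (c (b (d e)))))))))), t true 1 (f (a (b (c (a (b (d (f
  (a (c e)))))))))), t false 1 (f (b (c (b (d (f (a (d (b (c e)))))))))), t true 1 (f (c (b (a (d (b
  (c (b (f (a e))))))))))])) nil (hit [t false 1 (b (c (d (f (b (a (d (b (c e))))))))), t false 1 (b
  (d (f (a (b (a (c (b (d e))))))))), t false 1 (b (d (f (b (a (d (b (c (b e))))))))), t false 1 (b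
  (f (a (b (a (c (b (d (f e))))))))), t false 1 (b (f (b (a (d (b (c (b (f e))))))))), t false 1 (c
  (d (f (b (c (a (d (b (c e))))))))), t true 1 (d (f (b (a (d (a (b (c (b e))))))))), t true 1 (d (f
  (b (c (a (d (a (b (c e))))))))), t true 1 (d (f (b (d (a (b (c (b (d e))))))))), t true 1 (f (a (b
  (a (c (b (d (f (a e))))))))), t true 1 (f (b (a (d (b (c (b (f (a e))))))))), t false 1 (f (b (c
  (b (d (f (a (d (c e)))))))))])) (br (br nil nil nil nil (hit [t true 1 (b (d (f (a (c (b (a (d (c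
  (b e)))))))))), t true 1 (c (b (d (f (a (c (a (d (c (b e)))))))))), t false 1 (c (d (f (a (c (a (d
  (b (c (b e)))))))))), t false 1 (c (f (a (c (a (d (b (c (b (f e)))))))))), t true 1 (d (f (a (c (a
  (d (a (b (c (b e)))))))))), t false 1 (d (f (a (c (b (a (d (a (c (b e)))))))))), t true 1 (d (f (a
  (c (d (a (b (c (b (d e)))))))))), t false 1 (f (a (b (c (b (d (f (a (d (b e)))))))))), t true 1 (f
  (a (c (a (d (b (c (b (f (a e))))))))))])) (br nil nil nil nil (hit [t false 1 (b (c (d (f (a (b (a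
  (c (b (d e)))))))))), t false 1 (b (c (d (f (b (a (d (b (c (b e)))))))))), t false 1 (b (c (f (a
  (b (a (c (b (d (f e)))))))))), t false 1 (b (c (f (b (a (d (b (c (b (f e)))))))))), t true 1 (c (d
  (f (a (b (a (c (a (b (d e)))))))))), t false 1 (c (d (f (b (c (a (d (b (c (b e)))))))))), t true 1
  (c (f (a (b (a (c (a (b (d (f e)))))))))), t false 1 (c (f (b (c (a (d (b (c (b (f e)))))))))), t
  true 1 (d (f (b (c (a (d (a (b (c (b e)))))))))), t true 1 (d (f (b (c (d (a (b (c (b (d
  e)))))))))), t false 1 (f (a (b (a (c (a (b (d (f (a e)))))))))), t true 1 (f (b (c (a (d (b (c (b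
  (f (a e)))))))))), t false 1 (f (b (c (b (d (f (a (d (c (b e))))))))))])) nil nil (hit [t true 1
  (b (d (f (c (b (a (d (c (b e))))))))), t true 1 (c (b (d (f (c (a (d (c (b e))))))))), t false 1
  (c (d (f (a (b (c (a (b (d e))))))))), t false 1 (c (d (f (c (a (d (b (c (b e))))))))), t false 1
  (c (f (a (b (c (a (b (d (f e))))))))), t false 1 (c (f (c (a (d (b (c (b (f e))))))))), t true 1
  (d (f (c (a (d (a (b (c (b e))))))))), t false 1 (d (f (c (b (a (d (a (c (b e))))))))), t true 1
  (d (f (c (d (a (b (c (b (d e))))))))), t true 1 (f (a (b (c (a (b (d (f (a e))))))))), t false 1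
  (f (b (c (b (d (f (a (d (b e))))))))), t true 1 (f (c (a (d (b (c (b (f (a e)))))))))])) nil nil)
  nil) nil (br (br nil nil (br nil (br nil nil nil nil (hit [t false 1 (b (c (a (f (b (a (d (c (b (f
  e)))))))))), t false 1 (c (a (f (b (c (a (d (c (b (f e)))))))))), t false 1 (f (b (a (c (a (b (f
  (a (d (c e)))))))))), t true 1 (f (b (c (a (b (f (a (d (c (b e))))))))))])) nil nil nil) nil nil)
  (br (br nil nil (br nil nil nil nil (hit [t false 1 (a (b (c (a (b (f (b (a (d (c e)))))))))), t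
  true 1 (b (c (a (b (a (d (b (f (b (c e)))))))))), t false 1 (b (c (a (b (a (d (c (b (f (b
  e)))))))))), t false 1 (b (f (c (a (b (a (d (c (b (f e)))))))))), t false 1 (c (a (b (a (d (b (f
  (b (c (a e)))))))))), t true 1 (c (a (b (a (d (c (b (f (b (a e)))))))))), t false 1 (c (a (b (d (b
  (f (b (c (a (d e)))))))))), t true 1 (c (a (b (d (c (b (f (b (a (d e)))))))))), t false 1 (c (a (b
  (f (b (c (a (d (c (f e)))))))))), t false 1 (f (a (b (c (a (b (f (a (d (c e)))))))))), t true 1 (f
  (c (a (b (a (d (c (b (f (a e))))))))))])) nil (hit [t false 1 (b (f (a (b (a (d (c (b (f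
  e))))))))), t true 1 (f (a (b (a (d (c (b (f (a e))))))))), t true 1 (f (a (b (c (b (f (a (d (c
  e)))))))))])) nil nil nil (hit [t false 1 (b (f (b (a (d (c (b (f e)))))))), t true 1 (f (b (a (d
  (c (b (f (a e)))))))), t true 1 (f (b (c (b (f (a (d (c e))))))))])) (br nil (br (br nil nil nil
  nil (hit [t false 1 (b (c (f (a (b (a (d (c (b (f e)))))))))), t false 1 (c (f (a (b (c (a (d (c
  (b (f e)))))))))), t true 1 (f (a (b (c (a (d (c (b (f (a e)))))))))), t true 1 (f (a (b (c (b (f
  (a (d (c (b e))))))))))])) nil nil nil (hit [t false 1 (b (c (f (b (a (d (c (b (f e))))))))), t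
  false 1 (c (f (b (c (a (d (c (b (f e))))))))), t true 1 (f (b (c (a (d (c (b (f (a e))))))))), t
  true 1 (f (b (c (b (f (a (d (c (b e)))))))))])) nil nil nil) nil nil) nil) (br (br nil (br (br nil
  nil nil nil (hit [t false 1 (b (f (a (b (a (d (b (f (d e)))))))))])) nil nil nil (hit [t false 1
  (b (a (f (b (a (d (b (f e)))))))), t false 1 (b (f (a (b (a (f (d (b e))))))))])) (br nil (br nil
  nil nil nil (hit [t false 1 (b (c (a (f (b (a (d (b (f e))))))))), t false 1 (c (a (f (b (c (a (d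
  (b (f e))))))))), t true 1 (f (b (c (a (b (f (a (d (b e)))))))))])) nil nil nil) nil nil) (br (br
  nil nil (br (br nil nil nil nil (hit [t false 1 (b (f (a (c (a (b (a (d (b (f e)))))))))), t true
  1 (c (b (f (a (c (a (b (d (b (f e)))))))))), t false 1 (c (f (a (c (a (b (d (b (f (d e)))))))))),
  t true 1 (f (a (c (a (b (a (d (b (f (a e))))))))))])) nil nil nil nil) nil (hit [t false 1 (b (f
  (a (b (a (d (b (f e)))))))), t true 1 (f (a (b (a (d (b (f (a e))))))))])) nil nil nil (hit [t
  false 1 (b (f (b (a (d (b (f e))))))), t true 1 (f (b (a (d (b (f (a e)))))))])) (br (br nil (br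
  (br nil nil nil nil (hit [t true 1 (b (c (f (a (b (a (c (d (b (f e)))))))))), t false 1 (b (f (a
  (b (a (c (b (f (d (b e)))))))))), t false 1 (b (f (a (b (a (c (d (b (f (d e)))))))))), t false 1
  (c (f (a (b (a (c (a (d (b (f e)))))))))), t true 1 (f (a (b (a (c (a (d (b (f (a e)))))))))), t
  true 1 (f (a (b (a (c (b (f (a (d (b e))))))))))])) nil nil nil (hit [t false 1 (b (a (c (f (b (a
  (d (b (f e))))))))), t false 1 (c (f (b (a (c (a (d (b (f e))))))))), t true 1 (f (b (a (c (a (d
  (b (f (a e))))))))), t true 1 (f (b (a (c (b (f (a (d (b e)))))))))])) nil nil nil) (br (br nil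
  nil nil nil (hit [t false 1 (b (c (f (a (b (a (d (b (f e))))))))), t false 1 (c (f (a (b (c (a (d
  (b (f e))))))))), t true 1 (f (a (b (c (a (d (b (f (a e))))))))), t true 1 (f (a (b (c (b (f (a (d
  (b e)))))))))])) nil nil nil (hit [t false 1 (b (c (f (b (a (d (b (f e)))))))), t false 1 (c (f (b
  (c (a (d (b (f e)))))))), t true 1 (f (b (c (a (d (b (f (a e)))))))), t true 1 (f (b (c (b (f (a
  (d (b e))))))))])) nil nil nil) nil nil) nil) (br (br nil (br nil nil nil (br nil (br nil nil (br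
  nil nil nil nil (hit [t true 1 (a (b (f (a (b (c (d (b (a (f e)))))))))), t true 1 (a (b (f (a (c
  (d (b (c (a (f e)))))))))), t false 1 (a (c (a (b (f (a (d (b (a (f e)))))))))), t false 1 (a (c
  (b (f (a (b (d (b (a (f e)))))))))), t true 1 (a (c (f (a (b (a (f (d (b (a e)))))))))), t false 1
  (a (f (a (b (a (f (c (d (b (a e)))))))))), t true 1 (b (a (c (a (f (a (d (b (a (f e)))))))))), t
  false 1 (b (a (c (f (a (b (a (f (d (b e)))))))))), t true 1 (b (a (f (a (b (a (f (c (d (b
  e)))))))))), t true 1 (b (c (d (a (f (a (b (a (f (c e)))))))))), t false 2 (b (c (f (a (b (a (f (d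
  (b (c e)))))))))), t true 1 (b (c (f (a (c (a (f (d (b (a e)))))))))), t true 1 (b (c (f (a (c (b
  (a (f (d (b e)))))))))), t false 1 (b (d (a (c (f (a (b (a (f (d e)))))))))), t true 1 (b (d (a (f
  (a (b (a (f (c (d e)))))))))), t false 1 (b (d (b (c (f (a (c (a (f (d e)))))))))), t true 1 (b (d
  (f (a (c (a (f (b (a (d e)))))))))), t false 1 (b (f (a (b (a (c (d (b (c (f e)))))))))), t true 1
  (b (f (a (b (a (f (c (d (b (c e)))))))))), t true 1 (b (f (a (b (c (d (b (c (a (f e)))))))))), t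
  false 1 (b (f (a (c (a (b (a (d (b (f e)))))))))), t false 1 (b (f (c (a (b (a (d (b (c (f
  e)))))))))), t false 1 (c (a (b (f (a (d (b (c (a (f e)))))))))), t true 1 (c (b (d (b (f (a (c (a
  (f (d e)))))))))), t false 1 (c (b (d (f (a (c (a (f (b (d e)))))))))), t false 1 (c (b (f (a (b
  (d (b (c (a (f e)))))))))), t true 1 (c (b (f (a (c (a (b (d (b (f e)))))))))), t true 1 (c (b (f
  (c (a (b (d (b (c (f e)))))))))), t false 1 (c (b (f (c (b (d (b (a (c (f e)))))))))), t true 1 (c
  (d (a (b (f (a (b (c (a (f e)))))))))), t false 1 (c (d (a (f (a (b (a (f (c (a e)))))))))), t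
  true 1 (c (f (a (b (a (f (d (b (c (a e)))))))))), t false 1 (c (f (a (c (b (a (f (d (b (a
  e)))))))))), t true 1 (c (f (b (a (c (a (b (f (d (b e)))))))))), t false 1 (c (f (b (a (c (b (f (d
  (b (a e)))))))))), t true 1 (c (f (b (c (a (b (f (d (b (c e)))))))))), t false 1 (c (f (b (c (b (f
  (d (b (a (c e)))))))))), t true 1 (d (a (b (f (a (b (c (d (a (f e)))))))))), t false 1 (d (a (c (a
  (b (f (a (d (a (f e)))))))))), t false 1 (d (a (c (b (f (a (b (d (a (f e)))))))))), t true 1 (d (a
  (c (f (a (b (a (f (d (a e)))))))))), t false 1 (d (a (f (a (b (a (f (c (d (a e)))))))))), t true 1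
  (d (b (a (c (a (f (a (d (a (f e)))))))))), t true 1 (d (b (c (f (a (c (a (f (d (a e)))))))))), t
  false 1 (d (f (a (c (a (f (b (a (d (a e)))))))))), t true 1 (f (a (b (a (c (d (b (c (f (a
  e)))))))))), t false 1 (f (a (b (a (f (c (d (b (c (a e)))))))))), t false 1 (f (a (b (c (d (b (c
  (a (f (a e)))))))))), t true 1 (f (a (c (a (b (a (d (b (f (a e)))))))))), t false 1 (f (b (a (c (a
  (b (f (a (d (b e)))))))))), t false 1 (f (b (c (a (b (f (a (d (b (c e)))))))))), t true 1 (f (c (a
  (b (a (d (b (c (f (a e)))))))))), t false 1 (f (c (b (d (a (c (f (a (b (d e))))))))))])) nil nil)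
  (br nil nil nil nil (hit [t false 1 (a (c (f (a (b (d (b (a (f e))))))))), t true 1 (b (a (c (f (a
  (d (b (a (f e))))))))), t false 1 (b (d (a (c (f (a (b (a (f e))))))))), t false 1 (b (d (b (c (f
  (a (c (a (f e))))))))), t true 1 (b (d (f (a (c (a (f (b (a e))))))))), t false 1 (b (f (a (c (a
  (f (d (b (a e))))))))), t false 1 (b (f (a (c (b (a (f (d (b e))))))))), t true 1 (c (b (d (b (f
  (a (c (a (f e))))))))), t false 1 (c (b (d (f (a (c (a (f (b e))))))))), t true 1 (c (d (b (f (a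
  (c (a (f (d e))))))))), t false 1 (c (d (f (a (c (a (f (b (d e))))))))), t false 1 (c (f (a (b (d
  (b (c (a (f e))))))))), t true 1 (c (f (a (c (a (b (d (b (f e))))))))), t true 1 (c (f (c (a (b (d
  (b (c (f e))))))))), t false 1 (c (f (c (b (d (b (a (c (f e))))))))), t false 1 (d (a (c (f (a (b
  (d (a (f e))))))))), t true 1 (d (b (a (c (f (a (d (a (f e))))))))), t false 1 (d (b (f (a (c (a
  (f (d (a e))))))))), t true 1 (d (f (a (c (a (f (b (d (a e))))))))), t true 1 (f (a (b (d (b (c (a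
  (f (a e))))))))), t false 1 (f (a (c (a (b (d (b (f (a e))))))))), t false 1 (f (b (a (c (b (f (a
  (d (b e))))))))), t false 1 (f (c (a (b (d (b (c (f (a e))))))))), t false 1 (f (c (b (d (a (c (f
  (a (b e))))))))), t true 1 (f (c (b (d (b (a (c (f (a e))))))))), t false 1 (f (c (d (a (c (f (a
  (b (d e)))))))))])) nil nil) nil) nil nil nil) (br nil nil nil (br (br nil (br (br nil nil nil nil
  (hit [t true 1 (b (c (f (a (b (a (c (d (b (c e)))))))))), t false 1 (b (f (a (b (a (d (b (c (f (d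
  e)))))))))), t false 1 (c (f (a (b (a (c (a (d (b (c e))))))))))])) nil (br nil nil nil nil (hit
  [t false 1 (b (a (f (c (b (a (d (b (c (f e)))))))))), t false 1 (b (c (f (a (b (a (f (c (d (b
  e)))))))))), t false 1 (b (f (a (c (b (a (f (d (b (c e)))))))))), t false 1 (b (f (c (a (b (a (c
  (f (d (b e)))))))))), t false 1 (c (b (a (f (c (a (d (b (c (f e)))))))))), t false 1 (c (b (f (a
  (b (c (a (f (d (b e)))))))))), t false 1 (c (b (f (a (c (a (f (d (b (c e)))))))))), t true 1 (c (f
  (a (b (a (f (c (a (d (b e)))))))))), t false 1 (f (b (a (c (b (f (a (d (b (c e)))))))))), t false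
  1 (f (b (c (a (b (f (a (c (d (b e))))))))))])) nil (hit [t false 1 (b (a (c (f (b (a (d (b (c
  e))))))))), t false 1 (b (a (f (b (a (d (b (c (f e))))))))), t false 1 (b (c (f (a (b (a (c (d (b
  e))))))))), t false 1 (b (f (a (b (a (c (f (d (b e))))))))), t true 1 (c (f (a (b (a (c (a (d (b
  e))))))))), t false 1 (c (f (b (a (c (a (d (b (c e)))))))))])) (br nil nil nil nil (hit [t false 1
  (b (c (f (a (b (a (f (d (b e))))))))), t false 1 (c (a (f (c (a (d (b (c (f e))))))))), t false 1
  (c (f (a (b (c (a (f (d (b e))))))))), t false 1 (c (f (a (c (a (f (d (b (c e))))))))), t false 1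
  (f (b (c (a (b (f (a (d (b e)))))))))])) nil nil) (br (br nil nil (br nil nil nil nil (hit [t
  false 1 (b (c (f (a (b (a (f (d (b (c e)))))))))), t false 1 (b (f (c (a (b (a (d (b (c (f
  e)))))))))), t false 1 (c (a (b (f (c (a (d (b (c (f e)))))))))), t false 1 (c (f (a (b (c (a (f
  (d (b (c e)))))))))), t false 1 (f (b (c (a (b (f (a (d (b (c e)))))))))), t true 1 (f (c (a (b (a
  (d (b (c (f (a e))))))))))])) nil (hit [t false 1 (b (c (f (a (b (a (d (b (c e))))))))), t false 1
  (b (f (a (b (a (d (b (c (f e))))))))), t false 1 (c (f (a (b (c (a (d (b (c e))))))))), t true 1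
  (f (a (b (a (d (b (c (f (a e)))))))))])) nil (br (br nil nil nil nil (hit [t false 1 (b (f (a (c
  (b (a (d (b (c (f e)))))))))), t false 1 (c (b (f (a (c (a (d (b (c (f e)))))))))), t false 1 (f
  (a (b (c (b (f (a (d (b (c e)))))))))), t true 1 (f (a (c (b (a (d (b (c (f (a e))))))))))])) nil
  nil nil (hit [t false 1 (b (f (c (b (a (d (b (c (f e))))))))), t false 1 (c (b (f (c (a (d (b (c
  (f e))))))))), t false 1 (f (b (c (b (f (a (d (b (c e))))))))), t true 1 (f (c (b (a (d (b (c (f
  (a e)))))))))])) nil (hit [t false 1 (b (c (f (b (a (d (b (c e)))))))), t false 1 (b (f (b (a (d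
  (b (c (f e)))))))), t false 1 (c (f (b (c (a (d (b (c e)))))))), t true 1 (f (b (a (d (b (c (f (a
  e))))))))])) (br (br nil (br nil nil nil nil (hit [t false 1 (b (a (c (f (b (a (d (b (c (f
  e)))))))))), t false 1 (c (f (b (a (c (a (d (b (c (f e)))))))))), t true 1 (f (a (b (a (c (b (f (a
  (d (b e)))))))))), t true 1 (f (b (a (c (a (d (b (c (f (a e))))))))))])) nil nil (hit [t false 1
  (c (f (a (c (a (d (b (c (f e))))))))), t false 1 (f (a (b (c (b (f (a (d (b e))))))))), t true 1
  (f (a (c (a (d (b (c (f (a e)))))))))])) (br nil nil nil nil (hit [t false 1 (b (c (f (b (a (d (b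
  (c (f e))))))))), t false 1 (c (f (b (c (a (d (b (c (f e))))))))), t true 1 (f (b (c (a (d (b (c
  (f (a e)))))))))])) nil nil (hit [t false 1 (c (f (c (a (d (b (c (f e)))))))), t false 1 (f (b (c
  (b (f (a (d (b e)))))))), t true 1 (f (c (a (d (b (c (f (a e))))))))])) nil nil) nil) nil (br (br
  nil nil (br (br nil (br nil nil nil nil (hit [t true 1 (a (b (c (a (b (f (b (a (d (c e)))))))))),
  t false 1 (a (c (a (b (a (d (c (f (b (a e)))))))))), t false 1 (a (c (a (b (d (c (f (b (a (d
  e)))))))))), t true 1 (b (a (c (a (b (a (d (c (f (b e)))))))))), t true 1 (b (a (c (a (d (c (f (b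
  (a (d e)))))))))), t true 1 (c (a (b (f (b (c (a (d (c (f e)))))))))), t true 1 (c (b (f (a (c (a
  (b (d (c (f e)))))))))), t false 1 (c (b (f (b (a (c (a (d (c (f e)))))))))), t true 1 (c (f (a (b
  (c (a (b (f (d (c e)))))))))), t false 1 (c (f (a (c (a (b (d (c (f (d e))))))))))])) nil nil (hit
  [t false 1 (c (f (a (c (a (d (c (f (d e)))))))))])) (br (br nil nil nil nil (hit [t false 1 (b (c
  (f (a (b (a (d (c (f (d e)))))))))), t false 1 (c (f (a (b (c (a (d (c (f (d e))))))))))])) nil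
  nil nil (hit [t false 1 (a (c (a (b (f (b (a (d (c e))))))))), t true 1 (b (c (a (b (a (d (c (f (b
  e))))))))), t true 1 (b (c (a (d (c (f (b (a (d e))))))))), t false 1 (c (a (b (f (b (c (a (d (c
  e))))))))), t false 1 (c (a (f (b (c (a (d (c (f e))))))))), t false 1 (c (b (f (a (c (a (b (d (c
  e))))))))), t true 1 (c (b (f (b (a (c (a (d (c e))))))))), t false 1 (c (f (a (c (a (b (f (d (c
  e)))))))))])) nil nil (hit [t false 1 (c (a (f (c (a (d (c (f e)))))))), t false 1 (c (f (a (c (a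
  (f (d (c e))))))))])) nil nil) (br (br nil nil (br (br nil nil nil nil (hit [t false 1 (b (f (a (c
  (a (b (a (d (c (f e)))))))))), t true 1 (c (b (f (a (c (a (b (d (c (f e)))))))))), t true 1 (c (f
  (a (b (c (a (b (f (d (c e)))))))))), t false 1 (c (f (a (c (a (b (d (c (f (d e)))))))))), t false
  1 (f (a (b (c (a (b (f (a (d (c e)))))))))), t true 1 (f (a (c (a (b (a (d (c (f (a e))))))))))]))
  nil nil nil nil) nil nil) nil nil nil nil) (br (br nil (br (br nil nil nil nil (hit [t true 1 (b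
  (c (f (a (b (a (c (d (c (f e)))))))))), t false 1 (b (f (a (b (a (c (d (c (f (d e)))))))))), t
  false 1 (c (f (a (b (a (c (a (d (c (f e)))))))))), t true 1 (f (a (b (a (c (a (d (c (f (a
  e))))))))))])) nil nil nil (hit [t true 1 (b (a (c (a (d (c (f (b (a e))))))))), t true 1 (b (a (c
  (b (a (d (c (f (b e))))))))), t true 1 (b (a (c (d (c (f (b (a (d e))))))))), t false 1 (c (f (b
  (a (c (a (d (c (f e))))))))), t true 1 (f (b (a (c (a (d (c (f (a e)))))))))])) nil nil (hit [t
  false 1 (c (f (a (c (a (d (c (f e)))))))), t true 1 (f (a (c (a (d (c (f (a e))))))))])) (br (br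
  nil nil nil nil (hit [t false 1 (b (c (f (a (b (a (d (c (f e))))))))), t false 1 (c (f (a (b (c (a
  (d (c (f e))))))))), t true 1 (f (a (b (c (a (d (c (f (a e)))))))))])) nil nil nil (hit [t true 1
  (b (c (a (d (c (f (b (a e)))))))), t true 1 (b (c (b (a (d (c (f (b e)))))))), t true 1 (b (c (d
  (c (f (b (a (d e)))))))), t false 1 (c (f (b (c (a (d (c (f e)))))))), t true 1 (f (b (c (a (d (c
  (f (a e))))))))])) nil nil (hit [t false 1 (c (f (c (a (d (c (f e))))))), t true 1 (f (c (a (d (c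
  (f (a e)))))))])) nil nil) nil) nil nil))

def R42 : R := (br (br nil nil (br nil nil nil (hit [t true 1 (a (b (d (c (a e))))), t true 1 (b (d
  (c (a (b e))))), t true 1 (c (a (b (d (c e)))))]) nil) (hit [t true 1 (a (b (d (a e)))), t true 1
  (b (d (a (b e))))]) (br nil nil (br nil nil nil (br (br nil nil (br nil nil nil nil (hit [t false
  1 (c (a (f (c (a (b (d (c (f e))))))))), t false 1 (c (f (a (c (a (f (b (d (c e))))))))), t true 1
  (f (c (a (b (d (c (f (a (b e)))))))))])) nil nil) (br (br nil nil (br nil nil nil nil (hit [t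
  false 1 (c (a (b (f (c (a (b (d (c (f e)))))))))), t false 1 (c (a (f (b (c (a (b (f (d (c
  e)))))))))), t false 1 (c (f (a (b (c (a (f (b (d (c e))))))))))])) nil nil) nil (br (br nil nil
  nil nil (hit [t true 1 (b (f (a (c (a (b (a (d (c (f e)))))))))), t false 1 (c (b (f (a (c (a (b
  (d (c (f e)))))))))), t false 1 (c (f (a (b (c (a (b (f (d (c e)))))))))), t true 1 (f (a (b (c (a
  (b (f (a (d (c e)))))))))), t false 1 (f (a (c (a (b (a (d (c (f (a e))))))))))])) nil nil nil
  (hit [t true 1 (b (c (f (a (b (a (f (d (c e))))))))), t true 1 (b (f (c (a (b (a (d (c (f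
  e))))))))), t false 1 (c (b (f (c (a (b (d (c (f e))))))))), t false 1 (c (f (b (c (a (b (f (d (c
  e))))))))), t true 1 (f (b (c (a (b (f (a (d (c e))))))))), t false 1 (f (c (a (b (a (d (c (f (a
  e)))))))))])) nil nil) (br (br nil (br nil nil nil nil (hit [t true 1 (b (a (c (f (a (b (a (d (c
  (f e)))))))))), t false 1 (c (f (b (a (c (a (b (d (c (f e)))))))))), t true 1 (f (b (a (c (a (b (d
  (c (f (a e)))))))))), t true 1 (f (b (a (c (b (d (c (f (a (b e))))))))))])) nil nil (hit [t false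
  1 (c (f (a (c (a (b (d (c (f e))))))))), t true 1 (f (a (c (a (b (d (c (f (a e))))))))), t true 1
  (f (a (c (b (d (c (f (a (b e)))))))))])) nil nil nil (hit [t false 1 (c (f (c (a (b (d (c (f
  e)))))))), t true 1 (f (c (a (b (d (c (f (a e)))))))), t true 1 (f (c (b (d (c (f (a (b
  e))))))))])) nil nil) nil) nil nil)) nil (br (br nil nil nil (hit [t true 1 (a (c (b (d (a e))))),
  t true 1 (b (d (a (c (b e))))), t true 1 (c (b (d (a (c e)))))]) nil) (br nil nil nil nil (br (br
  nil nil nil (br (br nil nil nil nil (hit [t false 1 (a (b (c (f (a (d (a (f (b e))))))))), t true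
  1 (a (b (f (a (d (a (f (c (b e))))))))), t true 1 (a (c (b (f (a (d (a (f (c e))))))))), t false 1
  (a (c (f (a (d (a (f (b (c e))))))))), t false 1 (a (f (a (b (c (b (d (a (f e))))))))), t true 1
  (a (f (a (d (a (b (c (b (f e))))))))), t false 1 (a (f (a (d (a (f (b (c (b e))))))))), t false 1
  (b (c (f (a (b (d (a (f (b e))))))))), t true 1 (b (f (a (b (d (a (f (c (b e))))))))), t true 1 (b
  (f (a (c (b (d (a (f (c e))))))))), t true 1 (c (b (f (a (c (d (a (f (c e))))))))), t false 1 (c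
  (f (a (b (c (d (a (f (b e))))))))), t false 1 (c (f (a (c (d (a (f (b (c e))))))))), t true 1 (f
  (a (b (c (b (a (f (d (a e))))))))), t true 1 (f (a (b (c (b (d (a (f (d e))))))))), t false 1 (f
  (a (d (a (b (c (b (f (d e)))))))))])) (br (br nil nil nil nil (hit [t false 1 (a (b (c (f (a (d (a
  (f (b (c e)))))))))), t false 1 (a (b (f (a (b (c (b (d (a (f e)))))))))), t true 1 (a (b (f (a (d
  (a (b (c (b (f e)))))))))), t false 1 (a (b (f (a (d (a (f (b (c (b e)))))))))), t true 1 (a (f (a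
  (b (a (f (c (b (d (a e)))))))))), t false 1 (b (c (f (a (b (d (a (f (b (c e)))))))))), t true 1 (b
  (f (a (b (d (a (b (c (b (f e)))))))))), t false 1 (b (f (a (b (d (a (f (b (c (b e)))))))))), t
  false 1 (c (f (a (b (c (d (a (f (b (c e)))))))))), t true 1 (f (a (b (c (b (a (f (d (a (c
  e)))))))))), t true 1 (f (a (b (c (b (d (a (f (d (c e)))))))))), t false 1 (f (a (b (d (a (b (c (b
  (f (d e))))))))))])) nil nil nil nil) (br (br nil nil nil nil (hit [t true 1 (a (c (b (f (a (d (a
  (f (c (b e)))))))))), t false 1 (a (c (f (a (b (c (b (d (a (f e)))))))))), t true 1 (a (c (f (a (d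
  (a (b (c (b (f e)))))))))), t false 1 (a (c (f (a (d (a (f (b (c (b e)))))))))), t true 1 (a (f (a
  (b (c (a (f (b (d (a e)))))))))), t true 1 (b (f (a (c (b (d (a (f (c (b e)))))))))), t true 1 (c
  (b (f (a (c (d (a (f (c (b e)))))))))), t true 1 (c (f (a (c (d (a (b (c (b (f e)))))))))), t
  false 1 (c (f (a (c (d (a (f (b (c (b e)))))))))), t true 1 (f (a (b (c (b (a (f (d (a (b
  e)))))))))), t true 1 (f (a (b (c (b (d (a (f (d (b e)))))))))), t false 1 (f (a (c (d (a (b (c (b
  (f (d e))))))))))])) nil nil nil nil) nil nil) nil) nil nil nil nil)) nil (hit [t true 1 (b (d (c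
  (b e)))), t true 1 (c (b (d (c e))))]) (br (br nil nil nil (br (br nil nil nil nil (hit [t false 1
  (a (f (a (c (b (d (a (f e)))))))), t true 1 (f (a (b (d (a (f (c (b e)))))))), t true 1 (f (a (c
  (b (d (a (f (c e))))))))])) (br (br nil nil nil nil (hit [t false 1 (a (b (f (a (c (b (d (a (f
  e))))))))), t false 1 (b (f (a (b (c (b (d (a (f e))))))))), t true 1 (f (a (b (a (f (c (b (d (a
  e))))))))), t true 1 (f (a (b (c (b (d (a (f (c e)))))))))])) nil (br (br nil nil nil nil (hit [t
  false 1 (a (c (b (f (a (c (b (d (a (f e)))))))))), t true 1 (a (c (f (a (c (b (a (f (d (a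
  e)))))))))), t false 1 (a (f (a (c (a (f (b (a (d (a e))))))))))])) nil nil nil nil) nil nil) (br
  (br nil nil nil nil (hit [t false 1 (a (c (f (a (c (b (d (a (f e))))))))), t true 1 (a (f (a (c (a
  (f (b (d (a e))))))))), t true 1 (f (a (c (b (d (a (f (c (b e)))))))))])) (br (br nil nil nil nil
  (hit [t false 1 (a (b (c (f (a (c (b (d (a (f e)))))))))), t true 1 (a (b (f (a (c (a (f (b (d (a
  e)))))))))), t false 1 (b (c (f (a (b (c (b (d (a (f e)))))))))), t true 1 (b (f (a (b (c (a (f (b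
  (d (a e)))))))))), t false 1 (f (a (b (a (f (c (a (b (d (a e)))))))))), t true 1 (f (a (b (c (b (d
  (a (f (c (b e))))))))))])) nil nil nil nil) nil nil nil) nil nil) nil) (br (br nil nil nil (br (br
  nil nil nil nil (hit [t false 1 (a (b (f (a (c (a (d (a (b e))))))))), t true 1 (a (b (f (a (c (b
  (a (d (a e))))))))), t true 1 (a (d (b (f (a (c (b (a (d e))))))))), t false 1 (a (f (a (c (a (d
  (a (b (f e))))))))), t true 1 (a (f (a (c (b (a (d (a (f e))))))))), t false 1 (b (f (a (b (a (d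
  (a (c (b e))))))))), t true 1 (b (f (a (c (a (d (a (b (c e))))))))), t false 1 (b (f (a (c (b (a
  (d (a (c e))))))))), t true 1 (b (f (a (d (a (b (c (b (d e))))))))), t false 1 (d (b (f (a (b (a
  (d (c (b e))))))))), t false 1 (d (b (f (a (c (b (a (d (c e))))))))), t false 1 (f (a (b (a (d (a
  (f (c (b e))))))))), t true 1 (f (a (c (a (d (a (b (f (c e))))))))), t false 1 (f (a (c (b (a (d
  (a (f (c e)))))))))])) nil nil nil nil) nil) nil nil nil nil) (br (br nil nil nil (br (br nil nil
  nil nil (hit [t true 1 (a (b (d (c (f (a (c (a (b e))))))))), t true 1 (a (c (f (a (c (a (b (d (a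
  e))))))))), t true 1 (a (d (c (f (a (c (a (b (d e))))))))), t true 1 (a (f (a (c (a (b (d (a (f
  e))))))))), t true 1 (b (d (c (f (a (b (c (a (b e))))))))), t false 1 (c (f (a (c (a (b (d (a (c
  e))))))))), t false 1 (d (c (f (a (c (a (b (d (c e))))))))), t true 1 (f (a (b (d (a (c (f (c (b
  e))))))))), t false 1 (f (a (c (a (b (d (a (f (c e)))))))))])) (br (br nil nil nil nil (hit [t
  true 1 (a (b (c (f (a (c (a (b (d (a e)))))))))), t true 1 (a (b (d (c (f (a (c (a (b (d
  e)))))))))), t true 1 (a (b (f (a (c (a (b (d (a (f e)))))))))), t true 1 (b (c (f (a (b (c (a (b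
  (d (a e)))))))))), t true 1 (b (d (c (f (a (b (c (a (b (d e)))))))))), t true 1 (b (f (a (b (c (a
  (b (d (a (f e)))))))))), t false 1 (c (f (a (b (c (a (b (d (a (c e)))))))))), t false 1 (d (c (f
  (a (b (c (a (b (d (c e)))))))))), t true 1 (f (a (b (a (c (f (c (b (d (a e)))))))))), t false 1 (f
  (a (b (c (a (b (d (a (f (c e))))))))))])) nil nil nil nil) nil nil nil) nil) (br (br nil nil nil
  (br (br nil nil nil nil (hit [t false 1 (a (b (c (f (a (c (a (d (a (b e)))))))))), t true 1 (a (b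
  (c (f (a (c (b (a (d (a e)))))))))), t false 1 (a (c (f (a (b (a (d (a (b (c e)))))))))), t true 1
  (a (c (f (a (c (b (a (d (a (b e)))))))))), t true 1 (a (d (b (c (f (a (c (b (a (d e)))))))))), t
  false 1 (a (f (a (b (a (d (a (b (c (f e)))))))))), t true 1 (a (f (a (c (b (a (d (a (b (f
  e)))))))))), t false 1 (b (c (f (a (b (a (d (a (c (b e)))))))))), t true 1 (b (c (f (a (c (a (d (a
  (b (c e)))))))))), t false 1 (b (c (f (a (c (b (a (d (a (c e)))))))))), t true 1 (b (c (f (a (d (a
  (b (c (b (d e)))))))))), t false 1 (c (f (a (c (b (a (d (a (b (c e)))))))))), t false 1 (d (b (c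
  (f (a (b (a (d (c (b e)))))))))), t false 1 (d (b (c (f (a (c (b (a (d (c e)))))))))), t true 1 (f
  (a (b (a (d (a (b (c (f (c e)))))))))), t false 1 (f (a (b (a (d (a (c (f (c (b e)))))))))), t
  false 1 (f (a (c (b (a (d (a (b (f (c e))))))))))])) nil nil nil nil) nil) nil nil nil nil) nil
  nil nil) nil nil)) (hit [t true 1 (b (d (b e)))]) (br (br nil nil (br (br nil nil nil (br (br nil
  nil (br nil nil nil nil (hit [t false 1 (a (b (d (f (b (c (a (b (a (c e)))))))))), t false 1 (a (d
  (f (c (a (b (d (a (c (a e)))))))))), t false 1 (a (f (c (a (b (d (a (c (a (f e)))))))))), t true 1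
  (b (d (f (b (a (c (a (b (a (c e)))))))))), t true 1 (c (a (b (d (f (b (a (c (b (a e)))))))))), t
  false 1 (c (a (d (f (c (b (d (a (c (a e)))))))))), t false 1 (c (a (f (c (b (d (a (c (a (f
  e)))))))))), t true 1 (d (f (c (a (b (d (a (c (a (b e)))))))))), t true 1 (d (f (c (a (d (a (c (a
  (b (d e)))))))))), t false 1 (f (a (c (a (b (d (f (b (a (c e)))))))))), t false 1 (f (a (c (a (d
  (f (b (d (a (c e)))))))))), t true 1 (f (c (a (b (d (a (c (a (f (b e))))))))))])) nil nil) nil (br
  nil nil nil nil (hit [t false 1 (a (b (d (f (b (c (a (b (a e))))))))), t true 1 (a (d (f (c (a (b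
  (d (c (a e))))))))), t true 1 (b (d (f (b (a (c (a (b (a e))))))))), t false 1 (c (a (b (d (f (b
  (c (b (a e))))))))), t true 1 (c (a (d (f (c (b (d (c (a e))))))))), t true 1 (c (b (d (f (b (a (c
  (b (a e))))))))), t false 1 (c (d (f (c (b (d (a (c (a e))))))))), t false 1 (c (f (c (b (d (a (c
  (a (f e))))))))), t true 1 (d (f (c (b (d (a (c (a (b e))))))))), t true 1 (d (f (c (d (a (c (a (b
  (d e))))))))), t false 1 (f (a (c (a (b (d (f (b (a e))))))))), t false 1 (f (a (c (a (d (f (b (d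
  (a e))))))))), t true 1 (f (c (b (d (a (c (a (f (b e)))))))))])) nil nil) nil) nil nil (br (br nil
  nil (br nil nil nil nil (hit [t true 1 (a (c (a (b (d (a (f (a (c e))))))))), t false 1 (a (c (a
  (b (d (c (a (f (a e))))))))), t false 1 (a (f (c (a (b (d (c (a (f e))))))))), t false 1 (c (a (b
  (d (a (f (a (c (b e))))))))), t true 1 (c (a (b (d (c (a (f (a (b e))))))))), t false 1 (c (a (d
  (a (f (a (c (b (d e))))))))), t true 1 (c (a (d (c (a (f (a (b (d e))))))))), t false 1 (c (a (f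
  (a (c (b (d (c (f e))))))))), t true 1 (f (c (a (b (d (c (a (f (b e)))))))))])) nil (hit [t false
  1 (a (f (a (b (d (c (a (f e)))))))), t true 1 (f (a (b (d (c (a (f (b e)))))))), t true 1 (f (a (c
  (a (f (b (d (c e))))))))])) (br (br nil nil nil nil (hit [t false 1 (a (b (f (a (b (d (c (a (f
  e))))))))), t true 1 (a (f (a (b (a (f (d (c (a e))))))))), t true 1 (f (a (b (c (a (f (b (d (c
  e)))))))))])) nil nil nil nil) nil nil nil) nil) (br (br nil (br (br nil nil nil nil (hit [t false
  1 (a (f (a (b (a (d (a (f (d e)))))))))])) nil nil nil nil) nil nil (hit [t false 1 (a (f (a (b (d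
  (a (f e))))))), t true 1 (f (a (b (d (a (f (b e)))))))])) (br (br nil nil nil nil (hit [t false 1
  (a (b (f (a (b (d (a (f e)))))))), t true 1 (a (f (a (b (a (f (d (a e))))))))])) nil (br (br nil
  nil nil nil (hit [t false 1 (a (c (b (f (a (b (d (a (f e))))))))), t true 1 (a (c (f (a (b (a (f
  (d (a e))))))))), t false 1 (c (b (f (a (c (b (d (a (f e))))))))), t true 1 (c (f (a (c (b (a (f
  (d (a e))))))))), t false 1 (f (a (c (a (f (b (a (d (a e)))))))))])) nil nil nil nil) nil nil) (br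
  (br nil (br (br nil nil nil nil (hit [t true 1 (a (c (f (a (b (a (c (d (a (f e)))))))))), t false
  1 (a (f (a (b (a (c (a (f (d (a e)))))))))), t false 1 (a (f (a (b (a (c (d (a (f (d e)))))))))),
  t false 1 (c (f (a (b (a (c (b (d (a (f e)))))))))), t true 1 (f (a (b (a (c (a (f (b (d (a
  e)))))))))), t true 1 (f (a (b (a (c (b (d (a (f (b e))))))))))])) nil nil nil nil) nil nil (hit
  [t false 1 (a (c (f (a (b (d (a (f e)))))))), t false 1 (c (f (a (c (b (d (a (f e)))))))), t true
  1 (f (a (c (a (f (b (d (a e)))))))), t true 1 (f (a (c (b (d (a (f (b e))))))))])) nil nil nil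
  nil) nil nil) nil) (br (br nil nil (br nil nil nil (br (br nil nil (br nil nil nil nil (hit [t
  false 1 (a (b (c (a (b (a (d (c (f (a e)))))))))), t false 1 (a (b (f (b (c (a (b (a (d (c
  e)))))))))), t true 1 (a (b (f (c (a (b (a (d (c (a e)))))))))), t false 1 (a (c (a (b (a (d (a (f
  (a (c e)))))))))), t true 1 (a (c (a (b (a (d (c (a (f (a e)))))))))), t false 1 (a (d (b (f (b (c
  (a (b (a (d e)))))))))), t false 1 (a (f (b (c (a (b (a (d (c (f e)))))))))), t true 1 (a (f (c (a
  (b (a (d (c (a (f e)))))))))), t true 1 (b (c (a (b (a (d (c (f (a (b e)))))))))), t true 1 (b (f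
  (b (c (a (b (a (d (c (b e)))))))))), t false 1 (b (f (c (a (b (a (d (c (a (b e)))))))))), t true 1
  (c (a (b (a (d (a (f (a (c (b e)))))))))), t false 1 (c (a (b (a (d (c (a (f (a (b e)))))))))), t
  false 1 (c (a (b (f (a (b (c (b (d (c e)))))))))), t false 1 (c (a (d (a (b (f (a (c (b (d
  e)))))))))), t false 1 (c (a (d (b (f (a (b (c (b (d e)))))))))), t true 1 (c (a (d (c (a (b (f (a
  (b (d e)))))))))), t false 1 (c (a (f (a (b (c (b (d (c (f e)))))))))), t true 1 (d (b (f (b (c (a
  (b (a (d (b e)))))))))), t true 1 (f (b (c (a (b (a (d (c (f (b e)))))))))), t false 1 (f (c (a (b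
  (a (d (c (a (f (b e))))))))))])) nil nil) nil nil nil nil) nil) (br (br nil nil nil nil (hit [t
  true 1 (a (b (f (a (b (a (d (a e)))))))), t true 1 (a (d (b (f (a (b (a (d e)))))))), t true 1 (a
  (f (a (b (a (d (a (f e)))))))), t false 1 (b (f (a (b (a (d (a (b e)))))))), t false 1 (d (b (f (a
  (b (a (d (b e)))))))), t false 1 (f (a (b (a (d (a (f (b e))))))))])) nil (br (br nil nil nil nil
  (hit [t true 1 (a (c (b (f (a (b (a (d (a e))))))))), t true 1 (a (c (d (b (f (a (b (a (d
  e))))))))), t true 1 (a (c (f (a (b (a (d (a (f e))))))))), t false 1 (b (f (a (c (b (a (d (a (b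
  e))))))))), t false 1 (c (b (f (a (c (a (d (a (b e))))))))), t true 1 (c (b (f (a (c (b (a (d (a
  e))))))))), t true 1 (c (d (b (f (a (c (b (a (d e))))))))), t false 1 (c (f (a (c (a (d (a (b (f
  e))))))))), t true 1 (c (f (a (c (b (a (d (a (f e))))))))), t false 1 (d (b (f (a (c (a (d (b (a
  e))))))))), t false 1 (d (b (f (a (c (b (a (d (b e))))))))), t true 1 (f (a (c (a (b (f (b (d (a
  e))))))))), t true 1 (f (a (c (a (d (a (b (f (b e))))))))), t false 1 (f (a (c (a (d (b (f (b (a
  e))))))))), t false 1 (f (a (c (b (a (d (a (f (b e)))))))))])) nil nil nil nil) nil nil) nil) nil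
  (br (br nil nil nil (br (br nil nil nil nil (hit [t true 1 (a (b (f (a (b (a (c (d (a e))))))))),
  t true 1 (a (b (f (a (b (c (d (a (c e))))))))), t false 1 (a (b (f (a (c (d (a (c (b e))))))))), t
  false 1 (a (c (b (f (a (b (d (a (c e))))))))), t true 1 (a (c (d (b (f (a (b (a (c e))))))))), t
  true 1 (a (d (b (f (a (b (a (c (d e))))))))), t true 1 (a (f (a (b (a (c (d (a (f e))))))))), t
  true 1 (a (f (a (b (c (d (a (c (f e))))))))), t false 1 (a (f (a (c (d (a (c (b (f e))))))))), t
  false 1 (b (f (a (b (a (c (d (a (b e))))))))), t false 1 (b (f (a (b (c (d (a (c (b e))))))))), t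
  false 1 (c (b (f (a (c (b (d (a (c e))))))))), t false 1 (c (d (b (f (a (b (a (c (b e))))))))), t
  false 1 (d (b (f (a (b (a (c (d (b e))))))))), t false 1 (f (a (b (a (c (d (a (f (b e))))))))), t
  false 1 (f (a (b (c (d (a (c (f (b e))))))))), t true 1 (f (a (c (d (a (c (b (f (b e)))))))))]))
  nil (br (br nil nil nil nil (hit [t true 1 (a (c (b (f (a (b (a (c (d (a e)))))))))), t true 1 (a
  (c (b (f (a (b (c (d (a (c e)))))))))), t false 1 (a (c (b (f (a (c (d (a (c (b e)))))))))), t
  true 1 (a (c (d (b (f (a (b (a (c (d e)))))))))), t true 1 (a (c (f (a (b (a (c (d (a (f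
  e)))))))))), t true 1 (a (c (f (a (b (c (d (a (c (f e)))))))))), t false 1 (a (c (f (a (c (d (a (c
  (b (f e)))))))))), t true 1 (b (f (a (b (a (c (b (d (a (b e)))))))))), t true 1 (b (f (a (b (c (b
  (d (a (c (b e)))))))))), t false 1 (c (b (f (a (b (a (c (b (d (a e)))))))))), t false 1 (c (b (f
  (a (b (c (b (d (a (c e)))))))))), t false 1 (c (d (b (f (a (b (a (c (b (d e)))))))))), t false 1
  (c (f (a (b (a (c (b (d (a (f e)))))))))), t false 1 (c (f (a (b (c (b (d (a (c (f e)))))))))), t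
  true 1 (d (b (f (a (b (a (c (b (d (b e)))))))))), t true 1 (f (a (b (a (c (b (d (a (f (b
  e)))))))))), t true 1 (f (a (b (c (b (d (a (c (f (b e))))))))))])) nil nil nil nil) nil nil) nil)
  nil nil nil nil) nil nil) (br (br nil nil nil (br (br nil (br (br nil nil nil nil (hit [t true 1
  (a (c (f (a (b (a (c (d (a (c e)))))))))), t false 1 (a (f (a (b (a (d (a (c (f (d e)))))))))), t
  false 1 (c (f (a (b (a (c (b (d (a (c e))))))))))])) nil (br nil nil nil nil (hit [t true 1 (a (f
  (c (a (b (a (d (a (c (f e)))))))))), t false 1 (c (b (a (f (c (b (d (a (c (f e)))))))))), t false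
  1 (c (f (a (c (b (a (f (d (a (c e)))))))))), t false 1 (c (f (b (a (c (b (f (d (a (c e)))))))))),
  t true 1 (f (a (c (a (f (b (a (d (a (c e)))))))))), t false 1 (f (c (a (b (a (d (a (c (f (b
  e))))))))))])) nil nil) (br nil (br nil nil nil nil (hit [t false 1 (a (b (f (b (c (a (b (d (a (c
  e)))))))))), t false 1 (a (c (b (f (a (b (a (d (a (c e)))))))))), t false 1 (a (f (b (c (a (b (d
  (a (c (f e)))))))))), t true 1 (b (f (b (a (c (a (b (d (a (c e)))))))))), t false 1 (c (a (b (f (b
  (c (b (d (a (c e)))))))))), t false 1 (c (a (f (b (c (b (d (a (c (f e)))))))))), t true 1 (c (b (f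
  (b (a (c (b (d (a (c e)))))))))), t false 1 (f (a (c (a (b (f (b (d (a (c e)))))))))), t true 1 (f
  (b (c (a (b (d (a (c (f (b e))))))))))])) nil nil (hit [t false 1 (a (f (c (a (b (d (a (c (f
  e))))))))), t false 1 (c (a (f (c (b (d (a (c (f e))))))))), t false 1 (f (a (c (a (f (b (d (a (c
  e))))))))), t true 1 (f (c (a (b (d (a (c (f (b e)))))))))])) nil (hit [t false 1 (a (c (f (a (b
  (d (a (c e)))))))), t false 1 (a (f (a (b (d (a (c (f e)))))))), t false 1 (c (f (a (c (b (d (a (c
  e)))))))), t true 1 (f (a (b (d (a (c (f (b e))))))))])) (br (br nil nil (br nil nil nil nil (hit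
  [t false 1 (a (b (f (c (a (b (d (a (c (f e)))))))))), t false 1 (a (f (b (c (a (b (f (d (a (c
  e)))))))))), t true 1 (a (f (c (a (b (a (c (f (d (a e)))))))))), t false 1 (c (a (b (f (c (b (d (a
  (c (f e)))))))))), t false 1 (c (a (f (a (c (b (a (f (d (a e)))))))))), t false 1 (c (a (f (b (a
  (c (b (f (d (a e)))))))))), t false 1 (c (a (f (b (c (b (f (d (a (c e)))))))))), t false 1 (f (a
  (b (c (a (f (b (d (a (c e)))))))))), t true 1 (f (a (c (a (f (b (a (c (d (a e))))))))))])) nil
  (hit [t false 1 (a (b (c (f (a (b (d (a (c e))))))))), t false 1 (a (b (f (a (b (d (a (c (f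
  e))))))))), t true 1 (a (c (f (a (b (a (c (d (a e))))))))), t true 1 (a (f (a (b (a (c (f (d (a
  e))))))))), t false 1 (c (f (a (b (a (c (b (d (a e))))))))), t false 1 (c (f (a (b (c (b (d (a (c
  e)))))))))])) nil (br nil nil nil nil (hit [t false 1 (c (b (f (c (b (d (a (c (f e))))))))), t
  false 1 (c (f (a (c (b (a (f (d (a e))))))))), t false 1 (c (f (b (a (c (b (f (d (a e))))))))), t
  false 1 (c (f (b (c (b (f (d (a (c e))))))))), t true 1 (f (a (c (a (f (b (a (d (a e)))))))))]))
  nil nil) (br (br nil nil nil nil (hit [t false 1 (a (c (f (a (b (d (a (c (f e))))))))), t false 1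
  (c (f (a (c (b (d (a (c (f e))))))))), t true 1 (f (a (c (b (d (a (c (f (b e)))))))))])) (br (br
  nil nil nil nil (hit [t false 1 (a (b (c (f (a (b (d (a (c (f e)))))))))), t false 1 (c (f (a (b
  (c (b (d (a (c (f e)))))))))), t false 1 (f (a (b (a (c (a (f (b (d (a e)))))))))), t true 1 (f (a
  (b (c (b (d (a (c (f (b e))))))))))])) nil nil nil (hit [t false 1 (a (b (f (b (c (a (b (d (a
  e))))))))), t false 1 (a (c (b (f (a (b (a (d (a e))))))))), t true 1 (b (f (b (a (c (a (b (d (a
  e))))))))), t false 1 (c (a (b (f (b (c (b (d (a e))))))))), t true 1 (c (b (f (b (a (c (b (d (a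
  e))))))))), t false 1 (c (f (b (c (b (d (a (c (f e))))))))), t false 1 (f (a (c (a (b (f (b (d (a
  e))))))))), t true 1 (f (b (c (b (d (a (c (f (b e)))))))))])) nil nil (hit [t false 1 (c (f (c (b
  (d (a (c (f e)))))))), t false 1 (f (a (c (a (f (b (d (a e)))))))), t true 1 (f (c (b (d (a (c (f
  (b e))))))))])) nil nil) nil) (br (br nil nil nil (br (br nil nil nil nil (hit [t true 1 (a (b (c
  (f (a (b (a (d (a e))))))))), t true 1 (a (c (f (a (b (a (d (a (c e))))))))), t true 1 (a (d (b (c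
  (f (a (b (a (d e))))))))), t true 1 (a (f (a (b (a (d (a (c (f e))))))))), t false 1 (b (c (f (a
  (b (a (d (a (b e))))))))), t false 1 (c (f (a (b (a (d (a (c (b e))))))))), t true 1 (c (f (a (d
  (a (b (c (b (d e))))))))), t false 1 (d (b (c (f (a (b (a (d (b e))))))))), t false 1 (f (a (b (a
  (d (a (c (f (b e)))))))))])) nil nil nil nil) nil) nil nil nil nil) nil (br (br nil (br nil nil
  (br nil (br nil nil nil nil (hit [t true 1 (a (b (c (a (b (a (d (c (f (a e)))))))))), t true 1 (a
  (b (c (a (b (d (c (f (a (d e)))))))))), t true 1 (a (b (f (b (c (a (b (a (d (c e)))))))))), t true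
  1 (a (f (b (c (a (b (a (d (c (f e)))))))))), t false 1 (b (a (c (b (a (f (a (b (d (c e)))))))))),
  t false 1 (b (c (a (b (a (d (c (f (a (b e)))))))))), t true 1 (b (c (b (a (d (c (f (a (b (d
  e)))))))))), t false 1 (b (f (b (a (c (a (b (a (d (c e)))))))))), t true 1 (c (a (b (f (b (c (b (a
  (d (c e)))))))))), t true 1 (c (a (f (a (b (c (b (d (c (f e)))))))))), t false 1 (c (b (a (f (a (c
  (b (d (c (f e)))))))))), t false 1 (c (b (f (b (a (c (b (a (d (c e)))))))))), t false 1 (c (f (a
  (b (c (b (d (c (f (d e)))))))))), t false 1 (c (f (b (a (c (b (a (f (d (c e)))))))))), t true 1 (f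
  (a (c (a (b (f (b (a (d (c e)))))))))), t false 1 (f (b (c (a (b (a (d (c (f (b e))))))))))])) nil
  nil nil) nil nil) nil nil nil) (br nil nil (br (br nil (br nil nil nil nil (hit [t true 1 (a (c (f
  (a (b (a (d (c (f (d e)))))))))), t false 1 (c (f (b (a (c (b (d (c (f (d e))))))))))])) nil nil
  (hit [t true 1 (a (b (c (a (b (f (a (d (c e))))))))), t false 1 (a (c (a (b (a (d (c (f (a
  e))))))))), t true 1 (a (c (b (d (c (f (a (b (d e))))))))), t false 1 (c (b (f (a (c (b (d (c (f
  e))))))))), t false 1 (c (f (a (b (c (b (f (d (c e)))))))))])) (br (br nil nil nil nil (hit [t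
  true 1 (a (b (c (a (b (d (c (f (a (d e)))))))))), t true 1 (a (b (c (b (d (c (f (a (b (d
  e)))))))))), t false 1 (c (f (a (b (c (b (d (c (f (d e))))))))))])) nil nil nil (hit [t false 1 (c
  (f (b (c (b (d (c (f (d e)))))))))])) nil nil (hit [t false 1 (c (b (f (c (b (d (c (f e)))))))), t
  false 1 (c (f (b (c (b (f (d (c e))))))))])) nil nil) (br (br nil (br (br nil nil nil nil (hit [t
  true 1 (a (c (f (a (b (a (c (d (c (f e)))))))))), t false 1 (a (f (a (b (a (c (d (c (f (d
  e)))))))))), t false 1 (c (f (a (b (a (c (b (d (c (f e)))))))))), t true 1 (f (a (b (a (c (b (d (c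
  (f (b e))))))))))])) nil nil nil (hit [t true 1 (a (c (f (a (b (a (d (c (f e))))))))), t false 1
  (c (f (b (a (c (b (d (c (f e))))))))), t true 1 (f (b (a (c (b (d (c (f (b e)))))))))])) nil nil
  (hit [t true 1 (a (c (a (b (d (c (f (a e)))))))), t true 1 (a (c (b (d (c (f (a (b e)))))))), t
  true 1 (a (c (d (c (f (a (b (d e)))))))), t false 1 (c (f (a (c (b (d (c (f e)))))))), t true 1 (f
  (a (c (b (d (c (f (b e))))))))])) (br (br nil nil nil nil (hit [t true 1 (a (b (c (a (b (d (c (f
  (a e))))))))), t true 1 (a (b (c (b (d (c (f (a (b e))))))))), t true 1 (a (b (c (d (c (f (a (b (d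
  e))))))))), t false 1 (c (f (a (b (c (b (d (c (f e))))))))), t true 1 (f (a (b (c (b (d (c (f (b
  e)))))))))])) nil nil nil (hit [t false 1 (c (f (b (c (b (d (c (f e)))))))), t true 1 (f (b (c (b
  (d (c (f (b e))))))))])) nil nil (hit [t false 1 (c (f (c (b (d (c (f e))))))), t true 1 (f (c (b
  (d (c (f (b e)))))))])) nil nil) nil) nil nil))

def R43 : R := (br (br nil (br nil nil nil (hit [t true 1 (a (c (d (b (a e))))), t true 1 (b (a (c
  (d (b e))))), t true 1 (c (d (b (a (c e)))))]) nil) nil (hit [t true 1 (a (c (d (a e)))), t true 1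
  (c (d (a (c e))))]) (br nil (br nil nil nil (br (br nil (br nil nil nil nil (hit [t false 1 (b (a
  (f (b (a (c (d (b (f e))))))))), t false 1 (b (f (a (b (a (f (c (d (b e))))))))), t true 1 (f (b
  (a (c (d (b (f (a (c e)))))))))])) nil nil nil) (br nil nil nil nil (hit [t false 1 (b (f (b (a (c
  (d (b (f e)))))))), t true 1 (f (b (a (c (d (b (f (a e)))))))), t true 1 (f (b (c (d (b (f (a (c
  e))))))))])) (br (br nil (br nil nil nil nil (hit [t false 1 (b (a (c (f (b (a (c (d (b (f
  e)))))))))), t true 1 (b (a (f (b (a (c (b (f (d (b e)))))))))), t true 1 (b (f (a (b (a (f (c (b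
  (d (b e))))))))))])) nil nil nil) (br nil nil nil nil (hit [t false 1 (b (c (f (b (a (c (d (b (f
  e))))))))), t true 1 (b (f (b (a (c (b (f (d (b e))))))))), t true 1 (c (f (b (a (c (a (d (b (f
  e))))))))), t false 1 (f (b (a (c (a (d (b (f (a e))))))))), t false 1 (f (b (a (c (b (f (a (d (b
  e)))))))))])) nil nil nil) nil nil) nil) nil nil nil)) (br (br nil nil nil (hit [t true 1 (a (b (c
  (d (a e))))), t true 1 (b (c (d (a (b e))))), t true 1 (c (d (a (b (c e)))))]) nil) nil nil (hit
  [t true 1 (b (c (d (b e)))), t true 1 (c (d (b (c e))))]) (br (br nil nil nil (br (br nil nil nil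
  nil (hit [t false 1 (a (f (a (b (c (d (a (f e)))))))), t true 1 (f (a (b (c (d (a (f (b e)))))))),
  t true 1 (f (a (c (d (a (f (b (c e))))))))])) (br (br nil nil nil nil (hit [t false 1 (a (b (f (a
  (b (c (d (a (f e))))))))), t true 1 (a (f (a (b (a (f (c (d (a e))))))))), t true 1 (f (a (b (c (d
  (a (f (b (c e)))))))))])) nil (br (br nil nil nil nil (hit [t false 1 (a (c (b (f (a (b (c (d (a
  (f e)))))))))), t true 1 (a (c (f (a (b (a (f (c (d (a e)))))))))), t true 1 (c (a (f (a (c (b (a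
  (f (d (a e)))))))))), t true 1 (c (b (f (a (b (c (b (d (a (f e)))))))))), t false 1 (c (f (a (b (a
  (f (c (b (d (a e)))))))))), t false 1 (f (a (b (c (b (d (a (f (b (c e)))))))))), t false 1 (f (a
  (c (a (f (b (a (c (d (a e))))))))))])) nil nil nil nil) nil nil) (br (br nil nil nil nil (hit [t
  false 1 (a (c (f (a (b (c (d (a (f e))))))))), t true 1 (a (f (a (b (c (a (f (d (a e))))))))), t
  true 1 (c (f (a (b (c (b (d (a (f e))))))))), t false 1 (f (a (b (c (a (f (b (d (a e))))))))), t
  false 1 (f (a (b (c (b (d (a (f (b e)))))))))])) (br (br nil nil nil nil (hit [t false 1 (a (b (c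
  (f (a (b (c (d (a (f e)))))))))), t true 1 (a (b (f (a (b (c (a (f (d (a e)))))))))), t false 1 (a
  (f (a (b (a (f (c (a (d (a e))))))))))])) nil nil nil nil) nil nil nil) nil nil) nil) (br (br nil
  nil nil (br (br nil nil nil nil (hit [t true 1 (a (b (f (a (b (a (c (d (a e))))))))), t true 1 (a
  (c (d (b (f (a (b (a (c e))))))))), t true 1 (a (d (b (f (a (b (a (c (d e))))))))), t true 1 (a (f
  (a (b (a (c (d (a (f e))))))))), t false 1 (b (f (a (b (a (c (d (a (b e))))))))), t false 1 (c (d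
  (b (f (a (b (a (c (b e))))))))), t false 1 (d (b (f (a (b (a (c (d (b e))))))))), t false 1 (f (a
  (b (a (c (d (a (f (b e))))))))), t true 1 (f (a (c (d (a (b (f (b (c e)))))))))])) nil (br (br nil
  nil nil nil (hit [t false 1 (a (b (f (a (b (a (c (a (d (a e)))))))))), t true 1 (a (c (d (b (f (a
  (b (a (c (d e)))))))))), t true 1 (a (c (f (a (b (a (c (d (a (f e)))))))))), t false 1 (a (f (a (b
  (a (c (a (f (d (a e)))))))))), t true 1 (b (f (a (b (a (c (a (b (d (a e)))))))))), t true 1 (b (f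
  (a (b (a (c (b (d (a (b e)))))))))), t false 1 (c (d (b (f (a (b (a (c (b (d e)))))))))), t false
  1 (c (f (a (b (a (c (b (d (a (f e)))))))))), t true 1 (d (b (f (a (b (a (c (b (d (b e)))))))))), t
  true 1 (f (a (b (a (c (a (f (b (d (a e)))))))))), t true 1 (f (a (b (a (c (b (d (a (f (b
  e))))))))))])) nil nil nil nil) nil nil) nil) nil (br (br nil nil nil (br (br nil nil nil nil (hit
  [t true 1 (a (b (f (a (b (c (a (d (a (c e)))))))))), t false 1 (a (b (f (a (c (a (d (a (c (b
  e)))))))))), t false 1 (a (c (b (f (a (b (a (d (a (c e)))))))))), t true 1 (a (c (b (f (a (b (c (a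
  (d (a e)))))))))), t true 1 (a (d (c (b (f (a (b (c (a (d e)))))))))), t true 1 (a (f (a (b (c (a
  (d (a (c (f e)))))))))), t false 1 (a (f (a (c (a (d (a (c (b (f e)))))))))), t false 1 (b (f (a
  (b (c (a (d (a (c (b e)))))))))), t true 1 (c (b (f (a (b (a (d (a (c (b e)))))))))), t false 1 (c
  (b (f (a (b (c (a (d (a (b e)))))))))), t false 1 (c (b (f (a (c (a (d (a (b (c e)))))))))), t
  false 1 (c (b (f (a (d (a (b (c (b (d e)))))))))), t false 1 (d (c (b (f (a (b (c (a (d (b
  e)))))))))), t false 1 (d (c (b (f (a (c (a (d (b (c e)))))))))), t false 1 (f (a (b (c (a (d (a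
  (c (f (b e)))))))))), t false 1 (f (a (c (a (d (a (b (f (b (c e)))))))))), t true 1 (f (a (c (a (d
  (a (c (b (f (b e))))))))))])) nil nil nil nil) nil) nil nil nil nil) nil nil) nil nil nil)) nil
  (hit [t true 1 (c (d (c e)))]) (br (br nil (br (br nil nil nil (br nil (br nil nil nil nil (hit [t
  true 1 (a (c (d (f (b (a (c (b (a e))))))))), t true 1 (a (d (f (b (a (c (d (b (a e))))))))), t
  true 1 (b (a (c (d (f (b (c (b (a e))))))))), t true 1 (b (a (d (f (b (c (d (b (a e))))))))), t
  false 1 (b (c (d (f (b (c (a (b (a e))))))))), t false 1 (b (d (f (b (c (d (a (b (a e))))))))), t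
  false 1 (b (f (b (c (d (a (b (a (f e))))))))), t true 1 (c (d (f (b (c (a (b (a (c e))))))))), t
  true 1 (d (f (b (c (d (a (b (a (c e))))))))), t true 1 (d (f (b (d (a (b (a (c (d e))))))))), t
  false 1 (f (a (b (a (c (d (f (c (a e))))))))), t false 1 (f (a (b (a (d (f (c (d (a e))))))))), t
  true 1 (f (b (c (d (a (b (a (f (c e)))))))))])) nil nil nil) nil) nil nil (br (br nil nil (br nil
  (br nil nil nil nil (hit [t false 1 (a (b (a (c (a (d (a (f (a (b e)))))))))), t true 1 (a (b (a
  (c (a (d (b (a (f (a e)))))))))), t false 1 (a (c (f (b (a (c (b (a (d (b e)))))))))), t true 1 (a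
  (f (b (a (c (a (d (b (a (f e)))))))))), t true 1 (b (a (c (a (d (a (f (a (b (c e)))))))))), t
  false 1 (b (a (c (a (d (b (a (f (a (c e)))))))))), t false 1 (b (a (c (f (b (c (b (a (d (b
  e)))))))))), t true 1 (b (c (a (b (a (f (a (c (d (b e)))))))))), t false 1 (b (c (a (d (a (f (a (b
  (c (d e)))))))))), t true 1 (b (c (a (d (b (a (f (a (c (d e)))))))))), t false 1 (b (c (a (f (a (b
  (c (d (b (f e)))))))))), t true 1 (b (c (f (b (c (a (b (a (d (b e)))))))))), t true 1 (b (f (b (c
  (a (b (a (f (d (b e)))))))))), t false 1 (c (f (b (c (a (b (a (c (d (b e)))))))))), t true 1 (f (a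
  (b (a (c (f (c (a (d (b e)))))))))), t false 1 (f (b (a (c (a (d (b (a (f (c e))))))))))])) nil
  nil nil) nil nil) nil nil nil nil) nil) (br nil (br nil nil nil (br nil (br nil nil nil nil (hit
  [t true 1 (a (b (d (b (f (a (c (a (d e))))))))), t true 1 (a (b (f (a (c (a (d (b (f e))))))))), t
  true 1 (a (f (a (b (a (d (b (c (a e))))))))), t false 1 (a (f (a (b (c (a (d (b (c e))))))))), t
  false 1 (a (f (b (a (c (a (b (d (b e))))))))), t true 1 (a (f (b (a (c (b (d (b (a e))))))))), t
  false 2 (a (f (b (c (a (b (d (b (c e))))))))), t true 1 (a (f (b (c (b (d (b (a (c e))))))))), t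
  false 1 (a (f (b (d (a (c (a (b (d e))))))))), t true 1 (b (a (f (a (b (c (a (d (b e))))))))), t
  true 1 (b (a (f (a (c (a (d (b (c e))))))))), t true 1 (b (a (f (b (c (a (b (d (b e))))))))), t
  true 1 (b (c (a (f (b (c (b (d (b e))))))))), t true 1 (b (d (a (f (a (b (c (a (d e))))))))), t
  true 1 (b (d (a (f (b (c (a (b (d e))))))))), t false 1 (b (d (b (a (f (a (c (a (d e))))))))), t
  true 1 (b (d (c (a (f (b (c (b (d e))))))))), t true 1 (b (f (a (b (c (a (d (b (f e))))))))), t
  true 1 (b (f (b (c (a (b (d (b (f e))))))))), t false 1 (c (a (f (b (c (b (d (b (c e))))))))), t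
  false 1 (d (a (f (a (b (c (a (d (c e))))))))), t false 1 (d (a (f (b (c (a (b (d (c e))))))))), t
  true 1 (d (b (a (f (a (c (a (d (c e))))))))), t false 1 (d (c (a (f (b (c (b (d (c e))))))))), t
  false 1 (f (a (b (c (a (d (b (f (c e))))))))), t false 1 (f (b (c (a (b (d (b (f (c e)))))))))]))
  nil nil nil) nil) nil nil nil) (br (br nil nil (br (br nil nil nil nil (hit [t false 1 (a (f (a (c
  (a (d (a (f (d e)))))))))])) nil nil nil nil) nil (hit [t false 1 (a (f (a (c (d (a (f e))))))), t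
  true 1 (f (a (c (d (a (f (c e)))))))])) (br (br nil nil (br (br nil nil nil nil (hit [t true 1 (a
  (b (c (f (a (c (a (b (d (a e)))))))))), t true 1 (a (b (f (a (c (a (b (d (a (f e)))))))))), t true
  1 (a (c (f (a (c (a (b (a (d (a e)))))))))), t false 1 (a (f (a (c (a (b (d (a (f (d e)))))))))),
  t true 1 (b (c (f (a (b (c (a (b (d (a e)))))))))), t true 1 (b (f (a (b (c (a (b (d (a (f
  e)))))))))), t false 1 (c (f (a (c (a (b (a (c (d (a e)))))))))), t true 1 (f (a (b (a (c (f (c (b
  (d (a e)))))))))), t false 1 (f (a (b (c (a (b (d (a (f (c e))))))))))])) nil nil nil nil) nil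
  (hit [t false 1 (a (b (f (a (c (d (a (f e)))))))), t false 1 (b (f (a (b (c (d (a (f e)))))))), t
  true 1 (f (a (b (a (f (c (d (a e)))))))), t true 1 (f (a (b (c (d (a (f (c e))))))))])) nil (br
  (br nil nil nil nil (hit [t false 1 (a (c (b (f (a (c (d (a (f e))))))))), t true 1 (a (f (a (c (b
  (a (f (d (a e))))))))), t true 1 (b (f (a (b (c (b (d (a (f e))))))))), t false 1 (f (a (b (a (f
  (c (b (d (a e))))))))), t false 1 (f (a (b (c (b (d (a (f (c e)))))))))])) nil nil nil nil) nil
  nil) (br (br nil nil nil nil (hit [t false 1 (a (c (f (a (c (d (a (f e)))))))), t true 1 (a (f (a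
  (c (a (f (d (a e))))))))])) (br (br nil nil nil nil (hit [t false 1 (a (b (c (f (a (c (d (a (f
  e))))))))), t true 1 (a (b (f (a (c (a (f (d (a e))))))))), t false 1 (b (c (f (a (b (c (d (a (f
  e))))))))), t true 1 (b (f (a (b (c (a (f (d (a e))))))))), t false 1 (f (a (b (a (f (c (a (d (a
  e)))))))))])) nil nil nil nil) nil nil nil) nil nil) nil) (br (br nil nil nil (br (br nil (br nil
  nil nil nil (hit [t false 1 (a (f (b (a (c (d (a (b (f e))))))))), t false 1 (b (a (f (b (c (d (a
  (b (f e))))))))), t false 1 (f (a (b (a (f (c (d (a (b e))))))))), t true 1 (f (b (a (c (d (a (b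
  (f (c e)))))))))])) nil nil (hit [t false 1 (a (b (f (a (c (d (a (b e)))))))), t false 1 (a (f (a
  (c (d (a (b (f e)))))))), t false 1 (b (f (a (b (c (d (a (b e)))))))), t true 1 (f (a (c (d (a (b
  (f (c e))))))))])) (br (br nil nil nil nil (hit [t false 1 (a (b (f (a (c (d (a (b (f e))))))))),
  t false 1 (b (f (a (b (c (d (a (b (f e))))))))), t true 1 (f (a (b (c (d (a (b (f (c e)))))))))]))
  nil (br (br nil nil nil nil (hit [t false 1 (a (b (c (f (a (c (a (b (d (a e)))))))))), t false 1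
  (a (c (b (f (a (c (d (a (b (f e)))))))))), t false 1 (a (c (f (a (c (a (b (a (d (a e)))))))))), t
  false 1 (a (f (a (c (a (b (a (f (d (a e)))))))))), t false 1 (b (c (f (a (b (c (a (b (d (a
  e)))))))))), t true 1 (b (f (a (b (c (b (d (a (b (f e)))))))))), t true 1 (c (f (a (c (a (b (a (c
  (d (a e)))))))))), t false 1 (f (a (b (a (c (f (c (b (d (a e)))))))))), t false 1 (f (a (b (c (b
  (d (a (b (f (c e))))))))))])) nil nil nil nil) nil (hit [t false 1 (b (f (b (c (d (a (b (f
  e)))))))), t false 1 (f (a (b (a (f (c (d (a e)))))))), t true 1 (f (b (c (d (a (b (f (c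
  e))))))))])) (br (br nil (br nil nil nil nil (hit [t false 1 (a (c (f (b (a (c (d (a (b (f
  e)))))))))), t true 1 (a (f (b (a (c (a (b (f (d (a e)))))))))), t true 1 (a (f (b (a (c (b (f (d
  (a (b e)))))))))), t false 1 (b (a (c (f (b (c (d (a (b (f e)))))))))), t true 1 (b (a (f (b (c (a
  (b (f (d (a e)))))))))), t true 1 (b (a (f (b (c (b (f (d (a (b e)))))))))), t true 1 (f (a (b (a
  (f (c (a (b (d (a e)))))))))), t true 1 (f (a (b (a (f (c (b (d (a (b e))))))))))])) nil nil (hit
  [t true 1 (a (b (f (a (c (a (b (d (a e))))))))), t false 1 (a (c (b (f (a (c (d (a (b e))))))))),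
  t false 1 (a (c (f (a (c (d (a (b (f e))))))))), t true 1 (a (f (a (c (a (b (f (d (a e))))))))), t
  true 1 (b (f (a (b (c (a (b (d (a e))))))))), t true 1 (b (f (a (b (c (b (d (a (b e)))))))))]))
  (br nil nil nil nil (hit [t false 1 (b (c (f (b (c (d (a (b (f e))))))))), t true 1 (b (f (b (c (a
  (b (f (d (a e))))))))), t true 1 (b (f (b (c (b (f (d (a (b e))))))))), t true 1 (f (a (b (a (f (c
  (a (d (a e)))))))))])) nil nil nil) nil nil) nil) nil (br nil (br (br nil nil nil (br (br nil nil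
  nil nil (hit [t true 1 (a (b (d (b (f (a (c (b (a (f e)))))))))), t true 1 (a (b (d (c (b (f (a (c
  (a (f e)))))))))), t false 1 (a (b (d (c (f (a (c (a (f (b e)))))))))), t true 1 (a (b (f (a (c (a
  (f (d (a (b e)))))))))), t true 1 (a (c (b (f (a (c (a (f (d (a e)))))))))), t false 1 (a (c (f (a
  (c (a (f (b (d (a e)))))))))), t true 1 (a (d (c (b (f (a (c (a (f (d e)))))))))), t false 1 (a (d
  (c (f (a (c (a (f (b (d e)))))))))), t false 1 (a (f (a (b (d (a (b (c (b (f e)))))))))), t true 1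
  (a (f (a (b (d (b (c (b (a (f e)))))))))), t true 1 (a (f (a (c (a (b (d (a (b (f e)))))))))), t
  false 1 (a (f (a (c (a (f (b (d (a (b e)))))))))), t true 1 (b (a (f (a (d (a (b (c (b (f
  e)))))))))), t false 1 (b (a (f (a (d (b (c (b (a (f e)))))))))), t true 1 (b (d (a (f (a (b (c (b
  (a (f e)))))))))), t false 1 (b (d (b (a (f (a (c (b (a (f e)))))))))), t true 1 (b (d (c (a (f (a
  (b (c (a (f e)))))))))), t false 1 (b (d (c (b (a (f (a (c (a (f e)))))))))), t false 1 (b (d (c
  (f (a (b (c (a (f (b e)))))))))), t false 1 (b (f (a (c (a (f (d (a (b (c e)))))))))), t false 1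
  (b (f (a (d (a (b (c (b (f (d e)))))))))), t false 1 (c (b (f (a (c (a (f (d (a (c e)))))))))), t
  true 1 (c (f (a (c (a (f (b (d (a (c e)))))))))), t true 1 (d (a (f (a (b (d (c (b (a (f
  e)))))))))), t false 1 (d (b (a (f (a (d (c (b (a (f e)))))))))), t false 1 (d (c (b (f (a (c (a
  (f (d (c e)))))))))), t true 1 (d (c (f (a (c (a (f (b (d (c e)))))))))), t true 1 (f (a (b (d (a
  (b (c (b (f (c e)))))))))), t false 1 (f (a (b (d (b (a (f (c (b (a e)))))))))), t false 1 (f (a
  (b (d (b (c (b (a (f (c e)))))))))), t false 1 (f (a (c (a (b (d (a (b (f (c e)))))))))), t true 1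
  (f (a (c (a (f (b (d (a (b (c e))))))))))])) nil nil nil nil) nil) nil nil nil nil) nil nil nil)
  (br (br nil nil (br nil (br (br nil nil nil nil (hit [t false 1 (a (b (f (a (c (a (d (b (f (d
  e)))))))))), t false 1 (b (f (a (b (c (a (d (b (f (d e)))))))))), t true 1 (f (a (b (a (d (b (f (c
  (a (d e))))))))))])) nil nil nil (hit [t true 1 (a (f (b (a (c (a (d (b (f e))))))))), t false 1
  (b (c (a (f (b (c (d (b (f e))))))))), t true 1 (b (f (b (c (a (b (f (d (b e))))))))), t true 1 (f
  (a (b (a (f (c (a (d (b e))))))))), t false 1 (f (b (a (c (a (d (b (f (c e)))))))))])) nil nil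
  nil) nil nil) (br (br nil nil (br nil (br nil nil nil nil (hit [t false 1 (b (f (b (c (a (b (d (b
  (f (d e)))))))))), t false 1 (f (a (b (a (d (b (f (c (a (d e))))))))))])) nil nil nil) nil (hit [t
  true 1 (a (b (a (c (d (b (f (a e)))))))), t true 1 (a (b (c (d (b (f (a (c e)))))))), t true 1 (a
  (b (d (b (f (a (c (d e)))))))), t false 1 (b (f (a (b (c (d (b (f e)))))))), t true 1 (f (a (b (c
  (d (b (f (c e))))))))])) nil (br nil (br (br nil nil nil nil (hit [t true 1 (a (b (a (c (b (d (b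
  (f (a (d e)))))))))), t true 1 (a (b (c (b (d (b (f (a (c (d e)))))))))), t false 1 (b (f (a (b (c
  (b (d (b (f (d e))))))))))])) nil nil nil (hit [t false 1 (b (f (b (c (b (d (b (f (d e)))))))))]))
  nil nil nil) nil (hit [t false 1 (b (f (b (c (d (b (f e))))))), t true 1 (f (b (c (d (b (f (c
  e)))))))])) (br nil (br (br nil nil nil nil (hit [t false 1 (a (b (a (c (a (d (b (f (a e))))))))),
  t false 1 (a (b (a (c (b (f (a (d (b e))))))))), t true 1 (a (b (c (d (b (f (a (c (d e))))))))), t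
  false 1 (b (c (f (a (b (c (d (b (f e))))))))), t true 1 (b (f (a (b (c (b (f (d (b e)))))))))]))
  nil nil nil (hit [t false 1 (b (c (f (b (c (d (b (f e)))))))), t true 1 (b (f (b (c (b (f (d (b
  e))))))))])) nil nil nil) nil nil) nil) (br (br nil (br nil nil nil (br (br nil (br nil nil nil
  nil (hit [t false 1 (a (b (a (c (a (d (a (f (a (b e)))))))))), t true 1 (a (b (a (c (a (d (b (a (f
  (a e)))))))))), t true 1 (a (b (a (c (b (a (d (b (f (a e)))))))))), t true 1 (a (c (f (b (a (c (a
  (d (b (a e)))))))))), t true 1 (a (c (f (b (a (c (b (a (d (b e)))))))))), t true 1 (a (d (c (f (b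
  (a (c (b (a (d e)))))))))), t true 1 (a (f (b (a (c (a (d (b (a (f e)))))))))), t true 1 (a (f (b
  (a (c (b (a (d (b (f e)))))))))), t true 1 (b (a (c (a (d (a (f (a (b (c e)))))))))), t false 1 (b
  (a (c (a (d (b (a (f (a (c e)))))))))), t false 1 (b (a (c (b (a (d (b (f (a (c e)))))))))), t
  true 1 (b (a (c (f (a (b (c (b (d (b e)))))))))), t false 1 (b (a (d (a (c (f (a (b (c (d
  e)))))))))), t true 1 (b (a (d (b (a (c (f (a (c (d e)))))))))), t true 1 (b (a (d (c (f (a (b (c
  (b (d e)))))))))), t true 1 (b (a (f (a (b (c (b (d (b (f e)))))))))), t false 1 (c (f (b (a (c (a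
  (d (b (a (c e)))))))))), t false 1 (c (f (b (a (c (b (a (d (b (c e)))))))))), t false 1 (d (c (f
  (b (a (c (b (a (d (c e)))))))))), t false 1 (f (b (a (c (a (d (b (a (f (c e)))))))))), t false 1
  (f (b (a (c (b (a (d (b (f (c e))))))))))])) nil nil nil) nil nil nil nil) nil) nil (br (br nil
  nil nil nil (hit [t true 1 (a (c (f (a (c (a (d (a e)))))))), t true 1 (a (d (c (f (a (c (a (d
  e)))))))), t true 1 (a (f (a (c (a (d (a (f e)))))))), t false 1 (c (f (a (c (a (d (a (c
  e)))))))), t false 1 (d (c (f (a (c (a (d (c e)))))))), t false 1 (f (a (c (a (d (a (f (c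
  e))))))))])) nil nil nil nil) nil) (br (br nil nil nil (br (br nil (br nil nil nil nil (hit [t
  false 1 (a (b (c (f (a (c (a (d (a (b e)))))))))), t true 1 (a (b (c (f (a (c (b (a (d (a
  e)))))))))), t true 1 (a (b (c (f (b (a (c (b (d (a e)))))))))), t true 1 (a (b (c (f (b (c (b (d
  (a (c e)))))))))), t true 1 (a (c (f (a (c (b (a (d (a (b e)))))))))), t true 1 (a (c (f (b (a (c
  (b (d (a (b e)))))))))), t false 1 (a (d (a (b (c (f (b (c (b (d e)))))))))), t true 1 (a (d (b (c
  (f (a (c (b (a (d e)))))))))), t true 1 (a (d (b (c (f (b (a (c (b (d e)))))))))), t true 1 (a (f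
  (a (c (b (a (d (a (b (f e)))))))))), t true 1 (a (f (b (a (c (b (d (a (b (f e)))))))))), t true 1
  (b (a (c (f (b (c (b (d (a (b e)))))))))), t true 1 (b (a (d (a (c (f (b (c (b (d e)))))))))), t
  true 1 (b (a (f (b (c (b (d (a (b (f e)))))))))), t true 1 (b (c (f (a (c (a (d (a (b (c
  e)))))))))), t false 1 (b (c (f (a (c (b (a (d (a (c e)))))))))), t false 1 (b (c (f (b (a (c (b
  (d (a (c e)))))))))), t false 1 (c (f (a (c (b (a (d (a (b (c e)))))))))), t false 1 (c (f (b (a
  (c (b (d (a (b (c e)))))))))), t true 1 (d (a (b (c (f (b (c (b (d (c e)))))))))), t false 1 (d (b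
  (c (f (a (c (b (a (d (c e)))))))))), t false 1 (d (b (c (f (b (a (c (b (d (c e)))))))))), t false
  1 (f (a (b (a (c (f (c (d (a (b e)))))))))), t false 1 (f (a (c (b (a (d (a (b (f (c e)))))))))),
  t false 1 (f (b (a (c (b (d (a (b (f (c e))))))))))])) nil nil (hit [t false 1 (a (b (c (f (a (c
  (d (a (b e))))))))), t true 1 (a (b (d (c (f (a (c (a (b e))))))))), t false 1 (a (c (f (a (b (d
  (a (b (c e))))))))), t true 1 (a (c (f (a (c (a (b (d (a e))))))))), t true 1 (a (c (f (a (c (b (d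
  (a (b e))))))))), t true 1 (a (d (c (f (a (c (a (b (d e))))))))), t false 1 (a (f (a (b (d (a (b
  (c (f e))))))))), t true 1 (a (f (a (c (a (b (d (a (f e))))))))), t true 1 (a (f (a (c (b (d (a (b
  (f e))))))))), t false 1 (b (c (f (a (b (c (d (a (b e))))))))), t true 1 (b (d (c (f (a (b (c (a
  (b e))))))))), t false 1 (c (f (a (c (a (b (d (a (c e))))))))), t false 1 (c (f (a (c (b (d (a (b
  (c e))))))))), t false 1 (d (c (f (a (c (a (b (d (c e))))))))), t true 1 (f (a (b (d (a (b (c (f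
  (c e))))))))), t false 1 (f (a (c (a (b (d (a (f (c e))))))))), t false 1 (f (a (c (b (d (a (b (f
  (c e)))))))))])) (br (br nil nil nil nil (hit [t false 1 (a (b (c (f (a (b (d (a (b (c
  e)))))))))), t true 1 (a (b (c (f (a (c (a (b (d (a e)))))))))), t true 1 (a (b (c (f (a (c (b (d
  (a (b e)))))))))), t true 1 (a (b (d (c (f (a (c (a (b (d e)))))))))), t false 1 (a (b (f (a (b (d
  (a (b (c (f e)))))))))), t true 1 (a (b (f (a (c (a (b (d (a (f e)))))))))), t true 1 (a (b (f (a
  (c (b (d (a (b (f e)))))))))), t true 1 (b (c (f (a (b (c (a (b (d (a e)))))))))), t true 1 (b (c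
  (f (a (b (c (b (d (a (b e)))))))))), t true 1 (b (d (c (f (a (b (c (a (b (d e)))))))))), t true 1
  (b (f (a (b (c (a (b (d (a (f e)))))))))), t true 1 (b (f (a (b (c (b (d (a (b (f e)))))))))), t
  false 1 (c (f (a (b (c (a (b (d (a (c e)))))))))), t false 1 (c (f (a (b (c (b (d (a (b (c
  e)))))))))), t false 1 (d (c (f (a (b (c (a (b (d (c e)))))))))), t false 1 (f (a (b (c (a (b (d
  (a (f (c e)))))))))), t false 1 (f (a (b (c (b (d (a (b (f (c e))))))))))])) nil nil nil (hit [t
  false 1 (a (c (f (b (c (b (d (a (c e))))))))), t true 1 (b (a (c (f (b (c (b (d (a e))))))))), t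
  true 1 (b (c (f (b (c (b (d (a (b e))))))))), t true 1 (b (d (a (c (f (b (c (b (d e))))))))), t
  true 1 (b (f (b (c (b (d (a (b (f e))))))))), t false 1 (c (f (b (c (b (d (a (b (c e))))))))), t
  false 1 (d (a (c (f (b (c (b (d (c e))))))))), t false 1 (f (a (b (a (c (f (c (d (a e))))))))), t
  false 1 (f (b (c (b (d (a (b (f (c e)))))))))])) nil nil nil) nil) nil nil (br nil (br (br nil nil
  nil nil (hit [t false 1 (a (b (a (c (b (d (b (f (a e))))))))), t false 1 (a (b (c (b (d (b (f (a
  (c e))))))))), t true 1 (a (b (d (b (c (f (a (c (d e))))))))), t true 1 (b (c (f (a (b (c (b (d (b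
  e))))))))), t true 1 (b (d (c (f (a (b (c (b (d e))))))))), t true 1 (b (f (a (b (c (b (d (b (f
  e))))))))), t false 1 (c (f (a (b (c (b (d (b (c e))))))))), t false 1 (d (c (f (a (b (c (b (d (c
  e))))))))), t false 1 (f (a (b (c (b (d (b (f (c e)))))))))])) nil nil nil (hit [t true 1 (b (c (f
  (b (c (b (d (b e)))))))), t true 1 (b (d (c (f (b (c (b (d e)))))))), t true 1 (b (f (b (c (b (d
  (b (f e)))))))), t false 1 (c (f (b (c (b (d (b (c e)))))))), t false 1 (d (c (f (b (c (b (d (c
  e)))))))), t false 1 (f (b (c (b (d (b (f (c e))))))))])) nil nil nil) nil) nil nil nil) nil nil))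

def R44 : R := (hit [])

def R45 : R := (br (br nil (br (br nil nil nil (br (br nil (br nil nil nil nil (hit [t false 1 (a (d
  (f (b (a (d (a (b (a e))))))))), t false 1 (a (f (b (a (d (a (b (a (f e))))))))), t false 1 (b (a
  (d (f (b (d (a (b (a e))))))))), t false 1 (b (a (f (b (d (a (b (a (f e))))))))), t true 1 (d (f
  (b (a (d (a (b (a (d e))))))))), t false 1 (f (a (b (a (d (f (d (a (b e)))))))))])) nil nil (hit
  [t false 1 (a (b (d (f (a (d (a (b e)))))))), t false 1 (a (d (f (a (d (a (b (a e)))))))), t false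
  1 (a (f (a (d (a (b (a (f e)))))))), t false 1 (b (d (f (a (b (d (a (b e)))))))), t true 1 (d (f
  (a (d (a (b (a (d e)))))))), t false 1 (f (a (b (a (d (f (d (b e))))))))])) (br (br nil nil nil
  nil (hit [t false 1 (a (b (d (f (a (d (a (b (a e))))))))), t false 1 (a (b (f (a (d (a (b (a (f
  e))))))))), t false 1 (b (d (f (a (b (d (a (b (a e))))))))), t false 1 (b (f (a (b (d (a (b (a (f
  e))))))))), t true 1 (d (f (a (b (d (a (b (a (d e))))))))), t false 1 (f (a (b (a (d (f (d (b (a
  e)))))))))])) nil nil nil (hit [t true 1 (a (d (f (b (a (d (b (a e)))))))), t true 1 (b (a (d (f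
  (b (d (b (a e)))))))), t false 1 (b (d (f (b (d (a (b (a e)))))))), t false 1 (b (f (b (d (a (b (a
  (f e)))))))), t true 1 (d (f (b (d (a (b (a (d e)))))))), t false 1 (f (a (b (a (d (f (d (a
  e))))))))])) (br (br nil (br nil nil nil nil (hit [t false 1 (a (b (d (f (b (c (a (d (b (a
  e)))))))))), t false 1 (a (c (a (b (d (f (b (d (b (a e)))))))))), t true 1 (a (c (b (d (f (b (a (d
  (b (a e)))))))))), t false 1 (a (c (d (f (b (a (d (a (b (a e)))))))))), t false 1 (a (c (f (b (a
  (d (a (b (a (f e)))))))))), t true 1 (b (a (c (a (d (f (b (d (b (a e)))))))))), t false 1 (b (a (c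
  (d (f (b (d (a (b (a e)))))))))), t false 1 (b (a (c (f (b (d (a (b (a (f e)))))))))), t false 1
  (b (d (f (a (c (a (b (d (b (a e)))))))))), t true 1 (b (d (f (b (a (c (a (d (b (a e)))))))))), t
  false 1 (c (a (b (d (f (b (c (d (b (a e)))))))))), t true 1 (c (b (d (f (b (a (c (d (b (a
  e)))))))))), t true 1 (c (d (f (b (a (c (a (b (a (d e)))))))))), t false 1 (c (d (f (b (a (c (d (a
  (b (a e)))))))))), t true 1 (c (f (b (a (c (a (b (a (d (f e)))))))))), t false 1 (c (f (b (a (c (d
  (a (b (a (f e)))))))))), t true 1 (d (f (b (a (c (d (a (b (a (d e)))))))))), t false 1 (f (a (c (a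
  (b (d (f (d (b (a e)))))))))), t false 1 (f (b (a (c (a (b (a (d (f (d e)))))))))), t true 1 (f (b
  (a (c (a (b (d (f (d (a e)))))))))), t false 1 (f (b (a (c (b (a (d (f (d (b e)))))))))), t true 1
  (f (b (a (c (b (d (f (d (a (b e))))))))))])) nil nil (hit [t false 1 (a (c (b (d (f (a (d (a (b
  e))))))))), t false 1 (a (c (d (f (a (d (a (b (a e))))))))), t false 1 (a (c (f (a (d (a (b (a (f
  e))))))))), t false 1 (b (d (f (a (c (b (d (a (b e))))))))), t false 1 (c (b (d (f (a (c (d (a (b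
  e))))))))), t true 1 (c (d (f (a (c (a (b (a (d e))))))))), t false 1 (c (d (f (a (c (d (a (b (a
  e))))))))), t true 1 (c (f (a (c (a (b (a (d (f e))))))))), t false 1 (c (f (a (c (d (a (b (a (f
  e))))))))), t true 1 (d (f (a (c (d (a (b (a (d e))))))))), t false 1 (f (a (c (a (b (a (d (f (d
  e))))))))), t true 1 (f (a (c (a (b (d (f (d (a e))))))))), t false 1 (f (a (c (a (d (f (d (b (a
  e))))))))), t false 1 (f (a (c (b (a (d (f (d (b e)))))))))])) (br (br nil nil nil nil (hit [t
  false 1 (a (b (c (d (f (a (d (a (b (a e)))))))))), t false 1 (a (b (c (f (a (d (a (b (a (f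
  e)))))))))), t false 1 (b (c (d (f (a (b (d (a (b (a e)))))))))), t false 1 (b (c (f (a (b (d (a
  (b (a (f e)))))))))), t true 1 (c (d (f (a (b (c (a (b (a (d e)))))))))), t false 1 (c (d (f (a (b
  (c (d (a (b (a e)))))))))), t true 1 (c (f (a (b (c (a (b (a (d (f e)))))))))), t false 1 (c (f (a
  (b (c (d (a (b (a (f e)))))))))), t true 1 (d (f (a (b (c (d (a (b (a (d e)))))))))), t false 1 (f
  (a (b (c (a (b (a (d (f (d e)))))))))), t true 1 (f (a (b (c (a (b (d (f (d (a e)))))))))), t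
  false 1 (f (a (b (c (a (d (f (d (b (a e)))))))))), t false 1 (f (a (b (c (b (a (d (f (d (b
  e)))))))))), t true 1 (f (a (b (c (b (d (f (d (a (b e))))))))))])) nil nil nil nil) nil nil nil)
  nil nil) nil) nil (br nil (br nil nil nil (br nil (br nil nil nil nil (hit [t false 1 (a (f (a (b
  (a (c (b (d (a e))))))))), t true 1 (a (f (b (a (d (a (b (c (b e))))))))), t false 1 (a (f (b (a
  (d (b (c (b (a e))))))))), t true 1 (a (f (b (c (a (d (a (b (c e))))))))), t true 1 (a (f (b (d (a
  (b (c (b (d e))))))))), t false 1 (b (a (f (b (d (b (c (b (a e))))))))), t false 1 (b (c (d (a (f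
  (b (d (b (c e))))))))), t false 1 (b (d (a (f (b (d (b (c (b e))))))))), t false 1 (b (f (b (d (b
  (c (b (a (f e))))))))), t false 1 (c (d (a (f (b (c (d (b (c e))))))))), t true 1 (d (a (f (b (d
  (b (c (b (d e))))))))), t false 1 (f (b (c (b (d (a (f (d (c e)))))))))])) nil nil nil) nil) nil
  nil nil) (br (br nil nil (br nil (br nil nil nil nil (hit [t true 1 (a (b (c (a (d (a (f (a (b
  e))))))))), t false 1 (a (b (c (a (d (b (a (f (a e))))))))), t true 1 (a (c (a (d (a (f (a (b (c
  e))))))))), t false 1 (a (c (a (d (b (a (f (a (c e))))))))), t false 1 (a (f (b (c (a (d (b (a (f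
  e))))))))), t true 1 (b (c (a (b (a (f (a (d (b e))))))))), t false 1 (b (c (a (d (a (f (a (b (d
  e))))))))), t true 1 (b (c (a (d (b (a (f (a (d e))))))))), t false 1 (b (c (a (f (a (b (d (b (f
  e))))))))), t true 1 (c (a (b (a (f (a (c (d (b e))))))))), t false 1 (c (a (d (a (f (a (b (c (d
  e))))))))), t true 1 (c (a (d (b (a (f (a (c (d e))))))))), t false 1 (c (a (f (a (b (c (d (b (f
  e))))))))), t true 1 (f (b (c (a (b (a (f (d (b e)))))))))])) nil nil nil) nil (hit [t false 1 (a
  (f (a (d (b (a (f e))))))), t true 1 (f (a (b (a (f (d (b e)))))))])) (br (br nil nil nil nil (hit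
  [t false 1 (a (b (f (a (d (b (a (f e)))))))), t false 1 (b (f (a (b (d (b (a (f e)))))))), t true
  1 (f (a (b (a (f (d (b (a e))))))))])) nil nil nil nil) (br (br nil nil nil nil (hit [t false 1 (a
  (c (f (a (d (b (a (f e)))))))), t false 1 (c (f (a (c (d (b (a (f e)))))))), t true 1 (f (a (c (a
  (f (d (b (a e)))))))), t true 1 (f (a (c (b (a (f (d (b e))))))))])) (br (br nil nil nil nil (hit
  [t false 1 (a (b (c (f (a (d (b (a (f e))))))))), t false 1 (b (c (f (a (b (d (b (a (f e))))))))),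
  t false 1 (c (f (a (b (c (d (b (a (f e))))))))), t true 1 (f (a (b (c (a (f (d (b (a e))))))))), t
  true 1 (f (a (b (c (b (a (f (d (b e)))))))))])) nil nil nil nil) nil nil nil) nil nil) nil) (br
  (br nil (br nil nil nil (br (br nil nil (br nil nil nil nil (hit [t false 1 (a (b (c (a (d (a (c
  (f (a (b e)))))))))), t true 1 (a (b (c (a (d (b (a (c (f (a e)))))))))), t false 1 (a (b (f (c (a
  (d (b (a (c (a e)))))))))), t true 1 (a (c (a (b (f (a (b (d (b (c e)))))))))), t false 1 (a (c (a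
  (b (f (b (d (b (a (c e)))))))))), t false 1 (a (c (a (d (a (b (f (a (b (c e)))))))))), t true 1 (a
  (c (a (d (a (c (a (b (f (a e)))))))))), t true 1 (a (c (a (d (a (c (b (f (a (b e)))))))))), t
  false 1 (a (c (a (d (b (a (c (a (f (a e)))))))))), t false 1 (a (d (b (f (c (a (d (a (c (a
  e)))))))))), t false 1 (a (f (c (a (d (b (a (c (a (f e)))))))))), t true 1 (b (c (a (b (a (c (f (a
  (d (b e)))))))))), t false 1 (b (c (a (b (d (a (c (f (a (b e)))))))))), t true 1 (b (c (a (b (d (b
  (a (c (f (a e)))))))))), t true 1 (b (f (a (c (a (b (d (b (a (c e)))))))))), t true 1 (b (f (c (a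
  (b (d (a (c (a (b e)))))))))), t false 1 (b (f (c (a (b (d (b (a (c (a e)))))))))), t true 1 (b (f
  (c (a (d (a (c (a (b (d e)))))))))), t true 1 (c (a (b (f (a (b (c (d (b (c e)))))))))), t false 1
  (c (a (b (f (b (c (d (b (a (c e)))))))))), t false 1 (c (a (b (f (c (d (a (c (a (b e)))))))))), t
  true 1 (c (a (d (a (b (f (a (b (c (d e)))))))))), t false 1 (c (a (d (a (c (a (b (f (a (d
  e)))))))))), t false 1 (c (a (d (a (c (b (f (a (b (d e)))))))))), t true 1 (c (a (d (b (a (c (a (f
  (a (d e)))))))))), t false 1 (c (a (d (b (f (c (d (a (c (a e)))))))))), t true 1 (c (a (f (a (b (c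
  (d (b (c (f e)))))))))), t false 1 (c (a (f (b (c (d (b (a (c (f e)))))))))), t false 1 (c (a (f
  (c (d (a (c (a (b (f e)))))))))), t true 1 (d (b (f (c (a (d (a (c (a (d e)))))))))), t false 1 (f
  (a (c (a (b (f (d (b (a (c e)))))))))), t false 1 (f (a (c (a (d (b (f (d (a (c e)))))))))), t
  true 1 (f (b (c (a (b (a (c (f (d (b e))))))))))])) nil (hit [t false 1 (a (b (f (a (d (b (a (c (a
  e))))))))), t false 1 (a (c (b (f (a (d (b (a (c e))))))))), t false 1 (a (c (d (b (f (a (d (a (c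
  e))))))))), t false 1 (a (d (b (f (a (d (a (c (a e))))))))), t false 1 (a (f (a (d (b (a (c (a (f
  e))))))))), t true 1 (b (f (a (b (d (a (c (a (b e))))))))), t false 1 (b (f (a (b (d (b (a (c (a
  e))))))))), t true 1 (b (f (a (c (a (b (d (b (c e))))))))), t false 1 (b (f (a (c (b (d (b (a (c
  e))))))))), t true 1 (b (f (a (d (a (c (a (b (d e))))))))), t false 1 (c (b (f (a (c (d (b (a (c
  e))))))))), t false 1 (c (d (b (f (a (c (d (a (c e))))))))), t true 1 (d (b (f (a (d (a (c (a (d
  e))))))))), t true 1 (f (a (b (a (c (a (f (d (b e))))))))), t false 1 (f (a (c (a (b (f (d (b (c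
  e))))))))), t false 1 (f (a (c (a (d (b (f (d (c e)))))))))])) (br nil nil nil nil (hit [t true 1
  (b (f (b (d (a (c (a (b (f e))))))))), t false 1 (b (f (b (d (b (a (c (a (f e))))))))), t true 1
  (f (a (b (a (f (d (b (c (a e))))))))), t false 1 (f (b (a (c (a (b (f (d (b e))))))))), t true 1
  (f (b (a (c (b (f (d (b (a e))))))))), t false 1 (f (b (c (a (b (f (d (b (c e))))))))), t true 1
  (f (b (c (b (f (d (b (a (c e))))))))), t false 1 (f (b (d (a (c (a (b (f (d e)))))))))])) (br (br
  nil nil nil nil (hit [t false 1 (a (c (b (f (a (d (b (a (c (a e)))))))))), t false 1 (a (c (d (b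
  (f (a (d (a (c (a e)))))))))), t false 1 (a (c (f (a (d (b (a (c (a (f e)))))))))), t true 1 (b (f
  (a (c (a (b (d (b (c (a e)))))))))), t true 1 (b (f (a (c (b (d (a (c (a (b e)))))))))), t false 1
  (b (f (a (c (b (d (b (a (c (a e)))))))))), t true 1 (b (f (a (c (d (a (c (a (b (d e)))))))))), t
  false 1 (c (b (f (a (c (d (b (a (c (a e)))))))))), t false 1 (c (d (b (f (a (c (d (a (c (a
  e)))))))))), t false 1 (c (f (a (c (d (b (a (c (a (f e)))))))))), t true 1 (d (b (f (a (c (d (a (c
  (a (d e)))))))))), t false 1 (f (a (b (a (c (b (a (f (d (b e)))))))))), t false 1 (f (a (c (a (b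
  (f (d (b (c (a e)))))))))), t false 1 (f (a (c (a (d (b (f (d (c (a e))))))))))])) nil nil nil
  nil) nil nil) nil) nil nil nil) (br nil nil nil (br (br nil nil nil nil (hit [t false 1 (a (f (a
  (d (b (c (a (f e)))))))), t true 1 (f (a (b (c (a (f (d (b e)))))))), t true 1 (f (a (c (a (f (d
  (b (c e))))))))])) (br (br nil nil nil nil (hit [t false 1 (a (b (f (a (d (b (c (a (f e))))))))),
  t false 1 (b (f (a (b (d (b (c (a (f e))))))))), t true 1 (f (a (b (a (f (d (b (c (a e))))))))), t
  true 1 (f (a (b (c (a (f (d (b (c e)))))))))])) nil nil nil (hit [t false 1 (a (f (b (a (d (b (c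
  (a e)))))))), t false 1 (a (f (b (c (a (d (b (c e)))))))), t false 1 (b (a (f (b (d (b (c (a
  e)))))))), t false 1 (b (c (a (f (b (d (b (c e)))))))), t false 1 (b (f (b (d (b (c (a (f
  e)))))))), t false 1 (c (a (f (b (c (d (b (c e))))))))])) nil nil nil) nil) nil (br (br nil nil
  (br nil nil nil nil (hit [t true 1 (a (c (a (d (a (f (a (c e)))))))), t false 1 (a (c (a (d (c (a
  (f (a e)))))))), t false 1 (a (f (c (a (d (c (a (f e)))))))), t false 1 (c (a (d (a (f (a (c (d
  e)))))))), t true 1 (c (a (d (c (a (f (a (d e)))))))), t false 1 (c (a (f (a (c (d (c (f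
  e))))))))])) nil (hit [t false 1 (a (f (a (d (c (a (f e))))))), t true 1 (f (a (c (a (f (d (c
  e)))))))])) (br (br nil nil (br nil nil nil nil (hit [t true 1 (a (b (a (c (f (c (d (c (a
  e))))))))), t true 1 (a (b (c (a (d (a (f (a (c e))))))))), t false 1 (a (b (c (a (d (c (a (f (a
  e))))))))), t false 1 (a (b (c (f (c (a (d (c (a e))))))))), t false 1 (a (b (f (c (a (d (c (a (f
  e))))))))), t true 1 (a (c (f (c (b (a (d (c (a e))))))))), t true 1 (b (a (c (f (c (b (d (c (a
  e))))))))), t false 1 (b (c (a (b (a (f (a (d (c e))))))))), t true 1 (b (c (a (b (d (a (f (a (c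
  e))))))))), t false 1 (b (c (a (b (d (c (a (f (a e))))))))), t false 1 (b (c (f (c (a (b (d (c (a
  e))))))))), t false 1 (b (f (c (a (b (d (c (a (f e))))))))), t false 1 (c (a (b (a (c (d (c (f (a
  e))))))))), t false 1 (c (a (b (a (f (a (c (d (c e))))))))), t false 1 (c (a (b (d (a (f (a (c (d
  e))))))))), t true 1 (c (a (b (d (c (a (f (a (d e))))))))), t false 1 (c (a (b (f (a (c (d (c (f
  e))))))))), t true 1 (c (f (a (b (a (c (d (c (a e))))))))), t false 1 (c (f (c (a (b (a (d (c (a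
  e))))))))), t true 1 (f (a (b (a (c (f (d (c (a e))))))))), t false 1 (f (b (c (a (b (a (f (d (c
  e)))))))))])) nil (hit [t false 1 (a (b (f (a (d (c (a (f e)))))))), t false 1 (b (f (a (b (d (c
  (a (f e)))))))), t true 1 (f (a (b (a (f (d (c (a e)))))))), t true 1 (f (a (b (c (a (f (d (c
  e))))))))])) nil (br (br nil nil nil nil (hit [t false 1 (a (c (b (f (a (d (c (a (f e))))))))), t
  false 1 (b (f (a (c (b (d (c (a (f e))))))))), t false 1 (c (b (f (a (c (d (c (a (f e))))))))), t
  false 1 (f (a (b (c (b (a (f (d (c e))))))))), t true 1 (f (a (c (b (a (f (d (c (a e)))))))))]))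
  nil nil nil nil) nil nil) (br (br nil nil nil nil (hit [t false 1 (a (c (f (a (d (c (a (f
  e)))))))), t false 1 (c (f (a (c (d (c (a (f e)))))))), t true 1 (f (a (c (a (f (d (c (a
  e))))))))])) nil nil nil nil) nil nil) nil) (br (br nil (br nil nil (br nil (br nil nil nil nil
  (hit [t true 1 (a (b (c (b (f (a (d (a (f e))))))))), t true 1 (a (f (a (b (c (b (d (a (f
  e))))))))), t false 1 (a (f (b (c (b (a (d (a (f e))))))))), t false 1 (b (a (f (a (c (b (d (a (f
  e))))))))), t true 1 (b (c (a (f (a (b (d (a (f e))))))))), t false 1 (b (c (b (a (f (a (d (a (f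
  e))))))))), t true 1 (c (a (f (a (b (c (d (a (f e))))))))), t false 1 (c (b (a (f (a (c (d (a (f
  e))))))))), t false 1 (f (a (b (c (b (a (f (d (a e))))))))), t false 1 (f (a (b (c (b (d (a (f (d
  e)))))))))])) nil nil nil) nil nil) nil nil (hit [t false 1 (a (f (a (d (a (f e))))))])) (br (br
  nil nil nil nil (hit [t false 1 (a (b (f (a (d (a (f e))))))), t false 1 (b (f (a (b (d (a (f
  e))))))), t true 1 (f (a (b (a (f (d (a e)))))))])) nil (br (br nil nil nil nil (hit [t false 1 (a
  (c (b (f (a (d (a (f e)))))))), t false 1 (b (f (a (c (b (d (a (f e)))))))), t false 1 (c (b (f (a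
  (c (d (a (f e)))))))), t true 1 (f (a (c (b (a (f (d (a e))))))))])) nil nil nil nil) nil nil) (br
  (br nil nil nil nil (hit [t false 1 (a (c (f (a (d (a (f e))))))), t false 1 (c (f (a (c (d (a (f
  e))))))), t true 1 (f (a (c (a (f (d (a e)))))))])) (br (br nil nil nil nil (hit [t false 1 (a (b
  (c (f (a (d (a (f e)))))))), t false 1 (b (c (f (a (b (d (a (f e)))))))), t false 1 (c (f (a (b (c
  (d (a (f e)))))))), t true 1 (f (a (b (c (a (f (d (a e))))))))])) nil nil nil nil) nil nil nil)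
  nil nil) nil) (br (br nil nil (br (br nil nil nil (br (br nil nil (br nil nil nil nil (hit [t
  false 1 (a (b (f (c (a (d (a (c (a (b e)))))))))), t false 1 (a (d (b (f (c (a (d (a (c (a
  e)))))))))), t false 1 (a (f (c (a (d (a (c (a (b (f e)))))))))), t true 1 (b (f (a (c (a (b (d (b
  (a (c e)))))))))), t true 1 (b (f (c (a (d (a (c (a (b (d e)))))))))), t false 1 (c (a (b (f (c (d
  (a (c (a (b e)))))))))), t false 1 (c (a (d (b (f (c (d (a (c (a e)))))))))), t false 1 (c (a (f
  (c (d (a (c (a (b (f e)))))))))), t true 1 (d (b (f (c (a (d (a (c (a (d e)))))))))), t false 1 (f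
  (a (c (a (d (b (f (d (a (c e))))))))))])) nil (hit [t false 1 (a (b (f (a (d (a (c (a (b
  e))))))))), t false 1 (a (c (d (b (f (a (d (a (c e))))))))), t false 1 (a (d (b (f (a (d (a (c (a
  e))))))))), t false 1 (a (f (a (d (a (c (a (b (f e))))))))), t true 1 (b (f (a (c (a (b (d (b (c
  e))))))))), t true 1 (b (f (a (d (a (c (a (b (d e))))))))), t false 1 (c (d (b (f (a (c (d (a (c
  e))))))))), t true 1 (d (b (f (a (d (a (c (a (d e))))))))), t false 1 (f (a (c (a (d (b (f (d (c
  e)))))))))])) nil (br (br nil nil nil nil (hit [t false 1 (a (c (b (f (a (d (a (c (a (b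
  e)))))))))), t false 1 (a (c (d (b (f (a (d (a (c (a e)))))))))), t false 1 (a (c (f (a (d (a (c
  (a (b (f e)))))))))), t true 1 (b (f (a (c (a (b (d (b (c (a e)))))))))), t true 1 (b (f (a (c (d
  (a (c (a (b (d e)))))))))), t false 1 (c (b (f (a (c (d (a (c (a (b e)))))))))), t false 1 (c (d
  (b (f (a (c (d (a (c (a e)))))))))), t false 1 (c (f (a (c (d (a (c (a (b (f e)))))))))), t true 1
  (d (b (f (a (c (d (a (c (a (d e)))))))))), t false 1 (f (a (c (a (d (b (f (d (c (a e))))))))))]))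
  nil nil nil (hit [t true 1 (a (d (b (f (c (a (d (c (a e))))))))), t true 1 (b (f (a (c (a (b (d (b
  (a e))))))))), t true 1 (b (f (c (d (a (c (a (b (d e))))))))), t true 1 (c (a (d (b (f (c (d (c (a
  e))))))))), t false 1 (c (b (f (c (d (a (c (a (b e))))))))), t false 1 (c (d (b (f (c (d (a (c (a
  e))))))))), t false 1 (c (f (c (d (a (c (a (b (f e))))))))), t true 1 (d (b (f (c (d (a (c (a (d
  e))))))))), t false 1 (f (a (c (a (d (b (f (d (a e)))))))))])) nil nil) nil) nil nil (br (br nil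
  (br nil nil nil nil (hit [t false 1 (a (f (b (a (d (c (a (b (f e))))))))), t false 1 (b (a (f (b
  (d (c (a (b (f e))))))))), t false 1 (f (a (b (a (f (d (c (a (b e))))))))), t true 1 (f (b (a (c
  (a (b (f (d (c e)))))))))])) (br nil nil nil nil (hit [t true 1 (a (b (c (a (d (c (f (a (b
  e))))))))), t false 1 (a (b (f (c (a (d (c (a (b e))))))))), t false 1 (a (c (a (b (f (a (b (d (c
  e))))))))), t true 1 (a (c (a (d (a (b (f (a (c e))))))))), t true 1 (a (c (a (d (b (f (a (b (c
  e))))))))), t false 1 (a (c (a (d (c (a (b (f (a e))))))))), t false 1 (a (c (a (d (c (b (f (a (b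
  e))))))))), t false 1 (a (f (c (a (d (c (a (b (f e))))))))), t true 1 (b (c (a (b (d (c (f (a (b
  e))))))))), t false 1 (b (f (c (a (b (d (c (a (b e))))))))), t false 1 (c (a (b (f (a (b (c (d (c
  e))))))))), t false 1 (c (a (d (a (b (f (a (c (d e))))))))), t false 1 (c (a (d (b (f (a (b (c (d
  e))))))))), t true 1 (c (a (d (c (a (b (f (a (d e))))))))), t true 1 (c (a (d (c (b (f (a (b (d
  e))))))))), t false 1 (c (a (f (a (b (c (d (c (f e)))))))))])) nil (hit [t false 1 (a (b (f (a (d
  (c (a (b e)))))))), t false 1 (a (f (a (d (c (a (b (f e)))))))), t false 1 (b (f (a (b (d (c (a (b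
  e)))))))), t true 1 (f (a (c (a (b (f (d (c e))))))))])) (br (br nil nil nil nil (hit [t false 1
  (a (b (f (a (d (c (a (b (f e))))))))), t false 1 (b (f (a (b (d (c (a (b (f e))))))))), t true 1
  (f (a (b (c (a (b (f (d (c e)))))))))])) nil (br (br nil nil nil nil (hit [t false 1 (a (c (b (f
  (a (d (c (a (b (f e)))))))))), t false 1 (b (f (a (c (b (d (c (a (b (f e)))))))))), t false 1 (c
  (b (f (a (c (d (c (a (b (f e)))))))))), t true 1 (f (a (b (c (a (b (a (f (d (c e)))))))))), t
  false 1 (f (a (c (a (b (a (f (d (c (a e))))))))))])) nil nil nil nil) nil (hit [t false 1 (b (f (b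
  (d (c (a (b (f e)))))))), t false 1 (f (a (b (a (f (d (c (a e)))))))), t true 1 (f (b (c (a (b (f
  (d (c e))))))))])) (br (br nil nil nil nil (hit [t false 1 (a (c (b (f (a (d (c (a (b e))))))))),
  t false 1 (a (c (f (a (d (c (a (b (f e))))))))), t false 1 (b (f (a (c (b (d (c (a (b e))))))))),
  t false 1 (c (b (f (a (c (d (c (a (b e))))))))), t false 1 (c (f (a (c (d (c (a (b (f e))))))))),
  t true 1 (f (a (c (a (b (f (d (c (a e)))))))))])) nil nil nil nil) nil nil) nil) (br (br nil (br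
  nil nil nil nil (hit [t false 1 (a (f (b (a (d (a (b (f e)))))))), t false 1 (b (a (f (b (d (a (b
  (f e)))))))), t false 1 (f (a (b (a (f (d (a (b e))))))))])) (br (br nil (br nil nil nil nil (hit
  [t true 1 (a (b (f (b (c (a (d (a (b (f e)))))))))), t true 1 (a (c (a (b (f (b (d (a (b (f
  e)))))))))), t false 1 (a (c (b (f (b (a (d (a (b (f e)))))))))), t false 1 (b (a (c (a (f (b (d
  (a (b (f e)))))))))), t true 1 (b (f (a (c (a (b (d (a (b (f e)))))))))), t false 1 (b (f (b (a (c
  (a (d (a (b (f e)))))))))), t true 1 (c (a (b (f (b (c (d (a (b (f e)))))))))), t false 1 (c (b (f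
  (b (a (c (d (a (b (f e)))))))))), t false 1 (f (a (c (a (b (d (a (b (f (d e)))))))))), t true 1 (f
  (b (a (c (a (b (f (d (a (b e))))))))))])) nil nil nil) (br nil nil nil nil (hit [t false 1 (a (f
  (b (c (a (d (a (b (f e))))))))), t false 1 (b (c (a (f (b (d (a (b (f e))))))))), t false 1 (c (a
  (f (b (c (d (a (b (f e))))))))), t true 1 (f (b (c (a (b (f (d (a (b e)))))))))])) nil nil nil)
  nil (hit [t false 1 (a (b (f (a (d (a (b e))))))), t false 1 (a (f (a (d (a (b (f e))))))), t
  false 1 (b (f (a (b (d (a (b e)))))))])) (br (br nil nil nil nil (hit [t false 1 (a (b (f (a (d (a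
  (b (f e)))))))), t false 1 (b (f (a (b (d (a (b (f e))))))))])) nil (br (br nil nil nil nil (hit
  [t false 1 (a (c (b (f (a (d (a (b (f e))))))))), t false 1 (b (f (a (c (b (d (a (b (f e))))))))),
  t false 1 (c (b (f (a (c (d (a (b (f e))))))))), t false 1 (f (a (c (a (b (a (f (d (a
  e)))))))))])) nil nil nil nil) nil (hit [t false 1 (b (f (b (d (a (b (f e))))))), t false 1 (f (a
  (b (a (f (d (a e)))))))])) (br (br nil (br nil nil nil nil (hit [t false 1 (a (c (f (b (a (d (a (b
  (f e))))))))), t false 1 (b (a (c (f (b (d (a (b (f e))))))))), t false 1 (c (f (b (a (c (d (a (b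
  (f e))))))))), t true 1 (f (b (a (c (a (b (f (d (a e))))))))), t true 1 (f (b (a (c (b (f (d (a (b
  e)))))))))])) nil nil (hit [t false 1 (a (c (b (f (a (d (a (b e)))))))), t false 1 (a (c (f (a (d
  (a (b (f e)))))))), t false 1 (b (f (a (c (b (d (a (b e)))))))), t false 1 (c (b (f (a (c (d (a (b
  e)))))))), t false 1 (c (f (a (c (d (a (b (f e)))))))), t true 1 (f (a (c (a (b (f (d (a
  e))))))))])) (br (br nil nil nil nil (hit [t false 1 (a (b (c (f (a (d (a (b (f e))))))))), t
  false 1 (b (c (f (a (b (d (a (b (f e))))))))), t false 1 (c (f (a (b (c (d (a (b (f e))))))))), t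
  true 1 (f (a (b (c (a (b (f (d (a e))))))))), t true 1 (f (a (b (c (b (f (d (a (b e)))))))))]))
  nil nil nil (hit [t false 1 (b (c (f (b (d (a (b (f e)))))))), t false 1 (c (f (b (c (d (a (b (f
  e)))))))), t true 1 (f (b (c (a (b (f (d (a e)))))))), t true 1 (f (b (c (b (f (d (a (b
  e))))))))])) nil nil nil) nil nil) nil) nil (br (br nil nil nil (br (br nil (br nil nil nil nil
  (hit [t false 1 (a (f (b (a (d (a (c (b (f e))))))))), t false 1 (b (a (f (b (d (a (c (b (f
  e))))))))), t false 1 (f (a (b (a (f (d (a (c (b e))))))))), t true 1 (f (b (a (c (b (f (d (a (c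
  e)))))))))])) (br nil (br nil nil nil nil (hit [t false 1 (a (f (b (c (a (d (a (c (b (f
  e)))))))))), t false 1 (b (c (a (f (b (d (a (c (b (f e)))))))))), t false 1 (c (a (f (b (c (d (a
  (c (b (f e)))))))))), t false 1 (f (b (a (c (a (b (f (d (a (c e)))))))))), t true 1 (f (b (c (a (b
  (f (d (a (c (b e))))))))))])) nil nil nil) nil (hit [t false 1 (a (b (f (a (d (a (c (b e)))))))),
  t false 1 (a (c (b (f (a (d (a (c e)))))))), t false 1 (a (f (a (d (a (c (b (f e)))))))), t false
  1 (b (f (a (b (d (a (c (b e)))))))), t false 1 (b (f (a (c (b (d (a (c e)))))))), t false 1 (c (b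
  (f (a (c (d (a (c e))))))))])) (br (br nil nil (br nil nil nil nil (hit [t true 1 (a (b (a (c (b
  (f (b (c (d (a e)))))))))), t true 1 (a (b (a (d (a (c (b (f (b (c e)))))))))), t false 1 (a (b (a
  (d (c (b (f (b (c (a e)))))))))), t false 1 (a (b (c (a (b (f (b (d (a (c e)))))))))), t true 1 (a
  (b (c (b (f (b (a (d (a (c e)))))))))), t false 1 (a (b (c (b (f (b (c (a (d (a e)))))))))), t
  true 1 (a (b (d (a (c (b (f (b (c (d e)))))))))), t false 1 (a (b (d (c (b (f (b (c (a (d
  e)))))))))), t false 1 (a (b (f (b (c (a (d (a (c (f e)))))))))), t true 1 (a (c (a (b (a (c (f (b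
  (d (a e)))))))))), t true 1 (b (c (a (b (d (a (b (f (b (c e)))))))))), t false 1 (b (c (a (b (d (a
  (c (b (f (b e)))))))))), t false 1 (b (f (c (a (b (d (a (c (b (f e)))))))))), t false 1 (c (a (b
  (d (a (b (f (b (c (d e)))))))))), t true 1 (c (a (b (d (a (c (b (f (b (d e)))))))))), t false 1 (c
  (a (b (f (b (c (d (a (c (f e)))))))))), t false 1 (f (a (b (c (a (b (f (d (a (c e)))))))))), t
  true 1 (f (a (c (a (b (a (c (f (d (a e))))))))))])) nil (hit [t false 1 (a (b (f (a (d (a (c (b (f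
  e))))))))), t false 1 (b (f (a (b (d (a (c (b (f e))))))))), t true 1 (f (a (b (a (c (b (f (d (a
  e))))))))), t true 1 (f (a (b (c (b (f (d (a (c e)))))))))])) nil nil nil (hit [t false 1 (b (f (b
  (d (a (c (b (f e)))))))), t true 1 (f (b (a (c (b (f (d (a e)))))))), t true 1 (f (b (c (b (f (d
  (a (c e))))))))])) (br (br nil nil nil nil (hit [t false 1 (a (c (b (f (a (d (a (c (b e))))))))),
  t false 1 (a (c (f (a (d (a (c (b (f e))))))))), t false 1 (b (f (a (c (b (d (a (c (b e))))))))),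
  t false 1 (c (b (f (a (c (d (a (c (b e))))))))), t false 1 (c (f (a (c (d (a (c (b (f
  e)))))))))])) (br nil nil nil nil (hit [t false 1 (b (c (f (b (d (a (c (b (f e))))))))), t false 1
  (c (f (b (c (d (a (c (b (f e))))))))), t false 1 (f (b (a (c (a (b (f (d (a e))))))))), t true 1
  (f (b (c (b (f (d (a (c (b e)))))))))])) nil nil nil) nil nil) nil) (br (br nil nil nil (br nil
  (br nil nil (br nil nil nil nil (hit [t false 1 (a (b (c (b (f (a (d (a (b (c e)))))))))), t false
  1 (a (f (a (b (c (b (d (a (b (c e)))))))))), t false 1 (a (f (a (c (a (b (a (c (d (a e)))))))))),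
  t true 1 (a (f (b (c (b (a (d (a (b (c e)))))))))), t true 1 (a (f (c (b (d (a (b (c (b (d
  e)))))))))), t true 1 (b (a (f (a (c (b (d (a (b (c e)))))))))), t false 1 (b (a (f (c (b (d (a (b
  (c (b e)))))))))), t false 1 (b (c (a (f (a (b (d (a (b (c e)))))))))), t true 1 (b (c (b (a (f (a
  (d (a (b (c e)))))))))), t false 1 (b (d (a (f (c (b (d (b (c (b e)))))))))), t false 1 (b (f (c
  (b (d (a (b (c (b (f e)))))))))), t false 1 (c (a (f (a (b (c (d (a (b (c e)))))))))), t true 1 (c
  (b (a (f (a (c (d (a (b (c e)))))))))), t false 1 (c (b (a (f (c (d (a (b (c (b e)))))))))), t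
  false 1 (c (b (d (a (f (c (d (b (c (b e)))))))))), t false 1 (c (b (f (c (d (a (b (c (b (f
  e)))))))))), t true 1 (d (a (f (c (b (d (b (c (b (d e)))))))))), t false 1 (f (a (b (c (b (f (d (a
  (b (c e)))))))))), t false 1 (f (a (c (a (b (a (c (f (d (a e)))))))))), t false 1 (f (b (c (b (d
  (a (f (d (b (c e))))))))))])) nil (hit [t false 1 (a (b (c (b (f (a (d (a (c e))))))))), t false 1
  (a (f (a (b (a (c (b (d (a e))))))))), t false 1 (a (f (a (b (c (b (d (a (c e))))))))), t true 1
  (a (f (b (c (b (a (d (a (c e))))))))), t true 1 (a (f (b (d (a (b (c (b (d e))))))))), t true 1 (b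
  (a (f (a (c (b (d (a (c e))))))))), t false 1 (b (a (f (b (d (a (b (c (b e))))))))), t false 1 (b
  (c (a (f (a (b (d (a (c e))))))))), t false 1 (b (c (a (f (b (d (a (b (c e))))))))), t true 1 (b
  (c (b (a (f (a (d (a (c e))))))))), t false 1 (b (c (d (a (f (b (d (b (c e))))))))), t false 1 (b
  (d (a (f (b (d (b (c (b e))))))))), t false 1 (b (f (b (d (a (b (c (b (f e))))))))), t false 1 (c
  (a (f (a (b (c (d (a (c e))))))))), t false 1 (c (a (f (b (c (d (a (b (c e))))))))), t true 1 (c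
  (b (a (f (a (c (d (a (c e))))))))), t false 1 (c (d (a (f (b (c (d (b (c e))))))))), t true 1 (d
  (a (f (b (d (b (c (b (d e))))))))), t false 1 (f (a (b (a (c (b (f (d (a e))))))))), t false 1 (f
  (a (b (c (b (f (d (a (c e))))))))), t false 1 (f (b (c (b (d (a (f (d (c e)))))))))])) (br nil (br
  nil nil nil nil (hit [t false 1 (a (b (c (b (f (a (d (a (c (b e)))))))))), t true 1 (a (f (a (b (a
  (c (a (b (d (a e)))))))))), t false 1 (a (f (a (b (c (b (d (a (c (b e)))))))))), t true 1 (a (f (b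
  (c (b (a (d (a (c (b e)))))))))), t true 1 (a (f (b (c (d (a (b (c (b (d e)))))))))), t true 1 (b
  (a (f (a (c (b (d (a (c (b e)))))))))), t false 1 (b (c (a (f (a (b (d (a (c (b e)))))))))), t
  false 1 (b (c (a (f (b (d (a (b (c (b e)))))))))), t true 1 (b (c (b (a (f (a (d (a (c (b
  e)))))))))), t false 1 (b (c (d (a (f (b (d (b (c (b e)))))))))), t false 1 (b (c (f (b (d (a (b
  (c (b (f e)))))))))), t false 1 (c (a (f (a (b (c (d (a (c (b e)))))))))), t false 1 (c (a (f (b
  (c (d (a (b (c (b e)))))))))), t true 1 (c (b (a (f (a (c (d (a (c (b e)))))))))), t false 1 (c (d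
  (a (f (b (c (d (b (c (b e)))))))))), t false 1 (c (f (b (c (d (a (b (c (b (f e)))))))))), t true 1
  (d (a (f (b (c (d (b (c (b (d e)))))))))), t true 1 (f (a (b (a (c (a (b (f (d (a e)))))))))), t
  false 1 (f (a (b (c (b (f (d (a (c (b e)))))))))), t false 1 (f (b (c (b (d (a (f (d (c (b
  e))))))))))])) nil nil (hit [t false 1 (a (b (c (b (f (a (d (a (b e))))))))), t false 1 (a (f (a
  (b (c (a (b (d (a e))))))))), t false 1 (a (f (a (b (c (b (d (a (b e))))))))), t true 1 (a (f (b
  (c (b (a (d (a (b e))))))))), t true 1 (a (f (c (d (a (b (c (b (d e))))))))), t true 1 (b (a (f (a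
  (c (b (d (a (b e))))))))), t true 1 (b (a (f (c (b (d (a (c (b e))))))))), t false 1 (b (c (a (f
  (a (b (d (a (b e))))))))), t true 1 (b (c (b (a (f (a (d (a (b e))))))))), t true 1 (b (d (a (f (c
  (b (d (c (b e))))))))), t false 1 (c (a (f (a (b (c (d (a (b e))))))))), t false 1 (c (a (f (c (d
  (a (b (c (b e))))))))), t true 1 (c (b (a (f (a (c (d (a (b e))))))))), t true 1 (c (b (a (f (c (d
  (a (c (b e))))))))), t true 1 (c (b (d (a (f (c (d (c (b e))))))))), t false 1 (c (d (a (f (c (d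
  (b (c (b e))))))))), t false 1 (c (f (c (d (a (b (c (b (f e))))))))), t true 1 (d (a (f (c (d (b
  (c (b (d e))))))))), t false 1 (f (a (b (c (a (b (f (d (a e))))))))), t false 1 (f (a (b (c (b (f
  (d (a (b e))))))))), t false 1 (f (b (c (b (d (a (f (d (b e)))))))))])) nil nil) nil) nil nil (br
  nil (br (br nil nil nil nil (hit [t true 1 (a (b (a (d (b (c (b (f (a e))))))))), t false 1 (a (b
  (c (b (d (f (a (d (c e))))))))), t true 1 (a (b (d (b (c (b (f (a (d e))))))))), t false 1 (b (c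
  (d (f (a (b (d (b (c e))))))))), t false 1 (b (d (f (a (b (d (b (c (b e))))))))), t false 1 (b (f
  (a (b (d (b (c (b (f e))))))))), t false 1 (c (d (f (a (b (c (d (b (c e))))))))), t true 1 (d (f
  (a (b (d (b (c (b (d e))))))))), t false 1 (f (a (b (c (b (d (f (d (c e)))))))))])) nil (br (br
  nil nil nil nil (hit [t false 1 (a (b (c (b (d (f (a (d (b (c e)))))))))), t true 1 (a (c (b (a (d
  (b (c (b (f (a e)))))))))), t true 1 (a (c (b (d (b (c (b (f (a (d e)))))))))), t false 1 (b (d (f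
  (a (c (b (d (b (c (b e)))))))))), t false 1 (b (f (a (c (b (d (b (c (b (f e)))))))))), t false 1
  (c (b (d (f (a (c (d (b (c (b e)))))))))), t false 1 (c (b (f (a (c (d (b (c (b (f e)))))))))), t
  true 1 (d (f (a (c (b (d (b (c (b (d e)))))))))), t false 1 (f (a (b (c (b (d (f (d (b (c
  e))))))))))])) nil nil nil nil) nil nil) (br (br nil nil nil nil (hit [t false 1 (a (b (c (b (d (f
  (a (d (b e))))))))), t true 1 (a (c (a (d (b (c (b (f (a e))))))))), t true 1 (a (c (d (b (c (b (f
  (a (d e))))))))), t true 1 (b (d (f (a (c (b (d (c (b e))))))))), t true 1 (c (b (d (f (a (c (d (c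
  (b e))))))))), t false 1 (c (d (f (a (c (d (b (c (b e))))))))), t false 1 (c (f (a (c (d (b (c (b
  (f e))))))))), t true 1 (d (f (a (c (d (b (c (b (d e))))))))), t false 1 (f (a (b (c (b (d (f (d
  (b e)))))))))])) (br (br nil nil nil nil (hit [t true 1 (a (b (c (a (d (b (c (b (f (a e)))))))))),
  t false 1 (a (b (c (b (d (f (a (d (c (b e)))))))))), t true 1 (a (b (c (d (b (c (b (f (a (d
  e)))))))))), t false 1 (b (c (d (f (a (b (d (b (c (b e)))))))))), t false 1 (b (c (f (a (b (d (b
  (c (b (f e)))))))))), t false 1 (c (d (f (a (b (c (d (b (c (b e)))))))))), t false 1 (c (f (a (b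
  (c (d (b (c (b (f e)))))))))), t true 1 (d (f (a (b (c (d (b (c (b (d e)))))))))), t false 1 (f (a
  (b (c (b (d (f (d (c (b e))))))))))])) nil nil nil nil) nil nil nil) nil nil) nil) nil (br (br nil
  (br nil nil nil nil (hit [t false 1 (a (f (b (a (d (c (b (f e)))))))), t false 1 (b (a (f (b (d (c
  (b (f e)))))))), t false 1 (f (a (b (a (f (d (c (b e)))))))), t true 1 (f (b (a (c (b (f (d (c
  e))))))))])) (br nil (br nil nil nil nil (hit [t false 1 (a (f (b (c (a (d (c (b (f e))))))))), t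
  false 1 (b (c (a (f (b (d (c (b (f e))))))))), t false 1 (c (a (f (b (c (d (c (b (f e))))))))), t
  false 1 (f (b (a (c (a (b (f (d (c e))))))))), t true 1 (f (b (c (a (b (f (d (c (b e)))))))))]))
  nil nil nil) nil nil) (br (br nil nil (br nil nil nil nil (hit [t false 1 (a (b (a (d (b (f (b (c
  (a e))))))))), t true 1 (a (b (a (d (c (b (f (b (a e))))))))), t false 1 (a (b (c (a (b (f (b (d
  (c e))))))))), t true 1 (a (b (c (b (f (b (a (d (c e))))))))), t false 1 (a (b (d (b (f (b (c (a
  (d e))))))))), t true 1 (a (b (d (c (b (f (b (a (d e))))))))), t false 1 (a (b (f (b (c (a (d (c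
  (f e))))))))), t true 1 (b (c (a (b (d (b (f (b (c e))))))))), t false 1 (b (c (a (b (d (c (b (f
  (b e))))))))), t false 1 (b (f (c (a (b (d (c (b (f e))))))))), t false 1 (c (a (b (d (b (f (b (c
  (d e))))))))), t true 1 (c (a (b (d (c (b (f (b (d e))))))))), t false 1 (c (a (b (f (b (c (d (c
  (f e))))))))), t false 1 (f (a (b (c (a (b (f (d (c e)))))))))])) nil (hit [t true 1 (a (b (a (d
  (c (b (f (a e)))))))), t true 1 (a (b (c (b (f (a (d (c e)))))))), t true 1 (a (b (d (c (b (f (a
  (d e)))))))), t false 1 (b (f (a (b (d (c (b (f e)))))))), t true 1 (f (a (b (c (b (f (d (c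
  e))))))))])) nil (br (br nil nil nil nil (hit [t true 1 (a (c (b (d (c (b (f (a (d e))))))))), t
  false 1 (b (a (c (b (d (c (b (f (a e))))))))), t true 1 (b (c (b (d (b (f (a (b (c e))))))))), t
  false 1 (b (c (b (d (c (b (f (a (b e))))))))), t false 1 (b (f (a (c (b (d (c (b (f e))))))))), t
  true 1 (c (a (b (a (c (d (c (f (a e))))))))), t false 1 (c (b (d (b (f (a (b (c (d e))))))))), t
  true 1 (c (b (d (c (b (f (a (b (d e))))))))), t false 1 (c (b (f (a (b (c (d (c (f e)))))))))]))
  nil nil nil nil) nil (hit [t false 1 (b (f (b (d (c (b (f e))))))), t true 1 (f (b (c (b (f (d (c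
  e)))))))])) (br nil (br (br nil nil nil nil (hit [t true 1 (a (b (c (a (d (c (b (f (a e))))))))),
  t true 1 (a (b (c (b (f (a (d (c (b e))))))))), t true 1 (a (b (c (d (c (b (f (a (d e))))))))), t
  false 1 (b (c (f (a (b (d (c (b (f e))))))))), t false 1 (c (f (a (b (c (d (c (b (f e))))))))), t
  true 1 (f (a (b (c (b (f (d (c (b e)))))))))])) nil nil nil (hit [t false 1 (b (c (f (b (d (c (b
  (f e)))))))), t false 1 (c (f (b (c (d (c (b (f e)))))))), t true 1 (f (b (c (b (f (d (c (b
  e))))))))])) nil nil nil) nil nil) nil) (br (br nil (br nil nil nil nil (hit [t false 1 (a (f (b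
  (a (d (b (f e))))))), t false 1 (b (a (f (b (d (b (f e))))))), t false 1 (f (a (b (a (f (d (b
  e)))))))])) (br nil (br nil nil nil nil (hit [t false 1 (a (f (b (c (a (d (b (f e)))))))), t false
  1 (b (c (a (f (b (d (b (f e)))))))), t false 1 (c (a (f (b (c (d (b (f e)))))))), t true 1 (f (b
  (c (a (b (f (d (b e))))))))])) nil nil nil) nil nil) (br (br nil nil nil nil (hit [t true 1 (a (b
  (a (d (b (f (a e))))))), t true 1 (a (b (d (b (f (a (d e))))))), t false 1 (b (f (a (b (d (b (f
  e)))))))])) nil nil nil (hit [t false 1 (b (f (b (d (b (f e))))))])) (br (br nil (br nil nil nil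
  nil (hit [t false 1 (a (c (f (b (a (d (b (f e)))))))), t false 1 (b (a (c (f (b (d (b (f
  e)))))))), t false 1 (c (f (b (a (c (d (b (f e)))))))), t true 1 (f (b (a (c (b (f (d (b
  e))))))))])) nil nil nil) (br (br nil nil nil nil (hit [t true 1 (a (b (c (a (d (b (f (a
  e)))))))), t true 1 (a (b (c (b (f (a (d (b e)))))))), t true 1 (a (b (c (d (b (f (a (d e)))))))),
  t false 1 (b (c (f (a (b (d (b (f e)))))))), t false 1 (c (f (a (b (c (d (b (f e)))))))), t true 1
  (f (a (b (c (b (f (d (b e))))))))])) nil nil nil (hit [t false 1 (b (c (f (b (d (b (f e))))))), t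
  false 1 (c (f (b (c (d (b (f e))))))), t true 1 (f (b (c (b (f (d (b e)))))))])) nil nil nil) nil
  nil) nil) (br (br nil (br (br nil nil nil (br nil (br nil nil nil nil (hit [t true 1 (a (d (c (f
  (b (a (d (b (a e))))))))), t true 1 (b (a (d (c (f (b (d (b (a e))))))))), t false 1 (b (c (f (b
  (d (a (b (a (c e))))))))), t false 1 (b (d (c (f (b (d (a (b (a e))))))))), t false 1 (b (f (b (d
  (a (b (a (c (f e))))))))), t true 1 (c (f (a (b (a (c (d (c (a e))))))))), t true 1 (c (f (b (d (a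
  (b (a (c (d e))))))))), t true 1 (d (c (f (b (d (a (b (a (d e))))))))), t false 1 (f (a (b (a (d
  (c (f (d (a e)))))))))])) nil nil nil) nil) nil nil (br (br nil (br nil nil nil nil (hit [t true 1
  (a (b (a (d (a (c (f (a (b e))))))))), t false 1 (a (b (a (d (b (a (c (f (a e))))))))), t false 1
  (a (c (f (b (a (d (b (a (c e))))))))), t false 1 (a (f (b (a (d (b (a (c (f e))))))))), t false 1
  (b (a (c (f (a (b (d (b (c e))))))))), t false 1 (b (a (d (a (c (f (a (b (d e))))))))), t true 1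
  (b (a (d (b (a (c (f (a (d e))))))))), t false 1 (b (a (f (a (b (d (b (c (f e))))))))), t false 1
  (c (f (b (a (c (d (b (a (c e)))))))))])) (br nil (br nil nil nil nil (hit [t false 1 (a (b (f (b
  (c (a (d (b (a (c e)))))))))), t false 1 (a (c (a (b (f (b (d (b (a (c e)))))))))), t true 1 (a (c
  (b (f (b (a (d (b (a (c e)))))))))), t false 1 (a (f (b (c (a (d (b (a (c (f e)))))))))), t true 1
  (b (a (c (a (f (a (b (d (b (c e)))))))))), t true 1 (b (c (a (b (a (c (f (a (d (b e)))))))))), t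
  false 1 (b (c (a (b (d (a (c (f (a (b e)))))))))), t true 1 (b (c (a (b (d (b (a (c (f (a
  e)))))))))), t false 1 (b (c (a (d (a (c (f (a (b (d e)))))))))), t true 1 (b (c (a (d (b (a (c (f
  (a (d e)))))))))), t false 1 (b (c (a (f (a (b (d (b (c (f e)))))))))), t false 1 (b (f (a (c (a
  (b (d (b (a (c e)))))))))), t true 1 (b (f (b (a (c (a (d (b (a (c e)))))))))), t false 1 (c (a (b
  (f (b (c (d (b (a (c e)))))))))), t false 1 (c (a (f (b (c (d (b (a (c (f e)))))))))), t true 1 (c
  (b (f (b (a (c (d (b (a (c e)))))))))), t false 1 (f (a (c (a (b (f (d (b (a (c e)))))))))), t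
  true 1 (f (b (c (a (b (a (c (f (d (b e))))))))))])) nil nil nil) nil (hit [t false 1 (a (c (f (a
  (d (b (a (c e)))))))), t false 1 (a (f (a (d (b (a (c (f e)))))))), t false 1 (c (f (a (c (d (b (a
  (c e)))))))), t true 1 (f (a (b (a (c (f (d (b e))))))))])) (br (br nil nil nil nil (hit [t false
  1 (a (b (c (f (a (d (b (a (c e))))))))), t false 1 (a (b (f (a (d (b (a (c (f e))))))))), t false
  1 (b (c (f (a (b (d (b (a (c e))))))))), t false 1 (b (f (a (b (d (b (a (c (f e))))))))), t false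
  1 (c (f (a (b (c (d (b (a (c e))))))))), t true 1 (f (a (b (a (c (f (d (b (a e)))))))))])) nil (br
  nil nil nil nil (hit [t false 1 (b (f (c (b (d (b (a (c (f e))))))))), t false 1 (c (b (f (c (d (b
  (a (c (f e))))))))), t false 1 (f (a (c (b (a (f (d (b (a e))))))))), t false 1 (f (b (a (c (b (f
  (d (b (a e))))))))), t false 1 (f (b (c (b (f (d (b (a (c e)))))))))])) nil nil) (br nil (br (br
  nil nil nil nil (hit [t false 1 (a (b (c (f (a (d (b (a (c (f e)))))))))), t false 1 (b (c (f (a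
  (b (d (b (a (c (f e)))))))))), t false 1 (c (f (a (b (c (d (b (a (c (f e)))))))))), t false 1 (f
  (a (b (a (c (a (f (d (b (a e)))))))))), t false 1 (f (a (b (a (c (b (a (f (d (b e))))))))))])) nil
  nil nil (hit [t false 1 (a (b (f (b (c (a (d (b (a e))))))))), t false 1 (a (c (a (b (f (b (d (b
  (a e))))))))), t true 1 (a (c (b (f (b (a (d (b (a e))))))))), t true 1 (b (a (c (a (f (a (b (d (b
  e))))))))), t false 1 (b (a (c (b (a (f (a (d (b e))))))))), t false 1 (b (c (a (b (d (b (c (f (a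
  e))))))))), t false 1 (b (c (b (d (a (c (f (a (b e))))))))), t true 1 (b (c (b (d (b (a (c (f (a
  e))))))))), t false 1 (b (c (d (a (c (f (a (b (d e))))))))), t true 1 (b (c (d (b (a (c (f (a (d
  e))))))))), t false 1 (b (c (f (a (b (d (b (c (f e))))))))), t false 1 (b (f (a (c (a (b (d (b (a
  e))))))))), t true 1 (b (f (b (a (c (a (d (b (a e))))))))), t false 1 (c (a (b (f (b (c (d (b (a
  e))))))))), t true 1 (c (b (f (b (a (c (d (b (a e))))))))), t false 1 (c (f (b (c (d (b (a (c (f
  e))))))))), t false 1 (f (a (c (a (b (f (d (b (a e))))))))), t false 1 (f (b (a (c (b (a (f (d (b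
  e)))))))))])) nil nil (hit [t false 1 (c (f (c (d (b (a (c (f e)))))))), t false 1 (f (a (c (a (f
  (d (b (a e)))))))), t false 1 (f (a (c (b (a (f (d (b e)))))))), t false 1 (f (b (a (c (b (f (d (b
  e))))))))])) nil nil) nil) nil (br (br nil (br (br nil nil (br nil nil nil nil (hit [t true 1 (a
  (b (a (c (f (c (d (a (c (f e)))))))))), t false 1 (a (b (c (f (c (a (d (a (c (f e)))))))))), t
  true 1 (a (c (f (c (b (a (d (a (c (f e)))))))))), t true 1 (b (a (c (f (c (b (d (a (c (f
  e)))))))))), t false 1 (b (c (f (c (a (b (d (a (c (f e)))))))))), t false 1 (c (a (b (a (f (c (d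
  (a (c (f e)))))))))), t true 1 (c (f (a (b (a (c (d (a (c (f e)))))))))), t false 1 (c (f (c (a (b
  (a (d (a (c (f e)))))))))), t false 1 (f (a (b (a (c (d (a (c (f (d e)))))))))), t true 1 (f (c (a
  (b (a (c (f (d (a (c e))))))))))])) nil nil) nil (br nil nil nil nil (hit [t false 1 (a (f (c (b
  (a (d (a (c (f e))))))))), t false 1 (b (a (f (c (b (d (a (c (f e))))))))), t false 1 (c (b (a (f
  (c (d (a (c (f e))))))))), t false 1 (f (a (c (b (a (f (d (a (c e))))))))), t false 1 (f (b (a (c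
  (b (f (d (a (c e)))))))))])) nil nil) (br (br nil (br nil nil nil nil (hit [t true 1 (a (b (c (a
  (b (f (b (d (a (c e)))))))))), t true 1 (a (b (c (b (f (a (d (a (b (c e)))))))))), t false 1 (a (b
  (c (b (f (b (a (d (a (c e)))))))))), t true 1 (a (b (f (b (c (a (d (a (c (f e)))))))))), t false 1
  (a (c (a (b (d (a (c (f (b (d e)))))))))), t false 1 (a (c (b (a (d (a (b (c (f (b e)))))))))), t
  true 1 (a (c (b (a (d (b (c (f (b (a e)))))))))), t false 1 (a (c (b (d (a (b (c (f (b (d
  e)))))))))), t true 1 (a (c (b (d (b (c (f (b (a (d e)))))))))), t false 1 (a (c (b (f (a (d (a (b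
  (c (f e)))))))))), t true 1 (b (a (c (a (b (d (a (c (f (b e)))))))))), t true 1 (b (a (c (a (d (a
  (c (f (b (d e)))))))))), t true 1 (b (f (a (c (a (b (d (a (c (f e)))))))))), t false 1 (b (f (b (a
  (c (a (d (a (c (f e)))))))))), t true 1 (c (a (b (f (b (c (d (a (c (f e)))))))))), t false 1 (c (b
  (f (b (a (c (d (a (c (f e)))))))))), t true 1 (f (a (b (c (a (b (f (d (a (c e)))))))))), t false 1
  (f (a (c (a (b (a (c (f (d (a e)))))))))), t false 1 (f (a (c (a (b (d (a (c (f (d e))))))))))]))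
  nil nil nil) (br nil nil nil nil (hit [t false 1 (a (b (f (b (c (a (d (a (c e))))))))), t false 1
  (a (c (a (b (f (b (d (a (c e))))))))), t true 1 (a (c (b (f (b (a (d (a (c e))))))))), t false 1
  (a (f (b (c (a (d (a (c (f e))))))))), t true 1 (b (c (a (b (d (a (c (f (b e))))))))), t true 1 (b
  (c (a (d (a (c (f (b (d e))))))))), t false 1 (b (f (a (c (a (b (d (a (c e))))))))), t true 1 (b
  (f (b (a (c (a (d (a (c e))))))))), t false 1 (c (a (b (f (b (c (d (a (c e))))))))), t false 1 (c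
  (a (f (b (c (d (a (c (f e))))))))), t true 1 (c (b (f (b (a (c (d (a (c e))))))))), t false 1 (f
  (a (c (a (b (f (d (a (c e)))))))))])) nil nil (hit [t false 1 (a (f (c (a (d (a (c (f e)))))))), t
  false 1 (c (a (f (c (d (a (c (f e)))))))), t false 1 (f (a (c (a (f (d (a (c e))))))))])) nil (hit
  [t false 1 (a (c (f (a (d (a (c e))))))), t false 1 (a (f (a (d (a (c (f e))))))), t false 1 (c (f
  (a (c (d (a (c e)))))))])) (br (br nil nil (br nil nil nil nil (hit [t false 1 (a (b (f (c (a (d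
  (a (c (f e))))))))), t false 1 (b (f (c (a (b (d (a (c (f e))))))))), t false 1 (c (a (b (f (c (d
  (a (c (f e))))))))), t false 1 (f (a (b (c (a (f (d (a (c e))))))))), t false 1 (f (b (c (a (b (f
  (d (a (c e))))))))), t true 1 (f (c (a (b (a (c (f (d (a e)))))))))])) nil (hit [t false 1 (a (b
  (c (f (a (d (a (c e)))))))), t false 1 (a (b (f (a (d (a (c (f e)))))))), t false 1 (b (c (f (a (b
  (d (a (c e)))))))), t false 1 (b (f (a (b (d (a (c (f e)))))))), t false 1 (c (f (a (b (c (d (a (c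
  e)))))))), t true 1 (f (a (b (a (c (f (d (a e))))))))])) nil (br (br nil nil nil nil (hit [t false
  1 (a (c (b (f (a (d (a (c (f e))))))))), t false 1 (b (f (a (c (b (d (a (c (f e))))))))), t false
  1 (c (b (f (a (c (d (a (c (f e))))))))), t false 1 (f (a (b (a (c (b (f (d (a e))))))))), t false
  1 (f (a (b (c (b (f (d (a (c e)))))))))])) nil nil nil (hit [t false 1 (b (f (c (b (d (a (c (f
  e)))))))), t false 1 (c (b (f (c (d (a (c (f e)))))))), t false 1 (f (a (c (b (a (f (d (a
  e)))))))), t false 1 (f (b (a (c (b (f (d (a e)))))))), t false 1 (f (b (c (b (f (d (a (c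
  e))))))))])) nil nil) (br (br nil (br nil nil nil nil (hit [t true 1 (a (b (c (a (b (f (b (d (a
  e))))))))), t true 1 (a (b (c (b (f (a (d (a (b e))))))))), t false 1 (a (b (c (b (f (b (a (d (a
  e))))))))), t false 1 (a (c (a (d (a (b (c (f (b e))))))))), t true 1 (a (c (a (d (b (c (f (b (a
  e))))))))), t true 1 (a (c (b (a (d (a (c (f (b e))))))))), t false 1 (a (c (d (a (b (c (f (b (d
  e))))))))), t true 1 (a (c (d (b (c (f (b (a (d e))))))))), t false 1 (a (c (f (a (d (a (b (c (f
  e))))))))), t true 1 (b (a (c (b (d (a (c (f (b e))))))))), t true 1 (b (a (c (d (a (c (f (b (d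
  e))))))))), t false 1 (c (f (b (a (c (d (a (c (f e)))))))))])) nil nil (hit [t false 1 (a (c (f (a
  (d (a (c (f e)))))))), t false 1 (c (f (a (c (d (a (c (f e))))))))])) (br (br nil nil nil nil (hit
  [t false 1 (a (b (c (f (a (d (a (c (f e))))))))), t false 1 (b (c (f (a (b (d (a (c (f e))))))))),
  t false 1 (c (f (a (b (c (d (a (c (f e))))))))), t false 1 (f (a (b (a (c (a (f (d (a
  e)))))))))])) nil nil nil (hit [t false 1 (a (b (f (b (c (a (d (a e)))))))), t false 1 (a (c (a (b
  (f (b (d (a e)))))))), t true 1 (a (c (b (f (b (a (d (a e)))))))), t true 1 (b (c (b (d (a (c (f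
  (b e)))))))), t true 1 (b (c (d (a (c (f (b (d e)))))))), t false 1 (b (f (a (c (a (b (d (a
  e)))))))), t true 1 (b (f (b (a (c (a (d (a e)))))))), t false 1 (c (a (b (f (b (c (d (a
  e)))))))), t true 1 (c (b (f (b (a (c (d (a e)))))))), t false 1 (c (f (b (c (d (a (c (f
  e)))))))), t false 1 (f (a (c (a (b (f (d (a e))))))))])) nil nil (hit [t false 1 (c (f (c (d (a
  (c (f e))))))), t false 1 (f (a (c (a (f (d (a e)))))))])) nil nil) nil) (br (br nil nil nil (br
  (br nil (br nil nil (br nil nil nil nil (hit [t false 1 (a (f (c (b (a (d (a (b (c (f e)))))))))),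
  t false 1 (b (a (f (c (b (d (a (b (c (f e)))))))))), t false 1 (c (b (a (f (c (d (a (b (c (f
  e)))))))))), t false 1 (f (a (c (b (a (f (d (a (b (c e)))))))))), t false 1 (f (b (a (c (b (f (d
  (a (b (c e)))))))))), t false 1 (f (c (a (b (a (c (f (d (a (b e))))))))))])) nil (hit [t false 1
  (a (c (f (b (a (d (a (b (c e))))))))), t false 1 (a (f (b (a (d (a (b (c (f e))))))))), t false 1
  (b (a (c (f (b (d (a (b (c e))))))))), t false 1 (b (a (f (b (d (a (b (c (f e))))))))), t false 1
  (c (f (b (a (c (d (a (b (c e))))))))), t false 1 (f (a (b (a (c (f (d (a (b e)))))))))])) (br nil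
  nil nil nil (hit [t false 1 (a (f (c (a (d (a (b (c (f e))))))))), t false 1 (c (a (f (c (d (a (b
  (c (f e))))))))), t false 1 (f (a (b (c (a (f (d (a (b e))))))))), t false 1 (f (a (c (a (f (d (a
  (b (c e))))))))), t false 1 (f (b (c (a (b (f (d (a (b e)))))))))])) nil (hit [t false 1 (a (b (c
  (f (a (d (a (b e)))))))), t false 1 (a (c (f (a (d (a (b (c e)))))))), t false 1 (a (f (a (d (a (b
  (c (f e)))))))), t false 1 (b (c (f (a (b (d (a (b e)))))))), t false 1 (c (f (a (b (c (d (a (b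
  e)))))))), t false 1 (c (f (a (c (d (a (b (c e))))))))])) (br (br nil nil (br nil nil nil nil (hit
  [t false 1 (a (b (f (c (a (d (a (b (c (f e)))))))))), t false 1 (b (f (c (a (b (d (a (b (c (f
  e)))))))))), t false 1 (c (a (b (f (c (d (a (b (c (f e)))))))))), t false 1 (f (a (b (c (a (f (d
  (a (b (c e)))))))))), t false 1 (f (b (c (a (b (f (d (a (b (c e))))))))))])) nil (hit [t false 1
  (a (b (c (f (a (d (a (b (c e))))))))), t false 1 (a (b (f (a (d (a (b (c (f e))))))))), t false 1
  (b (c (f (a (b (d (a (b (c e))))))))), t false 1 (b (f (a (b (d (a (b (c (f e))))))))), t false 1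
  (c (f (a (b (c (d (a (b (c e)))))))))])) nil (br (br nil nil nil nil (hit [t false 1 (a (c (b (f
  (a (d (a (b (c (f e)))))))))), t false 1 (b (f (a (c (b (d (a (b (c (f e)))))))))), t false 1 (c
  (b (f (a (c (d (a (b (c (f e)))))))))), t false 1 (f (a (b (c (b (f (d (a (b (c e)))))))))), t
  false 1 (f (a (c (a (b (a (c (f (d (a e))))))))))])) nil nil nil (hit [t false 1 (b (f (c (b (d (a
  (b (c (f e))))))))), t false 1 (c (b (f (c (d (a (b (c (f e))))))))), t false 1 (f (b (c (b (f (d
  (a (b (c e))))))))), t false 1 (f (c (a (b (a (c (f (d (a e)))))))))])) nil (hit [t false 1 (b (c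
  (f (b (d (a (b (c e)))))))), t false 1 (b (f (b (d (a (b (c (f e)))))))), t false 1 (c (f (b (c (d
  (a (b (c e)))))))), t false 1 (f (a (b (a (c (f (d (a e))))))))])) (br (br nil (br nil nil nil nil
  (hit [t false 1 (a (c (f (b (a (d (a (b (c (f e)))))))))), t false 1 (b (a (c (f (b (d (a (b (c (f
  e)))))))))), t false 1 (c (f (b (a (c (d (a (b (c (f e)))))))))), t true 1 (f (a (b (a (c (a (b (f
  (d (a e)))))))))), t true 1 (f (a (b (a (c (b (f (d (a (b e))))))))))])) nil nil (hit [t false 1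
  (a (c (f (a (d (a (b (c (f e))))))))), t false 1 (c (f (a (c (d (a (b (c (f e))))))))), t false 1
  (f (a (b (c (a (b (f (d (a e))))))))), t false 1 (f (a (b (c (b (f (d (a (b e)))))))))])) (br (br
  nil nil nil nil (hit [t false 1 (a (b (c (f (a (d (a (b (c (f e)))))))))), t false 1 (b (c (f (a
  (b (d (a (b (c (f e)))))))))), t false 1 (c (f (a (b (c (d (a (b (c (f e))))))))))])) nil nil nil
  (hit [t false 1 (b (c (f (b (d (a (b (c (f e))))))))), t false 1 (c (f (b (c (d (a (b (c (f
  e))))))))), t true 1 (f (a (b (a (c (a (f (d (a e)))))))))])) nil nil (hit [t false 1 (c (f (c (d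
  (a (b (c (f e)))))))), t false 1 (f (a (b (c (a (f (d (a e)))))))), t false 1 (f (b (c (a (b (f (d
  (a e)))))))), t false 1 (f (b (c (b (f (d (a (b e))))))))])) nil nil) nil) nil nil (br (br nil (br
  nil nil (br nil (br nil nil nil nil (hit [t false 1 (a (b (c (b (a (d (b (c (f (a e)))))))))), t
  false 1 (a (b (c (b (d (b (c (f (a (d e)))))))))), t true 1 (a (f (a (b (c (b (d (b (c (f
  e)))))))))), t false 1 (a (f (b (c (b (a (d (b (c (f e)))))))))), t false 1 (b (a (c (b (a (f (a
  (d (b (c e)))))))))), t false 1 (b (a (f (a (c (b (d (b (c (f e)))))))))), t false 1 (b (c (a (b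
  (a (c (f (a (d (b e)))))))))), t true 1 (b (c (a (f (a (b (d (b (c (f e)))))))))), t true 1 (b (c
  (b (a (d (b (c (f (a (d e)))))))))), t true 1 (c (a (f (a (b (c (d (b (c (f e)))))))))), t false 1
  (c (b (a (f (a (c (d (b (c (f e)))))))))), t false 1 (f (a (b (c (b (d (b (c (f (d e)))))))))), t
  false 1 (f (b (a (c (b (a (f (d (b (c e)))))))))), t false 1 (f (b (c (a (b (a (c (f (d (b
  e))))))))))])) nil nil nil) nil (hit [t false 1 (a (c (f (b (a (d (b (c e)))))))), t false 1 (a (f
  (b (a (d (b (c (f e)))))))), t false 1 (b (a (c (f (b (d (b (c e)))))))), t false 1 (b (a (f (b (d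
  (b (c (f e)))))))), t false 1 (c (f (b (a (c (d (b (c e)))))))), t false 1 (f (a (b (a (c (f (d (b
  e))))))))])) nil nil nil) (br (br nil nil nil nil (hit [t true 1 (a (b (a (d (b (c (f (a
  e)))))))), t true 1 (a (b (d (b (c (f (a (d e)))))))), t false 1 (b (c (f (a (b (d (b (c
  e)))))))), t false 1 (b (f (a (b (d (b (c (f e)))))))), t false 1 (c (f (a (b (c (d (b (c
  e))))))))])) nil (br (br nil nil nil nil (hit [t false 1 (a (b (c (b (f (a (d (b (c e))))))))), t
  true 1 (a (c (b (a (d (b (c (f (a e))))))))), t true 1 (a (c (b (d (b (c (f (a (d e))))))))), t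
  false 1 (b (f (a (c (b (d (b (c (f e))))))))), t false 1 (c (b (f (a (c (d (b (c (f e))))))))), t
  false 1 (f (a (b (c (b (f (d (b (c e)))))))))])) nil nil nil (hit [t false 1 (b (f (c (b (d (b (c
  (f e)))))))), t false 1 (c (b (f (c (d (b (c (f e)))))))), t false 1 (f (b (c (b (f (d (b (c
  e))))))))])) nil (hit [t false 1 (b (c (f (b (d (b (c e))))))), t false 1 (b (f (b (d (b (c (f
  e))))))), t false 1 (c (f (b (c (d (b (c e)))))))])) (br (br nil (br nil nil nil nil (hit [t false
  1 (a (c (f (b (a (d (b (c (f e))))))))), t false 1 (b (a (c (f (b (d (b (c (f e))))))))), t false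
  1 (c (f (b (a (c (d (b (c (f e))))))))), t true 1 (f (a (b (a (c (b (f (d (b e)))))))))])) nil nil
  (hit [t false 1 (a (b (c (b (f (a (d (b e)))))))), t true 1 (a (c (a (d (b (c (f (a e)))))))), t
  true 1 (a (c (d (b (c (f (a (d e)))))))), t false 1 (c (f (a (c (d (b (c (f e)))))))), t false 1
  (f (a (b (c (b (f (d (b e))))))))])) (br (br nil nil nil nil (hit [t true 1 (a (b (c (a (d (b (c
  (f (a e))))))))), t true 1 (a (b (c (d (b (c (f (a (d e))))))))), t false 1 (b (c (f (a (b (d (b
  (c (f e))))))))), t false 1 (c (f (a (b (c (d (b (c (f e)))))))))])) nil nil nil (hit [t false 1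
  (b (c (f (b (d (b (c (f e)))))))), t false 1 (c (f (b (c (d (b (c (f e))))))))])) nil nil (hit [t
  false 1 (c (f (c (d (b (c (f e))))))), t false 1 (f (b (c (b (f (d (b e)))))))])) nil nil) nil)
  nil (br (br nil (br nil nil (br nil (br nil nil nil nil (hit [t false 1 (a (b (c (b (a (d (c (f (a
  e))))))))), t false 1 (a (b (c (b (d (c (f (a (d e))))))))), t true 1 (a (f (a (b (c (b (d (c (f
  e))))))))), t false 1 (a (f (b (c (b (a (d (c (f e))))))))), t true 1 (b (a (c (a (f (a (b (d (c
  e))))))))), t false 1 (b (a (c (b (a (f (a (d (c e))))))))), t false 1 (b (a (f (a (c (b (d (c (f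
  e))))))))), t false 1 (b (c (a (b (d (c (f (a (b e))))))))), t false 1 (b (c (a (d (c (f (a (b (d
  e))))))))), t true 1 (b (c (b (a (d (c (f (a (d e))))))))), t true 1 (c (a (f (a (b (c (d (c (f
  e))))))))), t false 1 (c (b (a (f (a (c (d (c (f e))))))))), t false 1 (f (a (b (c (b (d (c (f (d
  e))))))))), t false 1 (f (b (a (c (b (a (f (d (c e)))))))))])) nil nil nil) nil nil) (br (br nil
  (br nil nil nil nil (hit [t true 1 (a (b (c (a (b (f (b (d (c e))))))))), t false 1 (a (b (c (b (f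
  (b (a (d (c e))))))))), t true 1 (a (b (f (b (c (a (d (c (f e))))))))), t false 1 (a (c (a (b (d
  (c (f (b (d e))))))))), t true 1 (a (c (b (a (d (c (f (b (a e))))))))), t true 1 (a (c (b (d (c (f
  (b (a (d e))))))))), t true 1 (b (a (c (a (b (d (c (f (b e))))))))), t true 1 (b (a (c (a (d (c (f
  (b (d e))))))))), t true 1 (b (f (a (c (a (b (d (c (f e))))))))), t false 1 (b (f (b (a (c (a (d
  (c (f e))))))))), t true 1 (c (a (b (f (b (c (d (c (f e))))))))), t false 1 (c (b (f (b (a (c (d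
  (c (f e))))))))), t true 1 (f (a (b (c (a (b (f (d (c e))))))))), t false 1 (f (a (c (a (b (d (c
  (f (d e)))))))))])) nil nil nil) (br nil nil nil nil (hit [t false 1 (a (b (f (b (c (a (d (c
  e)))))))), t false 1 (a (c (a (b (f (b (d (c e)))))))), t true 1 (a (c (b (f (b (a (d (c
  e)))))))), t false 1 (a (f (b (c (a (d (c (f e)))))))), t true 1 (b (c (a (b (d (c (f (b
  e)))))))), t true 1 (b (c (a (d (c (f (b (d e)))))))), t false 1 (b (f (a (c (a (b (d (c
  e)))))))), t true 1 (b (f (b (a (c (a (d (c e)))))))), t false 1 (c (a (b (f (b (c (d (c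
  e)))))))), t false 1 (c (a (f (b (c (d (c (f e)))))))), t true 1 (c (b (f (b (a (c (d (c
  e)))))))), t false 1 (f (a (c (a (b (f (d (c e))))))))])) nil nil (hit [t false 1 (a (f (c (a (d
  (c (f e))))))), t false 1 (c (a (f (c (d (c (f e))))))), t false 1 (f (a (c (a (f (d (c
  e)))))))])) nil nil) (br (br nil nil (br nil nil nil nil (hit [t false 1 (a (b (f (c (a (d (c (f
  e)))))))), t false 1 (b (f (c (a (b (d (c (f e)))))))), t false 1 (c (a (b (f (c (d (c (f
  e)))))))), t false 1 (f (a (b (c (a (f (d (c e)))))))), t false 1 (f (b (c (a (b (f (d (c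
  e))))))))])) nil nil) nil (br (br nil nil nil nil (hit [t false 1 (a (b (c (b (f (a (d (c
  e)))))))), t true 1 (a (c (b (a (d (c (f (a e)))))))), t true 1 (a (c (b (d (c (f (a (d e)))))))),
  t false 1 (b (f (a (c (b (d (c (f e)))))))), t false 1 (c (b (f (a (c (d (c (f e)))))))), t false
  1 (f (a (b (c (b (f (d (c e))))))))])) nil nil nil (hit [t false 1 (b (f (c (b (d (c (f e))))))),
  t false 1 (c (b (f (c (d (c (f e))))))), t false 1 (f (b (c (b (f (d (c e)))))))])) nil nil) (br
  (br nil (br nil nil nil nil (hit [t true 1 (a (c (a (d (c (f (b (a e)))))))), t true 1 (a (c (b (a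
  (d (c (f (b e)))))))), t true 1 (a (c (d (c (f (b (a (d e)))))))), t true 1 (b (a (c (b (d (c (f
  (b e)))))))), t true 1 (b (a (c (d (c (f (b (d e)))))))), t false 1 (c (f (b (a (c (d (c (f
  e))))))))])) nil nil (hit [t true 1 (a (c (a (d (c (f (a e))))))), t true 1 (a (c (d (c (f (a (d
  e))))))), t false 1 (c (f (a (c (d (c (f e)))))))])) (br (br nil nil nil nil (hit [t true 1 (a (b
  (c (a (d (c (f (a e)))))))), t true 1 (a (b (c (d (c (f (a (d e)))))))), t true 1 (b (c (a (b (d
  (c (f (a e)))))))), t true 1 (b (c (b (d (c (f (a (b e)))))))), t true 1 (b (c (d (c (f (a (b (d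
  e)))))))), t false 1 (c (f (a (b (c (d (c (f e))))))))])) nil nil nil (hit [t true 1 (b (c (b (d
  (c (f (b e))))))), t true 1 (b (c (d (c (f (b (d e))))))), t false 1 (c (f (b (c (d (c (f
  e)))))))])) nil nil (hit [t false 1 (c (f (c (d (c (f e))))))])) nil nil) nil) nil nil)

def R4 : R := R.br R41 R42 R43 R44 R45

def R51 : R := (br nil (br (br nil nil (br nil nil nil nil (hit [t false 1 (a (b (a (c (f (c
  e)))))), t true 1 (a (b (c (f (c (a e)))))), t false 1 (a (c (f (c (b (a e)))))), t false 1 (b (a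
  (c (f (c (b e)))))), t true 1 (b (c (f (c (a (b e)))))), t true 1 (c (a (b (a (f (c e)))))), t
  false 1 (c (f (a (b (a (c e)))))), t true 1 (c (f (c (a (b (a e)))))), t false 1 (f (a (b (a (c (f
  e))))))])) (br nil nil (br nil nil nil nil (hit [t false 1 (a (b (a (c (d (f (c e))))))), t false
  1 (a (b (a (d (f (c (d e))))))), t true 1 (a (b (c (d (f (c (a e))))))), t true 1 (a (b (d (f (c
  (d (a e))))))), t false 1 (a (c (d (f (c (b (a e))))))), t false 1 (a (d (f (c (d (b (a e))))))),
  t false 1 (b (a (c (d (f (c (b e))))))), t false 1 (b (a (d (f (c (d (b e))))))), t true 1 (b (c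
  (d (f (c (a (b e))))))), t true 1 (b (d (f (c (d (a (b e))))))), t true 1 (c (d (a (b (a (f (c
  e))))))), t false 1 (c (d (f (a (b (a (c e))))))), t true 1 (c (d (f (c (a (b (a e))))))), t true
  1 (d (a (b (a (f (c (d e))))))), t false 1 (d (f (a (b (a (c (d e))))))), t true 1 (d (f (c (d (a
  (b (a e))))))), t false 1 (f (a (b (a (c (d (f e)))))))])) nil (hit [t false 1 (a (b (a (d (f (d
  e)))))), t true 1 (a (b (d (f (d (a e)))))), t false 1 (a (d (f (d (b (a e)))))), t false 1 (b (a
  (d (f (d (b e)))))), t true 1 (b (d (f (d (a (b e)))))), t true 1 (d (a (b (a (f (d e)))))), t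
  false 1 (d (f (a (b (a (d e)))))), t true 1 (d (f (d (a (b (a e)))))), t false 1 (f (a (b (a (d (f
  e))))))])) nil) nil (br nil (br nil nil nil (br nil (br nil nil (br nil nil nil nil (hit [t false
  1 (a (b (c (b (f (b (c (d (a e))))))))), t false 1 (a (b (d (a (c (b (f (b (c e))))))))), t true 1
  (a (b (d (c (b (f (b (c (a e))))))))), t true 1 (a (c (a (b (d (a (c (f (b e))))))))), t true 1 (a
  (c (b (d (a (b (c (f (b e))))))))), t false 1 (a (c (b (d (b (c (f (b (a e))))))))), t true 1 (a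
  (f (a (c (a (b (d (a (c e))))))))), t true 1 (a (f (a (c (b (d (a (b (c e))))))))), t false 1 (a
  (f (b (a (c (a (d (a (c e))))))))), t false 1 (a (f (c (a (b (d (a (c (b e))))))))), t false 1 (a
  (f (c (b (d (a (b (c (b e))))))))), t true 1 (a (f (c (b (d (b (c (b (a e))))))))), t false 1 (b
  (a (c (a (d (a (c (f (b e))))))))), t false 1 (b (a (f (b (c (a (d (a (c e))))))))), t true 1 (b
  (a (f (c (a (d (a (c (b e))))))))), t false 1 (b (c (a (f (a (c (d (a (b e))))))))), t true 1 (b
  (c (a (f (b (a (c (d (a e))))))))), t true 1 (b (c (b (a (f (b (c (d (a e))))))))), t false 1 (b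
  (d (a (b (c (b (f (b (c e))))))))), t true 1 (b (d (b (c (a (f (b (a (c e))))))))), t true 1 (b (d
  (b (c (b (a (f (b (c e))))))))), t true 1 (b (d (c (a (f (a (c (a (b e))))))))), t false 1 (b (d
  (c (a (f (b (a (c (a e))))))))), t false 1 (b (d (c (b (a (f (b (c (a e))))))))), t true 1 (c (a
  (b (d (a (b (f (b (c e))))))))), t false 1 (c (a (b (d (a (c (b (f (b e))))))))), t false 1 (c (a
  (f (a (b (d (a (b (c e))))))))), t true 1 (c (a (f (a (c (a (b (d (a e))))))))), t true 1 (c (a (f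
  (a (c (b (d (a (b e))))))))), t false 1 (c (a (f (b (a (c (a (d (a e))))))))), t true 1 (c (b (a
  (f (b (a (d (a (c e))))))))), t false 1 (c (b (a (f (b (c (a (d (a e))))))))), t false 1 (c (b (d
  (a (b (c (b (f (b e))))))))), t false 1 (c (b (d (b (a (f (b (a (c e))))))))), t true 1 (c (b (d
  (b (c (a (f (b (a e))))))))), t true 1 (c (b (d (b (c (b (a (f (b e))))))))), t false 1 (d (a (b
  (c (b (f (b (c (d e))))))))), t true 1 (d (b (c (a (f (b (a (c (d e))))))))), t true 1 (d (b (c (b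
  (a (f (b (c (d e))))))))), t true 1 (d (c (a (f (a (c (a (b (d e))))))))), t false 1 (d (c (a (f
  (b (a (c (a (d e))))))))), t false 1 (d (c (b (a (f (b (c (a (d e))))))))), t true 1 (f (a (c (a
  (b (d (a (c (f e))))))))), t true 1 (f (a (c (b (d (a (b (c (f e))))))))), t false 1 (f (b (a (c
  (a (d (a (c (f e))))))))), t false 1 (f (c (a (b (d (a (c (b (f e))))))))), t false 1 (f (c (b (d
  (a (b (c (b (f e)))))))))])) nil nil) nil nil (hit [t false 1 (a (f (b (c (b (d (a e))))))), t
  true 1 (a (f (d (b (c (b (a e))))))), t false 1 (b (c (b (d (a (f (d e))))))), t true 1 (b (c (d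
  (a (f (d (b e))))))), t false 1 (b (d (a (f (d (c (b e))))))), t false 1 (c (b (d (a (f (d (c
  e))))))), t true 1 (c (d (a (f (d (b (c e))))))), t false 1 (d (a (f (b (c (b (d e))))))), t true
  1 (d (a (f (d (b (c (b e))))))), t true 1 (d (b (c (b (a (f (d e))))))), t false 1 (f (b (c (b (d
  (a (f e)))))))])) (hit [t false 1 (a (b (c (b (f (a e)))))), t false 1 (a (f (a (b (c (b e)))))),
  t true 1 (a (f (b (c (b (a e)))))), t true 1 (b (a (f (a (c (b e)))))), t false 1 (b (c (a (f (a
  (b e)))))), t true 1 (b (c (b (a (f (a e)))))), t false 1 (c (a (f (a (b (c e)))))), t true 1 (c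
  (b (a (f (a (c e)))))), t false 1 (f (a (b (c (b (f e))))))])) nil (br nil (br nil nil nil nil
  (hit [t false 1 (a (b (d (c (b (f (a e))))))), t false 1 (a (f (a (b (d (c (b e))))))), t true 1
  (a (f (b (d (c (b (a e))))))), t true 1 (b (a (f (a (d (c (b e))))))), t false 1 (b (d (c (a (f (a
  (b e))))))), t true 1 (b (d (c (b (a (f (a e))))))), t false 1 (c (a (f (a (b (d (c e))))))), t
  true 1 (c (b (a (f (a (d (c e))))))), t false 1 (d (c (a (f (a (b (d e))))))), t true 1 (d (c (b
  (a (f (a (d e))))))), t false 1 (f (a (b (d (c (b (f e)))))))])) (br nil (br nil nil nil nil (hit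
  [t false 1 (a (b (c (d (c (b (f (a e)))))))), t false 1 (a (f (a (b (c (d (c (b e)))))))), t true
  1 (a (f (b (c (d (c (b (a e)))))))), t false 1 (b (a (f (a (b (c (d (c e)))))))), t true 1 (b (a
  (f (a (c (d (c (b e)))))))), t false 1 (b (c (d (c (a (f (a (b e)))))))), t true 1 (b (c (d (c (b
  (a (f (a e)))))))), t true 1 (c (b (a (f (a (b (d (c e)))))))), t false 1 (c (d (b (a (f (a (b (c
  e)))))))), t true 1 (c (d (c (b (a (f (a (b e)))))))), t false 1 (d (b (a (f (a (b (c (d
  e)))))))), t true 1 (d (c (b (a (f (a (b (d e)))))))), t false 1 (f (a (b (c (d (c (b (f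
  e))))))))])) nil nil nil) nil nil) (hit [t true 1 (a (f (c (b (a e))))), t true 1 (b (a (f (c (b
  e))))), t true 1 (c (b (a (f (c e)))))])) (br (br nil (br (br nil nil (br nil nil nil nil (hit [t
  false 1 (a (b (a (c (d (b (a (f (c e))))))))), t false 1 (a (b (c (d (b (a (c (f (c e))))))))), t
  true 1 (a (b (c (d (b (c (f (c (a e))))))))), t false 1 (a (b (f (a (b (a (c (d (b e))))))))), t
  true 1 (a (b (f (b (a (c (d (b (c e))))))))), t false 1 (a (b (f (b (c (d (b (c (a e))))))))), t
  true 1 (a (b (f (c (a (b (a (d (b e))))))))), t false 1 (a (c (a (b (f (c (a (d (b e))))))))), t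
  false 1 (a (c (b (f (c (a (b (d (b e))))))))), t true 1 (a (c (b (f (c (b (d (b (a e))))))))), t
  false 1 (a (c (d (a (c (a (b (f (c e))))))))), t true 1 (a (c (d (b (a (c (a (f (c e))))))))), t
  true 1 (a (c (d (c (a (b (f (c (b e))))))))), t false 1 (a (c (d (c (b (f (c (b (a e))))))))), t
  true 1 (b (a (c (a (f (c (a (d (b e))))))))), t true 1 (b (a (c (d (b (c (a (f (c e))))))))), t
  false 1 (b (a (c (d (c (a (f (c (b e))))))))), t true 1 (b (c (d (a (c (f (c (a (b e))))))))), t
  false 1 (b (c (d (b (a (c (f (c (a e))))))))), t false 1 (b (f (a (b (a (c (d (b (a e))))))))), t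
  false 1 (b (f (a (b (c (d (b (a (c e))))))))), t false 1 (b (f (a (c (d (a (c (a (b e))))))))), t
  true 1 (b (f (a (c (d (b (a (c (a e))))))))), t true 1 (b (f (b (a (c (d (b (c (a e))))))))), t
  true 1 (b (f (c (a (b (a (d (b (a e))))))))), t true 1 (c (a (b (a (d (b (a (f (c e))))))))), t
  false 1 (c (a (b (f (b (a (d (b (c e))))))))), t true 1 (c (a (b (f (c (b (a (d (b e))))))))), t
  true 1 (c (b (f (a (b (d (b (a (c e))))))))), t false 1 (c (b (f (c (a (b (d (b (a e))))))))), t
  false 1 (c (d (a (b (f (a (b (a (c e))))))))), t true 1 (c (d (a (b (f (c (a (b (a e))))))))), t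
  false 1 (c (d (a (c (a (b (f (c (a e))))))))), t false 1 (c (d (a (c (b (f (c (a (b e))))))))), t
  true 1 (c (d (b (a (c (a (f (c (a e))))))))), t true 1 (c (d (c (a (b (f (c (b (a e))))))))), t
  false 1 (d (a (b (f (a (b (a (c (d e))))))))), t true 1 (d (a (b (f (c (a (b (a (d e))))))))), t
  false 1 (d (a (c (a (b (f (c (a (d e))))))))), t false 1 (d (a (c (b (f (c (a (b (d e))))))))), t
  true 1 (d (b (a (c (a (f (c (a (d e))))))))), t true 1 (d (c (a (b (f (c (b (a (d e))))))))), t
  false 1 (f (a (b (a (c (d (b (a (f e))))))))), t false 1 (f (a (b (c (d (b (a (c (f e))))))))), t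
  false 1 (f (a (c (d (a (c (a (b (f e))))))))), t true 1 (f (a (c (d (b (a (c (a (f e))))))))), t
  true 1 (f (b (a (c (d (b (c (a (f e)))))))))])) nil nil) nil nil nil nil) (br nil nil nil nil (hit
  [t false 1 (a (c (f (c (d (b (a e))))))), t false 1 (a (d (b (a (c (f (c e))))))), t true 1 (a (d
  (b (c (f (c (a e))))))), t false 1 (b (a (c (f (c (d (b e))))))), t true 1 (b (c (f (c (a (d (b
  e))))))), t true 1 (c (a (d (b (a (f (c e))))))), t false 1 (c (f (a (d (b (a (c e))))))), t true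
  1 (c (f (c (a (d (b (a e))))))), t false 1 (d (b (a (c (f (c (d e))))))), t true 1 (d (b (c (f (c
  (a (d e))))))), t false 1 (f (a (d (b (a (c (f e)))))))])) nil nil) (br nil nil (br nil nil nil
  nil (hit [t false 1 (a (f (b (d (b (c (a e))))))), t true 1 (a (f (c (b (d (b (a e))))))), t false
  1 (b (c (a (f (c (d (b e))))))), t false 1 (b (d (b (c (a (f (c e))))))), t true 1 (b (d (c (a (f
  (c (b e))))))), t false 1 (c (a (f (b (d (b (c e))))))), t true 1 (c (a (f (c (b (d (b e))))))), t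
  true 1 (c (b (d (b (a (f (c e))))))), t false 1 (d (b (c (a (f (c (d e))))))), t true 1 (d (c (a
  (f (c (b (d e))))))), t false 1 (f (b (d (b (c (a (f e)))))))])) nil (hit [t false 1 (a (b (d (b
  (f (a e)))))), t false 1 (a (f (a (b (d (b e)))))), t true 1 (a (f (b (d (b (a e)))))), t true 1
  (b (a (f (a (d (b e)))))), t false 1 (b (d (a (f (a (b e)))))), t true 1 (b (d (b (a (f (a
  e)))))), t false 1 (d (a (f (a (b (d e)))))), t true 1 (d (b (a (f (a (d e)))))), t false 1 (f (a
  (b (d (b (f e))))))])) (br nil (br nil nil nil nil (hit [t false 1 (a (b (c (d (b (f (a e))))))),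
  t false 1 (a (f (a (b (c (d (b e))))))), t true 1 (a (f (b (c (d (b (a e))))))), t true 1 (b (a (f
  (a (c (d (b e))))))), t false 1 (b (c (d (a (f (a (b e))))))), t true 1 (b (c (d (b (a (f (a
  e))))))), t false 1 (c (d (a (f (a (b (c e))))))), t true 1 (c (d (b (a (f (a (c e))))))), t false
  1 (d (a (f (a (b (c (d e))))))), t true 1 (d (b (a (f (a (c (d e))))))), t false 1 (f (a (b (c (d
  (b (f e)))))))])) nil nil (hit [t true 1 (a (f (c (d (b (a e)))))), t true 1 (b (a (f (c (d (b
  e)))))), t true 1 (c (d (b (a (f (c e)))))), t true 1 (d (b (a (f (c (d e))))))])) nil (hit [t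
  true 1 (a (f (d (b (a e))))), t true 1 (b (a (f (d (b e))))), t true 1 (d (b (a (f (d e)))))]))
  (hit [t true 1 (a (f (b (a e)))), t true 1 (b (a (f (b e))))])) (br (br nil (br (br nil nil nil
  (br nil nil nil nil (hit [t true 1 (a (b (c (a (d (c (f (d e)))))))), t false 1 (a (b (c (d (c (f
  (d (a e)))))))), t false 1 (a (c (a (d (c (b (f (d e)))))))), t true 1 (a (c (d (c (b (f (d (a
  e)))))))), t true 1 (a (d (b (f (d (b (c (a e)))))))), t false 1 (a (d (c (b (f (d (b (a
  e)))))))), t true 1 (b (c (a (d (c (f (d (b e)))))))), t false 1 (b (c (d (c (f (d (a (b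
  e)))))))), t true 1 (b (f (a (b (c (a (d (c e)))))))), t false 1 (b (f (a (c (a (d (c (b
  e)))))))), t true 1 (b (f (d (a (b (a (c (a e)))))))), t true 1 (c (a (d (b (f (d (b (c e)))))))),
  t false 1 (c (a (d (c (b (f (d (b e)))))))), t false 1 (c (b (f (a (b (a (d (c e)))))))), t true 1
  (c (b (f (d (a (b (a (c e)))))))), t false 1 (c (d (b (f (d (a (b (c e)))))))), t true 1 (c (d (c
  (b (f (d (a (b e)))))))), t true 1 (d (a (b (a (c (a (f (d e)))))))), t true 1 (d (b (f (a (b (c
  (a (d e)))))))), t false 1 (d (b (f (d (a (b (c (a e)))))))), t false 1 (d (c (b (f (a (b (a (d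
  e)))))))), t true 1 (d (c (b (f (d (a (b (a e)))))))), t true 1 (f (a (b (c (a (d (c (f e)))))))),
  t false 1 (f (a (c (a (d (c (b (f e))))))))])) nil) nil nil (br nil nil (br nil nil nil nil (hit
  [t true 1 (a (b (c (d (b (c (f (a e)))))))), t true 1 (a (b (f (a (b (c (d (b e)))))))), t true 1
  (a (b (f (a (c (d (b (c e)))))))), t false 1 (a (b (f (b (c (d (b (a e)))))))), t false 1 (a (b (f
  (c (d (b (c (a e)))))))), t false 1 (a (c (a (b (f (a (d (b e)))))))), t false 1 (a (c (b (f (a (b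
  (d (b e)))))))), t true 1 (a (c (b (f (b (d (b (a e)))))))), t true 1 (b (a (c (a (f (a (d (b
  e)))))))), t true 1 (b (c (d (a (c (f (a (b e)))))))), t false 1 (b (c (d (b (a (c (f (a
  e)))))))), t true 1 (b (f (a (b (c (d (b (c e)))))))), t false 1 (b (f (b (c (d (b (a (c
  e)))))))), t false 1 (b (f (c (d (a (c (a (b e)))))))), t true 1 (b (f (c (d (b (a (c (a
  e)))))))), t false 1 (c (a (b (f (a (d (b (c e)))))))), t false 1 (c (b (f (a (b (d (b (c
  e)))))))), t true 1 (c (b (f (b (d (b (a (c e)))))))), t true 1 (c (d (a (b (f (a (b (c e)))))))),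
  t false 1 (c (d (a (c (a (b (f (a e)))))))), t false 1 (c (d (a (c (b (f (a (b e)))))))), t true 1
  (c (d (b (a (c (a (f (a e)))))))), t true 1 (d (a (b (f (a (b (c (d e)))))))), t false 1 (d (a (c
  (a (b (f (a (d e)))))))), t false 1 (d (a (c (b (f (a (b (d e)))))))), t true 1 (d (b (a (c (a (f
  (a (d e)))))))), t true 1 (f (a (b (c (d (b (c (f e)))))))), t false 1 (f (b (c (d (b (a (c (f
  e)))))))), t false 1 (f (c (d (a (c (a (b (f e))))))))])) nil (hit [t false 1 (a (b (f (d (b (c (a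
  e))))))), t false 1 (a (c (a (b (f (d (b e))))))), t false 1 (a (c (a (d (b (f (d e))))))), t true
  1 (a (c (b (f (d (b (a e))))))), t true 1 (a (c (d (b (f (d (a e))))))), t false 1 (a (d (b (f (d
  (c (a e))))))), t true 1 (b (a (c (a (f (d (b e))))))), t false 1 (b (f (a (c (a (d (b e))))))), t
  true 1 (b (f (d (b (a (c (a e))))))), t false 1 (c (a (b (f (d (b (c e))))))), t false 1 (c (a (d
  (b (f (d (c e))))))), t true 1 (c (b (f (d (b (a (c e))))))), t true 1 (c (d (b (f (d (a (c
  e))))))), t true 1 (d (b (a (c (a (f (d e))))))), t false 1 (d (b (f (a (c (a (d e))))))), t true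
  1 (d (b (f (d (a (c (a e))))))), t false 1 (f (a (c (a (d (b (f e)))))))])) (hit [t false 1 (a (b
  (f (b (c (a e)))))), t false 1 (a (c (a (b (f (b e)))))), t true 1 (a (c (b (f (b (a e)))))), t
  true 1 (b (a (c (a (f (b e)))))), t false 1 (b (f (a (c (a (b e)))))), t true 1 (b (f (b (a (c (a
  e)))))), t false 1 (c (a (b (f (b (c e)))))), t true 1 (c (b (f (b (a (c e)))))), t false 1 (f (a
  (c (a (b (f e))))))])) nil (br (br nil (br nil nil nil nil (hit [t true 1 (a (b (c (a (b (d (f (b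
  e)))))))), t true 1 (a (b (c (a (d (f (b (d e)))))))), t false 1 (a (b (c (b (d (f (b (a
  e)))))))), t false 1 (a (b (c (d (f (b (d (a e)))))))), t true 1 (a (b (d (f (b (d (c (a
  e)))))))), t false 1 (a (d (a (b (c (a (f (b e)))))))), t false 1 (a (d (b (c (a (b (f (b
  e)))))))), t true 1 (a (d (b (c (b (f (b (a e)))))))), t true 1 (b (a (d (a (c (a (f (b e)))))))),
  t true 1 (b (c (a (b (d (f (b (d e)))))))), t false 1 (b (c (b (d (f (b (a (d e)))))))), t false 1
  (b (c (d (f (a (d (a (b e)))))))), t true 1 (b (c (d (f (b (a (d (a e)))))))), t true 1 (b (d (f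
  (a (d (c (a (b e)))))))), t false 1 (b (d (f (b (a (d (c (a e)))))))), t true 1 (c (a (b (d (f (b
  (d (c e)))))))), t false 1 (c (b (d (f (b (a (d (c e)))))))), t false 1 (c (d (f (a (d (a (b (c
  e)))))))), t true 1 (c (d (f (b (a (d (a (c e)))))))), t false 1 (d (a (b (c (a (f (b (d
  e)))))))), t false 1 (d (b (c (a (b (f (b (d e)))))))), t true 1 (d (b (c (b (f (b (a (d
  e)))))))), t true 1 (d (f (a (b (c (a (b (d e)))))))), t false 1 (d (f (a (d (a (b (c (a
  e)))))))), t false 1 (d (f (a (d (b (c (a (b e)))))))), t true 1 (d (f (b (a (d (a (c (a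
  e)))))))), t true 1 (f (a (b (c (a (b (d (f e)))))))), t false 1 (f (a (d (a (b (c (a (f
  e)))))))), t false 1 (f (a (d (b (c (a (b (f e))))))))])) nil nil nil) (br nil nil nil nil (hit [t
  false 1 (a (b (d (f (b (c (a e))))))), t false 1 (a (c (a (b (d (f (b e))))))), t false 1 (a (c (a
  (d (f (b (d e))))))), t true 1 (a (c (b (d (f (b (a e))))))), t true 1 (a (c (d (f (b (d (a
  e))))))), t false 1 (a (d (f (b (d (c (a e))))))), t true 1 (b (d (a (c (a (f (b e))))))), t false
  1 (b (d (f (a (c (a (b e))))))), t true 1 (b (d (f (b (a (c (a e))))))), t false 1 (c (a (b (d (f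
  (b (c e))))))), t false 1 (c (a (d (f (b (d (c e))))))), t true 1 (c (b (d (f (b (a (c e))))))), t
  true 1 (c (d (f (b (d (a (c e))))))), t true 1 (d (a (c (a (f (b (d e))))))), t false 1 (d (f (a
  (c (a (b (d e))))))), t true 1 (d (f (b (d (a (c (a e))))))), t false 1 (f (a (c (a (b (d (f
  e)))))))])) nil nil (hit [t false 1 (a (c (a (d (f (d e)))))), t true 1 (a (c (d (f (d (a e)))))),
  t false 1 (a (d (f (d (c (a e)))))), t false 1 (c (a (d (f (d (c e)))))), t true 1 (c (d (f (d (a
  (c e)))))), t true 1 (d (a (c (a (f (d e)))))), t false 1 (d (f (a (c (a (d e)))))), t true 1 (d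
  (f (d (a (c (a e)))))), t false 1 (f (a (c (a (d (f e))))))])) nil) (br nil nil nil (br nil (br
  nil nil (br nil nil nil nil (hit [t false 1 (a (c (b (d (b (c (f (a e)))))))), t false 1 (a (f (a
  (c (b (d (b (c e)))))))), t true 1 (a (f (c (b (d (b (c (a e)))))))), t true 1 (b (c (a (f (a (c
  (d (b e)))))))), t true 1 (b (d (b (c (a (f (a (c e)))))))), t false 1 (b (d (c (a (f (a (c (b
  e)))))))), t true 1 (c (a (f (a (b (d (b (c e)))))))), t false 1 (c (a (f (a (c (b (d (b
  e)))))))), t false 1 (c (b (d (b (a (f (a (c e)))))))), t true 1 (c (b (d (b (c (a (f (a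
  e)))))))), t true 1 (d (b (c (a (f (a (c (d e)))))))), t false 1 (d (c (a (f (a (c (b (d
  e)))))))), t false 1 (f (a (c (b (d (b (c (f e))))))))])) nil nil) (br nil nil nil nil (hit [t
  false 1 (a (c (d (b (c (f (a e))))))), t false 1 (a (f (a (c (d (b (c e))))))), t true 1 (a (f (c
  (d (b (c (a e))))))), t false 1 (b (a (f (a (c (d (b e))))))), t true 1 (b (c (a (f (a (d (b
  e))))))), t true 1 (c (a (f (a (d (b (c e))))))), t false 1 (c (d (b (a (f (a (c e))))))), t true
  1 (c (d (b (c (a (f (a e))))))), t false 1 (d (b (a (f (a (c (d e))))))), t true 1 (d (b (c (a (f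
  (a (d e))))))), t false 1 (f (a (c (d (b (c (f e)))))))])) nil (hit [t true 1 (a (f (d (b (c (a
  e)))))), t true 1 (b (c (a (f (d (b e)))))), t true 1 (c (a (f (d (b (c e)))))), t true 1 (d (b (c
  (a (f (d e))))))])) (hit [t true 1 (a (f (b (c (a e))))), t true 1 (b (c (a (f (b e))))), t true 1
  (c (a (f (b (c e)))))])) nil (br (br nil (br nil nil (br nil nil nil nil (hit [t true 1 (a (b (c
  (b (d (c (f (a e)))))))), t true 1 (a (b (f (a (c (b (d (c e)))))))), t false 1 (a (b (f (c (b (d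
  (c (a e)))))))), t true 1 (a (d (a (b (f (a (c (b e)))))))), t true 1 (a (d (b (f (a (b (c (b
  e)))))))), t false 1 (a (d (b (f (b (c (b (a e)))))))), t false 1 (a (d (c (a (b (f (a (b
  e)))))))), t false 1 (b (a (d (a (f (a (c (b e)))))))), t true 1 (b (a (d (c (a (f (a (b
  e)))))))), t true 1 (b (c (a (d (c (f (a (b e)))))))), t false 1 (b (c (b (a (d (c (f (a
  e)))))))), t true 1 (b (f (a (b (c (b (d (c e)))))))), t false 1 (b (f (b (c (b (a (d (c
  e)))))))), t false 1 (b (f (c (a (d (c (a (b e)))))))), t true 1 (b (f (c (b (a (d (c (a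
  e)))))))), t false 1 (c (a (b (f (a (b (d (c e)))))))), t true 1 (c (a (d (a (b (f (a (c
  e)))))))), t true 1 (c (a (d (b (f (a (b (c e)))))))), t false 1 (c (a (d (c (a (b (f (a
  e)))))))), t false 1 (c (a (d (c (b (f (a (b e)))))))), t false 1 (c (b (a (d (a (f (a (c
  e)))))))), t true 1 (c (b (a (d (c (a (f (a e)))))))), t true 1 (d (a (b (f (a (c (b (d e)))))))),
  t true 1 (d (b (f (a (b (c (b (d e)))))))), t false 1 (d (b (f (b (c (b (a (d e)))))))), t false 1
  (d (c (a (b (f (a (b (d e)))))))), t true 1 (f (a (b (c (b (d (c (f e)))))))), t false 1 (f (b (c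
  (b (a (d (c (f e)))))))), t false 1 (f (c (a (d (c (a (b (f e))))))))])) nil (hit [t false 1 (a (b
  (f (b (d (c (a e))))))), t false 1 (a (d (c (a (b (f (b e))))))), t true 1 (a (d (c (b (f (b (a
  e))))))), t true 1 (b (a (d (c (a (f (b e))))))), t false 1 (b (f (a (d (c (a (b e))))))), t true
  1 (b (f (b (a (d (c (a e))))))), t false 1 (c (a (b (f (b (d (c e))))))), t true 1 (c (b (f (b (a
  (d (c e))))))), t false 1 (d (c (a (b (f (b (d e))))))), t true 1 (d (c (b (f (b (a (d e))))))), t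
  false 1 (f (a (d (c (a (b (f e)))))))])) nil nil nil) (br nil nil (br nil nil nil nil (hit [t
  false 1 (a (c (b (d (c (f (a e))))))), t false 1 (a (f (a (c (b (d (c e))))))), t true 1 (a (f (c
  (b (d (c (a e))))))), t false 1 (b (d (a (f (a (c (b e))))))), t true 1 (b (d (c (a (f (a (b
  e))))))), t true 1 (c (a (f (a (b (d (c e))))))), t false 1 (c (b (d (a (f (a (c e))))))), t true
  1 (c (b (d (c (a (f (a e))))))), t false 1 (d (a (f (a (c (b (d e))))))), t true 1 (d (c (a (f (a
  (b (d e))))))), t false 1 (f (a (c (b (d (c (f e)))))))])) nil (hit [t true 1 (a (f (b (d (c (a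
  e)))))), t true 1 (b (d (c (a (f (b e)))))), t true 1 (c (a (f (b (d (c e)))))), t true 1 (d (c (a
  (f (b (d e))))))])) (br nil (br nil nil nil nil (hit [t false 1 (a (c (d (c (f (b (a e))))))), t
  false 1 (a (f (b (a (c (d (c e))))))), t true 1 (a (f (b (c (d (c (a e))))))), t false 1 (b (a (c
  (d (c (f (b e))))))), t true 1 (b (c (d (c (a (f (b e))))))), t true 1 (c (a (f (b (a (d (c
  e))))))), t false 1 (c (d (a (f (b (a (c e))))))), t true 1 (c (d (c (a (f (b (a e))))))), t false
  1 (d (a (f (b (a (c (d e))))))), t true 1 (d (c (a (f (b (a (d e))))))), t false 1 (f (b (a (c (d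
  (c (f e)))))))])) nil nil (hit [t false 1 (a (c (d (c (f (a e)))))), t false 1 (a (f (a (c (d (c
  e)))))), t true 1 (a (f (c (d (c (a e)))))), t true 1 (c (a (f (a (d (c e)))))), t false 1 (c (d
  (a (f (a (c e)))))), t true 1 (c (d (c (a (f (a e)))))), t false 1 (d (a (f (a (c (d e)))))), t
  true 1 (d (c (a (f (a (d e)))))), t false 1 (f (a (c (d (c (f e))))))])) nil (hit [t true 1 (a (f
  (d (c (a e))))), t true 1 (c (a (f (d (c e))))), t true 1 (d (c (a (f (d e)))))])) (hit [t true 1
  (a (f (c (a e)))), t true 1 (c (a (f (c e))))])) (br (br nil (br (br nil nil (br nil nil nil nil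
  (hit [t false 1 (a (b (a (c (d (a (f (c e)))))))), t false 1 (a (b (c (d (a (c (f (c e)))))))), t
  true 1 (a (b (c (d (c (f (c (a e)))))))), t true 1 (a (c (b (f (c (b (d (a e)))))))), t true 1 (a
  (c (d (a (b (f (c (b e)))))))), t true 1 (a (c (d (a (c (b (f (c e)))))))), t false 1 (a (c (d (b
  (f (c (b (a e)))))))), t false 1 (a (c (d (c (b (f (c (a e)))))))), t false 1 (b (a (c (d (a (f (c
  (b e)))))))), t false 1 (b (c (d (a (c (f (c (b e)))))))), t true 1 (b (c (d (c (f (c (a (b
  e)))))))), t false 1 (b (f (a (b (a (c (d (a e)))))))), t false 1 (b (f (a (b (c (d (a (c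
  e)))))))), t true 1 (b (f (a (c (d (a (c (b e)))))))), t true 1 (b (f (c (a (b (a (d (a e)))))))),
  t true 1 (c (a (b (a (d (a (f (c e)))))))), t true 1 (c (b (f (a (b (d (a (c e)))))))), t false 1
  (c (b (f (c (a (b (d (a e)))))))), t true 1 (c (d (a (c (b (f (c (b e)))))))), t false 1 (c (d (b
  (f (a (b (a (c e)))))))), t true 1 (c (d (b (f (c (a (b (a e)))))))), t false 1 (c (d (c (b (f (c
  (a (b e)))))))), t true 1 (d (a (c (b (f (c (b (d e)))))))), t false 1 (d (b (f (a (b (a (c (d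
  e)))))))), t true 1 (d (b (f (c (a (b (a (d e)))))))), t false 1 (d (c (b (f (c (a (b (d
  e)))))))), t false 1 (f (a (b (a (c (d (a (f e)))))))), t false 1 (f (a (b (c (d (a (c (f
  e)))))))), t true 1 (f (a (c (d (a (c (b (f e))))))))])) nil nil) nil (br nil nil nil nil (hit [t
  false 1 (a (b (f (c (b (d (a e))))))), t false 1 (a (c (b (f (c (d (a e))))))), t false 1 (a (d (a
  (b (f (c (b e))))))), t false 1 (a (d (a (c (b (f (c e))))))), t true 1 (a (d (b (f (c (b (a
  e))))))), t true 1 (a (d (c (b (f (c (a e))))))), t true 1 (b (a (d (a (f (c (b e))))))), t false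
  1 (b (f (a (d (a (c (b e))))))), t true 1 (b (f (c (b (a (d (a e))))))), t true 1 (c (b (a (d (a
  (f (c e))))))), t false 1 (c (b (f (a (d (a (c e))))))), t true 1 (c (b (f (c (a (d (a e))))))), t
  false 1 (d (a (b (f (c (b (d e))))))), t false 1 (d (a (c (b (f (c (d e))))))), t true 1 (d (b (f
  (c (b (a (d e))))))), t true 1 (d (c (b (f (c (a (d e))))))), t false 1 (f (a (d (a (c (b (f
  e)))))))])) nil (hit [t false 1 (a (b (f (b (d (a e)))))), t false 1 (a (d (a (b (f (b e)))))), t
  true 1 (a (d (b (f (b (a e)))))), t true 1 (b (a (d (a (f (b e)))))), t false 1 (b (f (a (d (a (b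
  e)))))), t true 1 (b (f (b (a (d (a e)))))), t false 1 (d (a (b (f (b (d e)))))), t true 1 (d (b
  (f (b (a (d e)))))), t false 1 (f (a (d (a (b (f e))))))])) (br (br nil (br nil nil nil nil (hit
  [t true 1 (a (b (c (f (b (c (d (a e)))))))), t true 1 (a (b (d (a (b (c (f (b e)))))))), t true 1
  (a (b (d (a (c (f (b (c e)))))))), t false 1 (a (b (d (b (c (f (b (a e)))))))), t false 1 (a (b (d
  (c (f (b (c (a e)))))))), t false 1 (a (c (a (b (d (a (f (b e)))))))), t false 1 (a (c (b (d (a (b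
  (f (b e)))))))), t true 1 (a (c (b (d (b (f (b (a e)))))))), t true 1 (b (a (c (a (d (a (f (b
  e)))))))), t true 1 (b (c (f (a (c (d (a (b e)))))))), t false 1 (b (c (f (b (a (c (d (a
  e)))))))), t true 1 (b (d (a (b (c (f (b (c e)))))))), t false 1 (b (d (b (c (f (b (a (c
  e)))))))), t false 1 (b (d (c (f (a (c (a (b e)))))))), t true 1 (b (d (c (f (b (a (c (a
  e)))))))), t false 1 (c (a (b (d (a (f (b (c e)))))))), t false 1 (c (b (d (a (b (f (b (c
  e)))))))), t true 1 (c (b (d (b (f (b (a (c e)))))))), t true 1 (c (f (a (b (d (a (b (c e)))))))),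
  t false 1 (c (f (a (c (a (b (d (a e)))))))), t false 1 (c (f (a (c (b (d (a (b e)))))))), t true 1
  (c (f (b (a (c (a (d (a e)))))))), t true 1 (d (a (b (c (f (b (c (d e)))))))), t false 1 (d (b (c
  (f (b (a (c (d e)))))))), t false 1 (d (c (f (a (c (a (b (d e)))))))), t true 1 (d (c (f (b (a (c
  (a (d e)))))))), t true 1 (f (a (b (d (a (b (c (f e)))))))), t false 1 (f (a (c (a (b (d (a (f
  e)))))))), t false 1 (f (a (c (b (d (a (b (f e))))))))])) nil nil nil) (br nil nil nil nil (hit [t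
  false 1 (a (b (c (f (b (d (a e))))))), t false 1 (a (c (f (b (c (d (a e))))))), t false 1 (a (d (a
  (b (c (f (b e))))))), t false 1 (a (d (a (c (f (b (c e))))))), t true 1 (a (d (b (c (f (b (a
  e))))))), t true 1 (a (d (c (f (b (c (a e))))))), t true 1 (b (c (a (d (a (f (b e))))))), t false
  1 (b (c (f (a (d (a (b e))))))), t true 1 (b (c (f (b (a (d (a e))))))), t true 1 (c (a (d (a (f
  (b (c e))))))), t false 1 (c (f (a (d (a (b (c e))))))), t true 1 (c (f (b (c (a (d (a e))))))), t
  false 1 (d (a (b (c (f (b (d e))))))), t false 1 (d (a (c (f (b (c (d e))))))), t true 1 (d (b (c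
  (f (b (a (d e))))))), t true 1 (d (c (f (b (c (a (d e))))))), t false 1 (f (a (d (a (b (c (f
  e)))))))])) nil nil (hit [t false 1 (a (c (f (c (d (a e)))))), t false 1 (a (d (a (c (f (c
  e)))))), t true 1 (a (d (c (f (c (a e)))))), t true 1 (c (a (d (a (f (c e)))))), t false 1 (c (f
  (a (d (a (c e)))))), t true 1 (c (f (c (a (d (a e)))))), t false 1 (d (a (c (f (c (d e)))))), t
  true 1 (d (c (f (c (a (d e)))))), t false 1 (f (a (d (a (c (f e))))))])) nil nil) (br (br nil nil
  (br nil nil nil nil (hit [t false 1 (a (b (d (a (c (f (c e))))))), t true 1 (a (b (d (c (f (c (a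
  e))))))), t false 1 (a (c (f (c (b (d (a e))))))), t false 1 (b (d (a (c (f (c (b e))))))), t true
  1 (b (d (c (f (c (a (b e))))))), t true 1 (c (a (b (d (a (f (c e))))))), t false 1 (c (f (a (b (d
  (a (c e))))))), t true 1 (c (f (c (a (b (d (a e))))))), t false 1 (d (a (c (f (c (b (d e))))))), t
  true 1 (d (c (f (c (a (b (d e))))))), t false 1 (f (a (b (d (a (c (f e)))))))])) nil nil) nil (br
  nil (br nil nil nil (br nil nil nil nil (hit [t false 1 (a (d (b (c (b (d (f (a e)))))))), t false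
  1 (a (f (a (d (b (c (b (d e)))))))), t true 1 (a (f (d (b (c (b (d (a e)))))))), t true 1 (b (c (b
  (d (a (f (a (d e)))))))), t false 1 (b (c (d (a (f (a (d (b e)))))))), t true 1 (b (d (a (f (a (d
  (c (b e)))))))), t true 1 (c (b (d (a (f (a (d (c e)))))))), t false 1 (c (d (a (f (a (d (b (c
  e)))))))), t true 1 (d (a (f (a (b (c (b (d e)))))))), t false 1 (d (a (f (a (d (b (c (b
  e)))))))), t false 1 (d (b (c (b (a (f (a (d e)))))))), t true 1 (d (b (c (b (d (a (f (a
  e)))))))), t false 1 (f (a (d (b (c (b (d (f e))))))))])) nil) nil nil (hit [t true 1 (a (f (c (b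
  (d (a e)))))), t true 1 (b (d (a (f (c (b e)))))), t true 1 (c (b (d (a (f (c e)))))), t true 1 (d
  (a (f (c (b (d e))))))])) nil (hit [t true 1 (a (f (b (d (a e))))), t true 1 (b (d (a (f (b
  e))))), t true 1 (d (a (f (b (d e)))))])) (br (br nil (br nil nil nil nil (hit [t false 1 (a (b (f
  (b (c (d (a e))))))), t false 1 (a (c (d (a (b (f (b e))))))), t true 1 (a (c (d (b (f (b (a
  e))))))), t true 1 (b (a (c (d (a (f (b e))))))), t false 1 (b (f (a (c (d (a (b e))))))), t true
  1 (b (f (b (a (c (d (a e))))))), t false 1 (c (d (a (b (f (b (c e))))))), t true 1 (c (d (b (f (b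
  (a (c e))))))), t false 1 (d (a (b (f (b (c (d e))))))), t true 1 (d (b (f (b (a (c (d e))))))), t
  false 1 (f (a (c (d (a (b (f e)))))))])) nil nil nil) (br nil nil nil nil (hit [t true 1 (a (f (b
  (c (d (a e)))))), t true 1 (b (c (d (a (f (b e)))))), t true 1 (c (d (a (f (b (c e)))))), t true 1
  (d (a (f (b (c (d e))))))])) nil nil (hit [t true 1 (a (f (c (d (a e))))), t true 1 (c (d (a (f (c
  e))))), t true 1 (d (a (f (c (d e)))))])) nil (hit [t true 1 (a (f (d (a e)))), t true 1 (d (a (f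
  (d e))))])) nil)

def R52 : R := (br (br nil nil (br (br nil (br (br nil nil nil (br nil nil nil nil (hit [t true 1 (a
  (b (c (a (d (c (b (f (d e))))))))), t false 1 (a (b (c (d (c (b (f (d (a e))))))))), t false 1 (a
  (b (d (b (f (d (b (c (a e))))))))), t true 1 (a (b (d (c (b (f (d (b (a e))))))))), t false 1 (a
  (c (a (b (d (c (f (d (b e))))))))), t true 1 (a (c (b (d (c (f (d (b (a e))))))))), t true 1 (a (f
  (a (b (c (a (d (c (b e))))))))), t false 1 (a (f (b (a (c (a (b (d (c e))))))))), t true 1 (a (f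
  (b (c (a (b (d (c (b e))))))))), t false 1 (a (f (b (c (b (d (c (b (a e))))))))), t true 1 (a (f
  (d (a (b (a (c (a (b e))))))))), t false 1 (b (a (c (a (b (d (c (f (d e))))))))), t true 1 (b (a
  (c (a (d (c (f (d (b e))))))))), t true 1 (b (a (f (a (b (c (a (d (c e))))))))), t false 1 (b (a
  (f (a (c (a (d (c (b e))))))))), t true 1 (b (a (f (d (a (b (a (c (a e))))))))), t true 1 (b (c (a
  (b (d (c (b (f (d e))))))))), t false 1 (b (c (b (d (c (b (a (f (d e))))))))), t false 1 (b (c (d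
  (c (a (f (d (a (b e))))))))), t true 1 (b (c (d (c (b (a (f (d (a e))))))))), t false 1 (b (d (a
  (f (d (a (c (a (b e))))))))), t true 1 (b (d (a (f (d (b (a (c (a e))))))))), t true 1 (b (d (b (a
  (f (d (b (c (a e))))))))), t false 1 (b (d (c (b (a (f (d (b (a e))))))))), t false 1 (c (a (b (d
  (b (f (d (b (c e))))))))), t true 1 (c (a (b (d (c (b (f (d (b e))))))))), t false 1 (c (b (a (f
  (a (b (a (d (c e))))))))), t true 1 (c (b (a (f (d (a (b (a (c e))))))))), t true 1 (c (b (d (a (f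
  (d (b (a (c e))))))))), t true 1 (c (b (d (b (a (f (d (b (c e))))))))), t false 1 (c (b (d (c (a
  (f (d (b (a e))))))))), t false 1 (c (b (d (c (b (a (f (d (b e))))))))), t false 1 (c (d (b (a (f
  (d (a (b (c e))))))))), t true 1 (c (d (c (b (a (f (d (a (b e))))))))), t true 1 (d (a (b (a (c (a
  (b (f (d e))))))))), t false 1 (d (a (f (b (a (c (a (b (d e))))))))), t true 1 (d (a (f (d (b (a
  (c (a (b e))))))))), t true 1 (d (b (a (f (a (b (c (a (d e))))))))), t false 1 (d (b (a (f (d (a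
  (b (c (a e))))))))), t false 1 (d (c (b (a (f (a (b (a (d e))))))))), t true 1 (d (c (b (a (f (d
  (a (b (a e))))))))), t true 1 (f (a (b (c (a (d (c (b (f e))))))))), t false 1 (f (b (a (c (a (b
  (d (c (f e))))))))), t true 1 (f (b (c (a (b (d (c (b (f e))))))))), t false 1 (f (b (c (b (d (c
  (b (a (f e)))))))))])) nil) nil nil nil nil) nil (br nil nil nil nil (hit [t false 1 (a (c (a (d
  (b (f (d e))))))), t true 1 (a (c (d (b (f (d (a e))))))), t false 1 (a (d (b (f (d (c (a
  e))))))), t false 1 (b (f (a (c (a (d (b e))))))), t true 1 (b (f (d (a (c (a (b e))))))), t false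
  1 (c (a (d (b (f (d (c e))))))), t true 1 (c (d (b (f (d (a (c e))))))), t true 1 (d (a (c (a (b
  (f (d e))))))), t false 1 (d (b (f (a (c (a (d e))))))), t true 1 (d (b (f (d (a (c (a e))))))), t
  false 1 (f (a (c (a (d (b (f e)))))))])) nil) (br (br nil nil nil (br nil nil nil nil (hit [t
  false 1 (a (b (c (a (d (b (f (d e)))))))), t true 1 (a (b (c (d (b (f (d (a e)))))))), t false 1
  (a (b (d (b (f (d (c (a e)))))))), t false 1 (a (f (a (b (c (a (d (b e)))))))), t false 1 (a (f (b
  (c (a (b (d (b e)))))))), t true 1 (a (f (b (c (b (d (b (a e)))))))), t true 1 (a (f (d (a (b (c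
  (a (b e)))))))), t true 1 (b (a (f (a (c (a (d (b e)))))))), t false 1 (b (a (f (d (a (c (a (b
  e)))))))), t false 1 (b (c (a (b (d (b (f (d e)))))))), t true 1 (b (c (b (d (b (a (f (d
  e)))))))), t true 1 (b (c (d (a (f (d (a (b e)))))))), t false 1 (b (c (d (b (a (f (d (a
  e)))))))), t false 1 (b (d (a (f (d (c (a (b e)))))))), t true 1 (b (d (b (a (f (d (c (a
  e)))))))), t false 1 (c (a (b (d (b (f (d (c e)))))))), t true 1 (c (b (d (b (a (f (d (c
  e)))))))), t true 1 (c (d (a (f (d (a (b (c e)))))))), t false 1 (c (d (b (a (f (d (a (c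
  e)))))))), t true 1 (d (a (b (c (a (b (f (d e)))))))), t false 1 (d (a (f (a (b (c (a (d
  e)))))))), t false 1 (d (a (f (b (c (a (b (d e)))))))), t true 1 (d (a (f (d (a (b (c (a
  e)))))))), t true 1 (d (a (f (d (b (c (a (b e)))))))), t true 1 (d (b (a (f (a (c (a (d e)))))))),
  t false 1 (d (b (a (f (d (a (c (a e)))))))), t false 1 (f (a (b (c (a (d (b (f e)))))))), t false
  1 (f (b (c (a (b (d (b (f e)))))))), t true 1 (f (b (c (b (d (b (a (f e))))))))])) nil) nil nil
  nil nil) nil (br nil nil (br nil nil nil nil (hit [t false 1 (a (b (c (d (c (f (a e))))))), t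
  false 1 (a (b (f (a (c (d (c e))))))), t true 1 (a (b (f (c (d (c (a e))))))), t false 1 (b (c (d
  (c (f (a (b e))))))), t false 1 (b (f (a (b (c (d (c e))))))), t true 1 (b (f (c (d (c (a (b
  e))))))), t true 1 (c (a (b (f (a (d (c e))))))), t true 1 (c (b (f (a (b (d (c e))))))), t false
  1 (c (d (a (b (f (a (c e))))))), t false 1 (c (d (b (f (a (b (c e))))))), t true 1 (c (d (c (a (b
  (f (a e))))))), t true 1 (c (d (c (b (f (a (b e))))))), t false 1 (d (a (b (f (a (c (d e))))))), t
  false 1 (d (b (f (a (b (c (d e))))))), t true 1 (d (c (a (b (f (a (d e))))))), t true 1 (d (c (b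
  (f (a (b (d e))))))), t false 1 (f (a (b (c (d (c (f e)))))))])) nil (hit [t true 1 (a (b (f (d (c
  (a e)))))), t true 1 (b (f (d (c (a (b e)))))), t true 1 (c (a (b (f (d (c e)))))), t true 1 (d (c
  (a (b (f (d e))))))])) (hit [t true 1 (a (b (f (c (a e))))), t true 1 (b (f (c (a (b e))))), t
  true 1 (c (a (b (f (c e)))))])) (br (br nil (br (br nil nil (br nil nil nil nil (hit [t false 1 (a
  (b (a (c (d (a (b (f (c e))))))))), t false 1 (a (b (c (b (f (c (b (d (a e))))))))), t false 1 (a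
  (b (c (d (a (c (b (f (c e))))))))), t true 1 (a (b (c (d (c (b (f (c (a e))))))))), t true 1 (a (c
  (d (a (b (c (f (c (b e))))))))), t false 1 (a (c (d (b (c (f (c (b (a e))))))))), t false 1 (a (f
  (a (b (a (c (d (a (b e))))))))), t false 1 (a (f (a (b (c (d (a (c (b e))))))))), t true 1 (a (f
  (b (a (c (d (a (b (c e))))))))), t false 1 (a (f (b (c (d (a (b (c (b e))))))))), t true 1 (a (f
  (b (c (d (b (c (b (a e))))))))), t true 1 (a (f (c (a (b (a (d (a (b e))))))))), t true 1 (b (a (c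
  (d (a (b (c (f (c e))))))))), t false 1 (b (a (c (d (a (c (f (c (b e))))))))), t false 1 (b (a (f
  (a (b (a (c (d (a e))))))))), t false 1 (b (a (f (a (b (c (d (a (c e))))))))), t true 1 (b (a (f
  (a (c (d (a (c (b e))))))))), t true 1 (b (a (f (c (a (b (a (d (a e))))))))), t false 1 (b (c (a
  (f (c (a (d (a (b e))))))))), t true 1 (b (c (a (f (c (b (a (d (a e))))))))), t true 1 (b (c (b (a
  (f (c (b (d (a e))))))))), t false 1 (b (c (d (a (b (c (b (f (c e))))))))), t true 1 (b (c (d (b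
  (c (b (a (f (c e))))))))), t true 1 (b (c (d (c (a (f (c (a (b e))))))))), t false 1 (b (c (d (c
  (b (a (f (c (a e))))))))), t true 1 (c (a (b (a (d (a (b (f (c e))))))))), t false 1 (c (a (f (b
  (a (d (a (b (c e))))))))), t true 1 (c (a (f (c (b (a (d (a (b e))))))))), t true 1 (c (b (a (f (a
  (b (d (a (c e))))))))), t false 1 (c (b (a (f (c (a (b (d (a e))))))))), t false 1 (c (d (a (b (c
  (b (f (c (b e))))))))), t false 1 (c (d (b (a (f (a (b (a (c e))))))))), t true 1 (c (d (b (a (f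
  (c (a (b (a e))))))))), t true 1 (c (d (b (c (a (f (c (b (a e))))))))), t true 1 (c (d (b (c (b (a
  (f (c (b e))))))))), t false 1 (c (d (c (b (a (f (c (a (b e))))))))), t false 1 (d (a (b (c (b (f
  (c (b (d e))))))))), t false 1 (d (b (a (f (a (b (a (c (d e))))))))), t true 1 (d (b (a (f (c (a
  (b (a (d e))))))))), t true 1 (d (b (c (a (f (c (b (a (d e))))))))), t true 1 (d (b (c (b (a (f (c
  (b (d e))))))))), t false 1 (d (c (b (a (f (c (a (b (d e))))))))), t false 1 (f (a (b (a (c (d (a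
  (b (f e))))))))), t false 1 (f (a (b (c (d (a (c (b (f e))))))))), t true 1 (f (b (a (c (d (a (b
  (c (f e))))))))), t false 1 (f (b (c (d (a (b (c (b (f e))))))))), t true 1 (f (b (c (d (b (c (b
  (a (f e)))))))))])) nil nil) nil (br nil nil nil nil (hit [t false 1 (a (b (c (f (c (b (d (a
  e)))))))), t false 1 (a (d (a (b (c (f (c (b e)))))))), t true 1 (a (d (b (c (f (c (b (a
  e)))))))), t false 1 (b (a (d (a (b (c (f (c e)))))))), t true 1 (b (a (d (a (c (f (c (b
  e)))))))), t false 1 (b (c (f (c (a (d (a (b e)))))))), t true 1 (b (c (f (c (b (a (d (a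
  e)))))))), t true 1 (c (b (a (d (a (b (f (c e)))))))), t false 1 (c (f (b (a (d (a (b (c
  e)))))))), t true 1 (c (f (c (b (a (d (a (b e)))))))), t false 1 (d (a (b (c (f (c (b (d
  e)))))))), t true 1 (d (b (c (f (c (b (a (d e)))))))), t false 1 (f (b (a (d (a (b (c (f
  e))))))))])) nil nil) (br nil nil nil nil (hit [t false 1 (a (c (b (f (c (d (a e))))))), t false 1
  (a (d (a (c (b (f (c e))))))), t true 1 (a (d (c (b (f (c (a e))))))), t false 1 (b (f (a (d (a (c
  (b e))))))), t true 1 (b (f (c (a (d (a (b e))))))), t true 1 (c (a (d (a (b (f (c e))))))), t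
  false 1 (c (b (f (a (d (a (c e))))))), t true 1 (c (b (f (c (a (d (a e))))))), t false 1 (d (a (c
  (b (f (c (d e))))))), t true 1 (d (c (b (f (c (a (d e))))))), t false 1 (f (a (d (a (c (b (f
  e)))))))])) nil nil) (br (br nil nil (br nil nil nil nil (hit [t false 1 (a (b (c (b (f (c (d (a
  e)))))))), t false 1 (a (b (d (a (c (b (f (c e)))))))), t true 1 (a (b (d (c (b (f (c (a
  e)))))))), t false 1 (a (f (a (b (d (a (c (b e)))))))), t false 1 (a (f (b (d (a (b (c (b
  e)))))))), t true 1 (a (f (b (d (b (c (b (a e)))))))), t true 1 (a (f (c (a (b (d (a (b e)))))))),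
  t true 1 (b (a (f (a (d (a (c (b e)))))))), t false 1 (b (a (f (c (a (d (a (b e)))))))), t false 1
  (b (c (a (f (c (d (a (b e)))))))), t true 1 (b (c (b (a (f (c (d (a e)))))))), t false 1 (b (d (a
  (b (c (b (f (c e)))))))), t true 1 (b (d (b (c (b (a (f (c e)))))))), t true 1 (b (d (c (a (f (c
  (a (b e)))))))), t false 1 (b (d (c (b (a (f (c (a e)))))))), t true 1 (c (a (b (d (a (b (f (c
  e)))))))), t false 1 (c (a (f (a (b (d (a (c e)))))))), t false 1 (c (a (f (b (d (a (b (c
  e)))))))), t true 1 (c (a (f (c (a (b (d (a e)))))))), t true 1 (c (a (f (c (b (d (a (b e)))))))),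
  t true 1 (c (b (a (f (a (d (a (c e)))))))), t false 1 (c (b (a (f (c (a (d (a e)))))))), t false 1
  (d (a (b (c (b (f (c (d e)))))))), t true 1 (d (b (c (b (a (f (c (d e)))))))), t true 1 (d (c (a
  (f (c (a (b (d e)))))))), t false 1 (d (c (b (a (f (c (a (d e)))))))), t false 1 (f (a (b (d (a (c
  (b (f e)))))))), t false 1 (f (b (d (a (b (c (b (f e)))))))), t true 1 (f (b (d (b (c (b (a (f
  e))))))))])) nil nil) nil (br nil nil nil nil (hit [t false 1 (a (b (c (f (c (d (a e))))))), t
  true 1 (a (c (f (c (b (d (a e))))))), t false 1 (b (c (f (c (d (a (b e))))))), t false 1 (b (d (a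
  (b (c (f (c e))))))), t true 1 (b (d (a (c (f (c (b e))))))), t true 1 (c (b (d (a (b (f (c
  e))))))), t false 1 (c (f (b (d (a (b (c e))))))), t true 1 (c (f (c (b (d (a (b e))))))), t false
  1 (d (a (b (c (f (c (d e))))))), t true 1 (d (a (c (f (c (b (d e))))))), t false 1 (f (b (d (a (b
  (c (f e)))))))])) nil nil) (br nil nil nil nil (hit [t true 1 (a (b (f (c (d (a e)))))), t true 1
  (b (f (c (d (a (b e)))))), t true 1 (c (d (a (b (f (c e)))))), t true 1 (d (a (b (f (c (d
  e))))))])) nil (hit [t true 1 (a (b (f (d (a e))))), t true 1 (b (f (d (a (b e))))), t true 1 (d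
  (a (b (f (d e)))))])) (hit [t true 1 (a (b (f (a e)))), t true 1 (b (f (a (b e))))])) nil (br (br
  nil (br (br nil nil nil (br nil nil nil nil (hit [t false 1 (a (c (b (d (c (f (d (a e)))))))), t
  true 1 (a (c (d (c (f (d (b (a e)))))))), t false 1 (a (f (b (a (c (b (d (c e)))))))), t true 1 (a
  (f (b (c (b (d (c (a e)))))))), t true 1 (a (f (d (a (b (a (c (b e)))))))), t false 1 (b (a (c (b
  (d (c (f (d e)))))))), t true 1 (b (a (c (d (c (f (d (b e)))))))), t true 1 (b (c (b (d (c (a (f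
  (d e)))))))), t false 1 (b (c (d (c (a (f (d (b e)))))))), t false 1 (b (d (a (f (d (a (c (b
  e)))))))), t true 1 (b (d (c (a (f (d (a (b e)))))))), t false 1 (c (a (f (a (b (a (d (c
  e)))))))), t true 1 (c (a (f (d (a (b (a (c e)))))))), t false 1 (c (b (d (a (f (d (a (c
  e)))))))), t true 1 (c (b (d (c (a (f (d (a e)))))))), t true 1 (c (d (a (f (d (b (a (c e)))))))),
  t false 1 (c (d (c (a (f (d (b (a e)))))))), t true 1 (d (a (b (a (c (b (f (d e)))))))), t false 1
  (d (a (f (b (a (c (b (d e)))))))), t true 1 (d (a (f (d (b (a (c (b e)))))))), t false 1 (d (c (a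
  (f (a (b (a (d e)))))))), t true 1 (d (c (a (f (d (a (b (a e)))))))), t false 1 (f (b (a (c (b (d
  (c (f e)))))))), t true 1 (f (b (c (b (d (c (a (f e))))))))])) nil) nil nil nil nil) nil (br (br
  nil nil (br nil nil nil nil (hit [t true 1 (a (c (b (f (b (c (d (a e)))))))), t true 1 (a (d (a (c
  (b (f (b (c e)))))))), t false 1 (a (d (c (b (f (b (c (a e)))))))), t false 1 (b (c (a (d (a (c (f
  (b e)))))))), t false 1 (b (f (b (c (a (d (a (c e)))))))), t true 1 (b (f (c (a (d (a (c (b
  e)))))))), t false 1 (c (a (d (a (b (f (b (c e)))))))), t true 1 (c (a (d (a (c (b (f (b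
  e)))))))), t true 1 (c (b (f (b (a (d (a (c e)))))))), t false 1 (c (b (f (b (c (a (d (a
  e)))))))), t true 1 (d (a (c (b (f (b (c (d e)))))))), t false 1 (d (c (b (f (b (c (a (d
  e)))))))), t false 1 (f (b (c (a (d (a (c (f e))))))))])) nil nil) nil (br nil nil nil nil (hit [t
  false 1 (a (b (f (b (c (d (a e))))))), t true 1 (a (c (b (f (b (d (a e))))))), t false 1 (b (c (d
  (a (c (f (b e))))))), t false 1 (b (f (b (c (d (a (c e))))))), t true 1 (b (f (c (d (a (c (b
  e))))))), t true 1 (c (b (f (b (d (a (c e))))))), t false 1 (c (d (a (b (f (b (c e))))))), t true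
  1 (c (d (a (c (b (f (b e))))))), t false 1 (d (a (b (f (b (c (d e))))))), t true 1 (d (a (c (b (f
  (b (d e))))))), t false 1 (f (b (c (d (a (c (f e)))))))])) nil (hit [t true 1 (a (c (b (f (d (a
  e)))))), t true 1 (b (f (d (a (c (b e)))))), t true 1 (c (b (f (d (a (c e)))))), t true 1 (d (a (c
  (b (f (d e))))))])) (hit [t true 1 (a (c (b (f (a e))))), t true 1 (b (f (a (c (b e))))), t true 1
  (c (b (f (a (c e)))))])) (br (br nil nil nil (br nil nil nil nil (hit [t true 1 (a (b (c (b (f (d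
  (a e))))))), t false 1 (a (f (b (c (b (d (a e))))))), t true 1 (a (f (d (a (b (c (b e))))))), t
  false 1 (b (a (f (d (a (c (b e))))))), t true 1 (b (c (a (f (d (a (b e))))))), t false 1 (b (c (b
  (a (f (d (a e))))))), t false 1 (b (c (b (d (a (f (d e))))))), t true 1 (b (c (d (a (f (d (b
  e))))))), t false 1 (b (d (a (f (d (c (b e))))))), t true 1 (c (a (f (d (a (b (c e))))))), t false
  1 (c (b (a (f (d (a (c e))))))), t false 1 (c (b (d (a (f (d (c e))))))), t true 1 (c (d (a (f (d
  (b (c e))))))), t true 1 (d (a (b (c (b (f (d e))))))), t false 1 (d (a (f (b (c (b (d e))))))), t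
  true 1 (d (a (f (d (b (c (b e))))))), t false 1 (f (b (c (b (d (a (f e)))))))])) nil) nil nil (br
  (br nil nil nil nil (hit [t false 1 (a (b (c (b (d (f (a e))))))), t true 1 (a (d (b (c (b (f (a
  e))))))), t false 1 (b (c (b (d (f (a (d e))))))), t true 1 (b (c (d (f (a (d (b e))))))), t false
  1 (b (d (f (a (d (c (b e))))))), t false 1 (c (b (d (f (a (d (c e))))))), t true 1 (c (d (f (a (d
  (b (c e))))))), t true 1 (d (b (c (b (f (a (d e))))))), t false 1 (d (f (a (b (c (b (d e))))))), t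
  true 1 (d (f (a (d (b (c (b e))))))), t false 1 (f (a (b (c (b (d (f e)))))))])) nil nil nil (hit
  [t false 1 (b (c (b (d (f (d e)))))), t true 1 (b (c (d (f (d (b e)))))), t false 1 (b (d (f (d (c
  (b e)))))), t false 1 (c (b (d (f (d (c e)))))), t true 1 (c (d (f (d (b (c e)))))), t true 1 (d
  (b (c (b (f (d e)))))), t false 1 (d (f (b (c (b (d e)))))), t true 1 (d (f (d (b (c (b e)))))), t
  false 1 (f (b (c (b (d (f e))))))])) nil) nil (br (br nil (br (br nil nil nil (br nil nil nil nil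
  (hit [t true 1 (a (c (b (d (c (f (c (d (a e))))))))), t false 1 (a (c (d (c (f (c (d (b (a
  e))))))))), t true 1 (a (d (b (c (b (d (f (c (a e))))))))), t true 1 (a (f (b (a (d (b (c (b (d
  e))))))))), t false 1 (a (f (b (d (b (c (b (d (a e))))))))), t false 1 (a (f (c (a (d (a (b (a (d
  e))))))))), t true 1 (a (f (d (a (b (a (d (c (b e))))))))), t true 1 (b (a (c (b (d (c (f (c (d
  e))))))))), t false 1 (b (a (c (d (c (f (c (d (b e))))))))), t true 1 (b (a (d (b (c (b (d (f (c
  e))))))))), t false 1 (b (c (b (d (a (f (c (a (d e))))))))), t false 1 (b (c (b (d (c (a (f (c (d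
  e))))))))), t true 1 (b (c (d (a (f (c (a (d (b e))))))))), t true 1 (b (c (d (c (a (f (c (d (b
  e))))))))), t true 1 (b (d (a (f (a (d (a (c (b e))))))))), t false 1 (b (d (a (f (c (a (d (a (b
  e))))))))), t false 1 (b (d (b (c (b (d (a (f (c e))))))))), t false 1 (b (d (c (a (f (c (d (a (b
  e))))))))), t false 1 (c (a (d (a (b (a (d (f (c e))))))))), t false 1 (c (a (f (c (d (a (b (a (d
  e))))))))), t true 1 (c (a (f (d (a (b (a (d (c e))))))))), t true 1 (c (b (d (a (f (a (d (a (c
  e))))))))), t false 1 (c (b (d (a (f (c (a (d (a e))))))))), t false 1 (c (b (d (c (a (f (c (d (a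
  e))))))))), t false 1 (c (d (a (f (a (d (b (a (c e))))))))), t true 1 (c (d (a (f (c (a (d (b (a
  e))))))))), t true 1 (c (d (c (a (f (c (d (b (a e))))))))), t false 1 (d (a (b (a (c (b (f (c (d
  e))))))))), t true 1 (d (a (b (a (d (c (b (f (c e))))))))), t true 1 (d (a (f (a (b (a (c (b (d
  e))))))))), t false 1 (d (a (f (a (d (b (a (c (b e))))))))), t false 1 (d (a (f (c (a (d (a (b (a
  e))))))))), t true 1 (d (b (c (b (a (f (c (a (d e))))))))), t false 1 (d (b (c (b (d (a (f (c (a
  e))))))))), t true 1 (d (c (a (f (c (a (b (a (d e))))))))), t false 1 (d (c (a (f (c (d (a (b (a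
  e))))))))), t true 1 (f (b (a (d (b (c (b (d (f e))))))))), t false 1 (f (b (d (b (c (b (d (a (f
  e))))))))), t false 1 (f (c (a (d (a (b (a (d (f e)))))))))])) nil) nil nil nil nil) (br nil nil
  nil nil (hit [t false 1 (a (d (b (f (b (c (a e))))))), t true 1 (a (d (c (b (f (b (a e))))))), t
  false 1 (b (c (a (d (c (f (b e))))))), t false 1 (b (f (b (c (a (d (c e))))))), t true 1 (b (f (c
  (a (d (c (b e))))))), t false 1 (c (a (d (b (f (b (c e))))))), t true 1 (c (a (d (c (b (f (b
  e))))))), t true 1 (c (b (f (b (a (d (c e))))))), t false 1 (d (b (f (b (c (a (d e))))))), t true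
  1 (d (c (b (f (b (a (d e))))))), t false 1 (f (b (c (a (d (c (f e)))))))])) nil (hit [t true 1 (a
  (d (c (b (f (a e)))))), t true 1 (b (f (a (d (c (b e)))))), t true 1 (c (b (f (a (d (c e)))))), t
  true 1 (d (c (b (f (a (d e))))))])) nil (br (br nil nil nil nil (hit [t false 1 (a (b (c (d (c (f
  (a e))))))), t true 1 (a (c (d (c (b (f (a e))))))), t false 1 (b (c (d (c (f (a (b e))))))), t
  false 1 (b (f (a (b (c (d (c e))))))), t true 1 (b (f (a (c (d (c (b e))))))), t true 1 (c (b (f
  (a (b (d (c e))))))), t false 1 (c (d (b (f (a (b (c e))))))), t true 1 (c (d (c (b (f (a (b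
  e))))))), t false 1 (d (b (f (a (b (c (d e))))))), t true 1 (d (c (b (f (a (b (d e))))))), t false
  1 (f (a (b (c (d (c (f e)))))))])) nil nil nil (hit [t false 1 (b (c (d (c (f (b e)))))), t false
  1 (b (f (b (c (d (c e)))))), t true 1 (b (f (c (d (c (b e)))))), t true 1 (c (b (f (b (d (c
  e)))))), t false 1 (c (d (b (f (b (c e)))))), t true 1 (c (d (c (b (f (b e)))))), t false 1 (d (b
  (f (b (c (d e)))))), t true 1 (d (c (b (f (b (d e)))))), t false 1 (f (b (c (d (c (f e))))))]))
  nil (hit [t true 1 (b (f (d (c (b e))))), t true 1 (c (b (f (d (c e))))), t true 1 (d (c (b (f (d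
  e)))))])) (hit [t true 1 (b (f (c (b e)))), t true 1 (c (b (f (c e))))])) (br (br nil (br (br nil
  nil (br nil nil nil nil (hit [t false 1 (a (b (a (c (d (b (f (c e)))))))), t true 1 (a (b (c (d (b
  (f (c (a e)))))))), t true 1 (a (c (d (b (c (f (c (a e)))))))), t false 1 (a (c (d (c (f (c (b (a
  e)))))))), t false 1 (a (f (a (b (a (c (d (b e)))))))), t true 1 (a (f (b (a (c (d (b (c
  e)))))))), t false 1 (a (f (b (c (d (b (c (a e)))))))), t true 1 (a (f (c (a (b (a (d (b
  e)))))))), t true 1 (b (a (c (d (b (c (f (c e)))))))), t false 1 (b (a (c (d (c (f (c (b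
  e)))))))), t false 1 (b (c (a (f (c (a (d (b e)))))))), t true 1 (b (c (d (a (f (c (a (b
  e)))))))), t false 1 (b (c (d (b (a (f (c (a e)))))))), t false 1 (b (c (d (b (c (a (f (c
  e)))))))), t true 1 (b (c (d (c (a (f (c (b e)))))))), t true 1 (c (a (b (a (d (b (f (c e)))))))),
  t false 1 (c (a (f (b (a (d (b (c e)))))))), t true 1 (c (a (f (c (b (a (d (b e)))))))), t false 1
  (c (d (a (f (a (b (a (c e)))))))), t true 1 (c (d (a (f (c (a (b (a e)))))))), t false 1 (c (d (b
  (c (a (f (c (a e)))))))), t true 1 (c (d (c (a (f (c (b (a e)))))))), t false 1 (d (a (f (a (b (a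
  (c (d e)))))))), t true 1 (d (a (f (c (a (b (a (d e)))))))), t false 1 (d (b (c (a (f (c (a (d
  e)))))))), t true 1 (d (c (a (f (c (b (a (d e)))))))), t false 1 (f (a (b (a (c (d (b (f
  e)))))))), t true 1 (f (b (a (c (d (b (c (f e)))))))), t false 1 (f (b (c (d (b (c (a (f
  e))))))))])) nil nil) nil (br nil (br nil nil nil nil (hit [t false 1 (a (b (c (b (d (b (f (a
  e)))))))), t true 1 (a (c (f (a (b (c (d (b e)))))))), t false 1 (a (c (f (b (c (d (b (a
  e)))))))), t true 1 (a (d (a (c (f (a (b (c e)))))))), t false 1 (a (d (b (a (c (f (a (c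
  e)))))))), t false 1 (a (d (c (f (a (b (c (b e)))))))), t true 1 (a (d (c (f (b (c (b (a
  e)))))))), t false 1 (b (a (c (f (a (c (d (b e)))))))), t true 1 (b (a (d (a (c (f (a (b
  e)))))))), t false 1 (b (a (d (b (a (c (f (a e)))))))), t false 1 (b (a (d (b (c (f (a (c
  e)))))))), t true 1 (b (a (d (c (f (a (c (b e)))))))), t false 1 (b (c (a (d (a (f (a (b
  e)))))))), t true 1 (b (c (a (d (b (a (f (a e)))))))), t true 1 (b (c (b (a (d (b (f (a e)))))))),
  t false 1 (c (a (d (a (f (a (b (c e)))))))), t true 1 (c (a (d (b (a (f (a (c e)))))))), t true 1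
  (c (b (a (d (b (f (a (c e)))))))), t false 1 (c (f (a (b (c (b (d (b e)))))))), t false 1 (c (f (b
  (a (d (b (a (c e)))))))), t true 1 (c (f (b (c (a (d (b (a e)))))))), t true 1 (c (f (b (c (b (a
  (d (b e)))))))), t true 1 (d (a (c (f (a (b (c (d e)))))))), t false 1 (d (b (a (c (f (a (c (d
  e)))))))), t false 1 (d (c (f (a (b (c (b (d e)))))))), t true 1 (d (c (f (b (c (b (a (d
  e)))))))), t false 1 (f (a (b (c (b (d (b (f e)))))))), t false 1 (f (b (a (d (b (a (c (f
  e)))))))), t true 1 (f (b (c (a (d (b (a (f e))))))))])) nil nil (hit [t false 1 (a (d (b (c (f (c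
  (a e))))))), t true 1 (a (d (c (f (c (b (a e))))))), t false 1 (b (a (d (b (c (f (c e))))))), t
  true 1 (b (a (d (c (f (c (b e))))))), t false 1 (b (c (f (c (a (d (b e))))))), t true 1 (c (b (a
  (d (b (f (c e))))))), t false 1 (c (f (b (a (d (b (c e))))))), t true 1 (c (f (c (b (a (d (b
  e))))))), t false 1 (d (b (c (f (c (a (d e))))))), t true 1 (d (c (f (c (b (a (d e))))))), t false
  1 (f (b (a (d (b (c (f e)))))))])) nil nil) (br nil nil nil nil (hit [t true 1 (a (d (b (f (c (a
  e)))))), t true 1 (b (f (c (a (d (b e)))))), t true 1 (c (a (d (b (f (c e)))))), t true 1 (d (b (f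
  (c (a (d e))))))])) nil (hit [t true 1 (a (d (b (f (a e))))), t true 1 (b (f (a (d (b e))))), t
  true 1 (d (b (f (a (d e)))))])) (br (br nil nil (br nil nil nil nil (hit [t true 1 (a (b (d (b (f
  (c (a e))))))), t false 1 (a (f (b (d (b (c (a e))))))), t true 1 (a (f (c (a (b (d (b e))))))), t
  false 1 (b (a (f (c (a (d (b e))))))), t false 1 (b (c (a (f (c (d (b e))))))), t true 1 (b (d (a
  (f (c (a (b e))))))), t false 1 (b (d (b (a (f (c (a e))))))), t false 1 (b (d (b (c (a (f (c
  e))))))), t true 1 (b (d (c (a (f (c (b e))))))), t true 1 (c (a (b (d (b (f (c e))))))), t false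
  1 (c (a (f (b (d (b (c e))))))), t true 1 (c (a (f (c (b (d (b e))))))), t true 1 (d (a (f (c (a
  (b (d e))))))), t false 1 (d (b (a (f (c (a (d e))))))), t false 1 (d (b (c (a (f (c (d e))))))),
  t true 1 (d (c (a (f (c (b (d e))))))), t false 1 (f (b (d (b (c (a (f e)))))))])) nil nil) nil
  (br (br nil nil nil nil (hit [t false 1 (a (b (d (b (c (f (a e))))))), t true 1 (a (c (b (d (b (f
  (a e))))))), t false 1 (b (c (f (a (c (d (b e))))))), t false 1 (b (d (b (c (f (a (c e))))))), t
  true 1 (b (d (c (f (a (c (b e))))))), t true 1 (c (b (d (b (f (a (c e))))))), t false 1 (c (f (a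
  (b (d (b (c e))))))), t true 1 (c (f (a (c (b (d (b e))))))), t false 1 (d (b (c (f (a (c (d
  e))))))), t true 1 (d (c (f (a (c (b (d e))))))), t false 1 (f (a (b (d (b (c (f e)))))))])) nil
  nil nil (hit [t false 1 (b (c (f (c (d (b e)))))), t false 1 (b (d (b (c (f (c e)))))), t true 1
  (b (d (c (f (c (b e)))))), t true 1 (c (b (d (b (f (c e)))))), t false 1 (c (f (b (d (b (c
  e)))))), t true 1 (c (f (c (b (d (b e)))))), t false 1 (d (b (c (f (c (d e)))))), t true 1 (d (c
  (f (c (b (d e)))))), t false 1 (f (b (d (b (c (f e))))))])) nil nil) (br (br nil nil nil nil (hit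
  [t true 1 (a (c (d (b (f (a e)))))), t true 1 (b (f (a (c (d (b e)))))), t true 1 (c (d (b (f (a
  (c e)))))), t true 1 (d (b (f (a (c (d e))))))])) nil nil nil (hit [t true 1 (b (f (c (d (b
  e))))), t true 1 (c (d (b (f (c e))))), t true 1 (d (b (f (c (d e)))))])) nil (hit [t true 1 (b (f
  (d (b e)))), t true 1 (d (b (f (d e))))])) nil)

def R53 : R := (br (br nil (br (br nil nil nil (br nil nil nil nil (hit [t false 1 (a (b (a (d (c (f
  (d e))))))), t true 1 (a (b (d (c (f (d (a e))))))), t false 1 (a (d (c (f (d (b (a e))))))), t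
  false 1 (b (a (d (c (f (d (b e))))))), t true 1 (b (d (c (f (d (a (b e))))))), t false 1 (c (f (a
  (b (a (d (c e))))))), t true 1 (c (f (d (a (b (a (c e))))))), t true 1 (d (a (b (a (c (f (d
  e))))))), t false 1 (d (c (f (a (b (a (d e))))))), t true 1 (d (c (f (d (a (b (a e))))))), t false
  1 (f (a (b (a (d (c (f e)))))))])) nil) nil nil (br nil (br nil nil nil nil (hit [t false 1 (a (b
  (d (b (c (f (a e))))))), t false 1 (a (c (f (a (b (d (b e))))))), t true 1 (a (c (f (b (d (b (a
  e))))))), t true 1 (b (a (c (f (a (d (b e))))))), t false 1 (b (d (a (c (f (a (b e))))))), t true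
  1 (b (d (b (a (c (f (a e))))))), t false 1 (c (f (a (b (d (b (c e))))))), t true 1 (c (f (b (d (b
  (a (c e))))))), t false 1 (d (a (c (f (a (b (d e))))))), t true 1 (d (b (a (c (f (a (d e))))))), t
  false 1 (f (a (b (d (b (c (f e)))))))])) nil nil (hit [t true 1 (a (c (f (d (b (a e)))))), t true
  1 (b (a (c (f (d (b e)))))), t true 1 (c (f (d (b (a (c e)))))), t true 1 (d (b (a (c (f (d
  e))))))])) (hit [t true 1 (a (c (f (b (a e))))), t true 1 (b (a (c (f (b e))))), t true 1 (c (f (b
  (a (c e)))))])) nil (br (br nil (br nil nil nil nil (hit [t false 1 (a (b (c (f (b (d (a e))))))),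
  t false 1 (a (d (a (b (c (f (b e))))))), t true 1 (a (d (b (c (f (b (a e))))))), t true 1 (b (a (d
  (a (c (f (b e))))))), t false 1 (b (c (f (a (d (a (b e))))))), t true 1 (b (c (f (b (a (d (a
  e))))))), t false 1 (c (f (a (d (a (b (c e))))))), t true 1 (c (f (b (a (d (a (c e))))))), t false
  1 (d (a (b (c (f (b (d e))))))), t true 1 (d (b (c (f (b (a (d e))))))), t false 1 (f (a (d (a (b
  (c (f e)))))))])) nil nil nil) (br nil nil nil nil (hit [t true 1 (a (c (f (b (d (a e)))))), t
  true 1 (b (d (a (c (f (b e)))))), t true 1 (c (f (b (d (a (c e)))))), t true 1 (d (a (c (f (b (d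
  e))))))])) nil nil (hit [t true 1 (a (c (f (d (a e))))), t true 1 (c (f (d (a (c e))))), t true 1
  (d (a (c (f (d e)))))])) (hit [t true 1 (a (c (f (a e)))), t true 1 (c (f (a (c e))))])) (br (br
  nil nil nil (br nil nil nil nil (hit [t true 1 (a (b (c (f (d (a e)))))), t true 1 (b (c (f (d (a
  (b e)))))), t true 1 (c (f (d (a (b (c e)))))), t true 1 (d (a (b (c (f (d e))))))])) (hit [t true
  1 (a (b (c (f (a e))))), t true 1 (b (c (f (a (b e))))), t true 1 (c (f (a (b (c e)))))])) nil nil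
  (br (br nil nil nil nil (hit [t true 1 (a (d (b (c (f (a e)))))), t true 1 (b (c (f (a (d (b
  e)))))), t true 1 (c (f (a (d (b (c e)))))), t true 1 (d (b (c (f (a (d e))))))])) nil nil nil
  (hit [t true 1 (b (c (f (d (b e))))), t true 1 (c (f (d (b (c e))))), t true 1 (d (b (c (f (d
  e)))))])) (hit [t true 1 (b (c (f (b e)))), t true 1 (c (f (b (c e))))])) nil (br (br nil (br nil
  nil nil nil (hit [t true 1 (a (d (c (f (b (a e)))))), t true 1 (b (a (d (c (f (b e)))))), t true 1
  (c (f (b (a (d (c e)))))), t true 1 (d (c (f (b (a (d e))))))])) nil nil (hit [t true 1 (a (d (c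
  (f (a e))))), t true 1 (c (f (a (d (c e))))), t true 1 (d (c (f (a (d e)))))])) (br (br nil nil
  nil nil (hit [t true 1 (a (b (d (c (f (a e)))))), t true 1 (b (d (c (f (a (b e)))))), t true 1 (c
  (f (a (b (d (c e)))))), t true 1 (d (c (f (a (b (d e))))))])) nil nil nil (hit [t true 1 (b (d (c
  (f (b e))))), t true 1 (c (f (b (d (c e))))), t true 1 (d (c (f (b (d e)))))])) nil nil (hit [t
  true 1 (c (f (d (c e)))), t true 1 (d (c (f (d e))))])) nil)

def R54 : R := (br (br nil (br (br nil nil (br nil nil nil nil (hit [t false 1 (a (b (a (c (d (f (c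
  e))))))), t true 1 (a (b (c (d (f (c (a e))))))), t false 1 (a (c (d (f (c (b (a e))))))), t false
  1 (b (a (c (d (f (c (b e))))))), t true 1 (b (c (d (f (c (a (b e))))))), t true 1 (c (a (b (a (d
  (f (c e))))))), t false 1 (c (d (f (a (b (a (c e))))))), t true 1 (c (d (f (c (a (b (a e))))))), t
  false 1 (d (f (a (b (a (c (d e))))))), t true 1 (d (f (c (a (b (a (d e))))))), t false 1 (f (a (b
  (a (c (d (f e)))))))])) nil nil) nil (br nil (br nil nil nil nil (hit [t false 1 (a (b (c (b (d (f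
  (a e))))))), t false 1 (a (d (f (a (b (c (b e))))))), t true 1 (a (d (f (b (c (b (a e))))))), t
  true 1 (b (a (d (f (a (c (b e))))))), t false 1 (b (c (a (d (f (a (b e))))))), t true 1 (b (c (b
  (a (d (f (a e))))))), t false 1 (c (a (d (f (a (b (c e))))))), t true 1 (c (b (a (d (f (a (c
  e))))))), t false 1 (d (f (a (b (c (b (d e))))))), t true 1 (d (f (b (c (b (a (d e))))))), t false
  1 (f (a (b (c (b (d (f e)))))))])) nil nil (hit [t true 1 (a (d (f (c (b (a e)))))), t true 1 (b
  (a (d (f (c (b e)))))), t true 1 (c (b (a (d (f (c e)))))), t true 1 (d (f (c (b (a (d e))))))]))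
  nil (hit [t true 1 (a (d (f (b (a e))))), t true 1 (b (a (d (f (b e))))), t true 1 (d (f (b (a (d
  e)))))])) (br (br nil (br nil nil nil nil (hit [t false 1 (a (b (d (f (b (c (a e))))))), t false 1
  (a (c (a (b (d (f (b e))))))), t true 1 (a (c (b (d (f (b (a e))))))), t true 1 (b (a (c (a (d (f
  (b e))))))), t false 1 (b (d (f (a (c (a (b e))))))), t true 1 (b (d (f (b (a (c (a e))))))), t
  false 1 (c (a (b (d (f (b (c e))))))), t true 1 (c (b (d (f (b (a (c e))))))), t false 1 (d (f (a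
  (c (a (b (d e))))))), t true 1 (d (f (b (a (c (a (d e))))))), t false 1 (f (a (c (a (b (d (f
  e)))))))])) nil nil nil) (br nil nil nil nil (hit [t true 1 (a (d (f (b (c (a e)))))), t true 1 (b
  (c (a (d (f (b e)))))), t true 1 (c (a (d (f (b (c e)))))), t true 1 (d (f (b (c (a (d e))))))]))
  nil nil (hit [t true 1 (a (d (f (c (a e))))), t true 1 (c (a (d (f (c e))))), t true 1 (d (f (c (a
  (d e)))))])) nil (hit [t true 1 (a (d (f (a e)))), t true 1 (d (f (a (d e))))])) (br (br nil nil
  (br nil nil nil nil (hit [t true 1 (a (b (d (f (c (a e)))))), t true 1 (b (d (f (c (a (b e)))))),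
  t true 1 (c (a (b (d (f (c e)))))), t true 1 (d (f (c (a (b (d e))))))])) nil (hit [t true 1 (a (b
  (d (f (a e))))), t true 1 (b (d (f (a (b e))))), t true 1 (d (f (a (b (d e)))))])) nil (br (br nil
  nil nil nil (hit [t true 1 (a (c (b (d (f (a e)))))), t true 1 (b (d (f (a (c (b e)))))), t true 1
  (c (b (d (f (a (c e)))))), t true 1 (d (f (a (c (b (d e))))))])) nil nil nil (hit [t true 1 (b (d
  (f (c (b e))))), t true 1 (c (b (d (f (c e))))), t true 1 (d (f (c (b (d e)))))])) nil (hit [t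
  true 1 (b (d (f (b e)))), t true 1 (d (f (b (d e))))])) (br (br nil (br nil nil nil nil (hit [t
  true 1 (a (c (d (f (b (a e)))))), t true 1 (b (a (c (d (f (b e)))))), t true 1 (c (d (f (b (a (c
  e)))))), t true 1 (d (f (b (a (c (d e))))))])) nil nil (hit [t true 1 (a (c (d (f (a e))))), t
  true 1 (c (d (f (a (c e))))), t true 1 (d (f (a (c (d e)))))])) (br (br nil nil nil nil (hit [t
  true 1 (a (b (c (d (f (a e)))))), t true 1 (b (c (d (f (a (b e)))))), t true 1 (c (d (f (a (b (c
  e)))))), t true 1 (d (f (a (b (c (d e))))))])) nil nil nil (hit [t true 1 (b (c (d (f (b e))))), t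
  true 1 (c (d (f (b (c e))))), t true 1 (d (f (b (c (d e)))))])) nil nil (hit [t true 1 (c (d (f (c
  e)))), t true 1 (d (f (c (d e))))])) nil (hit [t true 1 (d (f (d e)))]))

def R5 : R := R.br R51 R52 R53 R54 R.nil

end H387FK
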